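import Pool.Agent.Lib.MP_16d934_gt.StC

/-! Classical and weak solutions; removal of a line of odd symmetry and of a point. -/

set_option autoImplicit false

open Set Metric Filter Topology MeasureTheory
open scoped ContDiff NNReal

noncomputable section

namespace Pool.Agent.Lib.MP_16d934_gt

namespace ACW

/-- the integrand of the weak formulation -/
def ig (a : P2 → P2) (b η : P2 → ℝ) (y : P2) : ℝ := dot (a y) (grad η y) + b y * η y

/-- the weak equation for given coefficient fields -/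
def WE (a : P2 → P2) (b : P2 → ℝ) (U : Set P2) : Prop :=
  ∀ (η : P2 → ℝ) (L : ℝ≥0), LipschitzWith L η → HasCompactSupport η → tsupport η ⊆ U →
    ∫ y, ig a b η y = 0

/-- measurable and locally bounded coefficient fields -/
def Good (a : P2 → P2) (b : P2 → ℝ) : Prop :=
  Measurable a ∧ Measurable b ∧
    ∀ K : Set P2, IsCompact K → ∃ M : ℝ, 0 ≤ M ∧ ∀ y ∈ K, ‖a y‖ ≤ M ∧ |b y| ≤ M

/-- flux of `u` -/
def fa (u : P2 → ℝ) (y : P2) : P2 := FP y (u y) (grad u y)

/-- source of `u` -/
def fb (u : P2 → ℝ) (y : P2) : ℝ := FZ y (u y) (grad u y)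

theorem weak_iff (u : P2 → ℝ) (U : Set P2) : Weak u U ↔ WE (fa u) (fb u) U := Iff.rfl

theorem fderiv_eq_dot (f : P2 → ℝ) (y v : P2) : fderiv ℝ f y v = dot (grad f y) v := by
  have h : v = v.1 • ((1, 0) : P2) + v.2 • ((0, 1) : P2) := by ext <;> simp
  conv_lhs => rw [h]
  rw [map_add, map_smul, map_smul]
  simp only [dot, grad, d1, d2, smul_eq_mul]
  ring

theorem grad_congr {f g : P2 → ℝ} {y : P2} (h : f =ᶠ[𝓝 y] g) : grad f y = grad g y := by
  simp only [grad, d1, d2, h.fderiv_eq]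

theorem ig_congr (a : P2 → P2) (b : P2 → ℝ) {f g : P2 → ℝ} {y : P2} (h : f =ᶠ[𝓝 y] g) :
    ig a b f y = ig a b g y := by
  simp only [ig, grad_congr h, h.eq_of_nhds]

theorem ig_zero' (a : P2 → P2) (b : P2 → ℝ) {f : P2 → ℝ} {y : P2} (h : f =ᶠ[𝓝 y] 0) :
    ig a b f y = 0 := by
  rw [ig_congr a b h]
  simp [ig, grad, d1, d2, dot]

theorem ig_zero (a : P2 → P2) (b : P2 → ℝ) {f : P2 → ℝ} {y : P2} (h : y ∉ tsupport f) :
    ig a b f y = 0 :=
  ig_zero' a b (notMem_tsupport_iff_eventuallyEq.1 h)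

theorem norm_grad_le {f : P2 → ℝ} {L : ℝ≥0} (h : LipschitzWith L f) (y : P2) :
    ‖grad f y‖ ≤ L := by
  have h0 : ‖fderiv ℝ f y‖ ≤ L := norm_fderiv_le_of_lipschitz ℝ h
  have h1 : ‖fderiv ℝ f y (1, 0)‖ ≤ L := by
    have := (fderiv ℝ f y).le_opNorm ((1, 0) : P2)
    simp only [Prod.norm_mk, norm_one, norm_zero, zero_le_one, sup_of_le_left, mul_one] at this
    exact this.trans h0
  have h2 : ‖fderiv ℝ f y (0, 1)‖ ≤ L := by
    have := (fderiv ℝ f y).le_opNorm ((0, 1) : P2)
    simp only [Prod.norm_mk, norm_one, norm_zero, zero_le_one, sup_of_le_right, mul_one] at this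
    exact this.trans h0
  simp only [grad, d1, d2, Prod.norm_mk]
  exact max_le h1 h2

theorem abs_dot_le (a b : P2) : |dot a b| ≤ 2 * ‖a‖ * ‖b‖ := by
  have a1 : |a.1| ≤ ‖a‖ := norm_fst_le a
  have a2 : |a.2| ≤ ‖a‖ := norm_snd_le a
  have b1 : |b.1| ≤ ‖b‖ := norm_fst_le b
  have b2 : |b.2| ≤ ‖b‖ := norm_snd_le b
  have h1 := mul_le_mul a1 b1 (abs_nonneg _) (norm_nonneg _)
  have h2 := mul_le_mul a2 b2 (abs_nonneg _) (norm_nonneg _)
  have := abs_add_le (a.1 * b.1) (a.2 * b.2)
  rw [abs_mul, abs_mul] at this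
  unfold dot
  linarith

theorem ig_bound {a : P2 → P2} {b f : P2 → ℝ} {L : ℝ≥0} (h : LipschitzWith L f) {y : P2}
    {M N : ℝ} (ha : ‖a y‖ ≤ M) (hb : |b y| ≤ M) (hf : |f y| ≤ N) :
    |ig a b f y| ≤ M * (2 * L + N) := by
  have hM : 0 ≤ M := (norm_nonneg _).trans ha
  have h1 := abs_dot_le (a y) (grad f y)
  have h2 := norm_grad_le h y
  have h3 : ‖a y‖ * ‖grad f y‖ ≤ M * L := mul_le_mul ha h2 (norm_nonneg _) hM
  have h4 : |b y * f y| ≤ M * N := by
    rw [abs_mul]; exact mul_le_mul hb hf (abs_nonneg _) hM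
  have := abs_add_le (dot (a y) (grad f y)) (b y * f y)
  unfold ig
  nlinarith

theorem measurable_grad (f : P2 → ℝ) : Measurable (grad f) :=
  (measurable_fderiv_apply_const ℝ f _).prodMk (measurable_fderiv_apply_const ℝ f _)

theorem measurable_ig {a : P2 → P2} {b f : P2 → ℝ} (ha : Measurable a) (hb : Measurable b)
    (hf : Continuous f) : Measurable (ig a b f) := by
  have h1 := measurable_grad f
  exact ((ha.fst.mul h1.fst).add (ha.snd.mul h1.snd)).add (hb.mul hf.measurable)

theorem exists_bound {f : P2 → ℝ} (hf : Continuous f) (hc : HasCompactSupport f) :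
    ∃ N : ℝ, 0 < N ∧ ∀ y, |f y| ≤ N := by
  obtain ⟨C, hC⟩ := hc.exists_bound_of_continuous hf
  exact ⟨|C| + 1, by positivity, fun y => (hC y).trans (by linarith [le_abs_self C])⟩

theorem integrable_of_bound {F : P2 → ℝ} (hF : Measurable F) {K : Set P2} (hK : IsCompact K)
    {C : ℝ} (h0 : ∀ y, y ∉ K → F y = 0) (h1 : ∀ y ∈ K, |F y| ≤ C) : Integrable F := by
  refine (integrableOn_iff_integrable_of_support_subset (s := K) ?_).1 ?_
  · intro y hy
    by_contra h
    exact hy (h0 y h)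
  · refine Measure.integrableOn_of_bounded hK.measure_lt_top.ne hF.aestronglyMeasurable
      (M := C) ?_
    filter_upwards [ae_restrict_mem hK.measurableSet] with y hy using h1 y hy

theorem integrable_ig {a : P2 → P2} {b f : P2 → ℝ} (hG : Good a b) {L : ℝ≥0}
    (h : LipschitzWith L f) (hc : HasCompactSupport f) : Integrable (ig a b f) := by
  obtain ⟨M, -, hM⟩ := hG.2.2 _ hc
  obtain ⟨N, -, hN⟩ := exists_bound h.continuous hc
  exact integrable_of_bound (measurable_ig hG.1 hG.2.1 h.continuous) hc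
    (fun y hy => ig_zero a b hy) fun y hy => ig_bound h (hM y hy).1 (hM y hy).2 (hN y)

/-- truncation of `f` to the interval `[-g, g]` -/
def cl (f g : P2 → ℝ) (y : P2) : ℝ := max (-g y) (min (f y) (g y))

theorem cl_lip {f g : P2 → ℝ} {K K' : ℝ≥0} (hf : LipschitzWith K f) (hg : LipschitzWith K' g) :
    LipschitzWith (max K K') (cl f g) := by
  have h1 : LipschitzWith K' fun y => -g y := hg.neg
  have := h1.max (hf.min hg)
  refine this.weaken ?_
  simp

theorem cl_eq {f g : P2 → ℝ} {y : P2} (h : |f y| ≤ g y) : cl f g y = f y := by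
  have := abs_le.1 h
  unfold cl
  rw [min_eq_left this.2, max_eq_right this.1]

theorem cl_zero {f g : P2 → ℝ} {y : P2} (h : g y = 0) : cl f g y = 0 := by
  unfold cl
  rw [h, neg_zero, max_eq_left (min_le_right _ _)]

theorem abs_cl_le {f g : P2 → ℝ} {y : P2} (h : 0 ≤ g y) : |cl f g y| ≤ |f y| := by
  unfold cl
  rw [abs_le]
  have h1 := le_abs_self (f y)
  have h2 := neg_abs_le (f y)
  have h3 := abs_nonneg (f y)
  constructor
  · refine le_max_of_le_right (le_min h2 ?_)
    linarith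
  · refine max_le (by linarith) ((min_le_left _ _).trans h1)

theorem tsupport_cl {f g : P2 → ℝ} (h : ∀ y, 0 ≤ g y) : tsupport (cl f g) ⊆ tsupport f := by
  refine closure_mono fun y hy h0 => hy ?_
  have := abs_cl_le (f := f) (h y)
  rw [h0, abs_zero] at this
  exact abs_nonpos_iff.1 this

theorem tsupport_cl' {f g : P2 → ℝ} {Z : Set P2} (hZ : IsClosed Z) (h : ∀ y, y ∉ Z → g y = 0) :
    tsupport (cl f g) ⊆ Z := by
  refine closure_minimal (fun y hy => ?_) hZ
  by_contra h0
  exact hy (cl_zero (h y h0))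

theorem we_point {a : P2 → P2} {b : P2 → ℝ} (hG : Good a b) {U : Set P2} {y₀ : P2}
    (hW : WE a b (U \ {y₀})) : WE a b U := by
  intro η L hL hc hs
  obtain ⟨N, hN0, hN⟩ := exists_bound hL.continuous hc
  obtain ⟨M, hM0, hM⟩ := hG.2.2 _ hc
  set c : ℝ := (volume : Measure P2).real (closedBall 0 1) with hc0
  have hc1 : 0 ≤ c := measureReal_nonneg
  have key : ∀ t : ℝ, 0 < t → t ≤ 1 →
      |∫ y, ig a b η y| ≤ 4 * c * (M * (4 * L + 4 * N)) * t := by
    intro t ht ht1
    set g : P2 → ℝ := fun y => N / t * max (dist y y₀ - t) 0 with hg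
    have hNt : 0 ≤ N / t := by positivity
    have g0 : ∀ y, 0 ≤ g y := fun y => mul_nonneg hNt (le_max_right _ _)
    have gL : LipschitzWith (N / t).toNNReal g := by
      refine LipschitzWith.of_dist_le_mul fun x y => ?_
      rw [Real.coe_toNNReal _ hNt, Real.dist_eq, hg]
      simp only
      rw [← mul_sub, abs_mul, abs_of_nonneg hNt]
      refine mul_le_mul_of_nonneg_left ((abs_max_sub_max_le_abs _ _ _).trans ?_) hNt
      have := abs_dist_sub_le x y y₀
      simpa using this
    have hθ := cl_lip hL gL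
    have hθs : tsupport (cl η g) ⊆ tsupport η := tsupport_cl g0
    have hθc : HasCompactSupport (cl η g) := hc.of_isClosed_subset (isClosed_tsupport _) hθs
    have hθz : tsupport (cl η g) ⊆ {y | t ≤ dist y y₀} := by
      refine tsupport_cl' (isClosed_le continuous_const (by fun_prop)) fun y hy => ?_
      have : dist y y₀ - t ≤ 0 := by
        simp only [mem_ofPred_eq, not_le] at hy
        linarith
      simp only [hg, max_eq_right this, mul_zero]
    have h0 := hW _ _ hθ hθc fun y hy => ⟨hs (hθs hy), fun h => by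
      have := hθz hy
      rw [mem_singleton_iff.1 h] at this
      simp only [dist_self, mem_ofPred_eq] at this
      linarith⟩
    have hsub : ∫ y, ig a b η y = ∫ y, (ig a b η y - ig a b (cl η g) y) := by
      rw [integral_sub (integrable_ig hG hL hc) (integrable_ig hG hθ hθc), h0, sub_zero]
    have hout : ∀ y, y ∉ closedBall y₀ (2 * t) → ig a b η y - ig a b (cl η g) y = 0 := by
      intro y hy
      have hev : cl η g =ᶠ[𝓝 y] η := by
        filter_upwards [isClosed_closedBall.isOpen_compl.mem_nhds hy] with x hx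
        refine cl_eq ((hN x).trans ?_)
        have h1 : 2 * t < dist x y₀ := by simpa using hx
        have h2 : t ≤ max (dist x y₀ - t) 0 := le_max_of_le_left (by linarith)
        calc N = N / t * t := by field_simp
          _ ≤ _ := mul_le_mul_of_nonneg_left h2 hNt
      rw [ig_congr a b hev, sub_self]
    have hin : ∀ y, ‖ig a b η y - ig a b (cl η g) y‖ ≤ M * (4 * L + 4 * N) / t := by
      intro y
      by_cases hy : y ∈ tsupport η
      · have h1 := ig_bound (a := a) (b := b) hL (hM y hy).1 (hM y hy).2 (hN y)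
        have h2 := ig_bound (a := a) (b := b) hθ (hM y hy).1 (hM y hy).2
          ((abs_cl_le (g0 y)).trans (hN y))
        have h3 : ((max L (N / t).toNNReal : ℝ≥0) : ℝ) ≤ L + N / t := by
          rw [NNReal.coe_max, Real.coe_toNNReal _ hNt]
          exact max_le (by linarith) (by linarith [L.coe_nonneg])
        have h4 : (L : ℝ) ≤ L / t := by
          rw [le_div_iff₀ ht]; nlinarith [L.coe_nonneg]
        have h5 : N ≤ N / t := by
          rw [le_div_iff₀ ht]; nlinarith
        have h6 := abs_sub (ig a b η y) (ig a b (cl η g) y)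
        have h7 : M * (2 * L + N) + M * (2 * ((max L (N / t).toNNReal : ℝ≥0) : ℝ) + N)
            ≤ M * (4 * (L / t) + 4 * (N / t)) := by
          rw [← mul_add]
          exact mul_le_mul_of_nonneg_left (by linarith) hM0
        rw [Real.norm_eq_abs]
        calc _ ≤ M * (4 * (L / t) + 4 * (N / t)) := by linarith
          _ = _ := by ring
      · rw [ig_zero a b hy, ig_zero a b fun h => hy (hθs h), sub_self, norm_zero]
        positivity
    rw [hsub, ← setIntegral_eq_integral_of_forall_compl_eq_zero hout]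
    have := norm_setIntegral_le_of_norm_le_const (μ := volume) (s := closedBall y₀ (2 * t))
      (f := fun y => ig a b η y - ig a b (cl η g) y) measure_closedBall_lt_top fun y _ => hin y
    rw [Measure.addHaar_real_closedBall' _ _ (by positivity)] at this
    simp only [Module.finrank_prod, Module.finrank_self, Real.norm_eq_abs] at this
    refine this.trans (le_of_eq ?_)
    rw [← hc0]
    field_simp
    ring
  have hlim : Tendsto (fun t : ℝ => 4 * c * (M * (4 * L + 4 * N)) * t) (𝓝[>] 0) (𝓝 0) := by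
    have : Tendsto (fun t : ℝ => 4 * c * (M * (4 * L + 4 * N)) * t) (𝓝 0)
        (𝓝 (4 * c * (M * (4 * L + 4 * N)) * 0)) := tendsto_const_nhds.mul tendsto_id
    rw [mul_zero] at this
    exact this.mono_left nhdsWithin_le_nhds
  have : |∫ y, ig a b η y| ≤ 0 := by
    refine ge_of_tendsto hlim ?_
    filter_upwards [Ioc_mem_nhdsGT zero_lt_one] with t ht using key t ht.1 ht.2
  exact abs_nonpos_iff.1 this

/-- the reflection as a linear map -/
def rl (ν : P2) : P2 →ₗ[ℝ] P2 where
  toFun := rfl2 ν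
  map_add' x y := by ext <;> simp [rfl2, dot] <;> ring
  map_smul' c x := by ext <;> simp [rfl2, dot] <;> ring

theorem rfl2_invol {ν : P2} (h : dot ν ν = 1) (y : P2) : rfl2 ν (rfl2 ν y) = y := by
  unfold dot at h
  ext
  · simp only [rfl2, dot, Prod.fst_sub, Prod.snd_sub, Prod.smul_fst, Prod.smul_snd, smul_eq_mul]
    linear_combination (4 * (y.1 * ν.1 + y.2 * ν.2) * ν.1) * h
  · simp only [rfl2, dot, Prod.fst_sub, Prod.snd_sub, Prod.smul_fst, Prod.smul_snd, smul_eq_mul]
    linear_combination (4 * (y.1 * ν.1 + y.2 * ν.2) * ν.2) * h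

/-- the reflection as a continuous linear equivalence -/
def re {ν : P2} (h : dot ν ν = 1) : P2 ≃L[ℝ] P2 :=
  (LinearEquiv.ofInvolutive (rl ν) (rfl2_invol h)).toContinuousLinearEquiv

theorem re_apply {ν : P2} (h : dot ν ν = 1) (y : P2) : re h y = rfl2 ν y := rfl

theorem dot_rfl2 (ν x y : P2) : dot x (rfl2 ν y) = dot (rfl2 ν x) y := by
  simp only [rfl2, dot, Prod.fst_sub, Prod.snd_sub, Prod.smul_fst, Prod.smul_snd, smul_eq_mul]
  ring

theorem dot_rfl2_nu {ν : P2} (h : dot ν ν = 1) (y : P2) : dot (rfl2 ν y) ν = -dot y ν := by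
  unfold dot at h
  simp only [rfl2, dot, Prod.fst_sub, Prod.snd_sub, Prod.smul_fst, Prod.smul_snd, smul_eq_mul]
  linear_combination (-2 * (y.1 * ν.1 + y.2 * ν.2)) * h

theorem grad_comp {ν : P2} (h : dot ν ν = 1) (f : P2 → ℝ) (y : P2) :
    grad (fun x => f (rfl2 ν x)) y = rfl2 ν (grad f (rfl2 ν y)) := by
  have h1 : fderiv ℝ (fun x => f (rfl2 ν x)) y
      = (fderiv ℝ f (rfl2 ν y)).comp (re h : P2 →L[ℝ] P2) :=
    (re h).comp_right_fderiv (f := f) (x := y)
  have h2 : ∀ v, fderiv ℝ (fun x => f (rfl2 ν x)) y v = dot (rfl2 ν (grad f (rfl2 ν y))) v := by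
    intro v
    rw [h1, ContinuousLinearMap.comp_apply, fderiv_eq_dot, ← dot_rfl2]
    rfl
  ext
  · change fderiv ℝ _ y (1, 0) = _
    rw [h2]; simp [dot]
  · change fderiv ℝ _ y (0, 1) = _
    rw [h2]; simp [dot]

theorem integral_rfl2 {ν : P2} (h : dot ν ν = 1) (F : P2 → ℝ) :
    ∫ y, F (rfl2 ν y) = ∫ y, F y := by
  have h1 : LinearMap.det (rl ν) * LinearMap.det (rl ν) = 1 := by
    rw [← map_mul]
    have : rl ν * rl ν = 1 := LinearMap.ext fun y => rfl2_invol h y
    rw [this, map_one]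
  have h2 : LinearMap.det (rl ν) ≠ 0 := fun h0 => by simp [h0] at h1
  have h3 : |(LinearMap.det (rl ν))⁻¹| = 1 := by
    rcases mul_self_eq_one_iff.1 h1 with h | h <;> simp [h]
  have h4 := Measure.map_linearMap_addHaar_eq_smul_addHaar (volume : Measure P2) h2
  rw [h3, ENNReal.ofReal_one, one_smul] at h4
  have h5 : MeasurePreserving (re h).toHomeomorph.toMeasurableEquiv volume volume :=
    ⟨(re h).toHomeomorph.toMeasurableEquiv.measurable, h4⟩
  exact h5.integral_comp' F

theorem ae_dot_ne {ν : P2} (h : dot ν ν = 1) : ∀ᵐ y : P2, dot y ν ≠ 0 := by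
  let φ : P2 →ₗ[ℝ] ℝ :=
    { toFun := fun y => dot y ν
      map_add' := fun x y => by simp [dot]; ring
      map_smul' := fun c x => by simp [dot]; ring }
  have h1 : LinearMap.ker φ ≠ ⊤ := by
    intro h0
    have : ν ∈ LinearMap.ker φ := h0 ▸ Submodule.mem_top
    have h2 : dot ν ν = 0 := this
    linarith
  have := Measure.addHaar_submodule (volume : Measure P2) _ h1
  rw [ae_iff]
  simp only [ne_eq, not_not]
  exact this

theorem ig_sub (a : P2 → P2) (b : P2 → ℝ) {f g : P2 → ℝ} {y : P2} (hf : DifferentiableAt ℝ f y)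
    (hg : DifferentiableAt ℝ g y) : ig a b (fun x => f x - g x) y = ig a b f y - ig a b g y := by
  simp only [ig, grad, d1, d2, dot, fderiv_fun_sub hf hg, sub_apply]
  ring

theorem continuous_dot (ν : P2) : Continuous fun y : P2 => dot y ν := by
  unfold dot; fun_prop

theorem half {a : P2 → P2} {b : P2 → ℝ} (hG : Good a b) {U : Set P2} {ν : P2}
    (hW : WE a b (U ∩ {y | 0 < dot y ν})) {θ : P2 → ℝ} {L : ℝ≥0} (hL : LipschitzWith L θ)
    (hc : HasCompactSupport θ) (hs : tsupport θ ⊆ U) {C : ℝ} (hC0 : 0 ≤ C)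
    (hC : ∀ y, |θ y| ≤ C * |dot y ν|) :
    ∫ y, indicator {y | 0 < dot y ν} (ig a b θ) y = 0 := by
  obtain ⟨N, hN0, hN⟩ := exists_bound hL.continuous hc
  obtain ⟨M, hM0, hM⟩ := hG.2.2 _ hc
  set t : ℕ → ℝ := fun n => 1 / ((n : ℝ) + 1) with ht
  have t0 : ∀ n, 0 < t n := fun n => Nat.one_div_pos_of_nat
  set g : ℕ → P2 → ℝ := fun n y => 2 * C * max (dot y ν - t n) 0 with hg
  have g0 : ∀ n y, 0 ≤ g n y := fun n y => mul_nonneg (by positivity) (le_max_right _ _)
  have gL : ∀ n, LipschitzWith (2 * C * (2 * ‖ν‖)).toNNReal (g n) := by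
    intro n
    refine LipschitzWith.of_dist_le_mul fun x y => ?_
    rw [Real.coe_toNNReal _ (by positivity), Real.dist_eq, hg]
    simp only
    rw [← mul_sub, abs_mul, abs_of_nonneg (by positivity : 0 ≤ 2 * C), mul_assoc (2 * C)]
    refine mul_le_mul_of_nonneg_left ((abs_max_sub_max_le_abs _ _ _).trans ?_) (by positivity)
    have h1 : dot x ν - t n - (dot y ν - t n) = dot (x - y) ν := by
      simp only [dot, Prod.fst_sub, Prod.snd_sub]; ring
    rw [h1, dist_eq_norm]
    exact (abs_dot_le _ _).trans (le_of_eq (by ring))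
  have hθ := fun n => cl_lip hL (gL n)
  have hθs : ∀ n, tsupport (cl θ (g n)) ⊆ tsupport θ := fun n => tsupport_cl (g0 n)
  have hθc : ∀ n, HasCompactSupport (cl θ (g n)) := fun n =>
    hc.of_isClosed_subset (isClosed_tsupport _) (hθs n)
  have hθz : ∀ n, tsupport (cl θ (g n)) ⊆ {y | t n ≤ dot y ν} := by
    intro n
    refine tsupport_cl' (isClosed_le continuous_const (continuous_dot ν)) fun y hy => ?_
    have : dot y ν - t n ≤ 0 := by
      simp only [mem_ofPred_eq, not_le] at hy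
      linarith
    simp only [hg, max_eq_right this, mul_zero]
  have h0 : ∀ n, ∫ y, ig a b (cl θ (g n)) y = 0 := fun n =>
    hW _ _ (hθ n) (hθc n) fun y hy => ⟨hs (hθs n hy), (t0 n).trans_le (hθz n hy)⟩
  have hlim := tendsto_integral_of_dominated_convergence (μ := (volume : Measure P2))
    (F := fun n => ig a b (cl θ (g n))) (f := indicator {y | 0 < dot y ν} (ig a b θ))
    (indicator (tsupport θ) fun _ =>
      M * (2 * ((max L (2 * C * (2 * ‖ν‖)).toNNReal : ℝ≥0) : ℝ) + N))
    (fun n => (measurable_ig hG.1 hG.2.1 (hθ n).continuous).aestronglyMeasurable)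
    ((integrable_indicator_iff (isClosed_tsupport θ).measurableSet).2
      (integrableOn_const hc.measure_lt_top.ne))
    (fun n => Eventually.of_forall fun y => by
      by_cases hy : y ∈ tsupport θ
      · rw [indicator_of_mem hy]
        exact ig_bound (hθ n) (hM y hy).1 (hM y hy).2 ((abs_cl_le (g0 n y)).trans (hN y))
      · rw [indicator_of_notMem hy, ig_zero a b fun h => hy (hθs n h), norm_zero])
    (Eventually.of_forall fun y => by
      by_cases hy : 0 < dot y ν
      · rw [indicator_of_mem (show y ∈ {y | 0 < dot y ν} from hy)]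
        refine tendsto_const_nhds.congr' ?_
        have h1 : ∀ᶠ n in atTop, t n < dot y ν / 2 :=
          tendsto_one_div_add_atTop_nhds_zero_nat.eventually_lt_const (half_pos hy)
        filter_upwards [h1] with n hn
        refine (ig_congr a b ?_).symm
        have h2 : ∀ᶠ x in 𝓝 y, 2 * t n < dot x ν :=
          (continuous_dot ν).continuousAt.eventually_const_lt (by linarith)
        filter_upwards [h2] with x hx
        refine cl_eq ((hC x).trans ?_)
        have h3 : dot x ν / 2 ≤ max (dot x ν - t n) 0 := le_max_of_le_left (by linarith)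
        rw [abs_of_pos (by linarith [t0 n])]
        calc C * dot x ν = 2 * C * (dot x ν / 2) := by ring
          _ ≤ _ := mul_le_mul_of_nonneg_left h3 (by positivity)
      · rw [indicator_of_notMem (show y ∉ {y | 0 < dot y ν} from hy)]
        refine tendsto_const_nhds.congr fun n => (ig_zero a b fun h => hy ?_).symm
        exact (t0 n).trans_le (hθz n h))
  simp only [h0] at hlim
  exact (tendsto_nhds_unique hlim tendsto_const_nhds)

theorem we_line {a : P2 → P2} {b : P2 → ℝ} (hG : Good a b) {U : Set P2} {ν : P2}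
    (hν : dot ν ν = 1)
    (hU : ∀ y ∈ U, rfl2 ν y ∈ U ∧ a (rfl2 ν y) = -rfl2 ν (a y) ∧ b (rfl2 ν y) = -b y)
    (hW : WE a b (U ∩ {y | 0 < dot y ν})) : WE a b U := by
  intro η L hL hc hs
  have hR := (re hν : P2 →L[ℝ] P2).lipschitz
  have hL' : LipschitzWith (L * ‖(re hν : P2 →L[ℝ] P2)‖₊) fun y => η (rfl2 ν y) := hL.comp hR
  have hc' : HasCompactSupport fun y => η (rfl2 ν y) :=
    hc.comp_homeomorph (re hν).toHomeomorph
  have hts : ∀ y, rfl2 ν y ∉ tsupport η → y ∉ tsupport fun y => η (rfl2 ν y) := by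
    intro y hy
    rw [notMem_tsupport_iff_eventuallyEq] at hy ⊢
    exact ((re hν).continuous.tendsto y).eventually hy
  have hs' : (tsupport fun y => η (rfl2 ν y)) ⊆ U := by
    intro y hy
    have h1 : rfl2 ν y ∈ tsupport η := by
      by_contra h
      exact hts y h hy
    have := (hU _ (hs h1)).1
    rwa [rfl2_invol hν] at this
  have hpt : ∀ y, ig a b (fun y => η (rfl2 ν y)) y = -ig a b η (rfl2 ν y) := by
    intro y
    by_cases hy : y ∈ U
    · obtain ⟨-, h1, h2⟩ := hU y hy
      unfold ig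
      rw [grad_comp hν, h1, h2, dot_rfl2]
      simp only [dot, Prod.fst_neg, Prod.snd_neg]
      ring
    · have h1 : rfl2 ν y ∉ tsupport η := fun h => hy (by
        have := (hU _ (hs h)).1
        rwa [rfl2_invol hν] at this)
      rw [ig_zero a b h1, ig_zero a b (hts y h1), neg_zero]
  have hH : MeasurableSet {y : P2 | 0 < dot y ν} :=
    (isOpen_lt continuous_const (continuous_dot ν)).measurableSet
  have hH' : MeasurableSet {y : P2 | dot y ν < 0} :=
    (isOpen_lt (continuous_dot ν) continuous_const).measurableSet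
  have h0 := half hG hW (θ := fun y => η y - η (rfl2 ν y)) (hL.sub hL') (hc.sub hc')
    ((tsupport_sub _ _).trans (union_subset hs hs')) (C := L * (2 * ‖ν‖)) (by positivity)
    fun y => by
      have h1 := hL.dist_le_mul y (rfl2 ν y)
      rw [Real.dist_eq, dist_eq_norm] at h1
      have h2 : ‖y - rfl2 ν y‖ = 2 * ‖ν‖ * |dot y ν| := by
        rw [rfl2, sub_sub_cancel, norm_smul, Real.norm_eq_abs, abs_mul, abs_two]; ring
      rw [h2] at h1
      linarith
  have i1 := integrable_ig hG hL hc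
  have i2 := integrable_ig hG hL' hc'
  have h1 : ∫ y, indicator {y | 0 < dot y ν} (ig a b fun y => η y - η (rfl2 ν y)) y
      = ∫ y, (indicator {y | 0 < dot y ν} (ig a b η) y
        - indicator {y | 0 < dot y ν} (ig a b fun y => η (rfl2 ν y)) y) := by
    refine integral_congr_ae ?_
    filter_upwards [hL.ae_differentiableAt (μ := volume), hL'.ae_differentiableAt (μ := volume)]
      with y d d'
    by_cases hy : y ∈ {y | 0 < dot y ν}
    · simp only [indicator_of_mem hy, ig_sub a b d d']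
    · simp only [indicator_of_notMem hy, sub_self]
  have h2 : ∫ y, indicator {y | 0 < dot y ν} (ig a b fun y => η (rfl2 ν y)) y
      = -∫ y, indicator {y | dot y ν < 0} (ig a b η) y := by
    rw [← integral_rfl2 hν (indicator {y | dot y ν < 0} (ig a b η)), ← integral_neg]
    refine integral_congr_ae (Eventually.of_forall fun y => ?_)
    by_cases hy : 0 < dot y ν
    · have h3 : rfl2 ν y ∈ {y | dot y ν < 0} := by
        simp only [mem_ofPred_eq, dot_rfl2_nu hν]; linarith
      simp only [indicator_of_mem (show y ∈ {y | 0 < dot y ν} from hy), indicator_of_mem h3, hpt]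
    · have h3 : rfl2 ν y ∉ {y | dot y ν < 0} := by
        simp only [mem_ofPred_eq, dot_rfl2_nu hν]; linarith
      simp only [indicator_of_notMem (show y ∉ {y | 0 < dot y ν} from hy),
        indicator_of_notMem h3, neg_zero]
  rw [h1, integral_sub (i1.indicator hH) (i2.indicator hH), h2, sub_neg_eq_add,
    ← integral_add (i1.indicator hH) (i1.indicator hH')] at h0
  rw [← h0]
  refine integral_congr_ae ?_
  filter_upwards [ae_dot_ne hν] with y hy
  rcases hy.lt_or_gt with h | h
  · rw [indicator_of_notMem (show y ∉ {y | 0 < dot y ν} from h.not_gt),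
      indicator_of_mem (show y ∈ {y | dot y ν < 0} from h), zero_add]
  · rw [indicator_of_mem (show y ∈ {y | 0 < dot y ν} from h),
      indicator_of_notMem (show y ∉ {y | dot y ν < 0} from h.not_gt), add_zero]

theorem we_congr {a a' : P2 → P2} {b b' : P2 → ℝ} {U : Set P2}
    (h : ∀ y ∈ U, a y = a' y ∧ b y = b' y) (hW : WE a b U) : WE a' b' U := by
  intro η L hL hc hs
  rw [← hW η L hL hc hs]
  refine integral_congr_ae (Eventually.of_forall fun y => ?_)
  by_cases hy : y ∈ tsupport η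
  · simp only [ig, (h y (hs hy)).1, (h y (hs hy)).2]
  · simp only [ig_zero _ _ hy]

theorem contDiff_W : ContDiff ℝ 1 fun q : Q5 =>
    √(1 + q.2.2.1 ^ 2 + q.2.2.2 ^ 2 + (q.2.1 - dot q.1 q.2.2) ^ 2) := by
  refine ContDiff.sqrt (by unfold dot; fun_prop) fun q => ?_
  positivity

theorem contDiff_rho : ContDiff ℝ 1 fun q : Q5 => √(1 + q.1.1 ^ 2 + q.1.2 ^ 2 + q.2.1 ^ 2) := by
  refine ContDiff.sqrt (by fun_prop) fun q => ?_
  positivity

theorem contDiff_FP : ContDiff ℝ 1 fun q : Q5 => FP q.1 q.2.1 q.2.2 := by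
  unfold FP
  refine ContDiff.smul (ContDiff.inv (contDiff_W.mul (contDiff_rho.pow 3)) fun q => ?_)
    (by unfold dot; fun_prop)
  positivity

theorem contDiff_FZ : ContDiff ℝ 1 fun q : Q5 => FZ q.1 q.2.1 q.2.2 := by
  unfold FZ
  refine ContDiff.sub (ContDiff.div (by unfold dot; fun_prop)
    (contDiff_W.mul (contDiff_rho.pow 3)) fun q => ?_)
    (ContDiff.div (ContDiff.mul (by fun_prop) contDiff_W) (contDiff_rho.pow 5) fun q => ?_)
  · positivity
  · positivity

theorem good_gen {A : Q5 → P2} {B : Q5 → ℝ} (hA : Continuous A) (hB : Continuous B)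
    {u : P2 → ℝ} {L : ℝ≥0} (h : LipschitzWith L u) :
    Good (fun y => A (y, u y, grad u y)) (fun y => B (y, u y, grad u y)) := by
  have hm : Measurable fun y => ((y, u y, grad u y) : Q5) :=
    measurable_id.prodMk (h.continuous.measurable.prodMk (measurable_grad u))
  refine ⟨hA.measurable.comp hm, hB.measurable.comp hm, fun K hK => ?_⟩
  have hQ : IsCompact (K ×ˢ (u '' K) ×ˢ closedBall (0 : P2) L) :=
    hK.prod ((hK.image h.continuous).prod (isCompact_closedBall _ _))
  obtain ⟨M, hM⟩ := hQ.exists_bound_of_continuousOn hA.continuousOn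
  obtain ⟨M', hM'⟩ := hQ.exists_bound_of_continuousOn hB.continuousOn
  refine ⟨|M| + |M'|, by positivity, fun y hy => ?_⟩
  have hq : ((y, u y, grad u y) : Q5) ∈ K ×ˢ (u '' K) ×ˢ closedBall (0 : P2) L :=
    ⟨hy, mem_image_of_mem u hy, mem_closedBall_zero_iff.2 (norm_grad_le h y)⟩
  have h1 := hM _ hq
  have h2 := hM' _ hq
  rw [Real.norm_eq_abs] at h2
  constructor
  · linarith [le_abs_self M, abs_nonneg M']
  · linarith [le_abs_self M', abs_nonneg M]

theorem good_of_lip {u : P2 → ℝ} {L : ℝ≥0} (h : LipschitzWith L u) : Good (fa u) (fb u) :=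
  good_gen (A := fun q => FP q.1 q.2.1 q.2.2) (B := fun q => FZ q.1 q.2.1 q.2.2)
    contDiff_FP.continuous contDiff_FZ.continuous h

theorem fab_congr {u g : P2 → ℝ} {U : Set P2} (hU : IsOpen U) (h : EqOn u g U) :
    ∀ y ∈ U, fa u y = fa g y ∧ fb u y = fb g y := by
  intro y hy
  have h1 : u =ᶠ[𝓝 y] g := h.eventuallyEq_of_mem (hU.mem_nhds hy)
  simp only [fa, fb, grad_congr h1, h hy, and_self]

theorem sq_rfl2 {ν : P2} (h : dot ν ν = 1) (y : P2) :
    (rfl2 ν y).1 ^ 2 + (rfl2 ν y).2 ^ 2 = y.1 ^ 2 + y.2 ^ 2 := by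
  have := dot_rfl2 ν (rfl2 ν y) y
  rw [rfl2_invol h] at this
  simp only [dot] at this
  linarith

theorem F_rfl2 {ν : P2} (h : dot ν ν = 1) (y p : P2) (z : ℝ) :
    FP (rfl2 ν y) (-z) (-rfl2 ν p) = -rfl2 ν (FP y z p) ∧
      FZ (rfl2 ν y) (-z) (-rfl2 ν p) = -FZ y z p := by
  have h1 : -z - dot (rfl2 ν y) (-rfl2 ν p) = -(z - dot y p) := by
    have := dot_rfl2 ν (rfl2 ν y) p
    rw [rfl2_invol h] at this
    rw [← this]
    simp only [dot, Prod.fst_neg, Prod.snd_neg]
    ring
  have h2 : 1 + (-rfl2 ν p).1 ^ 2 + (-rfl2 ν p).2 ^ 2 + (-(z - dot y p)) ^ 2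
      = 1 + p.1 ^ 2 + p.2 ^ 2 + (z - dot y p) ^ 2 := by
    simp only [Prod.fst_neg, Prod.snd_neg]
    linear_combination sq_rfl2 h p
  have h3 : 1 + (rfl2 ν y).1 ^ 2 + (rfl2 ν y).2 ^ 2 + (-z) ^ 2
      = 1 + y.1 ^ 2 + y.2 ^ 2 + z ^ 2 := by
    linear_combination sq_rfl2 h y
  unfold FP FZ
  rw [h1, h2, h3]
  constructor
  · ext <;> simp [rfl2, dot] <;> ring
  · ring

end ACW

open ACW in
theorem remS : RemS := by
  constructor
  · intro u U L ν hU hν hs hL hW
    obtain ⟨g, hg, he⟩ := hL.extend_real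
    rw [weak_iff] at hW ⊢
    refine we_congr (fun y hy => ?_) (we_line (good_of_lip hg) (U := U) hν (fun y hy => ?_)
      (we_congr (fun y hy => fab_congr hU he y hy.1) hW))
    · exact ⟨(fab_congr hU he y hy).1.symm, (fab_congr hU he y hy).2.symm⟩
    · have hR := (hs y hy).1
      rw [← (fab_congr hU he y hy).1, ← (fab_congr hU he y hy).2,
        ← (fab_congr hU he _ hR).1, ← (fab_congr hU he _ hR).2]
      have h1 : (fun x => u (rfl2 ν x)) =ᶠ[𝓝 y] fun x => -u x := by
        filter_upwards [hU.mem_nhds hy] with x hx using (hs x hx).2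
      have h2 := grad_congr h1
      rw [grad_comp hν] at h2
      have h3 : grad (fun x => -u x) y = -grad u y := by
        simp only [grad, d1, d2, fderiv_fun_neg, neg_apply, Prod.neg_mk]
      have h4 : grad u (rfl2 ν y) = -rfl2 ν (grad u y) := by
        rw [← rfl2_invol hν (grad u (rfl2 ν y)), h2, h3]
        exact map_neg (rl ν) _
      unfold fa fb
      rw [h4, (hs y hy).2]
      exact ⟨hR, F_rfl2 hν _ _ _⟩
  · intro u U L y₀ hU hL hW
    obtain ⟨g, hg, he⟩ := hL.extend_real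
    rw [weak_iff] at hW ⊢
    refine we_congr (fun y hy => ?_) (we_point (good_of_lip hg) (U := U) (y₀ := y₀)
      (we_congr (fun y hy => fab_congr hU he y hy.1) hW))
    exact ⟨(fab_congr hU he y hy).1.symm, (fab_congr hU he y hy).2.symm⟩

namespace ACW

/-- integration by parts against a Lipschitz test function -/
theorem parts {f η : P2 → ℝ} {U : Set P2} (hU : IsOpen U) (hf : ContDiffOn ℝ 1 f U) {L : ℝ≥0}
    (hL : LipschitzWith L η) (hc : HasCompactSupport η) (hs : tsupport η ⊆ U) (v : P2) :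
    Integrable (fun y => f y * fderiv ℝ η y v) ∧ Integrable (fun y => fderiv ℝ f y v * η y) ∧
      ∫ y, f y * fderiv ℝ η y v = -∫ y, fderiv ℝ f y v * η y := by
  obtain ⟨K, hK, h1, h2⟩ := exists_compact_between hc hU hs
  have hloc : LocallyLipschitzOn K f := by
    intro x hx
    obtain ⟨C, t, ht, h⟩ := (hf.contDiffAt (hU.mem_nhds (h2 hx))).exists_lipschitzOnWith
    exact ⟨C, t, mem_nhdsWithin_of_mem_nhds ht, h⟩
  obtain ⟨C, hC⟩ := hloc.exists_lipschitzOnWith_of_compact hK
  obtain ⟨g, hg, he⟩ := hC.extend_real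
  have hev : ∀ y ∈ tsupport η, f =ᶠ[𝓝 y] g := fun y hy =>
    he.eventuallyEq_of_mem (mem_interior_iff_mem_nhds.1 (h1 hy))
  have hz : ∀ y, y ∉ tsupport η → fderiv ℝ η y v = 0 := fun y hy => by
    rw [(notMem_tsupport_iff_eventuallyEq.1 hy).fderiv_eq]; simp
  have e1 : (fun y => f y * fderiv ℝ η y v) = fun y => g y * fderiv ℝ η y v := by
    funext y
    by_cases hy : y ∈ tsupport η
    · rw [(hev y hy).eq_of_nhds]
    · rw [hz y hy, mul_zero, mul_zero]
  have e2 : (fun y => fderiv ℝ f y v * η y) = fun y => fderiv ℝ g y v * η y := by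
    funext y
    by_cases hy : y ∈ tsupport η
    · rw [(hev y hy).fderiv_eq]
    · rw [image_eq_zero_of_notMem_tsupport hy, mul_zero, mul_zero]
  rw [e1, e2]
  obtain ⟨N, -, hN⟩ := exists_bound hL.continuous hc
  obtain ⟨M, hM⟩ := hc.isCompact.exists_bound_of_continuousOn hg.continuous.continuousOn
  refine ⟨?_, ?_, ?_⟩
  · refine integrable_of_bound
      (hg.continuous.measurable.mul (measurable_fderiv_apply_const ℝ η v)) hc
      (C := M * (L * ‖v‖)) (fun y hy => by rw [hz y hy, mul_zero]) fun y hy => ?_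
    rw [abs_mul]
    refine mul_le_mul (hM y hy) (((fderiv ℝ η y).le_opNorm v).trans ?_) (abs_nonneg _)
      ((norm_nonneg _).trans (hM y hy))
    exact mul_le_mul_of_nonneg_right (norm_fderiv_le_of_lipschitz ℝ hL) (norm_nonneg _)
  · refine integrable_of_bound
      ((measurable_fderiv_apply_const ℝ g v).mul hL.continuous.measurable) hc
      (C := C * ‖v‖ * N) (fun y hy => by rw [image_eq_zero_of_notMem_tsupport hy, mul_zero])
      fun y _ => ?_
    rw [abs_mul]
    refine mul_le_mul (((fderiv ℝ g y).le_opNorm v).trans ?_) (hN y) (abs_nonneg _)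
      (by positivity)
    exact mul_le_mul_of_nonneg_right (norm_fderiv_le_of_lipschitz ℝ hg) (norm_nonneg _)
  · have h3 := LipschitzWith.integral_lineDeriv_mul_eq (μ := (volume : Measure P2)) hg hL hc v
    have h4 : ∫ y, fderiv ℝ g y v * η y = ∫ y, lineDeriv ℝ g y v * η y := by
      refine integral_congr_ae ?_
      filter_upwards [hg.ae_differentiableAt (μ := volume)] with y hy
      rw [hy.lineDeriv_eq_fderiv]
    rw [h4, h3, ← integral_neg]
    refine integral_congr_ae ?_
    filter_upwards [hL.ae_differentiableAt (μ := volume)] with y hy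
    rw [lineDeriv_neg, hy.lineDeriv_eq_fderiv]
    ring

/-- a weak equation with smooth coefficients is the classical equation -/
theorem we_iff {a : P2 → P2} {b : P2 → ℝ} {U : Set P2} (hU : IsOpen U) (ha : ContDiffOn ℝ 1 a U)
    (hb : ContinuousOn b U) :
    WE a b U ↔ ∀ y ∈ U, d1 (fun x => (a x).1) y + d2 (fun x => (a x).2) y - b y = 0 := by
  have c1 : ContinuousOn (d1 fun x => (a x).1) U :=
    (ha.fst.continuousOn_fderiv_of_isOpen hU le_rfl).clm_apply continuousOn_const
  have c2 : ContinuousOn (d2 fun x => (a x).2) U :=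
    (ha.snd.continuousOn_fderiv_of_isOpen hU le_rfl).clm_apply continuousOn_const
  have hc := (c1.add c2).sub hb
  have key : ∀ (η : P2 → ℝ) (L : ℝ≥0), LipschitzWith L η → HasCompactSupport η →
      tsupport η ⊆ U → ∫ y, ig a b η y
        = -∫ y, η y • (d1 (fun x => (a x).1) y + d2 (fun x => (a x).2) y - b y) := by
    intro η L hL hη hs
    obtain ⟨i1, j1, e1⟩ := parts hU ha.fst hL hη hs (1, 0)
    obtain ⟨i2, j2, e2⟩ := parts hU ha.snd hL hη hs (0, 1)
    have i3 : Integrable fun y => b y * η y := by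
      refine (integrableOn_iff_integrable_of_support_subset (s := tsupport η) ?_).1 ?_
      · intro y hy
        by_contra h
        exact hy (by simp only [image_eq_zero_of_notMem_tsupport h, mul_zero])
      · exact ((hb.mono hs).mul hL.continuous.continuousOn).integrableOn_compact hη
    have e3 : ∫ y, ig a b η y = (∫ y, (a y).1 * fderiv ℝ η y (1, 0))
        + (∫ y, (a y).2 * fderiv ℝ η y (0, 1)) + ∫ y, b y * η y := by
      rw [← integral_add i1 i2]
      exact integral_add (i1.add i2) i3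
    have e4 : ∫ y, η y • (d1 (fun x => (a x).1) y + d2 (fun x => (a x).2) y - b y)
        = (∫ y, fderiv ℝ (fun x => (a x).1) y (1, 0) * η y)
          + (∫ y, fderiv ℝ (fun x => (a x).2) y (0, 1) * η y) - ∫ y, b y * η y := by
      rw [← integral_add j1 j2]
      refine Eq.trans ?_ (integral_sub (j1.add j2) i3)
      refine integral_congr_ae (Eventually.of_forall fun y => ?_)
      simp only [d1, d2, smul_eq_mul]
      ring
    rw [e3, e4, e1, e2]
    ring
  constructor
  · intro hW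
    have h1 := hU.ae_eq_zero_of_integral_contDiff_smul_eq_zero (μ := (volume : Measure P2))
      (hc.locallyIntegrableOn hU.measurableSet) fun g hg hg' hs => by
        obtain ⟨C, hC⟩ := ContDiff.lipschitzWith_of_hasCompactSupport hg' hg (by simp)
        have := key g C hC hg' hs
        rw [hW g C hC hg' hs] at this
        exact neg_eq_zero.1 this.symm
    exact Measure.eqOn_open_of_ae_eq (μ := (volume : Measure P2)) (g := fun _ => 0)
      ((ae_restrict_iff' hU.measurableSet).2 h1) hU hc continuousOn_const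
  · intro h η L hL hη hs
    rw [key η L hL hη hs, neg_eq_zero]
    refine integral_eq_zero_of_ae (Eventually.of_forall fun y => ?_)
    by_cases hy : y ∈ tsupport η
    · simp only [h y (hs hy), smul_zero, Pi.zero_apply]
    · simp only [image_eq_zero_of_notMem_tsupport hy, zero_smul, Pi.zero_apply]

theorem deriv_flux {x y z p q : ℝ → ℝ} {x' y' z' p' q' : ℝ} (hx : HasDerivAt x x' 0)
    (hy : HasDerivAt y y' 0) (hz : HasDerivAt z z' 0) (hp : HasDerivAt p p' 0)
    (hq : HasDerivAt q q' 0) {k : ℝ → ℝ} {k' : ℝ} (hk : HasDerivAt k k' 0) :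
    HasDerivAt (fun t => (√(1 + p t ^ 2 + q t ^ 2 + (z t - (x t * p t + y t * q t)) ^ 2) *
        √(1 + x t ^ 2 + y t ^ 2 + z t ^ 2) ^ 3)⁻¹ * k t)
      ((√(1 + p 0 ^ 2 + q 0 ^ 2 + (z 0 - (x 0 * p 0 + y 0 * q 0)) ^ 2) *
        √(1 + x 0 ^ 2 + y 0 ^ 2 + z 0 ^ 2) ^ 3)⁻¹ * (k' - k 0 *
          ((p 0 * p' + q 0 * q' + (z 0 - (x 0 * p 0 + y 0 * q 0)) *
            (z' - (x' * p 0 + x 0 * p' + (y' * q 0 + y 0 * q')))) /
              (1 + p 0 ^ 2 + q 0 ^ 2 + (z 0 - (x 0 * p 0 + y 0 * q 0)) ^ 2)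
            + 3 * (x 0 * x' + y 0 * y' + z 0 * z') / (1 + x 0 ^ 2 + y 0 ^ 2 + z 0 ^ 2)))) 0 := by
  have hw0 : 0 < 1 + p 0 ^ 2 + q 0 ^ 2 + (z 0 - (x 0 * p 0 + y 0 * q 0)) ^ 2 := by positivity
  have hr0 : 0 < 1 + x 0 ^ 2 + y 0 ^ 2 + z 0 ^ 2 := by positivity
  have hw := ((((hp.fun_pow 2).const_add 1).fun_add (hq.fun_pow 2)).fun_add
    ((hz.fun_sub ((hx.fun_mul hp).fun_add (hy.fun_mul hq))).fun_pow 2)).sqrt hw0.ne'
  have hr := ((((hx.fun_pow 2).const_add 1).fun_add (hy.fun_pow 2)).fun_add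
    (hz.fun_pow 2)).sqrt hr0.ne'
  have h := ((hw.fun_mul (hr.fun_pow 3)).fun_inv (by positivity)).fun_mul hk
  refine h.congr_deriv ?_
  have e1 := Real.sq_sqrt hw0.le
  have e2 := Real.sq_sqrt hr0.le
  have p1 := Real.sqrt_pos.2 hw0
  have p2 := Real.sqrt_pos.2 hr0
  generalize √(1 + p 0 ^ 2 + q 0 ^ 2 + (z 0 - (x 0 * p 0 + y 0 * q 0)) ^ 2) = W at *
  generalize √(1 + x 0 ^ 2 + y 0 ^ 2 + z 0 ^ 2) = R at *
  rw [← e1, ← e2]
  field_simp
  ring

theorem smooth_gen {F : Type} [NormedAddCommGroup F] [NormedSpace ℝ F] {A : Q5 → F}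
    (hA : ContDiff ℝ 1 A) {u : P2 → ℝ} {y : P2} (hu : ContDiffAt ℝ 2 u y) :
    ContDiffAt ℝ 1 (fun y => A (y, u y, grad u y)) y := by
  have hD : ContDiffAt ℝ 1 (fderiv ℝ u) y := hu.fderiv_right (by norm_num)
  have hq : ContDiffAt ℝ 1 (fun y => ((y, u y, grad u y) : Q5)) y :=
    contDiffAt_id.prodMk ((hu.of_le (by norm_num)).prodMk
      ((hD.clm_apply contDiffAt_const).prodMk (hD.clm_apply contDiffAt_const)))
  exact hA.contDiffAt.comp y hq

theorem smooth_fa {u : P2 → ℝ} {y : P2} (hu : ContDiffAt ℝ 2 u y) : ContDiffAt ℝ 1 (fa u) y :=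
  smooth_gen (A := fun q => FP q.1 q.2.1 q.2.2) contDiff_FP hu

theorem smooth_fb {u : P2 → ℝ} {y : P2} (hu : ContDiffAt ℝ 2 u y) : ContDiffAt ℝ 1 (fb u) y :=
  smooth_gen (A := fun q => FZ q.1 q.2.1 q.2.2) contDiff_FZ hu

theorem div_flux {u : P2 → ℝ} {y : P2} (hu : ContDiffAt ℝ 2 u y) :
    d1 (fun x => (fa u x).1) y + d2 (fun x => (fa u x).2) y - fb u y
      = (√(1 + (d1 u y) ^ 2 + (d2 u y) ^ 2 + (u y - dot y (grad u y)) ^ 2) ^ 3 *
        √(1 + y.1 ^ 2 + y.2 ^ 2 + u y ^ 2) ^ 3)⁻¹ * gAt u y (u y) := by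
  have hD : ContDiffAt ℝ 1 (fderiv ℝ u) y := hu.fderiv_right (by norm_num)
  have h1 : ContDiffAt ℝ 1 (d1 u) y := hD.clm_apply contDiffAt_const
  have h2 : ContDiffAt ℝ 1 (d2 u) y := hD.clm_apply contDiffAt_const
  have hu1 : ContDiffAt ℝ 1 u y := hu.of_le (by norm_num)
  have ha := smooth_fa hu
  have line : ∀ (f : P2 → ℝ) (v : P2), ContDiffAt ℝ 1 f y →
      HasDerivAt (fun t : ℝ => f (y + t • v)) (fderiv ℝ f y v) 0 := fun f v hf =>
    (hf.differentiableAt one_ne_zero).hasFDerivAt.hasLineDerivAt v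
  have lx : ∀ v : P2, HasDerivAt (fun t : ℝ => (y + t • v).1) v.1 0 := fun v => by
    simpa using ((hasDerivAt_id (0 : ℝ)).mul_const v.1).const_add y.1
  have ly : ∀ v : P2, HasDerivAt (fun t : ℝ => (y + t • v).2) v.2 0 := fun v => by
    simpa using ((hasDerivAt_id (0 : ℝ)).mul_const v.2).const_add y.2
  have hsym : fderiv ℝ (d1 u) y (0, 1) = fderiv ℝ (d2 u) y (1, 0) := by
    have hs := hu.isSymmSndFDerivAt (by simp)
    have hd := hD.differentiableAt one_ne_zero
    unfold d1 d2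
    rw [fderiv_clm_apply hd (differentiableAt_const _),
      fderiv_clm_apply hd (differentiableAt_const _)]
    simpa using hs (0, 1) (1, 0)
  have k1 := fun v : P2 => (line _ v h1).fun_sub (((line _ v hu1).fun_sub
    (((lx v).fun_mul (line _ v h1)).fun_add ((ly v).fun_mul (line _ v h2)))).fun_mul (lx v))
  have k2 := fun v : P2 => (line _ v h2).fun_sub (((line _ v hu1).fun_sub
    (((lx v).fun_mul (line _ v h1)).fun_add ((ly v).fun_mul (line _ v h2)))).fun_mul (ly v))
  have f1 := (line _ (1, 0) ha.fst).unique (deriv_flux (lx _) (ly _) (line _ _ hu1)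
    (line _ _ h1) (line _ _ h2) (k1 (1, 0)))
  have f2 := (line _ (0, 1) ha.snd).unique (deriv_flux (lx _) (ly _) (line _ _ hu1)
    (line _ _ h1) (line _ _ h2) (k2 (0, 1)))
  simp only [zero_smul, add_zero] at f1 f2
  rw [hsym] at f2
  change fderiv ℝ _ y (1, 0) + fderiv ℝ _ y (0, 1) - _ = _
  rw [f1, f2]
  simp only [fb, FZ, gAt, gOp, dot, grad, Prod.fst_sub, Prod.snd_sub, Prod.smul_fst,
    Prod.smul_snd, smul_eq_mul]
  change _ = _ * (_ * fderiv ℝ (d1 u) y (1, 0) - _ * fderiv ℝ (d2 u) y (1, 0)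
    + _ * fderiv ℝ (d2 u) y (0, 1))
  rw [show fderiv ℝ u y (1, 0) = d1 u y from rfl, show fderiv ℝ u y (0, 1) = d2 u y from rfl]
  generalize fderiv ℝ (d1 u) y (1, 0) = r
  generalize fderiv ℝ (d2 u) y (1, 0) = s
  generalize fderiv ℝ (d2 u) y (0, 1) = t
  generalize d1 u y = p
  generalize d2 u y = q
  generalize u y = z
  generalize y.1 = a
  generalize y.2 = b
  have hw0 : 0 < 1 + p ^ 2 + q ^ 2 + (z - (a * p + b * q)) ^ 2 := by positivity
  have hr0 : 0 < 1 + a ^ 2 + b ^ 2 + z ^ 2 := by positivity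
  have e1 := Real.sq_sqrt hw0.le
  have e2 := Real.sq_sqrt hr0.le
  have p1 := Real.sqrt_pos.2 hw0
  have p2 := Real.sqrt_pos.2 hr0
  generalize √(1 + p ^ 2 + q ^ 2 + (z - (a * p + b * q)) ^ 2) = W at *
  generalize √(1 + a ^ 2 + b ^ 2 + z ^ 2) = R at *
  have e3 : 3 * z * W / R ^ 5 = (W * R ^ 3)⁻¹ * (3 * z *
      (1 + p ^ 2 + q ^ 2 + (z - (a * p + b * q)) ^ 2) / (1 + a ^ 2 + b ^ 2 + z ^ 2)) := by
    rw [← e1, ← e2]; field_simp
  have e4 : (W ^ 3 * R ^ 3)⁻¹
      = (W * R ^ 3)⁻¹ * (1 + p ^ 2 + q ^ 2 + (z - (a * p + b * q)) ^ 2)⁻¹ := by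
    rw [← e1]; field_simp
  rw [e3, e4, div_eq_inv_mul (z - (a * p + b * q))]
  generalize (W * R ^ 3)⁻¹ = c
  have i1 := mul_inv_cancel₀ hw0.ne'
  have i2 := mul_inv_cancel₀ hr0.ne'
  simp only [div_eq_mul_inv]
  generalize (1 + p ^ 2 + q ^ 2 + (z - (a * p + b * q)) ^ 2)⁻¹ = w at *
  generalize (1 + a ^ 2 + b ^ 2 + z ^ 2)⁻¹ = h at *
  linear_combination (-c * (r + a * (a * r + b * s) + t + b * (a * s + b * t))) * i1
    + (3 * c * (z - (a * p + b * q))) * i2

end ACW

open ACW in
theorem cwS : CWS := by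
  intro u U hU hu
  have ha : ContDiffOn ℝ 1 (fa u) U := fun y hy =>
    (smooth_fa (hu.contDiffAt (hU.mem_nhds hy))).contDiffWithinAt
  have hb : ContDiffOn ℝ 1 (fb u) U := fun y hy =>
    (smooth_fb (hu.contDiffAt (hU.mem_nhds hy))).contDiffWithinAt
  rw [weak_iff, we_iff hU ha hb.continuousOn]
  refine forall₂_congr fun y hy => ?_
  rw [div_flux (hu.contDiffAt (hU.mem_nhds hy)), mul_eq_zero, or_iff_right]
  positivity

end Pool.Agent.Lib.MP_16d934_gt
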