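import Pool.Agent.Lib.MP_16d934_gt.StC

-- part Pool.Agent.Lib.MP_16d934_gt.DTwo
section

/-! The two piece property, by a two-point function. -/

set_option autoImplicit false

open Set Metric Filter Topology
open scoped ContDiff InnerProductSpace

noncomputable section

namespace Pool.Agent.Lib.MP_16d934_gt

namespace DTwo

/-! ### Jets of order two of curves -/

section Jet

variable {F G : Type} [NormedAddCommGroup F] [NormedSpace ℝ F] [NormedAddCommGroup G]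
  [NormedSpace ℝ G]

/-- the curve `X` has value `x`, velocity `e` and acceleration `a` at time zero -/
def J2 (X : ℝ → F) (x e a : F) : Prop :=
  X 0 = x ∧ ∃ X' : ℝ → F, X' 0 = e ∧ (∀ᶠ t in 𝓝 (0 : ℝ), HasDerivAt X (X' t) t) ∧
    HasDerivAt X' a 0

variable {X Y : ℝ → F} {x e a y f b : F}

lemma J2.eq (h : J2 X x e a) (h1 : x = y) (h2 : e = f) (h3 : a = b) : J2 X y f b := by
  rwa [← h1, ← h2, ← h3]

lemma J2.const (x : F) : J2 (fun _ => x) x 0 0 :=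
  ⟨rfl, fun _ => 0, rfl, Eventually.of_forall fun t => hasDerivAt_const t x, hasDerivAt_const 0 0⟩

lemma J2.id : J2 (fun t => t) 0 1 0 :=
  ⟨rfl, fun _ => 1, rfl, Eventually.of_forall fun t => hasDerivAt_id t, hasDerivAt_const 0 1⟩

lemma J2.add (h : J2 X x e a) (h' : J2 Y y f b) :
    J2 (fun t => X t + Y t) (x + y) (e + f) (a + b) := by
  obtain ⟨rfl, X', rfl, h1, h2⟩ := h
  obtain ⟨rfl, Y', rfl, h3, h4⟩ := h'
  exact ⟨rfl, fun t => X' t + Y' t, rfl, (h1.and h3).mono fun t h => h.1.add h.2, h2.add h4⟩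

lemma J2.sub (h : J2 X x e a) (h' : J2 Y y f b) :
    J2 (fun t => X t - Y t) (x - y) (e - f) (a - b) := by
  obtain ⟨rfl, X', rfl, h1, h2⟩ := h
  obtain ⟨rfl, Y', rfl, h3, h4⟩ := h'
  exact ⟨rfl, fun t => X' t - Y' t, rfl, (h1.and h3).mono fun t h => h.1.sub h.2, h2.sub h4⟩

lemma J2.smul {r : ℝ → ℝ} {r0 r1 r2 : ℝ} (h : J2 r r0 r1 r2) (h' : J2 Y y f b) :
    J2 (fun t => r t • Y t) (r0 • y) (r0 • f + r1 • y) (r0 • b + (2 * r1) • f + r2 • y) := by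
  obtain ⟨rfl, r', rfl, h1, h2⟩ := h
  obtain ⟨rfl, Y', rfl, h3, h4⟩ := h'
  refine ⟨rfl, fun t => r t • Y' t + r' t • Y t, rfl, (h1.and h3).mono fun t h => h.1.smul h.2, ?_⟩
  refine ((h1.self_of_nhds.smul h4).add (h2.smul h3.self_of_nhds)).congr_deriv ?_
  module

lemma J2.mul {r s : ℝ → ℝ} {r0 r1 r2 s0 s1 s2 : ℝ} (h : J2 r r0 r1 r2) (h' : J2 s s0 s1 s2) :
    J2 (fun t => r t * s t) (r0 * s0) (r0 * s1 + r1 * s0) (r0 * s2 + (2 * r1) * s1 + r2 * s0) :=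
  h.smul h'

lemma J2.inner {X Y : ℝ → E4} {x e a y f b : E4} (h : J2 X x e a) (h' : J2 Y y f b) :
    J2 (fun t => ⟪X t, Y t⟫_ℝ) ⟪x, y⟫_ℝ (⟪x, f⟫_ℝ + ⟪e, y⟫_ℝ)
      (⟪x, b⟫_ℝ + 2 * ⟪e, f⟫_ℝ + ⟪a, y⟫_ℝ) := by
  obtain ⟨rfl, X', rfl, h1, h2⟩ := h
  obtain ⟨rfl, Y', rfl, h3, h4⟩ := h'
  refine ⟨rfl, fun t => ⟪X t, Y' t⟫_ℝ + ⟪X' t, Y t⟫_ℝ, rfl,
    (h1.and h3).mono fun t h => h.1.inner ℝ h.2, ?_⟩
  refine ((h1.self_of_nhds.inner ℝ h4).add (h2.inner ℝ h3.self_of_nhds)).congr_deriv ?_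
  ring

lemma J2.cont (h : J2 X x e a) : Tendsto X (𝓝 0) (𝓝 x) := by
  obtain ⟨rfl, X', -, h1, -⟩ := h
  exact h1.self_of_nhds.continuousAt

lemma J2.isqrt {q : ℝ → ℝ} {c : ℝ} (h : J2 q 1 0 c) : J2 (fun t => (√(q t))⁻¹) 1 0 (-c / 2) := by
  have hp := h.cont.eventually (lt_mem_nhds one_pos)
  obtain ⟨h0, q', h1, h2, h3⟩ := h
  refine ⟨by simp [h0], fun t => -(q' t / (2 * √(q t))) / √(q t) ^ 2, by simp [h1],
    (h2.and hp).mono fun t h => (h.1.sqrt h.2.ne').inv (Real.sqrt_pos.2 h.2).ne', ?_⟩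
  have s := h2.self_of_nhds.sqrt (by simp [h0])
  refine ((h3.div (s.const_mul 2) (by simp [h0])).neg.div (s.pow 2) (by simp [h0])).congr_deriv ?_
  simp [h0, h1]
  ring

lemma J2.min {φ : ℝ → ℝ} {p0 p1 p2 : ℝ} (h : J2 φ p0 p1 p2) (hm : IsLocalMin φ 0) :
    p1 = 0 ∧ 0 ≤ p2 := by
  obtain ⟨-, φ', rfl, h1, h2⟩ := h
  have e1 : deriv φ =ᶠ[𝓝 0] φ' := h1.mono fun t h => h.deriv
  have e2 : deriv (deriv φ) 0 = p2 := e1.deriv_eq.trans h2.deriv
  have e3 := hm.deriv_eq_zero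
  refine ⟨e1.self_of_nhds.symm.trans e3, not_lt.1 fun hn => ?_⟩
  have e4 := isLocalMax_of_deriv_deriv_neg (e2.trans_lt hn) e3 h1.self_of_nhds.continuousAt
  have e5 : φ =ᶠ[𝓝 0] fun _ => φ 0 := (e4.and hm).mono fun t h => le_antisymm h.1 h.2
  have e6 := e5.deriv.deriv_eq
  simp [e2] at e6
  exact hn.ne e6

lemma J2.curve (p e n : E4) {U : ℝ → ℝ} {A : ℝ} (hU : J2 U 0 0 A) :
    J2 (fun t => (√(1 + t * t + U t * U t))⁻¹ • (p + t • e + U t • n)) p e (-p + A • n) := by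
  have h1 : J2 (fun t => 1 + t * t + U t * U t) 1 0 2 :=
    (((J2.const 1).add (J2.id.mul J2.id)).add (hU.mul hU)).eq (by ring) (by ring) (by ring)
  refine (h1.isqrt.smul (((J2.const p).add (J2.id.smul (J2.const e))).add
    (hU.smul (J2.const n)))).eq ?_ ?_ ?_ <;> module

lemma J2.line {u : P2 → ℝ} (hu : AnalyticAt ℝ u 0) (w : P2) :
    J2 (fun t : ℝ => u (t • w)) (u 0) (fderiv ℝ u 0 w) (fderiv ℝ (fun y => fderiv ℝ u y w) 0 w) := by
  have l : ∀ t : ℝ, HasDerivAt (fun t : ℝ => t • w) w t := fun t => by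
    simpa using (hasDerivAt_id t).smul_const w
  have c : Tendsto (fun t : ℝ => t • w) (𝓝 0) (𝓝 0) := by simpa using (l 0).continuousAt.tendsto
  refine ⟨by simp, fun t => fderiv ℝ u (t • w) w, by simp,
    (c.eventually hu.eventually_analyticAt).mono fun t h =>
      h.differentiableAt.hasFDerivAt.comp_hasDerivAt t (l t), ?_⟩
  have d : DifferentiableAt ℝ (fun y => fderiv ℝ u y w) 0 :=
    hu.fderiv.differentiableAt.clm_apply (differentiableAt_const w)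
  exact HasFDerivAt.comp_hasDerivAt_of_eq (0 : ℝ) d.hasFDerivAt (l 0) (by simp)

end Jet

/-- curves in a minimal surface along the two axes of a frame -/
lemma jets (hC : ChartS) {S : Set E4} (hS : IsMin S) (O : Iso) (h0 : O (ee 0) ∈ S)
    (hn : IsNor S (O (ee 0)) (O (ee 3))) : ∃ (X₁ X₂ : ℝ → E4) (A : ℝ),
    J2 X₁ (O (ee 0)) (O (ee 1)) (-O (ee 0) + A • O (ee 3)) ∧
    J2 X₂ (O (ee 0)) (O (ee 2)) (-O (ee 0) + -A • O (ee 3)) ∧
    (∀ᶠ t in 𝓝 (0 : ℝ), X₁ t ∈ S) ∧ ∀ᶠ t in 𝓝 (0 : ℝ), X₂ t ∈ S := by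
  obtain ⟨δ, u, hc⟩ := hC.chart S hS O h0 hn
  have m : (0 : P2) ∈ ball (0 : P2) δ := mem_ball_self hc.pos
  have hu := hc.sol.1 0 m
  have e := hc.sol.2 0 m
  simp only [gAt, gOp, hc.zero, show d1 u 0 = 0 by simp [d1, hc.dzero],
    show d2 u 0 = 0 by simp [d2, hc.dzero]] at e
  have j1 : J2 (fun t : ℝ => u (t • (1, 0))) 0 0 (d1 (d1 u) 0) :=
    (J2.line hu (1, 0)).eq hc.zero (by simp [hc.dzero]) rfl
  have j2 : J2 (fun t : ℝ => u (t • (0, 1))) 0 0 (-d1 (d1 u) 0) :=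
    (J2.line hu (0, 1)).eq hc.zero (by simp [hc.dzero]) (by
      change d2 (d2 u) 0 = _
      simp at e
      linarith)
  obtain ⟨V, -, hV⟩ := hc.rel _ subset_rfl isOpen_ball
  have inS : ∀ w : P2, ∀ᶠ t : ℝ in 𝓝 0, gX O u (t • w) ∈ S := fun w => by
    have c : Tendsto (fun t : ℝ => t • w) (𝓝 0) (𝓝 0) :=
      (continuous_id.smul continuous_const).tendsto' _ _ (by simp)
    exact (c.eventually (ball_mem_nhds _ hc.pos)).mono fun t h =>
      (hV.subset (mem_image_of_mem _ h)).1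
  refine ⟨_, _, _, J2.curve _ _ _ j1, J2.curve _ _ _ j2, (inS (1, 0)).mono fun t h => ?_,
    (inS (0, 1)).mono fun t h => ?_⟩
  all_goals
    convert h using 1
    simp only [gX, gn, ← map_smul, ← map_add]
    congr 2
    · simp [sq]
    · ext i
      fin_cases i <;> simp [ee]

/-! ### The two-point function has no local minimum -/

/-- the two-point function -/
def Phi (v : E4) (l c : ℝ) (x y : E4) : ℝ := 1 - ⟪x, y⟫_ℝ - l * ((⟪v, x⟫_ℝ + c) * (⟪v, y⟫_ℝ + c))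

lemma pair {S : Set E4} {v x y : E4} {l c : ℝ} (h0 : Phi v l c x y = 0)
    (hm : ∀ᶠ q : E4 × E4 in 𝓝 (x, y), q.1 ∈ S → q.2 ∈ S → 0 ≤ Phi v l c q.1 q.2)
    {X Y : ℝ → E4} {e a f b : E4} (hX : J2 X x e a) (hY : J2 Y y f b)
    (sX : ∀ᶠ t in 𝓝 (0 : ℝ), X t ∈ S) (sY : ∀ᶠ t in 𝓝 (0 : ℝ), Y t ∈ S) :
    ⟪e, y + (l * (⟪v, y⟫_ℝ + c)) • v⟫_ℝ + ⟪f, x + (l * (⟪v, x⟫_ℝ + c)) • v⟫_ℝ = 0 ∧
    ⟪a, y + (l * (⟪v, y⟫_ℝ + c)) • v⟫_ℝ + ⟪b, x + (l * (⟪v, x⟫_ℝ + c)) • v⟫_ℝ +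
      2 * (⟪e, f⟫_ℝ + l * (⟪v, e⟫_ℝ * ⟪v, f⟫_ℝ)) ≤ 0 := by
  have j := ((J2.const 1).sub (hX.inner hY)).sub ((J2.const l).mul
    ((((J2.const v).inner hX).add (J2.const c)).mul (((J2.const v).inner hY).add (J2.const c))))
  obtain ⟨h1, h2⟩ := j.min (by
    filter_upwards [(hX.cont.prodMk_nhds hY.cont).eventually hm, sX, sY] with t a1 a2 a3
    rw [hX.1, hY.1]
    exact h0.trans_le (a1 a2 a3))
  simp only [inner_add_right, real_inner_smul_right, inner_zero_left, real_inner_comm v,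
    real_inner_comm x f, real_inner_comm x b] at h1 h2 ⊢
  constructor <;> linarith

lemma inner_frame (O : Iso) (m z : E4) : ⟪m, z⟫_ℝ = ⟪O (ee 0), m⟫_ℝ * ⟪O (ee 0), z⟫_ℝ +
    ⟪O (ee 1), m⟫_ℝ * ⟪O (ee 1), z⟫_ℝ + ⟪O (ee 2), m⟫_ℝ * ⟪O (ee 2), z⟫_ℝ +
    ⟪O (ee 3), m⟫_ℝ * ⟪O (ee 3), z⟫_ℝ := by
  obtain ⟨m, rfl⟩ := O.surjective m
  obtain ⟨z, rfl⟩ := O.surjective z
  simp only [O.inner_map_map, inner4]
  simp [ee]

lemma inner_ee (O : Iso) (i j : Fin 4) : ⟪O (ee i), O (ee j)⟫_ℝ = if i = j then 1 else 0 := by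
  rw [O.inner_map_map, ee, ee, EuclideanSpace.inner_single_left]
  simp

lemma refl_apply {x y : E4} (hx : ‖x‖ = 1) (hy : ‖y‖ = 1) (e : E4) :
    (ℝ ∙ (x - y))ᗮ.reflection e = e - (⟪x - y, e⟫_ℝ / (1 - ⟪x, y⟫_ℝ)) • (x - y) := by
  rw [Submodule.reflection_orthogonal_apply, Submodule.reflection_singleton_apply, neg_sub]
  have : ‖x - y‖ ^ 2 = 2 * (1 - ⟪x, y⟫_ℝ) := by rw [norm_sub_sq_real, hx, hy]; ring
  simp only [RCLike.ofReal_real_eq_id, id, this]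
  rw [two_smul, ← add_smul]
  congr 2
  rw [mul_comm, ← div_div]
  ring

lemma refl_tan {v x y e : E4} {l c : ℝ} (hx : ‖x‖ = 1) (hy : ‖y‖ = 1) (h0 : Phi v l c x y = 0)
    (hl : 0 < l) (ha : 0 < ⟪v, x⟫_ℝ + c) (hb : 0 < ⟪v, y⟫_ℝ + c) (he : ⟪e, e⟫_ℝ = 1)
    (h1 : ⟪x, e⟫_ℝ = 0) (h2 : ⟪e, y + (l * (⟪v, y⟫_ℝ + c)) • v⟫_ℝ = 0) :
    ⟪(ℝ ∙ (x - y))ᗮ.reflection e, x + (l * (⟪v, x⟫_ℝ + c)) • v⟫_ℝ = 0 ∧
    ⟪e, (ℝ ∙ (x - y))ᗮ.reflection e⟫_ℝ +
      l * (⟪v, e⟫_ℝ * ⟪v, (ℝ ∙ (x - y))ᗮ.reflection e⟫_ℝ) = 1 := by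
  have xx : ⟪x, x⟫_ℝ = 1 := by rw [real_inner_self_eq_norm_sq, hx]; norm_num
  have hD : 1 - ⟪x, y⟫_ℝ = l * ((⟪v, x⟫_ℝ + c) * (⟪v, y⟫_ℝ + c)) := sub_eq_zero.1 h0
  have e1 : ⟪x - y, e⟫_ℝ / (1 - ⟪x, y⟫_ℝ) = ⟪v, e⟫_ℝ / (⟪v, x⟫_ℝ + c) := by
    rw [inner_add_right, real_inner_smul_right, real_inner_comm y e, real_inner_comm v e] at h2
    rw [hD, inner_sub_left, h1, div_eq_div_iff (by positivity) ha.ne']
    linear_combination (-(⟪v, x⟫_ℝ + c)) * h2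
  rw [refl_apply hx hy, e1]
  obtain ⟨τ, hτ⟩ : ∃ τ, ⟪v, e⟫_ℝ = τ * (⟪v, x⟫_ℝ + c) := ⟨_, (div_mul_cancel₀ _ ha.ne').symm⟩
  rw [hτ, mul_div_cancel_right₀ _ ha.ne']
  simp only [inner_add_right, inner_sub_left, inner_sub_right, real_inner_smul_right,
    real_inner_smul_left, real_inner_comm v, real_inner_comm x e, real_inner_comm x y, he, xx, h1,
    hτ] at h2 ⊢
  constructor
  · linear_combination (-τ) * hD
  · linear_combination τ * h2

theorem no_min (hM : MeqS) (hC : ChartS) {S : Set E4} (hS : IsMin S) {v x y : E4} {l c : ℝ}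
    (hx : x ∈ S) (hy : y ∈ S) (hl : 0 < l) (hc : 0 < c) (hv : c ≤ ‖v‖) (ha : 0 < ⟪v, x⟫_ℝ + c)
    (hb : 0 < ⟪v, y⟫_ℝ + c) (h0 : Phi v l c x y = 0) :
    ¬ ∀ᶠ q : E4 × E4 in 𝓝 (x, y), q.1 ∈ S → q.2 ∈ S → 0 ≤ Phi v l c q.1 q.2 := by
  intro hm
  have ux := hC.unit S hS x hx
  have uy := hC.unit S hS y hy
  have nx := (hC.nor_spec S hS x hx).1
  obtain ⟨ny, ny'⟩ := hC.nor_spec S hS y hy
  obtain ⟨O, rfl, O3⟩ := (hM.frame x _ ux nx.1 nx.2.1).1
  obtain ⟨Q, Q0, Q3⟩ := (hM.frame y _ uy ny.1 ny.2.1).1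
  rw [← O3] at nx
  obtain ⟨X₁, X₂, A, j1, j2, s1, s2⟩ := jets hC hS O hx nx
  obtain ⟨Z₁, Z₂, B, k1, k2, t1, t2⟩ := jets hC hS Q (Q0 ▸ hy) (by rw [Q0, Q3]; exact ny)
  rw [Q0] at k1 k2
  have cx : ∀ᶠ _ in 𝓝 (0 : ℝ), O (ee 0) ∈ S := Eventually.of_forall fun _ => hx
  have cy : ∀ᶠ _ in 𝓝 (0 : ℝ), y ∈ S := Eventually.of_forall fun _ => hy
  have a1 := (pair h0 hm j1 (J2.const y) s1 cy).1
  have a2 := (pair h0 hm j2 (J2.const y) s2 cy).1
  have b1 := (pair h0 hm (J2.const _) k1 cx t1).1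
  have b2 := (pair h0 hm (J2.const _) k2 cx t2).1
  rw [inner_zero_left, add_zero] at a1 a2
  rw [inner_zero_left, zero_add] at b1 b2
  obtain ⟨r1, r1'⟩ := refl_tan ux uy h0 hl ha hb (inner_ee O 1 1) (inner_ee O 0 1) a1
  obtain ⟨r2, r2'⟩ := refl_tan ux uy h0 hl ha hb (inner_ee O 2 2) (inner_ee O 0 2) a2
  have hD : 1 - ⟪O (ee 0), y⟫_ℝ = l * ((⟪v, O (ee 0)⟫_ℝ + c) * (⟪v, y⟫_ℝ + c)) := sub_eq_zero.1 h0
  have xx : ⟪O (ee 0), O (ee 0)⟫_ℝ = 1 := inner_ee O 0 0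
  have yy : ⟪y, y⟫_ℝ = 1 := by rw [real_inner_self_eq_norm_sq, uy]; norm_num
  obtain ⟨O', hO'⟩ : ∃ O' : Iso, ∀ z, (ℝ ∙ (O (ee 0) - y))ᗮ.reflection (O z) = O' z :=
    ⟨O.trans (ℝ ∙ (O (ee 0) - y))ᗮ.reflection, fun _ => rfl⟩
  have O0 : O' (ee 0) = y := (hO' _).symm.trans (Submodule.reflection_sub (ux.trans uy.symm))
  rw [hO'] at r1 r2 r1' r2'
  set M := O (ee 0) + (l * (⟪v, O (ee 0)⟫_ℝ + c)) • v with hM'
  have m0 : ⟪Q (ee 3), M⟫_ℝ ≠ 0 := fun h => by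
    have e1 := inner_frame Q M M
    rw [h, b1, b2, Q0] at e1
    simp only [hM', inner_add_right, inner_add_left, real_inner_smul_right, real_inner_smul_left,
      xx, real_inner_comm v, real_inner_comm (O (ee 0)) y, real_inner_self_eq_norm_sq v] at e1
    have e2 : c ^ 2 ≤ ‖v‖ ^ 2 := pow_le_pow_left₀ hc.le hv 2
    set α := ⟪v, O (ee 0)⟫_ℝ + c with hα
    have e3 : ⟪v, O (ee 0)⟫_ℝ = α - c := by ring
    have e4 : ⟪O (ee 0), y⟫_ℝ + l * α * ⟪v, y⟫_ℝ = 1 - l * α * c := by linear_combination -hD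
    rw [e4, e3] at e1
    nlinarith [mul_pos hl (mul_pos ha ha), mul_nonneg (sq_nonneg (l * α)) (sub_nonneg.2 e2)]
  have m1 : ∀ i : Fin 4, i ≠ 0 → ⟪O' (ee i), M⟫_ℝ = 0 → ⟪O' (ee i), Q (ee 3)⟫_ℝ = 0 := by
    intro i hi h
    have e1 := inner_frame Q M (O' (ee i))
    rw [real_inner_comm, h, b1, b2, Q0, ← O0, inner_ee, if_neg hi.symm] at e1
    rw [real_inner_comm]
    exact (mul_eq_zero.1 (by linarith)).resolve_left m0
  have n1 : IsNor S y (O' (ee 3)) := by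
    have e1 := inner_frame O' (Q (ee 3)) (Q (ee 3))
    rw [m1 1 (by decide) r1, m1 2 (by decide) r2, O0, ← Q0, inner_ee, inner_ee] at e1
    have u1 : ‖O' (ee 3)‖ = 1 := by simp [ee]
    have u2 : ‖Q (ee 3)‖ = 1 := by simp [ee]
    rw [ny', ← Q3]
    refine (mul_self_eq_one_iff.1 (by simpa using e1.symm)).imp
      (inner_eq_one_iff_of_norm_eq_one (𝕜 := ℝ) u1 u2).1 fun h => ?_
    exact (inner_eq_one_iff_of_norm_eq_one (𝕜 := ℝ) u1 ((norm_neg _).trans u2)).1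
      (by rw [inner_neg_right, h, neg_neg])
  obtain ⟨Y₁, Y₂, B', l1, l2, u1, u2⟩ := jets hC hS O' (O0 ▸ hy) (by rw [O0]; exact n1)
  rw [O0] at l1 l2
  have c1 := (pair h0 hm j1 l1 s1 u1).2
  have c2 := (pair h0 hm j2 l2 s2 u2).2
  rw [r1'] at c1
  rw [r2'] at c2
  simp only [inner_add_left, real_inner_smul_left, inner_neg_left] at c1 c2
  have c3 : ⟪O (ee 0), y + (l * (⟪v, y⟫_ℝ + c)) • v⟫_ℝ + ⟪y, M⟫_ℝ =
      2 - l * c * ((⟪v, O (ee 0)⟫_ℝ + c) + (⟪v, y⟫_ℝ + c)) := by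
    simp only [hM', inner_add_right, real_inner_smul_right, real_inner_comm v,
      real_inner_comm (O (ee 0)) y]
    linear_combination -2 * hD
  nlinarith [mul_pos (mul_pos hl hc) (add_pos ha hb)]

/-! ### Points of the two parts are far apart -/

lemma loc {S : Set E4} (hS : IsMin S) (v : E4) {u w : Set E4} (hu : IsOpen u) (hw : IsOpen w)
    (hc : S ∩ {x | 0 < ⟪v, x⟫_ℝ} ⊆ u ∪ w) (hd : ¬ (S ∩ {x | 0 < ⟪v, x⟫_ℝ} ∩ (u ∩ w)).Nonempty)
    {p : E4} (hp : p ∈ S) {θ : ℝ} (hθ : 0 < θ) (hθ' : θ ≤ 1) : ∃ V, IsOpen V ∧ p ∈ V ∧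
      ∀ x ∈ S ∩ V, ∀ y ∈ S ∩ V, x ∈ u → y ∈ w → 0 < ⟪v, x⟫_ℝ → 0 < ⟪v, y⟫_ℝ →
        ⟪v, x⟫_ℝ * ⟪v, y⟫_ℝ ≤ 2 * θ * (‖v‖ * ‖x - y‖) ^ 2 := by
  obtain ⟨U, X, hX, s, hs, rfl⟩ := hS p hp
  have hU := hX.isOpen.mem_nhds hs
  have d := (hX.smooth.contDiffAt hU).hasStrictFDerivAt (by simp)
  obtain ⟨K, K0, hK⟩ := LinearMap.exists_antilipschitzWith (fderiv ℝ X s).toLinearMap
    (LinearMap.ker_eq_bot.2 (hX.imm s hs))
  have K1 : (0 : ℝ) < K := K0
  have e1 := d.isLittleO.def (c := θ / (2 * K)) (by positivity)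
  rw [nhds_prod_eq] at e1
  obtain ⟨t, ht, e1⟩ := (eventually_prod_self_iff
    (r := fun a b => ‖X a - X b - fderiv ℝ X s (a - b)‖ ≤ θ / (2 * K) * ‖a - b‖)).1 e1
  obtain ⟨δ, δ0, hδ⟩ := Metric.mem_nhds_iff.1 (inter_mem ht hU)
  have bU : ball s δ ⊆ U := fun z hz => (hδ hz).2
  obtain ⟨V, hV, e2⟩ := hX.rel _ bU isOpen_ball
  refine ⟨V, hV, (e2.subset (mem_image_of_mem _ (mem_ball_self δ0))).2, ?_⟩
  rw [← e2]
  rintro _ ⟨a, ha, rfl⟩ _ ⟨b, hb, rfl⟩ xu yw h1 h2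
  have e3 : ∀ a ∈ ball s δ, ∀ b ∈ ball s δ,
      ‖X a - X b - fderiv ℝ X s (a - b)‖ ≤ θ / (2 * K) * ‖a - b‖ :=
    fun a ha b hb => e1 a (hδ ha).1 b (hδ hb).1
  have e4 : θ / (2 * K) * ‖a - b‖ ≤ θ * ‖X a - X b‖ := by
    have f1 : ‖a - b‖ ≤ K * ‖fderiv ℝ X s (a - b)‖ := ZeroHomClass.bound_of_antilipschitz _ hK _
    have f2 : ‖fderiv ℝ X s (a - b)‖ ≤ ‖X a - X b‖ + θ / (2 * K) * ‖a - b‖ :=
      (norm_le_insert _ _).trans (add_le_add le_rfl (e3 a ha b hb))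
    have f3 := mul_le_mul_of_nonneg_left f2 K1.le
    have f4 : K * (θ / (2 * K) * ‖a - b‖) = θ / 2 * ‖a - b‖ := by field_simp
    rw [div_mul_eq_mul_div, div_le_iff₀ (by positivity)]
    have f5 : ‖a - b‖ ≤ 2 * (K * ‖X a - X b‖) := by nlinarith [norm_nonneg (a - b)]
    nlinarith
  have sb : segment ℝ a b ⊆ ball s δ := (convex_ball s δ).segment_subset ha hb
  obtain ⟨z, hz, hz'⟩ : ∃ z ∈ segment ℝ a b, ⟪v, X z⟫_ℝ ≤ 0 := by
    by_contra hn
    simp only [not_exists, not_and, not_le] at hn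
    have sub : X '' segment ℝ a b ⊆ S ∩ {x | 0 < ⟪v, x⟫_ℝ} := by
      rintro _ ⟨z, hz, rfl⟩
      exact ⟨(e2.subset (mem_image_of_mem _ (sb hz))).1, hn z hz⟩
    exact hd ((((convex_segment a b).isPreconnected.image X
      (hX.smooth.continuousOn.mono (sb.trans bU))) u w hu hw (sub.trans hc)
      ⟨_, mem_image_of_mem _ (left_mem_segment ℝ a b), xu⟩
      ⟨_, mem_image_of_mem _ (right_mem_segment ℝ a b), yw⟩).mono (inter_subset_inter_left _ sub))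
  have g1 := e3 a ha z (sb hz)
  have g2 := e3 b hb z (sb hz)
  obtain ⟨t₁, t₂, p1, p2, p3, rfl⟩ := hz
  obtain rfl : t₁ = 1 - t₂ := by linarith
  rw [show a - ((1 - t₂) • a + t₂ • b) = t₂ • (a - b) by module, norm_smul,
    Real.norm_of_nonneg p2] at g1
  rw [show b - ((1 - t₂) • a + t₂ • b) = -((1 - t₂) • (a - b)) by module, norm_neg, norm_smul,
    Real.norm_of_nonneg p1] at g2
  set Z := X ((1 - t₂) • a + t₂ • b)
  have g3 : ‖(1 - t₂) • X a + t₂ • X b - Z‖ ≤ θ * ‖X a - X b‖ := by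
    rw [show (1 - t₂) • X a + t₂ • X b - Z =
      (1 - t₂) • (X a - Z - fderiv ℝ X s (t₂ • (a - b))) +
        t₂ • (X b - Z - fderiv ℝ X s (-((1 - t₂) • (a - b)))) by
      simp only [map_smul, map_neg]; module]
    refine (norm_add_le _ _).trans ?_
    rw [norm_smul, norm_smul, Real.norm_of_nonneg p1, Real.norm_of_nonneg p2]
    have f0 : 0 ≤ θ / (2 * K) * ‖a - b‖ := by positivity
    have f1 := mul_le_mul_of_nonneg_left g1 p1
    have f2 := mul_le_mul_of_nonneg_left g2 p2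
    nlinarith [mul_nonneg f0 (sq_nonneg (1 - 2 * t₂))]
  have g4 := (real_inner_le_norm v _).trans (mul_le_mul_of_nonneg_left g3 (norm_nonneg v))
  rw [inner_sub_right, inner_add_right, real_inner_smul_right, real_inner_smul_right] at g4
  have g5 := abs_le.1 (abs_real_inner_le_norm v (X a - X b))
  rw [inner_sub_right] at g5
  set n := ‖v‖ * ‖X a - X b‖ with hn
  have n0 : 0 ≤ n := by positivity
  have g6 : (1 - t₂) * ⟪v, X a⟫_ℝ + t₂ * ⟪v, X b⟫_ℝ ≤ θ * n := by rw [hn]; linarith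
  have key : ∀ r r' : ℝ, 0 < r → r ≤ θ * n → 0 < r' → r' ≤ r + n → r * r' ≤ 2 * θ * n ^ 2 := by
    intro r r' a1 a2 a3 a4
    have a5 : r' ≤ 2 * n := by nlinarith
    nlinarith [mul_le_mul a2 a5 a3.le (a1.le.trans a2)]
  rcases le_total ⟪v, X a⟫_ℝ ⟪v, X b⟫_ℝ with h | h
  · exact key _ _ h1 (by nlinarith) h2 (by linarith)
  · rw [mul_comm]
    exact key _ _ h2 (by nlinarith) h1 (by linarith)

end DTwo

open DTwo in
theorem twoS (hM : MeqS) (hC : ChartS) : TwoS := by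
  intro S hS hK v u w hu hw hc ⟨x₀, ⟨x1, x2⟩, x3⟩ ⟨y₀, ⟨y1, y2⟩, y3⟩
  by_contra hd
  have hD : ∀ x ∈ S, ∀ y ∈ S, ‖x - y‖ ^ 2 = 2 * (1 - ⟪x, y⟫_ℝ) := fun x hx y hy => by
    rw [norm_sub_sq_real, hC.unit S hS x hx, hC.unit S hS y hy]; ring
  have hpos : ∀ x ∈ S, ∀ y ∈ S, 0 < ⟪v, x⟫_ℝ → x ∈ u → y ∈ w → 0 < 1 - ⟪x, y⟫_ℝ := by
    intro x hx y hy h1 h2 h3
    have : 0 < ‖x - y‖ := norm_sub_pos_iff.2 fun e => hd ⟨x, ⟨hx, h1⟩, h2, e ▸ h3⟩
    nlinarith [hD x hx y hy]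
  change 0 < ⟪v, x₀⟫_ℝ at x2
  change 0 < ⟪v, y₀⟫_ℝ at y2
  obtain ⟨C, C0, hC0⟩ : ∃ C : ℝ, 0 < C ∧ 1 - ⟪x₀, y₀⟫_ℝ = C * (⟪v, x₀⟫_ℝ * ⟪v, y₀⟫_ℝ) :=
    ⟨_, div_pos (hpos _ x1 _ y1 x2 x3 y3) (mul_pos x2 y2),
      (div_mul_cancel₀ _ (mul_pos x2 y2).ne').symm⟩
  set K : Set (E4 × E4) := {q | q.1 ∈ S ∧ q.2 ∈ S ∧ q.1 ∈ u ∧ q.2 ∈ w ∧ 0 < ⟪v, q.1⟫_ℝ ∧
    0 < ⟪v, q.2⟫_ℝ ∧ 1 - ⟪q.1, q.2⟫_ℝ ≤ (C + 1) * (⟪v, q.1⟫_ℝ * ⟪v, q.2⟫_ℝ)} with hKdef
  have k0 : (x₀, y₀) ∈ K := ⟨x1, y1, x3, y3, x2, y2, by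
    dsimp only; nlinarith [mul_pos x2 y2]⟩
  have f1 : Continuous fun q : E4 × E4 => ⟪v, q.1⟫_ℝ := by fun_prop
  have f2 : Continuous fun q : E4 × E4 => ⟪v, q.2⟫_ℝ := by fun_prop
  have f3 : Continuous fun q : E4 × E4 => 1 - ⟪q.1, q.2⟫_ℝ := by fun_prop
  have f4 : Continuous fun q : E4 × E4 => (C + 1) * (⟪v, q.1⟫_ℝ * ⟪v, q.2⟫_ℝ) := by fun_prop
  have cK : IsCompact K := by
    refine (hK.prod hK).of_isClosed_subset (isClosed_of_closure_subset ?_)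
      fun q hq => ⟨hq.1, hq.2.1⟩
    rintro ⟨x, y⟩ hq
    have cl : ∀ T : Set (E4 × E4), IsClosed T → K ⊆ T → (x, y) ∈ T :=
      fun T h1 h2 => closure_minimal h2 h1 hq
    have a1 : x ∈ S := cl _ (hK.isClosed.preimage continuous_fst) fun q h => h.1
    have a2 : y ∈ S := cl _ (hK.isClosed.preimage continuous_snd) fun q h => h.2.1
    have a3 : 0 ≤ ⟪v, x⟫_ℝ := cl _ (isClosed_le continuous_const f1) fun q h => h.2.2.2.2.1.le
    have a4 : 0 ≤ ⟪v, y⟫_ℝ := cl _ (isClosed_le continuous_const f2) fun q h => h.2.2.2.2.2.1.le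
    have a5 : 1 - ⟪x, y⟫_ℝ ≤ (C + 1) * (⟪v, x⟫_ℝ * ⟪v, y⟫_ℝ) :=
      cl _ (isClosed_le f3 f4) fun q h => h.2.2.2.2.2.2
    have b0 : ⟪v, x⟫_ℝ * ⟪v, y⟫_ℝ ≠ 0 := fun e => by
      have e1 := hD x a1 y a2
      obtain rfl : x = y := sub_eq_zero.1 (norm_eq_zero.1 (pow_eq_zero_iff two_ne_zero |>.1
        (le_antisymm (by rw [e] at a5; linarith) (sq_nonneg _))))
      have t0 : 0 < 1 + 4 * ((C + 1) * ‖v‖ ^ 2) := by positivity
      obtain ⟨V, hV, hx, H⟩ := loc hS v hu hw hc hd a1 (inv_pos.2 t0)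
        (inv_le_one_of_one_le₀ (le_add_of_nonneg_right (by positivity)))
      obtain ⟨⟨x', y'⟩, ⟨v1, v2⟩, c1, c2, c3, c4, c5, c6, c7⟩ :=
        mem_closure_iff.1 hq (V ×ˢ V) (hV.prod hV) ⟨hx, hx⟩
      have d1 := H x' ⟨c1, v1⟩ y' ⟨c2, v2⟩ c3 c4 c5 c6
      have d2 := hpos x' c1 y' c2 c5 c3 c4
      rw [mul_pow, hD x' c1 y' c2, mul_right_comm, ← div_eq_mul_inv, le_div_iff₀ t0] at d1
      dsimp only at c5 c6 c7
      nlinarith [mul_le_mul_of_nonneg_left c7 (sq_nonneg ‖v‖), mul_pos c5 c6]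
    have b1 : 0 < ⟪v, x⟫_ℝ := a3.lt_of_ne fun e => b0 (by rw [← e, zero_mul])
    have b2 : 0 < ⟪v, y⟫_ℝ := a4.lt_of_ne fun e => b0 (by rw [← e, mul_zero])
    refine ⟨a1, a2, (hc ⟨a1, b1⟩).resolve_right fun h => ?_,
      (hc ⟨a2, b2⟩).resolve_left fun h => ?_, b1, b2, a5⟩
    · obtain ⟨q, c0, c⟩ := mem_closure_iff.1 hq _ (hw.preimage continuous_fst) h
      exact hd ⟨q.1, ⟨c.1, c.2.2.2.2.1⟩, c.2.2.1, c0⟩
    · obtain ⟨q, c0, c⟩ := mem_closure_iff.1 hq _ (hu.preimage continuous_snd) h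
      exact hd ⟨q.2, ⟨c.2.1, c.2.2.2.2.2.1⟩, c0, c.2.2.2.1⟩
  obtain ⟨q₀, hq₀, m0⟩ := cK.exists_isMinOn ⟨_, k0⟩
    (f := fun q => min ⟪v, q.1⟫_ℝ ⟪v, q.2⟫_ℝ) (by fun_prop)
  obtain ⟨κ, κ0, κ1, κ2⟩ : ∃ κ : ℝ, 0 < κ ∧ κ ≤ 1 ∧ C * ((1 + κ) * (1 + κ)) < C + 1 := by
    have t0 : 0 < 1 + 3 * C := by positivity
    have t1 := inv_pos.2 t0
    have t2 : (1 + 3 * C)⁻¹ ≤ 1 := inv_le_one_of_one_le₀ (by linarith)
    have t3 := mul_inv_cancel₀ t0.ne'
    exact ⟨_, t1, t2, by nlinarith [mul_le_mul_of_nonneg_left t2 (mul_pos C0 t1).le]⟩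
  obtain ⟨c, c0, c1⟩ : ∃ c : ℝ, 0 < c ∧ ∀ q ∈ K, c ≤ κ * ⟪v, q.1⟫_ℝ ∧ c ≤ κ * ⟪v, q.2⟫_ℝ :=
    ⟨_, mul_pos κ0 (lt_min hq₀.2.2.2.2.1 hq₀.2.2.2.2.2.1), fun q hq =>
      ⟨mul_le_mul_of_nonneg_left ((m0 hq).trans (min_le_left _ _)) κ0.le,
        mul_le_mul_of_nonneg_left ((m0 hq).trans (min_le_right _ _)) κ0.le⟩⟩
  have pK : ∀ q ∈ K, 0 < (⟪v, q.1⟫_ℝ + c) * (⟪v, q.2⟫_ℝ + c) := fun q hq =>
    mul_pos (add_pos hq.2.2.2.2.1 c0) (add_pos hq.2.2.2.2.2.1 c0)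
  obtain ⟨⟨x, y⟩, hq, m1⟩ := cK.exists_isMinOn ⟨_, k0⟩
    (f := fun q => (1 - ⟪q.1, q.2⟫_ℝ) / ((⟪v, q.1⟫_ℝ + c) * (⟪v, q.2⟫_ℝ + c)))
    (ContinuousOn.div (by fun_prop) (by fun_prop) fun q hq => (pK q hq).ne')
  have p1 := pK _ hq
  obtain ⟨e1, e2⟩ := c1 _ hq
  obtain ⟨a1, a2, a3, a4, a5, a6, -⟩ := hq
  dsimp only at p1 e1 e2 a1 a2 a3 a4 a5 a6 m1
  have lC : (1 - ⟪x, y⟫_ℝ) / ((⟪v, x⟫_ℝ + c) * (⟪v, y⟫_ℝ + c)) ≤ C :=
    le_trans (m1 k0) ((div_le_iff₀ (pK _ k0)).2 (by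
      dsimp only
      rw [hC0]
      exact mul_le_mul_of_nonneg_left (by nlinarith) C0.le))
  have lt : 1 - ⟪x, y⟫_ℝ < (C + 1) * (⟪v, x⟫_ℝ * ⟪v, y⟫_ℝ) := by
    rw [div_le_iff₀ p1] at lC
    have f1 : (⟪v, x⟫_ℝ + c) * (⟪v, y⟫_ℝ + c) ≤ ((1 + κ) * ⟪v, x⟫_ℝ) * ((1 + κ) * ⟪v, y⟫_ℝ) :=
      mul_le_mul (by linarith) (by linarith) (by linarith) (by positivity)
    nlinarith [mul_le_mul_of_nonneg_left f1 C0.le, mul_lt_mul_of_pos_right κ2 (mul_pos a5 a6)]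
  have cv : c ≤ ‖v‖ := by
    have := real_inner_le_norm v x
    rw [hC.unit S hS x a1] at this
    nlinarith
  refine no_min hM hC hS a1 a2 (div_pos (hpos x a1 y a2 a5 a3 a4) p1) c0 cv (add_pos a5 c0)
    (add_pos a6 c0) (sub_eq_zero.2 (div_mul_cancel₀ _ p1.ne').symm) ?_
  have o : IsOpen {q : E4 × E4 | q.1 ∈ u ∧ q.2 ∈ w ∧ 0 < ⟪v, q.1⟫_ℝ ∧ 0 < ⟪v, q.2⟫_ℝ ∧
      1 - ⟪q.1, q.2⟫_ℝ < (C + 1) * (⟪v, q.1⟫_ℝ * ⟪v, q.2⟫_ℝ)} :=
    (hu.preimage continuous_fst).inter ((hw.preimage continuous_snd).inter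
      ((isOpen_lt continuous_const f1).inter
        ((isOpen_lt continuous_const f2).inter (isOpen_lt f3 f4))))
  filter_upwards [o.mem_nhds ⟨a3, a4, a5, a6, lt⟩] with q h h1 h2
  have hq : q ∈ K := ⟨h1, h2, h.1, h.2.1, h.2.2.1, h.2.2.2.1, h.2.2.2.2.le⟩
  exact sub_nonneg.2 ((le_div_iff₀ (pK q hq)).1 (m1 hq))

end Pool.Agent.Lib.MP_16d934_gt
end
end

-- part Pool.Agent.Lib.MP_16d934_gt.AChg
section

/-! Change of variables in a weak equation. -/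

set_option autoImplicit false

open Set Metric Filter Topology MeasureTheory
open scoped ContDiff NNReal

noncomputable section

namespace Pool.Agent.Lib.MP_16d934_gt

namespace AChg

variable {β : P2 → ℝ} {l : P2} {K : ℝ≥0}

theorem fderiv_dot (f : P2 → ℝ) (y v : P2) : fderiv ℝ f y v = dot v (grad f y) := by
  have : v = v.1 • ((1, 0) : P2) + v.2 • ((0, 1) : P2) := by ext <;> simp
  conv_lhs => rw [this]
  rw [map_add, map_smul, map_smul]
  rfl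

/-- the inverse of the change of variables -/
theorem exists_inv (hβ : LipschitzWith K β) (hK : (K : ℝ) * ‖l‖ < 1) :
    ∃ (Ψ : P2 → P2) (C : ℝ≥0), LipschitzWith C Ψ ∧ (∀ x, Ψ (x + β x • l) = x) ∧
      ∀ y, Ψ y + β (Ψ y) • l = y := by
  have hc : K * ‖l‖₊ < 1 := by exact_mod_cast hK
  have h1 : LipschitzWith (K * ‖l‖₊) fun x => β x • l :=
    LipschitzWith.of_dist_le_mul fun x y => by
      rw [dist_eq_norm, ← sub_smul, norm_smul, NNReal.coe_mul, coe_nnnorm, mul_right_comm,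
        ← dist_eq_norm]
      exact mul_le_mul_of_nonneg_right (hβ.dist_le_mul x y) (norm_nonneg _)
  have h2 := (AntilipschitzWith.id (α := P2)).add_lipschitzWith h1 (by simpa using hc)
  have h3 : ∀ y : P2, ∃ x, x + β x • l = y := fun y => by
    have h4 : ContractingWith (K * ‖l‖₊) fun x => y - β x • l :=
      ⟨hc, LipschitzWith.of_dist_le_mul fun a b => by
        rw [dist_sub_left]
        exact h1.dist_le_mul a b⟩
    exact ⟨_, eq_sub_iff_add_eq.1 h4.fixedPoint_isFixedPt.eq.symm⟩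
  choose Ψ hΨ using h3
  exact ⟨Ψ, _, h2.to_rightInverse hΨ, fun x => h2.injective (hΨ _), hΨ⟩

/-- the derivative of the change of variables -/
def dP (β : P2 → ℝ) (l x : P2) : P2 →L[ℝ] P2 :=
  ContinuousLinearMap.id ℝ P2 + (fderiv ℝ β x).smulRight l

theorem dP_apply (x v : P2) : dP β l x v = v + dot v (grad β x) • l := by
  simp [dP, fderiv_dot]

theorem hasD (hβ : Differentiable ℝ β) (x : P2) :
    HasFDerivAt (fun x => x + β x • l) (dP β l x) x :=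
  (hasFDerivAt_id x).add ((hβ x).hasFDerivAt.smul_const l)

theorem det_dP (x : P2) : (dP β l x).det = 1 + dot l (grad β x) := by
  rw [ContinuousLinearMap.det, ← LinearMap.det_toMatrix (Module.Basis.finTwoProd ℝ),
    Matrix.det_fin_two]
  simp [LinearMap.toMatrix_apply, dP_apply, dot]
  ring

theorem jac_pos (hβ : LipschitzWith K β) (hK : (K : ℝ) * ‖l‖ < 1) (x : P2) :
    0 < 1 + dot l (grad β x) := by
  rw [← fderiv_dot]
  have h1 := (fderiv ℝ β x).le_opNorm l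
  have h2 := mul_le_mul_of_nonneg_right (norm_fderiv_le_of_lipschitz ℝ (x₀ := x) hβ)
    (norm_nonneg l)
  have h3 := neg_abs_le (fderiv ℝ β x l)
  rw [Real.norm_eq_abs] at h1
  linarith

/-- chain rule without differentiability assumption -/
theorem chain (hβ : Differentiable ℝ β) {Ψ : P2 → P2} (hc : Continuous Ψ)
    (h1 : ∀ x, Ψ (x + β x • l) = x) (h2 : ∀ y, Ψ y + β (Ψ y) • l = y) (x : P2)
    (hJ : 0 < 1 + dot l (grad β x)) (f : P2 → ℝ) :
    grad (fun x => f (x + β x • l)) x =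
      grad f (x + β x • l) + dot l (grad f (x + β x • l)) • grad β x := by
  have key : fderiv ℝ (fun x => f (x + β x • l)) x =
      (fderiv ℝ f (x + β x • l)).comp (dP β l x) := by
    by_cases hf : DifferentiableAt ℝ f (x + β x • l)
    · exact (hf.hasFDerivAt.comp x (hasD hβ x)).fderiv
    · have hd : (dP β l x).det ≠ 0 := by rw [det_dP]; exact hJ.ne'
      have h3 : HasFDerivAt (fun x => x + β x • l)
          ((dP β l x).toContinuousLinearEquivOfDetNeZero hd : P2 →L[ℝ] P2)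
          (Ψ (x + β x • l)) := by
        rw [h1, ContinuousLinearMap.coe_toContinuousLinearEquivOfDetNeZero]
        exact hasD hβ x
      have h4 := (h3.of_local_left_inverse hc.continuousAt (Eventually.of_forall h2)).differentiableAt
      have h5 : ¬ DifferentiableAt ℝ (fun x => f (x + β x • l)) x := fun h => hf (by
        have h6 : DifferentiableAt ℝ (fun x => f (x + β x • l)) (Ψ (x + β x • l)) := by
          rwa [h1]
        have h7 := h6.comp _ h4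
        simpa only [Function.comp_def, h2] using h7)
      rw [fderiv_zero_of_not_differentiableAt hf, fderiv_zero_of_not_differentiableAt h5]
      rfl
  refine Prod.ext ?_ ?_
  · change fderiv ℝ (fun x => f (x + β x • l)) x (1, 0) = _
    rw [key, ContinuousLinearMap.comp_apply, dP_apply, fderiv_dot]
    simp [dot]
    ring
  · change fderiv ℝ (fun x => f (x + β x • l)) x (0, 1) = _
    rw [key, ContinuousLinearMap.comp_apply, dP_apply, fderiv_dot]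
    simp [dot]
    ring

end AChg

open AChg in
theorem chgS : ChgS := by
  intro A B u β U L K l _ _ hβ1 hβ _ hsU hK hW η M hη hηc hηU
  have hd : Differentiable ℝ β := hβ1.differentiable one_ne_zero
  obtain ⟨Ψ, C, hΨ, h1, h2⟩ := exists_inv hβ hK
  have hΦc : Continuous fun x => x + β x • l := by
    have := hβ.continuous
    fun_prop
  let e : P2 ≃ₜ P2 := ⟨⟨Ψ, fun x => x + β x • l, h2, h1⟩, hΨ.continuous, hΦc⟩
  have hinj : Function.Injective fun x => x + β x • l := e.symm.injective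
  have hU : ∀ x ∈ U, x + β x • l ∈ U := fun x hx => by
    by_contra hn
    have h3 : β (x + β x • l) = 0 := image_eq_zero_of_notMem_tsupport fun h => hn (hsU h)
    have h4 : x + β x • l = x := hinj (by simp only [h3, zero_smul, add_zero])
    exact hn (h4.symm ▸ hx)
  have h0 := hW (η ∘ Ψ) _ (hη.comp hΨ) (hηc.comp_homeomorph e) fun y hy => by
    have h5 : Ψ y ∈ tsupport η :=
      map_mem_closure hΨ.continuous hy fun z hz => hz
    exact h2 y ▸ hU _ (hηU h5)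
  have h6 := integral_image_eq_integral_abs_det_fderiv_smul volume MeasurableSet.univ
    (fun x _ => (hasD (l := l) hd x).hasFDerivWithinAt) hinj.injOn
    fun y => dot (A (y, u y, grad u y)) (grad (η ∘ Ψ) y) + B (y, u y, grad u y) * (η ∘ Ψ) y
  rw [image_univ, show range (fun x => x + β x • l) = univ from e.symm.surjective.range_eq,
    Measure.restrict_univ, h0] at h6
  rw [h6]
  refine integral_congr_ae (Eventually.of_forall fun x => ?_)
  have hJ := jac_pos hβ hK x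
  have h7 : cQ β l (x, u (x + β x • l), grad (fun x => u (x + β x • l)) x) =
      (x + β x • l, u (x + β x • l), grad u (x + β x • l)) := by
    simp only [cQ, chain hd hΨ.continuous h1 h2 x hJ u, Prod.mk.injEq, true_and]
    have : dot l (grad u (x + β x • l) + dot l (grad u (x + β x • l)) • grad β x) /
        (1 + dot l (grad β x)) = dot l (grad u (x + β x • l)) := by
      rw [div_eq_iff hJ.ne']
      simp [dot]
      ring
    rw [this, add_sub_cancel_right]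
  have h8 := chain hd hΨ.continuous h1 h2 x hJ (η ∘ Ψ)
  simp only [Function.comp_apply, h1] at h8
  simp only [h7, det_dP, abs_of_pos hJ, Function.comp_apply, h1, smul_eq_mul]
  rw [show grad η x = _ from h8]
  simp [dot]
  ring

end Pool.Agent.Lib.MP_16d934_gt
end
end

-- part Pool.Agent.Lib.MP_16d934_gt.AFour
section

/-! Bernstein's theorem on absolutely convergent Fourier series, with smallness. -/

set_option autoImplicit false

open Set Metric Filter Topology MeasureTheory Asymptotics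
open scoped ContDiff InnerProductSpace NNReal Real

noncomputable section

namespace Pool.Agent.Lib.MP_16d934_gt

namespace AFour

local instance msC : MeasureSpace UnitAddCircle := ⟨AddCircle.haarAddCircle⟩

local instance haarC : Measure.IsAddHaarMeasure (volume : Measure UnitAddCircle) :=
  inferInstanceAs (Measure.IsAddHaarMeasure AddCircle.haarAddCircle)

local instance probC : IsProbabilityMeasure (volume : Measure UnitAddCircle) :=
  inferInstanceAs (IsProbabilityMeasure AddCircle.haarAddCircle)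

/-- the torus -/
abbrev TT : Type := UnitAddTorus (Fin 2)

/-- projection of the plane to the torus -/
def pr (y : P2) : TT := fun i => ((![y.1, y.2] i : ℝ) : UnitAddCircle)

/-- frequency as a function -/
def kk (k : ℤ × ℤ) : Fin 2 → ℤ := ![k.1, k.2]

lemma pr_add (y h : P2) : pr (y + h) = pr y + pr h := by
  funext i
  fin_cases i <;> simp [pr]

lemma per_int {f : P2 → ℝ} (hp : Per f) (y : P2) (m n : ℤ) :
    f (y.1 - m • (1 : ℝ), y.2 - n • (1 : ℝ)) = f y := by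
  have h1 : ∀ t, Function.Periodic (fun s => f (s, t)) 1 := fun t s => (hp (s, t)).1
  have h2 : ∀ s, Function.Periodic (fun t => f (s, t)) 1 := fun s t => (hp (s, t)).2
  exact ((h1 _).sub_zsmul_eq m).trans ((h2 _).sub_zsmul_eq n)

lemma exists_lift {f : P2 → ℝ} (hc : Continuous f) (hp : Per f) :
    ∃ F : C(TT, ℂ), ∀ y, F (pr y) = f y := by
  let F : TT → ℂ := fun t =>
    f ((AddCircle.equivIoc 1 0 (t 0)).1, (AddCircle.equivIoc 1 0 (t 1)).1)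
  have hF : ∀ x : Fin 2 → ℝ, F (fun i => (x i : UnitAddCircle)) = f (x 0, x 1) := by
    intro x
    change ((f (toIocMod one_pos 0 (x 0), toIocMod one_pos 0 (x 1)) : ℝ) : ℂ) = _
    congr 1
    exact per_int hp (x 0, x 1) _ _
  have hq : IsOpenQuotientMap (Pi.map fun (_ : Fin 2) (x : ℝ) => (x : UnitAddCircle)) :=
    IsOpenQuotientMap.piMap fun _ => QuotientAddGroup.isOpenQuotientMap_mk
  have hFc : Continuous F := by
    rw [← hq.continuous_comp_iff]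
    have : F ∘ (Pi.map fun (_ : Fin 2) (x : ℝ) => (x : UnitAddCircle)) =
        fun x : Fin 2 → ℝ => ((f (x 0, x 1) : ℝ) : ℂ) := funext hF
    rw [this]
    fun_prop
  exact ⟨⟨F, hFc⟩, fun y => hF ![y.1, y.2]⟩

lemma int_cell {E : Type} [NormedAddCommGroup E] [NormedSpace ℝ E] (H : TT → E) :
    ∫ t, H t = ∫ y in cell, H (pr y) := by
  rw [UnitAddTorus.integral_preimage H fun _ => -(1 / 2),
    ← (volume_preserving_finTwoArrow ℝ).setIntegral_preimage_emb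
      (MeasurableEquiv.finTwoArrow (α := ℝ)).measurableEmbedding]
  congr 1
  · congr 1
    ext x
    have : (-(1 / 2) + 1 : ℝ) = 1 / 2 := by norm_num
    simp only [mem_ofPred_eq, Fin.forall_fin_two, this, cell, mem_preimage, mem_prod]
    rfl
  · funext x
    congr 1
    funext i
    fin_cases i <;> rfl

lemma mF_pr (k : ℤ × ℤ) (y : P2) : UnitAddTorus.mFourier (kk k) (pr y) = ex k y := by
  simp only [UnitAddTorus.mFourier, ContinuousMap.coe_mk, Fin.prod_univ_two, kk, pr,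
    Matrix.cons_val_zero, Matrix.cons_val_one, fourier_coe_apply, ex, ← Complex.exp_add]
  congr 1
  push_cast
  ring

lemma kk_neg (k : ℤ × ℤ) : kk (-k) = -kk k := by
  funext i
  fin_cases i <;> simp [kk]

lemma fc_eq {f : P2 → ℝ} {F : TT → ℂ} (hF : ∀ y, F (pr y) = f y) (k : ℤ × ℤ) :
    fc f k = UnitAddTorus.mFourierCoeff F (kk k) := by
  rw [UnitAddTorus.mFourierCoeff, int_cell, fc]
  congr 1
  funext y
  rw [← kk_neg, mF_pr, hF, smul_eq_mul, mul_comm]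

lemma mF_add (n : Fin 2 → ℤ) (s t : TT) :
    UnitAddTorus.mFourier n (s + t) = UnitAddTorus.mFourier n s * UnitAddTorus.mFourier n t := by
  simp only [UnitAddTorus.mFourier, ContinuousMap.coe_mk, Pi.add_apply, fourier_apply, smul_add,
    AddCircle.toCircle_add, Circle.coe_mul, Finset.prod_mul_distrib]

lemma ex_neg_mul (k : ℤ × ℤ) (h : P2) : ex k h * ex (-k) h = 1 := by
  rw [ex, ex, ← Complex.exp_add]
  simp only [Prod.fst_neg, Prod.snd_neg]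
  push_cast
  ring_nf
  exact Complex.exp_zero

lemma fc_shift {f : P2 → ℝ} (hc : Continuous f) (hp : Per f) (h : P2) (k : ℤ × ℤ) :
    fc (fun y => f (y + h)) k = ex k h * fc f k := by
  obtain ⟨F, hF⟩ := exists_lift hc hp
  rw [fc_eq (F := fun t => F (t + pr h)) (fun y => by rw [← pr_add, hF]), fc_eq hF,
    UnitAddTorus.mFourierCoeff, UnitAddTorus.mFourierCoeff, ← integral_const_mul,
    ← integral_add_right_eq_self (fun t => ex k h * (UnitAddTorus.mFourier (-kk k) t • F t)) (pr h)]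
  congr 1
  funext t
  rw [mF_add, ← kk_neg, mF_pr, smul_eq_mul, smul_eq_mul]
  linear_combination (-UnitAddTorus.mFourier (kk (-k)) t * F (t + pr h)) * ex_neg_mul k h

lemma continuous_ex (k : ℤ × ℤ) : Continuous (ex k) := by
  unfold ex; fun_prop

lemma integrableOn_cell {g : P2 → ℂ} (hg : Continuous g) : IntegrableOn g cell :=
  (hg.continuousOn.integrableOn_compact
    ((isCompact_Icc (a := (-(1 / 2) : ℝ)) (b := 1 / 2)).prod
      (isCompact_Icc (a := (-(1 / 2) : ℝ)) (b := 1 / 2)))).mono_set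
    (prod_mono Ioc_subset_Icc_self Ioc_subset_Icc_self)

lemma per_shift {f : P2 → ℝ} (hp : Per f) (h : P2) : Per fun y => f (y + h) := by
  intro y
  have h1 : ((y.1 + 1, y.2) : P2) + h = ((y + h).1 + 1, (y + h).2) := by
    ext <;> simp; ring
  have h2 : ((y.1, y.2 + 1) : P2) + h = ((y + h).1, (y + h).2 + 1) := by
    ext <;> simp; ring
  simp only [h1, h2]
  exact hp _

/-- second difference -/
def t2 (f : P2 → ℝ) (h y : P2) : ℝ := f (y + h + h) - 2 * f (y + h) + f y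

lemma per_t2 {f : P2 → ℝ} (hp : Per f) (h : P2) : Per (t2 f h) := by
  intro y
  have h1 := per_shift hp h y
  have h2 := per_shift (per_shift hp h) h y
  have h3 := hp y
  simp only [t2] at *
  rw [h1.1, h1.2, h2.1, h2.2, h3.1, h3.2]
  exact ⟨rfl, rfl⟩

lemma fc_t2 {f : P2 → ℝ} (hc : Continuous f) (hp : Per f) (h : P2) (k : ℤ × ℤ) :
    fc (t2 f h) k = (ex k h - 1) ^ 2 * fc f k := by
  have hc1 : Continuous fun y => f (y + h) := by fun_prop
  have e1 := fc_shift hc hp h k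
  have e2 := fc_shift hc1 (per_shift hp h) h k
  rw [e1] at e2
  have hx := continuous_ex (-k)
  have i0 : IntegrableOn (fun y => (f y : ℂ) * ex (-k) y) cell :=
    integrableOn_cell (by fun_prop)
  have i1 : IntegrableOn (fun y => (f (y + h) : ℂ) * ex (-k) y) cell :=
    integrableOn_cell (by fun_prop)
  have i2 : IntegrableOn (fun y => (f (y + h + h) : ℂ) * ex (-k) y) cell :=
    integrableOn_cell (by fun_prop)
  have e3 : fc (t2 f h) k =
      fc (fun y => f (y + h + h)) k - 2 * fc (fun y => f (y + h)) k + fc f k := by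
    simp only [fc]
    rw [← integral_const_mul, ← integral_sub i2 (i1.const_mul 2),
      ← integral_add (f := fun y => (f (y + h + h) : ℂ) * ex (-k) y -
        2 * ((f (y + h) : ℂ) * ex (-k) y)) (i2.sub (i1.const_mul 2)) i0]
    congr 1
    funext y
    simp only [t2]
    push_cast
    ring
  rw [e3, e2, e1]
  ring

lemma kk_inj : Function.Injective kk := by
  intro a b h
  exact Prod.ext (congrFun h 0) (congrFun h 1)

lemma bessel {g : P2 → ℝ} (hc : Continuous g) (hp : Per g) (S : Finset (ℤ × ℤ)) :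
    ∑ k ∈ S, ‖fc g k‖ ^ 2 ≤ ∫ y in cell, g y ^ 2 := by
  obtain ⟨F, hF⟩ := exists_lift hc hp
  have h := UnitAddTorus.hasSum_sq_mFourierCoeff (ContinuousMap.toLp 2 volume ℂ F)
  simp only [UnitAddTorus.mFourierCoeff_toLp] at h
  have e : ∫ t, ‖(ContinuousMap.toLp 2 (volume : Measure TT) ℂ F) t‖ ^ 2 =
      ∫ y in cell, g y ^ 2 := by
    rw [integral_congr_ae (g := fun t => ‖F t‖ ^ 2) ?_, int_cell]
    · congr 1
      funext y
      rw [hF, Complex.norm_real, Real.norm_eq_abs, sq_abs]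
    · filter_upwards [ContinuousMap.coeFn_toLp (p := 2) (𝕜 := ℂ) (volume : Measure TT) F] with t ht
      rw [ht]
  rw [e] at h
  have := sum_le_hasSum (S.map ⟨kk, kk_inj⟩) (fun _ _ => by positivity) h
  rw [Finset.sum_map] at this
  simp only [fc_eq hF]
  exact this

lemma hasSum_fc {f : P2 → ℝ} (hc : Continuous f) (hp : Per f) (hs : Summable fun k => ‖fc f k‖)
    (y : P2) : HasSum (fun k => fc f k * ex k y) (f y : ℂ) := by
  obtain ⟨F, hF⟩ := exists_lift hc hp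
  have he : ∀ k, (finTwoArrowEquiv ℤ).symm k = kk k := fun k => rfl
  have h1 : Summable (UnitAddTorus.mFourierCoeff F) := by
    rw [← (finTwoArrowEquiv ℤ).symm.summable_iff]
    refine (hs.of_norm).congr fun k => ?_
    rw [Function.comp_apply, he, fc_eq hF]
  have h2 := UnitAddTorus.hasSum_mFourier_series_apply_of_summable h1 (pr y)
  rw [← (finTwoArrowEquiv ℤ).symm.hasSum_iff, hF] at h2
  refine h2.congr_fun fun k => ?_
  rw [Function.comp_apply, he, fc_eq hF, mF_pr, smul_eq_mul]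

lemma norm_fc_le {f : P2 → ℝ} {κ : ℝ} (hκ : ∀ y, |f y| ≤ κ) (k : ℤ × ℤ) : ‖fc f k‖ ≤ κ := by
  have hv : volume cell = 1 := by
    rw [cell, Measure.volume_eq_prod, Measure.prod_prod, Real.volume_Ioc]
    norm_num
  have := norm_setIntegral_le_of_norm_le_const (μ := volume) (s := cell) (C := κ)
    (f := fun y => (f y : ℂ) * ex (-k) y) (by rw [hv]; exact ENNReal.one_lt_top) fun y _ => by
      have : ‖ex (-k) y‖ = 1 := by
        have e : 2 * π * Complex.I * (((-k).1 : ℂ) * y.1 + ((-k).2 : ℂ) * y.2) =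
            ((2 * π * ((-k).1 * y.1 + (-k).2 * y.2) : ℝ) : ℂ) * Complex.I := by
          push_cast; ring
        rw [ex, e, Complex.norm_exp_ofReal_mul_I]
      rw [norm_mul, this, mul_one, Complex.norm_real]
      exact hκ y
  rwa [Measure.real, hv, ENNReal.toReal_one, mul_one] at this

lemma two_le_sq {θ : ℝ} (h1 : 1 / 4 ≤ |θ|) (h2 : |θ| ≤ 1 / 2) :
    2 ≤ ‖Complex.exp (((2 * π * θ : ℝ) : ℂ) * Complex.I) - 1‖ ^ 2 := by
  have hc : Real.cos (2 * π * θ) ≤ 0 := by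
    rw [← Real.cos_abs, abs_mul, abs_of_pos Real.two_pi_pos]
    apply Real.cos_nonpos_of_pi_div_two_le_of_le <;> nlinarith [Real.pi_pos]
  rw [Complex.sq_norm, Complex.normSq_apply]
  simp only [Complex.sub_re, Complex.sub_im, Complex.exp_ofReal_mul_I_re,
    Complex.exp_ofReal_mul_I_im, Complex.one_re, Complex.one_im]
  nlinarith [Real.sin_sq_add_cos_sq (2 * π * θ)]

lemma theta {m : ℤ} {j : ℕ} (h1 : 2 ^ j ≤ m.natAbs) (h2 : m.natAbs < 2 ^ (j + 1)) :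
    1 / 4 ≤ |(m : ℝ) * (1 / 2) ^ (j + 2)| ∧ |(m : ℝ) * (1 / 2) ^ (j + 2)| ≤ 1 / 2 := by
  have e : |(m : ℝ)| = (m.natAbs : ℝ) := by
    rw [Nat.cast_natAbs, Int.cast_abs]
  have a1 : (2 : ℝ) ^ j ≤ m.natAbs := by exact_mod_cast h1
  have a2 : (m.natAbs : ℝ) ≤ 2 ^ (j + 1) := by exact_mod_cast h2.le
  have hp : (0 : ℝ) < (1 / 2) ^ (j + 2) := by positivity
  have e2 : (2 : ℝ) ^ j * (1 / 2) ^ (j + 2) = 1 / 4 := by
    rw [pow_add, ← mul_assoc, ← mul_pow]; norm_num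
  rw [abs_mul, abs_of_pos hp, e]
  rw [pow_succ] at a2
  constructor <;> nlinarith

lemma four_le {f : P2 → ℝ} (hc : Continuous f) (hp : Per f) (h : P2) (k : ℤ × ℤ) (θ : ℝ)
    (hθ : k.1 * h.1 + k.2 * h.2 = θ) (h1 : 1 / 4 ≤ |θ|) (h2 : |θ| ≤ 1 / 2) :
    4 * ‖fc f k‖ ^ 2 ≤ ‖fc (t2 f h) k‖ ^ 2 := by
  have e : ex k h = Complex.exp (((2 * π * θ : ℝ) : ℂ) * Complex.I) := by
    rw [ex, ← hθ]; congr 1; push_cast; ring
  have := two_le_sq h1 h2
  rw [← e] at this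
  rw [fc_t2 hc hp, norm_mul, norm_pow, mul_pow]
  exact mul_le_mul_of_nonneg_right (by nlinarith) (by positivity)

/-- dyadic level of a frequency -/
def lev (k : ℤ × ℤ) : ℕ := Nat.log 2 (max k.1.natAbs k.2.natAbs)

/-- the square of frequencies -/
def sqr (j : ℕ) : Finset (ℤ × ℤ) :=
  Finset.Ico (-(2 ^ j : ℤ)) (2 ^ j) ×ˢ Finset.Ico (-(2 ^ j : ℤ)) (2 ^ j)

lemma card_sqr (j : ℕ) : ((sqr j).card : ℝ) = (2 ^ (j + 1)) ^ 2 := by
  have : (Finset.Ico (-(2 ^ j : ℤ)) (2 ^ j)).card = 2 ^ (j + 1) := by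
    rw [Int.card_Ico]
    have : (2 ^ j - -(2 ^ j) : ℤ) = ((2 ^ (j + 1) : ℕ) : ℤ) := by push_cast; ring
    rw [this, Int.toNat_natCast]
  rw [sqr, Finset.card_product, this]
  push_cast
  ring

lemma mem_sqr {k : ℤ × ℤ} {j : ℕ} (h : lev k < j) : k ∈ sqr j := by
  have h1 : max k.1.natAbs k.2.natAbs < 2 ^ j :=
    (Nat.lt_pow_succ_log_self (by norm_num) _).trans_le (Nat.pow_le_pow_right (by norm_num) h)
  rw [max_lt_iff] at h1
  have e : (2 ^ j : ℤ) = ((2 ^ j : ℕ) : ℤ) := by push_cast; rfl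
  simp only [sqr, Finset.mem_product, Finset.mem_Ico, e]
  omega

lemma block {f : P2 → ℝ} (hc : Continuous f) (hp : Per f) {C σ : ℝ}
    (hh : ∀ h : P2, Axis h → ‖h‖ ≤ 1 / 16 →
      ∫ y in cell, (f (y + h + h) - 2 * f (y + h) + f y) ^ 2 ≤ C * ‖h‖ ^ (2 + σ))
    {j : ℕ} (hj : 2 ≤ j) (S : Finset (ℤ × ℤ)) (hS : ∀ k ∈ S, lev k = j) :
    ∑ k ∈ S, ‖fc f k‖ ≤ √(max C 0) * ((1 / 2 : ℝ) ^ (σ / 2)) ^ (j + 2) := by
  set t : ℝ := (1 / 2) ^ (j + 2) with ht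
  have ht0 : 0 < t := by positivity
  have ht1 : t ≤ 1 / 16 := by
    refine (pow_le_pow_of_le_one (by norm_num) (by norm_num) (show 4 ≤ j + 2 by omega)).trans ?_
    norm_num
  have n1 : ‖((t, 0) : P2)‖ = t := by simp [Prod.norm_def, abs_of_pos ht0, ht0.le]
  have n2 : ‖((0, t) : P2)‖ = t := by simp [Prod.norm_def, abs_of_pos ht0, ht0.le]
  have b1 := (bessel (g := t2 f (t, 0)) (by unfold t2; fun_prop) (per_t2 hp _) S).trans
    (hh (t, 0) (Or.inr rfl) (n1.trans_le ht1))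
  have b2 := (bessel (g := t2 f (0, t)) (by unfold t2; fun_prop) (per_t2 hp _) S).trans
    (hh (0, t) (Or.inl rfl) (n2.trans_le ht1))
  rw [n1] at b1
  rw [n2] at b2
  have h4 : ∀ k ∈ S, 4 * ‖fc f k‖ ^ 2 ≤ ‖fc (t2 f (t, 0)) k‖ ^ 2 + ‖fc (t2 f (0, t)) k‖ ^ 2 := by
    intro k hk
    have hl := hS k hk
    have hm : max k.1.natAbs k.2.natAbs ≠ 0 := by
      intro h0
      rw [lev, h0, Nat.log_zero_right] at hl
      omega
    have l1 : 2 ^ j ≤ max k.1.natAbs k.2.natAbs := by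
      rw [← hl]; exact Nat.pow_log_le_self 2 hm
    have l2 : max k.1.natAbs k.2.natAbs < 2 ^ (j + 1) := by
      rw [← hl]; exact Nat.lt_pow_succ_log_self (by norm_num) _
    rw [max_lt_iff] at l2
    rcases le_max_iff.1 l1 with l1 | l1
    · obtain ⟨a1, a2⟩ := theta l1 l2.1
      have := four_le hc hp (t, 0) k _ (by simp [ht]) a1 a2
      linarith [sq_nonneg ‖fc (t2 f (0, t)) k‖]
    · obtain ⟨a1, a2⟩ := theta l1 l2.2
      have := four_le hc hp (0, t) k _ (by simp [ht]) a1 a2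
      linarith [sq_nonneg ‖fc (t2 f (t, 0)) k‖]
  have h5 := Finset.sum_le_sum h4
  rw [Finset.sum_add_distrib, ← Finset.mul_sum] at h5
  have hC : C * t ^ (2 + σ) ≤ max C 0 * t ^ (2 + σ) :=
    mul_le_mul_of_nonneg_right (le_max_left _ _) (by positivity)
  have hC0 : 0 ≤ max C 0 * t ^ (2 + σ) := mul_nonneg (le_max_right _ _) (by positivity)
  have h6 : ∑ k ∈ S, ‖fc f k‖ ^ 2 ≤ max C 0 * t ^ (2 + σ) := by linarith
  have h7 : (S.card : ℝ) ≤ (2 ^ (j + 2)) ^ 2 := by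
    rw [← card_sqr (j + 1)]
    exact_mod_cast Finset.card_le_card fun k hk => mem_sqr (by rw [hS k hk]; omega)
  have h8 : (∑ k ∈ S, ‖fc f k‖) ^ 2 ≤ (2 ^ (j + 2)) ^ 2 * (max C 0 * t ^ (2 + σ)) :=
    sq_sum_le_card_mul_sum_sq.trans
      (mul_le_mul h7 h6 (Finset.sum_nonneg fun _ _ => by positivity) (by positivity))
  refine le_of_sq_le_sq (h8.trans (le_of_eq ?_)) (by positivity)
  have e1 : (2 : ℝ) ^ (j + 2) * t = 1 := by
    rw [ht, ← mul_pow]; norm_num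
  have e2 : (((1 / 2 : ℝ) ^ (σ / 2)) ^ (j + 2)) ^ 2 = t ^ σ := by
    rw [ht, ← pow_mul, ← Real.rpow_mul_natCast (by norm_num),
      ← Real.rpow_natCast_mul (by norm_num)]
    congr 1
    push_cast
    ring
  rw [mul_pow, e2, Real.sq_sqrt (le_max_right _ _), Real.rpow_add ht0, Real.rpow_two]
  linear_combination (max C 0 * t ^ σ * (2 ^ (j + 2) * t + 1)) * e1

end AFour

open AFour in
theorem fourS : FourS := by
  intro C σ η hσ hη
  set ρ : ℝ := (1 / 2 : ℝ) ^ (σ / 2) with hρ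
  have hρ0 : 0 ≤ ρ := by positivity
  have hρ1 : ρ < 1 := Real.rpow_lt_one (by norm_num) (by norm_num) (by positivity)
  have hs : Summable fun j : ℕ => √(max C 0) * ρ ^ (j + 2) :=
    ((summable_nat_add_iff 2).2 (summable_geometric_of_lt_one hρ0 hρ1)).mul_left _
  obtain ⟨s, hs⟩ := hs.vanishing (Iic_mem_nhds (half_pos hη))
  set J : ℕ := max 2 (s.sup id + 1) with hJ
  have hcard : (0 : ℝ) < (sqr J).card := by rw [card_sqr]; positivity
  refine ⟨η / 2 / (sqr J).card, by positivity, fun f hc hp hκ hh => ?_⟩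
  have key : ∀ S : Finset (ℤ × ℤ), ∑ k ∈ S, ‖fc f k‖ ≤ η := by
    intro S
    classical
    rw [← Finset.sum_filter_add_sum_filter_not S fun k => lev k < J]
    have h1 : ∑ k ∈ S.filter fun k => lev k < J, ‖fc f k‖ ≤ η / 2 := by
      calc _ ≤ ∑ k ∈ sqr J, ‖fc f k‖ :=
            Finset.sum_le_sum_of_subset_of_nonneg
              (fun k hk => mem_sqr (Finset.mem_filter.1 hk).2) fun _ _ _ => norm_nonneg _
        _ ≤ ∑ _k ∈ sqr J, η / 2 / (sqr J).card := Finset.sum_le_sum fun k _ => norm_fc_le hκ k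
        _ = η / 2 := by rw [Finset.sum_const, nsmul_eq_mul]; field_simp
    have h2 : ∑ k ∈ S.filter fun k => ¬ lev k < J, ‖fc f k‖ ≤ η / 2 := by
      set S' := S.filter fun k => ¬ lev k < J with hS'
      have hJ' : ∀ j ∈ S'.image lev, J ≤ j := by
        intro j hj
        obtain ⟨k, hk, rfl⟩ := Finset.mem_image.1 hj
        exact not_lt.1 (Finset.mem_filter.1 hk).2
      rw [← Finset.sum_fiberwise_of_maps_to (g := lev) (t := S'.image lev)
        fun k hk => Finset.mem_image_of_mem _ hk]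
      refine (Finset.sum_le_sum fun j hj => block hc hp hh ((le_max_left _ _).trans (hJ' j hj)) _
        fun k hk => (Finset.mem_filter.1 hk).2).trans (hs _ ?_)
      rw [Finset.disjoint_left]
      intro j hj hjs
      have a1 := (le_max_right _ _).trans (hJ' j hj)
      have a2 : j ≤ s.sup id := Finset.le_sup (f := id) hjs
      omega
    linarith
  have hsum := summable_of_sum_le (fun k => norm_nonneg (fc f k)) key
  exact ⟨hsum, hsum.tsum_le_of_sum_le key, hasSum_fc hc hp hsum⟩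

theorem Wn.mono {f : P2 → ℝ} {η η' : ℝ} (h : Wn f η) (hη : η ≤ η') : Wn f η' :=
  ⟨h.1, h.2.1.trans hη, h.2.2⟩

theorem fc_const_mul (c : ℝ) (f : P2 → ℝ) (k : ℤ × ℤ) :
    fc (fun y => c * f y) k = c * fc f k := by
  simp only [fc]
  rw [← integral_const_mul]
  congr 1
  funext y
  push_cast
  ring

theorem Wn.const_mul {f : P2 → ℝ} {η : ℝ} (h : Wn f η) (c : ℝ) :
    Wn (fun y => c * f y) (|c| * η) := by
  have e : ∀ k, ‖fc (fun y => c * f y) k‖ = |c| * ‖fc f k‖ := fun k => by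
    rw [fc_const_mul, norm_mul, Complex.norm_real, Real.norm_eq_abs]
  refine ⟨?_, ?_, fun y => ?_⟩
  · simp only [e]; exact h.1.mul_left _
  · simp only [e]
    rw [tsum_mul_left]
    exact mul_le_mul_of_nonneg_left h.2.1 (abs_nonneg c)
  · simp only [fc_const_mul, mul_assoc, Complex.ofReal_mul]
    exact (h.2.2 y).mul_left _

end Pool.Agent.Lib.MP_16d934_gt
end
end
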