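import Pool.Agent.Lib.MP_16d934_gt.StC

-- part Pool.Agent.Lib.MP_16d934_gt.AInt
section

/-! Interpolation of derivatives, partial derivatives, compactness of Lipschitz solutions. -/

set_option autoImplicit false

open Set Metric Filter Topology
open scoped ContDiff NNReal

noncomputable section

namespace Pool.Agent.Lib.MP_16d934_gt

namespace AInt

theorem norm_two (f : P2 → ℝ) (y : P2) :
    ‖iteratedFDeriv ℝ 2 f y‖ = ‖fderiv ℝ (fderiv ℝ f) y‖ := by
  rw [← norm_iteratedFDeriv_one (fderiv ℝ f), norm_iteratedFDeriv_fderiv]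

theorem fderiv_app {f : P2 → ℝ} {y : P2} (h : DifferentiableAt ℝ (fderiv ℝ f) y) (a v : P2) :
    fderiv ℝ (fun x => fderiv ℝ f x a) y v = fderiv ℝ (fderiv ℝ f) y v a := by
  rw [fderiv_clm_apply h (differentiableAt_const a)]
  simp

theorem d11 {f : P2 → ℝ} {y : P2} (h : DifferentiableAt ℝ (fderiv ℝ f) y) :
    d1 (d1 f) y = fderiv ℝ (fderiv ℝ f) y (1, 0) (1, 0) := fderiv_app h _ _

theorem d12 {f : P2 → ℝ} {y : P2} (h : DifferentiableAt ℝ (fderiv ℝ f) y) :
    d1 (d2 f) y = fderiv ℝ (fderiv ℝ f) y (1, 0) (0, 1) := fderiv_app h _ _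

theorem d21 {f : P2 → ℝ} {y : P2} (h : DifferentiableAt ℝ (fderiv ℝ f) y) :
    d2 (d1 f) y = fderiv ℝ (fderiv ℝ f) y (0, 1) (1, 0) := fderiv_app h _ _

theorem d22 {f : P2 → ℝ} {y : P2} (h : DifferentiableAt ℝ (fderiv ℝ f) y) :
    d2 (d2 f) y = fderiv ℝ (fderiv ℝ f) y (0, 1) (0, 1) := fderiv_app h _ _

theorem vec_eq (v : P2) : v = v.1 • ((1, 0) : P2) + v.2 • ((0, 1) : P2) := by
  ext <;> simp

theorem n10 : ‖((1, 0) : P2)‖ = 1 := by simp [Prod.norm_def]

theorem n01 : ‖((0, 1) : P2)‖ = 1 := by simp [Prod.norm_def]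

theorem n11 : ‖((1, 1) : P2)‖ = 1 := by simp [Prod.norm_def]

theorem bil_le (B : P2 →L[ℝ] P2 →L[ℝ] ℝ) {a b : P2} (ha : ‖a‖ = 1) (hb : ‖b‖ = 1) :
    |B a b| ≤ ‖B‖ := by
  have := B.le_opNorm₂ a b
  rwa [ha, hb, mul_one, mul_one, Real.norm_eq_abs] at this

theorem lin_le (A : P2 →L[ℝ] ℝ) {a : P2} (ha : ‖a‖ = 1) : |A a| ≤ ‖A‖ := by
  have := A.le_opNorm a
  rwa [ha, mul_one, Real.norm_eq_abs] at this

end AInt

open AInt in
theorem derS : DerS := by
  intro f y hf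
  have h1 : AnalyticAt ℝ (fderiv ℝ f) y := hf.fderiv
  have hd : DifferentiableAt ℝ (fderiv ℝ f) y := h1.differentiableAt
  have hs : IsSymmSndFDerivAt ℝ f y := hf.contDiffAt.isSymmSndFDerivAt_of_omega
  refine ⟨?_, ?_, ?_, ?_, ?_, ?_, ?_, ?_, ?_, ?_⟩
  · exact ((ContinuousLinearMap.apply ℝ ℝ ((1, 0) : P2)).analyticAt _).comp h1
  · exact ((ContinuousLinearMap.apply ℝ ℝ ((0, 1) : P2)).analyticAt _).comp h1
  · rw [d21 hd, d12 hd, hs.eq]
  · rw [norm_iteratedFDeriv_one]; exact lin_le _ n10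
  · rw [norm_iteratedFDeriv_one]; exact lin_le _ n01
  · rw [norm_two, d11 hd]; exact bil_le _ n10 n10
  · rw [norm_two, d12 hd]; exact bil_le _ n10 n01
  · rw [norm_two, d22 hd]; exact bil_le _ n01 n01
  · intro v
    conv_lhs => rw [vec_eq v]
    rw [map_add, map_smul, map_smul]
    simp only [d1, d2, smul_eq_mul]
    ring
  · intro v w
    rw [d11 hd, d12 hd, d22 hd]
    conv_lhs => rw [vec_eq v, vec_eq w]
    simp only [map_add, map_smul, add_apply, smul_apply, smul_eq_mul]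
    rw [hs.eq (0, 1) (1, 0)]
    ring

namespace AInt

/-- Taylor's formula with a crude remainder -/
theorem taylor (a M : ℝ) (N : ℕ) : ∀ g : ℕ → ℝ → ℝ,
    (∀ k, ∀ t ∈ Icc 0 a, HasDerivAt (g k) (g (k + 1) t) t) → (∀ t ∈ Icc 0 a, |g N t| ≤ M) →
    ∀ t ∈ Icc 0 a, |g 0 t - ∑ k ∈ Finset.range N, g k 0 / (k.factorial : ℝ) * t ^ k|
      ≤ M * t ^ N := by
  induction N with
  | zero => intro g _ hM t ht; simpa using hM t ht
  | succ N ih =>
    intro g hg hM t ht
    have h1 := ih (fun k => g (k + 1)) (fun k s hs => hg (k + 1) s hs) hM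
    have hM0 : 0 ≤ M := (abs_nonneg _).trans (hM t ht)
    have hder : ∀ s ∈ Icc 0 t, HasDerivWithinAt
        (fun s => g 0 s - ∑ k ∈ Finset.range (N + 1), g k 0 / (k.factorial : ℝ) * s ^ k)
        (g 1 s - ∑ k ∈ Finset.range N, g (k + 1) 0 / (k.factorial : ℝ) * s ^ k) (Icc 0 t) s := by
      intro s hs
      have hs' : s ∈ Icc 0 a := ⟨hs.1, hs.2.trans ht.2⟩
      refine ((hg 0 s hs').sub ?_).hasDerivWithinAt
      have : ∀ x : ℝ, ∑ k ∈ Finset.range (N + 1), g k 0 / (k.factorial : ℝ) * x ^ k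
          = (∑ k ∈ Finset.range N, g (k + 1) 0 / ((k + 1).factorial : ℝ) * x ^ (k + 1))
            + g 0 0 := by
        intro x; rw [Finset.sum_range_succ']; simp
      simp only [this]
      refine HasDerivAt.add_const _ ?_
      refine HasDerivAt.fun_sum fun k _ => ?_
      have h2 := (hasDerivAt_pow (k + 1) s).const_mul (g (k + 1) 0 / ((k + 1).factorial : ℝ))
      refine h2.congr_deriv ?_
      rw [Nat.factorial_succ, Nat.add_sub_cancel]
      have : (k.factorial : ℝ) ≠ 0 := by positivity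
      push_cast
      field_simp
    have hb : ∀ s ∈ Ico 0 t,
        ‖g 1 s - ∑ k ∈ Finset.range N, g (k + 1) 0 / (k.factorial : ℝ) * s ^ k‖ ≤ M * t ^ N := by
      intro s hs
      have hs' : s ∈ Icc 0 a := ⟨hs.1, hs.2.le.trans ht.2⟩
      refine (h1 s hs').trans ?_
      exact mul_le_mul_of_nonneg_left (pow_le_pow_left₀ hs.1 hs.2.le N) hM0
    have := norm_image_sub_le_of_norm_deriv_le_segment' hder hb t ⟨ht.1, le_rfl⟩
    have e0 : g 0 0 - ∑ k ∈ Finset.range (N + 1), g k 0 / (k.factorial : ℝ) * (0 : ℝ) ^ k = 0 := by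
      rw [Finset.sum_range_succ']; simp
    simp only [e0, sub_zero, Real.norm_eq_abs] at this
    calc _ ≤ M * t ^ N * t := this
      _ = M * t ^ (N + 1) := by ring

/-- coefficients of a polynomial are bounded by its supremum -/
theorem coef (N : ℕ) : ∃ C : ℝ, 1 ≤ C ∧ ∀ (a : ℕ → ℝ) (B : ℝ),
    (∀ s ∈ Icc (0 : ℝ) (1 / 2), |∑ k ∈ Finset.range N, a k * s ^ k| ≤ B) →
    ∀ k < N, |a k| ≤ C * B := by
  classical
  let v : Fin N → ℝ := fun j => (j : ℝ) / (2 * N)
  have hv : Function.Injective v := by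
    intro i j hij
    have hN : (0 : ℝ) < N := by exact_mod_cast i.pos
    have : (i : ℝ) = j := by
      have := hij
      simp only [v] at this
      field_simp at this
      exact this
    exact Fin.ext (by exact_mod_cast this)
  have hdet : IsUnit (Matrix.vandermonde v).det :=
    (Matrix.det_vandermonde_ne_zero_iff.2 hv).isUnit
  set W := (Matrix.vandermonde v)⁻¹ with hW
  refine ⟨1 + ∑ i, ∑ j, |W i j|, le_add_of_nonneg_right (by positivity), ?_⟩
  intro a B hB k hk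
  have hB0 : 0 ≤ B := (abs_nonneg _).trans (hB 0 ⟨le_rfl, by norm_num⟩)
  have hvm : ∀ j, v j ∈ Icc (0 : ℝ) (1 / 2) := by
    intro j
    have hN : (0 : ℝ) < N := by exact_mod_cast j.pos
    have hj : (j : ℝ) ≤ N := by exact_mod_cast j.2.le
    refine ⟨by positivity, ?_⟩
    simp only [v]
    rw [div_le_div_iff₀ (by positivity) (by norm_num)]
    linarith
  have key : W.mulVec ((Matrix.vandermonde v).mulVec fun i => a i) = fun i : Fin N => a i := by
    rw [Matrix.mulVec_mulVec, hW, Matrix.nonsing_inv_mul _ hdet, Matrix.one_mulVec]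
  have h1 : ∀ j, |((Matrix.vandermonde v).mulVec fun i : Fin N => a i) j| ≤ B := by
    intro j
    have := hB (v j) (hvm j)
    rw [Finset.sum_range] at this
    convert this using 2
    simp [Matrix.mulVec, dotProduct, Matrix.vandermonde_apply, mul_comm]
  have h2 := congrFun key ⟨k, hk⟩
  simp only at h2
  rw [← h2]
  calc |W.mulVec ((Matrix.vandermonde v).mulVec fun i : Fin N => a i) ⟨k, hk⟩|
      = |∑ j, W ⟨k, hk⟩ j * ((Matrix.vandermonde v).mulVec fun i : Fin N => a i) j| := rfl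
    _ ≤ ∑ j, |W ⟨k, hk⟩ j| * B := by
        refine (Finset.abs_sum_le_sum_abs _ _).trans (Finset.sum_le_sum fun j _ => ?_)
        rw [abs_mul]
        exact mul_le_mul_of_nonneg_left (h1 j) (abs_nonneg _)
    _ = (∑ j, |W ⟨k, hk⟩ j|) * B := by rw [Finset.sum_mul]
    _ ≤ (1 + ∑ i, ∑ j, |W i j|) * B := by
        refine mul_le_mul_of_nonneg_right ?_ hB0
        have := Finset.single_le_sum (f := fun i => ∑ j, |W i j|)
          (fun i _ => Finset.sum_nonneg fun j _ => abs_nonneg _) (Finset.mem_univ ⟨k, hk⟩)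
        linarith

/-- directional derivatives -/
theorem direc (N : ℕ) : ∃ C : ℝ, 1 ≤ C ∧ ∀ (f : P2 → ℝ) (y : P2) (h m M : ℝ), 0 < h →
    AnalyticOnNhd ℝ f (ball y h) → (∀ x ∈ ball y h, |f x| ≤ m) →
    (∀ x ∈ ball y h, ‖iteratedFDeriv ℝ N f x‖ ≤ M) → ∀ v : P2, ‖v‖ ≤ 1 →
    ∀ k < N, |iteratedFDeriv ℝ k f y fun _ => v|
      ≤ C * k.factorial * (m / h ^ k + M * h ^ (N - k)) := by
  obtain ⟨C, hC1, hC⟩ := coef N
  refine ⟨C, hC1, fun f y h m M hh hf hm hM v hv k hk => ?_⟩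
  let g : ℕ → ℝ → ℝ := fun k t => iteratedFDeriv ℝ k f (y + t • v) fun _ => v
  have hmem : ∀ t ∈ Icc 0 (h / 2), y + t • v ∈ ball y h := by
    intro t ht
    rw [mem_ball, dist_eq_norm, add_sub_cancel_left, norm_smul, Real.norm_of_nonneg ht.1]
    nlinarith [ht.1, ht.2, norm_nonneg v]
  have hg : ∀ k, ∀ t ∈ Icc 0 (h / 2), HasDerivAt (g k) (g (k + 1) t) t := by
    intro k t ht
    have h1 : DifferentiableAt ℝ (iteratedFDeriv ℝ k f) (y + t • v) :=
      (hf.iteratedFDeriv k _ (hmem t ht)).differentiableAt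
    have h2 : HasDerivAt (fun t : ℝ => y + t • v) v t := by
      simpa using ((hasDerivAt_id t).smul_const v).const_add y
    have h3 := h1.hasFDerivAt.comp_hasDerivAt t h2
    have h4 := (ContinuousMultilinearMap.apply ℝ (fun _ : Fin k => P2) ℝ
      (fun _ => v)).hasFDerivAt.comp_hasDerivAt t h3
    exact h4
  have hM0 : 0 ≤ M := (norm_nonneg _).trans (hM y (mem_ball_self hh))
  have hN : ∀ t ∈ Icc 0 (h / 2), |g N t| ≤ M := by
    intro t ht
    have h1 := (iteratedFDeriv ℝ N f (y + t • v)).le_opNorm fun _ => v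
    rw [Finset.prod_const] at h1
    refine h1.trans ?_
    have h2 : ‖v‖ ^ (Finset.univ : Finset (Fin N)).card ≤ 1 := pow_le_one₀ (norm_nonneg _) hv
    have h3 := hM _ (hmem t ht)
    nlinarith [norm_nonneg (iteratedFDeriv ℝ N f (y + t • v))]
  have hT := taylor (h / 2) M N g hg hN
  have hb := hC (fun k => g k 0 / (k.factorial : ℝ) * h ^ k) (m + M * h ^ N) (by
    intro s hs
    have hsh : s * h ∈ Icc 0 (h / 2) := ⟨mul_nonneg hs.1 hh.le, by nlinarith [hs.2]⟩
    have h1 := hT _ hsh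
    have h2 : |g 0 (s * h)| ≤ m := by
      simpa [g] using hm _ (hmem _ hsh)
    have h3 : M * (s * h) ^ N ≤ M * h ^ N :=
      mul_le_mul_of_nonneg_left (pow_le_pow_left₀ hsh.1 (by linarith [hsh.2]) N) hM0
    have h4 : ∑ k ∈ Finset.range N, g k 0 / (k.factorial : ℝ) * h ^ k * s ^ k
        = ∑ k ∈ Finset.range N, g k 0 / (k.factorial : ℝ) * (s * h) ^ k :=
      Finset.sum_congr rfl fun k _ => by ring
    rw [h4]
    rw [abs_le] at h1 h2 ⊢
    constructor <;> linarith [h1.1, h1.2, h2.1, h2.2]) k hk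
  have e : g k 0 = iteratedFDeriv ℝ k f y fun _ => v := by simp [g]
  rw [← e]
  have hf0 : (0 : ℝ) < k.factorial := by positivity
  have hk0 : 0 < h ^ k := by positivity
  simp only [abs_mul, abs_div, abs_of_pos hf0, abs_of_pos hk0] at hb
  have e2 : h ^ N = h ^ (N - k) * h ^ k := by rw [← pow_add, Nat.sub_add_cancel hk.le]
  rw [e2] at hb
  have e3 : C * k.factorial * (m / h ^ k + M * h ^ (N - k))
      = C * (m + M * (h ^ (N - k) * h ^ k)) * k.factorial / h ^ k := by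
    field_simp
  rw [e3, le_div_iff₀ hk0]
  have e4 : |g k 0| * h ^ k = |g k 0| / k.factorial * h ^ k * k.factorial := by field_simp
  rw [e4]
  exact mul_le_mul_of_nonneg_right hb hf0.le

end AInt

open AInt in
theorem intS : IntS := by
  intro N hN
  obtain ⟨C, hC1, hC⟩ := direc N
  refine ⟨10 * C, fun f y h m M hh hf hm hM k hk => ?_⟩
  have hy := mem_ball_self (x := y) hh
  have hm0 : 0 ≤ m := (abs_nonneg _).trans (hm y hy)
  have hM0 : 0 ≤ M := (norm_nonneg _).trans (hM y hy)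
  have hK : 0 ≤ m / h ^ k + M * h ^ (N - k) := by positivity
  obtain ⟨-, -, -, -, -, -, -, -, hD1, hD2⟩ := derS f y (hf y hy)
  by_cases hkN : k = N
  · subst hkN
    have := hM y hy
    have h2 : 0 ≤ m / h ^ k := by positivity
    rw [Nat.sub_self, pow_zero, mul_one]
    nlinarith
  have hlt : k < N := by omega
  have hd := fun v hv => hC f y h m M hh hf hm hM v hv k hlt
  set K := m / h ^ k + M * h ^ (N - k) with hKdef
  have hCK : 0 ≤ C * K := mul_nonneg (by linarith) hK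
  interval_cases k
  · have := hd 0 (by simp)
    rw [norm_iteratedFDeriv_zero, Real.norm_eq_abs]
    simp only [iteratedFDeriv_zero_apply, Nat.factorial_zero, Nat.cast_one, mul_one] at this
    linarith
  · rw [norm_iteratedFDeriv_one]
    have h1 := hd (1, 0) n10.le
    have h2 := hd (0, 1) n01.le
    simp only [iteratedFDeriv_one_apply, Nat.factorial_one, Nat.cast_one, mul_one] at h1 h2
    refine ContinuousLinearMap.opNorm_le_bound _ (by linarith) fun v => ?_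
    rw [hD1 v, Real.norm_eq_abs]
    have a1 : |v.1| ≤ ‖v‖ := norm_fst_le v
    have a2 : |v.2| ≤ ‖v‖ := norm_snd_le v
    have b1 : |d1 f y| * |v.1| ≤ C * K * ‖v‖ := mul_le_mul h1 a1 (abs_nonneg _) hCK
    have b2 : |d2 f y| * |v.2| ≤ C * K * ‖v‖ := mul_le_mul h2 a2 (abs_nonneg _) hCK
    have b3 := mul_nonneg hCK (norm_nonneg v)
    calc _ ≤ |d1 f y * v.1| + |d2 f y * v.2| := abs_add_le _ _
      _ = |d1 f y| * |v.1| + |d2 f y| * |v.2| := by rw [abs_mul, abs_mul]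
      _ ≤ _ := by linarith
  · rw [norm_two]
    have h1 := hd (1, 0) n10.le
    have h2 := hd (0, 1) n01.le
    have h3 := hd (1, 1) n11.le
    simp only [iteratedFDeriv_two_apply, Nat.factorial_two, Nat.cast_ofNat, hD2, mul_one, mul_zero,
      add_zero, zero_add] at h1 h2 h3
    have h4 : |d1 (d2 f) y| ≤ 3 * (C * K) := by
      rw [abs_le] at h1 h2 h3 ⊢
      constructor <;> linarith [h1.1, h1.2, h2.1, h2.2, h3.1, h3.2]
    refine ContinuousLinearMap.opNorm_le_bound₂ _ (by linarith) fun v w => ?_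
    rw [hD2 v w, Real.norm_eq_abs]
    have a1 : |v.1| ≤ ‖v‖ := norm_fst_le v
    have a2 : |v.2| ≤ ‖v‖ := norm_snd_le v
    have a3 : |w.1| ≤ ‖w‖ := norm_fst_le w
    have a4 : |w.2| ≤ ‖w‖ := norm_snd_le w
    have c11 : |v.1| * |w.1| ≤ ‖v‖ * ‖w‖ := mul_le_mul a1 a3 (abs_nonneg _) (norm_nonneg _)
    have c12 : |v.1| * |w.2| ≤ ‖v‖ * ‖w‖ := mul_le_mul a1 a4 (abs_nonneg _) (norm_nonneg _)
    have c21 : |v.2| * |w.1| ≤ ‖v‖ * ‖w‖ := mul_le_mul a2 a3 (abs_nonneg _) (norm_nonneg _)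
    have c22 : |v.2| * |w.2| ≤ ‖v‖ * ‖w‖ := mul_le_mul a2 a4 (abs_nonneg _) (norm_nonneg _)
    have c3 : |v.1 * w.2 + v.2 * w.1| ≤ 2 * (‖v‖ * ‖w‖) := by
      refine (abs_add_le _ _).trans ?_
      rw [abs_mul, abs_mul]; linarith
    have b1 : |d1 (d1 f) y| * (|v.1| * |w.1|) ≤ C * 2 * K * (‖v‖ * ‖w‖) :=
      mul_le_mul h1 c11 (by positivity) (by linarith)
    have b2 : |d2 (d2 f) y| * (|v.2| * |w.2|) ≤ C * 2 * K * (‖v‖ * ‖w‖) :=
      mul_le_mul h2 c22 (by positivity) (by linarith)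
    have b3 : |d1 (d2 f) y| * |v.1 * w.2 + v.2 * w.1| ≤ 3 * (C * K) * (2 * (‖v‖ * ‖w‖)) :=
      mul_le_mul h4 c3 (by positivity) (by linarith)
    calc _ ≤ |d1 (d1 f) y * v.1 * w.1| + |d1 (d2 f) y * (v.1 * w.2 + v.2 * w.1)|
          + |d2 (d2 f) y * v.2 * w.2| := abs_add_three _ _ _
      _ = |d1 (d1 f) y| * (|v.1| * |w.1|) + |d1 (d2 f) y| * |v.1 * w.2 + v.2 * w.1|
          + |d2 (d2 f) y| * (|v.2| * |w.2|) := by simp only [abs_mul, mul_assoc]
      _ ≤ _ := by linarith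

namespace AInt

theorem tu_prod {ι α β γ : Type} [PseudoMetricSpace β] [PseudoMetricSpace γ] {p : Filter ι}
    {s : Set α} {F : ι → α → β} {G : ι → α → γ} {f : α → β} {g : α → γ}
    (hF : TendstoUniformlyOn F f p s) (hG : TendstoUniformlyOn G g p s) :
    TendstoUniformlyOn (fun i x => (F i x, G i x)) (fun x => (f x, g x)) p s := by
  rw [Metric.tendstoUniformlyOn_iff] at *
  intro ε hε
  filter_upwards [hF ε hε, hG ε hε] with i h1 h2 x hx
  rw [Prod.dist_eq]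
  exact max_lt (h1 x hx) (h2 x hx)

/-- a uniformly Cauchy family has a uniform limit -/
theorem lim_of_cauchy {ι α β : Type} [NormedAddCommGroup β] [CompleteSpace β] {p : Filter ι}
    [p.NeBot] {s : Set α} {F : ι → α → β}
    (h : ∀ η > 0, ∀ᶠ q : ι × ι in p ×ˢ p, ∀ x ∈ s, ‖F q.1 x - F q.2 x‖ < η) :
    ∃ f, TendstoUniformlyOn F f p s := by
  have hc : UniformCauchySeqOn F p s := by
    intro u hu
    obtain ⟨η, hη, hu'⟩ := Metric.mem_uniformity_dist.1 hu
    filter_upwards [h η hη] with q hq x hx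
    exact hu' (by rw [dist_eq_norm]; exact hq x hx)
  have hl : ∀ x, x ∈ s → ∃ y, Tendsto (fun i => F i x) p (𝓝 y) := fun x hx =>
    cauchy_map_iff_exists_tendsto.1 (hc.cauchy_map hx)
  choose! f hf using hl
  exact ⟨f, hc.tendstoUniformlyOn_of_tendsto hf⟩

/-- derivative of a uniform limit, with an eventual hypothesis -/
theorem deriv_lim {ι G : Type} [NormedAddCommGroup G] [NormedSpace ℝ G] {p : Filter ι} [p.NeBot]
    {s : Set P2} (hs : IsOpen s) {f : ι → P2 → G} {g : P2 → G} {g' : P2 → P2 →L[ℝ] G}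
    (hf' : TendstoUniformlyOn (fun i => fderiv ℝ (f i)) g' p s)
    (hf : ∀ᶠ i in p, ∀ x ∈ s, DifferentiableAt ℝ (f i) x)
    (hfg : ∀ x ∈ s, Tendsto (fun i => f i x) p (𝓝 (g x))) {x : P2} (hx : x ∈ s) :
    HasFDerivAt g (g' x) x := by
  have h1 : s ∈ 𝓝 x := hs.mem_nhds hx
  refine hasFDerivAt_of_tendstoUniformlyOnFilter (f := f) (f' := fun i => fderiv ℝ (f i)) (l := p)
    (hf'.tendstoUniformlyOnFilter.mono_right (le_principal_iff.2 h1)) ?_
    (eventually_of_mem h1 hfg)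
  filter_upwards [prod_mem_prod hf h1] with q hq
  exact (hq.1 q.2 hq.2).hasFDerivAt

theorem j2_eq {f : P2 → ℝ} {y : P2} (h : DifferentiableAt ℝ (fderiv ℝ f) y) :
    j2 f y = (f y, fderiv ℝ f y (1, 0), fderiv ℝ f y (0, 1),
      fderiv ℝ (fderiv ℝ f) y (1, 0) (1, 0), fderiv ℝ (fderiv ℝ f) y (1, 0) (0, 1),
      fderiv ℝ (fderiv ℝ f) y (0, 1) (0, 1)) := by
  rw [j2, d11 h, d12 h, d22 h]; rfl

theorem tu_lin {ι α : Type} {p : Filter ι} {s : Set α} {A : ι → α → P2 →L[ℝ] ℝ}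
    {a : α → P2 →L[ℝ] ℝ} (h : TendstoUniformlyOn A a p s) {e : P2} (he : ‖e‖ = 1) :
    TendstoUniformlyOn (fun i x => A i x e) (fun x => a x e) p s := by
  rw [Metric.tendstoUniformlyOn_iff] at *
  intro ε hε
  filter_upwards [h ε hε] with i h1 x hx
  have h2 := h1 x hx
  rw [dist_eq_norm] at h2
  exact (lin_le (a x - A i x) he).trans_lt h2

theorem tu_bil {ι α : Type} {p : Filter ι} {s : Set α} {A : ι → α → P2 →L[ℝ] P2 →L[ℝ] ℝ}
    {a : α → P2 →L[ℝ] P2 →L[ℝ] ℝ} (h : TendstoUniformlyOn A a p s) {e e' : P2} (he : ‖e‖ = 1)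
    (he' : ‖e'‖ = 1) :
    TendstoUniformlyOn (fun i x => A i x e e') (fun x => a x e e') p s := by
  rw [Metric.tendstoUniformlyOn_iff]
  intro ε hε
  filter_upwards [(Metric.tendstoUniformlyOn_iff (α := P2 →L[ℝ] P2 →L[ℝ] ℝ)).1 h ε hε]
    with i h1 x hx
  have h2 : ‖a x - A i x‖ < ε := (dist_eq_norm (a x) (A i x)).symm.trans_lt (h1 x hx)
  exact (bil_le (a x - A i x) he he').trans_lt h2

/-- equi-Lipschitz and pointwise convergent implies locally uniformly convergent -/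
theorem loc_unif {ι : Type} {F : Filter ι} {u : ι → P2 → ℝ} {v : P2 → ℝ} {U : Set P2} {L : ℝ≥0}
    (hu : ∀ᶠ i in F, LipschitzOnWith L (u i) U) (hv : LipschitzOnWith L v U)
    (hp : ∀ y ∈ U, Tendsto (fun i => u i y) F (𝓝 (v y))) : TendstoLocallyUniformlyOn u v F U := by
  rw [Metric.tendstoLocallyUniformlyOn_iff]
  intro ε hε x hx
  have hL : (0 : ℝ) ≤ L := L.2
  have hr : 0 < ε / (3 * (L + 1)) := by positivity
  refine ⟨U ∩ ball x (ε / (3 * (L + 1))), inter_mem_nhdsWithin _ (ball_mem_nhds _ hr), ?_⟩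
  filter_upwards [hu, (hp x hx).eventually (ball_mem_nhds _ (by positivity : 0 < ε / 3))]
    with i hi h2 y hy
  have h1 := hv.dist_le_mul y hy.1 x hx
  have h3 := hi.dist_le_mul y hy.1 x hx
  have h4 : dist y x < ε / (3 * (L + 1)) := hy.2
  have h5 : (L : ℝ) * dist y x ≤ ε / 3 := by
    rw [lt_div_iff₀ (by positivity)] at h4
    nlinarith [dist_nonneg (x := y) (y := x)]
  have h6 : dist (u i x) (v x) < ε / 3 := h2
  have h7 := dist_triangle4 (v y) (v x) (u i x) (u i y)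
  rw [dist_comm (v x)] at h7
  rw [dist_comm] at h3
  linarith

theorem weak_of_sol (h2 : CWS) {u : P2 → ℝ} {U W : Set P2} (hu : Sol u U) (hW : IsOpen W)
    (hWU : W ⊆ U) : Weak u W :=
  (h2 u W hW ((hu.1.mono hWU).contDiffOn_of_completeSpace)).2 fun y hy => hu.2 y (hWU hy)

/-- uniform bound of the third derivatives -/
theorem third (h1 : RegS) (h2 : CWS) {ι : Type} {F : Filter ι} {u : ι → P2 → ℝ} {v : P2 → ℝ}
    {U : Set P2} {L : ℝ≥0} (hu : ∀ᶠ i in F, Sol (u i) U ∧ LipschitzOnWith L (u i) U)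
    {y : P2} {ε : ℝ} (hε : 0 < ε) (hε1 : ε ≤ 1) (hU : ball y (3 * ε) ⊆ U)
    (hp : Tendsto (fun i => u i y) F (𝓝 (v y))) :
    ∃ M, ∀ᶠ i in F, ∀ x ∈ ball y (2 * ε), ‖iteratedFDeriv ℝ 3 (u i) x‖ ≤ M := by
  have hL : (0 : ℝ) ≤ L := L.2
  obtain ⟨C, hC⟩ := h1 L (‖y‖ + |v y| + 3 + 2 * L) 3
  refine ⟨C * ε / ε ^ 3, ?_⟩
  filter_upwards [hu, hp.eventually (ball_mem_nhds _ one_pos)] with i hi h3 x hx
  have hxy : dist x y < 2 * ε := hx
  have hb : ball x ε ⊆ U := (ball_subset_ball' (by linarith)).trans hU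
  have hyU : y ∈ U := hU (mem_ball_self (by linarith))
  have hxU : x ∈ U := hb (mem_ball_self hε)
  have a1 : ‖x‖ ≤ ‖y‖ + 2 := by
    have := norm_le_norm_add_norm_sub' x y
    rw [← dist_eq_norm] at this
    linarith
  have a2 : |u i x| ≤ |v y| + 1 + 2 * L := by
    have b1 := hi.2.dist_le_mul x hxU y hyU
    have b2 : dist (u i y) (v y) < 1 := h3
    have b3 : (L : ℝ) * dist x y ≤ L * 2 := mul_le_mul_of_nonneg_left (by linarith) hL
    rw [Real.dist_eq] at b1 b2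
    have b4 := abs_add_three (u i x - u i y) (u i y - v y) (v y)
    have : u i x - u i y + (u i y - v y) + v y = u i x := by ring
    rw [this] at b4
    linarith
  exact (hC (u i) x ε hε hε1 (by linarith [abs_nonneg (v y)]) (by linarith [norm_nonneg y])
    (hi.2.mono hb) (weak_of_sol h2 hi.1 isOpen_ball hb)).2 3 (by norm_num) le_rfl

/-- the derivatives of order at most two are uniformly Cauchy -/
theorem cauchy {ι : Type} {F : Filter ι} {u : ι → P2 → ℝ} {v : P2 → ℝ} {y : P2} {ε M : ℝ}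
    (hε : 0 < ε) (ha : ∀ᶠ i in F, AnalyticOnNhd ℝ (u i) (ball y (2 * ε)))
    (hM : ∀ᶠ i in F, ∀ x ∈ ball y (2 * ε), ‖iteratedFDeriv ℝ 3 (u i) x‖ ≤ M)
    (hv : TendstoUniformlyOn u v F (ball y (2 * ε))) (k : ℕ) (hk : k ≤ 2) (η : ℝ) (hη : 0 < η) :
    ∀ᶠ q : ι × ι in F ×ˢ F, ∀ x ∈ ball y ε, ‖iteratedFDeriv ℝ k (u q.1 - u q.2) x‖ < η := by
  obtain ⟨C, hC⟩ := intS 3 (by norm_num)
  set C' := |C| + 1 with hC'
  set M' := |M| + 1 with hM'
  have hC0 : 0 < C' := by positivity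
  have hM0 : 0 < M' := by positivity
  set h := min (min ε 1) (η / (8 * C' * M')) with hh
  have hh0 : 0 < h := lt_min (lt_min hε one_pos) (by positivity)
  have hh1 : h ≤ ε := (min_le_left _ _).trans (min_le_left _ _)
  have hh2 : h ≤ 1 := (min_le_left _ _).trans (min_le_right _ _)
  have hh3 : h ≤ η / (8 * C' * M') := min_le_right _ _
  have hm0 : 0 < η * h ^ k / (8 * C') := by positivity
  have hv' := Metric.tendstoUniformlyOn_iff.1 hv _ hm0
  have hall := (ha.and hM).and hv'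
  filter_upwards [prod_mem_prod hall hall] with q hq x hx
  obtain ⟨⟨⟨a1, a2⟩, a3⟩, ⟨b1, b2⟩, b3⟩ := hq
  have hxy : dist x y < ε := hx
  have hb : ball x h ⊆ ball y (2 * ε) := ball_subset_ball' (by linarith)
  have key := hC (u q.1 - u q.2) x h (2 * (η * h ^ k / (8 * C'))) (2 * M') hh0
    ((a1.sub b1).mono hb) (fun z hz => by
      have c1 := a3 z (hb hz)
      have c2 := b3 z (hb hz)
      have c3 := dist_triangle_left (u q.1 z) (u q.2 z) (v z)
      rw [Real.dist_eq (u q.1 z)] at c3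
      simp only [Pi.sub_apply]
      linarith) (fun z hz => by
      rw [iteratedFDeriv_sub_apply (a1 z (hb hz)).contDiffAt (b1 z (hb hz)).contDiffAt]
      have c1 := a2 z (hb hz)
      have c2 := b2 z (hb hz)
      have c3 := norm_sub_le (iteratedFDeriv ℝ 3 (u q.1) z) (iteratedFDeriv ℝ 3 (u q.2) z)
      linarith [le_abs_self M]) k hk
  have hk0 : 0 < h ^ k := by positivity
  have e1 : 2 * (η * h ^ k / (8 * C')) / h ^ k = η / (4 * C') := by field_simp; ring
  have e2 : h ^ (3 - k) ≤ h := by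
    obtain ⟨j, hj⟩ : ∃ j, 3 - k = j + 1 := ⟨2 - k, by omega⟩
    rw [hj, pow_succ]
    have : h ^ j ≤ 1 := pow_le_one₀ hh0.le hh2
    nlinarith
  have e3 : 2 * M' * h ^ (3 - k) ≤ η / (4 * C') := by
    calc 2 * M' * h ^ (3 - k) ≤ 2 * M' * (η / (8 * C' * M')) :=
          mul_le_mul_of_nonneg_left (e2.trans hh3) (by positivity)
      _ = η / (4 * C') := by field_simp; ring
  rw [e1] at key
  have e4 : 0 ≤ η / (4 * C') + 2 * M' * h ^ (3 - k) := by positivity
  calc _ ≤ C * (η / (4 * C') + 2 * M' * h ^ (3 - k)) := key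
    _ ≤ C' * (η / (4 * C') + 2 * M' * h ^ (3 - k)) :=
        mul_le_mul_of_nonneg_right (by linarith [le_abs_self C]) e4
    _ ≤ C' * (η / (4 * C') + η / (4 * C')) := mul_le_mul_of_nonneg_left (by linarith) hC0.le
    _ = η / 2 := by field_simp; ring
    _ < η := by linarith

/-- convergence in `C ^ 2` -/
theorem conv {ι : Type} {F : Filter ι} [F.NeBot] {u : ι → P2 → ℝ} {v : P2 → ℝ} {y : P2} {ε M : ℝ}
    (hε : 0 < ε) (ha : ∀ᶠ i in F, AnalyticOnNhd ℝ (u i) (ball y (2 * ε)))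
    (hM : ∀ᶠ i in F, ∀ x ∈ ball y (2 * ε), ‖iteratedFDeriv ℝ 3 (u i) x‖ ≤ M)
    (hv : TendstoUniformlyOn u v F (ball y (2 * ε))) :
    ContDiffOn ℝ 2 v (ball y ε) ∧ TendstoUniformlyOn (fun i => j2 (u i)) (j2 v) F (ball y ε) := by
  have hsub : ball y ε ⊆ ball y (2 * ε) := ball_subset_ball (by linarith)
  have ha1 : ∀ᶠ i in F, ∀ x ∈ ball y ε, AnalyticAt ℝ (u i) x :=
    ha.mono fun i hi x hx => hi x (hsub hx)
  obtain ⟨g, hg⟩ := lim_of_cauchy (p := F) (s := ball y ε) (F := fun i => fderiv ℝ (u i)) (by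
    intro η hη
    filter_upwards [cauchy hε ha hM hv 1 (by norm_num) η hη, prod_mem_prod ha1 ha1]
      with q hq hq' x hx
    have := hq x hx
    rwa [norm_iteratedFDeriv_one,
      fderiv_sub (hq'.1 x hx).differentiableAt (hq'.2 x hx).differentiableAt] at this)
  obtain ⟨g2, hg2⟩ := lim_of_cauchy (p := F) (s := ball y ε)
    (F := fun i => fderiv ℝ (fderiv ℝ (u i))) (by
    intro η hη
    filter_upwards [cauchy hε ha hM hv 2 le_rfl η hη, prod_mem_prod ha1 ha1]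
      with q hq hq' x hx
    have := hq x hx
    have e : fderiv ℝ (u q.1 - u q.2) =ᶠ[𝓝 x] fderiv ℝ (u q.1) - fderiv ℝ (u q.2) := by
      filter_upwards [isOpen_ball.mem_nhds hx] with z hz
      exact fderiv_sub (hq'.1 z hz).differentiableAt (hq'.2 z hz).differentiableAt
    rwa [norm_two, e.fderiv_eq, fderiv_sub (hq'.1 x hx).fderiv.differentiableAt
      (hq'.2 x hx).fderiv.differentiableAt] at this)
  have hv0 : TendstoUniformlyOn u v F (ball y ε) := hv.mono hsub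
  have d1v : ∀ x ∈ ball y ε, HasFDerivAt v (g x) x := fun x hx =>
    deriv_lim isOpen_ball hg (ha1.mono fun i hi z hz => (hi z hz).differentiableAt)
      (fun z hz => hv0.tendsto_at hz) hx
  have e1 : ∀ x ∈ ball y ε, fderiv ℝ v x = g x := fun x hx => (d1v x hx).fderiv
  have hg' : TendstoUniformlyOn (fun i => fderiv ℝ (u i)) (fderiv ℝ v) F (ball y ε) :=
    hg.congr_right fun x hx => (e1 x hx).symm
  have d2v : ∀ x ∈ ball y ε, HasFDerivAt (fderiv ℝ v) (g2 x) x := fun x hx =>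
    deriv_lim isOpen_ball hg2 (ha1.mono fun i hi z hz => (hi z hz).fderiv.differentiableAt)
      (fun z hz => hg'.tendsto_at hz) hx
  have e2 : ∀ x ∈ ball y ε, fderiv ℝ (fderiv ℝ v) x = g2 x := fun x hx => (d2v x hx).fderiv
  have hg2' : TendstoUniformlyOn (fun i => fderiv ℝ (fderiv ℝ (u i))) (fderiv ℝ (fderiv ℝ v)) F
      (ball y ε) := hg2.congr_right fun x hx => (e2 x hx).symm
  have hc : ContinuousOn (fderiv ℝ (fderiv ℝ v)) (ball y ε) :=
    hg2'.continuousOn (ha1.mono fun i hi z hz =>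
      (hi z hz).fderiv.fderiv.continuousAt.continuousWithinAt).frequently
  constructor
  · rw [show (2 : WithTop ℕ∞) = 1 + 1 from rfl, contDiffOn_succ_iff_fderiv_of_isOpen isOpen_ball]
    refine ⟨fun x hx => (d1v x hx).differentiableAt.differentiableWithinAt, by simp, ?_⟩
    rw [show (1 : WithTop ℕ∞) = 0 + 1 from rfl, contDiffOn_succ_iff_fderiv_of_isOpen isOpen_ball]
    exact ⟨fun x hx => (d2v x hx).differentiableAt.differentiableWithinAt, by simp,
      contDiffOn_zero.2 hc⟩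
  · have h3 := tu_prod hv0 (tu_prod (tu_lin hg' n10) (tu_prod (tu_lin hg' n01)
      (tu_prod (tu_bil hg2' n10 n10) (tu_prod (tu_bil hg2' n10 n01) (tu_bil hg2' n01 n01)))))
    refine (h3.congr ?_).congr_right fun x hx => (j2_eq (d2v x hx).differentiableAt).symm
    filter_upwards [ha1] with i hi x hx
    exact (j2_eq (hi x hx).fderiv.differentiableAt).symm

/-- the operator as a function of the jet -/
def gJ (y : P2) (j : ℝ × ℝ × ℝ × ℝ × ℝ × ℝ) : ℝ :=
  gOp y j.1 j.2.1 j.2.2.1 j.2.2.2.1 j.2.2.2.2.1 j.2.2.2.2.2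

theorem gJ_eq (u : P2 → ℝ) (y : P2) : gJ y (j2 u y) = gAt u y (u y) := by
  simp only [gJ, j2, gAt]

theorem gJ_cont (y : P2) : Continuous (gJ y) := by
  unfold gJ gOp
  fun_prop

end AInt

open AInt in
theorem cptS (h1 : RegS) (h2 : CWS) : CptS := by
  intro ι F u v U L hF hU hu hp
  have hvL : LipschitzOnWith L v U := by
    refine LipschitzOnWith.of_dist_le_mul fun x hx y hy => ?_
    exact le_of_tendsto ((hp x hx).dist (hp y hy)) (hu.mono fun i hi => hi.2.dist_le_mul x hx y hy)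
  have hloc := loc_unif (hu.mono fun i hi => hi.2) hvL hp
  have key : ∀ y ∈ U, ∃ ε, 0 < ε ∧ ε ≤ 1 ∧ ball y ε ⊆ U ∧ ContDiffOn ℝ 2 v (ball y ε) ∧
      TendstoUniformlyOn (fun i => j2 (u i)) (j2 v) F (ball y ε) := by
    intro y hy
    obtain ⟨r, hr, hrU⟩ := Metric.isOpen_iff.1 hU y hy
    set ε := min (r / 3) 1 with hε
    have hε0 : 0 < ε := lt_min (by linarith) one_pos
    have hε1 : ε ≤ 1 := min_le_right _ _
    have hε2 : ε ≤ r / 3 := min_le_left _ _
    have hb3 : ball y (3 * ε) ⊆ U := (ball_subset_ball (by linarith)).trans hrU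
    have hb2 : closedBall y (2 * ε) ⊆ U := (closedBall_subset_ball (by linarith)).trans hb3
    obtain ⟨M, hM⟩ := third h1 h2 hu hε0 hε1 hb3 (hp y hy)
    have hv : TendstoUniformlyOn u v F (ball y (2 * ε)) :=
      ((tendstoLocallyUniformlyOn_iff_tendstoUniformlyOn_of_compact
        (isCompact_closedBall y (2 * ε))).1 (hloc.mono hb2)).mono ball_subset_closedBall
    obtain ⟨c1, c2⟩ := conv hε0
      (hu.mono fun i hi => hi.1.1.mono (ball_subset_closedBall.trans hb2)) hM hv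
    exact ⟨ε, hε0, hε1, (ball_subset_ball (by linarith)).trans hb3, c1, c2⟩
  have hlu : TendstoLocallyUniformlyOn (fun i => j2 (u i)) (j2 v) F U := by
    refine tendstoLocallyUniformlyOn_of_forall_exists_nhds fun y hy => ?_
    obtain ⟨ε, hε, -, -, -, h⟩ := key y hy
    exact ⟨ball y ε, mem_nhdsWithin_of_mem_nhds (ball_mem_nhds y hε), h⟩
  have heq : ∀ y ∈ U, gAt v y (v y) = 0 := by
    intro y hy
    have t1 : Tendsto (fun i => gJ y (j2 (u i) y)) F (𝓝 (gJ y (j2 v y))) :=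
      ((gJ_cont y).tendsto _).comp (hlu.tendsto_at hy)
    have t2 : Tendsto (fun i => gJ y (j2 (u i) y)) F (𝓝 0) := by
      refine tendsto_const_nhds.congr' (hu.mono fun i hi => ?_)
      exact ((gJ_eq _ _).trans (hi.1.2 y hy)).symm
    rw [← gJ_eq]
    exact tendsto_nhds_unique t1 t2
  refine ⟨⟨fun y hy => ?_, heq⟩, hlu⟩
  obtain ⟨ε, hε, hε1, hb, hc, -⟩ := key y hy
  obtain ⟨C, hC⟩ := h1 L (‖y‖ + |v y|) 0
  exact (hC v y ε hε hε1 (by linarith [abs_nonneg (v y)]) (by linarith [norm_nonneg y])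
    (hvL.mono hb) ((h2 v _ isOpen_ball hc).2 fun x hx => heq x (hb hx))).1

end Pool.Agent.Lib.MP_16d934_gt
end
end

-- part Pool.Agent.Lib.MP_16d934_gt.APoin
section

/-! Poincare inequalities for Lipschitz functions and the growth lemma of Morrey. -/

set_option autoImplicit false

open Set Metric Filter Topology MeasureTheory Bornology
open scoped NNReal

noncomputable section

namespace Pool.Agent.Lib.MP_16d934_gt

namespace APoin

variable {f : P2 → ℝ} {L : ℝ≥0}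

/-! ### Slices -/

theorem ftc {g h : ℝ → ℝ} (hg : LipschitzWith L g) (hh : ∀ᵐ t, HasDerivAt g (h t) t) (a b : ℝ) :
    g b - g a = ∫ t in a..b, h t := by
  rw [← hg.lipschitzOnWith.absolutelyContinuousOnInterval.integral_deriv_eq_sub]
  exact intervalIntegral.integral_congr_ae (hh.mono fun t ht _ => ht.deriv)

theorem slice2 (hf : LipschitzWith L f) :
    ∀ᵐ s : ℝ, ∀ a b, f (s, b) - f (s, a) = ∫ t in a..b, d2 f (s, t) := by
  have h : ∀ᵐ y ∂(volume : Measure ℝ).prod (volume : Measure ℝ), DifferentiableAt ℝ f y :=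
    hf.ae_differentiableAt (μ := (volume : Measure P2))
  filter_upwards [Measure.ae_ae_of_ae_prod h] with s hs a b
  refine ftc (g := fun t => f (s, t)) (L := L * 1) (hf.comp (LipschitzWith.prodMk_left s)) ?_ a b
  filter_upwards [hs] with t ht
  exact ht.hasFDerivAt.comp_hasDerivAt t ((hasDerivAt_const t s).prodMk (hasDerivAt_id t))

theorem slice1 (hf : LipschitzWith L f) :
    ∀ᵐ t : ℝ, ∀ a b, f (b, t) - f (a, t) = ∫ s in a..b, d1 f (s, t) := by
  have h : ∀ᵐ y ∂(volume : Measure ℝ).prod (volume : Measure ℝ), DifferentiableAt ℝ f y :=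
    hf.ae_differentiableAt (μ := (volume : Measure P2))
  have h' := Measure.measurePreserving_swap.quasiMeasurePreserving.ae h
  filter_upwards [Measure.ae_ae_of_ae_prod h'] with t ht a b
  refine ftc (g := fun s => f (s, t)) (L := L * 1) (hf.comp (LipschitzWith.prodMk_right t)) ?_ a b
  filter_upwards [ht] with s hs
  exact hs.hasFDerivAt.comp_hasDerivAt s ((hasDerivAt_id s).prodMk (hasDerivAt_const s t))

theorem meas_grad (f : P2 → ℝ) : Measurable fun y => ‖grad f y‖ :=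
  ((measurable_fderiv_apply_const ℝ f (1, 0)).prodMk
    (measurable_fderiv_apply_const ℝ f (0, 1))).norm

theorem grad_le (hf : LipschitzWith L f) (y : P2) : ‖grad f y‖ ≤ L := by
  have h := norm_fderiv_le_of_lipschitz ℝ (x₀ := y) hf
  have h1 := (fderiv ℝ f y).le_of_opNorm_le h (1, 0)
  have h2 := (fderiv ℝ f y).le_of_opNorm_le h (0, 1)
  simp only [Prod.norm_mk, norm_one, norm_zero, zero_le_one, sup_of_le_left, sup_of_le_right,
    mul_one] at h1 h2
  exact norm_prod_le_iff.2 ⟨h1, h2⟩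

/-- a bounded interval of length `p` -/
structure Iv (I : Set ℝ) (p : ℝ) : Prop where
  ms : MeasurableSet I
  oc : OrdConnected I
  vol : volume I = ENNReal.ofReal p
  pos : 0 < p
  bd : IsBounded I

theorem iv_Ioo {a b p : ℝ} (h : b - a = p) (hp : 0 < p) : Iv (Ioo a b) p :=
  ⟨measurableSet_Ioo, ordConnected_Ioo, by rw [Real.volume_Ioo, h], hp, isBounded_Ioo _ _⟩

theorem iv_Ico {a b p : ℝ} (h : b - a = p) (hp : 0 < p) : Iv (Ico a b) p :=
  ⟨measurableSet_Ico, ordConnected_Ico, by rw [Real.volume_Ico, h], hp, isBounded_Ico _ _⟩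

theorem iv_Ioc {a b p : ℝ} (h : b - a = p) (hp : 0 < p) : Iv (Ioc a b) p :=
  ⟨measurableSet_Ioc, ordConnected_Ioc, by rw [Real.volume_Ioc, h], hp, isBounded_Ioc _ _⟩

theorem Iv.fin {I : Set ℝ} {p : ℝ} (h : Iv I p) : IsFiniteMeasure (volume.restrict I) :=
  isFiniteMeasure_restrict.2 (by rw [h.vol]; exact ENNReal.ofReal_ne_top)

theorem Iv.real {I : Set ℝ} {p : ℝ} (h : Iv I p) : (volume.restrict I).real univ = p := by
  rw [measureReal_restrict_apply_univ, measureReal_def, h.vol, ENNReal.toReal_ofReal h.pos.le]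

theorem Iv.area {I J : Set ℝ} {p q : ℝ} (hI : Iv I p) (hJ : Iv J q) :
    volume.real (I ×ˢ J) = p * q := by
  rw [measureReal_def, Measure.volume_eq_prod, Measure.prod_prod, hI.vol, hJ.vol,
    ENNReal.toReal_mul, ENNReal.toReal_ofReal hI.pos.le, ENNReal.toReal_ofReal hJ.pos.le]

theorem sq_int {α : Type} [MeasurableSpace α] {μ : Measure α} [IsFiniteMeasure μ] {g : α → ℝ}
    {p : ℝ} (hp : 0 < p) (hμ : μ.real univ = p) (h1 : Integrable g μ)
    (h2 : Integrable (fun x => g x ^ 2) μ) : (∫ x, g x ∂μ) ^ 2 ≤ p * ∫ x, g x ^ 2 ∂μ := by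
  set m := (∫ x, g x ∂μ) / p with hm
  have h3 : 0 ≤ ∫ x, (g x ^ 2 - 2 * m * g x + m ^ 2) ∂μ :=
    integral_nonneg fun x => by
      have := sq_nonneg (g x - m)
      simp only [Pi.zero_apply]
      linarith
  have h5 : Integrable (fun x => g x ^ 2 - 2 * m * g x) μ := h2.sub (h1.const_mul _)
  rw [integral_add h5 (integrable_const _),
    integral_sub h2 (h1.const_mul _), integral_const_mul, integral_const, hμ, smul_eq_mul] at h3
  have h4 : ∫ x, g x ∂μ = m * p := by rw [hm]; field_simp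
  rw [h4] at h3 ⊢
  nlinarith

theorem line {I : Set ℝ} {p M : ℝ} (hI : Iv I p) {g h G : ℝ → ℝ} (hG : Measurable G)
    (hM : ∀ t, |G t| ≤ M) (hh : ∀ t, |h t| ≤ G t) (hg : ∀ a b, g b - g a = ∫ t in a..b, h t)
    {a b : ℝ} (ha : a ∈ I) (hb : b ∈ I) : (g b - g a) ^ 2 ≤ p * ∫ t in I, G t ^ 2 := by
  have := hI.fin
  have h1 : IntegrableOn G I := Integrable.of_bound hG.aestronglyMeasurable M (.of_forall hM)
  have h2 : IntegrableOn (fun t => G t ^ 2) I :=
    Integrable.of_bound (hG.pow_const 2).aestronglyMeasurable (M ^ 2) (.of_forall fun t => by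
      rw [norm_pow]
      exact pow_le_pow_left₀ (norm_nonneg _) (hM t) 2)
  have hs : uIoc a b ⊆ I := uIoc_subset_uIcc.trans (hI.oc.uIcc_subset ha hb)
  have h0 : ∀ t, 0 ≤ G t := fun t => (abs_nonneg _).trans (hh t)
  have h3 : |g b - g a| ≤ ∫ t in I, G t := by
    rw [hg]
    refine (intervalIntegral.norm_integral_le_integral_norm_uIoc (f := h)).trans ?_
    refine (integral_mono_of_nonneg (.of_forall fun t => norm_nonneg _) (h1.mono_set hs)
      (.of_forall hh)).trans ?_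
    exact setIntegral_mono_set h1 (.of_forall h0) hs.eventuallyLE
  refine le_trans ?_ (sq_int hI.pos hI.real h1 h2)
  rw [← sq_abs]
  exact pow_le_pow_left₀ (abs_nonneg _) h3 2

/-! ### Rectangles -/

theorem int_grad (hf : LipschitzWith L f) {μ : Measure P2} [IsFiniteMeasure μ] :
    Integrable (fun y => ‖grad f y‖ ^ 2) μ :=
  Integrable.of_bound ((meas_grad f).pow_const 2).aestronglyMeasurable (L ^ 2)
    (.of_forall fun y => by
      rw [norm_pow, norm_norm]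
      exact pow_le_pow_left₀ (norm_nonneg _) (grad_le hf y) 2)

theorem rect (hf : LipschitzWith L f) {I J : Set ℝ} {p q : ℝ} (hI : Iv I p) (hJ : Iv J q) :
    ∃ z ∈ I ×ˢ J, ∫ y in I ×ˢ J, (f y - f z) ^ 2 ≤
      2 * (p ^ 2 + q ^ 2) * ∫ y in I ×ˢ J, ‖grad f y‖ ^ 2 := by
  have := hI.fin
  have := hJ.fin
  have hp := hI.pos
  have hq := hJ.pos
  rw [Measure.volume_eq_prod, ← Measure.prod_restrict]
  set μ := (volume : Measure ℝ).restrict I with hμ
  set ν := (volume : Measure ℝ).restrict J with hν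
  have hG := int_grad hf (μ := μ.prod ν)
  set E := ∫ y, ‖grad f y‖ ^ 2 ∂μ.prod ν with hE
  have hb : ∀ y, |‖grad f y‖| ≤ L := fun y => by rw [abs_norm]; exact grad_le hf y
  have hμ0 : μ ≠ 0 := fun h => by
    have := hI.real
    rw [← hμ, h] at this
    simp at this
    linarith
  obtain ⟨s0, hs0, hV⟩ := exists_notMem_null_le_average hμ0 hG.integral_prod_left
    (N := {s | ¬ (s ∈ I ∧ ∀ a b, f (s, b) - f (s, a) = ∫ t in a..b, d2 f (s, t))})
    ((ae_restrict_mem hI.ms).and (ae_restrict_of_ae (slice2 hf)))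
  rw [mem_ofPred_eq, not_not] at hs0
  rw [average_eq, ← integral_prod _ hG, hI.real, smul_eq_mul, ← hE] at hV
  obtain ⟨t0, ht0⟩ : J.Nonempty := nonempty_of_measure_ne_zero (μ := volume) (by
    rw [hJ.vol]; simpa using hq)
  refine ⟨(s0, t0), ⟨hs0.1, ht0⟩, ?_⟩
  have hH := hG.integral_prod_right
  have key : ∀ᵐ y ∂μ.prod ν, (f y - f (s0, t0)) ^ 2 ≤
      2 * p * (∫ s, ‖grad f (s, y.2)‖ ^ 2 ∂μ) + 2 * q * (p⁻¹ * E) := by
    filter_upwards [Measure.quasiMeasurePreserving_fst.ae (ae_restrict_mem hI.ms),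
      Measure.quasiMeasurePreserving_snd.ae (ae_restrict_mem hJ.ms),
      Measure.quasiMeasurePreserving_snd.ae (ae_restrict_of_ae (slice1 hf))] with y y1 y2 y3
    have a1 := line hI (g := fun s => f (s, y.2)) (h := fun s => d1 f (s, y.2))
      (G := fun s => ‖grad f (s, y.2)‖) ((meas_grad f).comp measurable_prodMk_right)
      (fun s => hb _) (fun s => norm_fst_le (grad f (s, y.2))) y3 hs0.1 y1
    have a2 := line hJ (g := fun t => f (s0, t)) (h := fun t => d2 f (s0, t))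
      (G := fun t => ‖grad f (s0, t)‖) ((meas_grad f).comp measurable_prodMk_left)
      (fun s => hb _) (fun t => norm_snd_le (grad f (s0, t))) hs0.2 ht0 y2
    have a3 := mul_le_mul_of_nonneg_left hV hq.le
    have a4 := sq_nonneg (f y - f (s0, y.2) - (f (s0, y.2) - f (s0, t0)))
    simp only [Prod.mk.eta] at a1
    linarith
  have hI' : Integrable (fun y : P2 =>
      2 * p * (∫ s, ‖grad f (s, y.2)‖ ^ 2 ∂μ) + 2 * q * (p⁻¹ * E)) (μ.prod ν) :=
    ((hH.comp_snd μ).const_mul _).add (integrable_const _)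
  refine (integral_mono_of_nonneg (.of_forall fun y => sq_nonneg _) hI' key).trans ?_
  rw [integral_add ((hH.comp_snd μ).const_mul _) (integrable_const _), integral_const_mul,
    integral_fun_snd (fun t => ∫ s, ‖grad f (s, t)‖ ^ 2 ∂μ), ← integral_prod_symm _ hG, ← hE,
    integral_const, hI.real, ← univ_prod_univ, measureReal_prod_prod, hI.real, hJ.real]
  simp only [smul_eq_mul]
  field_simp
  rfl

theorem int_sq (hf : LipschitzWith L f) (c : ℝ) {Q : Set P2} (hQ : IsBounded Q) :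
    IntegrableOn (fun y => (f y - c) ^ 2) Q :=
  (((hf.continuous.sub continuous_const).pow 2).continuousOn.integrableOn_compact
    hQ.isCompact_closure).mono_set subset_closure

theorem int_const (c : ℝ) {Q : Set P2} (hQ : IsBounded Q) : IntegrableOn (fun _ => c) Q :=
  integrableOn_const hQ.measure_lt_top.ne

theorem compare (hf : LipschitzWith L f) (c c' : ℝ) {S Q Q' : Set P2} (hQ : IsBounded Q)
    (hQ' : IsBounded Q') (h : S ⊆ Q) (h' : S ⊆ Q') :
    volume.real S * (c - c') ^ 2 ≤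
      2 * (∫ y in Q, (f y - c) ^ 2) + 2 * ∫ y in Q', (f y - c') ^ 2 := by
  have hS := hQ.subset h
  have a1 := setIntegral_mono_set (int_sq hf c hQ) (.of_forall fun y => sq_nonneg _)
    h.eventuallyLE
  have a2 := setIntegral_mono_set (int_sq hf c' hQ') (.of_forall fun y => sq_nonneg _)
    h'.eventuallyLE
  have a3 : ∫ _ in S, (c - c') ^ 2 ≤ ∫ y in S, (2 * (f y - c) ^ 2 + 2 * (f y - c') ^ 2) :=
    integral_mono (int_const _ hS) (((int_sq hf c hS).const_mul 2).add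
      ((int_sq hf c' hS).const_mul 2)) fun y => by
        have := sq_nonneg (f y - c + (f y - c'))
        dsimp only
        linarith
  rw [integral_add ((int_sq hf c hS).const_mul 2) ((int_sq hf c' hS).const_mul 2),
    integral_const_mul, integral_const_mul, setIntegral_const, smul_eq_mul] at a3
  linarith

theorem shift (hf : LipschitzWith L f) (c c' : ℝ) {Q : Set P2} (hQ : IsBounded Q) :
    ∫ y in Q, (f y - c) ^ 2 ≤
      2 * (∫ y in Q, (f y - c') ^ 2) + volume.real Q * (2 * (c' - c) ^ 2) := by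
  have a3 : ∫ y in Q, (f y - c) ^ 2 ≤ ∫ y in Q, (2 * (f y - c') ^ 2 + 2 * (c' - c) ^ 2) :=
    integral_mono (int_sq hf c hQ) (((int_sq hf c' hQ).const_mul 2).add (int_const _ hQ))
      fun y => by
        have := sq_nonneg (f y - c' - (c' - c))
        dsimp only
        linarith
  rwa [integral_add ((int_sq hf c' hQ).const_mul 2) (int_const _ hQ), integral_const_mul,
    setIntegral_const, smul_eq_mul] at a3

theorem union_le {F : P2 → ℝ} (h0 : ∀ y, 0 ≤ F y) {s t : Set P2} (hs : IntegrableOn F s)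
    (ht : IntegrableOn F t) : ∫ y in s ∪ t, F y ≤ (∫ y in s, F y) + ∫ y in t, F y := by
  rw [← integral_add_measure hs ht]
  exact integral_mono_measure (Measure.restrict_union_le s t) (.of_forall h0)
    (Integrable.add_measure hs ht)

theorem mem_ball_iff {x y : P2} {r : ℝ} :
    y ∈ ball x r ↔ (x.1 - r < y.1 ∧ y.1 < x.1 + r) ∧ x.2 - r < y.2 ∧ y.2 < x.2 + r := by
  rw [← ball_prod_same, Real.ball_eq_Ioo, Real.ball_eq_Ioo]
  rfl

theorem ball_eq (x : P2) (r : ℝ) :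
    ball x r = Ioo (x.1 - r) (x.1 + r) ×ˢ Ioo (x.2 - r) (x.2 + r) := by
  ext y
  exact mem_ball_iff

/-! ### Growth lemma -/

theorem area_ball (x : P2) {r : ℝ} (hr : 0 < r) : volume.real (ball x r) = 4 * r ^ 2 := by
  rw [ball_eq, (iv_Ioo (p := 2 * r) (by ring) (by positivity)).area
    (iv_Ioo (p := 2 * r) (by ring) (by positivity))]
  ring

/-- mean oscillation bound -/
def Osc (f : P2 → ℝ) (K σ : ℝ) (x : P2) (r c : ℝ) : Prop :=
  ∫ y in ball x r, (f y - c) ^ 2 ≤ 16 * r ^ 2 * (K * r ^ σ) ^ 2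

theorem osc_ex (hf : LipschitzWith L f) {K σ r : ℝ} {x : P2} (hr : 0 < r)
    (h : ∫ y in ball x r, ‖grad f y‖ ^ 2 ≤ K ^ 2 * r ^ (2 * σ)) :
    ∃ c, Osc f K σ x r c ∧ |f x - c| ≤ L * r := by
  obtain ⟨z, hz, h1⟩ := rect hf (iv_Ioo (a := x.1 - r) (b := x.1 + r) (p := 2 * r) (by ring)
    (by positivity)) (iv_Ioo (a := x.2 - r) (b := x.2 + r) (p := 2 * r) (by ring) (by positivity))
  rw [← ball_eq] at hz h1
  refine ⟨f z, h1.trans ?_, ?_⟩
  · rw [mul_pow K, ← Real.rpow_mul_natCast hr.le, mul_comm σ]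
    have := mul_le_mul_of_nonneg_left h (show 0 ≤ 16 * r ^ 2 by positivity)
    push_cast
    linarith
  · refine (hf.dist_le_mul x z).trans (mul_le_mul_of_nonneg_left ?_ L.2)
    rw [dist_comm]
    exact (mem_ball.1 hz).le

theorem osc_cmp (hf : LipschitzWith L f) {K σ r r' c c' : ℝ} {x x' : P2} (hK : 0 ≤ K)
    (hσ : 0 ≤ σ) (hr' : 0 < r') (hr : r' ≤ r) (h : Osc f K σ x r c) (h' : Osc f K σ x' r' c')
    {z : P2} (s1 : ball z (r / 2) ⊆ ball x r) (s2 : ball z (r / 2) ⊆ ball x' r') :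
    |c - c'| ≤ 8 * (K * r ^ σ) := by
  have hr0 : 0 < r := hr'.trans_le hr
  have a1 := compare hf c c' isBounded_ball isBounded_ball s1 s2
  rw [area_ball z (half_pos hr0)] at a1
  have a2 : K * r' ^ σ ≤ K * r ^ σ :=
    mul_le_mul_of_nonneg_left (Real.rpow_le_rpow hr'.le hr hσ) hK
  have a3 : 16 * r' ^ 2 * (K * r' ^ σ) ^ 2 ≤ 16 * r ^ 2 * (K * r ^ σ) ^ 2 := by gcongr
  unfold Osc at h h'
  refine abs_le_of_sq_le_sq' ?_ (by positivity) |> fun h => abs_le.2 h
  refine le_of_mul_le_mul_left ?_ (show 0 < r ^ 2 by positivity)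
  linarith

theorem osc_pt (hf : LipschitzWith L f) {K σ C : ℝ} {x : P2} (hK : 0 ≤ K) (hσ : 0 < σ)
    (hC : 8 + C * (1 / 2) ^ σ ≤ C) (hC0 : 0 ≤ C)
    (h : ∀ r ∈ Ioc (0 : ℝ) (1 / 2), ∫ y in ball x r, ‖grad f y‖ ^ 2 ≤ K ^ 2 * r ^ (2 * σ)) :
    ∀ r ∈ Ioc (0 : ℝ) (1 / 2), ∀ c, Osc f K σ x r c → |f x - c| ≤ C * (K * r ^ σ) := by
  have key : ∀ n : ℕ, ∀ r ∈ Ioc (0 : ℝ) (1 / 2), ∀ c, Osc f K σ x r c →
      |f x - c| ≤ C * (K * r ^ σ) + L * r * (1 / 2) ^ n := by
    intro n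
    induction n with
    | zero =>
      intro r hr c hc
      obtain ⟨c', h1, h2⟩ := osc_ex hf hr.1 (h r hr)
      have s1 := ball_subset_ball (x := x) (half_le_self hr.1.le)
      have h3 := osc_cmp hf hK hσ.le hr.1 le_rfl h1 hc s1 s1
      have h4 : 0 ≤ K * r ^ σ := mul_nonneg hK (Real.rpow_nonneg hr.1.le _)
      have h5 : 0 ≤ C * (1 / 2 : ℝ) ^ σ := by positivity
      have h6 := abs_sub_le (f x) c' c
      have h7 := mul_le_mul_of_nonneg_right (show 8 ≤ C by linarith) h4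
      linarith
    | succ n ih =>
      intro r hr c hc
      have hr2 : r / 2 ∈ Ioc (0 : ℝ) (1 / 2) := ⟨half_pos hr.1, by linarith [hr.1, hr.2]⟩
      obtain ⟨c', h1, -⟩ := osc_ex hf hr2.1 (h _ hr2)
      have h2 := ih _ hr2 c' h1
      have h3 := osc_cmp hf hK hσ.le hr2.1 (half_le_self hr.1.le) hc h1
        (ball_subset_ball (x := x) (half_le_self hr.1.le)) Subset.rfl
      have h4 : 0 ≤ K * r ^ σ := mul_nonneg hK (Real.rpow_nonneg hr.1.le _)
      have h5 : (r / 2) ^ σ = r ^ σ * (1 / 2) ^ σ := by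
        rw [← Real.mul_rpow hr.1.le (by norm_num)]
        congr 1
        ring
      have h6 := abs_sub_le (f x) c' c
      rw [abs_sub_comm] at h3
      rw [h5] at h2
      have h7 := mul_le_mul_of_nonneg_right hC h4
      rw [pow_succ]
      linarith
  intro r hr c hc
  have lim : Tendsto (fun n : ℕ => C * (K * r ^ σ) + L * r * (1 / 2 : ℝ) ^ n) atTop
      (𝓝 (C * (K * r ^ σ) + L * r * 0)) :=
    ((tendsto_pow_atTop_nhds_zero_of_lt_one (by norm_num) (by norm_num)).const_mul _).const_add _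
  rw [mul_zero, add_zero] at lim
  exact ge_of_tendsto' lim fun n => key n r hr c hc

theorem near (hf : LipschitzWith L f) {K σ C : ℝ} {x x' : P2} (hK : 0 ≤ K) (hσ : 0 < σ)
    (hσ1 : σ ≤ 1) (hC : 8 + C * (1 / 2) ^ σ ≤ C) (hC0 : 0 ≤ C)
    (h : ∀ r ∈ Ioc (0 : ℝ) (1 / 2), ∫ y in ball x r, ‖grad f y‖ ^ 2 ≤ K ^ 2 * r ^ (2 * σ))
    (h' : ∀ r ∈ Ioc (0 : ℝ) (1 / 2), ∫ y in ball x' r, ‖grad f y‖ ^ 2 ≤ K ^ 2 * r ^ (2 * σ))
    (hd : ‖x - x'‖ ≤ 1 / 4) : |f x - f x'| ≤ 2 * (2 * C + 8) * K * ‖x - x'‖ ^ σ := by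
  rcases eq_or_ne x x' with rfl | hne
  · rw [sub_self, abs_zero]
    positivity
  set d := ‖x - x'‖ with hd'
  have d0 : 0 < d := norm_pos_iff.2 (sub_ne_zero.2 hne)
  have hr : 2 * d ∈ Ioc (0 : ℝ) (1 / 2) := ⟨by positivity, by linarith⟩
  obtain ⟨c, h1, -⟩ := osc_ex hf hr.1 (h _ hr)
  obtain ⟨c', h2, -⟩ := osc_ex hf hr.1 (h' _ hr)
  have a1 := osc_pt hf hK hσ hC hC0 h _ hr c h1
  have a2 := osc_pt hf hK hσ hC hC0 h' _ hr c' h2
  have a3 := osc_cmp hf hK hσ.le hr.1 le_rfl h1 h2 (z := x) (ball_subset_ball (by linarith))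
    (ball_subset_ball' (by rw [dist_eq_norm]; linarith))
  have a4 : (2 * d) ^ σ ≤ 2 * d ^ σ := by
    rw [Real.mul_rpow (by norm_num) d0.le]
    refine mul_le_mul_of_nonneg_right ?_ (Real.rpow_nonneg d0.le _)
    simpa using Real.rpow_le_rpow_of_exponent_le (x := 2) (by norm_num) hσ1
  have a5 := abs_sub_le (f x) c (f x')
  have a6 := abs_sub_le c c' (f x')
  rw [abs_sub_comm] at a2
  have a7 := mul_le_mul_of_nonneg_left a4 (show 0 ≤ (2 * C + 8) * K by positivity)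
  linarith

end APoin

open APoin

theorem poinS : PoinS := by
  refine ⟨10000, fun f L hf x r hr => ?_⟩
  set A := ball x (2 * r) \ ball x r with hA
  have bA : IsBounded A := isBounded_ball.subset sdiff_subset
  have i1 := iv_Ioo (a := x.1 - 2 * r) (b := x.1 + 2 * r) (p := 4 * r) (by ring) (by positivity)
  have i2 := iv_Ioo (a := x.2 - 2 * r) (b := x.2 + 2 * r) (p := 4 * r) (by ring) (by positivity)
  have j1 := iv_Ico (a := x.1 + r) (b := x.1 + 2 * r) (p := r) (by ring) hr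
  have j2 := iv_Ico (a := x.2 + r) (b := x.2 + 2 * r) (p := r) (by ring) hr
  have k1 := iv_Ioc (a := x.1 - 2 * r) (b := x.1 - r) (p := r) (by ring) hr
  have k2 := iv_Ioc (a := x.2 - 2 * r) (b := x.2 - r) (p := r) (by ring) hr
  have : IsFiniteMeasure (volume.restrict A) := isFiniteMeasure_restrict.2 bA.measure_lt_top.ne
  set E := ∫ y in A, ‖grad f y‖ ^ 2 with hE
  have mA : ∀ y : P2, y ∈ A ↔ ((x.1 - 2 * r < y.1 ∧ y.1 < x.1 + 2 * r) ∧
      x.2 - 2 * r < y.2 ∧ y.2 < x.2 + 2 * r) ∧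
      (y.1 ≤ x.1 - r ∨ x.1 + r ≤ y.1 ∨ y.2 ≤ x.2 - r ∨ x.2 + r ≤ y.2) := fun y => by
    rw [hA, Set.mem_sdiff, mem_ball_iff, mem_ball_iff]
    simp only [not_and_or, not_lt, or_assoc]
  have key : ∀ {I J : Set ℝ} {p q : ℝ}, Iv I p → Iv J q → p ^ 2 + q ^ 2 = 17 * r ^ 2 →
      I ×ˢ J ⊆ A → ∃ c, ∫ y in I ×ˢ J, (f y - c) ^ 2 ≤ 34 * r ^ 2 * E := fun hI hJ e s => by
    obtain ⟨z, -, h⟩ := rect hf hI hJ
    have h1 := setIntegral_mono_set (int_grad hf (μ := volume.restrict A))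
      (.of_forall fun y => sq_nonneg _) s.eventuallyLE
    refine ⟨f z, h.trans ?_⟩
    rw [e]
    have := mul_le_mul_of_nonneg_left h1 (show 0 ≤ 34 * r ^ 2 by positivity)
    linarith
  obtain ⟨cT, hT⟩ := key i1 j2 (by ring) fun y ⟨a, b⟩ =>
    (mA y).2 ⟨⟨a, by linarith [b.1], b.2⟩, Or.inr (Or.inr (Or.inr b.1))⟩
  obtain ⟨cB, hB⟩ := key i1 k2 (by ring) fun y ⟨a, b⟩ =>
    (mA y).2 ⟨⟨a, b.1, by linarith [b.2]⟩, Or.inr (Or.inr (Or.inl b.2))⟩
  obtain ⟨cL, hL⟩ := key k1 i2 (by ring) fun y ⟨a, b⟩ =>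
    (mA y).2 ⟨⟨⟨a.1, by linarith [a.2]⟩, b⟩, Or.inl a.2⟩
  obtain ⟨cR, hR⟩ := key j1 i2 (by ring) fun y ⟨a, b⟩ =>
    (mA y).2 ⟨⟨⟨by linarith [a.1], a.2⟩, b⟩, Or.inr (Or.inl a.1)⟩
  have bT := i1.bd.prod j2.bd
  have bB := i1.bd.prod k2.bd
  have bL := k1.bd.prod i2.bd
  have bR := j1.bd.prod i2.bd
  have c1 := compare hf cT cL bT bL (S := Ioc (x.1 - 2 * r) (x.1 - r) ×ˢ Ico (x.2 + r) (x.2 + 2 * r))
    (fun y ⟨a, b⟩ => ⟨⟨a.1, by linarith [a.2]⟩, b⟩) fun y ⟨a, b⟩ => ⟨a, by linarith [b.1], b.2⟩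
  have c2 := compare hf cB cL bB bL (S := Ioc (x.1 - 2 * r) (x.1 - r) ×ˢ Ioc (x.2 - 2 * r) (x.2 - r))
    (fun y ⟨a, b⟩ => ⟨⟨a.1, by linarith [a.2]⟩, b⟩) fun y ⟨a, b⟩ => ⟨a, b.1, by linarith [b.2]⟩
  have c3 := compare hf cR cT bR bT (S := Ico (x.1 + r) (x.1 + 2 * r) ×ˢ Ico (x.2 + r) (x.2 + 2 * r))
    (fun y ⟨a, b⟩ => ⟨a, by linarith [b.1], b.2⟩) fun y ⟨a, b⟩ => ⟨⟨by linarith [a.1], a.2⟩, b⟩
  rw [k1.area j2] at c1
  rw [k1.area k2] at c2
  rw [j1.area j2] at c3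
  have s1 := shift hf cL cT bT
  have s2 := shift hf cL cB bB
  have s3 := shift hf cL cR bR
  rw [i1.area j2] at s1
  rw [i1.area k2] at s2
  rw [j1.area i2] at s3
  have c4 : r * r * (cR - cL) ^ 2 ≤ r * r * (2 * (cR - cT) ^ 2 + 2 * (cT - cL) ^ 2) :=
    mul_le_mul_of_nonneg_left (by nlinarith [sq_nonneg (cR - cT - (cT - cL))]) (by positivity)
  have nn : ∀ y, 0 ≤ (f y - cL) ^ 2 := fun y => sq_nonneg _
  have u1 := union_le nn (int_sq hf cL bT) (int_sq hf cL bB)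
  have u2 := union_le nn (int_sq hf cL bL) (int_sq hf cL bR)
  have u3 := union_le nn (int_sq hf cL (bT.union bB)) (int_sq hf cL (bL.union bR))
  have u4 := setIntegral_mono_set (int_sq hf cL ((bT.union bB).union (bL.union bR)))
    (.of_forall nn) (LE.le.eventuallyLE (s := A) fun y hy => by
      obtain ⟨⟨a, b⟩, h | h | h | h⟩ := (mA y).1 hy
      · exact Or.inr (Or.inl ⟨⟨a.1, h⟩, b⟩)
      · exact Or.inr (Or.inr ⟨⟨h, a.2⟩, b⟩)
      · exact Or.inl (Or.inr ⟨a, b.1, h⟩)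
      · exact Or.inl (Or.inl ⟨a, h, b.2⟩))
  have E0 : 0 ≤ r ^ 2 * E := mul_nonneg (sq_nonneg _) (integral_nonneg fun y => sq_nonneg _)
  exact ⟨cL, by linarith⟩

theorem morreyS : MorreyS := by
  intro σ hσ hσ1
  have h1 : (1 / 2 : ℝ) ^ σ < 1 := Real.rpow_lt_one (by norm_num) (by norm_num) hσ
  obtain ⟨C, hC0, hC⟩ : ∃ C : ℝ, 0 ≤ C ∧ 8 + C * (1 / 2) ^ σ ≤ C := by
    have h2 : 0 < 1 - (1 / 2 : ℝ) ^ σ := by linarith
    refine ⟨8 / (1 - (1 / 2) ^ σ), by positivity, ?_⟩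
    have := div_mul_cancel₀ (8 : ℝ) h2.ne'
    nlinarith
  refine ⟨48 * (2 * (2 * C + 8)), fun f L K hf hK h x hx x' hx' => ?_⟩
  set d := ‖x - x'‖ with hd
  have d12 : d ≤ 12 := by
    have a := mem_ball_zero_iff.1 hx
    have b := mem_ball_zero_iff.1 hx'
    have := norm_sub_le x x'
    linarith
  set u : ℕ → P2 := fun k => x + ((k : ℝ) / 48) • (x' - x) with hu
  have um : ∀ k ≤ 48, u k ∈ ball (0 : P2) 6 := fun k hk => by
    have : (k : ℝ) ≤ 48 := by exact_mod_cast hk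
    exact (convex_ball (0 : P2) 6).add_smul_sub_mem hx hx' ⟨by positivity, by linarith⟩
  have us : ∀ k, ‖u k - u (k + 1)‖ = d / 48 := fun k => by
    have : u k - u (k + 1) = (1 / 48 : ℝ) • (x - x') := by
      simp only [hu]
      push_cast
      module
    rw [this, norm_smul, ← hd]
    norm_num
    ring
  have d0 : 0 ≤ d := norm_nonneg _
  have key : ∀ k ≤ 48, |f x - f (u k)| ≤ k * (2 * (2 * C + 8) * K * d ^ σ) := by
    intro k
    induction k with
    | zero => simp [hu]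
    | succ k ih =>
      intro hk
      have a1 := ih (by omega)
      have a2 := near hf hK hσ hσ1 hC hC0 (h _ (um k (by omega))) (h _ (um (k + 1) hk))
        (by rw [us]; linarith)
      rw [us] at a2
      have a3 : (d / 48) ^ σ ≤ d ^ σ := Real.rpow_le_rpow (by positivity) (by linarith) hσ.le
      have a4 := mul_le_mul_of_nonneg_left a3 (show 0 ≤ 2 * (2 * C + 8) * K by positivity)
      have a5 := abs_sub_le (f x) (f (u k)) (f (u (k + 1)))
      push_cast
      linarith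
  have a := key 48 le_rfl
  have e : u 48 = x' := by simp [hu]
  rw [e] at a
  push_cast at a
  linarith

end Pool.Agent.Lib.MP_16d934_gt
end
end
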