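import Pool.Agent.Lib.MP_16d934_gt.DMida

-- part Pool.Agent.Lib.MP_16d934_gt.ARegb
section

/-! Tools for the regularity theorem: cut-offs, Fourier estimate, the periodic equation. -/

set_option autoImplicit false

open Set Metric Filter Topology MeasureTheory
open scoped ContDiff NNReal Real

noncomputable section

namespace Pool.Agent.Lib.MP_16d934_gt.AReg

/-- smooth cut-off functions -/
structure Bump (r R : ℝ) (f : P2 → ℝ) : Prop where
  smooth : ContDiff ℝ ∞ f
  one : ∀ x, ‖x‖ < r → f =ᶠ[𝓝 x] fun _ => 1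
  zero : ∀ x, R < ‖x‖ → f x = 0
  bd : ∀ x, |f x| ≤ 1

theorem exists_bump {r R : ℝ} (hr : 0 < r) (hR : r < R) : ∃ f, Bump r R f := by
  let b : ContDiffBump (0 : P2) := ⟨r, R, hr, hR⟩
  exact ⟨b, b.contDiff, fun x hx => b.eventuallyEq_one_of_mem_ball (mem_ball_zero_iff.2 hx),
    fun x hx => b.zero_of_le_dist (by simpa using hx.le),
    fun x => abs_le.2 ⟨by linarith [b.nonneg' x], b.le_one⟩⟩

theorem ev_far {R : ℝ} {x : P2} (hx : R < ‖x‖) : ∀ᶠ y in 𝓝 x, R < ‖y‖ :=
  continuousAt_const.eventually_lt continuous_norm.continuousAt hx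

theorem ev_near {R : ℝ} {x : P2} (hx : ‖x‖ < R) : ∀ᶠ y in 𝓝 x, ‖y‖ < R :=
  continuous_norm.continuousAt.eventually_lt continuousAt_const hx

theorem Bump.sp {r R : ℝ} {f : P2 → ℝ} (h : Bump r R f) (hR : R ≤ 5 / 16) : Sp f :=
  fun x hx => h.zero x (hR.trans_lt hx)

theorem Bump.gz {r R : ℝ} {f : P2 → ℝ} (h : Bump r R f) {x : P2} (hx : R < ‖x‖) :
    grad f x = 0 := by
  have : f =ᶠ[𝓝 x] fun _ => 0 := (ev_far hx).mono fun y hy => h.zero y hy
  rw [grad_congr this, grad_const]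

theorem tsupp {R : ℝ} {f : P2 → ℝ} (h : ∀ x, R < ‖x‖ → f x = 0) : tsupport f ⊆ closedBall 0 R :=
  closure_minimal (fun x hx => mem_closedBall_zero_iff.2 (not_lt.1 fun h' => hx (h x h')))
    isClosed_closedBall

theorem smooth_grad {a : P2 → ℝ} (ha : ContDiff ℝ ∞ a) : ContDiff ℝ ∞ (grad a) :=
  ((ha.fderiv_right (m := ∞) (by simp)).clm_apply contDiff_const).prodMk
    ((ha.fderiv_right (m := ∞) (by simp)).clm_apply contDiff_const)

theorem cont_of_sp {F : Type} [Zero F] [TopologicalSpace F] {g : P2 → F} (hg : Sp g)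
    (hc : ContinuousOn g (ball 0 6)) : Continuous g :=
  continuous_iff_continuousAt.2 fun y => by
    by_cases hy : ‖y‖ < 6
    · exact hc.continuousAt (isOpen_ball.mem_nhds (mem_ball_zero_iff.2 hy))
    · have h : (fun _ => 0) =ᶠ[𝓝 y] g :=
        (ev_far (R := 5 / 16) (by linarith)).mono fun x hx => (hg x hx).symm
      exact continuousAt_const.congr h

theorem reg1_cont {w : P2 → ℝ} {σ C : ℝ} (h : Reg1 w σ C) (hσ : 0 < σ) :
    ContinuousOn (grad w) (ball 0 6) := fun y hy => by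
  refine tendsto_iff_norm_sub_tendsto_zero.2 (squeeze_zero' (g := fun x => C * ‖x - y‖ ^ σ)
    (Eventually.of_forall fun _ => norm_nonneg _)
    (eventually_mem_nhdsWithin.mono fun x hx => h.2.1 x hx y hy) ?_)
  have : Continuous fun x : P2 => C * ‖x - y‖ ^ σ :=
    continuous_const.mul ((continuous_id.sub continuous_const).norm.rpow_const
      fun _ => Or.inr hσ.le)
  have h2 := (this.tendsto y).mono_left (nhdsWithin_le_nhds (s := ball 0 6))
  simpa [Real.zero_rpow hσ.ne'] using h2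

/-- functions of class one on the middle ball -/
structure C1 (w : P2 → ℝ) : Prop where
  diff : ∀ y ∈ ball (0 : P2) 6, DifferentiableAt ℝ w y
  cont : ContinuousOn (grad w) (ball 0 6)

theorem sp_mul {χ : P2 → ℝ} (hs : Sp χ) (w : P2 → ℝ) : Sp fun x => χ x * w x :=
  fun x hx => by simp [hs x hx]

theorem cut_diff {χ w : P2 → ℝ} (hχ : ContDiff ℝ ∞ χ) (hs : Sp χ) (hw : C1 w) :
    Differentiable ℝ fun x => χ x * w x := fun y => by
  by_cases hy : ‖y‖ < 6
  · exact (hχ.differentiable (by simp) y).mul (hw.diff y (mem_ball_zero_iff.2 hy))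
  · exact (differentiableAt_const (0 : ℝ)).congr_of_eventuallyEq
      ((ev_far (R := 5 / 16) (by linarith)).mono fun x hx => sp_mul hs w x hx)

theorem cut_grad {χ w : P2 → ℝ} (hχ : ContDiff ℝ ∞ χ) (hs : Sp χ) (hw : C1 w) :
    grad (fun x => χ x * w x) = fun y => w y • grad χ y + χ y • grad w y := by
  ext1 y
  by_cases hy : ‖y‖ < 6
  · exact grad_mul (hχ.differentiable (by simp) y) (hw.diff y (mem_ball_zero_iff.2 hy))
  · rw [(sp_mul hs w).grad y (by linarith), hs.grad y (by linarith), hs y (by linarith)]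
    simp

theorem cut_cont {χ w : P2 → ℝ} (hχ : ContDiff ℝ ∞ χ) (hs : Sp χ) (hw : C1 w) :
    Continuous (grad fun x => χ x * w x) := by
  refine cont_of_sp (sp_mul hs w).grad ?_
  rw [cut_grad hχ hs hw]
  exact (ContinuousOn.smul (fun y hy => (hw.diff y hy).continuousAt.continuousWithinAt)
    (smooth_grad hχ).continuous.continuousOn).add (hχ.continuous.continuousOn.smul hw.cont)

/-! ### Smallness in the Wiener class -/

theorem wn_der (hF : FourS) {χ : P2 → ℝ} (hχ : ContDiff ℝ ∞ χ) (hs : Sp χ) (p : P2 →L[ℝ] ℝ)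
    (hp : ∀ v, |p v| ≤ ‖v‖) {σ : ℝ} (C2 C3 : ℝ) {η : ℝ} (hσ : 0 < σ) (hσ1 : σ ≤ 1) (hη : 0 < η) :
    ∃ κ, 0 < κ ∧ ∀ w : P2 → ℝ, LipschitzWith 1 w → Reg1 w σ C2 →
      (∀ h : P2, ‖h‖ ≤ 1 / 4 → ∫ y in ball (0 : P2) 1,
        ‖grad w (y + h + h) - (2 : ℝ) • grad w (y + h) + grad w y‖ ^ 2 ≤ C3 * ‖h‖ ^ (2 + σ)) →
      (∀ y, ‖y‖ ≤ 1 → |w y| ≤ κ ∧ ‖grad w y‖ ≤ κ) →
      Wn (per fun y => p (grad (fun x => χ x * w x) y)) η := by
  obtain ⟨D1, hD1, s1⟩ := exists_sm2 hχ hs.compact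
  have sp2 : Sp fun y => p (grad χ y) := fun x hx => by simp [hs.grad x hx]
  obtain ⟨D2, hD2, s2⟩ := exists_sm2 (p.contDiff.comp (smooth_grad hχ)) sp2.compact
  set D := D1 + D2 with hD
  replace s1 : Sm2 D χ := s1.mono (by linarith)
  replace s2 : Sm2 D fun y => p (grad χ y) := s2.mono (by linarith)
  have hD0 : 1 ≤ D := by linarith
  set E := 1 + 2 * |C2| with hE
  have hC2 := abs_nonneg C2
  obtain ⟨κ, hκ, H⟩ := hF (2 * (7 * D * E) ^ 2 + 2 * D ^ 2 * C3) σ η hσ hη
  refine ⟨min 1 (κ / (2 * D)), by positivity, fun w hw hR hsec hsm => ?_⟩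
  have hc : C1 w := ⟨hR.1, reg1_cont hR hσ⟩
  have spF : Sp fun y => p (grad (fun x => χ x * w x) y) := fun x hx => by
    simp [(sp_mul hs w).grad x hx]
  have eF : (fun y => p (grad (fun x => χ x * w x) y)) =
      fun y => p (grad χ y) * w y + χ y * p (grad w y) := by
    ext y
    rw [cut_grad hχ hs hc]
    simp [mul_comm]
  refine H _ (per_cont spF (p.continuous.comp (cut_cont hχ hs hc))) (per_per _) (fun y => ?_)
    fun h _ hh => ?_
  · obtain ⟨k1, k2⟩ := hsm (y - rnd y) ((norm_sub_rnd y).trans (by norm_num))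
    have k3 : min 1 (κ / (2 * D)) ≤ κ / (2 * D) := min_le_right _ _
    have k4 : D * (κ / (2 * D)) = κ / 2 := by field_simp
    rw [eF, per]
    refine (abs_add_le _ _).trans ?_
    rw [abs_mul, abs_mul]
    have k5 := mul_le_mul (s2.bd (y - rnd y)) (k1.trans k3) (abs_nonneg _) (by linarith)
    have k6 := mul_le_mul (s1.bd (y - rnd y)) ((hp _).trans (k2.trans k3)) (abs_nonneg _)
      (by linarith)
    linarith
  · have hn := norm_nonneg h
    set G := ‖h‖ ^ σ with hG
    have G0 : 0 ≤ G := by positivity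
    have G1 : G ≤ 1 := Real.rpow_le_one hn (by linarith) hσ.le
    have G2 : ‖h‖ ≤ G := by
      rcases hn.eq_or_lt with h0 | h0
      · rw [← h0]; exact G0
      · simpa using Real.rpow_le_rpow_of_exponent_ge h0 (by linarith) hσ1
    have G3 : ‖h‖ ^ (2 + σ) = ‖h‖ ^ 2 * G := by
      rw [Real.rpow_add' hn (by positivity), Real.rpow_two]
    have hol : ∀ x : P2, ‖x‖ < 1 → ‖grad w (x + h) - grad w x‖ ≤ |C2| * G := fun x hx => by
      have := hR.2.1 (x + h) (mem_ball_zero_iff.2 (by linarith [norm_add_le x h])) x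
        (mem_ball_zero_iff.2 (by linarith))
      rw [add_sub_cancel_left] at this
      exact this.trans (mul_le_mul_of_nonneg_right (le_abs_self _) G0)
    set t : P2 → ℝ := fun y => ‖grad w (y + h + h) - (2 : ℝ) • grad w (y + h) + grad w y‖ with ht
    have key : ∀ y ∈ cell, tau (per fun y => p (grad (fun x => χ x * w x) y)) h y ^ 2 ≤
        2 * (7 * D * E) ^ 2 * ‖h‖ ^ (2 + σ) + 2 * D ^ 2 * t y ^ 2 := fun y hy => by
      have y0 := cell_norm hy
      have y1 := norm_add_le y h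
      have a1 := tau_mul (E := E) (H := G) (t := 2 * (|C2| * G) * ‖h‖) (b := w) s2 (y := y) G2
        ((hsm _ (by linarith)).1.trans ((min_le_left _ _).trans (by linarith)))
        (by
          have := hw.dist_le_mul (y + h + h) (y + h)
          rw [Real.dist_eq, dist_eq_norm, add_sub_cancel_left, NNReal.coe_one, one_mul] at this
          nlinarith)
        (tau_le (r := 1) (mem_ball_zero_iff.2 (by linarith)) (mem_ball_zero_iff.2 (by linarith))
          (fun x hx => by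
            have := mem_ball_zero_iff.1 hx
            exact ⟨hR.1 _ (mem_ball_zero_iff.2 (by linarith)),
              hR.1 _ (mem_ball_zero_iff.2 (by linarith [norm_add_le x h]))⟩)
          fun x hx => (norm_fderiv_sub_le _ _ _).trans
            (by linarith [hol x (mem_ball_zero_iff.1 hx)]))
      have a2 := tau_mul (E := E) (H := G) (t := t y) (b := fun x => p (grad w x)) s1 (y := y) G2
        ((hp _).trans ((norm_grad_le_lip hw _).trans (by rw [NNReal.coe_one]; linarith)))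
        (by
          rw [← map_sub]
          refine (hp _).trans ((hol _ (by linarith)).trans ?_)
          nlinarith)
        (by
          have : tau (fun x => p (grad w x)) h y =
              p (grad w (y + h + h) - (2 : ℝ) • grad w (y + h) + grad w y) := by
            simp [tau]
          rw [this]
          exact hp _)
      have a3 : tau (fun y => p (grad χ y) * w y + χ y * p (grad w y)) h y =
          tau (fun y => p (grad χ y) * w y) h y + tau (fun y => χ y * p (grad w y)) h y := by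
        simp only [tau]; ring
      have a4 : D * (2 * (|C2| * G) * ‖h‖) ≤ D * E * (‖h‖ * G) := by
        have : 0 ≤ D * (‖h‖ * G) := by positivity
        rw [hE]; nlinarith
      have a5 : |tau (fun y => p (grad χ y) * w y + χ y * p (grad w y)) h y| ≤
          7 * D * E * (‖h‖ * G) + D * t y := by
        rw [a3]
        linarith [abs_add_le (tau (fun y => p (grad χ y) * w y) h y)
          (tau (fun y => χ y * p (grad w y)) h y)]
      have a6 : (‖h‖ * G) ^ 2 ≤ ‖h‖ ^ 2 * G := by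
        rw [mul_pow]
        gcongr
        nlinarith
      rw [tau_per spF hy hh, eF, ← sq_abs, G3]
      calc _ ≤ (7 * D * E * (‖h‖ * G) + D * t y) ^ 2 := by gcongr
        _ ≤ 2 * (7 * D * E) ^ 2 * (‖h‖ * G) ^ 2 + 2 * D ^ 2 * t y ^ 2 := by
          nlinarith [sq_nonneg (7 * D * E * (‖h‖ * G) - D * t y)]
        _ ≤ _ := by gcongr
    have tc : ContinuousOn (fun y => t y ^ 2) (closedBall 0 1) := by
      have m : ∀ z : P2, ‖z‖ ≤ 1 → ContinuousOn (fun y => grad w (y + z)) (closedBall 0 1) :=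
        fun z hz => hc.cont.comp (continuous_id.add continuous_const).continuousOn fun y hy =>
          mem_ball_zero_iff.2 (by linarith [norm_add_le y z, mem_closedBall_zero_iff.1 hy])
      have m2 := m (h + h) (by linarith [norm_add_le h h])
      have m0 := m 0 (by simp)
      simp only [← add_assoc, add_zero] at m2 m0
      exact ((m2.sub ((m h (by linarith)).const_smul (2 : ℝ))).add m0).norm.pow 2
    have ti : IntegrableOn (fun y => t y ^ 2) (ball 0 1) :=
      (tc.integrableOn_compact (isCompact_closedBall 0 1)).mono_set ball_subset_closedBall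
    have b1 : ∫ y in cell, t y ^ 2 ≤ C3 * ‖h‖ ^ (2 + σ) :=
      (setIntegral_mono_set ti (Eventually.of_forall fun _ => sq_nonneg _)
        (LE.le.eventuallyLE fun y hy =>
          mem_ball_zero_iff.2 ((cell_norm hy).trans_lt (by norm_num)))).trans (hsec h (by linarith))
    have ci : IntegrableOn (fun _ : P2 => 2 * (7 * D * E) ^ 2 * ‖h‖ ^ (2 + σ)) cell :=
      int_cell continuousOn_const
    have ti' : IntegrableOn (fun y => 2 * D ^ 2 * t y ^ 2) cell := (int_cell tc).const_mul _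
    have b2 := integral_mono_of_nonneg (μ := volume.restrict cell)
      (Eventually.of_forall fun _ => sq_nonneg _) (ci.add ti')
      ((ae_restrict_iff' meas_cell).2 (Eventually.of_forall key))
    refine b2.trans ?_
    rw [integral_add' ci ti', integral_const_mul (2 * D ^ 2), setIntegral_const, measureReal_def,
      vol_cell, ENNReal.toReal_one, one_smul]
    nlinarith [mul_le_mul_of_nonneg_left b1 (show 0 ≤ 2 * D ^ 2 by positivity)]

/-! ### The periodic equation -/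

/-- the weak form on the period cell -/
def WI (A : P2 → P2) (B φ : P2 → ℝ) : ℝ := ∫ y in cell, (dot (A y) (grad φ y) + B y * φ y)

theorem cont_dot {f f' : P2 → P2} (hf : Continuous f) (hf' : Continuous f') :
    Continuous fun y => dot (f y) (f' y) := by
  unfold dot
  fun_prop

theorem wi_int {A : P2 → P2} {B φ : P2 → ℝ} (hA : Continuous A) (hB : Continuous B)
    (hφ : ContDiff ℝ ∞ φ) : IntegrableOn (fun y => dot (A y) (grad φ y) + B y * φ y) cell := by
  exact int_cell (((cont_dot hA (smooth_grad hφ).continuous).add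
    (hB.mul hφ.continuous)).continuousOn)

theorem wi_eq {A A' : P2 → P2} {B B' φ η : P2 → ℝ} (hA : Continuous A) (hB : Continuous B)
    (hA' : Continuous A') (hB' : Continuous B') (hφ : ContDiff ℝ ∞ φ) (hη : ContDiff ℝ ∞ η)
    (h : ∀ y ∈ cell, η =ᶠ[𝓝 y] φ ∨ (A y = A' y ∧ B y = B' y)) (h0 : WI A B η = 0)
    (h0' : WI A' B' η = 0) : WI A B φ = WI A' B' φ := by
  have : WI A B φ - WI A' B' φ = WI A B η - WI A' B' η := by
    rw [WI, WI, WI, WI, ← integral_sub (wi_int hA hB hφ) (wi_int hA' hB' hφ),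
      ← integral_sub (wi_int hA hB hη) (wi_int hA' hB' hη)]
    refine setIntegral_congr_fun meas_cell fun y hy => ?_
    rcases h y hy with h | h
    · simp only [grad_congr h, h.eq_of_nhds]
    · simp only [h.1, h.2, sub_self]
  linarith

/-- phase of a character -/
def ph (k : ℤ × ℤ) (y : P2) : ℝ := 2 * π * (k.1 * y.1 + k.2 * y.2)

theorem ph_smooth (k : ℤ × ℤ) : ContDiff ℝ ∞ (ph k) := by
  unfold ph
  fun_prop

theorem ph_der (k : ℤ × ℤ) (y : P2) : HasFDerivAt (ph k)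
    ((2 * π) • ((k.1 : ℝ) • ContinuousLinearMap.fst ℝ ℝ ℝ +
      (k.2 : ℝ) • ContinuousLinearMap.snd ℝ ℝ ℝ)) y :=
  ((hasFDerivAt_fst.const_mul _).add (hasFDerivAt_snd.const_mul _)).const_mul _

theorem grad_cos (k : ℤ × ℤ) (y : P2) : grad (fun x => Real.cos (ph k x)) y =
    (-Real.sin (ph k y) * (2 * π * k.1), -Real.sin (ph k y) * (2 * π * k.2)) := by
  simp [grad, d1, d2, (ph_der k y).cos.fderiv]

theorem grad_sin (k : ℤ × ℤ) (y : P2) : grad (fun x => Real.sin (ph k x)) y =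
    (Real.cos (ph k y) * (2 * π * k.1), Real.cos (ph k y) * (2 * π * k.2)) := by
  simp [grad, d1, d2, (ph_der k y).sin.fderiv]

theorem ex_neg (k : ℤ × ℤ) (y : P2) :
    ex (-k) y = (Real.cos (ph k y) : ℂ) - Real.sin (ph k y) * Complex.I := by
  have : 2 * (π : ℂ) * Complex.I * (((-k).1 : ℂ) * y.1 + ((-k).2 : ℂ) * y.2) =
      -(ph k y : ℂ) * Complex.I := by
    simp only [ph, Prod.fst_neg, Prod.snd_neg]
    push_cast
    ring
  rw [ex, this, Complex.exp_mul_I, Complex.cos_neg, Complex.sin_neg]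
  push_cast
  ring

theorem eqn_wi {A : P2 → P2} {B : P2 → ℝ} (hA : Continuous A) (hB : Continuous B) (k : ℤ × ℤ) :
    2 * π * Complex.I * (k.1 * fc (fun y => (A y).1) k + k.2 * fc (fun y => (A y).2) k) - fc B k =
      -(WI A B fun x => Real.cos (ph k x) : ℝ) +
        Complex.I * (WI A B fun x => Real.sin (ph k x) : ℝ) := by
  have he : Continuous (ex (-k)) := by unfold ex; fun_prop
  have i : ∀ f : P2 → ℝ, Continuous f → IntegrableOn (fun y => (f y : ℂ) * ex (-k) y) cell :=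
    fun f hf => int_cell ((Complex.continuous_ofReal.comp hf).mul he).continuousOn
  have i1 := (i _ hA.fst).const_mul (k.1 : ℂ)
  have i2 := (i _ hA.snd).const_mul (k.2 : ℂ)
  have i3 := (wi_int hA hB (ph_smooth k).cos).ofReal (𝕜 := ℂ)
  have i4 := ((wi_int hA hB (ph_smooth k).sin).ofReal (𝕜 := ℂ)).const_mul Complex.I
  have i5 : Integrable (fun a => 2 * π * Complex.I * ((k.1 : ℂ) * (((A a).1 : ℂ) * ex (-k) a) +
      k.2 * (((A a).2 : ℂ) * ex (-k) a))) (volume.restrict cell) := (i1.add i2).const_mul _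
  rw [fc, fc, fc, WI, WI, ← integral_complex_ofReal, ← integral_complex_ofReal,
    ← integral_const_mul, ← integral_const_mul, ← integral_add i1 i2, ← integral_const_mul,
    ← integral_sub i5 (i _ hB), ← integral_neg, ← integral_const_mul]
  refine Eq.trans ?_ (integral_add i3.neg i4)
  refine integral_congr_ae (Eventually.of_forall fun y => ?_)
  simp only [grad_cos, grad_sin, ex_neg, dot]
  push_cast
  linear_combination (-(2 * π * Complex.sin (ph k y) * (k.1 * (A y).1 + k.2 * (A y).2))) *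
    Complex.I_mul_I

theorem cont_FP : Continuous fun q : Q5 => FP q.1 q.2.1 q.2.2 := by
  unfold FP dot
  fun_prop (disch := intro _; positivity)

theorem cont_FZ : Continuous fun q : Q5 => FZ q.1 q.2.1 q.2.2 := by
  unfold FZ dot
  fun_prop (disch := intro _; positivity)

theorem cont_t (a : Par) (l : P2) {X g G : P2 → P2} {b V : P2 → ℝ} (hX : Continuous X)
    (hb : Continuous b) (hg : Continuous g) (hV : Continuous V) (hG : Continuous G)
    (hJ : ∀ y, 1 + dot l (g y) ≠ 0) :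
    Continuous (fun y => tA a l (X y) (b y) (g y) (V y) (G y)) ∧
      Continuous fun y => tB a l (X y) (b y) (g y) (V y) (G y) := by
  have hQ : Continuous fun y => tQ a l (X y) (b y) (g y) (V y) (G y) := by
    unfold tQ
    unfold dot at hJ ⊢
    fun_prop (disch := exact hJ)
  have h1 : Continuous fun y => FP (tQ a l (X y) (b y) (g y) (V y) (G y)).1
    (tQ a l (X y) (b y) (g y) (V y) (G y)).2.1 (tQ a l (X y) (b y) (g y) (V y) (G y)).2.2 :=
    cont_FP.comp hQ
  have h2 : Continuous fun y => FZ (tQ a l (X y) (b y) (g y) (V y) (G y)).1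
    (tQ a l (X y) (b y) (g y) (V y) (G y)).2.1 (tQ a l (X y) (b y) (g y) (V y) (G y)).2.2 :=
    cont_FZ.comp hQ
  exact ⟨((continuous_const.add (cont_dot continuous_const hg)).smul h1).sub
    ((cont_dot hg h1).smul continuous_const),
    ((continuous_const.add (cont_dot continuous_const hg)).mul continuous_const).mul h2⟩

/-- the periodised data of the transformed equation -/
def pA (a : Par) (l : P2) (β χ w : P2 → ℝ) (y : P2) : P2 :=
  tA a l (per (fun x => χ x • x) y) (per β y) (grad (per β) y) (per (fun x => χ x * w x) y)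
    (grad (per fun x => χ x * w x) y)

/-- the periodised source of the transformed equation -/
def pB (a : Par) (l : P2) (β χ w : P2 → ℝ) (y : P2) : ℝ :=
  tB a l (per (fun x => χ x • x) y) (per β y) (grad (per β) y) (per (fun x => χ x * w x) y)
    (grad (per fun x => χ x * w x) y)

theorem sp_smul {χ : P2 → ℝ} (hs : Sp χ) : Sp fun x : P2 => χ x • x :=
  fun x hx => by simp [hs x hx]

theorem p_cont (a : Par) {l : P2} {β χ w : P2 → ℝ} (hβ : Bump (1 / 16) (1 / 8) β)
    (hχ : Bump (1 / 4) (5 / 16) χ) (hw : C1 w) (hJ : ∀ y, 1 + dot l (grad β y) ≠ 0) :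
    Continuous (pA a l β χ w) ∧ Continuous (pB a l β χ w) := by
  have sβ := hβ.sp (by norm_num)
  have sχ := hχ.sp le_rfl
  refine cont_t a l (per_cont (sp_smul sχ) (hχ.smooth.continuous.smul continuous_id))
    (per_cont sβ hβ.smooth.continuous) ?_
    (per_cont (sp_mul sχ w) (cut_diff hχ.smooth sχ hw).continuous) ?_ fun y => ?_
  · rw [grad_per sβ]
    exact per_cont sβ.grad (smooth_grad hβ.smooth).continuous
  · rw [grad_per (sp_mul sχ w)]
    exact per_cont (sp_mul sχ w).grad (cut_cont hχ.smooth sχ hw)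
  · rw [grad_per sβ]
    exact hJ _

theorem p_zero (a : Par) {l : P2} {β χ w η : P2 → ℝ} (hβ : Bump (1 / 16) (1 / 8) β)
    (hχ : Bump (1 / 4) (5 / 16) χ)
    (hw : WeakG (fun q => tA a l q.1 (β q.1) (grad β q.1) q.2.1 q.2.2)
      (fun q => tB a l q.1 (β q.1) (grad β q.1) q.2.1 q.2.2) w (ball 0 8))
    (hη : ContDiff ℝ ∞ η) (h0 : ∀ x, 7 / 32 < ‖x‖ → η x = 0) :
    WI (pA a l β χ w) (pB a l β χ w) η = 0 := by
  have sβ := hβ.sp (by norm_num)
  have sχ := hχ.sp le_rfl
  have sη : Sp η := fun x hx => h0 x (by linarith)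
  obtain ⟨K, hK⟩ := ContDiff.lipschitzWith_of_hasCompactSupport sη.compact hη (by simp)
  have off : ∀ y, ¬ ‖y‖ ≤ 7 / 32 → grad η y = 0 ∧ η y = 0 := fun y hy =>
    ⟨grad_off fun h => hy (mem_closedBall_zero_iff.1 (tsupp h0 h)), h0 y (not_le.1 hy)⟩
  rw [← hw η K hK sη.compact ((tsupp h0).trans (closedBall_subset_ball (by norm_num))),
    ← setIntegral_eq_integral_of_forall_compl_eq_zero (s := cell), WI]
  · refine setIntegral_congr_fun meas_cell fun y _ => ?_
    by_cases hy : ‖y‖ ≤ 7 / 32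
    · have h1 := hχ.one y (by linarith)
      have h2 : (fun x => χ x * w x) =ᶠ[𝓝 y] w := h1.mono fun x hx => by simp [hx]
      have hy' : ‖y‖ < 11 / 16 := by linarith
      simp only [pA, pB, grad_per sβ, grad_per (sp_mul sχ w), per_eq0 (sp_smul sχ) hy',
        per_eq0 sβ hy', per_eq0 sβ.grad hy', per_eq0 (sp_mul sχ w) hy',
        per_eq0 (sp_mul sχ w).grad hy', grad_congr h2, h1.eq_of_nhds, one_smul, one_mul]
    · simp [off y hy, dot_zero_right]
  · intro y hy
    have : ¬ ‖y‖ ≤ 7 / 32 := fun h => by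
      have h1 := abs_le.1 ((abs_fst_le y).trans h)
      have h2 := abs_le.1 ((abs_snd_le y).trans h)
      exact hy ⟨⟨by linarith, by linarith⟩, by linarith, by linarith⟩
    simp [off y this, dot_zero_right]

theorem p_far (a : Par) (l : P2) {β χ w w' : P2 → ℝ} (hβ : Bump (1 / 16) (1 / 8) β)
    (hχ : Bump (1 / 4) (5 / 16) χ) (he : ∀ x, 1 / 8 < ‖x‖ → w x = w' x) {y : P2} (hy : y ∈ cell)
    (hy' : 1 / 8 < ‖y‖) :
    pA a l β χ w y = pA a 0 β χ w' y ∧ pB a l β χ w y = pB a 0 β χ w' y := by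
  have sβ := hβ.sp (by norm_num)
  have sχ := hχ.sp le_rfl
  have h1 : ‖y‖ < 11 / 16 := (cell_norm hy).trans_lt (by norm_num)
  have h2 : (fun x => χ x * w x) =ᶠ[𝓝 y] fun x => χ x * w' x :=
    (ev_far hy').mono fun x hx => by simp only [he x hx]
  simp only [pA, pB, grad_per sβ, grad_per (sp_mul sχ _), per_eq0 sβ h1, per_eq0 sβ.grad h1,
    per_eq0 (sp_mul sχ _) h1, per_eq0 (sp_mul sχ _).grad h1, grad_congr h2, he y hy',
    hβ.zero y hy', hβ.gz hy']
  simp [tA, tB, tQ, dot_zero_left, dot_zero_right]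

theorem eqn_eq (a : Par) {l : P2} {β χ w w' : P2 → ℝ} (hβ : Bump (1 / 16) (1 / 8) β)
    (hχ : Bump (1 / 4) (5 / 16) χ) (hc : C1 w) (hc' : C1 w') (hJ : ∀ y, 1 + dot l (grad β y) ≠ 0)
    (hw : WeakG (fun q => tA a l q.1 (β q.1) (grad β q.1) q.2.1 q.2.2)
      (fun q => tB a l q.1 (β q.1) (grad β q.1) q.2.1 q.2.2) w (ball 0 8))
    (hw' : WeakG (fun q => tA a 0 q.1 (β q.1) (grad β q.1) q.2.1 q.2.2)
      (fun q => tB a 0 q.1 (β q.1) (grad β q.1) q.2.1 q.2.2) w' (ball 0 8))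
    (he : ∀ x, 1 / 8 < ‖x‖ → w x = w' x) (k : ℤ × ℤ) :
    eqn a l (per fun x => χ x • x) (per β) (per fun x => χ x * w x) k =
      eqn a 0 (per fun x => χ x • x) (per β) (per fun x => χ x * w' x) k := by
  obtain ⟨ψ, hψ⟩ := exists_bump (r := 3 / 16) (R := 7 / 32) (by norm_num) (by norm_num)
  obtain ⟨c1, c2⟩ := p_cont a hβ hχ hc hJ
  obtain ⟨c3, c4⟩ := p_cont a (l := 0) hβ hχ hc' fun y => by simp [dot_zero_left]
  have key : ∀ φ, ContDiff ℝ ∞ φ →
      WI (pA a l β χ w) (pB a l β χ w) φ = WI (pA a 0 β χ w') (pB a 0 β χ w') φ := fun φ hφ => by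
    have s : ContDiff ℝ ∞ fun x => ψ x * φ x := hψ.smooth.mul hφ
    have z : ∀ x, 7 / 32 < ‖x‖ → ψ x * φ x = 0 := fun x hx => by simp [hψ.zero x hx]
    refine wi_eq c1 c2 c3 c4 hφ s (fun y hy => ?_) (p_zero a hβ hχ hw s z)
      (p_zero a hβ hχ hw' s z)
    by_cases h : ‖y‖ < 3 / 16
    · exact Or.inl ((hψ.one y h).mono fun x hx => by simp [hx])
    · exact Or.inr (p_far a l hβ hχ he hy (by linarith))
  refine (eqn_wi c1 c2 k).trans (Eq.trans ?_ (eqn_wi c3 c4 k).symm)
  rw [key _ (ph_smooth k).cos, key _ (ph_smooth k).sin]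

end Pool.Agent.Lib.MP_16d934_gt.AReg
end
end

-- part Pool.Agent.Lib.MP_16d934_gt.AReg
section

/-! Lipschitz weak solutions of the minimal surface equation are analytic. -/

set_option autoImplicit false

open Set Metric Filter Topology MeasureTheory
open scoped ContDiff NNReal Real

noncomputable section

namespace Pool.Agent.Lib.MP_16d934_gt

namespace AReg

/-- scaled flux -/
def sA (a : Par) (q : Q5) : P2 :=
  FP (a.1 + a.2.2.2 • q.1) (a.2.1 + a.2.2.2 * (dot a.2.2.1 q.1 + q.2.1)) (a.2.2.1 + q.2.2)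

/-- scaled source -/
def sB (a : Par) (q : Q5) : ℝ := a.2.2.2 *
  FZ (a.1 + a.2.2.2 • q.1) (a.2.1 + a.2.2.2 * (dot a.2.2.1 q.1 + q.2.1)) (a.2.2.1 + q.2.2)

theorem chg (hC : ChgS) (a : Par) {w β : P2 → ℝ} {L K : ℝ≥0} {l : P2} (hw : LipschitzWith L w)
    (hβ : Bump (1 / 16) (1 / 8) β) (hK : LipschitzWith K β) (hl : (K : ℝ) * ‖l‖ < 1)
    (h : WeakG (sA a) (sB a) w (ball 0 8)) :
    WeakG (fun q => tA a l q.1 (β q.1) (grad β q.1) q.2.1 q.2.2)
      (fun q => tB a l q.1 (β q.1) (grad β q.1) q.2.1 q.2.2) (fun x => w (x + β x • l))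
      (ball 0 8) := by
  refine weak_congr (hC _ _ w β _ L K l isOpen_ball hw (hβ.smooth.of_le (by simp)) hK
    (hβ.sp (by norm_num)).compact ((tsupp hβ.zero).trans (closedBall_subset_ball (by norm_num)))
    hl h) subset_rfl fun y _ => ?_
  simp only [tA, tB, tQ, sA, sB, cQ, add_sub_assoc, mul_assoc, and_self]

/-- small Lipschitz solutions of the scaled equation -/
theorem core (hH : HoleS) (hS : SecS) (hF : FourS) (hC : ChgS) (hT : StrS) (hW : WienS) (R : ℝ)
    (N : ℕ) : ∃ (κ : ℝ≥0) (η C : ℝ), 0 < κ ∧ 0 < η ∧ ∀ (a : Par) (w : P2 → ℝ), ParB R η a →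
      LipschitzWith κ w → w 0 = 0 → WeakG (sA a) (sB a) w (ball 0 8) →
      AnalyticAt ℝ w 0 ∧ ∀ k ≤ N, ‖iteratedFDeriv ℝ k w 0‖ ≤ C := by
  obtain ⟨β, hβ⟩ := exists_bump (r := 1 / 16) (R := 1 / 8) (by norm_num) (by norm_num)
  obtain ⟨χ, hχ⟩ := exists_bump (r := 1 / 4) (R := 5 / 16) (by norm_num) (by norm_num)
  have sβ := hβ.sp (by norm_num)
  have sχ := hχ.sp le_rfl
  obtain ⟨K, hK⟩ := ContDiff.lipschitzWith_of_hasCompactSupport sβ.compact hβ.smooth (by simp)
  obtain ⟨lam, Lam, η2, hlam, hη2, hStr⟩ := hT β hβ.smooth R 16 (1 : ℝ≥0)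
  obtain ⟨σ, C2, hσ, hσ1, hHole⟩ := hH lam Lam 16 1 hlam
  obtain ⟨C3, hSec⟩ := hS lam Lam 16 1 σ C2 hlam hσ hσ1
  obtain ⟨e1, p1, w1⟩ := wn_smooth hF (a := fun x => χ x * x.1) (hχ.smooth.mul contDiff_fst)
    (sp_mul sχ _)
  obtain ⟨e2, p2, w2⟩ := wn_smooth hF (a := fun x => χ x * x.2) (hχ.smooth.mul contDiff_snd)
    (sp_mul sχ _)
  obtain ⟨e3, p3, w3⟩ := wn_smooth hF hβ.smooth sβ
  obtain ⟨e4, p4, w4⟩ := wn_smooth hF (a := d1 β) (smooth_grad hβ.smooth).fst sβ.d1
  obtain ⟨e5, p5, w5⟩ := wn_smooth hF (a := d2 β) (smooth_grad hβ.smooth).snd sβ.d2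
  obtain ⟨η, hη, CW, hWien⟩ := hW (per fun x => χ x • x) (per β) (e1 + e2 + e3 + e4 + e5) R N
    (wn_mono w1 (by linarith)) (wn_mono w2 (by linarith)) (wn_mono w3 (by linarith))
    (by rw [d1_per sβ]; exact wn_mono w4 (by linarith))
    (by rw [d2_per sβ]; exact wn_mono w5 (by linarith))
  obtain ⟨κ1, hκ1, H1⟩ := wn_der hF hχ.smooth sχ (ContinuousLinearMap.fst ℝ ℝ ℝ) abs_fst_le C2 C3
    hσ hσ1 hη
  obtain ⟨κ2, hκ2, H2⟩ := wn_der hF hχ.smooth sχ (ContinuousLinearMap.snd ℝ ℝ ℝ) abs_snd_le C2 C3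
    hσ hσ1 hη
  obtain ⟨κ, hκ, k0, k1, k2⟩ : ∃ κ : ℝ≥0, 0 < κ ∧ (κ : ℝ) * 2 ≤ 1 ∧ (κ : ℝ) * 2 ≤ κ1 ∧
      (κ : ℝ) * 2 ≤ κ2 := by
    have : 0 < min 1 (min κ1 κ2) / 2 := by positivity
    refine ⟨.mk _ this.le, this, ?_, ?_, ?_⟩ <;> rw [NNReal.coe_mk, div_mul_cancel₀ _ two_ne_zero]
    exacts [min_le_left _ _, (min_le_right _ _).trans (min_le_left _ _),
      (min_le_right _ _).trans (min_le_right _ _)]
  refine ⟨κ, min η 1, CW, hκ, by positivity, fun a w ha hw hw0 hwk => ?_⟩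
  have ha1 : ParB R 1 a := ⟨ha.1, ha.2.1, ha.2.2.1, ha.2.2.2.trans (min_le_right _ _)⟩
  have haη : ParB R η a := ⟨ha.1, ha.2.1, ha.2.2.1, ha.2.2.2.trans (min_le_left _ _)⟩
  have K0 := K.coe_nonneg
  have κ0 := κ.coe_nonneg
  set δ := min η2 (1 / (K + 1)) with hδ
  have hδ0 : 0 < δ := by positivity
  have hl : ∀ l ∈ ball (0 : P2) δ, ‖l‖ ≤ η2 ∧ (K : ℝ) * ‖l‖ < 1 ∧ ‖l‖ ≤ 1 := fun l hl => by
    have h1 := mem_ball_zero_iff.1 hl
    have h2 : ‖l‖ < 1 / (K + 1) := h1.trans_le (min_le_right _ _)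
    rw [lt_div_iff₀ (by positivity)] at h2
    have := norm_nonneg l
    exact ⟨h1.le.trans (min_le_left _ _), by nlinarith, by nlinarith⟩
  have F : ∀ l ∈ ball (0 : P2) δ, C1 (fun x => w (x + β x • l)) ∧
      WeakG (fun q => tA a l q.1 (β q.1) (grad β q.1) q.2.1 q.2.2)
        (fun q => tB a l q.1 (β q.1) (grad β q.1) q.2.1 q.2.2) (fun x => w (x + β x • l))
        (ball 0 8) ∧ Wn (d1 (per fun x => χ x * w (x + β x • l))) η ∧
      Wn (d2 (per fun x => χ x * w (x + β x • l))) η := fun l hl' => by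
    obtain ⟨l1, l2, l3⟩ := hl l hl'
    have hΦ : LipschitzWith 2 fun x => x + β x • l := LipschitzWith.of_dist_le_mul fun x y => by
      have h1 := hK.dist_le_mul x y
      have h2 := dist_add_add_le x (β x • l) y (β y • l)
      have h3 : dist (β x • l) (β y • l) = dist (β x) (β y) * ‖l‖ := by
        rw [dist_eq_norm, ← sub_smul, norm_smul, dist_eq_norm]
      have h4 := mul_le_mul_of_nonneg_right h1 (norm_nonneg l)
      have h5 := mul_le_mul_of_nonneg_right l2.le (dist_nonneg (x := x) (y := y))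
      rw [NNReal.coe_two]
      nlinarith
    have L2 : LipschitzWith (κ * 2) fun x => w (x + β x • l) := hw.comp hΦ
    have L1 : LipschitzWith 1 fun x => w (x + β x • l) := L2.weaken (by exact_mod_cast k0)
    have bd : ∀ x, |w (x + β x • l)| ≤ κ * (‖x‖ + 1) := fun x => by
      have h1 := hw.dist_le_mul (x + β x • l) 0
      rw [hw0, dist_zero_right, dist_zero_right, Real.norm_eq_abs] at h1
      have h2 : ‖β x • l‖ ≤ 1 := by
        rw [norm_smul, Real.norm_eq_abs]
        exact mul_le_one₀ (hβ.bd x) (norm_nonneg _) l3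
      exact h1.trans (mul_le_mul_of_nonneg_left ((norm_add_le _ _).trans (by linarith)) κ0)
    have bd' : ∀ x ∈ ball (0 : P2) 8, |w (x + β x • l)| ≤ 16 := fun x hx => by
      have := mem_ball_zero_iff.1 hx
      nlinarith [bd x, norm_nonneg x]
    have wk := chg hC a hw hβ hK l2 hwk
    have r1 := hHole _ _ _ (hStr a l ha1 l1) L1 bd' wk
    have r2 := hSec _ _ _ (hStr a l ha1 l1) L1 bd' wk r1
    have sm : ∀ κ' : ℝ, (κ : ℝ) * 2 ≤ κ' → ∀ y : P2, ‖y‖ ≤ 1 → |w (y + β y • l)| ≤ κ' ∧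
        ‖grad (fun x => w (x + β x • l)) y‖ ≤ κ' := fun κ' hκ' y hy =>
      ⟨by nlinarith [bd y], (norm_grad_le_lip L2 y).trans (by exact_mod_cast hκ')⟩
    refine ⟨⟨r1.1, reg1_cont r1 hσ⟩, wk, ?_, ?_⟩
    · rw [d1_per (sp_mul sχ _)]
      exact H1 _ L1 r1 r2 (sm _ k1)
    · rw [d2_per (sp_mul sχ _)]
      exact H2 _ L1 r1 r2 (sm _ k2)
  have G := hWien a (fun l => per fun x => χ x * w (x + β x • l)) δ haη hδ0 fun l hl' => by
    obtain ⟨f1, f2, f3, f4⟩ := F l hl'
    obtain ⟨g1, g2, -⟩ := F 0 (mem_ball_self hδ0)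
    have hn : ‖((1 / 2, 1 / 2) : P2)‖ = 1 / 2 := by simp
    refine ⟨per_diff (sp_mul sχ _) (cut_diff hχ.smooth sχ f1), per_per _, ?_, f3, f4,
      fun k _ => eqn_eq a hβ hχ f1 g1 (fun y => ?_) f2 g2 (fun x hx => ?_) k⟩
    · rw [per_eq0 (sp_mul sχ _) (by rw [hn]; norm_num)]
      rw [sχ _ (by rw [hn]; norm_num), zero_mul]
    · have h1 := (fderiv ℝ β y).le_opNorm l
      have h2 := mul_le_mul_of_nonneg_right (norm_fderiv_le_of_lipschitz ℝ hK (x₀ := y))
        (norm_nonneg l)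
      rw [fderiv_eq_dot, Real.norm_eq_abs] at h1
      linarith [(abs_le.1 h1).1, (hl l hl').2.1]
    · simp [hβ.zero x hx]
  have e : (fun l => per (fun x => χ x * w (x + β x • l)) 0) = w := by
    ext l
    rw [per_eq0 (sp_mul sχ _) (by norm_num), (hχ.one 0 (by norm_num)).eq_of_nhds,
      (hβ.one 0 (by norm_num)).eq_of_nhds]
    simp
  rwa [e] at G

/-- Hoelder continuity of the gradient at the base point -/
theorem first (hH : HoleS) (hT : StrS) (L : ℝ≥0) (R : ℝ) : ∃ σ C : ℝ, 0 < σ ∧ 0 ≤ C ∧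
    ∀ (u : P2 → ℝ) (y0 : P2) (e : ℝ), 0 < e → e ≤ 1 → ‖y0‖ ≤ R → |u y0| ≤ R → LipschitzWith L u →
      Weak u (ball y0 (8 * e)) → ∀ x ∈ ball (0 : P2) 6, DifferentiableAt ℝ u (y0 + e • x) ∧
        ‖grad u (y0 + e • x) - grad u y0‖ ≤ C * ‖x‖ ^ σ := by
  obtain ⟨lam, Lam, η, hlam, hη, hStr⟩ := hT (fun _ => 0) contDiff_const R (8 * L) L
  obtain ⟨σ, C, hσ, -, hHole⟩ := hH lam Lam (8 * L) L hlam
  refine ⟨σ, |C|, hσ, abs_nonneg _, fun u y0 e he he1 hy hz hu hw x hx => ?_⟩
  have hd : ∀ x y : P2, dist (e⁻¹ * (u (y0 + e • x) - u y0)) (e⁻¹ * (u (y0 + e • y) - u y0)) ≤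
      L * dist x y := fun x y => by
    have h1 := hu.dist_le_mul (y0 + e • x) (y0 + e • y)
    rw [dist_add_left, dist_smul₀, Real.norm_of_nonneg he.le, Real.dist_eq] at h1
    rw [Real.dist_eq, ← mul_sub, sub_sub_sub_cancel_right, abs_mul, abs_of_pos (inv_pos.2 he),
      inv_mul_le_iff₀ he]
    linarith
  have r := hHole _ _ (fun x => e⁻¹ * (u (y0 + e • x) - u y0))
    (hStr (y0, u y0, 0, e) 0 ⟨hy, hz, by simpa using (norm_nonneg _).trans hy,
      by simpa [abs_of_pos he] using he1⟩ (by simpa using hη.le))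
    (LipschitzWith.of_dist_le_mul hd) (fun y hy => by
      have h1 := hd y 0
      have h2 := mem_ball_zero_iff.1 hy
      simp only [smul_zero, add_zero, sub_self, mul_zero, dist_zero_right, Real.norm_eq_abs] at h1
      nlinarith [L.coe_nonneg])
    (weak_congr (weak_scale hw y0 (u y0) he) (fun y hy => by
      rw [mem_preimage, mem_ball, dist_self_add_left, norm_smul, Real.norm_of_nonneg he.le,
        mul_comm]
      exact mul_lt_mul_of_pos_right (mem_ball_zero_iff.1 hy) he) fun y _ => by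
      simp [tA, tB, tQ, grad_const, dot_zero_left])
  constructor
  · have h1 : u = fun y => u y0 + e * ((fun x => e⁻¹ * (u (y0 + e • x) - u y0))
        (e⁻¹ • (y - y0))) := by
      ext y
      simp [smul_smul, he.ne']
    have h2 : DifferentiableAt ℝ (fun x => e⁻¹ * (u (y0 + e • x) - u y0))
        (e⁻¹ • (y0 + e • x - y0)) := by
      simpa [smul_smul, he.ne'] using r.1 x hx
    rw [h1]
    exact ((h2.comp (y0 + e • x)
      ((differentiableAt_id.sub_const y0).const_smul e⁻¹)).const_mul e).const_add _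
  · have := r.2.1 x hx 0 (mem_ball_self (by norm_num))
    rw [grad_scale u y0 _ he.ne', grad_scale u y0 _ he.ne', smul_zero, add_zero, sub_zero] at this
    exact this.trans (mul_le_mul_of_nonneg_right (le_abs_self _) (by positivity))

/-- a linear form -/
def dotL (p : P2) : P2 →L[ℝ] ℝ :=
  p.1 • ContinuousLinearMap.fst ℝ ℝ ℝ + p.2 • ContinuousLinearMap.snd ℝ ℝ ℝ

theorem dotL_apply (p x : P2) : dotL p x = dot p x := by simp [dotL, dot]

theorem grad_sub_dot {f : P2 → ℝ} {x : P2} (hf : DifferentiableAt ℝ f x) (p : P2) :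
    grad (fun x => f x - dotL p x) x = grad f x - p := by
  simp only [grad, d1, d2, (hf.hasFDerivAt.fun_sub (dotL p).hasFDerivAt).fderiv]
  ext <;> simp [dotL]

theorem iter_smul (f : P2 → ℝ) (c : ℝ) (i : ℕ) :
    iteratedFDeriv ℝ i (fun z => f (c • z)) = fun x => c ^ i • iteratedFDeriv ℝ i f (c • x) := by
  induction i with
  | zero => ext; simp
  | succ i hi =>
    ext x v
    have h := congrFun (fderiv_const_smul_field (𝕜 := ℝ)
      (f := fun x => iteratedFDeriv ℝ i f (c • x)) (c ^ i)) x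
    rw [Pi.smul_apply, fderiv_comp_smul, smul_smul, ← pow_succ] at h
    rw [iteratedFDeriv_succ_apply_left, hi, _root_.smul_apply,
      iteratedFDeriv_succ_apply_left]
    exact congrArg (fun φ : P2 →L[ℝ] P2 [×i]→L[ℝ] ℝ => φ (v 0) (Fin.tail v)) h

theorem iter_dot (p : P2) {k : ℕ} (hk : 1 ≤ k) : ‖iteratedFDeriv ℝ k (dotL p) 0‖ ≤ 2 * ‖p‖ := by
  obtain ⟨j, rfl⟩ := Nat.exists_eq_add_of_le' hk
  have h : fderiv ℝ (dotL p) = fun _ => dotL p := funext fun _ => (dotL p).fderiv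
  rw [← norm_iteratedFDeriv_fderiv, h]
  rcases eq_or_ne j 0 with rfl | hj
  · rw [norm_iteratedFDeriv_zero]
    exact ContinuousLinearMap.opNorm_le_bound _ (by positivity) fun v => by
      rw [dotL_apply]
      exact abs_dot_le p v
  · rw [iteratedFDeriv_const_of_ne hj]
    simp

theorem unscale {u Z : P2 → ℝ} {y0 : P2} {z0 e : ℝ} (he : 0 < e) (hZ : AnalyticAt ℝ Z 0)
    (h : u =ᶠ[𝓝 y0] fun y => z0 + e * Z (e⁻¹ • (y - y0))) : AnalyticAt ℝ u y0 ∧
      ∀ k, 1 ≤ k → ‖iteratedFDeriv ℝ k u y0‖ = e / e ^ k * ‖iteratedFDeriv ℝ k Z 0‖ := by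
  have h1 : AnalyticAt ℝ (fun y => Z (e⁻¹ • (y - y0))) y0 :=
    AnalyticAt.comp_of_eq hZ (by fun_prop) (by simp)
  refine ⟨(analyticAt_const.add (analyticAt_const.mul h1)).congr h.symm, fun k hk => ?_⟩
  have h2 : ContDiffAt ℝ k (fun y => Z (e⁻¹ • (y - y0))) y0 := h1.contDiffAt
  have h3 := iteratedFDeriv_const_smul_apply' (a := e) h2
  have h4 := iteratedFDeriv_comp_sub (𝕜 := ℝ) (f := fun z => Z (e⁻¹ • z)) k y0 y0
  simp only [smul_eq_mul] at h3
  rw [(h.iteratedFDeriv ℝ k).eq_of_nhds, fun_iteratedFDeriv_add_apply contDiffAt_const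
    (contDiffAt_const.mul h2), iteratedFDeriv_const_of_ne (by omega), h3, h4, iter_smul]
  simp [norm_smul, abs_of_pos he, div_eq_mul_inv, mul_assoc]

theorem exists_small {σ C κ η : ℝ} (hσ : 0 < σ) (hκ : 0 < κ) (hη : 0 < η) :
    ∃ d : ℝ, 0 < d ∧ d ≤ 1 / 2 ∧ d ≤ η ∧ 2 * (C * (8 * d) ^ σ) ≤ κ := by
  have hc : Continuous fun d : ℝ => 2 * (C * (8 * d) ^ σ) :=
    continuous_const.mul (continuous_const.mul
      ((continuous_const.mul continuous_id).rpow_const fun _ => Or.inr hσ.le))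
  have h1 : ∀ᶠ d in 𝓝 (0 : ℝ), 2 * (C * (8 * d) ^ σ) < κ :=
    hc.continuousAt.eventually_lt continuousAt_const (by simpa [Real.zero_rpow hσ.ne'] using hκ)
  have h2 : ∀ᶠ d in 𝓝[>] (0 : ℝ), 0 < d ∧ d < 1 / 2 ∧ d < η ∧ 2 * (C * (8 * d) ^ σ) < κ :=
    eventually_mem_nhdsWithin.and (((eventually_lt_nhds (by norm_num)).and
      ((eventually_lt_nhds hη).and h1)).filter_mono nhdsWithin_le_nhds)
  obtain ⟨d, a, b, c, e⟩ := h2.exists
  exact ⟨d, a, b.le, c.le, e.le⟩

end AReg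

open AReg in
theorem regS (hH : HoleS) (hS : SecS) (hF : FourS) (hC : ChgS) (hT : StrS) (hW : WienS) :
    RegS := by
  intro L R N
  obtain ⟨σ, C1, hσ, hC1, H1⟩ := first hH hT L R
  obtain ⟨κ, η, C2, hκ, hη, H2⟩ := core hH hS hF hC hT hW (R + L) N
  obtain ⟨d, hd, d1, d2, d3⟩ := exists_small (C := C1) hσ (NNReal.coe_pos.2 hκ) hη
  refine ⟨(8 / d) ^ N * (2 * L + C2), fun u0 y0 ε hε hε1 hy hz hL hw0 => ?_⟩
  obtain ⟨u, hu, hE⟩ := hL.extend_real
  have L0 := L.coe_nonneg
  have ev : ∀ y ∈ ball y0 ε, u0 =ᶠ[𝓝 y] u := fun y hy =>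
    hE.eventuallyEq_of_mem (isOpen_ball.mem_nhds hy)
  have hw : Weak u (ball y0 ε) := weak_congr hw0 subset_rfl fun y hy => by
    simp only [grad_congr (ev y hy), hE hy, and_self]
  rw [hE (mem_ball_self hε)] at hz
  have G1 := H1 u y0 (ε / 8) (by positivity) (by linarith) hy hz hu
    (by rwa [show 8 * (ε / 8) = ε by ring])
  set e := ε / 8 * d with he'
  have he : 0 < e := by positivity
  have ed : e ≤ d := by rw [he']; nlinarith
  set p := grad u y0 with hp
  have hpL : ‖p‖ ≤ L := norm_grad_le_lip hu y0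
  set v : P2 → ℝ := fun x => e⁻¹ * (u (y0 + e • x) - u y0) with hv
  have G2 : ∀ x ∈ ball (0 : P2) 8, DifferentiableAt ℝ v x ∧ 2 * ‖grad v x - p‖ ≤ κ :=
    fun x hx => by
      have h1 : ‖d • x‖ ≤ 8 * d := by
        rw [norm_smul, Real.norm_of_nonneg hd.le, mul_comm]
        exact mul_le_mul_of_nonneg_right (mem_ball_zero_iff.1 hx).le hd.le
      obtain ⟨h2, h3⟩ := G1 (d • x) (mem_ball_zero_iff.2 (by linarith))
      rw [smul_smul, ← he'] at h2 h3
      refine ⟨((h2.comp x ((differentiableAt_id.const_smul e).const_add y0)).sub_const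
        _).const_mul _, ?_⟩
      rw [hv, grad_scale u y0 _ he.ne']
      have h4 : C1 * ‖d • x‖ ^ σ ≤ C1 * (8 * d) ^ σ := by gcongr
      linarith
  have G3 : LipschitzOnWith κ (fun x => v x - dotL p x) (ball 0 8) :=
    (convex_ball (0 : P2) 8).lipschitzOnWith_of_nnnorm_fderiv_le (𝕜 := ℝ)
      (fun x hx => (G2 x hx).1.sub (dotL p).differentiableAt) fun x hx => by
      have := norm_fderiv_le (fun x => v x - dotL p x) x
      rw [grad_sub_dot (G2 x hx).1] at this
      exact_mod_cast this.trans (G2 x hx).2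
  obtain ⟨w, hwL, hwE⟩ := G3.extend_real
  have z8 : (0 : P2) ∈ ball (0 : P2) 8 := mem_ball_self (by norm_num)
  obtain ⟨A1, A2⟩ := H2 (y0, u y0, p, e) w
    ⟨hy.trans (by linarith), hz.trans (by linarith), hpL.trans (by linarith [norm_nonneg y0]),
      by rw [abs_of_pos he]; linarith⟩ hwL (by rw [← hwE z8]; simp [hv])
    (weak_congr (weak_scale hw y0 (u y0) he) (fun y hy => by
      have := mem_ball_zero_iff.1 hy
      rw [mem_preimage, mem_ball, dist_self_add_left, norm_smul, Real.norm_of_nonneg he.le]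
      have h2 : e * 16 ≤ ε := by rw [he']; nlinarith
      nlinarith) fun y hy => by
      have h1 : grad w y = grad v y - p :=
        (grad_congr (hwE.eventuallyEq_of_mem (isOpen_ball.mem_nhds hy))).symm.trans
          (grad_sub_dot (G2 y hy).1 p)
      simp only [sA, sB, h1, ← hwE hy, dotL_apply, add_sub_cancel, hv, and_self])
  have hZ : AnalyticAt ℝ (fun x => dotL p x + w x) 0 := ((dotL p).analyticAt 0).add A1
  have hev : u0 =ᶠ[𝓝 y0] fun y => u y0 + e * (fun x => dotL p x + w x) (e⁻¹ • (y - y0)) := by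
    have hc : ContinuousAt (fun y : P2 => e⁻¹ • (y - y0)) y0 := by fun_prop
    have h1 : ∀ᶠ y in 𝓝 y0, e⁻¹ • (y - y0) ∈ ball (0 : P2) 8 :=
      hc.eventually (by simpa using ev_near (R := 8) (x := 0) (by norm_num))
    filter_upwards [h1, ev y0 (mem_ball_self hε)] with y hy hy'
    simp [hy', ← hwE hy, hv, smul_smul, he.ne']
  obtain ⟨B1, B2⟩ := unscale he hZ hev
  refine ⟨B1, fun k hk hkN => ?_⟩
  have b1 : ‖iteratedFDeriv ℝ k (fun x => dotL p x + w x) 0‖ ≤ 2 * L + C2 := by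
    rw [fun_iteratedFDeriv_add_apply (dotL p).contDiff.contDiffAt A1.contDiffAt]
    linarith [norm_add_le (iteratedFDeriv ℝ k (dotL p) 0) (iteratedFDeriv ℝ k w 0),
      iter_dot p hk, A2 k hkN]
  have b2 : e / e ^ k ≤ (8 / d) ^ N * (ε / ε ^ k) := by
    have h1 : 1 ≤ 8 / d := by rw [le_div_iff₀ hd]; linarith
    have h2 : e / e ^ k = d / 8 * (8 / d) ^ k * (ε / ε ^ k) := by
      rw [he', mul_pow, div_pow, div_pow]
      field_simp
    have h3 : (8 / d) ^ k ≤ (8 / d) ^ N := pow_le_pow_right₀ h1 hkN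
    have h4 : d / 8 * (8 / d) ^ k ≤ 1 * (8 / d) ^ N := by gcongr; linarith
    rw [h2]
    gcongr
    linarith
  rw [B2 k hk]
  calc _ ≤ (8 / d) ^ N * (ε / ε ^ k) * (2 * L + C2) := by gcongr
    _ = _ := by ring

end Pool.Agent.Lib.MP_16d934_gt
end
end
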