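import Pool.Agent.Lib.MP_16d934_gt.StC

-- part Pool.Agent.Lib.MP_16d934_gt.AHole
section

/-! Hole filling: Lipschitz weak solutions have a Hoelder continuous gradient. -/

set_option autoImplicit false

open Set Metric Filter Topology MeasureTheory Asymptotics
open scoped ContDiff InnerProductSpace NNReal Real

noncomputable section

namespace Pool.Agent.Lib.MP_16d934_gt

namespace AHole

/-! ### Gradients -/

lemma abs_dot_le (a b : P2) : |dot a b| ≤ 2 * ‖a‖ * ‖b‖ := by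
  have h1 : |a.1| ≤ ‖a‖ := norm_fst_le a
  have h2 : |a.2| ≤ ‖a‖ := norm_snd_le a
  have h3 : |b.1| ≤ ‖b‖ := norm_fst_le b
  have h4 : |b.2| ≤ ‖b‖ := norm_snd_le b
  have h5 : |a.1 * b.1| ≤ ‖a‖ * ‖b‖ := by rw [abs_mul]; gcongr
  have h6 : |a.2 * b.2| ≤ ‖a‖ * ‖b‖ := by rw [abs_mul]; gcongr
  have := abs_add_le (a.1 * b.1) (a.2 * b.2)
  unfold dot
  linarith

lemma norm_e1 : ‖((1, 0) : P2)‖ = 1 := by simp [Prod.norm_def]
lemma norm_e2 : ‖((0, 1) : P2)‖ = 1 := by simp [Prod.norm_def]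

lemma norm_grad_le {u : P2 → ℝ} {L : ℝ≥0} (hu : LipschitzWith L u) (y : P2) : ‖grad u y‖ ≤ L := by
  have h := norm_fderiv_le_of_lipschitz ℝ (x₀ := y) hu
  have h1 := (fderiv ℝ u y).le_opNorm (1, 0)
  have h2 := (fderiv ℝ u y).le_opNorm (0, 1)
  rw [norm_e1, mul_one] at h1
  rw [norm_e2, mul_one] at h2
  exact norm_prod_le_iff.2 ⟨h1.trans h, h2.trans h⟩

lemma measurable_grad (u : P2 → ℝ) : Measurable (grad u) :=
  (measurable_fderiv_apply_const ℝ u _).prodMk (measurable_fderiv_apply_const ℝ u _)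

lemma measurable_dot {a b : P2 → P2} (ha : Measurable a) (hb : Measurable b) :
    Measurable fun y => dot (a y) (b y) :=
  (ha.fst.mul hb.fst).add (ha.snd.mul hb.snd)

lemma grad_of_eventuallyEq {f : P2 → ℝ} {y : P2} {c : ℝ} (h : f =ᶠ[𝓝 y] fun _ => c) :
    grad f y = 0 := by
  simp [grad, d1, d2, h.fderiv_eq]

lemma grad_of_notMem {f : P2 → ℝ} {y : P2} (h : y ∉ tsupport f) : grad f y = 0 := by
  simp [grad, d1, d2, fderiv_of_notMem_tsupport ℝ h]

lemma grad_comp_sub (f : P2 → ℝ) (h y : P2) : grad (fun x => f (x - h)) y = grad f (y - h) := by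
  simp only [grad, d1, d2, fderiv_comp_sub]

lemma lip_mul {f g : P2 → ℝ} {K K' : ℝ≥0} {a b : ℝ} (hf : LipschitzWith K f)
    (hg : LipschitzWith K' g) (ha : ∀ x, |f x| ≤ a) (hb : ∀ x, |g x| ≤ b) :
    ∃ K'', LipschitzWith K'' fun x => f x * g x := by
  have ha0 : 0 ≤ a := (abs_nonneg _).trans (ha 0)
  have hb0 : 0 ≤ b := (abs_nonneg _).trans (hb 0)
  refine ⟨⟨a * K' + b * K, by positivity⟩, LipschitzWith.of_dist_le_mul fun x y => ?_⟩
  have h1 := hf.dist_le_mul x y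
  have h2 := hg.dist_le_mul x y
  rw [Real.dist_eq] at h1 h2 ⊢
  have e : f x * g x - f y * g y = f x * (g x - g y) + g y * (f x - f y) := by ring
  have h3 : |f x * (g x - g y)| ≤ a * (K' * dist x y) := by
    rw [abs_mul]; gcongr; exact ha x
  have h4 : |g y * (f x - f y)| ≤ b * (K * dist x y) := by
    rw [abs_mul]; gcongr; exact hb y
  have h5 := abs_add_le (f x * (g x - g y)) (g y * (f x - f y))
  rw [e]
  change _ ≤ (a * K' + b * K) * dist x y
  linarith

lemma vol_closedBall (x : P2) {r : ℝ} (hr : 0 ≤ r) :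
    volume.real (closedBall x r) = (2 * r) ^ 2 := by
  rw [Measure.real, ← closedBall_prod_same, Measure.volume_eq_prod, Measure.prod_prod,
    Real.volume_closedBall, Real.volume_closedBall, ← ENNReal.ofReal_mul (by positivity),
    ENNReal.toReal_ofReal (by positivity), sq]

lemma intOn {f : P2 → ℝ} (hf : Measurable f) {C : ℝ} (hC : ∀ y, |f y| ≤ C) {s : Set P2}
    (hs : Bornology.IsBounded s) : IntegrableOn f s :=
  Measure.integrableOn_of_bounded hs.measure_lt_top.ne hf.aestronglyMeasurable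
    (Eventually.of_forall hC)

/-! ### The weak equation for differences -/

/-- the weak equation with given coefficient functions -/
def Wk (a : P2 → P2) (b : P2 → ℝ) (U : Set P2) : Prop :=
  ∀ (η : P2 → ℝ) (L : ℝ≥0), LipschitzWith L η → HasCompactSupport η → tsupport η ⊆ U →
    ∫ y, (dot (a y) (grad η y) + b y * η y) = 0

lemma integrable_test {a : P2 → P2} {b : P2 → ℝ} {Lam : ℝ} (ha : Measurable a)
    (hb : Measurable b) (ha' : ∀ y, ‖a y‖ ≤ Lam) (hb' : ∀ y, |b y| ≤ Lam) {η : P2 → ℝ} {K : ℝ≥0}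
    (hη : LipschitzWith K η) (hc : HasCompactSupport η) :
    Integrable fun y => dot (a y) (grad η y) + b y * η y := by
  obtain ⟨C, hC⟩ := hη.continuous.bounded_above_of_compact_support hc
  have hL : 0 ≤ Lam := (norm_nonneg _).trans (ha' 0)
  refine IntegrableOn.integrable_of_forall_notMem_eq_zero (s := tsupport η)
    (intOn (C := 2 * Lam * K + Lam * C) ?_ ?_ hc.isCompact.isBounded) ?_
  · exact (measurable_dot ha (measurable_grad η)).add (hb.mul hη.continuous.measurable)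
  · intro y
    have h1 : |dot (a y) (grad η y)| ≤ 2 * Lam * K :=
      (abs_dot_le _ _).trans (by gcongr; exacts [ha' y, norm_grad_le hη y])
    have h2 : |b y * η y| ≤ Lam * C := by
      rw [abs_mul]; gcongr; exacts [hb' y, hC y]
    exact (abs_add_le _ _).trans (add_le_add h1 h2)
  · intro y hy
    rw [grad_of_notMem hy, image_eq_zero_of_notMem_tsupport hy]
    simp [dot]

lemma wk_diff {a : P2 → P2} {b : P2 → ℝ} {Lam : ℝ} (ha : Measurable a)
    (hb : Measurable b) (ha' : ∀ y, ‖a y‖ ≤ Lam) (hb' : ∀ y, |b y| ≤ Lam)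
    (hw : Wk a b (ball 0 8)) {h : P2} (hh : ‖h‖ ≤ 1 / 2) :
    Wk (fun y => a (y + h) - a y) (fun y => b (y + h) - b y) (ball 0 (15 / 2)) := by
  intro η K hη hc hs
  have h1 := hw η K hη hc (hs.trans (ball_subset_ball (by norm_num)))
  have hη' : LipschitzWith K fun x => η (x - h) := by
    refine LipschitzWith.of_dist_le_mul fun y z => ?_
    simpa using hη.dist_le_mul (y - h) (z - h)
  have hs' : tsupport (fun x => η (x - h)) ⊆ ball 0 8 := by
    intro y hy
    have h2 : y - h ∈ tsupport η :=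
      tsupport_comp_subset_preimage η (f := fun x : P2 => x - h) (by fun_prop) hy
    have h3 := hs h2
    rw [mem_ball_zero_iff] at h3 ⊢
    have := norm_add_le (y - h) h
    rw [sub_add_cancel] at this
    linarith
  have h2 := hw _ K hη' (hc.comp_homeomorph (Homeomorph.subRight h)) hs'
  rw [← integral_add_right_eq_self _ h] at h2
  simp only [grad_comp_sub, add_sub_cancel_right] at h2
  have i1 := integrable_test ha hb ha' hb' hη hc
  have i2 := integrable_test (a := fun y => a (y + h)) (b := fun y => b (y + h))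
    (ha.comp (measurable_add_const h)) (hb.comp (measurable_add_const h))
    (fun y => ha' _) (fun y => hb' _) hη hc
  have h3 := integral_sub i2 i1
  rw [h1, h2, sub_zero] at h3
  rw [← h3]
  refine integral_congr_ae (Eventually.of_forall fun y => ?_)
  simp only [dot, Prod.fst_sub, Prod.snd_sub]
  ring

/-! ### Cut-off functions -/

def cut (x : P2) (r s : ℝ) (y : P2) : ℝ := max 0 (min 1 ((s - r)⁻¹ * (s - dist y x)))

lemma cut_nonneg (x : P2) (r s : ℝ) (y : P2) : 0 ≤ cut x r s y := le_max_left _ _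

lemma cut_le_one (x : P2) (r s : ℝ) (y : P2) : cut x r s y ≤ 1 :=
  max_le zero_le_one (min_le_left _ _)

lemma cut_lip (x : P2) {r s : ℝ} (h : r < s) :
    LipschitzWith ⟨(s - r)⁻¹, by have := sub_pos.2 h; positivity⟩ (cut x r s) := by
  refine LipschitzWith.const_max (LipschitzWith.const_min ?_ 1) 0
  refine LipschitzWith.of_dist_le_mul fun y z => ?_
  have h0 : 0 < (s - r)⁻¹ := inv_pos.2 (sub_pos.2 h)
  rw [Real.dist_eq, ← mul_sub, abs_mul, abs_of_pos h0]
  change _ ≤ (s - r)⁻¹ * dist y z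
  gcongr
  have := abs_dist_sub_le z y x
  rw [dist_comm z y] at this
  have e : s - dist y x - (s - dist z x) = dist z x - dist y x := by ring
  rwa [e]

lemma cut_one {x : P2} {r s : ℝ} (h : r < s) {y : P2} (hy : y ∈ ball x r) : cut x r s y = 1 := by
  have h0 : 0 < s - r := sub_pos.2 h
  have h1 : 1 ≤ (s - r)⁻¹ * (s - dist y x) := by
    rw [mem_ball] at hy
    rw [inv_mul_eq_div, le_div_iff₀ h0]
    linarith
  rw [cut, min_eq_left h1, max_eq_right zero_le_one]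

lemma cut_zero {x : P2} {r s : ℝ} (h : r < s) {y : P2} (hy : y ∉ closedBall x s) :
    cut x r s y = 0 := by
  have h0 : 0 < (s - r)⁻¹ := inv_pos.2 (sub_pos.2 h)
  rw [mem_closedBall, not_le] at hy
  refine max_eq_left ((min_le_right _ _).trans ?_)
  exact mul_nonpos_of_nonneg_of_nonpos h0.le (by linarith)

/-! ### The Caccioppoli inequality -/

lemma alg {lam Lam H N z v G P1 P2 β : ℝ} (hl : 0 < lam) (hL : 0 ≤ Lam) (hH : 0 ≤ H) (hN : 0 ≤ N)
    (hz : 0 ≤ z) (hz1 : z ≤ 1) (hv : |v| ≤ 2 * H) (hG : 0 ≤ G)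
    (h1 : lam * N ^ 2 - 2 * Lam * H * N ≤ P1) (h2 : |P2| ≤ 2 * (Lam * (H + N)) * G)
    (h3 : |β| ≤ Lam * (H + N)) :
    lam / 2 * (z * N) ^ 2 - (16 * Lam ^ 2 / lam + 4 * Lam) * ((v * G) ^ 2 + H ^ 2) ≤
      z ^ 2 * P1 + 2 * z * v * P2 + β * (z ^ 2 * v) := by
  set s := z * N with hs
  set t := |v| * G with ht
  have hs0 : 0 ≤ s := by positivity
  have ht0 : 0 ≤ t := by positivity
  have e0 : (v * G) ^ 2 = t ^ 2 := by rw [ht, mul_pow, mul_pow, sq_abs]
  have a1 : lam * s ^ 2 - 2 * Lam * H * s ≤ z ^ 2 * P1 := by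
    have : z ^ 2 * (lam * N ^ 2 - 2 * Lam * H * N) ≤ z ^ 2 * P1 := by gcongr
    have h5 : z * (2 * Lam * H * s) ≤ 1 * (2 * Lam * H * s) := by gcongr
    have e : z ^ 2 * (lam * N ^ 2 - 2 * Lam * H * N) = lam * s ^ 2 - z * (2 * Lam * H * s) := by
      rw [hs]; ring
    linarith
  have a2 : -(4 * Lam * H * t + 4 * Lam * s * t) ≤ 2 * z * v * P2 := by
    have h5 : |2 * z * v * P2| ≤ 2 * z * |v| * (2 * (Lam * (H + N)) * G) := by
      rw [abs_mul, abs_mul, abs_of_nonneg (by positivity : 0 ≤ 2 * z)]; gcongr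
    have h6 : z * (4 * Lam * H * t) ≤ 1 * (4 * Lam * H * t) := by gcongr
    have e : 2 * z * |v| * (2 * (Lam * (H + N)) * G) = z * (4 * Lam * H * t) + 4 * Lam * s * t := by
      rw [hs, ht]; ring
    linarith [neg_abs_le (2 * z * v * P2)]
  have a3 : -(2 * Lam * H ^ 2 + 2 * Lam * H * s) ≤ β * (z ^ 2 * v) := by
    have h5 : |β * (z ^ 2 * v)| ≤ Lam * (H + N) * (z ^ 2 * (2 * H)) := by
      rw [abs_mul, abs_mul, abs_of_nonneg (by positivity : 0 ≤ z ^ 2)]; gcongr
    have h6 : z ^ 2 * (2 * Lam * H ^ 2) ≤ 1 ^ 2 * (2 * Lam * H ^ 2) := by gcongr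
    have h7 : z * (2 * Lam * H * s) ≤ 1 * (2 * Lam * H * s) := by gcongr
    have e : Lam * (H + N) * (z ^ 2 * (2 * H)) =
        z ^ 2 * (2 * Lam * H ^ 2) + z * (2 * Lam * H * s) := by rw [hs]; ring
    linarith [neg_abs_le (β * (z ^ 2 * v))]
  have b : ∀ w : ℝ, 4 * Lam * w * s ≤ lam / 4 * s ^ 2 + 16 * Lam ^ 2 / lam * w ^ 2 := by
    intro w
    have : 0 ≤ (lam * s - 8 * Lam * w) ^ 2 / (4 * lam) := by positivity
    have e : (lam * s - 8 * Lam * w) ^ 2 / (4 * lam) =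
        lam / 4 * s ^ 2 + 16 * Lam ^ 2 / lam * w ^ 2 - 4 * Lam * w * s := by
      field_simp; ring
    linarith
  have b3 : 4 * Lam * H * t ≤ 2 * Lam * H ^ 2 + 2 * Lam * t ^ 2 := by
    nlinarith [mul_nonneg hL (sq_nonneg (H - t))]
  have b4 : 0 ≤ Lam * t ^ 2 := by positivity
  rw [e0]
  nlinarith [b H, b t]

lemma grad_test {ζ w : P2 → ℝ} {y : P2} (c : ℝ) (hζ : DifferentiableAt ℝ ζ y)
    (hw : DifferentiableAt ℝ w y) :
    grad (fun x => ζ x * ζ x * (w x - c)) y =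
      ζ y ^ 2 • grad w y + (2 * ζ y * (w y - c)) • grad ζ y := by
  have h := ((hζ.hasFDerivAt.mul hζ.hasFDerivAt).mul (hw.hasFDerivAt.sub_const c)).fderiv
  have e : (fun x => ζ x * ζ x * (w x - c)) = ζ * ζ * fun x => w x - c := rfl
  rw [e]
  ext <;> simp [grad, d1, d2, h] <;> ring

lemma cacc {lam Lam H : ℝ} (hl : 0 < lam) (hL : 0 ≤ Lam) {a : P2 → P2} {b : P2 → ℝ} {C : ℝ}
    (ha : Measurable a) (hb : Measurable b) (ha' : ∀ y, ‖a y‖ ≤ C) (hb' : ∀ y, |b y| ≤ C)
    {U : Set P2} (hw : Wk a b U) {w : P2 → ℝ} {K : ℝ≥0} (hK : LipschitzWith K w)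
    (hH : ∀ y, |w y| ≤ H)
    (hs : ∀ᵐ y, y ∈ U → lam * ‖grad w y‖ ^ 2 - 2 * Lam * H * ‖grad w y‖ ≤ dot (a y) (grad w y) ∧
      ‖a y‖ ≤ Lam * (H + ‖grad w y‖) ∧ |b y| ≤ Lam * (H + ‖grad w y‖))
    {x : P2} {r s c : ℝ} (hr : 0 ≤ r) (hrs : r < s) (hU : closedBall x s ⊆ U) (hc : |c| ≤ H) :
    lam / 2 * ∫ y in ball x r, ‖grad w y‖ ^ 2 ≤ (16 * Lam ^ 2 / lam + 4 * Lam) *
      ((s - r)⁻¹ ^ 2 * (∫ y in closedBall x s \ ball x r, (w y - c) ^ 2) + H ^ 2 * (2 * s) ^ 2) := by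
  have hH0 : 0 ≤ H := (abs_nonneg _).trans hc
  set ζ := cut x r s with hζ
  have hζl := cut_lip x hrs
  rw [← hζ] at hζl
  have hζ1 : ∀ y, |ζ y| ≤ 1 := fun y => by
    rw [abs_of_nonneg (cut_nonneg _ _ _ _)]; exact cut_le_one _ _ _ _
  have hv : ∀ y, |w y - c| ≤ 2 * H := fun y => (abs_sub _ _).trans (by linarith [hH y])
  obtain ⟨K1, hK1⟩ := lip_mul hζl hζl hζ1 hζ1
  have hwc : LipschitzWith K fun y => w y - c := by
    refine LipschitzWith.of_dist_le_mul fun y z => ?_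
    simpa using hK.dist_le_mul y z
  obtain ⟨K2, hK2⟩ := lip_mul hK1 hwc (a := 1) (fun y => by
    rw [abs_mul]; exact mul_le_one₀ (hζ1 y) (abs_nonneg _) (hζ1 y)) hv
  have hz : ∀ y ∉ closedBall x s, ζ y * ζ y * (w y - c) = 0 := fun y hy => by
    rw [hζ, cut_zero hrs hy]; simp
  have hcs : HasCompactSupport fun y => ζ y * ζ y * (w y - c) :=
    HasCompactSupport.intro (isCompact_closedBall x s) hz
  have hts : tsupport (fun y => ζ y * ζ y * (w y - c)) ⊆ closedBall x s :=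
    closure_minimal (fun y hy => by by_contra h; exact hy (hz y h)) isClosed_closedBall
  have h0 := hw _ K2 hK2 hcs (hts.trans hU)
  have i0 := integrable_test ha hb ha' hb' hK2 hcs
  set K1' := 16 * Lam ^ 2 / lam + 4 * Lam with hK1'
  have hK10 : 0 ≤ K1' := by positivity
  have m1 : MeasurableSet (ball x r) := measurableSet_ball
  have m2 : MeasurableSet (closedBall x s \ ball x r) := measurableSet_closedBall.diff m1
  have m3 : MeasurableSet (closedBall x s) := measurableSet_closedBall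
  have i1 : Integrable ((ball x r).indicator fun y => ‖grad w y‖ ^ 2) := by
    rw [integrable_indicator_iff m1]
    refine intOn ((measurable_grad w).norm.pow_const 2) (C := K ^ 2) (fun y => ?_) isBounded_ball
    rw [abs_of_nonneg (by positivity)]
    gcongr
    exact norm_grad_le hK y
  have i2 : Integrable ((closedBall x s \ ball x r).indicator fun y => (w y - c) ^ 2) := by
    rw [integrable_indicator_iff m2]
    refine intOn (hwc.continuous.measurable.pow_const 2) (C := (2 * H) ^ 2) (fun y => ?_)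
      (isBounded_closedBall.subset sdiff_subset)
    rw [abs_pow]
    gcongr
    exact hv y
  have i3 : Integrable ((closedBall x s).indicator fun _ => H ^ 2) := by
    rw [integrable_indicator_iff m3]
    exact intOn measurable_const (fun _ => le_rfl) isBounded_closedBall
  have key : ∫ y, (lam / 2 * (ball x r).indicator (fun y => ‖grad w y‖ ^ 2) y -
      K1' * ((s - r)⁻¹ ^ 2 * (closedBall x s \ ball x r).indicator (fun y => (w y - c) ^ 2) y +
        (closedBall x s).indicator (fun _ => H ^ 2) y)) ≤ 0 := by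
    rw [← h0]
    refine integral_mono_ae ((i1.const_mul _).sub (((i2.const_mul _).add i3).const_mul _)) i0 ?_
    filter_upwards [hs, hζl.ae_differentiableAt (μ := volume), hK.ae_differentiableAt (μ := volume)]
      with y hy hdζ hdw
    rw [grad_test c hdζ hdw]
    have e : dot (a y) (ζ y ^ 2 • grad w y + (2 * ζ y * (w y - c)) • grad ζ y) +
        b y * (ζ y * ζ y * (w y - c)) = ζ y ^ 2 * dot (a y) (grad w y) +
        2 * ζ y * (w y - c) * dot (a y) (grad ζ y) + b y * (ζ y ^ 2 * (w y - c)) := by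
      simp only [dot, Prod.fst_add, Prod.snd_add, Prod.smul_fst, Prod.smul_snd, smul_eq_mul]
      ring
    rw [e]
    by_cases hy1 : y ∈ closedBall x s
    · obtain ⟨h1, h2, h3⟩ := hy (hU hy1)
      have h4 := alg (P2 := dot (a y) (grad ζ y)) hl hL hH0 (norm_nonneg (grad w y))
        (cut_nonneg x r s y) (cut_le_one x r s y) (hv y) (norm_nonneg (grad ζ y)) h1
        ((abs_dot_le _ _).trans (by gcongr)) h3
      refine le_trans ?_ h4
      rw [indicator_of_mem hy1]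
      by_cases hy2 : y ∈ ball x r
      · have g0 : grad ζ y = 0 := grad_of_eventuallyEq (c := 1) (by
          filter_upwards [isOpen_ball.mem_nhds hy2] with z hz using cut_one hrs hz)
        rw [indicator_of_mem hy2, indicator_of_notMem (fun h => h.2 hy2), cut_one hrs hy2, g0]
        simp [hK1']
      · rw [indicator_of_notMem hy2, indicator_of_mem (show y ∈ closedBall x s \ ball x r from
          ⟨hy1, hy2⟩)]
        have g1 : ‖grad ζ y‖ ≤ (s - r)⁻¹ := norm_grad_le hζl y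
        have g2 : ((w y - c) * ‖grad ζ y‖) ^ 2 ≤ (s - r)⁻¹ ^ 2 * (w y - c) ^ 2 := by
          rw [mul_pow, mul_comm]; gcongr
        have g3 : 0 ≤ lam / 2 * (cut x r s y * ‖grad w y‖) ^ 2 := by positivity
        have g4 : K1' * (((w y - c) * ‖grad ζ y‖) ^ 2 + H ^ 2) ≤
            K1' * ((s - r)⁻¹ ^ 2 * (w y - c) ^ 2 + H ^ 2) := by gcongr
        linarith
    · have hy2 : y ∉ ball x r := fun h =>
        hy1 (ball_subset_closedBall.trans (closedBall_subset_closedBall hrs.le) h)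
      rw [indicator_of_notMem hy1, indicator_of_notMem hy2, indicator_of_notMem (fun h => hy1 h.1),
        hζ, cut_zero hrs hy1]
      simp
  have i4 : Integrable fun y => (s - r)⁻¹ ^ 2 *
      (closedBall x s \ ball x r).indicator (fun y => (w y - c) ^ 2) y +
        (closedBall x s).indicator (fun _ => H ^ 2) y := (i2.const_mul _).add i3
  rw [integral_sub (i1.const_mul _) (i4.const_mul _), integral_const_mul,
    integral_const_mul, integral_add (i2.const_mul _) i3, integral_const_mul,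
    integral_indicator m1, integral_indicator m2, integral_indicator_const _ m3,
    vol_closedBall x (hr.trans hrs.le), smul_eq_mul, mul_comm ((2 * s) ^ 2)] at key
  linarith

/-! ### Iteration -/

lemma iter {K a b : ℝ} (hK : 0 ≤ K) (ha : 0 ≤ a) (hb : 0 ≤ b) {φ : ℝ → ℝ}
    (h1 : ∀ r ∈ Ioc (0 : ℝ) 1, φ r ≤ a)
    (h2 : ∀ r ∈ Ioc (0 : ℝ) (1 / 2), φ r ≤ K * (φ (2 * r) - φ r) + b * r ^ 2) :
    ∀ r ∈ Ioc (0 : ℝ) 1, φ r ≤ (2 * a + 2 * b) * r ^ (1 / (2 * K + 2)) := by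
  set e := 1 / (2 * K + 2) with he
  have he0 : 0 < e := by positivity
  have he1 : e ≤ 1 := by rw [he, div_le_one (by positivity)]; linarith
  have hKe : K * e ≤ 1 / 2 := by
    rw [he, mul_one_div, div_le_iff₀ (by positivity)]; linarith
  have h2e : (2 : ℝ) ^ e ≤ 1 + e := by
    have := rpow_one_add_le_one_add_mul_self (s := 1) (by norm_num) he0.le he1
    rwa [one_add_one_eq_two, mul_one] at this
  have hre : ∀ r ∈ Ioc (0 : ℝ) 1, r ≤ r ^ e := fun r hr => by
    simpa using Real.rpow_le_rpow_of_exponent_ge hr.1 hr.2 he1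
  have base : ∀ r ∈ Ioc (0 : ℝ) 1, 1 / 2 ≤ r → φ r ≤ (2 * a + 2 * b) * r ^ e := by
    intro r hr h
    have h3 : (2 * a + 2 * b) * (1 / 2) ≤ (2 * a + 2 * b) * r ^ e := by
      gcongr; exact h.trans (hre r hr)
    linarith [h1 r hr]
  have main : ∀ n : ℕ, ∀ r ∈ Ioc (0 : ℝ) 1, (1 / 2) ^ n ≤ r → φ r ≤ (2 * a + 2 * b) * r ^ e := by
    intro n
    induction n with
    | zero => intro r hr h; exact base r hr (by rw [pow_zero] at h; linarith)
    | succ n ih =>
      intro r hr h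
      rcases le_total (1 / 2) r with h3 | h3
      · exact base r hr h3
      · have h4 := ih (2 * r) ⟨by linarith [hr.1], by linarith⟩ (by rw [pow_succ] at h; linarith)
        have h5 := h2 r ⟨hr.1, h3⟩
        rw [Real.mul_rpow (by norm_num) hr.1.le] at h4
        have h6 : 0 < r ^ e := Real.rpow_pos_of_pos hr.1 e
        have h7 : r ^ 2 ≤ r ^ e := le_trans (by nlinarith [hr.1, hr.2]) (hre r hr)
        set X := 2 * a + 2 * b with hX
        have hX0 : 0 ≤ X := by positivity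
        have h8 : K * φ (2 * r) ≤ K * (X * ((1 + e) * r ^ e)) := by
          refine mul_le_mul_of_nonneg_left (h4.trans ?_) hK
          gcongr
        have h9 : b * r ^ 2 ≤ X / 2 * r ^ e := by
          gcongr; rw [hX]; linarith
        have h10 : K * e * (X * r ^ e) ≤ 1 / 2 * (X * r ^ e) := by gcongr
        have h11 : (1 + K) * φ r ≤ (1 + K) * (X * r ^ e) := by nlinarith
        exact le_of_mul_le_mul_left h11 (by positivity)
  intro r hr
  obtain ⟨n, hn⟩ := exists_pow_lt_of_lt_one hr.1 (by norm_num : (1 / 2 : ℝ) < 1)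
  exact main n r hr hn.le

/-! ### From Hoelder difference quotients to a Hoelder gradient -/

section diff
variable {u : P2 → ℝ} {C σ : ℝ}

lemma lim_quot {x : P2} (hx : DifferentiableAt ℝ u x) (h : P2) :
    Tendsto (fun m : ℕ => (m : ℝ) * (u (x + (m : ℝ)⁻¹ • h) - u x)) atTop (𝓝 (fderiv ℝ u x h)) :=
  hx.hasFDerivAt.lim h (c := fun m : ℕ => (m : ℝ))
    (by simpa using tendsto_natCast_atTop_atTop (R := ℝ))

lemma taylor1 (hC : 0 ≤ C) (hσ : 0 < σ)
    (H : ∀ h : P2, ‖h‖ ≤ 1 / 2 → ∀ x ∈ ball (0 : P2) 6, ∀ x' ∈ ball (0 : P2) 6,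
      |u (x + h) - u x - (u (x' + h) - u x')| ≤ C * ‖h‖ * ‖x - x'‖ ^ σ)
    {x h : P2} (hx : DifferentiableAt ℝ u x) (hh : ‖h‖ ≤ 1 / 2) (hxh : ‖x‖ + ‖h‖ < 6) :
    |u (x + h) - u x - fderiv ℝ u x h| ≤ C * ‖h‖ * ‖h‖ ^ σ := by
  have hx6 : x ∈ ball (0 : P2) 6 := mem_ball_zero_iff.2 (by linarith [norm_nonneg h])
  refine le_of_tendsto (((tendsto_const_nhds (x := u (x + h) - u x)).sub (lim_quot hx h)).abs) ?_
  filter_upwards [eventually_ge_atTop 1] with m hm
  have hm1 : (1 : ℝ) ≤ m := by exact_mod_cast hm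
  have hm0 : (0 : ℝ) < m := by linarith
  set k : P2 := (m : ℝ)⁻¹ • h with hk
  have hkn : ‖k‖ = (m : ℝ)⁻¹ * ‖h‖ := by
    rw [hk, norm_smul, Real.norm_of_nonneg (by positivity)]
  have hk1 : ‖k‖ ≤ ‖h‖ := by
    rw [hkn]; exact mul_le_of_le_one_left (norm_nonneg _) (inv_le_one_of_one_le₀ hm1)
  have step : ∀ j : ℕ, j ≤ m →
      |u (x + (j : ℝ) • k) - u x - j * (u (x + k) - u x)| ≤ j * (C * ‖k‖ * ‖h‖ ^ σ) := by
    intro j
    induction j with
    | zero => intro _; simp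
    | succ j ih =>
      intro hj
      have hj' : (j : ℝ) ≤ m := by exact_mod_cast (Nat.le_succ j).trans hj
      have h1 : ‖(j : ℝ) • k‖ ≤ ‖h‖ := by
        rw [norm_smul, hkn, Real.norm_of_nonneg (by positivity), ← mul_assoc]
        refine mul_le_of_le_one_left (norm_nonneg _) ?_
        rw [← div_eq_mul_inv, div_le_one hm0]; exact hj'
      have h2 := H k (hk1.trans hh) (x + (j : ℝ) • k)
        (mem_ball_zero_iff.2 ((norm_add_le _ _).trans_lt (by linarith))) x hx6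
      rw [add_sub_cancel_left] at h2
      have h3 : C * ‖k‖ * ‖(j : ℝ) • k‖ ^ σ ≤ C * ‖k‖ * ‖h‖ ^ σ := by gcongr
      have h4 := ih ((Nat.le_succ j).trans hj)
      have e : u (x + ((j + 1 : ℕ) : ℝ) • k) - u x - ((j + 1 : ℕ) : ℝ) * (u (x + k) - u x) =
          (u (x + (j : ℝ) • k) - u x - j * (u (x + k) - u x)) +
          (u (x + (j : ℝ) • k + k) - u (x + (j : ℝ) • k) - (u (x + k) - u x)) := by
        push_cast
        rw [add_smul, one_smul, ← add_assoc]; ring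
      rw [e]
      refine (abs_add_le _ _).trans ?_
      push_cast
      linarith
  have h5 := step m le_rfl
  rw [hkn, hk, smul_smul, mul_inv_cancel₀ hm0.ne', one_smul] at h5
  refine h5.trans (le_of_eq ?_)
  field_simp

lemma differentiableAt_of {L : ℝ≥0} (hu : LipschitzWith L u) (hC : 0 ≤ C) (hσ : 0 < σ)
    (H : ∀ h : P2, ‖h‖ ≤ 1 / 2 → ∀ x ∈ ball (0 : P2) 6, ∀ x' ∈ ball (0 : P2) 6,
      |u (x + h) - u x - (u (x' + h) - u x')| ≤ C * ‖h‖ * ‖x - x'‖ ^ σ)
    {y : P2} (hy : y ∈ ball (0 : P2) 6) : DifferentiableAt ℝ u y := by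
  have hd : Dense {x | DifferentiableAt ℝ u x} :=
    Measure.dense_of_ae (hu.ae_differentiableAt (μ := volume))
  obtain ⟨x, hx, hxy⟩ := mem_closure_iff_seq_limit.1 (hd y)
  obtain ⟨T, -, φ, hφ, hT⟩ := tendsto_subseq_of_bounded
    (isBounded_closedBall (x := (0 : P2 →L[ℝ] ℝ)) (r := L)) (x := fun n => fderiv ℝ u (x n))
    fun n => mem_closedBall_zero_iff.2 (norm_fderiv_le_of_lipschitz ℝ hu)
  have hxφ : Tendsto (fun n => x (φ n)) atTop (𝓝 y) := hxy.comp hφ.tendsto_atTop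
  rw [mem_ball_zero_iff] at hy
  have key : ∀ h : P2, ‖h‖ ≤ 1 / 2 → ‖y‖ + ‖h‖ < 6 →
      |u (y + h) - u y - T h| ≤ C * ‖h‖ * ‖h‖ ^ σ := by
    intro h hh hyh
    have t1 : Tendsto (fun n => u (x (φ n) + h)) atTop (𝓝 (u (y + h))) :=
      (hu.continuous.tendsto _).comp (hxφ.add_const h)
    have t2 : Tendsto (fun n => u (x (φ n))) atTop (𝓝 (u y)) :=
      (hu.continuous.tendsto _).comp hxφ
    have t3 : Tendsto (fun n => fderiv ℝ u (x (φ n)) h) atTop (𝓝 (T h)) :=
      ((ContinuousLinearMap.apply ℝ ℝ h).continuous.tendsto T).comp hT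
    refine le_of_tendsto ((t1.sub t2).sub t3).abs ?_
    filter_upwards [(hxφ.norm.add_const ‖h‖).eventually (gt_mem_nhds hyh)] with n hn
    exact taylor1 hC hσ H (hx _) hh hn
  refine HasFDerivAt.differentiableAt (f' := T) ?_
  rw [hasFDerivAt_iff_isLittleO_nhds_zero, isLittleO_iff]
  intro c hc
  have t4 : Tendsto (fun h : P2 => C * ‖h‖ ^ σ) (𝓝 0) (𝓝 0) := by
    have : Continuous fun h : P2 => C * ‖h‖ ^ σ :=
      continuous_const.mul (continuous_norm.rpow_const fun _ => Or.inr hσ.le)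
    simpa [Real.zero_rpow hσ.ne'] using this.tendsto 0
  have t5 : Tendsto (fun h : P2 => ‖h‖) (𝓝 0) (𝓝 0) := tendsto_norm_zero
  filter_upwards [t4.eventually (gt_mem_nhds hc), t5.eventually (gt_mem_nhds (by norm_num :
    (0 : ℝ) < 1 / 2)), t5.eventually (gt_mem_nhds (sub_pos.2 hy))] with h h1 h2 h3
  refine (key h h2.le (by linarith)).trans ?_
  rw [mul_right_comm]
  gcongr

lemma fderiv_holder {L : ℝ≥0} (hu : LipschitzWith L u) (hC : 0 ≤ C) (hσ : 0 < σ)
    (H : ∀ h : P2, ‖h‖ ≤ 1 / 2 → ∀ x ∈ ball (0 : P2) 6, ∀ x' ∈ ball (0 : P2) 6,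
      |u (x + h) - u x - (u (x' + h) - u x')| ≤ C * ‖h‖ * ‖x - x'‖ ^ σ)
    {x x' : P2} (hx : x ∈ ball (0 : P2) 6) (hx' : x' ∈ ball (0 : P2) 6) {v : P2} (hv : ‖v‖ = 1) :
    |fderiv ℝ u x v - fderiv ℝ u x' v| ≤ C * ‖x - x'‖ ^ σ := by
  refine le_of_tendsto ((lim_quot (differentiableAt_of hu hC hσ H hx) v).sub
    (lim_quot (differentiableAt_of hu hC hσ H hx') v)).abs ?_
  filter_upwards [eventually_ge_atTop 2] with m hm
  have hm1 : (2 : ℝ) ≤ m := by exact_mod_cast hm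
  have hm0 : (0 : ℝ) < m := by linarith
  have hk : ‖(m : ℝ)⁻¹ • v‖ = (m : ℝ)⁻¹ := by
    rw [norm_smul, hv, mul_one, Real.norm_of_nonneg (by positivity)]
  have h1 := H ((m : ℝ)⁻¹ • v) (by rw [hk, one_div]; gcongr) x hx x' hx'
  rw [hk] at h1
  rw [← mul_sub, abs_mul, abs_of_pos hm0]
  calc _ ≤ m * (C * (m : ℝ)⁻¹ * ‖x - x'‖ ^ σ) := by gcongr
    _ = _ := by field_simp

end diff

/-! ### The structure conditions along a solution -/

lemma isClosed_KS (M L : ℝ) : IsClosed (KS M L) := by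
  unfold KS
  simp only [ofPred_and]
  refine (isClosed_le (by fun_prop) continuous_const).inter
    ((isClosed_le (by fun_prop) continuous_const).inter (isClosed_le (by fun_prop) continuous_const))

lemma contOn_of_lip {F : Type} [NormedAddCommGroup F] {A : Q5 → F} {S : Set Q5} {Lam : ℝ}
    (h : ∀ q ∈ S, ∀ q' ∈ S, ‖A q' - A q‖ ≤ Lam * ‖q' - q‖) : ContinuousOn A S := by
  refine LipschitzOnWith.continuousOn (K := Lam.toNNReal)
    (LipschitzOnWith.of_dist_le_mul fun q hq q' hq' => ?_)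
  rw [dist_eq_norm, dist_eq_norm]
  exact (h q' hq' q hq).trans (by gcongr; exact Real.le_coe_toNNReal Lam)

lemma exists_coef {A : Q5 → P2} {B : Q5 → ℝ} {u : P2 → ℝ} {lam Lam M : ℝ} {L : ℝ≥0}
    (hS : Str A B lam Lam M L) (hu : LipschitzWith L u) (hM : ∀ y ∈ ball (0 : P2) 8, |u y| ≤ M)
    (hw : WeakG A B u (ball 0 8)) (hL : 0 ≤ Lam) :
    ∃ (a : P2 → P2) (b : P2 → ℝ), Measurable a ∧ Measurable b ∧ (∀ y, ‖a y‖ ≤ Lam) ∧
      (∀ y, |b y| ≤ Lam) ∧ Wk a b (ball 0 8) ∧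
      ∀ y ∈ ball (0 : P2) 8, a y = A (y, u y, grad u y) ∧ b y = B (y, u y, grad u y) := by
  classical
  have hq : Measurable fun y : P2 => ((y, u y, grad u y) : Q5) :=
    measurable_id.prodMk (hu.continuous.measurable.prodMk (measurable_grad u))
  have hm := (isClosed_KS M L).measurableSet
  have hmem : ∀ y ∈ ball (0 : P2) 8, ((y, u y, grad u y) : Q5) ∈ KS M L := fun y hy =>
    ⟨(mem_ball_zero_iff.1 hy).le, hM y hy, norm_grad_le hu y⟩
  have heq : ∀ y ∈ ball (0 : P2) 8,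
      (KS M L).piecewise A (fun _ => 0) (y, u y, grad u y) = A (y, u y, grad u y) ∧
      (KS M L).piecewise B (fun _ => 0) (y, u y, grad u y) = B (y, u y, grad u y) := fun y hy =>
    ⟨piecewise_eq_of_mem _ _ _ (hmem y hy), piecewise_eq_of_mem _ _ _ (hmem y hy)⟩
  refine ⟨fun y => (KS M L).piecewise A (fun _ => 0) (y, u y, grad u y),
    fun y => (KS M L).piecewise B (fun _ => 0) (y, u y, grad u y),
    ((contOn_of_lip hS.lipA).measurable_piecewise continuousOn_const hm).comp hq,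
    ((contOn_of_lip (A := B) hS.lipB).measurable_piecewise continuousOn_const hm).comp hq,
    fun y => ?_, fun y => ?_, fun η K hη hc hs => ?_, heq⟩
  · by_cases h : ((y, u y, grad u y) : Q5) ∈ KS M L
    · simp only [piecewise_eq_of_mem _ _ _ h]; exact (hS.bdA _ h).1
    · simp only [piecewise_eq_of_notMem _ _ _ h, norm_zero]; exact hL
  · by_cases h : ((y, u y, grad u y) : Q5) ∈ KS M L
    · simp only [piecewise_eq_of_mem _ _ _ h]; exact (hS.bdA _ h).2
    · simp only [piecewise_eq_of_notMem _ _ _ h, abs_zero]; exact hL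
  · refine Eq.trans (integral_congr_ae (Eventually.of_forall fun y => ?_)) (hw η K hη hc hs)
    by_cases hy : y ∈ tsupport η
    · simp only [(heq y (hs hy)).1, (heq y (hs hy)).2]
    · simp [grad_of_notMem hy, image_eq_zero_of_notMem_tsupport hy, dot]

lemma struct_pt {A : Q5 → P2} {B : Q5 → ℝ} {lam Lam M L H : ℝ} (hS : Str A B lam Lam M L)
    (hL : 0 ≤ Lam) {x x' : P2} {z z' : ℝ} {p p' : P2} (h : ((x, z, p) : Q5) ∈ KS M L)
    (h' : ((x', z', p') : Q5) ∈ KS M L) (h1 : ‖x' - x‖ ≤ H) (h2 : |z' - z| ≤ H) :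
    lam * ‖p' - p‖ ^ 2 - 2 * Lam * H * ‖p' - p‖ ≤ dot (A (x', z', p') - A (x, z, p)) (p' - p) ∧
      ‖A (x', z', p') - A (x, z, p)‖ ≤ Lam * (H + ‖p' - p‖) ∧
      |B (x', z', p') - B (x, z, p)| ≤ Lam * (H + ‖p' - p‖) := by
  have hH : 0 ≤ H := (abs_nonneg _).trans h2
  have h'' : ((x', z', p) : Q5) ∈ KS M L := ⟨h'.1, h'.2.1, h.2.2⟩
  have n1 : ‖((x', z', p') : Q5) - (x, z, p)‖ ≤ H + ‖p' - p‖ :=
    norm_prod_le_iff.2 ⟨h1.trans (by linarith [norm_nonneg (p' - p)]),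
      norm_prod_le_iff.2 ⟨h2.trans (by linarith [norm_nonneg (p' - p)]),
        le_add_of_nonneg_left hH⟩⟩
  have n2 : ‖((x', z', p) : Q5) - (x, z, p)‖ ≤ H :=
    norm_prod_le_iff.2 ⟨h1, norm_prod_le_iff.2 ⟨h2, by simpa using hH⟩⟩
  refine ⟨?_, (hS.lipA _ h _ h').trans (by gcongr), (hS.lipB _ h _ h').trans (by gcongr)⟩
  have m1 := hS.mono x' z' p p' h'' h'
  have m2 : |dot (A (x', z', p) - A (x, z, p)) (p' - p)| ≤ 2 * (Lam * H) * ‖p' - p‖ :=
    (abs_dot_le _ _).trans (by gcongr; exact (hS.lipA _ h _ h'').trans (by gcongr))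
  have e : dot (A (x', z', p') - A (x, z, p)) (p' - p) =
      dot (A (x', z', p') - A (x', z', p)) (p' - p) +
        dot (A (x', z', p) - A (x, z, p)) (p' - p) := by
    simp only [dot, Prod.fst_sub, Prod.snd_sub]; ring
  rw [e]
  linarith [neg_abs_le (dot (A (x', z', p) - A (x, z, p)) (p' - p))]

lemma lip_shift {u : P2 → ℝ} {L : ℝ≥0} (hu : LipschitzWith L u) (h : P2) :
    LipschitzWith L fun y => u (y + h) :=
  LipschitzWith.of_dist_le_mul fun y z => by simpa using hu.dist_le_mul (y + h) (z + h)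

lemma ae_grad_diff {u : P2 → ℝ} {L : ℝ≥0} (hu : LipschitzWith L u) (h : P2) :
    ∀ᵐ y, grad (fun y => u (y + h) - u y) y = grad u (y + h) - grad u y := by
  filter_upwards [hu.ae_differentiableAt (μ := volume),
    (lip_shift hu h).ae_differentiableAt (μ := volume)] with y h1 h2
  have e := fderiv_fun_sub h2 h1
  rw [fderiv_comp_add_right] at e
  ext <;> simp [grad, d1, d2, e]

/-- the Caccioppoli inequality for differences of a solution -/
lemma cacc_diff {A : Q5 → P2} {B : Q5 → ℝ} {u : P2 → ℝ} {lam Lam M : ℝ} {L : ℝ≥0} (hl : 0 < lam)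
    (hS : Str A B lam Lam M L) (hu : LipschitzWith L u) (hM : ∀ y ∈ ball (0 : P2) 8, |u y| ≤ M)
    (hw : WeakG A B u (ball 0 8)) (hL : 0 ≤ Lam) {h : P2} (hh : ‖h‖ ≤ 1 / 2)
    {x : P2} {r s c : ℝ} (hr : 0 ≤ r) (hrs : r < s) (hU : closedBall x s ⊆ ball 0 (15 / 2))
    (hc : |c| ≤ (1 + L) * ‖h‖) :
    lam / 2 * ∫ y in ball x r, ‖grad (fun y => u (y + h) - u y) y‖ ^ 2 ≤
      (16 * Lam ^ 2 / lam + 4 * Lam) *
      ((s - r)⁻¹ ^ 2 * (∫ y in closedBall x s \ ball x r, (u (y + h) - u y - c) ^ 2) +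
        ((1 + L) * ‖h‖) ^ 2 * (2 * s) ^ 2) := by
  obtain ⟨a, b, ha, hb, ha', hb', hwk, heq⟩ := exists_coef hS hu hM hw hL
  have hH : ∀ y, |u (y + h) - u y| ≤ (1 + L) * ‖h‖ := fun y => by
    have := hu.dist_le_mul (y + h) y
    rw [Real.dist_eq, dist_eq_norm, add_sub_cancel_left] at this
    linarith [norm_nonneg h]
  refine cacc hl hL (C := 2 * Lam) (a := fun y => a (y + h) - a y)
    (b := fun y => b (y + h) - b y) ((ha.comp (measurable_add_const h)).sub ha)
    ((hb.comp (measurable_add_const h)).sub hb)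
    (fun y => (norm_sub_le _ _).trans (by linarith [ha' (y + h), ha' y]))
    (fun y => (abs_sub _ _).trans (by linarith [hb' (y + h), hb' y]))
    (wk_diff ha hb ha' hb' hwk hh) ((lip_shift hu h).sub hu) hH ?_ hr hrs hU hc
  filter_upwards [ae_grad_diff hu h] with y hy hy1
  rw [mem_ball_zero_iff] at hy1
  have y1 : y ∈ ball (0 : P2) 8 := mem_ball_zero_iff.2 (by linarith)
  have y2 : y + h ∈ ball (0 : P2) 8 :=
    mem_ball_zero_iff.2 ((norm_add_le _ _).trans_lt (by linarith))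
  simp only [hy, (heq y y1).1, (heq y y1).2, (heq _ y2).1, (heq _ y2).2]
  refine struct_pt hS hL (p := grad u y) (p' := grad u (y + h)) ⟨(mem_ball_zero_iff.1 y1).le, hM y y1, norm_grad_le hu y⟩
    ⟨(mem_ball_zero_iff.1 y2).le, hM _ y2, norm_grad_le hu _⟩ ?_ (hH y)
  rw [add_sub_cancel_left]
  have : (0 : ℝ) ≤ L * ‖h‖ := by positivity
  linarith

lemma sq_clamp {w c H : ℝ} (hw : |w| ≤ H) : |max (-H) (min H c)| ≤ H ∧
    (w - max (-H) (min H c)) ^ 2 ≤ (w - c) ^ 2 := by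
  obtain ⟨h1, h2⟩ := abs_le.1 hw
  rcases le_total c (-H) with h | h
  · have : max (-H) (min H c) = -H := max_eq_left ((min_le_right _ _).trans h)
    rw [this]
    exact ⟨abs_le.2 ⟨le_rfl, by linarith⟩, by nlinarith⟩
  · rcases le_total c H with h' | h'
    · rw [min_eq_right h', max_eq_right h]
      exact ⟨abs_le.2 ⟨h, h'⟩, le_rfl⟩
    · rw [min_eq_left h', max_eq_right (by linarith)]
      exact ⟨abs_le.2 ⟨by linarith, le_rfl⟩, by nlinarith⟩

/-- growth of the Dirichlet integral from the Caccioppoli inequality -/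
lemma growth (hP : PoinS) {lam K1 : ℝ} (hl : 0 < lam) (hK1 : 0 ≤ K1) :
    ∃ σ X : ℝ, 0 < σ ∧ σ ≤ 1 ∧ 0 ≤ X ∧ ∀ (w : P2 → ℝ) (K : ℝ≥0) (H : ℝ), LipschitzWith K w →
      (∀ y, |w y| ≤ H) →
      (∀ (x : P2) (r s c : ℝ), 0 ≤ r → r < s → closedBall x s ⊆ ball 0 (15 / 2) → |c| ≤ H →
        lam / 2 * ∫ y in ball x r, ‖grad w y‖ ^ 2 ≤ K1 * ((s - r)⁻¹ ^ 2 *
          (∫ y in closedBall x s \ ball x r, (w y - c) ^ 2) + H ^ 2 * (2 * s) ^ 2)) →
      ∫ y in ball (0 : P2) 7, ‖grad w y‖ ^ 2 ≤ (X * H) ^ 2 ∧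
      ∀ x ∈ ball (0 : P2) 6, ∀ r ∈ Ioc (0 : ℝ) (1 / 2),
        ∫ y in ball x r, ‖grad w y‖ ^ 2 ≤ (X * H) ^ 2 * r ^ (2 * σ) := by
  obtain ⟨Cp, hCp⟩ := hP
  set Kc := 8 * K1 * max Cp 0 / lam with hKc
  have hKc0 : 0 ≤ Kc := by have := le_max_right Cp 0; positivity
  set a0 := 2 / lam * (K1 * (17 * 225)) with ha0
  set b0 := 18 * K1 / lam with hb0
  have ha00 : 0 ≤ a0 := by positivity
  have hb00 : 0 ≤ b0 := by positivity
  refine ⟨1 / (2 * Kc + 2) / 2, √(2 * a0 + 2 * b0), by positivity, ?_, Real.sqrt_nonneg _, ?_⟩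
  · rw [div_div, div_le_one (by positivity)]; linarith
  intro w K H hK hH hc
  have hH0 : 0 ≤ H := (abs_nonneg _).trans (hH 0)
  have iG : ∀ (x : P2) (r : ℝ), IntegrableOn (fun y => ‖grad w y‖ ^ 2) (ball x r) := by
    intro x r
    refine intOn ((measurable_grad w).norm.pow_const 2) (C := K ^ 2) (fun y => ?_) isBounded_ball
    rw [abs_of_nonneg (by positivity)]
    gcongr
    exact norm_grad_le hK y
  have iW : ∀ (c : ℝ) (s : Set P2), Bornology.IsBounded s →
      IntegrableOn (fun y => (w y - c) ^ 2) s := by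
    intro c s hs
    refine intOn ((hK.continuous.measurable.sub_const c).pow_const 2) (C := (H + |c|) ^ 2)
      (fun y => ?_) hs
    rw [abs_pow]
    gcongr
    exact (abs_sub _ _).trans (by linarith [hH y])
  have base : ∫ y in ball (0 : P2) 7, ‖grad w y‖ ^ 2 ≤ a0 * H ^ 2 := by
    have h1 := hc 0 7 (29 / 4) 0 (by norm_num) (by norm_num)
      (closedBall_subset_ball (by norm_num)) (by simpa using hH0)
    have h2 : ∫ y in closedBall (0 : P2) (29 / 4) \ ball 0 7, (w y - 0) ^ 2 ≤ H ^ 2 * 225 := by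
      refine le_trans (Real.le_norm_self _) (le_trans (norm_setIntegral_le_of_norm_le_const
        (C := H ^ 2) (isBounded_closedBall.subset sdiff_subset).measure_lt_top fun y _ => ?_) ?_)
      · rw [sub_zero, norm_pow]
        gcongr
        exact hH y
      · gcongr
        refine le_trans (measureReal_mono sdiff_subset isBounded_closedBall.measure_lt_top.ne) ?_
        rw [vol_closedBall _ (by norm_num)]
        norm_num
    have h3 : K1 * (((29 / 4 : ℝ) - 7)⁻¹ ^ 2 *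
        (∫ y in closedBall (0 : P2) (29 / 4) \ ball 0 7, (w y - 0) ^ 2) +
        H ^ 2 * (2 * (29 / 4)) ^ 2) ≤ K1 * (17 * 225 * H ^ 2) := by
      gcongr
      norm_num
      norm_num at h2
      nlinarith [sq_nonneg H]
    have h4 := h1.trans h3
    rw [ha0, div_mul_eq_mul_div, div_mul_eq_mul_div, le_div_iff₀ hl]
    linarith
  have hX : (√(2 * a0 + 2 * b0) * H) ^ 2 = 2 * (a0 * H ^ 2) + 2 * (b0 * H ^ 2) := by
    rw [mul_pow, Real.sq_sqrt (by positivity)]; ring
  refine ⟨?_, fun x hx r hr => ?_⟩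
  · rw [hX]
    have : 0 ≤ a0 * H ^ 2 := by positivity
    have : 0 ≤ b0 * H ^ 2 := by positivity
    linarith
  rw [mem_ball_zero_iff] at hx
  have e : 2 * (1 / (2 * Kc + 2) / 2) = 1 / (2 * Kc + 2) := by ring
  rw [hX, e]
  refine iter hKc0 (by positivity) (by positivity)
    (φ := fun r => ∫ y in ball x r, ‖grad w y‖ ^ 2) ?_ ?_ r ⟨hr.1, by linarith [hr.2]⟩
  · intro r hr
    refine le_trans (setIntegral_mono_set (iG 0 7) (Eventually.of_forall fun y => by positivity)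
      (LE.le.eventuallyLE fun y hy => ?_)) base
    rw [mem_ball_zero_iff]
    rw [mem_ball, dist_eq_norm] at hy
    have := norm_add_le (y - x) x
    rw [sub_add_cancel] at this
    linarith [hr.2]
  · intro r hr
    have hr0 := hr.1
    obtain ⟨c, hc1⟩ := hCp w K hK x r hr0
    have h1 := hc x r (3 / 2 * r) (max (-H) (min H c)) hr0.le (by linarith) (fun y hy => by
      rw [mem_ball_zero_iff]
      rw [mem_closedBall, dist_eq_norm] at hy
      have := norm_add_le (y - x) x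
      rw [sub_add_cancel] at this
      linarith [hr.2]) (sq_clamp (c := c) (hH 0)).1
    have hb : Bornology.IsBounded (ball x (2 * r) \ ball x r) := isBounded_ball.subset sdiff_subset
    have h2 : ∫ y in closedBall x (3 / 2 * r) \ ball x r, (w y - max (-H) (min H c)) ^ 2 ≤
        ∫ y in ball x (2 * r) \ ball x r, (w y - c) ^ 2 := by
      refine le_trans (setIntegral_mono_set (iW _ _ hb)
        (Eventually.of_forall fun y => by positivity) (LE.le.eventuallyLE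
          (sdiff_subset_sdiff_left (closedBall_subset_ball (by linarith))))) ?_
      exact integral_mono (iW _ _ hb) (iW _ _ hb) fun y => (sq_clamp (hH y)).2
    have h3 : 0 ≤ ∫ y in ball x (2 * r) \ ball x r, ‖grad w y‖ ^ 2 :=
      integral_nonneg fun y => by positivity
    have h4 : Cp * r ^ 2 * ∫ y in ball x (2 * r) \ ball x r, ‖grad w y‖ ^ 2 ≤
        max Cp 0 * r ^ 2 * ∫ y in ball x (2 * r) \ ball x r, ‖grad w y‖ ^ 2 := by
      gcongr; exact le_max_left _ _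
    have h5 := h2.trans (hc1.trans h4)
    rw [setIntegral_sdiff measurableSet_ball (iG x _) (ball_subset_ball (by linarith))] at h5
    set D := (∫ y in ball x (2 * r), ‖grad w y‖ ^ 2) - ∫ y in ball x r, ‖grad w y‖ ^ 2 with hD
    have h6 : K1 * ((3 / 2 * r - r)⁻¹ ^ 2 *
        (∫ y in closedBall x (3 / 2 * r) \ ball x r, (w y - max (-H) (min H c)) ^ 2) +
        H ^ 2 * (2 * (3 / 2 * r)) ^ 2) ≤ K1 * ((3 / 2 * r - r)⁻¹ ^ 2 * (max Cp 0 * r ^ 2 * D) +
        H ^ 2 * (2 * (3 / 2 * r)) ^ 2) := by gcongr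
    have e2 : K1 * ((3 / 2 * r - r)⁻¹ ^ 2 * (max Cp 0 * r ^ 2 * D) +
        H ^ 2 * (2 * (3 / 2 * r)) ^ 2) = lam / 2 * (Kc * D + b0 * H ^ 2 * r ^ 2) := by
      have : 3 / 2 * r - r = r / 2 := by ring
      rw [this, hKc, hb0]
      field_simp
      ring
    have h7 := h1.trans h6
    rw [e2] at h7
    exact le_of_mul_le_mul_left h7 (by positivity)

end AHole

open AHole in
theorem holeS (hP : PoinS) (hM : MorreyS) : HoleS := by
  intro lam Lam M L hl
  have hK1 : 0 ≤ 16 * max Lam 0 ^ 2 / lam + 4 * max Lam 0 := by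
    have := le_max_right Lam 0; positivity
  obtain ⟨σ, X, hσ, hσ1, hX, hg⟩ := growth hP hl hK1
  obtain ⟨Cm, hCm⟩ := hM σ hσ hσ1
  set C1 := max Cm 0 * (X * (1 + L)) with hC1
  have hC10 : 0 ≤ C1 := by have := le_max_right Cm 0; positivity
  refine ⟨σ, max C1 ((X * (1 + L)) ^ 2), hσ, hσ1, fun A B u hS hu hb hw => ?_⟩
  have hL : 0 ≤ Lam := (norm_nonneg _).trans (hS.bdA (0, u 0, grad u 0)
    ⟨by simp, hb 0 (mem_ball_self (by norm_num)), norm_grad_le hu 0⟩).1
  rw [max_eq_left hL] at hg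
  have key : ∀ h : P2, ‖h‖ ≤ 1 / 2 → _ := fun h hh =>
    hg (fun y => u (y + h) - u y) _ ((1 + L) * ‖h‖) ((lip_shift hu h).sub hu)
      (fun y => by
        have := hu.dist_le_mul (y + h) y
        rw [Real.dist_eq, dist_eq_norm, add_sub_cancel_left] at this
        linarith [norm_nonneg h])
      fun x r s c hr hrs hU hc => cacc_diff hl hS hu hb hw hL hh hr hrs hU hc
  have H : ∀ h : P2, ‖h‖ ≤ 1 / 2 → ∀ x ∈ ball (0 : P2) 6, ∀ x' ∈ ball (0 : P2) 6,
      |u (x + h) - u x - (u (x' + h) - u x')| ≤ C1 * ‖h‖ * ‖x - x'‖ ^ σ := by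
    intro h hh x hx x' hx'
    refine (hCm _ _ _ ((lip_shift hu h).sub hu) (by positivity) (key h hh).2 x hx x' hx').trans ?_
    have e : C1 * ‖h‖ = max Cm 0 * (X * ((1 + L) * ‖h‖)) := by rw [hC1]; ring
    rw [e]
    gcongr
    exact le_max_left _ _
  refine ⟨fun y hy => differentiableAt_of hu hC10 hσ H hy, fun y hy y' hy' => ?_, fun h hh => ?_⟩
  · refine le_trans (norm_prod_le_iff.2 ⟨fderiv_holder hu hC10 hσ H hy hy' norm_e1,
      fderiv_holder hu hC10 hσ H hy hy' norm_e2⟩) ?_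
    gcongr
    exact le_max_left _ _
  · have h1 : ∫ y in ball (0 : P2) 5, ‖grad u (y + h) - grad u y‖ ^ 2 =
        ∫ y in ball (0 : P2) 5, ‖grad (fun y => u (y + h) - u y) y‖ ^ 2 := by
      refine integral_congr_ae (ae_restrict_of_ae ?_)
      filter_upwards [ae_grad_diff hu h] with y hy
      rw [hy]
    have i1 : IntegrableOn (fun y => ‖grad (fun y => u (y + h) - u y) y‖ ^ 2) (ball (0 : P2) 7) := by
      refine intOn ((measurable_grad _).norm.pow_const 2) (C := (L + L : ℝ≥0) ^ 2) (fun y => ?_)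
        isBounded_ball
      rw [abs_of_nonneg (by positivity)]
      gcongr
      exact norm_grad_le ((lip_shift hu h).sub hu) y
    rw [h1]
    refine le_trans (setIntegral_mono_set i1 (Eventually.of_forall fun y => by positivity)
      (LE.le.eventuallyLE (ball_subset_ball (by norm_num)))) ((key h hh).1.trans ?_)
    rw [← mul_assoc, mul_pow]
    gcongr
    exact le_max_right _ _

end Pool.Agent.Lib.MP_16d934_gt
end
end

-- part Pool.Agent.Lib.MP_16d934_gt.ASec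
section

/-! Second differences of the gradient of a weak solution. -/

set_option autoImplicit false

open Set Metric Filter Topology MeasureTheory
open scoped ContDiff NNReal

noncomputable section

namespace Pool.Agent.Lib.MP_16d934_gt

namespace ASec

theorem abs_dot (a b : P2) : |dot a b| ≤ 2 * ‖a‖ * ‖b‖ := by
  have h1 : |a.1 * b.1| ≤ ‖a‖ * ‖b‖ := by
    rw [abs_mul]
    exact mul_le_mul (norm_fst_le a) (norm_fst_le b) (abs_nonneg _) (norm_nonneg _)
  have h2 : |a.2 * b.2| ≤ ‖a‖ * ‖b‖ := by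
    rw [abs_mul]
    exact mul_le_mul (norm_snd_le a) (norm_snd_le b) (abs_nonneg _) (norm_nonneg _)
  have := abs_add_le (a.1 * b.1) (a.2 * b.2)
  unfold dot
  linarith

theorem fderiv_eq (u : P2 → ℝ) (y : P2) : fderiv ℝ u y =
    (grad u y).1 • ContinuousLinearMap.fst ℝ ℝ ℝ + (grad u y).2 • ContinuousLinearMap.snd ℝ ℝ ℝ := by
  ext <;> simp [grad, d1, d2]

theorem norm_grad {u : P2 → ℝ} {L : ℝ≥0} (hu : LipschitzWith L u) (y : P2) : ‖grad u y‖ ≤ L := by
  have h := norm_fderiv_le_of_lipschitz ℝ (x₀ := y) hu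
  refine norm_prod_le_iff.2 ⟨?_, ?_⟩
  · simpa [grad, d1] using (fderiv ℝ u y).le_of_opNorm_le h (1, 0)
  · simpa [grad, d2] using (fderiv ℝ u y).le_of_opNorm_le h (0, 1)

theorem pt {A : Q5 → P2} {B : Q5 → ℝ} {lam Lam M L : ℝ} (hS : Str A B lam Lam M L) (hl : 0 < lam)
    {q0 q1 q2 : Q5} (m0 : q0 ∈ KS M L) (m1 : q1 ∈ KS M L) (m2 : q2 ∈ KS M L) {w z K : ℝ}
    {G γ : P2} (e : q2 - q1 + (q0 - q1) = (0, w, G)) (z0 : 0 ≤ z) (z1 : z ≤ 1) (hγ : ‖γ‖ ≤ K) :
    lam / 2 * (z ^ 2 * ‖G‖ ^ 2) ≤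
      dot (A q2 - (2 : ℝ) • A q1 + A q0) (z ^ 2 • G + (2 * z * w) • γ)
        + (B q2 - 2 * B q1 + B q0) * (z ^ 2 * w)
        + (2 * Lam ^ 2 / lam * (|w| + (‖q0 - q1‖ ^ 2 + ‖q2 - q1‖ ^ 2)) ^ 2
          + (4 * K + 1) * |Lam| * ((‖q0 - q1‖ + ‖q2 - q1‖) * |w|)) := by
  obtain ⟨A', hA⟩ := hS.taylor
  obtain ⟨a1, a2, a3⟩ := hA q1 m1
  have hL : 0 ≤ Lam := (norm_nonneg _).trans a1
  have hK : 0 ≤ K := (norm_nonneg _).trans hγ
  rw [abs_of_nonneg hL]
  set X := |w| + (‖q0 - q1‖ ^ 2 + ‖q2 - q1‖ ^ 2) with hX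
  set Y := (‖q0 - q1‖ + ‖q2 - q1‖) * |w| with hY
  set T := A q2 - (2 : ℝ) • A q1 + A q0 with hT
  have hR : ‖T - A' q1 (0, 0, G)‖ ≤ Lam * X := by
    have e1 : T - A' q1 (0, 0, G) = A' q1 (0, w, 0) +
        ((A q0 - A q1 - A' q1 (q0 - q1)) + (A q2 - A q1 - A' q1 (q2 - q1))) := by
      have : A' q1 (q2 - q1) + A' q1 (q0 - q1) = A' q1 (0, w, 0) + A' q1 (0, 0, G) := by
        rw [← map_add, ← map_add, e]
        simp
      rw [hT, two_smul]
      linear_combination (exp := 1) this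
    have b1 : ‖A' q1 (0, w, 0)‖ ≤ Lam * |w| := by
      simpa using (A' q1).le_of_opNorm_le a1 (0, w, 0)
    rw [e1, hX, mul_add, mul_add]
    exact norm_add_le_of_le b1 (norm_add_le_of_le (a3 q0 m0) (a3 q2 m2))
  have hT' : ‖T‖ ≤ Lam * (‖q0 - q1‖ + ‖q2 - q1‖) := by
    rw [show T = (A q0 - A q1) + (A q2 - A q1) by rw [hT, two_smul]; abel, mul_add]
    exact norm_add_le_of_le (hS.lipA q1 m1 q0 m0) (hS.lipA q1 m1 q2 m2)
  have hB : |B q2 - 2 * B q1 + B q0| ≤ Lam * (‖q0 - q1‖ + ‖q2 - q1‖) := by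
    rw [show B q2 - 2 * B q1 + B q0 = (B q0 - B q1) + (B q2 - B q1) by ring, mul_add]
    exact (abs_add_le _ _).trans (add_le_add (hS.lipB q1 m1 q0 m0) (hS.lipB q1 m1 q2 m2))
  have z2 : z ^ 2 ≤ 1 := pow_le_one₀ z0 z1
  have c1 : lam / 2 * ‖G‖ ^ 2 ≤ dot T G + 2 * Lam ^ 2 / lam * X ^ 2 := by
    have k1 := (abs_le.1 ((abs_dot (T - A' q1 (0, 0, G)) G).trans (mul_le_mul_of_nonneg_right
      (mul_le_mul_of_nonneg_left hR zero_le_two) (norm_nonneg G)))).1
    have k2 := a2 G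
    have k3 : dot (T - A' q1 (0, 0, G)) G = dot T G - dot (A' q1 (0, 0, G)) G := by
      simp only [dot, Prod.fst_sub, Prod.snd_sub]
      ring
    have k4 : 2 * (Lam * X) * ‖G‖ ≤ lam / 2 * ‖G‖ ^ 2 + 2 * Lam ^ 2 / lam * X ^ 2 := by
      have : 0 ≤ (lam * ‖G‖ - 2 * Lam * X) ^ 2 / (2 * lam) := by positivity
      have e2 : (lam * ‖G‖ - 2 * Lam * X) ^ 2 / (2 * lam) =
          lam / 2 * ‖G‖ ^ 2 + 2 * Lam ^ 2 / lam * X ^ 2 - 2 * (Lam * X) * ‖G‖ := by
        field_simp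
        ring
      linarith
    linarith
  have c2 : |2 * z * w * dot T γ| ≤ 4 * K * Lam * Y := by
    rw [abs_mul, abs_mul, abs_of_nonneg (by positivity : 0 ≤ 2 * z)]
    calc 2 * z * |w| * |dot T γ|
        ≤ 2 * 1 * |w| * (2 * (Lam * (‖q0 - q1‖ + ‖q2 - q1‖)) * K) := by
          gcongr
          exact (abs_dot T γ).trans (by gcongr)
      _ = _ := by rw [hY]; ring
  have c3 : |(B q2 - 2 * B q1 + B q0) * (z ^ 2 * w)| ≤ Lam * Y := by
    rw [abs_mul, abs_mul, abs_of_nonneg (sq_nonneg z)]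
    calc _ ≤ Lam * (‖q0 - q1‖ + ‖q2 - q1‖) * (1 * |w|) := by gcongr
      _ = _ := by rw [hY]; ring
  have c4 : dot T (z ^ 2 • G + (2 * z * w) • γ) = z ^ 2 * dot T G + 2 * z * w * dot T γ := by
    simp only [dot, Prod.fst_add, Prod.snd_add, Prod.smul_fst, Prod.smul_snd, smul_eq_mul]
    ring
  have c5 := mul_le_mul_of_nonneg_left c1 (sq_nonneg z)
  have c6 : z ^ 2 * (2 * Lam ^ 2 / lam * X ^ 2) ≤ 2 * Lam ^ 2 / lam * X ^ 2 :=
    mul_le_of_le_one_left (by positivity) z2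
  have c7 := (abs_le.1 c2).1
  have c8 := (abs_le.1 c3).1
  rw [c4]
  linarith

theorem num (c1 c2 a C₀ : ℝ) (h1 : 0 ≤ c1) (h2 : 0 ≤ c2) (ha : 1 ≤ a) : ∃ C, 0 ≤ C ∧
    ∀ t p w x0 x2 g0 g2 : ℝ, 0 ≤ C₀ → 0 ≤ t → t ≤ p → p ≤ 1 → |w| ≤ 2 * C₀ * p * t → 0 ≤ x0 →
      0 ≤ x2 → x0 ≤ a * t + g0 → x2 ≤ a * t + g2 → 0 ≤ g0 → 0 ≤ g2 → g0 ≤ C₀ * p → g2 ≤ C₀ * p →
      c1 * (|w| + (x0 ^ 2 + x2 ^ 2)) ^ 2 + c2 * ((x0 + x2) * |w|) ≤
        C * p * (t ^ 2 + g0 ^ 2 + g2 ^ 2) := by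
  refine ⟨c1 * (8 * C₀ ^ 2 + 2 * (4 * a ^ 2) ^ 2 * (1 + 2 * C₀ ^ 2)) +
    c2 * (2 * |C₀| * (1 + 4 * a ^ 2)), by positivity,
    fun t p w x0 x2 g0 g2 hC t0 tp p1 hw a0 a2 b0 b2 e0 e2 f0 f2 => ?_⟩
  rw [abs_of_nonneg hC]
  have p0 : 0 ≤ p := t0.trans tp
  set S := t ^ 2 + g0 ^ 2 + g2 ^ 2 with hS
  have S0 : t ^ 2 ≤ S := by rw [hS]; nlinarith
  have S1 : 0 ≤ S := by positivity
  have pp : p ^ 2 ≤ p := by nlinarith
  have k1 : x0 ^ 2 + x2 ^ 2 ≤ 4 * a ^ 2 * S := by
    have i0 := pow_le_pow_left₀ a0 b0 2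
    have i2 := pow_le_pow_left₀ a2 b2 2
    have : 1 ≤ a ^ 2 := one_le_pow₀ ha
    rw [hS]
    nlinarith [sq_nonneg (a * t - g0), sq_nonneg (a * t - g2), sq_nonneg g0, sq_nonneg g2]
  have k2 : S ≤ (1 + 2 * C₀ ^ 2) * p := by
    have i0 := pow_le_pow_left₀ e0 f0 2
    have i2 := pow_le_pow_left₀ e2 f2 2
    have i1 := pow_le_pow_left₀ t0 tp 2
    rw [hS]
    nlinarith [mul_le_mul_of_nonneg_left pp (sq_nonneg C₀)]
  have k3 : |w| ^ 2 ≤ 4 * C₀ ^ 2 * (p * S) :=
    calc |w| ^ 2 ≤ (2 * C₀ * p * t) ^ 2 := pow_le_pow_left₀ (abs_nonneg w) hw 2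
      _ = 4 * C₀ ^ 2 * (p ^ 2 * t ^ 2) := by ring
      _ ≤ _ := by gcongr
  have k4 : (x0 ^ 2 + x2 ^ 2) ^ 2 ≤ (4 * a ^ 2) ^ 2 * (1 + 2 * C₀ ^ 2) * (p * S) :=
    calc (x0 ^ 2 + x2 ^ 2) ^ 2 ≤ (4 * a ^ 2 * S) ^ 2 := by gcongr
      _ = (4 * a ^ 2) ^ 2 * S * S := by ring
      _ ≤ (4 * a ^ 2) ^ 2 * ((1 + 2 * C₀ ^ 2) * p) * S := by gcongr
      _ = _ := by ring
  have k5 : (x0 + x2) * |w| ≤ 2 * C₀ * (1 + 4 * a ^ 2) * (p * S) :=
    calc (x0 + x2) * |w| ≤ (x0 + x2) * (2 * C₀ * p * t) := by gcongr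
      _ = 2 * C₀ * p * ((x0 + x2) * t) := by ring
      _ ≤ 2 * C₀ * p * ((1 + 4 * a ^ 2) * S) := mul_le_mul_of_nonneg_left (by
          nlinarith [sq_nonneg (x0 - t), sq_nonneg (x2 - t), sq_nonneg x0, sq_nonneg x2])
            (by positivity)
      _ = _ := by ring
  have k6 : (|w| + (x0 ^ 2 + x2 ^ 2)) ^ 2 ≤
      (8 * C₀ ^ 2 + 2 * (4 * a ^ 2) ^ 2 * (1 + 2 * C₀ ^ 2)) * (p * S) := by
    nlinarith [sq_nonneg (|w| - (x0 ^ 2 + x2 ^ 2))]
  have k7 := mul_le_mul_of_nonneg_left k6 h1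
  have k8 := mul_le_mul_of_nonneg_left k5 h2
  linarith

theorem cont_grad {u : P2 → ℝ} {σ C : ℝ} (hσ : 0 < σ) (h : Reg1 u σ C) :
    ContinuousOn (grad u) (ball 0 6) := fun y hy => by
  refine tendsto_iff_norm_sub_tendsto_zero.2 (squeeze_zero' (Eventually.of_forall fun _ =>
    norm_nonneg _) (eventually_mem_nhdsWithin.mono fun x hx => h.2.1 x hx y hy) ?_)
  have : Continuous fun x : P2 => C * ‖x - y‖ ^ σ :=
    continuous_const.mul ((Real.continuous_rpow_const hσ.le).comp (by fun_prop))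
  simpa [hσ.ne'] using (this.tendsto y).mono_left (nhdsWithin_le_nhds (s := ball 0 6))

theorem contDiff_one {u : P2 → ℝ} {σ C : ℝ} (hσ : 0 < σ) (h : Reg1 u σ C) :
    ContDiffOn ℝ 1 u (ball 0 6) := by
  rw [← zero_add (1 : WithTop ℕ∞), contDiffOn_succ_iff_fderiv_of_isOpen isOpen_ball]
  refine ⟨fun y hy => (h.1 y hy).differentiableWithinAt, by simp, contDiffOn_zero.2 ?_⟩
  have := cont_grad hσ h
  rw [show fderiv ℝ u = _ from funext (fderiv_eq u)]
  exact (this.fst.smul continuousOn_const).add (this.snd.smul continuousOn_const)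

theorem norm_fderiv_sub (u : P2 → ℝ) (x y : P2) :
    ‖fderiv ℝ u x - fderiv ℝ u y‖ ≤ 2 * ‖grad u x - grad u y‖ := by
  refine ContinuousLinearMap.opNorm_le_bound _ (by positivity) fun v => ?_
  refine le_of_eq_of_le ?_ (abs_dot (grad u x - grad u y) v)
  rw [fderiv_eq, fderiv_eq, Real.norm_eq_abs]
  congr 1
  simp [dot]
  ring

theorem mem_shift {y s : P2} {r : ℝ} (hy : ‖y‖ ≤ r) (hs : ‖s‖ ≤ 1 / 2) {R : ℝ} (h : r + 1 / 2 < R) :
    y + s ∈ ball (0 : P2) R :=
  mem_ball_zero_iff.2 ((norm_add_le_of_le hy hs).trans_lt h)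

theorem sec_bd {u : P2 → ℝ} {σ C : ℝ} (hr : Reg1 u σ C) {h y : P2} (hh : ‖h‖ ≤ 1 / 4)
    (hy : ‖y‖ ≤ 2) : |u (y + h + h) - 2 * u (y + h) + u y| ≤ 2 * C * ‖h‖ ^ σ * ‖h‖ := by
  have m : ∀ x ∈ ball (0 : P2) 5, x ∈ ball (0 : P2) 6 ∧ x + h ∈ ball (0 : P2) 6 := fun x hx =>
    ⟨ball_subset_ball (by norm_num) hx,
      mem_shift (mem_ball_zero_iff.1 hx).le (by linarith) (by norm_num)⟩
  have := (convex_ball (0 : P2) 5).norm_image_sub_le_of_norm_hasFDerivWithin_le
    (f := fun x => u (x + h) - u x) (f' := fun x => fderiv ℝ u (x + h) - fderiv ℝ u x)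
    (C := 2 * C * ‖h‖ ^ σ) (x := y) (y := y + h)
    (fun x hx => (((hasFDerivAt_comp_add_right h).2 (hr.1 _ (m x hx).2).hasFDerivAt).sub
      (hr.1 _ (m x hx).1).hasFDerivAt).hasFDerivWithinAt)
    (fun x hx => (norm_fderiv_sub u _ _).trans (by
      have := hr.2.1 _ (m x hx).2 _ (m x hx).1
      rw [add_sub_cancel_left] at this
      linarith))
    (mem_ball_zero_iff.2 (by linarith)) (mem_shift hy (by linarith) (by norm_num))
  rw [add_sub_cancel_left, Real.norm_eq_abs] at this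
  convert this using 2
  ring

theorem int_bd {u : P2 → ℝ} {σ C : ℝ} (hσ : 0 < σ) (hr : Reg1 u σ C) {h s : P2} (hh : ‖h‖ ≤ 1 / 4)
    (hs : ‖s‖ ≤ 1 / 2) : ∫ y in closedBall (0 : P2) 2,
      ‖grad u (y + s + h) - grad u (y + s)‖ ^ 2 ≤ C * ‖h‖ ^ 2 := by
  have h1 := (measurePreserving_add_right volume s).setIntegral_preimage_emb
    (measurableEmbedding_addRight s) (fun y => ‖grad u (y + h) - grad u y‖ ^ 2) (closedBall s 2)
  rw [preimage_add_right_closedBall, sub_self] at h1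
  rw [h1]
  refine le_trans (setIntegral_mono_set ?_ (Eventually.of_forall fun _ => by positivity)
    (LE.le.eventuallyLE (closedBall_subset_ball' ?_))) (hr.2.2 h (by linarith))
  · have hc := cont_grad hσ hr
    refine (ContinuousOn.integrableOn_compact (isCompact_closedBall (0 : P2) 5) ?_).mono_set
      ball_subset_closedBall
    exact (((hc.comp (by fun_prop) fun y hy => mem_shift (mem_closedBall_zero_iff.1 hy)
      (by linarith) (by norm_num)).sub (hc.mono (closedBall_subset_ball (by norm_num)))).norm).pow 2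
  · rw [dist_zero_right]
    linarith

theorem weak_shift {A : Q5 → P2} {B : Q5 → ℝ} {u η : P2 → ℝ} (hw : WeakG A B u (ball 0 8))
    (h1 : ContDiff ℝ 1 η) (h2 : tsupport η ⊆ closedBall 0 2) {s : P2} (hs : ‖s‖ ≤ 1 / 2) :
    ∫ y in closedBall (0 : P2) 2, (dot (A (y + s, u (y + s), grad u (y + s))) (grad η y) +
      B (y + s, u (y + s), grad u (y + s)) * η y) = 0 := by
  have h3 : tsupport (fun y => η (y - s)) ⊆ closedBall s 2 :=
    closure_minimal (fun y hy => by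
      have := h2 (subset_tsupport _ hy)
      rwa [mem_closedBall_zero_iff, ← mem_closedBall_iff_norm] at this) isClosed_closedBall
  have h4 : HasCompactSupport fun y => η (y - s) :=
    (isCompact_closedBall s 2).of_isClosed_subset (isClosed_tsupport _) h3
  obtain ⟨K, hK⟩ := ContDiff.lipschitzWith_of_hasCompactSupport h4
    (h1.comp (contDiff_id.sub contDiff_const)) one_ne_zero
  have h5 := hw _ K hK h4 (h3.trans (closedBall_subset_ball' (by rw [dist_zero_right]; linarith)))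
  rw [← integral_add_right_eq_self _ s] at h5
  rw [setIntegral_eq_integral_of_forall_compl_eq_zero fun y hy => ?_, ← h5]
  · simp only [grad, d1, d2, fderiv_comp_sub, add_sub_cancel_right]
  · have := fun h => hy (h2 h)
    simp [grad, d1, d2, dot, image_eq_zero_of_notMem_tsupport this,
      fderiv_of_notMem_tsupport ℝ this]

end ASec

open ASec in
theorem secS : SecS := by
  intro lam Lam M L σ C₀ hl hσ hσ1
  let ζ : ContDiffBump (0 : P2) := ⟨1, 2, one_pos, one_lt_two⟩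
  have hζ : ContDiff ℝ 1 ζ := ζ.contDiff (n := 1)
  obtain ⟨K, hK⟩ := ContDiff.lipschitzWith_of_hasCompactSupport ζ.hasCompactSupport hζ one_ne_zero
  obtain ⟨C, hC, hnum⟩ := num (2 * Lam ^ 2 / lam) ((4 * K + 1) * |Lam|) (1 + L) C₀
    (by positivity) (by positivity) (by simp)
  refine ⟨2 / lam * (C * (volume.real (closedBall (0 : P2) 2) + 2 * C₀)),
    fun A B u hS hu hM hw hr h hh => ?_⟩
  have C0 : 0 ≤ C₀ := by
    simpa using (norm_nonneg _).trans
      (hr.2.1 (1, 1) (by simp) 0 (mem_ball_self (by norm_num)))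
  have cD := isCompact_closedBall (0 : P2) 2
  have h0 : ‖(0 : P2)‖ ≤ 1 / 2 := by norm_num
  have h1 : ‖h‖ ≤ 1 / 2 := by linarith
  have h2 : ‖h + h‖ ≤ 1 / 2 := (norm_add_le_of_le hh hh).trans (by norm_num)
  have sh : ∀ s : P2, ‖s‖ ≤ 1 / 2 → MapsTo (· + s) (closedBall (0 : P2) 2) (ball 0 6) :=
    fun s hs y hy => mem_shift (mem_closedBall_zero_iff.1 hy) hs (by norm_num)
  have cg := cont_grad hσ hr
  set q : P2 → Q5 := fun y => (y, u y, grad u y) with hq
  have qK : MapsTo q (ball 0 6) (KS M L) := fun y hy =>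
    ⟨by linarith [mem_ball_zero_iff.1 hy], hM y (ball_subset_ball (by norm_num) hy), norm_grad hu y⟩
  have qc : ContinuousOn q (ball 0 6) :=
    continuousOn_id.prodMk (hu.continuous.continuousOn.prodMk cg)
  have qd : ∀ x, ‖q (x + h) - q x‖ ≤ (1 + L) * ‖h‖ + ‖grad u (x + h) - grad u x‖ := fun x => by
    have a1 := hu.dist_le_mul (x + h) x
    rw [dist_eq_norm, dist_eq_norm, add_sub_cancel_left] at a1
    have a2 : 0 ≤ L * ‖h‖ := by positivity
    have a3 := norm_nonneg (grad u (x + h) - grad u x)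
    have a4 := norm_nonneg h
    refine norm_prod_le_iff.2 ⟨?_, norm_prod_le_iff.2 ⟨?_, ?_⟩⟩
    · simp only [hq, Prod.fst_sub, add_sub_cancel_left]
      linarith
    · simp only [hq, Prod.fst_sub, Prod.snd_sub]
      linarith
    · simp only [hq, Prod.snd_sub]
      linarith
  have Ac : ContinuousOn A (KS M L) := (LipschitzOnWith.of_dist_le' (K := Lam) fun x hx y hy => by
    simpa only [dist_eq_norm] using hS.lipA y hy x hx).continuousOn
  have Bc : ContinuousOn B (KS M L) := (LipschitzOnWith.of_dist_le' (K := Lam) fun x hx y hy => by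
    simpa only [dist_eq_norm, Real.norm_eq_abs] using hS.lipB y hy x hx).continuousOn
  set w : P2 → ℝ := fun y => u (y + h + h) - 2 * u (y + h) + u y with hw'
  set G : P2 → P2 := fun y => grad u (y + h + h) - (2 : ℝ) • grad u (y + h) + grad u y with hG
  set η : P2 → ℝ := fun y => ζ y ^ 2 * w y with hη
  have m : ∀ y ∈ closedBall (0 : P2) 2,
      y ∈ ball (0 : P2) 6 ∧ y + h ∈ ball (0 : P2) 6 ∧ y + h + h ∈ ball (0 : P2) 6 := fun y hy =>
    ⟨closedBall_subset_ball (by norm_num) hy, sh h h1 hy, add_assoc y h h ▸ sh _ h2 hy⟩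
  have e2 : tsupport η ⊆ closedBall 0 2 := closure_minimal (fun y hy => ball_subset_closedBall
    (show y ∈ ball 0 ζ.rOut from ζ.support_eq ▸ fun a => hy (by simp [hη, a]))) isClosed_closedBall
  have e1 : ContDiff ℝ 1 η := contDiff_iff_contDiffAt.2 fun y => by
    by_cases hy : y ∈ tsupport η
    swap
    · exact contDiffAt_const.congr_of_eventuallyEq (notMem_tsupport_iff_eventuallyEq.1 hy)
    have c := fun x hx => (contDiff_one hσ hr).contDiffAt (isOpen_ball.mem_nhds (x := x) hx)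
    obtain ⟨a, b, d⟩ := m y (e2 hy)
    exact (hζ.contDiffAt.pow 2).mul ((((c _ d).comp y (f := fun y => y + h + h) (by fun_prop)).sub
      (contDiffAt_const.mul ((c _ b).comp y (f := fun y => y + h) (by fun_prop)))).add (c _ a))
  have e3 : ∀ y ∈ closedBall (0 : P2) 2,
      grad η y = ζ y ^ 2 • G y + (2 * ζ y * w y) • grad ζ y := fun y hy => by
    obtain ⟨a, b, d⟩ := m y hy
    have k := ((hζ.differentiable one_ne_zero y).hasFDerivAt.pow 2).mul
      ((((hasFDerivAt_comp_add_right h).2 ((hasFDerivAt_comp_add_right h).2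
        (hr.1 _ d).hasFDerivAt)).sub (((hasFDerivAt_comp_add_right h).2
          (hr.1 _ b).hasFDerivAt).const_mul 2)).add (hr.1 _ a).hasFDerivAt)
    have k' := HasFDerivAt.fderiv (f := η) k
    ext <;> simp [grad, d1, d2, k', hG, hw'] <;> ring
  have cη : Continuous (grad η) := by
    have := e1.continuous_fderiv one_ne_zero
    unfold grad d1 d2
    fun_prop
  set f : P2 → P2 → ℝ := fun s y => dot (A (q (y + s))) (grad η y) + B (q (y + s)) * η y with hf
  have f0 : ∀ s, ‖s‖ ≤ 1 / 2 → ∫ y in closedBall (0 : P2) 2, f s y = 0 := fun s hs =>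
    weak_shift hw e1 e2 hs
  have f1 : ∀ s, ‖s‖ ≤ 1 / 2 → IntegrableOn (f s) (closedBall (0 : P2) 2) := fun s hs => by
    have c := qc.comp (f := (· + s)) (by fun_prop) (sh s hs)
    have a := Ac.comp c (qK.comp (sh s hs))
    exact ContinuousOn.integrableOn_compact cD (((a.fst.mul cη.fst.continuousOn).add
      (a.snd.mul cη.snd.continuousOn)).add
        ((Bc.comp c (qK.comp (sh s hs))).mul e1.continuous.continuousOn))
  set g : P2 → P2 → ℝ := fun s y => ‖grad u (y + s + h) - grad u (y + s)‖ ^ 2 with hg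
  have g1 : ∀ s, ‖s‖ ≤ 1 / 2 → ‖s + h‖ ≤ 1 / 2 → IntegrableOn (g s) (closedBall (0 : P2) 2) :=
    fun s a b => ContinuousOn.integrableOn_compact cD ((((cg.comp (f := fun y => y + s + h)
      (by fun_prop) fun y hy => by simpa only [add_assoc] using sh _ b hy).sub
        (cg.comp (f := (· + s)) (by fun_prop) (sh s a))).norm).pow 2)
  have t0 := norm_nonneg h
  have p0 : 0 ≤ ‖h‖ ^ σ := by positivity
  have key : ∀ y ∈ closedBall (0 : P2) 2, lam / 2 * (ζ y ^ 2 * ‖G y‖ ^ 2) ≤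
      (f (h + h) y - 2 * f h y + f 0 y) + C * ‖h‖ ^ σ * (‖h‖ ^ 2 + g 0 y + g h y) := fun y hy => by
    obtain ⟨a, b, d⟩ := m y hy
    have k1 := pt hS hl (qK a) (qK b) (qK d) (w := w y) (G := G y) (by
      simp only [hq, hw', hG, Prod.mk_sub_mk, Prod.mk_add_mk, Prod.mk.injEq, two_smul]
      exact ⟨by abel, by ring, by abel⟩) (ζ.nonneg (x := y)) ζ.le_one (norm_grad hK y)
    have i0 := hr.2.1 _ b _ a
    have i2 := hr.2.1 _ d _ b
    rw [add_sub_cancel_left] at i0 i2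
    have k2 := hnum ‖h‖ (‖h‖ ^ σ) (w y) _ _ _ _ C0 t0
      (by simpa using Real.rpow_le_rpow_of_exponent_ge' t0 (by linarith) hσ.le hσ1)
      (Real.rpow_le_one t0 (by linarith) hσ.le) (sec_bd hr hh (mem_closedBall_zero_iff.1 hy))
      (norm_nonneg _) (norm_nonneg _) ((norm_sub_rev _ _).trans_le (qd y)) (qd (y + h))
      (norm_nonneg _) (norm_nonneg _) i0 i2
    have k3 : f (h + h) y - 2 * f h y + f 0 y =
        dot (A (q (y + h + h)) - (2 : ℝ) • A (q (y + h)) + A (q y)) (grad η y) +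
          (B (q (y + h + h)) - 2 * B (q (y + h)) + B (q y)) * η y := by
      simp only [hf, ← add_assoc, add_zero, dot, Prod.fst_add, Prod.snd_add, Prod.fst_sub,
        Prod.snd_sub, Prod.smul_fst, Prod.smul_snd, smul_eq_mul]
      ring
    rw [k3, e3 y hy]
    simp only [hg, add_zero]
    linarith
  have cG : IntegrableOn (fun y => ζ y ^ 2 * ‖G y‖ ^ 2) (closedBall (0 : P2) 2) :=
    ContinuousOn.integrableOn_compact cD ((hζ.continuous.pow 2).continuousOn.mul
      (((((cg.comp (f := fun y => y + h + h) (by fun_prop) fun y hy => (m y hy).2.2).sub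
        ((cg.comp (f := (· + h)) (by fun_prop) (sh h h1)).const_smul (2 : ℝ))).add
          (cg.mono fun y hy => (m y hy).1)).norm).pow 2))
  have i0 := g1 0 h0 (by rwa [zero_add])
  have i1 := g1 h h1 h2
  have ic : IntegrableOn (fun _ : P2 => ‖h‖ ^ 2) (closedBall (0 : P2) 2) :=
    continuousOn_const.integrableOn_compact cD
  have j1 := (f1 _ h2).sub ((f1 _ h1).const_mul 2)
  have k := setIntegral_mono_on (cG.const_mul (lam / 2)) ((j1.add (f1 0 h0)).add
    (((ic.add i0).add i1).const_mul (C * ‖h‖ ^ σ))) measurableSet_closedBall key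
  rw [integral_add' (j1.add (f1 0 h0)) (((ic.add i0).add i1).const_mul _),
    integral_add' j1 (f1 0 h0), integral_sub' (f1 _ h2) ((f1 _ h1).const_mul 2),
    integral_const_mul, integral_const_mul, integral_const_mul, f0 _ h0, f0 _ h1, f0 _ h2,
    integral_add' (ic.add i0) i1, integral_add' ic i0, setIntegral_const, smul_eq_mul] at k
  have l0 := int_bd hσ hr hh h0
  have l1 := int_bd hσ hr hh h1
  have l2 : ∫ y in ball (0 : P2) 1, ‖G y‖ ^ 2 ≤
      ∫ y in closedBall (0 : P2) 2, ζ y ^ 2 * ‖G y‖ ^ 2 := by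
    rw [setIntegral_congr_fun (g := fun y => ζ y ^ 2 * ‖G y‖ ^ 2) measurableSet_ball fun y hy => by
      simp [ζ.one_of_mem_closedBall (ball_subset_closedBall hy)]]
    exact setIntegral_mono_set cG (Eventually.of_forall fun _ => by positivity)
      (LE.le.eventuallyLE (ball_subset_closedBall.trans (closedBall_subset_closedBall one_le_two)))
  have l3 := mul_le_mul_of_nonneg_left (add_le_add (add_le_add
    (le_refl (volume.real (closedBall (0 : P2) 2) * ‖h‖ ^ 2)) l0) l1) (mul_nonneg hC p0)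
  rw [Real.rpow_add' t0 (by positivity), Real.rpow_two, div_mul_eq_mul_div, div_mul_eq_mul_div,
    le_div_iff₀ hl]
  have l4 := mul_le_mul_of_nonneg_left l2 hl.le
  linarith

end Pool.Agent.Lib.MP_16d934_gt
end
end
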