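import Pool.Agent.Lib.MP_16d934_gt.AWienb

/-! Analytic dependence on the translation parameter. -/

set_option autoImplicit false

open Set Metric Filter Topology MeasureTheory
open scoped ContDiff NNReal Real ComplexConjugate

noncomputable section

namespace Pool.Agent.Lib.MP_16d934_gt

namespace AWien

/-- size of a frequency -/
def nk (k : Z2) : ℝ := |(k.1 : ℝ)| + |(k.2 : ℝ)|

lemma nk_nonneg (k : Z2) : 0 ≤ nk k := by unfold nk; positivity

lemma one_le_nk {k : Z2} (hk : k ≠ 0) : 1 ≤ nk k := by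
  have h : 1 ≤ |k.1| + |k.2| := by
    by_contra h
    have h1 := abs_nonneg k.1
    have h2 := abs_nonneg k.2
    exact hk (Prod.ext (abs_eq_zero.1 (by omega)) (abs_eq_zero.1 (by omega)))
  unfold nk
  exact_mod_cast h

lemma nk_zero : nk 0 = 0 := by simp [nk]

lemma nk_neg (k : Z2) : nk (-k) = nk k := by simp [nk]

lemma norm_inv_nk (k : Z2) : ‖((nk k)⁻¹ : ℂ)‖ ≤ 1 := by
  rw [norm_inv, Complex.norm_real, Real.norm_of_nonneg (nk_nonneg k)]
  by_cases hk : k = 0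
  · simp [hk, nk_zero]
  · exact inv_le_one_of_one_le₀ (one_le_nk hk)

lemma abs_div_nk {k : Z2} {m : ℤ} (h : |(m : ℝ)| ≤ nk k) : |(m : ℝ) / nk k| ≤ 1 := by
  rw [abs_div, abs_of_nonneg (nk_nonneg k)]
  exact div_le_one_of_le₀ h (nk_nonneg k)

lemma le_nk1 (k : Z2) : |(k.1 : ℝ)| ≤ nk k := le_add_of_nonneg_right (abs_nonneg _)
lemma le_nk2 (k : Z2) : |(k.2 : ℝ)| ≤ nk k := le_add_of_nonneg_left (abs_nonneg _)

lemma norm_sym {t : ℝ} (h : |t| ≤ 1) : ‖(2 * π * Complex.I * t : ℂ)‖ ≤ 2 * π := by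
  simp only [norm_mul, Complex.norm_real, Complex.norm_I, Complex.norm_ofNat, mul_one,
    Real.norm_eq_abs, abs_of_pos Real.pi_pos]
  exact mul_le_of_le_one_right (by positivity) h

/-- the potential with normalised coefficients -/
def T0 : W →L[ℝ] W := mult (fun k => ((nk k)⁻¹ : ℂ)) 1 norm_inv_nk
/-- first derivative of the potential -/
def T1 : W →L[ℝ] W := mult (fun k => 2 * π * Complex.I * (k.1 / nk k : ℝ)) (2 * π)
  fun k => norm_sym (abs_div_nk (le_nk1 k))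
/-- second derivative of the potential -/
def T2 : W →L[ℝ] W := mult (fun k => 2 * π * Complex.I * (k.2 / nk k : ℝ)) (2 * π)
  fun k => norm_sym (abs_div_nk (le_nk2 k))

lemma T0_apply (h : W) (k : Z2) : T0 h k = (nk k : ℂ)⁻¹ * h k := rfl
lemma T1_apply (h : W) (k : Z2) : T1 h k = 2 * π * Complex.I * (k.1 / nk k : ℝ) * h k := rfl
lemma T2_apply (h : W) (k : Z2) : T2 h k = 2 * π * Complex.I * (k.2 / nk k : ℝ) * h k := rfl

/-- the phase of a character -/
def Lk (k : Z2) : P2 →L[ℝ] ℂ :=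
  (2 * π * Complex.I * k.1 : ℂ) • (Complex.ofRealCLM.comp (ContinuousLinearMap.fst ℝ ℝ ℝ)) +
    (2 * π * Complex.I * k.2 : ℂ) • (Complex.ofRealCLM.comp (ContinuousLinearMap.snd ℝ ℝ ℝ))

lemma Lk_apply (k : Z2) (v : P2) :
    Lk k v = 2 * π * Complex.I * (k.1 * v.1 + k.2 * v.2) := by
  simp [Lk]; ring

lemma norm_Lk (k : Z2) : ‖Lk k‖ ≤ 2 * π * nk k := by
  refine ContinuousLinearMap.opNorm_le_bound _ (by have := nk_nonneg k; positivity) fun v => ?_
  have e : Lk k v = 2 * π * Complex.I * ((k.1 * v.1 + k.2 * v.2 : ℝ) : ℂ) := by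
    rw [Lk_apply]; push_cast; ring
  rw [e]
  simp only [norm_mul, Complex.norm_real, Complex.norm_I, Complex.norm_ofNat, mul_one,
    Real.norm_eq_abs, abs_of_pos Real.pi_pos]
  rw [mul_assoc (2 * π)]
  refine mul_le_mul_of_nonneg_left ((abs_add_le _ _).trans ?_) (by positivity)
  rw [abs_mul, abs_mul, nk, add_mul]
  gcongr
  exacts [norm_fst_le v, norm_snd_le v]

lemma hasFDerivAt_ex (k : Z2) (y : P2) : HasFDerivAt (ex k) (ex k y • Lk k) y := by
  have e : ex k = fun y => Complex.exp (Lk k y) := funext fun y => by rw [Lk_apply, ex]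
  have := (Lk k).hasFDerivAt (x := y).cexp
  rwa [e]

lemma pot_deriv (h : W) (y : P2) : ∃ D : P2 →L[ℝ] ℂ, HasFDerivAt (fun y => ev y (T0 h)) D y ∧
    D (1, 0) = ev y (T1 h) ∧ D (0, 1) = ev y (T2 h) := by
  have hb : ∀ (k : Z2) (y : P2), ‖T0 h k • ex k y • Lk k‖ ≤ 2 * π * ‖h k‖ := fun k y => by
    rw [norm_smul, norm_smul, norm_ex, one_mul, T0_apply, norm_mul, norm_inv, Complex.norm_real,
      Real.norm_of_nonneg (nk_nonneg k)]
    refine (mul_le_mul_of_nonneg_left (norm_Lk k) (by have := nk_nonneg k; positivity)).trans ?_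
    by_cases hk : nk k = 0
    · rw [hk]; simp; positivity
    · exact le_of_eq (by field_simp)
  have hs : Summable fun k => 2 * π * ‖h k‖ := (summ h).mul_left _
  have hd := hasFDerivAt_tsum (f := fun k y => T0 h k * ex k y)
    (f' := fun k y => T0 h k • ex k y • Lk k) hs
    (fun k y => (hasFDerivAt_ex k y).const_mul (T0 h k)) hb (x₀ := y) (summ_ex _ y).of_norm y
  have hs' : Summable fun k => T0 h k • ex k y • Lk k := .of_norm_bounded hs fun k => hb k y
  refine ⟨_, hd, ?_, ?_⟩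
  · refine ((ContinuousLinearMap.apply ℝ ℂ (1, 0)).map_tsum hs').trans (tsum_congr fun k => ?_)
    simp only [ContinuousLinearMap.apply_apply, smul_apply, Lk_apply, T0_apply, T1_apply,
      smul_eq_mul]
    push_cast; ring
  · refine ((ContinuousLinearMap.apply ℝ ℂ (0, 1)).map_tsum hs').trans (tsum_congr fun k => ?_)
    simp only [ContinuousLinearMap.apply_apply, smul_apply, Lk_apply, T0_apply, T2_apply,
      smul_eq_mul]
    push_cast; ring

/-- the real potential normalised at the corner of the cell -/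
def Vh (h : W) (y : P2) : ℝ := (ev y (T0 h)).re - (ev (1 / 2, 1 / 2) (T0 h)).re

lemma Vh_deriv (h : W) (y : P2) : DifferentiableAt ℝ (Vh h) y ∧
    grad (Vh h) y = ((ev y (T1 h)).re, (ev y (T2 h)).re) := by
  obtain ⟨D, hD, h1, h2⟩ := pot_deriv h y
  have k : HasFDerivAt (Vh h) (Complex.reCLM.comp D) y :=
    (Complex.reCLM.hasFDerivAt.comp y hD).sub_const _
  refine ⟨k.differentiableAt, ?_⟩
  rw [grad, d1, d2, k.fderiv, ← h1, ← h2]
  rfl

lemma ex_per (k : Z2) (t : ℝ) :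
    ex k (1 / 2, t) = ex k (-(1 / 2), t) ∧ ex k (t, 1 / 2) = ex k (t, -(1 / 2)) := by
  constructor
  · rw [ex, ex, ← mul_one (Complex.exp (_ * (_ * ((-(1 / 2), t) : P2).1 + _))),
      ← Complex.exp_int_mul_two_pi_mul_I k.1, ← Complex.exp_add]
    congr 1; push_cast; ring
  · rw [ex, ex, ← mul_one (Complex.exp (_ * (_ + _ * ((t, -(1 / 2)) : P2).2))),
      ← Complex.exp_int_mul_two_pi_mul_I k.2, ← Complex.exp_add]
    congr 1; push_cast; ring

/-- the integral of a derivative of a periodic function vanishes -/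
lemma int_deriv {g : P2 → ℂ} {D : P2 → P2 →L[ℝ] ℂ} (hg : ∀ y, HasFDerivAt g (D y) y) :
    ((Continuous fun y => D y (1, 0)) → (∀ t, g (1 / 2, t) = g (-(1 / 2), t)) →
      ∫ y in cell, D y (1, 0) = 0) ∧
    ((Continuous fun y => D y (0, 1)) → (∀ t, g (t, 1 / 2) = g (t, -(1 / 2))) →
      ∫ y in cell, D y (0, 1) = 0) := by
  constructor
  · intro hc hp
    have hi := integrable_cell hc
    rw [cell, IntegrableOn, Measure.volume_eq_prod, ← Measure.prod_restrict] at hi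
    rw [cell, Measure.volume_eq_prod, ← Measure.prod_restrict, integral_prod_symm _ hi]
    refine integral_eq_zero_of_ae (.of_forall fun t => ?_)
    show ∫ s in Ioc (-(1 / 2) : ℝ) (1 / 2), D (s, t) (1, 0) = 0
    rw [← intervalIntegral.integral_of_le (by norm_num),
      intervalIntegral.integral_eq_sub_of_hasDerivAt (f := fun s => g (s, t)), hp, sub_self]
    · intro s _
      exact (hg (s, t)).comp_hasDerivAt s ((hasDerivAt_id s).prodMk (hasDerivAt_const s t))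
    · exact (hc.comp (continuous_id.prodMk continuous_const)).intervalIntegrable _ _
  · intro hc hp
    have hi := integrable_cell hc
    rw [cell, IntegrableOn, Measure.volume_eq_prod, ← Measure.prod_restrict] at hi
    rw [cell, Measure.volume_eq_prod, ← Measure.prod_restrict, integral_prod _ hi]
    refine integral_eq_zero_of_ae (.of_forall fun t => ?_)
    show ∫ s in Ioc (-(1 / 2) : ℝ) (1 / 2), D (t, s) (0, 1) = 0
    rw [← intervalIntegral.integral_of_le (by norm_num),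
      intervalIntegral.integral_eq_sub_of_hasDerivAt (f := fun s => g (t, s)), hp, sub_self]
    · intro s _
      exact (hg (t, s)).comp_hasDerivAt s ((hasDerivAt_const s t).prodMk (hasDerivAt_id s))
    · exact (hc.comp (continuous_const.prodMk continuous_id)).intervalIntegrable _ _

lemma fc_deriv {V : P2 → ℝ} (hV : Differentiable ℝ V) (hp : Per V) (h1 : Continuous (d1 V))
    (h2 : Continuous (d2 V)) (k : Z2) :
    fc (d1 V) k = 2 * π * Complex.I * k.1 * fc V k ∧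
      fc (d2 V) k = 2 * π * Complex.I * k.2 * fc V k := by
  have hg : ∀ y, HasFDerivAt (fun y => (V y : ℂ) * ex (-k) y) _ y := fun y =>
    (Complex.ofRealCLM.hasFDerivAt.comp y (hV y).hasFDerivAt).mul (hasFDerivAt_ex (-k) y)
  obtain ⟨a, b⟩ := int_deriv hg
  have c0 : Continuous fun y => (V y : ℂ) * ex (-k) y :=
    (Complex.continuous_ofReal.comp hV.continuous).mul (continuous_ex _)
  have c1 : Continuous fun y => ((d1 V y : ℝ) : ℂ) * ex (-k) y :=
    (Complex.continuous_ofReal.comp h1).mul (continuous_ex _)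
  have c2 : Continuous fun y => ((d2 V y : ℝ) : ℂ) * ex (-k) y :=
    (Complex.continuous_ofReal.comp h2).mul (continuous_ex _)
  constructor
  · have e : ∀ y, ((Complex.ofRealCLM ∘ V) y • ex (-k) y • Lk (-k) +
        ex (-k) y • Complex.ofRealCLM.comp (fderiv ℝ V y)) (1, 0) =
        ((d1 V y : ℝ) : ℂ) * ex (-k) y -
          2 * π * Complex.I * k.1 * ((V y : ℂ) * ex (-k) y) := fun y => by
      simp [Lk_apply, d1]; ring
    simp only [e] at a
    have := a (c1.sub (continuous_const.mul c0)) fun t => by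
      have := (hp (-(1 / 2), t)).1
      norm_num at this
      rw [(ex_per _ t).1, this]
    rw [integral_sub (integrable_cell c1) ((integrable_cell c0).const_mul _),
      integral_const_mul] at this
    exact sub_eq_zero.1 this
  · have e : ∀ y, ((Complex.ofRealCLM ∘ V) y • ex (-k) y • Lk (-k) +
        ex (-k) y • Complex.ofRealCLM.comp (fderiv ℝ V y)) (0, 1) =
        ((d2 V y : ℝ) : ℂ) * ex (-k) y -
          2 * π * Complex.I * k.2 * ((V y : ℂ) * ex (-k) y) := fun y => by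
      simp [Lk_apply, d2]; ring
    simp only [e] at b
    have := b (c2.sub (continuous_const.mul c0)) fun t => by
      have := (hp (t, -(1 / 2))).2
      norm_num at this
      rw [(ex_per _ t).2, this]
    rw [integral_sub (integrable_cell c2) ((integrable_cell c0).const_mul _),
      integral_const_mul] at this
    exact sub_eq_zero.1 this

lemma fc_neg (f : P2 → ℝ) (k : Z2) : conj (fc f (-k)) = fc f k := by
  rw [fc, fc, ← integral_conj]
  refine integral_congr_ae (.of_forall fun y => ?_)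
  simp only [neg_neg, map_mul, Complex.conj_ofReal, ex_neg]

lemma clm_ext {A B : P2 →L[ℝ] ℝ} (h1 : A (1, 0) = B (1, 0)) (h2 : A (0, 1) = B (0, 1)) :
    A = B := by
  refine ContinuousLinearMap.ext fun v => ?_
  have e : v = v.1 • ((1, 0) : P2) + v.2 • ((0, 1) : P2) := by simp
  rw [e, map_add, map_add, map_smul, map_smul, map_smul, map_smul, h1, h2]

/-- every admissible function is a potential -/
lemma exists_pot {V : P2 → ℝ} {η : ℝ} (hV : Differentiable ℝ V) (hp : Per V)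
    (h0 : V (1 / 2, 1 / 2) = 0) (h1 : Wn (d1 V) η) (h2 : Wn (d2 V) η) :
    ∃ h : W, ‖h‖ ≤ 2 * η ∧ rp h = h ∧ h 0 = 0 ∧ Vh h = V := by
  obtain ⟨w1, n1, e1⟩ := of_Wn h1
  obtain ⟨w2, n2, e2⟩ := of_Wn h2
  have c1 : Continuous (d1 V) :=
    (Complex.continuous_re.comp (continuous_ev w1)).congr fun y => by simp [e1]
  have c2 : Continuous (d2 V) :=
    (Complex.continuous_re.comp (continuous_ev w2)).congr fun y => by simp [e2]
  have k1 : ∀ k, w1 k = 2 * π * Complex.I * k.1 * fc V k := fun k => by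
    rw [← fc_eq e1, (fc_deriv hV hp c1 c2 k).1]
  have k2 : ∀ k, w2 k = 2 * π * Complex.I * k.2 * fc V k := fun k => by
    rw [← fc_eq e2, (fc_deriv hV hp c1 c2 k).2]
  have hb : ∀ k, ‖(nk k : ℂ) * fc V k‖ ≤ ‖w1 k‖ + ‖w2 k‖ := fun k => by
    rw [k1, k2]
    simp only [norm_mul, Complex.norm_real, Complex.norm_I, Complex.norm_ofNat, mul_one,
      Real.norm_eq_abs, abs_of_pos Real.pi_pos, Complex.norm_intCast, abs_of_nonneg (nk_nonneg k)]
    have : 0 ≤ (2 * π - 1) * (nk k * ‖fc V k‖) :=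
      mul_nonneg (by linarith [Real.pi_gt_three]) (mul_nonneg (nk_nonneg k) (norm_nonneg _))
    rw [nk] at this ⊢
    linarith
  have hs := Summable.of_nonneg_of_le (fun _ => norm_nonneg _) hb ((summ w1).add (summ w2))
  have t1 : T1 (mk _ hs) = w1 := ext fun k => by
    rw [T1_apply, mk_apply, k1]
    by_cases hk : k = 0
    · simp [hk]
    · have : (nk k : ℂ) ≠ 0 := by exact_mod_cast (one_pos.trans_le (one_le_nk hk)).ne'
      push_cast; field_simp
  have t2 : T2 (mk _ hs) = w2 := ext fun k => by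
    rw [T2_apply, mk_apply, k2]
    by_cases hk : k = 0
    · simp [hk]
    · have : (nk k : ℂ) ≠ 0 := by exact_mod_cast (one_pos.trans_le (one_le_nk hk)).ne'
      push_cast; field_simp
  refine ⟨mk _ hs, ?_, ext fun k => ?_, by simp [nk_zero], funext fun y => ?_⟩
  · rw [norm_eq] at n1 n2 ⊢
    refine (hs.tsum_le_tsum hb ((summ w1).add (summ w2))).trans ?_
    rw [(summ w1).tsum_add (summ w2)]
    linarith
  · rw [rp_apply, mk_apply, mk_apply, map_mul, fc_neg, nk_neg, Complex.conj_ofReal]; ring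
  · have hd : Differentiable ℝ (Vh (mk _ hs)) := fun y => (Vh_deriv _ y).1
    have := is_const_of_fderiv_eq_zero (hd.sub hV) (fun y => by
      rw [fderiv_sub (hd y) (hV y), sub_eq_zero]
      have g := (Vh_deriv (mk _ hs) y).2
      rw [t1, t2, e1, e2] at g
      exact clm_ext (congrArg Prod.fst g) (congrArg Prod.snd g)) y (1 / 2, 1 / 2)
    simp only [Pi.sub_apply, h0, Vh, sub_self] at this
    exact sub_eq_zero.1 this

/-- a real even multiplier on the real part, the identity on the imaginary part -/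
def Dm (μ : Z2 → ℝ) (C : ℝ) (h : ∀ k, |μ k| ≤ C) : W →L[ℝ] W :=
  (mult (fun k => (μ k : ℂ)) C fun k => by simpa using h k).comp rp +
    (ContinuousLinearMap.id ℝ W - rp)

lemma Dm_apply (μ : Z2 → ℝ) (C : ℝ) (h : ∀ k, |μ k| ≤ C) (v : W) (k : Z2) :
    Dm μ C h v k = μ k * rp v k + (v k - rp v k) := rfl

lemma Dm_Dm {μ ν : Z2 → ℝ} {C C' : ℝ} (h : ∀ k, |μ k| ≤ C) (h' : ∀ k, |ν k| ≤ C')
    (he : ∀ k, ν (-k) = ν k) (hm : ∀ k, μ k * ν k = 1) (v : W) :
    Dm μ C h (Dm ν C' h' v) = v := ext fun k => by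
  have e : (μ k : ℂ) * ν k = 1 := by exact_mod_cast hm k
  simp only [Dm_apply, rp_apply, map_add, map_mul, map_sub, map_div₀, he, neg_neg,
    Complex.conj_ofReal, Complex.conj_conj, map_ofNat]
  linear_combination (v k + conj (v (-k))) / 2 * e

lemma exists_equiv {μ : Z2 → ℝ} {C c : ℝ} (h : ∀ k, |μ k| ≤ C) (hc : 0 < c)
    (h' : ∀ k, c ≤ |μ k|) (he : ∀ k, μ (-k) = μ k) :
    ∃ D : W ≃L[ℝ] W, ∀ v k, D v k = μ k * rp v k + (v k - rp v k) := by
  have h0 : ∀ k, μ k ≠ 0 := fun k => abs_pos.1 (hc.trans_le (h' k))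
  have hi : ∀ k, |(μ k)⁻¹| ≤ c⁻¹ := fun k => by
    rw [abs_inv]; exact inv_anti₀ hc (h' k)
  exact ⟨.equivOfInverse (Dm μ C h) (Dm (fun k => (μ k)⁻¹) c⁻¹ hi)
    (Dm_Dm hi h he fun k => inv_mul_cancel₀ (h0 k))
    (Dm_Dm h hi (fun k => by rw [he]) fun k => mul_inv_cancel₀ (h0 k)), fun _ _ => rfl⟩

lemma rp_T1 (v : W) (k : Z2) : rp (T1 v) k = 2 * π * Complex.I * (k.1 / nk k : ℝ) * rp v k := by
  simp only [rp_apply, T1_apply, nk_neg, map_mul, Complex.conj_ofReal, Complex.conj_I,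
    map_ofNat, Prod.fst_neg]
  push_cast; ring
lemma rp_T2 (v : W) (k : Z2) : rp (T2 v) k = 2 * π * Complex.I * (k.2 / nk k : ℝ) * rp v k := by
  simp only [rp_apply, T2_apply, nk_neg, map_mul, Complex.conj_ofReal, Complex.conj_I,
    map_ofNat, Prod.snd_neg]
  push_cast; ring

/-- parameters, translation and normalised coefficients -/
abbrev EE : Type := (Par × P2) × W

lemma rep_eqn {X : P2 → P2} {β : P2 → ℝ} {η₀ : ℝ} (hX1 : Wn (fun y => (X y).1) η₀)
    (hX2 : Wn (fun y => (X y).2) η₀) (hβ : Wn β η₀) (hβ1 : Wn (d1 β) η₀) (hβ2 : Wn (d2 β) η₀)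
    (a₀ : Par) (ha : a₀.2.2.2 = 0) :
    (Rep (((a₀, 0), 0) : EE) fun e y =>
      (tA e.1.1 e.1.2 (X y) (β y) (grad β y) (Vh e.2 y) (grad (Vh e.2) y)).1) ∧
    (Rep (((a₀, 0), 0) : EE) fun e y =>
      (tA e.1.1 e.1.2 (X y) (β y) (grad β y) (Vh e.2 y) (grad (Vh e.2) y)).2) ∧
    Rep (((a₀, 0), 0) : EE) fun e y =>
      tB e.1.1 e.1.2 (X y) (β y) (grad β y) (Vh e.2 y) (grad (Vh e.2) y) := by
  set e₀ : EE := ((a₀, 0), 0) with he
  have x1 : Rep e₀ fun _ y => (X y).1 := .fixed hX1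
  have x2 : Rep e₀ fun _ y => (X y).2 := .fixed hX2
  have b : Rep e₀ fun _ y => β y := .fixed hβ
  have g1 : Rep e₀ fun _ y => (grad β y).1 := .fixed hβ1
  have g2 : Rep e₀ fun _ y => (grad β y).2 := .fixed hβ2
  have a1 : Rep e₀ fun e _ => e.1.1.1.1 := .scal (ContDiffAt.analyticAt (by fun_prop))
  have a2 : Rep e₀ fun e _ => e.1.1.1.2 := .scal (ContDiffAt.analyticAt (by fun_prop))
  have a3 : Rep e₀ fun e _ => e.1.1.2.1 := .scal (ContDiffAt.analyticAt (by fun_prop))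
  have a4 : Rep e₀ fun e _ => e.1.1.2.2.1.1 := .scal (ContDiffAt.analyticAt (by fun_prop))
  have a5 : Rep e₀ fun e _ => e.1.1.2.2.1.2 := .scal (ContDiffAt.analyticAt (by fun_prop))
  have a6 : Rep e₀ fun e _ => e.1.1.2.2.2 := .scal (ContDiffAt.analyticAt (by fun_prop))
  have l1 : Rep e₀ fun e _ => e.1.2.1 := .scal (ContDiffAt.analyticAt (by fun_prop))
  have l2 : Rep e₀ fun e _ => e.1.2.2 := .scal (ContDiffAt.analyticAt (by fun_prop))
  have t (T : W →L[ℝ] W) : AnalyticAt ℝ (fun e : EE => T e.2) e₀ :=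
    (T.analyticAt _).comp analyticAt_snd
  have v : Rep e₀ fun e y => Vh e.2 y := (Rep.re (t T0)).sub
    (.scal ((Complex.reCLM.analyticAt _).comp (((ev _).analyticAt _).comp (t T0))))
  have G1 : Rep e₀ fun e y => (grad (Vh e.2) y).1 := by
    simp only [(Vh_deriv _ _).2]; exact Rep.re (t T1)
  have G2 : Rep e₀ fun e y => (grad (Vh e.2) y).2 := by
    simp only [(Vh_deriv _ _).2]; exact Rep.re (t T2)
  have J : Rep e₀ fun e y => 1 + dot e.1.2 (grad β y) :=
    (Rep.const 1).add ((l1.mul g1).add (l2.mul g2))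
  have c : Rep e₀ fun e y => dot e.1.2 (grad (Vh e.2) y) / (1 + dot e.1.2 (grad β y)) :=
    ((l1.mul G1).add (l2.mul G2)).mul (J.inv one_ne_zero fun y => by simp [he, dot])
  have s1 := x1.add (b.mul l1)
  have s2 := x2.add (b.mul l2)
  obtain ⟨f1, f2, f3⟩ := Rep.density (e₀ := e₀)
    (Y := fun e y => (tQ e.1.1 e.1.2 (X y) (β y) (grad β y) (Vh e.2 y) (grad (Vh e.2) y)).1)
    (Z := fun e y => (tQ e.1.1 e.1.2 (X y) (β y) (grad β y) (Vh e.2 y) (grad (Vh e.2) y)).2.1)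
    (Q := fun e y => (tQ e.1.1 e.1.2 (X y) (β y) (grad β y) (Vh e.2 y) (grad (Vh e.2) y)).2.2)
    (a1.add (a6.mul s1)) (a2.add (a6.mul s2))
    (a3.add (a6.mul (((a4.mul s1).add (a5.mul s2)).add v)))
    ((a4.add G1).sub (c.mul g1)) ((a5.add G2).sub (c.mul g2))
    (y₀ := a₀.1) (z₀ := a₀.2.1) (p₀ := a₀.2.2.1) (fun y => by simp [he, tQ, ha])
    (fun y => by simp [he, tQ, ha]) (fun y => by simp [he, tQ, (Vh_deriv _ _).2, dot])
  have d := (g1.mul f1).add (g2.mul f2)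
  exact ⟨(J.mul f1).sub (d.mul l1), (J.mul f2).sub (d.mul l2), (J.mul a6).mul f3⟩

lemma tA_zero {a : Par} (ha : a.2.2.2 = 0) (x : P2) (b : ℝ) (g : P2) (V : ℝ) (G : P2) :
    tA a 0 x b g V G = FP a.1 a.2.1 (a.2.2.1 + G) ∧ tB a 0 x b g V G = 0 := by
  simp [tA, tB, tQ, ha, dot]

/-- the zero mode -/
def Z0 : W →L[ℝ] W := mult (fun k => if k = 0 then 1 else 0) 1 fun k => by
  split_ifs <;> simp

lemma Z0_apply (h : W) (k : Z2) : Z0 h k = (if k = 0 then 1 else 0) * h k := rfl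

lemma symbol {h₁₁ h₁₂ h₂₁ h₂₂ lam : ℝ} (hl : 0 < lam)
    (h : ∀ a b : ℝ, lam * (a ^ 2 + b ^ 2) ≤ a * (h₁₁ * a + h₁₂ * b) + b * (h₂₁ * a + h₂₂ * b)) :
    ∃ D : W ≃L[ℝ] W, ∀ v, D v = T1 (h₁₁ • rp (T1 v) + h₁₂ • rp (T2 v)) +
      T2 (h₂₁ • rp (T1 v) + h₂₂ • rp (T2 v)) + (v - rp v + Z0 (rp v)) := by
  set q : Z2 → ℝ := fun k => k.1 / nk k * (h₁₁ * (k.1 / nk k) + h₁₂ * (k.2 / nk k)) +
    k.2 / nk k * (h₂₁ * (k.1 / nk k) + h₂₂ * (k.2 / nk k)) with hq
  have q1 : ∀ k, |q k| ≤ |h₁₁| + |h₁₂| + (|h₂₁| + |h₂₂|) := fun k => by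
    have u := abs_div_nk (le_nk1 k)
    have w := abs_div_nk (le_nk2 k)
    have m : ∀ s t x : ℝ, |s| ≤ 1 → |t| ≤ 1 → |s * (x * t)| ≤ |x| := fun s t x hs ht => by
      rw [abs_mul, abs_mul]
      exact (mul_le_of_le_one_left (by positivity) hs).trans
        (mul_le_of_le_one_right (abs_nonneg _) ht)
    simp only [hq, mul_add]
    exact (abs_add_le _ _).trans (add_le_add
      ((abs_add_le _ _).trans (add_le_add (m _ _ _ u u) (m _ _ _ u w)))
      ((abs_add_le _ _).trans (add_le_add (m _ _ _ w u) (m _ _ _ w w))))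
  have q2 : ∀ k, k ≠ 0 → lam / 2 ≤ q k := fun k hk => by
    refine le_trans ?_ (h _ _)
    have n0 := one_pos.trans_le (one_le_nk hk)
    have e : |(k.1 : ℝ) / nk k| + |(k.2 : ℝ) / nk k| = 1 := by
      rw [abs_div, abs_div, abs_of_pos n0, ← add_div]
      exact div_self n0.ne'
    rw [← sq_abs (k.1 / nk k : ℝ), ← sq_abs (k.2 / nk k : ℝ)]
    generalize |(k.1 : ℝ) / nk k| = s at e ⊢
    generalize |(k.2 : ℝ) / nk k| = t at e ⊢
    have : 1 / 2 ≤ s ^ 2 + t ^ 2 := by nlinarith [sq_nonneg (s - t)]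
    nlinarith
  have p2 : 1 ≤ (2 * π) ^ 2 := by nlinarith [Real.pi_gt_three]
  obtain ⟨D, hD⟩ := exists_equiv (μ := fun k => if k = 0 then 1 else -((2 * π) ^ 2 * q k))
    (C := 1 + (2 * π) ^ 2 * (|h₁₁| + |h₁₂| + (|h₂₁| + |h₂₂|))) (c := min 1 (lam / 2))
    (fun k => by
      split_ifs
      · rw [abs_one]; exact le_add_of_nonneg_right (by positivity)
      · rw [abs_neg, abs_mul, abs_of_nonneg (sq_nonneg _)]
        exact (mul_le_mul_of_nonneg_left (q1 k) (sq_nonneg _)).trans (by linarith))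
    (by positivity)
    (fun k => by
      split_ifs with hk
      · rw [abs_one]; exact min_le_left _ _
      · rw [abs_neg]
        have := q2 k hk
        exact (min_le_right _ _).trans (le_trans (by nlinarith) (le_abs_self _)))
    (fun k => by
      simp only [neg_eq_zero, hq, nk_neg, Prod.fst_neg, Prod.snd_neg, Int.cast_neg]
      congr 3; ring)
  refine ⟨D, fun v => ext fun k => ?_⟩
  simp only [hD, lp.coeFn_add, lp.coeFn_sub, lp.coeFn_smul, Pi.add_apply, Pi.sub_apply,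
    Pi.smul_apply, T1_apply, T2_apply, rp_T1, rp_T2, Z0_apply, Complex.real_smul, hq]
  split_ifs with hk
  · simp [hk]
  · push_cast
    linear_combination (-(2 * π) ^ 2 * (k.1 / nk k * (h₁₁ * (k.1 / nk k) + h₁₂ * (k.2 / nk k)) +
      k.2 / nk k * (h₂₁ * (k.1 / nk k) + h₂₂ * (k.2 / nk k))) * rp v k) * Complex.I_sq

/-- the conclusion for the parameter `a` -/
def Good (X : P2 → P2) (β : P2 → ℝ) (N : ℕ) (r C : ℝ) (a : Par) : Prop :=
  ∀ (h : P2 → W) (δ : ℝ), 0 < δ →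
    (∀ l ∈ ball (0 : P2) δ, ‖h l‖ < r ∧ rp (h l) = h l ∧ h l 0 = 0 ∧
      ∀ k : Z2, k ≠ 0 → eqn a l X β (Vh (h l)) k = eqn a 0 X β (Vh (h 0)) k) →
    AnalyticAt ℝ (fun l => Vh (h l) 0) 0 ∧
      ∀ k ≤ N, ‖iteratedFDeriv ℝ k (fun l => Vh (h l) 0) 0‖ ≤ C

lemma Good.mono {X : P2 → P2} {β : P2 → ℝ} {N : ℕ} {r C r' C' : ℝ} {a : Par}
    (g : Good X β N r C a) (hr : r' ≤ r) (hC : C ≤ C') : Good X β N r' C' a := fun h δ hδ H =>
  (g h δ hδ fun l hl => ⟨(H l hl).1.trans_le hr, (H l hl).2⟩).imp_right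
    fun b k hk => (b k hk).trans hC

lemma loc {X : P2 → P2} {β : P2 → ℝ} {η₀ : ℝ} (hX1 : Wn (fun y => (X y).1) η₀)
    (hX2 : Wn (fun y => (X y).2) η₀) (hβ : Wn β η₀) (hβ1 : Wn (d1 β) η₀) (hβ2 : Wn (d2 β) η₀)
    (N : ℕ) (a₀ : Par) (ha : a₀.2.2.2 = 0) :
    ∃ r > 0, ∃ C : ℝ, ∀ a, dist a a₀ < r → Good X β N r C a := by
  obtain ⟨⟨A1, hA1, e1⟩, ⟨A2, hA2, e2⟩, B, hB, e3⟩ := rep_eqn hX1 hX2 hβ hβ1 hβ2 a₀ ha
  obtain ⟨h₁₁, h₁₂, h₂₁, h₂₂, lam, hl, hpos, hd⟩ := FP_deriv a₀.1 a₀.2.1 a₀.2.2.1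
  obtain ⟨D, hD⟩ := symbol hl hpos
  set e₀ : EE := ((a₀, 0), 0) with he
  let L : EE →L[ℝ] W := (ContinuousLinearMap.id ℝ W - rp + Z0.comp rp).comp
    (ContinuousLinearMap.snd ℝ _ _)
  have hL : ∀ e, L e = e.2 - rp e.2 + Z0 (rp e.2) := fun _ => rfl
  let F : EE → W := fun e => T1 (A1 e) + T2 (A2 e) - T0 (B e) + L e
  have hF : AnalyticAt ℝ F e₀ :=
    ((((T1.analyticAt _).comp hA1).add ((T2.analyticAt _).comp hA2)).sub
      ((T0.analyticAt _).comp hB)).add (L.analyticAt _)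
  have hF' : HasFDerivAt F (T1.comp (fderiv ℝ A1 e₀) + T2.comp (fderiv ℝ A2 e₀) -
      T0.comp (fderiv ℝ B e₀) + L) e₀ :=
    (((T1.hasFDerivAt.comp _ hA1.differentiableAt.hasFDerivAt).add
      (T2.hasFDerivAt.comp _ hA2.differentiableAt.hasFDerivAt)).sub
      (T0.hasFDerivAt.comp _ hB.differentiableAt.hasFDerivAt)).add L.hasFDerivAt
  have line : ∀ (v : W) (t : ℝ), e₀ + t • ((0, v) : EE) = ((a₀, 0), t • v) := fun v t => by
    simp [he]
  have gr : ∀ (v : W) (t : ℝ) y, grad (Vh (t • v)) y = t • grad (Vh v) y := fun v t y => by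
    simp [(Vh_deriv _ _).2]
  have k1 : ∀ v, fderiv ℝ A1 e₀ (0, v) = h₁₁ • rp (T1 v) + h₁₂ • rp (T2 v) := fun v =>
    ext_ev fun y => by
      rw [ev_fderiv hA1 e1 (0, v) y (d := h₁₁ * (grad (Vh v) y).1 + h₁₂ * (grad (Vh v) y).2)
        (by simp only [line, (tA_zero ha ..).1, gr]; exact (hd _).1)]
      simp [ev_rp, (Vh_deriv _ _).2]
  have k2 : ∀ v, fderiv ℝ A2 e₀ (0, v) = h₂₁ • rp (T1 v) + h₂₂ • rp (T2 v) := fun v =>
    ext_ev fun y => by
      rw [ev_fderiv hA2 e2 (0, v) y (d := h₂₁ * (grad (Vh v) y).1 + h₂₂ * (grad (Vh v) y).2)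
        (by simp only [line, (tA_zero ha ..).1, gr]; exact (hd _).2)]
      simp [ev_rp, (Vh_deriv _ _).2]
  have k3 : ∀ v, fderiv ℝ B e₀ (0, v) = 0 := fun v =>
    ext_ev fun y => by
      rw [ev_fderiv hB e3 (0, v) y (d := 0)
        (by simp only [line, (tA_zero ha ..).2]; exact hasDerivAt_const _ _)]
      simp
  obtain ⟨ψ, hψ, hinv⟩ := ift hF D fun v => by
    rw [hF'.fderiv, hD]
    simp only [add_apply, sub_apply, ContinuousLinearMap.comp_apply, k1, k2, k3, hL, map_zero,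
      sub_zero]
  have hg : AnalyticAt ℝ (fun c => Vh (ψ c) 0) (e₀.1, F e₀) :=
    ((Complex.reCLM.analyticAt _).comp (((ev _).analyticAt _).comp
      ((T0.analyticAt _).comp hψ))).sub
    ((Complex.reCLM.analyticAt _).comp (((ev _).analyticAt _).comp ((T0.analyticAt _).comp hψ)))
  obtain ⟨C, hC⟩ := bound_near hg N
  have hc : Tendsto (fun e : EE => (e.1, F e)) (𝓝 e₀) (𝓝 (e₀.1, F e₀)) :=
    (analyticAt_fst.prod hF).continuousAt
  obtain ⟨r, hr, H⟩ := Metric.eventually_nhds_iff.1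
    (e1.and (e2.and (e3.and (hinv.and (hc.eventually hC)))))
  refine ⟨r, hr, C, fun a har h δ hδ hh => ?_⟩
  have mem : ∀ l ∈ ball (0 : P2) (min δ r), dist (((a, l), h l) : EE) e₀ < r := fun l hl => by
    rw [mem_ball, lt_min_iff] at hl
    rw [he, Prod.dist_eq, Prod.dist_eq, max_lt_iff, max_lt_iff]
    exact ⟨⟨har, hl.2⟩, by rw [dist_zero_right]; exact (hh l hl.1).1⟩
  have m0 : (0 : P2) ∈ ball (0 : P2) (min δ r) := mem_ball_self (lt_min hδ hr)
  have val : ∀ l ∈ ball (0 : P2) (min δ r), ∀ k, F ((a, l), h l) k =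
      if k = 0 then 0 else (nk k : ℂ)⁻¹ * eqn a l X β (Vh (h l)) k := fun l hl k => by
    obtain ⟨u1, u2, u3, -⟩ := H (mem l hl)
    obtain ⟨-, w1, w2, -⟩ := hh l (ball_subset_ball (min_le_left _ _) hl)
    simp only [F, hL, w1, lp.coeFn_add, lp.coeFn_sub, Pi.add_apply, Pi.sub_apply, T0_apply,
      T1_apply, T2_apply, Z0_apply, eqn, fc_eq u1, fc_eq u2, fc_eq u3]
    split_ifs with hk
    · simp [hk, w2, nk_zero]
    · push_cast; ring
  have same : ∀ l ∈ ball (0 : P2) (min δ r), F ((a, l), h l) = F ((a, 0), h 0) := fun l hl =>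
    ext fun k => by
      rw [val l hl, val 0 m0]
      split_ifs with hk
      · rfl
      · rw [(hh l (ball_subset_ball (min_le_left _ _) hl)).2.2.2 k hk]
  let ι : P2 →L[ℝ] EE := (ContinuousLinearMap.inl ℝ _ _).comp (ContinuousLinearMap.inr ℝ _ _)
  have hι : ‖ι‖ ≤ 1 := ContinuousLinearMap.opNorm_le_bound _ one_pos.le fun l => by
    simp [ι]
  have ev : (fun l => Vh (h l) 0) =ᶠ[𝓝 0]
      fun l => Vh (ψ ((((a, 0), F ((a, 0), h 0)) : EE) + ι l)) 0 := by
    filter_upwards [ball_mem_nhds (0 : P2) (lt_min hδ hr)] with l hl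
    have e : (((a, 0), F ((a, 0), h 0)) : EE) + ι l = ((a, l), F ((a, l), h l)) := by
      rw [same l hl]; simp [ι]
    rw [e, (H (mem l hl)).2.2.2.1]
  obtain ⟨an, bd⟩ := (H (mem 0 m0)).2.2.2.2
  refine ⟨(an.comp_of_eq (analyticAt_const.add (ι.analyticAt 0)) (by simp)).congr ev.symm,
    fun k hk => ?_⟩
  rw [(ev.iteratedFDeriv ℝ k).eq_of_nhds]
  exact (bound_slice an ι hι k).trans (bd k hk)

end AWien

open AWien in
theorem wienS : WienS := by
  intro X β η₀ R N hX1 hX2 hβ hβ1 hβ2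
  have hK : IsCompact (closedBall (0 : Par) (max R 0) ∩ {a | a.2.2.2 = 0}) :=
    (isCompact_closedBall _ _).inter_right (isClosed_eq (by fun_prop) continuous_const)
  obtain ⟨r, hr, C, H⟩ : ∃ r > 0, ∃ C : ℝ,
      ∀ a' ∈ closedBall (0 : Par) (max R 0) ∩ {a | a.2.2.2 = 0}, ∀ a, dist a a' < r →
        Good X β N r C a := by
    refine hK.induction_on (p := fun s => ∃ r > 0, ∃ C : ℝ, ∀ a' ∈ s, ∀ a, dist a a' < r →
      Good X β N r C a) ⟨1, one_pos, 0, fun _ h => h.elim⟩ ?_ ?_ ?_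
    · rintro s t hst ⟨r, hr, C, H⟩
      exact ⟨r, hr, C, fun a' h => H a' (hst h)⟩
    · rintro s t ⟨r, hr, C, H⟩ ⟨r', hr', C', H'⟩
      refine ⟨min r r', lt_min hr hr', max C C', fun a' h a ha => ?_⟩
      rcases h with h | h
      · exact (H a' h a (ha.trans_le (min_le_left _ _))).mono (min_le_left _ _) (le_max_left _ _)
      · exact (H' a' h a (ha.trans_le (min_le_right _ _))).mono (min_le_right _ _)
          (le_max_right _ _)
    · intro a₀ h₀
      obtain ⟨r, hr, C, H⟩ := loc hX1 hX2 hβ hβ1 hβ2 N a₀ h₀.2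
      refine ⟨ball a₀ (r / 2), mem_nhdsWithin_of_mem_nhds (ball_mem_nhds _ (half_pos hr)),
        r / 2, half_pos hr, C, fun a' h a ha => (H a ?_).mono (half_le_self hr.le) le_rfl⟩
      rw [mem_ball] at h
      linarith [dist_triangle a a' a₀]
  refine ⟨r / 3, by positivity, C, fun a V δ ha hδ hV => ?_⟩
  have g : Good X β N r C a := by
    refine H (a.1, a.2.1, a.2.2.1, 0) ⟨?_, rfl⟩ a ?_
    · rw [mem_closedBall_zero_iff]
      simp only [Prod.norm_mk, max_le_iff, norm_zero]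
      exact ⟨ha.1.trans (le_max_left _ _), ha.2.1.trans (le_max_left _ _),
        ha.2.2.1.trans (le_max_left _ _), le_max_right _ _⟩
    · simp only [Prod.dist_eq, dist_self, max_lt_iff, dist_zero_right]
      exact ⟨hr, hr, hr, ha.2.2.2.trans_lt (by linarith)⟩
  have ex : ∀ l : P2, ∃ h : W, l ∈ ball (0 : P2) δ →
      ‖h‖ ≤ 2 * (r / 3) ∧ rp h = h ∧ h 0 = 0 ∧ Vh h = V l := fun l => by
    by_cases hl : l ∈ ball (0 : P2) δ
    · obtain ⟨u1, u2, u3, u4, u5, -⟩ := hV l hl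
      obtain ⟨h, hh⟩ := exists_pot u1 u2 u3 u4 u5
      exact ⟨h, fun _ => hh⟩
    · exact ⟨0, fun h => absurd h hl⟩
  choose h hh using ex
  have ev : (fun l => V l 0) =ᶠ[𝓝 0] fun l => Vh (h l) 0 := by
    filter_upwards [ball_mem_nhds (0 : P2) hδ] with l hl
    rw [(hh l hl).2.2.2]
  obtain ⟨an, bd⟩ := g h δ hδ fun l hl => by
    obtain ⟨u1, u2, u3, u4⟩ := hh l hl
    refine ⟨u1.trans_lt (by linarith), u2, u3, ?_⟩
    rw [u4, (hh 0 (mem_ball_self hδ)).2.2.2]
    exact (hV l hl).2.2.2.2.2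
  refine ⟨an.congr ev.symm, fun k hk => ?_⟩
  rw [(ev.iteratedFDeriv ℝ k).eq_of_nhds]
  exact bd k hk

end Pool.Agent.Lib.MP_16d934_gt
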