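import Pool.Agent.Lib.MP_16d934_gt.StC

-- part Pool.Agent.Lib.MP_16d934_gt.ESp3
section

/-! The angle function near radial normals. -/

set_option autoImplicit false

open Set Metric Filter Topology MeasureTheory Asymptotics
open scoped ContDiff InnerProductSpace NNReal Real

noncomputable section

namespace Pool.Agent.Lib.MP_16d934_gt

namespace ESp3

/-- reflection of the first variable -/
def R1 : P2 ≃L[ℝ] P2 := (ContinuousLinearEquiv.neg ℝ).prodCongr (ContinuousLinearEquiv.refl ℝ ℝ)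

/-- reflection of the second variable -/
def R2 : P2 ≃L[ℝ] P2 := (ContinuousLinearEquiv.refl ℝ ℝ).prodCongr (ContinuousLinearEquiv.neg ℝ)

lemma par1 {f : P2 → ℝ} (h : ∀ x : P2, f (-x.1, x.2) = f x) (x : P2) :
    d1 f (-x.1, x.2) = -d1 f x ∧ d2 f (-x.1, x.2) = d2 f x := by
  have e : f ∘ R1 = f := funext h
  have h1 := R1.comp_right_fderiv (f := f) (x := x)
  rw [e] at h1
  have a1 : R1 (1, 0) = -((1, 0) : P2) := by simp [R1]
  have a2 : R1 (0, 1) = ((0, 1) : P2) := by simp [R1]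
  have a3 : R1 x = (-x.1, x.2) := rfl
  simp only [d1, d2]
  rw [h1]
  simp only [ContinuousLinearMap.comp_apply, ContinuousLinearEquiv.coe_coe, a1, a2, a3, map_neg,
    neg_neg, and_self]

lemma par2 {f : P2 → ℝ} (h : ∀ x : P2, f (x.1, -x.2) = f x) (x : P2) :
    d1 f (x.1, -x.2) = d1 f x ∧ d2 f (x.1, -x.2) = -d2 f x := by
  have e : f ∘ R2 = f := funext h
  have h1 := R2.comp_right_fderiv (f := f) (x := x)
  rw [e] at h1
  have a1 : R2 (1, 0) = ((1, 0) : P2) := by simp [R2]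
  have a2 : R2 (0, 1) = -((0, 1) : P2) := by simp [R2]
  have a3 : R2 x = (x.1, -x.2) := rfl
  simp only [d1, d2]
  rw [h1]
  simp only [ContinuousLinearMap.comp_apply, ContinuousLinearEquiv.coe_coe, a1, a2, a3, map_neg,
    neg_neg, and_self]

lemma d1_axis {f : P2 → ℝ} (h : ∀ x : P2, f (-x.1, x.2) = f x) {x : P2} (hx : x.1 = 0) :
    d1 f x = 0 := by
  have := (par1 h x).1
  have e : ((-x.1, x.2) : P2) = x := Prod.ext (by simp [hx]) rfl
  rw [e] at this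
  linarith

lemma d2_axis {f : P2 → ℝ} (h : ∀ x : P2, f (x.1, -x.2) = f x) {x : P2} (hx : x.2 = 0) :
    d2 f x = 0 := by
  have := (par2 h x).2
  have e : ((x.1, -x.2) : P2) = x := Prod.ext rfl (by simp [hx])
  rw [e] at this
  linarith

/-- the representative in the first quadrant -/
def ab (x : P2) : P2 := (|x.1|, |x.2|)

lemma ab_mem {w h : ℝ} {x : P2} (hx : x ∈ Box w h) : ab x ∈ Box w h := by
  have h1 := abs_lt.2 hx.1
  have h2 := abs_lt.2 hx.2
  exact ⟨abs_lt.1 (by rwa [ab, abs_abs]), abs_lt.1 (by rwa [ab, abs_abs])⟩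

lemma ab_val {ϱ : P2 → ℝ} {w h : ℝ} (hp : Piece ϱ w h) {x : P2} (hx : x ∈ Box w h) :
    ϱ (ab x) = ϱ x ∧ d1 ϱ (ab x) = |d1 ϱ x| ∧ d2 ϱ (ab x) = -|d2 ϱ x| := by
  have s1 : 0 ≤ d1 ϱ (ab x) := by
    rcases (abs_nonneg x.1).eq_or_lt with h0 | h0
    · exact (d1_axis hp.ev1 h0.symm).ge
    · exact (hp.m1 _ (ab_mem hx) h0).le
  have s2 : d2 ϱ (ab x) ≤ 0 := by
    rcases (abs_nonneg x.2).eq_or_lt with h0 | h0
    · exact (d2_axis hp.ev2 h0.symm).le
    · exact (hp.m2 _ (ab_mem hx) h0).le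
  have key : ϱ (ab x) = ϱ x ∧ |d1 ϱ (ab x)| = |d1 ϱ x| ∧ |d2 ϱ (ab x)| = |d2 ϱ x| := by
    have p1 := par1 hp.ev1 x
    have p2 := par2 hp.ev2 x
    have p3 := par2 hp.ev2 (-x.1, x.2)
    have p4 := hp.ev2 (-x.1, x.2)
    rcases abs_cases x.1 with h1 | h1 <;> rcases abs_cases x.2 with h2 | h2 <;>
      rw [ab, h1.1, h2.1]
    · exact ⟨rfl, rfl, rfl⟩
    · rw [hp.ev2, p2.1, p2.2, abs_neg]; exact ⟨rfl, rfl, rfl⟩
    · rw [hp.ev1, p1.1, p1.2, abs_neg]; exact ⟨rfl, rfl, rfl⟩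
    · simp only at p3 p4
      rw [p4, hp.ev1, p3.1, p3.2, p1.1, p1.2, abs_neg, abs_neg]; exact ⟨rfl, rfl, rfl⟩
  refine ⟨key.1, ?_, ?_⟩
  · rw [← key.2.1, abs_of_nonneg s1]
  · rw [← key.2.2, abs_of_nonpos s2, neg_neg]

lemma isOpen_Box (w h : ℝ) : IsOpen (Box w h) := isOpen_Ioo.prod isOpen_Ioo

lemma zero_mem_Box {ϱ : P2 → ℝ} {w h : ℝ} (hp : Piece ϱ w h) : (0 : P2) ∈ Box w h :=
  ⟨⟨neg_lt_zero.2 hp.wpos, hp.wpos⟩, ⟨neg_lt_zero.2 hp.hpos, hp.hpos⟩⟩

lemma sc_pos {r : ℝ} (h0 : 0 < r) (h1 : r < π / 2) : 0 < Real.sin r ∧ 0 < Real.cos r :=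
  ⟨Real.sin_pos_of_pos_of_lt_pi h0 (by linarith [Real.pi_pos]),
    Real.cos_pos_of_mem_Ioo ⟨by linarith [Real.pi_pos], h1⟩⟩

lemma cos_sq_lt {r r' : ℝ} (h0 : 0 < r) (h : r < r') (h1 : r' < π / 2) :
    Real.cos r' ^ 2 < Real.cos r ^ 2 :=
  pow_lt_pow_left₀ (Real.cos_lt_cos_of_nonneg_of_le_pi h0.le (by linarith [Real.pi_pos]) h)
    (sc_pos (h0.trans h) h1).2.le two_ne_zero

lemma rj_pos {r : ℝ} (h0 : 0 < r) (h1 : r < π / 2) (p q : ℝ) : 0 < (rj r p q).2.1 := by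
  obtain ⟨hs, hc⟩ := sc_pos h0 h1
  simp only [rj]
  positivity

lemma rj_inj {r r' p q p' q' : ℝ} (h0 : 0 < r) (h1 : r < π / 2) (h0' : 0 < r') (h1' : r' < π / 2)
    (h : rj r p q = rj r' p' q') : r = r' ∧ |p| = |p'| ∧ |q| = |q'| := by
  simp only [rj, Prod.mk.injEq] at h
  obtain ⟨e1, e2, e3, e4⟩ := h
  have hr : r = r' := by
    rcases lt_trichotomy r r' with h | h | h
    · exact absurd e1 (cos_sq_lt h0 h h1').ne'
    · exact h
    · exact absurd e1 (cos_sq_lt h0' h h1).ne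
  subst hr
  obtain ⟨hs, hc⟩ := sc_pos h0 h1
  have w1 : 0 < √(1 + p ^ 2 / Real.sin r ^ 2 + q ^ 2 / Real.cos r ^ 2) := by positivity
  have w2 : 0 < √(1 + p' ^ 2 / Real.sin r ^ 2 + q' ^ 2 / Real.cos r ^ 2) := by positivity
  rw [div_eq_div_iff w1.ne' w2.ne'] at e2
  have e5 := mul_left_cancel₀ (mul_pos hs hc).ne' e2
  rw [e5] at e3 e4
  exact ⟨rfl, (div_left_inj' w1.ne').1 e4, (div_left_inj' w1.ne').1 e3⟩

lemma rj_cont {r : ℝ} (h0 : 0 < r) (h1 : r < π / 2) (p q : ℝ) :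
    ContinuousAt (fun t : ℝ × ℝ × ℝ => rj t.1 t.2.1 t.2.2) (r, p, q) := by
  obtain ⟨hs, hc⟩ := sc_pos h0 h1
  have w1 : 0 < √(1 + p ^ 2 / Real.sin r ^ 2 + q ^ 2 / Real.cos r ^ 2) := by positivity
  have hW : ContinuousAt (fun t : ℝ × ℝ × ℝ =>
      √(1 + t.2.1 ^ 2 / Real.sin t.1 ^ 2 + t.2.2 ^ 2 / Real.cos t.1 ^ 2)) (r, p, q) := by
    refine ContinuousAt.sqrt ((continuousAt_const.add (ContinuousAt.div ?_ ?_ ?_)).add
      (ContinuousAt.div ?_ ?_ ?_))
    · fun_prop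
    · fun_prop
    · exact pow_ne_zero _ hs.ne'
    · fun_prop
    · fun_prop
    · exact pow_ne_zero _ hc.ne'
  unfold rj
  refine ContinuousAt.prodMk (by fun_prop) (ContinuousAt.prodMk ?_ (ContinuousAt.prodMk ?_ ?_))
  · exact ContinuousAt.div (by fun_prop) hW w1.ne'
  · exact ContinuousAt.div (by fun_prop) hW w1.ne'
  · exact ContinuousAt.div (by fun_prop) hW w1.ne'

lemma cont_gn : Continuous fun q : P2 × ℝ => gn q.1 q.2 := by
  have h : Continuous fun q : P2 × ℝ => (√(1 + q.1.1 ^ 2 + q.1.2 ^ 2 + q.2 ^ 2))⁻¹ :=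
    Continuous.inv₀ (by fun_prop) fun q => by positivity
  exact h.smul (g := fun q : P2 × ℝ => (!₂[1, q.1.1, q.1.2, q.2] : E4)) (by fun_prop)

lemma cont_nrm : Continuous fun q : P2 × ℝ × ℝ × ℝ => nrm q.1 q.2.1 q.2.2.1 q.2.2.2 := by
  have h : Continuous fun q : P2 × ℝ × ℝ × ℝ => (√(1 + q.2.2.1 ^ 2 + q.2.2.2 ^ 2 +
      (q.2.1 - q.1.1 * q.2.2.1 - q.1.2 * q.2.2.2) ^ 2))⁻¹ :=
    Continuous.inv₀ (by fun_prop) fun q => by positivity
  exact h.smul (g := fun q : P2 × ℝ × ℝ × ℝ =>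
    (!₂[q.1.1 * q.2.2.1 + q.1.2 * q.2.2.2 - q.2.1, -q.2.2.1, -q.2.2.2, 1] : E4)) (by fun_prop)

lemma cont_pol : Continuous fun q : ℝ × ℝ × ℝ => pol q.1 q.2.1 q.2.2 := by
  unfold pol
  fun_prop

lemma cont_gX (O : Iso) {u : P2 → ℝ} {y : P2} (hu : ContinuousAt u y) :
    ContinuousAt (gX O u) y :=
  O.continuous.continuousAt.comp
    (cont_gn.continuousAt.comp (f := fun y => (y, u y)) (continuousAt_id.prodMk hu))

lemma cont_gN (hD : DerS) (O : Iso) {u : P2 → ℝ} {y : P2} (hu : AnalyticAt ℝ u y) :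
    ContinuousAt (gN O u) y :=
  O.continuous.continuousAt.comp
    (cont_nrm.continuousAt.comp (f := fun y => (y, u y, d1 u y, d2 u y))
      (continuousAt_id.prodMk (hu.continuousAt.prodMk
        ((hD u y hu).1.continuousAt.prodMk (hD u y hu).2.1.continuousAt))))

lemma eq_gn {Z : E4} (h1 : ‖Z‖ = 1) (h0 : 0 < Z 0) :
    Z = gn (Z 1 / Z 0, Z 2 / Z 0) (Z 3 / Z 0) := by
  have e : Z 0 * Z 0 + Z 1 * Z 1 + Z 2 * Z 2 + Z 3 * Z 3 = 1 := by
    rw [← inner4, real_inner_self_eq_norm_sq, h1]; norm_num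
  have e2 : √(1 + (Z 1 / Z 0) ^ 2 + (Z 2 / Z 0) ^ 2 + (Z 3 / Z 0) ^ 2) = (Z 0)⁻¹ := by
    rw [Real.sqrt_eq_iff_mul_self_eq_of_pos (inv_pos.2 h0)]
    field_simp
    linarith
  ext i
  simp only [gn, e2, inv_inv]
  fin_cases i <;> simp <;> field_simp

lemma norm_pol (r φ θ : ℝ) : ‖pol r φ θ‖ = 1 := by
  have e : ‖pol r φ θ‖ ^ 2 = 1 := by
    rw [← real_inner_self_eq_norm_sq, inner4]
    simp only [pol]
    simp
    linear_combination (Real.cos r ^ 2) * Real.sin_sq_add_cos_sq θ +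
      (Real.sin r ^ 2) * Real.sin_sq_add_cos_sq φ + Real.sin_sq_add_cos_sq r
  exact (pow_eq_one_iff_of_nonneg (norm_nonneg _) two_ne_zero).1 e

lemma rot_pol (θ φ r a b : ℝ) : rot θ φ (pol r a b) = pol r (φ + a) (θ + b) := by
  ext i
  fin_cases i <;> simp [rot, mkO_apply, pol, Real.cos_add, Real.sin_add] <;> ring

lemma OG_edge (A B r : ℝ) :
    (OG A B).symm (pol r A B) = !₂[Real.cos r, Real.sin r, 0, 0] := by
  rw [LinearIsometryEquiv.symm_apply_eq]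
  ext i
  fin_cases i <;> simp [OG, OQ, dg, mkO_apply, pol]

/-- angular coordinates -/
def xi (X : E4) : P2 := (Real.arctan (X 3 / X 2), Real.arctan (X 1 / X 0))

lemma xi_pol {r : ℝ} (h0 : 0 < r) (h1 : r < π / 2) {x : P2} (a1 : |x.1| < π / 2)
    (a2 : |x.2| < π / 2) : xi (pol r (0 + x.1) (0 + x.2)) = x := by
  obtain ⟨hs, hc⟩ := sc_pos h0 h1
  rw [abs_lt] at a1 a2
  ext
  · simp only [xi, pol, zero_add]
    simp
    rw [mul_div_mul_left _ _ hs.ne', ← Real.tan_eq_sin_div_cos, Real.arctan_tan a1.1 a1.2]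
  · simp only [xi, pol, zero_add]
    simp
    rw [mul_div_mul_left _ _ hc.ne', ← Real.tan_eq_sin_div_cos, Real.arctan_tan a2.1 a2.2]

lemma xi_rX {ϱ : P2 → ℝ} {w h : ℝ} (hp : Piece ϱ w h) {x : P2} (hx : x ∈ Box w h) :
    xi (rX ϱ 0 0 x) = x :=
  xi_pol (hp.rng x hx).1 (hp.rng x hx).2 ((abs_lt.2 hx.1).trans hp.wlt)
    ((abs_lt.2 hx.2).trans hp.hlt)

lemma cont_xi {X : E4} (h0 : X 0 ≠ 0) (h2 : X 2 ≠ 0) : ContinuousAt xi X := by
  unfold xi
  refine ContinuousAt.prodMk (Real.continuous_arctan.continuousAt.comp ?_)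
    (Real.continuous_arctan.continuousAt.comp ?_)
  · exact ContinuousAt.div (by fun_prop) (by fun_prop) h2
  · exact ContinuousAt.div (by fun_prop) (by fun_prop) h0

/-- sign of a continuous function on the two sides of a graph -/
lemma sides {F : P2 × ℝ → ℝ} {ϱ : P2 → ℝ} {r l : ℝ} (hc : ContinuousAt ϱ 0) (h0 : ϱ 0 = r)
    (h1 : ∀ᶠ q in 𝓝 ((0, r) : P2 × ℝ), ContinuousAt F q ∧ (F q = l → q.2 = ϱ q.1))
    (h2 : ∀ᶠ s in 𝓝 r, (r < s → F (0, s) < l) ∧ (s < r → l < F (0, s))) :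
    ∀ᶠ q in 𝓝 ((0, r) : P2 × ℝ), (ϱ q.1 < q.2 → F q < l) ∧ (q.2 < ϱ q.1 → l < F q) := by
  obtain ⟨δ₁, hδ₁, h1⟩ := Metric.eventually_nhds_iff_ball.1 h1
  obtain ⟨δ₂, hδ₂, h2⟩ := Metric.eventually_nhds_iff_ball.1 h2
  set δ := min δ₁ δ₂ / 2 with hδ
  have hδ0 : 0 < δ := half_pos (lt_min hδ₁ hδ₂)
  have hd1 : δ < δ₁ := by have := min_le_left δ₁ δ₂; linarith
  have hd2 : δ < δ₂ := by have := min_le_right δ₁ δ₂; linarith
  obtain ⟨δ₃, hδ₃, h3⟩ := Metric.continuousAt_iff.1 hc δ hδ0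
  set ε := min δ₃ δ with hε
  have hε0 : 0 < ε := lt_min hδ₃ hδ0
  have hb : ∀ x ∈ ball (0 : P2) ε, r - δ < ϱ x ∧ ϱ x < r + δ := by
    intro x hx
    have := h3 (ball_subset_ball (min_le_left _ _) hx)
    rw [h0, Real.dist_eq, abs_lt] at this
    constructor <;> linarith [this.1, this.2]
  have hin : ∀ x ∈ ball (0 : P2) ε, ∀ s, r - δ ≤ s → s ≤ r + δ →
      (x, s) ∈ ball ((0, r) : P2 × ℝ) δ₁ := by
    intro x hx s a1 a2
    rw [← ball_prod_same]
    refine ⟨ball_subset_ball ((min_le_right _ _).trans hd1.le) hx, ?_⟩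
    rw [mem_ball, Real.dist_eq, abs_lt]
    constructor <;> linarith
  have key : ∀ x ∈ ball (0 : P2) ε, ∀ s t : ℝ, r - δ ≤ s → s ≤ r + δ → (t = r + δ ∨ t = r - δ) →
      (∀ s' ∈ uIcc s t, s' ≠ ϱ x) → l ∉ uIcc (F (0, t)) (F (x, s)) := by
    intro x hx s t a1 a2 ht hne hl
    have t1 : r - δ ≤ t ∧ t ≤ r + δ := by rcases ht with rfl | rfl <;> constructor <;> linarith
    have hC : IsPreconnected (({x} ×ˢ uIcc s t) ∪ (ball (0 : P2) ε ×ˢ {t})) :=
      IsPreconnected.union (x, t) ⟨rfl, right_mem_uIcc⟩ ⟨hx, rfl⟩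
        (isPreconnected_singleton.prod isPreconnected_uIcc)
        ((convex_ball _ _).isPreconnected.prod isPreconnected_singleton)
    have hsub : ∀ q ∈ ({x} ×ˢ uIcc s t) ∪ (ball (0 : P2) ε ×ˢ {t}),
        q ∈ ball ((0, r) : P2 × ℝ) δ₁ ∧ q.2 ≠ ϱ q.1 := by
      rintro ⟨y, s'⟩ (⟨hy, hs'⟩ | ⟨hy, hs'⟩)
      · obtain rfl : y = x := hy
        exact ⟨hin _ hx _ ((le_min a1 t1.1).trans hs'.1) (hs'.2.trans (max_le a2 t1.2)),
          hne _ hs'⟩
      · obtain rfl : s' = t := hs'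
        refine ⟨hin _ hy _ t1.1 t1.2, ?_⟩
        have := hb y hy
        rcases ht with rfl | rfl
        exacts [this.2.ne', this.1.ne]
    have hcont : ContinuousOn F (({x} ×ˢ uIcc s t) ∪ (ball (0 : P2) ε ×ˢ {t})) :=
      fun q hq => (h1 q (hsub q hq).1).1.continuousWithinAt
    have hord := (hC.image F hcont).ordConnected
    obtain ⟨q, hq, hql⟩ := hord.uIcc_subset
      (mem_image_of_mem F (x := (0, t)) (Or.inr ⟨mem_ball_self hε0, rfl⟩))
      (mem_image_of_mem F (x := (x, s)) (Or.inl ⟨rfl, left_mem_uIcc⟩)) hl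
    exact (hsub q hq).2 ((h1 q (hsub q hq).1).2 hql)
  refine Metric.eventually_nhds_iff_ball.2 ⟨ε, hε0, ?_⟩
  rintro ⟨x, s⟩ hq
  rw [← ball_prod_same] at hq
  obtain ⟨hx, hs⟩ := hq
  have hs' : r - δ ≤ s ∧ s ≤ r + δ := by
    have := ball_subset_ball (min_le_right _ _) hs
    rw [mem_ball, Real.dist_eq, abs_lt] at this
    constructor <;> linarith [this.1, this.2]
  constructor
  · intro h
    have a1 := (h2 (r + δ) (by
      rw [mem_ball, Real.dist_eq, add_sub_cancel_left, abs_of_pos hδ0]; exact hd2)).1 (by linarith)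
    have a2 := key x hx s (r + δ) hs'.1 hs'.2 (Or.inl rfl) fun s' h' => by
      rw [uIcc_of_le hs'.2] at h'
      exact (h.trans_le h'.1).ne'
    by_contra hcon
    exact a2 (mem_uIcc.2 (Or.inl ⟨a1.le, not_lt.1 hcon⟩))
  · intro h
    have a1 := (h2 (r - δ) (by
      rw [mem_ball, Real.dist_eq, sub_sub_cancel_left, abs_neg, abs_of_pos hδ0]
      exact hd2)).2 (by linarith)
    have a2 := key x hx s (r - δ) hs'.1 hs'.2 (Or.inr rfl) fun s' h' => by
      rw [uIcc_of_ge hs'.1] at h'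
      exact (h'.2.trans_lt h).ne
    by_contra hcon
    exact a2 (mem_uIcc.2 (Or.inr ⟨not_lt.1 hcon, a1.le⟩))

lemma mixed {ϱ : P2 → ℝ} {w h : ℝ} (hp : Piece ϱ w h) : d1 (d2 ϱ) 0 = 0 :=
  d1_axis (fun x => (par1 hp.ev1 x).2) rfl

lemma grad_inj (hD : DerS) {ϱ : P2 → ℝ} {w h : ℝ} (hp : Piece ϱ w h) :
    ∃ N ∈ 𝓝 (0 : P2), ∀ x ∈ N, ∀ x' ∈ N, d1 ϱ x = d1 ϱ x' → d2 ϱ x = d2 ϱ x' → x = x' := by
  have ha := hp.ana 0 (zero_mem_Box hp)
  obtain ⟨a1, a2, a3, -⟩ := hD ϱ 0 ha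
  have f1 := (hD _ 0 a1).2.2.2.2.2.2.2.2.1
  have f2 := (hD _ 0 a2).2.2.2.2.2.2.2.2.1
  rw [a3, mixed hp] at f1
  rw [mixed hp] at f2
  have c1 := hp.cvx.1
  have c2 := hp.cvx.2
  set m := min (d1 (d1 ϱ) 0) (-d2 (d2 ϱ) 0) / 2 with hm
  have hm0 : 0 < m := half_pos (lt_min c1 (neg_pos.2 c2))
  have m1 : 2 * m ≤ d1 (d1 ϱ) 0 := by have := min_le_left (d1 (d1 ϱ) 0) (-d2 (d2 ϱ) 0); linarith
  have m2 : 2 * m ≤ -d2 (d2 ϱ) 0 := by have := min_le_right (d1 (d1 ϱ) 0) (-d2 (d2 ϱ) 0); linarith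
  have e := (a1.hasStrictFDerivAt.isLittleO.def hm0).and (a2.hasStrictFDerivAt.isLittleO.def hm0)
  rw [nhds_prod_eq] at e
  obtain ⟨N, hN, h⟩ := Filter.mem_prod_self_iff.1 e
  refine ⟨N, hN, fun x hx x' hx' g1 g2 => ?_⟩
  obtain ⟨b1, b2⟩ := h (mk_mem_prod hx hx')
  simp only [f1, f2, g1, g2, sub_self, zero_sub, norm_neg, zero_mul, add_zero, zero_add,
    norm_mul, Real.norm_eq_abs, abs_of_pos c1, abs_of_neg c2] at b1 b2
  have hn : ‖x - x'‖ = max |(x - x').1| |(x - x').2| := rfl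
  have h0 : ‖x - x'‖ ≤ 0 := by
    have n1 := abs_nonneg (x - x').1
    have n2 := abs_nonneg (x - x').2
    rcases max_cases |(x - x').1| |(x - x').2| with hh | hh <;> rw [hn, hh.1] at b1 b2 ⊢ <;>
      nlinarith
  exact sub_eq_zero.1 (norm_le_zero_iff.1 h0)

lemma zero_mem_Rho {a b : ℝ} : (0 : P2) ∈ Rho a b := by simp [Rho]

lemma isOpen_Rho (a b : ℝ) : IsOpen (Rho a b) := isOpen_lt (by fun_prop) continuous_const

lemma isOpen_HE (a b : ℝ) : IsOpen (HE a b) :=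
  (isOpen_lt continuous_const continuous_fst).inter
    (isOpen_lt (f := fun y : P2 => |y.2|) (g := fun y : P2 => min b (a * y.1) / 2)
      (by fun_prop) (by fun_prop))

/-- radial jets occur at the centre of a leaf -/
lemma centre (hI : InvS) (hAt : AttS) (hE : EaS) (h1 : Sp1S) {r : ℝ} (h0 : 0 < r)
    (hr : r < π / 2) : Lam (rj r 0 0) ∈ Ioo 0 π ∧ rj r 0 0 = lj (lf (Lam (rj r 0 0))) 0 := by
  have hp := rj_pos h0 hr 0 0
  obtain ⟨l, hl, ha⟩ := hE _ (hI.rjm r 0 0 h0 hr) (fun h => hp.ne' h.1) (fun h => hp.ne' h.1)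
  rw [((h1.2 l hl _).1 ha).2]
  refine ⟨hl, ?_⟩
  rcases hAt.char l hl _ ha with ⟨y, hy, -, -, e⟩ | ⟨s, hs, e⟩
  · obtain ⟨-, -, -, b1, b2, -⟩ := hAt.int l hl y hy
    rw [← e] at b1 b2
    have : y = 0 := Prod.ext (b2.1 (by simp [rj])) (b1.1 (by simp [rj]))
    rw [e, this]
  · rw [e] at hp
    exact absurd (hAt.edge l hl s hs).2.2.1 hp.ne'

/-- points of the quarter with small gradient and value near `r` are near the centre -/
lemma near (hD : DerS) (hT : TetS) (hIc : IcS) (hAt : AttS) {l : ℝ} (hl : l ∈ Ioo 0 π)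
    {ϱ : P2 → ℝ} (hp : LeafPiece (aL l) √2 (lf l) ϱ) {r : ℝ} (h0 : 0 < r) (hr : r < π / 2) :
    comap (fun x => (ϱ x, d1 ϱ x, d2 ϱ x)) (𝓝 (r, 0, 0)) ⊓
      𝓟 {x | x ∈ Box (hA (aL l)) (hA √2) ∧ 0 ≤ x.1 ∧ 0 ≤ x.2} ≤ 𝓝 0 := by
  have hP := hp.piece
  refine ((isCompact_Icc (a := 0) (b := hA (aL l))).prod
    (isCompact_Icc (a := 0) (b := hA √2))).le_nhds_of_unique_clusterPt ?_ ?_
  · exact mem_inf_of_right
      (mem_principal.2 fun x hx => ⟨⟨hx.2.1, hx.1.1.2.le⟩, ⟨hx.2.2, hx.1.2.2.le⟩⟩)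
  intro z hz hcl
  obtain ⟨H, hne, t0, t1, ev⟩ : ∃ H : Filter P2, H.NeBot ∧ H ≤ 𝓝 z ∧
      Tendsto (fun x => (ϱ x, d1 ϱ x, d2 ϱ x)) H (𝓝 (r, 0, 0)) ∧
      ∀ᶠ x in H, x ∈ Box (hA (aL l)) (hA √2) ∧ 0 ≤ x.1 ∧ 0 ≤ x.2 :=
    ⟨_, hcl, inf_le_left, tendsto_comap.mono_left (inf_le_right.trans inf_le_left),
      mem_inf_of_right (mem_inf_of_right (mem_principal_self _))⟩
  have tr : Tendsto ϱ H (𝓝 r) := (continuous_fst.tendsto _).comp t1
  have tp : Tendsto (d1 ϱ) H (𝓝 0) := (continuous_snd.fst.tendsto _).comp t1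
  have tq : Tendsto (d2 ϱ) H (𝓝 0) := (continuous_snd.snd.tendsto _).comp t1
  have tx : Tendsto Prod.fst H (𝓝 z.1) := (continuous_fst.tendsto _).mono_left t0
  have ty : Tendsto Prod.snd H (𝓝 z.2) := (continuous_snd.tendsto _).mono_left t0
  rcases hz.1.2.lt_or_eq with c1 | c1 <;> rcases hz.2.2.lt_or_eq with c2 | c2
  · have hzB : z ∈ Box (hA (aL l)) (hA √2) :=
      ⟨⟨(neg_lt_zero.2 hP.wpos).trans_le hz.1.1, c1⟩, ⟨(neg_lt_zero.2 hP.hpos).trans_le hz.2.1, c2⟩⟩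
    obtain ⟨a1, a2, -⟩ := hD ϱ z (hP.ana z hzB)
    have e1 := tendsto_nhds_unique (a1.continuousAt.tendsto.mono_left t0) tp
    have e2 := tendsto_nhds_unique (a2.continuousAt.tendsto.mono_left t0) tq
    refine Prod.ext (le_antisymm (not_lt.1 fun h => ?_) hz.1.1)
      (le_antisymm (not_lt.1 fun h => ?_) hz.2.1)
    · exact (hP.m1 z hzB h).ne' e1
    · exact (hP.m2 z hzB h).ne e2
  · exfalso
    obtain ⟨θ, hθ, hlim⟩ := hP.limQ ((z.1 + hA (aL l)) / 2) (by linarith) (r / 2) (by linarith)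
    obtain ⟨x, ⟨⟨b1, b2⟩, b3⟩, b4⟩ := (((ev.and (ty.eventually (lt_mem_nhds (c2 ▸ hθ)))).and
      (tx.eventually (gt_mem_nhds (show z.1 < (z.1 + hA (aL l)) / 2 by linarith)))).and
      (tr.eventually (lt_mem_nhds (show r / 2 < r by linarith)))).exists
    have := hlim x b1.1 b2 (by rw [abs_of_nonneg b1.2.1]; exact b3.le)
    linarith
  · exfalso
    obtain ⟨φ, hφ, hlim⟩ := hP.limP ((z.2 + hA √2) / 2) (by linarith) ((π / 2 - r) / 2)
      (by linarith)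
    obtain ⟨x, ⟨⟨b1, b2⟩, b3⟩, b4⟩ := (((ev.and (tx.eventually (lt_mem_nhds (c1 ▸ hφ)))).and
      (ty.eventually (gt_mem_nhds (show z.2 < (z.2 + hA √2) / 2 by linarith)))).and
      (tr.eventually (gt_mem_nhds (show r < π / 2 - (π / 2 - r) / 2 by linarith)))).exists
    have := hlim x b1.1 b2 (by rw [abs_of_nonneg b1.2.2]; exact b3.le)
    linarith
  exfalso
  obtain ⟨⟨L, hE⟩, -⟩ := hIc.ezs l hl
  obtain ⟨hs, hc⟩ := sc_pos h0 hr
  have ha := (hT.ang.2.2 l hl).1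
  set O := OG (hA (aL l)) (hA √2) with hO
  have tZ : Tendsto (fun x => O.symm (rX ϱ 0 0 x)) H (𝓝 !₂[Real.cos r, Real.sin r, 0, 0]) := by
    rw [← OG_edge (hA (aL l)) (hA √2) r]
    refine (O.symm.continuous.tendsto _).comp ?_
    have := (cont_pol.tendsto (r, 0 + z.1, 0 + z.2)).comp
      (tr.prodMk_nhds ((tx.const_add 0).prodMk_nhds (ty.const_add 0)))
    rw [c1, c2, zero_add, zero_add] at this
    exact this
  have tc : ∀ i, Tendsto (fun x => O.symm (rX ϱ 0 0 x) i) H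
      (𝓝 ((!₂[Real.cos r, Real.sin r, 0, 0] : E4) i)) := fun i =>
    ((show Continuous fun X : E4 => X i by fun_prop).tendsto _).comp tZ
  have tη : Tendsto (fun x => ((O.symm (rX ϱ 0 0 x) 1 / O.symm (rX ϱ 0 0 x) 0,
      O.symm (rX ϱ 0 0 x) 2 / O.symm (rX ϱ 0 0 x) 0) : P2)) H (𝓝 (Real.sin r / Real.cos r, 0)) := by
    have := ((tc 1).div (tc 0) hc.ne').prodMk_nhds ((tc 2).div (tc 0) hc.ne')
    simpa using this
  have hs0 : 0 < Real.sin r / Real.cos r := div_pos hs hc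
  have hmem : ((Real.sin r / Real.cos r, 0) : P2) ∈ HE (aL l) √2 := by
    refine ⟨hs0, ?_⟩
    simp only [abs_zero]
    exact half_pos (lt_min (by positivity) (mul_pos ha hs0))
  have hζ := hE.sol.1 _ hmem
  have cv : Continuous fun p : E4 × E4 => |vv p.1 p.2| := by unfold vv; fun_prop
  have l1 := (cv.tendsto _).comp
    (((cont_gX O hζ.continuousAt).prodMk (cont_gN hD O hζ)).tendsto.comp tη)
  have l2 := (continuous_snd.fst.tendsto _).comp ((rj_cont h0 hr 0 0).tendsto.comp t1)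
  have l3 : (rj r 0 0).2.1 = (ej l (Real.sin r / Real.cos r)).2.1 := by
    have e : (ej l (Real.sin r / Real.cos r)).2.1 =
        |vv (gX O (ez l) (Real.sin r / Real.cos r, 0))
          (gN O (ez l) (Real.sin r / Real.cos r, 0))| := by
      rw [hO, hT.ang.2.1, (hT.ang.2.2 l hl).2]; rfl
    rw [e]
    refine tendsto_nhds_unique_of_eventuallyEq l2 l1 ?_
    filter_upwards [ev, tη.eventually ((isOpen_HE _ _).mem_nhds hmem),
      (tc 0).eventually (lt_mem_nhds hc), tx.eventually (lt_mem_nhds (c1 ▸ hP.wpos)),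
      ty.eventually (lt_mem_nhds (c2 ▸ hP.hpos))] with x b1 b2 b3 b4 b5
    obtain ⟨y, hy, g1, g2, g3, g4⟩ := hp.mem x b1.1
    have hn : ‖O.symm (rX ϱ 0 0 x)‖ = 1 := by rw [LinearIsometryEquiv.norm_map, rX, norm_pol]
    have g5 := congrArg O (eq_gn hn b3)
    rw [LinearIsometryEquiv.apply_symm_apply] at g5
    obtain ⟨k1, k2⟩ := hE.conv y hy _ b2 _ (g1.trans g5) (g3.1 b4).le (g4.1 b5).le
    obtain ⟨y', -, -, -, k3, k4⟩ := hE.mem _ b2 k1
    rw [k2] at g5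
    have k5 : gX O0 (lf l) y' = gX O0 (lf l) y := k3.trans (g1.trans g5).symm
    obtain rfl : y' = y := (hT.inj O0 _ _ _ _ k5).1
    simp only [Function.comp_apply]
    rw [← g2, ← k3, ← k4]
    rfl
  rw [(hAt.edge l hl _ hs0).2.2.1] at l3
  exact (rj_pos h0 hr 0 0).ne' l3

end ESp3

open ESp3 in
theorem sp3S (hD : DerS) (hI : InvS) (hT : TetS) (hL : LfS) (hP : PieceS) (hIc : IcS)
    (hAl : AlignS) (hAt : AttS) (hE : EaS) (h1 : Sp1S) : Sp3S := by
  rintro r ⟨h0, hr⟩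
  obtain ⟨hl, hc⟩ := centre hI hAt hE h1 h0 hr
  set l := Lam (rj r 0 0) with hldef
  have hleaf := hL l hl
  obtain ⟨ϱ, hp⟩ := hP _ _ _ hleaf
  have hQ := hp.piece
  have hB := zero_mem_Box hQ
  have hBn := (isOpen_Box _ _).mem_nhds hB
  have ha := hQ.ana 0 hB
  have z1 : d1 ϱ 0 = 0 := d1_axis hQ.ev1 rfl
  have z2 : d2 ϱ 0 = 0 := d2_axis hQ.ev2 rfl
  obtain ⟨a1, a2, -, -, -, -, -, -, a3, -⟩ := hD ϱ 0 ha
  have hcen : gX O0 (lf l) 0 = rX ϱ 0 0 0 ∧ ϱ 0 = r := by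
    obtain ⟨y, hy, g1, g2, -⟩ := hp.mem 0 hB
    rw [z1, z2] at g2
    obtain ⟨-, -, -, b1, b2, -⟩ := hAt.int l hl y hy
    rw [g2] at b1 b2
    obtain rfl : y = 0 := Prod.ext (b2.1 (by simp [rj])) (b1.1 (by simp [rj]))
    exact ⟨g1, (rj_inj (hQ.rng 0 hB).1 (hQ.rng 0 hB).2 h0 hr (g2.symm.trans hc.symm)).1⟩
  refine ⟨ϱ, ha, hcen.2, ?_, hQ.cvx.1, mixed hQ, hQ.cvx.2, fun φ θ => ?_, ?_, fun S φ θ hS => ?_⟩
  · ext <;> simp [a3, z1, z2]
  · filter_upwards [hBn] with x hx using hQ.minimal φ θ x hx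
  · refine sides (F := fun q => Lam (rj q.2 (d1 ϱ q.1) (d2 ϱ q.1))) ha.continuousAt hcen.2 ?_ ?_
    · obtain ⟨N, hN, hinj⟩ := grad_inj hD hQ
      obtain ⟨M, hM, hMN⟩ := mem_comap.1
        (mem_inf_principal.1 (near hD hT hIc hAt hl hp h0 hr hN))
      have hU : ∀ᶠ q : P2 × ℝ in 𝓝 (0, r), q ∈ Box (hA (aL l)) (hA √2) ×ˢ Ioo 0 (π / 2) :=
        ((isOpen_Box _ _).prod isOpen_Ioo).mem_nhds ⟨hB, h0, hr⟩
      have cab : Continuous ab := by unfold ab; fun_prop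
      have tab : Tendsto (fun q : P2 × ℝ => ab q.1) (𝓝 (0, r)) (𝓝 0) := by
        have := (cab.comp continuous_fst).tendsto ((0, r) : P2 × ℝ)
        have e : (ab ∘ Prod.fst) ((0, r) : P2 × ℝ) = 0 := by simp [ab]
        rw [e] at this
        exact this
      have tM : Tendsto (fun q : P2 × ℝ => (q.2, d1 ϱ (ab q.1), d2 ϱ (ab q.1))) (𝓝 (0, r))
          (𝓝 (r, 0, 0)) := by
        have := (continuous_snd.tendsto ((0, r) : P2 × ℝ)).prodMk_nhds
          ((a1.continuousAt.tendsto.comp tab).prodMk_nhds (a2.continuousAt.tendsto.comp tab))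
        rw [z1, z2] at this
        exact this
      filter_upwards [hU, hU.eventually_nhds, tab.eventually hN, tM.eventually hM]
        with q hq hq' hqN hqM
      obtain ⟨c1, c2, -⟩ := hD ϱ q.1 (hQ.ana _ hq.1)
      have hJ := hI.rjm q.2 (d1 ϱ q.1) (d2 ϱ q.1) hq.2.1 hq.2.2
      constructor
      · have t1 : Tendsto (fun q : P2 × ℝ => (q.2, d1 ϱ q.1, d2 ϱ q.1)) (𝓝 q)
            (𝓝 (q.2, d1 ϱ q.1, d2 ϱ q.1)) :=
          (continuous_snd.tendsto q).prodMk_nhds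
            ((c1.continuousAt.tendsto.comp (continuous_fst.tendsto q)).prodMk_nhds
              (c2.continuousAt.tendsto.comp (continuous_fst.tendsto q)))
        have t2 : Tendsto (fun q : P2 × ℝ => rj q.2 (d1 ϱ q.1) (d2 ϱ q.1)) (𝓝 q)
            (𝓝 (rj q.2 (d1 ϱ q.1) (d2 ϱ q.1))) := by
          have := (rj_cont hq.2.1 hq.2.2 (d1 ϱ q.1) (d2 ϱ q.1)).tendsto.comp t1
          exact this
        have t3 : Tendsto (fun q : P2 × ℝ => rj q.2 (d1 ϱ q.1) (d2 ϱ q.1)) (𝓝 q)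
            (𝓝[JS] (rj q.2 (d1 ϱ q.1) (d2 ϱ q.1))) := by
          refine tendsto_nhdsWithin_of_tendsto_nhds_of_eventually_within _ t2 ?_
          filter_upwards [hq'] with q' h' using hI.rjm _ _ _ h'.2.1 h'.2.2
        exact Tendsto.comp (g := Lam) (h1.1.cont _ hJ) t3
      · intro hF
        rcases hAt.char l hl _ ((h1.2 l hl _).2 ⟨hJ, hF⟩) with ⟨y, hy, -, -, e⟩ | ⟨s, hs, e⟩
        swap
        · have := rj_pos hq.2.1 hq.2.2 (d1 ϱ q.1) (d2 ϱ q.1)
          rw [e] at this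
          exact absurd (hAt.edge l hl s hs).2.2.1 this.ne'
        obtain ⟨x, hx, g0⟩ := hp.conv y hy
        obtain ⟨y', -, g1, g2, -⟩ := hp.mem x hx
        obtain rfl : y' = y := (hT.inj O0 _ _ _ _ (g1.trans g0.symm)).1
        obtain ⟨k1, k2, k3⟩ := rj_inj hq.2.1 hq.2.2 (hQ.rng x hx).1 (hQ.rng x hx).2 (e.trans g2)
        obtain ⟨u1, u2, u3⟩ := ab_val hQ hq.1
        obtain ⟨v1, v2, v3⟩ := ab_val hQ hx
        have w1 : d1 ϱ (ab q.1) = d1 ϱ (ab x) := by rw [u2, v2, k2]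
        have w2 : d2 ϱ (ab q.1) = d2 ϱ (ab x) := by rw [u3, v3, k3]
        have hxN : ab x ∈ N := by
          refine hMN (a := ab x) ?_ ⟨ab_mem hx, abs_nonneg _, abs_nonneg _⟩
          rw [mem_preimage, v1, ← k1, ← w1, ← w2]
          exact hqM
        rw [k1, ← v1, ← u1, hinj _ hqN _ hxN w1 w2]
    · filter_upwards [Ioo_mem_nhds h0 hr] with s hs
      obtain ⟨hl', hc'⟩ := centre hI hAt hE h1 hs.1 hs.2
      have e : aa (gX O0 (lf l) 0) = Real.cos r ^ 2 := (congrArg Prod.fst hc).symm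
      have e' : aa (gX O0 (lf (Lam (rj s 0 0))) 0) = Real.cos s ^ 2 := (congrArg Prod.fst hc').symm
      simp only [z1, z2]
      constructor
      · intro h
        refine (hAl.mid.lt_iff_lt hl' hl).1 ?_
        simp only [e, e']
        exact cos_sq_lt h0 h hs.2
      · intro h
        refine (hAl.mid.lt_iff_lt hl hl').1 ?_
        simp only [e, e']
        exact cos_sq_lt hs.1 h hr
  · obtain ⟨hs, hco⟩ := sc_pos h0 hr
    have cX := cont_gX O0 (hleaf.sol.1 0 zero_mem_Rho).continuousAt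
    have cξ : ContinuousAt xi (gX O0 (lf l) 0) := by
      rw [hcen.1]
      refine cont_xi ?_ ?_ <;> simp [rX, pol, hcen.2, hs.ne', hco.ne']
    have t := (cξ.comp cX).tendsto
    rw [Function.comp_apply, hcen.1, xi_rX hQ hB] at t
    obtain ⟨V, hV, hVo, hV0⟩ := _root_.eventually_nhds_iff.1
      ((t.eventually hS).and ((isOpen_Rho (aL l) √2).mem_nhds zero_mem_Rho))
    refine ⟨l, hl, rot θ φ, hI.gams.1 θ φ, V, hVo, ⟨0, hV0⟩, fun y hy => (hV y hy).2,
      fun y hy => ?_⟩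
    obtain ⟨x, hx, g⟩ := hp.conv y (hV y hy).2
    have := (hV y hy).1
    rw [Function.comp_apply, g, xi_rX hQ hx] at this
    rw [g, rX, rot_pol, zero_add, zero_add]
    exact this

end Pool.Agent.Lib.MP_16d934_gt
end
end

-- part Pool.Agent.Lib.MP_16d934_gt.Final
section

/-! The last step. -/

set_option autoImplicit false

open Set Metric Filter Topology
open scoped ContDiff InnerProductSpace NNReal Real

noncomputable section

namespace Pool.Agent.Lib.MP_16d934_gt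

theorem final (hT : TouchS) (hI : InvS) (hH : HomS) (hN : NormS) (hO : OneS) (hS : StarS)
    (hC : CoinS) (hTet : TetS) (hLf : LfS) (hLaw : LawS) (hOrb : OrbS) (h1 : Sp1S) (h2 : Sp2S)
    (h3 : Sp3S) (γ : ℕ) (hγ : 1 ≤ γ) :
    (∃! M, LawsonDisc γ M) ∧ ∀ M, LawsonDisc γ M → ∀ (S : Set E4) (τ ρ : E4 ≃ₗᵢ[ℝ] E4),
      ClosedMin γ S → Type0 S τ ρ → ∃ g : E4 ≃ₗᵢ[ℝ] E4, g '' {x | Orbit γ M x} = S := by
  refine ⟨⟨leafSet (π / (γ + 1)), (hLaw γ hγ _).2 rfl, fun M hM => (hLaw γ hγ M).1 hM⟩, ?_⟩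
  intro M hM S τ ρ hS' hty
  obtain rfl := (hLaw γ hγ M).1 hM
  obtain ⟨g₀, hs1⟩ := hN γ S τ ρ hγ hS' hty
  have hs2 := hO _ hs1
  obtain ⟨H, n, t, hst⟩ := hS _ hs2
  obtain ⟨l, hl, g, hg, V, hVo, ⟨y₀, hy₀⟩, hVs, hV⟩ := hC _ Lam cL hs2 h1.1 h2 h3
  set S₁ := g₀ '' S with hS₁
  set S₂ := g.symm '' S₁ with hS₂
  have hm2 : IsMin S₂ := hI.min g.symm S₁ hs2.minimal
  have hc2 : IsCompact S₂ := hs2.cpt.image g.symm.continuous
  have hn2 : IsConnected S₂ := hs2.conn.image _ g.symm.continuous.continuousOn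
  have hlf := hLf l hl
  obtain ⟨-, -, hcl, hmin, hpre, hch⟩ := hTet.cpt _ _ _ hlf
  have hsub : gX O0 (lf l) '' Rho (aL l) √2 ⊆ S₂ := by
    refine hT.cont _ _ hmin hm2 hpre (fun x hx => ?_) ⟨_, ⟨y₀, hVs hy₀, rfl⟩, ?_⟩
    · rw [← hc2.isClosed.closure_eq]; exact hx.2
    · obtain ⟨W, hWo, hW⟩ := hch.rel V hVs hVo
      have hmem : gX O0 (lf l) y₀ ∈ W := (hW ▸ mem_image_of_mem _ hy₀ : _ ∈ _ ∩ W).2
      filter_upwards [self_mem_nhdsWithin, mem_nhdsWithin_of_mem_nhds (hWo.mem_nhds hmem)]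
        with x hx hxW
      obtain ⟨y, hy, rfl⟩ : x ∈ gX O0 (lf l) '' V := hW ▸ ⟨hx, hxW⟩
      exact ⟨_, hV y hy, g.symm_apply_apply _⟩
  have hsub' : leafSet l ⊆ S₂ := by
    rw [leafSet, ← hcl]
    exact hc2.isClosed.closure_subset_iff.2 hsub
  obtain ⟨γ', -, hl', horb, hcard⟩ := hOrb S₂ hm2 hc2 hn2 l hl hsub'
  have hcnt : (S₂ ∩ {x | aa x = 0}).ncard = 2 * n := by
    rw [← hst.cnt]
    have : S₂ ∩ {x | aa x = 0} = g.symm '' (S₁ ∩ {x | aa x = 0}) := by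
      ext x
      constructor
      · rintro ⟨⟨z, hz, rfl⟩, hx⟩
        exact ⟨z, ⟨hz, by simpa [(hI.gam g hg).1 z] using hx⟩, rfl⟩
      · rintro ⟨z, ⟨hz, hz'⟩, rfl⟩
        exact ⟨⟨z, hz, rfl⟩, by simpa [(hI.gam g hg).1 z] using hz'⟩
    rw [this, ncard_image_of_injective _ g.symm.injective]
  have hb : betti1 S₁ = 2 * γ := by rw [hS₁, hI.betti, hS'.2.2.2]
  have hγ' : γ' = γ := by
    rcases hH.star S₁ H n t hst (fun x hx => ⟨hs2.r0 x hx, hs2.r1 x hx⟩) with h | h <;> omega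
  subst hγ'
  refine ⟨g.trans g₀.symm, ?_⟩
  rw [← hl', horb, hS₂, hS₁, image_image, image_image]
  simp

end Pool.Agent.Lib.MP_16d934_gt
end
end

-- part Pool.Agent.Lib.MP_16d934_gt.AWiena
section

/-! The Wiener algebra of the two-torus. -/

set_option autoImplicit false

open Set Metric Filter Topology MeasureTheory
open scoped ContDiff NNReal Real ComplexConjugate

noncomputable section

namespace Pool.Agent.Lib.MP_16d934_gt.AWien

/-- the frequency lattice -/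
abbrev Z2 : Type := ℤ × ℤ

/-- absolutely summable coefficient families -/
abbrev W : Type := lp (fun _ : Z2 => ℂ) 1

lemma summ (w : W) : Summable fun k => ‖w k‖ := by simpa using w.2.summable

lemma norm_eq (w : W) : ‖w‖ = ∑' k, ‖w k‖ := by simp [lp.norm_eq_tsum_rpow]

/-- the element with given coefficients -/
def mk (f : Z2 → ℂ) (hf : Summable fun k => ‖f k‖) : W := ⟨f, memℓp_gen (by simpa using hf)⟩

@[simp] lemma mk_apply (f : Z2 → ℂ) (hf : Summable fun k => ‖f k‖) (k : Z2) : mk f hf k = f k :=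
  rfl

lemma ext {a b : W} (h : ∀ k, a k = b k) : a = b := lp.ext (funext h)

lemma norm_ex (k : Z2) (y : P2) : ‖ex k y‖ = 1 := by
  have : ex k y = Complex.exp ((2 * π * (k.1 * y.1 + k.2 * y.2) : ℝ) * Complex.I) := by
    unfold ex; congr 1; push_cast; ring
  rw [this, Complex.norm_exp_ofReal_mul_I]

lemma ex_add (j k : Z2) (y : P2) : ex (j + k) y = ex j y * ex k y := by
  unfold ex
  rw [← Complex.exp_add]; congr 1
  simp only [Prod.fst_add, Prod.snd_add]; push_cast; ring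

lemma ex_zero (y : P2) : ex 0 y = 1 := by simp [ex]

lemma ex_neg (k : Z2) (y : P2) : ex (-k) y = conj (ex k y) := by
  unfold ex
  rw [← Complex.exp_conj]; congr 1
  simp only [Prod.fst_neg, Prod.snd_neg, map_mul, map_add, Complex.conj_I, Complex.conj_ofReal,
    map_intCast, map_ofNat]
  push_cast; ring

lemma continuous_ex (k : Z2) : Continuous (ex k) := by
  unfold ex; fun_prop

lemma summ_ex (w : W) (y : P2) : Summable fun k => ‖w k * ex k y‖ := by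
  simpa only [norm_mul, norm_ex, mul_one] using summ w

/-- evaluation of the Fourier series -/
def ev (y : P2) : W →L[ℝ] ℂ :=
  LinearMap.mkContinuous
    { toFun := fun w => ∑' k, w k * ex k y
      map_add' := fun a b => by
        rw [← (summ_ex a y).of_norm.tsum_add (summ_ex b y).of_norm]
        exact tsum_congr fun k => by rw [lp.coeFn_add, Pi.add_apply, add_mul]
      map_smul' := fun c a => by
        rw [RingHom.id_apply, ← (summ_ex a y).of_norm.tsum_const_smul]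
        exact tsum_congr fun k => by rw [lp.coeFn_smul, Pi.smul_apply, smul_mul_assoc] }
    1 fun w => by
      rw [one_mul, norm_eq]
      refine (norm_tsum_le_tsum_norm (summ_ex w y)).trans_eq ?_
      simp only [norm_mul, norm_ex, mul_one]

lemma ev_apply (y : P2) (w : W) : ev y w = ∑' k, w k * ex k y := rfl

lemma hasSum_ev (y : P2) (w : W) : HasSum (fun k => w k * ex k y) (ev y w) :=
  (summ_ex w y).of_norm.hasSum

lemma norm_ev_le (y : P2) (w : W) : ‖ev y w‖ ≤ ‖w‖ := by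
  rw [norm_eq, ev_apply]
  refine (norm_tsum_le_tsum_norm (summ_ex w y)).trans_eq ?_
  simp only [norm_mul, norm_ex, mul_one]

lemma continuous_ev (w : W) : Continuous fun y => ev y w :=
  continuous_tsum (fun k => continuous_const.mul (continuous_ex k)) (summ w) fun k y => by
    rw [norm_mul, norm_ex, mul_one]

lemma int_one (m : ℤ) : ∫ s in Ioc (-(1 / 2) : ℝ) (1 / 2),
    Complex.exp (2 * π * Complex.I * m * s) = if m = 0 then 1 else 0 := by
  rw [← intervalIntegral.integral_of_le (by norm_num)]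
  split_ifs with h
  · subst h
    simp; norm_num
  · have hc : (2 * π * Complex.I * m : ℂ) ≠ 0 := by
      simp [h, Real.pi_ne_zero]
    rw [integral_exp_mul_complex hc, div_eq_zero_iff]
    left
    have e : 2 * π * Complex.I * m * ((1 / 2 : ℝ) : ℂ) =
        2 * π * Complex.I * m * ((-(1 / 2) : ℝ) : ℂ) + m * (2 * π * Complex.I) := by
      push_cast; ring
    rw [e, Complex.exp_add, Complex.exp_int_mul_two_pi_mul_I, mul_one, sub_self]

lemma int_cell (f g : ℝ → ℂ) : ∫ y in cell, f y.1 * g y.2 =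
    (∫ s in Ioc (-(1 / 2) : ℝ) (1 / 2), f s) * ∫ s in Ioc (-(1 / 2) : ℝ) (1 / 2), g s := by
  rw [cell, Measure.volume_eq_prod, ← Measure.prod_restrict, integral_prod_mul]

lemma int_ex (m : Z2) : ∫ y in cell, ex m y = if m = 0 then 1 else 0 := by
  have e : ∀ y : P2, ex m y = Complex.exp (2 * π * Complex.I * m.1 * y.1) *
      Complex.exp (2 * π * Complex.I * m.2 * y.2) := fun y => by
    unfold ex; rw [← Complex.exp_add]; congr 1; ring
  simp only [e]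
  rw [int_cell (fun s => Complex.exp (2 * π * Complex.I * m.1 * s))
    (fun s => Complex.exp (2 * π * Complex.I * m.2 * s)), int_one, int_one]
  obtain ⟨a, b⟩ := m
  by_cases ha : a = 0 <;> by_cases hb : b = 0 <;> simp [ha, hb]

lemma cell_sub : cell ⊆ Icc (-(1 / 2) : ℝ) (1 / 2) ×ˢ Icc (-(1 / 2) : ℝ) (1 / 2) :=
  prod_mono Ioc_subset_Icc_self Ioc_subset_Icc_self

lemma integrable_cell {f : P2 → ℂ} (hf : Continuous f) : IntegrableOn f cell :=
  (hf.continuousOn.integrableOn_compact (isCompact_Icc.prod isCompact_Icc)).mono_set cell_sub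

lemma vol_cell : volume.real cell = 1 := by
  rw [cell, Measure.volume_eq_prod, measureReal_prod_prod]
  simp; norm_num

lemma coef (w : W) (k : Z2) : ∫ y in cell, ev y w * ex (-k) y = w k := by
  have h := hasSum_integral_of_summable_integral_norm (μ := volume.restrict cell)
    (F := fun j y => w j * ex (j - k) y)
    (fun j => integrable_cell (continuous_const.mul (continuous_ex _))) (by
      simp only [norm_mul, norm_ex, mul_one, integral_const, smul_eq_mul]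
      exact (summ w).mul_left _)
  have e : ∀ y, ∑' j, w j * ex (j - k) y = ev y w * ex (-k) y := fun y => by
    rw [ev_apply, ← tsum_mul_right]
    exact tsum_congr fun j => by rw [sub_eq_add_neg, ex_add, mul_assoc]
  simp only [e, integral_const_mul, int_ex, sub_eq_zero] at h
  refine h.unique ?_
  have := hasSum_single (f := fun j => w j * if j = k then 1 else 0) k fun j hj => by
    rw [if_neg hj, mul_zero]
  simpa using this

lemma ext_ev {a b : W} (h : ∀ y, ev y a = ev y b) : a = b :=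
  ext fun k => by rw [← coef, ← coef]; simp only [h]

lemma fc_eq {w : W} {f : P2 → ℝ} (h : ∀ y, ev y w = f y) (k : Z2) : fc f k = w k := by
  rw [← coef, fc]; simp only [h]

lemma of_Wn {f : P2 → ℝ} {η : ℝ} (h : Wn f η) : ∃ w : W, ‖w‖ ≤ η ∧ ∀ y, ev y w = f y :=
  ⟨mk (fc f) h.1, by rw [norm_eq]; exact h.2.1, fun y => (h.2.2 y).tsum_eq⟩

/-- the shear of pairs of frequencies -/
def shear : Z2 × Z2 ≃ Z2 × Z2 where
  toFun p := (p.2, p.1 - p.2)
  invFun p := (p.1 + p.2, p.1)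
  left_inv p := by simp
  right_inv p := by simp

lemma summ_conv (a b : W) : Summable fun p : Z2 × Z2 => ‖a p.2‖ * ‖b (p.1 - p.2)‖ :=
  (shear.summable_iff (f := fun p : Z2 × Z2 => ‖a p.1‖ * ‖b p.2‖)).2
    ((summ a).mul_of_nonneg (summ b) (fun _ => norm_nonneg _) fun _ => norm_nonneg _)

lemma conv_le (a b : W) (k : Z2) :
    ‖∑' j, a j * b (k - j)‖ ≤ ∑' j, ‖a j‖ * ‖b (k - j)‖ := by
  have := (summ_conv a b).prod_factor k
  simp only [← norm_mul] at this ⊢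
  exact norm_tsum_le_tsum_norm this

/-- convolution -/
def conv (a b : W) : W := mk (fun k => ∑' j, a j * b (k - j))
  (Summable.of_nonneg_of_le (fun _ => norm_nonneg _) (conv_le a b) (summ_conv a b).prod)

lemma norm_conv (a b : W) : ‖conv a b‖ ≤ ‖a‖ * ‖b‖ := by
  rw [norm_eq, norm_eq, norm_eq, (summ a).tsum_mul_tsum (summ b)
    ((summ a).mul_of_nonneg (summ b) (fun _ => norm_nonneg _) fun _ => norm_nonneg _),
    ← shear.tsum_eq]
  refine ((summ (conv a b)).tsum_le_tsum (conv_le a b) (summ_conv a b).prod).trans_eq ?_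
  exact (summ_conv a b).tsum_prod.symm

lemma ev_conv (y : P2) (a b : W) : ev y (conv a b) = ev y a * ev y b := by
  have hs := summable_mul_of_summable_norm (summ_ex a y) (summ_ex b y)
  rw [ev_apply y a, ev_apply y b, (summ_ex a y).of_norm.tsum_mul_tsum (summ_ex b y).of_norm hs,
    ← shear.tsum_eq, ev_apply]
  refine Eq.trans ?_ (shear.summable_iff.2 hs).tsum_prod.symm
  refine tsum_congr fun k => ?_
  show (∑' j, a j * b (k - j)) * ex k y = ∑' j, a j * ex j y * (b (k - j) * ex (k - j) y)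
  rw [← tsum_mul_right]
  refine tsum_congr fun j => ?_
  have : ex k y = ex j y * ex (k - j) y := by rw [← ex_add, add_sub_cancel]
  rw [this]; ring

/-- the product of the Wiener algebra -/
def mul : W →L[ℝ] W →L[ℝ] W :=
  LinearMap.mkContinuous₂
    (LinearMap.mk₂ ℝ conv
      (fun a a' b => ext_ev fun y => by simp only [ev_conv, map_add, add_mul])
      (fun c a b => ext_ev fun y => by simp only [ev_conv, map_smul, smul_mul_assoc])
      (fun a b b' => ext_ev fun y => by simp only [ev_conv, map_add, mul_add])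
      (fun c a b => ext_ev fun y => by simp only [ev_conv, map_smul, mul_smul_comm]))
    1 fun a b => by rw [one_mul]; exact norm_conv a b

lemma ev_mul (y : P2) (a b : W) : ev y (mul a b) = ev y a * ev y b := ev_conv y a b

/-- the constant function one -/
def one : W := lp.single 1 0 1

lemma ev_one (y : P2) : ev y one = 1 := by
  rw [ev_apply, tsum_eq_single 0]
  · simp [one, ex_zero]
  · intro k hk
    simp [one, lp.single_apply, hk]

/-- Fourier multipliers -/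
def mult (m : Z2 → ℂ) (C : ℝ) (hm : ∀ k, ‖m k‖ ≤ C) : W →L[ℝ] W :=
  lp.mapCLM 1 (fun k => ContinuousLinearMap.mul ℝ ℂ (m k)) ((norm_nonneg _).trans (hm 0))
    fun k => (ContinuousLinearMap.opNorm_mul_apply_le ℝ ℂ (m k)).trans (hm k)

@[simp] lemma mult_apply (m : Z2 → ℂ) (C : ℝ) (hm : ∀ k, ‖m k‖ ≤ C) (w : W) (k : Z2) :
    mult m C hm w k = m k * w k := rfl

lemma norm_mult_le (m : Z2 → ℂ) (C : ℝ) (hm : ∀ k, ‖m k‖ ≤ C) (w : W) :
    ‖mult m C hm w‖ ≤ C * ‖w‖ :=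
  ContinuousLinearMap.le_of_opNorm_le _ (lp.norm_mapCLM_le ..) w

lemma summ_cj (w : W) : Summable fun k => ‖conj (w (-k))‖ := by
  simp only [Complex.norm_conj]
  exact ((Equiv.neg Z2).summable_iff (f := fun k => ‖w k‖)).2 (summ w)

/-- complex conjugation -/
def cj : W →L[ℝ] W :=
  LinearMap.mkContinuous
    { toFun := fun w => mk (fun k => conj (w (-k))) (summ_cj w)
      map_add' := fun a b => ext fun k => by simp
      map_smul' := fun c a => ext fun k => by simp }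
    1 fun w => by
      rw [one_mul, norm_eq, norm_eq, ← (Equiv.neg Z2).tsum_eq fun k => ‖w k‖]
      simp

@[simp] lemma cj_apply (w : W) (k : Z2) : cj w k = conj (w (-k)) := rfl

lemma ev_cj (y : P2) (w : W) : ev y (cj w) = conj (ev y w) := by
  rw [ev_apply, ev_apply, Complex.conj_tsum, ← (Equiv.neg Z2).tsum_eq]
  refine tsum_congr fun k => ?_
  simp [ex_neg]

/-- real part -/
def rp : W →L[ℝ] W := (1 / 2 : ℝ) • (ContinuousLinearMap.id ℝ W + cj)

lemma rp_apply (w : W) (k : Z2) : rp w k = (w k + conj (w (-k))) / 2 := by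
  simp [rp]; ring

lemma ev_rp (y : P2) (w : W) : ev y (rp w) = (ev y w).re := by
  simp only [rp, smul_apply, add_apply,
    ContinuousLinearMap.id_apply, map_smul, map_add, ev_cj, Complex.add_conj]
  simp

lemma ev_pow (y : P2) (w : W) (n : ℕ) : ev y ((mul w ^ n) one) = ev y w ^ n := by
  induction n with
  | zero => simp [ev_one]
  | succ n ih => rw [pow_succ', mul_apply_eq_comp, ev_mul, ih, pow_succ']

/-- analytic functional calculus near a constant -/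
lemma calculus {φ : ℝ → ℝ} {c : ℝ} (h : AnalyticAt ℝ φ c) : ∃ Φ : W → W,
    AnalyticAt ℝ Φ (c • one) ∧
      ∀ᶠ w in 𝓝 (c • one), ∀ (y : P2) (t : ℝ), ev y w = t → ev y (Φ w) = φ t := by
  obtain ⟨p, r, hp⟩ := h
  set q := FormalMultilinearSeries.ofScalars (W →L[ℝ] W) p.coeff with hq
  have hr : p.radius ≤ q.radius := by
    refine FormalMultilinearSeries.radius_le_of_le fun n => ?_
    rw [FormalMultilinearSeries.norm_apply_eq_norm_coef, hq,
      FormalMultilinearSeries.ofScalars_norm_eq_mul]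
    refine mul_le_of_le_one_right (norm_nonneg _) ?_
    refine ContinuousMultilinearMap.norm_mkPiAlgebraFin_le.trans ?_
    exact max_le le_rfl ContinuousLinearMap.norm_id_le
  have hq0 : 0 < q.radius := (hp.r_pos.trans_le hp.r_le).trans_le hr
  have ha : AnalyticAt ℝ q.sum 0 := (q.hasFPowerSeriesOnBall hq0).analyticAt
  have hl : AnalyticAt ℝ (fun w : W => mul (w - c • one)) (c • one) :=
    (mul.analyticAt _).comp (analyticAt_id.sub analyticAt_const)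
  refine ⟨fun w => q.sum (mul (w - c • one)) one, ?_, ?_⟩
  · have := ha.comp_of_eq hl (by simp)
    exact ((ContinuousLinearMap.apply ℝ W one).analyticAt _).comp this
  · obtain ⟨s, hs0, hs⟩ := ENNReal.lt_iff_exists_nnreal_btwn.1 hp.r_pos
    have hs0' : (0 : ℝ) < s := by exact_mod_cast hs0
    filter_upwards [ball_mem_nhds (c • one) hs0'] with w hw y t ht
    rw [mem_ball_iff_norm] at hw
    have e : ev y (w - c • one) = ((t - c : ℝ) : ℂ) := by
      simp [ht, ev_one]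
    have h1 : ‖t - c‖ < s := by
      have := (norm_ev_le y (w - c • one)).trans_lt hw
      rwa [e, Complex.norm_real] at this
    have h2 : ‖mul (w - c • one)‖ < s := by
      refine lt_of_le_of_lt ?_ hw
      exact ContinuousLinearMap.opNorm_le_bound _ (norm_nonneg _) (norm_conv _)
    have h3 := hp.hasSum (y := t - c) (by
      rw [mem_eball_zero_iff, ← ofReal_norm]
      exact lt_trans (by
        rw [← ENNReal.ofReal_coe_nnreal]
        exact (ENNReal.ofReal_lt_ofReal_iff hs0').2 h1) hs)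
    have h4 := q.hasSum (x := mul (w - c • one)) (by
      rw [mem_eball_zero_iff, ← ofReal_norm]
      exact lt_of_lt_of_le (lt_trans (by
        rw [← ENNReal.ofReal_coe_nnreal]
        exact (ENNReal.ofReal_lt_ofReal_iff hs0').2 h2) hs) (hp.r_le.trans hr))
    have h5 := ((ev y).comp (ContinuousLinearMap.apply ℝ W one)).hasSum h4
    have h6 := Complex.ofRealCLM.hasSum h3
    rw [add_sub_cancel] at h6
    refine h5.unique (h6.congr_fun fun n => ?_)
    simp only [hq, FormalMultilinearSeries.ofScalars_apply_eq, ContinuousLinearMap.comp_apply,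
      ContinuousLinearMap.apply_apply, map_smul, ev_pow, e,
      FormalMultilinearSeries.apply_eq_pow_smul_coeff]
    simp [mul_comm]

end Pool.Agent.Lib.MP_16d934_gt.AWien
end
end

-- part Pool.Agent.Lib.MP_16d934_gt.AWienb
section

/-! Analytic representation in the Wiener algebra, potentials, the implicit function step. -/

set_option autoImplicit false

open Set Metric Filter Topology MeasureTheory
open scoped ContDiff NNReal Real ComplexConjugate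

noncomputable section

namespace Pool.Agent.Lib.MP_16d934_gt.AWien

section Rep

variable {E : Type} [NormedAddCommGroup E] [NormedSpace ℝ E] {e₀ : E}

/-- functions represented analytically in the Wiener algebra near the parameter `e₀` -/
def Rep (e₀ : E) (f : E → P2 → ℝ) : Prop :=
  ∃ F : E → W, AnalyticAt ℝ F e₀ ∧ ∀ᶠ e in 𝓝 e₀, ∀ y, ev y (F e) = f e y

lemma Rep.scal {s : E → ℝ} (hs : AnalyticAt ℝ s e₀) : Rep e₀ fun e _ => s e :=
  ⟨fun e => s e • one, hs.smul analyticAt_const, .of_forall fun e y => by simp [ev_one]⟩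

lemma Rep.const (c : ℝ) : Rep e₀ fun _ _ => c := Rep.scal analyticAt_const

lemma Rep.fixed {f : P2 → ℝ} {η : ℝ} (h : Wn f η) : Rep e₀ fun _ y => f y := by
  obtain ⟨w, -, hw⟩ := of_Wn h
  exact ⟨fun _ => w, analyticAt_const, .of_forall fun _ => hw⟩

lemma Rep.re {F : E → W} (h : AnalyticAt ℝ F e₀) : Rep e₀ fun e y => (ev y (F e)).re :=
  ⟨fun e => rp (F e), (rp.analyticAt _).comp h, .of_forall fun _ y => ev_rp y _⟩

lemma Rep.add {f g : E → P2 → ℝ} (hf : Rep e₀ f) (hg : Rep e₀ g) :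
    Rep e₀ fun e y => f e y + g e y := by
  obtain ⟨F, hF, h1⟩ := hf
  obtain ⟨G, hG, h2⟩ := hg
  refine ⟨fun e => F e + G e, hF.add hG, ?_⟩
  filter_upwards [h1, h2] with e a b y
  rw [map_add, a, b, Complex.ofReal_add]

lemma Rep.sub {f g : E → P2 → ℝ} (hf : Rep e₀ f) (hg : Rep e₀ g) :
    Rep e₀ fun e y => f e y - g e y := by
  obtain ⟨F, hF, h1⟩ := hf
  obtain ⟨G, hG, h2⟩ := hg
  refine ⟨fun e => F e - G e, hF.sub hG, ?_⟩
  filter_upwards [h1, h2] with e a b y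
  rw [map_sub, a, b, Complex.ofReal_sub]

lemma Rep.mul {f g : E → P2 → ℝ} (hf : Rep e₀ f) (hg : Rep e₀ g) :
    Rep e₀ fun e y => f e y * g e y := by
  obtain ⟨F, hF, h1⟩ := hf
  obtain ⟨G, hG, h2⟩ := hg
  refine ⟨fun e => AWien.mul (F e) (G e),
    (AWien.mul.analyticAt_bilinear _).comp (f := fun e => (F e, G e)) (hF.prod hG), ?_⟩
  filter_upwards [h1, h2] with e a b y
  rw [ev_mul, a, b, Complex.ofReal_mul]

lemma Rep.pow {f : E → P2 → ℝ} (hf : Rep e₀ f) (n : ℕ) : Rep e₀ fun e y => f e y ^ n := by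
  induction n with
  | zero => simpa using Rep.const 1
  | succ n ih => simpa only [pow_succ] using ih.mul hf

lemma Rep.comp {f : E → P2 → ℝ} (hf : Rep e₀ f) {φ : ℝ → ℝ} {c : ℝ} (hφ : AnalyticAt ℝ φ c)
    (hc : ∀ y, f e₀ y = c) : Rep e₀ fun e y => φ (f e y) := by
  obtain ⟨F, hF, h1⟩ := hf
  obtain ⟨Φ, hΦ, h2⟩ := calculus hφ
  have e : F e₀ = c • one := ext_ev fun y => by
    rw [h1.self_of_nhds y, hc]; simp [ev_one]
  refine ⟨fun e => Φ (F e), hΦ.comp_of_eq hF e, ?_⟩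
  have h3 : Tendsto F (𝓝 e₀) (𝓝 (c • one)) := e ▸ hF.continuousAt
  filter_upwards [h1, h3.eventually h2] with e a b y
  exact b y _ (a y)

lemma Rep.inv {f : E → P2 → ℝ} (hf : Rep e₀ f) {c : ℝ} (h0 : c ≠ 0)
    (hc : ∀ y, f e₀ y = c) : Rep e₀ fun e y => (f e y)⁻¹ :=
  hf.comp (φ := fun t => t⁻¹) (analyticAt_inv h0) hc

lemma Rep.sqrt {f : E → P2 → ℝ} (hf : Rep e₀ f) {c : ℝ} (h0 : c ≠ 0)
    (hc : ∀ y, f e₀ y = c) : Rep e₀ fun e y => √(f e y) :=
  hf.comp (φ := fun t => √t) (Real.contDiffAt_sqrt (n := ω) h0).analyticAt hc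

lemma Rep.density {Y Q : E → P2 → P2} {Z : E → P2 → ℝ} (y1 : Rep e₀ fun e y => (Y e y).1)
    (y2 : Rep e₀ fun e y => (Y e y).2) (z : Rep e₀ Z) (q1 : Rep e₀ fun e y => (Q e y).1)
    (q2 : Rep e₀ fun e y => (Q e y).2) {y₀ p₀ : P2} {z₀ : ℝ} (hY : ∀ y, Y e₀ y = y₀)
    (hZ : ∀ y, Z e₀ y = z₀) (hQ : ∀ y, Q e₀ y = p₀) :
    (Rep e₀ fun e y => (FP (Y e y) (Z e y) (Q e y)).1) ∧
    (Rep e₀ fun e y => (FP (Y e y) (Z e y) (Q e y)).2) ∧
    Rep e₀ fun e y => FZ (Y e y) (Z e y) (Q e y) := by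
  have s : Rep e₀ fun e y => Z e y - dot (Y e y) (Q e y) := z.sub ((y1.mul q1).add (y2.mul q2))
  have a : Rep e₀ fun e y =>
      √(1 + (Q e y).1 ^ 2 + (Q e y).2 ^ 2 + (Z e y - dot (Y e y) (Q e y)) ^ 2) :=
    ((((Rep.const 1).add (q1.pow 2)).add (q2.pow 2)).add (s.pow 2)).sqrt
      (c := 1 + p₀.1 ^ 2 + p₀.2 ^ 2 + (z₀ - dot y₀ p₀) ^ 2) (by positivity)
      fun y => by rw [hY, hZ, hQ]
  have b : Rep e₀ fun e y => √(1 + (Y e y).1 ^ 2 + (Y e y).2 ^ 2 + Z e y ^ 2) :=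
    ((((Rep.const 1).add (y1.pow 2)).add (y2.pow 2)).add (z.pow 2)).sqrt
      (c := 1 + y₀.1 ^ 2 + y₀.2 ^ 2 + z₀ ^ 2) (by positivity) fun y => by rw [hY, hZ]
  have c := (a.mul (b.pow 3)).inv
    (c := √(1 + p₀.1 ^ 2 + p₀.2 ^ 2 + (z₀ - dot y₀ p₀) ^ 2) *
      √(1 + y₀.1 ^ 2 + y₀.2 ^ 2 + z₀ ^ 2) ^ 3) (by positivity) fun y => by rw [hY, hZ, hQ]
  have d := (b.pow 5).inv (c := √(1 + y₀.1 ^ 2 + y₀.2 ^ 2 + z₀ ^ 2) ^ 5) (by positivity)
    fun y => by rw [hY, hZ]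
  exact ⟨c.mul (q1.sub (s.mul y1)), c.mul (q2.sub (s.mul y2)),
    (s.mul c).sub ((((Rep.const 3).mul z).mul a).mul d)⟩

lemma ev_fderiv {F : E → W} {f : E → P2 → ℝ} (hF : AnalyticAt ℝ F e₀)
    (h : ∀ᶠ e in 𝓝 e₀, ∀ y, ev y (F e) = f e y) (v : E) (y : P2) {d : ℝ}
    (hd : HasDerivAt (fun t : ℝ => f (e₀ + t • v) y) d 0) : ev y (fderiv ℝ F e₀ v) = d := by
  have h1 : HasDerivAt (fun t : ℝ => e₀ + t • v) v 0 := by
    simpa using ((hasDerivAt_id (0 : ℝ)).smul_const v).const_add e₀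
  have h2 : HasFDerivAt F (fderiv ℝ F e₀) (e₀ + (0 : ℝ) • v) := by
    simpa using hF.differentiableAt.hasFDerivAt
  have h3 := (ev y).hasFDerivAt.comp_hasDerivAt (0 : ℝ) (h2.comp_hasDerivAt (0 : ℝ) h1)
  have h4 : Tendsto (fun t : ℝ => e₀ + t • v) (𝓝 0) (𝓝 e₀) := by
    simpa using h1.continuousAt.tendsto
  refine h3.unique (hd.ofReal_comp.congr_of_eventuallyEq ?_)
  filter_upwards [h4.eventually h] with t ht
  exact ht y

end Rep

/-- the Hessian of the area density in the gradient is positive definite -/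
lemma FP_deriv (y : P2) (z : ℝ) (p : P2) : ∃ h₁₁ h₁₂ h₂₁ h₂₂ lam : ℝ, 0 < lam ∧
    (∀ a b : ℝ, lam * (a ^ 2 + b ^ 2) ≤ a * (h₁₁ * a + h₁₂ * b) + b * (h₂₁ * a + h₂₂ * b)) ∧
    ∀ ξ : P2, HasDerivAt (fun t : ℝ => (FP y z (p + t • ξ)).1) (h₁₁ * ξ.1 + h₁₂ * ξ.2) 0 ∧
      HasDerivAt (fun t : ℝ => (FP y z (p + t • ξ)).2) (h₂₁ * ξ.1 + h₂₂ * ξ.2) 0 := by
  obtain ⟨s, hs⟩ : ∃ s, s = z - dot y p := ⟨_, rfl⟩
  obtain ⟨w, hw⟩ : ∃ w, w = √(1 + p.1 ^ 2 + p.2 ^ 2 + s ^ 2) := ⟨_, rfl⟩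
  obtain ⟨ρ, hρ⟩ : ∃ ρ, ρ = √(1 + y.1 ^ 2 + y.2 ^ 2 + z ^ 2) ^ 3 := ⟨_, rfl⟩
  have w0 : 0 < w := by rw [hw]; positivity
  have ρ0 : 0 < ρ := by rw [hρ]; positivity
  have w2 : w ^ 2 = 1 + p.1 ^ 2 + p.2 ^ 2 + s ^ 2 := by
    rw [hw, Real.sq_sqrt (by positivity)]
  refine ⟨((1 + y.1 * y.1) * w ^ 2 - (p.1 - s * y.1) * (p.1 - s * y.1)) / (w ^ 3 * ρ),
    (y.1 * y.2 * w ^ 2 - (p.1 - s * y.1) * (p.2 - s * y.2)) / (w ^ 3 * ρ),
    (y.1 * y.2 * w ^ 2 - (p.1 - s * y.1) * (p.2 - s * y.2)) / (w ^ 3 * ρ),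
    ((1 + y.2 * y.2) * w ^ 2 - (p.2 - s * y.2) * (p.2 - s * y.2)) / (w ^ 3 * ρ),
    1 / (w ^ 3 * ρ), by positivity, fun a b => ?_, fun ξ => ?_⟩
  · rw [← sub_nonneg]
    have e : a * (((1 + y.1 * y.1) * w ^ 2 - (p.1 - s * y.1) * (p.1 - s * y.1)) / (w ^ 3 * ρ) * a
        + (y.1 * y.2 * w ^ 2 - (p.1 - s * y.1) * (p.2 - s * y.2)) / (w ^ 3 * ρ) * b) +
        b * ((y.1 * y.2 * w ^ 2 - (p.1 - s * y.1) * (p.2 - s * y.2)) / (w ^ 3 * ρ) * a +
        ((1 + y.2 * y.2) * w ^ 2 - (p.2 - s * y.2) * (p.2 - s * y.2)) / (w ^ 3 * ρ) * b) -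
        1 / (w ^ 3 * ρ) * (a ^ 2 + b ^ 2) =
        ((y.1 * a + y.2 * b) ^ 2 + (p.1 * b - p.2 * a) ^ 2 +
          (p.1 * (y.1 * a + y.2 * b) + s * a) ^ 2 + (p.2 * (y.1 * a + y.2 * b) + s * b) ^ 2) /
          (w ^ 3 * ρ) := by
      rw [w2]; field_simp; ring
    rw [e]; positivity
  · have a1 : HasDerivAt (fun t : ℝ => (p + t • ξ).1) ξ.1 0 := by
      simpa using ((hasDerivAt_id (0 : ℝ)).mul_const ξ.1).const_add p.1
    have a2 : HasDerivAt (fun t : ℝ => (p + t • ξ).2) ξ.2 0 := by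
      simpa using ((hasDerivAt_id (0 : ℝ)).mul_const ξ.2).const_add p.2
    have a3 : HasDerivAt (fun t : ℝ => z - dot y (p + t • ξ)) (-(y.1 * ξ.1 + y.2 * ξ.2)) 0 :=
      ((a1.const_mul y.1).add (a2.const_mul y.2)).const_sub z
    have a4 := (((((a1.pow 2).const_add 1).add (a2.pow 2)).add (a3.pow 2)).sqrt (by
      simp only [zero_smul, add_zero, Pi.add_apply, Pi.pow_apply]; positivity)).mul_const ρ
    have a5 := a4.inv (by
      simp only [zero_smul, add_zero, Pi.add_apply, Pi.pow_apply, ← hs, ← hw]; positivity)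
    have b1 := a5.mul (a1.sub (a3.mul_const y.1))
    have b2 := a5.mul (a2.sub (a3.mul_const y.2))
    simp only [zero_smul, add_zero, Pi.add_apply, Pi.pow_apply, ← hs, ← hw, Pi.inv_apply,
      Pi.sub_apply] at b1 b2
    refine ⟨(b1.congr_deriv ?_).congr_of_eventuallyEq (.of_forall fun t => by subst hρ; rfl),
      (b2.congr_deriv ?_).congr_of_eventuallyEq (.of_forall fun t => by subst hρ; rfl)⟩
    · push_cast; field_simp; ring
    · push_cast; field_simp; ring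

/-- the inverse function theorem with parameters -/
lemma ift {A H : Type} [NormedAddCommGroup A] [NormedSpace ℝ A] [CompleteSpace A]
    [NormedAddCommGroup H] [NormedSpace ℝ H] [CompleteSpace H] {F : A × H → H} {e₀ : A × H}
    (hF : AnalyticAt ℝ F e₀) (D : H ≃L[ℝ] H) (hD : ∀ v, fderiv ℝ F e₀ (0, v) = D v) :
    ∃ ψ : A × H → H, AnalyticAt ℝ ψ (e₀.1, F e₀) ∧ ∀ᶠ e in 𝓝 e₀, ψ (e.1, F e) = e.2 := by
  have h1 : ContDiffAt ℝ ω (fun e : A × H => (e.1, F e)) e₀ :=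
    (analyticAt_fst.prod hF).contDiffAt
  let T : (A × H) ≃L[ℝ] A × H := (ContinuousLinearEquiv.refl ℝ A).skewProd D
    ((fderiv ℝ F e₀).comp (ContinuousLinearMap.inl ℝ A H))
  have h2 : HasFDerivAt (fun e : A × H => (e.1, F e)) (T : A × H →L[ℝ] A × H) e₀ := by
    refine (hasFDerivAt_fst.prodMk hF.differentiableAt.hasFDerivAt).congr_fderiv ?_
    refine ContinuousLinearMap.ext fun x => Prod.ext rfl ?_
    simp only [T, ContinuousLinearEquiv.coe_coe, ContinuousLinearEquiv.skewProd_apply, ← hD,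
      ContinuousLinearMap.comp_apply, ContinuousLinearMap.inl_apply, ← map_add,
      ContinuousLinearMap.prod_apply, Prod.mk_add_mk, zero_add, add_zero]
  refine ⟨fun c => (h1.localInverse h2 (by simp) c).2,
    analyticAt_snd.comp (h1.to_localInverse h2 (by simp)).analyticAt, ?_⟩
  filter_upwards [(h1.hasStrictFDerivAt' h2 (by simp)).eventually_left_inverse] with e he
  exact congrArg Prod.snd he

lemma bound_near {E : Type} [NormedAddCommGroup E] [NormedSpace ℝ E] {g : E → ℝ} {c₀ : E}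
    (hg : AnalyticAt ℝ g c₀) (N : ℕ) : ∃ C : ℝ, ∀ᶠ c in 𝓝 c₀,
      AnalyticAt ℝ g c ∧ ∀ k ≤ N, ‖iteratedFDeriv ℝ k g c‖ ≤ C := by
  refine ⟨∑ k ∈ Finset.range (N + 1), (‖iteratedFDeriv ℝ k g c₀‖ + 1),
    hg.eventually_analyticAt.and ?_⟩
  have h : ∀ k ∈ Finset.range (N + 1), ∀ᶠ c in 𝓝 c₀,
      ‖iteratedFDeriv ℝ k g c‖ < ‖iteratedFDeriv ℝ k g c₀‖ + 1 := fun k _ =>
    ((hg.contDiffAt (n := k)).continuousAt_iteratedFDeriv le_rfl).norm.eventually_lt_const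
      (lt_add_one _)
  filter_upwards [(Filter.eventually_all_finset _).2 h] with c hc k hk
  have hk' : k ∈ Finset.range (N + 1) := Finset.mem_range.2 (Nat.lt_succ_of_le hk)
  exact (hc k hk').le.trans (Finset.single_le_sum
    (f := fun k => ‖iteratedFDeriv ℝ k g c₀‖ + 1) (fun _ _ => by positivity) hk')

lemma bound_slice {E : Type} [NormedAddCommGroup E] [NormedSpace ℝ E] {g : E → ℝ} {c : E}
    (hg : AnalyticAt ℝ g c) (ι : P2 →L[ℝ] E) (hι : ‖ι‖ ≤ 1) (k : ℕ) :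
    ‖iteratedFDeriv ℝ k (fun l => g (c + ι l)) 0‖ ≤ ‖iteratedFDeriv ℝ k g c‖ := by
  have h1 : AnalyticAt ℝ (fun x => g (c + x)) 0 :=
    hg.comp_of_eq (analyticAt_const.add analyticAt_id) (add_zero c)
  obtain ⟨s, hs, so, h0⟩ := _root_.eventually_nhds_iff.1 h1.eventually_analyticAt
  have hs' : ContDiffOn ℝ k (fun x => g (c + x)) s := fun x hx =>
    (hs x hx).contDiffAt.contDiffWithinAt
  have so' : IsOpen (ι ⁻¹' s) := so.preimage ι.continuous
  have h0' : ι 0 ∈ s := by rwa [map_zero]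
  have e := ι.iteratedFDerivWithin_comp_right hs' so.uniqueDiffOn so'.uniqueDiffOn h0' le_rfl
  rw [iteratedFDerivWithin_of_isOpen k so' h0', iteratedFDerivWithin_of_isOpen k so h0',
    iteratedFDeriv_comp_add_left, map_zero, add_zero] at e
  refine (congrArg norm e).trans_le ?_
  refine (ContinuousMultilinearMap.norm_compContinuousLinearMap_le _ _).trans ?_
  exact mul_le_of_le_one_right (norm_nonneg _)
    (Finset.prod_le_one (fun _ _ => norm_nonneg _) fun _ _ => hι)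

end Pool.Agent.Lib.MP_16d934_gt.AWien
end
end
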