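import Pool.Agent.Lib.MP_16d934_gt.StC

-- part Pool.Agent.Lib.MP_16d934_gt.AStr
section

/-! The transformed equations satisfy the structure conditions uniformly in the parameters. -/

set_option autoImplicit false

open Set Metric Filter Topology MeasureTheory Asymptotics
open scoped ContDiff InnerProductSpace NNReal Real

noncomputable section

namespace Pool.Agent.Lib.MP_16d934_gt

namespace AStr

/-! ### The compact convex set -/

lemma KS_eq (M L : ℝ) :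
    KS M L = closedBall (0 : P2) 8 ×ˢ closedBall (0 : ℝ) M ×ˢ closedBall (0 : P2) L := by
  ext q
  simp [KS]

lemma KS_compact (M L : ℝ) : IsCompact (KS M L) := by
  rw [KS_eq]
  exact (isCompact_closedBall _ _).prod ((isCompact_closedBall _ _).prod (isCompact_closedBall _ _))

lemma KS_convex (M L : ℝ) : Convex ℝ (KS M L) := by
  rw [KS_eq]
  exact (convex_closedBall _ _).prod ((convex_closedBall _ _).prod (convex_closedBall _ _))

lemma dot_smul_left (c : ℝ) (a b : P2) : dot (c • a) b = c * dot a b := by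
  simp only [dot, Prod.smul_fst, Prod.smul_snd, smul_eq_mul]; ring

lemma dot_smul_right (c : ℝ) (a b : P2) : dot a (c • b) = c * dot a b := by
  simp only [dot, Prod.smul_fst, Prod.smul_snd, smul_eq_mul]; ring

lemma dot_sub_left (a a' b : P2) : dot (a - a') b = dot a b - dot a' b := by
  simp only [dot, Prod.fst_sub, Prod.snd_sub]; ring

lemma hasDerivAt_dot {f : ℝ → P2} {f' : P2} {t : ℝ} (h : HasDerivAt f f' t) (ξ : P2) :
    HasDerivAt (fun t => dot (f t) ξ) (dot f' ξ) t :=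
  (((ContinuousLinearMap.fst ℝ ℝ ℝ).hasFDerivAt.comp_hasDerivAt t h).mul_const ξ.1).add
    (((ContinuousLinearMap.snd ℝ ℝ ℝ).hasFDerivAt.comp_hasDerivAt t h).mul_const ξ.2)

/-! ### An abstract uniformity lemma -/

section abs

variable {E F : Type} [NormedAddCommGroup E] [NormedSpace ℝ E] [NormedAddCommGroup F]
  [NormedSpace ℝ F]

/-- derivative in the second variable -/
def pd (A : E × Q5 → F) (e : E) (q : Q5) : Q5 →L[ℝ] F :=
  (fderiv ℝ A (e, q)).comp (ContinuousLinearMap.inr ℝ E Q5)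

lemma pd_apply (A : E × Q5 → F) (e : E) (q v : Q5) : pd A e q v = fderiv ℝ A (e, q) (0, v) := rfl

lemma hasF_pd {A : E × Q5 → F} {e : E} {q : Q5} (h : DifferentiableAt ℝ A (e, q)) :
    HasFDerivAt (fun q => A (e, q)) (pd A e q) q :=
  h.hasFDerivAt.comp q (hasFDerivAt_prodMk_right e q)

lemma norm_comp_inr (T : E × Q5 →L[ℝ] F) : ‖T.comp (ContinuousLinearMap.inr ℝ E Q5)‖ ≤ ‖T‖ := by
  refine ContinuousLinearMap.opNorm_le_bound _ (norm_nonneg _) fun v => ?_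
  refine (T.le_opNorm _).trans (le_of_eq ?_)
  simp

lemma exists_lip {K : Set E} (hK : IsCompact K) (M L : ℝ) {A : E × Q5 → F}
    (hA : ∀ x ∈ K ×ˢ KS M L, ContDiffAt ℝ 1 A x) : ∃ C : ℝ, 0 ≤ C ∧ ∀ e ∈ K, ∀ q ∈ KS M L,
      ‖A (e, q)‖ ≤ C ∧ ‖fderiv ℝ A (e, q)‖ ≤ C ∧
      ∀ q' ∈ KS M L, ‖A (e, q') - A (e, q)‖ ≤ C * ‖q' - q‖ := by
  have hS := hK.prod (KS_compact M L)
  obtain ⟨C1, h1⟩ := hS.exists_bound_of_continuousOn
    (f := A) fun x hx => (hA x hx).continuousAt.continuousWithinAt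
  obtain ⟨C2, h2⟩ := hS.exists_bound_of_continuousOn (f := fderiv ℝ A) fun x hx =>
    ((hA x hx).fderiv_right (m := 0) (by norm_num)).continuousAt.continuousWithinAt
  have h3 : ∀ e ∈ K, ∀ q ∈ KS M L, ‖fderiv ℝ A (e, q)‖ ≤ |C1| + |C2| := fun e he q hq =>
    (h2 _ ⟨he, hq⟩).trans ((le_abs_self _).trans (le_add_of_nonneg_left (abs_nonneg _)))
  refine ⟨|C1| + |C2|, by positivity, fun e he q hq => ⟨?_, h3 e he q hq, fun q' hq' => ?_⟩⟩
  · exact (h1 _ ⟨he, hq⟩).trans ((le_abs_self _).trans (le_add_of_nonneg_right (abs_nonneg _)))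
  · exact (KS_convex M L).norm_image_sub_le_of_norm_hasFDerivWithin_le
      (f := fun q => A (e, q)) (f' := pd A e)
      (fun x hx => (hasF_pd ((hA _ ⟨he, hx⟩).differentiableAt one_ne_zero)).hasFDerivWithinAt)
      (fun x hx => (norm_comp_inr _).trans (h3 e he x hx)) hq hq'

lemma hasDeriv_line {A : E × Q5 → P2} {e : E} {x : P2} {z : ℝ} {p ξ : P2} {t : ℝ}
    (h : DifferentiableAt ℝ A (e, (x, z, p + t • ξ))) :
    HasDerivAt (fun t : ℝ => dot (A (e, (x, z, p + t • ξ))) ξ)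
      (dot (pd A e (x, z, p + t • ξ) (0, 0, ξ)) ξ) t := by
  have h1 : HasDerivAt (fun t : ℝ => ((x, z, p + t • ξ) : Q5)) (0, 0, ξ) t := by
    refine (hasDerivAt_const t x).prodMk ((hasDerivAt_const t z).prodMk ?_)
    simpa using ((hasDerivAt_id t).smul_const ξ).const_add p
  exact hasDerivAt_dot ((hasF_pd h).comp_hasDerivAt t h1) ξ

lemma exists_lam {K : Set E} (hK : IsCompact K) (M L : ℝ) {A : E × Q5 → P2}
    (hA : ∀ x ∈ K ×ˢ KS M L, ContDiffAt ℝ 1 A x)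
    (hp : ∀ e ∈ K, ∀ q ∈ KS M L, ∀ ξ : P2, ξ ≠ 0 → ∃ d, 0 < d ∧
      HasDerivAt (fun t : ℝ => dot (A (e, (q.1, q.2.1, q.2.2 + t • ξ))) ξ) d 0) :
    ∃ lam : ℝ, 0 < lam ∧ ∀ e ∈ K, ∀ q ∈ KS M L, ∀ ξ : P2,
      lam * ‖ξ‖ ^ 2 ≤ dot (pd A e q (0, 0, ξ)) ξ := by
  have hS := (hK.prod (KS_compact M L)).prod (isCompact_sphere (0 : P2) 1)
  have hc : ContinuousOn (fun x : (E × Q5) × P2 => dot (fderiv ℝ A x.1 (0, (0, 0, x.2))) x.2)
      ((K ×ˢ KS M L) ×ˢ sphere (0 : P2) 1) := by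
    intro x hx
    have h1 : ContinuousAt (fun x : (E × Q5) × P2 => fderiv ℝ A x.1) x :=
      ((hA x.1 hx.1).fderiv_right (m := 0) (by norm_num)).continuousAt.comp continuousAt_fst
    have h2 : ContinuousAt (fun x : (E × Q5) × P2 => fderiv ℝ A x.1 (0, (0, 0, x.2))) x :=
      h1.clm_apply (by fun_prop)
    unfold dot
    exact ((h2.fst.mul continuousAt_snd.fst).add (h2.snd.mul continuousAt_snd.snd)).continuousWithinAt
  have hpos : ∀ x ∈ (K ×ˢ KS M L) ×ˢ sphere (0 : P2) 1,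
      0 < dot (fderiv ℝ A x.1 (0, (0, 0, x.2))) x.2 := by
    rintro ⟨⟨e, x, z, p⟩, ξ⟩ ⟨⟨he, hq⟩, hξ⟩
    have h0 : ξ ≠ 0 := by
      rintro rfl
      simp at hξ
    obtain ⟨d, hd, h⟩ := hp e he _ hq ξ h0
    have h' := hasDeriv_line (A := A) (e := e) (x := x) (z := z) (p := p) (ξ := ξ) (t := 0)
      (by simpa using (hA _ ⟨he, hq⟩).differentiableAt one_ne_zero)
    rw [h.unique h', zero_smul, add_zero] at hd
    exact hd
  obtain ⟨lam, hlam, H⟩ := hS.exists_forall_le' hc hpos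
  refine ⟨lam, hlam, fun e he q hq ξ => ?_⟩
  rcases eq_or_ne ξ 0 with rfl | h0
  · simp [dot]
  have hn : 0 < ‖ξ‖ := norm_pos_iff.2 h0
  have h1 := H ((e, q), ‖ξ‖⁻¹ • ξ) ⟨⟨he, hq⟩, by simp [norm_smul, hn.ne']⟩
  have h2 : ((0, (0, 0, ‖ξ‖⁻¹ • ξ)) : E × Q5) = ‖ξ‖⁻¹ • ((0, (0, 0, ξ)) : E × Q5) := by simp
  dsimp only at h1
  rw [h2, map_smul, dot_smul_left, dot_smul_right, ← mul_assoc, ← mul_inv, ← sq,
    le_inv_mul_iff₀ (by positivity), mul_comm] at h1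
  exact h1

lemma str_of {K : Set E} (hK : IsCompact K) (M L : ℝ) {A : E × Q5 → P2} {B : E × Q5 → ℝ}
    (hA : ∀ x ∈ K ×ˢ KS M L, ContDiffAt ℝ 2 A x) (hB : ∀ x ∈ K ×ˢ KS M L, ContDiffAt ℝ 1 B x)
    (hp : ∀ e ∈ K, ∀ q ∈ KS M L, ∀ ξ : P2, ξ ≠ 0 → ∃ d, 0 < d ∧
      HasDerivAt (fun t : ℝ => dot (A (e, (q.1, q.2.1, q.2.2 + t • ξ))) ξ) d 0) :
    ∃ lam Lam : ℝ, 0 < lam ∧ ∀ e ∈ K,
      Str (fun q => A (e, q)) (fun q => B (e, q)) lam Lam M L := by
  have hA1 : ∀ x ∈ K ×ˢ KS M L, ContDiffAt ℝ 1 A x := fun x hx => (hA x hx).of_le (by norm_num)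
  have hd : ∀ e ∈ K, ∀ q ∈ KS M L, DifferentiableAt ℝ A (e, q) := fun e he q hq =>
    (hA1 _ ⟨he, hq⟩).differentiableAt one_ne_zero
  obtain ⟨C1, p1, h1⟩ := exists_lip hK M L hA1
  obtain ⟨C2, p2, h2⟩ := exists_lip hK M L hB
  obtain ⟨C3, p3, h3⟩ := exists_lip hK M L (A := fderiv ℝ A) fun x hx =>
    (hA x hx).fderiv_right (m := 1) (by norm_num)
  obtain ⟨lam, hlam, H⟩ := exists_lam hK M L hA1 hp
  refine ⟨lam, C1 + C2 + C3, hlam, fun e he => ⟨?_, ?_, ?_, ?_, ?_⟩⟩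
  · intro q hq q' hq'
    exact ((h1 e he q hq).2.2 q' hq').trans
      (mul_le_mul_of_nonneg_right (by linarith) (norm_nonneg _))
  · intro q hq q' hq'
    exact ((h2 e he q hq).2.2 q' hq').trans
      (mul_le_mul_of_nonneg_right (by linarith) (norm_nonneg _))
  · intro q hq
    exact ⟨(h1 e he q hq).1.trans (by linarith), (h2 e he q hq).1.trans (by linarith)⟩
  · intro x z p p' hq hq'
    have hm : ∀ t ∈ Icc (0 : ℝ) 1, ((x, z, p + t • (p' - p)) : Q5) ∈ KS M L := by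
      intro t ht
      have := (KS_convex M L).add_smul_sub_mem hq hq' ht
      simpa using this
    have hD := fun t (ht : t ∈ Icc (0 : ℝ) 1) => hasDeriv_line (hd e he _ (hm t ht))
    obtain ⟨c, hc, hc'⟩ := exists_hasDerivAt_eq_slope
      (fun t : ℝ => dot (A (e, (x, z, p + t • (p' - p)))) (p' - p))
      (fun t => dot (pd A e (x, z, p + t • (p' - p)) (0, 0, p' - p)) (p' - p)) one_pos
      (fun t ht => (hD t ht).continuousAt.continuousWithinAt)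
      fun t ht => hD t (Ioo_subset_Icc_self ht)
    have h4 := H e he _ (hm c (Ioo_subset_Icc_self hc)) (p' - p)
    rw [hc'] at h4
    rw [dot_sub_left]
    simpa using h4
  · refine ⟨pd A e, fun q hq => ⟨?_, H e he q hq, fun q' hq' => ?_⟩⟩
    · exact (norm_comp_inr _).trans ((h1 e he q hq).2.1.trans (by linarith))
    · have hs : segment ℝ q q' ⊆ KS M L := (KS_convex M L).segment_subset hq hq'
      have h4 := (convex_segment q q').norm_image_sub_le_of_norm_hasFDerivWithin_le'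
        (f := fun q => A (e, q)) (f' := pd A e) (φ := pd A e q) (C := C3 * ‖q' - q‖)
        (fun x hx => (hasF_pd (hd e he x (hs hx))).hasFDerivWithinAt) (fun x hx => ?_)
        (left_mem_segment ℝ q q') (right_mem_segment ℝ q q')
      · refine h4.trans ?_
        rw [mul_assoc, ← sq]
        exact mul_le_mul_of_nonneg_right (by linarith) (by positivity)
      · unfold pd
        rw [← ContinuousLinearMap.sub_comp]
        refine (norm_comp_inr _).trans (((h3 e he q hq).2.2 x (hs hx)).trans ?_)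
        refine mul_le_mul_of_nonneg_left ?_ p3
        exact norm_sub_le_of_mem_segment hx

end abs

/-! ### Smoothness -/

/-- the first square root -/
def W1 (q : Q5) : ℝ := √(1 + q.2.2.1 ^ 2 + q.2.2.2 ^ 2 + (q.2.1 - dot q.1 q.2.2) ^ 2)

/-- the second square root -/
def W2 (q : Q5) : ℝ := √(1 + q.1.1 ^ 2 + q.1.2 ^ 2 + q.2.1 ^ 2)

lemma W1_pos (q : Q5) : 0 < W1 q := Real.sqrt_pos.2 (by positivity)

lemma W2_pos (q : Q5) : 0 < W2 q := Real.sqrt_pos.2 (by positivity)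

lemma cd_dot {X : Type} [NormedAddCommGroup X] [NormedSpace ℝ X] {f g : X → P2} {x : X}
    (hf : ContDiffAt ℝ 2 f x) (hg : ContDiffAt ℝ 2 g x) :
    ContDiffAt ℝ 2 (fun x => dot (f x) (g x)) x :=
  (hf.fst.mul hg.fst).add (hf.snd.mul hg.snd)

lemma cd_W1 : ContDiff ℝ 2 W1 := by
  unfold W1 dot
  exact ContDiff.sqrt (by fun_prop) fun q => by positivity

lemma cd_W2 : ContDiff ℝ 2 W2 := by
  unfold W2
  exact ContDiff.sqrt (by fun_prop) fun q => by positivity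

lemma cd_FP : ContDiff ℝ 2 fun q : Q5 => FP q.1 q.2.1 q.2.2 := by
  have h : ContDiff ℝ 2 fun q : Q5 => (W1 q * W2 q ^ 3)⁻¹ :=
    (cd_W1.mul (cd_W2.pow 3)).inv fun q => (mul_pos (W1_pos q) (pow_pos (W2_pos q) 3)).ne'
  refine ContDiff.smul h ?_
  unfold dot
  fun_prop

lemma cd_FZ : ContDiff ℝ 2 fun q : Q5 => FZ q.1 q.2.1 q.2.2 := by
  have h1 : ContDiff ℝ 2 fun q : Q5 => q.2.1 - dot q.1 q.2.2 := by
    unfold dot
    fun_prop
  have h2 : ContDiff ℝ 2 fun q : Q5 => 3 * q.2.1 := by fun_prop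
  exact (h1.div (cd_W1.mul (cd_W2.pow 3))
    fun q => (mul_pos (W1_pos q) (pow_pos (W2_pos q) 3)).ne').sub
    ((h2.mul cd_W1).div (cd_W2.pow 5) fun q => (pow_pos (W2_pos q) 5).ne')

lemma cd_grad {β : P2 → ℝ} (hβ : ContDiff ℝ ∞ β) : ContDiff ℝ 2 (grad β) := by
  have h : ContDiff ℝ 2 (fderiv ℝ β) :=
    (contDiff_infty.1 hβ 3).fderiv_right (m := 2) (by norm_num)
  exact (h.clm_apply contDiff_const).prodMk (h.clm_apply contDiff_const)

lemma cd_all {β : P2 → ℝ} (hβ : ContDiff ℝ ∞ β) {x : (Par × P2) × Q5}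
    (hx : 1 + dot x.1.2 (grad β x.2.1) ≠ 0) :
    ContDiffAt ℝ 2 (fun x : (Par × P2) × Q5 =>
      tA x.1.1 x.1.2 x.2.1 (β x.2.1) (grad β x.2.1) x.2.2.1 x.2.2.2) x ∧
    ContDiffAt ℝ 2 (fun x : (Par × P2) × Q5 =>
      tB x.1.1 x.1.2 x.2.1 (β x.2.1) (grad β x.2.1) x.2.2.1 x.2.2.2) x := by
  have hb : ContDiffAt ℝ 2 (fun x : (Par × P2) × Q5 => β x.2.1) x :=
    ((contDiff_infty.1 hβ 2).comp (by fun_prop)).contDiffAt
  have hg : ContDiffAt ℝ 2 (fun x : (Par × P2) × Q5 => grad β x.2.1) x :=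
    ((cd_grad hβ).comp (by fun_prop)).contDiffAt
  have hl : ContDiffAt ℝ 2 (fun x : (Par × P2) × Q5 => x.1.2) x := by fun_prop
  have hG : ContDiffAt ℝ 2 (fun x : (Par × P2) × Q5 => x.2.2.2) x := by fun_prop
  have he : ContDiffAt ℝ 2 (fun x : (Par × P2) × Q5 => x.1.1.2.2.2) x := by fun_prop
  have hp : ContDiffAt ℝ 2 (fun x : (Par × P2) × Q5 => x.1.1.2.2.1) x := by fun_prop
  have hJ : ContDiffAt ℝ 2 (fun x : (Par × P2) × Q5 => 1 + dot x.1.2 (grad β x.2.1)) x :=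
    contDiffAt_const.add (cd_dot hl hg)
  have hy : ContDiffAt ℝ 2 (fun x : (Par × P2) × Q5 => x.2.1 + β x.2.1 • x.1.2) x :=
    ContDiffAt.add (by fun_prop) (hb.smul hl)
  have hQ : ContDiffAt ℝ 2 (fun x : (Par × P2) × Q5 =>
      tQ x.1.1 x.1.2 x.2.1 (β x.2.1) (grad β x.2.1) x.2.2.1 x.2.2.2) x := by
    refine ContDiffAt.prodMk (ContDiffAt.add (by fun_prop) (he.smul hy)) (ContDiffAt.prodMk ?_ ?_)
    · exact ContDiffAt.add (by fun_prop) (he.mul ((cd_dot hp hy).add (by fun_prop)))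
    · exact (hp.add hG).sub (((cd_dot hl hG).div hJ hx).smul hg)
  have hP := cd_FP.contDiffAt.comp x hQ
  have hZ := cd_FZ.contDiffAt.comp x hQ
  exact ⟨(hJ.smul hP).sub ((cd_dot hg hP).smul hl), (hJ.mul he).mul hZ⟩

/-! ### Ellipticity -/

lemma der_model {Q n0 n1 c : ℝ} (hQ : 0 < Q) (hc : 0 < c) (h : n0 ^ 2 < n1 * Q) :
    ∃ d, 0 < d ∧
      HasDerivAt (fun t : ℝ => (√(Q + 2 * n0 * t + n1 * t ^ 2) * c)⁻¹ * (n0 + n1 * t)) d 0 := by
  have h1 : HasDerivAt (fun t : ℝ => Q + 2 * n0 * t + n1 * t ^ 2) (2 * n0) 0 := by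
    refine ((((hasDerivAt_id (0 : ℝ)).const_mul (2 * n0)).const_add Q).fun_add
      (((hasDerivAt_id (0 : ℝ)).fun_pow 2).const_mul n1)).congr_deriv ?_
    simp
  have h2 : HasDerivAt (fun t : ℝ => n0 + n1 * t) n1 0 := by
    simpa using ((hasDerivAt_id (0 : ℝ)).const_mul n1).const_add n0
  have hs : 0 < √Q := Real.sqrt_pos.2 hQ
  have h3 := (((h1.sqrt (by simpa using hQ.ne')).mul_const c).fun_inv
    (by simpa using ⟨hs.ne', hc.ne'⟩)).fun_mul h2
  refine ⟨_, ?_, h3⟩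
  simp only [mul_zero, add_zero, ne_eq, OfNat.ofNat_ne_zero, not_false_eq_true, zero_pow]
  have hQ' : Q = √Q ^ 2 := (Real.sq_sqrt hQ.le).symm
  generalize √Q = s at hs hQ'
  have : -(2 * n0 / (2 * s) * c) / (s * c) ^ 2 * n0 + (s * c)⁻¹ * n1 =
      (n1 * s ^ 2 - n0 ^ 2) / (s ^ 3 * c) := by
    field_simp
    ring
  rw [this, ← hQ']
  exact div_pos (sub_pos.2 h) (by positivity)

lemma der_FP (y : P2) (z : ℝ) (p ζ : P2) (h : ζ ≠ 0) :
    ∃ d, 0 < d ∧ HasDerivAt (fun t : ℝ => dot (FP y z (p + t • ζ)) ζ) d 0 := by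
  have h0 : 0 < ζ.1 ^ 2 + ζ.2 ^ 2 := by
    by_contra hn
    refine h (Prod.ext ?_ ?_)
    · exact pow_eq_zero_iff (n := 2) two_ne_zero |>.1 (by nlinarith [sq_nonneg ζ.1, sq_nonneg ζ.2])
    · exact pow_eq_zero_iff (n := 2) two_ne_zero |>.1 (by nlinarith [sq_nonneg ζ.1, sq_nonneg ζ.2])
  obtain ⟨d, hd, H⟩ := der_model (Q := 1 + p.1 ^ 2 + p.2 ^ 2 + (z - dot y p) ^ 2)
    (n0 := p.1 * ζ.1 + p.2 * ζ.2 - (z - dot y p) * dot y ζ)
    (n1 := ζ.1 ^ 2 + ζ.2 ^ 2 + dot y ζ ^ 2) (c := √(1 + y.1 ^ 2 + y.2 ^ 2 + z ^ 2) ^ 3)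
    (by positivity) (pow_pos (Real.sqrt_pos.2 (by positivity)) 3) (by
      generalize z - dot y p = v
      generalize dot y ζ = m
      nlinarith [sq_nonneg (p.1 * ζ.2 - p.2 * ζ.1), sq_nonneg (p.1 * m + v * ζ.1),
        sq_nonneg (p.2 * m + v * ζ.2), sq_nonneg m])
  refine ⟨d, hd, ?_⟩
  refine H.congr_of_eventuallyEq (Eventually.of_forall fun t => ?_)
  dsimp only
  rw [FP, dot_smul_left]
  congr 1
  · congr 3
    simp only [dot, Prod.fst_add, Prod.snd_add, Prod.smul_fst, Prod.smul_snd, smul_eq_mul]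
    ring
  · simp only [dot, Prod.fst_add, Prod.snd_add, Prod.fst_sub, Prod.snd_sub, Prod.smul_fst,
      Prod.smul_snd, smul_eq_mul]
    ring

lemma der_tA (a : Par) (l x : P2) (b : ℝ) (g : P2) (V : ℝ) (G ξ : P2) (hJ : 0 < 1 + dot l g)
    (h : ξ ≠ 0) : ∃ d, 0 < d ∧ HasDerivAt (fun t : ℝ => dot (tA a l x b g V (G + t • ξ)) ξ) d 0 := by
  have hζ : ξ - (dot l ξ / (1 + dot l g)) • g ≠ 0 := by
    intro h0
    have h1 := sub_eq_zero.1 h0
    have h2 : dot l ξ = dot l ξ / (1 + dot l g) * dot l g := by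
      rw [← dot_smul_right, ← h1]
    have h3 : dot l ξ = 0 := by
      field_simp at h2
      linarith
    rw [h3, zero_div, zero_smul] at h1
    exact h h1
  obtain ⟨d, hd, H⟩ := der_FP (tQ a l x b g V G).1 (tQ a l x b g V G).2.1 (tQ a l x b g V G).2.2
    _ hζ
  refine ⟨_, mul_pos hJ hd, ?_⟩
  refine (H.const_mul (1 + dot l g)).congr_of_eventuallyEq (Eventually.of_forall fun t => ?_)
  have e : (tQ a l x b g V (G + t • ξ)).2.2 =
      (tQ a l x b g V G).2.2 + t • (ξ - (dot l ξ / (1 + dot l g)) • g) := by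
    refine Prod.ext ?_ ?_ <;>
      simp only [tQ, dot, Prod.fst_add, Prod.snd_add, Prod.fst_sub, Prod.snd_sub, Prod.smul_fst,
        Prod.smul_snd, smul_eq_mul] <;> ring
  dsimp only
  rw [tA, e]
  change dot ((1 + dot l g) • FP (tQ a l x b g V G).1 (tQ a l x b g V G).2.1 _ -
    dot g (FP (tQ a l x b g V G).1 (tQ a l x b g V G).2.1 _) • l) ξ = _
  generalize FP _ _ _ = w
  have hJ' := hJ.ne'
  generalize hc : dot l ξ / (1 + dot l g) = c
  have hc' : dot l ξ = c * (1 + dot l g) := by rw [← hc]; field_simp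
  rw [dot_sub_left, dot_smul_left, dot_smul_left, hc']
  generalize 1 + dot l g = J
  simp only [dot, Prod.fst_sub, Prod.snd_sub, Prod.smul_fst, Prod.smul_snd, smul_eq_mul]
  ring

lemma abs_dot_le (a b : P2) : |dot a b| ≤ 2 * (‖a‖ * ‖b‖) := by
  have h1 : |a.1 * b.1| ≤ ‖a‖ * ‖b‖ := by
    rw [abs_mul]
    exact mul_le_mul (norm_fst_le a) (norm_fst_le b) (abs_nonneg _) (norm_nonneg _)
  have h2 : |a.2 * b.2| ≤ ‖a‖ * ‖b‖ := by
    rw [abs_mul]
    exact mul_le_mul (norm_snd_le a) (norm_snd_le b) (abs_nonneg _) (norm_nonneg _)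
  exact (abs_add_le _ _).trans (by linarith)

end AStr

open AStr in
theorem strS : StrS := by
  intro β hβ R M L
  obtain ⟨C, hC⟩ := (isCompact_closedBall (0 : P2) 8).exists_bound_of_continuousOn
    (cd_grad hβ).continuous.continuousOn
  have hC0 : 0 ≤ C := (norm_nonneg _).trans (hC 0 (mem_closedBall_self (by norm_num)))
  set η : ℝ := 1 / (4 * (C + 1)) with hη
  have hη0 : 0 < η := by positivity
  have hJ : ∀ l x : P2, ‖l‖ ≤ η → ‖x‖ ≤ 8 → 0 < 1 + dot l (grad β x) := by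
    intro l x hl hx
    have h1 := (abs_le.1 (abs_dot_le l (grad β x))).1
    have h2 : ‖l‖ * ‖grad β x‖ ≤ η * (C + 1) :=
      mul_le_mul hl ((hC x (mem_closedBall_zero_iff.2 hx)).trans (by linarith)) (norm_nonneg _)
        hη0.le
    have h3 : η * (C + 1) = 1 / 4 := by rw [hη]; field_simp
    linarith
  have hK : IsCompact ((closedBall (0 : P2) R ×ˢ closedBall (0 : ℝ) R ×ˢ closedBall (0 : P2) R ×ˢ
      closedBall (0 : ℝ) 1) ×ˢ closedBall (0 : P2) η) :=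
    ((isCompact_closedBall _ _).prod ((isCompact_closedBall _ _).prod
      ((isCompact_closedBall _ _).prod (isCompact_closedBall _ _)))).prod (isCompact_closedBall _ _)
  obtain ⟨lam, Lam, hlam, H⟩ := str_of hK M L
    (A := fun x : (Par × P2) × Q5 => tA x.1.1 x.1.2 x.2.1 (β x.2.1) (grad β x.2.1) x.2.2.1 x.2.2.2)
    (B := fun x : (Par × P2) × Q5 => tB x.1.1 x.1.2 x.2.1 (β x.2.1) (grad β x.2.1) x.2.2.1 x.2.2.2)
    (fun x hx => (cd_all (x := x) hβ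
      (hJ x.1.2 x.2.1 (mem_closedBall_zero_iff.1 hx.1.2) hx.2.1).ne').1)
    (fun x hx => (cd_all (x := x) hβ
      (hJ x.1.2 x.2.1 (mem_closedBall_zero_iff.1 hx.1.2) hx.2.1).ne').2.of_le (by norm_num))
    fun e he q hq ξ hξ => der_tA e.1 e.2 q.1 (β q.1) (grad β q.1) q.2.1 q.2.2 ξ
      (hJ e.2 q.1 (mem_closedBall_zero_iff.1 he.2) hq.1) hξ
  refine ⟨lam, Lam, η, hlam, hη0, fun a l ha hl => H (a, l) ?_⟩
  exact ⟨⟨mem_closedBall_zero_iff.2 ha.1, mem_closedBall_zero_iff.2 ha.2.1,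
    mem_closedBall_zero_iff.2 ha.2.2.1, mem_closedBall_zero_iff.2 ha.2.2.2⟩,
    mem_closedBall_zero_iff.2 hl⟩

end Pool.Agent.Lib.MP_16d934_gt
end
end

-- part Pool.Agent.Lib.MP_16d934_gt.BLead
section

/-! The difference of two tangent minimal graphs has a harmonic leading term. -/

set_option autoImplicit false

open Set Metric Filter Topology Asymptotics
open scoped ContDiff InnerProductSpace

noncomputable section

namespace Pool.Agent.Lib.MP_16d934_gt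

namespace BLead

/-! ### Order of vanishing of analytic functions -/

section ord
variable {E F : Type} [NormedAddCommGroup E] [NormedAddCommGroup F] {R : E → F}

/-- vanishing of order `k` at the origin -/
def Ord (k : ℕ) (R : E → F) : Prop := R =O[𝓝 0] fun y : E => ‖y‖ ^ k

lemma pow_le {j k : ℕ} (h : j ≤ k) :
    (fun y : E => ‖y‖ ^ k) =O[𝓝 0] fun y : E => ‖y‖ ^ j := by
  refine IsBigO.of_bound' ?_
  filter_upwards [ball_mem_nhds (0 : E) one_pos] with y hy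
  rw [Real.norm_of_nonneg (by positivity), Real.norm_of_nonneg (by positivity)]
  exact pow_le_pow_of_le_one (norm_nonneg _) (mem_ball_zero_iff.1 hy).le h

lemma Ord.mono {j k : ℕ} (h : Ord k R) (hj : j ≤ k) : Ord j R := IsBigO.trans h (pow_le hj)

lemma Ord.zero {k : ℕ} (h : Ord (k + 1) R) : R 0 = 0 :=
  IsBigO.eq_zero_of_norm_pow (x₀ := 0) (n := k + 1) (by simpa only [sub_zero, Ord] using h) (by omega)

lemma ord_zero (h : ContinuousAt R 0) : Ord 0 R := by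
  simpa only [Ord, pow_zero] using h.tendsto.isBigO_one ℝ

variable [NormedSpace ℝ E] [NormedSpace ℝ F] [CompleteSpace F]

lemma ord_iff (hR : AnalyticAt ℝ R 0) (k : ℕ) :
    Ord k R ↔ ∀ n < k, iteratedFDeriv ℝ n R 0 = 0 := by
  obtain ⟨p, r, hp⟩ := hR
  have hO := fun n => hp.hasFPowerSeriesAt.isBigO_sub_partialSum_pow n
  simp only [zero_add] at hO
  constructor
  · intro h
    have key : ∀ n, n < k → ∀ y : E, (p n fun _ => y) = 0 := by
      intro n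
      induction n using Nat.strong_induction_on with
      | _ n ih =>
        intro hn
        have e : p.partialSum (n + 1) = fun y => p n fun _ => y := by
          funext z
          refine Finset.sum_eq_single _ (fun b hb hnb => ?_) fun hn => ?_
          · have := Finset.mem_range.1 hb
            exact ih b (by omega) (by omega) z
          · exact absurd (Finset.mem_range.2 (lt_add_one n)) hn
        have h1 := IsBigO.sub (h.mono (j := n + 1) hn) (hO (n + 1))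
        simp only [e, sub_sub_cancel] at h1
        exact h1.continuousMultilinearMap_apply_eq_zero
    intro n hn
    ext v
    rw [hp.iteratedFDeriv_eq_sum_of_completeSpace, ← (p n).iteratedFDeriv_comp_diagonal 0 v,
      show (fun x : E => p n fun _ => x) = fun _ => 0 from funext (key n hn)]
    simp
  · intro h
    have e : p.partialSum k = fun _ => 0 := by
      funext y
      refine Finset.sum_eq_zero fun n hn => ?_
      have h1 := hp.factorial_smul y n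
      rw [h n (Finset.mem_range.1 hn), ← Nat.cast_smul_eq_nsmul ℝ] at h1
      exact (smul_eq_zero.1 h1).resolve_left (Nat.cast_ne_zero.2 (Nat.factorial_ne_zero n))
    have h2 := hO k
    simp only [e, sub_zero] at h2
    exact h2

lemma Ord.fderiv {k : ℕ} (h : Ord (k + 1) R) (hR : AnalyticAt ℝ R 0) : Ord k (fderiv ℝ R) := by
  rw [ord_iff hR] at h
  rw [ord_iff hR.fderiv]
  intro n hn
  rw [← norm_eq_zero, norm_iteratedFDeriv_fderiv, h (n + 1) (by omega), norm_zero]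

lemma ord_int {k : ℕ} (hR : AnalyticAt ℝ R 0) (h0 : R 0 = 0) (h : Ord k (fderiv ℝ R)) :
    Ord (k + 1) R := by
  rw [ord_iff hR.fderiv] at h
  rw [ord_iff hR]
  intro n hn
  rcases n with _ | n
  · ext v
    simp [h0]
  · rw [← norm_eq_zero, ← norm_iteratedFDeriv_fderiv, h n (by omega), norm_zero]

lemma zero_of_ord (hR : AnalyticAt ℝ R 0) (h : ∀ k, Ord k R) : R =ᶠ[𝓝 0] fun _ => 0 := by
  have h1 : ∀ n, iteratedFDeriv ℝ n R 0 = 0 := fun n => (ord_iff hR (n + 1)).1 (h _) n (by omega)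
  obtain ⟨p, r, hp⟩ := hR
  filter_upwards [hp.eventually_hasSum] with y hy
  have e : (fun n => p n fun _ => y) = fun _ => 0 := by
    funext n
    have h2 := hp.factorial_smul y n
    rw [h1 n, ← Nat.cast_smul_eq_nsmul ℝ] at h2
    exact (smul_eq_zero.1 h2).resolve_left (Nat.cast_ne_zero.2 (Nat.factorial_ne_zero n))
  rw [e, zero_add] at hy
  exact hy.unique hasSum_zero

end ord

/-! ### Directional derivatives on the plane -/

section dir
variable {F : Type} [NormedAddCommGroup F] [NormedSpace ℝ F] {R : P2 → F}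

/-- directional derivative -/
def D (v : P2) (R : P2 → F) (y : P2) : F := fderiv ℝ R y v

lemma d1_eq (R : P2 → F) : d1 R = D (1, 0) R := rfl
lemma d2_eq (R : P2 → F) : d2 R = D (0, 1) R := rfl

lemma clm_norm_le (L : P2 →L[ℝ] F) : ‖L‖ ≤ ‖L (1, 0)‖ + ‖L (0, 1)‖ := by
  refine L.opNorm_le_bound (by positivity) fun v => ?_
  have e : v = v.1 • ((1, 0) : P2) + v.2 • ((0, 1) : P2) := by ext <;> simp
  have h1 : ‖v.1‖ ≤ ‖v‖ := norm_fst_le v
  have h2 : ‖v.2‖ ≤ ‖v‖ := norm_snd_le v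
  calc ‖L v‖ = ‖v.1 • L (1, 0) + v.2 • L (0, 1)‖ := by
        conv_lhs => rw [e, map_add, map_smul, map_smul]
    _ ≤ ‖v.1‖ * ‖L (1, 0)‖ + ‖v.2‖ * ‖L (0, 1)‖ := by
        refine (norm_add_le _ _).trans ?_
        rw [norm_smul, norm_smul]
    _ ≤ ‖v‖ * ‖L (1, 0)‖ + ‖v‖ * ‖L (0, 1)‖ := by gcongr
    _ = _ := by ring

variable [CompleteSpace F]

lemma ana_D {y : P2} (hR : AnalyticAt ℝ R y) (v : P2) : AnalyticAt ℝ (D v R) y :=
  ((ContinuousLinearMap.apply ℝ F v).analyticAt _).comp hR.fderiv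

lemma Ord.D {k : ℕ} (h : Ord (k + 1) R) (hR : AnalyticAt ℝ R 0) (v : P2) : Ord k (D v R) :=
  ((ContinuousLinearMap.apply ℝ F v).isBigO_comp _ _).trans (h.fderiv hR)

lemma ord_int2 {k : ℕ} (hR : AnalyticAt ℝ R 0) (h0 : R 0 = 0) (h1 : Ord k (D (1, 0) R))
    (h2 : Ord k (D (0, 1) R)) : Ord (k + 1) R := by
  refine ord_int hR h0 (IsBigO.trans ?_ (h1.norm_left.add h2.norm_left))
  refine IsBigO.of_bound' (Eventually.of_forall fun y => ?_)
  exact (clm_norm_le _).trans (le_abs_self _)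

lemma DD_eq {y : P2} (hR : AnalyticAt ℝ R y) (u v : P2) :
    D u (D v R) y = fderiv ℝ (fderiv ℝ R) y u v := by
  have h := (hR.fderiv.differentiableAt.hasFDerivAt.clm_apply (hasFDerivAt_const v y)).fderiv
  show fderiv ℝ (fun x => fderiv ℝ R x v) y u = _
  rw [h]
  simp

lemma DD_comm {y : P2} (hR : AnalyticAt ℝ R y) (u v : P2) : D u (D v R) y = D v (D u R) y := by
  rw [DD_eq hR, DD_eq hR]
  exact (hR.contDiffAt (n := ω)).isSymmSndFDerivAt_of_omega u v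

end dir

/-- the complex coordinate -/
def ζ : P2 →L[ℝ] ℂ := Complex.equivRealProdCLM.symm.toContinuousLinearMap

lemma ζ_one : ζ (1, 0) = 1 := by
  apply Complex.ext <;> simp [ζ]

lemma ζ_I : ζ (0, 1) = Complex.I := by
  apply Complex.ext <;> simp [ζ]

lemma ζ_T0 (z : ℂ) : ζ (T0 z) = z := Complex.equivRealProdCLM.symm_apply_apply z

lemma ana_pow (c : ℂ) (n : ℕ) (y : P2) : AnalyticAt ℝ (fun y => c * ζ y ^ n) y :=
  analyticAt_const.mul ((ζ.analyticAt y).pow n)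

lemma has_pow (c : ℂ) (n : ℕ) (y : P2) : HasFDerivAt (fun y => c * ζ y ^ (n + 1))
    ((c * ((n + 1) * ζ y ^ n)) • ζ) y := by
  have h := ((hasDerivAt_pow (n + 1) (ζ y)).const_mul c).hasFDerivAt.restrictScalars ℝ
  refine (h.comp y ζ.hasFDerivAt).congr_fderiv ?_
  ext <;> simp [mul_comm]

/-- almost holomorphic functions have a holomorphic leading term -/
lemma holo (m : ℕ) : ∀ F : P2 → ℂ, AnalyticAt ℝ F 0 → Ord m F →
    Ord m (fun y => D (1, 0) F y + Complex.I * D (0, 1) F y) →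
    ∃ c : ℂ, Ord (m + 1) fun y => F y - c * ζ y ^ m := by
  induction m with
  | zero =>
    intro F hF _ _
    refine ⟨F 0, ?_⟩
    have := hF.differentiableAt.isBigO_sub.norm_right
    simpa [Ord] using this
  | succ m ih =>
    intro F hF h1 h2
    have a1 := ana_D hF (1, 0)
    have a2 := ana_D hF (0, 1)
    have aG : AnalyticAt ℝ (fun y => D (1, 0) F y + Complex.I * D (0, 1) F y) 0 :=
      a1.add (analyticAt_const.mul a2)
    have h3 := h2.D aG (1, 0)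
    obtain ⟨c, hc⟩ := ih (D (1, 0) F) a1 (h1.D hF _) (h3.congr' (by
      filter_upwards [hF.eventually_analyticAt] with y hy
      have b1 := (ana_D hy (1, 0)).differentiableAt.hasFDerivAt
      have b2 := (ana_D hy (0, 1)).differentiableAt.hasFDerivAt
      rw [DD_comm hy (0, 1) (1, 0)]
      exact congrArg (fun L : P2 →L[ℝ] ℂ => L (1, 0)) (b1.add (b2.const_mul Complex.I)).fderiv)
      EventuallyEq.rfl)
    have hm : ((m : ℂ) + 1) ≠ 0 := Nat.cast_add_one_ne_zero m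
    have hD : ∀ᶠ y in 𝓝 (0 : P2), ∀ v, D v (fun y => F y - c / (m + 1) * ζ y ^ (m + 1)) y =
        D v F y - c * ζ y ^ m * ζ v := by
      filter_upwards [hF.eventually_analyticAt] with y hy v
      have := (hy.differentiableAt.hasFDerivAt.sub (has_pow (c / (m + 1)) m y)).fderiv
      refine (congrArg (fun L : P2 →L[ℝ] ℂ => L v) this).trans ?_
      simp only [sub_apply, smul_apply, smul_eq_mul, D]
      field_simp
    refine ⟨c / (m + 1), ord_int2 (hF.sub (ana_pow _ _ _)) (by simp [h1.zero]) ?_ ?_⟩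
    · refine hc.congr' ?_ EventuallyEq.rfl
      filter_upwards [hD] with y hy
      rw [hy, ζ_one, mul_one]
    · refine ((hc.const_mul_left Complex.I).sub (h2.const_mul_left Complex.I)).congr' ?_
        EventuallyEq.rfl
      filter_upwards [hD] with y hy
      rw [hy, ζ_I]
      linear_combination (-D (0, 1) F y) * Complex.I_mul_I

/-- almost harmonic functions have a harmonic leading term -/
lemma harm (k : ℕ) (W : P2 → ℝ) (hW : AnalyticAt ℝ W 0) (h1 : Ord (k + 2) W)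
    (h2 : Ord (k + 1) fun y => D (1, 0) (D (1, 0) W) y + D (0, 1) (D (0, 1) W) y) :
    ∃ c : ℂ, Ord (k + 3) fun y => W y - (c * ζ y ^ (k + 2)).re := by
  have aF : ∀ y, AnalyticAt ℝ W y → ∀ v, AnalyticAt ℝ (fun y => ((D v W y : ℝ) : ℂ)) y :=
    fun y hy v => (Complex.ofRealCLM.analyticAt _).comp (ana_D hy v)
  have oF : ∀ v, Ord (k + 1) fun y => ((D v W y : ℝ) : ℂ) := fun v =>
    (Complex.ofRealCLM.isBigO_comp _ _).trans (h1.D hW v)
  obtain ⟨c, hc⟩ := holo (k + 1) (fun y => (D (1, 0) W y : ℝ) - Complex.I * (D (0, 1) W y : ℝ))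
    ((aF 0 hW _).sub (analyticAt_const.mul (aF 0 hW _)))
    ((oF _).sub ((oF _).const_mul_left _))
    (((Complex.ofRealCLM.isBigO_comp _ _).trans h2).congr' (by
      filter_upwards [hW.eventually_analyticAt] with y hy
      have b := fun v => Complex.ofRealCLM.hasFDerivAt.comp y
        (ana_D hy v).differentiableAt.hasFDerivAt
      have e : ∀ u, D u (fun y => (D (1, 0) W y : ℝ) - Complex.I * (D (0, 1) W y : ℝ)) y =
          (D u (D (1, 0) W) y : ℝ) - Complex.I * (D u (D (0, 1) W) y : ℝ) := fun u =>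
        congrArg (fun L : P2 →L[ℝ] ℂ => L u)
          ((b (1, 0)).sub ((b (0, 1)).const_mul Complex.I)).fderiv
      rw [e, e, DD_comm hy (0, 1) (1, 0)]
      simp only [Complex.ofRealCLM_apply, Complex.ofReal_add]
      linear_combination ((D (0, 1) (D (0, 1) W) y : ℝ) : ℂ) * Complex.I_mul_I)
      EventuallyEq.rfl)
  have hm : (((k + 1 : ℕ) : ℂ) + 1) ≠ 0 := Nat.cast_add_one_ne_zero _
  have hD : ∀ᶠ y in 𝓝 (0 : P2), ∀ v,
      D v (fun y => W y - (c / ((k + 1 : ℕ) + 1) * ζ y ^ (k + 2)).re) y =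
        D v W y - (c * ζ y ^ (k + 1) * ζ v).re := by
    filter_upwards [hW.eventually_analyticAt] with y hy v
    have := (hy.differentiableAt.hasFDerivAt.sub (Complex.reCLM.hasFDerivAt.comp y
      (has_pow (c / ((k + 1 : ℕ) + 1)) (k + 1) y))).fderiv
    refine (congrArg (fun L : P2 →L[ℝ] ℝ => L v) this).trans ?_
    simp only [sub_apply, smul_apply, smul_eq_mul, D,
      ContinuousLinearMap.comp_apply, Complex.reCLM_apply]
    congr 2
    field_simp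
  refine ⟨c / ((k + 1 : ℕ) + 1), ord_int2
    (hW.sub ((Complex.reCLM.analyticAt _).comp (ana_pow _ _ _))) (by simp [h1.zero]) ?_ ?_⟩
  · refine ((Complex.reCLM.isBigO_comp _ _).trans hc).congr' ?_ EventuallyEq.rfl
    filter_upwards [hD] with y hy
    rw [hy, ζ_one, mul_one]
    simp
  · refine ((Complex.imCLM.isBigO_comp _ _).trans hc).neg_left.congr' ?_ EventuallyEq.rfl
    filter_upwards [hD] with y hy
    rw [hy, ζ_I, Complex.mul_I_re]
    simp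
    ring

/-! ### The equation in terms of jets -/

/-- position, height and slopes -/
abbrev J : Type := (P2 × ℝ) × ℝ × ℝ

section jets
variable (Ξ : P2 × ℝ → E4)

def X1 (j : J) : E4 := fderiv ℝ Ξ j.1 ((1, 0), j.2.1)
def X2 (j : J) : E4 := fderiv ℝ Ξ j.1 ((0, 1), j.2.2)
def Zv (j : J) : E4 := fderiv ℝ Ξ j.1 (0, 1)
def B11 (j : J) : E4 := fderiv ℝ (fderiv ℝ Ξ) j.1 ((1, 0), j.2.1) ((1, 0), j.2.1)
def B12 (j : J) : E4 := fderiv ℝ (fderiv ℝ Ξ) j.1 ((1, 0), j.2.1) ((0, 1), j.2.2)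
def B22 (j : J) : E4 := fderiv ℝ (fderiv ℝ Ξ) j.1 ((0, 1), j.2.2) ((0, 1), j.2.2)
def gE (j : J) : ℝ := ⟪X1 Ξ j, X1 Ξ j⟫_ℝ
def gF (j : J) : ℝ := ⟪X1 Ξ j, X2 Ξ j⟫_ℝ
def gG (j : J) : ℝ := ⟪X2 Ξ j, X2 Ξ j⟫_ℝ

/-- a normal vector -/
def nv (j : J) : E4 := (gE Ξ j * gG Ξ j - gF Ξ j * gF Ξ j) • Zv Ξ j
  - (gG Ξ j * ⟪Zv Ξ j, X1 Ξ j⟫_ℝ - gF Ξ j * ⟪Zv Ξ j, X2 Ξ j⟫_ℝ) • X1 Ξ j
  - (gE Ξ j * ⟪Zv Ξ j, X2 Ξ j⟫_ℝ - gF Ξ j * ⟪Zv Ξ j, X1 Ξ j⟫_ℝ) • X2 Ξ j

def kap (j : J) : ℝ := ⟪nv Ξ j, Zv Ξ j⟫_ℝ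
def low (j : J) : ℝ :=
  ⟪nv Ξ j, gG Ξ j • B11 Ξ j - (2 * gF Ξ j) • B12 Ξ j + gE Ξ j • B22 Ξ j⟫_ℝ

lemma nv_X1 (j : J) : ⟪nv Ξ j, X1 Ξ j⟫_ℝ = 0 := by
  simp only [nv, inner_sub_left, real_inner_smul_left, real_inner_comm (X1 Ξ j) (X2 Ξ j)]
  simp only [gE, gF, gG]
  ring

lemma nv_X2 (j : J) : ⟪nv Ξ j, X2 Ξ j⟫_ℝ = 0 := by
  simp only [nv, inner_sub_left, real_inner_smul_left]
  simp only [gE, gF, gG]
  ring

variable {Ξ} {j : J}

lemma cd_A (h : AnalyticAt ℝ Ξ j.1) : ContDiffAt ℝ 1 (fun j : J => fderiv ℝ Ξ j.1) j :=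
  (h.fderiv.contDiffAt (n := 1)).comp j contDiffAt_fst

lemma cd_B (h : AnalyticAt ℝ Ξ j.1) :
    ContDiffAt ℝ 1 (fun j : J => fderiv ℝ (fderiv ℝ Ξ) j.1) j :=
  (h.fderiv.fderiv.contDiffAt (n := 1)).comp j contDiffAt_fst

lemma cd_p (v : P2) : ContDiffAt ℝ 1 (fun j : J => (v, j.2.1)) j :=
  contDiffAt_const.prodMk contDiffAt_snd.fst

lemma cd_q (v : P2) : ContDiffAt ℝ 1 (fun j : J => (v, j.2.2)) j :=
  contDiffAt_const.prodMk contDiffAt_snd.snd

lemma cd_all (h : AnalyticAt ℝ Ξ j.1) : ContDiffAt ℝ 1 (gE Ξ) j ∧ ContDiffAt ℝ 1 (gF Ξ) j ∧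
    ContDiffAt ℝ 1 (gG Ξ) j ∧ ContDiffAt ℝ 1 (kap Ξ) j ∧ ContDiffAt ℝ 1 (low Ξ) j := by
  have h1 : ContDiffAt ℝ 1 (X1 Ξ) j := (cd_A h).clm_apply (cd_p _)
  have h2 : ContDiffAt ℝ 1 (X2 Ξ) j := (cd_A h).clm_apply (cd_q _)
  have hZ : ContDiffAt ℝ 1 (Zv Ξ) j := (cd_A h).clm_apply contDiffAt_const
  have b11 : ContDiffAt ℝ 1 (B11 Ξ) j := ((cd_B h).clm_apply (cd_p _)).clm_apply (cd_p _)
  have b12 : ContDiffAt ℝ 1 (B12 Ξ) j := ((cd_B h).clm_apply (cd_p _)).clm_apply (cd_q _)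
  have b22 : ContDiffAt ℝ 1 (B22 Ξ) j := ((cd_B h).clm_apply (cd_q _)).clm_apply (cd_q _)
  have hE : ContDiffAt ℝ 1 (gE Ξ) j := h1.inner ℝ h1
  have hF : ContDiffAt ℝ 1 (gF Ξ) j := h1.inner ℝ h2
  have hG : ContDiffAt ℝ 1 (gG Ξ) j := h2.inner ℝ h2
  have z1 := hZ.inner ℝ h1
  have z2 := hZ.inner ℝ h2
  have hn : ContDiffAt ℝ 1 (nv Ξ) j :=
    ((((hE.mul hG).sub (hF.mul hF)).smul hZ).sub (((hG.mul z1).sub (hF.mul z2)).smul h1)).sub
      (((hE.mul z2).sub (hF.mul z1)).smul h2)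
  exact ⟨hE, hF, hG, hn.inner ℝ hZ, hn.inner ℝ
    (((hG.smul b11).sub ((contDiffAt_const.mul hF).smul b12)).add (hE.smul b22))⟩

lemma kap_ne (h : Function.Injective (fderiv ℝ Ξ j.1)) (hE : gE Ξ j = 1) (hF : gF Ξ j = 0)
    (hG : gG Ξ j = 1) : kap Ξ j ≠ 0 := by
  intro h0
  have e : nv Ξ j = Zv Ξ j - ⟪Zv Ξ j, X1 Ξ j⟫_ℝ • X1 Ξ j - ⟪Zv Ξ j, X2 Ξ j⟫_ℝ • X2 Ξ j := by
    simp [nv, hE, hF, hG]
  have h1 : ⟪nv Ξ j, nv Ξ j⟫_ℝ = 0 := by
    nth_rewrite 2 [e]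
    rw [inner_sub_right, inner_sub_right, real_inner_smul_right, real_inner_smul_right, nv_X1,
      nv_X2, mul_zero, mul_zero, sub_zero, sub_zero]
    exact h0
  rw [inner_self_eq_zero, e] at h1
  generalize ⟪Zv Ξ j, X1 Ξ j⟫_ℝ = a at h1
  generalize ⟪Zv Ξ j, X2 Ξ j⟫_ℝ = b at h1
  rw [Zv, X1, X2, ← map_smul, ← map_smul, ← map_sub, ← map_sub,
    ← map_zero (fderiv ℝ Ξ j.1)] at h1
  have h2 := h h1
  simp only [Prod.ext_iff, Prod.fst_sub, Prod.snd_sub, Prod.smul_fst, Prod.smul_snd, smul_eq_mul,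
    Prod.fst_zero, Prod.snd_zero] at h2
  obtain ⟨⟨a1, a2⟩, a3⟩ := h2
  have a4 : a = 0 := by linarith
  have a5 : b = 0 := by linarith
  rw [a4, a5] at a3
  norm_num at a3

lemma perp {s : P2 × ℝ} (h : DifferentiableAt ℝ Ξ s) (h1 : ∀ᶠ s in 𝓝 s, ‖Ξ s‖ = 1) (v : P2 × ℝ) :
    ⟪fderiv ℝ Ξ s v, Ξ s⟫_ℝ = 0 := by
  have e : (fun s => ⟪Ξ s, Ξ s⟫_ℝ) =ᶠ[𝓝 s] fun _ => 1 := by
    filter_upwards [h1] with s hs
    rw [real_inner_self_eq_norm_sq, hs, one_pow]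
  have h2 := fderiv_inner_apply ℝ h h v
  rw [e.fderiv_eq, real_inner_comm (fderiv ℝ Ξ s v)] at h2
  simp only [fderiv_fun_const, Pi.zero_apply, zero_apply] at h2
  linarith

/-- the jet of a graph -/
def jt (f : P2 → ℝ) (y : P2) : J := ((y, f y), D (1, 0) f y, D (0, 1) f y)

variable {f g : P2 → ℝ} {y : P2}

lemma ana_graph (hf : AnalyticAt ℝ f y) : AnalyticAt ℝ (fun x => (x, f x)) y :=
  analyticAt_id.prod hf

lemma ana_jt (hf : AnalyticAt ℝ f y) : AnalyticAt ℝ (jt f) y :=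
  (ana_graph hf).prod ((ana_D hf _).prod (ana_D hf _))

lemma ana_X (hΞ : AnalyticAt ℝ Ξ (y, f y)) (hf : AnalyticAt ℝ f y) :
    AnalyticAt ℝ (fun x => Ξ (x, f x)) y :=
  AnalyticAt.comp (f := fun x => (x, f x)) hΞ (ana_graph hf)

lemma D_X (hΞ : AnalyticAt ℝ Ξ (y, f y)) (hf : AnalyticAt ℝ f y) (v : P2) :
    D v (fun x => Ξ (x, f x)) y = fderiv ℝ Ξ (y, f y) (v, D v f y) :=
  congrArg (fun L : P2 →L[ℝ] E4 => L v) (hΞ.differentiableAt.hasFDerivAt.comp y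
    ((hasFDerivAt_id y).prodMk hf.differentiableAt.hasFDerivAt)).fderiv

lemma DD_X (hΞ : AnalyticAt ℝ Ξ (y, f y)) (hf : AnalyticAt ℝ f y) (u v : P2) :
    D u (D v fun x => Ξ (x, f x)) y =
      fderiv ℝ (fderiv ℝ Ξ) (y, f y) (u, D u f y) (v, D v f y) +
        D u (D v f) y • fderiv ℝ Ξ (y, f y) (0, 1) := by
  have e : (D v fun x => Ξ (x, f x)) =ᶠ[𝓝 y] fun x => fderiv ℝ Ξ (x, f x) (v, D v f x) := by
    filter_upwards [hf.eventually_analyticAt,
      (ana_graph hf).continuousAt.eventually hΞ.eventually_analyticAt] with x h1 h2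
    exact D_X h2 h1 v
  have h1 := hΞ.fderiv.differentiableAt.hasFDerivAt.comp y
    ((hasFDerivAt_id y).prodMk hf.differentiableAt.hasFDerivAt)
  have h2 := (hasFDerivAt_const v y).prodMk (ana_D hf v).differentiableAt.hasFDerivAt
  have h3 := congrArg (fun L : P2 →L[ℝ] E4 => L u) (h1.clm_apply h2).fderiv
  rw [D, e.fderiv_eq]
  refine h3.trans ?_
  rw [← map_smul, add_comm]
  simp [D]

lemma eqn (hΞ : AnalyticAt ℝ Ξ (y, f y)) (h1 : ∀ᶠ s in 𝓝 (y, f y), ‖Ξ s‖ = 1)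
    (hf : AnalyticAt ℝ f y) (hm : MinEq (fun x => Ξ (x, f x)) y) :
    low Ξ (jt f y) + kap Ξ (jt f y) * gG Ξ (jt f y) * D (1, 0) (D (1, 0) f) y
      - 2 * (kap Ξ (jt f y) * gF Ξ (jt f y) * D (1, 0) (D (0, 1) f) y)
      + kap Ξ (jt f y) * gE Ξ (jt f y) * D (0, 1) (D (0, 1) f) y = 0 := by
  have e1 : D (1, 0) (fun x => Ξ (x, f x)) y = X1 Ξ (jt f y) := D_X hΞ hf _
  have e2 : D (0, 1) (fun x => Ξ (x, f x)) y = X2 Ξ (jt f y) := D_X hΞ hf _
  have e11 : D (1, 0) (D (1, 0) fun x => Ξ (x, f x)) y =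
      B11 Ξ (jt f y) + D (1, 0) (D (1, 0) f) y • Zv Ξ (jt f y) := DD_X hΞ hf _ _
  have e12 : D (1, 0) (D (0, 1) fun x => Ξ (x, f x)) y =
      B12 Ξ (jt f y) + D (1, 0) (D (0, 1) f) y • Zv Ξ (jt f y) := DD_X hΞ hf _ _
  have e22 : D (0, 1) (D (0, 1) fun x => Ξ (x, f x)) y =
      B22 Ξ (jt f y) + D (0, 1) (D (0, 1) f) y • Zv Ξ (jt f y) := DD_X hΞ hf _ _
  have p := perp hΞ.differentiableAt h1
  have h0 : ⟪nv Ξ (jt f y), Ξ (y, f y)⟫_ℝ = 0 := by
    have p1 : ⟪X1 Ξ (jt f y), Ξ (y, f y)⟫_ℝ = 0 := p _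
    have p2 : ⟪X2 Ξ (jt f y), Ξ (y, f y)⟫_ℝ = 0 := p _
    have p3 : ⟪Zv Ξ (jt f y), Ξ (y, f y)⟫_ℝ = 0 := p _
    simp only [nv, inner_sub_left, real_inner_smul_left, p1, p2, p3, mul_zero, sub_zero]
  have h := hm (nv Ξ (jt f y)) h0 (by rw [d1_eq, e1, nv_X1]) (by rw [d2_eq, e2, nv_X2])
  simp only [d1_eq, d2_eq, e1, e2, e11, e12, e22, ← real_inner_self_eq_norm_sq] at h
  simp only [low, kap, gE, gF, gG, inner_add_right, inner_sub_right, real_inner_smul_right] at h ⊢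
  linear_combination h

lemma Ord.mul {j k : ℕ} {a b : P2 → ℝ} (ha : Ord j a) (hb : Ord k b) :
    Ord (j + k) fun y => a y * b y := by
  simpa only [Ord, pow_add] using IsBigO.mul ha hb

lemma D_sub (hf : AnalyticAt ℝ f y) (hg : AnalyticAt ℝ g y) (v : P2) :
    D v (fun x => f x - g x) y = D v f y - D v g y :=
  congrArg (fun L : P2 →L[ℝ] ℝ => L v)
    (hf.differentiableAt.hasFDerivAt.sub hg.differentiableAt.hasFDerivAt).fderiv

lemma DD_sub (hf : AnalyticAt ℝ f y) (hg : AnalyticAt ℝ g y) (u v : P2) :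
    D u (D v fun x => f x - g x) y = D u (D v f) y - D u (D v g) y := by
  have e : (D v fun x => f x - g x) =ᶠ[𝓝 y] fun x => D v f x - D v g x := by
    filter_upwards [hf.eventually_analyticAt, hg.eventually_analyticAt] with x h1 h2
    exact D_sub h1 h2 v
  rw [← D_sub (ana_D hf v) (ana_D hg v), D, e.fderiv_eq, D]

/-- the Laplacian of the difference vanishes to higher order -/
lemma lap {k : ℕ} (hΞ : AnalyticAt ℝ Ξ (0, f 0)) (hi : Function.Injective (fderiv ℝ Ξ (0, f 0)))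
    (h1 : ∀ᶠ s in 𝓝 (0, f 0), ‖Ξ s‖ = 1) (hf : AnalyticAt ℝ f 0) (hg : AnalyticAt ℝ g 0)
    (hj : jt f 0 = jt g 0) (mf : ∀ᶠ x in 𝓝 0, MinEq (fun x => Ξ (x, f x)) x)
    (mg : ∀ᶠ x in 𝓝 0, MinEq (fun x => Ξ (x, g x)) x) (hE : gE Ξ (jt f 0) = 1)
    (hF : gF Ξ (jt f 0) = 0) (hG : gG Ξ (jt f 0) = 1) (hW : Ord (k + 2) fun x => f x - g x) :
    Ord (k + 1) fun y => D (1, 0) (D (1, 0) fun x => f x - g x) y
      + D (0, 1) (D (0, 1) fun x => f x - g x) y := by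
  have aW : AnalyticAt ℝ (fun x => f x - g x) 0 := hf.sub hg
  have h0 : f 0 = g 0 := congrArg (fun j : J => j.1.2) hj
  have hJ : Ord (k + 1) fun y => jt f y - jt g y := by
    have := ((isBigO_zero (E' := P2) (fun y : P2 => ‖y‖ ^ (k + 1)) (𝓝 0)).prod_left
      (hW.mono (Nat.le_succ _))).prod_left ((hW.D aW (1, 0)).prod_left (hW.D aW (0, 1)))
    refine this.congr' ?_ EventuallyEq.rfl
    filter_upwards [hf.eventually_analyticAt, hg.eventually_analyticAt] with x a1 a2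
    rw [D_sub a1 a2, D_sub a1 a2]
    simp [jt]
  have hT : Tendsto (fun y => (jt f y, jt g y)) (𝓝 0) (𝓝 (jt f 0, jt f 0)) :=
    (ana_jt hf).continuousAt.tendsto.prodMk_nhds (hj ▸ (ana_jt hg).continuousAt.tendsto)
  have dif : ∀ a : J → ℝ, ContDiffAt ℝ 1 a (jt f 0) →
      Ord (k + 1) fun y => a (jt f y) - a (jt g y) := fun a ha =>
    ((ha.hasStrictFDerivAt one_ne_zero).isBigO_sub.comp_tendsto hT).trans hJ
  have one : ∀ a : J → ℝ, ContDiffAt ℝ 1 a (jt f 0) →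
      Ord 1 fun y => a (jt f y) - a (jt f 0) := fun a ha => by
    have := ((ha.differentiableAt one_ne_zero).comp 0
      (ana_jt hf).differentiableAt).isBigO_sub.norm_right
    simpa [Ord] using this
  have w2 : ∀ u v, Ord k (D u (D v fun x => f x - g x)) := fun u v =>
    (hW.D aW v).D (ana_D aW v) u
  have g2 : ∀ u v, Ord 0 (D u (D v g)) := fun u v => ord_zero (ana_D (ana_D hg v) u).continuousAt
  obtain ⟨cE, cF, cG, cK, cL⟩ := cd_all (j := jt f 0) hΞ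
  have t1 := (one _ (cK.mul cG)).mul (w2 (1, 0) (1, 0))
  have t2 := (one _ (cK.mul cF)).mul (w2 (1, 0) (0, 1))
  have t3 := (one _ (cK.mul cE)).mul (w2 (0, 1) (0, 1))
  rw [add_comm 1 k] at t1 t2 t3
  have t4 := dif _ cL
  have t5 := (dif _ (cK.mul cG)).mul (g2 (1, 0) (1, 0))
  have t6 := (dif _ (cK.mul cF)).mul (g2 (1, 0) (0, 1))
  have t7 := (dif _ (cK.mul cE)).mul (g2 (0, 1) (0, 1))
  have hk := kap_ne (j := jt f 0) hi hE hF hG
  have t := (((((((t2.const_mul_left 2).sub t1).sub t3).sub t4).sub t5).add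
    (t6.const_mul_left 2)).sub t7).const_mul_left (kap Ξ (jt f 0))⁻¹
  refine t.congr' ?_ EventuallyEq.rfl
  have cf := (ana_graph hf).continuousAt
  have cg := (ana_graph hg).continuousAt
  filter_upwards [hf.eventually_analyticAt, hg.eventually_analyticAt, mf, mg,
    cf.eventually hΞ.eventually_analyticAt, cf.eventually h1.eventually_nhds,
    cg.eventually (h0 ▸ hΞ).eventually_analyticAt, cg.eventually (h0 ▸ h1).eventually_nhds]
    with x a1 a2 m1 m2 b1 b2 b3 b4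
  have e1 := eqn b1 b2 a1 m1
  have e2 := eqn b3 b4 a2 m2
  rw [DD_sub a1 a2, DD_sub a1 a2, DD_sub a1 a2, hE, hF, hG, inv_mul_eq_iff_eq_mul₀ hk]
  linear_combination e2 - e1

lemma core (hΞ : AnalyticAt ℝ Ξ (0, f 0)) (hi : Function.Injective (fderiv ℝ Ξ (0, f 0)))
    (h1 : ∀ᶠ s in 𝓝 (0, f 0), ‖Ξ s‖ = 1) (hf : AnalyticAt ℝ f 0) (hg : AnalyticAt ℝ g 0)
    (h0 : f 0 = g 0) (hd : fderiv ℝ f 0 = fderiv ℝ g 0)
    (mf : ∀ᶠ x in 𝓝 0, MinEq (fun x => Ξ (x, f x)) x)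
    (mg : ∀ᶠ x in 𝓝 0, MinEq (fun x => Ξ (x, g x)) x) (hE : gE Ξ (jt f 0) = 1)
    (hF : gF Ξ (jt f 0) = 0) (hG : gG Ξ (jt f 0) = 1) :
    f =ᶠ[𝓝 0] g ∨ ∃ (k : ℕ) (c : ℂ), c ≠ 0 ∧
      Ord (k + 3) fun y => f y - g y - (c * ζ y ^ (k + 2)).re := by
  classical
  have aW : AnalyticAt ℝ (fun x => f x - g x) 0 := hf.sub hg
  by_cases h : ∀ n, Ord n fun x => f x - g x
  · left
    filter_upwards [zero_of_ord aW h] with y hy using sub_eq_zero.1 hy
  right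
  have h' : ∃ n, ¬ Ord n fun x => f x - g x := not_forall.1 h
  have o2 : Ord 2 fun x => f x - g x := by
    refine ord_int aW (sub_eq_zero.2 h0) (ord_int aW.fderiv ?_ (ord_zero ?_))
    · rw [fderiv_fun_sub hf.differentiableAt hg.differentiableAt, hd, sub_self]
    · exact aW.fderiv.fderiv.continuousAt
  have h3 : 2 < Nat.find h' := by
    by_contra hn
    exact Nat.find_spec h' (o2.mono (not_lt.1 hn))
  obtain ⟨k, hk⟩ : ∃ k, Nat.find h' = k + 3 := ⟨Nat.find h' - 3, by omega⟩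
  have h4 : Ord (k + 2) fun x => f x - g x := by
    by_contra hn
    exact Nat.find_min h' (by omega) hn
  have hj : jt f 0 = jt g 0 := by simp only [jt, D, h0, hd]
  obtain ⟨c, hc⟩ := harm k _ aW h4 (lap hΞ hi h1 hf hg hj mf mg hE hF hG h4)
  refine ⟨k, c, ?_, hc⟩
  rintro rfl
  apply Nat.find_spec h'
  rw [hk]
  simpa using hc

end jets

lemma lead_of {w : P2 → ℝ} {x₀ : P2} {T : ℂ →L[ℝ] P2} {k : ℕ} {c : ℂ} (hw : AnalyticAt ℝ w x₀)
    (hc : c ≠ 0) (h : Ord (k + 3) fun y => w (x₀ + T (ζ y)) - (c * ζ y ^ (k + 2)).re) :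
    Lead w x₀ T (k + 2) c := by
  have aψ : ∀ z : ℂ, AnalyticAt ℝ (fun z => x₀ + T z) z := fun z =>
    analyticAt_const.add (T.analyticAt z)
  have hw0 : AnalyticAt ℝ w (x₀ + T 0) := by simpa using hw
  have aR : AnalyticAt ℝ (fun z : ℂ => w (x₀ + T z) - (c * z ^ (k + 2)).re) 0 :=
    (AnalyticAt.comp (f := fun z => x₀ + T z) hw0 (aψ 0)).sub
      ((Complex.reCLM.analyticAt _).comp (analyticAt_const.mul (analyticAt_id.pow _)))
  have hT : Tendsto T0 (𝓝 0) (𝓝 0) := by simpa using T0.continuous.tendsto 0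
  have h1 : Ord (k + 3) fun z : ℂ => w (x₀ + T z) - (c * z ^ (k + 2)).re := by
    have := (IsBigO.comp_tendsto h hT).trans
      (((T0.isBigO_id (𝓝 0)).norm_left.norm_right).pow (k + 3))
    simpa only [Function.comp_def, ζ_T0, Ord] using this
  obtain ⟨C₁, h2⟩ := h1.bound
  obtain ⟨C₂, h3⟩ := (h1.fderiv aR).bound
  have h4 := (aψ 0).continuousAt.eventually hw0.eventually_analyticAt
  obtain ⟨δ, hδ, h5⟩ := Metric.eventually_nhds_iff_ball.1 (h2.and (h3.and h4))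
  refine ⟨hc, max C₁ C₂, δ, hδ, fun z hz => ?_⟩
  obtain ⟨a1, a2, a3⟩ := h5 z (mem_ball_zero_iff.2 hz)
  rw [Real.norm_of_nonneg (r := ‖z‖ ^ _) (by positivity)] at a1 a2
  refine ⟨a3.differentiableAt, a1.trans (by gcongr; exact le_max_left _ _), fun v => ?_⟩
  have b1 := a3.differentiableAt.hasFDerivAt.comp z (T.hasFDerivAt.const_add x₀)
  have b2 := Complex.reCLM.hasFDerivAt.comp z
    (((hasDerivAt_pow (k + 2) z).const_mul c).hasFDerivAt.restrictScalars ℝ)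
  have b3 : fderiv ℝ (fun z : ℂ => w (x₀ + T z) - (c * z ^ (k + 2)).re) z v =
      fderiv ℝ w (x₀ + T z) (T v) - (c * (k + 2 : ℕ) * z ^ (k + 2 - 1) * v).re := by
    refine (congrArg (fun L : ℂ →L[ℝ] ℝ => L v) (b1.sub b2).fderiv).trans ?_
    simp only [sub_apply, ContinuousLinearMap.comp_apply, Complex.reCLM_apply,
      ContinuousLinearMap.coe_restrictScalars', ContinuousLinearMap.toSpanSingleton_apply,
      smul_eq_mul]
    congr 2
    ring
  rw [← b3, ← Real.norm_eq_abs]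
  refine (ContinuousLinearMap.le_opNorm _ v).trans ?_
  gcongr
  exact a2.trans (by gcongr; exact le_max_right _ _)

end BLead

open BLead

theorem leadS (hM : MeqS) : LeadS := by
  intro Ξ f g x₀ T hΞ hi h1 hf hg h0 hd mf mg hT
  have hinj : Function.Injective (T.comp ζ) := by
    refine Function.Injective.comp (f := ζ) (g := T) ?_ Complex.equivRealProdCLM.symm.injective
    refine (injective_iff_map_eq_zero T).2 fun v hv => ?_
    have := hT v
    rw [hv, map_zero, norm_zero] at this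
    exact norm_eq_zero.1 this.symm
  have hψ : ∀ y, HasStrictFDerivAt (fun y => x₀ + T (ζ y)) (T.comp ζ) y := fun y =>
    (T.comp ζ).hasStrictFDerivAt.const_add x₀
  have aψ : ∀ y, AnalyticAt ℝ (fun y => x₀ + T (ζ y)) y := fun y =>
    analyticAt_const.add ((T.comp ζ).analyticAt y)
  have e0 : x₀ + T (ζ 0) = x₀ := by simp
  have hmap : map (fun y => x₀ + T (ζ y)) (𝓝 0) = 𝓝 x₀ := by
    have := (hψ 0).map_nhds_eq_of_surj (LinearMap.range_eq_top.2
      ((LinearMap.injective_iff_surjective (f := (T.comp ζ).toLinearMap)).1 hinj))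
    rwa [e0] at this
  have hΨ : HasFDerivAt (fun s : P2 × ℝ => (x₀ + T (ζ s.1), s.2))
      ((T.comp ζ).prodMap (ContinuousLinearMap.id ℝ ℝ)) (0, f (x₀ + T (ζ 0))) :=
    HasFDerivAt.prodMap ((0 : P2), f (x₀ + T (ζ 0))) (hψ 0).hasFDerivAt (hasFDerivAt_id _)
  have aΨ : AnalyticAt ℝ (fun s : P2 × ℝ => (x₀ + T (ζ s.1), s.2)) (0, f (x₀ + T (ζ 0))) :=
    (AnalyticAt.comp (g := fun y => x₀ + T (ζ y)) (f := fun s : P2 × ℝ => s.1)
      (x := (0, f (x₀ + T (ζ 0)))) (aψ 0) analyticAt_fst).prod analyticAt_snd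
  have hΞ' : AnalyticAt ℝ Ξ (x₀ + T (ζ 0), f (x₀ + T (ζ 0))) := by rwa [e0]
  have hf' : AnalyticAt ℝ f (x₀ + T (ζ 0)) := by rwa [e0]
  have hg' : AnalyticAt ℝ g (x₀ + T (ζ 0)) := by rwa [e0]
  have aΞ : AnalyticAt ℝ (fun s : P2 × ℝ => Ξ (x₀ + T (ζ s.1), s.2)) (0, f (x₀ + T (ζ 0))) :=
    AnalyticAt.comp (f := fun s : P2 × ℝ => (x₀ + T (ζ s.1), s.2)) hΞ' aΨ
  have af : AnalyticAt ℝ (fun y => f (x₀ + T (ζ y))) 0 :=
    AnalyticAt.comp (f := fun y => x₀ + T (ζ y)) hf' (aψ 0)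
  have ag : AnalyticAt ℝ (fun y => g (x₀ + T (ζ y))) 0 :=
    AnalyticAt.comp (f := fun y => x₀ + T (ζ y)) hg' (aψ 0)
  have mm : ∀ u : P2 → ℝ, AnalyticAt ℝ u x₀ → u x₀ = f x₀ →
      (∀ᶠ x in 𝓝 x₀, MinEq (fun x => Ξ (x, u x)) x) →
      ∀ᶠ y in 𝓝 0, MinEq (fun y => Ξ (x₀ + T (ζ y), u (x₀ + T (ζ y)))) y := by
    intro u hu e mu
    have := mu.and (ana_X (e ▸ hΞ) hu).eventually_analyticAt
    rw [← hmap, eventually_map] at this
    filter_upwards [this] with y hy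
    refine (hM.comp (fun x => Ξ (x, u x)) (fun y => x₀ + T (ζ y)) y (aψ y).contDiffAt
      hy.2.contDiffAt ?_).2 hy.1
    rw [(hψ y).hasFDerivAt.fderiv]
    exact hinj
  have hX : ∀ v, D v (fun y => Ξ (x₀ + T (ζ y), f (x₀ + T (ζ y)))) 0 =
      fderiv ℝ (fun x => Ξ (x, f x)) x₀ (T (ζ v)) := fun v => by
    have := ((ana_X hΞ' hf').differentiableAt.hasFDerivAt.comp 0 (hψ 0).hasFDerivAt).fderiv
    rw [e0] at this
    exact congrArg (fun L : P2 →L[ℝ] E4 => L v) this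
  have hI : ∀ u v : ℂ, ⟪fderiv ℝ (fun x => Ξ (x, f x)) x₀ (T u),
      fderiv ℝ (fun x => Ξ (x, f x)) x₀ (T v)⟫_ℝ = ⟪u, v⟫_ℝ := fun u v =>
    LinearIsometry.inner_map_map
      ⟨((fderiv ℝ (fun x => Ξ (x, f x)) x₀).comp T).toLinearMap, hT⟩ u v
  have e1 := (D_X aΞ af (1, 0)).symm.trans (hX _)
  have e2 := (D_X aΞ af (0, 1)).symm.trans (hX _)
  rw [ζ_one] at e1
  rw [ζ_I] at e2
  refine Or.imp (fun h => ?_) (fun ⟨k, c, hc, h⟩ => ⟨k + 2, c, by omega, lead_of (hf.sub hg) hc h⟩)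
    (core aΞ ?_ ?_ af ag (by rw [e0, h0]) ?_ (mm f hf rfl mf) (mm g hg h0.symm mg) ?_ ?_ ?_)
  · rw [← hmap]
    exact h
  · have := (HasFDerivAt.comp (g := Ξ) (f := fun s : P2 × ℝ => (x₀ + T (ζ s.1), s.2))
      ((0 : P2), f (x₀ + T (ζ 0))) hΞ'.differentiableAt.hasFDerivAt hΨ).fderiv
    rw [show fderiv ℝ (fun s : P2 × ℝ => Ξ (x₀ + T (ζ s.1), s.2)) (0, f (x₀ + T (ζ 0))) = _
      from this]
    simp only [e0]
    exact hi.comp (hinj.prodMap Function.injective_id)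
  · exact aΨ.continuousAt.eventually (by simpa only [e0] using h1)
  · have a1 := (hf'.differentiableAt.hasFDerivAt.comp 0 (hψ 0).hasFDerivAt).fderiv
    have a2 := (hg'.differentiableAt.hasFDerivAt.comp 0 (hψ 0).hasFDerivAt).fderiv
    rw [e0] at a1 a2
    rw [← hd] at a2
    exact a1.trans a2.symm
  · refine (congrArg₂ (fun a b : E4 => ⟪a, b⟫_ℝ) e1 e1).trans ?_
    rw [hI]
    simp
  · refine (congrArg₂ (fun a b : E4 => ⟪a, b⟫_ℝ) e1 e2).trans ?_
    rw [hI]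
    simp
  · refine (congrArg₂ (fun a b : E4 => ⟪a, b⟫_ℝ) e2 e2).trans ?_
    rw [hI]
    simp

end Pool.Agent.Lib.MP_16d934_gt
end
end
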