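import Pool.Agent.Lib.MP_16d934_gt.StC

-- part Pool.Agent.Lib.MP_16d934_gt.BPca
section

/-! Persistence of tangency: the cylindrical chart, slopes, winding. -/

set_option autoImplicit false

open Set Metric Filter Topology Asymptotics
open scoped ContDiff InnerProductSpace NNReal Real

noncomputable section

namespace Pool.Agent.Lib.MP_16d934_gt.BPc

/-- the first two coordinates -/
def zz (x : E4) : P2 := (x 0, x 1)

/-- cylindrical chart of the sphere -/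
def Xi (q : P2 × ℝ) : E4 :=
  q.1.1 • ee 0 + q.1.2 • ee 1 + (√(1 - q.1.1 ^ 2 - q.1.2 ^ 2) * Real.cos q.2) • ee 2
    + (√(1 - q.1.1 ^ 2 - q.1.2 ^ 2) * Real.sin q.2) • ee 3

/-- tangent vectors in the cylindrical chart -/
def tg (x : E4) (v : P2) (τ : ℝ) : E4 :=
  !₂[v.1, v.2, -(x 0 * v.1 + x 1 * v.2) / (1 - aa x) * x 2 - x 3 * τ,
    -(x 0 * v.1 + x 1 * v.2) / (1 - aa x) * x 3 + x 2 * τ]

/-- slope of a contact element -/
def sl (x n : E4) : P2 :=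
  (-(n 0 + x 0 * vv x n / (1 - aa x)) / u34 x n, -(n 1 + x 1 * vv x n / (1 - aa x)) / u34 x n)

/-- a covector read as a complex number -/
def Cx (T : ℂ →L[ℝ] P2) (l : P2) : ℂ := ⟨dot l (T 1), -dot l (T Complex.I)⟩

theorem Xi0 (q : P2 × ℝ) : Xi q 0 = q.1.1 := by simp [Xi, ee]
theorem Xi1 (q : P2 × ℝ) : Xi q 1 = q.1.2 := by simp [Xi, ee]
theorem Xi2 (q : P2 × ℝ) : Xi q 2 = √(1 - q.1.1 ^ 2 - q.1.2 ^ 2) * Real.cos q.2 := by simp [Xi, ee]
theorem Xi3 (q : P2 × ℝ) : Xi q 3 = √(1 - q.1.1 ^ 2 - q.1.2 ^ 2) * Real.sin q.2 := by simp [Xi, ee]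

theorem zz_Xi (q : P2 × ℝ) : zz (Xi q) = q.1 := by simp [zz, Xi0, Xi1]

theorem aa_Xi (q : P2 × ℝ) : aa (Xi q) = q.1.1 ^ 2 + q.1.2 ^ 2 := by simp [aa, Xi0, Xi1]

theorem nsq (x : E4) : ‖x‖ ^ 2 = x 0 ^ 2 + x 1 ^ 2 + x 2 ^ 2 + x 3 ^ 2 := by
  rw [← real_inner_self_eq_norm_sq, inner4]; ring

theorem unit_iff (x : E4) : ‖x‖ = 1 ↔ x 0 ^ 2 + x 1 ^ 2 + x 2 ^ 2 + x 3 ^ 2 = 1 := by
  rw [← nsq]
  exact ⟨fun h => by rw [h]; norm_num, fun h => by
    have := norm_nonneg x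
    nlinarith⟩

theorem norm_Xi (q : P2 × ℝ) (hq : q.1.1 ^ 2 + q.1.2 ^ 2 < 1) : ‖Xi q‖ = 1 := by
  rw [unit_iff, Xi0, Xi1, Xi2, Xi3, mul_pow, mul_pow, Real.sq_sqrt (by linarith)]
  nlinarith [Real.sin_sq_add_cos_sq q.2]

theorem cont_zz : Continuous zz := by unfold zz; fun_prop

theorem ana_Xi (q : P2 × ℝ) (hq : q.1.1 ^ 2 + q.1.2 ^ 2 < 1) : AnalyticAt ℝ Xi q := by
  have h1 : ContDiffAt ℝ ω (fun q : P2 × ℝ => √(1 - q.1.1 ^ 2 - q.1.2 ^ 2)) q :=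
    ContDiffAt.sqrt (by fun_prop) (by linarith)
  have h2 : ContDiffAt ℝ ω Xi q := by
    unfold Xi
    refine ((ContDiffAt.add ?_ ?_).add ?_).add ?_
    · fun_prop
    · fun_prop
    · exact (h1.mul (by fun_prop)).smul contDiffAt_const
    · exact (h1.mul (by fun_prop)).smul contDiffAt_const
  exact h2.analyticAt

theorem fderiv_Xi (q : P2 × ℝ) (hq : q.1.1 ^ 2 + q.1.2 ^ 2 < 1) (v : P2 × ℝ) :
    fderiv ℝ Xi q v = tg (Xi q) v.1 v.2 := by
  have hp : 0 < 1 - q.1.1 ^ 2 - q.1.2 ^ 2 := by linarith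
  have a1 : HasFDerivAt (fun q : P2 × ℝ => q.1.1)
      ((ContinuousLinearMap.fst ℝ ℝ ℝ).comp (ContinuousLinearMap.fst ℝ P2 ℝ)) q :=
    ((ContinuousLinearMap.fst ℝ ℝ ℝ).comp (ContinuousLinearMap.fst ℝ P2 ℝ)).hasFDerivAt
  have a2 : HasFDerivAt (fun q : P2 × ℝ => q.1.2)
      ((ContinuousLinearMap.snd ℝ ℝ ℝ).comp (ContinuousLinearMap.fst ℝ P2 ℝ)) q :=
    ((ContinuousLinearMap.snd ℝ ℝ ℝ).comp (ContinuousLinearMap.fst ℝ P2 ℝ)).hasFDerivAt
  have a3 : HasFDerivAt (fun q : P2 × ℝ => q.2) (ContinuousLinearMap.snd ℝ P2 ℝ) q :=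
    (ContinuousLinearMap.snd ℝ P2 ℝ).hasFDerivAt
  have h1 := (((a1.pow 2).const_sub 1).sub (a2.pow 2)).sqrt hp.ne'
  have h2 := (((a1.smul_const (ee 0)).add (a2.smul_const (ee 1))).add
    ((h1.mul a3.cos).smul_const (ee 2))).add ((h1.mul a3.sin).smul_const (ee 3))
  have h3 : fderiv ℝ Xi q = _ := h2.fderiv
  have hs : √(1 - q.1.1 ^ 2 - q.1.2 ^ 2) ≠ 0 := (Real.sqrt_pos.2 hp).ne'
  have hs2 : 1 - (q.1.1 ^ 2 + q.1.2 ^ 2) = √(1 - q.1.1 ^ 2 - q.1.2 ^ 2) ^ 2 := by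
    rw [Real.sq_sqrt hp.le]; ring
  rw [h3]
  ext i
  fin_cases i
  · simp [tg, ee]
  · simp [tg, ee]
  · simp [tg, ee, Xi0, Xi1, Xi2, Xi3, aa_Xi]
    rw [hs2]; field_simp; ring
  · simp [tg, ee, Xi0, Xi1, Xi2, Xi3, aa_Xi]
    rw [hs2]; field_simp; ring

theorem tg_zero (x : E4) (hx : ‖x‖ = 1) (ha : aa x < 1) (v : P2) (τ : ℝ) (h : tg x v τ = 0) :
    v = 0 ∧ τ = 0 := by
  have h0 : v.1 = 0 := by simpa [tg] using congrArg (fun y : E4 => y 0) h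
  have h1 : v.2 = 0 := by simpa [tg] using congrArg (fun y : E4 => y 1) h
  have h2 : x 3 * τ = 0 := by simpa [tg, h0, h1] using congrArg (fun y : E4 => y 2) h
  have h3 : x 2 * τ = 0 := by simpa [tg, h0, h1] using congrArg (fun y : E4 => y 3) h
  refine ⟨Prod.ext h0 h1, ?_⟩
  rw [unit_iff] at hx
  unfold aa at ha
  have h4 : (x 2 ^ 2 + x 3 ^ 2) * τ = 0 := by linear_combination x 2 * h3 + x 3 * h2
  exact (mul_eq_zero.1 h4).resolve_left (by nlinarith)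

theorem inj_Xi (q : P2 × ℝ) (hq : q.1.1 ^ 2 + q.1.2 ^ 2 < 1) :
    Function.Injective (fderiv ℝ Xi q) := by
  refine (injective_iff_map_eq_zero _).2 fun v hv => ?_
  rw [fderiv_Xi q hq] at hv
  obtain ⟨h1, h2⟩ := tg_zero _ (norm_Xi q hq) (by rw [aa_Xi]; exact hq) _ _ hv
  exact Prod.ext h1 h2

theorem inner_tg (x n : E4) (h : ⟪n, x⟫_ℝ = 0) (v : P2) (τ : ℝ) :
    ⟪n, tg x v τ⟫_ℝ = (n 0 + x 0 * vv x n / (1 - aa x)) * v.1
      + (n 1 + x 1 * vv x n / (1 - aa x)) * v.2 + τ * u34 x n := by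
  rw [inner4] at h ⊢
  simp only [tg, vv, u34]
  simp
  linear_combination (-(x 0 * v.1 + x 1 * v.2) / (1 - aa x)) * h

/-- a vector orthogonal to `x` with vanishing slope data is zero -/
theorem eq_zero (x m : E4) (hx : ‖x‖ = 1) (ha : aa x < 1) (h : ⟪m, x⟫_ℝ = 0) (hu : u34 x m = 0)
    (h0 : m 0 + x 0 * vv x m / (1 - aa x) = 0) (h1 : m 1 + x 1 * vv x m / (1 - aa x) = 0) :
    m = 0 := by
  have hp : 1 - aa x ≠ 0 := by linarith
  rw [unit_iff] at hx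
  rw [inner4] at h
  have hv : vv x m = 0 := by
    field_simp at h0 h1
    unfold vv aa at *
    linear_combination x 0 * h0 + x 1 * h1
  rw [hv] at h0 h1
  simp only [mul_zero, zero_div, add_zero] at h0 h1
  unfold aa at ha
  unfold u34 at hu
  rw [h0, h1] at h
  have hq : x 2 ^ 2 + x 3 ^ 2 ≠ 0 := by nlinarith
  have h2 : (x 2 ^ 2 + x 3 ^ 2) * m 2 = 0 := by linear_combination x 2 * h - x 3 * hu
  have h3 : (x 2 ^ 2 + x 3 ^ 2) * m 3 = 0 := by linear_combination x 3 * h + x 2 * hu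
  ext i
  fin_cases i
  · exact h0
  · exact h1
  · exact (mul_eq_zero.1 h2).resolve_left hq
  · exact (mul_eq_zero.1 h3).resolve_left hq

/-- the slope of a normal -/
theorem sl_of_normal (x n : E4) (l : P2) (hx : ‖x‖ = 1) (ha : aa x < 1) (hn : ‖n‖ = 1)
    (h : ⟪n, x⟫_ℝ = 0) (h0 : ⟪n, tg x (1, 0) l.1⟫_ℝ = 0) (h1 : ⟪n, tg x (0, 1) l.2⟫_ℝ = 0) :
    u34 x n ≠ 0 ∧ sl x n = l := by
  rw [inner_tg x n h] at h0 h1
  simp only [mul_one, mul_zero, add_zero, zero_add] at h0 h1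
  have hu : u34 x n ≠ 0 := fun hu => by
    rw [hu] at h0 h1
    have := eq_zero x n hx ha h hu (by linarith) (by linarith)
    simp [this] at hn
  refine ⟨hu, Prod.ext ?_ ?_⟩
  · simp only [sl]; rw [div_eq_iff hu]; linarith
  · simp only [sl]; rw [div_eq_iff hu]; linarith

/-- the slope determines the normal up to sign -/
theorem sl_inj (x n n' : E4) (hx : ‖x‖ = 1) (ha : aa x < 1) (hn : ‖n‖ = 1) (hn' : ‖n'‖ = 1)
    (h : ⟪n, x⟫_ℝ = 0) (h' : ⟪n', x⟫_ℝ = 0) (hu : u34 x n ≠ 0) (hu' : u34 x n' ≠ 0)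
    (he : sl x n = sl x n') : n = n' ∨ n = -n' := by
  have e0 := congrArg Prod.fst he
  have e1 := congrArg Prod.snd he
  simp only [sl] at e0 e1
  rw [div_eq_div_iff hu hu'] at e0 e1
  have hm : u34 x n' • n - u34 x n • n' = 0 := by
    refine eq_zero x _ hx ha ?_ ?_ ?_ ?_
    · rw [inner_sub_left, real_inner_smul_left, real_inner_smul_left, h, h']; ring
    · simp [u34]; ring
    · simp only [vv, PiLp.sub_apply, PiLp.smul_apply, smul_eq_mul] at e0 ⊢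
      linear_combination -e0
    · simp only [vv, PiLp.sub_apply, PiLp.smul_apply, smul_eq_mul] at e1 ⊢
      linear_combination -e1
  have hm' : u34 x n' • n = u34 x n • n' := sub_eq_zero.1 hm
  have hab : |u34 x n'| = |u34 x n| := by
    have := congrArg norm hm'
    simpa [norm_smul, hn, hn'] using this
  rcases abs_eq_abs.1 hab with e | e
  · left
    rw [e] at hm'
    exact smul_right_injective _ hu hm'
  · right
    rw [e, neg_smul, neg_eq_iff_eq_neg, ← smul_neg] at hm'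
    exact smul_right_injective _ hu hm'

theorem rot0 (φ : ℝ) (x : E4) : rot 0 φ x 0 = x 0 ∧ rot 0 φ x 1 = x 1 ∧
    rot 0 φ x 2 = x 2 * Real.cos φ - x 3 * Real.sin φ ∧
    rot 0 φ x 3 = x 2 * Real.sin φ + x 3 * Real.cos φ := by
  refine ⟨by simp [rot, mkO_apply], by simp [rot, mkO_apply], ?_, ?_⟩
  · simp [rot, mkO_apply]; ring
  · simp [rot, mkO_apply]

theorem u34_rot (φ : ℝ) (x n : E4) : u34 (rot 0 φ x) (rot 0 φ n) = u34 x n := by
  obtain ⟨-, -, a2, a3⟩ := rot0 φ x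
  obtain ⟨-, -, b2, b3⟩ := rot0 φ n
  simp only [u34, a2, a3, b2, b3]
  linear_combination (x 2 * n 3 - x 3 * n 2) * Real.sin_sq_add_cos_sq φ

theorem sl_rot (φ : ℝ) (x n : E4) : sl (rot 0 φ x) (rot 0 φ n) = sl x n := by
  obtain ⟨a0, a1, -, -⟩ := rot0 φ x
  obtain ⟨b0, b1, -, -⟩ := rot0 φ n
  simp only [sl, u34_rot, vv, aa, a0, a1, b0, b1]

theorem polar (a b : ℝ) : ∃ φ, a = √(a ^ 2 + b ^ 2) * Real.cos φ ∧
    b = √(a ^ 2 + b ^ 2) * Real.sin φ := by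
  have hn : ‖(⟨a, b⟩ : ℂ)‖ = √(a ^ 2 + b ^ 2) := by
    rw [Complex.norm_def, Complex.normSq_mk]; congr 1; ring
  refine ⟨Complex.arg ⟨a, b⟩, ?_, ?_⟩
  · rw [← hn, Complex.norm_mul_cos_arg]
  · rw [← hn, Complex.norm_mul_sin_arg]

theorem surj_Xi (x : E4) (hx : ‖x‖ = 1) : ∃ φ, Xi (zz x, φ) = x := by
  obtain ⟨φ, h2, h3⟩ := polar (x 2) (x 3)
  rw [unit_iff] at hx
  have e : 1 - x 0 ^ 2 - x 1 ^ 2 = x 2 ^ 2 + x 3 ^ 2 := by linarith
  refine ⟨φ, ?_⟩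
  ext i
  fin_cases i
  · exact Xi0 _
  · exact Xi1 _
  · refine (Xi2 _).trans ?_
    simp only [zz, e]; exact h2.symm
  · refine (Xi3 _).trans ?_
    simp only [zz, e]; exact h3.symm

theorem exists_rot (x y : E4) (hx : ‖x‖ = 1) (hy : ‖y‖ = 1) (h : zz x = zz y) :
    ∃ φ, y = rot 0 φ x := by
  obtain ⟨a, ha⟩ := surj_Xi x hx
  obtain ⟨b, hb⟩ := surj_Xi y hy
  refine ⟨b - a, ?_⟩
  rw [← hb, ← ha, ← h]
  obtain ⟨r0, r1, r2, r3⟩ := rot0 (b - a) (Xi (zz x, a))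
  ext i
  fin_cases i
  · exact (Xi0 _).trans (r0.trans (Xi0 _)).symm
  · exact (Xi1 _).trans (r1.trans (Xi1 _)).symm
  · refine (Xi2 _).trans (r2.trans ?_).symm
    rw [Xi2, Xi3, Real.cos_sub, Real.sin_sub]
    linear_combination (√(1 - (zz x).1 ^ 2 - (zz x).2 ^ 2) * Real.cos b) *
      Real.sin_sq_add_cos_sq a
  · refine (Xi3 _).trans (r3.trans ?_).symm
    rw [Xi2, Xi3, Real.cos_sub, Real.sin_sub]
    linear_combination (√(1 - (zz x).1 ^ 2 - (zz x).2 ^ 2) * Real.sin b) *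
      Real.sin_sq_add_cos_sq a

/-- two contact elements with the same base coordinate and slope differ by a rotation -/
theorem match_rot (x n y m : E4) (hx : ‖x‖ = 1) (hy : ‖y‖ = 1) (ha : aa y < 1) (hn : ‖n‖ = 1)
    (hm : ‖m‖ = 1) (h : ⟪n, x⟫_ℝ = 0) (h' : ⟪m, y⟫_ℝ = 0) (hu : u34 x n ≠ 0) (hu' : u34 y m ≠ 0)
    (hz : zz x = zz y) (he : sl y m = sl x n) :
    ∃ φ, y = rot 0 φ x ∧ (m = rot 0 φ n ∨ m = -rot 0 φ n) := by
  obtain ⟨φ, rfl⟩ := exists_rot x y hx hy hz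
  refine ⟨φ, rfl, sl_inj _ _ _ hy ha hm (by rw [LinearIsometryEquiv.norm_map, hn]) h'
    (by rw [LinearIsometryEquiv.inner_map_map, h]) hu' (by rw [u34_rot]; exact hu)
    (by rw [sl_rot, he])⟩

theorem Cx_zero (T : ℂ →L[ℝ] P2) (hT : Function.Injective T) (l : P2) (h : Cx T l = 0) :
    l = 0 := by
  have hs : Function.Surjective T :=
    (LinearMap.injective_iff_surjective_of_finrank_eq_finrank (f := T.toLinearMap)
      (by simp)).1 hT
  have h1 : dot l (T 1) = 0 := by simpa [Cx] using congrArg Complex.re h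
  have h2 : dot l (T Complex.I) = 0 := by simpa [Cx] using congrArg Complex.im h
  obtain ⟨v, hv⟩ := hs l
  have e : T v = v.re • T 1 + v.im • T Complex.I := by
    rw [← map_smul, ← map_smul, ← map_add]
    congr 1
    simp
  have h3 : dot l l = 0 := by
    nth_rewrite 2 [← hv]
    rw [e]
    simp only [dot, Prod.fst_add, Prod.snd_add, Prod.smul_fst, Prod.smul_snd, smul_eq_mul]
      at h1 h2 ⊢
    linear_combination v.re * h1 + v.im * h2
  unfold dot at h3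
  exact Prod.ext (by simp only [Prod.fst_zero]; nlinarith) (by simp only [Prod.snd_zero]; nlinarith)

theorem cont_Cx (T : ℂ →L[ℝ] P2) : Continuous (Cx T) := by
  have : Cx T = fun l => ((dot l (T 1) : ℝ) : ℂ) - (dot l (T Complex.I) : ℝ) * Complex.I := by
    funext l
    apply Complex.ext <;> simp [Cx]
  rw [this]
  unfold dot
  fun_prop

theorem exists_T (x : E4) (l : P2) (hx : ‖x‖ = 1) (ha : aa x < 1) :
    ∃ T : ℂ →L[ℝ] P2, ∀ v, ‖tg x (T v) (dot l (T v))‖ = ‖v‖ := by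
  let A : P2 →ₗ[ℝ] E4 := (LinearMap.fst ℝ ℝ ℝ).smulRight (tg x (1, 0) l.1)
    + (LinearMap.snd ℝ ℝ ℝ).smulRight (tg x (0, 1) l.2)
  have hA : ∀ v, A v = tg x v (dot l v) := fun v => by
    ext i
    fin_cases i <;> simp [A, tg, dot] <;> ring
  have hi : Function.Injective A := (injective_iff_map_eq_zero _).2 fun v hv =>
    (tg_zero x hx ha _ _ (hA v ▸ hv)).1
  have hr : Module.finrank ℝ (LinearMap.range A) = 2 := by
    rw [LinearMap.finrank_range_of_inj hi]; simp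
  let e := Complex.isometryOfOrthonormal
    ((stdOrthonormalBasis ℝ (LinearMap.range A)).reindex (finCongr hr))
  refine ⟨LinearMap.toContinuousLinearMap
    ((LinearEquiv.ofInjective A hi).symm.toLinearMap ∘ₗ e.toLinearEquiv.toLinearMap), fun v => ?_⟩
  rw [← hA]
  have : A ((LinearEquiv.ofInjective A hi).symm (e v)) = (e v : E4) :=
    LinearEquiv.ofInjective_symm_apply A (h := hi) (e v)
  simp only [LinearMap.coe_toContinuousLinearMap', LinearMap.coe_comp, Function.comp_apply,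
    LinearEquiv.coe_coe, LinearIsometryEquiv.coe_toLinearEquiv]
  rw [this, ← Submodule.coe_norm, e.norm_map]

/-! ### Winding -/

theorem circle (Φ : ℝ × ℂ → ℂ) (P : ℝ × ℂ → Prop) (t₀ C : ℝ) (c : ℂ) (k : ℕ) (hc : c ≠ 0)
    (h1 : ∀ᶠ q in 𝓝 (t₀, (0 : ℂ)), ContinuousAt Φ q) (h2 : ∀ᶠ q in 𝓝 (t₀, (0 : ℂ)), P q)
    (h3 : ∀ᶠ z in 𝓝 (0 : ℂ), ‖Φ (t₀, z) - c * z ^ k‖ ≤ C * ‖z‖ ^ (k + 1)) :
    ∃ r > 0, ∀ᶠ t in 𝓝 t₀, ContinuousOn (fun z => Φ (t, z)) (closedBall 0 r) ∧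
      (∀ z ∈ closedBall (0 : ℂ) r, P (t, z)) ∧
      ∀ z ∈ sphere (0 : ℂ) r, ‖Φ (t, z) - c * z ^ k‖ < ‖c‖ * r ^ k := by
  have hc' : 0 < ‖c‖ := norm_pos_iff.2 hc
  have h4 : ∀ᶠ z in 𝓝 (0 : ℂ), C * ‖z‖ < ‖c‖ := by
    have : ContinuousAt (fun z : ℂ => C * ‖z‖) 0 := by fun_prop
    exact this.eventually_lt continuousAt_const (by simpa using hc')
  have h5 : ∀ᶠ z in 𝓝 (0 : ℂ), ∀ᶠ q in 𝓝 (t₀, z), ContinuousAt Φ q ∧ P q :=
    (show ContinuousAt (fun z : ℂ => (t₀, z)) 0 by fun_prop).eventually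
      (h1.and h2).eventually_nhds
  obtain ⟨r, hr, hb⟩ := Metric.nhds_basis_closedBall.eventually_iff.1 (h3.and (h4.and h5))
  refine ⟨r, hr, ?_⟩
  have e1 := (isCompact_closedBall (0 : ℂ) r).eventually_forall_of_forall_eventually
    (x₀ := t₀) (P := fun t z => ContinuousAt Φ (t, z) ∧ P (t, z)) fun z hz => (hb hz).2.2
  have e2 := (isCompact_sphere (0 : ℂ) r).eventually_forall_of_forall_eventually
    (x₀ := t₀) (P := fun t z => ‖Φ (t, z) - c * z ^ k‖ < ‖c‖ * r ^ k) fun z hz => by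
      obtain ⟨a1, a2, a3⟩ := hb (sphere_subset_closedBall hz)
      have hz' : ‖z‖ = r := by simpa using hz
      have a4 : ContinuousAt Φ (t₀, z) := a3.self_of_nhds.1
      have a5 : ContinuousAt (fun q : ℝ × ℂ => ‖Φ q - c * q.2 ^ k‖) (t₀, z) := by fun_prop
      refine a5.eventually_lt continuousAt_const (a1.trans_lt ?_)
      rw [hz'] at a2 ⊢
      rw [pow_succ', ← mul_assoc]
      exact mul_lt_mul_of_pos_right a2 (pow_pos hr k)
  filter_upwards [e1, e2] with t a b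
  refine ⟨fun z hz => ?_, fun z hz => (a z hz).2, b⟩
  exact (ContinuousAt.comp (g := Φ) (f := fun z => (t, z)) (a z hz).1
    (by fun_prop)).continuousWithinAt

theorem wind1 (hW : WindS) (Φ : ℝ × ℂ → ℂ) (P : ℝ × ℂ → Prop) (t₀ C : ℝ) (c : ℂ) (k : ℕ)
    (hc : c ≠ 0) (hk : 1 ≤ k)
    (h1 : ∀ᶠ q in 𝓝 (t₀, (0 : ℂ)), ContinuousAt Φ q) (h2 : ∀ᶠ q in 𝓝 (t₀, (0 : ℂ)), P q)
    (h3 : ∀ᶠ z in 𝓝 (0 : ℂ), ‖Φ (t₀, z) - c * z ^ k‖ ≤ C * ‖z‖ ^ (k + 1)) :
    ∀ᶠ t in 𝓝 t₀, ∃ z, P (t, z) ∧ Φ (t, z) = 0 := by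
  obtain ⟨r, hr, h⟩ := circle Φ P t₀ C c k hc h1 h2 h3
  filter_upwards [h] with t ⟨a, b, d⟩
  obtain ⟨z, hz, h0⟩ := hW.1 _ r c k hr hk a d
  exact ⟨z, b z (ball_subset_closedBall hz), h0⟩

theorem wind2 (hW : WindS) (Φ : ℝ × ℂ → ℂ) (P : ℝ × ℂ → Prop) (t₀ C : ℝ) (c : ℂ) (k : ℕ)
    (hc : c ≠ 0)
    (h1 : ∀ᶠ q in 𝓝 (t₀, (0 : ℂ)), ContinuousAt Φ q) (h2 : ∀ᶠ q in 𝓝 (t₀, (0 : ℂ)), P q)
    (h3 : ∀ᶠ z in 𝓝 (0 : ℂ), ‖Φ (t₀, z) - c * z ^ k‖ ≤ C * ‖z‖ ^ (k + 1))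
    (h4 : (fun z => Φ (t₀, z)) =o[𝓝 0] fun z : ℂ => z) :
    ∀ᶠ t in 𝓝 t₀, ∀ c' : ℂ, c' ≠ 0 → (fun z => Φ (t, z) - c' * z) =o[𝓝 0] (fun z : ℂ => z) →
      ∃ z, z ≠ 0 ∧ P (t, z) ∧ Φ (t, z) = 0 := by
  have hk : 1 ≠ k := by
    rintro rfl
    have hc' : 0 < ‖c‖ := norm_pos_iff.2 hc
    have h5 : ∀ᶠ z in 𝓝 (0 : ℂ), C * ‖z‖ < ‖c‖ / 2 := by
      have : ContinuousAt (fun z : ℂ => C * ‖z‖) 0 := by fun_prop
      exact this.eventually_lt continuousAt_const (by simpa using hc')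
    have h6 := h4.bound (c := ‖c‖ / 2) (by positivity)
    obtain ⟨z, ⟨a1, a2, a3⟩, hz⟩ :=
      (((h3.and (h5.and h6)).filter_mono nhdsWithin_le_nhds).and
        (self_mem_nhdsWithin (a := (0 : ℂ)) (s := {0}ᶜ))).exists
    have hz' : 0 < ‖z‖ := norm_pos_iff.2 hz
    have a4 : ‖c * z ^ 1‖ ≤ ‖Φ (t₀, z)‖ + ‖Φ (t₀, z) - c * z ^ 1‖ := by
      have := norm_sub_le (Φ (t₀, z)) (Φ (t₀, z) - c * z ^ 1)
      rwa [sub_sub_cancel] at this
    rw [norm_mul, pow_one] at a4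
    have a5 : C * ‖z‖ * ‖z‖ < ‖c‖ / 2 * ‖z‖ := mul_lt_mul_of_pos_right a2 hz'
    rw [pow_one, pow_succ, pow_one, ← mul_assoc] at a1
    linarith
  obtain ⟨r, hr, h⟩ := circle Φ P t₀ C c k hc h1 h2 h3
  filter_upwards [h] with t ⟨a, b, d⟩ c' hc' ho
  have hc'' : 0 < ‖c'‖ := norm_pos_iff.2 hc'
  obtain ⟨ρ, hρ, hb⟩ := Metric.nhds_basis_closedBall.eventually_iff.1
    (ho.bound (c := ‖c'‖ / 2) (by positivity))
  have hm : 0 < min ρ (r / 2) := lt_min hρ (by positivity)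
  obtain ⟨z, hz, h0⟩ := hW.2 (fun z => Φ (t, z)) (min ρ (r / 2)) r c' c 1 k hm
    ((min_le_right _ _).trans_lt (by linarith)) hk (a.mono sdiff_subset) (fun z hz => by
      have hz' : ‖z‖ = min ρ (r / 2) := by simpa using hz
      have := hb (x := z) (by rw [mem_closedBall_zero_iff, hz']; exact min_le_left _ _)
      rw [pow_one, pow_one, ← hz']
      rw [← hz'] at hm
      nlinarith [mul_pos hc'' hm]) d
  refine ⟨z, ?_, b z hz.1, h0⟩
  rintro rfl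
  exact hz.2 (mem_ball_self hm)

theorem smul_deriv {E : Type} [NormedAddCommGroup E] [NormedSpace ℝ E] {a : E → ℝ} {v : E → P2}
    {L : E →L[ℝ] P2} (ha : ContinuousAt a 0) (hv : HasFDerivAt v L 0) (hv0 : v 0 = 0) :
    HasFDerivAt (fun y => a y • v y) (a 0 • L) 0 := by
  have h1 : (fun y => a y - a 0) =o[𝓝 0] fun _ => (1 : ℝ) := by
    rw [isLittleO_one_iff]
    simpa using ha.tendsto.sub_const (a 0)
  have h2 : v =O[𝓝 0] fun y : E => y := by simpa [hv0] using hv.isBigO_sub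
  have h3 : (fun y => (a y - a 0) • v y) =o[𝓝 0] fun y : E => y := by
    simpa using h1.smul_isBigO h2
  have h4 := (hv.const_smul (a 0)).isLittleO
  rw [hasFDerivAt_iff_isLittleO]
  refine ((h3.congr_right fun y => (sub_zero y).symm).add h4).congr_left fun y => ?_
  simp only [Pi.smul_apply, hv0, sub_smul, smul_zero]
  abel

end Pool.Agent.Lib.MP_16d934_gt.BPc
end
end

-- part Pool.Agent.Lib.MP_16d934_gt.BPcb
section

/-! Persistence of tangency: the core statement in the cylindrical chart. -/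

set_option autoImplicit false

open Set Metric Filter Topology Asymptotics
open scoped ContDiff InnerProductSpace NNReal Real

noncomputable section

namespace Pool.Agent.Lib.MP_16d934_gt.BPc

theorem fderiv_dot (f : P2 → ℝ) (y v : P2) : fderiv ℝ f y v = dot (grad f y) v := by
  have e : v = v.1 • ((1, 0) : P2) + v.2 • ((0, 1) : P2) := by ext <;> simp
  nth_rewrite 1 [e]
  rw [map_add, map_smul, map_smul]
  simp only [dot, grad, d1, d2, smul_eq_mul]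
  ring

theorem ana_grad {f : P2 → ℝ} {y : P2} (hf : AnalyticAt ℝ f y) : AnalyticAt ℝ (grad f) y :=
  (((ContinuousLinearMap.apply ℝ ℝ ((1, 0) : P2)).analyticAt _).comp hf.fderiv).prod
    (((ContinuousLinearMap.apply ℝ ℝ ((0, 1) : P2)).analyticAt _).comp hf.fderiv)

theorem fderiv_graph (f : P2 → ℝ) (y : P2) (hf : DifferentiableAt ℝ f y)
    (hy : y.1 ^ 2 + y.2 ^ 2 < 1) (v : P2) :
    fderiv ℝ (fun x => Xi (x, f x)) y v = tg (Xi (y, f y)) v (dot (grad f y) v) := by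
  have h1 : HasFDerivAt (fun x => (x, f x)) _ y := (hasFDerivAt_id y).prodMk hf.hasFDerivAt
  have h2 := (ana_Xi (y, f y) hy).differentiableAt.hasFDerivAt.comp y h1
  have h3 : fderiv ℝ (fun x => Xi (x, f x)) y = _ := h2.fderiv
  rw [h3, ContinuousLinearMap.comp_apply, fderiv_Xi _ hy, ← fderiv_dot]
  rfl

theorem ev_lt (y : P2) (hy : y.1 ^ 2 + y.2 ^ 2 < 1) : ∀ᶠ x in 𝓝 y, x.1 ^ 2 + x.2 ^ 2 < 1 :=
  ContinuousAt.eventually_lt (f := fun x : P2 => x.1 ^ 2 + x.2 ^ 2) (by fun_prop)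
    continuousAt_const hy

theorem ev_unit (q : P2 × ℝ) (hq : q.1.1 ^ 2 + q.1.2 ^ 2 < 1) : ∀ᶠ s in 𝓝 q, ‖Xi s‖ = 1 :=
  (continuousAt_fst.eventually (ev_lt q.1 hq)).mono fun s hs => norm_Xi s hs

theorem graph (hP : ParamS) {S : Set E4} {p n : E4} {φ : ℝ} (hS : IsMin S) (hp : p ∈ S)
    (hn : IsNor S p n) (ha : aa p < 1) (hu : u34 p n ≠ 0) (hφ : Xi (zz p, φ) = p) :
    ∃ f : P2 → ℝ, AnalyticAt ℝ f (zz p) ∧ f (zz p) = φ ∧
      map (fun x => Xi (x, f x)) (𝓝 (zz p)) = 𝓝[S] p ∧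
      ∀ᶠ y in 𝓝 (zz p), Xi (y, f y) ∈ S ∧ MinEq (fun x => Xi (x, f x)) y ∧
        ∀ m, IsNor S (Xi (y, f y)) m →
          u34 (Xi (y, f y)) m ≠ 0 ∧ sl (Xi (y, f y)) m = grad f y := by
  have hq : (zz p).1 ^ 2 + (zz p).2 ^ 2 < 1 := ha
  obtain ⟨f, h1, h2, h3⟩ := hP.any S hS Xi (zz p, φ) n (ana_Xi _ hq) (inj_Xi _ hq) (ev_unit _ hq)
    (by rwa [hφ]) (by rwa [hφ]) (by
      rw [fderiv_Xi _ hq, hφ, inner_tg p n hn.2.1]
      simpa using hu)
  simp only at h1 h2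
  have h4 : ∀ᶠ y in 𝓝 (zz p), Xi (y, f y) ∈ S := by
    have : Tendsto (fun y => (y, f y)) (𝓝 (zz p)) (𝓝 (zz p, φ)) := by
      rw [← h2]
      exact continuousAt_id.prodMk h1.continuousAt
    exact (this.eventually h3).mono fun y hy => hy.2 rfl
  have h5 : ∀ᶠ y in 𝓝 (zz p), (∀ᶠ s in 𝓝 y, MinEq (fun x => Xi (x, f x)) s) ∧
      map (fun x => Xi (x, f x)) (𝓝 y) = 𝓝[S] (Xi (y, f y)) ∧ ∀ m, IsNor S (Xi (y, f y)) m →
        u34 (Xi (y, f y)) m ≠ 0 ∧ sl (Xi (y, f y)) m = grad f y := by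
    filter_upwards [h4.eventually_nhds, h1.eventually_analyticAt, ev_lt _ hq] with y a b c
    have hun := norm_Xi (y, f y) c
    have haa : aa (Xi (y, f y)) < 1 := by rw [aa_Xi]; exact c
    obtain ⟨i1, i2, i3⟩ := hP.inS S hS (fun x => Xi (x, f x)) y
      (((ana_Xi (y, f y) c).comp (f := fun x => (x, f x)) (analyticAt_id.prod b)).contDiffAt)
      ((injective_iff_map_eq_zero _).2 fun v hv => by
        rw [fderiv_graph f y b.differentiableAt c] at hv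
        exact (tg_zero _ hun haa _ _ hv).1) a
    refine ⟨i1, i2, fun m hm => ?_⟩
    obtain ⟨j1, j2, j3, j4⟩ := (i3 m).1 hm
    rw [d1, fderiv_graph f y b.differentiableAt c] at j3
    rw [d2, fderiv_graph f y b.differentiableAt c] at j4
    exact sl_of_normal _ m _ hun haa j1 j2 (by simpa [dot] using j3) (by simpa [dot] using j4)
  refine ⟨f, h1, h2, ?_, ?_⟩
  · have := h5.self_of_nhds.2.1
    rwa [h2, hφ] at this
  · filter_upwards [h4, h5] with y a b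
    exact ⟨a, b.1.self_of_nhds, b.2.2⟩

theorem contAt_sl {α : Type} [TopologicalSpace α] {A B : α → E4} {q : α} (hA : ContinuousAt A q)
    (hB : ContinuousAt B q) (ha : aa (A q) < 1) (hu : u34 (A q) (B q) ≠ 0) :
    ContinuousAt (fun q => sl (A q) (B q)) q := by
  have a0 : ContinuousAt (fun q => A q 0) q := by fun_prop
  have a1 : ContinuousAt (fun q => A q 1) q := by fun_prop
  have b0 : ContinuousAt (fun q => B q 0) q := by fun_prop
  have b1 : ContinuousAt (fun q => B q 1) q := by fun_prop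
  have h1 : ContinuousAt (fun q => 1 - aa (A q)) q := by unfold aa; fun_prop
  have h2 : ContinuousAt (fun q => u34 (A q) (B q)) q := by unfold u34; fun_prop
  have h3 : ContinuousAt (fun q => vv (A q) (B q)) q := by unfold vv; fun_prop
  have h4 : 1 - aa (A q) ≠ 0 := by linarith
  exact ((b0.add ((a0.mul h3).div h1 h4)).neg.div h2 hu).prodMk
    ((b1.add ((a1.mul h3).div h1 h4)).neg.div h2 hu)

theorem cont_inv {U : Set P2} {Y : P2 → E4} (h : Patch (Y '' U) U Y) :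
    ContinuousOn (Function.invFunOn Y U) (Y '' U) := by
  rw [_root_.continuousOn_iff']
  intro t ht
  obtain ⟨V, hV, e⟩ := h.rel (t ∩ U) inter_subset_right (ht.inter h.isOpen)
  refine ⟨V, hV, ?_⟩
  rw [inter_comm V, ← e]
  ext x
  constructor
  · rintro ⟨a, s, hs, rfl⟩
    rw [mem_preimage, h.inj.leftInvOn_invFunOn hs] at a
    exact ⟨s, ⟨a, hs⟩, rfl⟩
  · rintro ⟨s, ⟨a, hs⟩, rfl⟩
    refine ⟨?_, s, hs, rfl⟩
    rwa [mem_preimage, h.inj.leftInvOn_invFunOn hs]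

/-- the defect of tangency modulo rotations -/
def Ph (T : ℂ →L[ℝ] P2) (X N : ℝ × P2 → E4) (h : P2 → P2) (ψ : ℂ → P2) (q : ℝ × ℂ) : ℂ :=
  Cx T (sl (X (q.1, ψ q.2)) (N (q.1, ψ q.2)) - h (zz (X (q.1, ψ q.2))))

theorem core (hC : ChartS) (hP : ParamS) (hL : LeadS) {S : Set E4} {p n : E4} {t₀ δ : ℝ}
    {X N : ℝ × P2 → E4} (hS : IsMin S) (hp : p ∈ S) (hn : IsNor S p n) (ha : aa p < 1)
    (hu : u34 p n ≠ 0) (hF : Fam t₀ δ X N p n) (T : ℂ →L[ℝ] P2)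
    (hT : ∀ v, ‖tg p (T v) (dot (sl p n) (T v))‖ = ‖v‖) :
    (∀ᶠ s in 𝓝 (0 : P2), X (t₀, s) ∈ S) ∨ ∃ (h : P2 → P2) (ψ : ℂ → P2) (k : ℕ) (c : ℂ) (C : ℝ),
      c ≠ 0 ∧ 1 ≤ k ∧ AnalyticAt ℝ h (zz p) ∧ ψ 0 = 0 ∧
      (∀ᶠ z in 𝓝 (0 : ℂ), ContinuousAt ψ z ∧ zz (X (t₀, ψ z)) = zz p + T z) ∧
      (∀ᶠ x in 𝓝[S] p, ∀ m, IsNor S x m → sl x m = h (zz x)) ∧
      (∀ᶠ q in 𝓝 (t₀, (0 : ℂ)), ContinuousAt (Ph T X N h ψ) q) ∧
      (∀ᶠ z in 𝓝 (0 : ℂ), ‖Ph T X N h ψ (t₀, z) - c * z ^ k‖ ≤ C * ‖z‖ ^ (k + 1)) ∧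
      ∀ V ∈ 𝓝 p, ∀ᶠ q in 𝓝 (t₀, (0 : ℂ)), Ph T X N h ψ q = 0 → ∃ x ∈ S ∩ V, ∃ φ,
        X (q.1, ψ q.2) = rot 0 φ x ∧ (N (q.1, ψ q.2) = rot 0 φ (nor S x) ∨
          N (q.1, ψ q.2) = -rot 0 φ (nor S x)) := by
  have hp1 := hC.unit S hS p hp
  have hq : (zz p).1 ^ 2 + (zz p).2 ^ 2 < 1 := ha
  obtain ⟨φ₀, hφ⟩ := surj_Xi p hp1
  have hTi : Function.Injective T := (injective_iff_map_eq_zero _).2 fun v hv => by
    have := hT v
    rw [hv] at this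
    have e : tg p 0 (dot (sl p n) 0) = 0 := by
      ext i
      fin_cases i <;> simp [tg, dot]
    rw [e, norm_zero] at this
    exact norm_eq_zero.1 this.symm
  set Y : P2 → E4 := fun s => X (t₀, s) with hY
  have hball : ∀ᶠ s in 𝓝 (0 : P2), (t₀, s) ∈ ball ((t₀, 0) : ℝ × P2) δ :=
    (show ContinuousAt (fun s : P2 => (t₀, s)) 0 by fun_prop).eventually
      (ball_mem_nhds _ hF.pos)
  obtain ⟨U, hUW, hU0, hU⟩ := hP.toS Y 0 hF.ana hF.imm
    ((hball.and hF.minimal).mono fun s hs => ⟨(hF.unit _ hs.1).1, hs.2.1⟩) _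
    (hball.and (hF.minimal.and hF.ana.eventually_analyticAt))
  have hS' : IsMin (Y '' U) := fun x hx => ⟨U, Y, hU, hx⟩
  have hnor : ∀ s ∈ U, IsNor (Y '' U) (Y s) (N (t₀, s)) := fun s hs => by
    obtain ⟨a, b, c⟩ := hUW hs
    exact ((hP.inS _ hS' Y s c.contDiffAt (hU.imm s hs)
      (mem_of_superset (hU.isOpen.mem_nhds hs) fun x hx => mem_image_of_mem Y hx)).2.2 _).2
      ⟨(hF.unit _ a).2.1, (hF.unit _ a).2.2, b.2.1, b.2.2⟩
  have hY0 : Y 0 = p := hF.X0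
  have hp' : p ∈ Y '' U := ⟨0, hU0, hY0⟩
  have hn' : IsNor (Y '' U) p n := by
    have := hnor 0 hU0
    rwa [hY0, hF.N0] at this
  obtain ⟨f, f1, f2, f3, f4⟩ := graph hP hS hp hn ha hu hφ
  obtain ⟨g, g1, g2, g3, g4⟩ := graph hP hS' hp' hn' ha hu hφ
  have f5 : grad f (zz p) = sl p n := by
    have := f4.self_of_nhds.2.2 n (by rwa [f2, hφ])
    rw [f2, hφ] at this
    exact this.2.symm
  have g5 : grad g (zz p) = sl p n := by
    have := g4.self_of_nhds.2.2 n (by rwa [g2, hφ])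
    rw [g2, hφ] at this
    exact this.2.symm
  rcases hL Xi g f (zz p) T (ana_Xi _ hq) (inj_Xi _ hq) (ev_unit _ hq) g1 f1 (g2.trans f2.symm)
    (ContinuousLinearMap.ext fun v => by rw [fderiv_dot, fderiv_dot, f5, g5]) (g4.mono fun y hy => hy.2.1)
    (f4.mono fun y hy => hy.2.1)
    (fun v => by rw [fderiv_graph g _ g1.differentiableAt hq, g2, hφ, g5, hT]) with he | he
  · left
    have h1 : ∀ᶠ x in 𝓝[Y '' U] p, x ∈ S := by
      rw [← g3, eventually_map]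
      filter_upwards [he, f4] with y a b
      rw [a]
      exact b.1
    have h2 : Tendsto Y (𝓝 0) (𝓝[Y '' U] p) := tendsto_nhdsWithin_iff.2
      ⟨hY0 ▸ hF.ana.continuousAt,
        mem_of_superset (hU.isOpen.mem_nhds hU0) fun x hx => mem_image_of_mem Y hx⟩
    exact h2.eventually h1
  right
  obtain ⟨m, c, hm, hc, C, δ₁, hδ₁, hl⟩ := he
  set ψ : ℂ → P2 := fun z => Function.invFunOn Y U (Xi (zz p + T z, g (zz p + T z))) with hψ
  have hTt : ∀ z, Tendsto (fun z => zz p + T z) (𝓝 z) (𝓝 (zz p + T z)) := fun z =>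
    (show Continuous (fun z => zz p + T z) by fun_prop).continuousAt
  have hT0 : Tendsto (fun z => zz p + T z) (𝓝 0) (𝓝 (zz p)) := by simpa using hTt 0
  have hψ0 : ψ 0 = 0 := by
    simp only [hψ, map_zero, add_zero, g2, hφ]
    rw [← hY0]
    exact hU.inj.leftInvOn_invFunOn hU0
  have hψ1 : ∀ᶠ z in 𝓝 (0 : ℂ), ContinuousAt ψ z ∧ ψ z ∈ U ∧
      Y (ψ z) = Xi (zz p + T z, g (zz p + T z)) := by
    filter_upwards [hT0.eventually (g4.eventually_nhds.and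
      (g1.eventually_analyticAt.and (ev_lt _ hq)))] with z ⟨a, b, d⟩
    have a0 := a.self_of_nhds.1
    refine ⟨?_, Function.invFunOn_mem a0, Function.invFunOn_eq a0⟩
    have e1 : Tendsto (fun x => Xi (x, g x)) (𝓝 (zz p + T z))
        (𝓝[Y '' U] (Xi (zz p + T z, g (zz p + T z)))) := tendsto_nhdsWithin_iff.2
      ⟨((ana_Xi (_, g _) d).comp (f := fun x => (x, g x)) (analyticAt_id.prod b)).continuousAt,
        a.mono fun y hy => hy.1⟩
    exact ((cont_inv hU _ a0).tendsto.comp e1).comp (hTt z)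
  have hQ : Tendsto (fun q : ℝ × ℂ => (q.1, ψ q.2)) (𝓝 (t₀, 0)) (𝓝 (t₀, 0)) := by
    have := continuousAt_fst.prodMk (ContinuousAt.comp (f := Prod.snd) (x := (t₀, (0 : ℂ)))
      hψ1.self_of_nhds.1 continuousAt_snd)
    rw [ContinuousAt] at this
    simpa [hψ0] using this
  have hb0 : ball ((t₀, 0) : ℝ × P2) δ ∈ 𝓝 (t₀, 0) := ball_mem_nhds _ hF.pos
  have hX : Tendsto X (𝓝 (t₀, 0)) (𝓝 p) := hF.X0 ▸ hF.contX.continuousAt hb0
  have hN : Tendsto N (𝓝 (t₀, 0)) (𝓝 n) := hF.N0 ▸ hF.contN.continuousAt hb0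
  have hgood : ∀ᶠ q in 𝓝 ((t₀, 0) : ℝ × P2), q ∈ ball ((t₀, 0) : ℝ × P2) δ ∧ aa (X q) < 1 ∧
      u34 (X q) (N q) ≠ 0 := by
    refine Eventually.and hb0 (Eventually.and ?_ ?_)
    · exact hX.eventually (ContinuousAt.eventually_lt (f := aa) (by unfold aa; fun_prop)
        continuousAt_const ha)
    · exact (hX.prodMk_nhds hN).eventually (ContinuousAt.eventually_ne
        (g := fun w : E4 × E4 => u34 w.1 w.2) (by unfold u34; fun_prop) hu)
  have hZ : Tendsto (fun q => zz (X q)) (𝓝 (t₀, 0)) (𝓝 (zz p)) := cont_zz.continuousAt.tendsto.comp hX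
  refine ⟨grad f, ψ, m - 1, c * m, 2 * C, mul_ne_zero hc (by exact_mod_cast (by omega)), by omega,
    ana_grad f1, hψ0, hψ1.mono fun z hz => ⟨hz.1, ?_⟩, ?_, ?_, ?_, fun V hV => ?_⟩
  · exact (congrArg zz hz.2.2).trans (zz_Xi _)
  · rw [← f3, eventually_map]
    filter_upwards [f4] with y a m hm
    rw [zz_Xi]
    exact (a.2.2 m hm).2
  · filter_upwards [hQ.eventually (hgood.and (hZ.eventually (ana_grad f1).eventually_analyticAt)),
      (continuousAt_snd (p := (t₀, (0 : ℂ)))).eventually hψ1] with q ⟨⟨a1, a2, a3⟩, a4⟩ b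
    have c1 : ContinuousAt (fun q : ℝ × ℂ => (q.1, ψ q.2)) q :=
      continuousAt_fst.prodMk (ContinuousAt.comp (f := Prod.snd) b.1 continuousAt_snd)
    have c2 : ContinuousAt (fun q : ℝ × ℂ => X (q.1, ψ q.2)) q :=
      ContinuousAt.comp (f := fun q : ℝ × ℂ => (q.1, ψ q.2))
        (hF.contX.continuousAt (isOpen_ball.mem_nhds a1)) c1
    have c3 : ContinuousAt (fun q : ℝ × ℂ => N (q.1, ψ q.2)) q :=
      ContinuousAt.comp (f := fun q : ℝ × ℂ => (q.1, ψ q.2))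
        (hF.contN.continuousAt (isOpen_ball.mem_nhds a1)) c1
    exact (cont_Cx T).continuousAt.comp ((contAt_sl c2 c3 a2 a3).sub
      (ContinuousAt.comp (f := fun q : ℝ × ℂ => zz (X (q.1, ψ q.2))) a4.continuousAt
        (cont_zz.continuousAt.comp c2)))
  · filter_upwards [hψ1, hT0.eventually (g4.and (g1.eventually_analyticAt.and
      f1.eventually_analyticAt)), ball_mem_nhds 0 hδ₁] with z ⟨_, a2, a3⟩ ⟨b1, b2, b3⟩ d
    have e1 : X (t₀, ψ z) = Xi (zz p + T z, g (zz p + T z)) := a3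
    have e2 := (b1.2.2 _ (a3 ▸ hnor _ a2)).2
    obtain ⟨-, -, e3⟩ := hl z (mem_ball_zero_iff.1 d)
    have e4 : ∀ w, fderiv ℝ (fun x => g x - f x) (zz p + T z) w
        = dot (grad g (zz p + T z) - grad f (zz p + T z)) w := fun w => by
      rw [fderiv_fun_sub b2.differentiableAt b3.differentiableAt, sub_apply,
        fderiv_dot, fderiv_dot]
      simp only [dot, Prod.fst_sub, Prod.snd_sub]
      ring
    have e5 := e3 1
    have e6 := e3 Complex.I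
    rw [e4] at e5 e6
    simp only [Ph, e1, e2, zz_Xi, Nat.sub_add_cancel (show 1 ≤ m by omega)]
    refine (Complex.norm_le_abs_re_add_abs_im _).trans ?_
    rw [mul_one, norm_one, mul_one] at e5
    rw [Complex.mul_I_re, Complex.norm_I, mul_one, ← abs_neg] at e6
    have e7 : ∀ a b : ℝ, -(a - -b) = -a - b := fun a b => by ring
    rw [e7] at e6
    simp only [Cx, Complex.sub_re, Complex.sub_im]
    linarith
  · have hFt : Tendsto (fun x => Xi (x, f x)) (𝓝 (zz p)) (𝓝 p) :=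
      (le_of_eq f3).trans nhdsWithin_le_nhds
    filter_upwards [hQ.eventually (hgood.and (hZ.eventually (f4.and (hFt.eventually hV))))]
      with q ⟨⟨a1, a2, a3⟩, ⟨b1, _, b3⟩, b4⟩ h0
    have e1 := sub_eq_zero.1 (Cx_zero T hTi _ h0)
    have e2 := (hC.nor_spec S hS _ b1).1
    obtain ⟨u1, u2, u3⟩ := hF.unit _ a1
    exact ⟨_, ⟨b1, b4⟩, match_rot _ _ _ _ (hC.unit S hS _ b1) u1 a2 e2.1 u2 e2.2.1 u3 (b3 _ e2).1 a3
      (zz_Xi _) (e1.trans (b3 _ e2).2.symm)⟩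

end Pool.Agent.Lib.MP_16d934_gt.BPc
end
end

-- part Pool.Agent.Lib.MP_16d934_gt.BPc
section

/-! Persistence of tangency modulo the torus and at a corner. -/

set_option autoImplicit false

open Set Metric Filter Topology Asymptotics
open scoped ContDiff InnerProductSpace NNReal Real

noncomputable section

namespace Pool.Agent.Lib.MP_16d934_gt

namespace BPc

theorem main (hC : ChartS) (hP : ParamS) (hL : LeadS) (hW : WindS) {S : Set E4} {p n : E4}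
    {t₀ δ : ℝ} {X N : ℝ × P2 → E4} (hS : IsMin S) (hp : p ∈ S) (hn : IsNor S p n) (ha : aa p < 1)
    (hu : u34 p n ≠ 0) (hF : Fam t₀ δ X N p n) :
    (∀ᶠ s in 𝓝 (0 : P2), X (t₀, s) ∈ S) ∨ ∀ V ∈ 𝓝 p, ∀ᶠ t in 𝓝 t₀, ∃ s : P2,
      (t, s) ∈ ball ((t₀, 0) : ℝ × P2) δ ∧ X (t, s) ∈ V ∧ ∃ x ∈ S ∩ V, ∃ φ,
        X (t, s) = rot 0 φ x ∧ (N (t, s) = rot 0 φ (nor S x) ∨ N (t, s) = -rot 0 φ (nor S x)) := by
  obtain ⟨T, hT⟩ := exists_T p (sl p n) (hC.unit S hS p hp) ha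
  refine (core hC hP hL hS hp hn ha hu hF T hT).imp id ?_
  rintro ⟨h, ψ, k, c, C, hc, hk, -, hψ0, hψ1, -, h1, h2, h3⟩ V hV
  have hQ : Tendsto (fun q : ℝ × ℂ => (q.1, ψ q.2)) (𝓝 (t₀, 0)) (𝓝 (t₀, 0)) := by
    have := continuousAt_fst.prodMk (ContinuousAt.comp (f := Prod.snd) (x := (t₀, (0 : ℂ)))
      hψ1.self_of_nhds.1 continuousAt_snd)
    rw [ContinuousAt] at this
    simpa [hψ0] using this
  have hb0 : ball ((t₀, 0) : ℝ × P2) δ ∈ 𝓝 (t₀, 0) := ball_mem_nhds _ hF.pos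
  have hX : Tendsto X (𝓝 (t₀, 0)) (𝓝 p) := hF.X0 ▸ hF.contX.continuousAt hb0
  filter_upwards [wind1 hW _ _ t₀ C c k hc hk h1
    ((hQ.eventually (Eventually.and hb0 (hX.eventually hV))).and (h3 V hV)) h2]
    with t ⟨z, ⟨⟨a1, a2⟩, a3⟩, h0⟩
  exact ⟨ψ z, a1, a2, a3 h0⟩

theorem fam_iso (hM : MeqS) (g : Iso) {t₀ δ : ℝ} {X N : ℝ × P2 → E4} {p n : E4}
    (hF : Fam t₀ δ X N p n) : Fam t₀ δ (fun q => g (X q)) (fun q => g (N q)) (g p) (g n) := by
  have hd : ∀ s, fderiv ℝ (fun s => g (X (t₀, s))) s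
      = (g : E4 →L[ℝ] E4).comp (fderiv ℝ (fun s => X (t₀, s)) s) := fun s =>
    g.comp_fderiv (f := fun s => X (t₀, s))
  refine ⟨hF.pos, g.continuous.comp_continuousOn hF.contX, g.continuous.comp_continuousOn hF.contN,
    by rw [hF.X0], by rw [hF.N0], fun q hq => ?_,
    ((g : E4 →L[ℝ] E4).analyticAt _).comp hF.ana, ?_, ?_⟩
  · simpa only [LinearIsometryEquiv.norm_map, LinearIsometryEquiv.inner_map_map] using hF.unit q hq
  · rw [hd]
    exact g.injective.comp hF.imm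
  · filter_upwards [hF.minimal, hF.ana.eventually_analyticAt] with s a b
    refine ⟨(hM.iso g _ s b.contDiffAt).2 a.1, ?_, ?_⟩
    · rw [d1, hd]
      exact (g.inner_map_map _ _).trans a.2.1
    · rw [d2, hd]
      exact (g.inner_map_map _ _).trans a.2.2

theorem sw_co (x : E4) : sw x 0 = x 2 ∧ sw x 1 = x 3 ∧ sw x 2 = x 0 ∧ sw x 3 = x 1 := by
  refine ⟨?_, ?_, ?_, ?_⟩ <;> simp [sw, mkO_apply]

theorem rot_sw (φ : ℝ) (x : E4) : rot 0 φ (sw x) = sw (rot φ 0 x) := by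
  ext i
  fin_cases i <;> simp [sw, rot, mkO_apply]

/-! ### The corner -/

/-- the standard corner frame -/
def ka : Iso := mkO ![!₂[0, 0, 1, 0], !₂[1, 0, 0, 0], !₂[0, 1, 0, 0], !₂[0, 0, 0, 1]]
  (ortho4 _ fun i j => by fin_cases i <;> fin_cases j <;> simp)

theorem ka_co (x : E4) : ka x 0 = x 1 ∧ ka x 1 = x 2 ∧ ka x 2 = x 0 ∧ ka x 3 = x 3 := by
  refine ⟨?_, ?_, ?_, ?_⟩ <;> simp [ka, mkO_apply]

theorem zz_gX (w : P2 → ℝ) (y : P2) :
    zz (gX ka w y) = (√(1 + y.1 ^ 2 + y.2 ^ 2 + w y ^ 2))⁻¹ • y := by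
  obtain ⟨a0, a1, -, -⟩ := ka_co (gn y (w y))
  simp only [zz, gX, a0, a1]
  ext <;> simp [gn]

theorem sl_gX (w : P2 → ℝ) (y : P2) : sl (gX ka w y) (gN ka w y)
    = (√(1 + y.1 ^ 2 + y.2 ^ 2 + w y ^ 2) / (1 + w y ^ 2 - w y * dot y (grad w y))) • grad w y
      + (√(1 + y.1 ^ 2 + y.2 ^ 2 + w y ^ 2) / (1 + w y ^ 2 - w y * dot y (grad w y))
        * (dot y (grad w y) / (1 + w y ^ 2))) • y := by
  obtain ⟨a0, a1, a2, a3⟩ := ka_co (gn y (w y))
  obtain ⟨b0, b1, b2, b3⟩ := ka_co (nrm y (w y) (d1 w y) (d2 w y))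
  have hA : 0 < 1 + y.1 ^ 2 + y.2 ^ 2 + w y ^ 2 := by positivity
  have hB : 0 < 1 + d1 w y ^ 2 + d2 w y ^ 2 + (w y - y.1 * d1 w y - y.2 * d2 w y) ^ 2 := by
    positivity
  have hA2 := Real.sq_sqrt hA.le
  have hA1 := (Real.sqrt_pos.2 hA).ne'
  have hB1 := (Real.sqrt_pos.2 hB).ne'
  have hw : 1 + w y ^ 2 ≠ 0 := by positivity
  have e1 : 1 - aa (gX ka w y) = (1 + w y ^ 2) / √(1 + y.1 ^ 2 + y.2 ^ 2 + w y ^ 2) ^ 2 := by
    simp only [aa, gX, a0, a1]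
    simp [gn]
    field_simp
    rw [hA2]; ring
  have e2 : u34 (gX ka w y) (gN ka w y) = (1 + w y ^ 2 - w y * dot y (grad w y)) /
      (√(1 + y.1 ^ 2 + y.2 ^ 2 + w y ^ 2) *
        √(1 + d1 w y ^ 2 + d2 w y ^ 2 + (w y - y.1 * d1 w y - y.2 * d2 w y) ^ 2)) := by
    simp only [u34, gX, gN, a2, a3, b2, b3]
    simp [gn, nrm, dot, grad]
    field_simp
    ring
  simp only [sl, e1, e2]
  simp only [vv, gX, gN, a0, a1, b0, b1]
  generalize 1 + w y ^ 2 - w y * dot y (grad w y) = D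
  ext
  · simp [gn, nrm, dot, grad]
    rcases eq_or_ne D 0 with rfl | hD
    · simp
    · field_simp
      ring
  · simp [gn, nrm, dot, grad]
    rcases eq_or_ne D 0 with rfl | hD
    · simp
    · field_simp
      ring

theorem grad0 {w : P2 → ℝ} (h : fderiv ℝ w 0 = 0) : grad w 0 = 0 := by
  simp [grad, d1, d2, h]

theorem der_zz {w : P2 → ℝ} (hw : AnalyticAt ℝ w 0) (h0 : w 0 = 0) :
    HasFDerivAt (fun y => zz (gX ka w y)) (ContinuousLinearMap.id ℝ P2) 0 := by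
  have h1 := hw.continuousAt
  have h2 : ContinuousAt (fun y : P2 => (√(1 + y.1 ^ 2 + y.2 ^ 2 + w y ^ 2))⁻¹) 0 :=
    ContinuousAt.inv₀ (by fun_prop) (by simp [h0])
  have := smul_deriv h2 (hasFDerivAt_id (0 : P2)) rfl
  simpa [zz_gX, h0] using this

theorem der_sl {w : P2 → ℝ} (hw : AnalyticAt ℝ w 0) (h0 : w 0 = 0) (h1 : fderiv ℝ w 0 = 0) :
    HasFDerivAt (fun y => sl (gX ka w y) (gN ka w y)) (fderiv ℝ (grad w) 0) 0 := by
  have c1 := hw.continuousAt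
  have c2 := (ana_grad hw).continuousAt
  have c3 : ContinuousAt (fun y => dot y (grad w y)) 0 :=
    (continuousAt_fst.mul c2.fst).add (continuousAt_snd.mul c2.snd)
  have c4 : ContinuousAt (fun y : P2 => √(1 + y.1 ^ 2 + y.2 ^ 2 + w y ^ 2) /
      (1 + w y ^ 2 - w y * dot y (grad w y))) 0 :=
    ContinuousAt.div (by fun_prop) (by fun_prop) (by simp [h0])
  have c5 : ContinuousAt (fun y : P2 => dot y (grad w y) / (1 + w y ^ 2)) 0 :=
    ContinuousAt.div c3 (by fun_prop) (by simp [h0])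
  have := (smul_deriv c4 (ana_grad hw).differentiableAt.hasFDerivAt (grad0 h1)).add
    (smul_deriv (c4.mul c5) (hasFDerivAt_id (0 : P2)) rfl)
  simp only [sl_gX]
  exact this.congr_fderiv (by simp [h0, dot])

theorem hess {w : P2 → ℝ} (hw : AnalyticAt ℝ w 0) {a : ℝ} (h1 : d1 (d1 w) 0 = 2 * a)
    (h2 : d1 (d2 w) 0 = 0) (h3 : d2 (d2 w) 0 = -(2 * a)) (v : P2) :
    fderiv ℝ (grad w) 0 v = (2 * a * v.1, -(2 * a * v.2)) := by
  have a1 : AnalyticAt ℝ (d1 w) 0 := analyticAt_fst.comp (ana_grad hw)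
  have a2 : AnalyticAt ℝ (d2 w) 0 := analyticAt_snd.comp (ana_grad hw)
  have h4 : d2 (d1 w) 0 = d1 (d2 w) 0 := by
    have e : ∀ a b : P2, fderiv ℝ (fun y => fderiv ℝ w y a) 0 b
        = fderiv ℝ (fderiv ℝ w) 0 b a := fun a b => by
      rw [fderiv_clm_apply hw.fderiv.differentiableAt (differentiableAt_const a)]
      simp
    exact (e _ _).trans (((hw.contDiffAt (n := 2)).isSymmSndFDerivAt (by simp)).eq _ _ |>.trans
      (e _ _).symm)
  have h5 : fderiv ℝ (grad w) 0 = (fderiv ℝ (d1 w) 0).prod (fderiv ℝ (d2 w) 0) :=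
    a1.differentiableAt.fderiv_prodMk a2.differentiableAt
  rw [h5, ContinuousLinearMap.prod_apply, fderiv_dot, fderiv_dot]
  simp only [dot, grad, h1, h2, h3, h4]
  ext <;> simp

theorem cont_gn : Continuous fun q : P2 × ℝ => gn q.1 q.2 := by
  have h : Continuous fun q : P2 × ℝ => (√(1 + q.1.1 ^ 2 + q.1.2 ^ 2 + q.2 ^ 2))⁻¹ :=
    Continuous.inv₀ (by fun_prop) fun q => (Real.sqrt_pos.2 (by positivity)).ne'
  unfold gn
  exact h.smul (by fun_prop)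

theorem cont_nrm : Continuous fun q : P2 × ℝ × ℝ × ℝ => nrm q.1 q.2.1 q.2.2.1 q.2.2.2 := by
  have h : Continuous fun q : P2 × ℝ × ℝ × ℝ => (√(1 + q.2.2.1 ^ 2 + q.2.2.2 ^ 2
      + (q.2.1 - q.1.1 * q.2.2.1 - q.1.2 * q.2.2.2) ^ 2))⁻¹ :=
    Continuous.inv₀ (by fun_prop) fun q => (Real.sqrt_pos.2 (by positivity)).ne'
  unfold nrm
  exact h.smul (by fun_prop)

theorem gX0 {w : P2 → ℝ} (h0 : w 0 = 0) : gX ka w 0 = ee 2 := by
  obtain ⟨a0, a1, a2, a3⟩ := ka_co (gn 0 (w 0))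
  ext i
  fin_cases i
  · exact a0.trans (by simp [gn, ee])
  · exact a1.trans (by simp [gn, ee])
  · exact a2.trans (by simp [gn, ee, h0])
  · exact a3.trans (by simp [gn, ee, h0])

theorem gN0 {w : P2 → ℝ} (h0 : w 0 = 0) (h1 : fderiv ℝ w 0 = 0) : gN ka w 0 = ee 3 := by
  obtain ⟨a0, a1, a2, a3⟩ := ka_co (nrm 0 (w 0) (d1 w 0) (d2 w 0))
  ext i
  fin_cases i
  · exact a0.trans (by simp [nrm, ee, d1, h1])
  · exact a1.trans (by simp [nrm, ee, d2, h1])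
  · exact a2.trans (by simp [nrm, ee, h0])
  · exact a3.trans (by simp [nrm, ee, h0, d1, d2, h1])

theorem pfam (hM : MeqS) {c : ℝ → ℝ} {t₀ δ : ℝ} {U : ℝ → P2 → ℝ} (hU : PFam c t₀ δ U) :
    Fam t₀ δ (fun q => gX ka (U q.1) q.2) (fun q => gN ka (U q.1) q.2) (ee 2) (ee 3) := by
  have h0 := hU.zero t₀ (mem_ball_self hU.pos)
  have hs := hU.sol t₀ (mem_ball_self hU.pos)
  have ha := hs.1 0 (mem_ball_self hU.pos)
  refine ⟨hU.pos, ?_, ?_, gX0 h0.1, gN0 h0.1 h0.2, fun q hq => ?_, (hM.ana ka _ 0 ha).1,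
    (hM.normal ka _ 0 ha.differentiableAt).2.2.2.2.2, ?_⟩
  · exact (ka.continuous.comp cont_gn).comp_continuousOn
      (f := fun q : ℝ × P2 => (q.2, U q.1 q.2)) (continuousOn_snd.prodMk hU.cont.fst)
  · exact (ka.continuous.comp cont_nrm).comp_continuousOn
      (f := fun q : ℝ × P2 => (q.2, U q.1 q.2, d1 (U q.1) q.2, d2 (U q.1) q.2))
      (continuousOn_snd.prodMk hU.cont)
  · rw [← ball_prod_same] at hq
    obtain ⟨a, b, d, -⟩ := hM.normal ka (U q.1) q.2 ((hU.sol _ hq.1).1 _ hq.2).differentiableAt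
    exact ⟨a, b, d⟩
  · filter_upwards [ball_mem_nhds (0 : P2) hU.pos] with s h
    obtain ⟨-, -, -, a, b, -⟩ := hM.normal ka (U t₀) s (hs.1 _ h).differentiableAt
    exact ⟨(hM.graph ka _ s (hs.1 _ h).contDiffAt).2 (hs.2 s h), a, b⟩

theorem Cx_lin : ∃ L : P2 →L[ℝ] ℂ, ∀ l, Cx T0 l = L l :=
  ⟨(ContinuousLinearMap.fst ℝ ℝ ℝ).smulRight 1
    - (ContinuousLinearMap.snd ℝ ℝ ℝ).smulRight Complex.I, fun l => by
    apply Complex.ext <;> simp [Cx, T0, dot]⟩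

theorem corner (hM : MeqS) (hC : ChartS) (hP : ParamS) (hL : LeadS) (hW : WindS) (hI : InvS)
    {S : Set E4} {δ δ' t₀ : ℝ} {u : P2 → ℝ} {c : ℝ → ℝ} {U : ℝ → P2 → ℝ} (hS : IsMin S)
    (hu : Chart S ka δ u) (hU : PFam c t₀ δ' U) (e1 : d1 (d1 u) 0 = 2 * c t₀)
    (e2 : d1 (d2 u) 0 = 0) (e3 : d2 (d2 u) 0 = -(2 * c t₀)) :
    (∀ᶠ y in 𝓝 (0 : P2), gX ka (U t₀) y ∈ S) ∨ ∀ η > 0, ∀ᶠ t in 𝓝 t₀, c t ≠ c t₀ →
      ∃ y ∈ ball (0 : P2) (min η δ'), y ≠ 0 ∧ ∃ y' ∈ ball (0 : P2) (min η δ), y' ≠ 0 ∧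
        jet (gX ka u y') (gN ka u y') = jet (gX ka (U t) y) (gN ka (U t) y) := by
  have hl : LChart S ka (ball 0 δ) u := ⟨isOpen_ball, hu.sol, hu.rel⟩
  have hua := hu.sol.1 0 (mem_ball_self hu.pos)
  obtain ⟨p1, p2, p3⟩ := hC.facts S ka _ u hl 0 (mem_ball_self hu.pos)
  rw [gX0 hu.zero] at p1 p2 p3
  rw [gN0 hu.zero hu.dzero] at p2
  have hz : zz (ee 2) = 0 := by simp [zz, ee]
  refine (core hC hP hL hS p1 p2 (by simp [aa, ee]) (by simp [u34, ee]) (pfam hM hU) T0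
    fun v => ?_).imp id ?_
  · rw [← sq_eq_sq₀ (norm_nonneg _) (norm_nonneg _), nsq, Complex.sq_norm, Complex.normSq_apply]
    simp [tg, ee, sl, dot, vv, T0]
    ring
  rintro ⟨h, ψ, k, a, C, ha, -, hh, hψ0, hψ1, hsl, h1, h2, h3⟩ η hη
  rw [hz] at hh
  simp only [hz, zero_add] at hψ1
  have hU0 := hU.zero t₀ (mem_ball_self hU.pos)
  have hUa := (hU.sol t₀ (mem_ball_self hU.pos)).1 0 (mem_ball_self hU.pos)
  have hZ0 : ∀ w : P2 → ℝ, zz (gX ka w 0) = 0 := fun w => by simp [zz_gX]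
  have dψ : HasFDerivAt ψ T0 0 := by
    have c1 : ContinuousAt (fun z => U t₀ (ψ z)) 0 :=
      ContinuousAt.comp (hψ0.symm ▸ hUa.continuousAt) hψ1.self_of_nhds.1
    have c2 := hψ1.self_of_nhds.1
    have c3 : ContinuousAt (fun z => √(1 + (ψ z).1 ^ 2 + (ψ z).2 ^ 2 + U t₀ (ψ z) ^ 2)) 0 :=
      (((continuousAt_const.add (c2.fst.pow 2)).add (c2.snd.pow 2)).add (c1.pow 2)).sqrt
    have c4 := smul_deriv c3 T0.hasFDerivAt (map_zero _)
    simp only [hψ0, hU0.1, Prod.fst_zero, Prod.snd_zero, ne_eq, OfNat.ofNat_ne_zero,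
      not_false_eq_true, zero_pow, add_zero, Real.sqrt_one, one_smul] at c4
    refine c4.congr_of_eventuallyEq (hψ1.mono fun z hz => ?_)
    simp only
    rw [← hz.2, zz_gX, smul_smul, mul_inv_cancel₀ (Real.sqrt_pos.2 (by positivity)).ne', one_smul]
  have dh : ∀ w : P2 → ℝ, AnalyticAt ℝ w 0 → w 0 = 0 →
      HasFDerivAt (fun y => h (zz (gX ka w y))) (fderiv ℝ h 0) 0 := fun w hw h0 => by
    have h1 : HasFDerivAt h (fderiv ℝ h 0) (zz (gX ka w 0)) := by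
      rw [hZ0]; exact hh.differentiableAt.hasFDerivAt
    exact (HasFDerivAt.comp (g := h) 0 h1 (der_zz hw h0)).congr_fderiv (by simp)
  have hH : fderiv ℝ h 0 = fderiv ℝ (grad u) 0 := by
    refine (dh u hua hu.zero).unique
      ((der_sl hua hu.zero hu.dzero).congr_of_eventuallyEq ?_)
    rw [← p3, eventually_map] at hsl
    filter_upwards [hsl, ball_mem_nhds (0 : P2) hu.pos] with y a b
    exact (a _ (hC.facts S ka _ u hl y b).2.1).symm
  obtain ⟨L, hLx⟩ := Cx_lin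
  have dP : ∀ t ∈ ball t₀ δ', (fun z => Ph T0 (fun q => gX ka (U q.1) q.2)
      (fun q => gN ka (U q.1) q.2) h ψ (t, z) - (2 * (c t - c t₀) : ℝ) * z) =o[𝓝 0]
        fun z : ℂ => z := fun t ht => by
    have z0 := hU.zero t ht
    have za := (hU.sol t ht).1 0 (mem_ball_self hU.pos)
    obtain ⟨q1, q2, q3⟩ := hU.hess t ht
    have d1 := ((der_sl za z0.1 z0.2).sub (dh _ za z0.1))
    have d2 := L.hasFDerivAt.comp 0 (HasFDerivAt.comp 0 (hψ0.symm ▸ d1) dψ)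
    have d3 := d2.isLittleO
    have s0 : sl (gX ka (U t) 0) (gN ka (U t) 0) = h 0 := by
      have := (hsl.self_of_nhdsWithin p1) _ p2
      rw [gX0 z0.1, gN0 z0.1 z0.2, this, hz]
    refine (d3.congr_left fun z => ?_).congr_right fun z => sub_zero z
    simp only [Ph, hLx, Function.comp_apply, Pi.sub_apply, hψ0, hZ0, s0, sub_self, map_zero,
      sub_zero, ContinuousLinearMap.comp_apply, sub_apply, hH, hess za q1 q2 q3,
      hess hua e1 e2 e3]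
    congr 1
    rw [← hLx]
    apply Complex.ext <;> simp [Cx, T0, dot] <;> ring
  obtain ⟨V, hV, hVe⟩ := hu.rel (ball 0 (min η δ)) (ball_subset_ball (min_le_right _ _))
    isOpen_ball
  have hV0 : V ∈ 𝓝 (ee 2) := hV.mem_nhds (by
    have : gX ka u 0 ∈ S ∩ V := hVe ▸ mem_image_of_mem _ (mem_ball_self (lt_min hη hu.pos))
    exact gX0 hu.zero ▸ this.2)
  have hb : ∀ᶠ z in 𝓝 (0 : ℂ), ψ z ∈ ball (0 : P2) (min η δ') :=
    hψ1.self_of_nhds.1.eventually (hψ0.symm ▸ ball_mem_nhds _ (lt_min hη hU.pos))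
  filter_upwards [wind2 hW _ _ t₀ C a k ha h1 (((continuousAt_snd (p := (t₀, (0 : ℂ)))).eventually
    (hb.and hψ1)).and (h3 V hV0)) h2 (by simpa using dP t₀ (mem_ball_self hU.pos)),
    ball_mem_nhds t₀ hU.pos] with t b ht hc
  obtain ⟨z, hz0, ⟨⟨a1, -, a2⟩, a3⟩, h0⟩ := b _ (by
    exact_mod_cast mul_ne_zero two_ne_zero (sub_ne_zero.2 hc)) (dP t ht)
  obtain ⟨x, hx, φ, r1, r2⟩ := a3 h0
  rw [← hVe] at hx
  obtain ⟨y', hy', rfl⟩ := hx
  have hy0 : ψ z ≠ 0 := fun e => by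
    simp only [e, hZ0] at a2
    exact hz0 (Complex.equivRealProdCLM.injective (a2.symm.trans (map_zero _).symm))
  refine ⟨ψ z, a1, hy0, y', hy', fun e => hy0 ?_, ?_⟩
  · have r3 : zz (gX ka (U t) (ψ z)) = zz (gX ka u y') := by
      rw [r1]
      exact Prod.ext (rot0 _ _).1 (rot0 _ _).2.1
    rw [e, hZ0, zz_gX, smul_eq_zero] at r3
    exact r3.resolve_left (inv_ne_zero (Real.sqrt_pos.2 (by positivity)).ne')
  · obtain ⟨f1, f2, -⟩ := hC.facts S ka _ u hl y' (ball_subset_ball (min_le_right _ _) hy')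
    have j1 := (hI.gam _ (hI.gams.1 0 φ)).2.2 (gX ka u y') (nor S (gX ka u y'))
    have j2 : jet (gX ka u y') (gN ka u y') = jet (gX ka u y') (nor S (gX ka u y')) := by
      rcases ((hC.nor_spec S hS _ f1).2 _).1 f2 with e | e
      · rw [e]
      · rw [e, hI.neg]
    rw [j2, ← j1, r1]
    rcases r2 with e | e
    · rw [e]
    · rw [e, hI.neg]

end BPc

open BPc in
theorem pcS (hM : MeqS) (hC : ChartS) (hP : ParamS) (hL : LeadS) (hW : WindS) (hI : InvS) :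
    PcS := by
  intro S p n t₀ δ X N hS hp hn h0 h1 hu hF
  by_cases h : u34 p n = 0
  · obtain ⟨a0, a1, a2, a3⟩ := sw_co p
    obtain ⟨-, -, b2, b3⟩ := sw_co n
    have hS' := hI.min sw S hS
    have hp1 := (unit_iff p).1 (hC.unit S hS p hp)
    refine (main hC hP hL hW hS' (mem_image_of_mem sw hp) (hI.nor sw S p n hn)
      (by unfold aa at h0 ⊢; rw [a0, a1]; linarith)
      (by
        have := hu.resolve_left (not_not.2 h)
        unfold u12 at this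
        unfold u34
        rwa [a2, a3, b2, b3]) (fam_iso hM sw hF)).imp
      (fun h' => h'.mono fun s hs => (sw.injective.mem_set_image).1 hs) fun h' V hV => ?_
    · filter_upwards [h' (sw '' V) (sw.toHomeomorph.isOpenMap.image_mem_nhds hV)]
        with t ⟨s, c1, c2, x, ⟨⟨y, hy, e⟩, c3⟩, φ, r1, r2⟩
      subst e
      have r3 : X (t, s) = rot φ 0 y := sw.injective (r1.trans (rot_sw _ _))
      have r4 : N (t, s) = rot φ 0 (nor S y) ∨ N (t, s) = -rot φ 0 (nor S y) := by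
        have e := ((hC.nor_spec _ hS' _ (mem_image_of_mem sw hy)).2 _).1
          (hI.nor sw S y _ (hC.nor_spec S hS y hy).1)
        have e' : nor (sw '' S) (sw y) = sw (nor S y) ∨ nor (sw '' S) (sw y) = -sw (nor S y) :=
          e.imp Eq.symm fun e => by rw [e, neg_neg]
        rcases e' with e' | e' <;> rcases r2 with r2 | r2 <;> rw [e'] at r2
        · exact Or.inl (sw.injective (r2.trans (rot_sw _ _)))
        · exact Or.inr (sw.injective (by rw [r2, rot_sw, map_neg]))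
        · exact Or.inr (sw.injective (by rw [r2, map_neg, rot_sw, map_neg]))
        · exact Or.inl (sw.injective (by rw [r2, map_neg, rot_sw, neg_neg]))
      refine ⟨s, c1, (sw.injective.mem_set_image).1 c2, y,
        ⟨hy, (sw.injective.mem_set_image).1 c3⟩, ?_, fun h' => absurd h h', fun _ => ⟨φ, r3, r4⟩⟩
      rw [← (hI.gam _ (hI.gams.1 φ 0)).2.2 y (nor S y), r3]
      rcases r4 with e | e
      · rw [e]
      · rw [e, hI.neg]
  · refine (main hC hP hL hW hS hp hn h1 h hF).imp id fun h' V hV => ?_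
    filter_upwards [h' V hV] with t ⟨s, c1, c2, x, c3, φ, r1, r2⟩
    refine ⟨s, c1, c2, x, c3, ?_, fun _ => ⟨φ, r1, r2⟩, fun h' => absurd h' h⟩
    rw [← (hI.gam _ (hI.gams.1 0 φ)).2.2 x (nor S x), r1]
    rcases r2 with e | e
    · rw [e]
    · rw [e, hI.neg]

open BPc in
theorem pcpS (hM : MeqS) (hC : ChartS) (hP : ParamS) (hL : LeadS) (hW : WindS) (hI : InvS) :
    PcpS := by
  intro S O δ δ' t₀ u c U hS hO hu hU e1 e2 e3
  let g : Iso := O.symm.trans ka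
  have g1 : ∀ x, g (O x) = ka x := fun x => by simp [g]
  have g2 : Gam g := fun x => by
    obtain ⟨y, rfl⟩ := O.surjective x
    rw [g1, hO, aa, (ka_co y).1, (ka_co y).2.1]
  have g3 : ∀ w y, gX ka w y = g (gX O w y) := fun w y => (g1 _).symm
  have g4 : ∀ w y, jet (gX ka w y) (gN ka w y) = jet (gX O w y) (gN O w y) := fun w y => by
    rw [← (hI.gam g g2).2.2 (gX O w y), gX, gX, gN, gN, g1, g1]
  have hu' : Chart (g '' S) ka δ u := ⟨hu.pos, hu.sol, hu.zero, hu.dzero, fun W hW hW' => by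
    obtain ⟨V, hV, e⟩ := hu.rel W hW hW'
    refine ⟨g '' V, g.toHomeomorph.isOpenMap V hV, ?_⟩
    rw [← image_inter g.injective, ← e, image_image]
    simp only [g3]⟩
  refine (corner hM hC hP hL hW hI (hI.min g S hS) hu' hU e1 e2 e3).imp
    (fun h => h.mono fun y hy => (g.injective.mem_set_image).1 (g3 _ y ▸ hy)) fun h => ?_
  simpa only [g4] using h

end Pool.Agent.Lib.MP_16d934_gt
end
end
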