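import Pool.Agent.Lib.MP_16d934_gt.StC

-- part Pool.Agent.Lib.MP_16d934_gt.BWind
section

/-! Winding numbers, invariance under isometries and the algebra of jets. -/

set_option autoImplicit false

open Set Metric Filter Topology MeasureTheory Asymptotics
open scoped ContDiff InnerProductSpace NNReal Real

noncomputable section

namespace Pool.Agent.Lib.MP_16d934_gt

namespace BWind

/-! ### Winding numbers -/

section wind

open Complex unitInterval

theorem lift_one (f : C(I, ℂ)) (hf : ∀ s, f s ≠ 0) : ∃ L : C(I, ℂ), ∀ s, exp (L s) = f s := by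
  let g : C(I, {z : ℂ // z ≠ 0}) := ⟨fun s => ⟨f s, hf s⟩, by fun_prop⟩
  obtain ⟨L, hL, _⟩ := isCoveringMap_exp.exists_path_lifts g (log (f 0))
    (Subtype.ext (exp_log (hf 0)).symm)
  exact ⟨L, fun s => congrArg Subtype.val (congrFun hL s)⟩

theorem lift_two (f : C(I × I, ℂ)) (hf : ∀ s, f s ≠ 0) :
    ∃ L : C(I × I, ℂ), ∀ s, exp (L s) = f s := by
  let g : C(I × I, {z : ℂ // z ≠ 0}) := ⟨fun s => ⟨f s, hf s⟩, by fun_prop⟩
  obtain ⟨L0, hL0⟩ := lift_one ⟨fun s => f (0, s), by fun_prop⟩ fun s => hf _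
  have h0 : ∀ a, g (0, a) = (fun z : ℂ => (⟨_, z.exp_ne_zero⟩ : {z : ℂ // z ≠ 0})) (L0 a) :=
    fun a => Subtype.ext (hL0 a).symm
  exact ⟨isCoveringMap_exp.liftHomotopy g L0 h0, fun s =>
    congrArg Subtype.val (congrFun (isCoveringMap_exp.liftHomotopy_lifts g L0 h0) s)⟩

theorem lift_uniq (L M : I → ℂ) (hL : Continuous L) (hM : Continuous M) (k : ℂ)
    (h : ∀ s, exp (L s) = k * exp (M s)) : L 1 - L 0 = M 1 - M 0 := by
  have := isCoveringMap_exp.const_of_comp (g := fun s => L s - M s) (hL.sub hM) (fun a b => by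
    apply Subtype.ext
    simp only [exp_sub, h, mul_div_assoc, div_self (exp_ne_zero _)]) 1 0
  linear_combination this

/-- the point of the unit circle at time `t` -/
def cc (t : I) : ℂ := exp (2 * π * Complex.I * (t : ℝ))

theorem continuous_cc : Continuous cc := by unfold cc; fun_prop

theorem norm_cc (t : I) : ‖cc t‖ = 1 := by
  have : (2 * π * Complex.I * (t : ℝ) : ℂ) = ((2 * π * t : ℝ) : ℂ) * Complex.I := by
    push_cast; ring
  rw [cc, this, norm_exp_ofReal_mul_I]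

theorem cc_one : cc 1 = cc 0 := by
  simp [cc, exp_two_pi_mul_I]

theorem norm_mul_cc {ρ : ℝ} (h : 0 ≤ ρ) (t : I) : ‖(ρ : ℂ) * cc t‖ = ρ := by
  rw [norm_mul, norm_cc, mul_one, norm_real, Real.norm_of_nonneg h]

/-- the increment of the logarithm along a loop close to `c z ^ k` -/
theorem incr (G : ℂ → ℂ) {r : ℝ} (hr : 0 < r) (c : ℂ) (k : ℕ)
    (h : ∀ z ∈ sphere (0 : ℂ) r, ‖G z - c * z ^ k‖ < ‖c‖ * r ^ k) (L : I → ℂ)
    (hL : Continuous L) (hG : ∀ t, exp (L t) = G (r * cc t)) :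
    L 1 - L 0 = 2 * π * Complex.I * k := by
  have hs : ∀ t, (r : ℂ) * cc t ∈ sphere (0 : ℂ) r := fun t => by
    rw [mem_sphere_zero_iff_norm, norm_mul_cc hr.le]
  have hc : c ≠ 0 := by
    rintro rfl
    have := h _ (hs 0)
    simp only [norm_zero, zero_mul] at this
    exact absurd this (not_lt.2 (norm_nonneg _))
  have hr' : (r : ℂ) ≠ 0 := by exact_mod_cast hr.ne'
  have hcc : ∀ t, cc t ≠ 0 := fun t => exp_ne_zero _
  have hw : ∀ t, c * ((r : ℂ) * cc t) ^ k ≠ 0 := fun t =>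
    mul_ne_zero hc (pow_ne_zero _ (mul_ne_zero hr' (hcc t)))
  let q : I → ℂ := fun t => exp (L t) / (c * ((r : ℂ) * cc t) ^ k)
  have hq : Continuous q :=
    (continuous_exp.comp hL).div (continuous_const.mul ((continuous_const.mul continuous_cc).pow k))
      hw
  have hq1 : ∀ t, q t ∈ slitPlane := fun t => by
    have h1 : q t = 1 + (G (r * cc t) - c * ((r : ℂ) * cc t) ^ k) / (c * ((r : ℂ) * cc t) ^ k) := by
      simp only [q, hG]
      rw [sub_div, div_self (hw t)]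
      ring
    rw [h1]
    refine mem_slitPlane_of_norm_lt_one ?_
    rw [norm_div, div_lt_one (norm_pos_iff.2 (hw t)), norm_mul, norm_pow, norm_mul_cc hr.le]
    exact h _ (hs t)
  have hM : Continuous fun t : I => log (q t) + k * (2 * π * Complex.I * (t : ℝ)) :=
    (hq.clog hq1).add (by fun_prop)
  have key := lift_uniq L _ hL hM (c * (r : ℂ) ^ k) fun t => by
    rw [exp_add, exp_log (slitPlane_ne_zero (hq1 t)), exp_nat_mul]
    change exp (L t) = c * (r : ℂ) ^ k * (exp (L t) / (c * ((r : ℂ) * cc t) ^ k) * cc t ^ k)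
    have := hcc t
    rw [mul_pow]
    field_simp
  have hq0 : q 1 = q 0 := by simp only [q, hG, cc_one]
  rw [key, hq0]
  simp
  ring

/-- the increment of the logarithm does not depend on the circle -/
theorem homot (G : ℂ → ℂ) {a b : ℝ} (ha : 0 ≤ a) (hab : a ≤ b)
    (hG : ContinuousOn G (closedBall 0 b \ ball 0 a))
    (h0 : ∀ z ∈ closedBall (0 : ℂ) b \ ball 0 a, G z ≠ 0) :
    ∃ L M : I → ℂ, Continuous L ∧ Continuous M ∧ (∀ t, exp (L t) = G (a * cc t)) ∧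
      (∀ t, exp (M t) = G (b * cc t)) ∧ L 1 - L 0 = M 1 - M 0 := by
  let ρ : I → ℝ := fun s => a + s * (b - a)
  have hρ : ∀ s, a ≤ ρ s ∧ ρ s ≤ b := fun s => by
    have h1 := s.2.1
    have h2 := s.2.2
    constructor <;> simp only [ρ] <;> nlinarith
  have hm : ∀ p : I × I, (ρ p.1 : ℂ) * cc p.2 ∈ closedBall (0 : ℂ) b \ ball 0 a := fun p => by
    rw [Set.mem_sdiff, mem_closedBall_zero_iff, mem_ball_zero_iff,
      norm_mul_cc (ha.trans (hρ p.1).1), not_lt]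
    exact ⟨(hρ p.1).2, (hρ p.1).1⟩
  have hc : Continuous fun p : I × I => (ρ p.1 : ℂ) * cc p.2 :=
    (by simp only [ρ]; fun_prop : Continuous fun p : I × I => (ρ p.1 : ℂ)).mul
      (continuous_cc.comp continuous_snd)
  obtain ⟨L, hL⟩ := lift_two ⟨fun p => G ((ρ p.1 : ℂ) * cc p.2), hG.comp_continuous hc hm⟩
    fun p => h0 _ (hm p)
  have key := lift_uniq (fun s => L (s, 1)) (fun s => L (s, 0)) (by fun_prop) (by fun_prop) 1
    fun s => by rw [hL, hL, one_mul]; simp only [ContinuousMap.coe_mk, cc_one]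
  refine ⟨fun t => L (0, t), fun t => L (1, t), by fun_prop, by fun_prop, fun t => ?_, fun t => ?_,
    by linear_combination -key⟩
  · rw [hL]; simp [ρ]
  · rw [hL]; simp [ρ]

theorem cancel {k k' : ℕ} (h : (2 * π * Complex.I * k : ℂ) = 2 * π * Complex.I * k') : k = k' := by
  have := mul_left_cancel₀ two_pi_I_ne_zero h
  exact_mod_cast this

end wind

/-! ### Coordinates -/

theorem nsq (x : E4) : ‖x‖ ^ 2 = x 0 ^ 2 + x 1 ^ 2 + x 2 ^ 2 + x 3 ^ 2 := by
  rw [← real_inner_self_eq_norm_sq, inner4]; ring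

theorem unit_iff (x : E4) : ‖x‖ = 1 ↔ x 0 ^ 2 + x 1 ^ 2 + x 2 ^ 2 + x 3 ^ 2 = 1 := by
  rw [← nsq, pow_eq_one_iff_of_nonneg (norm_nonneg _) two_ne_zero]

theorem ext4 {x y : E4} (h0 : x 0 = y 0) (h1 : x 1 = y 1) (h2 : x 2 = y 2) (h3 : x 3 = y 3) :
    x = y := by
  ext i
  fin_cases i
  exacts [h0, h1, h2, h3]

theorem vv_eq (x n : E4) : vv x n = (aa (x + n) - aa x - aa n) / 2 := by
  simp only [vv, aa, PiLp.add_apply]; ring

theorem u12_sq (x n : E4) : u12 x n ^ 2 = aa x * aa n - vv x n ^ 2 := by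
  simp only [u12, aa, vv]; ring

theorem u34_sq (x n : E4) :
    u34 x n ^ 2 = (‖x‖ ^ 2 - aa x) * (‖n‖ ^ 2 - aa n) - (⟪x, n⟫_ℝ - vv x n) ^ 2 := by
  simp only [u34, aa, vv, nsq, inner4]; ring

theorem jet_gam {g : Iso} (hg : Gam g) (x n : E4) : jet (g x) (g n) = jet x n := by
  have h1 : vv (g x) (g n) = vv x n := by rw [vv_eq, vv_eq, ← map_add, hg, hg, hg]
  have h2 : |u12 (g x) (g n)| = |u12 x n| := by
    rw [← sq_eq_sq_iff_abs_eq_abs, u12_sq, u12_sq, h1, hg, hg]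
  have h3 : |u34 (g x) (g n)| = |u34 x n| := by
    rw [← sq_eq_sq_iff_abs_eq_abs, u34_sq, u34_sq, h1, hg, hg, g.norm_map, g.norm_map,
      g.inner_map_map]
  simp only [jet, h1, h2, h3, hg x]

theorem gam_symm {g : Iso} (hg : Gam g) : Gam g.symm := fun x => by
  rw [← hg, g.apply_symm_apply]

theorem gam_trans {g g' : Iso} (hg : Gam g) (hg' : Gam g') : Gam (g.trans g') := fun x => by
  rw [LinearIsometryEquiv.trans_apply, hg', hg]

/-! ### Invariance -/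

theorem d1_iso (g : Iso) (X : P2 → E4) : d1 (g ∘ X) = g ∘ d1 X := by
  funext y
  simp only [d1, Function.comp_apply, LinearIsometryEquiv.comp_fderiv]
  rfl

theorem d2_iso (g : Iso) (X : P2 → E4) : d2 (g ∘ X) = g ∘ d2 X := by
  funext y
  simp only [d2, Function.comp_apply, LinearIsometryEquiv.comp_fderiv]
  rfl

theorem minEq_iso (g : Iso) {X : P2 → E4} {y : P2} (h : MinEq X y) : MinEq (g ∘ X) y := by
  intro n h0 h1 h2
  obtain ⟨m, rfl⟩ := g.surjective n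
  simp only [d1_iso, d2_iso, Function.comp_apply, g.inner_map_map, g.norm_map] at h0 h1 h2 ⊢
  rw [← map_smul, ← map_smul, ← map_smul, ← map_sub, ← map_add, g.inner_map_map]
  exact h m h0 h1 h2

theorem min_iso (g : Iso) (S : Set E4) (h : IsMin S) : IsMin (g '' S) := by
  rintro _ ⟨p, hp, rfl⟩
  obtain ⟨U, X, hX, y, hy, rfl⟩ := h p hp
  refine ⟨U, g ∘ X, ⟨hX.isOpen, g.contDiff.comp_contDiffOn hX.smooth, fun y hy => ?_,
    fun y hy => ?_, g.injective.comp_injOn hX.inj, fun U' h1 h2 => ?_,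
    fun y hy => minEq_iso g (hX.minimal y hy)⟩, y, hy, rfl⟩
  · rw [Function.comp_apply, g.norm_map, hX.unit y hy]
  · rw [LinearIsometryEquiv.comp_fderiv]
    exact g.injective.comp (hX.imm y hy)
  · obtain ⟨V, hV, e⟩ := hX.rel U' h1 h2
    exact ⟨g '' V, g.toHomeomorph.isOpenMap V hV, by
      rw [image_comp, e, image_inter g.injective]⟩

theorem nor_iso (g : Iso) (S : Set E4) (p n : E4) (h : IsNor S p n) :
    IsNor (g '' S) (g p) (g n) := by
  refine ⟨by rw [g.norm_map, h.1], by rw [g.inner_map_map, h.2.1], ?_⟩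
  have e : map g (𝓝[S] p) = 𝓝[g '' S] (g p) := g.toHomeomorph.isEmbedding.map_nhdsWithin_eq S p
  rw [← e, isLittleO_map, ← isLittleO_norm_right]
  have := h.2.2.norm_right
  refine this.congr (fun x => ?_) fun x => ?_
  · rw [Function.comp_apply, g.inner_map_map]
  · rw [Function.comp_apply, ← map_sub, g.norm_map]

theorem betti_iso (g : Iso) (S : Set E4) : betti1 (g '' S) = betti1 S :=
  ((((AlgebraicTopology.singularHomologyFunctor (ModuleCat.{0} ℤ) 1).obj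
    (ModuleCat.of ℤ ℤ)).mapIso (TopCat.isoOfHomeo (X := TopCat.of ↥S) (Y := TopCat.of ↥(g '' S))
      (g.toHomeomorph.image S))).toLinearEquiv.finrank_eq).symm

/-! ### Jets -/

theorem mem_JS (x n : E4) (hx : ‖x‖ = 1) (hn : ‖n‖ = 1) (h : ⟪n, x⟫_ℝ = 0) (h0 : 0 < aa x)
    (h1 : aa x < 1) : jet x n ∈ JS := by
  refine ⟨h0, h1, abs_nonneg _, abs_nonneg _, abs_nonneg _, ?_⟩
  simp only [jet, sq_abs]
  rw [u12_sq, u34_sq, hx, hn, real_inner_comm, h]
  have : 1 - aa x ≠ 0 := by linarith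
  field_simp
  ring

/-- normal form of the point -/
def nx (a : ℝ) : E4 := !₂[√a, 0, √(1 - a), 0]

/-- normal form of the normal -/
def nn (j : J4) : E4 :=
  !₂[j.2.1 / √j.1, j.2.2.1 / √j.1, -j.2.1 / √(1 - j.1), j.2.2.2 / √(1 - j.1)]

theorem real_JS (j : J4) (hj : j ∈ JS) :
    ∃ x n : E4, ‖x‖ = 1 ∧ ‖n‖ = 1 ∧ ⟪n, x⟫_ℝ = 0 ∧ jet x n = j := by
  obtain ⟨a, v, s, t⟩ := j
  obtain ⟨h0, h1, hv, hs, ht, h⟩ := hj
  simp only at h0 h1 hv hs ht h
  have h2 : 0 < 1 - a := by linarith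
  have e1 : √a ^ 2 = a := Real.sq_sqrt h0.le
  have e2 : √(1 - a) ^ 2 = 1 - a := Real.sq_sqrt h2.le
  have p1 : 0 < √a := Real.sqrt_pos.2 h0
  have p2 : 0 < √(1 - a) := Real.sqrt_pos.2 h2
  refine ⟨nx a, nn (a, v, s, t), ?_, ?_, ?_, ?_⟩
  · rw [unit_iff]; simp [nx, e1, e2]
  · rw [unit_iff, ← h]
    simp [nn, div_pow, e1, e2]
    field_simp
    ring
  · rw [inner4]
    simp [nn, nx]
    field_simp
    ring
  · have a1 : aa (nx a) = a := by simp [aa, nx, e1]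
    have a2 : vv (nx a) (nn (a, v, s, t)) = v := by simp [vv, nx, nn]; field_simp
    have a3 : u12 (nx a) (nn (a, v, s, t)) = s := by simp [u12, nx, nn]; field_simp
    have a4 : u34 (nx a) (nn (a, v, s, t)) = t := by simp [u34, nx, nn]; field_simp
    rw [jet, a1, a2, a3, a4, abs_of_nonneg hv, abs_of_nonneg hs, abs_of_nonneg ht]

/-- an isometry that acts separately in the two planes -/
def blkO (c s c' s' e e' : ℝ) (h : c ^ 2 + s ^ 2 = 1) (h' : c' ^ 2 + s' ^ 2 = 1) (he : e ^ 2 = 1)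
    (he' : e' ^ 2 = 1) : Iso :=
  mkO ![!₂[c, -(e * s), 0, 0], !₂[s, e * c, 0, 0], !₂[0, 0, c', -(e' * s')], !₂[0, 0, s', e' * c']]
    (ortho4 _ fun i j => by
      fin_cases i <;> fin_cases j <;> simp <;>
        first
        | linear_combination h + s ^ 2 * he
        | linear_combination h + c ^ 2 * he
        | linear_combination h' + s' ^ 2 * he'
        | linear_combination h' + c' ^ 2 * he'
        | linear_combination (-(c * s)) * he
        | linear_combination (-(c' * s')) * he')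

theorem blkO_apply {c s c' s' e e' : ℝ} (h : c ^ 2 + s ^ 2 = 1) (h' : c' ^ 2 + s' ^ 2 = 1)
    (he : e ^ 2 = 1) (he' : e' ^ 2 = 1) (y : E4) : blkO c s c' s' e e' h h' he he' y =
      !₂[c * y 0 + s * y 1, e * (c * y 1 - s * y 0), c' * y 2 + s' * y 3,
        e' * (c' * y 3 - s' * y 2)] := by
  rw [blkO, mkO_apply]
  refine ext4 ?_ ?_ ?_ ?_ <;> simp <;> ring

theorem gam_blkO {c s c' s' e e' : ℝ} (h : c ^ 2 + s ^ 2 = 1) (h' : c' ^ 2 + s' ^ 2 = 1)
    (he : e ^ 2 = 1) (he' : e' ^ 2 = 1) : Gam (blkO c s c' s' e e' h h' he he') := fun y => by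
  rw [blkO_apply]
  simp [aa]
  linear_combination (y 0 ^ 2 + y 1 ^ 2) * h + (c * y 1 - s * y 0) ^ 2 * he

theorem exists_sign (t : ℝ) : ∃ e : ℝ, (e = 1 ∨ e = -1) ∧ e * t = |t| := by
  rcases le_total 0 t with h | h
  · exact ⟨1, Or.inl rfl, by rw [abs_of_nonneg h, one_mul]⟩
  · exact ⟨-1, Or.inr rfl, by rw [abs_of_nonpos h, neg_one_mul]⟩

theorem normal_form (x n : E4) (hx : ‖x‖ = 1) (h : ⟪n, x⟫_ℝ = 0) (h0 : 0 < aa x)
    (h1 : aa x < 1) : ∃ g : Iso, Gam g ∧ g x = nx (aa x) ∧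
      (g n = nn (jet x n) ∨ g n = -nn (jet x n)) := by
  have h2 : 0 < 1 - aa x := by linarith
  have e1 : √(aa x) ^ 2 = aa x := Real.sq_sqrt h0.le
  have e2 : √(1 - aa x) ^ 2 = 1 - aa x := Real.sq_sqrt h2.le
  have p1 : 0 < √(aa x) := Real.sqrt_pos.2 h0
  have p2 : 0 < √(1 - aa x) := Real.sqrt_pos.2 h2
  rw [unit_iff] at hx
  rw [inner4] at h
  have ha : aa x = x 0 ^ 2 + x 1 ^ 2 := rfl
  obtain ⟨σ, hσ, hv⟩ := exists_sign (vv x n)
  obtain ⟨e, he, hs⟩ := exists_sign (u12 x n)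
  obtain ⟨e', he', ht⟩ := exists_sign (u34 x n)
  have hσ2 : σ ^ 2 = 1 := by rcases hσ with rfl | rfl <;> norm_num
  have k1 : (x 0 / √(aa x)) ^ 2 + (x 1 / √(aa x)) ^ 2 = 1 := by
    rw [div_pow, div_pow, e1, ← add_div, ← ha, div_self h0.ne']
  have k2 : (x 2 / √(1 - aa x)) ^ 2 + (x 3 / √(1 - aa x)) ^ 2 = 1 := by
    rw [div_pow, div_pow, e2, ← add_div, div_eq_one_iff_eq h2.ne']
    linarith
  have k3 : (σ * e) ^ 2 = 1 := by rcases he with rfl | rfl <;> linear_combination hσ2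
  have k4 : (σ * e') ^ 2 = 1 := by rcases he' with rfl | rfl <;> linear_combination hσ2
  have key : blkO _ _ _ _ _ _ k1 k2 k3 k4 n = σ • nn (jet x n) := by
    rw [blkO_apply, jet, ← hv, ← hs, ← ht]
    refine ext4 ?_ ?_ ?_ ?_ <;> simp [nn, vv, u12, u34] <;> field_simp
    · linear_combination (-(x 0 * n 0 + x 1 * n 1)) * hσ2
    · linear_combination h + (x 0 * n 0 + x 1 * n 1) * hσ2
  refine ⟨blkO _ _ _ _ _ _ k1 k2 k3 k4, gam_blkO k1 k2 k3 k4, ?_, ?_⟩
  · rw [blkO_apply]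
    refine ext4 ?_ ?_ ?_ ?_ <;> simp [nx]
    · field_simp; linarith
    · right; ring
    · field_simp; linarith
    · right; ring
  · rw [key]
    rcases hσ with rfl | rfl
    · exact Or.inl (one_smul _ _)
    · exact Or.inr (neg_one_smul _ _)

theorem trans_jet (x n x' n' : E4) (hx : ‖x‖ = 1) (h : ⟪n, x⟫_ℝ = 0) (hx' : ‖x'‖ = 1)
    (h' : ⟪n', x'⟫_ℝ = 0) (h0 : 0 < aa x) (h1 : aa x < 1) (e : jet x n = jet x' n') :
    ∃ g : Iso, Gam g ∧ g x = x' ∧ (g n = n' ∨ g n = -n') := by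
  have ea : aa x = aa x' := congrArg Prod.fst e
  obtain ⟨g, hg, a1, a2⟩ := normal_form x n hx h h0 h1
  obtain ⟨g', hg', b1, b2⟩ := normal_form x' n' hx' h' (ea ▸ h0) (ea ▸ h1)
  refine ⟨g.trans g'.symm, gam_trans hg (gam_symm hg'), ?_, ?_⟩
  · rw [LinearIsometryEquiv.trans_apply, a1, ea, ← b1, g'.symm_apply_apply]
  · simp only [LinearIsometryEquiv.trans_apply, LinearIsometryEquiv.symm_apply_eq, map_neg]
    rw [e] at a2
    rcases a2 with a2 | a2 <;> rcases b2 with b2 | b2 <;> simp [a2, b2]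

theorem swap_jet (x n : E4) (hx : ‖x‖ = 1) (h : ⟪n, x⟫_ℝ = 0) :
    jet (sw x) (sw n) = (1 - aa x, |vv x n|, |u34 x n|, |u12 x n|) := by
  rw [unit_iff] at hx
  rw [inner4] at h
  have a1 : aa (sw x) = 1 - aa x := by simp [aa, sw, mkO_apply]; linarith
  have a2 : vv (sw x) (sw n) = -vv x n := by simp [vv, sw, mkO_apply]; linarith
  have a3 : u12 (sw x) (sw n) = u34 x n := by simp [u12, u34, sw, mkO_apply]
  have a4 : u34 (sw x) (sw n) = u12 x n := by simp [u12, u34, sw, mkO_apply]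
  rw [jet, a1, a2, a3, a4, abs_neg]

/-! ### Radial graphs -/

theorem fderiv_rX {ϱ : P2 → ℝ} (φ θ : ℝ) {x : P2} (h : DifferentiableAt ℝ ϱ x) (v : P2) :
    fderiv ℝ (rX ϱ φ θ) x v =
      !₂[-Real.sin (ϱ x) * fderiv ℝ ϱ x v * Real.cos (θ + x.2)
          - Real.cos (ϱ x) * Real.sin (θ + x.2) * v.2,
        -Real.sin (ϱ x) * fderiv ℝ ϱ x v * Real.sin (θ + x.2)
          + Real.cos (ϱ x) * Real.cos (θ + x.2) * v.2,
        Real.cos (ϱ x) * fderiv ℝ ϱ x v * Real.cos (φ + x.1)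
          - Real.sin (ϱ x) * Real.sin (φ + x.1) * v.1,
        Real.cos (ϱ x) * fderiv ℝ ϱ x v * Real.sin (φ + x.1)
          + Real.sin (ϱ x) * Real.cos (φ + x.1) * v.1] := by
  have hr := h.hasFDerivAt
  have h1 : HasFDerivAt (fun x : P2 => φ + x.1) (ContinuousLinearMap.fst ℝ ℝ ℝ) x :=
    hasFDerivAt_fst.const_add φ
  have h2 : HasFDerivAt (fun x : P2 => θ + x.2) (ContinuousLinearMap.snd ℝ ℝ ℝ) x :=
    hasFDerivAt_snd.const_add θ
  have c0 := hr.cos.mul h2.cos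
  have c1 := hr.cos.mul h2.sin
  have c2 := hr.sin.mul h1.cos
  have c3 := hr.sin.mul h1.sin
  have hd : DifferentiableAt ℝ (rX ϱ φ θ) x := differentiableAt_euclidean.2 fun i => by
    fin_cases i
    exacts [c0.differentiableAt, c1.differentiableAt, c2.differentiableAt, c3.differentiableAt]
  have hi : ∀ i, HasFDerivAt (fun y => rX ϱ φ θ y i)
      ((EuclideanSpace.proj i : E4 →L[ℝ] ℝ).comp (fderiv ℝ (rX ϱ φ θ) x)) x := fun i =>
    (EuclideanSpace.proj i : E4 →L[ℝ] ℝ).hasFDerivAt.comp x hd.hasFDerivAt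
  have e0 := DFunLike.congr_fun ((hi 0).unique c0) v
  have e1 := DFunLike.congr_fun ((hi 1).unique c1) v
  have e2 := DFunLike.congr_fun ((hi 2).unique c2) v
  have e3 := DFunLike.congr_fun ((hi 3).unique c3) v
  simp at e0 e1 e2 e3
  refine ext4 ?_ ?_ ?_ ?_ <;> simp [e0, e1, e2, e3] <;> ring

theorem one_le_W (r p q : ℝ) : 1 ≤ 1 + p ^ 2 / Real.sin r ^ 2 + q ^ 2 / Real.cos r ^ 2 := by
  have h1 : 0 ≤ p ^ 2 / Real.sin r ^ 2 := by positivity
  have h2 : 0 ≤ q ^ 2 / Real.cos r ^ 2 := by positivity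
  linarith

theorem rad (ϱ : P2 → ℝ) (φ θ : ℝ) (x : P2) (n : E4) (h : DifferentiableAt ℝ ϱ x) (h0 : 0 < ϱ x)
    (h1 : ϱ x < π / 2) : Function.Injective (fderiv ℝ (rX ϱ φ θ) x) ∧ (‖n‖ = 1 →
    ⟪n, rX ϱ φ θ x⟫_ℝ = 0 → ⟪n, d1 (rX ϱ φ θ) x⟫_ℝ = 0 → ⟪n, d2 (rX ϱ φ θ) x⟫_ℝ = 0 →
    jet (rX ϱ φ θ x) n = rj (ϱ x) (d1 ϱ x) (d2 ϱ x)) := by
  have hs : 0 < Real.sin (ϱ x) := Real.sin_pos_of_pos_of_lt_pi h0 (by linarith [Real.pi_pos])
  have hc : 0 < Real.cos (ϱ x) := Real.cos_pos_of_mem_Ioo ⟨by linarith, h1⟩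
  have t0 := Real.sin_sq_add_cos_sq (ϱ x)
  have t1 := Real.sin_sq_add_cos_sq (φ + x.1)
  have t2 := Real.sin_sq_add_cos_sq (θ + x.2)
  constructor
  · rw [injective_iff_map_eq_zero]
    intro v hv
    rw [fderiv_rX φ θ h] at hv
    have e0 := congrArg (fun y : E4 => y 0) hv
    have e1 := congrArg (fun y : E4 => y 1) hv
    have e2 := congrArg (fun y : E4 => y 2) hv
    have e3 := congrArg (fun y : E4 => y 3) hv
    simp at e0 e1 e2 e3
    have a1 : Real.sin (ϱ x) * v.1 = 0 := by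
      linear_combination Real.cos (φ + x.1) * e3 - Real.sin (φ + x.1) * e2 -
        Real.sin (ϱ x) * v.1 * t1
    have a2 : Real.cos (ϱ x) * v.2 = 0 := by
      linear_combination Real.cos (θ + x.2) * e1 - Real.sin (θ + x.2) * e0 -
        Real.cos (ϱ x) * v.2 * t2
    exact Prod.ext ((mul_eq_zero.1 a1).resolve_left hs.ne') ((mul_eq_zero.1 a2).resolve_left hc.ne')
  · intro hn a0 a1 a2
    rw [unit_iff] at hn
    rw [d1, fderiv_rX φ θ h] at a1
    rw [d2, fderiv_rX φ θ h] at a2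
    rw [inner4] at a0 a1 a2
    simp [rX, pol] at a0 a1 a2
    change _ = rj (ϱ x) (fderiv ℝ ϱ x (1, 0)) (fderiv ℝ ϱ x (0, 1))
    generalize fderiv ℝ ϱ x (1, 0) = p at *
    generalize fderiv ℝ ϱ x (0, 1) = q at *
    have b0 : aa (rX ϱ φ θ x) = Real.cos (ϱ x) ^ 2 := by
      simp [aa, rX, pol]
      linear_combination Real.cos (ϱ x) ^ 2 * t2
    have b1 : vv (rX ϱ φ θ x) n =
        Real.cos (ϱ x) * (Real.cos (θ + x.2) * n 0 + Real.sin (θ + x.2) * n 1) := by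
      simp [vv, rX, pol]; ring
    have b2 : u12 (rX ϱ φ θ x) n =
        Real.cos (ϱ x) * (Real.cos (θ + x.2) * n 1 - Real.sin (θ + x.2) * n 0) := by
      simp [u12, rX, pol]; ring
    have b3 : u34 (rX ϱ φ θ x) n =
        Real.sin (ϱ x) * (Real.cos (φ + x.1) * n 3 - Real.sin (φ + x.1) * n 2) := by
      simp [u34, rX, pol]; ring
    rw [jet, rj, b0, b1, b2, b3]
    have hW := one_le_W (ϱ x) p q
    generalize Real.sin (ϱ x) = s at *
    generalize Real.cos (ϱ x) = c at *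
    generalize Real.sin (φ + x.1) = s1 at *
    generalize Real.cos (φ + x.1) = c1 at *
    generalize Real.sin (θ + x.2) = s2 at *
    generalize Real.cos (θ + x.2) = c2 at *
    obtain ⟨A, hA⟩ : ∃ A, A = -s * (c2 * n 0 + s2 * n 1) + c * (c1 * n 2 + s1 * n 3) := ⟨_, rfl⟩
    have f1 : c2 * n 0 + s2 * n 1 = -s * A := by
      rw [hA]; linear_combination c * a0 - (c2 * n 0 + s2 * n 1) * t0
    have f2 : c1 * n 2 + s1 * n 3 = c * A := by
      rw [hA]; linear_combination s * a0 - (c1 * n 2 + s1 * n 3) * t0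
    have f3 : c * (c2 * n 1 - s2 * n 0) = -q * A := by rw [hA]; linear_combination a2
    have f4 : s * (c1 * n 3 - s1 * n 2) = -p * A := by rw [hA]; linear_combination a1
    have f5 : c2 * n 1 - s2 * n 0 = -q * A / c := by rw [← f3]; field_simp
    have f6 : c1 * n 3 - s1 * n 2 = -p * A / s := by rw [← f4]; field_simp
    have g1 : A ^ 2 * (1 + p ^ 2 / s ^ 2 + q ^ 2 / c ^ 2) = 1 := by
      have : (c2 * n 0 + s2 * n 1) ^ 2 + (c2 * n 1 - s2 * n 0) ^ 2 + (c1 * n 2 + s1 * n 3) ^ 2 +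
          (c1 * n 3 - s1 * n 2) ^ 2 = 1 := by
        linear_combination hn + (n 0 ^ 2 + n 1 ^ 2) * t2 + (n 2 ^ 2 + n 3 ^ 2) * t1
      rw [f1, f2, f5, f6] at this
      linear_combination this - A ^ 2 * t0
    have pW : 0 < √(1 + p ^ 2 / s ^ 2 + q ^ 2 / c ^ 2) := Real.sqrt_pos.2 (by linarith)
    have g2 : |A| = (√(1 + p ^ 2 / s ^ 2 + q ^ 2 / c ^ 2))⁻¹ := by
      refine eq_inv_of_mul_eq_one_left ?_
      rw [← Real.sqrt_sq_eq_abs, ← Real.sqrt_mul (sq_nonneg _), g1, Real.sqrt_one]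
    rw [f1, f3, f4]
    simp only [abs_mul, abs_neg, abs_of_pos hs, abs_of_pos hc, g2, div_eq_mul_inv, Prod.mk.injEq,
      true_and, and_true]
    ring

theorem rj_mem (r p q : ℝ) (h0 : 0 < r) (h1 : r < π / 2) : rj r p q ∈ JS := by
  have hs : 0 < Real.sin r := Real.sin_pos_of_pos_of_lt_pi h0 (by linarith [Real.pi_pos])
  have hc : 0 < Real.cos r := Real.cos_pos_of_mem_Ioo ⟨by linarith, h1⟩
  have t0 := Real.sin_sq_add_cos_sq r
  have hW := one_le_W r p q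
  have e : 1 - Real.cos r ^ 2 = Real.sin r ^ 2 := by linarith
  refine ⟨pow_pos hc 2, ?_, by simp only [rj]; positivity, by simp only [rj]; positivity,
    by simp only [rj]; positivity, ?_⟩
  · simp only [rj]; nlinarith
  · simp only [rj, div_pow, sq_abs, e]
    rw [Real.sq_sqrt (by linarith)]
    generalize hw : 1 + p ^ 2 / Real.sin r ^ 2 + q ^ 2 / Real.cos r ^ 2 = W at hW ⊢
    have : W ≠ 0 := by linarith
    have e2 : (Real.sin r * Real.cos r) ^ 2 / W / (Real.cos r ^ 2 * Real.sin r ^ 2) +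
        q ^ 2 / W / Real.cos r ^ 2 + p ^ 2 / W / Real.sin r ^ 2 =
        (1 + p ^ 2 / Real.sin r ^ 2 + q ^ 2 / Real.cos r ^ 2) / W := by
      field_simp
      ring
    rw [e2, hw, div_self this]

end BWind

open BWind in
theorem windS : WindS := by
  refine ⟨fun G r c k hr hk hG h => ?_, fun G r r' c c' k k' hr hrr hk hG h h' => ?_⟩
  · by_contra hne
    push Not at hne
    obtain ⟨L, M, hL, hM, e1, e2, e⟩ := homot G le_rfl hr.le (hG.mono sdiff_subset) fun z hz => by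
      rcases (mem_closedBall_zero_iff.1 hz.1).lt_or_eq with h1 | h1
      · exact hne z (mem_ball_zero_iff.2 h1)
      · intro h0
        have := h z (mem_sphere_zero_iff_norm.2 h1)
        rw [h0, zero_sub, norm_neg, norm_mul, norm_pow, h1] at this
        exact lt_irrefl _ this
    have k1 := lift_uniq L (fun _ => 0) hL continuous_const (G 0) fun t => by
      rw [e1]; simp
    rw [incr G hr c k h M hM e2, k1] at e
    have : 0 = k := cancel (by simpa using e)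
    omega
  · by_contra hne
    push Not at hne
    obtain ⟨L, M, hL, hM, e1, e2, e⟩ := homot G hr.le hrr.le hG hne
    rw [incr G hr c k h L hL e1, incr G (hr.trans hrr) c' k' h' M hM e2] at e
    exact hk (cancel e)

open BWind in
theorem invS : InvS where
  min := min_iso
  nor := nor_iso
  betti := betti_iso
  neg x n := by
    have a1 : vv x (-n) = -vv x n := by simp [vv]; ring
    have a2 : u12 x (-n) = -u12 x n := by simp [u12]; ring
    have a3 : u34 x (-n) = -u34 x n := by simp [u34]; ring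
    rw [jet, jet, a1, a2, a3, abs_neg, abs_neg, abs_neg]
  gam g hg := ⟨gam_symm hg, fun _ hg' => gam_trans hg hg', jet_gam hg⟩
  gams := by
    refine ⟨fun θ φ x => ?_, fun x => ?_, fun x => ?_, fun x => ?_, fun x => ?_⟩
    · simp [aa, rot, mkO_apply]
      linear_combination (x 0 ^ 2 + x 1 ^ 2) * Real.sin_sq_add_cos_sq θ
    · simp [aa, sx, mkO_apply]; ring
    · simp [aa, rf0, mkO_apply]
    · simp [aa, rf1, mkO_apply]
    · simp [aa, rf3, mkO_apply]
  mem := mem_JS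
  real := real_JS
  trans x n x' n' hx _ h hx' _ h' := trans_jet x n x' n' hx h hx' h'
  swap := swap_jet
  rad := rad
  rjm := rj_mem

end Pool.Agent.Lib.MP_16d934_gt
end
end

-- part Pool.Agent.Lib.MP_16d934_gt.CCount
section

/-! The final count on the disc. -/

set_option autoImplicit false

open Set Metric Filter Topology
open scoped Real

noncomputable section

namespace Pool.Agent.Lib.MP_16d934_gt

namespace CCount

/-- the closed unit disc -/
abbrev DD : Set ℂ := closedBall 0 1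

lemma norm_cis (a : ℝ) : ‖cis a‖ = 1 := Complex.norm_exp_ofReal_mul_I a

lemma cis_add (a b : ℝ) : cis (a + b) = cis a * cis b := by
  simp [cis, add_mul, Complex.exp_add]

lemma cis_zero : cis 0 = 1 := by simp [cis]

lemma cis_pi : cis π = -1 := Complex.exp_pi_mul_I

lemma cis_per (a : ℝ) : cis (a + 2 * π) = cis a := by
  have : cis (2 * π) = 1 := by simp [cis]
  rw [cis_add, this, mul_one]

lemma cis_mem (a : ℝ) : cis a ∈ DD := by simp [norm_cis]

lemma continuous_cis : Continuous cis := by unfold cis; fun_prop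

lemma cis_ne {a b : ℝ} (h1 : a < b) (h2 : b < a + 2 * π) : cis b ≠ cis a := fun h => by
  obtain ⟨n, hn⟩ := Complex.exp_eq_exp_iff_exists_int.1 h
  have e : b = a + n * (2 * π) := by simpa using congrArg Complex.im hn
  have hp := Real.pi_pos
  have h3 : (0 : ℝ) < n := by nlinarith
  have h4 : (n : ℝ) < 1 := by nlinarith
  have h5 : 0 < n := by exact_mod_cast h3
  have h6 : n < 1 := by exact_mod_cast h4
  omega

lemma mem_Hd {δ s β : ℝ} (hs : s ∈ Icc 0 δ) (hβ : β ∈ Icc 0 π) : (s : ℂ) * cis β ∈ Hd δ := by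
  refine ⟨by simpa [norm_cis, abs_of_nonneg hs.1] using hs.2, ?_⟩
  rw [Complex.im_ofReal_mul, cis, Complex.exp_ofReal_mul_I_im]
  exact mul_nonneg hs.1 (Real.sin_nonneg_of_mem_Icc hβ)

lemma curve {f : ℝ → ℂ} {u v : ℝ} (h : ContinuousOn f (uIcc u v)) :
    JoinedIn (f '' uIcc u v) (f u) (f v) :=
  (((convex_uIcc u v).isPathConnected nonempty_uIcc).image' h).joinedIn _
    (mem_image_of_mem f left_mem_uIcc) _ (mem_image_of_mem f right_mem_uIcc)

lemma cpt {F : Set ℂ} {x y : ℂ} (h : JoinedIn F x y) :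
    ∃ T, IsClosed T ∧ T ⊆ F ∧ JoinedIn T x y := by
  obtain ⟨γ, hγ⟩ := h
  exact ⟨range γ, (isCompact_range γ.continuous).isClosed, range_subset_iff.2 hγ, γ,
    fun t => ⟨t, rfl⟩⟩

/-- Descent to a local minimum. -/
lemma valley {f : ℂ → ℝ} (hf : ContinuousOn f DD) {x : ℂ} (hx : x ∈ DD) {c : ℝ} (hc : f x < c) :
    ∃ p, JoinedIn (DD ∩ {y | f y < c}) x p ∧ ∃ V ∈ 𝓝 p, ∀ y ∈ DD ∩ V, f p ≤ f y := by
  set U := DD ∩ {y | f y < c} with hU
  have loc : ∀ y ∈ U, ∃ r > 0, ∀ z ∈ DD ∩ ball y r, JoinedIn U y z := fun y hy => by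
    obtain ⟨r, hr, h⟩ := Metric.mem_nhdsWithin_iff.1
      ((hf y hy.1).eventually (gt_mem_nhds (show f y < c from hy.2)))
    refine ⟨r, hr, fun z hz => JoinedIn.of_segment_subset fun w hw => ?_⟩
    have := ((convex_closedBall (0 : ℂ) 1).inter (convex_ball y r)).segment_subset
      ⟨hy.1, mem_ball_self hr⟩ hz hw
    exact ⟨this.1, h ⟨this.2, this.1⟩⟩
  set K := {y | JoinedIn U x y} ∩ {y | f y ≤ f x} with hK
  have h0 : IsClosed (DD ∩ f ⁻¹' Iic (f x)) :=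
    hf.preimage_isClosed_of_isClosed isClosed_closedBall isClosed_Iic
  have h1 : K ⊆ DD ∩ f ⁻¹' Iic (f x) := fun y hy => ⟨hy.1.target_mem.1, hy.2⟩
  have h2 : IsClosed K := isClosed_of_closure_subset fun y hy => by
    have h3 := h0.closure_subset_iff.2 h1 hy
    obtain ⟨r, hr, h⟩ := loc y ⟨h3.1, lt_of_le_of_lt h3.2 hc⟩
    obtain ⟨z, hz, hd⟩ := Metric.mem_closure_iff.1 hy r hr
    exact ⟨hz.1.trans (h z ⟨(h1 hz).1, mem_ball'.2 hd⟩).symm, h3.2⟩
  have h3 : K ⊆ DD := fun y hy => (h1 hy).1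
  obtain ⟨p, hp, hm⟩ := ((isCompact_closedBall (0 : ℂ) 1).of_isClosed_subset h2 h3).exists_isMinOn
    ⟨x, JoinedIn.refl ⟨hx, hc⟩, le_refl (f x)⟩ (hf.mono h3)
  obtain ⟨r, hr, h⟩ := loc p hp.1.target_mem
  refine ⟨p, hp.1, ball p r, ball_mem_nhds p hr, fun y hy => ?_⟩
  rcases le_total (f y) (f x) with h4 | h4
  · exact hm ⟨hp.1.trans (h y hy), h4⟩
  · exact le_trans hp.2 h4

/-! Local data at a boundary point -/

section loc
variable {κ : ℂ → ℂ} {δ a : ℝ}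

lemma angle (hδ : 0 < δ) (hc : ContinuousOn κ (Hd δ)) (hi : InjOn κ (Hd δ)) (h0 : κ 0 = cis a)
    (hn : ∀ s ∈ Icc (-δ) δ, ‖κ (s : ℝ)‖ = 1) : ∃ u v : ℝ, ((u = 0 ∧ v = π) ∨ (u = π ∧ v = 0)) ∧
      ∀ η > 0, ∀ᶠ s : ℝ in 𝓝[>] 0, (∃ t ∈ Ioo (-η) 0, κ (s * cis u) = cis (a + t)) ∧
        ∃ t ∈ Ioo 0 η, κ (s * cis v) = cis (a + t) := by
  have m : ∀ s ∈ Icc (-δ) δ, ((s : ℝ) : ℂ) ∈ Hd δ := fun s hs =>
    ⟨by simpa using abs_le.2 hs, by simp⟩
  set g : ℝ → ℂ := fun s => κ s * cis (-a) with hg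
  have g0 : g 0 = 1 := by simp [hg, h0, ← cis_add, cis_zero]
  have gc : ContinuousOn g (Icc (-δ) δ) :=
    (hc.comp Complex.continuous_ofReal.continuousOn m).mul continuousOn_const
  have ga : ContinuousAt g 0 := gc.continuousAt (Icc_mem_nhds (by linarith) hδ)
  obtain ⟨r, hr, h1⟩ := Metric.eventually_nhds_iff.1 ((ga.eventually (Complex.isOpen_slitPlane.mem_nhds
    (g0 ▸ Complex.one_mem_slitPlane))).and (Icc_mem_nhds (show -δ < 0 by linarith) hδ))
  have h2 : ∀ s ∈ Icc (-(r / 2)) (r / 2), g s ∈ Complex.slitPlane ∧ s ∈ Icc (-δ) δ := fun s hs =>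
    h1 (by rw [Real.dist_eq, sub_zero]; exact (abs_le.2 hs).trans_lt (by linarith))
  set θ : ℝ → ℝ := fun s => (g s).arg with hθ
  have e : ∀ s ∈ Icc (-δ) δ, κ s = cis (a + θ s) := fun s hs => by
    have h3 := Complex.norm_mul_exp_arg_mul_I (g s)
    have h4 : ‖g s‖ = 1 := by simp [hg, hn s hs, norm_cis]
    rw [h4, Complex.ofReal_one, one_mul] at h3
    rw [cis_add, show cis (θ s) = g s from h3, hg, mul_left_comm, ← cis_add, add_neg_cancel,
      cis_zero, mul_one]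
  have t0 : θ 0 = 0 := by simp [hθ, g0]
  have tc : ContinuousOn θ (Icc (-(r / 2)) (r / 2)) := fun s hs =>
    (Complex.continuousAt_arg (h2 s hs).1).comp_continuousWithinAt
      ((gc s (h2 s hs).2).mono fun t ht => (h2 t ht).2)
  have ti : InjOn θ (Icc (-(r / 2)) (r / 2)) := fun s hs t ht h => by
    have := hi (m s (h2 s hs).2) (m t (h2 t ht).2) (by rw [e s (h2 s hs).2, e t (h2 t ht).2, h])
    exact_mod_cast this
  have ta : Tendsto θ (𝓝 0) (𝓝 0) := by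
    simpa [t0] using (tc.continuousAt (Icc_mem_nhds (show -(r / 2) < (0 : ℝ) by linarith)
      (show (0 : ℝ) < r / 2 by linarith))).tendsto
  have ev : ∀ η > 0, ∀ᶠ s : ℝ in 𝓝[>] 0, s ∈ Ioo 0 (r / 2) ∧ θ s ∈ Ioo (-η) η ∧
      θ (-s) ∈ Ioo (-η) η := fun η hη => by
    have h3 := ta.eventually (Ioo_mem_nhds (show -η < 0 by linarith) hη)
    have h4 : Tendsto (fun s : ℝ => -s) (𝓝 0) (𝓝 0) := by simpa using continuous_neg.tendsto (0 : ℝ)
    exact (Filter.Eventually.and (Ioo_mem_nhdsGT (by linarith))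
      ((h3.and (h4.eventually h3)).filter_mono nhdsWithin_le_nhds))
  have z0 : (0 : ℝ) ∈ Icc (-(r / 2)) (r / 2) := ⟨by linarith, by linarith⟩
  have z1 : ∀ s ∈ Ioo 0 (r / 2), s ∈ Icc (-(r / 2)) (r / 2) ∧ -s ∈ Icc (-(r / 2)) (r / 2) :=
    fun s hs => ⟨⟨by linarith [hs.1], hs.2.le⟩, by linarith [hs.2], by linarith [hs.1]⟩
  have e1 : ∀ s ∈ Ioo 0 (r / 2), κ (s * cis 0) = cis (a + θ s) ∧
      κ (s * cis π) = cis (a + θ (-s)) := fun s hs => by
    rw [cis_zero, cis_pi, mul_one, mul_neg_one, ← Complex.ofReal_neg]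
    exact ⟨e _ (h2 _ (z1 s hs).1).2, e _ (h2 _ (z1 s hs).2).2⟩
  rcases tc.strictMonoOn_of_injOn_Icc' (by linarith) ti with h | h
  · refine ⟨π, 0, Or.inr ⟨rfl, rfl⟩, fun η hη => ?_⟩
    filter_upwards [ev η hη] with s ⟨h3, h4, h5⟩
    exact ⟨⟨_, ⟨h5.1, t0 ▸ h (z1 s h3).2 z0 (by linarith [h3.1])⟩, (e1 s h3).2⟩,
      _, ⟨t0 ▸ h z0 (z1 s h3).1 h3.1, h4.2⟩, (e1 s h3).1⟩
  · refine ⟨0, π, Or.inl ⟨rfl, rfl⟩, fun η hη => ?_⟩
    filter_upwards [ev η hη] with s ⟨h3, h4, h5⟩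
    exact ⟨⟨_, ⟨h4.1, t0 ▸ h z0 (z1 s h3).1 h3.1⟩, (e1 s h3).1⟩,
      _, ⟨t0 ▸ h (z1 s h3).2 z0 (by linarith [h3.1]), h5.2⟩, (e1 s h3).2⟩

lemma ray_cont (hc : ContinuousOn κ (Hd δ)) {β : ℝ} (hβ : β ∈ Icc 0 π) :
    ContinuousOn (fun s : ℝ => κ (s * cis β)) (Icc 0 δ) :=
  hc.comp (by fun_prop) fun _ hs => mem_Hd hs hβ

lemma port (hδ : 0 < δ) (hc : ContinuousOn κ (Hd δ)) (hi : InjOn κ (Hd δ))
    (hm : MapsTo κ (Hd δ) DD) {u β β₂ : ℝ} (hu : u ∈ Icc 0 π) (hβ : β ∈ Icc 0 π)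
    (h2 : β₂ ∈ Ioo 0 π) (hn : β₂ ∉ uIcc u β) {Up K : Set ℂ}
    (hr : ∀ s ∈ Ioc 0 δ, κ (s * cis β) ∈ Up) (hK : IsClosed K) (h0 : κ 0 ∉ K) :
    ∀ᶠ s : ℝ in 𝓝[>] 0, ∃ P ⊆ DD, Disjoint P (K ∪ spoke κ δ β₂) ∧
      JoinedIn (P ∪ Up) (κ (s * cis u)) (κ (δ * cis β)) := by
  obtain ⟨r, hr0, h1⟩ := Metric.mem_nhdsWithin_iff.1 ((hc 0 ⟨by simpa using hδ.le, by simp⟩).eventually
    (hK.isOpen_compl.mem_nhds h0))
  filter_upwards [Ioo_mem_nhdsGT (lt_min hr0 hδ)] with s hs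
  have s1 : s ∈ Icc 0 δ := ⟨hs.1.le, (hs.2.trans_le (min_le_right _ _)).le⟩
  have m : ∀ t ∈ uIcc u β, (s : ℂ) * cis t ∈ Hd δ := fun t ht =>
    mem_Hd s1 (uIcc_subset_Icc hu hβ ht)
  have nr : ∀ t x : ℝ, 0 ≤ x → ‖(x : ℂ) * cis t‖ = x := fun t x hx => by
    simp [norm_cis, abs_of_nonneg hx]
  refine ⟨(fun t => κ (s * cis t)) '' uIcc u β, image_subset_iff.2 fun t ht => hm (m t ht), ?_, ?_⟩
  · rw [disjoint_left]
    rintro _ ⟨t, ht, rfl⟩ (h | ⟨x, hx, h⟩)
    · exact h1 ⟨mem_ball_zero_iff.2 (by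
        rw [nr t s s1.1]; exact hs.2.trans_le (min_le_left _ _)), m t ht⟩ h
    · have h3 := hi (mem_Hd hx (Ioo_subset_Icc_self h2)) (m t ht) h
      have h4 : x = s := by rw [← nr β₂ x hx.1, h3, nr t s s1.1]
      rw [h4] at h3
      have h5 := mul_left_cancel₀ (Complex.ofReal_ne_zero.2 hs.1.ne') h3
      have h6 := uIcc_subset_Icc hu hβ ht
      rcases lt_trichotomy t β₂ with h7 | h7 | h7
      · exact cis_ne h7 (by linarith [h2.2, h6.1, Real.pi_pos]) h5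
      · exact hn (h7 ▸ ht)
      · exact cis_ne h7 (by linarith [h2.1, h6.2, Real.pi_pos]) h5.symm
  · have c1 : ContinuousOn (fun t => κ (s * cis t)) (uIcc u β) :=
      hc.comp (continuous_const.mul continuous_cis).continuousOn m
    have c2 : uIcc s δ ⊆ Ioc 0 δ := by
      rw [uIcc_of_le s1.2]
      exact Icc_subset_Ioc_left hs.1
    exact ((curve c1).mono subset_union_left).trans
      ((curve ((ray_cont hc hβ).mono (c2.trans Ioc_subset_Icc_self))).mono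
        ((image_subset_iff.2 fun t ht => hr t (c2 ht)).trans subset_union_right))

end loc

/-- the part of the disc on one side of the level of `m` -/
def Up (R : ℂ → ℝ) (ε : ℝ) (m : ℂ) : Set ℂ := DD ∩ {y | 0 < ε * (R y - R m)}

/-- a boundary point in direction `I` is joined to `Y` off `K` or inside `U` -/
def Port (a : ℝ) (I : Set ℝ) (K U : Set ℂ) (Y : ℂ) : Prop :=
  ∃ t ∈ I, ∃ P ⊆ DD, Disjoint P K ∧ JoinedIn (P ∪ U) (cis (a + t)) Y

/-- the local data at the boundary point of angle `a` -/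
structure Loc (R : ℂ → ℝ) (a ε : ℝ) (S : Set ℂ) (x Yl Yr : ℂ) : Prop where
  cl : IsClosed S
  sub : S ⊆ DD
  jn : JoinedIn S (cis a) x
  dn : ∀ y ∈ S, y = cis a ∨ ε * (R y - R (cis a)) < 0
  xd : ε * (R x - R (cis a)) < 0
  yl : Yl ∈ Up R ε (cis a)
  yr : Yr ∈ Up R ε (cis a)
  pt : ∀ K, IsClosed K → cis a ∉ K → ∀ η > 0,
    Port a (Ioo (-η) 0) (K ∪ S) (Up R ε (cis a)) Yl ∧ Port a (Ioo 0 η) (K ∪ S) (Up R ε (cis a)) Yr

lemma loc {R : ℂ → ℝ} {κ : ℂ → ℂ} {δ a : ℝ} (hδ : 0 < δ) (hc : ContinuousOn κ (Hd δ))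
    (hi : InjOn κ (Hd δ)) (hm : MapsTo κ (Hd δ) DD) (h0 : κ 0 = cis a)
    (hn : ∀ s ∈ Icc (-δ) δ, ‖κ (s : ℝ)‖ = 1) (hr : Rays R κ δ) :
    ∃ ε S x Yl Yr, (ε = 1 ∨ ε = -1) ∧ Loc R a ε S x Yl Yr := by
  obtain ⟨β₁, β₂, β₃, ε, b0, b1, b2, b3, hε, h⟩ := hr
  rw [h0] at h
  have m1 : β₁ ∈ Icc 0 π := ⟨b0.le, by linarith⟩
  have m2 : β₂ ∈ Ioo 0 π := ⟨by linarith, by linarith⟩
  have m3 : β₃ ∈ Icc 0 π := ⟨by linarith, b3.le⟩
  have u1 : ∀ s ∈ Ioc 0 δ, κ (s * cis β₁) ∈ Up R ε (cis a) := fun s hs =>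
    ⟨hm (mem_Hd (Ioc_subset_Icc_self hs) m1), (h s hs).1⟩
  have u3 : ∀ s ∈ Ioc 0 δ, κ (s * cis β₃) ∈ Up R ε (cis a) := fun s hs =>
    ⟨hm (mem_Hd (Ioc_subset_Icc_self hs) m3), (h s hs).2.2⟩
  have hd : δ ∈ Ioc 0 δ := ⟨hδ, le_rfl⟩
  have c2 := ray_cont hc (Ioo_subset_Icc_self m2)
  have p1 := fun K hK h0 => port hδ hc hi hm (u := 0) ⟨le_rfl, Real.pi_pos.le⟩ m1 m2
    (by rw [uIcc_of_le b0.le]; exact fun h => by linarith [h.2]) (K := K) u1 hK h0
  have p3 := fun K hK h0 => port hδ hc hi hm (u := π) ⟨Real.pi_pos.le, le_rfl⟩ m3 m2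
    (by rw [uIcc_of_ge b3.le]; exact fun h => by linarith [h.1]) (K := K) u3 hK h0
  have key : ∀ Yl Yr, Yl ∈ Up R ε (cis a) → Yr ∈ Up R ε (cis a) →
      (∀ K, IsClosed K → cis a ∉ K → ∀ η > 0,
        Port a (Ioo (-η) 0) (K ∪ spoke κ δ β₂) (Up R ε (cis a)) Yl ∧
          Port a (Ioo 0 η) (K ∪ spoke κ δ β₂) (Up R ε (cis a)) Yr) →
      Loc R a ε (spoke κ δ β₂) (κ (δ * cis β₂)) Yl Yr := fun Yl Yr h1 h2 h3 => by
    refine ⟨(isCompact_Icc.image_of_continuousOn c2).isClosed,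
      image_subset_iff.2 fun s hs => hm (mem_Hd hs (Ioo_subset_Icc_self m2)), ?_, ?_,
      (h δ hd).2.1, h1, h2, h3⟩
    · have := curve (f := fun s : ℝ => κ (s * cis β₂)) (u := 0) (v := δ) (by
        rwa [uIcc_of_le hδ.le])
      rwa [uIcc_of_le hδ.le, Complex.ofReal_zero, zero_mul, h0] at this
    · rintro _ ⟨s, hs, rfl⟩
      rcases hs.1.eq_or_lt with rfl | h4
      · exact Or.inl (by simp [h0])
      · exact Or.inr (h s ⟨h4, hs.2⟩).2.1
  obtain ⟨u, v, ⟨rfl, rfl⟩ | ⟨rfl, rfl⟩, ha⟩ := angle hδ hc hi h0 hn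
  · refine ⟨ε, _, _, _, _, hε, key _ _ (u1 δ hd) (u3 δ hd) fun K hK h1 η hη => ?_⟩
    obtain ⟨s, ⟨⟨t, t1, t2⟩, t', t3, t4⟩, ⟨P, q1⟩, P', q2⟩ :=
      ((ha η hη).and ((p1 K hK (h0 ▸ h1)).and (p3 K hK (h0 ▸ h1)))).exists
    exact ⟨⟨t, t1, P, t2 ▸ q1⟩, t', t3, P', t4 ▸ q2⟩
  · refine ⟨ε, _, _, _, _, hε, key _ _ (u3 δ hd) (u1 δ hd) fun K hK h1 η hη => ?_⟩
    obtain ⟨s, ⟨⟨t, t1, t2⟩, t', t3, t4⟩, ⟨P, q1⟩, P', q2⟩ :=
      ((ha η hη).and ((p3 K hK (h0 ▸ h1)).and (p1 K hK (h0 ▸ h1)))).exists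
    exact ⟨⟨t, t1, P, t2 ▸ q1⟩, t', t3, P', t4 ▸ q2⟩

/-! The two crossing arguments -/

variable {R : ℂ → ℝ} {Cr : Finset ℂ}

/-- peaks and valleys -/
structure PV (R : ℂ → ℝ) (Cr : Finset ℂ) : Prop where
  pk : ∀ x ∈ DD, ∀ c, c < R x → JoinedIn (DD ∩ {y | c < R y}) x 0
  vl : ∀ x ∈ DD, ∀ m ∈ DD, R x < R m → ∃ p ∈ Cr, JoinedIn (DD ∩ {y | R y < R m}) x p

lemma pv (hR : ContinuousOn R DD)
    (h1 : ∀ p ∈ DD, p ≠ 0 → ∀ V ∈ 𝓝 p, ∃ x ∈ DD ∩ V, R p < R x)
    (h2 : ∀ p ∈ DD, p ≠ 0 → p ∉ Cr → ∀ V ∈ 𝓝 p, ∃ x ∈ DD ∩ V, R x < R p) : PV R Cr := by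
  have mx : ∀ m ∈ DD, R m ≤ R 0 := by
    obtain ⟨p, hp, hm⟩ := (isCompact_closedBall (0 : ℂ) 1).exists_isMaxOn ⟨0, by simp⟩ hR
    have : p = 0 := by
      by_contra hn
      obtain ⟨x, hx, h⟩ := h1 p hp hn univ univ_mem
      exact absurd (hm hx.1) (not_le.2 h)
    exact fun m h => this ▸ hm h
  refine ⟨fun x hx c hc => ?_, fun x hx m hm hc => ?_⟩
  · obtain ⟨p, j, V, hV, h⟩ := valley hR.neg hx (neg_lt_neg hc)
    have : p = 0 := by
      by_contra hn
      obtain ⟨y, hy, h3⟩ := h1 p j.target_mem.1 hn V hV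
      exact absurd (h y hy) (not_le.2 (neg_lt_neg h3))
    exact this ▸ j.mono fun y hy => ⟨hy.1, neg_lt_neg_iff.1 (show -R y < -c from hy.2)⟩
  · obtain ⟨p, j, V, hV, h⟩ := valley hR hx hc
    refine ⟨p, by_contra fun hn => ?_, j⟩
    obtain ⟨y, hy, h3⟩ := h2 p j.target_mem.1 (fun e => by
      have := j.target_mem.2
      rw [e] at this
      exact absurd (mx m hm) (not_le.2 this)) hn V hV
    exact absurd (h y hy) (not_le.2 h3)

lemma cross1 (hP : PlanS) (h : PV R Cr) {a d : ℝ} {S S' : Set ℂ} {x x' Yl Yr Yl' Yr' p : ℂ}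
    (l : Loc R a 1 S x Yl Yr) (l' : Loc R d 1 S' x' Yl' Yr') {d' : ℝ} (e : cis d' = cis d)
    (h1 : a < d') (h2 : d' < a + 2 * π) (hR : R (cis d) ≤ R (cis a))
    (j : JoinedIn (DD ∩ {y | R y < R (cis a)}) x p)
    (j' : JoinedIn (DD ∩ {y | R y < R (cis d)}) x' p) : False := by
  obtain ⟨T, t1, t2, t3⟩ := cpt (j.trans (j'.symm.mono fun y hy => ⟨hy.1, hy.2.trans_le hR⟩))
  have ne : cis d ≠ cis a := e ▸ cis_ne h1 h2
  obtain ⟨⟨t, ht, P, p1, p2, p3⟩, t', ht', P', p1', p2', p3'⟩ := l.pt (T ∪ S') (t1.union l'.cl) (by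
    rintro (h3 | h3)
    · exact lt_irrefl (R (cis a)) (t2 h3).2
    · rcases l'.dn _ h3 with h4 | h4
      · exact ne h4.symm
      · linarith) (min (d' - a) (a + 2 * π - d')) (lt_min (by linarith) (by linarith))
  have m1 := min_le_left (d' - a) (a + 2 * π - d')
  have m2 := min_le_right (d' - a) (a + 2 * π - d')
  have up : ∀ Y ∈ Up R 1 (cis a), JoinedIn (Up R 1 (cis a)) Y 0 := fun Y hY =>
    (h.pk Y hY.1 (R (cis a)) (by simpa using hY.2)).mono fun y hy => ⟨hy.1, by simpa using hy.2⟩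
  refine hP.disc (a + t) a (a + t') d' (P ∪ P' ∪ Up R 1 (cis a)) (T ∪ S' ∪ S)
    (by linarith [ht.2]) (by linarith [ht'.1]) (by linarith [ht'.2]) (by linarith [ht.1])
    (union_subset (union_subset p1 p1') inter_subset_left)
    (union_subset (union_subset (t2.trans inter_subset_left) l'.sub) l.sub) ?_ ?_ ?_
  · exact ((p3.mono (union_subset_union_left _ subset_union_left)).trans
      (((up _ l.yl).trans (up _ l.yr).symm).mono subset_union_right)).trans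
      (p3'.symm.mono (union_subset_union_left _ subset_union_right))
  · rw [e]
    exact ((l.jn.mono subset_union_right).trans (t3.mono (subset_union_left.trans
      subset_union_left))).trans (l'.jn.symm.mono (subset_union_right.trans subset_union_left))
  · refine disjoint_union_left.2 ⟨disjoint_union_left.2 ⟨p2, p2'⟩, disjoint_left.2 fun y hy => ?_⟩
    have h3 : 0 < 1 * (R y - R (cis a)) := hy.2
    rintro ((h4 | h4) | h4)
    · have : R y < R (cis a) := (t2 h4).2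
      linarith
    · rcases l'.dn _ h4 with rfl | h5 <;> linarith
    · rcases l.dn _ h4 with rfl | h5 <;> linarith

lemma cross2 (hP : PlanS) (h : PV R Cr) {n : ℕ} (hn : Cr.card < n) {a : Fin (n + 1) → ℝ}
    (hm : StrictMono a) (hp : ∀ i j, a i < a j + 2 * π) {S : Fin (n + 1) → Set ℂ}
    {x Yl Yr : Fin (n + 1) → ℂ} (l : ∀ i, Loc R (a i) (-1) (S i) (x i) (Yl i) (Yr i)) : False := by
  have t0 : ∀ i, ∃ T, IsClosed T ∧ T ⊆ DD ∩ {y | R (cis (a i)) < R y} ∧ JoinedIn T (x i) 0 :=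
    fun i => cpt (h.pk _ ((l i).sub (l i).jn.target_mem) _ (by linarith [(l i).xd]))
  choose T t1 t2 t3 using t0
  have ge : ∀ i, ∀ y ∈ T i ∪ S i, y = cis (a i) ∨ R (cis (a i)) < R y := by
    rintro i y (hy | hy)
    · exact Or.inr (t2 i hy).2
    · exact ((l i).dn y hy).imp id fun h => by linarith
  have jn : ∀ i, JoinedIn (T i ∪ S i) (cis (a i)) 0 := fun i =>
    ((l i).jn.mono subset_union_right).trans ((t3 i).mono subset_union_left)
  have av : ∀ e j, R (cis (a e)) ≤ R (cis (a j)) →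
      ∃ K, IsClosed K ∧ cis (a e) ∉ K ∧ T j ∪ S j ⊆ K ∪ S e := fun e j hR => by
    by_cases hj : j = e
    · exact ⟨T j, t1 j, fun h => absurd (t2 j h).2 (not_lt.2 hR), hj ▸ Subset.rfl⟩
    · refine ⟨T j ∪ S j, (t1 j).union (l j).cl, fun h => ?_, subset_union_left⟩
      rcases ge j _ h with h | h
      · rcases lt_or_gt_of_ne hj with h3 | h3
        · exact cis_ne (hm h3) (hp _ _) h
        · exact cis_ne (hm h3) (hp _ _) h.symm
      · exact absurd h (not_lt.2 hR)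
  set v : Fin n → ℝ := fun k => min (R (cis (a k.castSucc))) (R (cis (a k.succ))) with hv
  have gap : ∀ k : Fin n, ∃ p ∈ Cr, ∀ i j, v k ≤ R (cis (a i)) → v k ≤ R (cis (a j)) →
      ∃ t ∈ Ioo (a k.castSucc) (a k.succ), ∃ P ⊆ DD, Disjoint P (T i ∪ S i ∪ (T j ∪ S j)) ∧
        JoinedIn (P ∪ DD ∩ {y | R y < v k}) (cis t) p := fun k => by
    have lt : a k.castSucc < a k.succ := hm k.castSucc_lt_succ
    have gen : ∀ e Y (I : Set ℝ), v k = R (cis (a e)) → Y ∈ Up R (-1) (cis (a e)) →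
        (∀ t ∈ I, a e + t ∈ Ioo (a k.castSucc) (a k.succ)) →
        (∀ K, IsClosed K → cis (a e) ∉ K → Port (a e) I (K ∪ S e) (Up R (-1) (cis (a e))) Y) →
        ∃ p ∈ Cr, ∀ i j, v k ≤ R (cis (a i)) → v k ≤ R (cis (a j)) →
        ∃ t ∈ Ioo (a k.castSucc) (a k.succ), ∃ P ⊆ DD, Disjoint P (T i ∪ S i ∪ (T j ∪ S j)) ∧
          JoinedIn (P ∪ DD ∩ {y | R y < v k}) (cis t) p := fun e Y I h1 h2 h3 h4 => by
      have u : Up R (-1) (cis (a e)) ⊆ DD ∩ {y | R y < R (cis (a e))} := fun y hy =>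
        ⟨hy.1, by simpa using hy.2⟩
      obtain ⟨p, hp', j0⟩ := h.vl Y h2.1 _ (cis_mem (a e)) (u h2).2
      refine ⟨p, hp', fun i j hi hj => ?_⟩
      rw [h1] at hi hj ⊢
      obtain ⟨K, k1, k2, k3⟩ := av e i hi
      obtain ⟨K', k1', k2', k3'⟩ := av e j hj
      obtain ⟨t, ht, P, p1, p2, p3⟩ := h4 (K ∪ K') (k1.union k1') fun h => h.elim k2 k2'
      exact ⟨_, h3 t ht, P, p1, p2.mono_right (union_subset
        (k3.trans (union_subset_union_left _ subset_union_left))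
        (k3'.trans (union_subset_union_left _ subset_union_right))),
        (p3.mono (union_subset_union_right _ u)).trans (j0.mono subset_union_right)⟩
    rcases le_total (R (cis (a k.castSucc))) (R (cis (a k.succ))) with h1 | h1
    · exact gen k.castSucc _ (Ioo 0 (a k.succ - a k.castSucc)) (min_eq_left h1) (l _).yr
        (fun t ht => ⟨by linarith [ht.1], by linarith [ht.2]⟩)
        fun K h2 h3 => ((l _).pt K h2 h3 _ (sub_pos.2 lt)).2
    · exact gen k.succ _ (Ioo (-(a k.succ - a k.castSucc)) 0) (min_eq_right h1) (l _).yl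
        (fun t ht => ⟨by linarith [ht.1], by linarith [ht.2]⟩)
        fun K h2 h3 => ((l _).pt K h2 h3 _ (sub_pos.2 lt)).1
  choose p hp1 hp2 using gap
  have main : ∀ k k' : Fin n, k ≠ k' → p k = p k' → v k ≤ v k' → False := fun k k' hk e hle => by
    obtain ⟨t, ht, P, p1, p2, p3⟩ := hp2 k k'.castSucc k'.succ (hle.trans (min_le_left _ _))
      (hle.trans (min_le_right _ _))
    obtain ⟨t', ht', P', p1', p2', p3'⟩ := hp2 k' k'.castSucc k'.succ (min_le_left _ _)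
      (min_le_right _ _)
    set A := T k'.castSucc ∪ S k'.castSucc ∪ (T k'.succ ∪ S k'.succ) with hA
    set B := P ∪ P' ∪ DD ∩ {y | R y < v k'} with hB
    have sA : ∀ i, T i ∪ S i ⊆ DD := fun i =>
      union_subset ((t2 i).trans inter_subset_left) (l i).sub
    have a1 : A ⊆ DD := union_subset (sA _) (sA _)
    have b1 : B ⊆ DD := union_subset (union_subset p1 p1') inter_subset_left
    have a2 : JoinedIn A (cis (a k'.castSucc)) (cis (a k'.succ)) :=
      ((jn _).mono subset_union_left).trans ((jn _).symm.mono subset_union_right)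
    have b2 : JoinedIn B (cis t) (cis t') :=
      (p3.mono (union_subset_union subset_union_left
        (inter_subset_inter_right _ fun y hy => lt_of_lt_of_le hy hle))).trans
        (e ▸ p3'.symm.mono (union_subset_union_left _ subset_union_right))
    have d : Disjoint B A := by
      refine disjoint_union_left.2 ⟨disjoint_union_left.2 ⟨p2, p2'⟩, disjoint_left.2 fun y hy => ?_⟩
      have h3 : R y < v k' := hy.2
      have h4 := lt_min_iff.1 h3
      rintro (h5 | h5) <;> rcases ge _ _ h5 with rfl | h6 <;> linarith [h4.1, h4.2]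
    rcases lt_or_gt_of_ne hk with h3 | h3
    · have h4 : a k.succ ≤ a k'.castSucc := hm.monotone (Fin.succ_le_castSucc_iff.2 h3)
      exact hP.disc t _ t' _ B A (ht.2.trans_le h4) ht'.1 ht'.2
        (by linarith [hp k'.succ k.castSucc, ht.1]) b1 a1 b2 a2 d
    · have h4 : a k'.succ ≤ a k.castSucc := hm.monotone (Fin.succ_le_castSucc_iff.2 h3)
      exact hP.disc _ t' _ t A B ht'.1 ht'.2 (h4.trans_lt ht.1)
        (by linarith [hp k.succ k'.castSucc, ht.2]) a1 b1 a2 b2.symm d.symm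
  obtain ⟨k, -, k', -, hk, e⟩ := Finset.exists_ne_map_eq_of_card_lt_of_maps_to
    (s := (Finset.univ : Finset (Fin n))) (t := Cr) (by simpa using hn) (f := p) fun k _ => hp1 k
  rcases le_total (v k) (v k') with h1 | h1
  · exact main k k' hk e h1
  · exact main k' k hk.symm e.symm h1

end CCount

open CCount in
theorem countS (hP : PlanS) : CountS := by
  intro R Cr n a _ hn hR h1 h2 hm hp h
  have pv := pv hR h1 h2
  have h3 : ∀ i, ∃ ε S x Yl Yr, (ε = 1 ∨ ε = -1) ∧ Loc R (a i) ε S x Yl Yr := fun i => by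
    obtain ⟨κ, δ, c1, c2, c3, c4, c5, c6, c7⟩ := h i
    exact loc c1 c2 c3 c4 c5 c6 c7
  choose ε S x Yl Yr hε l using h3
  have c := Finset.card_filter_add_card_filter_not (s := Finset.univ) fun i => ε i = 1
  rw [Finset.card_univ, Fintype.card_fin] at c
  by_cases hc : n ≤ (Finset.univ.filter fun i => ε i = 1).card
  · have h3 : ∀ i, ∃ p, ε i = 1 →
        p ∈ Cr ∧ JoinedIn (DD ∩ {y | R y < R (cis (a i))}) (x i) p := fun i => by
      by_cases e : ε i = 1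
      · have := (l i).xd
        rw [e] at this
        obtain ⟨p, q⟩ := pv.vl _ ((l i).sub (l i).jn.target_mem) _ (cis_mem (a i)) (by linarith)
        exact ⟨p, fun _ => q⟩
      · exact ⟨0, fun h => absurd h e⟩
    choose p q using h3
    have main : ∀ i j, i ≠ j → ε i = 1 → ε j = 1 → p i = p j → R (cis (a j)) ≤ R (cis (a i)) →
        False := fun i j hij hi hj e hle => by
      rcases lt_or_gt_of_ne hij with h3 | h3
      · exact cross1 hP pv (hi ▸ l i) (hj ▸ l j) rfl (hm h3) (hp _ _) hle (q i hi).2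
          (e ▸ (q j hj).2)
      · exact cross1 hP pv (hi ▸ l i) (hj ▸ l j) (cis_per _) (hp _ _) (by linarith [hm h3]) hle
          (q i hi).2 (e ▸ (q j hj).2)
    obtain ⟨i, hi, j, hj, hij, e⟩ := Finset.exists_ne_map_eq_of_card_lt_of_maps_to
      (hn.trans_le hc) (f := p) fun i hi => (q i (by simpa using hi)).1
    rw [Finset.mem_filter] at hi hj
    rcases le_total (R (cis (a i))) (R (cis (a j))) with h3 | h3
    · exact main j i hij.symm hj.2 hi.2 e.symm h3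
    · exact main i j hij hi.2 hj.2 e h3
  · have h3 : n + 1 ≤ (Finset.univ.filter fun i => ¬ ε i = 1).card := by omega
    let o := Finset.orderEmbOfCardLe _ h3
    refine cross2 hP pv hn (a := fun i => a (o i)) (hm.comp o.strictMono) (fun _ _ => hp _ _)
      (S := fun i => S (o i)) (x := fun i => x (o i)) (Yl := fun i => Yl (o i))
      (Yr := fun i => Yr (o i)) fun i => ?_
    exact (hε (o i)).resolve_left
      (Finset.mem_filter.1 (Finset.orderEmbOfCardLe_mem _ h3 i)).2 ▸ l (o i)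

end Pool.Agent.Lib.MP_16d934_gt
end
end
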