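import Pool.Agent.Lib.MP_16d934_gt.StC

-- part Pool.Agent.Lib.MP_16d934_gt.DGeoa
section

/-! Geometry of the quarter: chart calculus and spokes. -/

set_option autoImplicit false

open Set Metric Filter Topology Asymptotics
open scoped ContDiff InnerProductSpace NNReal Real

noncomputable section

namespace Pool.Agent.Lib.MP_16d934_gt

namespace DGeo

/-- the normalising factor of a graph -/
def rr (u : P2 → ℝ) (y : P2) : ℝ := (√(1 + y.1 ^ 2 + y.2 ^ 2 + u y ^ 2))⁻¹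

theorem rr_pos (u : P2 → ℝ) (y : P2) : 0 < rr u y := by unfold rr; positivity

theorem inner_ee (i : Fin 4) (x : E4) : ⟪ee i, x⟫_ℝ = x i := by
  simp [ee, EuclideanSpace.inner_single_left]

theorem gn_eq (y : P2) (z : ℝ) : gn y z = (√(1 + y.1 ^ 2 + y.2 ^ 2 + z ^ 2))⁻¹ •
    (ee 0 + y.1 • ee 1 + y.2 • ee 2 + z • ee 3) := by
  unfold gn
  congr 1
  ext i
  fin_cases i <;> simp [ee]

theorem gX_eq (O : Iso) (u : P2 → ℝ) (y : P2) : gX O u y =
    rr u y • (O (ee 0) + y.1 • O (ee 1) + y.2 • O (ee 2) + u y • O (ee 3)) := by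
  unfold gX rr
  rw [gn_eq]
  simp only [map_smul, map_add]

theorem gX_apply (O : Iso) (u : P2 → ℝ) (y : P2) (j : Fin 4) : gX O u y j =
    rr u y * (O (ee 0) j + y.1 * O (ee 1) j + y.2 * O (ee 2) j + u y * O (ee 3) j) := by
  rw [gX_eq]
  simp
  ring

theorem in0 (O : Iso) (u : P2 → ℝ) (y : P2) : ⟪O (ee 0), gX O u y⟫_ℝ = rr u y := by
  unfold gX
  rw [O.inner_map_map, inner_ee]
  simp [gn, rr]

theorem in1 (O : Iso) (u : P2 → ℝ) (y : P2) : ⟪O (ee 1), gX O u y⟫_ℝ = rr u y * y.1 := by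
  unfold gX
  rw [O.inner_map_map, inner_ee]
  simp [gn, rr]

theorem in2 (O : Iso) (u : P2 → ℝ) (y : P2) : ⟪O (ee 2), gX O u y⟫_ℝ = rr u y * y.2 := by
  unfold gX
  rw [O.inner_map_map, inner_ee]
  simp [gn, rr]

theorem in3 (O : Iso) (u : P2 → ℝ) (y : P2) : ⟪O (ee 3), gX O u y⟫_ℝ = rr u y * u y := by
  unfold gX
  rw [O.inner_map_map, inner_ee]
  simp [gn, rr]

theorem gX_inj (O : Iso) (u : P2 → ℝ) : Function.Injective (gX O u) := by
  intro y y' h
  have h0 := in0 O u y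
  have h1 := in1 O u y
  have h2 := in2 O u y
  rw [h, in0] at h0
  rw [h, in1, h0] at h1
  rw [h, in2, h0] at h2
  have hp := (rr_pos u y).ne'
  exact Prod.ext (mul_left_cancel₀ hp h1).symm (mul_left_cancel₀ hp h2).symm

theorem ee_apply (i j : Fin 4) : ee i j = if j = i then 1 else 0 := by
  simp [ee, Pi.single_apply]

/-- entries of a frame that contains a coordinate vector -/
theorem frame_zero (O : Iso) {i k j : Fin 4} (h : O (ee i) = ee j) (hk : k ≠ i) :
    O (ee k) j = 0 := by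
  rw [← inner_ee, ← h, O.inner_map_map, inner_ee, ee_apply, if_neg hk.symm]

/-- the columns of an orthogonal matrix are orthogonal -/
theorem col (O : Iso) {j k : Fin 4} (h : j ≠ k) : O (ee 0) j * O (ee 0) k + O (ee 1) j * O (ee 1) k
    + O (ee 2) j * O (ee 2) k + O (ee 3) j * O (ee 3) k = 0 := by
  have e : ∀ i l : Fin 4, O.symm (ee l) i = O (ee i) l := fun i l => by
    rw [← inner_ee, ← O.inner_map_map, O.apply_symm_apply, real_inner_comm, inner_ee]
  have := O.symm.inner_map_map (ee j) (ee k)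
  rw [inner4, inner_ee, ee_apply, if_neg h] at this
  simpa only [e] using this

theorem lch {S : Set E4} {O : Iso} {δ : ℝ} {u : P2 → ℝ} (h : Chart S O δ u) :
    LChart S O (ball 0 δ) u := ⟨isOpen_ball, h.sol, h.rel⟩

theorem rr_zero {u : P2 → ℝ} (h : u 0 = 0) : rr u 0 = 1 := by simp [rr, h]

theorem gX_zero (O : Iso) {u : P2 → ℝ} (h : u 0 = 0) : gX O u 0 = O (ee 0) := by
  rw [gX_eq, rr_zero h, h]
  simp

theorem d1_zero {u : P2 → ℝ} (h : fderiv ℝ u 0 = 0) : d1 u 0 = 0 := by simp [d1, h]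

theorem d2_zero {u : P2 → ℝ} (h : fderiv ℝ u 0 = 0) : d2 u 0 = 0 := by simp [d2, h]

theorem gN_zero (O : Iso) {u : P2 → ℝ} (h : u 0 = 0) (h' : fderiv ℝ u 0 = 0) :
    gN O u 0 = O (ee 3) := by
  unfold gN
  rw [h, d1_zero h', d2_zero h']
  congr 1
  ext i
  fin_cases i <;> simp [nrm, ee]

theorem rr_cont {u : P2 → ℝ} {y : P2} (h : ContinuousAt u y) : ContinuousAt (rr u) y := by
  unfold rr
  refine ContinuousAt.inv₀ (by fun_prop) ?_
  positivity

theorem gX_cont (O : Iso) {u : P2 → ℝ} {y : P2} (h : ContinuousAt u y) :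
    ContinuousAt (gX O u) y := by
  have : gX O u = fun y => rr u y •
      (O (ee 0) + y.1 • O (ee 1) + y.2 • O (ee 2) + u y • O (ee 3)) := funext (gX_eq O u)
  rw [this]
  have := rr_cont h
  fun_prop

theorem trace {S : Set E4} {O : Iso} {δ : ℝ} {u : P2 → ℝ} (h : Chart S O δ u) :
    d2 (d2 u) 0 = -d1 (d1 u) 0 := by
  have := h.sol.2 0 (mem_ball_self h.pos)
  unfold gAt gOp at this
  rw [h.zero, d1_zero h.dzero, d2_zero h.dzero] at this
  simp at this
  linarith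

/-! ### The flipped chart -/

theorem rf3_apply (x : E4) : rf3 x = !₂[x 0, x 1, x 2, -x 3] := by
  ext i
  fin_cases i <;> simp [rf3, mkO_apply]

theorem sx_apply (x : E4) : sx x = !₂[x 1, x 0, x 2, x 3] := by
  ext i
  fin_cases i <;> simp [sx, mkO_apply]

theorem d1_neg (u : P2 → ℝ) : d1 (fun y => -u y) = fun y => -d1 u y := by
  funext y
  simp [d1]

theorem d2_neg (u : P2 → ℝ) : d2 (fun y => -u y) = fun y => -d2 u y := by
  funext y
  simp [d2]

theorem gX_flip (O : Iso) (u : P2 → ℝ) : gX (rf3.trans O) (fun y => -u y) = gX O u := by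
  funext y
  unfold gX
  rw [LinearIsometryEquiv.trans_apply, rf3_apply]
  congr 1
  ext i
  fin_cases i <;> simp [gn]

theorem flip_ee (O : Iso) : (rf3.trans O) (ee 0) = O (ee 0) ∧ (rf3.trans O) (ee 1) = O (ee 1) ∧
    (rf3.trans O) (ee 2) = O (ee 2) ∧ (rf3.trans O) (ee 3) = -O (ee 3) := by
  refine ⟨?_, ?_, ?_, ?_⟩
  · rw [LinearIsometryEquiv.trans_apply, rf3_apply]
    congr 1
    ext i
    fin_cases i <;> simp [ee]
  · rw [LinearIsometryEquiv.trans_apply, rf3_apply]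
    congr 1
    ext i
    fin_cases i <;> simp [ee]
  · rw [LinearIsometryEquiv.trans_apply, rf3_apply]
    congr 1
    ext i
    fin_cases i <;> simp [ee]
  · rw [LinearIsometryEquiv.trans_apply, rf3_apply, ← map_neg]
    congr 1
    ext i
    fin_cases i <;> simp [ee]

theorem flip_chart {S : Set E4} {O : Iso} {δ : ℝ} {u : P2 → ℝ} (h : Chart S O δ u) :
    Chart S (rf3.trans O) δ (fun y => -u y) where
  pos := h.pos
  sol := by
    refine ⟨fun y hy => (h.sol.1 y hy).neg, fun y hy => ?_⟩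
    have := h.sol.2 y hy
    unfold gAt gOp at this ⊢
    simp only [d1_neg, d2_neg]
    linear_combination (-1 : ℝ) * this
  zero := by simp [h.zero]
  dzero := by simp [h.dzero]
  rel := by rw [gX_flip]; exact h.rel

theorem flip_cfr {O : Iso} (h : CFr O) : CFr (rf3.trans O) := by
  intro x
  rw [LinearIsometryEquiv.trans_apply, h, rf3_apply]
  simp

/-! ### Spokes -/

theorem T0_apply (z : ℂ) : T0 z = (z.re, z.im) := rfl

theorem cis_re (β : ℝ) : (cis β).re = Real.cos β := by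
  unfold cis; exact Complex.exp_ofReal_mul_I_re β

theorem cis_im (β : ℝ) : (cis β).im = Real.sin β := by
  unfold cis; exact Complex.exp_ofReal_mul_I_im β

theorem cis_norm (β : ℝ) : ‖cis β‖ = 1 := by
  unfold cis; exact Complex.norm_exp_ofReal_mul_I β

theorem cis_pow (β : ℝ) (m : ℕ) : cis β ^ m = cis (m * β) := by
  unfold cis
  rw [← Complex.exp_nat_mul]
  congr 1
  push_cast
  ring

theorem T0_cis (s β : ℝ) : T0 (s * cis β) = (s * Real.cos β, s * Real.sin β) := by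
  rw [T0_apply]
  simp [cis_re, cis_im]

theorem norm_cis (s β : ℝ) : ‖(s : ℂ) * cis β‖ = |s| := by
  rw [norm_mul, cis_norm, mul_one, Complex.norm_real, Real.norm_eq_abs]

theorem T0_norm (z : ℂ) : ‖T0 z‖ ≤ ‖z‖ := by
  rw [T0_apply, Prod.norm_def]
  exact max_le (Complex.abs_re_le_norm z) (Complex.abs_im_le_norm z)

theorem T0_inj : Function.Injective T0 := fun z w h => by
  rw [T0_apply, T0_apply, Prod.mk.injEq] at h
  exact Complex.ext h.1 h.2

/-- sign of the height along a ray -/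
theorem spoke_sign {u : P2 → ℝ} {m : ℕ} {c : ℂ} (h : Lead u 0 T0 m c) (ε β : ℝ)
    (hb : 0 < ε * (c.re * Real.cos (m * β) - c.im * Real.sin (m * β))) :
    ∀ᶠ s : ℝ in 𝓝[>] 0, 0 < ε * u (T0 (s * cis β)) := by
  obtain ⟨-, C, δ, hδ, h⟩ := h
  set a := ε * (c.re * Real.cos (m * β) - c.im * Real.sin (m * β)) with ha
  have e1 : ∀ᶠ s : ℝ in 𝓝 0, |s| < δ := by
    have : Tendsto (fun s : ℝ => |s|) (𝓝 0) (𝓝 0) := by
      simpa using (continuous_abs.tendsto (0 : ℝ))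
    exact this.eventually (gt_mem_nhds hδ)
  have e2 : ∀ᶠ s : ℝ in 𝓝 0, |ε| * C * s < a := by
    have : Tendsto (fun s : ℝ => |ε| * C * s) (𝓝 0) (𝓝 0) := by
      have : Continuous fun s : ℝ => |ε| * C * s := by fun_prop
      simpa using this.tendsto 0
    exact this.eventually (gt_mem_nhds hb)
  filter_upwards [nhdsWithin_le_nhds e1, nhdsWithin_le_nhds e2, self_mem_nhdsWithin]
    with s h1 h2 h3
  have hs : 0 < s := h3
  have := (h (s * cis β) (by rw [norm_cis]; exact h1)).2.1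
  rw [zero_add, norm_cis, abs_of_pos hs, mul_pow, cis_pow] at this
  have e : (c * ((s : ℂ) ^ m * cis (m * β))).re
      = s ^ m * (c.re * Real.cos (m * β) - c.im * Real.sin (m * β)) := by
    rw [← Complex.ofReal_pow, ← mul_assoc, mul_comm c, mul_assoc, Complex.re_ofReal_mul,
      Complex.mul_re, cis_re, cis_im]
  rw [e] at this
  have h4 : |ε * u (T0 (s * cis β)) - s ^ m * a| ≤ |ε| * (C * s ^ (m + 1)) := by
    have : ε * u (T0 (s * cis β)) - s ^ m * a = ε * (u (T0 (s * cis β))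
        - s ^ m * (c.re * Real.cos (m * β) - c.im * Real.sin (m * β))) := by rw [ha]; ring
    rw [this, abs_mul]
    gcongr
  have h5 := (abs_le.1 h4).1
  have h6 : 0 < s ^ m := pow_pos hs m
  have h7 : |ε| * (C * s ^ (m + 1)) = s ^ m * (|ε| * C * s) := by ring
  nlinarith [mul_lt_mul_of_pos_left h2 h6]

theorem small (δ : ℝ) (hδ : 0 < δ) : ∀ᶠ s : ℝ in 𝓝[>] 0, 0 < s ∧ s < δ :=
  Ioo_mem_nhdsGT hδ

theorem T0_ball {s δ : ℝ} (β : ℝ) (h0 : 0 < s) (h : s < δ) : T0 (s * cis β) ∈ ball (0 : P2) δ := by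
  rw [mem_ball_zero_iff]
  refine (T0_norm _).trans_lt ?_
  rwa [norm_cis, abs_of_pos h0]

/-- evenness makes the leading coefficient real -/
theorem lead_real {u : P2 → ℝ} {m : ℕ} {c : ℂ} {δ : ℝ} (hδ : 0 < δ) (hm : 2 ≤ m)
    (h : Lead u 0 T0 m c) (he : Ev2 u δ) : c.im = 0 := by
  by_contra hc
  have hm' : (m : ℝ) ≠ 0 := by positivity
  have a1 : (m : ℝ) * (π / 2 / m) = π / 2 := by field_simp
  have a2 : (m : ℝ) * (-(π / 2 / m)) = -(π / 2) := by field_simp
  have h1 := spoke_sign h (-c.im) (π / 2 / m) (by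
    rw [a1, Real.cos_pi_div_two, Real.sin_pi_div_two]
    have := mul_self_pos.2 hc
    nlinarith)
  have h2 := spoke_sign h c.im (-(π / 2 / m)) (by
    rw [a2, Real.cos_neg, Real.sin_neg, Real.cos_pi_div_two, Real.sin_pi_div_two]
    have := mul_self_pos.2 hc
    nlinarith)
  obtain ⟨s, ⟨h1, h2⟩, h3, h4⟩ := ((h1.and h2).and (small δ hδ)).exists
  have := he _ (T0_ball (π / 2 / m) h3 h4)
  rw [T0_cis] at this h1 h2
  rw [Real.cos_neg, Real.sin_neg, mul_neg, this] at h2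
  linarith

/-- evenness in both variables makes the order even -/
theorem lead_even {u : P2 → ℝ} {m : ℕ} {c : ℂ} {δ : ℝ} (hδ : 0 < δ)
    (h : Lead u 0 T0 m c) (hc : c.im = 0) (he : Ev1 u δ) : Even m := by
  by_contra hm
  rw [Nat.not_even_iff_odd] at hm
  have hre : c.re ≠ 0 := fun h0 => h.1 (Complex.ext h0 hc)
  have h1 := spoke_sign h c.re 0 (by
    simp only [mul_zero, Real.cos_zero, Real.sin_zero]
    have := mul_self_pos.2 hre
    nlinarith)
  have h2 := spoke_sign h (-c.re) π (by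
    rw [Real.cos_nat_mul_pi, hm.neg_one_pow, hc]
    have := mul_self_pos.2 hre
    nlinarith)
  obtain ⟨s, ⟨h1, h2⟩, h3, h4⟩ := ((h1.and h2).and (small δ hδ)).exists
  have := he _ (T0_ball 0 h3 h4)
  rw [T0_cis] at this h1 h2
  simp only [Real.cos_zero, Real.sin_zero, Real.cos_pi, Real.sin_pi, mul_one, mul_zero,
    mul_neg] at this h1 h2
  rw [this] at h2
  linarith

/-- derivative at zero from a quadratic error bound -/
theorem deriv_of_bound {g : P2 → ℝ} (hg : DifferentiableAt ℝ g 0) {a C δ : ℝ} (hδ : 0 < δ)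
    (h : ∀ s : ℝ, |s| < δ → |g (s, 0) - a * s| ≤ C * |s| ^ 2) : d1 g 0 = a := by
  have l : HasDerivAt (fun s : ℝ => ((s, 0) : P2)) (1, 0) 0 :=
    (hasDerivAt_id (0 : ℝ)).prodMk (hasDerivAt_const (0 : ℝ) (0 : ℝ))
  have h1 : HasDerivAt (fun s : ℝ => g (s, 0)) (d1 g 0) 0 := by
    have : HasFDerivAt g (fderiv ℝ g 0) ((fun s : ℝ => ((s, 0) : P2)) 0) := hg.hasFDerivAt
    exact HasFDerivAt.comp_hasDerivAt (f := fun s : ℝ => ((s, 0) : P2)) (0 : ℝ) this l
  have g0 : g (0, 0) = 0 := by simpa using h 0 (by simpa using hδ)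
  have h2 : HasDerivAt (fun s : ℝ => g (s, 0)) a 0 := by
    rw [hasDerivAt_iff_isLittleO_nhds_zero]
    have b : (fun s : ℝ => g (0 + s, 0) - g (0, 0) - s • a) =O[𝓝 0] fun s : ℝ => s ^ 2 := by
      refine IsBigO.of_bound C ?_
      filter_upwards [ball_mem_nhds (0 : ℝ) hδ] with s hs
      have := h s (by simpa using hs)
      rw [zero_add, g0, sub_zero, smul_eq_mul, mul_comm s a, Real.norm_eq_abs, Real.norm_eq_abs,
        abs_pow]
      exact this
    exact b.trans_isLittleO (isLittleO_pow_id (by norm_num))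
  exact h1.unique h2

/-- the Hessian from the leading term -/
theorem lead_hess (hD : DerS) {u : P2 → ℝ} {m : ℕ} {c : ℂ} (hu : AnalyticAt ℝ u 0) (hm : 2 ≤ m)
    (h : Lead u 0 T0 m c) : (m = 2 → d1 (d1 u) 0 = 2 * c.re ∧ d1 (d2 u) 0 = -(2 * c.im)) ∧
      (m ≠ 2 → d1 (d1 u) 0 = 0) := by
  obtain ⟨-, C, δ, hδ, h⟩ := h
  obtain ⟨a1, a2, -⟩ := hD u 0 hu
  have e : ∀ s : ℝ, (0 : P2) + T0 (s : ℂ) = (s, 0) := fun s => by simp [T0_apply]
  constructor
  · rintro rfl
    constructor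
    · refine deriv_of_bound a1.differentiableAt hδ (C := C) fun s hs => ?_
      have := (h s (by simpa using hs)).2.2 1
      rw [e] at this
      have e2 : (c * (2 : ℕ) * (s : ℂ) ^ (2 - 1) * 1).re = 2 * c.re * s := by
        simp [mul_comm]
      rw [e2] at this
      simpa [d1, T0_apply] using this
    · refine deriv_of_bound a2.differentiableAt hδ (C := C) fun s hs => ?_
      have := (h s (by simpa using hs)).2.2 Complex.I
      rw [e] at this
      have e2 : (c * (2 : ℕ) * (s : ℂ) ^ (2 - 1) * Complex.I).re = -(2 * c.im) * s := by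
        simp [mul_comm]
      rw [e2] at this
      simpa [d2, T0_apply] using this
  · intro hm2
    obtain ⟨k, rfl⟩ : ∃ k, m = k + 3 := ⟨m - 3, by omega⟩
    refine deriv_of_bound a1.differentiableAt (lt_min hδ one_pos)
      (C := |C| + ‖c‖ * (k + 3)) fun s hs => ?_
    have hs1 : |s| ≤ 1 := (hs.trans_le (min_le_right _ _)).le
    have := (h s (by simpa using hs.trans_le (min_le_left _ _))).2.2 1
    rw [e] at this
    have e3 : fderiv ℝ u (s, 0) (T0 1) = d1 u (s, 0) := by simp [d1, T0_apply]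
    rw [e3, norm_one, mul_one, mul_one, Complex.norm_real, Real.norm_eq_abs] at this
    have b1 : |(c * ((k + 3 : ℕ) : ℂ) * (s : ℂ) ^ (k + 3 - 1)).re| ≤ ‖c‖ * (k + 3) * |s| ^ 2 := by
      refine (Complex.abs_re_le_norm _).trans ?_
      rw [norm_mul, norm_mul, norm_pow, Complex.norm_real, Real.norm_eq_abs, Complex.norm_natCast]
      push_cast
      gcongr _ * ?_
      exact pow_le_pow_of_le_one (abs_nonneg s) hs1 (by omega)
    have b2 : C * |s| ^ (k + 3) ≤ |C| * |s| ^ 2 := by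
      refine (mul_le_mul_of_nonneg_right (le_abs_self C) (by positivity)).trans ?_
      gcongr _ * ?_
      exact pow_le_pow_of_le_one (abs_nonneg s) hs1 (by omega)
    rw [zero_mul, sub_zero]
    have := abs_sub_abs_le_abs_sub (d1 u (s, 0))
      (c * ((k + 3 : ℕ) : ℂ) * (s : ℂ) ^ (k + 3 - 1)).re
    nlinarith

end DGeo

end Pool.Agent.Lib.MP_16d934_gt
end
end

-- part Pool.Agent.Lib.MP_16d934_gt.DCrit
section

/-! The number of critical points of the angle of the first coordinate. -/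

set_option autoImplicit false

open Set Metric Filter Topology
open scoped InnerProductSpace Real

noncomputable section

namespace Pool.Agent.Lib.MP_16d934_gt

namespace DCrit

/-! ### Charts -/

/-- the normalising factor -/
def rh (y : P2) (z : ℝ) : ℝ := (√(1 + y.1 ^ 2 + y.2 ^ 2 + z ^ 2))⁻¹

theorem rh_pos (y : P2) (z : ℝ) : 0 < rh y z := by unfold rh; positivity

theorem gn0 (y : P2) (z : ℝ) : gn y z 0 = rh y z := by simp [gn, rh]
theorem gn1 (y : P2) (z : ℝ) : gn y z 1 = rh y z * y.1 := by simp [gn, rh]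
theorem gn2 (y : P2) (z : ℝ) : gn y z 2 = rh y z * y.2 := by simp [gn, rh]
theorem gn3 (y : P2) (z : ℝ) : gn y z 3 = rh y z * z := by simp [gn, rh]

theorem inner_ee (i : Fin 4) (x : E4) : ⟪ee i, x⟫_ℝ = x i := by
  simp [ee, EuclideanSpace.inner_single_left]

theorem inner_O (O : Iso) (i : Fin 4) (x : E4) : ⟪O (ee i), O x⟫_ℝ = x i := by
  rw [O.inner_map_map, inner_ee]

theorem gn_cont : Continuous fun q : P2 × ℝ => gn q.1 q.2 := by
  have h1 : Continuous fun q : P2 × ℝ => rh q.1 q.2 := by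
    unfold rh
    exact Continuous.inv₀ (by fun_prop) fun q => by positivity
  have h2 : Continuous fun q : P2 × ℝ => (!₂[1, q.1.1, q.1.2, q.2] : E4) := by
    refine (PiLp.continuous_toLp 2 _).comp (continuous_pi fun i => ?_)
    fin_cases i <;> simp <;> fun_prop
  exact h1.smul h2

theorem gX_cont {S : Set E4} {O : Iso} {δ : ℝ} {u : P2 → ℝ} (h : Chart S O δ u) :
    ContinuousOn (gX O u) (ball 0 δ) := by
  have h1 : ContinuousOn (fun y : P2 => ((y, u y) : P2 × ℝ)) (ball 0 δ) :=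
    continuousOn_id.prodMk h.sol.1.continuousOn
  have h2 : ContinuousOn (fun y : P2 => gn y (u y)) (ball 0 δ) :=
    Continuous.comp_continuousOn' (g := fun q : P2 × ℝ => gn q.1 q.2)
      (f := fun y : P2 => ((y, u y) : P2 × ℝ)) gn_cont h1
  exact Continuous.comp_continuousOn' (g := fun x => O x) (f := fun y : P2 => gn y (u y))
    O.continuous h2

theorem gX_zero {S : Set E4} {O : Iso} {δ : ℝ} {u : P2 → ℝ} (h : Chart S O δ u) :
    gX O u 0 = O (ee 0) := by
  unfold gX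
  rw [h.zero]
  congr 1
  ext i
  fin_cases i <;> simp [gn, ee]

theorem gX_inj (O : Iso) (u : P2 → ℝ) : Function.Injective (gX O u) := by
  intro y y' h
  have e : gn y (u y) = gn y' (u y') := O.injective h
  have e0 : rh y (u y) = rh y' (u y') := by rw [← gn0, ← gn0, e]
  have e1 : rh y (u y) * y.1 = rh y' (u y') * y'.1 := by rw [← gn1, ← gn1, e]
  have e2 : rh y (u y) * y.2 = rh y' (u y') * y'.2 := by rw [← gn2, ← gn2, e]
  rw [e0] at e1 e2
  exact Prod.ext (mul_left_cancel₀ (rh_pos _ _).ne' e1) (mul_left_cancel₀ (rh_pos _ _).ne' e2)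

theorem gX_mem {S : Set E4} {O : Iso} {δ : ℝ} {u : P2 → ℝ} (h : Chart S O δ u) {y : P2}
    (hy : y ∈ ball (0 : P2) δ) : gX O u y ∈ S := by
  obtain ⟨V, -, e⟩ := h.rel _ subset_rfl isOpen_ball
  exact (e.subset (mem_image_of_mem _ hy)).1

/-! ### The parts of the quarter cut out by a linear form -/

/-- the part of the closed quarter on which the form is positive -/
def Up (S : Set E4) (a b : ℝ) : Set E4 := {x | x ∈ Dq S ∧ 0 < a * x 0 + b * x 1}

theorem loc_joined (hL : LocS) {S : Set E4} (hS : Sym S) {p : E4} (hp : p ∈ Dq S) {V : Set E4}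
    (hV : V ∈ 𝓝 p) : ∃ W ∈ 𝓝 p, ∀ x ∈ Dq S ∩ W, ∀ y ∈ Dq S ∩ W, JoinedIn (Dq S ∩ V) x y := by
  obtain ⟨W, hW, hWV, ⟨w, hw, -⟩, h2⟩ := hL.lc S hS p hp V hV
  have key : ∀ x ∈ Dq S ∩ W, JoinedIn (Dq S ∩ V) x w := fun x hx =>
    ((h2 x hx).joinedIn x (mem_insert _ _) w (mem_insert_of_mem _ hw)).mono (by
      rintro z (rfl | hz)
      · exact ⟨hx.1, hWV hx.2⟩
      · exact ⟨⟨hz.1.1, hz.1.2.1.le, hz.1.2.2.le⟩, hWV hz.2⟩)
  exact ⟨W, hW, fun x hx y hy => (key x hx).trans (key y hy).symm⟩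

theorem corner_reach (hC : ChartS) (hL : LocS) {S : Set E4} (hS : Sym S) {q : E4} (hq : q ∈ S)
    (h0 : q 0 = 0) (h1 : q 1 = 0) (a b : ℝ) :
    ∃ V ∈ 𝓝 q, ∀ x ∈ Up S a b ∩ V, ∃ z ∈ Bd S, JoinedIn (Up S a b) x z := by
  obtain ⟨O, δ, u, e0, e1, e2, -, -, hch, -, -⟩ :=
    hL.corner S hS q hq h0 h1 _ (hC.nor_spec S hS.minimal q hq).1
  obtain ⟨V, hV, e⟩ := hch.rel _ subset_rfl isOpen_ball
  have c0 : ∀ y, gX O u y 0 = rh y (u y) * y.1 := fun y => by
    rw [← inner_ee, ← e1, gX, inner_O, gn1]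
  have c1 : ∀ y, gX O u y 1 = rh y (u y) * y.2 := fun y => by
    rw [← inner_ee, ← e2, gX, inner_O, gn2]
  have hqV : q ∈ V := by
    have := (e.subset (mem_image_of_mem _ (mem_ball_self hch.pos))).2
    rwa [gX_zero hch, e0] at this
  refine ⟨V, hV.mem_nhds hqV, ?_⟩
  rintro x ⟨⟨hx, hab⟩, hxV⟩
  obtain ⟨y, hy, rfl⟩ := e.symm.subset ⟨hx.1, hxV⟩
  have hr := rh_pos y (u y)
  have y1 : 0 ≤ y.1 := by
    have := hx.2.1
    rw [c0] at this
    exact nonneg_of_mul_nonneg_right this hr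
  have y2 : 0 ≤ y.2 := by
    have := hx.2.2
    rw [c1] at this
    exact nonneg_of_mul_nonneg_right this hr
  have y3 : 0 < a * y.1 + b * y.2 := by
    rw [c0, c1] at hab
    have : 0 < rh y (u y) * (a * y.1 + b * y.2) := by linarith
    exact (mul_pos_iff_of_pos_left hr).1 this
  have mem : ∀ y' ∈ ball (0 : P2) δ, 0 ≤ y'.1 → 0 ≤ y'.2 → 0 < a * y'.1 + b * y'.2 →
      gX O u y' ∈ Up S a b := by
    intro y' hy' a1 a2 a3
    have hr' := rh_pos y' (u y')
    refine ⟨⟨gX_mem hch hy', ?_, ?_⟩, ?_⟩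
    · rw [c0]; positivity
    · rw [c1]; positivity
    · rw [c0, c1]
      have := mul_pos hr' a3
      linarith
  have seg : ∀ y' ∈ ball (0 : P2) δ, 0 ≤ y'.1 → 0 ≤ y'.2 → 0 < a * y'.1 + b * y'.2 →
      JoinedIn (Up S a b) (gX O u y) (gX O u y') := by
    intro y' hy' a1 a2 a3
    have hs : segment ℝ y y' ⊆ ball 0 δ := (convex_ball _ _).segment_subset hy hy'
    refine (((convex_segment y y').isPathConnected ⟨y, left_mem_segment _ _ _⟩).joinedIn y
      (left_mem_segment _ _ _) y' (right_mem_segment _ _ _)).map_continuousOn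
        ((gX_cont hch).mono hs) |>.mono ?_
    rintro _ ⟨w, hw, rfl⟩
    have hw' := hs hw
    obtain ⟨s, t, hs0, ht0, hst, rfl⟩ := hw
    refine mem _ hw' ?_ ?_ ?_
    · simp only [Prod.fst_add, Prod.smul_fst, smul_eq_mul]; positivity
    · simp only [Prod.snd_add, Prod.smul_snd, smul_eq_mul]; positivity
    · simp only [Prod.fst_add, Prod.smul_fst, Prod.snd_add, Prod.smul_snd, smul_eq_mul]
      have e : a * (s * y.1 + t * y'.1) + b * (s * y.2 + t * y'.2) =
          s * (a * y.1 + b * y.2) + t * (a * y'.1 + b * y'.2) := by ring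
      rw [e]
      rcases eq_or_lt_of_le hs0 with h | h
      · have : t = 1 := by linarith
        rw [← h, this]; linarith
      · have := mul_pos h y3
        have := mul_nonneg ht0 a3.le
        linarith
  have hn : ‖y‖ < δ := mem_ball_zero_iff.1 hy
  by_cases hc : 0 < a * y.1
  · have hb : ((y.1, 0) : P2) ∈ ball (0 : P2) δ := by
      rw [mem_ball_zero_iff, Prod.norm_def, max_lt_iff]
      exact ⟨(norm_fst_le y).trans_lt hn, by simpa using hch.pos⟩
    have hm := mem _ hb y1 le_rfl (by simpa using hc)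
    refine ⟨_, ⟨hm.1.1, hm.1.2.1, hm.1.2.2, Or.inr ?_⟩, seg _ hb y1 le_rfl (by simpa using hc)⟩
    rw [c1]; simp
  · have hc' : 0 < b * y.2 := by linarith
    have hb : ((0, y.2) : P2) ∈ ball (0 : P2) δ := by
      rw [mem_ball_zero_iff, Prod.norm_def, max_lt_iff]
      exact ⟨by simpa using hch.pos, (norm_snd_le y).trans_lt hn⟩
    have hm := mem _ hb le_rfl y2 (by simpa using hc')
    refine ⟨_, ⟨hm.1.1, hm.1.2.1, hm.1.2.2, Or.inl ?_⟩, seg _ hb le_rfl y2 (by simpa using hc')⟩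
    rw [c0]; simp

theorem cont_coord (i : Fin 4) : Continuous fun x : E4 => x i := by fun_prop

/-- every point is joined to the boundary -/
theorem reach (hC : ChartS) (hT : TouchS) (hL : LocS) {S : Set E4} (hS : Sym S) {a b : ℝ}
    (hab : a ≠ b) {x : E4} (hx : x ∈ Up S a b) : ∃ z ∈ Bd S, JoinedIn (Up S a b) x z := by
  by_contra hno
  push Not at hno
  let C : Set E4 := {z | JoinedIn (Up S a b) x z}
  have hxC : x ∈ C := JoinedIn.refl hx
  have hCD : C ⊆ Dq S := fun z hz => hz.target_mem.1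
  have hD := (hL.one S hS).1
  have hcl : closure C ⊆ Dq S := closure_minimal hCD hD.isClosed
  have hK : IsCompact (closure C) := hD.of_isClosed_subset isClosed_closure hcl
  have hpos : ∀ q ∈ closure C, 0 < q 0 + q 1 := by
    intro q hq
    obtain ⟨hqS, h0, h1⟩ := hcl hq
    by_contra hneg
    obtain ⟨V, hV, hr⟩ := corner_reach hC hL hS hqS (by linarith) (by linarith) a b
    obtain ⟨w, hwV, hw⟩ := mem_closure_iff_nhds.1 hq V hV
    obtain ⟨z, hz, hj⟩ := hr w ⟨hw.target_mem, hwV⟩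
    exact hno z hz (hw.trans hj)
  let f : E4 → ℝ := fun q => (a * q 0 + b * q 1) / (q 0 + q 1)
  have hf : ContinuousOn f (closure C) :=
    ContinuousOn.div (by fun_prop) (by fun_prop) fun q hq => (hpos q hq).ne'
  obtain ⟨q, hq, hmax⟩ := hK.exists_isMaxOn ⟨x, subset_closure hxC⟩ hf
  have hfx : 0 < f x := div_pos hx.2 (hpos x (subset_closure hxC))
  have hfq : 0 < f q := hfx.trans_le (hmax (subset_closure hxC))
  have hq' : 0 < a * q 0 + b * q 1 := (div_pos_iff_of_pos_right (hpos q hq)).1 hfq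
  have hopen : IsOpen {z : E4 | 0 < a * z 0 + b * z 1} := isOpen_lt continuous_const (by fun_prop)
  obtain ⟨W, hW, hj⟩ := loc_joined hL hS (hcl hq) (hopen.mem_nhds hq')
  obtain ⟨w, hwW, hw⟩ := mem_closure_iff_nhds.1 hq W hW
  have hWC : ∀ z ∈ Dq S ∩ W, z ∈ C := fun z hz => hw.trans (hj w ⟨hCD hw, hwW⟩ z hz)
  have hqC : q ∈ C := hWC q ⟨hcl hq, mem_of_mem_nhds hW⟩
  obtain ⟨hqS, h0, h1⟩ := hcl hq
  have hq0 : 0 < q 0 := lt_of_le_of_ne h0 fun e => hno q ⟨hqS, h0, h1, Or.inl e.symm⟩ hqC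
  have hq1 : 0 < q 1 := lt_of_le_of_ne h1 fun e => hno q ⟨hqS, h0, h1, Or.inr e.symm⟩ hqC
  let v : E4 := !₂[f q - a, f q - b, 0, 0]
  have hv : ∀ z : E4, ⟪v, z⟫_ℝ = f q * (z 0 + z 1) - (a * z 0 + b * z 1) := fun z => by
    rw [inner4]; simp [v]; ring
  have hv0 : v ≠ 0 := fun e => by
    have e0 : f q - a = 0 := by simpa [v] using congrArg (fun z : E4 => z 0) e
    have e1 : f q - b = 0 := by simpa [v] using congrArg (fun z : E4 => z 1) e
    exact hab (by linarith)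
  have hvq : ⟪v, q⟫_ℝ = 0 := by
    rw [hv]
    simp only [f]
    rw [div_mul_cancel₀ _ (hpos q hq).ne', sub_self]
  have hev : ∀ᶠ z in 𝓝[S] q, 0 ≤ ⟪v, z⟫_ℝ := by
    have e0 : ∀ᶠ z : E4 in 𝓝 q, 0 < z 0 := (cont_coord 0).continuousAt.eventually_const_lt hq0
    have e1 : ∀ᶠ z : E4 in 𝓝 q, 0 < z 1 := (cont_coord 1).continuousAt.eventually_const_lt hq1
    filter_upwards [self_mem_nhdsWithin, mem_nhdsWithin_of_mem_nhds e0,
      mem_nhdsWithin_of_mem_nhds e1, mem_nhdsWithin_of_mem_nhds hW] with z hz z0 z1 hzW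
    have hzC := hWC z ⟨⟨hz, z0.le, z1.le⟩, hzW⟩
    have h2 : f z ≤ f q := hmax (subset_closure hzC)
    have h3 := (div_le_iff₀ (by linarith : 0 < z 0 + z 1)).1 h2
    rw [hv]
    linarith
  obtain ⟨z, hz, hz0⟩ := hS.ngeo v hv0
  exact hz0 (hT.geo S hS.minimal hS.conn.isPreconnected v
    ⟨q, hqS, hT.sphere S hS.minimal q hqS v hvq hev⟩ z hz)

/-! ### Critical points are saddles -/

theorem cis_norm (φ : ℝ) : ‖cis φ‖ = 1 := Complex.norm_exp_ofReal_mul_I φ

theorem norm_ray {s : ℝ} (hs : 0 ≤ s) (β : ℝ) : ‖(s : ℂ) * cis β‖ = s := by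
  rw [norm_mul, cis_norm, mul_one, Complex.norm_real, Real.norm_eq_abs, abs_of_nonneg hs]

theorem lead_ray (c : ℂ) {m : ℕ} (hm : 2 ≤ m) (s θ : ℝ) :
    (c * ((s : ℂ) * cis ((θ - c.arg) / m)) ^ m).re = ‖c‖ * s ^ m * Real.cos θ := by
  have hm0 : (m : ℂ) ≠ 0 := Nat.cast_ne_zero.2 (by omega)
  have e : c * ((s : ℂ) * cis ((θ - c.arg) / m)) ^ m =
      ((‖c‖ * s ^ m : ℝ) : ℂ) * Complex.exp (θ * Complex.I) := by
    have e1 : cis ((θ - c.arg) / m) ^ m = Complex.exp ((θ - c.arg) * Complex.I) := by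
      rw [cis, ← Complex.exp_nat_mul]
      congr 1
      push_cast
      field_simp
    have e2 : Complex.exp (θ * Complex.I) =
        Complex.exp (c.arg * Complex.I) * Complex.exp ((θ - c.arg) * Complex.I) := by
      rw [← Complex.exp_add]; congr 1; ring
    rw [mul_pow, e1, e2]
    have e3 := Complex.norm_mul_exp_arg_mul_I c
    push_cast
    linear_combination (-(s : ℂ) ^ m * Complex.exp ((θ - c.arg) * Complex.I)) * e3
  rw [e, Complex.re_ofReal_mul, Complex.exp_ofReal_mul_I_re]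

/-- four rays on which `f` is alternately positive and negative -/
def Sad (S : Set E4) (f : E4 → ℝ) (p : E4) : Prop :=
  ∃ (κ : ℂ → E4) (δ β₁ β₂ β₃ β₄ : ℝ), 0 < δ ∧ ContinuousOn κ (closedBall 0 δ) ∧
    InjOn κ (closedBall 0 δ) ∧ MapsTo κ (closedBall 0 δ) (Dq S) ∧ κ 0 = p ∧
    β₁ < β₂ ∧ β₂ < β₃ ∧ β₃ < β₄ ∧ β₄ < β₁ + 2 * π ∧ ∀ s ∈ Ioc 0 δ,
      0 < f (κ (s * cis β₁)) ∧ f (κ (s * cis β₂)) < 0 ∧ 0 < f (κ (s * cis β₃)) ∧
        f (κ (s * cis β₄)) < 0

theorem sad_chart (hL : LocS) {S : Set E4} (hS : Sym S) {O : Iso} {δ : ℝ} {u : P2 → ℝ}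
    (hch : Chart S O δ u) (hp : O (ee 0) ∈ Do S) :
    Sad S (fun x => ⟪O (ee 3), x⟫_ℝ) (O (ee 0)) := by
  obtain ⟨m, c, hm, hc, C, δ₁, hδ₁, hl⟩ := hL.lead S hS O δ u hch
  have hT : ∀ z : ℂ, ‖T0 z‖ ≤ ‖z‖ := fun z => by
    rw [Prod.norm_def]
    exact max_le (Complex.abs_re_le_norm z) (Complex.abs_im_le_norm z)
  have hTb : ∀ z : ℂ, ‖z‖ < δ → T0 z ∈ ball (0 : P2) δ := fun z hz =>
    mem_ball_zero_iff.2 ((hT z).trans_lt hz)
  let κ : ℂ → E4 := fun z => gX O u (T0 z)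
  have hκ : ContinuousOn κ (ball 0 δ) :=
    (gX_cont hch).comp T0.continuous.continuousOn fun z hz => hTb z (mem_ball_zero_iff.1 hz)
  have hκ0 : κ 0 = O (ee 0) := by simp only [κ, map_zero, gX_zero hch]
  have hca : ContinuousAt κ 0 := hκ.continuousAt (ball_mem_nhds _ hch.pos)
  have e0 : ∀ᶠ z in 𝓝 (0 : ℂ), 0 < κ z 0 :=
    ((cont_coord 0).continuousAt.comp hca).eventually_const_lt (by
      show 0 < κ 0 0
      rw [hκ0]; exact hp.2.1)
  have e1 : ∀ᶠ z in 𝓝 (0 : ℂ), 0 < κ z 1 :=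
    ((cont_coord 1).continuousAt.comp hca).eventually_const_lt (by
      show 0 < κ 0 1
      rw [hκ0]; exact hp.2.2)
  have hc0 : 0 < ‖c‖ := norm_pos_iff.2 hc
  have e2 : ∀ᶠ z in 𝓝 (0 : ℂ), C * ‖z‖ < ‖c‖ :=
    ContinuousAt.eventually_lt (f := fun z : ℂ => C * ‖z‖) (by fun_prop) continuousAt_const
      (by simpa using hc)
  have e3 : ∀ᶠ z in 𝓝 (0 : ℂ), ‖z‖ < δ :=
    ContinuousAt.eventually_lt (by fun_prop) continuousAt_const (by simpa using hch.pos)
  have e4 : ∀ᶠ z in 𝓝 (0 : ℂ), ‖z‖ < δ₁ :=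
    ContinuousAt.eventually_lt (by fun_prop) continuousAt_const (by simpa using hδ₁)
  obtain ⟨ε, hε, hb⟩ := nhds_basis_closedBall.eventually_iff.1
    (e0.and (e1.and (e2.and (e3.and e4))))
  have hmR : (0 : ℝ) < m := Nat.cast_pos.2 (by omega)
  have hm2 : (2 : ℝ) ≤ m := by exact_mod_cast hm
  have key : ∀ s ∈ Ioc 0 ε, ∀ θ e : ℝ, Real.cos θ = e → (e = 1 ∨ e = -1) →
      0 < e * ⟪O (ee 3), κ (s * cis ((θ - c.arg) / m))⟫_ℝ := by
    intro s hs θ e he he1
    set z : ℂ := s * cis ((θ - c.arg) / m) with hz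
    have hn : ‖z‖ = s := norm_ray hs.1.le _
    obtain ⟨-, -, a2, -, a4⟩ := hb (mem_closedBall_zero_iff.2 (hn.trans_le hs.2))
    have h1 := (hl z a4).2.1
    rw [zero_add, hz, lead_ray c hm, ← hz, he, hn, pow_succ] at h1
    rw [hn] at a2
    have hsm : 0 < s ^ m := pow_pos hs.1 m
    have h2 : C * (s ^ m * s) < ‖c‖ * s ^ m := by nlinarith
    have h3 : 0 < e * u (T0 z) := by
      rw [abs_le] at h1
      rcases he1 with rfl | rfl <;> linarith [h1.1, h1.2]
    have h4 : ⟪O (ee 3), κ z⟫_ℝ = rh (T0 z) (u (T0 z)) * u (T0 z) := by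
      simp only [κ, gX]
      rw [inner_O, gn3]
    rw [h4, mul_left_comm]
    exact mul_pos (rh_pos _ _) h3
  have hpi := Real.pi_pos
  refine ⟨κ, ε, (0 - c.arg) / m, (π - c.arg) / m, (2 * π - c.arg) / m, (3 * π - c.arg) / m, hε,
    hκ.mono fun z hz => mem_ball_zero_iff.2 (hb hz).2.2.2.1, fun z _ z' _ h => ?_,
    fun z hz => ?_, hκ0, ?_, ?_, ?_, ?_, fun s hs => ⟨?_, ?_, ?_, ?_⟩⟩
  · exact Complex.equivRealProdCLM.injective (gX_inj O u h)
  · obtain ⟨a0, a1, -, a3, -⟩ := hb hz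
    exact ⟨gX_mem hch (hTb z a3), a0.le, a1.le⟩
  · exact div_lt_div_of_pos_right (by linarith) hmR
  · exact div_lt_div_of_pos_right (by linarith) hmR
  · exact div_lt_div_of_pos_right (by linarith) hmR
  · rw [div_add' _ _ _ hmR.ne']
    exact div_lt_div_of_pos_right (by nlinarith) hmR
  · simpa using key s hs 0 1 Real.cos_zero (Or.inl rfl)
  · simpa using key s hs π (-1) Real.cos_pi (Or.inr rfl)
  · simpa using key s hs (2 * π) 1 Real.cos_two_pi (Or.inl rfl)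
  · have : Real.cos (3 * π) = -1 := by
      rw [show 3 * π = π + 2 * π by ring, Real.cos_add_two_pi, Real.cos_pi]
    simpa using key s hs (3 * π) (-1) this (Or.inr rfl)

theorem Sad.smul {S : Set E4} {f g : E4 → ℝ} {p : E4} (h : Sad S f p) {k : ℝ} (hk : 0 < k)
    (e : ∀ x, g x = k * f x) : Sad S g p := by
  obtain ⟨κ, δ, β₁, β₂, β₃, β₄, a1, a2, a3, a4, a5, a6, a7, a8, a9, h⟩ := h
  refine ⟨κ, δ, β₁, β₂, β₃, β₄, a1, a2, a3, a4, a5, a6, a7, a8, a9, fun s hs => ?_⟩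
  obtain ⟨b1, b2, b3, b4⟩ := h s hs
  simp only [e]
  exact ⟨mul_pos hk b1, mul_neg_of_pos_of_neg hk b2, mul_pos hk b3, mul_neg_of_pos_of_neg hk b4⟩

/-- the level of a point -/
def lev (p : E4) : ℝ := p 1 / (p 0 + p 1)

theorem norm4 {x : E4} (h : ‖x‖ = 1) : x 0 ^ 2 + x 1 ^ 2 + x 2 ^ 2 + x 3 ^ 2 = 1 := by
  have := real_inner_self_eq_norm_sq x
  rw [inner4, h] at this
  linarith

theorem sad_crit (hM : MeqS) (hC : ChartS) (hL : LocS) {S : Set E4} (hS : Sym S) {p : E4}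
    (hp : p ∈ Crit S) : Sad S (fun x => -lev p * x 0 + (1 - lev p) * x 1) p := by
  obtain ⟨hD, ha, hv, hu⟩ := hp
  obtain ⟨hpS, h0, h1⟩ := hD
  have hp1 := hC.unit S hS.minimal p hpS
  obtain ⟨hN, hN'⟩ := hC.nor_spec S hS.minimal p hpS
  have main : ∀ n : E4, IsNor S p n → vv p n = 0 → u34 p n = 0 → 0 ≤ n 1 →
      Sad S (fun x => -lev p * x 0 + (1 - lev p) * x 1) p := by
    intro n hn hv hu hn1
    have i1 := hn.2.1
    rw [inner4] at i1
    have i2 := norm4 hn.1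
    have i3 := norm4 hp1
    unfold vv at hv
    unfold u34 at hu
    unfold aa at ha
    have hw : 0 < p 2 ^ 2 + p 3 ^ 2 := by linarith
    have j : p 2 * n 2 + p 3 * n 3 = 0 := by linarith
    have n2 : n 2 = 0 := by
      have : (p 2 ^ 2 + p 3 ^ 2) * n 2 = 0 := by linear_combination p 2 * j - p 3 * hu
      exact (mul_eq_zero.1 this).resolve_left hw.ne'
    have n3 : n 3 = 0 := by
      have : (p 2 ^ 2 + p 3 ^ 2) * n 3 = 0 := by linear_combination p 3 * j + p 2 * hu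
      exact (mul_eq_zero.1 this).resolve_left hw.ne'
    have n1 : 0 < n 1 := lt_of_le_of_ne hn1 fun e => by
      rw [← e] at hv i2
      have : n 0 = 0 := (mul_eq_zero.1 (by linarith : p 0 * n 0 = 0)).resolve_left h0.ne'
      rw [this, n2, n3] at i2
      norm_num at i2
    obtain ⟨⟨O, e0, e3⟩, -⟩ := hM.frame p n hp1 hn.1 hn.2.1
    obtain ⟨δ, u, hch⟩ := hC.chart S hS.minimal O (e0 ▸ hpS) (by rw [e0, e3]; exact hn)
    have := sad_chart hL hS hch (e0 ▸ ⟨hpS, h0, h1⟩)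
    rw [e0, e3] at this
    refine this.smul (k := p 0 / ((p 0 + p 1) * n 1)) (by positivity) fun x => ?_
    have n0 : n 0 = -(p 1 * n 1) / p 0 := by field_simp; linarith
    rw [inner4, n2, n3, n0, lev]
    field_simp
    ring
  rcases le_total 0 (nor S p 1) with h | h
  · exact main _ hN hv hu h
  · refine main (-nor S p) ((hN' _).2 (Or.inr rfl)) ?_ ?_ (by simpa using h)
    · unfold vv at hv ⊢
      simp only [PiLp.neg_apply]
      linarith
    · unfold u34 at hu ⊢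
      simp only [PiLp.neg_apply]
      linarith

/-! ### The top arcs -/

theorem exists_step (P : ℕ → Prop) (h0 : ¬ P 0) :
    ∀ I : ℕ, P I → ∃ i, i < I ∧ ¬ P i ∧ P (i + 1) := by
  intro I
  induction I with
  | zero => intro h; exact absurd h h0
  | succ I ih =>
    intro h
    by_cases hI : P I
    · obtain ⟨i, hi, h1, h2⟩ := ih hI
      exact ⟨i, Nat.lt_succ_of_lt hi, h1, h2⟩
    · exact ⟨I, Nat.lt_succ_self I, hI, h⟩

theorem cis_cont : Continuous cis := by unfold cis; fun_prop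

theorem cis_mem (φ : ℝ) : cis φ ∈ closedBall (0 : ℂ) 1 := by
  rw [mem_closedBall_zero_iff, cis_norm]

theorem exists_cis {z : ℂ} (hz : ‖z‖ = 1) (a : ℝ) : ∃ φ ∈ Ico a (a + 2 * π), cis φ = z := by
  refine ⟨toIcoMod Real.two_pi_pos a z.arg, toIcoMod_mem_Ico _ _ _, ?_⟩
  have e := Complex.norm_mul_exp_arg_mul_I z
  rw [hz, Complex.ofReal_one, one_mul] at e
  rw [← self_sub_toIcoDiv_zsmul, cis, zsmul_eq_mul]
  push_cast
  rw [sub_mul, Complex.exp_sub, mul_assoc, Complex.exp_int_mul_two_pi_mul_I, div_one, e]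

variable {S : Set E4} {H : ℂ → E4} {n : ℕ} {t : ℤ → ℝ}

/-- the midpoint of a top arc -/
def mid (H : ℂ → E4) (t : ℤ → ℝ) (i : ℕ) : E4 := H (cis ((t (2 * i + 1) + t (2 * i + 2)) / 2))

theorem arc_joined (hH : Star S H n t) {a b : ℝ} (hb : 0 < b) (i : ℕ) {φ : ℝ}
    (hφ : φ ∈ Ioo (t (2 * i + 1)) (t (2 * i + 2))) :
    JoinedIn (Up S a b) (H (cis φ)) (mid H t i) := by
  have hlt : t (2 * i + 1) < t (2 * i + 2) := hφ.1.trans hφ.2
  have hm : (t (2 * i + 1) + t (2 * i + 2)) / 2 ∈ Ioo (t (2 * i + 1)) (t (2 * i + 2)) :=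
    ⟨by linarith, by linarith⟩
  have hc : ContinuousOn (fun φ => H (cis φ)) (Ioo (t (2 * i + 1)) (t (2 * i + 2))) :=
    hH.cont.comp cis_cont.continuousOn fun φ _ => cis_mem φ
  refine ((((convex_Ioo _ _).isPathConnected ⟨φ, hφ⟩).joinedIn φ hφ _ hm).map_continuousOn
    hc).mono ?_
  rintro _ ⟨ψ, hψ, rfl⟩
  have hD : H (cis ψ) ∈ Dq S := hH.img.subset (mem_image_of_mem _ (cis_mem ψ))
  have h0 : H (cis ψ) 0 = 0 := hH.od i ψ (Ioo_subset_Icc_self hψ)
  have h1 : 0 < H (cis ψ) 1 := lt_of_le_of_ne hD.2.2 fun e => by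
    obtain ⟨j, rfl⟩ := hH.cor ψ h0 e.symm
    have a1 := hH.mono.lt_iff_lt.1 hψ.1
    have a2 := hH.mono.lt_iff_lt.1 hψ.2
    omega
  refine ⟨hD, ?_⟩
  show 0 < a * H (cis ψ) 0 + b * H (cis ψ) 1
  rw [h0, mul_zero, zero_add]
  exact mul_pos hb h1

theorem mid_mem (hH : Star S H n t) {a b : ℝ} (hb : 0 < b) (i : ℕ) : mid H t i ∈ Up S a b := by
  have hlt : t (2 * i + 1) < t (2 * i + 2) := hH.mono (by omega)
  exact (arc_joined hH hb i (φ := (t (2 * i + 1) + t (2 * i + 2)) / 2)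
    ⟨by linarith, by linarith⟩).target_mem

theorem reach_mid (hC : ChartS) (hT : TouchS) (hL : LocS) (hS : Sym S) (hH : Star S H n t)
    {a b : ℝ} (ha : a < 0) (hb : 0 < b) {x : E4} (hx : x ∈ Up S a b) :
    ∃ i : Fin n, JoinedIn (Up S a b) x (mid H t i) := by
  obtain ⟨w, hw, hj⟩ := reach hC hT hL hS (by linarith : a ≠ b) hx
  have hw1 : w 1 ≠ 0 := fun e => by
    have h1 : 0 < a * w 0 + b * w 1 := hj.target_mem.2
    have h2 := mul_nonpos_of_nonpos_of_nonneg ha.le hw.2.1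
    rw [e] at h1
    linarith
  obtain ⟨z, hz, rfl⟩ := hH.img.symm.subset hj.target_mem.1
  obtain ⟨φ, hφ, rfl⟩ := exists_cis ((hH.bd z hz).2 hw) (t 1)
  obtain ⟨k, hk, h1, h2⟩ := exists_step (fun k => φ < t (1 + k)) (by simpa using hφ.1) (2 * n) (by
    have := hH.per 1
    push_cast
    rw [this]
    exact hφ.2)
  rw [not_lt] at h1
  obtain ⟨i, rfl | rfl⟩ := Nat.even_or_odd' k
  · have e1 : (1 : ℤ) + ((2 * i : ℕ) : ℤ) = 2 * i + 1 := by push_cast; ring
    have e2 : (1 : ℤ) + ((2 * i + 1 : ℕ) : ℤ) = 2 * i + 2 := by push_cast; ring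
    rw [e1] at h1
    rw [e2] at h2
    have h3 : t (2 * i + 1) < φ := lt_of_le_of_ne h1 fun e =>
      hw1 (hH.ev i φ ⟨e ▸ hH.mono.monotone (by omega), e.ge⟩)
    exact ⟨⟨i, by omega⟩, hj.trans (arc_joined hH hb i ⟨h3, h2⟩)⟩
  · have e1 : (1 : ℤ) + ((2 * i + 1 : ℕ) : ℤ) = 2 * (i + 1) := by push_cast; ring
    have e2 : (1 : ℤ) + ((2 * i + 1 + 1 : ℕ) : ℤ) = 2 * (i + 1) + 1 := by push_cast; ring
    rw [e1] at h1
    rw [e2] at h2
    exact absurd (hH.ev (i + 1) φ ⟨h1, h2.le⟩) hw1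

/-! ### No crossing -/

theorem outside {z w : ℂ} (hz : ‖z‖ = 1) (hw : ‖w‖ = 1) :
    JoinedIn ({z, w} ∪ {ζ | 1 < ‖ζ‖}) z w := by
  obtain ⟨a, -, rfl⟩ := exists_cis hz 0
  obtain ⟨b, -, rfl⟩ := exists_cis hw 0
  refine JoinedIn.ofLine (f := fun s : ℝ => ((1 + s * (1 - s) : ℝ) : ℂ) * cis (a + s * (b - a)))
    (Continuous.continuousOn (by have := cis_cont; fun_prop)) (by simp) (by simp) ?_
  rintro _ ⟨s, ⟨h0, h1⟩, rfl⟩
  rcases eq_or_lt_of_le h0 with rfl | h0'
  · left; simp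
  rcases eq_or_lt_of_le h1 with rfl | h1'
  · left; simp
  right
  have := mul_pos h0' (sub_pos.2 h1')
  show 1 < ‖((1 + s * (1 - s) : ℝ) : ℂ) * cis (a + s * (b - a))‖
  rw [norm_ray (by linarith)]
  linarith

theorem exists_inv (hH : Star S H n t) : ∃ e : E4 → ℂ, ContinuousOn e (Dq S) ∧ InjOn e (Dq S) ∧
    (∀ x ∈ Dq S, ‖e x‖ ≤ 1) ∧ ∀ x ∈ Bd S, ‖e x‖ = 1 := by
  let e := Function.invFunOn H (closedBall 0 1)
  have h1 : ∀ x ∈ Dq S, e x ∈ closedBall (0 : ℂ) 1 ∧ H (e x) = x := fun x hx =>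
    Function.invFunOn_pos (hH.img.symm.subset hx)
  refine ⟨e, continuousOn_iff_isClosed.2 fun T hT => ⟨H '' (closedBall 0 1 ∩ T), ?_, ?_⟩,
    fun x hx y hy h => by rw [← (h1 x hx).2, h, (h1 y hy).2],
    fun x hx => mem_closedBall_zero_iff.1 (h1 x hx).1, fun x hx => ?_⟩
  · exact (((isCompact_closedBall _ _).inter_right hT).image_of_continuousOn
      (hH.cont.mono inter_subset_left)).isClosed
  · ext x
    constructor
    · rintro ⟨a1, a2⟩
      exact ⟨⟨e x, ⟨(h1 x a2).1, a1⟩, (h1 x a2).2⟩, a2⟩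
    · rintro ⟨⟨z, ⟨a1, a2⟩, rfl⟩, a3⟩
      refine ⟨?_, a3⟩
      rwa [mem_preimage, hH.inj (h1 _ a3).1 a1 (h1 _ a3).2]
  · have hx' : x ∈ Dq S := ⟨hx.1, hx.2.1, hx.2.2.1⟩
    exact (hH.bd _ (h1 x hx').1).2 (by rwa [(h1 x hx').2])

theorem ray_mem {δ s : ℝ} (hs : s ∈ Icc 0 δ) (β : ℝ) : (s : ℂ) * cis β ∈ closedBall (0 : ℂ) δ := by
  rw [mem_closedBall_zero_iff, norm_ray hs.1]; exact hs.2

/-- the two positive rays of a saddle give a new connection -/
theorem new_edge (hC : ChartS) (hT : TouchS) (hL : LocS) (hP : PlanS) (hS : Sym S)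
    (hH : Star S H n t) {a b : ℝ} (hab : a ≠ b) {p : E4}
    (hp : Sad S (fun x => a * x 0 + b * x 1) p) (hp0 : a * p 0 + b * p 1 = 0) :
    ∃ x ∈ Up S a b, ∃ y ∈ Up S a b, JoinedIn (insert p (Up S a b)) x y ∧
      ∀ A ⊆ Dq S, p ∉ A → (∀ z ∈ A, 0 ≤ a * z 0 + b * z 1) → ¬ JoinedIn A x y := by
  obtain ⟨κ, δ, β₁, β₂, β₃, β₄, hδ, hc, hi, hm, h0, o1, o2, o3, o4, hs⟩ := hp
  have hδ' : δ ∈ Ioc 0 δ := ⟨hδ, le_rfl⟩
  have hδ'' : δ ∈ Icc 0 δ := ⟨hδ.le, le_rfl⟩
  have cases0 : ∀ s ∈ Icc 0 δ, ∀ β, κ (s * cis β) = p ∨ s ∈ Ioc 0 δ := fun s hs' β => by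
    rcases eq_or_lt_of_le hs'.1 with rfl | h
    · left; simpa using h0
    · exact Or.inr ⟨h, hs'.2⟩
  have toP : ∀ β, (∀ s ∈ Ioc 0 δ, 0 < a * κ (s * cis β) 0 + b * κ (s * cis β) 1) →
      JoinedIn (insert p (Up S a b)) p (κ (δ * cis β)) := by
    intro β hβ
    have hcs : ContinuousOn (fun s : ℝ => κ (s * cis β)) (Icc 0 δ) :=
      hc.comp (by fun_prop) fun s hs' => ray_mem hs' β
    have := (((convex_Icc 0 δ).isPathConnected ⟨δ, hδ''⟩).joinedIn 0 ⟨le_rfl, hδ.le⟩ δ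
      hδ'').map_continuousOn hcs
    simp only [Complex.ofReal_zero, zero_mul, h0] at this
    refine this.mono ?_
    rintro _ ⟨s, hs', rfl⟩
    rcases cases0 s hs' β with h | h
    · exact Or.inl h
    · exact Or.inr ⟨hm (ray_mem hs' β), hβ s h⟩
  refine ⟨_, ⟨hm (ray_mem hδ'' β₁), (hs δ hδ').1⟩, _, ⟨hm (ray_mem hδ'' β₃), (hs δ hδ').2.2.1⟩,
    (toP β₁ fun s h => (hs s h).1).symm.trans (toP β₃ fun s h => (hs s h).2.2.1), ?_⟩
  intro A hA hpA hA0 hj
  obtain ⟨e, ec, ei, e1, e2⟩ := exists_inv hH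
  have neg : ∀ z, z ∈ Up S (-a) (-b) ↔ z ∈ Dq S ∧ a * z 0 + b * z 1 < 0 := fun z =>
    and_congr_right fun _ => by constructor <;> intro h <;> linarith
  have hUD : Up S (-a) (-b) ⊆ Dq S := fun z hz => hz.1
  obtain ⟨z₂, b2, j2⟩ := reach hC hT hL hS (a := -a) (b := -b) (by simpa using hab)
    ((neg _).2 ⟨hm (ray_mem hδ'' β₂), (hs δ hδ').2.1⟩)
  obtain ⟨z₄, b4, j4⟩ := reach hC hT hL hS (a := -a) (b := -b) (by simpa using hab)
    ((neg _).2 ⟨hm (ray_mem hδ'' β₄), (hs δ hδ').2.2.2⟩)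
  have dis : ∀ X Y : Set E4, X ⊆ Dq S → Y ⊆ Dq S → Disjoint X Y → Disjoint (e '' X) (e '' Y) :=
    fun X Y hX hY h => disjoint_image_image fun x hx y hy hxy =>
      disjoint_left.1 h hx (ei (hX hx) (hY hy) hxy ▸ hy)
  have dis' : ∀ X : Set E4, X ⊆ Dq S → (∀ z ∈ X, 0 ≤ a * z 0 + b * z 1) →
      Disjoint (e '' X) (e '' Up S (-a) (-b) ∪ {ζ | 1 < ‖ζ‖}) := fun X hX hX0 => by
    refine disjoint_union_right.2 ⟨dis _ _ hX hUD (disjoint_left.2 fun z h1 h2 => ?_),
      disjoint_left.2 ?_⟩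
    · exact absurd (hX0 z h1) (not_le.2 ((neg z).1 h2).2)
    · rintro _ ⟨z, hz, rfl⟩ h
      exact absurd (e1 z (hX hz)) (not_le.2 h)
  have spk : ∀ β, spoke (fun z => e (κ z)) δ β = e '' spoke κ δ β := fun β => by
    simp only [spoke, image_image]
  have spD : ∀ β, spoke κ δ β ⊆ Dq S := by
    rintro β _ ⟨s, hs', rfl⟩
    exact hm (ray_mem hs' β)
  have dA : ∀ β, (∀ s ∈ Ioc 0 δ, a * κ (s * cis β) 0 + b * κ (s * cis β) 1 < 0) →
      Disjoint (e '' A) (spoke (fun z => e (κ z)) δ β) := fun β hβ => by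
    rw [spk]
    refine dis _ _ hA (spD β) (disjoint_right.2 ?_)
    rintro _ ⟨s, hs', rfl⟩ h
    rcases cases0 s hs' β with h' | h'
    · exact hpA (h' ▸ h)
    · exact absurd (hA0 _ h) (not_le.2 (hβ s h'))
  have dB : ∀ β, (∀ s ∈ Ioc 0 δ, 0 < a * κ (s * cis β) 0 + b * κ (s * cis β) 1) →
      Disjoint (e '' Up S (-a) (-b) ∪ {ζ | 1 < ‖ζ‖}) (spoke (fun z => e (κ z)) δ β) :=
    fun β hβ => by
    rw [spk]
    refine (dis' _ (spD β) ?_).symm
    rintro _ ⟨s, hs', rfl⟩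
    rcases cases0 s hs' β with h' | h'
    · simp only [h', hp0, le_refl]
    · exact (hβ s h').le
  refine hP.int ℂ univ (fun z => e (κ z)) δ β₁ β₂ β₃ β₄ (e '' A)
    (e '' Up S (-a) (-b) ∪ {ζ | 1 < ‖ζ‖}) ⟨id, continuousOn_id, injOn_id _⟩ hδ (ec.comp hc hm)
    (ei.comp hi hm) (mapsTo_univ _ _) o1 o2 o3 o4 (subset_univ _) (subset_univ _)
    (hj.map_continuousOn (ec.mono hA)) ?_ (dis' A hA hA0) (dA β₂ fun s h => (hs s h).2.1)
    (dA β₄ fun s h => (hs s h).2.2.2) (dB β₁ fun s h => (hs s h).1)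
    (dB β₃ fun s h => (hs s h).2.2.1)
  refine ((j2.map_continuousOn (ec.mono hUD)).mono subset_union_left).trans
    (((outside (e2 _ b2) (e2 _ b4)).mono (union_subset_union_left _ ?_)).trans
      ((j4.map_continuousOn (ec.mono hUD)).mono subset_union_left).symm)
  rintro _ (rfl | rfl)
  · exact mem_image_of_mem _ j2.target_mem
  · exact mem_image_of_mem _ j4.target_mem

/-! ### Counting -/

/-- two of the points are equivalent if they are joined in `A` -/
def rel {n : ℕ} (b : Fin n → E4) (A : Set E4) : Setoid (Fin n) where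
  r i j := i = j ∨ JoinedIn A (b i) (b j)
  iseqv := ⟨fun _ => Or.inl rfl, fun h => h.imp Eq.symm JoinedIn.symm, by
    rintro i j k (rfl | h) h'
    · exact h'
    · rcases h' with rfl | h'
      · exact Or.inr h
      · exact Or.inr (h.trans h')⟩

/-- the number of classes -/
def cls {n : ℕ} (b : Fin n → E4) (A : Set E4) : ℕ := Nat.card (Quotient (rel b A))

/-- the map on classes -/
def clsMap {n : ℕ} (b : Fin n → E4) {A B : Set E4} (h : A ⊆ B) :
    Quotient (rel b A) → Quotient (rel b B) :=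
  Quotient.map id fun _ _ hij => Or.imp id (fun h' => JoinedIn.mono h' h) hij

theorem clsMap_surj {n : ℕ} (b : Fin n → E4) {A B : Set E4} (h : A ⊆ B) :
    Function.Surjective (clsMap b h) := by
  rintro ⟨i⟩
  exact ⟨Quotient.mk _ i, rfl⟩

theorem cls_le {n : ℕ} (b : Fin n → E4) (A : Set E4) : cls b A ≤ n := by
  have := Nat.card_le_card_of_surjective (Quotient.mk (rel b A)) Quotient.mk_surjective
  simpa [cls] using this

theorem cls_pos {n : ℕ} (hn : 0 < n) (b : Fin n → E4) (A : Set E4) : 0 < cls b A :=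
  have : Nonempty (Quotient (rel b A)) := ⟨Quotient.mk _ ⟨0, hn⟩⟩
  Nat.card_pos

theorem cls_mono {n : ℕ} (b : Fin n → E4) {A B : Set E4} (h : A ⊆ B) : cls b B ≤ cls b A :=
  Nat.card_le_card_of_surjective _ (clsMap_surj b h)

theorem cls_lt {n : ℕ} (b : Fin n → E4) {A B : Set E4} (h : A ⊆ B) {i j : Fin n}
    (h1 : JoinedIn B (b i) (b j)) (h2 : b i ∈ A) (h3 : ¬ JoinedIn A (b i) (b j)) :
    cls b B < cls b A := by
  refine lt_of_le_of_ne (cls_mono b h) fun e => ?_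
  have hb := (Nat.bijective_iff_surjective_and_card (clsMap b h)).2 ⟨clsMap_surj b h, e.symm⟩
  have h4 : Quotient.mk (rel b A) i = Quotient.mk (rel b A) j :=
    hb.1 (Quotient.sound (s := rel b B) (Or.inr h1))
  rcases Quotient.exact h4 with rfl | h5
  · exact h3 (JoinedIn.refl h2)
  · exact h3 h5

theorem lev_mem {p : E4} (hp : p ∈ Do S) : 0 < lev p ∧ lev p < 1 ∧ lev p * (p 0 + p 1) = p 1 := by
  obtain ⟨-, h0, h1⟩ := hp
  have : 0 < p 0 + p 1 := by linarith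
  exact ⟨div_pos h1 this, (div_lt_one this).2 (by linarith), div_mul_cancel₀ _ this.ne'⟩

theorem count (hM : MeqS) (hC : ChartS) (hT : TouchS) (hL : LocS) (hP : PlanS) (hS : Sym S)
    (hH : Star S H n t) (G : Finset E4) : ↑G ⊆ Crit S → ∀ c : ℝ, (∀ x ∈ G, c ≤ lev x) →
      cls (fun i : Fin n => mid H t i) (Up S (-c) (1 - c) ∪ ↑G) + G.card ≤ n := by
  classical
  induction G using Finset.induction_on_min_value lev with
  | empty => intro _ _ _; simpa using cls_le _ _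
  | insert p G hpG hmin ih =>
    intro hG c hc
    have hp : p ∈ Crit S := hG (by simp)
    have hG' : ↑G ⊆ Crit S := fun x hx => hG (by simp [show x ∈ G from hx])
    obtain ⟨l0, l1, l2⟩ := lev_mem hp.1
    have h1 := ih hG' (lev p) hmin
    have hcp : c ≤ lev p := hc p (by simp)
    have hp0 : -lev p * p 0 + (1 - lev p) * p 1 = 0 := by linarith
    obtain ⟨x, hx, y, hy, hj, hno⟩ := new_edge hC hT hL hP hS hH (a := -lev p) (b := 1 - lev p)
      (by linarith) (sad_crit hM hC hL hS hp) hp0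
    obtain ⟨i, hi⟩ := reach_mid hC hT hL hS hH (by linarith) (by linarith) hx
    obtain ⟨j, hj'⟩ := reach_mid hC hT hL hS hH (by linarith) (by linarith) hy
    have s1 : Up S (-lev p) (1 - lev p) ∪ ↑G ⊆ Up S (-lev p) (1 - lev p) ∪ ↑(insert p G) :=
      union_subset_union_right _ fun z hz => by simp [show z ∈ G from hz]
    have s2 : Up S (-lev p) (1 - lev p) ∪ ↑(insert p G) ⊆ Up S (-c) (1 - c) ∪ ↑(insert p G) :=
      union_subset_union_left _ fun z hz => ⟨hz.1, by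
        have a1 := hz.2
        have a2 := mul_nonneg (sub_nonneg.2 hcp) (add_nonneg hz.1.2.1 hz.1.2.2)
        nlinarith⟩
    have h2 := cls_mono (fun i : Fin n => mid H t i) s2
    have h3 := cls_lt (fun i : Fin n => mid H t i) s1 (i := i) (j := j)
      (((hi.symm.mono subset_union_left).trans (hj.mono (by
        rintro z (rfl | hz)
        · exact Or.inr (by simp)
        · exact Or.inl hz))).trans (hj'.mono subset_union_left))
      (Or.inl hi.target_mem) fun h => hno (Up S (-lev p) (1 - lev p) ∪ ↑G) (by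
        rintro z (hz | hz)
        · exact hz.1
        · have := (hG' hz).1
          exact ⟨this.1, this.2.1.le, this.2.2.le⟩) (by
        rintro (h' | h')
        · exact absurd h'.2 (by rw [hp0]; exact lt_irrefl _)
        · exact hpG h') (by
        rintro z (hz | hz)
        · exact hz.2.le
        · have hzD := (hG' hz).1
          obtain ⟨-, -, m2⟩ := lev_mem hzD
          have a2 := mul_nonneg (sub_nonneg.2 (hmin z hz)) (add_nonneg hzD.2.1.le hzD.2.2.le)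
          nlinarith)
        (((hi.mono subset_union_left).trans h).trans (hj'.symm.mono subset_union_left))
    rw [Finset.card_insert_of_notMem hpG]
    omega

end DCrit

open DCrit in
theorem critS (hM : MeqS) (hC : ChartS) (hT : TouchS) (hL : LocS) (hP : PlanS) : CritS := by
  intro S H n t hS hH
  have key : ∀ G : Finset E4, ↑G ⊆ Crit S → G.card < n := fun G hG => by
    have h1 := count hM hC hT hL hP hS.toSym hH G hG 0 fun x hx => (lev_mem (hG hx).1).1.le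
    have h2 := cls_pos hH.npos (fun i : Fin n => mid H t i) (Up S (-0) (1 - 0) ∪ ↑G)
    omega
  have hfin : (Crit S).Finite := by
    by_contra hinf
    obtain ⟨G, hG, hc⟩ := Set.Infinite.exists_subset_card_eq hinf n
    exact absurd (key G hG) (by omega)
  exact ⟨hfin.toFinset, key _ (by simp), by simp⟩

end Pool.Agent.Lib.MP_16d934_gt
end
end
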