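import Pool.Agent.Lib.MP_16d934_gt.DCrit

-- part Pool.Agent.Lib.MP_16d934_gt.DGeob
section

/-! Geometry of the quarter: no crossing arguments. -/

set_option autoImplicit false

open Set Metric Filter Topology Asymptotics
open scoped ContDiff InnerProductSpace NNReal Real

noncomputable section

namespace Pool.Agent.Lib.MP_16d934_gt

namespace DGeo

/-- choice of a small disc in a chart -/
theorem pick (hC : ChartS) {S : Set E4} {O : Iso} {δ : ℝ} {u : P2 → ℝ} (h : Chart S O δ u)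
    {W : Set E4} (hW : W ∈ 𝓝 (O (ee 0))) {P : ℝ → Prop} (hP : ∀ᶠ s in 𝓝[>] 0, P s) :
    ∃ r > 0, ContinuousOn (fun z => gX O u (T0 z)) (closedBall 0 r) ∧
      (∀ z ∈ closedBall (0 : ℂ) r, gX O u (T0 z) ∈ S ∩ W) ∧ ∀ s ∈ Ioc 0 r, P s := by
  have c0 : ContinuousAt (gX O u) 0 := gX_cont O (h.sol.1 0 (mem_ball_self h.pos)).continuousAt
  have e1 : ∀ᶠ y in 𝓝 (0 : P2), y ∈ ball (0 : P2) δ ∧ gX O u y ∈ W :=
    Filter.Eventually.and (ball_mem_nhds _ h.pos)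
      (c0.eventually_mem (by rwa [gX_zero O h.zero]))
  have t0 : Tendsto T0 (𝓝 0) (𝓝 0) := by simpa using T0.continuous.tendsto 0
  obtain ⟨r1, hr1, h1⟩ := nhds_basis_closedBall.eventually_iff.1 (t0.eventually e1)
  obtain ⟨r2, hr2, h2⟩ := mem_nhdsGT_iff_exists_Ioc_subset.1 hP
  refine ⟨min r1 r2, lt_min hr1 hr2, fun z hz => ?_, fun z hz => ?_, fun s hs => ?_⟩
  · have hz1 := h1 (closedBall_subset_closedBall (min_le_left _ _) hz)
    exact ((gX_cont O (h.sol.1 _ hz1.1).continuousAt).comp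
      T0.continuous.continuousAt).continuousWithinAt
  · have hz1 := h1 (closedBall_subset_closedBall (min_le_left _ _) hz)
    exact ⟨(hC.facts S O _ u (lch h) _ hz1.1).1, hz1.2⟩
  · exact h2 ⟨hs.1, hs.2.trans (min_le_right _ _)⟩

theorem mem_cb {s r : ℝ} (β : ℝ) (hs : s ∈ Icc 0 r) : (s : ℂ) * cis β ∈ closedBall (0 : ℂ) r := by
  rw [mem_closedBall_zero_iff, norm_cis, abs_of_nonneg hs.1]
  exact hs.2

theorem do_dq {S : Set E4} {x : E4} (h : x ∈ Do S) : x ∈ Dq S := ⟨h.1, h.2.1.le, h.2.2.le⟩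

theorem bd_dq {S : Set E4} {x : E4} (h : x ∈ Bd S) : x ∈ Dq S := ⟨h.1, h.2.1, h.2.2.1⟩

theorem not_bd {S : Set E4} {x : E4} (h : x ∈ Do S) : x ∉ Bd S := fun hb =>
  hb.2.2.2.elim h.2.1.ne' h.2.2.ne'

/-- values on a spoke -/
theorem spoke_all {κ : ℂ → E4} {r β : ℝ} {Q : E4 → Prop} (h0 : Q (κ 0))
    (h : ∀ s ∈ Ioc 0 r, Q (κ (s * cis β))) : ∀ x ∈ spoke κ r β, Q x := by
  rintro _ ⟨s, hs, rfl⟩
  rcases hs.1.eq_or_lt with rfl | h1
  · simpa using h0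
  · exact h s ⟨h1, hs.2⟩

/-- four alternating spokes at an inner point are impossible -/
theorem four (hP : PlanS) (hQ : QcS) {S : Set E4} (hS : Sym2 S) {v : E4} (v0 : 0 ≤ v 0)
    (v1 : 0 ≤ v 1) {κ : ℂ → E4} {r β₁ β₂ β₃ β₄ : ℝ} (hr : 0 < r)
    (hc : ContinuousOn κ (closedBall 0 r)) (hi : InjOn κ (closedBall 0 r))
    (hD : ∀ z ∈ closedBall (0 : ℂ) r, κ z ∈ Do S) (h0 : ⟪v, κ 0⟫_ℝ = 0)
    (b12 : β₁ < β₂) (b23 : β₂ < β₃) (b34 : β₃ < β₄) (b41 : β₄ < β₁ + 2 * π)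
    (hs : ∀ s ∈ Ioc 0 r, 0 < ⟪v, κ (s * cis β₁)⟫_ℝ ∧ ⟪v, κ (s * cis β₂)⟫_ℝ < 0 ∧
      0 < ⟪v, κ (s * cis β₃)⟫_ℝ ∧ ⟪v, κ (s * cis β₄)⟫_ℝ < 0) : False := by
  have hrr : r ∈ Icc 0 r := ⟨hr.le, le_rfl⟩
  obtain ⟨s1, s2, s3, s4⟩ := hs r ⟨hr, le_rfl⟩
  obtain ⟨b, hb, jb⟩ := hQ.neg S hS.toSym v v0 v1 _ (hD _ (mem_cb β₂ hrr)) s2
  obtain ⟨b', hb', jb'⟩ := hQ.neg S hS.toSym v v0 v1 _ (hD _ (mem_cb β₄ hrr)) s4
  have sp : ∀ β, ∀ x ∈ spoke κ r β, x ∈ Do S := by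
    rintro β _ ⟨s, hs, rfl⟩
    exact hD _ (mem_cb β hs)
  refine hP.int E4 (Dq S) κ r β₁ β₂ β₃ β₄ (Do S ∩ {z | 0 < ⟪v, z⟫_ℝ})
    ((Dq S ∩ {z | ⟪v, z⟫_ℝ < 0}) ∪ Bd S) hS.planar hr hc hi (fun z hz => do_dq (hD z hz))
    b12 b23 b34 b41 (fun x hx => do_dq hx.1) (fun x hx => hx.elim (fun h => h.1) bd_dq)
    (hQ.pos S hS.toSym v v0 v1 _ (hD _ (mem_cb β₁ hrr)) _ (hD _ (mem_cb β₃ hrr)) s1 s3)
    (((jb.mono subset_union_left).trans
      ((hS.bconn.joinedIn b hb b' hb').mono subset_union_right)).trans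
        (jb'.mono subset_union_left).symm) ?_ ?_ ?_ ?_ ?_
  · rw [Set.disjoint_left]
    rintro x ⟨h1, h2⟩ (⟨-, h3⟩ | h3)
    · exact lt_asymm (show 0 < ⟪v, x⟫_ℝ from h2) h3
    · exact not_bd h1 h3
  · rw [Set.disjoint_right]
    intro x hx h2
    exact (spoke_all (Q := fun x => ⟪v, x⟫_ℝ ≤ 0) h0.le (fun s h => (hs s h).2.1.le) x hx).not_gt
      h2.2
  · rw [Set.disjoint_right]
    intro x hx h2
    exact (spoke_all (Q := fun x => ⟪v, x⟫_ℝ ≤ 0) h0.le (fun s h => (hs s h).2.2.2.le) x hx).not_gt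
      h2.2
  · rw [Set.disjoint_right]
    rintro x hx (h2 | h2)
    · exact (spoke_all (Q := fun x => 0 ≤ ⟪v, x⟫_ℝ) h0.ge (fun s h => (hs s h).1.le) x hx).not_gt
        h2.2
    · exact not_bd (sp _ x hx) h2
  · rw [Set.disjoint_right]
    rintro x hx (h2 | h2)
    · exact (spoke_all (Q := fun x => 0 ≤ ⟪v, x⟫_ℝ) h0.ge (fun s h => (hs s h).2.2.1.le)
        x hx).not_gt h2.2
    · exact not_bd (sp _ x hx) h2

/-- three alternating spokes at a boundary point are impossible -/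
theorem three (hP : PlanS) (hQ : QcS) {S : Set E4} (hS : Sym2 S) {v : E4} (v0 : 0 ≤ v 0)
    (v1 : 0 ≤ v 1) {κ : ℂ → E4} {r β₁ β₂ β₃ β₅ : ℝ} (hr : 0 < r)
    (hc : ContinuousOn κ (closedBall 0 r)) (hi : InjOn κ (closedBall 0 r))
    (hD : ∀ s ∈ Ioc 0 r, ∀ β ∈ Ioo 0 β₅, κ (s * cis β) ∈ Do S)
    (hB : ∀ s ∈ Icc 0 r, κ (s * cis 0) ∈ Bd S ∧ κ (s * cis β₅) ∈ Bd S) (h0 : ⟪v, κ 0⟫_ℝ = 0)
    (b01 : 0 < β₁) (b12 : β₁ < β₂) (b23 : β₂ < β₃) (b35 : β₃ < β₅) (b5 : β₅ < 2 * π)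
    (hs : ∀ s ∈ Ioc 0 r, 0 < ⟪v, κ (s * cis β₁)⟫_ℝ ∧ ⟪v, κ (s * cis β₂)⟫_ℝ < 0 ∧
      0 < ⟪v, κ (s * cis β₃)⟫_ℝ) : False := by
  have hrr : r ∈ Icc 0 r := ⟨hr.le, le_rfl⟩
  have hr' : r ∈ Ioc 0 r := ⟨hr, le_rfl⟩
  have hp : κ 0 ∈ Bd S := by simpa using (hB 0 ⟨le_rfl, hr.le⟩).1
  obtain ⟨s1, s2, s3⟩ := hs r hr'
  obtain ⟨b, hb, jb⟩ := hQ.neg S hS.toSym v v0 v1 _ (hD r hr' β₂ ⟨by linarith, by linarith⟩) s2
  have bne : b ≠ κ 0 := by
    rintro rfl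
    exact (show ⟪v, κ 0⟫_ℝ < 0 from jb.target_mem.2).ne h0
  have kne : ∀ β, κ (r * cis β) ≠ κ 0 := fun β h => by
    have := hi (mem_cb β hrr) (mem_closedBall_self hr.le) h
    have := congrArg norm this
    rw [norm_cis, norm_zero, abs_of_pos hr] at this
    exact hr.ne' this
  refine hP.bdry E4 (Dq S) κ r 0 β₁ β₂ β₃ β₅ (Do S ∩ {z | 0 < ⟪v, z⟫_ℝ})
    (Dq S ∩ {z | ⟪v, z⟫_ℝ < 0}) (Bd S \ {κ 0}) b hS.planar hr hc hi ?_ b01 b12 b23 b35
    (by linarith) (fun x hx => do_dq hx.1) (fun x hx => hx.1) (fun x hx => bd_dq hx.1)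
    (hQ.pos S hS.toSym v v0 v1 _ (hD r hr' β₁ ⟨by linarith, by linarith⟩) _
      (hD r hr' β₃ ⟨by linarith, by linarith⟩) s1 s3) jb
    ((hS.punct _ hp).joinedIn _ ⟨hb, bne⟩ _ ⟨(hB r hrr).1, kne _⟩)
    ((hS.punct _ hp).joinedIn _ ⟨hb, bne⟩ _ ⟨(hB r hrr).2, kne _⟩) ?_ ?_ ?_ ?_ ?_ ?_ ?_
  · intro s hs β hβ
    rcases hβ.1.eq_or_lt with rfl | h1
    · exact bd_dq (hB s hs).1
    rcases hβ.2.eq_or_lt with rfl | h2
    · exact bd_dq (hB s hs).2
    rcases hs.1.eq_or_lt with rfl | h3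
    · simpa using bd_dq hp
    · exact do_dq (hD s ⟨h3, hs.2⟩ β ⟨h1, h2⟩)
  · rw [Set.disjoint_left]
    rintro x ⟨-, h2⟩ ⟨-, h3⟩
    exact lt_asymm (show 0 < ⟪v, x⟫_ℝ from h2) h3
  · rw [Set.disjoint_left]
    rintro x ⟨h1, -⟩ ⟨h3, -⟩
    exact not_bd h1 h3
  · rw [Set.disjoint_right]
    rintro _ ⟨s, hs, rfl⟩ h2
    exact not_bd h2.1 (hB s hs).1
  · rw [Set.disjoint_right]
    intro x hx h2
    exact (spoke_all (Q := fun x => ⟪v, x⟫_ℝ ≤ 0) h0.le (fun s h => (hs s h).2.1.le) x hx).not_gt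
      h2.2
  · rw [Set.disjoint_right]
    intro x hx h2
    exact (spoke_all (Q := fun x => 0 ≤ ⟪v, x⟫_ℝ) h0.ge (fun s h => (hs s h).1.le) x hx).not_gt
      h2.2
  · rw [Set.disjoint_right]
    intro x hx h2
    exact (spoke_all (Q := fun x => 0 ≤ ⟪v, x⟫_ℝ) h0.ge (fun s h => (hs s h).2.2.le) x hx).not_gt
      h2.2
  · intro s hs β hβ h
    rcases hs.1.eq_or_lt with rfl | h3
    · exact h.2 (by simp)
    · exact not_bd (hD s ⟨h3, hs.2⟩ β ⟨by linarith [hβ.1], by linarith [hβ.2]⟩) h.1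

theorem kinj (O : Iso) (u : P2 → ℝ) (A : Set ℂ) : InjOn (fun z => gX O u (T0 z)) A :=
  ((gX_inj O u).comp T0_inj).injOn

theorem in3e (O : Iso) (u : P2 → ℝ) (y : P2) (ε : ℝ) :
    ⟪ε • O (ee 3), gX O u y⟫_ℝ = rr u y * (ε * u y) := by
  rw [real_inner_smul_left, in3]
  ring

theorem open0 : IsOpen {x : E4 | 0 < x 0} := isOpen_lt continuous_const (by fun_prop)

theorem open1 : IsOpen {x : E4 | 0 < x 1} := isOpen_lt continuous_const (by fun_prop)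

theorem neg_of {a b : ℝ} (ha : 0 < a) (h : 0 < -1 * b) : a * b < 0 :=
  mul_neg_of_pos_of_neg ha (by linarith)

theorem b4 (hM : MeqS) (hC : ChartS) (hL : LocS) (hQ : QcS) (hP : PlanS) (S : Set E4)
    (hS : Sym2 S) (p : E4) (hp : p ∈ Do S) : u12 p (nor S p) ≠ 0 := by
  intro h
  obtain ⟨n, hn, n0, n1⟩ : ∃ n, IsNor S p n ∧ 0 ≤ n 0 ∧ 0 ≤ n 1 := by
    obtain ⟨h1, h2⟩ := hC.nor_spec S hS.minimal p hp.1
    unfold u12 at h
    rcases le_total 0 (nor S p 0) with h0 | h0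
    · refine ⟨_, h1, h0, ?_⟩
      by_contra hn
      nlinarith [mul_pos hp.2.1 (neg_pos.2 (not_le.1 hn)), mul_nonneg hp.2.2.le h0]
    · refine ⟨-nor S p, (h2 _).2 (Or.inr rfl), by simpa using h0, ?_⟩
      by_contra hn
      have hn' : 0 < nor S p 1 := by simpa using hn
      nlinarith [mul_pos hp.2.1 hn', mul_nonneg hp.2.2.le (neg_nonneg.2 h0)]
  obtain ⟨⟨O, e0, e3⟩, -⟩ := hM.frame p n (hC.unit S hS.minimal p hp.1) hn.1 hn.2.1
  obtain ⟨δ, u, hch⟩ := hC.chart S hS.minimal O (e0 ▸ hp.1) (by rw [e0, e3]; exact hn)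
  obtain ⟨m, c, hm, hl⟩ := hL.lead S hS.toSym O δ u hch
  have hm0 : (0 : ℝ) < m := by positivity
  have hm2 : (2 : ℝ) ≤ m := by exact_mod_cast hm
  have hc : 0 < ‖c‖ := norm_pos_iff.2 hl.1
  have key : ∀ k : ℝ, c.re * Real.cos (m * ((k * π - c.arg) / m))
      - c.im * Real.sin (m * ((k * π - c.arg) / m)) = ‖c‖ * Real.cos (k * π) := fun k => by
    rw [mul_div_cancel₀ _ hm0.ne', ← Complex.norm_mul_cos_arg, ← Complex.norm_mul_sin_arg,
      Real.cos_sub, Real.sin_sub]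
    linear_combination ‖c‖ * Real.cos (k * π) * Real.sin_sq_add_cos_sq c.arg
  have c2 : Real.cos (2 * π) = 1 := Real.cos_two_pi
  have c3 : Real.cos (3 * π) = -1 := by
    rw [show 3 * π = π + 2 * π by ring, Real.cos_add_two_pi, Real.cos_pi]
  have s1 := spoke_sign hl 1 ((0 * π - c.arg) / m) (by rw [key]; simpa using hl.1)
  have s2 := spoke_sign hl (-1) ((1 * π - c.arg) / m) (by rw [key]; simpa using hl.1)
  have s3 := spoke_sign hl 1 ((2 * π - c.arg) / m) (by rw [key, c2]; simpa using hl.1)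
  have s4 := spoke_sign hl (-1) ((3 * π - c.arg) / m) (by rw [key, c3]; simpa using hl.1)
  obtain ⟨r, hr, hcont, hin, hs⟩ := pick hC hch (W := {x : E4 | 0 < x 0} ∩ {x : E4 | 0 < x 1})
    ((open0.inter open1).mem_nhds (by rw [e0]; exact hp.2)) (s1.and (s2.and (s3.and s4)))
  have pp := Real.pi_pos
  refine four hP hQ hS n0 n1 (β₁ := (0 * π - c.arg) / m) (β₂ := (1 * π - c.arg) / m)
    (β₃ := (2 * π - c.arg) / m) (β₄ := (3 * π - c.arg) / m) hr hcont (kinj O u _)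
    (fun z hz => ⟨(hin z hz).1, (hin z hz).2⟩) ?_ (by gcongr; norm_num) (by gcongr; norm_num)
    (by gcongr; norm_num) ?_ fun s h => ?_
  · simp only [map_zero]
    rw [← e3, in3, hch.zero, mul_zero]
  · rw [div_add' _ _ _ hm0.ne']
    gcongr ?_ / _
    nlinarith
  · obtain ⟨a1, a2, a3, a4⟩ := hs s h
    simp only [← e3, in3]
    exact ⟨mul_pos (rr_pos _ _) (by linarith), neg_of (rr_pos _ _) a2,
      mul_pos (rr_pos _ _) (by linarith), neg_of (rr_pos _ _) a4⟩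

theorem cos53 : Real.cos (5 * π / 3) = 1 / 2 := by
  rw [show 5 * π / 3 = 2 * π - π / 3 by ring, Real.cos_two_pi_sub, Real.cos_pi_div_three]

theorem cos83 : Real.cos (8 * π / 3) = -(1 / 2) := by
  rw [show 8 * π / 3 = (π - π / 3) + 2 * π by ring, Real.cos_add_two_pi, Real.cos_pi_sub,
    Real.cos_pi_div_three]

/-- sign along a ray for a real coefficient -/
theorem spoke_real {u : P2 → ℝ} {m : ℕ} {c : ℂ} (h : Lead u 0 T0 m c) (hm : 2 ≤ m)
    (hc : c.im = 0) (ε θ : ℝ) (hb : 0 < ε * (c.re * Real.cos θ)) :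
    ∀ᶠ s : ℝ in 𝓝[>] 0, 0 < ε * u (T0 (s * cis (θ / m))) := by
  have hm0 : (m : ℝ) ≠ 0 := by positivity
  refine spoke_sign h ε _ ?_
  rwa [mul_div_cancel₀ _ hm0, hc, zero_mul, sub_zero]

theorem arc_core (hD : DerS) (hC : ChartS) (hL : LocS) (hQ : QcS) (hP : PlanS) {S : Set E4}
    (hS : Sym2 S) {O : Iso} {δ : ℝ} {u : P2 → ℝ} (p0 : 0 < O (ee 0) 0) (e2 : O (ee 2) = ee 1)
    (n0 : 0 ≤ O (ee 3) 0) (hch : Chart S O δ u) (he : Ev2 u δ) : d1 (d1 u) 0 < 0 := by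
  obtain ⟨m, c, hm, hl⟩ := hL.lead S hS.toSym O δ u hch
  have hc := lead_real hch.pos hm hl he
  have hre : c.re ≠ 0 := fun h0 => hl.1 (Complex.ext h0 hc)
  have hm0 : (0 : ℝ) < m := by positivity
  have hm2 : (2 : ℝ) ≤ m := by exact_mod_cast hm
  have pp := Real.pi_pos
  have n1 : 0 ≤ O (ee 3) 1 := (frame_zero O e2 (by decide)).ge
  have x1 : ∀ y, gX O u y 1 = rr u y * y.2 := fun y => by rw [← inner_ee, ← e2, in2]
  have main : ∀ θ₁ θ₂ θ₃ : ℝ, 0 < θ₁ → θ₁ < θ₂ → θ₂ < θ₃ → θ₃ < m * π →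
      0 < c.re * Real.cos θ₁ → c.re * Real.cos θ₂ < 0 → 0 < c.re * Real.cos θ₃ → False := by
    intro θ₁ θ₂ θ₃ t0 t1 t2 t3 a1 a2 a3
    obtain ⟨r, hr, hcont, hin, hs⟩ := pick hC hch (open0.mem_nhds p0)
      ((spoke_real hl hm hc 1 θ₁ (by linarith)).and ((spoke_real hl hm hc (-1) θ₂
        (by linarith)).and (spoke_real hl hm hc 1 θ₃ (by linarith))))
    refine three hP hQ hS n0 n1 (β₁ := θ₁ / m) (β₂ := θ₂ / m) (β₃ := θ₃ / m) (β₅ := π) hr hcont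
      (kinj O u _) (fun s h β hβ => ?_) (fun s h => ⟨?_, ?_⟩) ?_ (by positivity) (by gcongr)
      (by gcongr) (by rwa [div_lt_iff₀' hm0]) (by linarith) fun s h => ?_
    · have := hin _ (mem_cb β ⟨h.1.le, h.2⟩)
      refine ⟨this.1, this.2, ?_⟩
      rw [x1, T0_cis]
      exact mul_pos (rr_pos _ _) (mul_pos h.1 (Real.sin_pos_of_mem_Ioo hβ))
    · have := hin _ (mem_cb 0 h)
      have e : gX O u (T0 (s * cis 0)) 1 = 0 := by rw [x1, T0_cis]; simp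
      exact ⟨this.1, le_of_lt this.2, e.ge, Or.inr e⟩
    · have := hin _ (mem_cb π h)
      have e : gX O u (T0 (s * cis π)) 1 = 0 := by rw [x1, T0_cis]; simp
      exact ⟨this.1, le_of_lt this.2, e.ge, Or.inr e⟩
    · simp only [map_zero]
      rw [in3, hch.zero, mul_zero]
    · obtain ⟨a1, a2, a3⟩ := hs s h
      simp only [in3]
      exact ⟨mul_pos (rr_pos _ _) (by linarith), neg_of (rr_pos _ _) a2,
        mul_pos (rr_pos _ _) (by linarith)⟩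
  rcases lt_or_gt_of_ne hre with hneg | hpos
  · by_cases h2 : m = 2
    · rw [((lead_hess hD (hch.sol.1 0 (mem_ball_self hch.pos)) hm hl).1 h2).1]
      linarith
    · have hm3 : (3 : ℝ) ≤ m := by exact_mod_cast (by omega : 3 ≤ m)
      exact (main π (2 * π) (8 * π / 3) pp (by linarith) (by linarith) (by nlinarith)
        (by rw [Real.cos_pi]; linarith) (by rw [Real.cos_two_pi]; linarith)
        (by rw [cos83]; linarith)).elim
  · exact (main (π / 3) π (5 * π / 3) (by linarith) (by linarith) (by linarith) (by nlinarith)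
      (by rw [Real.cos_pi_div_three]; linarith) (by rw [Real.cos_pi]; linarith)
      (by rw [cos53]; linarith)).elim

theorem arc (hD : DerS) (hC : ChartS) (hL : LocS) (hQ : QcS) (hP : PlanS) (S : Set E4)
    (hS : Sym2 S) (p : E4) (hp : p ∈ S) (p1 : p 1 = 0) (p0 : 0 < p 0) :
    ∃ (O : Iso) (δ : ℝ) (u : P2 → ℝ), O (ee 0) = p ∧ O (ee 2) = ee 1 ∧ 0 < O (ee 3) 0 ∧
      Chart S O δ u ∧ Ev2 u δ ∧ d1 (d1 u) 0 < 0 := by
  obtain ⟨n, hn, n0⟩ : ∃ n, IsNor S p n ∧ 0 ≤ n 0 := by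
    obtain ⟨h1, h2⟩ := hC.nor_spec S hS.minimal p hp
    rcases le_total 0 (nor S p 0) with h0 | h0
    · exact ⟨_, h1, h0⟩
    · exact ⟨-nor S p, (h2 _).2 (Or.inr rfl), by simpa using h0⟩
  obtain ⟨-, O, δ, u, e0, e2, e3, hch, he⟩ := hL.arc S hS.toSym p hp p1 n hn
  have a := arc_core hD hC hL hQ hP hS (e0 ▸ p0) e2 (e3 ▸ n0) hch he
  refine ⟨O, δ, u, e0, e2, ?_, hch, he, a⟩
  rw [e3]
  refine n0.lt_of_ne fun h0 => ?_
  obtain ⟨f0, -, f2, f3⟩ := flip_ee O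
  have b := arc_core hD hC hL hQ hP hS (O := rf3.trans O) (by rw [f0, e0]; exact p0)
    (by rw [f2, e2]) (by rw [f3, e3]; simp [← h0]) (flip_chart hch)
    (fun y hy => by simp only [he y hy])
  simp only [d1_neg] at b
  linarith

theorem corner_core (hD : DerS) (hC : ChartS) (hL : LocS) (hQ : QcS) (hP : PlanS) {S : Set E4}
    (hS : Sym2 S) {O : Iso} {δ : ℝ} {u : P2 → ℝ} (e1 : O (ee 1) = ee 0) (e2 : O (ee 2) = ee 1)
    (hch : Chart S O δ u) (he1 : Ev1 u δ) (he : Ev2 u δ) :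
    d1 (d1 u) 0 ≠ 0 ∧ d1 (d2 u) 0 = 0 := by
  obtain ⟨m, c, hm, hl⟩ := hL.lead S hS.toSym O δ u hch
  have hc := lead_real hch.pos hm hl he
  have hev := lead_even hch.pos hl hc he1
  have hre : c.re ≠ 0 := fun h0 => hl.1 (Complex.ext h0 hc)
  by_cases h2 : m = 2
  · obtain ⟨a, b⟩ := (lead_hess hD (hch.sol.1 0 (mem_ball_self hch.pos)) hm hl).1 h2
    rw [a, b, hc]
    exact ⟨by positivity, by simp⟩
  exfalso
  have hm4 : (4 : ℝ) ≤ m := by
    obtain ⟨k, rfl⟩ := hev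
    exact_mod_cast (by omega : 4 ≤ k + k)
  have hm0 : (0 : ℝ) < m := by positivity
  have pp := Real.pi_pos
  have cc := mul_self_pos.2 hre
  have x0 : ∀ y, gX O u y 0 = rr u y * y.1 := fun y => by rw [← inner_ee, ← e1, in1]
  have x1 : ∀ y, gX O u y 1 = rr u y * y.2 := fun y => by rw [← inner_ee, ← e2, in2]
  obtain ⟨r, hr, hcont, hin, hs⟩ := pick hC hch univ_mem
    ((spoke_real hl hm hc c.re (π / 3) (by rw [Real.cos_pi_div_three]; linarith)).and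
      ((spoke_real hl hm hc (-c.re) π (by rw [Real.cos_pi]; linarith)).and
        (spoke_real hl hm hc c.re (5 * π / 3) (by rw [cos53]; linarith))))
  refine three hP hQ hS (v := c.re • O (ee 3))
    (by simp [frame_zero O e1 (show (3 : Fin 4) ≠ 1 by decide)])
    (by simp [frame_zero O e2 (show (3 : Fin 4) ≠ 2 by decide)])
    (β₁ := π / 3 / m) (β₂ := π / m) (β₃ := 5 * π / 3 / m) (β₅ := π / 2) hr hcont
    (kinj O u _) (fun s h β hβ => ?_) (fun s h => ⟨?_, ?_⟩) ?_ (by positivity)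
    (by gcongr; linarith) (by gcongr; linarith) (by rw [div_lt_iff₀' hm0]; nlinarith)
    (by linarith) fun s h => ?_
  · have := hin _ (mem_cb β ⟨h.1.le, h.2⟩)
    refine ⟨this.1, ?_, ?_⟩
    · rw [x0, T0_cis]
      exact mul_pos (rr_pos _ _) (mul_pos h.1 (Real.cos_pos_of_mem_Ioo ⟨by linarith [hβ.1], hβ.2⟩))
    · rw [x1, T0_cis]
      exact mul_pos (rr_pos _ _) (mul_pos h.1
        (Real.sin_pos_of_mem_Ioo ⟨hβ.1, by linarith [hβ.2]⟩))
  · have := hin _ (mem_cb 0 h)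
    have e : gX O u (T0 (s * cis 0)) 1 = 0 := by rw [x1, T0_cis]; simp
    refine ⟨this.1, ?_, e.ge, Or.inr e⟩
    rw [x0, T0_cis]
    exact mul_nonneg (rr_pos _ _).le (by simpa using h.1)
  · have := hin _ (mem_cb (π / 2) h)
    have e : gX O u (T0 (s * cis (π / 2))) 0 = 0 := by rw [x0, T0_cis]; simp
    refine ⟨this.1, e.ge, ?_, Or.inl e⟩
    rw [x1, T0_cis]
    exact mul_nonneg (rr_pos _ _).le (by simpa using h.1)
  · simp only [map_zero]
    rw [in3e, hch.zero, mul_zero, mul_zero]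
  · obtain ⟨a1, a2, a3⟩ := hs s h
    simp only [in3e]
    exact ⟨mul_pos (rr_pos _ _) a1, neg_of (rr_pos _ _) (by linarith), mul_pos (rr_pos _ _) a3⟩

theorem corner (hD : DerS) (hC : ChartS) (hL : LocS) (hQ : QcS) (hP : PlanS) (S : Set E4)
    (hS : Sym2 S) (p : E4) (hp : p ∈ S) (p0 : p 0 = 0) (p1 : p 1 = 0) :
    ∃ (O : Iso) (δ : ℝ) (u : P2 → ℝ), O (ee 0) = p ∧ O (ee 1) = ee 0 ∧ O (ee 2) = ee 1 ∧ CFr O ∧
      Chart S O δ u ∧ Ev1 u δ ∧ Ev2 u δ ∧ 0 < d1 (d1 u) 0 ∧ d1 (d2 u) 0 = 0 ∧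
      d2 (d2 u) 0 = -d1 (d1 u) 0 := by
  obtain ⟨O, δ, u, e0, e1, e2, -, hf, hch, he1, he2⟩ := hL.corner S hS.toSym p hp p0 p1 _
    (hC.nor_spec S hS.minimal p hp).1
  obtain ⟨a, b⟩ := corner_core hD hC hL hQ hP hS e1 e2 hch he1 he2
  rcases lt_or_gt_of_ne a with h | h
  · obtain ⟨f0, f1, f2, -⟩ := flip_ee O
    refine ⟨rf3.trans O, δ, fun y => -u y, f0.trans e0, f1.trans e1, f2.trans e2, flip_cfr hf,
      flip_chart hch, fun y hy => by simp only [he1 y hy], fun y hy => by simp only [he2 y hy],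
      ?_, ?_, trace (flip_chart hch)⟩
    · simp only [d1_neg]
      linarith
    · simp only [d1_neg, d2_neg, b, neg_zero]
  · exact ⟨O, δ, u, e0, e1, e2, hf, hch, he1, he2, h, b, trace hch⟩

theorem norm4 {x : E4} (h : ‖x‖ = 1) : x 0 ^ 2 + x 1 ^ 2 + x 2 ^ 2 + x 3 ^ 2 = 1 := by
  have := inner4 x x
  rw [real_inner_self_eq_norm_sq, h] at this
  linarith

theorem chart_nor (hC : ChartS) {S : Set E4} {O : Iso} {δ : ℝ} {u : P2 → ℝ}
    (h : Chart S O δ u) : IsNor S (O (ee 0)) (O (ee 3)) := by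
  have := (hC.facts S O _ u (lch h) 0 (mem_ball_self h.pos)).2.1
  rwa [gX_zero O h.zero, gN_zero O h.zero h.dzero] at this

theorem bdv1 (hD : DerS) (hC : ChartS) (hL : LocS) (hQ : QcS) (hP : PlanS) (S : Set E4)
    (hS : Sym2 S) (p : E4) (hp : p ∈ S) (p1 : p 1 = 0) (p0 : 0 < p 0) :
    vv p (nor S p) ≠ 0 ∧ u12 p (nor S p) = 0 ∧ aa p < 1 := by
  obtain ⟨O, δ, u, e0, e2, n0, hch, -, -⟩ := arc hD hC hL hQ hP S hS p hp p1 p0
  have hn := chart_nor hC hch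
  rw [e0] at hn
  have n1 : O (ee 3) 1 = 0 := frame_zero O e2 (by decide)
  have hu := norm4 (hC.unit S hS.minimal p hp)
  have ho := hn.2.1
  rw [inner4] at ho
  refine ⟨?_, ?_, ?_⟩
  · rcases ((hC.nor_spec S hS.minimal p hp).2 _).1 hn with h | h
    · rw [vv, ← h, p1, zero_mul, add_zero]
      positivity
    · have : nor S p = -O (ee 3) := by rw [h, neg_neg]
      rw [vv, this, p1, zero_mul, add_zero]
      exact mul_ne_zero p0.ne' (by simpa using n0.ne')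
  · rcases ((hC.nor_spec S hS.minimal p hp).2 _).1 hn with h | h
    · rw [u12, ← h, p1, n1]; simp
    · have : nor S p = -O (ee 3) := by rw [h, neg_neg]
      rw [u12, this, p1]; simp [n1]
  · unfold aa
    by_contra h
    have h2 : p 2 = 0 := by nlinarith [sq_nonneg (p 2), sq_nonneg (p 3)]
    have h3 : p 3 = 0 := by nlinarith [sq_nonneg (p 2), sq_nonneg (p 3)]
    rw [p1, h2, h3] at ho
    nlinarith [mul_pos n0 p0]

theorem gam_sx : Gam sx := fun x => by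
  rw [sx_apply]
  simp [aa, add_comm]

theorem bdv (hD : DerS) (hC : ChartS) (hL : LocS) (hQ : QcS) (hP : PlanS) (S : Set E4)
    (hS : Sym2 S) (p : E4) (hp : p ∈ Bd S) (ha : 0 < aa p) :
    vv p (nor S p) ≠ 0 ∧ u12 p (nor S p) = 0 ∧ aa p < 1 := by
  unfold aa at ha
  rcases hp.2.2.2 with h | h
  · have p1 : 0 < p 1 := hp.2.2.1.lt_of_ne fun h1 => by rw [h, ← h1] at ha; simp at ha
    obtain ⟨a, b, c⟩ := bdv1 hD hC hL hQ hP (sx '' S) ((hL.swap S).2.1 hS) (sx p)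
      (mem_image_of_mem _ hp.1) (by rw [sx_apply]; simpa using h) (by rw [sx_apply]; simpa using p1)
    have j := hL.jetg sx S gam_sx hS.minimal p hp.1
    simp only [jet, Prod.mk.injEq] at j
    refine ⟨?_, ?_, j.1 ▸ c⟩
    · rw [← abs_ne_zero, ← j.2.1, abs_ne_zero]
      exact a
    · rw [← abs_eq_zero, ← j.2.2.1, abs_eq_zero]
      exact b
  · have p0 : 0 < p 0 := hp.2.1.lt_of_ne fun h1 => by rw [h, ← h1] at ha; simp at ha
    exact bdv1 hD hC hL hQ hP S hS p hp.1 h p0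

end DGeo

end Pool.Agent.Lib.MP_16d934_gt
end
end

-- part Pool.Agent.Lib.MP_16d934_gt.DGeo
section

/-! Geometry of the quarter and the local behaviour of the second complex coordinate. -/

set_option autoImplicit false

open Set Metric Filter Topology Asymptotics
open scoped ContDiff InnerProductSpace NNReal Real

noncomputable section

namespace Pool.Agent.Lib.MP_16d934_gt

namespace DGeo

/-- the second complex coordinate as a linear map -/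
def wcL : E4 →L[ℝ] ℂ := (Complex.equivRealProdCLM.symm : P2 →L[ℝ] ℂ).comp
  ((EuclideanSpace.proj (2 : Fin 4)).prod (EuclideanSpace.proj (3 : Fin 4)))

theorem wcL_apply (x : E4) : wcL x = wc x := by
  apply Complex.ext <;> simp [wcL, wc]

/-- the differential of a chart at the centre -/
def DX (O : Iso) : P2 →L[ℝ] E4 := (ContinuousLinearMap.fst ℝ ℝ ℝ).smulRight (O (ee 1))
  + (ContinuousLinearMap.snd ℝ ℝ ℝ).smulRight (O (ee 2))

theorem DX_apply (O : Iso) (y : P2) : DX O y = O (y.1 • ee 1 + y.2 • ee 2) := by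
  simp [DX]

theorem gX_deriv (O : Iso) {u : P2 → ℝ} (h0 : u 0 = 0) (hu : HasFDerivAt u (0 : P2 →L[ℝ] ℝ) 0) :
    HasFDerivAt (gX O u) (DX O) 0 := by
  have f1 : HasFDerivAt (fun y : P2 => y.1) (ContinuousLinearMap.fst ℝ ℝ ℝ) 0 := hasFDerivAt_fst
  have f2 : HasFDerivAt (fun y : P2 => y.2) (ContinuousLinearMap.snd ℝ ℝ ℝ) 0 := hasFDerivAt_snd
  have q : HasFDerivAt (fun y : P2 => 1 + y.1 ^ 2 + y.2 ^ 2 + u y ^ 2) (0 : P2 →L[ℝ] ℝ) 0 := by
    have := (((hasFDerivAt_const (1 : ℝ) (0 : P2)).add (f1.pow 2)).add (f2.pow 2)).add (hu.pow 2)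
    refine this.congr_fderiv ?_
    simp
  have φ : DifferentiableAt ℝ (fun t : ℝ => (√t)⁻¹)
      ((fun y : P2 => 1 + y.1 ^ 2 + y.2 ^ 2 + u y ^ 2) 0) := by
    simp only [Prod.fst_zero, Prod.snd_zero, h0]
    exact (differentiableAt_id.sqrt (by norm_num)).inv (by norm_num)
  have r : HasFDerivAt (rr u) (0 : P2 →L[ℝ] ℝ) 0 := by
    have := φ.hasFDerivAt.comp (0 : P2) q
    refine this.congr_fderiv ?_
    simp
  have e : gX O u = fun y => rr u y •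
      (O (ee 0) + y.1 • O (ee 1) + y.2 • O (ee 2) + u y • O (ee 3)) := funext (gX_eq O u)
  rw [e]
  have := r.smul ((((hasFDerivAt_const (O (ee 0)) (0 : P2)).add (f1.smul_const (O (ee 1)))).add
    (f2.smul_const (O (ee 2)))).add (hu.smul_const (O (ee 3))))
  refine this.congr_fderiv ?_
  ext <;> simp [DX, rr_zero h0]

theorem wD_inj (O : Iso) (h : u12 (O (ee 0)) (O (ee 3)) ≠ 0) :
    Function.Injective (wcL.comp (DX O)) := by
  rw [injective_iff_map_eq_zero]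
  intro y hy
  rw [ContinuousLinearMap.comp_apply, wcL_apply, DX_apply] at hy
  set t := O (y.1 • ee 1 + y.2 • ee 2) with ht
  have t2 : t 2 = 0 := congrArg Complex.re hy
  have t3 : t 3 = 0 := congrArg Complex.im hy
  have i : ∀ k, ⟪O (ee k), t⟫_ℝ = (y.1 • ee 1 + y.2 • ee 2) k := fun k => by
    rw [ht, O.inner_map_map, inner_ee]
  have i0 := i 0
  have i1 := i 1
  have i2 := i 2
  have i3 := i 3
  rw [inner4, t2, t3] at i0 i1 i2 i3
  simp [ee_apply] at i0 i1 i2 i3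
  unfold u12 at h
  have t0 : t 0 = 0 := mul_left_cancel₀ h (by
    linear_combination O (ee 3) 1 * i0 - O (ee 0) 1 * i3)
  have t1 : t 1 = 0 := mul_left_cancel₀ h (by
    linear_combination -O (ee 3) 0 * i0 + O (ee 0) 0 * i3)
  rw [t0, t1] at i1 i2
  exact Prod.ext (by simpa using i1.symm) (by simpa using i2.symm)

theorem chart_deriv {S : Set E4} {O : Iso} {δ : ℝ} {u : P2 → ℝ} (h : Chart S O δ u) :
    HasStrictFDerivAt u (0 : P2 →L[ℝ] ℝ) 0 := by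
  have := (h.sol.1 0 (mem_ball_self h.pos)).hasStrictFDerivAt
  rwa [h.dzero] at this

theorem near {S : Set E4} {O : Iso} {δ : ℝ} {u : P2 → ℝ} (h : Chart S O δ u)
    {W : Set E4} (hW : W ∈ 𝓝 (O (ee 0))) :
    ∀ᶠ y in 𝓝 (0 : P2), y ∈ ball (0 : P2) δ ∧ gX O u y ∈ W :=
  Filter.Eventually.and (ball_mem_nhds _ h.pos)
    ((gX_cont O (h.sol.1 0 (mem_ball_self h.pos)).continuousAt).eventually_mem
      (by rwa [gX_zero O h.zero]))

theorem wint (hM : MeqS) (hC : ChartS) (hG : GeoS) (S : Set E4) (hS : Sym2 S) (p : E4)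
    (hp : p ∈ Do S) (V : Set E4) (hV : V ∈ 𝓝 p) : ∃ δ > 0, ∃ κ : ℂ → E4,
      ContinuousOn κ (ball (wc p) δ) ∧ κ (wc p) = p ∧
      (∀ ζ ∈ ball (wc p) δ, κ ζ ∈ Do S ∩ V ∧ wc (κ ζ) = ζ) ∧ κ '' ball (wc p) δ ∈ 𝓝[S] p := by
  have hn := (hC.nor_spec S hS.minimal p hp.1).1
  obtain ⟨⟨O, e0, e3⟩, -⟩ := hM.frame p _ (hC.unit S hS.minimal p hp.1) hn.1 hn.2.1
  obtain ⟨δ, u, hch⟩ := hC.chart S hS.minimal O (e0 ▸ hp.1) (by rw [e0, e3]; exact hn)
  have hi := wD_inj O (by rw [e0, e3]; exact hG.b4 S hS p hp)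
  have ha := (hM.ana O u 0 (hch.sol.1 0 (mem_ball_self hch.pos))).1
  have hX : HasStrictFDerivAt (gX O u) (DX O) 0 := by
    have := ha.hasStrictFDerivAt
    rwa [(gX_deriv O hch.zero (chart_deriv hch).hasFDerivAt).fderiv] at this
  let L : P2 ≃L[ℝ] ℂ := (LinearMap.linearEquivOfInjective (wcL.comp (DX O)).toLinearMap hi
    (by simp)).toContinuousLinearEquiv
  have hF : HasStrictFDerivAt (fun y => wcL (gX O u y)) (L : P2 →L[ℝ] ℂ) 0 := by
    have := wcL.hasStrictFDerivAt.comp (0 : P2) hX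
    refine this.congr_fderiv ?_
    ext <;> rfl
  let e := hF.toOpenPartialHomeomorph (fun y => wcL (gX O u y))
  have es : (0 : P2) ∈ e.source := hF.mem_toOpenPartialHomeomorph_source
  have ee' : ∀ y, e y = wc (gX O u y) := fun y => wcL_apply _
  have e00 : e 0 = wc p := by rw [ee', gX_zero O hch.zero, e0]
  have et : wc p ∈ e.target := e00 ▸ e.map_source es
  have es0 : e.symm (wc p) = 0 := by rw [← e00, e.left_inv es]
  have ec : Tendsto e.symm (𝓝 (wc p)) (𝓝 0) := by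
    have := e.continuousAt_symm et
    rwa [ContinuousAt, es0] at this
  have n1 := near hch (W := ({x : E4 | 0 < x 0} ∩ {x : E4 | 0 < x 1}) ∩ V)
    (by rw [e0]; exact inter_mem ((open0.inter open1).mem_nhds hp.2) hV)
  obtain ⟨r, hr, h1⟩ := Metric.eventually_nhds_iff_ball.1
    (Filter.Eventually.and (e.open_target.mem_nhds et) (ec.eventually n1))
  refine ⟨r, hr, fun ζ => gX O u (e.symm ζ), fun ζ hζ => ?_, ?_, fun ζ hζ => ⟨?_, ?_⟩, ?_⟩
  · exact ((gX_cont O (hch.sol.1 _ (h1 ζ hζ).2.1).continuousAt).comp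
      (e.continuousAt_symm (h1 ζ hζ).1)).continuousWithinAt
  · simp only [es0]
    rw [gX_zero O hch.zero, e0]
  · obtain ⟨-, a, b, c⟩ := h1 ζ hζ
    exact ⟨⟨(hC.facts S O _ u (lch hch) _ a).1, b⟩, c⟩
  · rw [← ee', e.right_inv (h1 ζ hζ).1]
  · have := (hC.facts S O _ u (lch hch) 0 (mem_ball_self hch.pos)).2.2
    rw [gX_zero O hch.zero, e0] at this
    rw [← this, mem_map]
    have c : ∀ᶠ y in 𝓝 (0 : P2), e y ∈ ball (wc p) r :=
      (e.continuousAt es).eventually_mem (by rw [e00]; exact ball_mem_nhds _ hr)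
    filter_upwards [c, e.open_source.mem_nhds es] with y h2 h3
    exact ⟨e y, h2, by simp only [e.left_inv h3]⟩

theorem wc_gX (O : Iso) (u : P2 → ℝ) (y : P2) (σ : ℝ)
    (h2 : y.1 * O (ee 1) 2 + y.2 * O (ee 2) 2 + u y * O (ee 3) 2 = σ * O (ee 0) 2)
    (h3 : y.1 * O (ee 1) 3 + y.2 * O (ee 2) 3 + u y * O (ee 3) 3 = σ * O (ee 0) 3) :
    wc (gX O u y) = (rr u y * (1 + σ) : ℝ) * wc (O (ee 0)) := by
  apply Complex.ext
  · rw [Complex.re_ofReal_mul]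
    show gX O u y 2 = _ * O (ee 0) 2
    rw [gX_apply]
    linear_combination rr u y * h2
  · rw [Complex.im_ofReal_mul]
    show gX O u y 3 = _ * O (ee 0) 3
    rw [gX_apply]
    linear_combination rr u y * h3

/-- the order is two when the Hessian does not vanish -/
theorem lead_two (hD : DerS) (hL : LocS) {S : Set E4} (hS : Sym S) {O : Iso} {δ : ℝ}
    {u : P2 → ℝ} (hch : Chart S O δ u) (he : Ev2 u δ) (h : d1 (d1 u) 0 ≠ 0) :
    ∃ c, Lead u 0 T0 2 c ∧ c.im = 0 ∧ d1 (d1 u) 0 = 2 * c.re := by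
  obtain ⟨m, c, hm, hl⟩ := hL.lead S hS O δ u hch
  have hh := lead_hess hD (hch.sol.1 0 (mem_ball_self hch.pos)) hm hl
  obtain rfl : m = 2 := by_contra fun h2 => h (hh.2 h2)
  exact ⟨c, hl, lead_real hch.pos hm hl he, (hh.1 rfl).1⟩

theorem wcorner (hD : DerS) (hC : ChartS) (hL : LocS) (hG : GeoS) (S : Set E4) (hS : Sym2 S)
    (p : E4) (hp : p ∈ S) (p0 : p 0 = 0) (p1 : p 1 = 0) (V : Set E4) (hV : V ∈ 𝓝 p) :
    ∃ ε > 0, ∀ s ∈ Ioo (1 - ε) 1, ∃ x ∈ Do S ∩ V, wc x = (s : ℝ) * wc p := by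
  obtain ⟨O, δ, u, e0, e1, e2, -, hch, -, he, hpos, -, -⟩ := hG.corner S hS p hp p0 p1
  obtain ⟨c, hl, hc, hre⟩ := lead_two hD hL hS.toSym hch he hpos.ne'
  have pp := Real.pi_pos
  have x0 : ∀ y, gX O u y 0 = rr u y * y.1 := fun y => by rw [← inner_ee, ← e1, in1]
  have x1 : ∀ y, gX O u y 1 = rr u y * y.2 := fun y => by rw [← inner_ee, ← e2, in2]
  obtain ⟨r, hr, hcont, hin, hs⟩ := pick hC hch (W := V) (e0 ▸ hV)
    ((spoke_real hl le_rfl hc 1 0 (by rw [Real.cos_zero]; linarith)).and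
      ((spoke_real hl le_rfl hc (-1) π (by rw [Real.cos_pi]; linarith)).and (small δ hch.pos)))
  have hq : 1 < √(1 + r ^ 2) := Real.lt_sqrt_of_sq_lt (by nlinarith)
  refine ⟨1 - (√(1 + r ^ 2))⁻¹, sub_pos.2 (inv_lt_one_of_one_lt₀ hq), fun s hs1 => ?_⟩
  have cont : ContinuousOn (fun t : ℝ => (√(1 + t ^ 2))⁻¹) (Icc 0 r) :=
    ContinuousOn.inv₀ (by fun_prop) fun t _ => by positivity
  obtain ⟨t, ht, hts⟩ := intermediate_value_Ioo' hr.le cont
    (show s ∈ Ioo (√(1 + r ^ 2))⁻¹ (√(1 + 0 ^ 2))⁻¹ from ⟨by linarith [hs1.1], by simpa using hs1.2⟩)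
  obtain ⟨a1, a2, a3⟩ := hs t ⟨ht.1, ht.2.le⟩
  have cu : ContinuousOn (fun β : ℝ => u (T0 (t * cis β))) (Icc 0 (π / 2)) := fun β _ => by
    have k : Continuous fun β : ℝ => T0 (t * cis β) := by unfold cis; fun_prop
    exact (ContinuousAt.comp (f := fun β : ℝ => T0 (t * cis β))
      (hch.sol.1 _ (T0_ball β a3.1 a3.2)).continuousAt k.continuousAt).continuousWithinAt
  obtain ⟨β, hβ, hz⟩ := intermediate_value_Ioo' (by positivity : 0 ≤ π / 2) cu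
    (show (0 : ℝ) ∈ Ioo (u (T0 (t * cis (π / 2)))) (u (T0 (t * cis 0))) from
      ⟨by simpa using a2, by simpa using a1⟩)
  have hz' : u (T0 (t * cis β)) = 0 := hz
  have hm := hin _ (mem_cb β ⟨ht.1.le, ht.2.le⟩)
  refine ⟨_, ⟨⟨hm.1, ?_, ?_⟩, hm.2⟩, ?_⟩
  · rw [x0, T0_cis]
    exact mul_pos (rr_pos _ _) (mul_pos ht.1 (Real.cos_pos_of_mem_Ioo ⟨by linarith [hβ.1], hβ.2⟩))
  · rw [x1, T0_cis]
    exact mul_pos (rr_pos _ _) (mul_pos ht.1
      (Real.sin_pos_of_mem_Ioo ⟨hβ.1, by linarith [hβ.2]⟩))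
  · rw [wc_gX O u _ 0 (by rw [hz', e1, e2]; simp [ee]) (by rw [hz', e1, e2]; simp [ee]), e0]
    congr 2
    rw [← hts, add_zero, mul_one, rr, hz', T0_cis]
    congr 2
    linear_combination t ^ 2 * Real.sin_sq_add_cos_sq β

/-- positivity of the height on the curve -/
theorem height_pos {u : P2 → ℝ} {c : ℂ} (h : Lead u 0 T0 2 c) (hc : c.im = 0) (hre : c.re < 0)
    (k : ℝ) : ∀ᶠ y : P2 in 𝓝 0, y.1 = k * u y → 0 ≤ u y := by
  obtain ⟨-, C, δ, hδ, h⟩ := h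
  have tz : Tendsto (fun y : P2 => ‖(⟨y.1, y.2⟩ : ℂ)‖) (𝓝 0) (𝓝 0) := by
    have : Continuous fun y : P2 => ‖Complex.equivRealProdCLM.symm y‖ := by fun_prop
    have h0 := this.tendsto 0
    rw [map_zero, norm_zero] at h0
    exact h0
  have t2 : Tendsto (fun s : ℝ => |C| * s) (𝓝 0) (𝓝 0) := by
    have : Continuous fun s : ℝ => |C| * s := by fun_prop
    simpa using this.tendsto 0
  have t3 : Tendsto (fun s : ℝ => |k| * (-2 * c.re) * s) (𝓝 0) (𝓝 0) := by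
    have : Continuous fun s : ℝ => |k| * (-2 * c.re) * s := by fun_prop
    simpa using this.tendsto 0
  filter_upwards [tz.eventually (gt_mem_nhds hδ),
    (t2.comp tz).eventually (gt_mem_nhds (show 0 < -c.re / 2 by linarith)),
    (t3.comp tz).eventually (gt_mem_nhds (show (0 : ℝ) < 1 / 2 by norm_num))] with y h1 h2 h3 hy
  have b := (h _ h1).2.1
  simp only [Function.comp] at h2 h3
  set s := ‖(⟨y.1, y.2⟩ : ℂ)‖ with hs
  have s0 : 0 ≤ s := norm_nonneg _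
  have ss : s ^ 2 = y.1 ^ 2 + y.2 ^ 2 := by
    rw [hs, Complex.sq_norm, Complex.normSq_mk]; ring
  have e : (c * (⟨y.1, y.2⟩ : ℂ) ^ 2).re = c.re * (y.1 ^ 2 - y.2 ^ 2) := by
    simp [pow_two, hc]
  rw [zero_add, e, show T0 ⟨y.1, y.2⟩ = y from rfl] at b
  have b1 : C * s ^ (2 + 1) ≤ -c.re / 2 * s ^ 2 := by
    calc C * s ^ (2 + 1) ≤ |C| * s ^ (2 + 1) := by gcongr; exact le_abs_self C
      _ = |C| * s * s ^ 2 := by ring
      _ ≤ _ := by gcongr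
  obtain ⟨b2, b3⟩ := abs_le.1 (b.trans b1)
  have b4 : |u y| ≤ -2 * c.re * s ^ 2 := by
    rw [abs_le]
    constructor <;> nlinarith [sq_nonneg y.1, sq_nonneg y.2]
  have b5 : |y.1| ≤ 1 / 2 * s := by
    rw [hy, abs_mul]
    calc |k| * |u y| ≤ |k| * (-2 * c.re * s ^ 2) := by gcongr
      _ = |k| * (-2 * c.re) * s * s := by ring
      _ ≤ _ := by gcongr
  have b6 : y.1 ^ 2 ≤ (1 / 2 * s) ^ 2 := by
    rw [← sq_abs]
    gcongr
  nlinarith

theorem rr_lt {u : P2 → ℝ} {y : P2} (h : y.2 ≠ 0) : rr u y < 1 := by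
  have := sq_pos_of_ne_zero h
  exact inv_lt_one_of_one_lt₀ (Real.lt_sqrt_of_sq_lt (by nlinarith [sq_nonneg y.1, sq_nonneg (u y)]))

theorem warc (hD : DerS) (hC : ChartS) (hL : LocS) (hG : GeoS) (S : Set E4) (hS : Sym2 S)
    (p : E4) (hp : p ∈ S) (p1 : p 1 = 0) (p0 : 0 < p 0) (V : Set E4) (hV : V ∈ 𝓝 p) :
    ∃ ε > 0, ∀ s ∈ Ioo (1 - ε) 1, ∃ x ∈ Do S ∩ V, wc x = (s : ℝ) * wc p := by
  obtain ⟨O, δ, u, e0, e2, n0, hch, he, hneg⟩ := hG.arc S hS p hp p1 p0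
  obtain ⟨c, hl, hc, hre⟩ := lead_two hD hL hS.toSym hch he hneg.ne
  have x1 : ∀ y, gX O u y 1 = rr u y * y.2 := fun y => by rw [← inner_ee, ← e2, in2]
  set k := O (ee 1) 0 / O (ee 3) 0 with hk
  set μ := O (ee 0) 0 / O (ee 3) 0 with hμ
  have μ0 : 0 < μ := div_pos (e0 ▸ p0) n0
  have hF : HasStrictFDerivAt (fun y : P2 => y - (k * u y, 0))
      (ContinuousLinearEquiv.refl ℝ P2 : P2 →L[ℝ] P2) 0 := by
    have := (hasStrictFDerivAt_id (0 : P2)).sub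
      (((chart_deriv hch).const_mul k).prodMk (hasStrictFDerivAt_const (0 : ℝ) (0 : P2)))
    refine this.congr_fderiv ?_
    ext <;> simp
  let e := hF.toOpenPartialHomeomorph (fun y : P2 => y - (k * u y, 0))
  have es : (0 : P2) ∈ e.source := hF.mem_toOpenPartialHomeomorph_source
  have ee' : ∀ y, e y = y - (k * u y, 0) := fun y => rfl
  have e00 : e 0 = 0 := by rw [ee', hch.zero]; simp
  have et : (0 : P2) ∈ e.target := e00 ▸ e.map_source es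
  have es0 : e.symm 0 = 0 := by
    have := e.left_inv es
    rwa [e00] at this
  have ec : Tendsto e.symm (𝓝 0) (𝓝 0) := by
    have := e.continuousAt_symm et
    rwa [ContinuousAt, es0] at this
  have n1 := (near hch (W := {x : E4 | 0 < x 0} ∩ V)
    (by rw [e0]; exact inter_mem (open0.mem_nhds p0) hV)).and (height_pos hl hc (by linarith) k)
  have l0 : Tendsto (fun t : ℝ => ((0, t) : P2)) (𝓝 0) (𝓝 0) :=
    (show Continuous fun t : ℝ => ((0, t) : P2) by fun_prop).tendsto 0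
  obtain ⟨r, hr, h1⟩ := nhds_basis_closedBall.eventually_iff.1 (l0.eventually
    (Filter.Eventually.and (e.open_target.mem_nhds et) (ec.eventually n1)))
  have h2 : ∀ t ∈ Icc (0 : ℝ) r, t ∈ closedBall (0 : ℝ) r := fun t ht => by
    rw [mem_closedBall_zero_iff, Real.norm_eq_abs, abs_of_nonneg ht.1]
    exact ht.2
  have g12 : ∀ t ∈ Icc (0 : ℝ) r, (e.symm (0, t)).1 = k * u (e.symm (0, t)) ∧
      (e.symm (0, t)).2 = t := fun t ht => by
    have := e.right_inv (h1 (h2 t ht)).1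
    rw [ee'] at this
    exact ⟨by simpa [sub_eq_zero] using congrArg Prod.fst this,
      by simpa using congrArg Prod.snd this⟩
  have cont : ContinuousOn (fun t : ℝ => rr u (e.symm (0, t)) * (1 + -(μ * u (e.symm (0, t)))))
      (Icc 0 r) := fun t ht => by
    have a := h1 (h2 t ht)
    have g : ContinuousAt (fun t : ℝ => e.symm (0, t)) t :=
      ContinuousAt.comp (f := fun t : ℝ => ((0, t) : P2)) (e.continuousAt_symm a.1) (by fun_prop)
    have cu := (hch.sol.1 _ a.2.1.1).continuousAt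
    have c1 := ContinuousAt.comp (f := fun t : ℝ => e.symm (0, t)) cu g
    have c2 := ContinuousAt.comp (f := fun t : ℝ => e.symm (0, t)) (rr_cont cu) g
    exact (c2.mul (continuousAt_const.add (continuousAt_const.mul c1).neg)).continuousWithinAt
  have hrr : r ∈ Icc 0 r := ⟨hr.le, le_rfl⟩
  have lt : rr u (e.symm (0, r)) * (1 + -(μ * u (e.symm (0, r)))) < 1 := by
    have a := (h1 (h2 r hrr)).2.2 (g12 r hrr).1
    have b : rr u (e.symm (0, r)) < 1 := rr_lt (by rw [(g12 r hrr).2]; exact hr.ne')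
    nlinarith [mul_nonneg (rr_pos u (e.symm (0, r))).le (mul_nonneg μ0.le a)]
  refine ⟨_, sub_pos.2 lt, fun s hs => ?_⟩
  obtain ⟨t, ht, hts⟩ := intermediate_value_Ioo' hr.le cont (show s ∈ Ioo
      (rr u (e.symm (0, r)) * (1 + -(μ * u (e.symm (0, r)))))
      (rr u (e.symm (0, 0)) * (1 + -(μ * u (e.symm (0, 0))))) from ⟨by linarith [hs.1], by
    rw [show ((0, 0) : P2) = 0 from rfl, es0, rr_zero hch.zero, hch.zero]
    simpa using hs.2⟩)
  have ht' : t ∈ Icc 0 r := ⟨ht.1.le, ht.2.le⟩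
  obtain ⟨-, ⟨a1, a2, a3⟩, -⟩ := h1 (h2 t ht')
  obtain ⟨g1, g2⟩ := g12 t ht'
  refine ⟨_, ⟨⟨(hC.facts S O _ u (lch hch) _ a1).1, a2, ?_⟩, a3⟩, ?_⟩
  · rw [x1, g2]
    exact mul_pos (rr_pos _ _) ht.1
  · have z0 : O (ee 2) 0 = 0 := by rw [e2]; simp [ee]
    have z2 : O (ee 2) 2 = 0 := by rw [e2]; simp [ee]
    have z3 : O (ee 2) 3 = 0 := by rw [e2]; simp [ee]
    have c2 := col O (show (0 : Fin 4) ≠ 2 by decide)
    have c3 := col O (show (0 : Fin 4) ≠ 3 by decide)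
    rw [z0] at c2 c3
    rw [wc_gX O u _ (-(μ * u (e.symm (0, t)))) ?_ ?_, e0, ← hts]
    · rw [g1, z2, hk, hμ]
      field_simp
      linear_combination u (e.symm (0, t)) * c2
    · rw [g1, z3, hk, hμ]
      field_simp
      linear_combination u (e.symm (0, t)) * c3

theorem sx_sx (x : E4) : sx (sx x) = x := by
  rw [sx_apply, sx_apply]
  ext i
  fin_cases i <;> simp

theorem wbd (hD : DerS) (hC : ChartS) (hL : LocS) (hG : GeoS) (S : Set E4) (hS : Sym2 S)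
    (p : E4) (hp : p ∈ Bd S) : wc p ≠ 0 ∧ ∀ V ∈ 𝓝 p, ∃ ε > 0, ∀ s ∈ Ioo (1 - ε) 1,
      ∃ x ∈ Do S ∩ V, wc x = (s : ℝ) * wc p := by
  refine ⟨fun h => ?_, fun V hV => ?_⟩
  · have p2 : p 2 = 0 := congrArg Complex.re h
    have p3 : p 3 = 0 := congrArg Complex.im h
    have hu := norm4 (hC.unit S hS.minimal p hp.1)
    have ha : aa p = 1 := by
      rw [p2, p3] at hu
      unfold aa
      linarith
    exact (hG.bdv S hS p hp (by rw [ha]; exact one_pos)).2.2.ne ha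
  rcases hp.2.1.eq_or_lt with p0 | p0
  · rcases hp.2.2.1.eq_or_lt with p1 | p1
    · exact wcorner hD hC hL hG S hS p hp.1 p0.symm p1.symm V hV
    · obtain ⟨ε, hε, h⟩ := warc hD hC hL hG (sx '' S) ((hL.swap S).2.1 hS) (sx p)
        (mem_image_of_mem _ hp.1) (by rw [sx_apply]; simpa using p0.symm)
        (by rw [sx_apply]; simpa using p1) (sx ⁻¹' V)
        (sx.continuous.continuousAt.preimage_mem_nhds (by rwa [sx_sx]))
      have w : ∀ x, wc (sx x) = wc x := fun x => by rw [sx_apply]; simp [wc]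
      refine ⟨ε, hε, fun s hs => ?_⟩
      obtain ⟨x, ⟨h1, h2⟩, h3⟩ := h s hs
      rw [(hL.swap S).2.2.2.2.1] at h1
      obtain ⟨x', h4, rfl⟩ := h1
      rw [mem_preimage, sx_sx] at h2
      exact ⟨x', ⟨h4, h2⟩, by rwa [w, w] at h3⟩
  · exact warc hD hC hL hG S hS p hp.1 (hp.2.2.2.resolve_left p0.ne') p0 V hV

end DGeo

theorem geoS (hM : MeqS) (hD : DerS) (hC : ChartS) (hL : LocS) (hQ : QcS) (hP : PlanS) : GeoS :=
  ⟨DGeo.b4 hM hC hL hQ hP, DGeo.arc hD hC hL hQ hP, DGeo.corner hD hC hL hQ hP,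
    DGeo.bdv hD hC hL hQ hP⟩

theorem wlocS (hM : MeqS) (hD : DerS) (hC : ChartS) (hL : LocS) (hG : GeoS) : WlocS :=
  ⟨DGeo.wint hM hC hG, DGeo.wbd hD hC hL hG⟩

end Pool.Agent.Lib.MP_16d934_gt
end
end
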