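import Pool.Agent.Lib.MP_16d934_gt.StC

-- part Pool.Agent.Lib.MP_16d934_gt.BTouch
section

/-! Touching principles, unique continuation and barriers for minimal surfaces in the sphere. -/

set_option autoImplicit false

open Set Metric Filter Topology Asymptotics
open scoped ContDiff InnerProductSpace

noncomputable section

namespace Pool.Agent.Lib.MP_16d934_gt

namespace BTouch

/-! ### Gnomonic coordinates -/

/-- coordinate in the frame `O` -/
def cd (O : Iso) (i : Fin 4) : E4 →L[ℝ] ℝ := innerSL ℝ (O (ee i))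

theorem cd_eq (O : Iso) (i : Fin 4) (x : E4) : cd O i x = ⟪O (ee i), x⟫_ℝ := rfl

theorem cd_apply (O : Iso) (i : Fin 4) (w : E4) : cd O i (O w) = w i := by
  rw [cd_eq, O.inner_map_map, ee, EuclideanSpace.inner_single_left]
  simp

/-- base coordinate -/
def yc (O : Iso) (x : E4) : P2 := (cd O 1 x / cd O 0 x, cd O 2 x / cd O 0 x)

/-- height coordinate -/
def zz (O : Iso) (x : E4) : ℝ := cd O 3 x / cd O 0 x

theorem rho_pos (y : P2) (z : ℝ) : 0 < √(1 + y.1 ^ 2 + y.2 ^ 2 + z ^ 2) :=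
  Real.sqrt_pos.2 (by positivity)

theorem cd0_gn (O : Iso) (y : P2) (z : ℝ) : 0 < cd O 0 (O (gn y z)) := by
  rw [cd_apply]
  simpa [gn] using rho_pos y z

theorem yc_gn (O : Iso) (y : P2) (z : ℝ) : yc O (O (gn y z)) = y := by
  have := (rho_pos y z).ne'
  ext <;> simp [yc, cd_apply, gn] <;> field_simp

theorem zz_gn (O : Iso) (y : P2) (z : ℝ) : zz O (O (gn y z)) = z := by
  have := (rho_pos y z).ne'
  simp [zz, cd_apply, gn]
  field_simp

theorem recon (O : Iso) {x : E4} (hx : ‖x‖ = 1) (h0 : 0 < cd O 0 x) :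
    O (gn (yc O x) (zz O x)) = x := by
  obtain ⟨w, rfl⟩ := O.surjective x
  rw [O.norm_map] at hx
  rw [cd_apply] at h0
  have h1 : w 0 ^ 2 + w 1 ^ 2 + w 2 ^ 2 + w 3 ^ 2 = 1 := by
    have := EuclideanSpace.real_norm_sq_eq w
    rw [hx, Fin.sum_univ_four] at this
    linarith
  have h2 : √(1 + (w 1 / w 0) ^ 2 + (w 2 / w 0) ^ 2 + (w 3 / w 0) ^ 2) = (w 0)⁻¹ := by
    rw [Real.sqrt_eq_iff_mul_self_eq (by positivity) (by positivity)]
    field_simp
    linarith
  congr 1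
  simp only [gn, yc, zz, cd_apply, h2, inv_inv]
  ext i
  fin_cases i <;> simp <;> field_simp

theorem gn_zero : gn 0 0 = ee 0 := by
  ext i
  fin_cases i <;> simp [gn, ee]

theorem gn_eq (y : P2) (z : ℝ) : gn y z =
    (√(1 + y.1 ^ 2 + y.2 ^ 2 + z ^ 2))⁻¹ • (ee 0 + y.1 • ee 1 + y.2 • ee 2 + z • ee 3) := by
  unfold gn
  congr 1
  ext i
  fin_cases i <;> simp [ee]

theorem norm_gn (y : P2) (z : ℝ) : ‖gn y z‖ = 1 := by
  have h := rho_pos y z
  have h2 := Real.sq_sqrt (show 0 ≤ 1 + y.1 ^ 2 + y.2 ^ 2 + z ^ 2 by positivity)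
  have : ‖gn y z‖ ^ 2 = 1 := by
    rw [EuclideanSpace.real_norm_sq_eq, Fin.sum_univ_four]
    simp only [gn, PiLp.smul_apply, smul_eq_mul]
    simp
    field_simp
    linarith
  nlinarith [norm_nonneg (gn y z)]

/-- the gnomonic chart of the half sphere -/
def Xi (O : Iso) (s : P2 × ℝ) : E4 := O (gn s.1 s.2)

theorem cd_rho (s : P2 × ℝ) :
    ContDiffAt ℝ ω (fun s : P2 × ℝ => (√(1 + s.1.1 ^ 2 + s.1.2 ^ 2 + s.2 ^ 2))⁻¹) s :=
  (ContDiffAt.sqrt (by fun_prop) (by positivity)).inv (rho_pos _ _).ne'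

theorem ana_Xi (O : Iso) (s : P2 × ℝ) : AnalyticAt ℝ (Xi O) s := by
  refine ContDiffAt.analyticAt (𝕜 := ℝ) ?_
  refine O.contDiff.contDiffAt.comp s (f := fun s : P2 × ℝ => gn s.1 s.2) ?_
  simp only [gn_eq]
  exact (cd_rho s).smul (by fun_prop)

theorem diff_q (O : Iso) (i : Fin 4) {x : E4} (h : cd O 0 x ≠ 0) :
    DifferentiableAt ℝ (fun x => cd O i x / cd O 0 x) x := by
  simp only [div_eq_mul_inv]
  exact (cd O i).differentiableAt.mul ((cd O 0).differentiableAt.inv h)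

theorem diff_yc (O : Iso) {x : E4} (h : cd O 0 x ≠ 0) : DifferentiableAt ℝ (yc O) x :=
  (diff_q O 1 h).prodMk (diff_q O 2 h)

theorem diff_zz (O : Iso) {x : E4} (h : cd O 0 x ≠ 0) : DifferentiableAt ℝ (zz O) x :=
  diff_q O 3 h

theorem inj_Xi (O : Iso) (s : P2 × ℝ) : Function.Injective (fderiv ℝ (Xi O) s) := by
  have h0 := (cd0_gn O s.1 s.2).ne'
  have hd : DifferentiableAt ℝ (fun x => (yc O x, zz O x)) (Xi O s) :=
    (diff_yc O h0).prodMk (diff_zz O h0)
  have e : (fun x => (yc O x, zz O x)) ∘ Xi O = id := by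
    ext1 s
    simp [Xi, yc_gn, zz_gn]
  have := fderiv_comp s hd (ana_Xi O s).differentiableAt
  rw [e, fderiv_id] at this
  intro a b hab
  have h2 := congrArg (fderiv ℝ (fun x => (yc O x, zz O x)) (Xi O s)) hab
  rwa [← ContinuousLinearMap.comp_apply, ← ContinuousLinearMap.comp_apply, ← this] at h2

theorem gX_inj {O : Iso} {u v : P2 → ℝ} {y y' : P2} (h : gX O u y = gX O v y') :
    y = y' ∧ u y = v y' :=
  ⟨by simpa [gX, yc_gn] using congrArg (yc O) h, by simpa [gX, zz_gn] using congrArg (zz O) h⟩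

/-- derivative of a tangent graph at the centre -/
theorem fderiv_gX (O : Iso) {u : P2 → ℝ} (hu : DifferentiableAt ℝ u 0) (h0 : u 0 = 0)
    (h1 : fderiv ℝ u 0 = 0) (v : P2) :
    fderiv ℝ (gX O u) 0 v = O (v.1 • ee 1 + v.2 • ee 2) := by
  let r : P2 → ℝ := fun y => (√(1 + y.1 ^ 2 + y.2 ^ 2 + u y ^ 2))⁻¹
  have r0 : r 0 = 1 := by simp [r, h0]
  have hr : DifferentiableAt ℝ r 0 :=
    DifferentiableAt.comp (g := fun s : P2 × ℝ => (√(1 + s.1.1 ^ 2 + s.1.2 ^ 2 + s.2 ^ 2))⁻¹)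
      (f := fun y => (y, u y)) 0 ((cd_rho _).differentiableAt (by simp))
      (differentiableAt_id.prodMk hu)
  have hm : IsLocalMax r 0 := Eventually.of_forall fun y => by
    rw [r0]
    refine inv_le_one_of_one_le₀ (Real.one_le_sqrt.2 ?_)
    nlinarith [sq_nonneg y.1, sq_nonneg y.2, sq_nonneg (u y)]
  have hr' : HasFDerivAt r (0 : P2 →L[ℝ] ℝ) 0 := hm.fderiv_eq_zero ▸ hr.hasFDerivAt
  have hu' : HasFDerivAt u (0 : P2 →L[ℝ] ℝ) 0 := h1 ▸ hu.hasFDerivAt
  have ha := ((((hasFDerivAt_const (ee 0) (0 : P2)).add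
    ((hasFDerivAt_fst (𝕜 := ℝ) (p := (0 : P2))).smul_const (ee 1))).add
    ((hasFDerivAt_snd (𝕜 := ℝ) (p := (0 : P2))).smul_const (ee 2))).add (hu'.smul_const (ee 3)))
  have hb := O.toContinuousLinearEquiv.hasFDerivAt.comp (0 : P2) (hr'.smul ha)
  have e : gX O u = O.toContinuousLinearEquiv ∘
      (r • fun y : P2 => ee 0 + y.1 • ee 1 + y.2 • ee 2 + u y • ee 3) := by
    ext1 y
    simp [gX, gn_eq, r]
  rw [e]
  refine (congrArg (fun A : P2 →L[ℝ] E4 => A v) hb.fderiv).trans ?_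
  simp [r0]

/-! ### Two graphs through one point -/

theorem exists_T (A : P2 →L[ℝ] E4) (hA : Function.Injective A) :
    ∃ T : ℂ →L[ℝ] P2, ∀ v, ‖A (T v)‖ = ‖v‖ := by
  have h : Module.finrank ℝ (LinearMap.range (A : P2 →ₗ[ℝ] E4)) = 2 := by
    rw [LinearMap.finrank_range_of_inj hA]
    simp
  let i := Complex.isometryOfOrthonormal
    ((stdOrthonormalBasis ℝ (LinearMap.range (A : P2 →ₗ[ℝ] E4))).reindex (finCongr h))
  let e := LinearEquiv.ofInjective (A : P2 →ₗ[ℝ] E4) hA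
  refine ⟨LinearMap.toContinuousLinearMap (e.symm.toLinearMap ∘ₗ i.toLinearEquiv.toLinearMap),
    fun v => ?_⟩
  have : A (e.symm (i v)) = (i v : E4) := LinearEquiv.ofInjective_symm_apply (h := hA) _ _
  exact (congrArg norm this).trans (i.norm_map v)

theorem signs {w : P2 → ℝ} {x₀ : P2} {T : ℂ →L[ℝ] P2} {m : ℕ} {c : ℂ} (h : Lead w x₀ T m c)
    (hm : 1 ≤ m) {ε : ℝ} (hε : ε = 1 ∨ ε = -1) : ∃ᶠ x in 𝓝 x₀, 0 < ε * w x := by
  obtain ⟨hc, C, δ, hδ, h⟩ := h
  obtain ⟨q, hq⟩ := IsAlgClosed.exists_pow_nat_eq (c⁻¹ * ε) hm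
  have ht : Tendsto (fun t : ℝ => x₀ + T (t * q)) (𝓝[>] 0) (𝓝 x₀) := by
    have : Continuous fun t : ℝ => x₀ + T (t * q) := by fun_prop
    simpa using (this.tendsto 0).mono_left nhdsWithin_le_nhds
  refine ht.frequently (Eventually.frequently ?_)
  have e1 : ∀ᶠ t : ℝ in 𝓝[>] 0, t * ‖q‖ < δ :=
    ((by fun_prop : Continuous fun t : ℝ => t * ‖q‖).continuousAt.eventually_lt continuousAt_const
      (by simpa using hδ)).filter_mono nhdsWithin_le_nhds
  have e2 : ∀ᶠ t : ℝ in 𝓝[>] 0, C * ‖q‖ ^ (m + 1) * t < 1 :=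
    ((by fun_prop : Continuous fun t : ℝ => C * ‖q‖ ^ (m + 1) * t).continuousAt.eventually_lt
      continuousAt_const (by simp)).filter_mono nhdsWithin_le_nhds
  filter_upwards [e1, e2, self_mem_nhdsWithin] with t h1 h2 h3
  have h3' : 0 < t := h3
  have n1 : ‖(t : ℂ) * q‖ = t * ‖q‖ := by rw [norm_mul, Complex.norm_real, Real.norm_of_nonneg h3'.le]
  have a := (h (t * q) (by rwa [n1])).2.1
  have b : (c * (t * q) ^ m).re = ε * t ^ m := by
    have : c * (t * q) ^ m = ((ε * t ^ m : ℝ) : ℂ) := by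
      rw [mul_pow, hq]
      push_cast
      field_simp
    rw [this, Complex.ofReal_re]
  rw [b, n1] at a
  have tp := pow_pos h3' m
  have d : C * (t * ‖q‖) ^ (m + 1) < t ^ m := by
    calc C * (t * ‖q‖) ^ (m + 1) = (C * ‖q‖ ^ (m + 1) * t) * t ^ m := by ring
      _ < 1 * t ^ m := mul_lt_mul_of_pos_right h2 tp
      _ = t ^ m := one_mul _
  have f := abs_lt.1 (a.trans_lt d)
  rcases hε with rfl | rfl <;> linarith [f.1, f.2]

theorem sol_ev (hM : MeqS) (O : Iso) {u : P2 → ℝ} {U : Set P2} (hU : IsOpen U) (hu : Sol u U)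
    {y : P2} (hy : y ∈ U) : ∀ᶠ x in 𝓝 y, MinEq (gX O u) x := by
  filter_upwards [hU.mem_nhds hy] with x hx
  exact (hM.graph O u x (hu.1 x hx).contDiffAt).2 (hu.2 x hx)

theorem tri (hM : MeqS) (hL : LeadS) {u v : P2 → ℝ} {U U' : Set P2} (hU : IsOpen U)
    (hU' : IsOpen U') (hu : Sol u U) (hv : Sol v U') {y : P2} (hy : y ∈ U) (hy' : y ∈ U')
    (e : u y = v y) :
    u =ᶠ[𝓝 y] v ∨ ((∃ᶠ x in 𝓝 y, u x < v x) ∧ ∃ᶠ x in 𝓝 y, v x < u x) := by
  have du := (hu.1 y hy).differentiableAt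
  have dv := (hv.1 y hy').differentiableAt
  by_cases hd : fderiv ℝ u y = fderiv ℝ v y
  · let O : Iso := LinearIsometryEquiv.refl ℝ E4
    obtain ⟨T, hT⟩ := exists_T _ (hM.normal O u y du).2.2.2.2.2
    rcases hL (Xi O) u v y T (ana_Xi O _) (inj_Xi O _)
      (Eventually.of_forall fun s => by rw [Xi, O.norm_map, norm_gn]) (hu.1 y hy) (hv.1 y hy') e hd
      (sol_ev hM O hU hu hy) (sol_ev hM O hU' hv hy') hT with h | ⟨m, c, hm, h⟩
    · exact Or.inl h
    · exact Or.inr ⟨(signs h (by omega) (Or.inr rfl)).mono fun x hx => by linarith,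
        (signs h (by omega) (Or.inl rfl)).mono fun x hx => by linarith⟩
  · have hd' : fderiv ℝ (u - v) y ≠ 0 := by
      rw [fderiv_sub du dv]
      exact sub_ne_zero.2 hd
    refine Or.inr ⟨?_, ?_⟩
    · by_contra h
      refine hd' (IsLocalMin.fderiv_eq_zero ((not_frequently.1 h).mono fun x hx => ?_))
      simp only [Pi.sub_apply]
      linarith [not_lt.1 hx]
    · by_contra h
      refine hd' (IsLocalMax.fderiv_eq_zero ((not_frequently.1 h).mono fun x hx => ?_))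
      simp only [Pi.sub_apply]
      linarith [not_lt.1 hx]

/-- two surfaces through one point are graphs in a common frame -/
theorem two (hM : MeqS) (hC : ChartS) {S S' : Set E4} (hS : IsMin S) (hS' : IsMin S') {p : E4}
    (hp : p ∈ S) (hp' : p ∈ S') : ∃ (O : Iso) (δ δ' : ℝ) (u u' : P2 → ℝ), 0 < δ ∧ 0 < δ' ∧
      LChart S O (ball 0 δ) u ∧ LChart S' O (ball 0 δ') u' ∧ u 0 = u' 0 ∧ gX O u 0 = p ∧
      gX O u' 0 = p := by
  obtain ⟨n, hn⟩ : ∃ n, IsNor S p n := ⟨_, (hC.nor_spec S hS p hp).1⟩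
  obtain ⟨n', hn'⟩ : ∃ n, IsNor S' p n := ⟨_, (hC.nor_spec S' hS' p hp').1⟩
  obtain ⟨m, m1, m2, m3, m4⟩ : ∃ m : E4, ‖m‖ = 1 ∧ ⟪m, p⟫_ℝ = 0 ∧ ⟪n, m⟫_ℝ ≠ 0 ∧
      ⟪n', m⟫_ℝ ≠ 0 := by
    by_cases h : ⟪n', n⟫_ℝ = 0
    · have h' : ⟪n, n'⟫_ℝ = 0 := by rw [real_inner_comm, h]
      refine ⟨(3 / 5 : ℝ) • n + (4 / 5 : ℝ) • n', ?_, ?_, ?_, ?_⟩
      · have : ‖(3 / 5 : ℝ) • n + (4 / 5 : ℝ) • n'‖ ^ 2 = 1 := by
          rw [norm_add_sq_real, norm_smul, norm_smul, hn.1, hn'.1, inner_smul_left,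
            inner_smul_right, h']
          norm_num
        nlinarith [norm_nonneg ((3 / 5 : ℝ) • n + (4 / 5 : ℝ) • n')]
      · simp [inner_add_left, inner_smul_left, hn.2.1, hn'.2.1]
      · simp [inner_add_right, inner_smul_right, h', hn.1]
      · simp [inner_add_right, inner_smul_right, h, hn'.1]
    · exact ⟨n, hn.1, hn.2.1, by simp [hn.1], h⟩
  obtain ⟨⟨O, o0, o3⟩, -⟩ := hM.frame p m (hC.unit S hS p hp) m1 m2
  have e : O (gn 0 0) = p := by rw [gn_zero, o0]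
  obtain ⟨δ, hδ, u, hu, u0⟩ := hC.lchart S hS O 0 0 n (e ▸ hp) (e ▸ hn) (o3 ▸ m3)
  obtain ⟨δ', hδ', u', hu', u0'⟩ := hC.lchart S' hS' O 0 0 n' (e ▸ hp') (e ▸ hn') (o3 ▸ m4)
  exact ⟨O, δ, δ', u, u', hδ, hδ', hu, hu', u0.trans u0'.symm, by rw [gX, u0, e],
    by rw [gX, u0', e]⟩

theorem nhds_eq (hC : ChartS) {S S' : Set E4} {O : Iso} {U U' : Set P2} {u u' : P2 → ℝ}
    (hu : LChart S O U u) (hu' : LChart S' O U' u') {y : P2} (hy : y ∈ U) (hy' : y ∈ U')
    (h : u =ᶠ[𝓝 y] u') : 𝓝[S] (gX O u y) = 𝓝[S'] (gX O u' y) := by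
  rw [← (hC.facts S O U u hu y hy).2.2, ← (hC.facts S' O U' u' hu' y hy').2.2]
  exact map_congr (h.mono fun x hx => by simp only [gX, hx])

theorem pers (hM : MeqS) (hC : ChartS) (hL : LeadS) (S S' : Set E4) (hS : IsMin S)
    (hS' : IsMin S') (p : E4) (hp : p ∈ S) (hp' : p ∈ S') : 𝓝[S] p = 𝓝[S'] p ∨
    ∀ V ∈ 𝓝 p, ∃ ε > 0, ∀ g : E4 → E4, ContinuousOn g (S' ∩ V) →
      (∀ x ∈ S' ∩ V, ‖g x‖ = 1 ∧ ‖g x - x‖ < ε) → ∃ x ∈ S' ∩ V, g x ∈ S := by
  obtain ⟨O, δ, δ', u, u', hδ, hδ', hu, hu', e, e1, e2⟩ := two hM hC hS hS' hp hp'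
  rcases tri hM hL isOpen_ball isOpen_ball hu.sol hu'.sol (mem_ball_self hδ) (mem_ball_self hδ') e
    with h | ⟨h1, h2⟩
  · left
    have := nhds_eq hC hu hu' (mem_ball_self hδ) (mem_ball_self hδ') h
    rwa [e1, e2] at this
  right
  intro V hV
  have cX : ∀ y ∈ ball (0 : P2) δ', ContinuousAt (gX O u') y := fun y hy =>
    (hM.ana O u' y (hu'.sol.1 y hy)).1.continuousAt
  have hN : ball (0 : P2) δ ∩ ball 0 δ' ∩ gX O u' ⁻¹' V ∈ 𝓝 (0 : P2) :=
    inter_mem (inter_mem (ball_mem_nhds _ hδ) (ball_mem_nhds _ hδ'))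
      (cX 0 (mem_ball_self hδ') (e2 ▸ hV))
  obtain ⟨r, hr, hK⟩ := nhds_basis_closedBall.mem_iff.1 hN
  obtain ⟨y1, a1, b1⟩ := (h1.and_eventually (closedBall_mem_nhds _ hr)).exists
  obtain ⟨y2, a2, b2⟩ := (h2.and_eventually (closedBall_mem_nhds _ hr)).exists
  let W : Set E4 := {x | 0 < cd O 0 x} ∩ yc O ⁻¹' ball 0 δ
  have hW0 : IsOpen {x | 0 < cd O 0 x} := isOpen_lt continuous_const (cd O 0).continuous
  have hW : IsOpen W := ContinuousOn.isOpen_inter_preimage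
    (fun x hx => (diff_yc O (ne_of_gt hx)).continuousAt.continuousWithinAt) hW0 isOpen_ball
  let σ : E4 → ℝ := fun x => zz O x - u (yc O x)
  have cσ : ∀ x ∈ W, ContinuousAt σ x := fun x hx =>
    (diff_zz O (ne_of_gt hx.1)).continuousAt.sub
      ((hu.sol.1 _ hx.2).continuousAt.comp (diff_yc O (ne_of_gt hx.1)).continuousAt)
  have XW : ∀ y ∈ closedBall (0 : P2) r, gX O u' y ∈ W := fun y hy =>
    ⟨cd0_gn O _ _, by rw [mem_preimage, gX, yc_gn]; exact (hK hy).1.1⟩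
  have σX : ∀ y, σ (gX O u' y) = u' y - u y := fun y => by simp only [σ, gX, yc_gn, zz_gn]
  have cK : ContinuousOn (gX O u') (closedBall 0 r) := fun y hy =>
    (cX y (hK hy).1.2).continuousWithinAt
  have mK : MapsTo (gX O u') (closedBall 0 r) (S' ∩ V) := fun y hy =>
    ⟨(hC.facts S' O _ u' hu' y (hK hy).1.2).1, (hK hy).2⟩
  obtain ⟨ε0, p0, q0⟩ := ((isCompact_closedBall 0 r).image_of_continuousOn
    cK).exists_thickening_subset_open hW (image_subset_iff.2 XW)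
  obtain ⟨ε1, p1, q1⟩ := Metric.eventually_nhds_iff.1
    (continuousAt_const.eventually_lt (cσ _ (XW y1 b1)) (show 0 < σ _ by rw [σX]; linarith))
  obtain ⟨ε2, p2, q2⟩ := Metric.eventually_nhds_iff.1
    ((cσ _ (XW y2 b2)).eventually_lt continuousAt_const (show σ _ < 0 by rw [σX]; linarith))
  refine ⟨min ε0 (min ε1 ε2), by positivity, fun g hg hg' => ?_⟩
  have near : ∀ y ∈ closedBall (0 : P2) r, dist (g (gX O u' y)) (gX O u' y) <
      min ε0 (min ε1 ε2) := fun y hy => by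
    rw [dist_eq_norm]
    exact (hg' _ (mK hy)).2
  have gW : ∀ y ∈ closedBall (0 : P2) r, g (gX O u' y) ∈ W := fun y hy =>
    q0 (mem_thickening_iff.2 ⟨_, mem_image_of_mem _ hy, (near y hy).trans_le (min_le_left _ _)⟩)
  have cφ : ContinuousOn (fun y => σ (g (gX O u' y))) (closedBall 0 r) := fun y hy =>
    (cσ _ (gW y hy)).comp_continuousWithinAt (f := fun y => g (gX O u' y)) ((hg.comp cK mK) y hy)
  obtain ⟨y, hy, e0⟩ := (convex_closedBall (0 : P2) r).isPreconnected.intermediate_value b2 b1 cφ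
    (show (0 : ℝ) ∈ Icc _ _ from
      ⟨(q2 ((near y2 b2).trans_le ((min_le_right _ _).trans (min_le_right _ _)))).le,
        (q1 ((near y1 b1).trans_le ((min_le_right _ _).trans (min_le_left _ _)))).le⟩)
  refine ⟨_, mK hy, ?_⟩
  have a := recon O (hg' _ (mK hy)).1 (gW y hy).1
  have b : zz O (g (gX O u' y)) = u (yc O (g (gX O u' y))) := sub_eq_zero.1 e0
  rw [← a, b]
  exact (hC.facts S O _ u hu _ (gW y hy).2).1

/-! ### Great spheres and unique continuation -/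

theorem sol_zero (U : Set P2) : Sol (fun _ => 0) U := by
  refine ⟨fun _ _ => analyticAt_const, fun y _ => ?_⟩
  have a : d1 (fun _ : P2 => (0 : ℝ)) = fun _ => 0 := by ext; simp [d1]
  have b : d2 (fun _ : P2 => (0 : ℝ)) = fun _ => 0 := by ext; simp [d2]
  simp [gAt, gOp, a, b]

theorem great (hM : MeqS) (hC : ChartS) (v : E4) (hv : v ≠ 0) :
    IsMin {x | ‖x‖ = 1 ∧ ⟪v, x⟫_ℝ = 0} := by
  refine hC.glue _ fun p hp => ?_
  have hn : ‖v‖ ≠ 0 := norm_ne_zero_iff.2 hv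
  obtain ⟨⟨O, o0, o3⟩, -⟩ := hM.frame p (‖v‖⁻¹ • v) hp.1 (norm_smul_inv_norm hv)
    (by rw [inner_smul_left, hp.2, mul_zero])
  have c3 : ∀ x, cd O 3 x = 0 ↔ ⟪v, x⟫_ℝ = 0 := fun x => by
    rw [cd_eq, o3, inner_smul_left]
    simp [hn]
  have e : gX O (fun _ => 0) '' univ = {x | ‖x‖ = 1 ∧ ⟪v, x⟫_ℝ = 0} ∩ {x | 0 < cd O 0 x} := by
    ext x
    constructor
    · rintro ⟨y, -, rfl⟩
      refine ⟨⟨by rw [gX, O.norm_map, norm_gn], (c3 _).1 ?_⟩, cd0_gn O _ _⟩
      rw [gX, cd_apply]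
      simp [gn]
    · rintro ⟨⟨a, b⟩, c⟩
      refine ⟨yc O x, mem_univ _, ?_⟩
      have := recon O a c
      rwa [zz, (c3 x).2 b, zero_div] at this
  have p0 : 0 < cd O 0 p := by
    rw [← o0, cd_apply]
    simp [ee]
  refine ⟨_, (hC.graph O _ univ isOpen_univ (sol_zero _)).1, e ▸ ⟨hp, p0⟩, ?_⟩
  rw [e]
  exact nhdsWithin_inter_of_mem' (mem_nhdsWithin_of_mem_nhds
    ((isOpen_lt continuous_const (cd O 0).continuous).mem_nhds p0))

theorem sphere (hM : MeqS) (hC : ChartS) (hL : LeadS) (S : Set E4) (hS : IsMin S) (p : E4)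
    (hp : p ∈ S) (v : E4) (hv : ⟪v, p⟫_ℝ = 0) (h : ∀ᶠ x in 𝓝[S] p, 0 ≤ ⟪v, x⟫_ℝ) :
    ∀ᶠ x in 𝓝[S] p, ⟪v, x⟫_ℝ = 0 := by
  by_cases h0 : v = 0
  · simp [h0]
  rcases pers hM hC hL S _ hS (great hM hC v h0) p hp ⟨hC.unit S hS p hp, hv⟩ with a | a
  · rw [a]
    exact eventually_mem_nhdsWithin.mono fun x hx => hx.2
  exfalso
  obtain ⟨r, hr, h⟩ := Metric.eventually_nhds_iff.1 (eventually_nhdsWithin_iff.1 h)
  obtain ⟨ε, hε, a⟩ := a (ball p (r / 2)) (ball_mem_nhds _ (by positivity))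
  have hn : 0 < ‖v‖ := norm_pos_iff.2 h0
  have ev : ∀ᶠ t : ℝ in 𝓝[>] 0, |Real.cos t - 1| + |Real.sin t| < min ε (r / 2) :=
    ((by fun_prop : Continuous fun t : ℝ =>
      |Real.cos t - 1| + |Real.sin t|).continuousAt.eventually_lt continuousAt_const
      (by simp; exact ⟨hε, hr⟩)).filter_mono nhdsWithin_le_nhds
  obtain ⟨t, t1, t2⟩ := (ev.and (Ioo_mem_nhdsGT Real.pi_pos)).exists
  have hs : 0 < Real.sin t := Real.sin_pos_of_mem_Ioo t2
  set w : E4 := ‖v‖⁻¹ • v with hw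
  have w1 : ‖w‖ = 1 := norm_smul_inv_norm h0
  have key : ∀ x : E4, ‖x‖ = 1 → ⟪v, x⟫_ℝ = 0 → ‖Real.cos t • x - Real.sin t • w‖ = 1 ∧
      ‖Real.cos t • x - Real.sin t • w - x‖ < min ε (r / 2) := fun x x1 x2 => by
    constructor
    · have x3 : ⟪x, w⟫_ℝ = 0 := by rw [hw, inner_smul_right, real_inner_comm, x2, mul_zero]
      have : ‖Real.cos t • x - Real.sin t • w‖ ^ 2 = 1 := by
        rw [norm_sub_sq_real, norm_smul, norm_smul, x1, w1, inner_smul_left, inner_smul_right, x3]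
        simp
      nlinarith [norm_nonneg (Real.cos t • x - Real.sin t • w)]
    · have : Real.cos t • x - Real.sin t • w - x = (Real.cos t - 1) • x - Real.sin t • w := by
        module
      rw [this]
      refine (norm_sub_le _ _).trans_lt ?_
      rwa [norm_smul, norm_smul, x1, w1, mul_one, mul_one]
  obtain ⟨x, ⟨⟨x1, x2⟩, x3⟩, x4⟩ := a (fun x => Real.cos t • x - Real.sin t • w) (by fun_prop)
    fun x hx => ⟨(key x hx.1.1 hx.1.2).1, (key x hx.1.1 hx.1.2).2.trans_le (min_le_left _ _)⟩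
  have b := h (y := Real.cos t • x - Real.sin t • w) (by
    have c := (key x x1 x2).2.trans_le (min_le_right _ _)
    rw [← dist_eq_norm] at c
    linarith [dist_triangle (Real.cos t • x - Real.sin t • w) x p, mem_ball.1 x3]) x4
  rw [inner_sub_right, inner_smul_right, inner_smul_right, x2, hw, inner_smul_right,
    real_inner_self_eq_norm_sq] at b
  have : 0 < Real.sin t * (‖v‖⁻¹ * ‖v‖ ^ 2) := by positivity
  linarith

theorem cont (hM : MeqS) (hC : ChartS) (S S' : Set E4) (hS : IsMin S) (hS' : IsMin S')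
    (hc : IsPreconnected S) (hcl : S ∩ closure S' ⊆ S') (h : ∃ p ∈ S, ∀ᶠ x in 𝓝[S] p, x ∈ S') :
    S ⊆ S' := by
  let A : Set E4 := {p | ∀ᶠ x in 𝓝[S] p, x ∈ S'}
  have hA : IsOpen A := by
    simp only [A, eventually_nhdsWithin_iff]
    exact isOpen_setOfPred_eventually_nhds
  have hsub : S ∩ A ⊆ S' := fun p hp => Eventually.self_of_nhdsWithin hp.2 hp.1
  have key : ∀ p ∈ S, p ∈ closure (S ∩ A) → p ∈ A := fun p hp hp1 => by
    have hp' : p ∈ S' := hcl ⟨hp, closure_mono hsub hp1⟩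
    obtain ⟨O, δ, δ', u, u', hδ, hδ', hu, hu', -, e1, e2⟩ := two hM hC hS hS' hp hp'
    have f0 := (hC.facts S O _ u hu 0 (mem_ball_self hδ)).2.2
    rw [e1] at f0
    have fr : ∃ᶠ y in 𝓝 (0 : P2), gX O u y ∈ A := by
      rw [← frequently_map (P := fun x => x ∈ A), f0, frequently_nhdsWithin_iff]
      exact (mem_closure_iff_frequently.1 hp1).mono fun x hx => ⟨hx.2, hx.1⟩
    obtain ⟨V, hV, eV⟩ := hu'.rel _ Subset.rfl isOpen_ball
    have pV : p ∈ V := (eV.subset ⟨0, mem_ball_self hδ', e2⟩).2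
    have ev : ∀ᶠ y in 𝓝 (0 : P2), ∀ᶠ y' in 𝓝 y, gX O u y' ∈ V :=
      eventually_eventually_nhds.2
        ((hM.ana O u 0 (hu.sol.1 0 (mem_ball_self hδ))).1.continuousAt (e1 ▸ hV.mem_nhds pV))
    obtain ⟨y, y1, y2, y3⟩ := (fr.and_eventually
      (ev.and (ball_mem_nhds _ (lt_min hδ hδ')))).exists
    have s1 : ball (0 : P2) (min δ δ') ⊆ ball 0 δ := ball_subset_ball (min_le_left _ _)
    have s2 : ball (0 : P2) (min δ δ') ⊆ ball 0 δ' := ball_subset_ball (min_le_right _ _)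
    have y4 : ∀ᶠ y' in 𝓝 y, gX O u y' ∈ S' := by
      rw [← eventually_map (P := fun x => x ∈ S'), (hC.facts S O _ u hu y (s1 y3)).2.2]
      exact y1
    have y5 : u =ᶠ[𝓝 y] u' := by
      filter_upwards [y2, y4] with y' a b
      obtain ⟨y'', -, c⟩ := eV.symm.subset ⟨b, a⟩
      obtain ⟨rfl, d⟩ := gX_inj c
      exact d.symm
    have y6 := (hu.sol.1.mono s1).eqOn_of_preconnected_of_eventuallyEq (hu'.sol.1.mono s2)
      (convex_ball _ _).isPreconnected y3 y5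
    have y7 := nhds_eq hC hu hu' (mem_ball_self hδ) (mem_ball_self hδ')
      (y6.eventuallyEq_of_mem (ball_mem_nhds _ (lt_min hδ hδ')))
    rw [e1, e2] at y7
    change ∀ᶠ x in 𝓝[S] p, x ∈ S'
    rw [y7]
    exact eventually_mem_nhdsWithin
  intro p hp
  by_contra hn
  obtain ⟨q, hq, hq'⟩ := h
  obtain ⟨x, x1, x2, x3⟩ := hc A (closure (S ∩ A))ᶜ hA isClosed_closure.isOpen_compl
    (fun x hx => (em (x ∈ closure (S ∩ A))).imp (key x hx) id) ⟨q, hq, hq'⟩
    ⟨p, hp, fun a => hn (hsub ⟨hp, key p hp a⟩)⟩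
  exact x3 (subset_closure ⟨x1, x2⟩)

theorem geo (hM : MeqS) (hC : ChartS) (S : Set E4) (hS : IsMin S) (hc : IsPreconnected S)
    (v : E4) (h : ∃ p ∈ S, ∀ᶠ x in 𝓝[S] p, ⟪v, x⟫_ℝ = 0) : ∀ x ∈ S, ⟪v, x⟫_ℝ = 0 := by
  by_cases h0 : v = 0
  · simp [h0]
  obtain ⟨p, hp, h⟩ := h
  have cl : IsClosed {x : E4 | ‖x‖ = 1 ∧ ⟪v, x⟫_ℝ = 0} :=
    (isClosed_eq continuous_norm continuous_const).inter
      (isClosed_eq (by fun_prop) continuous_const)
  refine fun x hx => (cont hM hC S _ hS (great hM hC v h0) hc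
    (fun y hy => cl.closure_subset hy.2) ⟨p, hp, ?_⟩ hx).2
  filter_upwards [h, self_mem_nhdsWithin] with y a b
  exact ⟨hC.unit S hS y b, a⟩

theorem lead (hM : MeqS) (hL : LeadS) (S : Set E4) (O : Iso) (δ : ℝ) (u : P2 → ℝ)
    (h : Chart S O δ u) : u =ᶠ[𝓝 0] 0 ∨ ∃ m c, 2 ≤ m ∧ Lead u 0 T0 m c := by
  have h0 := mem_ball_self (x := (0 : P2)) h.pos
  have := hL (Xi O) u (fun _ => 0) 0 T0 (ana_Xi O _) (inj_Xi O _)
    (Eventually.of_forall fun s => by rw [Xi, O.norm_map, norm_gn]) (h.sol.1 0 h0) analyticAt_const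
    h.zero (by simp [h.dzero]) (sol_ev hM O isOpen_ball h.sol h0)
    (sol_ev hM O isOpen_univ (sol_zero _) (mem_univ _)) fun v => by
      refine (congrArg norm (fderiv_gX O (h.sol.1 0 h0).differentiableAt h.zero h.dzero
        (T0 v))).trans ?_
      rw [O.norm_map, EuclideanSpace.norm_eq, Complex.norm_eq_sqrt_sq_add_sq, Fin.sum_univ_four]
      simp [T0, ee]
  simp only [sub_zero] at this
  exact this

/-! ### Barriers -/

theorem line_deriv {F : E4 → ℝ} {p : E4} (hF : DifferentiableAt ℝ F p) (w : E4) {c : ℝ}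
    (h : HasDerivAt (fun t : ℝ => F (p + t • w)) c 0) : fderiv ℝ F p w = c := by
  have a : HasDerivAt (fun t : ℝ => p + t • w) w 0 := by
    simpa using ((hasDerivAt_id (0 : ℝ)).smul_const w).const_add p
  exact (HasFDerivAt.comp_hasDerivAt_of_eq (0 : ℝ) hF.hasFDerivAt a (by simp)).unique h

theorem vert (hM : MeqS) (hC : ChartS) {S : Set E4} (hS : IsMin S) {O : Iso} {V : P2 → ℝ}
    {y : P2} {z ε : ℝ} (hε : ε ≠ 0) (hV : DifferentiableAt ℝ V y) (hp : O (gn y z) ∈ S)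
    (h : ∀ᶠ q : P2 × ℝ in 𝓝 (y, z), O (gn q.1 q.2) ∈ S → ε * (q.2 - V q.1) ≤ ε * (z - V y))
    {n : E4} (hn : IsNor S (O (gn y z)) n) : ⟪n, O (ee 3)⟫_ℝ ≠ 0 := by
  intro h3
  set p := O (gn y z) with hpd
  have p0 : 0 < cd O 0 p := cd0_gn O y z
  have py : yc O p = y := yc_gn O y z
  have pz : zz O p = z := zz_gn O y z
  obtain ⟨⟨O', o0, o3⟩, -⟩ := hM.frame p n (hC.unit S hS p hp) hn.1 hn.2.1
  obtain ⟨δ, u, hu⟩ := hC.chart S hS O' (o0 ▸ hp) (by rw [o0, o3]; exact hn)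
  have h0 := mem_ball_self (x := (0 : P2)) hu.pos
  have hl : LChart S O' (ball 0 δ) u := ⟨isOpen_ball, hu.sol, hu.rel⟩
  have X0 : gX O' u 0 = p := by rw [gX, hu.zero, gn_zero, o0]
  have dX := (hM.ana O' u 0 (hu.sol.1 0 h0)).1.differentiableAt
  let F : E4 → ℝ := fun x => ε * (zz O x - V (yc O x))
  have dF : DifferentiableAt ℝ F p :=
    ((diff_zz O p0.ne').sub ((py ▸ hV).comp p (diff_yc O p0.ne'))).const_mul ε
  have tX : Tendsto (gX O' u) (𝓝 0) (𝓝 p) := X0 ▸ dX.continuousAt.tendsto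
  have tΨ : Tendsto (fun x => (yc O x, zz O x)) (𝓝 p) (𝓝 (y, z)) := by
    have := ((diff_yc O p0.ne').prodMk (diff_zz O p0.ne')).continuousAt.tendsto
    rwa [py, pz] at this
  have hmax : IsLocalMax (F ∘ gX O' u) 0 := by
    filter_upwards [tX.eventually (tΨ.eventually h), ball_mem_nhds _ hu.pos,
      tX.eventually ((isOpen_lt continuous_const (cd O 0).continuous).mem_nhds p0)] with x a b c
    have d := (hC.facts S O' _ u hl x b).1
    have f := a (by rw [recon O (hC.unit S hS _ d) c]; exact d)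
    simpa only [Function.comp, X0, F, py, pz] using f
  have k1 : ∀ w : P2, fderiv ℝ F p (O' (w.1 • ee 1 + w.2 • ee 2)) = 0 := fun w => by
    have a := hmax.fderiv_eq_zero
    rw [fderiv_comp _ (X0 ▸ dF) dX, X0] at a
    rw [← fderiv_gX O' (hu.sol.1 0 h0).differentiableAt hu.zero hu.dzero w]
    exact congrArg (fun A : P2 →L[ℝ] ℝ => A w) a
  have k2 : fderiv ℝ F p p = 0 := by
    refine line_deriv dF p ((hasDerivAt_const (0 : ℝ) (F p)).congr_of_eventuallyEq ?_)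
    filter_upwards [lt_mem_nhds (show (-1 : ℝ) < 0 by norm_num)] with t ht
    have a : (1 + t) ≠ 0 := by linarith
    have b : p + t • p = (1 + t) • p := by module
    simp only [F, zz, yc, b, map_smul, smul_eq_mul, mul_div_mul_left _ _ a]
  have k3 : fderiv ℝ F p (O (ee 3)) = ε * (1 / cd O 0 p) := by
    refine line_deriv dF _ ?_
    have a : (fun t : ℝ => F (p + t • O (ee 3))) =
        fun t => ε * ((cd O 3 p + t) / cd O 0 p - V (yc O p)) := by
      ext t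
      simp [F, zz, yc, cd_apply, ee]
    rw [a]
    exact ((((hasDerivAt_id (0 : ℝ)).const_add _).div_const _).sub_const _).const_mul ε
  obtain ⟨w, hw⟩ := O'.surjective (O (ee 3))
  have w3 : w 3 = 0 := by rw [← cd_apply O' 3 w, cd_eq, o3, hw, h3]
  have ew : w = w 0 • ee 0 + (w 1 • ee 1 + w 2 • ee 2) := by
    ext i
    fin_cases i <;> simp [ee, w3]
  rw [← hw, ew, map_add, map_smul, o0, map_add, map_smul, k2, k1 (w 1, w 2)] at k3
  have : ε * (1 / cd O 0 p) ≠ 0 := by positivity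
  exact this (by simpa using k3.symm)

theorem hess (f : P2 → ℝ) {y : P2} (hf : ContDiffAt ℝ 2 f y) (ξ : P2) :
    (∀ᶠ t : ℝ in 𝓝 0, HasDerivAt (fun t : ℝ => f (y + t • ξ)) (fderiv ℝ f (y + t • ξ) ξ) t) ∧
    HasDerivAt (fun t : ℝ => fderiv ℝ f (y + t • ξ) ξ)
      (d1 (d1 f) y * ξ.1 ^ 2 + 2 * d1 (d2 f) y * ξ.1 * ξ.2 + d2 (d2 f) y * ξ.2 ^ 2) 0 := by
  have a : ∀ t : ℝ, HasDerivAt (fun t : ℝ => y + t • ξ) ξ t := fun t => by
    simpa using ((hasDerivAt_id t).smul_const ξ).const_add y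
  have d2f : DifferentiableAt ℝ (fderiv ℝ f) y :=
    (hf.fderiv_right (m := 1) (by norm_num)).differentiableAt (by norm_num)
  constructor
  · have b : Tendsto (fun t : ℝ => y + t • ξ) (𝓝 0) (𝓝 y) := by
      simpa using (a 0).continuousAt.tendsto
    filter_upwards [b.eventually (hf.eventually (by simp))] with t ht
    exact (ht.differentiableAt (by norm_num)).hasFDerivAt.comp_hasDerivAt t (a t)
  · have b := (HasFDerivAt.comp_hasDerivAt_of_eq (0 : ℝ) d2f.hasFDerivAt (a 0)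
      (by simp)).clm_apply (hasDerivAt_const (0 : ℝ) ξ)
    have c : ∀ v w : P2, fderiv ℝ (fun x => fderiv ℝ f x w) y v = fderiv ℝ (fderiv ℝ f) y v w :=
      fun v w => by
        rw [fderiv_clm_apply d2f (differentiableAt_const w)]
        simp
    have s := hf.isSymmSndFDerivAt (by simp) (0, 1) (1, 0)
    have e : ξ = ξ.1 • ((1, 0) : P2) + ξ.2 • ((0, 1) : P2) := by ext <;> simp
    have g : fderiv ℝ (fderiv ℝ f) y ξ ξ =
        d1 (d1 f) y * ξ.1 ^ 2 + 2 * d1 (d2 f) y * ξ.1 * ξ.2 + d2 (d2 f) y * ξ.2 ^ 2 := by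
      have g1 : d1 (d1 f) y = fderiv ℝ (fderiv ℝ f) y (1, 0) (1, 0) := c _ _
      have g2 : d1 (d2 f) y = fderiv ℝ (fderiv ℝ f) y (1, 0) (0, 1) := c _ _
      have g3 : d2 (d2 f) y = fderiv ℝ (fderiv ℝ f) y (0, 1) (0, 1) := c _ _
      rw [g1, g2, g3]
      conv_lhs => rw [e]
      simp only [map_add, map_smul, add_apply, smul_apply,
        smul_eq_mul, s]
      ring
    rw [← g]
    simpa using b

theorem snd_nonneg {g g' : ℝ → ℝ} {c : ℝ} (hm : IsLocalMin g 0)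
    (h1 : ∀ᶠ t in 𝓝 0, HasDerivAt g (g' t) t) (h2 : HasDerivAt g' c 0) : 0 ≤ c := by
  by_contra hc
  have e : deriv g =ᶠ[𝓝 0] g' := h1.mono fun t ht => ht.deriv
  have e2 : deriv (deriv g) 0 = c := e.deriv_eq.trans h2.deriv
  have hM := isLocalMax_of_deriv_deriv_neg (e2 ▸ not_le.1 hc) hm.deriv_eq_zero
    h1.self_of_nhds.continuousAt
  have e3 : g =ᶠ[𝓝 0] fun _ => g 0 := by
    filter_upwards [hm, hM] with t a b using le_antisymm b a
  have e4 := e3.deriv.deriv_eq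
  simp [e2] at e4
  exact hc e4.ge

theorem bar (hM : MeqS) (hC : ChartS) (S : Set E4) (hS : IsMin S) (O : Iso) (V : P2 → ℝ)
    (y : P2) (z ε : ℝ) (hε : ε = 1 ∨ ε = -1) (hV : ContDiffAt ℝ 2 V y) (hp : O (gn y z) ∈ S)
    (h : ∀ᶠ q : P2 × ℝ in 𝓝 (y, z), O (gn q.1 q.2) ∈ S → ε * (q.2 - V q.1) ≤ ε * (z - V y)) :
    0 ≤ ε * gAt V y z := by
  have hε0 : ε ≠ 0 := by rcases hε with rfl | rfl <;> norm_num
  have dV := hV.differentiableAt (by norm_num)
  have hn := (hC.nor_spec S hS _ hp).1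
  obtain ⟨δ, hδ, u, hu, uz⟩ := hC.lchart S hS O y z _ hp hn (vert hM hC hS hε0 dV hp h hn)
  have hy := mem_ball_self (x := y) hδ
  have au := hu.sol.1 y hy
  have tu : Tendsto (fun x => (x, u x)) (𝓝 y) (𝓝 (y, z)) :=
    uz ▸ (continuousAt_id.prodMk au.continuousAt).tendsto
  have hmin : IsLocalMin (fun x => ε * (V x - u x)) y := by
    filter_upwards [tu.eventually h, ball_mem_nhds _ hδ] with x a b
    have := a (hC.facts S O _ u hu x b).1
    simp only [uz] at this ⊢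
    linarith
  have e1 : fderiv ℝ V y = fderiv ℝ u y := by
    have a := hmin.hasFDerivAt_eq_zero
      ((dV.hasFDerivAt.sub au.differentiableAt.hasFDerivAt).const_mul ε)
    exact sub_eq_zero.1 ((smul_eq_zero.1 a).resolve_left hε0)
  have psd : ∀ ξ : P2, 0 ≤ ε * (d1 (d1 V) y - d1 (d1 u) y) * ξ.1 ^ 2 +
      2 * (ε * (d1 (d2 V) y - d1 (d2 u) y)) * ξ.1 * ξ.2 +
      ε * (d2 (d2 V) y - d2 (d2 u) y) * ξ.2 ^ 2 := fun ξ => by
    obtain ⟨a1, a2⟩ := hess V hV ξ
    obtain ⟨b1, b2⟩ := hess u au.contDiffAt ξ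
    have c : IsLocalMin (fun t : ℝ => ε * (V (y + t • ξ) - u (y + t • ξ))) 0 :=
      IsLocalMin.comp_continuous (g := fun t : ℝ => y + t • ξ) (f := fun x => ε * (V x - u x))
        (by simpa using hmin) (by fun_prop)
    have := snd_nonneg c ((a1.and b1).mono fun t ht => (ht.1.sub ht.2).const_mul ε)
      ((a2.sub b2).const_mul ε)
    linarith
  have a := (hM.ell y z (d1 V y) (d2 V y) _ _ _ psd).1
  have b := hu.sol.2 y hy
  have c1 : d1 u y = d1 V y := by rw [d1, d1, e1]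
  have c2 : d2 u y = d2 V y := by rw [d2, d2, e1]
  rw [gAt, uz, c1, c2] at b
  refine a.trans_eq ?_
  rw [gAt, ← sub_zero (gOp y z _ _ (d1 (d1 V) y) _ _), ← b]
  simp only [gOp]
  ring

end BTouch

open BTouch in
theorem touchS (hM : MeqS) (hC : ChartS) (hL : LeadS) : TouchS where
  pers := pers hM hC hL
  graph _ _ _ hU hu hv _ hy e h := (tri hM hL hU hU hu hv hy hy e).resolve_right fun a =>
    a.2 (h.mono fun _ hx => not_lt.2 hx)
  sphere := BTouch.sphere hM hC hL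
  cont := cont hM hC
  geo := geo hM hC
  great := great hM hC
  lead := lead hM hL
  bar := bar hM hC

end Pool.Agent.Lib.MP_16d934_gt
end
end

-- part Pool.Agent.Lib.MP_16d934_gt.EMin
section

/-! Existence of Lipschitz minimisers of the area by the direct method. -/

set_option autoImplicit false

open Set Metric Filter Topology MeasureTheory
open scoped ContDiff NNReal

noncomputable section

namespace Pool.Agent.Lib.MP_16d934_gt

namespace EMin

variable {ι : Type} {l : Filter ι} {K : ℝ≥0} {w : ι → P2 → ℝ} {u : P2 → ℝ}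

lemma unif (hw : ∀ᶠ i in l, LipschitzWith K (w i)) (hu : LipschitzWith K u)
    (ht : ∀ y, Tendsto (fun i => w i y) l (𝓝 (u y))) {Q : Set P2} (hQ : IsCompact Q) {δ : ℝ}
    (hδ : 0 < δ) : ∀ᶠ i in l, ∀ y ∈ Q, |w i y - u y| ≤ δ := by
  have hK : (0 : ℝ) ≤ K := K.2
  obtain ⟨t, -, ht1, ht2⟩ := hQ.finite_cover_balls (e := δ / (3 * (K + 1))) (by positivity)
  have h1 : ∀ᶠ i in l, ∀ x ∈ t, dist (w i x) (u x) < δ / 3 :=
    (eventually_all_finite ht1).2 fun x _ => Metric.tendsto_nhds.1 (ht x) _ (by positivity)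
  filter_upwards [hw, h1] with i hi h y hy
  obtain ⟨x, hx, hxy⟩ := mem_iUnion₂.1 (ht2 hy)
  have e : K * dist y x ≤ δ / 3 := by
    have h2 : dist y x * (3 * (K + 1)) ≤ δ := (le_div_iff₀ (by positivity)).1 (mem_ball.1 hxy).le
    nlinarith [dist_nonneg (x := y) (y := x)]
  have a1 := hi.dist_le_mul y x
  have a2 := hu.dist_le_mul y x
  have a3 := h x hx
  rw [Real.dist_eq] at a1 a2 a3
  rw [abs_le] at a1 a2 ⊢
  rw [abs_lt] at a3
  constructor <;> linarith

lemma fd_le (hu : LipschitzWith K u) (y v : P2) : |fderiv ℝ u y v| ≤ K * ‖v‖ :=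
  ((fderiv ℝ u y).le_opNorm v).trans
    (mul_le_mul_of_nonneg_right (norm_fderiv_le_of_lipschitz ℝ hu) (norm_nonneg _))

lemma diff_le {f : P2 → ℝ} (hf : LipschitzWith K f) (hu : LipschitzWith K u) (y v : P2) :
    ‖fderiv ℝ f y v - fderiv ℝ u y v‖ ≤ 2 * (K * ‖v‖) := by
  have a1 := fd_le hf y v
  have a2 := fd_le hu y v
  rw [Real.norm_eq_abs, abs_le] at *
  constructor <;> linarith

lemma diff_meas (f u : P2 → ℝ) (v : P2) :
    Measurable fun y => fderiv ℝ f y v - fderiv ℝ u y v :=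
  (measurable_fderiv_apply_const ℝ f v).sub (measurable_fderiv_apply_const ℝ u v)

lemma int_mul {f σ : P2 → ℝ} (hf : LipschitzWith K f) (hu : LipschitzWith K u)
    {μ : Measure P2} (hσ : Integrable σ μ) (v : P2) :
    Integrable (fun y => σ y * (fderiv ℝ f y v - fderiv ℝ u y v)) μ :=
  hσ.mul_bdd (diff_meas f u v).aestronglyMeasurable (.of_forall fun y => diff_le hf hu y v)

/-- weak convergence of the derivatives -/
lemma weak (hw : ∀ᶠ i in l, LipschitzWith K (w i)) (hu : LipschitzWith K u)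
    (ht : ∀ y, Tendsto (fun i => w i y) l (𝓝 (u y))) {σ : P2 → ℝ} (hσ : Integrable σ) (v : P2)
    {ε : ℝ} (hε : 0 < ε) :
    ∀ᶠ i in l, |∫ y, σ y * (fderiv ℝ (w i) y v - fderiv ℝ u y v)| ≤ ε := by
  have hK : (0 : ℝ) ≤ K := K.2
  set B : ℝ := 2 * (K * ‖v‖) with hB
  have hB0 : 0 ≤ B := by positivity
  obtain ⟨τ, hτ1, hτ2, hτ3⟩ := (memLp_one_iff_integrable.2 hσ).exist_eLpNorm_sub_le
    (by simp) le_rfl (ε := ε / (2 * (B + 1))) (by positivity)
  have hτi : Integrable τ := hτ2.continuous.integrable_of_hasCompactSupport hτ1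
  have hd : ∫ y, ‖σ y - τ y‖ ≤ ε / (2 * (B + 1)) := by
    rw [eLpNorm_one_eq_lintegral_enorm, ← ofReal_integral_norm_eq_lintegral_enorm (hσ.sub hτi),
      ENNReal.ofReal_le_ofReal_iff (by positivity)] at hτ3
    exact hτ3
  obtain ⟨D, hD⟩ := hτ2.lipschitzWith_of_hasCompactSupport hτ1 (by simp)
  set g : P2 → ℝ := fun y => fderiv ℝ τ y (-v) with hg
  have hgc : Continuous g := (hτ2.continuous_fderiv (by simp)).clm_apply continuous_const
  have hgs : HasCompactSupport g := hτ1.fderiv_apply ℝ (-v)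
  have hgi : Integrable g := hgc.integrable_of_hasCompactSupport hgs
  set I : ℝ := ∫ y, ‖g y‖ with hI
  have hI0 : 0 ≤ I := integral_nonneg fun _ => norm_nonneg _
  filter_upwards [hw, unif hw hu ht hgs (δ := ε / (2 * (I + 1))) (by positivity)] with i hi h
  have e1 : ∫ y, σ y * (fderiv ℝ (w i) y v - fderiv ℝ u y v) =
      (∫ y, (σ y - τ y) * (fderiv ℝ (w i) y v - fderiv ℝ u y v)) +
        ∫ y, τ y * (fderiv ℝ (w i) y v - fderiv ℝ u y v) := by
    rw [← integral_add (int_mul (σ := fun y => σ y - τ y) hi hu (hσ.sub hτi) v)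
      (int_mul hi hu hτi v)]
    congr 1
    funext y
    ring
  have e2 : ∫ y, τ y * (fderiv ℝ (w i) y v - fderiv ℝ u y v) = ∫ y, g y * (w i y - u y) := by
    have h1 := (hi.sub hu).integral_lineDeriv_mul_eq (μ := volume) hD hτ1 v
    have h2 : ∀ y, lineDeriv ℝ τ y (-v) = g y := fun y =>
      (hτ2.differentiable (by simp) y).lineDeriv_eq_fderiv
    simp only [h2] at h1
    rw [← h1]
    refine integral_congr_ae ?_
    filter_upwards [hi.ae_differentiableAt (μ := volume), hu.ae_differentiableAt (μ := volume)]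
      with y a1 a2
    have a3 : DifferentiableAt ℝ (fun x => w i x - u x) y := a1.sub a2
    rw [a3.lineDeriv_eq_fderiv, fderiv_fun_sub a1 a2, sub_apply, mul_comm]
  have b1 : ‖∫ y, (σ y - τ y) * (fderiv ℝ (w i) y v - fderiv ℝ u y v)‖ ≤
      ∫ y, ‖σ y - τ y‖ * B :=
    norm_integral_le_of_norm_le ((hσ.sub hτi).norm.mul_const B) (.of_forall fun y => by
      rw [norm_mul]
      exact mul_le_mul_of_nonneg_left (diff_le hi hu y v) (norm_nonneg _))
  have b2 : ‖∫ y, g y * (w i y - u y)‖ ≤ ∫ y, ‖g y‖ * (ε / (2 * (I + 1))) :=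
    norm_integral_le_of_norm_le (hgi.norm.mul_const _) (.of_forall fun y => by
      rw [norm_mul]
      by_cases hy : y ∈ tsupport g
      · exact mul_le_mul_of_nonneg_left (h y hy) (norm_nonneg _)
      · rw [image_eq_zero_of_notMem_tsupport hy]
        simp)
  rw [integral_mul_const] at b1 b2
  have c1 : (∫ y, ‖σ y - τ y‖) * B ≤ ε / 2 := by
    refine (mul_le_mul_of_nonneg_right hd hB0).trans ?_
    rw [div_mul_eq_mul_div, div_le_div_iff₀ (by positivity) (by positivity)]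
    nlinarith
  have c2 : I * (ε / (2 * (I + 1))) ≤ ε / 2 := by
    rw [← mul_div_assoc, div_le_div_iff₀ (by positivity) (by positivity)]
    nlinarith
  rw [e1, e2]
  refine (abs_add_le _ _).trans ?_
  rw [Real.norm_eq_abs] at b1 b2
  linarith

lemma convex (y : P2) (z : ℝ) (p g : P2) :
    FF y z g + ((FP y z g).1 * (p.1 - g.1) + (FP y z g).2 * (p.2 - g.2)) ≤ FF y z p := by
  simp only [FF, FP, Prod.smul_fst, Prod.smul_snd, Prod.fst_sub, Prod.snd_sub, smul_eq_mul]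
  have hs : z - dot y p = (z - dot y g) - y.1 * (p.1 - g.1) - y.2 * (p.2 - g.2) := by
    simp only [dot]; ring
  generalize z - dot y p = s at hs ⊢
  generalize z - dot y g = t at hs ⊢
  have hρ : 0 < √(1 + y.1 ^ 2 + y.2 ^ 2 + z ^ 2) ^ 3 := by positivity
  generalize √(1 + y.1 ^ 2 + y.2 ^ 2 + z ^ 2) ^ 3 = ρ at hρ ⊢
  have hB : 0 < √(1 + g.1 ^ 2 + g.2 ^ 2 + t ^ 2) := by positivity
  have hB2 := Real.sq_sqrt (show 0 ≤ 1 + g.1 ^ 2 + g.2 ^ 2 + t ^ 2 by positivity)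
  have cs : 1 + p.1 * g.1 + p.2 * g.2 + s * t ≤
      √(1 + p.1 ^ 2 + p.2 ^ 2 + s ^ 2) * √(1 + g.1 ^ 2 + g.2 ^ 2 + t ^ 2) := by
    rw [← Real.sqrt_mul (by positivity)]
    refine Real.le_sqrt_of_sq_le ?_
    nlinarith [sq_nonneg (p.1 - g.1), sq_nonneg (p.2 - g.2), sq_nonneg (s - t),
      sq_nonneg (p.1 * g.2 - p.2 * g.1), sq_nonneg (p.1 * t - s * g.1),
      sq_nonneg (p.2 * t - s * g.2)]
  generalize √(1 + g.1 ^ 2 + g.2 ^ 2 + t ^ 2) = B at hB hB2 cs ⊢
  generalize √(1 + p.1 ^ 2 + p.2 ^ 2 + s ^ 2) = A at cs ⊢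
  have e : B / ρ + ((B * ρ)⁻¹ * (g.1 - t * y.1) * (p.1 - g.1) +
      (B * ρ)⁻¹ * (g.2 - t * y.2) * (p.2 - g.2)) =
      (1 + p.1 * g.1 + p.2 * g.2 + s * t) / (B * ρ) := by
    field_simp
    rw [hB2, hs]
    ring
  rw [e, div_le_div_iff₀ (by positivity) hρ]
  nlinarith

lemma cont_FF : Continuous fun q : P2 × ℝ × P2 => FF q.1 q.2.1 q.2.2 := by
  unfold FF dot
  exact Continuous.div (by fun_prop) (by fun_prop) fun q => by positivity

lemma cont_FP : Continuous fun q : P2 × ℝ × P2 => FP q.1 q.2.1 q.2.2 := by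
  unfold FP dot
  have h : Continuous fun q : P2 × ℝ × P2 => (√(1 + q.2.2.1 ^ 2 + q.2.2.2 ^ 2 +
      (q.2.1 - (q.1.1 * q.2.2.1 + q.1.2 * q.2.2.2)) ^ 2) *
        √(1 + q.1.1 ^ 2 + q.1.2 ^ 2 + q.2.1 ^ 2) ^ 3)⁻¹ :=
    Continuous.inv₀ (by fun_prop) fun q => by positivity
  exact h.smul (by fun_prop)

variable {a b : ℝ}

lemma rh_compact (ha : 0 < a) (hb : 0 < b) : IsCompact (Rh a b) := by
  refine (isCompact_closedBall (0 : P2) (max a b)).of_isClosed_subset
    (isClosed_le (by fun_prop) continuous_const) fun y hy => ?_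
  have h1 : 0 ≤ |y.1| / a := by positivity
  have h2 : 0 ≤ |y.2| / b := by positivity
  have hy' : |y.1| / a + |y.2| / b ≤ 1 := hy
  rw [mem_closedBall_zero_iff, Prod.norm_def, Real.norm_eq_abs, Real.norm_eq_abs]
  exact max_le_max ((div_le_one ha).1 (by linarith)) ((div_le_one hb).1 (by linarith))

lemma rho_sub : Rho a b ⊆ Rh a b := fun _ hy => le_of_lt (α := ℝ) hy

lemma rho_meas : MeasurableSet (Rho a b) :=
  (isOpen_lt (by fun_prop) continuous_const).measurableSet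

lemma grad_mem (hu : LipschitzWith K u) (y : P2) : grad u y ∈ closedBall (0 : P2) K := by
  rw [mem_closedBall_zero_iff, Prod.norm_def]
  have a1 := fd_le hu y (1, 0)
  have a2 := fd_le hu y (0, 1)
  simp only [Prod.norm_def, norm_one, norm_zero, zero_le_one, sup_of_le_left, sup_of_le_right,
    mul_one] at a1 a2
  exact max_le a1 a2

lemma intOn (ha : 0 < a) (hb : 0 < b) (hu : LipschitzWith K u) {G : P2 × ℝ × P2 → ℝ}
    (hG : Continuous G) : IntegrableOn (fun y => G (y, u y, grad u y)) (Rho a b) := by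
  have hc := rh_compact ha hb
  obtain ⟨C, hC⟩ := (hc.prod ((hc.image hu.continuous).prod
    (isCompact_closedBall (0 : P2) K))).exists_bound_of_continuousOn hG.continuousOn
  have hm : Measurable fun y => G (y, u y, grad u y) :=
    hG.measurable.comp (measurable_id.prodMk (hu.continuous.measurable.prodMk
      ((measurable_fderiv_apply_const ℝ u _).prodMk (measurable_fderiv_apply_const ℝ u _))))
  refine Measure.integrableOn_of_bounded (M := C)
    ((measure_mono rho_sub).trans_lt hc.measure_lt_top).ne hm.aestronglyMeasurable ?_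
  rw [ae_restrict_iff' rho_meas]
  exact .of_forall fun y hy => hC _ ⟨rho_sub hy, ⟨y, rho_sub hy, rfl⟩, grad_mem hu y⟩

/-- lower semicontinuity of the area -/
lemma lsc (ha : 0 < a) (hb : 0 < b) (hw : ∀ᶠ i in l, LipschitzWith K (w i))
    (hu : LipschitzWith K u) (ht : ∀ y, Tendsto (fun i => w i y) l (𝓝 (u y))) {c : ℝ}
    (hc : c < area a b u) : ∀ᶠ i in l, c < area a b (w i) := by
  have hR := rh_compact ha hb
  have hfin : volume (Rho a b) ≠ ⊤ := ((measure_mono rho_sub).trans_lt hR.measure_lt_top).ne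
  set m : ℝ := volume.real (Rho a b) with hm
  have hm0 : 0 ≤ m := measureReal_nonneg
  obtain ⟨ε, hε, hεc⟩ : ∃ ε > 0, c + (m + 2) * ε < area a b u := by
    refine ⟨(area a b u - c) / (2 * (m + 2)), div_pos (by linarith) (by positivity), ?_⟩
    have : (m + 2) * ((area a b u - c) / (2 * (m + 2))) = (area a b u - c) / 2 := by
      field_simp
    rw [this]
    linarith
  obtain ⟨M, hM⟩ := hR.exists_bound_of_continuousOn hu.continuous.continuousOn
  obtain ⟨δ, hδ, hδF⟩ := Metric.uniformContinuousOn_iff.1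
    ((hR.prod ((isCompact_closedBall (0 : ℝ) (M + 1)).prod
      (isCompact_closedBall (0 : P2) K))).uniformContinuousOn_of_continuous
        cont_FF.continuousOn) ε hε
  have i0 : IntegrableOn (fun y => FF y (u y) (grad u y)) (Rho a b) := intOn ha hb hu cont_FF
  have i1 : IntegrableOn (fun y => (FP y (u y) (grad u y)).1) (Rho a b) :=
    intOn ha hb hu cont_FP.fst
  have i2 : IntegrableOn (fun y => (FP y (u y) (grad u y)).2) (Rho a b) :=
    intOn ha hb hu cont_FP.snd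
  filter_upwards [hw, unif hw hu ht hR (δ := min 1 (δ / 2)) (by positivity),
    weak hw hu ht ((integrable_indicator_iff rho_meas).2 i1) (1, 0) hε,
    weak hw hu ht ((integrable_indicator_iff rho_meas).2 i2) (0, 1) hε] with i hi h w1 w2
  have ind : ∀ f g : P2 → ℝ, ∫ y, (Rho a b).indicator f y * g y = ∫ y in Rho a b, f y * g y :=
    fun f g => by
      rw [← integral_indicator rho_meas]
      congr 1
      funext y
      by_cases hy : y ∈ Rho a b <;> simp [hy]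
  rw [ind] at w1 w2
  have j1 := int_mul hi hu i1 (1, 0)
  have j2 := int_mul hi hu i2 (0, 1)
  have j3 : IntegrableOn (fun _ : P2 => ε) (Rho a b) := integrableOn_const hfin
  have key : ∫ y in Rho a b, (FF y (u y) (grad u y) +
      ((FP y (u y) (grad u y)).1 * (fderiv ℝ (w i) y (1, 0) - fderiv ℝ u y (1, 0)) +
        (FP y (u y) (grad u y)).2 * (fderiv ℝ (w i) y (0, 1) - fderiv ℝ u y (0, 1))) - ε) ≤
      area a b (w i) := by
    refine setIntegral_mono_on ((i0.add (j1.add j2)).sub j3) (intOn ha hb hi cont_FF) rho_meas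
      fun y hy => ?_
    have a1 := convex y (u y) (grad (w i) y) (grad u y)
    have a2 := h y (rho_sub hy)
    have a3 := hM y (rho_sub hy)
    have a4 : |w i y - u y| ≤ 1 := a2.trans (min_le_left _ _)
    have a5 : |w i y - u y| < δ := (a2.trans (min_le_right _ _)).trans_lt (by linarith)
    have a6 := hδF (y, w i y, grad (w i) y) ⟨rho_sub hy, by
        rw [mem_closedBall_zero_iff, Real.norm_eq_abs]
        rw [Real.norm_eq_abs, abs_le] at a3
        rw [abs_le] at a4 ⊢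
        constructor <;> linarith [a3.1, a3.2, a4.1, a4.2], grad_mem hi y⟩
      (y, u y, grad (w i) y) ⟨rho_sub hy, by
        rw [mem_closedBall_zero_iff]
        linarith, grad_mem hi y⟩ (by simpa [Prod.dist_eq, Real.dist_eq, hδ] using a5)
    rw [Real.dist_eq, abs_lt] at a6
    have a7 := a6.1
    simp only [grad, d1, d2] at a1 a7 ⊢
    linarith
  have k1 := j1.fun_add j2
  have k2 := Integrable.fun_add i0 k1
  rw [integral_sub k2 j3, integral_add i0 k1, integral_add j1 j2,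
    setIntegral_const, smul_eq_mul] at key
  rw [abs_le] at w1 w2
  have : area a b u = ∫ y in Rho a b, FF y (u y) (grad u y) := rfl
  nlinarith [w1.1, w2.1]

lemma lo_adm (ha : 0 < a) (hb : 0 < b) (hK : 2 / a + 2 / b ≤ K) : Adm a b K (lo a) := by
  refine ⟨LipschitzWith.of_dist_le_mul fun x y => ?_, fun _ _ => rfl⟩
  have h1 : |(|x.1| - |y.1|)| ≤ dist x y :=
    (abs_abs_sub_abs_le_abs_sub _ _).trans (le_max_left (dist x.1 y.1) (dist x.2 y.2))
  have h2 : lo a x - lo a y = 2 / a * (|x.1| - |y.1|) := by unfold lo; ring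
  have h3 : 0 < 2 / b := by positivity
  have h4 : 0 < 2 / a := by positivity
  rw [Real.dist_eq, h2, abs_mul, abs_of_pos h4]
  exact mul_le_mul (by linarith) h1 (abs_nonneg _) K.2

lemma adm_compact (ha : 0 < a) : IsCompact {u | Adm a b K u} := by
  have hp : ((a, 0) : P2) ∈ Rh a b \ Rho a b := by
    simp [Rh, Rho, abs_of_pos ha, ha.ne']
  refine (isCompact_univ_pi fun y : P2 =>
    isCompact_closedBall (lo a (a, 0)) (K * dist y (a, 0))).of_isClosed_subset ?_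
      fun u hu y _ => ?_
  · have : {u | Adm a b K u} = {u : P2 → ℝ | LipschitzWith K u} ∩
        ⋂ y ∈ Rh a b \ Rho a b, {u : P2 → ℝ | u y = lo a y} := by
      ext u
      simp only [Adm, mem_ofPred_eq, mem_inter_iff, mem_iInter]
    rw [this]
    exact (isClosed_setOfPred_lipschitzWith K).inter (isClosed_biInter fun y _ =>
      isClosed_eq (continuous_apply y) continuous_const)
  · rw [mem_closedBall, ← hu.2 _ hp]
    exact hu.1.dist_le_mul _ _

end EMin

theorem minS : MinS := by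
  intro a b K ha hb hK
  obtain ⟨u, hu, h⟩ := LowerSemicontinuousOn.exists_isMinOn (f := area a b)
    ⟨lo a, EMin.lo_adm ha hb hK⟩ (EMin.adm_compact (b := b) (K := K) ha) fun u hu c hc =>
      EMin.lsc (l := 𝓝[{u | Adm a b K u}] u) (w := fun v => v) ha hb
        (eventually_mem_nhdsWithin.mono fun _ hv => hv.1) hu.1
        (fun y => ((continuous_apply y).tendsto u).mono_left nhdsWithin_le_nhds) hc
  exact ⟨u, hu, fun v hv => h hv⟩

end Pool.Agent.Lib.MP_16d934_gt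
end
end
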