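import Pool.Agent.Lib.MP_16d934_gt.StC

-- part Pool.Agent.Lib.MP_16d934_gt.BChart
section

/-! Charts, normals and parametrised pieces of minimal surfaces in the three-sphere. -/

set_option autoImplicit false

open Set Metric Filter Topology MeasureTheory Asymptotics
open scoped ContDiff InnerProductSpace NNReal Real

noncomputable section

namespace Pool.Agent.Lib.MP_16d934_gt

namespace BChart

/-! ### Calculus -/

lemma lin_d {F : Type} [NormedAddCommGroup F] [NormedSpace ℝ F] (X : P2 → F) (y v : P2) :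
    fderiv ℝ X y v = v.1 • d1 X y + v.2 • d2 X y := by
  rw [d1, d2, ← map_smul, ← map_smul, ← map_add]
  congr 1
  ext <;> simp

lemma d1_congr {F : Type} [NormedAddCommGroup F] [NormedSpace ℝ F] {X X' : P2 → F} {y : P2}
    (h : X =ᶠ[𝓝 y] X') : d1 X =ᶠ[𝓝 y] d1 X' := by
  filter_upwards [h.fderiv (𝕜 := ℝ)] with s hs
  rw [d1, d1, hs]

lemma d2_congr {F : Type} [NormedAddCommGroup F] [NormedSpace ℝ F] {X X' : P2 → F} {y : P2}
    (h : X =ᶠ[𝓝 y] X') : d2 X =ᶠ[𝓝 y] d2 X' := by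
  filter_upwards [h.fderiv (𝕜 := ℝ)] with s hs
  rw [d2, d2, hs]

lemma minEq_congr {X X' : P2 → E4} {y : P2} (h : X =ᶠ[𝓝 y] X') (hm : MinEq X y) : MinEq X' y := by
  unfold MinEq at hm ⊢
  rw [← h.eq_of_nhds, ← (d1_congr h).eq_of_nhds, ← (d2_congr h).eq_of_nhds,
    ← (d1_congr (d1_congr h)).eq_of_nhds, ← (d1_congr (d2_congr h)).eq_of_nhds,
    ← (d2_congr (d2_congr h)).eq_of_nhds]
  exact hm

lemma inj_near {F : Type} [NormedAddCommGroup F] [NormedSpace ℝ F] {f : P2 → F} {y : P2}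
    (hf : ContDiffAt ℝ 1 f y) (hi : Function.Injective (fderiv ℝ f y)) :
    ∀ᶠ s in 𝓝 y, Function.Injective (fderiv ℝ f s) :=
  (hf.continuousAt_fderiv one_ne_zero).eventually
    (ContinuousLinearMap.isOpen_injective.mem_nhds hi)

/-- inverse function theorem -/
lemma ift {F : Type} [NormedAddCommGroup F] [NormedSpace ℝ F] [FiniteDimensional ℝ F]
    {n : WithTop ℕ∞} (hn : n ≠ 0) {f : F → F} {a : F} (hf : ContDiffAt ℝ n f a)
    (hi : Function.Injective (fderiv ℝ f a)) :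
    ∃ e : OpenPartialHomeomorph F F, (e : F → F) = f ∧ a ∈ e.source ∧
      ContDiffAt ℝ n e.symm (f a) ∧ map f (𝓝 a) = 𝓝 (f a) := by
  haveI : CompleteSpace F := FiniteDimensional.complete ℝ F
  let L : F ≃L[ℝ] F :=
    (LinearEquiv.ofInjectiveEndo (fderiv ℝ f a).toLinearMap hi).toContinuousLinearEquiv
  have hL : HasFDerivAt f (L : F →L[ℝ] F) a := by
    have : (L : F →L[ℝ] F) = fderiv ℝ f a := by
      ext v
      rfl
    rw [this]
    exact (hf.differentiableAt hn).hasFDerivAt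
  exact ⟨hf.toOpenPartialHomeomorph f hL hn, rfl, hf.mem_toOpenPartialHomeomorph_source hL hn,
    hf.to_localInverse hL hn, (hf.hasStrictFDerivAt' hL hn).map_nhds_eq_of_equiv⟩

lemma isNor_iff {S : Set E4} {X : P2 → E4} {y : P2} (hd : DifferentiableAt ℝ X y)
    (hi : Function.Injective (fderiv ℝ X y)) (hm : map X (𝓝 y) = 𝓝[S] (X y)) (n : E4) :
    IsNor S (X y) n ↔
      ‖n‖ = 1 ∧ ⟪n, X y⟫_ℝ = 0 ∧ ⟪n, d1 X y⟫_ℝ = 0 ∧ ⟪n, d2 X y⟫_ℝ = 0 := by
  have hD : HasFDerivAt (fun s => ⟪n, X s⟫_ℝ) ((innerSL ℝ n).comp (fderiv ℝ X y)) y :=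
    (innerSL ℝ n).hasFDerivAt.comp y hd.hasFDerivAt
  have hΘ : (fun s => X s - X y) =Θ[𝓝 y] fun s => s - y := by
    refine hd.hasFDerivAt.isTheta_sub ?_
    exact (LinearMap.isClosedEmbedding_of_injective (f := (fderiv ℝ X y).toLinearMap)
      (LinearMap.ker_eq_bot.2 hi)).isInducing
  rw [IsNor, ← hm, isLittleO_map]
  refine and_congr_right fun _ => and_congr_right fun h0 => ?_
  constructor
  · intro h
    have h1 : HasFDerivAt (fun s => ⟪n, X s⟫_ℝ) (0 : P2 →L[ℝ] ℝ) y := by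
      rw [hasFDerivAt_iff_isLittleO]
      refine (h.trans_isTheta hΘ).congr_left fun s => ?_
      simp [h0]
    have h2 := hD.unique h1
    exact ⟨congrArg (fun L : P2 →L[ℝ] ℝ => L (1, 0)) h2,
      congrArg (fun L : P2 →L[ℝ] ℝ => L (0, 1)) h2⟩
  · rintro ⟨h1, h2⟩
    have h3 : (innerSL ℝ n).comp (fderiv ℝ X y) = 0 := by
      refine ContinuousLinearMap.ext fun v => ?_
      show ⟪n, fderiv ℝ X y v⟫_ℝ = 0
      rw [lin_d, inner_add_right, inner_smul_right, inner_smul_right, h1, h2]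
      simp
    rw [h3, hasFDerivAt_iff_isLittleO] at hD
    refine IsLittleO.trans_isTheta (hD.congr_left fun s => ?_) hΘ.symm
    simp [h0]

lemma map_eq {S : Set E4} {U : Set P2} {X : P2 → E4} (hU : IsOpen U)
    (rel : ∀ U' ⊆ U, IsOpen U' → ∃ V, IsOpen V ∧ X '' U' = S ∩ V) {y : P2} (hy : y ∈ U)
    (hc : ContinuousAt X y) : X y ∈ S ∧ map X (𝓝 y) = 𝓝[S] (X y) := by
  obtain ⟨V0, -, hV0⟩ := rel U subset_rfl hU
  have hS : ∀ s ∈ U, X s ∈ S := fun s hs => (hV0 ▸ mem_image_of_mem X hs : X s ∈ S ∩ V0).1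
  refine ⟨hS y hy, le_antisymm ?_ ?_⟩
  · refine tendsto_nhdsWithin_iff.2 ⟨hc, ?_⟩
    filter_upwards [hU.mem_nhds hy] with s hs using hS s hs
  · intro W hW
    obtain ⟨U', hU', ho, hyU'⟩ := _root_.mem_nhds_iff.1 (inter_mem (mem_map.1 hW) (hU.mem_nhds hy))
    obtain ⟨V, hV, e⟩ := rel U' (fun s hs => (hU' hs).2) ho
    have hyV : X y ∈ V := (e ▸ mem_image_of_mem X hyU' : X y ∈ S ∩ V).2
    refine mem_nhdsWithin.2 ⟨V, hV, hyV, ?_⟩
    rw [inter_comm, ← e]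
    rintro _ ⟨s, hs, rfl⟩
    exact (hU' hs).1

lemma perp_deriv {F : Type} [NormedAddCommGroup F] [NormedSpace ℝ F] {X : F → E4} {y : F}
    (hd : DifferentiableAt ℝ X y) (hu : ∀ᶠ s in 𝓝 y, ‖X s‖ = 1) (v : F) :
    ⟪X y, fderiv ℝ X y v⟫_ℝ = 0 := by
  have h1 := hd.hasFDerivAt.inner ℝ hd.hasFDerivAt
  have h2 : HasFDerivAt (fun s => ⟪X s, X s⟫_ℝ) (0 : F →L[ℝ] ℝ) y := by
    refine (hasFDerivAt_const (1 : ℝ) y).congr_of_eventuallyEq ?_
    filter_upwards [hu] with s hs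
    rw [real_inner_self_eq_norm_sq, hs, one_pow]
  have h3 := congrArg (fun L : F →L[ℝ] ℝ => L v) (h1.unique h2)
  simp only [ContinuousLinearMap.comp_apply, ContinuousLinearMap.prod_apply, fderivInnerCLM_apply,
    zero_apply] at h3
  rw [real_inner_comm (X y) (fderiv ℝ X y v)] at h3
  linarith

lemma li3 {X : P2 → E4} {y : P2} (hd : DifferentiableAt ℝ X y)
    (hi : Function.Injective (fderiv ℝ X y)) (hu : ∀ᶠ s in 𝓝 y, ‖X s‖ = 1) :
    LinearIndependent ℝ ![X y, d1 X y, d2 X y] := by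
  rw [Fintype.linearIndependent_iff]
  intro c hc
  rw [Fin.sum_univ_three] at hc
  simp only [Matrix.cons_val_zero, Matrix.cons_val_one, Matrix.cons_val] at hc
  have h1 : c 0 • X y + fderiv ℝ X y (c 1, c 2) = 0 := by rw [lin_d, ← add_assoc]; exact hc
  have h2 : c 0 = 0 := by
    have := congrArg (fun w => ⟪X y, w⟫_ℝ) h1
    simp only [inner_add_right, inner_smul_right, perp_deriv hd hu, real_inner_self_eq_norm_sq,
      hu.self_of_nhds, inner_zero_right] at this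
    linarith
  rw [h2, zero_smul, zero_add] at h1
  have h3 : (c 1, c 2) = (0 : P2) := hi (by rw [h1, map_zero])
  intro i
  fin_cases i
  · exact h2
  · exact congrArg Prod.fst h3
  · exact congrArg Prod.snd h3

lemma ex_nor (p a b : E4) : ∃ n : E4, ‖n‖ = 1 ∧ ⟪n, p⟫_ℝ = 0 ∧ ⟪n, a⟫_ℝ = 0 ∧ ⟪n, b⟫_ℝ = 0 := by
  let L : E4 →ₗ[ℝ] ℝ × ℝ × ℝ :=
    (innerSL ℝ p).toLinearMap.prod ((innerSL ℝ a).toLinearMap.prod (innerSL ℝ b).toLinearMap)
  have hk : LinearMap.ker L ≠ ⊥ := LinearMap.ker_ne_bot_of_finrank_lt (by simp)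
  obtain ⟨m, hm, hm0⟩ := Submodule.exists_mem_ne_zero_of_ne_bot hk
  have hm' : (⟪p, m⟫_ℝ, ⟪a, m⟫_ℝ, ⟪b, m⟫_ℝ) = (0 : ℝ × ℝ × ℝ) := hm
  have h1 : ⟪p, m⟫_ℝ = 0 := congrArg Prod.fst hm'
  have h2 : ⟪a, m⟫_ℝ = 0 := congrArg (fun q : ℝ × ℝ × ℝ => q.2.1) hm'
  have h3 : ⟪b, m⟫_ℝ = 0 := congrArg (fun q : ℝ × ℝ × ℝ => q.2.2) hm'
  refine ⟨‖m‖⁻¹ • m, norm_smul_inv_norm hm0, ?_, ?_, ?_⟩
  · rw [inner_smul_left, real_inner_comm, h1, mul_zero]
  · rw [inner_smul_left, real_inner_comm, h2, mul_zero]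
  · rw [inner_smul_left, real_inner_comm, h3, mul_zero]

/-! ### Gnomonic coordinates -/

/-- horizontal coordinates -/
def yc (x : E4) : P2 := (x 1 / x 0, x 2 / x 0)

/-- height -/
def zq (x : E4) : ℝ := x 3 / x 0

lemma rho_pos (y : P2) (z : ℝ) : 0 < √(1 + y.1 ^ 2 + y.2 ^ 2 + z ^ 2) :=
  Real.sqrt_pos.2 (by positivity)

lemma gn_pos (y : P2) (z : ℝ) : 0 < gn y z 0 := by
  have := rho_pos y z
  simp [gn, this]

lemma yc_gn (y : P2) (z : ℝ) : yc (gn y z) = y := by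
  have := (rho_pos y z).ne'
  ext <;> simp [yc, gn] <;> field_simp

lemma zq_gn (y : P2) (z : ℝ) : zq (gn y z) = z := by
  have := (rho_pos y z).ne'
  simp [zq, gn]
  field_simp

lemma gn_coord {x : E4} (hx : ‖x‖ = 1) (h0 : 0 < x 0) : gn (yc x) (zq x) = x := by
  have h1 : x 0 * x 0 + x 1 * x 1 + x 2 * x 2 + x 3 * x 3 = 1 := by
    rw [← inner4, real_inner_self_eq_norm_sq, hx, one_pow]
  have h2 : √(1 + (yc x).1 ^ 2 + (yc x).2 ^ 2 + (zq x) ^ 2) = (x 0)⁻¹ := by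
    rw [Real.sqrt_eq_iff_mul_self_eq (by positivity) (by positivity)]
    simp only [yc, zq]
    field_simp
    linarith
  rw [gn, h2]
  ext i
  fin_cases i <;> simp [yc, zq] <;> field_simp

lemma gn_zero : gn 0 0 = ee 0 := by
  ext i
  fin_cases i <;> simp [gn, ee]

lemma ana_co (i : Fin 4) (x : E4) : AnalyticAt ℝ (fun x : E4 => x i) x :=
  (EuclideanSpace.proj i : E4 →L[ℝ] ℝ).analyticAt x

lemma ana_yc {x : E4} (h : x 0 ≠ 0) : AnalyticAt ℝ yc x :=
  ((ana_co 1 x).div (ana_co 0 x) h).prod ((ana_co 2 x).div (ana_co 0 x) h)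

lemma ana_zq {x : E4} (h : x 0 ≠ 0) : AnalyticAt ℝ zq x := (ana_co 3 x).div (ana_co 0 x) h

lemma der_div (i : Fin 4) {x : E4} (h : x 0 ≠ 0) (w : E4) :
    fderiv ℝ (fun x : E4 => x i / x 0) x w = (w i * x 0 - x i * w 0) / x 0 ^ 2 := by
  have h1 : ∀ j : Fin 4, HasFDerivAt (fun x : E4 => x j) (EuclideanSpace.proj j : E4 →L[ℝ] ℝ) x :=
    fun j => (EuclideanSpace.proj j : E4 →L[ℝ] ℝ).hasFDerivAt
  have h2 := (h1 i).mul ((hasDerivAt_inv h).comp_hasFDerivAt x (h1 0))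
  have h3 : (fun x : E4 => x i / x 0) = (fun x : E4 => x i) * ((fun y : ℝ => y⁻¹) ∘ fun x : E4 => x 0) := by
    ext x
    simp [div_eq_mul_inv]
  rw [h3, h2.fderiv]
  simp
  field_simp
  ring

lemma ker_yc {x w : E4} (h : x 0 ≠ 0) (hw : fderiv ℝ yc x w = 0) :
    ∃ a c : ℝ, w = a • x + c • ee 3 := by
  have e : fderiv ℝ yc x w = (fderiv ℝ (fun x : E4 => x 1 / x 0) x w,
      fderiv ℝ (fun x : E4 => x 2 / x 0) x w) := by
    have := (((ana_co 1 x).div (ana_co 0 x) h).differentiableAt.hasFDerivAt.prodMk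
      ((ana_co 2 x).div (ana_co 0 x) h).differentiableAt.hasFDerivAt).fderiv
    exact congrArg (fun L : E4 →L[ℝ] P2 => L w) this
  rw [e, der_div 1 h, der_div 2 h] at hw
  have h1 : w 1 * x 0 - x 1 * w 0 = 0 := by
    have := congrArg Prod.fst hw
    simpa [h] using this
  have h2 : w 2 * x 0 - x 2 * w 0 = 0 := by
    have := congrArg Prod.snd hw
    simpa [h] using this
  refine ⟨w 0 / x 0, w 3 - w 0 / x 0 * x 3, ?_⟩
  ext i
  fin_cases i <;> simp [ee] <;> field_simp <;> linarith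

lemma inner_e3 (w : E4) : ⟪ee 3, w⟫_ℝ = w 3 := by
  rw [inner4]
  simp [ee]

lemma yc_gX (O : Iso) (u : P2 → ℝ) (y : P2) : yc (O.symm (gX O u y)) = y := by
  rw [gX, O.symm_apply_apply, yc_gn]

lemma zq_gX (O : Iso) (u : P2 → ℝ) (y : P2) : zq (O.symm (gX O u y)) = u y := by
  rw [gX, O.symm_apply_apply, zq_gn]

lemma pos_gX (O : Iso) (u : P2 → ℝ) (y : P2) : 0 < O.symm (gX O u y) 0 := by
  rw [gX, O.symm_apply_apply]
  exact gn_pos _ _

lemma ana_iso (O : Iso) (x : E4) : AnalyticAt ℝ O x :=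
  (O.toContinuousLinearEquiv : E4 →L[ℝ] E4).analyticAt x

lemma ana_ycO (O : Iso) {x : E4} (h : O.symm x 0 ≠ 0) :
    AnalyticAt ℝ (fun x => yc (O.symm x)) x :=
  AnalyticAt.comp (f := O.symm) (ana_yc h) (ana_iso O.symm x)

lemma ana_zqO (O : Iso) {x : E4} (h : O.symm x 0 ≠ 0) :
    AnalyticAt ℝ (fun x => zq (O.symm x)) x :=
  AnalyticAt.comp (f := O.symm) (ana_zq h) (ana_iso O.symm x)

lemma cont_c0 (O : Iso) : Continuous fun x : E4 => O.symm x 0 :=
  (EuclideanSpace.proj 0 : E4 →L[ℝ] ℝ).continuous.comp O.symm.continuous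

lemma O_coord (O : Iso) {x : E4} (hx : ‖x‖ = 1) (h0 : 0 < O.symm x 0) :
    O (gn (yc (O.symm x)) (zq (O.symm x))) = x := by
  rw [gn_coord (by rw [O.symm.norm_map, hx]) h0, O.apply_symm_apply]

/-! ### Patches -/

lemma two_le : (2 : WithTop ℕ∞) ≤ ∞ := WithTop.coe_le_coe.2 (le_top (a := (2 : ℕ∞)))

lemma patch_c2 {S : Set E4} {U : Set P2} {X : P2 → E4} (h : Patch S U X) {y : P2} (hy : y ∈ U) :
    ContDiffAt ℝ 2 X y := (h.smooth.contDiffAt (h.isOpen.mem_nhds hy)).of_le two_le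

lemma patch_unit {S : Set E4} {U : Set P2} {X : P2 → E4} (h : Patch S U X) {y : P2} (hy : y ∈ U) :
    ∀ᶠ s in 𝓝 y, ‖X s‖ = 1 := by
  filter_upwards [h.isOpen.mem_nhds hy] with s hs using h.unit s hs

lemma patch_nor {S : Set E4} {U : Set P2} {X : P2 → E4} (h : Patch S U X) {y : P2} (hy : y ∈ U)
    (n : E4) : IsNor S (X y) n ↔
      ‖n‖ = 1 ∧ ⟪n, X y⟫_ℝ = 0 ∧ ⟪n, d1 X y⟫_ℝ = 0 ∧ ⟪n, d2 X y⟫_ℝ = 0 :=
  isNor_iff ((patch_c2 h hy).differentiableAt two_ne_zero) (h.imm y hy)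
    (map_eq h.isOpen h.rel hy (patch_c2 h hy).continuousAt).2 n

lemma unit (S : Set E4) (hS : IsMin S) (p : E4) (hp : p ∈ S) : ‖p‖ = 1 := by
  obtain ⟨U, X, h, y, hy, rfl⟩ := hS p hp
  exact h.unit y hy

lemma isNor_neg {S : Set E4} {p n : E4} (h : IsNor S p n) : IsNor S p (-n) := by
  refine ⟨by rw [norm_neg, h.1], by rw [inner_neg_left, h.2.1, neg_zero], ?_⟩
  exact h.2.2.neg_left.congr_left fun x => (inner_neg_left _ _).symm

lemma nor_spec (hM : MeqS) (S : Set E4) (hS : IsMin S) (p : E4) (hp : p ∈ S) :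
    IsNor S p (nor S p) ∧ ∀ n, IsNor S p n ↔ n = nor S p ∨ n = -nor S p := by
  obtain ⟨U, X, h, y, hy, rfl⟩ := hS p hp
  have h0 : IsNor S (X y) (nor S (X y)) :=
    Classical.epsilon_spec (p := IsNor S (X y))
      ((ex_nor (X y) (d1 X y) (d2 X y)).imp fun n hn => (patch_nor h hy n).2 hn)
  refine ⟨h0, fun n => ⟨fun hn => ?_, ?_⟩⟩
  · obtain ⟨a1, a2, a3, a4⟩ := (patch_nor h hy _).1 h0
    obtain ⟨b1, b2, b3, b4⟩ := (patch_nor h hy _).1 hn
    exact hM.uniq _ _ _ _ _ (li3 ((patch_c2 h hy).differentiableAt two_ne_zero) (h.imm y hy)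
      (patch_unit h hy)) a1 b1 a2 a3 a4 b2 b3 b4
  · rintro (rfl | rfl)
    · exact h0
    · exact isNor_neg h0

/-- the horizontal projection of a surface that is not vertical is an immersion -/
lemma proj_inj (O : Iso) {X : P2 → E4} {s : P2} {n : E4} (hd : DifferentiableAt ℝ X s)
    (hi : Function.Injective (fderiv ℝ X s)) (hu : ∀ᶠ t in 𝓝 s, ‖X t‖ = 1)
    (h0 : O.symm (X s) 0 ≠ 0) (n0 : ⟪n, X s⟫_ℝ = 0) (n1 : ⟪n, d1 X s⟫_ℝ = 0)
    (n2 : ⟪n, d2 X s⟫_ℝ = 0) (n3 : ⟪n, O (ee 3)⟫_ℝ ≠ 0) :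
    Function.Injective (fderiv ℝ (fun t => yc (O.symm (X t))) s) := by
  have hO : HasFDerivAt (fun t => O.symm (X t))
      ((O.symm.toContinuousLinearEquiv : E4 →L[ℝ] E4).comp (fderiv ℝ X s)) s :=
    (O.symm.toContinuousLinearEquiv : E4 →L[ℝ] E4).hasFDerivAt.comp s hd.hasFDerivAt
  have hD := (ana_yc h0).differentiableAt.hasFDerivAt.comp s hO
  rw [injective_iff_map_eq_zero]
  intro v hv
  have e : fderiv ℝ (fun t => yc (O.symm (X t))) s = _ := hD.fderiv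
  rw [e] at hv
  obtain ⟨a, c, hac⟩ := ker_yc (w := O.symm (fderiv ℝ X s v)) h0 hv
  have h1 : fderiv ℝ X s v = a • X s + c • O (ee 3) := by
    rw [← O.apply_symm_apply (fderiv ℝ X s v), hac, map_add, map_smul, map_smul,
      O.apply_symm_apply]
  have h2 : ⟪n, fderiv ℝ X s v⟫_ℝ = 0 := by
    rw [lin_d, inner_add_right, inner_smul_right, inner_smul_right, n1, n2]
    simp
  rw [h1, inner_add_right, inner_smul_right, inner_smul_right, n0, mul_zero, zero_add] at h2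
  have hc : c = 0 := (mul_eq_zero.1 h2).resolve_right n3
  rw [hc, zero_smul, add_zero] at h1
  have h3 := perp_deriv hd hu v
  rw [h1, inner_smul_right, real_inner_self_eq_norm_sq, hu.self_of_nhds] at h3
  have ha : a = 0 := by linarith
  rw [ha, zero_smul] at h1
  exact hi (by rw [h1, map_zero])

lemma sol_of_c2 (hR : RegS) (hC : CWS) {u : P2 → ℝ} {U : Set P2} (hU : IsOpen U)
    (h2 : ∀ y ∈ U, ContDiffAt ℝ 2 u y) (hg : ∀ y ∈ U, gAt u y (u y) = 0) : Sol u U := by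
  refine ⟨fun y hy => ?_, hg⟩
  have hW : Weak u U := (hC u U hU fun y hy => (h2 y hy).contDiffWithinAt).2 hg
  obtain ⟨L, t, ht, hL⟩ := ((h2 y hy).of_le one_le_two).exists_lipschitzOnWith
  obtain ⟨ε, hε, hb⟩ := Metric.mem_nhds_iff.1 (inter_mem ht (hU.mem_nhds hy))
  obtain ⟨C, hC⟩ := hR L (max ‖y‖ |u y|) 0
  have hs : ball y (min ε 1) ⊆ t ∩ U := (ball_subset_ball (min_le_left _ _)).trans hb
  refine (hC u y (min ε 1) (lt_min hε one_pos) (min_le_right _ _) (le_max_left _ _)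
    (le_max_right _ _) (hL.mono fun s h => (hs h).1) ?_).1
  intro η K h1 h2 h3
  exact hW η K h1 h2 (h3.trans fun s h => (hs h).2)

lemma lchart (hR : RegS) (hC : CWS) (hM : MeqS) (S : Set E4) (hS : IsMin S) (O : Iso) (y : P2)
    (z : ℝ) (n : E4) (hp : O (gn y z) ∈ S) (hn : IsNor S (O (gn y z)) n)
    (n3 : ⟪n, O (ee 3)⟫_ℝ ≠ 0) : ∃ δ > 0, ∃ u, LChart S O (ball y δ) u ∧ u y = z := by
  obtain ⟨U, X, h, s, hs, hX⟩ := hS _ hp
  have c2 := patch_c2 h hs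
  have h0 : 0 < O.symm (X s) 0 := by
    rw [hX, O.symm_apply_apply]
    exact gn_pos _ _
  rw [← hX, patch_nor h hs] at hn
  have hπ : ContDiffAt ℝ 2 (fun t => yc (O.symm (X t))) s :=
    ContDiffAt.comp s (f := X) (ana_ycO O h0.ne').contDiffAt c2
  obtain ⟨e, he, hse, hψ, -⟩ := ift two_ne_zero hπ
    (proj_inj O (c2.differentiableAt two_ne_zero) (h.imm s hs) (patch_unit h hs) h0.ne'
      hn.2.1 hn.2.2.1 hn.2.2.2 n3)
  have hy : yc (O.symm (X s)) = y := by rw [hX, O.symm_apply_apply, yc_gn]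
  have hes : e s = y := by rw [he]; exact hy
  rw [hy] at hψ
  have hψy : e.symm y = s := by rw [← hes, e.left_inv hse]
  have hyt : y ∈ e.target := hes ▸ e.map_source hse
  have ct : Tendsto e.symm (𝓝 y) (𝓝 s) := hψy ▸ hψ.continuousAt
  have ev : ∀ᶠ t in 𝓝 y, t ∈ e.target ∧ ContDiffAt ℝ 2 e.symm t ∧ e.symm t ∈ U ∧
      0 < O.symm (X (e.symm t)) 0 := by
    refine (e.open_target.eventually_mem hyt).and ((hψ.eventually (by simp)).and
      ((ct.eventually (h.isOpen.eventually_mem hs)).and (ct.eventually (p := fun t => 0 < O.symm (X t) 0) ?_)))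
    exact ((cont_c0 O).continuousAt.comp c2.continuousAt).eventually (lt_mem_nhds h0)
  obtain ⟨δ, hδ, hb⟩ := Metric.eventually_nhds_iff_ball.1 ev
  have hr : ∀ t ∈ ball y δ, yc (O.symm (X (e.symm t))) = t := by
    intro t ht
    have := e.right_inv (hb t ht).1
    rwa [he] at this
  have hg : ∀ t ∈ ball y δ, gX O (fun t => zq (O.symm (X (e.symm t)))) t = X (e.symm t) := by
    intro t ht
    have := O_coord O (h.unit _ (hb t ht).2.2.1) (hb t ht).2.2.2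
    rwa [hr t ht] at this
  have hu2 : ∀ t ∈ ball y δ, ContDiffAt ℝ 2 (fun t => zq (O.symm (X (e.symm t)))) t := by
    intro t ht
    obtain ⟨-, b2, b3, b4⟩ := hb t ht
    exact ContDiffAt.comp t (f := fun t => X (e.symm t)) (ana_zqO O b4.ne').contDiffAt
      ((patch_c2 h b3).comp t b2)
  refine ⟨δ, hδ, fun t => zq (O.symm (X (e.symm t))), ⟨isOpen_ball, ?_, ?_⟩, ?_⟩
  · refine sol_of_c2 hR hC isOpen_ball hu2 fun t ht => ?_
    obtain ⟨b1, b2, b3, b4⟩ := hb t ht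
    have hi : Function.Injective (fderiv ℝ e.symm t) := by
      have d1 : DifferentiableAt ℝ (fun t => yc (O.symm (X t))) (e.symm t) :=
        DifferentiableAt.comp _ (f := X) (ana_ycO O b4.ne').differentiableAt
          ((patch_c2 h b3).differentiableAt two_ne_zero)
      have d2 := d1.hasFDerivAt.comp t (b2.differentiableAt two_ne_zero).hasFDerivAt
      have d3 : HasFDerivAt ((fun t => yc (O.symm (X t))) ∘ e.symm)
          (ContinuousLinearMap.id ℝ P2) t := by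
        refine (hasFDerivAt_id t).congr_of_eventuallyEq ?_
        filter_upwards [isOpen_ball.mem_nhds ht] with t' ht' using hr t' ht'
      have d4 := d2.unique d3
      refine Function.Injective.of_comp (f := fderiv ℝ (fun t => yc (O.symm (X t))) (e.symm t)) ?_
      rw [← ContinuousLinearMap.coe_comp, d4]
      exact Function.injective_id
    have m1 := (hM.comp X e.symm t b2 (patch_c2 h b3) hi).2 (h.minimal _ b3)
    refine (hM.graph O _ t (hu2 t ht)).1 (minEq_congr ?_ m1)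
    filter_upwards [isOpen_ball.mem_nhds ht] with t' ht' using (hg t' ht').symm
  · intro U' hU' ho
    obtain ⟨V, hV, eV⟩ := h.rel (e.symm '' U')
      (by rintro _ ⟨t, ht, rfl⟩; exact (hb t (hU' ht)).2.2.1)
      (e.isOpen_image_symm_of_subset_target ho fun t ht => (hb t (hU' ht)).1)
    refine ⟨V, hV, ?_⟩
    rw [← eV, image_image]
    exact image_congr fun t ht => hg t (hU' ht)
  · show zq (O.symm (X (e.symm y))) = z
    rw [hψy, hX, O.symm_apply_apply, zq_gn]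

lemma facts (hM : MeqS) (S : Set E4) (O : Iso) (U : Set P2) (u : P2 → ℝ) (h : LChart S O U u)
    (y : P2) (hy : y ∈ U) : gX O u y ∈ S ∧ IsNor S (gX O u y) (gN O u y) ∧
      map (gX O u) (𝓝 y) = 𝓝[S] (gX O u y) := by
  have ha := (hM.ana O u y (h.sol.1 y hy)).1
  obtain ⟨h1, h2⟩ := map_eq h.isOpen h.rel hy ha.continuousAt
  obtain ⟨-, n1, n2, n3, n4, n5⟩ := hM.normal O u y (h.sol.1 y hy).differentiableAt
  exact ⟨h1, (isNor_iff ha.differentiableAt n5 h2 _).2 ⟨n1, n2, n3, n4⟩, h2⟩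

lemma chart (hR : RegS) (hC : CWS) (hM : MeqS) (S : Set E4) (hS : IsMin S) (O : Iso)
    (hp : O (ee 0) ∈ S) (hn : IsNor S (O (ee 0)) (O (ee 3))) : ∃ δ u, Chart S O δ u := by
  obtain ⟨δ, hδ, u, hL, hu⟩ := lchart hR hC hM S hS O 0 0 (O (ee 3)) (by rwa [gn_zero])
    (by rwa [gn_zero]) (by rw [real_inner_self_eq_norm_sq, hn.1]; norm_num)
  refine ⟨δ, u, hδ, hL.sol, hu, ?_, hL.rel⟩
  have h1 := (facts hM S O _ u hL 0 (mem_ball_self hδ)).2.1
  have h2 : gX O u 0 = O (ee 0) := by rw [gX, hu, gn_zero]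
  rw [h2] at h1
  have sp := (nor_spec hM S hS _ hp).2
  have h3 : gN O u 0 = O (ee 3) ∨ gN O u 0 = O (-ee 3) := by
    rw [map_neg]
    rcases (sp _).1 h1 with a | a <;> rcases (sp _).1 hn with b | b <;> simp [a, b]
  have h4 : ∀ i : Fin 4, i ≠ 3 → nrm 0 (u 0) (d1 u 0) (d2 u 0) i = 0 := by
    intro i hi
    rcases h3 with a | a <;> rw [gN, O.map_eq_iff] at a <;> simp [a, ee, hi]
  have hW : √(1 + d1 u 0 ^ 2 + d2 u 0 ^ 2 +
      (u 0 - (0 : P2).1 * d1 u 0 - (0 : P2).2 * d2 u 0) ^ 2) ≠ 0 :=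
    (Real.sqrt_pos.2 (by positivity)).ne'
  have p1 : d1 u 0 = 0 := by
    have := h4 1 (by decide)
    rw [nrm, PiLp.smul_apply, smul_eq_mul, mul_eq_zero] at this
    simpa using this.resolve_left (inv_ne_zero hW)
  have p2 : d2 u 0 = 0 := by
    have := h4 2 (by decide)
    rw [nrm, PiLp.smul_apply, smul_eq_mul, mul_eq_zero] at this
    simpa using this.resolve_left (inv_ne_zero hW)
  refine ContinuousLinearMap.ext fun v => ?_
  rw [lin_d, p1, p2]
  simp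

lemma graph (hM : MeqS) (O : Iso) (u : P2 → ℝ) (U : Set P2) (hU : IsOpen U) (hs : Sol u U) :
    IsMin (gX O u '' U) ∧ LChart (gX O u '' U) O U u := by
  have rel : ∀ U' ⊆ U, IsOpen U' → ∃ V, IsOpen V ∧ gX O u '' U' = gX O u '' U ∩ V := by
    intro U' hU' ho
    refine ⟨{x | 0 < O.symm x 0} ∩ (fun x => yc (O.symm x)) ⁻¹' U', ?_, ?_⟩
    · exact ContinuousOn.isOpen_inter_preimage
        (fun x hx => (ana_ycO O (ne_of_gt hx)).continuousAt.continuousWithinAt)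
        (isOpen_lt continuous_const (cont_c0 O)) ho
    · ext x
      constructor
      · rintro ⟨t, ht, rfl⟩
        exact ⟨mem_image_of_mem _ (hU' ht), pos_gX O u t, by
          rw [mem_preimage, yc_gX]; exact ht⟩
      · rintro ⟨⟨t, -, rfl⟩, -, h⟩
        rw [mem_preimage, yc_gX] at h
        exact mem_image_of_mem _ h
  refine ⟨fun p hp => ⟨U, gX O u, ⟨hU, ?_, ?_, ?_, ?_, rel, ?_⟩, hp⟩, hU, hs, rel⟩
  · exact fun y hy => (hM.ana O u y (hs.1 y hy)).1.contDiffAt.contDiffWithinAt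
  · exact fun y hy => (hM.normal O u y (hs.1 y hy).differentiableAt).1
  · exact fun y hy => (hM.normal O u y (hs.1 y hy).differentiableAt).2.2.2.2.2
  · intro a _ b _ hab
    rw [← yc_gX O u a, hab, yc_gX]
  · exact fun y hy => (hM.graph O u y (hs.1 y hy).contDiffAt).2 (hs.2 y hy)

lemma glue (S : Set E4) (h : ∀ p ∈ S, ∃ S', IsMin S' ∧ p ∈ S' ∧ 𝓝[S'] p = 𝓝[S] p) :
    IsMin S := by
  intro p hp
  obtain ⟨S', hS', hp', e⟩ := h p hp
  obtain ⟨U, X, h, y, hy, rfl⟩ := hS' p hp'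
  obtain ⟨V0, hV0, ho, hyV⟩ := _root_.eventually_nhds_iff.1 (nhdsWithin_eq_iff_eventuallyEq.1 e)
  have hsub : U ∩ X ⁻¹' V0 ⊆ U := inter_subset_left
  refine ⟨U ∩ X ⁻¹' V0, X, ⟨h.smooth.continuousOn.isOpen_inter_preimage h.isOpen ho,
    h.smooth.mono hsub, fun s hs => h.unit s hs.1, fun s hs => h.imm s hs.1, h.inj.mono hsub,
    ?_, fun s hs => h.minimal s hs.1⟩, y, ⟨hy, hyV⟩, rfl⟩
  intro U' hU' ho'
  obtain ⟨V, hV, eV⟩ := h.rel U' (hU'.trans hsub) ho'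
  refine ⟨V ∩ V0, hV.inter ho, ?_⟩
  ext x
  constructor
  · intro hx
    have h1 : x ∈ S' ∩ V := eV ▸ hx
    obtain ⟨t, ht, rfl⟩ := hx
    have h2 : X t ∈ V0 := (hU' ht).2
    exact ⟨(hV0 _ h2).mp h1.1, h1.2, h2⟩
  · rintro ⟨h1, h2, h3⟩
    rw [eV]
    exact ⟨(hV0 _ h3).mpr h1, h2⟩

/-- a chart at every point -/
lemma ex_chart (hC : ChartS) (hM : MeqS) {S : Set E4} (hS : IsMin S) {p n : E4} (hp : p ∈ S)
    (hn : IsNor S p n) : ∃ O δ u, O (ee 0) = p ∧ O (ee 3) = n ∧ Chart S O δ u := by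
  obtain ⟨O, rfl, rfl⟩ := (hM.frame p n (hC.unit S hS p hp) hn.1 hn.2.1).1
  obtain ⟨δ, u, h⟩ := hC.chart S hS O hp hn
  exact ⟨O, δ, u, rfl, rfl, h⟩

lemma e00 (O : Iso) : O.symm (O (ee 0)) 0 = 1 := by
  rw [O.symm_apply_apply]
  simp [ee]

lemma yc0 (O : Iso) : yc (O.symm (O (ee 0))) = 0 := by
  rw [O.symm_apply_apply, ← gn_zero, yc_gn]

lemma cont (hR : RegS) (hC : CWS) (hM : MeqS) (S : Set E4) (hS : IsMin S) (p : E4) (hp : p ∈ S) :
    ∃ N : E4 → E4, ContinuousWithinAt N S p ∧ ∀ᶠ x in 𝓝[S] p, IsNor S x (N x) := by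
  have hn := (nor_spec hM S hS p hp).1
  obtain ⟨O, rfl, h3⟩ := (hM.frame p _ (unit S hS p hp) hn.1 hn.2.1).1
  rw [← h3] at hn
  obtain ⟨δ, u, h⟩ := chart hR hC hM S hS O hp hn
  have hL : LChart S O (ball 0 δ) u := ⟨isOpen_ball, h.sol, h.rel⟩
  refine ⟨fun x => gN O u (yc (O.symm x)), ContinuousAt.continuousWithinAt ?_, ?_⟩
  · refine ContinuousAt.comp (f := fun x => yc (O.symm x)) (g := gN O u) ?_
      (ana_ycO O (by rw [e00]; exact one_ne_zero)).continuousAt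
    rw [yc0]
    exact (hM.ana O u 0 (h.sol.1 0 (mem_ball_self h.pos))).2.continuousAt
  · have h1 := (facts hM S O _ u hL 0 (mem_ball_self h.pos)).2.2
    have h2 : gX O u 0 = O (ee 0) := by rw [gX, h.zero, gn_zero]
    rw [h2] at h1
    rw [← h1, eventually_map]
    filter_upwards [ball_mem_nhds (0 : P2) h.pos] with y hy
    rw [yc_gX]
    exact (facts hM S O _ u hL y hy).2.1

end BChart

theorem chartS (hR : RegS) (hC : CWS) (hM : MeqS) : ChartS where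
  unit := BChart.unit
  nor_spec := BChart.nor_spec hM
  lchart := BChart.lchart hR hC hM
  chart := BChart.chart hR hC hM
  facts := BChart.facts hM
  graph := BChart.graph hM
  loc := fun S S' hS h => BChart.glue S' fun p hp => ⟨S, hS, (h p hp).1, (h p hp).2.symm⟩
  glue := BChart.glue
  cont := BChart.cont hR hC hM

namespace BChart

/-- unit vectors near the centre of a chart lie on the surface iff they lie on the graph -/
lemma mem_iff (hC : ChartS) {S : Set E4} {O : Iso} {δ : ℝ} {u : P2 → ℝ} (h : Chart S O δ u) :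
    ∀ᶠ x in 𝓝 (O (ee 0)), ‖x‖ = 1 →
      (gX O u (yc (O.symm x)) = x ↔ zq (O.symm x) = u (yc (O.symm x))) ∧
      (x ∈ S ↔ zq (O.symm x) = u (yc (O.symm x))) ∧ yc (O.symm x) ∈ ball (0 : P2) δ ∧
      0 < O.symm x 0 := by
  have hL : LChart S O (ball 0 δ) u := ⟨isOpen_ball, h.sol, h.rel⟩
  obtain ⟨V, hV, eV⟩ := h.rel _ subset_rfl isOpen_ball
  have h2 : gX O u 0 = O (ee 0) := by rw [gX, h.zero, gn_zero]
  have h3 : O (ee 0) ∈ V :=
    (eV ▸ h2 ▸ mem_image_of_mem (gX O u) (mem_ball_self h.pos) : O (ee 0) ∈ S ∩ V).2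
  have h4 : ∀ᶠ x in 𝓝 (O (ee 0)), yc (O.symm x) ∈ ball (0 : P2) δ :=
    (ana_ycO O (by rw [e00]; exact one_ne_zero)).continuousAt.eventually
      (p := fun t => t ∈ ball (0 : P2) δ) (by beta_reduce; rw [yc0]; exact ball_mem_nhds _ h.pos)
  have h5 : ∀ᶠ x in 𝓝 (O (ee 0)), 0 < O.symm x 0 :=
    (cont_c0 O).continuousAt.eventually (p := fun t => 0 < t)
      (lt_mem_nhds (by beta_reduce; rw [e00]; exact one_pos))
  filter_upwards [hV.mem_nhds h3, h4, h5] with x a b c hx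
  have k : gX O u (yc (O.symm x)) = x ↔ zq (O.symm x) = u (yc (O.symm x)) := by
    constructor
    · intro e
      rw [← zq_gX O u (yc (O.symm x)), e]
    · intro e
      rw [gX, ← e, O_coord O hx c]
  refine ⟨k, ⟨fun hS => ?_, fun e => ?_⟩, b, c⟩
  · obtain ⟨t, -, rfl⟩ : x ∈ gX O u '' ball 0 δ := eV ▸ ⟨hS, a⟩
    rw [zq_gX, yc_gX]
  · rw [← k.2 e]
    exact (hC.facts S O _ u hL _ b).1

lemma inS (hM : MeqS) (hC : ChartS) (S : Set E4) (hS : IsMin S) (X : P2 → E4) (y : P2)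
    (c2 : ContDiffAt ℝ 2 X y) (hi : Function.Injective (fderiv ℝ X y))
    (hX : ∀ᶠ s in 𝓝 y, X s ∈ S) :
    (∀ᶠ s in 𝓝 y, MinEq X s) ∧ map X (𝓝 y) = 𝓝[S] (X y) ∧
    ∀ n, IsNor S (X y) n ↔
      ‖n‖ = 1 ∧ ⟪n, X y⟫_ℝ = 0 ∧ ⟪n, d1 X y⟫_ℝ = 0 ∧ ⟪n, d2 X y⟫_ℝ = 0 := by
  have hp := hX.self_of_nhds
  obtain ⟨O, δ, u, h0, -, h⟩ := ex_chart hC hM hS hp (hC.nor_spec S hS _ hp).1
  have hL : LChart S O (ball 0 δ) u := ⟨isOpen_ball, h.sol, h.rel⟩
  have ev := c2.continuousAt.eventually (h0 ▸ mem_iff hC h)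
  have hne : O.symm (X y) 0 ≠ 0 := by rw [← h0, e00]; exact one_ne_zero
  have hψ : ContDiffAt ℝ 2 (fun s => yc (O.symm (X s))) y :=
    ContDiffAt.comp y (f := X) (ana_ycO O hne).contDiffAt c2
  have ev2 : ∀ᶠ s in 𝓝 y, gX O u (yc (O.symm (X s))) = X s ∧
      yc (O.symm (X s)) ∈ ball (0 : P2) δ := by
    filter_upwards [ev, hX] with s a b
    obtain ⟨a1, a2, a3, -⟩ := a (hC.unit S hS _ b)
    exact ⟨a1.2 (a2.1 b), a3⟩
  have ee : (fun s => gX O u (yc (O.symm (X s)))) =ᶠ[𝓝 y] X := ev2.mono fun s a => a.1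
  have ga : ∀ t ∈ ball (0 : P2) δ, AnalyticAt ℝ (gX O u) t := fun t ht =>
    (hM.ana O u t (h.sol.1 t ht)).1
  have hiψ : Function.Injective (fderiv ℝ (fun s => yc (O.symm (X s))) y) := by
    have d1 := ((ga _ ev2.self_of_nhds.2).differentiableAt.hasFDerivAt.comp y
      (hψ.differentiableAt two_ne_zero).hasFDerivAt).congr_of_eventuallyEq ee.symm
    rw [d1.fderiv, ContinuousLinearMap.coe_comp] at hi
    exact hi.of_comp
  have hm : map X (𝓝 y) = 𝓝[S] (X y) := by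
    obtain ⟨-, -, -, -, hm⟩ := ift two_ne_zero hψ hiψ
    have := (hC.facts S O _ u hL _ ev2.self_of_nhds.2).2.2
    rw [← hm, map_map, ev2.self_of_nhds.1] at this
    rw [← this]
    exact map_congr ee.symm
  refine ⟨?_, hm, isNor_iff (c2.differentiableAt two_ne_zero) hi hm⟩
  filter_upwards [ee.eventuallyEq_nhds, ev2, hψ.eventually (by simp),
    inj_near (hψ.of_le one_le_two) hiψ] with s a b c d
  refine minEq_congr a ((hM.comp (gX O u) _ s c (ga _ b.2).contDiffAt d).2 ?_)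
  exact (hM.graph O u _ (h.sol.1 _ b.2).contDiffAt).2 (h.sol.2 _ b.2)

lemma toS (X : P2 → E4) (y : P2) (ha : AnalyticAt ℝ X y)
    (hi : Function.Injective (fderiv ℝ X y)) (hu : ∀ᶠ s in 𝓝 y, ‖X s‖ = 1 ∧ MinEq X s)
    (W : Set P2) (hW : W ∈ 𝓝 y) : ∃ U ⊆ W, y ∈ U ∧ Patch (X '' U) U X := by
  obtain ⟨g, hg⟩ := (fderiv ℝ X y).toLinearMap.exists_leftInverse_of_injective
    (LinearMap.ker_eq_bot.2 hi)
  let G : E4 →L[ℝ] P2 := LinearMap.toContinuousLinearMap g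
  have hD : HasFDerivAt (fun s => G (X s)) (G.comp (fderiv ℝ X y)) y :=
    G.hasFDerivAt.comp y ha.differentiableAt.hasFDerivAt
  have hc : ContDiffAt ℝ 1 (fun s => G (X s)) y := G.contDiff.contDiffAt.comp y ha.contDiffAt
  obtain ⟨e, he, hse, -, -⟩ := ift one_ne_zero hc (by
    rw [hD.fderiv]
    intro a b hab
    have h1 : g (fderiv ℝ X y a) = a := congrArg (fun L : P2 →ₗ[ℝ] P2 => L a) hg
    have h2 : g (fderiv ℝ X y b) = b := congrArg (fun L : P2 →ₗ[ℝ] P2 => L b) hg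
    rw [← h1, ← h2]
    exact hab)
  have he' : ∀ s, e s = G (X s) := fun s => congrFun he s
  obtain ⟨U, hU, ho, hy⟩ := _root_.eventually_nhds_iff.1 (hu.and (ha.eventually_analyticAt.and
    ((inj_near ha.contDiffAt hi).and ((e.open_source.eventually_mem hse).and hW))))
  have inj : ∀ a ∈ U, ∀ b ∈ U, G (X a) = G (X b) → a = b := fun a ha b hb hab =>
    e.injOn (hU a ha).2.2.2.1 (hU b hb).2.2.2.1 (by rw [he', he', hab])
  refine ⟨U, fun s hs => (hU s hs).2.2.2.2, hy, ho,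
    fun s hs => (hU s hs).2.1.contDiffAt.contDiffWithinAt, fun s hs => (hU s hs).1.1,
    fun s hs => (hU s hs).2.2.1, fun a ha b hb hab => inj a ha b hb (by rw [hab]), ?_,
    fun s hs => (hU s hs).1.2⟩
  intro U' hU' ho'
  refine ⟨G ⁻¹' (e '' U'), (e.isOpen_image_of_subset_source ho'
    fun s hs => (hU s (hU' hs)).2.2.2.1).preimage G.continuous, ?_⟩
  ext x
  constructor
  · rintro ⟨s, hs, rfl⟩
    exact ⟨mem_image_of_mem _ (hU' hs), s, hs, he' s⟩
  · rintro ⟨⟨s, hs, rfl⟩, t, ht, h⟩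
    rw [he'] at h
    rw [← inj t (hU' ht) s hs h]
    exact mem_image_of_mem _ ht

/-- analytic implicit function theorem -/
lemma implicit {F : P2 × ℝ → ℝ} {q : P2 × ℝ} (ha : AnalyticAt ℝ F q) (h0 : F q = 0)
    (hd : fderiv ℝ F q (0, 1) ≠ 0) : ∃ f : P2 → ℝ, AnalyticAt ℝ f q.1 ∧ f q.1 = q.2 ∧
      ∀ᶠ s in 𝓝 q, (F s = 0 ↔ s.2 = f s.1) := by
  have hΦ : ContDiffAt ℝ ω (fun s : P2 × ℝ => (s.1, F s)) q :=
    (analyticAt_fst.prod ha).contDiffAt
  have hD : HasFDerivAt (fun s : P2 × ℝ => (s.1, F s))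
      ((ContinuousLinearMap.fst ℝ P2 ℝ).prod (fderiv ℝ F q)) q :=
    hasFDerivAt_fst.prodMk ha.differentiableAt.hasFDerivAt
  obtain ⟨e, he, hse, hψ, -⟩ := ift (by simp) hΦ (by
    rw [hD.fderiv, injective_iff_map_eq_zero]
    rintro ⟨v, t⟩ hv
    have h1 : v = 0 := congrArg Prod.fst hv
    have h2 : fderiv ℝ F q (v, t) = 0 := congrArg Prod.snd hv
    have h3 : ((v, t) : P2 × ℝ) = t • (0, 1) := by simp [h1]
    rw [h3, map_smul, smul_eq_mul, mul_eq_zero] at h2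
    rw [h3, h2.resolve_right hd, zero_smul])
  have he' : ∀ s, e s = (s.1, F s) := fun s => congrFun he s
  simp only [h0] at hψ
  have heq : e q = (q.1, 0) := by rw [he', h0]
  have hι : AnalyticAt ℝ (fun y : P2 => ((y, 0) : P2 × ℝ)) q.1 :=
    analyticAt_id.prod analyticAt_const
  refine ⟨fun y => (e.symm (y, 0)).2, ?_, ?_, ?_⟩
  · exact analyticAt_snd.comp
      (AnalyticAt.comp (f := fun y : P2 => ((y, 0) : P2 × ℝ)) hψ.analyticAt hι)
  · show (e.symm (q.1, 0)).2 = q.2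
    rw [← heq, e.left_inv hse]
  · have ht : ∀ᶠ s : P2 × ℝ in 𝓝 q, ((s.1, 0) : P2 × ℝ) ∈ e.target := by
      have hc : Continuous fun s : P2 × ℝ => ((s.1, 0) : P2 × ℝ) := by fun_prop
      have hq : ((q.1, 0) : P2 × ℝ) ∈ e.target := heq ▸ e.map_source hse
      exact hc.continuousAt.eventually (e.open_target.eventually_mem hq)
    filter_upwards [ht, e.open_source.eventually_mem hse] with s a b
    constructor
    · intro h
      have : e s = (s.1, 0) := by rw [he', h]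
      show s.2 = (e.symm (s.1, 0)).2
      rw [← this, e.left_inv b]
    · intro h
      have h1 := e.right_inv a
      rw [he'] at h1
      have h1' : (e.symm (s.1, 0)).1 = s.1 := (Prod.ext_iff.1 h1).1
      have h2 : e.symm (s.1, 0) = s := Prod.ext h1' h.symm
      rw [h2] at h1
      exact congrArg Prod.snd h1

lemma any (hM : MeqS) (hC : ChartS) (S : Set E4) (hS : IsMin S) (Ξ : P2 × ℝ → E4) (q : P2 × ℝ)
    (n : E4) (ha : AnalyticAt ℝ Ξ q) (hu : ∀ᶠ s in 𝓝 q, ‖Ξ s‖ = 1) (hp : Ξ q ∈ S)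
    (hn : IsNor S (Ξ q) n) (hz : ⟪n, fderiv ℝ Ξ q (0, 1)⟫_ℝ ≠ 0) :
    ∃ f : P2 → ℝ, AnalyticAt ℝ f q.1 ∧ f q.1 = q.2 ∧ ∀ᶠ s in 𝓝 q, (Ξ s ∈ S ↔ s.2 = f s.1) := by
  obtain ⟨O, δ, u, h0, h3, h⟩ := ex_chart hC hM hS hp hn
  have ev := ha.continuousAt.eventually (h0 ▸ mem_iff hC h)
  have hne : O.symm (Ξ q) 0 ≠ 0 := by rw [← h0, e00]; exact one_ne_zero
  have hy0 : yc (O.symm (Ξ q)) = 0 := by rw [← h0, yc0]
  have hua : AnalyticAt ℝ u (yc (O.symm (Ξ q))) := by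
    rw [hy0]
    exact h.sol.1 0 (mem_ball_self h.pos)
  have a1 : AnalyticAt ℝ (fun s => zq (O.symm (Ξ s))) q :=
    AnalyticAt.comp (f := Ξ) (ana_zqO O hne) ha
  have a2 : AnalyticAt ℝ (fun s => yc (O.symm (Ξ s))) q :=
    AnalyticAt.comp (f := Ξ) (ana_ycO O hne) ha
  have a3 : AnalyticAt ℝ (fun s => u (yc (O.symm (Ξ s)))) q :=
    AnalyticAt.comp (f := fun s => yc (O.symm (Ξ s))) hua a2
  have b3 : HasFDerivAt (fun s => u (yc (O.symm (Ξ s)))) (0 : P2 × ℝ →L[ℝ] ℝ) q := by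
    have := hua.differentiableAt.hasFDerivAt.comp q a2.differentiableAt.hasFDerivAt
    rwa [hy0, h.dzero, ContinuousLinearMap.zero_comp] at this
  have hO : HasFDerivAt (fun t => O.symm (Ξ t))
      ((O.symm.toContinuousLinearEquiv : E4 →L[ℝ] E4).comp (fderiv ℝ Ξ q)) q :=
    (O.symm.toContinuousLinearEquiv : E4 →L[ℝ] E4).hasFDerivAt.comp q
      ha.differentiableAt.hasFDerivAt
  have b1 := (ana_zq hne).differentiableAt.hasFDerivAt.comp q hO
  obtain ⟨f, f1, f2, f3⟩ := implicit (F := fun s => zq (O.symm (Ξ s)) - u (yc (O.symm (Ξ s))))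
    (a1.sub a3) (by
      have := (ev.self_of_nhds hu.self_of_nhds).2.1.1 hp
      exact sub_eq_zero.2 this) (by
      have e : fderiv ℝ (fun s => zq (O.symm (Ξ s)) - u (yc (O.symm (Ξ s)))) q = _ :=
        (b1.sub b3).fderiv
      rw [e, sub_zero]
      show fderiv ℝ (fun x : E4 => x 3 / x 0) (O.symm (Ξ q)) (O.symm (fderiv ℝ Ξ q (0, 1))) ≠ 0
      rw [der_div 3 hne, ← h0, O.symm_apply_apply]
      rw [← h3, ← O.symm.inner_map_map, O.symm_apply_apply, inner_e3] at hz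
      simpa [ee] using hz)
  refine ⟨f, f1, f2, ?_⟩
  filter_upwards [f3, ev, hu] with s a b c
  rw [(b c).2.1, ← a, sub_eq_zero]

end BChart

theorem paramS (hM : MeqS) (hC : ChartS) : ParamS where
  inS := BChart.inS hM hC
  toS := BChart.toS
  any := fun S hS Ξ q n ha _ hu hp hn hz => BChart.any hM hC S hS Ξ q n ha hu hp hn hz

end Pool.Agent.Lib.MP_16d934_gt
end
end

-- part Pool.Agent.Lib.MP_16d934_gt.EQbara
section

/-! Barriers in a wedge: calculus in polar form. -/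

set_option autoImplicit false

open Set Metric Filter Topology
open scoped ContDiff InnerProductSpace NNReal Real

noncomputable section

namespace Pool.Agent.Lib.MP_16d934_gt.EQbar

/-- squared radius -/
def nn (w : P2) : ℝ := w.1 ^ 2 + w.2 ^ 2

/-- polar angle -/
def ang (w : P2) : ℝ := Real.arctan (w.2 / w.1)

/-- the linear form with coefficients `a, b` -/
def lin (a b : ℝ) : P2 →L[ℝ] ℝ :=
  a • ContinuousLinearMap.fst ℝ ℝ ℝ + b • ContinuousLinearMap.snd ℝ ℝ ℝ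

/-- derivative with given components -/
def HD (f : P2 → ℝ) (w : P2) (a b : ℝ) : Prop := HasFDerivAt f (lin a b) w

theorem HD.d1 {f : P2 → ℝ} {w : P2} {a b : ℝ} (h : HD f w a b) : d1 f w = a := by
  rw [Pool.Agent.Lib.MP_16d934_gt.d1, HasFDerivAt.fderiv h]; simp [lin]

theorem HD.d2 {f : P2 → ℝ} {w : P2} {a b : ℝ} (h : HD f w a b) : d2 f w = b := by
  rw [Pool.Agent.Lib.MP_16d934_gt.d2, HasFDerivAt.fderiv h]; simp [lin]

theorem HD.of_eq {f : P2 → ℝ} {w : P2} {a b a' b' : ℝ} (h : HD f w a b) (ha : a = a')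
    (hb : b = b') : HD f w a' b' := ha ▸ hb ▸ h

theorem hd_fst (w : P2) : HD (fun w => w.1) w 1 0 := by
  have : lin 1 0 = ContinuousLinearMap.fst ℝ ℝ ℝ := by simp [lin]
  rw [HD, this]; exact hasFDerivAt_fst

theorem hd_snd (w : P2) : HD (fun w => w.2) w 0 1 := by
  have : lin 0 1 = ContinuousLinearMap.snd ℝ ℝ ℝ := by simp [lin]
  rw [HD, this]; exact hasFDerivAt_snd

theorem HD.add {f g : P2 → ℝ} {w : P2} {a b c d : ℝ} (h : HD f w a b) (h' : HD g w c d) :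
    HD (fun x => f x + g x) w (a + c) (b + d) := by
  have := HasFDerivAt.add h h'
  refine HasFDerivAt.congr_fderiv this ?_
  ext <;> simp [lin]

theorem HD.mul {f g : P2 → ℝ} {w : P2} {a b c d : ℝ} (h : HD f w a b) (h' : HD g w c d) :
    HD (fun x => f x * g x) w (a * g w + f w * c) (b * g w + f w * d) := by
  have := HasFDerivAt.mul h h'
  refine HasFDerivAt.congr_fderiv this ?_
  ext <;> simp [lin] <;> ring

theorem HD.comp {f : P2 → ℝ} {w : P2} {a b : ℝ} {φ : ℝ → ℝ} {φ' : ℝ}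
    (hφ : HasDerivAt φ φ' (f w)) (h : HD f w a b) :
    HD (fun x => φ (f x)) w (φ' * a) (φ' * b) := by
  have := hφ.comp_hasFDerivAt w h
  refine HasFDerivAt.congr_fderiv this ?_
  ext <;> simp [lin]

theorem HD.cmul {f : P2 → ℝ} {w : P2} {a b : ℝ} (c : ℝ) (h : HD f w a b) :
    HD (fun x => c * f x) w (c * a) (c * b) :=
  (HD.comp (φ := fun t => c * t) (by simpa using (hasDerivAt_id (f w)).const_mul c) h)

theorem HD.inv {f : P2 → ℝ} {w : P2} {a b : ℝ} (h : HD f w a b) (h0 : f w ≠ 0) :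
    HD (fun x => (f x)⁻¹) w (-(f w ^ 2)⁻¹ * a) (-(f w ^ 2)⁻¹ * b) :=
  HD.comp (φ := fun t => t⁻¹) (hasDerivAt_inv h0) h

theorem HD.congr {f g : P2 → ℝ} {w : P2} {a b : ℝ} (h : HD f w a b) (e : g =ᶠ[𝓝 w] f) :
    HD g w a b := HasFDerivAt.congr_of_eventuallyEq h e

theorem nn_pos {w : P2} (h : 0 < w.1) : 0 < nn w := by unfold nn; positivity

theorem nn_nonneg (w : P2) : 0 ≤ nn w := by unfold nn; positivity

theorem hd_nn (w : P2) : HD nn w (2 * w.1) (2 * w.2) := by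
  have := ((hd_fst w).mul (hd_fst w)).add ((hd_snd w).mul (hd_snd w))
  refine (this.congr (Eventually.of_forall fun x => ?_)).of_eq (by ring) (by ring)
  simp [nn, sq]

/-- derivative with given polar components -/
def PD (f : P2 → ℝ) (w : P2) (P Q : ℝ) : Prop :=
  HD f w ((P * w.1 - Q * w.2) / nn w) ((P * w.2 + Q * w.1) / nn w)

theorem PD.of_eq {f : P2 → ℝ} {w : P2} {a b a' b' : ℝ} (h : PD f w a b) (ha : a = a')
    (hb : b = b') : PD f w a' b' := ha ▸ hb ▸ h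

theorem PD.add {f g : P2 → ℝ} {w : P2} {a b c d : ℝ} (h : PD f w a b) (h' : PD g w c d) :
    PD (fun x => f x + g x) w (a + c) (b + d) :=
  (HD.add h h').of_eq (by ring) (by ring)

theorem PD.mul {f g : P2 → ℝ} {w : P2} {a b c d : ℝ} (h : PD f w a b) (h' : PD g w c d) :
    PD (fun x => f x * g x) w (a * g w + f w * c) (b * g w + f w * d) :=
  (HD.mul h h').of_eq (by ring) (by ring)

theorem PD.comp {f : P2 → ℝ} {w : P2} {a b : ℝ} {φ : ℝ → ℝ} {φ' : ℝ}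
    (hφ : HasDerivAt φ φ' (f w)) (h : PD f w a b) :
    PD (fun x => φ (f x)) w (φ' * a) (φ' * b) :=
  (HD.comp hφ h).of_eq (by ring) (by ring)

theorem PD.cmul {f : P2 → ℝ} {w : P2} {a b : ℝ} (c : ℝ) (h : PD f w a b) :
    PD (fun x => c * f x) w (c * a) (c * b) :=
  (HD.cmul c h).of_eq (by ring) (by ring)

theorem pd_nn {w : P2} (h : 0 < w.1) : PD nn w (2 * nn w) 0 := by
  have := (nn_pos h).ne'
  exact (hd_nn w).of_eq (by field_simp; ring) (by field_simp; ring)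

theorem pd_ang {w : P2} (h : 0 < w.1) : PD ang w 0 1 := by
  have h0 := (nn_pos h).ne'
  have h1 := h.ne'
  have h2 : HD (fun x : P2 => x.2 * (x.1)⁻¹) w _ _ := (hd_snd w).mul ((hd_fst w).inv h1)
  have h3 := HD.comp (Real.hasDerivAt_arctan (w.2 * (w.1)⁻¹)) h2
  refine (h3.congr (Eventually.of_forall fun x => ?_)).of_eq ?_ ?_
  · simp [ang, div_eq_mul_inv]
  · unfold nn at *; field_simp; ring
  · unfold nn at *; field_simp; ring

/-- power of the radius -/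
def rp (k : ℝ) (w : P2) : ℝ := nn w ^ (k / 2)

theorem pd_rp (k : ℝ) {w : P2} (h : 0 < w.1) : PD (rp k) w (k * rp k w) 0 := by
  have h0 := nn_pos h
  have := PD.comp (Real.hasDerivAt_rpow_const (p := k / 2) (Or.inl h0.ne')) (pd_nn h)
  refine this.of_eq ?_ (by ring)
  rw [Real.rpow_sub_one h0.ne', rp]; field_simp

/-- harmonic function `Re w ^ k` -/
def cf (k : ℝ) (w : P2) : ℝ := rp k w * Real.cos (k * ang w)

/-- harmonic function `Im w ^ k` -/
def sf (k : ℝ) (w : P2) : ℝ := rp k w * Real.sin (k * ang w)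

theorem pd_cf (k : ℝ) {w : P2} (h : 0 < w.1) : PD (cf k) w (k * cf k w) (-(k * sf k w)) := by
  have h1 := PD.comp (Real.hasDerivAt_cos (k * ang w)) ((pd_ang h).cmul k)
  refine ((pd_rp k h).mul h1).of_eq ?_ ?_ <;> simp only [cf, sf] <;> ring

theorem pd_sf (k : ℝ) {w : P2} (h : 0 < w.1) : PD (sf k) w (k * sf k w) (k * cf k w) := by
  have h1 := PD.comp (Real.hasDerivAt_sin (k * ang w)) ((pd_ang h).cmul k)
  refine ((pd_rp k h).mul h1).of_eq ?_ ?_ <;> simp only [cf, sf] <;> ring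

/-- the minimal surface operator in polar form -/
def pOp (N z P Q A B C : ℝ) : ℝ :=
  (1 + z ^ 2) * N * (A + C) + A * N ^ 2 + (1 + N) * (A * Q ^ 2 - 2 * B * P * Q + C * P ^ 2)
    + 2 * z * N * (B * Q - C * P)

theorem gAt_polar {V P Q : P2 → ℝ} {w : P2} {Pl M Qp : ℝ} (z : ℝ) (h : 0 < w.1)
    (hV : ∀ x : P2, 0 < x.1 → PD V x (P x) (Q x)) (hP : PD P w Pl M) (hQ : PD Q w M Qp) :
    gAt V w z * nn w ^ 2 = pOp (nn w) z (P w) (Q w) (Pl - P w) (M - Q w) (Qp + P w) := by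
  have h0 := (nn_pos h).ne'
  have hev : ∀ᶠ x : P2 in 𝓝 w, 0 < x.1 := continuous_fst.continuousAt.eventually (lt_mem_nhds h)
  have e1 : d1 V =ᶠ[𝓝 w] fun x => (P x * x.1 + (-1) * (Q x * x.2)) * (nn x)⁻¹ :=
    hev.mono fun x hx => by rw [HD.d1 (hV x hx)]; ring
  have e2 : d2 V =ᶠ[𝓝 w] fun x => (P x * x.2 + Q x * x.1) * (nn x)⁻¹ :=
    hev.mono fun x hx => by rw [HD.d2 (hV x hx)]; ring
  have hi := (hd_nn w).inv h0
  have k1 := (((HD.mul hP (hd_fst w)).add ((HD.mul hQ (hd_snd w)).cmul (-1))).mul hi).congr e1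
  have k2 := (((HD.mul hP (hd_snd w)).add (HD.mul hQ (hd_fst w))).mul hi).congr e2
  rw [gAt, k1.d1, k2.d1, k2.d2, HD.d1 (hV w h), HD.d2 (hV w h)]
  have hN : nn w = w.1 ^ 2 + w.2 ^ 2 := rfl
  unfold gOp pOp
  generalize P w = p at *
  generalize Q w = q at *
  rw [hN] at h0 ⊢
  field_simp
  ring

/-- the barrier -/
def bar (k k' α β γ : ℝ) (w : P2) : ℝ := α * cf k w + β * rp k w + γ * cf k' w

theorem gAt_bar (k k' α β γ : ℝ) {w : P2} (z : ℝ) (h : 0 < w.1) :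
    gAt (bar k k' α β γ) w z * nn w ^ 2 =
      pOp (nn w) z (k * (α * cf k w + β * rp k w) + k' * (γ * cf k' w))
        (-(k * (α * sf k w)) - k' * (γ * sf k' w))
        (k * (k - 1) * (α * cf k w + β * rp k w) + k' * (k' - 1) * (γ * cf k' w))
        (-(k * (k - 1) * (α * sf k w)) - k' * (k' - 1) * (γ * sf k' w))
        (-(k * (k - 1) * (α * cf k w)) + k * (β * rp k w) - k' * (k' - 1) * (γ * cf k' w)) := by
  have := gAt_polar (V := bar k k' α β γ)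
    (P := fun x => (k * α) * cf k x + (k * β) * rp k x + (k' * γ) * cf k' x)
    (Q := fun x => (-(k * α)) * sf k x + (-(k' * γ)) * sf k' x)
    (Pl := k * k * (α * cf k w + β * rp k w) + k' * k' * (γ * cf k' w))
    (M := -(k * k * (α * sf k w)) - k' * k' * (γ * sf k' w))
    (Qp := -(k * k * (α * cf k w)) - k' * k' * (γ * cf k' w)) z h
    (fun x hx => ((((pd_cf k hx).cmul α).add ((pd_rp k hx).cmul β)).add
      ((pd_cf k' hx).cmul γ)).of_eq (by ring) (by ring))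
    (((((pd_cf k h).cmul _).add ((pd_rp k h).cmul _)).add
      ((pd_cf k' h).cmul _)).of_eq (by ring) (by ring))
    ((((pd_sf k h).cmul _).add ((pd_sf k' h).cmul _)).of_eq (by ring) (by ring))
  rw [this]
  congr 1 <;> ring

theorem cd_rp (k : ℝ) {w : P2} (h : 0 < w.1) : ContDiffAt ℝ 2 (rp k) w := by
  have h1 : ContDiffAt ℝ 2 nn w := by unfold nn; fun_prop
  exact h1.rpow_const_of_ne (nn_pos h).ne'

theorem cd_cf (k : ℝ) {w : P2} (h : 0 < w.1) : ContDiffAt ℝ 2 (cf k) w := by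
  have h1 : ContDiffAt ℝ 2 (fun x : P2 => x.2 / x.1) w :=
    contDiffAt_snd.div contDiffAt_fst h.ne'
  have h2 : ContDiffAt ℝ 2 ang w := h1.arctan
  exact (cd_rp k h).mul (contDiffAt_const.mul h2).cos

theorem cd_bar (k k' α β γ : ℝ) {w : P2} (h : 0 < w.1) : ContDiffAt ℝ 2 (bar k k' α β γ) w :=
  ((contDiffAt_const.mul (cd_cf k h)).add (contDiffAt_const.mul (cd_rp k h))).add
    (contDiffAt_const.mul (cd_cf k' h))

theorem rp_nonneg (k : ℝ) (w : P2) : 0 ≤ rp k w := Real.rpow_nonneg (nn_nonneg w) _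

theorem rp_pos (k : ℝ) {w : P2} (h : 0 < w.1) : 0 < rp k w := Real.rpow_pos_of_pos (nn_pos h) _

theorem rp_zero {k : ℝ} (hk : 0 < k) : rp k 0 = 0 := by
  have : k / 2 ≠ 0 := by positivity
  simp [rp, nn, this]

theorem cont_rp {k : ℝ} (hk : 0 < k) : Continuous (rp k) := by
  have h1 : Continuous nn := by unfold nn; fun_prop
  exact h1.rpow_const fun _ => Or.inr (by positivity)

theorem ca_cf {k : ℝ} (hk : 0 < k) {w : P2} (h : 0 < w.1 ∨ w = 0) : ContinuousAt (cf k) w := by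
  rcases h with h | rfl
  · exact (cd_cf k h).continuousAt
  · have h0 : cf k 0 = 0 := by simp [cf, rp_zero hk]
    rw [ContinuousAt, h0]
    have h1 : Tendsto (rp k) (𝓝 0) (𝓝 0) := by
      have := (cont_rp hk).tendsto 0
      rwa [rp_zero hk] at this
    refine squeeze_zero_norm (fun x => ?_) h1
    rw [cf, norm_mul, Real.norm_of_nonneg (rp_nonneg k x)]
    exact mul_le_of_le_one_right (rp_nonneg k x) (Real.abs_cos_le_one _)

theorem ca_bar {k k' : ℝ} (hk : 0 < k) (hk' : 0 < k') (α β γ : ℝ) {w : P2}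
    (h : 0 < w.1 ∨ w = 0) : ContinuousAt (bar k k' α β γ) w :=
  ((continuousAt_const.mul (ca_cf hk h)).add
    (continuousAt_const.mul (cont_rp hk).continuousAt)).add (continuousAt_const.mul (ca_cf hk' h))

theorem bar_zero {k k' : ℝ} (hk : 0 < k) (hk' : 0 < k') (α β γ : ℝ) : bar k k' α β γ 0 = 0 := by
  simp [bar, cf, rp_zero hk, rp_zero hk']

/-- polar coordinates in the wedge -/
theorem polar {A : ℝ} (hA0 : 0 < A) (hA1 : A < π / 2) {w : P2} (h : 0 < w.1)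
    (hw : |w.2| ≤ Real.tan A * w.1) :
    ∃ ψ : ℝ, 0 ≤ ψ ∧ ψ ≤ A ∧ (∀ j : ℝ, Real.cos (j * ang w) = Real.cos (j * ψ)) ∧
      Real.sin A * w.1 - Real.cos A * |w.2| = √(nn w) * Real.sin (A - ψ) ∧
      (|w.2| = Real.tan A * w.1 → ψ = A) := by
  have hA : Real.arctan (Real.tan A) = A := Real.arctan_tan (by linarith) hA1
  refine ⟨Real.arctan (|w.2| / w.1), ?_, ?_, fun j => ?_, ?_, fun e => ?_⟩
  · have := Real.arctan_mono (show (0 : ℝ) ≤ |w.2| / w.1 by positivity)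
    simpa using this
  · rw [← hA]
    exact Real.arctan_mono ((div_le_iff₀ h).2 hw)
  · rcases abs_choice w.2 with e | e
    · rw [e, ang]
    · rw [e, ang, neg_div, Real.arctan_neg, mul_neg, Real.cos_neg]
  · rw [Real.sin_sub, Real.cos_arctan, Real.sin_arctan]
    have h1 : √(nn w) = w.1 * √(1 + (|w.2| / w.1) ^ 2) := by
      have e : nn w = w.1 ^ 2 * (1 + (|w.2| / w.1) ^ 2) := by
        rw [div_pow, sq_abs, nn]; field_simp
      rw [e, Real.sqrt_mul (by positivity), Real.sqrt_sq h.le]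
    have h2 : 0 < √(1 + (|w.2| / w.1) ^ 2) := by positivity
    rw [h1]; field_simp
  · rw [e, mul_div_assoc, div_self h.ne', mul_one, hA]

theorem pOp_neg {k c co si E N z T : ℝ} (hk : 1 < k) (hc : 0 < c) (h1 : 2 * c ≤ co) (h2 : co ≤ 1)
    (h3 : si ^ 2 ≤ 1) (hE : 0 < E) (hN : 0 < N) (hz : 0 ≤ z) (hT : z ≤ T)
    (hs : N * (c + 2 * T ^ 2) < c ^ 2) :
    pOp N z (k * (E * (co - c))) (-(k * (E * si))) (k * (k - 1) * (E * (co - c)))
      (-(k * (k - 1) * (E * si))) (-(k * (k - 1) * (E * co)) - k * (E * c)) < 0 := by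
  obtain ⟨g, hg⟩ : ∃ g, g = co - c := ⟨_, rfl⟩
  obtain ⟨Z, hZ⟩ : ∃ Z, Z = (k - 1) * si ^ 2 + g * ((k - 1) * co + c) := ⟨_, rfl⟩
  have hg0 : c ≤ g := by linarith
  have hg1 : g ≤ 1 := by linarith
  have hgp : 0 < g := by linarith
  have hk1 : 0 < k - 1 := by linarith
  have hco : 0 < co := by linarith
  have hZ0 : 0 ≤ Z := by rw [hZ]; positivity
  have hZ1 : Z ≤ 2 * k := by
    have a1 : (k - 1) * si ^ 2 ≤ k := by nlinarith
    have a2 : (k - 1) * co + c ≤ k := by nlinarith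
    have a3 : g * ((k - 1) * co + c) ≤ 1 * k :=
      mul_le_mul hg1 a2 (by positivity) zero_le_one
    linarith
  have e : pOp N z (k * (E * (co - c))) (-(k * (E * si))) (k * (k - 1) * (E * (co - c)))
      (-(k * (k - 1) * (E * si))) (-(k * (k - 1) * (E * co)) - k * (E * c))
      = E * k * (-(N * (1 + z ^ 2) * k * c) + (k - 1) * g * N ^ 2
        + k * Z * (2 * z * N * E - (1 + N) * k * g * E ^ 2)) := by
    rw [hZ, hg]; unfold pOp; ring
  rw [e]
  refine mul_neg_of_pos_of_neg (by positivity) ?_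
  have b1 : (2 * z * N * E - (1 + N) * k * g * E ^ 2) * (k * c) ≤ T ^ 2 * N ^ 2 := by
    have c1 : k * c * E ^ 2 ≤ (1 + N) * k * g * E ^ 2 := by
      have : k * c ≤ (1 + N) * k * g := by
        have : c ≤ (1 + N) * g := by nlinarith
        nlinarith
      exact mul_le_mul_of_nonneg_right this (by positivity)
    have c2 : (2 * z * N * E - k * c * E ^ 2) * (k * c) ≤ z ^ 2 * N ^ 2 := by
      nlinarith [sq_nonneg (z * N - k * c * E)]
    have c3 : z ^ 2 * N ^ 2 ≤ T ^ 2 * N ^ 2 :=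
      mul_le_mul_of_nonneg_right (pow_le_pow_left₀ hz hT 2) (by positivity)
    have c4 : (2 * z * N * E - (1 + N) * k * g * E ^ 2) * (k * c)
        ≤ (2 * z * N * E - k * c * E ^ 2) * (k * c) :=
      mul_le_mul_of_nonneg_right (by linarith) (by positivity)
    linarith
  have b2 : k * Z * (2 * z * N * E - (1 + N) * k * g * E ^ 2) * c ≤ 2 * k * (T ^ 2 * N ^ 2) := by
    calc _ = Z * ((2 * z * N * E - (1 + N) * k * g * E ^ 2) * (k * c)) := by ring
      _ ≤ Z * (T ^ 2 * N ^ 2) := mul_le_mul_of_nonneg_left b1 hZ0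
      _ ≤ _ := mul_le_mul_of_nonneg_right hZ1 (by positivity)
  have b3 : (k - 1) * g * N ^ 2 ≤ k * N ^ 2 :=
    mul_le_mul_of_nonneg_right (by nlinarith) (by positivity)
  have b4 : N * k * c ≤ N * (1 + z ^ 2) * k * c := by
    have : 0 ≤ N * z ^ 2 * k * c := by positivity
    linarith
  have b5 : k * N * (N * (c + 2 * T ^ 2)) < k * N * c ^ 2 :=
    mul_lt_mul_of_pos_left hs (by positivity)
  refine lt_of_mul_lt_mul_right (a := c) ?_ hc.le
  have b6 := mul_le_mul_of_nonneg_right b3 hc.le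
  have b7 := mul_le_mul_of_nonneg_right b4 hc.le
  nlinarith

theorem pOp_pos {Λ κ μ E N z T P Q A B C : ℝ} (hP : |P| ≤ Λ * E) (hQ : |Q| ≤ Λ * E)
    (hA : |A| ≤ Λ * E) (hB : |B| ≤ Λ * E) (hC : |C| ≤ Λ * E) (hAC : A + C = κ * E) (hκ : 0 < κ)
    (hΛ : 0 ≤ Λ) (hE : 0 < E) (hEμ : E ≤ μ) (hE2 : E ^ 2 ≤ μ ^ 2 * N) (hN : 0 < N) (hN1 : N ≤ 1)
    (hz : 0 ≤ z) (hT : z ≤ T) (hs : Λ * N + 8 * Λ ^ 3 * μ ^ 2 + 4 * T * Λ ^ 2 * μ < κ) :
    0 < pOp N z P Q A B C := by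
  have m2 : ∀ x y : ℝ, |x| ≤ Λ * E → |y| ≤ Λ * E → |x * y| ≤ (Λ * E) ^ 2 := fun x y hx hy => by
    rw [abs_mul, sq]; exact mul_le_mul hx hy (abs_nonneg _) (by positivity)
  have m3 : ∀ x y v : ℝ, |x| ≤ Λ * E → |y| ≤ Λ * E → |v| ≤ Λ * E →
      |x * y * v| ≤ (Λ * E) ^ 3 := fun x y v hx hy hv => by
    rw [abs_mul, pow_succ]; exact mul_le_mul (m2 x y hx hy) hv (abs_nonneg _) (by positivity)
  have a1 := abs_le.1 (m3 A Q Q hA hQ hQ)
  have a2 := abs_le.1 (m3 B P Q hB hP hQ)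
  have a3 := abs_le.1 (m3 C P P hC hP hP)
  have a4 := abs_le.1 (m2 B Q hB hQ)
  have a5 := abs_le.1 (m2 C P hC hP)
  have a6 := abs_le.1 hA
  have b1 : -(8 * (Λ * E) ^ 3) ≤ (1 + N) * (A * Q ^ 2 - 2 * B * P * Q + C * P ^ 2) := by
    have c1 : -(4 * (Λ * E) ^ 3) ≤ A * Q ^ 2 - 2 * B * P * Q + C * P ^ 2 := by nlinarith
    have c2 := mul_le_mul_of_nonneg_left c1 (show 0 ≤ 1 + N by linarith)
    have c3 : 0 ≤ (Λ * E) ^ 3 := by positivity
    nlinarith
  have b2 : -(4 * T * N * (Λ * E) ^ 2) ≤ 2 * z * N * (B * Q - C * P) := by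
    have c1 : -(2 * (Λ * E) ^ 2) ≤ B * Q - C * P := by linarith
    have c2 := mul_le_mul_of_nonneg_left c1 (show 0 ≤ 2 * z * N by positivity)
    have c3 : z * (N * (Λ * E) ^ 2) ≤ T * (N * (Λ * E) ^ 2) :=
      mul_le_mul_of_nonneg_right hT (by positivity)
    nlinarith
  have b3 : -(Λ * E * N ^ 2) ≤ A * N ^ 2 := by
    have := mul_le_mul_of_nonneg_right a6.1 (show 0 ≤ N ^ 2 by positivity)
    linarith
  have b4 : κ * E * N ≤ (1 + z ^ 2) * N * (A + C) := by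
    rw [hAC]
    have : 0 ≤ z ^ 2 * N * (κ * E) := by positivity
    linarith
  have b5 : (Λ * E) ^ 3 ≤ Λ ^ 3 * μ ^ 2 * (E * N) := by
    calc _ = Λ ^ 3 * E * E ^ 2 := by ring
      _ ≤ Λ ^ 3 * E * (μ ^ 2 * N) := mul_le_mul_of_nonneg_left hE2 (by positivity)
      _ = _ := by ring
  have hT0 : 0 ≤ T := hz.trans hT
  have b6 : T * N * (Λ * E) ^ 2 ≤ T * Λ ^ 2 * μ * (E * N) := by
    calc _ = T * Λ ^ 2 * (E * N) * E := by ring
      _ ≤ T * Λ ^ 2 * (E * N) * μ := mul_le_mul_of_nonneg_left hEμ (by positivity)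
      _ = _ := by ring
  have b7 := mul_lt_mul_of_pos_right hs (show 0 < E * N by positivity)
  unfold pOp
  nlinarith

end Pool.Agent.Lib.MP_16d934_gt.EQbar
end
end
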