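import Pool.Agent.Lib.MP_16d934_gt.StC
import Pool.Agent.Lib.MP_16d934_gt.EQbara
import Pool.Agent.Lib.MP_16d934_gt.EMin

-- part Pool.Agent.Lib.MP_16d934_gt.EPiece
section

/-! A leaf is a monotone radial graph over a coordinate rectangle. -/

set_option autoImplicit false

open Set Metric Filter Topology
open scoped ContDiff InnerProductSpace NNReal Real

noncomputable section

namespace Pool.Agent.Lib.MP_16d934_gt

namespace EPiece

/-- the radial segment in gnomonic coordinates -/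
def cu (x : P2) (s : ℝ) : P2 := (√2 * Real.tan x.1 * s, √2 * Real.tan x.2 * (1 - s))

/-- the parameter at which the radial segment meets the leaf -/
def sf (u : P2 → ℝ) (x : P2) : ℝ := Classical.epsilon fun s => s ∈ Ioo (0 : ℝ) 1 ∧
  u (|√2 * Real.tan x.1| * s, |√2 * Real.tan x.2| * (1 - s)) = 2 * s - 1

/-- tangent of the radial coordinate -/
def tf (u : P2 → ℝ) (x : P2) : ℝ := sf u x * Real.cos x.2 / ((1 - sf u x) * Real.cos x.1)

/-- the radial graph function -/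
def rf (u : P2 → ℝ) (x : P2) : ℝ := Real.arctan (tf u x)

theorem s2pos : (0 : ℝ) < √2 := Real.sqrt_pos.2 (by norm_num)

theorem tan_bd (hT : TetS) {a t : ℝ} (ha : 0 < a) (h1 : -hA a < t) (h2 : t < hA a) :
    |√2 * Real.tan t| < a ∧ 0 < Real.cos t := by
  obtain ⟨a1, a2, a3⟩ := hT.ang.1 a ha
  have b1 := Real.tan_lt_tan_of_lt_of_lt_pi_div_two (by linarith) a2 h2
  have b2 := Real.tan_lt_tan_of_lt_of_lt_pi_div_two (by linarith) (by linarith) h1
  rw [Real.tan_neg] at b2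
  refine ⟨abs_lt.2 ⟨?_, ?_⟩, Real.cos_pos_of_mem_Ioo ⟨by linarith, by linarith⟩⟩
  · nlinarith [s2pos]
  · nlinarith [s2pos]

theorem mem_Rho {a b P Q s : ℝ} (ha : 0 < a) (hb : 0 < b) (h0 : 0 ≤ s) (h1 : s ≤ 1) (hP : |P| ≤ a)
    (hQ : |Q| ≤ b) (h : (|P| < a ∧ 0 < s) ∨ (|Q| < b ∧ s < 1)) :
    ((P * s, Q * (1 - s)) : P2) ∈ Rho a b := by
  show |P * s| / a + |Q * (1 - s)| / b < 1
  rw [abs_mul, abs_mul, abs_of_nonneg h0, abs_of_nonneg (sub_nonneg.2 h1), mul_div_right_comm,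
    mul_div_right_comm]
  have c1 : |P| / a ≤ 1 := (div_le_one ha).2 hP
  have c2 : |Q| / b ≤ 1 := (div_le_one hb).2 hQ
  rcases h with ⟨h, h'⟩ | ⟨h, h'⟩
  · have : |P| / a < 1 := (div_lt_one ha).2 h
    nlinarith
  · have : |Q| / b < 1 := (div_lt_one hb).2 h
    nlinarith

theorem mem_Rho' {a b P Q s : ℝ} (ha : 0 < a) (hb : 0 < b) (h0 : 0 ≤ s) (h1 : s ≤ 1) (hP : |P| < a)
    (hQ : |Q| < b) : ((P * s, Q * (1 - s)) : P2) ∈ Rho a b := by
  refine mem_Rho ha hb h0 h1 hP.le hQ.le ?_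
  rcases h0.eq_or_lt with h | h
  · exact Or.inr ⟨hQ, by linarith⟩
  · exact Or.inl ⟨hP, h⟩

theorem Rho_sub {a b : ℝ} : Rho a b ⊆ Rh a b := fun _ h => le_of_lt (α := ℝ) h

theorem gN_coord (u : P2 → ℝ) (y : P2) : ∃ w : ℝ, 0 < w ∧
    gN O0 u y 0 = w * ((y.1 * d1 u y + y.2 * d2 u y - u y - 1) / √2) ∧
    gN O0 u y 1 = w * -d2 u y ∧
    gN O0 u y 2 = w * ((y.1 * d1 u y + y.2 * d2 u y - u y + 1) / √2) ∧
    gN O0 u y 3 = w * -d1 u y := by
  refine ⟨(√(1 + d1 u y ^ 2 + d2 u y ^ 2 + (u y - y.1 * d1 u y - y.2 * d2 u y) ^ 2))⁻¹,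
    inv_pos.2 (Real.sqrt_pos.2 (by positivity)), ?_, ?_, ?_, ?_⟩ <;>
  simp [gN, nrm, O0, mkO_apply] <;> ring

theorem sin_hA (hT : TetS) {a : ℝ} (ha : 0 < a) :
    0 < Real.cos (hA a) ∧ Real.sin (hA a) = Real.cos (hA a) / √2 * a := by
  obtain ⟨a1, a2, a3⟩ := hT.ang.1 a ha
  have ca : 0 < Real.cos (hA a) := Real.cos_pos_of_mem_Ioo ⟨by linarith, a2⟩
  refine ⟨ca, ?_⟩
  generalize hA a = A at *
  rw [← a3, Real.tan_eq_sin_div_cos]
  have := s2pos
  field_simp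

theorem slope (hT : TetS) (hR : RadoS) {a b : ℝ} {u : P2 → ℝ} (hu : IsLeaf a b u) {y : P2}
    (hy : y ∈ Rho a b) {P Q : ℝ} (hP : |P| ≤ a) (hQ : |Q| ≤ b) :
    d1 u y * P - d2 u y * Q < 2 := by
  obtain ⟨r1, r2, r3, r4⟩ := hR.rado a b u hu y hy
  obtain ⟨w, hw, n0, n1, n2, n3⟩ := gN_coord u y
  obtain ⟨ca, sa⟩ := sin_hA hT hu.apos
  obtain ⟨cb, sb⟩ := sin_hA hT hu.bpos
  rw [inner4, n0, n1, n2, n3] at r1 r2 r3 r4
  simp only [vP, vQ, Real.cos_neg, Real.sin_neg, sa, sb] at r1 r2 r3 r4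
  simp at r1 r2 r3 r4
  set d := y.1 * d1 u y + y.2 * d2 u y - u y
  set p := d1 u y
  set q := d2 u y
  have k1 : 0 < w * (Real.cos (hA a) / √2) := mul_pos hw (div_pos ca s2pos)
  have k2 : 0 < w * (Real.cos (hA b) / √2) := mul_pos hw (div_pos cb s2pos)
  have e1 : p * a < d + 1 := by
    refine lt_of_mul_lt_mul_left ?_ k1.le
    have : w * (Real.cos (hA a) / √2) * (d + 1) = w * ((d + 1) / √2) * Real.cos (hA a) := by ring
    linarith
  have e2 : -(p * a) < d + 1 := by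
    refine lt_of_mul_lt_mul_left ?_ k1.le
    have : w * (Real.cos (hA a) / √2) * (d + 1) = w * ((d + 1) / √2) * Real.cos (hA a) := by ring
    linarith
  have e3 : d - 1 < q * b := by
    refine lt_of_mul_lt_mul_left ?_ k2.le
    have : w * (Real.cos (hA b) / √2) * (d - 1) = w * ((d - 1) / √2) * Real.cos (hA b) := by ring
    linarith
  have e4 : d - 1 < -(q * b) := by
    refine lt_of_mul_lt_mul_left ?_ k2.le
    have : w * (Real.cos (hA b) / √2) * (d - 1) = w * ((d - 1) / √2) * Real.cos (hA b) := by ring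
    linarith
  obtain ⟨p1, p2⟩ := abs_le.1 hP
  obtain ⟨q1, q2⟩ := abs_le.1 hQ
  have f1 : p * P < d + 1 := by rcases le_total 0 p with h | h <;> nlinarith
  have f2 : -(q * Q) < 1 - d := by rcases le_total 0 q with h | h <;> nlinarith
  linarith

theorem comp_curve {u : P2 → ℝ} {c₁ c₂ : ℝ → ℝ} {v₁ v₂ t : ℝ}
    (hu : DifferentiableAt ℝ u (c₁ t, c₂ t)) (h1 : HasDerivAt c₁ v₁ t) (h2 : HasDerivAt c₂ v₂ t) :
    HasDerivAt (fun t => u (c₁ t, c₂ t))
      (d1 u (c₁ t, c₂ t) * v₁ + d2 u (c₁ t, c₂ t) * v₂) t := by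
  refine (hu.hasFDerivAt.comp_hasDerivAt t (h1.prodMk h2)).congr_deriv ?_
  rw [BChart.lin_d]
  simp only [smul_eq_mul]
  ring

theorem hd1 {f : P2 → ℝ} {x : P2} (hf : DifferentiableAt ℝ f x) :
    HasDerivAt (fun t => f (t, x.2)) (d1 f x) x.1 := by
  have := comp_curve (u := f) (c₁ := fun t => t) (c₂ := fun _ => x.2) (t := x.1) hf
    (hasDerivAt_id _) (hasDerivAt_const _ _)
  simpa using this

theorem hd2 {f : P2 → ℝ} {x : P2} (hf : DifferentiableAt ℝ f x) :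
    HasDerivAt (fun t => f (x.1, t)) (d2 f x) x.2 := by
  have := comp_curve (u := f) (c₁ := fun _ => x.1) (c₂ := fun t => t) (t := x.2) hf
    (hasDerivAt_const _ _) (hasDerivAt_id _)
  simpa using this

theorem seg_deriv {u : P2 → ℝ} {P Q s : ℝ} (hu : DifferentiableAt ℝ u (P * s, Q * (1 - s))) :
    HasDerivAt (fun s => 2 * s - 1 - u (P * s, Q * (1 - s)))
      (2 - (d1 u (P * s, Q * (1 - s)) * P - d2 u (P * s, Q * (1 - s)) * Q)) s := by
  have h1 : HasDerivAt (fun s => P * s) P s := by simpa using (hasDerivAt_id s).const_mul P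
  have h2 : HasDerivAt (fun s => Q * (1 - s)) (-Q) s := by
    simpa using ((hasDerivAt_id s).const_sub 1).const_mul Q
  have h3 : HasDerivAt (fun s : ℝ => 2 * s - 1) 2 s := by
    simpa using ((hasDerivAt_id s).const_mul 2).sub_const 1
  refine (h3.sub (comp_curve (c₁ := fun s => P * s) (c₂ := fun s => Q * (1 - s)) hu h1
    h2)).congr_deriv ?_
  ring

section

variable (hT : TetS) (hR : RadoS) {a b : ℝ} {u : P2 → ℝ} (hu : IsLeaf a b u)
include hT hR hu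

theorem seg_mono {P Q : ℝ} (hP : |P| < a) (hQ : |Q| < b) :
    StrictMonoOn (fun s => 2 * s - 1 - u (P * s, Q * (1 - s))) (Icc 0 1) := by
  have hd : ∀ s ∈ Icc (0 : ℝ) 1, _ := fun s hs => seg_deriv (u := u) (P := P) (Q := Q) (s := s)
    (hu.sol.1 _ (mem_Rho' hu.apos hu.bpos hs.1 hs.2 hP hQ)).differentiableAt
  refine strictMonoOn_of_deriv_pos (convex_Icc 0 1)
    (fun s hs => (hd s hs).continuousAt.continuousWithinAt) fun s hs => ?_
  have hs' := interior_subset hs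
  rw [(hd s hs').deriv]
  linarith [slope hT hR hu (mem_Rho' hu.apos hu.bpos hs'.1 hs'.2 hP hQ) hP.le hQ.le]

omit hR in
theorem seg_ex {P Q : ℝ} (hP : |P| < a) (hQ : |Q| < b) :
    ∃ s ∈ Ioo (0 : ℝ) 1, u (P * s, Q * (1 - s)) = 2 * s - 1 := by
  have hd : ∀ s ∈ Icc (0 : ℝ) 1, _ := fun s hs => seg_deriv (u := u) (P := P) (Q := Q) (s := s)
    (hu.sol.1 _ (mem_Rho' hu.apos hu.bpos hs.1 hs.2 hP hQ)).differentiableAt
  have h0 := (hT.inner a b u hu _ (mem_Rho' hu.apos hu.bpos le_rfl zero_le_one hP hQ)).1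
  have h1 := (hT.inner a b u hu _ (mem_Rho' hu.apos hu.bpos zero_le_one le_rfl hP hQ)).2.1
  simp only [lo, up, mul_zero, abs_zero, zero_div, sub_self] at h0 h1
  obtain ⟨s, hs, e⟩ := intermediate_value_Ioo zero_le_one
    (fun s hs => (hd s hs).continuousAt.continuousWithinAt) (a := 0) (b := 1)
    (show (0 : ℝ) ∈ Ioo _ _ from ⟨by
      simp only [mul_zero]; linarith, by simp only [sub_self, mul_zero]; linarith⟩)
  exact ⟨s, hs, by simp only at e; linarith⟩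

omit hR in
theorem ev_abs {y : P2} (hy : y ∈ Rh a b) : u (|y.1|, |y.2|) = u y := by
  have h1 := (hT.ev a b u hu y hy).1
  have h2 := (hT.ev a b u hu y hy).2
  have hy' : ((-y.1, y.2) : P2) ∈ Rh a b := by simpa [Rh] using hy
  have h3 := (hT.ev a b u hu _ hy').2
  rcases abs_cases y.1 with ⟨e1, -⟩ | ⟨e1, -⟩ <;> rcases abs_cases y.2 with ⟨e2, -⟩ | ⟨e2, -⟩ <;>
    rw [e1, e2]
  · exact h2
  · exact h1
  · exact h3.trans h1

omit hR hu in
theorem box (ha : 0 < a) (hb : 0 < b) {x : P2} (hx : x ∈ Box (hA a) (hA b)) :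
    |√2 * Real.tan x.1| < a ∧ |√2 * Real.tan x.2| < b ∧ 0 < Real.cos x.1 ∧ 0 < Real.cos x.2 :=
  ⟨(tan_bd hT ha hx.1.1 hx.1.2).1, (tan_bd hT hb hx.2.1 hx.2.2).1,
    (tan_bd hT ha hx.1.1 hx.1.2).2, (tan_bd hT hb hx.2.1 hx.2.2).2⟩

omit hR in
theorem cu_mem {x : P2} (hx : x ∈ Box (hA a) (hA b)) {s : ℝ} (h0 : 0 ≤ s) (h1 : s ≤ 1) :
    cu x s ∈ Rho a b :=
  mem_Rho' hu.apos hu.bpos h0 h1 (box hT hu.apos hu.bpos hx).1 (box hT hu.apos hu.bpos hx).2.1

omit hR in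
theorem sf_spec {x : P2} (hx : x ∈ Box (hA a) (hA b)) :
    sf u x ∈ Ioo (0 : ℝ) 1 ∧ u (cu x (sf u x)) = 2 * sf u x - 1 := by
  obtain ⟨b1, b2, -, -⟩ := box hT hu.apos hu.bpos hx
  have h := Classical.epsilon_spec (p := fun s => s ∈ Ioo (0 : ℝ) 1 ∧
    u (|√2 * Real.tan x.1| * s, |√2 * Real.tan x.2| * (1 - s)) = 2 * s - 1)
    (seg_ex hT hu (by rwa [abs_abs]) (by rwa [abs_abs]))
  have h1 : sf u x ∈ Ioo (0 : ℝ) 1 := h.1
  refine ⟨h1, ?_⟩
  rw [← ev_abs hT hu (Rho_sub (cu_mem hT hu hx h1.1.le h1.2.le))]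
  simp only [cu]
  rw [abs_mul _ (sf u x), abs_mul _ (1 - sf u x), abs_of_pos h1.1, abs_of_pos (sub_pos.2 h1.2)]
  exact h.2

theorem sf_uniq {x : P2} (hx : x ∈ Box (hA a) (hA b)) {s : ℝ} (h0 : 0 ≤ s) (h1 : s ≤ 1)
    (e : u (cu x s) = 2 * s - 1) : sf u x = s := by
  obtain ⟨b1, b2, -, -⟩ := box hT hu.apos hu.bpos hx
  obtain ⟨c1, c2⟩ := sf_spec hT hu hx
  refine (seg_mono hT hR hu b1 b2).injOn ⟨c1.1.le, c1.2.le⟩ ⟨h0, h1⟩ ?_
  simp only [cu] at e c2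
  simp only [e, c2, sub_self]

end

theorem box_open (w h : ℝ) : IsOpen (Box w h) := isOpen_Ioo.prod isOpen_Ioo

theorem ana_tan {t : ℝ} (h : 0 < Real.cos t) : AnalyticAt ℝ Real.tan t :=
  (Real.contDiffAt_tan (n := ω).2 h.ne').analyticAt

theorem ana_cu {q : P2 × ℝ} (h1 : 0 < Real.cos q.1.1) (h2 : 0 < Real.cos q.1.2) :
    AnalyticAt ℝ (fun q : P2 × ℝ => cu q.1 q.2) q := by
  have a1 : AnalyticAt ℝ (fun q : P2 × ℝ => Real.tan q.1.1) q :=
    AnalyticAt.fun_comp (f := fun q : P2 × ℝ => q.1.1) (ana_tan h1)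
      (AnalyticAt.fun_comp (g := Prod.fst) analyticAt_fst analyticAt_fst)
  have a2 : AnalyticAt ℝ (fun q : P2 × ℝ => Real.tan q.1.2) q :=
    AnalyticAt.fun_comp (f := fun q : P2 × ℝ => q.1.2) (ana_tan h2)
      (AnalyticAt.fun_comp (g := Prod.snd) analyticAt_snd analyticAt_fst)
  exact ((analyticAt_const.mul a1).mul analyticAt_snd).prod
    ((analyticAt_const.mul a2).mul (analyticAt_const.sub analyticAt_snd))

section

variable (hT : TetS) (hR : RadoS) {a b : ℝ} {u : P2 → ℝ} (hu : IsLeaf a b u)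
include hT hR hu

theorem sf_ana {x : P2} (hx : x ∈ Box (hA a) (hA b)) : AnalyticAt ℝ (sf u) x := by
  obtain ⟨b1, b2, b3, b4⟩ := box hT hu.apos hu.bpos hx
  obtain ⟨c1, c2⟩ := sf_spec hT hu hx
  have hy := cu_mem hT hu hx c1.1.le c1.2.le
  have hF : AnalyticAt ℝ (fun q : P2 × ℝ => 2 * q.2 - 1 - u (cu q.1 q.2)) (x, sf u x) :=
    ((analyticAt_const.mul analyticAt_snd).sub analyticAt_const).sub
      (AnalyticAt.fun_comp (f := fun q : P2 × ℝ => cu q.1 q.2) (hu.sol.1 _ hy) (ana_cu b3 b4))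
  have hd : fderiv ℝ (fun q : P2 × ℝ => 2 * q.2 - 1 - u (cu q.1 q.2)) (x, sf u x) (0, 1) ≠ 0 := by
    have h1 : HasDerivAt (fun s : ℝ => ((x, s) : P2 × ℝ)) (0, 1) (sf u x) :=
      (hasDerivAt_const _ _).prodMk (hasDerivAt_id _)
    have h2 := hF.differentiableAt.hasFDerivAt.comp_hasDerivAt (sf u x) h1
    have h3 := seg_deriv (hu.sol.1 _ hy).differentiableAt
    rw [h2.unique h3]
    have := slope hT hR hu hy b1.le b2.le
    simp only [cu] at this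
    linarith
  obtain ⟨f, f1, f2, f3⟩ := BChart.implicit hF (by simp only [c2, sub_self]) hd
  simp only at f1 f2
  have t1 : Tendsto (fun x' => ((x', f x') : P2 × ℝ)) (𝓝 x) (𝓝 (x, sf u x)) := by
    rw [← f2]
    exact (continuousAt_id.prodMk f1.continuousAt)
  have t2 : ∀ᶠ x' in 𝓝 x, f x' ∈ Ioo (0 : ℝ) 1 :=
    f1.continuousAt.eventually (isOpen_Ioo.mem_nhds (f2.symm ▸ c1))
  refine f1.congr ?_
  filter_upwards [t1.eventually f3, t2, (box_open _ _).mem_nhds hx] with x' g1 g2 g3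
  have : 2 * f x' - 1 - u (cu x' (f x')) = 0 := g1.2 rfl
  exact (sf_uniq hT hR hu g3 g2.1.le g2.2.le (by linarith)).symm

theorem tf_ana {x : P2} (hx : x ∈ Box (hA a) (hA b)) : AnalyticAt ℝ (tf u) x := by
  obtain ⟨-, -, b3, -⟩ := box hT hu.apos hu.bpos hx
  obtain ⟨c1, -⟩ := sf_spec hT hu hx
  have h := sf_ana hT hR hu hx
  have a1 : AnalyticAt ℝ (fun x : P2 => Real.cos x.1) x :=
    AnalyticAt.fun_comp (g := Real.cos) Real.analyticAt_cos analyticAt_fst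
  have a2 : AnalyticAt ℝ (fun x : P2 => Real.cos x.2) x :=
    AnalyticAt.fun_comp (g := Real.cos) Real.analyticAt_cos analyticAt_snd
  exact (h.mul a2).div ((analyticAt_const.sub h).mul a1) (mul_pos (sub_pos.2 c1.2) b3).ne'

theorem rf_ana {x : P2} (hx : x ∈ Box (hA a) (hA b)) : AnalyticAt ℝ (rf u) x :=
  AnalyticAt.fun_comp (f := tf u) (Real.contDiff_arctan (n := ω)).contDiffAt.analyticAt
    (tf_ana hT hR hu hx)

theorem ps_ana {x : P2} (hx : x ∈ Box (hA a) (hA b)) :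
    AnalyticAt ℝ (fun x => cu x (sf u x)) x := by
  obtain ⟨-, -, b3, b4⟩ := box hT hu.apos hu.bpos hx
  exact AnalyticAt.fun_comp (g := fun q : P2 × ℝ => cu q.1 q.2) (f := fun x => (x, sf u x))
    (ana_cu b3 b4) (analyticAt_id.prod (sf_ana hT hR hu hx))

omit hR in
theorem tf_pos {x : P2} (hx : x ∈ Box (hA a) (hA b)) : 0 < tf u x := by
  obtain ⟨-, -, b3, b4⟩ := box hT hu.apos hu.bpos hx
  obtain ⟨c1, -⟩ := sf_spec hT hu hx
  exact div_pos (mul_pos c1.1 b4) (mul_pos (sub_pos.2 c1.2) b3)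

end

/-- the radial segment in toroidal coordinates -/
theorem geo (hT : TetS) {x : P2} (h1 : 0 < Real.cos x.1) (h2 : 0 < Real.cos x.2) {s : ℝ}
    (hs : s ∈ Ioo (0 : ℝ) 1) : O0 (gn (cu x s) (2 * s - 1))
      = pol (Real.arctan (s * Real.cos x.2 / ((1 - s) * Real.cos x.1))) x.1 x.2 := by
  obtain ⟨c0, c1, c2, c3⟩ := hT.coord (cu x s) (2 * s - 1)
  set T := s * Real.cos x.2 / ((1 - s) * Real.cos x.1) with hTd
  have hs1 : 0 < 1 - s := sub_pos.2 hs.2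
  have hq : 0 < √(1 + T ^ 2) := Real.sqrt_pos.2 (by positivity)
  have h22 := s2pos
  have hr : rho (cu x s) (2 * s - 1) = √2 * ((1 - s) / Real.cos x.2) * √(1 + T ^ 2) := by
    rw [rho, Real.sqrt_eq_iff_mul_self_eq (by positivity) (by positivity)]
    have e1 : √(1 + T ^ 2) * √(1 + T ^ 2) = 1 + T ^ 2 := Real.mul_self_sqrt (by positivity)
    have e2 : √2 * ((1 - s) / Real.cos x.2) * √(1 + T ^ 2) *
        (√2 * ((1 - s) / Real.cos x.2) * √(1 + T ^ 2))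
        = (√2 * √2) * ((1 - s) / Real.cos x.2) ^ 2 * (√(1 + T ^ 2) * √(1 + T ^ 2)) := by ring
    have e3 : (cu x s).1 ^ 2 = (√2 * √2) * (Real.tan x.1 * s) ^ 2 := by simp only [cu]; ring
    have e4 : (cu x s).2 ^ 2 = (√2 * √2) * (Real.tan x.2 * (1 - s)) ^ 2 := by simp only [cu]; ring
    rw [e2, e1, e3, e4, s2, hTd, Real.tan_eq_sin_div_cos, Real.tan_eq_sin_div_cos]
    field_simp
    rw [Real.sin_sq, Real.sin_sq]
    ring
  rw [hr] at c0 c1 c2 c3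
  have hs2 := s2
  ext i
  fin_cases i
  · simp only [Fin.zero_eta, c0, pol, Real.cos_arctan]
    simp only [Matrix.cons_val_zero]
    field_simp
    rw [Real.sq_sqrt (by norm_num)]
    ring
  · simp only [Fin.mk_one, c1, pol, Real.cos_arctan]
    simp only [Matrix.cons_val_one, Matrix.cons_val_zero, cu, Real.tan_eq_sin_div_cos]
    field_simp
  · simp only [Fin.reduceFinMk, c2, pol, Real.sin_arctan]
    simp only [Matrix.cons_val]
    rw [hTd]
    field_simp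
    rw [Real.sq_sqrt (by norm_num)]
    ring
  · simp only [Fin.reduceFinMk, c3, pol, Real.sin_arctan]
    simp only [Matrix.cons_val, cu, Real.tan_eq_sin_div_cos]
    generalize √(1 + T ^ 2) = W at hq
    rw [hTd]
    field_simp

theorem rX_rot (ϱ : P2 → ℝ) (φ θ : ℝ) : rX ϱ φ θ = fun x => rot θ φ (rX ϱ 0 0 x) := by
  funext x
  ext i
  fin_cases i <;> simp [rX, pol, rot, mkO_apply, Real.cos_add, Real.sin_add] <;> ring

theorem tan_pos_iff {t : ℝ} (h1 : -(π / 2) < t) (h2 : t < π / 2) : 0 < Real.tan t ↔ 0 < t := by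
  refine ⟨fun h => ?_, fun h => Real.tan_pos_of_pos_of_lt_pi_div_two h h2⟩
  by_contra h'
  exact absurd (Real.tan_nonpos_of_nonpos_of_neg_pi_div_two_le (not_lt.1 h') h1.le) (not_le.2 h)

theorem arctan_le {t : ℝ} (h : 0 ≤ t) : Real.arctan t ≤ t := by
  have := Real.le_tan (x := Real.arctan t) (by simpa using h) (Real.arctan_lt_pi_div_two t)
  rwa [Real.tan_arctan] at this

/-- a one-sided lower bound gives a lower bound for the derivative -/
theorem deriv_ge {G k : ℝ → ℝ} {G' k' : ℝ} (hG : HasDerivAt G G' 0) (hk : HasDerivAt k k' 0)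
    (h0 : G 0 = k 0) (h : ∀ᶠ t in 𝓝[>] (0 : ℝ), k t ≤ G t) : k' ≤ G' := by
  have h1 := (hG.sub hk).hasDerivWithinAt (s := Ioi 0)
  rw [hasDerivWithinAt_iff_tendsto_slope' (by simp)] at h1
  have h2 : 0 ≤ G' - k' := by
    refine ge_of_tendsto h1 ?_
    filter_upwards [h, self_mem_nhdsWithin] with t ht ht0
    rw [slope_def_field]
    simp only [Pi.sub_apply, h0, sub_self, sub_zero]
    exact div_nonneg (sub_nonneg.2 ht) (le_of_lt ht0)
  linarith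

section

variable (hT : TetS) (hR : RadoS) {a b : ℝ} {u : P2 → ℝ} (hu : IsLeaf a b u)
include hT hu

theorem rX_eq {x : P2} (hx : x ∈ Box (hA a) (hA b)) :
    gX O0 u (cu x (sf u x)) = rX (rf u) 0 0 x := by
  obtain ⟨-, -, b3, b4⟩ := box hT hu.apos hu.bpos hx
  obtain ⟨c1, c2⟩ := sf_spec hT hu hx
  rw [gX, c2, geo hT b3 b4 c1, rX, zero_add, zero_add]
  rfl

theorem rX_ev {x : P2} (hx : x ∈ Box (hA a) (hA b)) :
    (fun x => gX O0 u (cu x (sf u x))) =ᶠ[𝓝 x] rX (rf u) 0 0 := by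
  filter_upwards [(box_open _ _).mem_nhds hx] with x' hx' using rX_eq hT hu hx'

theorem rf_rng {x : P2} (hx : x ∈ Box (hA a) (hA b)) : 0 < rf u x ∧ rf u x < π / 2 :=
  ⟨Real.arctan_pos.2 (tf_pos hT hu hx), Real.arctan_lt_pi_div_two _⟩

theorem sgn {x : P2} (hx : x ∈ Box (hA a) (hA b)) :
    (0 < x.1 ↔ 0 < (cu x (sf u x)).1) ∧ (0 < x.2 ↔ 0 < (cu x (sf u x)).2) := by
  obtain ⟨c1, -⟩ := sf_spec hT hu hx
  obtain ⟨-, a2, -⟩ := hT.ang.1 a hu.apos
  obtain ⟨-, b2, -⟩ := hT.ang.1 b hu.bpos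
  constructor
  · rw [← tan_pos_iff (by linarith [hx.1.1]) (by linarith [hx.1.2])]
    simp only [cu]
    rw [mul_pos_iff_of_pos_right c1.1, mul_pos_iff_of_pos_left s2pos]
  · rw [← tan_pos_iff (by linarith [hx.2.1]) (by linarith [hx.2.2])]
    simp only [cu]
    rw [mul_pos_iff_of_pos_right (sub_pos.2 c1.2), mul_pos_iff_of_pos_left s2pos]

include hR

theorem d1_sf {x : P2} (hx : x ∈ Box (hA a) (hA b)) : ∃ c : ℝ, 0 < c ∧
    d1 (sf u) x = c * d1 u (cu x (sf u x)) := by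
  obtain ⟨b1, b2, b3, b4⟩ := box hT hu.apos hu.bpos hx
  obtain ⟨c1, -⟩ := sf_spec hT hu hx
  have hy := cu_mem hT hu hx c1.1.le c1.2.le
  have hs := hd1 (sf_ana hT hR hu hx).differentiableAt
  have h1 := ((Real.hasDerivAt_tan b3.ne').const_mul √2).mul hs
  have h2 := (hs.const_sub 1).const_mul (√2 * Real.tan x.2)
  have h3 := comp_curve (u := u) (c₁ := fun t => √2 * Real.tan t * sf u (t, x.2))
    (c₂ := fun t => √2 * Real.tan x.2 * (1 - sf u (t, x.2))) (t := x.1)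
    (hu.sol.1 _ hy).differentiableAt h1 h2
  have h4 := (hs.const_mul 2).sub_const 1
  have h5 : (fun t => 2 * sf u (t, x.2) - 1) =ᶠ[𝓝 x.1] fun t =>
      u (√2 * Real.tan t * sf u (t, x.2), √2 * Real.tan x.2 * (1 - sf u (t, x.2))) := by
    filter_upwards [isOpen_Ioo.mem_nhds hx.1] with t ht
    exact (sf_spec hT hu (x := (t, x.2)) ⟨ht, hx.2⟩).2.symm
  have h6 := h4.unique (h3.congr_of_eventuallyEq h5)
  have h7 := slope hT hR hu hy b1.le b2.le
  simp only [cu, Prod.mk.eta] at h6 h7 ⊢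
  set p := d1 u (√2 * Real.tan x.1 * sf u x, √2 * Real.tan x.2 * (1 - sf u x))
  set q := d2 u (√2 * Real.tan x.1 * sf u x, √2 * Real.tan x.2 * (1 - sf u x))
  have h8 : 0 < 2 - (p * (√2 * Real.tan x.1) - q * (√2 * Real.tan x.2)) := by linarith
  refine ⟨√2 * (1 / Real.cos x.1 ^ 2) * sf u x /
    (2 - (p * (√2 * Real.tan x.1) - q * (√2 * Real.tan x.2))),
    div_pos (mul_pos (mul_pos s2pos (by positivity)) c1.1) h8, ?_⟩
  rw [div_mul_eq_mul_div, eq_div_iff h8.ne']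
  linarith

theorem d2_sf {x : P2} (hx : x ∈ Box (hA a) (hA b)) : ∃ c : ℝ, 0 < c ∧
    d2 (sf u) x = c * d2 u (cu x (sf u x)) := by
  obtain ⟨b1, b2, b3, b4⟩ := box hT hu.apos hu.bpos hx
  obtain ⟨c1, -⟩ := sf_spec hT hu hx
  have hy := cu_mem hT hu hx c1.1.le c1.2.le
  have hs := hd2 (sf_ana hT hR hu hx).differentiableAt
  have h1 := hs.const_mul (√2 * Real.tan x.1)
  have h2 := ((Real.hasDerivAt_tan b4.ne').const_mul √2).mul (hs.const_sub 1)
  have h3 := comp_curve (u := u) (c₁ := fun t => √2 * Real.tan x.1 * sf u (x.1, t))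
    (c₂ := fun t => √2 * Real.tan t * (1 - sf u (x.1, t))) (t := x.2)
    (hu.sol.1 _ hy).differentiableAt h1 h2
  have h4 := (hs.const_mul 2).sub_const 1
  have h5 : (fun t => 2 * sf u (x.1, t) - 1) =ᶠ[𝓝 x.2] fun t =>
      u (√2 * Real.tan x.1 * sf u (x.1, t), √2 * Real.tan t * (1 - sf u (x.1, t))) := by
    filter_upwards [isOpen_Ioo.mem_nhds hx.2] with t ht
    exact (sf_spec hT hu (x := (x.1, t)) ⟨hx.1, ht⟩).2.symm
  have h6 := h4.unique (h3.congr_of_eventuallyEq h5)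
  have h7 := slope hT hR hu hy b1.le b2.le
  simp only [cu, Prod.mk.eta] at h6 h7 ⊢
  set p := d1 u (√2 * Real.tan x.1 * sf u x, √2 * Real.tan x.2 * (1 - sf u x))
  set q := d2 u (√2 * Real.tan x.1 * sf u x, √2 * Real.tan x.2 * (1 - sf u x))
  have h8 : 0 < 2 - (p * (√2 * Real.tan x.1) - q * (√2 * Real.tan x.2)) := by linarith
  refine ⟨√2 * (1 / Real.cos x.2 ^ 2) * (1 - sf u x) /
    (2 - (p * (√2 * Real.tan x.1) - q * (√2 * Real.tan x.2))),
    div_pos (mul_pos (mul_pos s2pos (by positivity)) (sub_pos.2 c1.2)) h8, ?_⟩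
  rw [div_mul_eq_mul_div, eq_div_iff h8.ne']
  linarith

theorem d1_rf {x : P2} (hx : x ∈ Box (hA a) (hA b)) : ∃ c : ℝ, 0 < c ∧
    d1 (rf u) x = c * d1 u (cu x (sf u x)) + tf u x / (1 + tf u x ^ 2) * Real.tan x.1 := by
  obtain ⟨-, -, b3, b4⟩ := box hT hu.apos hu.bpos hx
  obtain ⟨c1, -⟩ := sf_spec hT hu hx
  have hs1 : 0 < 1 - sf u x := sub_pos.2 c1.2
  obtain ⟨c, hc, e⟩ := d1_sf hT hR hu hx
  have hs := hd1 (sf_ana hT hR hu hx).differentiableAt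
  have h1 := ((hs.mul_const (Real.cos x.2)).div ((hs.const_sub 1).mul (Real.hasDerivAt_cos x.1))
    (mul_pos hs1 b3).ne').arctan
  have h2 := (hd1 (rf_ana hT hR hu hx).differentiableAt).unique h1
  refine ⟨c * Real.cos x.2 / ((1 - sf u x) ^ 2 * Real.cos x.1) / (1 + tf u x ^ 2),
    by positivity, ?_⟩
  rw [h2, e]
  simp only [Pi.div_apply, Pi.mul_apply, Prod.mk.eta]
  have e2 : sf u x * Real.cos x.2 / ((1 - sf u x) * Real.cos x.1) = tf u x := rfl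
  rw [e2]
  generalize hW : 1 + tf u x ^ 2 = W
  have hW0 : 0 < W := by rw [← hW]; positivity
  rw [tf, Real.tan_eq_sin_div_cos]
  field_simp
  ring

theorem d2_rf {x : P2} (hx : x ∈ Box (hA a) (hA b)) : ∃ c : ℝ, 0 < c ∧
    d2 (rf u) x = c * d2 u (cu x (sf u x)) - tf u x / (1 + tf u x ^ 2) * Real.tan x.2 := by
  obtain ⟨-, -, b3, b4⟩ := box hT hu.apos hu.bpos hx
  obtain ⟨c1, -⟩ := sf_spec hT hu hx
  have hs1 : 0 < 1 - sf u x := sub_pos.2 c1.2
  obtain ⟨c, hc, e⟩ := d2_sf hT hR hu hx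
  have hs := hd2 (sf_ana hT hR hu hx).differentiableAt
  have h1 := ((hs.mul (Real.hasDerivAt_cos x.2)).div ((hs.const_sub 1).mul_const (Real.cos x.1))
    (mul_pos hs1 b3).ne').arctan
  have h2 := (hd2 (rf_ana hT hR hu hx).differentiableAt).unique h1
  refine ⟨c * Real.cos x.2 / ((1 - sf u x) ^ 2 * Real.cos x.1) / (1 + tf u x ^ 2),
    by positivity, ?_⟩
  rw [h2, e]
  simp only [Pi.div_apply, Pi.mul_apply, Prod.mk.eta]
  have e2 : sf u x * Real.cos x.2 / ((1 - sf u x) * Real.cos x.1) = tf u x := rfl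
  rw [e2]
  generalize hW : 1 + tf u x ^ 2 = W
  have hW0 : 0 < W := by rw [← hW]; positivity
  rw [tf, Real.tan_eq_sin_div_cos]
  field_simp
  ring

theorem m1 {x : P2} (hx : x ∈ Box (hA a) (hA b)) (h : 0 < x.1) :
    0 < tf u x / (1 + tf u x ^ 2) * Real.tan x.1 ∧
      tf u x / (1 + tf u x ^ 2) * Real.tan x.1 ≤ d1 (rf u) x := by
  obtain ⟨c1, -⟩ := sf_spec hT hu hx
  obtain ⟨-, a2, -⟩ := hT.ang.1 a hu.apos
  obtain ⟨c, hc, e⟩ := d1_rf hT hR hu hx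
  have h1 := (hR.mono a b u hu _ (cu_mem hT hu hx c1.1.le c1.2.le)).1.2 ((sgn hT hu hx).1.1 h)
  have h2 := tf_pos hT hu hx
  have h3 := Real.tan_pos_of_pos_of_lt_pi_div_two h (hx.1.2.trans a2)
  exact ⟨by positivity, by rw [e]; nlinarith⟩

theorem m2 {x : P2} (hx : x ∈ Box (hA a) (hA b)) (h : 0 < x.2) :
    0 < tf u x / (1 + tf u x ^ 2) * Real.tan x.2 ∧
      tf u x / (1 + tf u x ^ 2) * Real.tan x.2 ≤ -d2 (rf u) x := by
  obtain ⟨c1, -⟩ := sf_spec hT hu hx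
  obtain ⟨-, b2, -⟩ := hT.ang.1 b hu.bpos
  obtain ⟨c, hc, e⟩ := d2_rf hT hR hu hx
  have h1 := (hR.mono a b u hu _ (cu_mem hT hu hx c1.1.le c1.2.le)).2.2.1.2 ((sgn hT hu hx).2.1 h)
  have h2 := tf_pos hT hu hx
  have h3 := Real.tan_pos_of_pos_of_lt_pi_div_two h (hx.2.2.trans b2)
  exact ⟨by positivity, by rw [e]; nlinarith⟩

theorem cvx (hD : DerS) : 0 < d1 (d1 (rf u)) 0 ∧ d2 (d2 (rf u)) 0 < 0 := by
  obtain ⟨a1, -, -⟩ := hT.ang.1 a hu.apos
  obtain ⟨b1, -, -⟩ := hT.ang.1 b hu.bpos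
  have h0 : (0 : P2) ∈ Box (hA a) (hA b) := ⟨⟨neg_lt_zero.2 a1, a1⟩, ⟨neg_lt_zero.2 b1, b1⟩⟩
  obtain ⟨c1, -⟩ := sf_spec hT hu h0
  obtain ⟨m1', m2', m3', m4'⟩ := hR.mono a b u hu _ (cu_mem hT hu h0 c1.1.le c1.2.le)
  have e1 : (cu 0 (sf u 0)).1 = 0 := by simp [cu]
  have e2 : (cu 0 (sf u 0)).2 = 0 := by simp [cu]
  rw [e1] at m1' m2'
  rw [e2] at m3' m4'
  have p0 : d1 u (cu 0 (sf u 0)) = 0 :=
    le_antisymm (not_lt.1 fun h => lt_irrefl _ (m1'.1 h)) (not_lt.1 fun h => lt_irrefl _ (m2'.1 h))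
  have q0 : d2 u (cu 0 (sf u 0)) = 0 :=
    le_antisymm (not_lt.1 fun h => lt_irrefl _ (m4'.1 h)) (not_lt.1 fun h => lt_irrefl _ (m3'.1 h))
  have hp := tf_pos hT hu h0
  have hm : DifferentiableAt ℝ (fun x => tf u x / (1 + tf u x ^ 2)) 0 :=
    ((tf_ana hT hR hu h0).div (analyticAt_const.add ((tf_ana hT hR hu h0).pow 2))
      (by simp only [Pi.add_apply, Pi.pow_apply]; positivity)).differentiableAt
  have hk : 0 < tf u 0 / (1 + tf u 0 ^ 2) := by positivity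
  have ht : HasDerivAt Real.tan 1 0 := by
    simpa using Real.hasDerivAt_tan (x := 0) (by simp)
  obtain ⟨an1, an2, -⟩ := hD _ _ (rf_ana hT hR hu h0)
  constructor
  · have g1 := hd1 an1.differentiableAt
    have g2 := (hd1 hm).mul ht
    have g3 := deriv_ge g1 g2 (by
      obtain ⟨c, -, e⟩ := d1_rf hT hR hu h0
      rw [p0] at e
      simpa [Prod.mk_zero_zero] using e) (by
      filter_upwards [Ioo_mem_nhdsGT a1] with t ht'
      exact (m1 hT hR hu (x := (t, 0)) ⟨⟨by linarith [ht'.1], ht'.2⟩, h0.2⟩ ht'.1).2)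
    simp only [Prod.fst_zero, Prod.snd_zero, Prod.mk_zero_zero, Real.tan_zero, mul_zero, mul_one,
      zero_add] at g3
    exact hk.trans_le g3
  · have g1 := (hd2 an2.differentiableAt).neg
    have g2 := (hd2 hm).mul ht
    have g3 := deriv_ge g1 g2 (by
      obtain ⟨c, -, e⟩ := d2_rf hT hR hu h0
      rw [q0] at e
      simpa [Prod.mk_zero_zero] using e) (by
      filter_upwards [Ioo_mem_nhdsGT b1] with t ht'
      exact (m2 hT hR hu (x := (0, t)) ⟨h0.1, ⟨by linarith [ht'.1], ht'.2⟩⟩ ht'.1).2)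
    simp only [Prod.fst_zero, Prod.snd_zero, Prod.mk_zero_zero, Real.tan_zero, mul_zero, mul_one,
      zero_add] at g3
    have := hk.trans_le g3
    linarith

theorem fd_rX (hM : MeqS) {x : P2} (hx : x ∈ Box (hA a) (hA b)) (v : P2) :
    fderiv ℝ (rX (rf u) 0 0) x v
      = fderiv ℝ (gX O0 u) (cu x (sf u x)) (fderiv ℝ (fun x => cu x (sf u x)) x v) := by
  obtain ⟨c1, -⟩ := sf_spec hT hu hx
  have hy := cu_mem hT hu hx c1.1.le c1.2.le
  rw [← (rX_ev hT hu hx).fderiv_eq]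
  have h1 := (hM.ana O0 u _ (hu.sol.1 _ hy)).1.differentiableAt.hasFDerivAt
  have h2 := (h1.comp x (ps_ana hT hR hu hx).differentiableAt.hasFDerivAt).fderiv
  exact congrArg (fun L => L v) h2

theorem minimal (hM : MeqS) (hI : InvS) (φ θ : ℝ) {x : P2} (hx : x ∈ Box (hA a) (hA b)) :
    MinEq (rX (rf u) φ θ) x := by
  obtain ⟨c1, -⟩ := sf_spec hT hu hx
  have hy := cu_mem hT hu hx c1.1.le c1.2.le
  have hX := (hM.ana O0 u _ (hu.sol.1 _ hy)).1
  have hψ := ps_ana hT hR hu hx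
  have hinj : Function.Injective (fderiv ℝ (fun x => cu x (sf u x)) x) := by
    intro v w e
    refine (hI.rad (rf u) 0 0 x 0 (rf_ana hT hR hu hx).differentiableAt (rf_rng hT hu hx).1
      (rf_rng hT hu hx).2).1 ?_
    rw [fd_rX hT hR hu hM hx, fd_rX hT hR hu hM hx, e]
  have h1 : MinEq (fun x => gX O0 u (cu x (sf u x))) x :=
    (hM.comp (gX O0 u) _ x hψ.contDiffAt hX.contDiffAt hinj).2
      ((hM.graph O0 u _ (hu.sol.1 _ hy).contDiffAt).2 (hu.sol.2 _ hy))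
  have h2 : AnalyticAt ℝ (rX (rf u) 0 0) x :=
    (AnalyticAt.fun_comp (g := gX O0 u) (f := fun x => cu x (sf u x)) hX hψ).congr
      (rX_ev hT hu hx)
  rw [rX_rot]
  exact (hM.iso _ _ x h2.contDiffAt).2 (BChart.minEq_congr (rX_ev hT hu hx) h1)

theorem jet_eq (hM : MeqS) (hI : InvS) {x : P2} (hx : x ∈ Box (hA a) (hA b)) :
    lj u (cu x (sf u x)) = rj (rf u x) (d1 (rf u) x) (d2 (rf u) x) := by
  obtain ⟨c1, -⟩ := sf_spec hT hu hx
  have hy := cu_mem hT hu hx c1.1.le c1.2.le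
  obtain ⟨-, n1, n2, n3, n4, -⟩ := hM.normal O0 u _ (hu.sol.1 _ hy).differentiableAt
  have hn : ∀ v, ⟪gN O0 u (cu x (sf u x)), fderiv ℝ (rX (rf u) 0 0) x v⟫_ℝ = 0 := by
    intro v
    rw [fd_rX hT hR hu hM hx, BChart.lin_d, inner_add_right, inner_smul_right, inner_smul_right,
      n3, n4]
    simp
  rw [lj, rX_eq hT hu hx]
  exact (hI.rad (rf u) 0 0 x _ (rf_ana hT hR hu hx).differentiableAt (rf_rng hT hu hx).1
    (rf_rng hT hu hx).2).2 n1 (rX_eq hT hu hx ▸ n2) (hn _) (hn _)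

theorem conv {y : P2} (hy : y ∈ Rho a b) :
    ∃ x ∈ Box (hA a) (hA b), gX O0 u y = rX (rf u) 0 0 x := by
  obtain ⟨i1, i2, -⟩ := hT.inner a b u hu y hy
  have ha := hu.apos
  have hb := hu.bpos
  have h2 := s2pos
  simp only [lo, up] at i1 i2
  set s := (1 + u y) / 2 with hs
  have k1 : |y.1| / a < s := by rw [mul_div_assoc] at i1; linarith
  have k2 : |y.2| / b < 1 - s := by rw [mul_div_assoc] at i2; linarith
  have s0 : 0 < s := (div_nonneg (abs_nonneg _) ha.le).trans_lt k1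
  have s1 : 0 < 1 - s := (div_nonneg (abs_nonneg _) hb.le).trans_lt k2
  rw [div_lt_iff₀ ha] at k1
  rw [div_lt_iff₀ hb] at k2
  have key : ∀ {c t r : ℝ}, 0 < r → |t| < r * c →
      Real.arctan (t / (√2 * r)) ∈ Ioo (-hA c) (hA c) := by
    intro c t r hr h
    obtain ⟨g1, g2⟩ := abs_lt.1 h
    rw [hA, ← Real.arctan_neg]
    refine ⟨Real.arctan_strictMono ?_, Real.arctan_strictMono ?_⟩
    · rw [← neg_div, div_lt_div_iff₀ h2 (by positivity)]
      nlinarith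
    · rw [div_lt_div_iff₀ (by positivity) h2]
      nlinarith
  set x : P2 := (Real.arctan (y.1 / (√2 * s)), Real.arctan (y.2 / (√2 * (1 - s)))) with hx
  have hxB : x ∈ Box (hA a) (hA b) := ⟨key s0 k1, key s1 k2⟩
  have e : cu x s = y := by
    simp only [cu, hx, Real.tan_arctan]
    ext
    · field_simp
    · field_simp
  have e2 : sf u x = s := sf_uniq hT hR hu hxB s0.le (by linarith) (by rw [e, hs]; ring)
  exact ⟨x, hxB, by rw [← rX_eq hT hu hxB, e2, e]⟩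

omit hT hR in
theorem cont_cu {q : ℝ × ℝ × ℝ} (h1 : 0 < Real.cos q.1) (h2 : 0 < Real.cos q.2.1)
    (hy : cu (q.1, q.2.1) q.2.2 ∈ Rho a b) :
    ContinuousAt (fun q : ℝ × ℝ × ℝ => u (cu (q.1, q.2.1) q.2.2) - (2 * q.2.2 - 1)) q := by
  refine ContinuousAt.sub ?_ (by fun_prop)
  refine ContinuousAt.comp' (f := fun q : ℝ × ℝ × ℝ => cu (q.1, q.2.1) q.2.2)
    (hu.sol.1 _ hy).continuousAt ?_
  exact ContinuousAt.comp' (g := fun q : P2 × ℝ => cu q.1 q.2)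
    (f := fun q : ℝ × ℝ × ℝ => ((q.1, q.2.1), q.2.2)) (ana_cu h1 h2).continuousAt (by fun_prop)

omit hR in
theorem limP (θ : ℝ) (hθ : θ < hA b) (η : ℝ) (hη : 0 < η) : ∃ φ < hA a,
    ∀ x ∈ Box (hA a) (hA b), φ < x.1 → |x.2| ≤ θ → π / 2 - η < rf u x := by
  obtain ⟨a1, a2, a3⟩ := hT.ang.1 a hu.apos
  obtain ⟨b1, b2, -⟩ := hT.ang.1 b hu.bpos
  have ca := (sin_hA hT hu.apos).1
  have cb := (sin_hA hT hu.bpos).1
  set δ := min (1 / 2) (η * Real.cos (hA b) / 2) with hδ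
  have δ0 : 0 < δ := lt_min (by norm_num) (by positivity)
  have δ1 : δ ≤ 1 / 2 := min_le_left _ _
  have δ2 : δ ≤ η * Real.cos (hA b) / 2 := min_le_right _ _
  have hK : IsCompact (Icc (-θ) θ ×ˢ Icc (0 : ℝ) (1 - δ)) := isCompact_Icc.prod isCompact_Icc
  have hev := hK.eventually_forall_of_forall_eventually (x₀ := hA a)
    (P := fun φ k => 0 < u (cu (φ, k.1) k.2) - (2 * k.2 - 1)) (by
      rintro ⟨t, s⟩ ⟨ht, hs⟩
      obtain ⟨t1, t2⟩ := tan_bd hT hu.bpos (t := t) (by linarith [ht.1]) (by linarith [ht.2])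
      have hy : cu (hA a, t) s ∈ Rho a b := by
        simp only [cu, a3]
        exact mem_Rho hu.apos hu.bpos hs.1 (by linarith [hs.2]) (abs_of_pos hu.apos).le t1.le
          (Or.inr ⟨t1, by linarith [hs.2]⟩)
      refine (cont_cu hu (q := (hA a, t, s)) ca t2 hy).eventually (lt_mem_nhds ?_)
      have := (hT.inner a b u hu _ hy).1
      have e : lo a (cu (hA a, t) s) = 2 * s - 1 := by
        simp only [lo, cu, a3]
        rw [abs_of_nonneg (mul_nonneg hu.apos.le hs.1)]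
        have := hu.apos
        field_simp
      simp only
      linarith)
  obtain ⟨φ, hφ, hφ'⟩ := (nhds_basis_Ioo (hA a)).eventually_iff.1 hev
  refine ⟨φ.1, hφ.1, fun x hx h1 h2 => ?_⟩
  obtain ⟨c1, c2⟩ := sf_spec hT hu hx
  obtain ⟨-, -, b3, b4⟩ := box hT hu.apos hu.bpos hx
  have h3 : 1 - δ < sf u x := by
    by_contra h
    have := hφ' (show x.1 ∈ Ioo φ.1 φ.2 from ⟨h1, hx.1.2.trans hφ.2⟩) (x.2, sf u x)
      ⟨abs_le.1 h2, c1.1.le, not_lt.1 h⟩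
    simp only [Prod.mk.eta, c2, sub_self, lt_self_iff_false] at this
  have h4 : Real.cos (hA b) ≤ Real.cos x.2 := by
    rw [← Real.cos_abs x.2]
    exact Real.cos_le_cos_of_nonneg_of_le_pi (abs_nonneg _) (by linarith [Real.pi_pos])
      (abs_lt.2 hx.2).le
  have hp := tf_pos hT hu hx
  have h5 : (tf u x)⁻¹ < η := by
    rw [tf, inv_div, div_lt_iff₀ (mul_pos c1.1 b4)]
    have g1 : (1 - sf u x) * Real.cos x.1 ≤ 1 - sf u x :=
      mul_le_of_le_one_right (sub_pos.2 c1.2).le (Real.cos_le_one _)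
    have g2 : 1 / 2 * Real.cos (hA b) ≤ sf u x * Real.cos x.2 :=
      mul_le_mul (by linarith) h4 cb.le c1.1.le
    nlinarith
  have h6 := Real.arctan_inv_of_pos hp
  have h7 := arctan_le (inv_pos.2 hp).le
  rw [rf]
  linarith

omit hR in
theorem limQ (φ : ℝ) (hφ : φ < hA a) (η : ℝ) (hη : 0 < η) : ∃ θ < hA b,
    ∀ x ∈ Box (hA a) (hA b), θ < x.2 → |x.1| ≤ φ → rf u x < η := by
  obtain ⟨a1, a2, -⟩ := hT.ang.1 a hu.apos
  obtain ⟨b1, b2, b3⟩ := hT.ang.1 b hu.bpos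
  have ca := (sin_hA hT hu.apos).1
  have cb := (sin_hA hT hu.bpos).1
  set δ := min (1 / 2) (η * Real.cos (hA a) / 2) with hδ
  have δ0 : 0 < δ := lt_min (by norm_num) (by positivity)
  have δ1 : δ ≤ 1 / 2 := min_le_left _ _
  have δ2 : δ ≤ η * Real.cos (hA a) / 2 := min_le_right _ _
  have hK : IsCompact (Icc (-φ) φ ×ˢ Icc δ (1 : ℝ)) := isCompact_Icc.prod isCompact_Icc
  have hev := hK.eventually_forall_of_forall_eventually (x₀ := hA b)
    (P := fun θ k => u (cu (k.1, θ) k.2) - (2 * k.2 - 1) < 0) (by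
      rintro ⟨t, s⟩ ⟨ht, hs⟩
      obtain ⟨t1, t2⟩ := tan_bd hT hu.apos (t := t) (by linarith [ht.1]) (by linarith [ht.2])
      have hy : cu (t, hA b) s ∈ Rho a b := by
        simp only [cu, b3]
        exact mem_Rho hu.apos hu.bpos (by linarith [hs.1]) hs.2 t1.le (abs_of_pos hu.bpos).le
          (Or.inl ⟨t1, by linarith [hs.1]⟩)
      have hc := ContinuousAt.comp' (f := fun q : ℝ × ℝ × ℝ => (q.2.1, q.1, q.2.2))
        (x := (hA b, t, s)) (cont_cu hu (q := (t, hA b, s)) t2 cb hy) (by fun_prop)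
      refine hc.eventually (gt_mem_nhds ?_)
      have := (hT.inner a b u hu _ hy).2.1
      have e : up b (cu (t, hA b) s) = 2 * s - 1 := by
        simp only [up, cu, b3]
        rw [abs_of_nonneg (mul_nonneg hu.bpos.le (sub_nonneg.2 hs.2))]
        have := hu.bpos
        field_simp
        ring
      simp only
      linarith)
  obtain ⟨θ, hθ, hθ'⟩ := (nhds_basis_Ioo (hA b)).eventually_iff.1 hev
  refine ⟨θ.1, hθ.1, fun x hx h1 h2 => ?_⟩
  obtain ⟨c1, c2⟩ := sf_spec hT hu hx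
  obtain ⟨-, -, b4, b5⟩ := box hT hu.apos hu.bpos hx
  have h3 : sf u x < δ := by
    by_contra h
    have := hθ' (show x.2 ∈ Ioo θ.1 θ.2 from ⟨h1, hx.2.2.trans hθ.2⟩) (x.1, sf u x)
      ⟨abs_le.1 h2, not_lt.1 h, c1.2.le⟩
    simp only [Prod.mk.eta, c2, sub_self, lt_self_iff_false] at this
  have h4 : Real.cos (hA a) ≤ Real.cos x.1 := by
    rw [← Real.cos_abs x.1]
    exact Real.cos_le_cos_of_nonneg_of_le_pi (abs_nonneg _) (by linarith [Real.pi_pos])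
      (abs_lt.2 hx.1).le
  have h5 : tf u x < η := by
    rw [tf, div_lt_iff₀ (mul_pos (sub_pos.2 c1.2) b4)]
    have g1 : sf u x * Real.cos x.2 ≤ sf u x := mul_le_of_le_one_right c1.1.le (Real.cos_le_one _)
    have g2 : 1 / 2 * Real.cos (hA a) ≤ (1 - sf u x) * Real.cos x.1 :=
      mul_le_mul (by linarith) h4 ca.le (sub_pos.2 c1.2).le
    nlinarith
  exact (arctan_le (tf_pos hT hu hx).le).trans_lt h5

end

end EPiece

open EPiece in
theorem pieceS (hM : MeqS) (hD : DerS) (hI : InvS) (hT : TetS) (hR : RadoS) : PieceS := by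
  intro a b u hu
  obtain ⟨a1, a2, -⟩ := hT.ang.1 a hu.apos
  obtain ⟨b1, b2, -⟩ := hT.ang.1 b hu.bpos
  refine ⟨rf u, ⟨a1, a2, b1, b2, fun x hx => rf_ana hT hR hu hx, fun x hx => rf_rng hT hu hx,
    fun x => ?_, fun x => ?_, fun x hx h => ?_, fun x hx h => ?_, cvx hT hR hu hD,
    fun φ θ x hx => minimal hT hR hu hM hI φ θ hx, limP hT hu, limQ hT hu⟩, fun x hx => ?_,
    fun y hy => conv hT hR hu hy⟩
  · simp only [rf, tf, sf, Real.tan_neg, mul_neg, abs_neg, Real.cos_neg]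
  · simp only [rf, tf, sf, Real.tan_neg, mul_neg, abs_neg, Real.cos_neg]
  · exact (m1 hT hR hu hx h).1.trans_le (m1 hT hR hu hx h).2
  · linarith [(m2 hT hR hu hx h).1, (m2 hT hR hu hx h).2]
  · obtain ⟨c1, -⟩ := sf_spec hT hu hx
    exact ⟨_, cu_mem hT hu hx c1.1.le c1.2.le, rX_eq hT hu hx, jet_eq hT hR hu hM hI hx,
      sgn hT hu hx⟩

end Pool.Agent.Lib.MP_16d934_gt
end
end

-- part Pool.Agent.Lib.MP_16d934_gt.DLoc
section

/-! Local structure of a doubly symmetric minimal surface along the mirrors. -/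

set_option autoImplicit false

open Set Metric Filter Topology Asymptotics
open scoped ContDiff InnerProductSpace

noncomputable section

namespace Pool.Agent.Lib.MP_16d934_gt

namespace DLoc

open BTouch

/-! ### Reflections -/

theorem rf0_apply (x : E4) : rf0 x = !₂[-x 0, x 1, x 2, x 3] := by
  ext i
  fin_cases i <;> simp [rf0, mkO_apply]

theorem rf1_apply (x : E4) : rf1 x = !₂[x 0, -x 1, x 2, x 3] := by
  ext i
  fin_cases i <;> simp [rf1, mkO_apply]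

theorem sx_apply (x : E4) : sx x = !₂[x 1, x 0, x 2, x 3] := by
  ext i
  fin_cases i <;> simp [sx, mkO_apply]

theorem sx_sx (x : E4) : sx (sx x) = x := by
  ext i
  fin_cases i <;> simp [sx_apply]

theorem sx0 (x : E4) : sx x 0 = x 1 := by simp [sx_apply]

theorem sx1 (x : E4) : sx x 1 = x 0 := by simp [sx_apply]

theorem inner_ee (i : Fin 4) (x : E4) : ⟪ee i, x⟫_ℝ = x i := by
  simp [ee, EuclideanSpace.inner_single_left]

theorem norm_ee (i : Fin 4) : ‖ee i‖ = 1 := by simp [ee]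

/-- `g` is the reflection in the hyperplane orthogonal to `b` -/
def IsRf (g : Iso) (b : E4) : Prop := ∀ x, g x = x - (2 * ⟪b, x⟫_ℝ) • b

theorem isRf0 : IsRf rf0 (ee 0) := fun x => by
  rw [inner_ee, rf0_apply]
  ext i
  fin_cases i <;> simp [ee]
  ring

theorem isRf1 : IsRf rf1 (ee 1) := fun x => by
  rw [inner_ee, rf1_apply]
  ext i
  fin_cases i <;> simp [ee]
  ring

theorem IsRf.frame {g O : Iso} {i : Fin 4} (h : IsRf g (O (ee i))) (w : E4) :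
    g (O w) = O (w - (2 * w i) • ee i) := by
  rw [h, ← cd_eq, cd_apply, map_sub, map_smul]

theorem IsRf.invol {g : Iso} {b : E4} (h : IsRf g b) (hb : ‖b‖ = 1) (x : E4) : g (g x) = x := by
  rw [h, h x, inner_sub_right, inner_smul_right, real_inner_self_eq_norm_sq, hb]
  module

theorem IsRf.image {g : Iso} {b : E4} (h : IsRf g b) (hb : ‖b‖ = 1) {S : Set E4}
    (hg : ∀ x ∈ S, g x ∈ S) : g '' S = S :=
  (image_subset_iff.2 hg).antisymm fun x hx => ⟨g x, hg x hx, h.invol hb x⟩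

theorem gn_r1 (y : P2) (z : ℝ) : gn y z - (2 * gn y z 1) • ee 1 = gn (-y.1, y.2) z := by
  ext i
  fin_cases i <;> simp [gn, ee]
  ring

theorem gn_r2 (y : P2) (z : ℝ) : gn y z - (2 * gn y z 2) • ee 2 = gn (y.1, -y.2) z := by
  ext i
  fin_cases i <;> simp [gn, ee]
  ring

theorem gn_r3 (y : P2) (z : ℝ) : gn y z - (2 * gn y z 3) • ee 3 = gn y (-z) := by
  ext i
  fin_cases i <;> simp [gn, ee]
  ring

/-! ### Charts -/

theorem chart_mono {S : Set E4} {O : Iso} {δ δ' : ℝ} {u : P2 → ℝ} (h : Chart S O δ u)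
    (h0 : 0 < δ') (hle : δ' ≤ δ) : Chart S O δ' u :=
  ⟨h0, ⟨h.sol.1.mono (ball_subset_ball hle), fun y hy => h.sol.2 y (ball_subset_ball hle hy)⟩,
    h.zero, h.dzero, fun U hU => h.rel U (hU.trans (ball_subset_ball hle))⟩

theorem chart_zero {S : Set E4} {O : Iso} {δ : ℝ} {u : P2 → ℝ} (h : Chart S O δ u) :
    gX O u 0 = O (ee 0) := by
  rw [gX, h.zero, gn_zero]

theorem chart_l {S : Set E4} {O : Iso} {δ : ℝ} {u : P2 → ℝ} (h : Chart S O δ u) :
    LChart S O (ball 0 δ) u := ⟨isOpen_ball, h.sol, h.rel⟩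

/-- shrinking a chart to a ball on which an eventual property holds -/
theorem shrink {S : Set E4} {O : Iso} {δ : ℝ} {u : P2 → ℝ} (h : Chart S O δ u) {Q : P2 → Prop}
    (hQ : ∀ᶠ y in 𝓝 (0 : P2), Q y) : ∃ δ', Chart S O δ' u ∧ ∀ y ∈ ball (0 : P2) δ', Q y := by
  obtain ⟨r, hr, hb⟩ := Metric.eventually_nhds_iff_ball.1 hQ
  exact ⟨min r δ, chart_mono h (lt_min hr h.pos) (min_le_right _ _),
    fun y hy => hb y (ball_subset_ball (min_le_left _ _) hy)⟩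

theorem sym_chart (hM : MeqS) {S : Set E4} {O g : Iso} {δ : ℝ} {u : P2 → ℝ} (h : Chart S O δ u)
    (hg : ∀ x ∈ S, g x ∈ S) {σ : P2 → P2} {τ : ℝ → ℝ}
    (e : ∀ y z, g (O (gn y z)) = O (gn (σ y) (τ z))) (hσ : σ 0 = 0) (hτ : τ 0 = 0) :
    ∀ᶠ y in 𝓝 (0 : P2), u (σ y) = τ (u y) := by
  obtain ⟨V, hV, hi⟩ := h.rel _ subset_rfl isOpen_ball
  have h0 := mem_ball_self (x := (0 : P2)) h.pos
  have hm : ∀ y ∈ ball (0 : P2) δ, gX O u y ∈ S ∩ V := fun y hy => hi ▸ mem_image_of_mem _ hy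
  have hc : ContinuousAt (fun y => g (gX O u y)) 0 :=
    g.continuous.continuousAt.comp (hM.ana O u 0 (h.sol.1 0 h0)).1.continuousAt
  have hz : g (gX O u 0) = gX O u 0 := by rw [gX, h.zero, e, hσ, hτ]
  filter_upwards [hc.eventually (hV.mem_nhds (hz.symm ▸ (hm 0 h0).2 : g (gX O u 0) ∈ V)), ball_mem_nhds (0 : P2) h.pos]
    with y h1 h2
  obtain ⟨y', -, hy'⟩ : g (gX O u y) ∈ gX O u '' ball 0 δ := hi ▸ ⟨hg _ (hm y h2).1, h1⟩
  have := gX_inj (v := fun _ => τ (u y)) (y' := σ y) (hy'.trans (e _ _))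
  rw [← this.1, this.2]

theorem flat (hC : ChartS) (hT : TouchS) {S : Set E4} (hS : Sym S) {O : Iso} {δ : ℝ}
    {u : P2 → ℝ} (h : Chart S O δ u) : ¬ u =ᶠ[𝓝 0] 0 := fun hu => by
  obtain ⟨m, -, e⟩ := hC.facts S O _ u (chart_l h) 0 (mem_ball_self h.pos)
  obtain ⟨x, hx, hne⟩ := hS.ngeo (O (ee 3)) fun h0 => by
    have := norm_ee 3
    rw [← O.norm_map, h0] at this
    simp at this
  refine hne (hT.geo S hS.minimal hS.conn.isPreconnected _ ⟨_, m, ?_⟩ x hx)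
  rw [← e, eventually_map]
  filter_upwards [hu] with y hy
  rw [gX, ← cd_eq, cd_apply, hy]
  simp [gn]

theorem nor_two (hC : ChartS) {S : Set E4} (hS : IsMin S) {p n n' : E4} (hp : p ∈ S)
    (hn : IsNor S p n) (hn' : IsNor S p n') : n' = n ∨ n' = -n := by
  rcases ((hC.nor_spec S hS p hp).2 n).1 hn with a | a <;>
    rcases ((hC.nor_spec S hS p hp).2 n').1 hn' with b | b <;> simp [a, b]

theorem nor_fix (hM : MeqS) (hC : ChartS) (hT : TouchS) (hI : InvS) {S : Set E4} (hS : Sym S)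
    {g : Iso} {b p n : E4} (h : IsRf g b) (hb : ‖b‖ = 1) (hg : ∀ x ∈ S, g x ∈ S) (hp : p ∈ S)
    (hbp : ⟪b, p⟫_ℝ = 0) (hn : IsNor S p n) : ⟪b, n⟫_ℝ = 0 := by
  have h1 := hI.nor g S p n hn
  rw [h.image hb hg, h p, hbp, mul_zero, zero_smul, sub_zero] at h1
  rcases nor_two hC hS.minimal hp hn h1 with e | e
  · rw [h n, sub_eq_self, smul_eq_zero] at e
    rcases e with e | e
    · linarith
    · simp [e] at hb
  · exfalso
    rw [h n] at e
    set c := ⟪b, n⟫_ℝ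
    have e1 : n = c • b := by
      have : (2 : ℝ) • n = (2 : ℝ) • c • b := by
        rw [smul_smul, two_smul, ← sub_neg_eq_add, ← e]
        abel
      exact smul_right_injective _ two_ne_zero this
    have e2 : c * c = 1 := by
      have := hn.1
      rw [e1, norm_smul, hb, mul_one, Real.norm_eq_abs] at this
      rw [← abs_mul_abs_self, this, one_mul]
    obtain ⟨O, o0, o3⟩ := (hM.frame p n (hC.unit S hS.minimal p hp) hn.1 hn.2.1).1
    obtain ⟨δ, u, hu⟩ := hC.chart S hS.minimal O (o0 ▸ hp) (o0 ▸ o3 ▸ hn)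
    have hr : IsRf g (O (ee 3)) := fun x => by
      rw [o3, h, e1, inner_smul_left, smul_smul]
      congr 2
      simp only [conj_trivial]
      linear_combination (-2 * ⟪b, x⟫_ℝ) * e2
    refine flat hC hT hS hu ?_
    filter_upwards [sym_chart hM hu hg (σ := id) (τ := fun z => -z)
      (fun y z => by rw [hr.frame, gn_r3, id]) rfl neg_zero] with y hy
    simp only [id] at hy
    simp only [Pi.zero_apply]
    linarith

theorem arcG (hM : MeqS) (hC : ChartS) (hT : TouchS) (hI : InvS) {S : Set E4} (hS : Sym S)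
    {g : Iso} {b p n : E4} (h : IsRf g b) (hb : ‖b‖ = 1) (hg : ∀ x ∈ S, g x ∈ S) (hp : p ∈ S)
    (hbp : ⟪b, p⟫_ℝ = 0) (hn : IsNor S p n) : ∃ (O : Iso) (δ : ℝ) (u : P2 → ℝ),
      O (ee 0) = p ∧ O (ee 2) = b ∧ O (ee 3) = n ∧ Chart S O δ u ∧ Ev2 u δ := by
  obtain ⟨O, o0, o2, o3⟩ := (hM.frame p n (hC.unit S hS.minimal p hp) hn.1 hn.2.1).2 b hb hbp
    (nor_fix hM hC hT hI hS h hb hg hp hbp hn)
  obtain ⟨δ, u, hu⟩ := hC.chart S hS.minimal O (o0 ▸ hp) (o0 ▸ o3 ▸ hn)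
  obtain ⟨δ', h1, h2⟩ := shrink hu (sym_chart hM hu hg (σ := fun y => (y.1, -y.2)) (τ := id)
    (fun y z => by rw [IsRf.frame (o2 ▸ h), gn_r2, id]) (by simp) rfl)
  exact ⟨O, δ', u, o0, o2, o3, h1, h2⟩

theorem corner (hM : MeqS) (hC : ChartS) (hT : TouchS) (hI : InvS) (S : Set E4) (hS : Sym S)
    (p : E4) (hp : p ∈ S) (p0 : p 0 = 0) (p1 : p 1 = 0) (n : E4) (hn : IsNor S p n) :
    ∃ (O : Iso) (δ : ℝ) (u : P2 → ℝ), O (ee 0) = p ∧ O (ee 1) = ee 0 ∧ O (ee 2) = ee 1 ∧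
      O (ee 3) = n ∧ CFr O ∧ Chart S O δ u ∧ Ev1 u δ ∧ Ev2 u δ := by
  have n0 := nor_fix hM hC hT hI hS isRf0 (norm_ee 0) hS.r0 hp (by rw [inner_ee, p0]) hn
  have n1 := nor_fix hM hC hT hI hS isRf1 (norm_ee 1) hS.r1 hp (by rw [inner_ee, p1]) hn
  rw [inner_ee] at n0 n1
  have a := real_inner_self_eq_norm_sq p
  have b := real_inner_self_eq_norm_sq n
  have c := hn.2.1
  rw [hC.unit S hS.minimal p hp] at a
  rw [hn.1] at b
  rw [inner4] at a b c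
  have ho : Orthonormal ℝ ![p, ee 0, ee 1, n] := ortho4 _ fun i j => by
    fin_cases i <;> fin_cases j <;> simp [ee, p0, p1, n0, n1] at a b c ⊢ <;> linarith
  have o0 : mkO _ ho (ee 0) = p := by simp [mkO_apply, ee]
  have o1 : mkO _ ho (ee 1) = ee 0 := by simp [mkO_apply, ee]
  have o2 : mkO _ ho (ee 2) = ee 1 := by simp [mkO_apply, ee]
  have o3 : mkO _ ho (ee 3) = n := by simp [mkO_apply, ee]
  obtain ⟨δ, u, hu⟩ := hC.chart S hS.minimal (mkO _ ho) (o0.symm ▸ hp) (by rwa [o0, o3])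
  obtain ⟨δ', h1, h2⟩ := shrink hu ((sym_chart hM hu hS.r0 (σ := fun y => (-y.1, y.2)) (τ := id)
    (fun y z => by rw [IsRf.frame (o1.symm ▸ isRf0), gn_r1, id]) (by simp) rfl).and
    (sym_chart hM hu hS.r1 (σ := fun y => (y.1, -y.2)) (τ := id)
    (fun y z => by rw [IsRf.frame (o2.symm ▸ isRf1), gn_r2, id]) (by simp) rfl))
  refine ⟨_, δ', u, o0, o1, o2, o3, fun x => ?_, h1, fun y hy => (h2 y hy).1,
    fun y hy => (h2 y hy).2⟩
  simp [aa, mkO_apply, ee, p0, p1, n0, n1]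

/-! ### Exchange of the mirrors, folding -/

theorem mem_sx {S : Set E4} {x : E4} : x ∈ sx '' S ↔ sx x ∈ S :=
  ⟨fun ⟨y, hy, e⟩ => by rwa [← e, sx_sx], fun h => ⟨_, h, sx_sx x⟩⟩

theorem dq_sx (S : Set E4) : Dq (sx '' S) = sx '' Dq S := by
  ext x
  simp only [mem_sx, Dq, mem_ofPred_eq, sx0, sx1]
  tauto

theorem do_sx (S : Set E4) : Do (sx '' S) = sx '' Do S := by
  ext x
  simp only [mem_sx, Do, mem_ofPred_eq, sx0, sx1]
  tauto

theorem bd_sx (S : Set E4) : Bd (sx '' S) = sx '' Bd S := by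
  ext x
  simp only [mem_sx, Bd, mem_ofPred_eq, sx0, sx1]
  tauto

theorem gd_sx (S : Set E4) : Gd (sx '' S) = sx '' Gd S := by
  ext x
  simp only [mem_sx, Gd, mem_ofPred_eq, dq_sx, aa, sx0, sx1, add_comm]

theorem sym_sx (hI : InvS) {S : Set E4} (h : Sym S) : Sym (sx '' S) where
  minimal := hI.min _ _ h.minimal
  cpt := h.cpt.image sx.continuous
  conn := h.conn.image _ sx.continuous.continuousOn
  r0 x hx := by
    have := h.r1 _ (mem_sx.1 hx)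
    rw [mem_sx]
    convert this using 1
    ext i
    fin_cases i <;> simp [sx_apply, rf0_apply, rf1_apply]
  r1 x hx := by
    have := h.r0 _ (mem_sx.1 hx)
    rw [mem_sx]
    convert this using 1
    ext i
    fin_cases i <;> simp [sx_apply, rf0_apply, rf1_apply]
  ngeo v hv := by
    obtain ⟨x, hx, hne⟩ := h.ngeo (sx v) (by simpa using hv)
    exact ⟨sx x, mem_image_of_mem _ hx, by rwa [← sx.inner_map_map, sx_sx]⟩

theorem sym2_sx (hI : InvS) {S : Set E4} (h : Sym2 S) : Sym2 (sx '' S) where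
  toSym := sym_sx hI h.toSym
  planar := by
    obtain ⟨e, h1, h2⟩ := h.planar
    rw [dq_sx]
    exact ⟨e ∘ sx, h1.comp sx.continuous.continuousOn fun _ hx => mem_sx.1 hx,
      h2.comp sx.injective.injOn fun _ hx => mem_sx.1 hx⟩
  punct p hp := by
    rw [bd_sx] at hp ⊢
    have := (h.punct _ (mem_sx.1 hp)).image sx.continuous
    rwa [image_sdiff sx.injective, image_singleton, sx_sx] at this
  bconn := bd_sx S ▸ h.bconn.image sx.continuous
  corner := by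
    obtain ⟨x, hx, h0, h1⟩ := h.corner
    exact ⟨sx x, mem_image_of_mem _ hx, by rw [sx0, h1], by rw [sx1, h0]⟩

theorem jetg (hC : ChartS) (hI : InvS) (g : Iso) (S : Set E4) (hg : Gam g) (hS : IsMin S)
    (p : E4) (hp : p ∈ S) : jet (g p) (nor (g '' S) (g p)) = jet p (nor S p) := by
  have hp' := mem_image_of_mem g hp
  rw [← (hI.gam g hg).2.2 p]
  rcases nor_two hC (hI.min g S hS) hp' (hI.nor g S p _ (hC.nor_spec S hS p hp).1)
    (hC.nor_spec _ (hI.min g S hS) _ hp').1 with e | e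
  · rw [e]
  · rw [e, hI.neg]

theorem fold0 (hC : ChartS) (hI : InvS) {S : Set E4} (hS : Sym S) {x : E4} (hx : x ∈ S) :
    ∃ x' ∈ S, jet x' (nor S x') = jet x (nor S x) ∧
      x' 0 = |x 0| ∧ x' 1 = x 1 ∧ x' 2 = x 2 ∧ x' 3 = x 3 := by
  rcases le_total 0 (x 0) with h | h
  · exact ⟨x, hx, rfl, (abs_of_nonneg h).symm, rfl, rfl, rfl⟩
  · have := jetg hC hI rf0 S hI.gams.2.2.1 hS.minimal x hx
    rw [isRf0.image (norm_ee 0) hS.r0] at this
    refine ⟨rf0 x, hS.r0 x hx, this, ?_⟩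
    simp [rf0_apply, abs_of_nonpos h]

theorem fold1 (hC : ChartS) (hI : InvS) {S : Set E4} (hS : Sym S) {x : E4} (hx : x ∈ S) :
    ∃ x' ∈ S, jet x' (nor S x') = jet x (nor S x) ∧
      x' 0 = x 0 ∧ x' 1 = |x 1| ∧ x' 2 = x 2 ∧ x' 3 = x 3 := by
  rcases le_total 0 (x 1) with h | h
  · exact ⟨x, hx, rfl, rfl, (abs_of_nonneg h).symm, rfl, rfl⟩
  · have := jetg hC hI rf1 S hI.gams.2.2.2.1 hS.minimal x hx
    rw [isRf1.image (norm_ee 1) hS.r1] at this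
    refine ⟨rf1 x, hS.r1 x hx, this, ?_⟩
    simp [rf1_apply, abs_of_nonpos h]

theorem fold (hC : ChartS) (hI : InvS) (S : Set E4) (hS : Sym S) (x : E4) (hx : x ∈ S) :
    ∃ x' ∈ Dq S, jet x' (nor S x') = jet x (nor S x) ∧ x' 0 = |x 0| ∧ x' 1 = |x 1| ∧
      x' 2 = x 2 ∧ x' 3 = x 3 ∧ ∀ p ∈ Dq S, ‖x' - p‖ ≤ ‖x - p‖ := by
  obtain ⟨y, hy, a, a0, a1, a2, a3⟩ := fold0 hC hI hS hx
  obtain ⟨z, hz, b, b0, b1, b2, b3⟩ := fold1 hC hI hS hy
  rw [a0] at b0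
  rw [a1] at b1
  rw [a2] at b2
  rw [a3] at b3
  refine ⟨z, ⟨hz, b0 ▸ abs_nonneg _, b1 ▸ abs_nonneg _⟩, b.trans a, b0, b1, b2, b3,
    fun p hp => ?_⟩
  rw [← sq_le_sq₀ (norm_nonneg _) (norm_nonneg _), EuclideanSpace.real_norm_sq_eq,
    EuclideanSpace.real_norm_sq_eq, Fin.sum_univ_four, Fin.sum_univ_four]
  simp only [PiLp.sub_apply, b0, b1, b2, b3]
  nlinarith [sq_abs (x 0), sq_abs (x 1), mul_nonneg hp.2.1 (sub_nonneg.2 (le_abs_self (x 0))),
    mul_nonneg hp.2.2 (sub_nonneg.2 (le_abs_self (x 1)))]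

/-! ### The quarter in a chart -/

/-- the constant function one -/
def on (_ : P2) : ℝ := 1

/-- near `p` the first two coordinates on `S` have the signs of `a` and `b` in the chart `X` -/
structure Loc (S : Set E4) (p : E4) (X : P2 → E4) (δ : ℝ) (a b : P2 → ℝ) : Prop where
  pos : 0 < δ
  zero : X 0 = p
  cont : ContinuousOn X (ball 0 δ)
  inj : Function.Injective X
  rel : ∀ r ≤ δ, ∃ V, IsOpen V ∧ X '' ball 0 r = S ∩ V
  s0 : ∀ y ∈ ball (0 : P2) δ, ∃ c > 0, X y 0 = c * a y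
  s1 : ∀ y ∈ ball (0 : P2) δ, ∃ c > 0, X y 1 = c * b y

theorem Loc.mem {S : Set E4} {p : E4} {X : P2 → E4} {δ : ℝ} {a b : P2 → ℝ}
    (h : Loc S p X δ a b) {y : P2} (hy : y ∈ ball (0 : P2) δ) : X y ∈ S := by
  obtain ⟨V, -, e⟩ := h.rel δ le_rfl
  exact (e ▸ mem_image_of_mem X hy : X y ∈ S ∩ V).1

theorem Loc.sg {S : Set E4} {p : E4} {X : P2 → E4} {δ : ℝ} {a b : P2 → ℝ}
    (h : Loc S p X δ a b) {y : P2} (hy : y ∈ ball (0 : P2) δ) :
    (X y ∈ Dq S ↔ 0 ≤ a y ∧ 0 ≤ b y) ∧ (X y ∈ Do S ↔ 0 < a y ∧ 0 < b y) ∧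
      (X y ∈ Bd S ↔ 0 ≤ a y ∧ 0 ≤ b y ∧ (a y = 0 ∨ b y = 0)) := by
  obtain ⟨c, hc, e⟩ := h.s0 y hy
  obtain ⟨d, hd, f⟩ := h.s1 y hy
  simp [Dq, Do, Bd, h.mem hy, e, f, hc, hd, hc.ne', hd.ne']

theorem loc_of (hM : MeqS) {S : Set E4} {O : Iso} {δ : ℝ} {u : P2 → ℝ} (h : Chart S O δ u)
    {a b : P2 → ℝ} (h0 : ∀ᶠ y in 𝓝 (0 : P2), ∃ c > 0, gX O u y 0 = c * a y)
    (h1 : ∀ᶠ y in 𝓝 (0 : P2), ∃ c > 0, gX O u y 1 = c * b y) :
    ∃ δ', Loc S (O (ee 0)) (gX O u) δ' a b := by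
  obtain ⟨δ', k, hk⟩ := shrink h (h0.and h1)
  exact ⟨δ', k.pos, chart_zero k,
    fun y hy => (hM.ana O u y (k.sol.1 y hy)).1.continuousAt.continuousWithinAt,
    fun _ _ e => (gX_inj e).1, fun r hr => k.rel _ (ball_subset_ball hr) isOpen_ball,
    fun y hy => (hk y hy).1, fun y hy => (hk y hy).2⟩

theorem ev_on (hM : MeqS) {S : Set E4} {O : Iso} {δ : ℝ} {u : P2 → ℝ} (h : Chart S O δ u)
    {i : Fin 4} (hi : 0 < O (ee 0) i) : ∀ᶠ y in 𝓝 (0 : P2), ∃ c > 0, gX O u y i = c * on y := by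
  have hc : ContinuousAt (fun y => gX O u y i) 0 :=
    (EuclideanSpace.proj (𝕜 := ℝ) i).continuous.continuousAt.comp
      (hM.ana O u 0 (h.sol.1 0 (mem_ball_self h.pos))).1.continuousAt
  filter_upwards [hc.eventually (lt_mem_nhds (chart_zero h ▸ hi : 0 < gX O u 0 i))] with y hy
  exact ⟨_, hy, (mul_one _).symm⟩

theorem ev_fst {O : Iso} (u : P2 → ℝ) {i : Fin 4} (hi : O (ee 1) = ee i) :
    ∀ᶠ y in 𝓝 (0 : P2), ∃ c > 0, gX O u y i = c * y.1 := Eventually.of_forall fun y =>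
  ⟨_, inv_pos.2 (rho_pos y (u y)), by rw [← inner_ee, ← hi, gX, ← cd_eq, cd_apply]; simp [gn]⟩

theorem ev_snd {O : Iso} (u : P2 → ℝ) {i : Fin 4} (hi : O (ee 2) = ee i) :
    ∀ᶠ y in 𝓝 (0 : P2), ∃ c > 0, gX O u y i = c * y.2 := Eventually.of_forall fun y =>
  ⟨_, inv_pos.2 (rho_pos y (u y)), by rw [← inner_ee, ← hi, gX, ← cd_eq, cd_apply]; simp [gn]⟩

theorem model (hM : MeqS) (hC : ChartS) (hT : TouchS) (hI : InvS) {S : Set E4} (hS : Sym S)
    {p : E4} (hp : p ∈ Dq S) : ∃ X δ a b, Loc S p X δ a b ∧ ((a = on ∧ b = on) ∨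
      (a = on ∧ b = Prod.snd) ∨ (a = Prod.snd ∧ b = on) ∨ (a = Prod.fst ∧ b = Prod.snd)) := by
  have hn := (hC.nor_spec S hS.minimal p hp.1).1
  rcases hp.2.1.lt_or_eq with p0 | p0 <;> rcases hp.2.2.lt_or_eq with p1 | p1
  · obtain ⟨O, o0, o3⟩ := (hM.frame p _ (hC.unit S hS.minimal p hp.1) hn.1 hn.2.1).1
    subst o0
    obtain ⟨δ, u, hu⟩ := hC.chart S hS.minimal O hp.1 (o3 ▸ hn)
    obtain ⟨δ', h⟩ := loc_of hM hu (ev_on hM hu p0) (ev_on hM hu p1)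
    exact ⟨_, _, _, _, h, .inl ⟨rfl, rfl⟩⟩
  · obtain ⟨O, δ, u, rfl, o2, -, hu, -⟩ := arcG hM hC hT hI hS isRf1 (norm_ee 1) hS.r1 hp.1
      (by rw [inner_ee, p1]) hn
    obtain ⟨δ', h⟩ := loc_of hM hu (ev_on hM hu p0) (ev_snd u o2)
    exact ⟨_, _, _, _, h, .inr (.inl ⟨rfl, rfl⟩)⟩
  · obtain ⟨O, δ, u, rfl, o2, -, hu, -⟩ := arcG hM hC hT hI hS isRf0 (norm_ee 0) hS.r0 hp.1
      (by rw [inner_ee, p0]) hn
    obtain ⟨δ', h⟩ := loc_of hM hu (ev_snd u o2) (ev_on hM hu p1)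
    exact ⟨_, _, _, _, h, .inr (.inr (.inl ⟨rfl, rfl⟩))⟩
  · obtain ⟨O, δ, u, rfl, o1, o2, -, -, hu, -⟩ := corner hM hC hT hI S hS p hp.1 p0.symm p1.symm
      _ hn
    obtain ⟨δ', h⟩ := loc_of hM hu (ev_fst u o1) (ev_snd u o2)
    exact ⟨_, _, _, _, h, .inr (.inr (.inr ⟨rfl, rfl⟩))⟩

theorem cvx {a : P2 → ℝ} (h : a = on ∨ a = Prod.fst ∨ a = Prod.snd) :
    Convex ℝ {y | 0 < a y} ∧ IsOpen {y | 0 < a y} ∧
      ∀ y, 0 ≤ a y → ∀ t > 0, 0 < a (y + (t, t)) := by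
  rcases h with rfl | rfl | rfl
  · simp [on, convex_univ]
  · exact ⟨convex_halfSpace_gt (LinearMap.fst ℝ ℝ ℝ).isLinear 0,
      isOpen_lt continuous_const continuous_fst, fun y hy t ht => add_pos_of_nonneg_of_pos hy ht⟩
  · exact ⟨convex_halfSpace_gt (LinearMap.snd ℝ ℝ ℝ).isLinear 0,
      isOpen_lt continuous_const continuous_snd, fun y hy t ht => add_pos_of_nonneg_of_pos hy ht⟩

theorem ins {B : Set P2} (hB : Convex ℝ B) (ho : IsOpen B) {y : P2} (hy : y ∈ closure B) :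
    IsPathConnected (insert y B) := by
  obtain ⟨b, hb⟩ := closure_nonempty_iff.1 ⟨y, hy⟩
  refine StarConvex.isPathConnected (a := b) (fun x hx s t hs ht hst => ?_) (.inr hb)
  rcases hs.lt_or_eq with h | rfl
  · refine .inr (interior_subset (hB.combo_interior_closure_mem_interior
      (by rwa [ho.interior_eq]) ?_ h ht hst))
    rcases hx with rfl | hx
    exacts [hy, subset_closure hx]
  · rw [zero_add] at hst
    simpa [hst] using hx

theorem lc (hM : MeqS) (hC : ChartS) (hT : TouchS) (hI : InvS) (S : Set E4) (hS : Sym S) (p : E4)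
    (hp : p ∈ Dq S) (V : Set E4) (hV : V ∈ 𝓝 p) : ∃ W ∈ 𝓝 p, W ⊆ V ∧
      IsPathConnected (Do S ∩ W) ∧ ∀ x ∈ Dq S ∩ W, IsPathConnected (insert x (Do S ∩ W)) := by
  obtain ⟨X, δ, a, b, h, hab⟩ := model hM hC hT hI hS hp
  obtain ⟨a1, a2, a3⟩ := cvx (a := a) (by tauto)
  obtain ⟨b1, b2, b3⟩ := cvx (a := b) (by tauto)
  have h0 := mem_ball_self (x := (0 : P2)) h.pos
  have hc := h.cont.continuousAt (ball_mem_nhds _ h.pos)
  obtain ⟨r, hr, hb⟩ := Metric.eventually_nhds_iff_ball.1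
    ((hc.eventually (h.zero ▸ hV : V ∈ 𝓝 (X 0))).and (ball_mem_nhds (0 : P2) h.pos))
  obtain ⟨V', hV', e⟩ := h.rel (min r δ) (min_le_right _ _)
  set B := ({y | 0 < a y} ∩ {y | 0 < b y}) ∩ ball (0 : P2) (min r δ) with hB
  have sub : ball (0 : P2) (min r δ) ⊆ ball 0 δ := ball_subset_ball (min_le_right _ _)
  have cl : ∀ y ∈ ball (0 : P2) (min r δ), X y ∈ Dq S → y ∈ closure B := fun y hy hq => by
    obtain ⟨k1, k2⟩ := (h.sg (sub hy)).1.1 hq
    refine isOpen_ball.closure_inter ⟨?_, hy⟩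
    have : Tendsto (fun t : ℝ => y + (t, t)) (𝓝[>] 0) (𝓝 y) :=
      (Continuous.tendsto' (by fun_prop) 0 y (by simp)).mono_left nhdsWithin_le_nhds
    refine mem_closure_of_tendsto this ?_
    filter_upwards [self_mem_nhdsWithin] with t ht
    exact ⟨a3 y k1 t ht, b3 y k2 t ht⟩
  have cB : Convex ℝ B := (a1.inter b1).inter (convex_ball _ _)
  have oB : IsOpen B := (a2.inter b2).inter isOpen_ball
  have h0' := mem_ball_self (x := (0 : P2)) (lt_min hr h.pos)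
  have mV : ∀ y ∈ ball (0 : P2) (min r δ), X y ∈ V' ∩ V := fun y hy =>
    ⟨(e ▸ mem_image_of_mem X hy : X y ∈ S ∩ V').2,
      (hb y (ball_subset_ball (min_le_left _ _) hy)).1⟩
  have pre : ∀ x ∈ S, x ∈ V' → ∃ y ∈ ball (0 : P2) (min r δ), X y = x := fun x h1 h2 =>
    (e ▸ ⟨h1, h2⟩ : x ∈ X '' ball 0 (min r δ))
  have eq : Do S ∩ (V' ∩ V) = X '' B := by
    refine Subset.antisymm (fun x hx => ?_) ?_
    · obtain ⟨y, hy, rfl⟩ := pre x hx.1.1 hx.2.1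
      exact ⟨y, ⟨(h.sg (sub hy)).2.1.1 hx.1, hy⟩, rfl⟩
    · rintro _ ⟨y, hy, rfl⟩
      exact ⟨(h.sg (sub hy.2)).2.1.2 hy.1, mV y hy.2⟩
  refine ⟨V' ∩ V, inter_mem (hV'.mem_nhds (h.zero ▸ (mV 0 h0').1)) hV, inter_subset_right, ?_,
    fun x hx => ?_⟩
  · rw [eq]
    exact (cB.isPathConnected (closure_nonempty_iff.1 ⟨0, cl 0 h0' (h.zero.symm ▸ hp)⟩)).image'
      (h.cont.mono (inter_subset_right.trans sub))
  · obtain ⟨y, hy, rfl⟩ := pre x hx.1.1 hx.2.1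
    rw [eq, ← image_insert_eq]
    exact (ins cB oB (cl y hy hx.1)).image'
      (h.cont.mono (insert_subset (sub hy) (inter_subset_right.trans sub)))

theorem curve {S : Set E4} {p : E4} {X : P2 → E4} {δ : ℝ} {a b : P2 → ℝ} (h : Loc S p X δ a b)
    (γ : ℝ → P2) (h0 : γ 0 = 0) (hc : Continuous γ) (hi : Function.Injective γ)
    (hn : ∀ t, ‖γ t‖ = δ / 2 * |t|)
    (hb : ∀ y, (0 ≤ a y ∧ 0 ≤ b y ∧ (a y = 0 ∨ b y = 0)) ↔ y ∈ range γ) :
    ∃ c : ℝ → E4, c 0 = p ∧ ContinuousOn c (Icc (-1) 1) ∧ InjOn c (Icc (-1) 1) ∧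
      MapsTo c (Icc (-1) 1) (Bd S) ∧ c '' Icc (-1) 1 ∈ 𝓝[Bd S] p := by
  have hδ := h.pos
  have m : MapsTo γ (Icc (-1) 1) (ball 0 δ) := fun t ht => by
    rw [mem_ball_zero_iff, hn]
    nlinarith [abs_le.2 ht]
  obtain ⟨V, hV, e⟩ := h.rel (δ / 2) (by linarith)
  refine ⟨X ∘ γ, by simp [h0, h.zero], h.cont.comp hc.continuousOn m, (h.inj.comp hi).injOn,
    fun t ht => (h.sg (m ht)).2.2.2 ((hb _).2 ⟨t, rfl⟩), mem_nhdsWithin.2 ⟨V, hV, ?_, ?_⟩⟩
  · exact h.zero ▸ (e ▸ mem_image_of_mem X (mem_ball_self (half_pos hδ)) : X 0 ∈ S ∩ V).2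
  · intro x hx
    obtain ⟨y, hy, rfl⟩ : x ∈ X '' ball 0 (δ / 2) := e ▸ ⟨hx.2.1, hx.1⟩
    obtain ⟨t, rfl⟩ := (hb y).1 ((h.sg (ball_subset_ball (by linarith) hy)).2.2.1 hx.2)
    rw [mem_ball_zero_iff, hn] at hy
    exact ⟨t, abs_le.1 (by nlinarith), rfl⟩

theorem one (hM : MeqS) (hC : ChartS) (hT : TouchS) (hI : InvS) (S : Set E4) (hS : Sym S) :
    IsCompact (Dq S) ∧ IsCompact (Bd S) ∧ ∀ p ∈ Bd S, ∃ c : ℝ → E4, c 0 = p ∧
      ContinuousOn c (Icc (-1) 1) ∧ InjOn c (Icc (-1) 1) ∧ MapsTo c (Icc (-1) 1) (Bd S) ∧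
      c '' Icc (-1) 1 ∈ 𝓝[Bd S] p := by
  have c0 : Continuous fun x : E4 => x 0 := by fun_prop
  have c1 : Continuous fun x : E4 => x 1 := by fun_prop
  refine ⟨hS.cpt.inter_right ((isClosed_le continuous_const c0).inter
    (isClosed_le continuous_const c1)), hS.cpt.inter_right ((isClosed_le continuous_const c0).inter
    ((isClosed_le continuous_const c1).inter ((isClosed_eq c0 continuous_const).union
      (isClosed_eq c1 continuous_const)))), fun p hp => ?_⟩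
  obtain ⟨X, δ, a, b, h, hab⟩ := model hM hC hT hI hS ⟨hp.1, hp.2.1, hp.2.2.1⟩
  have hδ := half_pos h.pos
  have line : (∀ y, (0 ≤ a y ∧ 0 ≤ b y ∧ (a y = 0 ∨ b y = 0)) ↔ y.2 = 0) → ∃ c : ℝ → E4,
      c 0 = p ∧ ContinuousOn c (Icc (-1) 1) ∧ InjOn c (Icc (-1) 1) ∧
      MapsTo c (Icc (-1) 1) (Bd S) ∧ c '' Icc (-1) 1 ∈ 𝓝[Bd S] p := fun k =>
    curve h (fun t => (δ / 2 * t, 0)) (by simp) (by fun_prop)
      (fun s t e => mul_left_cancel₀ hδ.ne' (congrArg Prod.fst e))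
      (fun t => by simp [abs_of_pos h.pos, mul_nonneg hδ.le (abs_nonneg t)]) fun y => (k y).trans
        ⟨fun e => ⟨y.1 / (δ / 2), Prod.ext (mul_div_cancel₀ _ hδ.ne') e.symm⟩,
          fun ⟨t, e⟩ => e ▸ rfl⟩
  rcases hab with ⟨rfl, rfl⟩ | ⟨rfl, rfl⟩ | ⟨rfl, rfl⟩ | ⟨rfl, rfl⟩
  · simpa [on] using (h.sg (mem_ball_self h.pos)).2.2.1 (h.zero.symm ▸ hp)
  · exact line fun y => by simp +contextual [on, eq_comm]
  · exact line fun y => by simp +contextual [on, eq_comm]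
  · refine curve h (fun t => (δ / 2 * max t 0, δ / 2 * max (-t) 0)) (by simp) (by fun_prop)
      (fun s t e => ?_) (fun t => ?_) fun y => ⟨fun ⟨k1, k2, k3⟩ => ?_, ?_⟩
    · have e1 := mul_left_cancel₀ hδ.ne' (congrArg Prod.fst e)
      have e2 := mul_left_cancel₀ hδ.ne' (congrArg Prod.snd e)
      rw [← max_zero_sub_max_neg_zero_eq_self s, e1, e2, max_zero_sub_max_neg_zero_eq_self]
    · rcases le_total 0 t with k | k <;>
        simp [k, abs_of_pos h.pos, abs_of_nonneg, abs_of_nonpos, mul_nonneg, hδ.le,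
          mul_nonpos_of_nonneg_of_nonpos]
    · rcases k3 with k | k
      · refine ⟨-(y.2 / (δ / 2)), Prod.ext ?_ ?_⟩
        · simp [k, div_nonneg k2 hδ.le]
        · simp only [neg_neg, max_eq_left (div_nonneg k2 hδ.le), mul_div_cancel₀ _ hδ.ne']
      · refine ⟨y.1 / (δ / 2), Prod.ext ?_ ?_⟩
        · simp only [max_eq_left (div_nonneg k1 hδ.le), mul_div_cancel₀ _ hδ.ne']
        · simp [k, div_nonneg k1 hδ.le]
    · rintro ⟨t, rfl⟩
      refine ⟨by positivity, by positivity, ?_⟩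
      rcases le_total 0 t with k | k <;> simp [k]

end DLoc

open DLoc in
theorem locS (hM : MeqS) (hC : ChartS) (hT : TouchS) (hI : InvS) : LocS where
  arc _ hS _ hp p1 _ hn :=
    ⟨inner_ee 1 _ ▸ nor_fix hM hC hT hI hS isRf1 (norm_ee 1) hS.r1 hp (by rw [inner_ee, p1]) hn,
      arcG hM hC hT hI hS isRf1 (norm_ee 1) hS.r1 hp (by rw [inner_ee, p1]) hn⟩
  corner := corner hM hC hT hI
  swap S := ⟨sym_sx hI, sym2_sx hI, fun _ => mem_sx, dq_sx S, do_sx S, bd_sx S, gd_sx S⟩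
  jetg := jetg hC hI
  fold := fold hC hI
  lc := lc hM hC hT hI
  one := one hM hC hT hI
  lead S hS O δ u h := (hT.lead S O δ u h).resolve_left (flat hC hT hS h)

end Pool.Agent.Lib.MP_16d934_gt
end
end
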