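import Pool.Agent.Lib.MP_16d934_gt.DMida

/-! The angle function at boundary points with radial normal. -/

set_option autoImplicit false

open Set Metric Filter Topology
open scoped ContDiff InnerProductSpace NNReal Real

noncomputable section

namespace Pool.Agent.Lib.MP_16d934_gt

namespace DMid

open AReg

theorem ext4 {x y : E4} (h0 : x 0 = y 0) (h1 : x 1 = y 1) (h2 : x 2 = y 2) (h3 : x 3 = y 3) :
    x = y := by
  ext i
  fin_cases i
  exacts [h0, h1, h2, h3]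

theorem norm_sq4 (x : E4) : ‖x‖ ^ 2 = x 0 ^ 2 + x 1 ^ 2 + x 2 ^ 2 + x 3 ^ 2 := by
  rw [← real_inner_self_eq_norm_sq, inner4]
  ring

theorem inner_ee (i : Fin 4) (x : E4) : ⟪ee i, x⟫_ℝ = x i := by
  simp [ee, EuclideanSpace.inner_single_left]

theorem vec_eq (a b c d : ℝ) : !₂[a, b, c, d] = a • ee 0 + b • ee 1 + c • ee 2 + d • ee 3 :=
  ext4 (by simp [ee]) (by simp [ee]) (by simp [ee]) (by simp [ee])

/-! ### One variable restrictions -/

theorem line_der {g : P2 → ℝ} {t : ℝ} (hg : DifferentiableAt ℝ g (t, 0)) :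
    HasDerivAt (fun t => g (t, 0)) (d1 g (t, 0)) t :=
  hg.hasFDerivAt.comp_hasDerivAt t ((hasDerivAt_id t).prodMk (hasDerivAt_const t (0 : ℝ)))

theorem line_tendsto : Tendsto (fun t : ℝ => ((t, 0) : P2)) (𝓝 0) (𝓝 0) :=
  (continuous_id.prodMk continuous_const).tendsto 0

theorem dir_diff {F : Type} [NormedAddCommGroup F] [NormedSpace ℝ F] [CompleteSpace F]
    {X : P2 → F} {y : P2} (hX : AnalyticAt ℝ X y) (v : P2) :
    DifferentiableAt ℝ (fun x => fderiv ℝ X x v) y :=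
  hX.fderiv.differentiableAt.clm_apply (differentiableAt_const v)

theorem line_der2 {g : P2 → ℝ} (hg : AnalyticAt ℝ g 0) :
    deriv (deriv fun t => g (t, 0)) 0 = d1 (d1 g) 0 := by
  have h : deriv (fun t => g (t, 0)) =ᶠ[𝓝 0] fun t => d1 g (t, 0) :=
    (line_tendsto.eventually hg.eventually_analyticAt).mono fun t ht =>
      (line_der ht.differentiableAt).deriv
  rw [h.deriv_eq]
  exact (line_der (g := d1 g) (t := 0) (dir_diff hg _)).deriv

theorem line_max {g : P2 → ℝ} (hg : AnalyticAt ℝ g 0) (h1 : d1 g 0 = 0) (h2 : d1 (d1 g) 0 < 0) :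
    IsLocalMax (fun t => g (t, 0)) 0 :=
  isLocalMax_of_deriv_deriv_neg (by rwa [line_der2 hg])
    ((line_der (t := 0) hg.differentiableAt).deriv.trans h1)
    (line_der (t := 0) hg.differentiableAt).continuousAt

theorem line_min {g : P2 → ℝ} (hg : AnalyticAt ℝ g 0) (h : IsLocalMin (fun t => g (t, 0)) 0) :
    0 ≤ d1 (d1 g) 0 := by
  by_contra h2
  have h3 := line_max hg (h.hasDerivAt_eq_zero (line_der (t := 0) hg.differentiableAt))
    (not_le.1 h2)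
  have h4 : (fun t => g (t, 0)) =ᶠ[𝓝 0] fun _ => g (0, 0) := by
    filter_upwards [h, h3] with t a b using le_antisymm b a
  rw [← line_der2 hg, h4.deriv.deriv_eq] at h2
  simp at h2

theorem mixed_zero {f : P2 → ℝ} (hf : AnalyticAt ℝ f 0)
    (h : ∀ᶠ x : P2 in 𝓝 0, f (x.1, -x.2) = f x) : d1 (d2 f) 0 = 0 := by
  have h1 : (fun t : ℝ => d2 f (t, 0)) =ᶠ[𝓝 0] fun _ => 0 := by
    filter_upwards [line_tendsto.eventually (h.eventually_nhds.and hf.eventually_analyticAt)]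
      with t ht
    have k1 : HasFDerivAt (fun x : P2 => ((x.1, -x.2) : P2))
        ((ContinuousLinearMap.fst ℝ ℝ ℝ).prod (-ContinuousLinearMap.snd ℝ ℝ ℝ)) (t, 0) :=
      hasFDerivAt_fst.prodMk hasFDerivAt_snd.neg
    have k2 : HasFDerivAt f (fderiv ℝ f (t, 0)) (((t, 0) : P2).1, -((t, 0) : P2).2) := by
      simpa using ht.2.differentiableAt.hasFDerivAt
    have k3 := ((k2.comp (t, 0) k1).congr_of_eventuallyEq (EventuallyEq.symm ht.1)).fderiv
    have k4 := DFunLike.congr_fun k3 (0, 1)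
    have k5 : (((0 : ℝ), (-1 : ℝ)) : P2) = -(0, 1) := by simp
    simp only [ContinuousLinearMap.comp_apply, ContinuousLinearMap.prod_apply,
      ContinuousLinearMap.coe_fst', _root_.neg_apply, ContinuousLinearMap.coe_snd', k5,
      map_neg] at k4
    rw [d2]
    linarith
  have h2 := (line_der (g := d2 f) (t := 0) (dir_diff hf _)).deriv
  rw [h1.deriv_eq, deriv_const] at h2
  exact h2.symm

theorem inner_dir (n : E4) {X : P2 → E4} {y : P2} (hX : DifferentiableAt ℝ X y) (v : P2) :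
    fderiv ℝ (fun x => ⟪n, X x⟫_ℝ) y v = ⟪n, fderiv ℝ X y v⟫_ℝ :=
  DFunLike.congr_fun ((innerSL ℝ n).hasFDerivAt.comp y hX.hasFDerivAt).fderiv v

theorem inner_dir2 (n : E4) {X : P2 → E4} {y : P2} (hX : AnalyticAt ℝ X y) (v : P2) :
    fderiv ℝ (fun x => fderiv ℝ (fun x => ⟪n, X x⟫_ℝ) x v) y v =
      ⟪n, fderiv ℝ (fun x => fderiv ℝ X x v) y v⟫_ℝ := by
  have h : (fun x => fderiv ℝ (fun x => ⟪n, X x⟫_ℝ) x v) =ᶠ[𝓝 y] fun x => ⟪n, fderiv ℝ X x v⟫_ℝ :=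
    hX.eventually_analyticAt.mono fun x hx => inner_dir n hx.differentiableAt v
  rw [h.fderiv_eq, inner_dir n (dir_diff hX v)]

theorem height2 {f : P2 → ℝ} (hf : AnalyticAt ℝ f 0) (f0 : fderiv ℝ f 0 = 0) (α β : ℝ) (v : P2) :
    fderiv ℝ (fun x => fderiv ℝ (fun x : P2 => α * (Real.cos (f x) * Real.cos x.2) +
      β * (Real.sin (f x) * Real.cos x.1)) x v) 0 v =
      (β * Real.cos (f 0) - α * Real.sin (f 0)) * fderiv ℝ (fun x => fderiv ℝ f x v) 0 v -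
        α * Real.cos (f 0) * v.2 ^ 2 - β * Real.sin (f 0) * v.1 ^ 2 := by
  have h : (fun x => fderiv ℝ (fun x : P2 => α * (Real.cos (f x) * Real.cos x.2) +
      β * (Real.sin (f x) * Real.cos x.1)) x v) =ᶠ[𝓝 0] fun x =>
      (β * (Real.cos (f x) * Real.cos x.1) - α * (Real.sin (f x) * Real.cos x.2)) * fderiv ℝ f x v -
        α * v.2 * (Real.cos (f x) * Real.sin x.2) - β * v.1 * (Real.sin (f x) * Real.sin x.1) := by
    filter_upwards [hf.eventually_analyticAt] with x hx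
    have k := hx.differentiableAt.hasFDerivAt
    rw [(((k.cos.fun_mul hasFDerivAt_snd.cos).const_mul α).fun_add
      ((k.sin.fun_mul hasFDerivAt_fst.cos).const_mul β)).fderiv]
    simp
    ring
  have k := hf.differentiableAt.hasFDerivAt
  rw [f0] at k
  rw [h.fderiv_eq, ((((((k.cos.fun_mul hasFDerivAt_fst.cos).const_mul β).fun_sub
    ((k.sin.fun_mul hasFDerivAt_snd.cos).const_mul α)).fun_mul (dir_diff hf v).hasFDerivAt).fun_sub
    ((k.cos.fun_mul hasFDerivAt_snd.sin).const_mul (α * v.2))).fun_sub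
    ((k.sin.fun_mul hasFDerivAt_fst.sin).const_mul (β * v.1))).fderiv]
  simp [f0]
  ring

/-! ### Toroidal coordinates -/

/-- radial direction -/
def pr (r φ : ℝ) : E4 := !₂[-Real.sin r, 0, Real.cos r * Real.cos φ, Real.cos r * Real.sin φ]

/-- toroidal chart -/
def Xi (φ : ℝ) (q : P2 × ℝ) : E4 := pol q.2 (φ + q.1.1) (0 + q.1.2)

theorem Xi_eq (φ : ℝ) : Xi φ = fun q => (Real.cos q.2 * Real.cos (0 + q.1.2)) • ee 0 +
    (Real.cos q.2 * Real.sin (0 + q.1.2)) • ee 1 + (Real.sin q.2 * Real.cos (φ + q.1.1)) • ee 2 +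
    (Real.sin q.2 * Real.sin (φ + q.1.1)) • ee 3 := funext fun _ => vec_eq _ _ _ _

theorem Xi_ana (φ : ℝ) (q : P2 × ℝ) : AnalyticAt ℝ (Xi φ) q := by
  have h0 : AnalyticAt ℝ (fun q : P2 × ℝ => q.2) q := analyticAt_snd
  have h1 : AnalyticAt ℝ (fun q : P2 × ℝ => q.1.1) q := analyticAt_fst.comp analyticAt_fst
  have h2 : AnalyticAt ℝ (fun q : P2 × ℝ => q.1.2) q := analyticAt_snd.comp analyticAt_fst
  rw [Xi_eq]
  fun_prop

theorem norm_pol (r φ θ : ℝ) : ‖pol r φ θ‖ = 1 := by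
  refine (sq_eq_sq₀ (norm_nonneg _) zero_le_one).1 ?_
  rw [norm_sq4]
  simp only [pol, Matrix.cons_val]
  linear_combination Real.cos r ^ 2 * Real.sin_sq_add_cos_sq θ +
    Real.sin r ^ 2 * Real.sin_sq_add_cos_sq φ + Real.sin_sq_add_cos_sq r

theorem Xi_der (φ r : ℝ) (q : P2 × ℝ) : fderiv ℝ (Xi φ) (0, r) q =
    !₂[-Real.sin r * q.2, Real.cos r * q.1.2,
      Real.cos r * Real.cos φ * q.2 - Real.sin r * Real.sin φ * q.1.1,
      Real.cos r * Real.sin φ * q.2 + Real.sin r * Real.cos φ * q.1.1] := by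
  have h0 : HasFDerivAt (fun q : P2 × ℝ => q.2) _ (0, r) := hasFDerivAt_snd (𝕜 := ℝ)
  have h1 : HasFDerivAt (fun q : P2 × ℝ => φ + q.1.1) _ (0, r) :=
    (hasFDerivAt_fst (𝕜 := ℝ)).fst.const_add φ
  have h2 : HasFDerivAt (fun q : P2 × ℝ => 0 + q.1.2) _ (0, r) :=
    (hasFDerivAt_fst (𝕜 := ℝ)).snd.const_add 0
  rw [Xi_eq, (((((h0.cos.fun_mul h2.cos).smul_const (ee 0)).fun_add
    ((h0.cos.fun_mul h2.sin).smul_const (ee 1))).fun_add
    ((h0.sin.fun_mul h1.cos).smul_const (ee 2))).fun_add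
    ((h0.sin.fun_mul h1.sin).smul_const (ee 3))).fderiv]
  refine ext4 ?_ ?_ ?_ ?_ <;> simp [ee] <;> ring

theorem inner_pr_der (φ r : ℝ) (q : P2 × ℝ) : ⟪pr r φ, fderiv ℝ (Xi φ) (0, r) q⟫_ℝ = q.2 := by
  rw [Xi_der, inner4]
  simp only [pr, Matrix.cons_val]
  linear_combination q.2 * Real.cos r ^ 2 * Real.sin_sq_add_cos_sq φ +
    q.2 * Real.sin_sq_add_cos_sq r

theorem inner_der (φ r : ℝ) (v w : P2) :
    ⟪fderiv ℝ (Xi φ) (0, r) (v, 0), fderiv ℝ (Xi φ) (0, r) (w, 0)⟫_ℝ =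
      Real.sin r ^ 2 * v.1 * w.1 + Real.cos r ^ 2 * v.2 * w.2 := by
  rw [Xi_der, Xi_der, inner4]
  simp only [Matrix.cons_val]
  linear_combination v.1 * w.1 * Real.sin r ^ 2 * Real.sin_sq_add_cos_sq φ

theorem Xi_inj (φ : ℝ) {r : ℝ} (hs : 0 < Real.sin r) (hc : 0 < Real.cos r) :
    Function.Injective (fderiv ℝ (Xi φ) (0, r)) := by
  refine (injective_iff_map_eq_zero _).2 fun q hq => ?_
  have h1 := inner_pr_der φ r q
  rw [hq, inner_zero_right] at h1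
  obtain ⟨v, t⟩ := q
  obtain rfl : 0 = t := h1
  have h2 := inner_der φ r v v
  rw [hq, inner_zero_right] at h2
  have h5 := (add_eq_zero_iff_of_nonneg (sq_nonneg (Real.sin r * v.1))
    (sq_nonneg (Real.cos r * v.2))).1 (by linear_combination -h2)
  have h3 : v.1 = 0 := by simpa [hs.ne'] using h5.1
  have h4 : v.2 = 0 := by simpa [hc.ne'] using h5.2
  exact Prod.ext (Prod.ext h3 h4) rfl

theorem rX_der (φ : ℝ) {f : P2 → ℝ} (hf : DifferentiableAt ℝ f 0) (v : P2) :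
    fderiv ℝ (rX f φ 0) 0 v = fderiv ℝ (Xi φ) (0, f 0) (v, fderiv ℝ f 0 v) :=
  DFunLike.congr_fun (HasFDerivAt.comp (f := fun x => (x, f x)) (0 : P2)
    (Xi_ana φ (0, f 0)).differentiableAt.hasFDerivAt
    ((hasFDerivAt_id (0 : P2)).prodMk hf.hasFDerivAt)).fderiv v

theorem rX_ana (φ : ℝ) {f : P2 → ℝ} {x : P2} (hf : AnalyticAt ℝ f x) :
    AnalyticAt ℝ (rX f φ 0) x :=
  AnalyticAt.comp (f := fun x => (x, f x)) (Xi_ana φ (x, f x)) (analyticAt_id.prod hf)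

theorem inner_pr_rX (r φ : ℝ) (f : P2 → ℝ) : (fun x => ⟪pr r φ, rX f φ 0 x⟫_ℝ) = fun x =>
    -Real.sin r * (Real.cos (f x) * Real.cos x.2) + Real.cos r * (Real.sin (f x) * Real.cos x.1) := by
  ext x
  rw [inner4]
  simp only [pr, rX, pol, Matrix.cons_val, zero_add, Real.cos_add, Real.sin_add]
  linear_combination Real.cos r * Real.sin (f x) * Real.cos x.1 * Real.sin_sq_add_cos_sq φ

theorem ang_inj {a a' b b' : ℝ} (ha : 0 < a) (ha' : 0 < a') (h : |b - b'| < 2)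
    (h1 : a * Real.cos b = a' * Real.cos b') (h2 : a * Real.sin b = a' * Real.sin b') : b = b' := by
  have h3 : a * a' * Real.sin (b - b') = 0 := by
    rw [Real.sin_sub]
    linear_combination (a' * Real.cos b') * h2 - (a' * Real.sin b') * h1
  have h4 := abs_lt.1 h
  have h5 := Real.two_le_pi
  exact sub_eq_zero.1 ((Real.sin_eq_zero_iff_of_lt_of_lt (by linarith) (by linarith)).1
    ((mul_eq_zero.1 h3).resolve_left (by positivity)))

theorem exists_pol {p : E4} (hp : ‖p‖ = 1) (h0 : 0 < p 0) (h1 : p 1 = 0) (ha : aa p < 1) :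
    ∃ r ∈ Ioo 0 (π / 2), ∃ φ, pol r φ 0 = p := by
  have h2 := norm_sq4 p
  rw [aa, h1] at ha
  have h3 : p 0 < 1 := by nlinarith
  have h4 : Real.sin (Real.arccos (p 0)) = ‖(⟨p 2, p 3⟩ : ℂ)‖ := by
    rw [Real.sin_arccos, Complex.norm_eq_sqrt_sq_add_sq]
    congr 1
    rw [hp, h1] at h2
    linarith
  refine ⟨Real.arccos (p 0), ⟨Real.arccos_pos.2 h3, Real.arccos_lt_pi_div_two.2 h0⟩,
    Complex.arg ⟨p 2, p 3⟩, ext4 ?_ ?_ ?_ ?_⟩ <;> simp only [pol, Matrix.cons_val]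
  · rw [Real.cos_arccos (by linarith) h3.le, Real.cos_zero, mul_one]
  · rw [Real.sin_zero, mul_zero, h1]
  · rw [h4, Complex.norm_mul_cos_arg]
  · rw [h4, Complex.norm_mul_sin_arg]

theorem nor_eq {r φ : ℝ} {n : E4} (hs : 0 < Real.sin r) (hc : 0 < Real.cos r) (h : ‖n‖ = 1)
    (h0 : ⟪n, pol r φ 0⟫_ℝ = 0) (h1 : u12 (pol r φ 0) n = 0) (h2 : u34 (pol r φ 0) n = 0) :
    pr r φ = n ∨ pr r φ = -n := by
  have e := norm_sq4 n
  rw [inner4] at h0
  simp only [pol, u12, u34, Matrix.cons_val, Real.cos_zero, Real.sin_zero, mul_zero, mul_one,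
    zero_mul, sub_zero, add_zero] at h0 h1 h2
  have k1 : n 1 = 0 := (mul_eq_zero.1 h1).resolve_left hc.ne'
  have k2 : Real.cos φ * n 3 - Real.sin φ * n 2 = 0 :=
    (mul_eq_zero.1 (by linear_combination h2)).resolve_left hs.ne'
  have sφ := Real.sin_sq_add_cos_sq φ
  have sr := Real.sin_sq_add_cos_sq r
  obtain ⟨μ, hμ⟩ : ∃ μ, μ = Real.cos φ * n 2 + Real.sin φ * n 3 := ⟨_, rfl⟩
  have k3 : n 2 = μ * Real.cos φ := by
    linear_combination (-Real.cos φ) * hμ - Real.sin φ * k2 - n 2 * sφ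
  have k4 : n 3 = μ * Real.sin φ := by
    linear_combination (-Real.sin φ) * hμ + Real.cos φ * k2 - n 3 * sφ
  have k5 : n 0 * Real.cos r + μ * Real.sin r = 0 := by linear_combination h0 + Real.sin r * hμ
  obtain ⟨l, hl⟩ : ∃ l, l = μ * Real.cos r - n 0 * Real.sin r := ⟨_, rfl⟩
  have k6 : n 0 = -l * Real.sin r := by
    linear_combination Real.sin r * hl + Real.cos r * k5 - n 0 * sr
  have k7 : μ = l * Real.cos r := by
    linear_combination (-Real.cos r) * hl + Real.sin r * k5 - μ * sr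
  have k8 : l ^ 2 = 1 := by
    rw [h, k1, k3, k4, k6, k7] at e
    linear_combination -e - l ^ 2 * Real.cos r ^ 2 * sφ - l ^ 2 * sr
  rcases sq_eq_one_iff.1 k8 with rfl | rfl
  · exact Or.inl (ext4 (by simp [pr, k6]) (by simp [pr, k1]) (by simp [pr, k3, k7])
      (by simp [pr, k4, k7]))
  · exact Or.inr (ext4 (by simp [pr, k6]) (by simp [pr, k1]) (by simp [pr, k3, k7])
      (by simp [pr, k4, k7]))

/-! ### Charts -/

theorem gX_inner (O : Iso) (u : P2 → ℝ) (y : P2) (i : Fin 4) :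
    ⟪O (ee i), gX O u y⟫_ℝ = gn y (u y) i := by
  rw [gX, O.inner_map_map, inner_ee]

theorem chart_facts (hC : ChartS) {S : Set E4} {O : Iso} {δ : ℝ} {u : P2 → ℝ}
    (h : Chart S O δ u) : gX O u 0 = O (ee 0) ∧ IsNor S (O (ee 0)) (O (ee 3)) ∧
      map (gX O u) (𝓝 0) = 𝓝[S] (O (ee 0)) ∧ ∀ y ∈ ball (0 : P2) δ, gX O u y ∈ S := by
  have hL : LChart S O (ball 0 δ) u := ⟨isOpen_ball, h.sol, h.rel⟩
  have e1 : gX O u 0 = O (ee 0) := by
    rw [gX, h.zero]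
    congr 1
    exact ext4 (by simp [gn, ee]) (by simp [gn, ee]) (by simp [gn, ee]) (by simp [gn, ee])
  have e2 : gN O u 0 = O (ee 3) := by
    rw [gN, h.zero, d1, d2, h.dzero]
    congr 1
    exact ext4 (by simp [nrm, ee]) (by simp [nrm, ee]) (by simp [nrm, ee]) (by simp [nrm, ee])
  obtain ⟨-, k1, k2⟩ := hC.facts S O _ u hL 0 (mem_ball_self h.pos)
  rw [e1, e2] at k1
  rw [e1] at k2
  exact ⟨e1, k1, k2, fun y hy => (hC.facts S O _ u hL y hy).1⟩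

theorem ex1 (hC : ChartS) (hL : LocS) {S : Set E4} (hS : Sym S) {p : E4} (hp : p ∈ S)
    (h0 : 0 < p 0) (h1 : p 1 = 0) (hm : IsLocalMaxOn aa (Bd S) p) : u34 p (nor S p) = 0 := by
  obtain ⟨-, O, δ, u, o0, o2, o3, hc, -⟩ := hL.arc S hS p hp h1 _ (hC.nor_spec S hS.minimal p hp).1
  obtain ⟨e1, -, e2, e3⟩ := chart_facts hC hc
  rw [o0] at e1 e2
  have c1 : ∀ t, gX O u (t, 0) 1 = 0 := fun t => by
    rw [← inner_ee, ← o2, gX_inner]
    simp [gn]
  have c0 : ∀ t, gX O u (t, 0) 0 = (√(1 + t ^ 2 + u (t, 0) ^ 2))⁻¹ *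
      (p 0 + t * O (ee 1) 0 + u (t, 0) * O (ee 3) 0) := fun t => by
    rw [gX, gn, vec_eq]
    simp [o0]
    ring
  have t1 : Tendsto (fun t : ℝ => gX O u (t, 0)) (𝓝 0) (𝓝[S] p) :=
    (show Tendsto (gX O u) (𝓝 0) (𝓝[S] p) from e2.le).comp line_tendsto
  have t2 := t1.mono_right nhdsWithin_le_nhds
  have t3 : Tendsto (fun t : ℝ => gX O u (t, 0)) (𝓝 0) (𝓝[Bd S] p) := by
    refine tendsto_nhdsWithin_iff.2 ⟨t2, ?_⟩
    filter_upwards [t1.eventually self_mem_nhdsWithin,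
      (((EuclideanSpace.proj (0 : Fin 4) : E4 →L[ℝ] ℝ).continuous.tendsto p).comp t2).eventually
        (lt_mem_nhds h0)] with t a b
    exact ⟨a, le_of_lt b, (c1 t).ge, Or.inr (c1 t)⟩
  have m1 : IsLocalMax (fun t : ℝ => aa (gX O u (t, 0))) 0 :=
    IsMaxFilter.comp_tendsto (f := aa) (g := fun t : ℝ => gX O u (t, 0)) (b := 0)
      (by rw [show gX O u (0, 0) = p from e1]; exact hm) t3
  have u0 : u (0, 0) = 0 := hc.zero
  have du := line_der (g := u) (t := 0) (hc.sol.1 0 (mem_ball_self hc.pos)).differentiableAt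
  rw [d1, show fderiv ℝ u (0, 0) = 0 from hc.dzero] at du
  have d0 := ((((((hasDerivAt_id (0 : ℝ)).fun_pow 2).const_add 1).fun_add (du.fun_pow 2)).sqrt
    (by simp [u0])).fun_inv (by simp [u0])).fun_mul
    ((((hasDerivAt_id (0 : ℝ)).mul_const (O (ee 1) 0)).const_add (p 0)).fun_add
      (du.mul_const (O (ee 3) 0)))
  have m2 : IsLocalMax (fun t : ℝ => ((√(1 + t ^ 2 + u (t, 0) ^ 2))⁻¹ *
      (p 0 + t * O (ee 1) 0 + u (t, 0) * O (ee 3) 0)) ^ 2) 0 := by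
    simpa only [aa, c0, c1, zero_pow two_ne_zero, add_zero] using m1
  have b0 := m2.hasDerivAt_eq_zero (d0.fun_pow 2)
  simp [u0, h0.ne'] at b0
  have i : ∀ i j, ⟪O (ee i), O (ee j)⟫_ℝ = ee j i := fun i j => by rw [O.inner_map_map, inner_ee]
  have i0 := i 1 0
  have i1 := i 1 1
  have i2 := i 1 2
  have i3 := i 1 3
  rw [o0, inner4] at i0
  rw [inner4] at i1
  rw [o2, inner4] at i2
  rw [o3, inner4] at i3
  simp [ee] at i0 i1 i2 i3
  simp only [ee] at b0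
  rw [b0, i2] at i0 i1 i3
  rw [u34]
  generalize O (EuclideanSpace.single 1 1) = b at i0 i1 i3
  linear_combination (-(p 2 * nor S p 3 - p 3 * nor S p 2)) * i1 +
    (b 2 * nor S p 3 - b 3 * nor S p 2) * i0 + (p 2 * b 3 - p 3 * b 2) * i3

theorem ray_mem {δ s β : ℝ} (hs : s ∈ Ioc 0 δ) (h0 : 0 < β) (h1 : β < π) :
    (s : ℂ) * cis β ∈ Hd δ := by
  refine ⟨?_, ?_⟩
  · rw [norm_mul, cis, Complex.norm_exp_ofReal_mul_I, mul_one, Complex.norm_real,
      Real.norm_of_nonneg hs.1.le]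
    exact hs.2
  · rw [Complex.im_ofReal_mul, cis_im]
    exact mul_nonneg hs.1.le (Real.sin_pos_of_pos_of_lt_pi h0 h1).le

/-- the conclusion about rays -/
def Goal (Λ : J4 → ℝ) (S : Set E4) (p : E4) : Prop :=
  ∃ (κ : ℂ → E4) (δ : ℝ), 0 < δ ∧ ContinuousOn κ (Hd δ) ∧ InjOn κ (Hd δ) ∧
    MapsTo κ (Hd δ) (Gd S) ∧ κ 0 = p ∧ (∀ s ∈ Icc (-δ) δ, κ (s : ℝ) ∈ Bd S) ∧ Rays (RR Λ S) κ δ

theorem rays1 (hD : DerS) (hC : ChartS) (hP : ParamS) (hLd : LeadS) (hI : InvS) (hG : GeoS)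
    {S : Set E4} {Λ : J4 → ℝ} (hS : Sym2 S) (hΛ : Spec3 Λ) (hN : ¬ Coin S) {p : E4}
    (hp : p ∈ Bd S) (h0 : 0 < p 0) (h1 : p 1 = 0) (hu : u34 p (nor S p) = 0) : Goal Λ S p := by
  have hM := hS.minimal
  obtain ⟨-, g1, g2⟩ := hG.bdv S hS p hp (by rw [aa]; positivity)
  obtain ⟨r, hr, φ, rfl⟩ := exists_pol (hC.unit S hM p hp.1) h0 h1 g2
  have hs : 0 < Real.sin r := Real.sin_pos_of_pos_of_lt_pi hr.1 (by linarith [hr.2, Real.pi_pos])
  have hc : 0 < Real.cos r := Real.cos_pos_of_mem_Ioo ⟨by linarith [hr.1, Real.pi_pos], hr.2⟩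
  obtain ⟨n1, n2⟩ := hC.nor_spec S hM _ hp.1
  have n3 := nor_eq hs hc n1.1 n1.2.1 g1 hu
  have x0 : Xi φ (0, r) = pol r φ 0 := by simp [Xi]
  obtain ⟨f, hf, f1, f2⟩ := hP.any S hM (Xi φ) (0, r) (pr r φ) (Xi_ana φ _) (Xi_inj φ hs hc)
    (Eventually.of_forall fun _ => norm_pol _ _ _) (x0 ▸ hp.1) (x0 ▸ (n2 _).2 n3)
    (by rw [inner_pr_der]; exact one_ne_zero)
  simp only at hf f1
  have X0 : rX f φ 0 0 = pol r φ 0 := by simp [rX, f1]
  have tf : Tendsto f (𝓝 0) (𝓝 r) := f1 ▸ hf.continuousAt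
  have inS : ∀ᶠ x in 𝓝 (0 : P2), rX f φ 0 x ∈ S :=
    ((tendsto_id.prodMk_nhds tf).eventually f2).mono fun x hx => hx.2 rfl
  have ev : ∀ᶠ x : P2 in 𝓝 0, f (x.1, -x.2) = f x := by
    have t : Tendsto (fun x : P2 => ((x.1, -x.2) : P2)) (𝓝 0) (𝓝 0) :=
      (continuous_fst.prodMk continuous_snd.neg).tendsto' 0 0 (by simp)
    filter_upwards [inS, (t.prodMk_nhds tf).eventually f2] with x a b
    refine (b.1 ?_).symm
    convert hS.r1 _ a using 1
    refine ext4 ?_ ?_ ?_ ?_ <;> simp [Xi, rX, pol, rf1, mkO_apply]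
  have E : ∀ᶠ x in 𝓝 (0 : P2), AnalyticAt ℝ f x ∧ f x ∈ Ioo 0 (π / 2) ∧ rX f φ 0 x ∈ S ∧
      ‖x‖ < 1 ∧ RR Λ S (rX f φ 0 x) = Λ (rj (f x) (d1 f x) (d2 f x)) := by
    filter_upwards [hf.eventually_analyticAt, tf.eventually (isOpen_Ioo.mem_nhds hr),
      inS.eventually_nhds, ball_mem_nhds (0 : P2) one_pos] with x a b c d
    obtain ⟨k1, k2⟩ := hI.rad f φ 0 x (nor S (rX f φ 0 x)) a.differentiableAt b.1 b.2
    obtain ⟨j1, j2, j3, j4⟩ := ((hP.inS S hM _ x (rX_ana φ a).contDiffAt k1 c).2.2 _).1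
      (hC.nor_spec S hM _ c.self_of_nhds).1
    exact ⟨a, b, c.self_of_nhds, mem_ball_zero_iff.1 d, by rw [RR, k2 j1 j2 j3 j4]⟩
  obtain ⟨me, -, nn⟩ := hP.inS S hM _ 0 (rX_ana φ hf).contDiffAt
    (hI.rad f φ 0 0 0 hf.differentiableAt (f1 ▸ hr.1) (f1 ▸ hr.2)).1 inS
  obtain ⟨-, -, j1, j2⟩ := (nn (pr r φ)).1 (X0 ▸ (n2 _).2 n3)
  have f0 : fderiv ℝ f 0 = 0 := by
    rw [d1, rX_der φ hf.differentiableAt, f1, inner_pr_der] at j1
    rw [d2, rX_der φ hf.differentiableAt, f1, inner_pr_der] at j2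
    refine ContinuousLinearMap.ext fun v => ?_
    rw [clm_apply, show fderiv ℝ f 0 (1, 0) = 0 from j1, show fderiv ℝ f 0 (0, 1) = 0 from j2]
    simp
  have dX : ∀ v w, ⟪fderiv ℝ (rX f φ 0) 0 v, fderiv ℝ (rX f φ 0) 0 w⟫_ℝ =
      Real.sin r ^ 2 * v.1 * w.1 + Real.cos r ^ 2 * v.2 * w.2 := fun v w => by
    rw [rX_der φ hf.differentiableAt, rX_der φ hf.differentiableAt, f0, f1]
    exact inner_der φ r v w
  have sr := Real.sin_sq_add_cos_sq r
  have hh : ∀ v : P2, ⟪pr r φ, fderiv ℝ (fun x => fderiv ℝ (rX f φ 0) x v) 0 v⟫_ℝ =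
      fderiv ℝ (fun x => fderiv ℝ f x v) 0 v +
        Real.sin r * Real.cos r * (v.2 ^ 2 - v.1 ^ 2) := fun v => by
    rw [← inner_dir2 _ (rX_ana φ hf), inner_pr_rX, height2 hf f0, f1]
    linear_combination fderiv ℝ (fun x => fderiv ℝ f x v) 0 v * sr
  have i0 : ⟪pr r φ, rX f φ 0 0⟫_ℝ = 0 := by
    rw [congrFun (inner_pr_rX r φ f) 0, f1]
    simp [mul_comm]
  have hA : Real.sin r * Real.cos r ≤ d1 (d1 f) 0 := by
    obtain ⟨O, δ, u, o0, o2, o3, ch, -, hu⟩ := hG.arc S hS _ hp.1 h1 h0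
    obtain ⟨-, e1, e2, -⟩ := chart_facts hC ch
    rw [o0] at e1 e2
    have o4 : pr r φ = -O (ee 3) := by
      have : pr r φ 0 < 0 := by simpa [pr] using hs
      rcases (n2 _).1 e1 with h | h <;> rcases n3 with h' | h'
      · rw [h, ← h'] at o3; linarith
      · rw [h, h']
      · rw [h, h', neg_neg]
      · rw [h, ← h'] at o3; linarith
    have ua := ch.sol.1 0 (mem_ball_self ch.pos)
    have m1 := line_max ua (by rw [d1, ch.dzero]; rfl) hu
    have m2 : ∀ᶠ y in 𝓝 (0 : P2), y.2 = 0 → u y ≤ 0 := by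
      filter_upwards [(continuous_fst.tendsto (0 : P2)).eventually m1] with y a b
      rw [show y = (y.1, 0) from Prod.ext rfl b]
      exact a.trans_eq ch.zero
    have m3 : ∀ᶠ x in 𝓝[S] pol r φ 0, x 1 = 0 → 0 ≤ ⟪pr r φ, x⟫_ℝ := by
      rw [← e2, eventually_map]
      filter_upwards [m2] with y a b
      rw [← inner_ee, ← o2, gX_inner] at b
      have p : 0 < √(1 + y.1 ^ 2 + y.2 ^ 2 + u y ^ 2) := by positivity
      have b' : y.2 = 0 := by simpa [gn, p.ne'] using b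
      rw [o4, inner_neg_left, gX_inner]
      simpa [gn] using mul_nonpos_of_nonneg_of_nonpos (inv_pos.2 p).le (a b')
    have t : Tendsto (rX f φ 0) (𝓝 0) (𝓝[S] pol r φ 0) :=
      tendsto_nhdsWithin_iff.2 ⟨X0 ▸ (rX_ana φ hf).continuousAt, inS⟩
    have m4 : IsLocalMin (fun t => (fun x => ⟪pr r φ, rX f φ 0 x⟫_ℝ) (t, 0)) 0 := by
      filter_upwards [(t.comp line_tendsto).eventually m3] with t a
      exact i0.trans_le (a (by simp [rX, pol]))
    have m5 := line_min (((innerSL ℝ (pr r φ)).analyticAt _).comp (rX_ana φ hf)) m4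
    have m6 := (inner_dir2 (pr r φ) (rX_ana φ hf) (1, 0)).trans (hh (1, 0))
    have m7 := m5.trans_eq m6
    change 0 ≤ d1 (d1 f) 0 + _ at m7
    simp only at m7
    linarith
  have sc := mul_pos hs hc
  have hB : d2 (d2 f) 0 < 0 := by
    have q := me.self_of_nhds (pr r φ) i0 j1 j2
    have q1 : ⟪pr r φ, d1 (d1 (rX f φ 0)) 0⟫_ℝ = d1 (d1 f) 0 + _ := hh (1, 0)
    have q2 : ⟪pr r φ, d2 (d2 (rX f φ 0)) 0⟫_ℝ = d2 (d2 f) 0 + _ := hh (0, 1)
    have q3 : ⟪d1 (rX f φ 0) 0, d1 (rX f φ 0) 0⟫_ℝ = _ := dX _ _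
    have q4 : ⟪d1 (rX f φ 0) 0, d2 (rX f φ 0) 0⟫_ℝ = _ := dX _ _
    have q5 : ⟪d2 (rX f φ 0) 0, d2 (rX f φ 0) 0⟫_ℝ = _ := dX _ _
    rw [inner_add_right, inner_sub_right, inner_smul_right, inner_smul_right, inner_smul_right,
      q1, q2, ← real_inner_self_eq_norm_sq, ← real_inner_self_eq_norm_sq, q3, q4, q5] at q
    simp only at q
    nlinarith [mul_nonneg (pow_pos hc 2).le (sub_nonneg.2 hA), pow_pos hs 2,
      mul_pos (pow_pos hs 2) sc]
  obtain ⟨ϱ, hϱ, r0, r1, r2, r3, r4, r5, r6, r7⟩ := hΛ r hr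
  rcases hLd (Xi φ) f ϱ 0 (TT (Real.sin r) (Real.cos r)) (Xi_ana φ _) (f1 ▸ Xi_inj φ hs hc)
    (Eventually.of_forall fun _ => norm_pol _ _ _) hf hϱ (f1.trans r0.symm) (f0.trans r1.symm) me
    (r5 φ 0) (fun v => by
      refine (sq_eq_sq₀ (norm_nonneg _) (norm_nonneg _)).1 ?_
      rw [← real_inner_self_eq_norm_sq, Complex.sq_norm, Complex.normSq_apply]
      refine (dX _ _).trans ?_
      rw [TT_apply]
      field_simp) with h | ⟨m, c, hm, hL⟩
  · refine absurd (r7 S φ 0 ?_) hN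
    filter_upwards [h, inS] with x a b
    rwa [rX, ← a]
  obtain ⟨ψ, t1, t2, Φ, ⟨β₁, β₂, β₃, ε, b0, b1, b2, b3, hε, s1, s2, s3⟩, sg⟩ :=
    core_sign hD hf hϱ f0 r1 r2 r3 r4 (sc.trans_le hA) (mixed_zero hf ev) hB hs hc hm hL
  set T := TT (Real.sin r) (Real.cos r) with hT
  have R0 : RR Λ S (rX f φ 0 (T 0)) = Λ (rj r 0 0) := by
    rw [map_zero, E.self_of_nhds.2.2.2.2, f1, d1, d2, f0]
    rfl
  have tT : Tendsto T (𝓝 0) (𝓝 0) := by simpa using T.continuous.tendsto 0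
  have key : ∀ β e, (e = 1 ∨ e = -1) → 0 < e * Φ β → ∀ᶠ s : ℝ in 𝓝[>] 0,
      e * (RR Λ S (rX f φ 0 (T (s * cis β))) - RR Λ S (rX f φ 0 (T 0))) < 0 := fun β e he h => by
    have t : Tendsto (fun s : ℝ => T (s * cis β)) (𝓝[>] 0) (𝓝 0) := by
      simpa only [hT, TT_ray] using ray_tendsto _
    filter_upwards [sg β e h, t.eventually (E.and (t2.and ((t1.prodMk_nhds tf).eventually r6)))]
      with s a ⟨b, c, d⟩
    have c1 : d1 ϱ _ = d1 f _ := congrArg Prod.fst c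
    have c2 : d2 ϱ _ = d2 f _ := congrArg Prod.snd c
    simp only [c1, c2] at d
    rw [R0, b.2.2.2.2]
    rcases he with rfl | rfl
    · linarith [d.1 (by linarith)]
    · linarith [d.2 (by linarith)]
  have hε' : -ε = 1 ∨ -ε = -1 := by rcases hε with rfl | rfl <;> simp
  obtain ⟨δ1, p1, q1⟩ := mem_nhdsGT_iff_exists_Ioc_subset.1 ((key β₁ _ hε' (by linarith)).and
    ((key β₂ _ hε s2).and (key β₃ _ hε' (by linarith))))
  obtain ⟨δ2, p2, q2⟩ := nhds_basis_closedBall.eventually_iff.1 (tT.eventually E)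
  have q3 : ∀ z ∈ Hd (min δ1 δ2), _ := fun z hz =>
    q2 (mem_closedBall_zero_iff.2 (hz.1.trans (min_le_right _ _)))
  have pos : ∀ t ∈ Ioo 0 (π / 2), 0 < Real.sin t ∧ 0 < Real.cos t := fun t ht =>
    ⟨Real.sin_pos_of_pos_of_lt_pi ht.1 (by linarith [ht.2, Real.pi_pos]),
      Real.cos_pos_of_mem_Ioo ⟨by linarith [ht.1, Real.pi_pos], ht.2⟩⟩
  have dq : ∀ z ∈ Hd (min δ1 δ2), rX f φ 0 (T z) ∈ Dq S := fun z hz => by
    obtain ⟨-, a, b, c, -⟩ := q3 z hz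
    have c1 := abs_lt.1 ((abs_snd_le _).trans_lt c)
    have c2 : 0 ≤ (T z).2 := mul_nonneg (inv_pos.2 hc).le hz.2
    have c3 := Real.two_le_pi
    refine ⟨b, ?_, ?_⟩ <;> simp only [rX, pol, Matrix.cons_val, zero_add]
    · exact mul_nonneg (pos _ a).2.le
        (Real.cos_nonneg_of_mem_Icc ⟨by linarith, by linarith⟩)
    · exact mul_nonneg (pos _ a).2.le (Real.sin_nonneg_of_nonneg_of_le_pi c2 (by linarith))
  refine ⟨fun z => rX f φ 0 (T z), min δ1 δ2, lt_min p1 p2, fun z hz => ?_, fun z hz z' hz' h => ?_,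
    fun z hz => ⟨dq z hz, ?_⟩, by simp only [map_zero, X0], fun s hs => ?_,
    β₁, β₂, β₃, ε, b0, b1, b2, b3, hε, fun s hs => ?_⟩
  · exact ((rX_ana φ (q3 z hz).1).continuousAt.comp T.continuous.continuousAt).continuousWithinAt
  · obtain ⟨-, a, -, c, -⟩ := q3 z hz
    obtain ⟨-, a', -, c', -⟩ := q3 z' hz'
    have n := norm_sub_le (T z) (T z')
    have k1 := ang_inj (pos _ a).1 (pos _ a').1 (b := φ + (T z).1) (b' := φ + (T z').1)
      (by rw [add_sub_add_left_eq_sub]; exact (abs_fst_le (T z - T z')).trans_lt (by linarith))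
      (congrArg (fun x : E4 => x 2) h) (congrArg (fun x : E4 => x 3) h)
    have k2 := ang_inj (pos _ a).2 (pos _ a').2 (b := 0 + (T z).2) (b' := 0 + (T z').2)
      (by rw [add_sub_add_left_eq_sub]; exact (abs_snd_le (T z - T z')).trans_lt (by linarith))
      (congrArg (fun x : E4 => x 0) h) (congrArg (fun x : E4 => x 1) h)
    exact Complex.ext (mul_left_cancel₀ (inv_ne_zero hs.ne') (add_left_cancel k1))
      (mul_left_cancel₀ (inv_ne_zero hc.ne') (add_left_cancel k2))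
  · obtain ⟨a1, a2⟩ := pos _ (q3 z hz).2.1
    have : aa (rX f φ 0 (T z)) = Real.cos (f (T z)) ^ 2 := by
      simp only [aa, rX, pol, Matrix.cons_val]
      linear_combination Real.cos (f (T z)) ^ 2 * Real.sin_sq_add_cos_sq (0 + (T z).2)
    rw [this]
    exact ⟨by positivity, by nlinarith [Real.sin_sq_add_cos_sq (f (T z))]⟩
  · obtain ⟨a, b, c⟩ := dq s ⟨by simpa using abs_le.2 hs, by simp⟩
    exact ⟨a, b, c, Or.inr (by simp [rX, pol, hT, TT_apply])⟩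
  · obtain ⟨a, b, c⟩ := q1 ⟨hs.1, hs.2.trans (min_le_left _ _)⟩
    exact ⟨by linarith, b, by linarith⟩

theorem sx_sx (x : E4) : sx (sx x) = x :=
  ext4 (by simp [sx, mkO_apply]) (by simp [sx, mkO_apply]) (by simp [sx, mkO_apply])
    (by simp [sx, mkO_apply])

theorem sx0 (x : E4) : sx x 0 = x 1 := by simp [sx, mkO_apply]
theorem sx1 (x : E4) : sx x 1 = x 0 := by simp [sx, mkO_apply]

theorem bd_cases {S : Set E4} {p : E4} (hp : p ∈ Bd S) (h : 0 < aa p) :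
    (0 < p 0 ∧ p 1 = 0) ∨ (0 < sx p 0 ∧ sx p 1 = 0) := by
  rw [sx0, sx1]
  rw [aa] at h
  rcases hp.2.2.2 with h0 | h0
  · exact Or.inr ⟨hp.2.2.1.lt_of_ne fun e => by simp [h0, ← e] at h, h0⟩
  · exact Or.inl ⟨hp.2.1.lt_of_ne fun e => by simp [h0, ← e] at h, h0⟩

theorem sx_mem {A : Set E4} {x : E4} (h : x ∈ sx '' A) : sx x ∈ A := by
  obtain ⟨y, hy, rfl⟩ := h
  rwa [sx_sx]

end DMid

open DMid in
theorem midS (hD : DerS) (hC : ChartS) (hP : ParamS) (hLd : LeadS) (hI : InvS) (hL : LocS)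
    (hG : GeoS) : MidS := by
  have gs := hI.gams.2.1
  have ju : ∀ S, Sym2 S → ∀ p ∈ S, |u34 (sx p) (nor (sx '' S) (sx p))| = |u34 p (nor S p)| :=
    fun S hS p hp => congrArg (fun j : J4 => j.2.2.2) (hL.jetg sx S gs hS.minimal p hp)
  constructor
  · intro S Λ hS hΛ hN p hp ha hu
    rcases bd_cases hp ha with h | h
    · exact rays1 hD hC hP hLd hI hG hS hΛ hN hp h.1 h.2 hu
    obtain ⟨-, w1, w2, -, -, w3, w4⟩ := hL.swap S
    obtain ⟨κ, δ, k0, k1, k2, k3, k4, k5, β₁, β₂, β₃, ε, b0, b1, b2, b3, hε, k6⟩ :=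
      rays1 hD hC hP hLd hI hG (w1 hS) hΛ (fun ⟨l, hl, g, hg, V, v1, v2, v3, v4⟩ => hN
        ⟨l, hl, g.trans sx, (hI.gam g hg).2.1 sx gs, V, v1, v2, v3, fun y hy => (w2 _).1 (v4 y hy)⟩)
        (p := sx p) (w3 ▸ mem_image_of_mem _ hp) h.1 h.2
        (abs_eq_zero.1 ((ju S hS p hp.1).trans (abs_eq_zero.2 hu)))
    have e : ∀ z ∈ Hd δ, RR Λ S (sx (κ z)) = RR Λ (sx '' S) (κ z) := fun z hz => by
      have := hL.jetg sx S gs hS.minimal (sx (κ z)) (sx_mem (k3 hz).1.1)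
      rw [RR, RR, ← this, sx_sx]
    refine ⟨fun z => sx (κ z), δ, k0, sx.continuous.comp_continuousOn k1,
      sx.injective.comp_injOn k2, fun z hz => sx_mem (w4 ▸ k3 hz), by simp only [k4, sx_sx],
      fun s hs => sx_mem (w3 ▸ k5 s hs), β₁, β₂, β₃, ε, b0, b1, b2, b3, hε, fun s hs => ?_⟩
    simp only [e 0 ⟨by simpa using k0.le, le_rfl⟩, e _ (ray_mem hs b0 (by linarith)),
      e _ (ray_mem hs (b0.trans b1) (by linarith)), e _ (ray_mem hs (by linarith) b3)]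
    exact k6 s hs
  · intro S hS p hp ha hm
    rcases bd_cases hp ha with h | h
    · exact ex1 hC hL hS.toSym hp.1 h.1 h.2 hm
    obtain ⟨w1, -, -, -, -, w3, -⟩ := hL.swap S
    refine abs_eq_zero.1 ((ju S hS p hp.1).symm.trans (abs_eq_zero.2
      (ex1 hC hL (w1 hS.toSym) (mem_image_of_mem _ hp.1) h.1 h.2 ?_)))
    have t : Tendsto sx (𝓝[Bd (sx '' S)] sx p) (𝓝[Bd S] p) := by
      refine tendsto_nhdsWithin_iff.2 ⟨?_, eventually_mem_nhdsWithin.mono fun x hx =>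
        sx_mem (w3 ▸ hx)⟩
      have := sx.continuous.tendsto (sx p)
      rw [sx_sx] at this
      exact this.mono_left nhdsWithin_le_nhds
    filter_upwards [t.eventually hm] with x hx
    rwa [gs, ← gs p] at hx

end Pool.Agent.Lib.MP_16d934_gt
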