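import Pool.Agent.Lib.MP_16d934_gt.StC
import Pool.Agent.Shared.Planar.Drawing

-- part Pool.Agent.Lib.MP_16d934_gt.ENeu
section

/-! Von Neumann's lemma: saddle graphs over the rhombus are Lipschitz. -/

set_option autoImplicit false

open Set Metric Filter Topology
open scoped Real unitInterval

noncomputable section

namespace Pool.Agent.Lib.MP_16d934_gt

namespace ENeu

open Pool.Agent.Shared.Planar

/-- two paths with the same ends that avoid a path from `0` to the outside turn equally around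
the origin -/
theorem same_incr {γ γ' β L L' : I → ℂ} (hγ : Continuous γ) (hγ' : Continuous γ')
    (hβ : Continuous β) (hL : Continuous L) (hL' : Continuous L') (e0 : γ 0 = γ' 0)
    (e1 : γ 1 = γ' 1) (b0 : β 0 = 0) (h : ∀ s r, γ s ≠ β r) (h' : ∀ s r, γ' s ≠ β r)
    (k : ∀ s, β 1 - γ s ∈ Complex.slitPlane) (k' : ∀ s, β 1 - γ' s ∈ Complex.slitPlane)
    (l : ∀ s, Complex.exp (L s) = γ s) (l' : ∀ s, Complex.exp (L' s) = γ' s) :
    L 1 - L 0 = L' 1 - L' 0 := by
  obtain ⟨H, hH⟩ := lift_two ⟨fun s => γ s.1 - β s.2, by fun_prop⟩ fun s => sub_ne_zero.2 (h _ _)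
  obtain ⟨H', hH'⟩ := lift_two ⟨fun s => γ' s.1 - β s.2, by fun_prop⟩
    fun s => sub_ne_zero.2 (h' _ _)
  simp only [ContinuousMap.coe_mk] at hH hH'
  have a1 := lift_uniq L (fun s => H (s, 0)) hL (by fun_prop) 1 fun s => by
    rw [l, hH, b0]; ring
  have a2 := lift_uniq L' (fun s => H' (s, 0)) hL' (by fun_prop) 1 fun s => by
    rw [l', hH', b0]; ring
  have a3 := lift_uniq (fun s => H (s, 1)) (fun s => Complex.log (β 1 - γ s)) (by fun_prop)
    (Continuous.clog (by fun_prop) k) (-1) fun s => by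
      rw [hH, Complex.exp_log (Complex.slitPlane_ne_zero (k s))]; ring
  have a4 := lift_uniq (fun s => H' (s, 1)) (fun s => Complex.log (β 1 - γ' s)) (by fun_prop)
    (Continuous.clog (by fun_prop) k') (-1) fun s => by
      rw [hH', Complex.exp_log (Complex.slitPlane_ne_zero (k' s))]; ring
  have a5 := lift_uniq (fun r => H (0, r)) (fun r => H' (0, r)) (by fun_prop) (by fun_prop) 1
    fun r => by rw [hH, hH', e0, one_mul]
  have a6 := lift_uniq (fun r => H (1, r)) (fun r => H' (1, r)) (by fun_prop) (by fun_prop) 1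
    fun r => by rw [hH, hH', e1, one_mul]
  simp only [e0, e1] at a3
  linear_combination a1 - a2 + a3 - a4 + a5 - a6

theorem exists_big {F G : I → ℝ} (hF : Continuous F) (hG : Continuous G) (h0 : ∀ s, 0 ≤ G s)
    (h : ∀ s, G s = 0 → 0 < F s) : ∃ T : ℝ, ∀ s, 0 < F s + T * G s := by
  obtain ⟨n, hn⟩ := isCompact_univ.elim_directed_cover (fun n : ℕ => {s | 0 < F s + n * G s})
    (fun n => isOpen_lt continuous_const (by fun_prop)) (fun s _ => by
      rcases (h0 s).eq_or_lt with e | e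
      · exact mem_iUnion.2 ⟨0, by simpa using h s e.symm⟩
      · obtain ⟨n, hn⟩ := exists_nat_gt (-F s / G s)
        rw [div_lt_iff₀ e] at hn
        exact mem_iUnion.2 ⟨n, show 0 < F s + n * G s by linarith⟩)
    (Monotone.directed_le fun m n hmn s (hs : 0 < F s + m * G s) => by
      have : (m : ℝ) * G s ≤ n * G s := mul_le_mul_of_nonneg_right (Nat.cast_le.2 hmn) (h0 s)
      exact show 0 < F s + n * G s by linarith)
  exact ⟨n, fun s => hn (mem_univ s)⟩

/-- paths from `1` to `-α` on which `F - t im` is positive, turning in the direction `τ` -/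
def Tur (R : Set ℂ) (F : ℂ → ℝ) (α τ t : ℝ) : Prop :=
  ∃ γ L : I → ℂ, Continuous γ ∧ Continuous L ∧ γ 0 = 1 ∧ γ 1 = -α ∧ (∀ s, γ s ∈ R) ∧
    (∀ s, 0 < F (γ s) - t * (γ s).im) ∧ (∀ s, Complex.exp (L s) = γ s) ∧ 0 < τ * (L 1 - L 0).im

theorem tur_open {R : Set ℂ} {F : ℂ → ℝ} (hF : ContinuousOn F R) (α τ : ℝ) :
    IsOpen {t | Tur R F α τ t} := by
  refine isOpen_iff_mem_nhds.2 ?_
  rintro t ⟨γ, L, h1, h2, h3, h4, h5, h6, h7, h8⟩
  have h9 : Continuous fun s => F (γ s) := hF.comp_continuous h1 h5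
  have : ∀ᶠ t' in 𝓝 t, ∀ s ∈ (univ : Set I), 0 < F (γ s) - t' * (γ s).im :=
    isCompact_univ.eventually_forall_of_forall_eventually fun s _ =>
      (isOpen_lt continuous_const (show Continuous fun q : ℝ × I => F (γ q.2) - q.1 * (γ q.2).im from
        (h9.comp continuous_snd).sub (by fun_prop))).mem_nhds (h6 s)
  filter_upwards [this] with t' ht'
  exact ⟨γ, L, h1, h2, h3, h4, h5, fun s => ht' s (mem_univ s), h7, h8⟩

theorem tur_ne {R : Set ℂ} (hR : Convex ℝ R) {F : ℂ → ℝ} (hF : ContinuousOn F R) {α δ τ : ℝ}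
    (hα : 0 < α) (hδ : 0 < δ) (hτ : τ = 1 ∨ τ = -1) (m1 : (1 : ℂ) ∈ R) (m2 : (-α : ℂ) ∈ R)
    (m3 : (τ * δ : ℂ) * Complex.I ∈ R) (f1 : 0 < F 1) (f2 : 0 < F (-α)) : ∃ t, Tur R F α τ t := by
  have s2 : τ * τ = 1 := by rcases hτ with rfl | rfl <;> norm_num
  have s2' : (τ : ℂ) * τ = 1 := by exact_mod_cast s2
  let γ : I → ℂ := fun s => ((1 - s : ℝ) ^ 2 - (s : ℝ) ^ 2 * α : ℝ) +
    (2 * s * (1 - s) * (τ * δ) : ℝ) * Complex.I
  have hγ : Continuous γ := by fun_prop
  have g0 : γ 0 = 1 := by simp [γ]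
  have g1 : γ 1 = -α := by simp [γ]
  have gim : ∀ s, τ * (γ s).im = 2 * s * (1 - s) * δ := fun s => by
    simp only [γ, Complex.add_im, Complex.ofReal_im, Complex.mul_im, Complex.ofReal_re,
      Complex.I_im, Complex.I_re]
    linear_combination (2 * s * (1 - s) * δ : ℝ) * s2
  have gm : ∀ s, γ s ∈ R := fun s => by
    have a0 := s.2.1
    have a1 := sub_nonneg.2 s.2.2
    have := hR (hR m1 m3 a1 a0 (by ring)) (hR m3 m2 a1 a0 (by ring)) a1 a0 (by ring)
    convert this using 1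
    simp only [γ, Complex.real_smul]
    push_cast
    ring
  have gz : ∀ s, τ * (γ s).im = 0 → γ s = 1 ∨ γ s = -α := fun s hs => by
    rw [gim] at hs
    rcases mul_eq_zero.1 ((mul_eq_zero.1 hs).resolve_right hδ.ne') with h | h
    · rw [show s = 0 from Subtype.ext (by simpa using h)]; exact Or.inl g0
    · rw [show s = 1 from Subtype.ext (by simpa using (sub_eq_zero.1 h).symm)]; exact Or.inr g1
  have g2 : ∀ s, 0 ≤ τ * (γ s).im := fun s => by
    rw [gim]
    have a0 := s.2.1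
    have a1 := sub_nonneg.2 s.2.2
    positivity
  obtain ⟨T, hT⟩ := exists_big (F := fun s => F (γ s)) (G := fun s => τ * (γ s).im)
    (hF.comp_continuous hγ gm) (by fun_prop) g2 fun s hs => by
      rcases gz s hs with h | h <;> simp only [h, f1, f2]
  have sl : ∀ s, -τ * Complex.I * γ s ∈ Complex.slitPlane := fun s => by
    rw [Complex.mem_slitPlane_iff]
    rcases (g2 s).eq_or_lt with h | h
    · right
      rcases gz s h.symm with h | h <;> rcases hτ with rfl | rfl <;> simp [h, hα.ne']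
    · left
      simpa using h
  refine ⟨-(T * τ), γ, fun s => Complex.log (-τ * Complex.I * γ s) + Complex.log (τ * Complex.I),
    hγ, (Continuous.clog (by fun_prop) sl).add continuous_const, g0, g1, gm,
    fun s => by linarith [hT s], fun s => ?_, ?_⟩
  · rw [Complex.exp_add, Complex.exp_log (Complex.slitPlane_ne_zero (sl s)), Complex.exp_log (by
      rcases hτ with rfl | rfl <;> simp)]
    linear_combination (γ s) * s2' - (τ * τ * γ s) * Complex.I_mul_I
  · beta_reduce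
    rw [g0, g1, add_sub_add_right_eq_sub, Complex.sub_im, Complex.log_im, Complex.log_im]
    have a1 : ((α : ℂ) * Complex.I).arg = π / 2 := by
      rw [Complex.arg_real_mul _ hα, Complex.arg_I]
    have a2 : (-((α : ℂ) * Complex.I)).arg = -(π / 2) := by
      rw [← mul_neg, Complex.arg_real_mul _ hα, Complex.arg_neg_I]
    rcases hτ with rfl | rfl
    · simp [mul_comm Complex.I, a1, Complex.arg_neg_I, Real.pi_pos]
    · simp [mul_comm Complex.I, a2, Complex.arg_I]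
      linarith [Real.pi_pos]

/-- the pencil argument -/
theorem core {R : Set ℂ} (hR : Convex ℝ R) {F : ℂ → ℝ} (hF : ContinuousOn F R) {α β δ : ℝ}
    (hα : 0 < α) (hδ : 0 < δ) (m3 : (δ : ℂ) * Complex.I ∈ R) (m4 : -(δ : ℂ) * Complex.I ∈ R)
    (hβ : ∀ s : ℝ, β < s → (s : ℂ) ∉ R)
    (h : ∀ t : ℝ, JoinedIn (R ∩ {w | 0 < F w - t * w.im}) 1 (-α) ∧
      JoinedIn (R ∩ {w | F w - t * w.im < 0}) 0 β) : False := by
  have m1 := (h 0).1.source_mem
  have m2 := (h 0).1.target_mem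
  have f1 : 0 < F 1 := by simpa using m1.2
  have f2 : 0 < F (-α) := by simpa using m2.2
  have dis : ∀ t, Tur R F α 1 t → Tur R F α (-1) t → False := by
    rintro t ⟨γ, L, h1, h2, h3, h4, h5, h6, h7, h8⟩ ⟨γ', L', k1, k2, k3, k4, k5, k6, k7, k8⟩
    obtain ⟨b, hb⟩ := (h t).2
    have ne : ∀ w, 0 < F w - t * w.im → ∀ r, w ≠ b r := fun w hw r e => by
      have := (hb r).2
      rw [← e] at this
      exact lt_asymm hw this
    have sl : ∀ w ∈ R, 0 < F w - t * w.im → b 1 - w ∈ Complex.slitPlane := fun w hw hw' => by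
      have a1 := ne w hw' 1
      rw [b.target] at a1 ⊢
      by_contra hc
      rw [Complex.mem_slitPlane_iff] at hc
      push Not at hc
      simp only [Complex.sub_re, Complex.ofReal_re, Complex.sub_im, Complex.ofReal_im, zero_sub,
        neg_eq_zero] at hc
      have a2 : w = (w.re : ℂ) := Complex.ext rfl (by simp [hc.2])
      rcases (sub_nonpos.1 hc.1).eq_or_lt with e | e
      · exact a1 (by rw [a2, e])
      · exact hβ _ e (a2 ▸ hw)
    have := same_incr h1 k1 b.continuous h2 k2 (h3.trans k3.symm) (h4.trans k4.symm) b.source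
      (fun s => ne _ (h6 s)) (fun s => ne _ (k6 s)) (fun s => sl _ (h5 s) (h6 s))
      (fun s => sl _ (k5 s) (k6 s)) h7 k7
    rw [this] at h8
    linarith
  have cov : ∀ t, Tur R F α 1 t ∨ Tur R F α (-1) t := by
    intro t
    obtain ⟨γ, hγ⟩ := (h t).1
    obtain ⟨L, hL⟩ := lift_one γ.toContinuousMap fun s e => by
      have a1 : 0 < F (γ s) - t * (γ s).im := (hγ s).2
      have a2 : F 0 - t * (0 : ℂ).im < 0 := (h t).2.source_mem.2
      rw [show γ s = 0 from e] at a1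
      exact lt_asymm a1 a2
    have ne : (L 1 - L 0).im ≠ 0 := fun e => by
      have a1 : Complex.exp (L 1 - L 0) = -α := by
        rw [Complex.exp_sub, hL, hL]; simp
      have a2 := congrArg Complex.re a1
      rw [Complex.exp_re, e, Real.cos_zero, mul_one] at a2
      simp only [Complex.neg_re, Complex.ofReal_re] at a2
      linarith [Real.exp_pos (L 1 - L 0).re]
    rcases lt_or_gt_of_ne ne with e | e
    · exact Or.inr ⟨γ, L, γ.continuous, L.continuous, γ.source, γ.target, fun s => (hγ s).1,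
        fun s => (hγ s).2, hL, by linarith⟩
    · exact Or.inl ⟨γ, L, γ.continuous, L.continuous, γ.source, γ.target, fun s => (hγ s).1,
        fun s => (hγ s).2, hL, by linarith⟩
  obtain ⟨t1, h1⟩ := tur_ne hR hF hα hδ (Or.inl rfl) m1.1 m2.1 (by simpa using m3) f1 f2
  obtain ⟨t2, h2⟩ := tur_ne hR hF hα hδ (Or.inr rfl) m1.1 m2.1 (by simpa using m4) f1 f2
  obtain ⟨t, -, h3, h4⟩ := isPreconnected_univ (α := ℝ) _ _ (tur_open hF α 1) (tur_open hF α (-1))
    (fun t _ => cov t) ⟨t1, trivial, h1⟩ ⟨t2, trivial, h2⟩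
  exact dis t h3 h4

/-! ### The rhombus -/

variable {a b : ℝ} {u : P2 → ℝ}

theorem bd_iff {y : P2} : y ∈ Rh a b \ Rho a b ↔ |y.1| / a + |y.2| / b = 1 :=
  ⟨fun h => le_antisymm h.1 (not_lt.1 h.2), fun h => ⟨h.le, not_lt.2 h.ge⟩⟩

theorem convex_Rh (ha : 0 < a) (hb : 0 < b) : Convex ℝ (Rh a b) := by
  intro x hx y hy s t hs ht hst
  have h1 : |s * x.1 + t * y.1| ≤ s * |x.1| + t * |y.1| :=
    (abs_add_le _ _).trans_eq (by rw [abs_mul, abs_mul, abs_of_nonneg hs, abs_of_nonneg ht])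
  have h2 : |s * x.2 + t * y.2| ≤ s * |x.2| + t * |y.2| :=
    (abs_add_le _ _).trans_eq (by rw [abs_mul, abs_mul, abs_of_nonneg hs, abs_of_nonneg ht])
  have h3 := div_le_div_of_nonneg_right h1 ha.le
  have h4 := div_le_div_of_nonneg_right h2 hb.le
  have h5 := mul_le_mul_of_nonneg_left (show |x.1| / a + |x.2| / b ≤ 1 from hx) hs
  have h6 := mul_le_mul_of_nonneg_left (show |y.1| / a + |y.2| / b ≤ 1 from hy) ht
  change |s * x.1 + t * y.1| / a + |s * x.2 + t * y.2| / b ≤ 1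
  have e1 : (s * |x.1| + t * |y.1|) / a + (s * |x.2| + t * |y.2|) / b =
      s * (|x.1| / a + |x.2| / b) + t * (|y.1| / a + |y.2| / b) := by ring
  linarith

theorem exists_sign (x : ℝ) : ∃ e : ℝ, (e = 1 ∨ e = -1) ∧ e * x = |x| := by
  rcases le_total 0 x with h | h
  · exact ⟨1, Or.inl rfl, by rw [abs_of_nonneg h, one_mul]⟩
  · exact ⟨-1, Or.inr rfl, by rw [abs_of_nonpos h]; ring⟩

theorem sign_le {e : ℝ} (he : e = 1 ∨ e = -1) (x : ℝ) : e * x ≤ |x| := by
  rcases he with rfl | rfl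
  · rw [one_mul]; exact le_abs_self x
  · rw [neg_one_mul]; exact neg_le_abs x

theorem bounds (ha : 0 < a) (hb : 0 < b) (h0 : ∀ y ∈ Rh a b \ Rho a b, u y = lo a y)
    (hS : Saddle a b u) : ∀ y ∈ Rh a b, lo a y ≤ u y ∧ u y ≤ up b y := by
  intro y hy
  constructor
  · by_contra hc
    obtain ⟨e, he, h1⟩ := exists_sign y.1
    obtain ⟨y', h2, h3⟩ := hS (-1) (2 * e / a, 0) (-1) (Or.inr rfl) y hy (by
      have : 2 * e / a * y.1 = 2 * |y.1| / a := by rw [← h1]; ring
      simp only [dot, lo, this] at hc ⊢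
      linarith)
    have h4 : 0 < -1 * (u y' - -1 - dot (2 * e / a, 0) y') := h3.target_mem.2
    have h5 := div_le_div_of_nonneg_right (sign_le he y'.1) ha.le
    have h6 : 2 * e / a * y'.1 = 2 * (e * y'.1 / a) := by ring
    rw [h0 y' h2] at h4
    simp only [dot, lo, h6, mul_div_assoc 2 |y'.1|] at h4
    linarith
  · by_contra hc
    obtain ⟨e, he, h1⟩ := exists_sign y.2
    obtain ⟨y', h2, h3⟩ := hS 1 (0, -(2 * e / b)) 1 (Or.inl rfl) y hy (by
      have : 2 * e / b * y.2 = 2 * |y.2| / b := by rw [← h1]; ring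
      simp only [dot, up, neg_mul, this] at hc ⊢
      linarith)
    have h4 : 0 < 1 * (u y' - 1 - dot (0, -(2 * e / b)) y') := h3.target_mem.2
    have h5 := div_le_div_of_nonneg_right (sign_le he y'.2) hb.le
    have h6 : 2 * e / b * y'.2 = 2 * (e * y'.2 / b) := by ring
    have h7 := bd_iff.1 h2
    rw [h0 y' h2] at h4
    simp only [dot, lo, neg_mul, h6, mul_div_assoc 2 |y'.1|] at h4
    linarith

theorem lip_bd (ha : 0 < a) (hb : 0 < b) (h0 : ∀ y ∈ Rh a b \ Rho a b, u y = lo a y)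
    (hS : Saddle a b u) {x y : P2} (hx : x ∈ Rh a b) (hy : y ∈ Rh a b \ Rho a b) :
    |u x - u y| ≤ (2 / a + 2 / b) * ‖x - y‖ := by
  obtain ⟨h1, h2⟩ := bounds ha hb h0 hS x hx
  have h3 := bd_iff.1 hy
  have h4 : |y.1| - |x.1| ≤ ‖x - y‖ := by
    have := abs_sub_abs_le_abs_sub y.1 x.1
    rw [abs_sub_comm] at this
    exact this.trans (norm_fst_le (x - y))
  have h5 : |y.2| - |x.2| ≤ ‖x - y‖ := by
    have := abs_sub_abs_le_abs_sub y.2 x.2
    rw [abs_sub_comm] at this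
    exact this.trans (norm_snd_le (x - y))
  have h6 := div_le_div_of_nonneg_right h4 ha.le
  have h7 := div_le_div_of_nonneg_right h5 hb.le
  have h8 : 0 ≤ ‖x - y‖ / a := by positivity
  have h9 : 0 ≤ ‖x - y‖ / b := by positivity
  have e : (2 / a + 2 / b) * ‖x - y‖ = 2 * (‖x - y‖ / a) + 2 * (‖x - y‖ / b) := by ring
  rw [h0 y hy, e, abs_le]
  simp only [lo, up, mul_div_assoc, sub_div] at h1 h2 h6 h7 ⊢
  constructor <;> linarith

/-- the set on one side of a plane -/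
def Sd (a b : ℝ) (u : P2 → ℝ) (c : ℝ) (p : P2) (ε : ℝ) : Set P2 :=
  Rh a b ∩ {x | 0 < ε * (u x - c - dot p x)}

theorem edge (h0 : ∀ y ∈ Rh a b \ Rho a b, u y = lo a y) {c : ℝ} {p : P2}
    {ε e1 e2 : ℝ} (h1 : e1 = 1 ∨ e1 = -1) (h2 : e2 = 1 ∨ e2 = -1) {x y : P2}
    (x1 : e1 * x.1 = |x.1|) (x2 : e2 * x.2 = |x.2|) (y1 : e1 * y.1 = |y.1|) (y2 : e2 * y.2 = |y.2|)
    (hx : x ∈ Rh a b \ Rho a b) (hy : y ∈ Rh a b \ Rho a b) (hx' : x ∈ Sd a b u c p ε)
    (hy' : y ∈ Sd a b u c p ε) : JoinedIn (Sd a b u c p ε) x y := by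
  refine JoinedIn.of_segment_subset ?_
  rintro _ ⟨s, t, hs, ht, hst, rfl⟩
  have k : ∀ {e v w : ℝ}, (e = 1 ∨ e = -1) → e * v = |v| → e * w = |w| →
      |s * v + t * w| = s * |v| + t * |w| := fun {e v w} he hv hw => by
    have a1 : |e| = 1 := by rcases he with rfl | rfl <;> simp
    have a2 : s * |v| + t * |w| = e * (s * v + t * w) := by rw [← hv, ← hw]; ring
    have a3 : 0 ≤ s * |v| + t * |w| := by positivity
    rw [← abs_of_nonneg a3, a2, abs_mul, a1, one_mul]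
  have k1 : |(s • x + t • y).1| = s * |x.1| + t * |y.1| := k h1 x1 y1
  have k2 : |(s • x + t • y).2| = s * |x.2| + t * |y.2| := k h2 x2 y2
  have m : s • x + t • y ∈ Rh a b \ Rho a b := by
    rw [bd_iff, k1, k2]
    linear_combination s * bd_iff.1 hx + t * bd_iff.1 hy + hst
  refine ⟨m.1, ?_⟩
  have a1 : 0 < ε * (u x - c - dot p x) := hx'.2
  have a2 : 0 < ε * (u y - c - dot p y) := hy'.2
  have a3 : ε * (u (s • x + t • y) - c - dot p (s • x + t • y)) =
      s * (ε * (u x - c - dot p x)) + t * (ε * (u y - c - dot p y)) := by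
    rw [h0 _ m, h0 _ hx, h0 _ hy, lo, k1]
    simp only [lo, dot, Prod.fst_add, Prod.snd_add, Prod.smul_fst, Prod.smul_snd, smul_eq_mul]
    linear_combination ε * (1 + c) * hst
  change 0 < ε * (u (s • x + t • y) - c - dot p (s • x + t • y))
  rw [a3]
  rcases hs.eq_or_lt with e | e
  · have : t = 1 := by linarith
    rw [← e, this]; linarith
  · have := mul_pos e a1
    have := mul_nonneg ht a2.le
    linarith

theorem vx1 (ha : 0 < a) {e : ℝ} (he : e = 1 ∨ e = -1) :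
    ((e * a, 0) : P2) ∈ Rh a b \ Rho a b ∧ e * (e * a) = |e * a| ∧ lo a (e * a, 0) = 1 := by
  have : |e * a| = a := by rcases he with rfl | rfl <;> simp [abs_of_pos ha]
  refine ⟨bd_iff.2 (by simp [this, ha.ne']), ?_, ?_⟩
  · rw [this]; rcases he with rfl | rfl <;> ring
  · simp only [lo, this]; field_simp; norm_num

theorem vx2 (hb : 0 < b) {e : ℝ} (he : e = 1 ∨ e = -1) :
    ((0, e * b) : P2) ∈ Rh a b \ Rho a b ∧ e * (e * b) = |e * b| ∧ lo a (0, e * b) = -1 := by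
  have : |e * b| = b := by rcases he with rfl | rfl <;> simp [abs_of_pos hb]
  refine ⟨bd_iff.2 (by simp [this, hb.ne']), ?_, by simp [lo]⟩
  rw [this]; rcases he with rfl | rfl <;> ring

theorem to_vertex (ha : 0 < a) (hb : 0 < b) (h0 : ∀ y ∈ Rh a b \ Rho a b, u y = lo a y) {c : ℝ}
    {p : P2} {ε : ℝ} {x : P2} (hx : x ∈ Rh a b \ Rho a b) (hx' : x ∈ Sd a b u c p ε) :
    ∃ e : ℝ, (e = 1 ∨ e = -1) ∧
      (JoinedIn (Sd a b u c p ε) x (e * a, 0) ∨ JoinedIn (Sd a b u c p ε) x (0, e * b)) := by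
  obtain ⟨e1, h1, x1⟩ := exists_sign x.1
  obtain ⟨e2, h2, x2⟩ := exists_sign x.2
  obtain ⟨v1, v2, v3⟩ := vx1 (b := b) ha h1
  obtain ⟨w1, w2, w3⟩ := vx2 (a := a) hb h2
  by_cases c1 : ((e1 * a, 0) : P2) ∈ Sd a b u c p ε
  · exact ⟨e1, h1, Or.inl (edge h0 h1 h2 x1 x2 v2 (by simp) hx v1 hx' c1)⟩
  by_cases c2 : ((0, e2 * b) : P2) ∈ Sd a b u c p ε
  · exact ⟨e2, h2, Or.inr (edge h0 h1 h2 x1 x2 (by simp) w2 hx w1 hx' c2)⟩
  exfalso
  have a1 : ε * (u (e1 * a, 0) - c - dot p (e1 * a, 0)) ≤ 0 := not_lt.1 fun h => c1 ⟨v1.1, h⟩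
  have a2 : ε * (u (0, e2 * b) - c - dot p (0, e2 * b)) ≤ 0 := not_lt.1 fun h => c2 ⟨w1.1, h⟩
  have a3 : 0 < ε * (u x - c - dot p x) := hx'.2
  have s1 : e1 * e1 = 1 := by rcases h1 with rfl | rfl <;> norm_num
  have s2 : e2 * e2 = 1 := by rcases h2 with rfl | rfl <;> norm_num
  have a4 : ε * (u x - c - dot p x) = |x.1| / a * (ε * (u (e1 * a, 0) - c - dot p (e1 * a, 0))) +
      |x.2| / b * (ε * (u (0, e2 * b) - c - dot p (0, e2 * b))) := by
    have a5 := bd_iff.1 hx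
    have a6 : |x.1| / a * (e1 * a) = x.1 := by
      rw [← x1]; field_simp; linear_combination x.1 * s1
    have a7 : |x.2| / b * (e2 * b) = x.2 := by
      rw [← x2]; field_simp; linear_combination x.2 * s2
    rw [h0 _ hx, h0 _ v1, h0 _ w1, v3, w3]
    simp only [lo, dot, mul_div_assoc]
    linear_combination ε * (1 + c) * a5 + ε * p.1 * a6 + ε * p.2 * a7
  have a5 := mul_nonpos_of_nonneg_of_nonpos (div_nonneg (abs_nonneg x.1) ha.le) a1
  have a6 := mul_nonpos_of_nonneg_of_nonpos (div_nonneg (abs_nonneg x.2) hb.le) a2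
  linarith

theorem steep (ha : 0 < a) (hb : 0 < b) {p : P2} (hp : 2 / a + 2 / b < |p.1| + |p.2|) :
    2 < a * |p.1| + b * |p.2| := by
  by_contra hc
  have h1 : 0 ≤ a * |p.1| := by positivity
  have h2 : 0 ≤ b * |p.2| := by positivity
  have h3 : |p.1| ≤ 2 / a := by rw [le_div_iff₀ ha]; linarith
  have h4 : |p.2| ≤ 2 / b := by rw [le_div_iff₀ hb]; linarith
  linarith

theorem bd_joined (ha : 0 < a) (hb : 0 < b) (h0 : ∀ y ∈ Rh a b \ Rho a b, u y = lo a y) {c : ℝ}
    {p : P2} {ε : ℝ} (hε : ε = 1 ∨ ε = -1) (hp : 2 / a + 2 / b < |p.1| + |p.2|) {x y : P2}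
    (hx : x ∈ Rh a b \ Rho a b) (hy : y ∈ Rh a b \ Rho a b) (hx' : x ∈ Sd a b u c p ε)
    (hy' : y ∈ Sd a b u c p ε) : JoinedIn (Sd a b u c p ε) x y := by
  have adj : ∀ {e1 e2 : ℝ}, (e1 = 1 ∨ e1 = -1) → (e2 = 1 ∨ e2 = -1) →
      ((e1 * a, 0) : P2) ∈ Sd a b u c p ε → ((0, e2 * b) : P2) ∈ Sd a b u c p ε →
      JoinedIn (Sd a b u c p ε) (e1 * a, 0) (0, e2 * b) := fun h1 h2 c1 c2 =>
    edge h0 h1 h2 (vx1 (b := b) ha h1).2.1 (by simp) (by simp) (vx2 (a := a) hb h2).2.1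
      (vx1 ha h1).1 (vx2 hb h2).1 c1 c2
  have m1 : ∀ {e : ℝ}, (e = 1 ∨ e = -1) →
      (((e * a, 0) : P2) ∈ Sd a b u c p ε ↔ 0 < ε * (1 - c - e * (a * p.1))) := fun {e} he => by
    have : u (e * a, 0) - c - dot p (e * a, 0) = 1 - c - e * (a * p.1) := by
      rw [h0 _ (vx1 ha he).1, (vx1 (b := b) ha he).2.2, dot]; ring
    rw [← this]
    exact and_iff_right (vx1 ha he).1.1
  have m2 : ∀ {e : ℝ}, (e = 1 ∨ e = -1) →
      (((0, e * b) : P2) ∈ Sd a b u c p ε ↔ 0 < ε * (-1 - c - e * (b * p.2))) := fun {e} he => by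
    have : u (0, e * b) - c - dot p (0, e * b) = -1 - c - e * (b * p.2) := by
      rw [h0 _ (vx2 hb he).1, (vx2 (a := a) hb he).2.2, dot]; ring
    rw [← this]
    exact and_iff_right (vx2 hb he).1.1
  have st := steep ha hb hp
  rw [← abs_of_pos ha, ← abs_mul, ← abs_of_pos hb, ← abs_mul] at st
  have p1 : (1 : ℝ) = 1 ∨ (1 : ℝ) = -1 := Or.inl rfl
  have p2 : (-1 : ℝ) = 1 ∨ (-1 : ℝ) = -1 := Or.inr rfl
  obtain ⟨e, he, h1⟩ := to_vertex ha hb h0 hx hx'
  obtain ⟨e', he', h2⟩ := to_vertex ha hb h0 hy hy'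
  rcases h1 with h1 | h1 <;> rcases h2 with h2 | h2
  · refine h1.trans (JoinedIn.trans ?_ h2.symm)
    by_cases e0 : e = e'
    · rw [e0]; exact JoinedIn.refl h2.target_mem
    by_cases c1 : ((0, 1 * b) : P2) ∈ Sd a b u c p ε
    · exact (adj he p1 h1.target_mem c1).trans (adj he' p1 h2.target_mem c1).symm
    by_cases c2 : ((0, -1 * b) : P2) ∈ Sd a b u c p ε
    · exact (adj he p2 h1.target_mem c2).trans (adj he' p2 h2.target_mem c2).symm
    exfalso
    have a1 := (m1 he).1 h1.target_mem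
    have a2 := (m1 he').1 h2.target_mem
    rw [m2 p1] at c1
    rw [m2 p2] at c2
    rcases abs_cases (a * p.1) with k1 | k1 <;> rcases abs_cases (b * p.2) with k2 | k2 <;>
      rcases he with rfl | rfl <;> rcases he' with rfl | rfl <;> rcases hε with rfl | rfl <;>
      first | exact e0 rfl | linarith [k1.1, k2.1]
  · exact h1.trans ((adj he he' h1.target_mem h2.target_mem).trans h2.symm)
  · exact h1.trans ((adj he' he h2.target_mem h1.target_mem).symm.trans h2.symm)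
  · refine h1.trans (JoinedIn.trans ?_ h2.symm)
    by_cases e0 : e = e'
    · rw [e0]; exact JoinedIn.refl h2.target_mem
    by_cases c1 : ((1 * a, 0) : P2) ∈ Sd a b u c p ε
    · exact (adj p1 he c1 h1.target_mem).symm.trans (adj p1 he' c1 h2.target_mem)
    by_cases c2 : ((-1 * a, 0) : P2) ∈ Sd a b u c p ε
    · exact (adj p2 he c2 h1.target_mem).symm.trans (adj p2 he' c2 h2.target_mem)
    exfalso
    have a1 := (m2 he).1 h1.target_mem
    have a2 := (m2 he').1 h2.target_mem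
    rw [m1 p1] at c1
    rw [m1 p2] at c2
    rcases abs_cases (a * p.1) with k1 | k1 <;> rcases abs_cases (b * p.2) with k2 | k2 <;>
      rcases he with rfl | rfl <;> rcases he' with rfl | rfl <;> rcases hε with rfl | rfl <;>
      first | exact e0 rfl | linarith [k1.1, k2.1]

theorem joined (ha : 0 < a) (hb : 0 < b) (h0 : ∀ y ∈ Rh a b \ Rho a b, u y = lo a y)
    (hS : Saddle a b u) {c : ℝ} {p : P2} {ε : ℝ} (hε : ε = 1 ∨ ε = -1)
    (hp : 2 / a + 2 / b < |p.1| + |p.2|) {x y : P2} (hy : y ∈ Rh a b \ Rho a b)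
    (hx' : x ∈ Sd a b u c p ε) (hy' : y ∈ Sd a b u c p ε) : JoinedIn (Sd a b u c p ε) x y := by
  obtain ⟨z, hz, h⟩ := hS c p ε hε x hx'.1 hx'.2
  exact JoinedIn.trans h (bd_joined ha hb h0 hε hp hz hy h.target_mem hy')

theorem norm_le (ha : 0 < a) (hb : 0 < b) {y : P2} (hy : y ∈ Rh a b) : ‖y‖ ≤ a + b := by
  have h : |y.1| / a + |y.2| / b ≤ 1 := hy
  have h1 : 0 ≤ |y.1| / a := by positivity
  have h2 : 0 ≤ |y.2| / b := by positivity
  have h3 : |y.1| ≤ a := by rw [← div_le_one ha]; linarith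
  have h4 : |y.2| ≤ b := by rw [← div_le_one hb]; linarith
  exact max_le (h3.trans (by linarith)) (h4.trans (by linarith))

theorem sub_Rh {y : P2} (h : y ∈ Rho a b) : y ∈ Rh a b :=
  le_of_lt (show |y.1| / a + |y.2| / b < 1 from h)

theorem isOpen_Rho : IsOpen (Rho a b) := isOpen_lt (by fun_prop) continuous_const

theorem isClosed_Rh : IsClosed (Rh a b) := isClosed_le (by fun_prop) continuous_const

/-- the end of a chord -/
theorem chord (ha : 0 < a) (hb : 0 < b) {x v : P2} (hx : x ∈ Rho a b) (hv : v ≠ 0) :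
    ∃ β : ℝ, 0 < β ∧ x + β • v ∈ Rh a b \ Rho a b ∧ ∀ s, β < s → x + s • v ∉ Rh a b := by
  have hv' : 0 < ‖v‖ := norm_pos_iff.2 hv
  have hx' : x ∈ Rh a b := sub_Rh hx
  have c : Continuous fun s : ℝ => x + s • v := by fun_prop
  have bd : BddAbove {s : ℝ | x + s • v ∈ Rh a b} := by
    refine ⟨2 * (a + b) / ‖v‖, fun s hs => ?_⟩
    have h1 := norm_sub_le (x + s • v) x
    rw [add_sub_cancel_left, norm_smul] at h1
    have h2 := norm_le ha hb hs
    have h3 := norm_le ha hb hx'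
    have h4 := mul_le_mul_of_nonneg_right (le_abs_self s) hv'.le
    rw [le_div_iff₀ hv']
    rw [Real.norm_eq_abs] at h1
    linarith
  have m := (isClosed_Rh.preimage c).csSup_mem ⟨0, by simpa using hx'⟩ bd
  have up : ∀ s ≤ sSup {s : ℝ | x + s • v ∈ Rh a b}, x + s • v ∈ Rho a b →
      s < sSup {s : ℝ | x + s • v ∈ Rh a b} := fun s _ hs => by
    obtain ⟨t, h1, h2⟩ := ((Filter.Eventually.filter_mono (nhdsWithin_le_nhds (s := Ioi s))
      ((isOpen_Rho.preimage c).mem_nhds hs)).and self_mem_nhdsWithin).exists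
    exact lt_of_lt_of_le h2 (le_csSup bd (sub_Rh h1))
  refine ⟨_, up 0 (le_csSup bd (by simpa using hx')) (by simpa using hx), ⟨m, fun h => ?_⟩,
    fun s hs h => ?_⟩
  · exact lt_irrefl _ (up _ le_rfl h)
  · exact not_le.2 hs (le_csSup bd h)

theorem lip_int (ha : 0 < a) (hb : 0 < b) (hu : ContinuousOn u (Rh a b))
    (h0 : ∀ y ∈ Rh a b \ Rho a b, u y = lo a y) (hS : Saddle a b u) {x y : P2} (hx : x ∈ Rho a b)
    (hy : y ∈ Rho a b) : u y - u x ≤ (2 / a + 2 / b) * ‖y - x‖ := by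
  by_contra hc
  push Not at hc
  have hx' : x ∈ Rh a b := sub_Rh hx
  have hy' : y ∈ Rh a b := sub_Rh hy
  obtain ⟨v, rfl⟩ : ∃ v, y = x + v := ⟨y - x, by abel⟩
  rw [add_sub_cancel_left] at hc
  have hv : v ≠ 0 := by rintro rfl; simp at hc
  have hv' : 0 < ‖v‖ := norm_pos_iff.2 hv
  obtain ⟨α, a1, a2, -⟩ := chord ha hb hx (neg_ne_zero.2 hv)
  obtain ⟨β, b1, b2, b3⟩ := chord ha hb hy hv
  have a3 := lip_bd ha hb h0 hS hx' a2
  have b4 := lip_bd ha hb h0 hS hy' b2
  rw [sub_add_cancel_left, norm_neg, norm_smul, norm_neg, Real.norm_eq_abs, abs_of_pos a1,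
    abs_le] at a3
  rw [sub_add_cancel_left, norm_neg, norm_smul, Real.norm_eq_abs, abs_of_pos b1, abs_le] at b4
  set K := 2 / a + 2 / b with hK
  obtain ⟨η, e1, e2, e3⟩ : ∃ η : ℝ, 0 < η ∧ η * (1 + 2 * α) < α * (u (x + v) - u x - K * ‖v‖) ∧
      η * (1 + 2 * β) < β * (u (x + v) - u x - K * ‖v‖) := by
    have t : ∀ γ : ℝ, 0 < γ → ∀ᶠ η : ℝ in 𝓝[>] 0,
        η * (1 + 2 * γ) < γ * (u (x + v) - u x - K * ‖v‖) := fun γ hγ =>
      Filter.Eventually.filter_mono nhdsWithin_le_nhds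
        ((isOpen_lt (by fun_prop) continuous_const).mem_nhds
          (show 0 * (1 + 2 * γ) < _ by rw [zero_mul]; exact mul_pos hγ (by linarith)))
    exact (Filter.Eventually.and (self_mem_nhdsWithin (s := Ioi (0 : ℝ)))
      ((t α a1).and (t β b1))).exists
  set m := u (x + v) - u x - 2 * η with hm
  have e4 : K * ‖v‖ < m := by nlinarith
  have n0 : 0 < v.1 ^ 2 + v.2 ^ 2 := by
    by_contra h
    exact hv (Prod.ext (by simp only [Prod.fst_zero]; nlinarith [sq_nonneg v.1, sq_nonneg v.2])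
      (by simp only [Prod.snd_zero]; nlinarith [sq_nonneg v.1, sq_nonneg v.2]))
  set n := v.1 ^ 2 + v.2 ^ 2 with hn
  let Y : ℂ → P2 := fun w => x + w.re • v + w.im • (-v.2, v.1)
  let Z : P2 → ℂ := fun y => (dot v (y - x) / n : ℝ) + (dot (-v.2, v.1) (y - x) / n : ℝ) * Complex.I
  have cY : Continuous Y := by fun_prop
  have cZ : Continuous Z := by simp only [Z, dot]; fun_prop
  have zre : ∀ y, (Z y).re = dot v (y - x) / n := fun y => by
    simp only [Z, Complex.add_re, Complex.ofReal_re, Complex.mul_re, Complex.I_re, Complex.ofReal_im,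
      Complex.I_im]
    ring
  have zim : ∀ y, (Z y).im = dot (-v.2, v.1) (y - x) / n := fun y => by
    simp only [Z, Complex.add_im, Complex.ofReal_re, Complex.mul_im, Complex.I_re, Complex.ofReal_im,
      Complex.I_im]
    ring
  have YZ : ∀ y, Y (Z y) = y := fun y => by
    ext <;> simp only [Y, zre, zim, dot, Prod.fst_add, Prod.snd_add, Prod.smul_fst, Prod.smul_snd,
      smul_eq_mul, Prod.fst_sub, Prod.snd_sub] <;> field_simp <;> rw [hn] <;> ring
  have Zs : ∀ s : ℝ, Z (x + s • v) = s := fun s => by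
    apply Complex.ext
    · simp only [zre, dot, add_sub_cancel_left, Prod.smul_fst, Prod.smul_snd, smul_eq_mul,
        Complex.ofReal_re]
      field_simp
      rw [hn]
    · simp only [zim, dot, add_sub_cancel_left, Prod.smul_fst, Prod.smul_snd, smul_eq_mul,
        Complex.ofReal_im]
      field_simp
      ring
  have cv : Convex ℝ (Y ⁻¹' Rh a b) := fun w hw w' hw' s t hs ht hst => by
    have := convex_Rh ha hb hw hw' hs ht hst
    have e : Y (s • w + t • w') = s • Y w + t • Y w' := by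
      obtain rfl : t = 1 - s := by linarith
      ext <;> simp [Y] <;> ring
    rw [mem_preimage, e]
    exact this
  obtain ⟨δ, d1, d2, d3⟩ : ∃ δ : ℝ, 0 < δ ∧ Y (δ * Complex.I) ∈ Rho a b ∧
      Y (-δ * Complex.I) ∈ Rho a b := by
    have t1 : ∀ᶠ δ : ℝ in 𝓝 0, Y (δ * Complex.I) ∈ Rho a b :=
      (isOpen_Rho.preimage (show Continuous fun δ : ℝ => Y (δ * Complex.I) by fun_prop)).mem_nhds
        (by simpa [Y, Prod.mk_zero_zero] using hx)
    have t2 : ∀ᶠ δ : ℝ in 𝓝 0, Y (-δ * Complex.I) ∈ Rho a b :=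
      (isOpen_Rho.preimage (show Continuous fun δ : ℝ => Y (-δ * Complex.I) by fun_prop)).mem_nhds
        (by simpa [Y, Prod.mk_zero_zero] using hx)
    exact (Filter.Eventually.and (self_mem_nhdsWithin (s := Ioi (0 : ℝ)))
      ((t1.and t2).filter_mono nhdsWithin_le_nhds)).exists
  refine core cv (F := fun w => u (Y w) - (u x + η) - m * w.re)
    (((hu.comp cY.continuousOn fun _ h => h).sub continuousOn_const).sub (by fun_prop))
    (α := α) (β := 1 + β) a1 d1 (sub_Rh d2) (sub_Rh d3)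
    (fun s hs h => b3 (s - 1) (by linarith) ?_) fun t => ?_
  · have : x + v + (s - 1) • v = Y s := by ext <;> simp [Y] <;> ring
    rw [this]
    exact h
  let p : P2 := (m / n) • v + (t / n) • (-v.2, v.1)
  have hp : K < |p.1| + |p.2| := by
    have h1 : p.1 * v.1 + p.2 * v.2 = m := by
      simp only [p, Prod.fst_add, Prod.snd_add, Prod.smul_fst, Prod.smul_snd, smul_eq_mul]
      field_simp
      rw [hn]; ring
    have h2 : p.1 * v.1 ≤ |p.1| * ‖v‖ := (le_abs_self _).trans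
      (by rw [abs_mul]; exact mul_le_mul_of_nonneg_left (norm_fst_le v) (abs_nonneg _))
    have h3 : p.2 * v.2 ≤ |p.2| * ‖v‖ := (le_abs_self _).trans
      (by rw [abs_mul]; exact mul_le_mul_of_nonneg_left (norm_snd_le v) (abs_nonneg _))
    exact lt_of_mul_lt_mul_right (by linarith) hv'.le
  have key : ∀ y, u y - (u x + η - dot p x) - dot p y =
      u y - (u x + η) - m * (Z y).re - t * (Z y).im := fun y => by
    simp only [zre, zim, p, dot, Prod.fst_add, Prod.snd_add, Prod.smul_fst, Prod.smul_snd,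
      smul_eq_mul, Prod.fst_sub, Prod.snd_sub]
    ring
  have val : ∀ s : ℝ, u (x + s • v) - (u x + η - dot p x) - dot p (x + s • v) =
      u (x + s • v) - (u x + η) - m * s := fun s => by rw [key, Zs]; simp
  have q0 : x = x + (0 : ℝ) • v := by simp
  have q1 : x + v = x + (1 : ℝ) • v := by simp
  have q2 : x + α • -v = x + (-α) • v := by simp
  have q3 : x + v + β • v = x + (1 + β) • v := by rw [add_smul, one_smul, add_assoc]
  have j1 := joined ha hb h0 hS (c := u x + η - dot p x) (Or.inl rfl) hp a2 (x := x + v)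
    ⟨hy', by rw [mem_ofPred_eq, q1, val, ← q1]; linarith⟩
    ⟨a2.1, by rw [mem_ofPred_eq, q2, val, ← q2]; linarith [a3.2]⟩
  have j2 := joined ha hb h0 hS (c := u x + η - dot p x) (Or.inr rfl) hp b2 (x := x)
    ⟨hx', by rw [mem_ofPred_eq]; linarith⟩
    ⟨b2.1, by rw [mem_ofPred_eq, q3, val, ← q3]; linarith [b4.1]⟩
  have j3 := j1.map cZ
  have j4 := j2.map cZ
  rw [q2, q1, Zs, Zs, Complex.ofReal_one, Complex.ofReal_neg] at j3
  rw [q3, Zs, show Z x = 0 by rw [q0, Zs]; simp] at j4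
  refine ⟨j3.mono ?_, j4.mono ?_⟩
  · rintro _ ⟨y, hy, rfl⟩
    have : 0 < 1 * (u y - (u x + η - dot p x) - dot p y) := hy.2
    rw [key] at this
    exact ⟨by rw [mem_preimage, YZ]; exact hy.1, by simp only [mem_ofPred_eq, YZ]; linarith⟩
  · rintro _ ⟨y, hy, rfl⟩
    have : 0 < -1 * (u y - (u x + η - dot p x) - dot p y) := hy.2
    rw [key] at this
    exact ⟨by rw [mem_preimage, YZ]; exact hy.1, by simp only [mem_ofPred_eq, YZ]; linarith⟩

end ENeu

open ENeu in
theorem neuS : NeuS := by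
  intro a b u ha hb hu h0 hS
  refine ⟨bounds ha hb h0 hS, LipschitzOnWith.of_dist_le_mul fun x hx y hy => ?_⟩
  rw [Real.coe_toNNReal _ (by positivity), dist_eq_norm, dist_eq_norm, Real.norm_eq_abs]
  by_cases h1 : y ∈ Rho a b
  · by_cases h2 : x ∈ Rho a b
    · have a1 := lip_int ha hb hu h0 hS h1 h2
      have a2 := lip_int ha hb hu h0 hS h2 h1
      rw [norm_sub_rev] at a2
      exact abs_le.2 ⟨by linarith, a1⟩
    · rw [abs_sub_comm, norm_sub_rev]
      exact lip_bd ha hb h0 hS hy ⟨hx, h2⟩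
  · exact lip_bd ha hb h0 hS hx ⟨hy, h1⟩

end Pool.Agent.Lib.MP_16d934_gt
end
end

-- part Pool.Agent.Lib.MP_16d934_gt.ARega
section

/-! Tools for the regularity theorem: scaling, periodisation, second differences. -/

set_option autoImplicit false

open Set Metric Filter Topology MeasureTheory
open scoped ContDiff NNReal Real

noncomputable section

namespace Pool.Agent.Lib.MP_16d934_gt.AReg

/-! ### Gradients -/

theorem clm_apply (φ : P2 →L[ℝ] ℝ) (v : P2) : φ v = v.1 * φ (1, 0) + v.2 * φ (0, 1) := by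
  have : v = v.1 • ((1, 0) : P2) + v.2 • ((0, 1) : P2) := by ext <;> simp
  conv_lhs => rw [this]
  rw [map_add, map_smul, map_smul]
  rfl

theorem fderiv_eq_dot (u : P2 → ℝ) (y v : P2) : fderiv ℝ u y v = dot v (grad u y) :=
  clm_apply _ _

theorem abs_fst_le (v : P2) : |v.1| ≤ ‖v‖ := norm_fst_le v
theorem abs_snd_le (v : P2) : |v.2| ≤ ‖v‖ := norm_snd_le v

theorem abs_dot_le (v w : P2) : |dot v w| ≤ 2 * ‖v‖ * ‖w‖ := by
  have h1 := mul_le_mul (abs_fst_le v) (abs_fst_le w) (abs_nonneg _) (norm_nonneg _)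
  have h2 := mul_le_mul (abs_snd_le v) (abs_snd_le w) (abs_nonneg _) (norm_nonneg _)
  have := abs_add_le (v.1 * w.1) (v.2 * w.2)
  rw [abs_mul, abs_mul] at this
  rw [dot]
  linarith

theorem norm_fderiv_le (u : P2 → ℝ) (y : P2) : ‖fderiv ℝ u y‖ ≤ 2 * ‖grad u y‖ :=
  ContinuousLinearMap.opNorm_le_bound _ (by positivity) fun v => by
    rw [fderiv_eq_dot, Real.norm_eq_abs]
    linarith [abs_dot_le v (grad u y)]

theorem norm_fderiv_sub_le (u : P2 → ℝ) (y y' : P2) :
    ‖fderiv ℝ u y - fderiv ℝ u y'‖ ≤ 2 * ‖grad u y - grad u y'‖ :=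
  ContinuousLinearMap.opNorm_le_bound _ (by positivity) fun v => by
    have : (fderiv ℝ u y - fderiv ℝ u y') v = dot v (grad u y - grad u y') := by
      rw [_root_.sub_apply, fderiv_eq_dot, fderiv_eq_dot]
      simp only [dot, Prod.fst_sub, Prod.snd_sub]
      ring
    rw [this, Real.norm_eq_abs]
    linarith [abs_dot_le v (grad u y - grad u y')]

theorem norm_grad_le (u : P2 → ℝ) (y : P2) : ‖grad u y‖ ≤ ‖fderiv ℝ u y‖ := by
  refine norm_prod_le_iff.2 ⟨?_, ?_⟩
  · simpa [grad, d1] using (fderiv ℝ u y).le_opNorm (1, 0)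
  · simpa [grad, d2] using (fderiv ℝ u y).le_opNorm (0, 1)

theorem norm_grad_le_lip {u : P2 → ℝ} {L : ℝ≥0} (h : LipschitzWith L u) (y : P2) :
    ‖grad u y‖ ≤ L := (norm_grad_le u y).trans (norm_fderiv_le_of_lipschitz ℝ h)

theorem grad_congr {u v : P2 → ℝ} {y : P2} (h : u =ᶠ[𝓝 y] v) : grad u y = grad v y := by
  simp only [grad, d1, d2, h.fderiv_eq]

theorem grad_const (c : ℝ) (y : P2) : grad (fun _ => c) y = 0 := by
  simp [grad, d1, d2]

theorem grad_off {η : P2 → ℝ} {y : P2} (h : y ∉ tsupport η) : grad η y = 0 :=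
  (grad_congr (notMem_tsupport_iff_eventuallyEq.1 h)).trans (grad_const 0 y)

theorem grad_mul {a b : P2 → ℝ} {y : P2} (ha : DifferentiableAt ℝ a y)
    (hb : DifferentiableAt ℝ b y) :
    grad (fun x => a x * b x) y = b y • grad a y + a y • grad b y := by
  simp only [grad, d1, d2, fderiv_fun_mul ha hb]
  ext <;> simp <;> ring

theorem continuous_grad {a : P2 → ℝ} (ha : ContDiff ℝ 1 a) : Continuous (grad a) := by
  have := ha.continuous_fderiv one_ne_zero
  unfold grad d1 d2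
  fun_prop

theorem dot_zero_left (v : P2) : dot 0 v = 0 := by simp [dot]
theorem dot_zero_right (v : P2) : dot v 0 = 0 := by simp [dot]

theorem fderiv_aff (u : P2 → ℝ) (y0 : P2) (e : ℝ) (x : P2) :
    fderiv ℝ (fun x => u (y0 + e • x)) x = e • fderiv ℝ u (y0 + e • x) := by
  rw [← fderiv_comp_add_left y0]
  exact fderiv_comp_smul (f := fun z => u (y0 + z)) e

theorem grad_scale (u : P2 → ℝ) (y0 : P2) (z0 : ℝ) {e : ℝ} (he : e ≠ 0) (x : P2) :
    grad (fun x => e⁻¹ * (u (y0 + e • x) - z0)) x = grad u (y0 + e • x) := by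
  have h : fderiv ℝ (fun x => e⁻¹ * (u (y0 + e • x) - z0)) x = fderiv ℝ u (y0 + e • x) := by
    have := congrFun (fderiv_const_smul_field (𝕜 := ℝ)
      (f := fun x => u (y0 + e • x) - z0) e⁻¹) x
    refine this.trans ?_
    rw [Pi.smul_apply, fderiv_sub_const, fderiv_aff, smul_smul, inv_mul_cancel₀ he, one_smul]
  simp only [grad, d1, d2, h]

/-! ### Weak solutions -/

theorem weak_congr {A A' : Q5 → P2} {B B' : Q5 → ℝ} {u v : P2 → ℝ} {U U' : Set P2}
    (h : WeakG A B u U) (hU : U' ⊆ U)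
    (he : ∀ y ∈ U', A' (y, v y, grad v y) = A (y, u y, grad u y) ∧
      B' (y, v y, grad v y) = B (y, u y, grad u y)) : WeakG A' B' v U' := by
  intro η L hL hc hs
  rw [← h η L hL hc (hs.trans hU)]
  refine integral_congr_ae (Eventually.of_forall fun y => ?_)
  by_cases hy : y ∈ tsupport η
  · simp only [(he y (hs hy)).1, (he y (hs hy)).2]
  · simp [grad_off hy, image_eq_zero_of_notMem_tsupport hy, dot_zero_right]

theorem weak_scale {A : Q5 → P2} {B : Q5 → ℝ} {u : P2 → ℝ} {U : Set P2} (h : WeakG A B u U)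
    (y0 : P2) (z0 : ℝ) {e : ℝ} (he : 0 < e) :
    WeakG (fun q => A (y0 + e • q.1, z0 + e * q.2.1, q.2.2))
      (fun q => e * B (y0 + e • q.1, z0 + e * q.2.1, q.2.2))
      (fun x => e⁻¹ * (u (y0 + e • x) - z0)) ((fun x => y0 + e • x) ⁻¹' U) := by
  intro η L hL hc hs
  let T : P2 ≃ₜ P2 :=
    (Homeomorph.smulOfNeZero e⁻¹ (inv_ne_zero he.ne')).trans (Homeomorph.addLeft (-(e⁻¹ • y0)))
  have hT : ∀ y, T y = -(e⁻¹ • y0) + e⁻¹ • y := fun y => rfl
  have hT' : ∀ x, T (y0 + e • x) = x := fun x => by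
    rw [hT, smul_add, smul_smul, inv_mul_cancel₀ he.ne', one_smul, neg_add_cancel_left]
  have hTl : LipschitzWith ‖e⁻¹‖₊ T :=
    (LipschitzWith.of_dist_le_mul fun x y => by
      rw [hT, hT, dist_add_left, dist_smul₀]; rfl)
  have h1 := h (η ∘ T) _ (hL.comp hTl) (hc.comp_homeomorph T) (by
    intro y hy
    have hy' : T y ∈ tsupport η := by
      have : tsupport (η ∘ T) ⊆ T ⁻¹' tsupport η :=
        closure_minimal (fun x hx => subset_tsupport η hx)
          ((isClosed_tsupport η).preimage T.continuous)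
      exact this hy
    have := hs hy'
    rwa [mem_preimage, hT, smul_add, smul_neg, smul_smul, smul_smul, mul_inv_cancel₀ he.ne',
      one_smul, one_smul, add_neg_cancel_left] at this)
  set F : P2 → ℝ := fun y => dot (A (y, u y, grad u y)) (grad (η ∘ T) y) +
    B (y, u y, grad u y) * (η ∘ T) y with hF
  have h2 : ∫ x, F (y0 + e • x) = 0 := by
    rw [Measure.integral_comp_smul volume (fun z => F (y0 + z)) e, integral_add_left_eq_self F y0,
      h1, smul_zero]
  have h3 : ∀ x, grad (η ∘ T) (y0 + e • x) = e⁻¹ • grad η x := fun x => by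
    have := fderiv_aff η (-(e⁻¹ • y0)) e⁻¹ (y0 + e • x)
    rw [← hT, hT'] at this
    have h4 : (η ∘ T) = fun y => η (-(e⁻¹ • y0) + e⁻¹ • y) := rfl
    simp only [grad, d1, d2, h4, this]
    rfl
  rw [← mul_zero e, ← h2, ← integral_const_mul]
  refine integral_congr_ae (Eventually.of_forall fun x => ?_)
  have h5 : z0 + e * (e⁻¹ * (u (y0 + e • x) - z0)) = u (y0 + e • x) := by field_simp; ring
  simp only [hF, grad_scale u y0 z0 he.ne', h3, h5, Function.comp, hT', dot, Prod.smul_fst,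
    Prod.smul_snd, smul_eq_mul]
  field_simp

/-! ### Periodisation -/

/-- nearest lattice point -/
def rnd (y : P2) : P2 := (round y.1, round y.2)

/-- periodisation -/
def per {F : Type} (g : P2 → F) (y : P2) : F := g (y - rnd y)

/-- vanishing outside a small square -/
def Sp {F : Type} [Zero F] (g : P2 → F) : Prop := ∀ x, 5 / 16 < ‖x‖ → g x = 0

theorem norm_sub_rnd (y : P2) : ‖y - rnd y‖ ≤ 1 / 2 :=
  norm_prod_le_iff.2 ⟨abs_sub_round y.1, abs_sub_round y.2⟩

theorem far {x : ℝ} {n : ℤ} (h : |x - n| < 11 / 16) (hn : round x ≠ n) :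
    5 / 16 < |x - n| ∧ 5 / 16 < |x - round x| := by
  have h1 := abs_sub_round x
  have h2 : (1 : ℝ) ≤ |(round x : ℝ) - n| := by
    exact_mod_cast Int.one_le_abs (sub_ne_zero.2 hn)
  have h3 : |(round x : ℝ) - n| ≤ |x - n| + |x - round x| := by
    have := abs_sub (x - n) (x - round x)
    rwa [show x - n - (x - round x) = round x - n by ring] at this
  constructor <;> linarith

theorem per_eq {F : Type} [Zero F] {g : P2 → F} (hg : Sp g) (m n : ℤ) {x : P2}
    (hx : ‖x - ((m : ℝ), (n : ℝ))‖ < 11 / 16) : per g x = g (x - ((m : ℝ), (n : ℝ))) := by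
  by_cases h1 : round x.1 = m
  · by_cases h2 : round x.2 = n
    · rw [per, rnd, h1, h2]
    · obtain ⟨h3, h4⟩ := far ((abs_snd_le _).trans_lt hx) h2
      rw [per, hg _ (h3.trans_le (abs_snd_le (x - ((m : ℝ), (n : ℝ))))),
        hg _ (h4.trans_le (abs_snd_le (x - rnd x)))]
  · obtain ⟨h3, h4⟩ := far ((abs_fst_le _).trans_lt hx) h1
    rw [per, hg _ (h3.trans_le (abs_fst_le (x - ((m : ℝ), (n : ℝ))))),
      hg _ (h4.trans_le (abs_fst_le (x - rnd x)))]

theorem per_eq0 {F : Type} [Zero F] {g : P2 → F} (hg : Sp g) {x : P2} (hx : ‖x‖ < 11 / 16) :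
    per g x = g x := by
  have h : ((((0 : ℤ) : ℝ), ((0 : ℤ) : ℝ)) : P2) = 0 := by simp
  have := per_eq hg 0 0 (x := x) (by rwa [h, sub_zero])
  rwa [h, sub_zero] at this

theorem per_ev {F : Type} [Zero F] {g : P2 → F} (hg : Sp g) (y : P2) :
    per g =ᶠ[𝓝 y] fun x => g (x - rnd y) := by
  have : ∀ᶠ x in 𝓝 y, ‖x - rnd y‖ < 11 / 16 :=
    ((continuous_id.sub continuous_const).norm.continuousAt).eventually_lt continuousAt_const
      ((norm_sub_rnd y).trans_lt (by norm_num))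
  filter_upwards [this] with x hx using per_eq hg _ _ hx

theorem per_per (g : P2 → ℝ) : Per (per g) := fun y => by
  constructor
  · simp only [per, rnd, round_add_one]
    congr 1
    ext <;> simp
  · simp only [per, rnd, round_add_one]
    congr 1
    ext <;> simp

theorem per_cont {F : Type} [Zero F] [TopologicalSpace F] {g : P2 → F} (hg : Sp g)
    (hc : Continuous g) : Continuous (per g) :=
  continuous_iff_continuousAt.2 fun y =>
    ((hc.comp (continuous_id.sub continuous_const)).continuousAt).congr (per_ev hg y).symm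

theorem per_diff {g : P2 → ℝ} (hg : Sp g) (hd : Differentiable ℝ g) : Differentiable ℝ (per g) :=
  fun y => ((hd.comp (differentiable_id.sub_const (rnd y))) y).congr_of_eventuallyEq (per_ev hg y)

theorem grad_per {g : P2 → ℝ} (hg : Sp g) : grad (per g) = per (grad g) := by
  ext1 y
  rw [grad_congr (per_ev hg y)]
  simp only [grad, d1, d2, per, fderiv_comp_sub]

theorem d1_per {g : P2 → ℝ} (hg : Sp g) : d1 (per g) = per (d1 g) :=
  funext fun y => congrArg Prod.fst (congrFun (grad_per hg) y)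

theorem d2_per {g : P2 → ℝ} (hg : Sp g) : d2 (per g) = per (d2 g) :=
  funext fun y => congrArg Prod.snd (congrFun (grad_per hg) y)

theorem Sp.grad {g : P2 → ℝ} (hg : Sp g) : Sp (grad g) := fun x hx => by
  have : g =ᶠ[𝓝 x] fun _ => 0 := by
    filter_upwards [continuousAt_const.eventually_lt continuous_norm.continuousAt hx] with y hy
      using hg y hy
  rw [grad_congr this, grad_const]

theorem Sp.d1 {g : P2 → ℝ} (hg : Sp g) : Sp (d1 g) := fun x hx =>
  congrArg Prod.fst (hg.grad x hx)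

theorem Sp.d2 {g : P2 → ℝ} (hg : Sp g) : Sp (d2 g) := fun x hx =>
  congrArg Prod.snd (hg.grad x hx)

theorem Sp.compact {g : P2 → ℝ} (hg : Sp g) : HasCompactSupport g :=
  HasCompactSupport.intro (isCompact_closedBall (0 : P2) (5 / 16)) fun x hx =>
    hg x (by simpa using hx)

theorem cell_norm {y : P2} (hy : y ∈ cell) : ‖y‖ ≤ 1 / 2 :=
  norm_prod_le_iff.2 ⟨abs_le.2 ⟨hy.1.1.le, hy.1.2⟩, abs_le.2 ⟨hy.2.1.le, hy.2.2⟩⟩

theorem meas_cell : MeasurableSet cell := measurableSet_Ioc.prod measurableSet_Ioc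

theorem vol_cell : volume cell = 1 := by
  rw [cell, Measure.volume_eq_prod, Measure.prod_prod]
  norm_num

theorem int_cell {F : Type} [NormedAddCommGroup F] {f : P2 → F}
    (hf : ContinuousOn f (closedBall 0 1)) : IntegrableOn f cell :=
  (hf.integrableOn_compact (isCompact_closedBall 0 1)).mono_set fun y hy =>
    mem_closedBall_zero_iff.2 ((cell_norm hy).trans (by norm_num))

/-! ### Second differences -/

/-- second difference -/
def tau (f : P2 → ℝ) (h y : P2) : ℝ := f (y + h + h) - 2 * f (y + h) + f y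

theorem tau_le {b : P2 → ℝ} {y h : P2} {r M : ℝ} (hy : y ∈ ball (0 : P2) r)
    (hyh : y + h ∈ ball (0 : P2) r)
    (hd : ∀ x ∈ ball (0 : P2) r, DifferentiableAt ℝ b x ∧ DifferentiableAt ℝ b (x + h))
    (hb : ∀ x ∈ ball (0 : P2) r, ‖fderiv ℝ b (x + h) - fderiv ℝ b x‖ ≤ M) :
    |tau b h y| ≤ M * ‖h‖ := by
  have h1 := (convex_ball (0 : P2) r).norm_image_sub_le_of_norm_hasFDerivWithin_le
    (f := fun x => b (x + h) - b x) (f' := fun x => fderiv ℝ b (x + h) - fderiv ℝ b x)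
    (fun x hx => (((hasFDerivAt_comp_add_right h).2 (hd x hx).2.hasFDerivAt).sub
      (hd x hx).1.hasFDerivAt).hasFDerivWithinAt) hb hy hyh
  rw [add_sub_cancel_left, Real.norm_eq_abs] at h1
  rwa [tau, show b (y + h + h) - 2 * b (y + h) + b y =
    b (y + h + h) - b (y + h) - (b (y + h) - b y) by ring]

/-- bounds up to order two -/
structure Sm2 (D : ℝ) (a : P2 → ℝ) : Prop where
  bd : ∀ y, |a y| ≤ D
  lip : ∀ y y', |a y - a y'| ≤ D * ‖y - y'‖
  sec : ∀ y h, |tau a h y| ≤ D * ‖h‖ ^ 2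

theorem Sm2.mono {D D' : ℝ} {a : P2 → ℝ} (h : Sm2 D a) (hD : D ≤ D') : Sm2 D' a :=
  ⟨fun y => (h.bd y).trans hD, fun y y' => (h.lip y y').trans (by gcongr),
    fun y z => (h.sec y z).trans (by gcongr)⟩

theorem exists_sm2 {a : P2 → ℝ} (ha : ContDiff ℝ ∞ a) (hc : HasCompactSupport a) :
    ∃ D, 1 ≤ D ∧ Sm2 D a := by
  obtain ⟨C0, h0⟩ := hc.exists_bound_of_continuous ha.continuous
  obtain ⟨C1, h1⟩ := ContDiff.lipschitzWith_of_hasCompactSupport hc ha (by simp)
  obtain ⟨C2, h2⟩ := ContDiff.lipschitzWith_of_hasCompactSupport (hc.fderiv ℝ)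
    (ha.fderiv_right (m := ∞) (by simp)) (by simp)
  have p0 : 0 ≤ C0 := (norm_nonneg _).trans (h0 0)
  have p1 := C1.coe_nonneg
  have p2 := C2.coe_nonneg
  refine ⟨1 + C0 + C1 + C2, by linarith, fun y => (h0 y).trans (by linarith), fun y y' => ?_,
    fun y h => ?_⟩
  · have := h1.dist_le_mul y y'
    rw [Real.dist_eq, dist_eq_norm] at this
    exact this.trans (by gcongr; linarith)
  · have hd := ha.differentiable (by simp)
    have := tau_le (b := a) (y := y) (h := h) (r := ‖y‖ + ‖h‖ + 1) (M := C2 * ‖h‖)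
      (mem_ball_zero_iff.2 (by linarith [norm_nonneg h]))
      (mem_ball_zero_iff.2 (by linarith [norm_add_le y h])) (fun x _ => ⟨hd _, hd _⟩)
      (fun x _ => by simpa [dist_eq_norm] using h2.dist_le_mul (x + h) x)
    refine this.trans ?_
    rw [mul_assoc, ← sq]
    gcongr
    linarith

theorem tau_mul {D E H t : ℝ} {a b : P2 → ℝ} (ha : Sm2 D a) {y h : P2} (hH : ‖h‖ ≤ H)
    (h1 : |b (y + h)| ≤ E) (h2 : |b (y + h + h) - b (y + h)| ≤ E * H) (h3 : |tau b h y| ≤ t) :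
    |tau (fun x => a x * b x) h y| ≤ 3 * D * E * (‖h‖ * H) + D * t := by
  have hD : 0 ≤ D := (abs_nonneg _).trans (ha.bd 0)
  have hE : 0 ≤ E := (abs_nonneg _).trans h1
  have hn := norm_nonneg h
  have e : tau (fun x => a x * b x) h y = tau a h y * b (y + h) +
      (a (y + h + h) - a y) * (b (y + h + h) - b (y + h)) + a y * tau b h y := by
    simp only [tau]; ring
  have k1 : |tau a h y * b (y + h)| ≤ D * E * (‖h‖ * H) := by
    rw [abs_mul]
    calc _ ≤ D * ‖h‖ ^ 2 * E := mul_le_mul (ha.sec y h) h1 (abs_nonneg _) (by positivity)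
      _ = D * E * (‖h‖ * ‖h‖) := by ring
      _ ≤ _ := by gcongr
  have k2 : |(a (y + h + h) - a y) * (b (y + h + h) - b (y + h))| ≤ 2 * D * E * (‖h‖ * H) := by
    have : ‖y + h + h - y‖ ≤ 2 * ‖h‖ := by
      rw [show y + h + h - y = h + h by abel]
      linarith [norm_add_le h h]
    rw [abs_mul]
    calc _ ≤ D * (2 * ‖h‖) * (E * H) :=
          mul_le_mul ((ha.lip _ _).trans (by gcongr)) h2 (abs_nonneg _) (by positivity)
      _ = _ := by ring
  have k3 : |a y * tau b h y| ≤ D * t := by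
    rw [abs_mul]
    exact mul_le_mul (ha.bd y) h3 (abs_nonneg _) hD
  rw [e]
  linarith [abs_add_three (tau a h y * b (y + h))
    ((a (y + h + h) - a y) * (b (y + h + h) - b (y + h))) (a y * tau b h y)]

theorem tau_per {g : P2 → ℝ} (hg : Sp g) {y h : P2} (hy : y ∈ cell) (hh : ‖h‖ ≤ 1 / 16) :
    tau (per g) h y = tau g h y := by
  have h0 := cell_norm hy
  have h1 := norm_add_le y h
  have h2 := norm_add_le (y + h) h
  rw [tau, tau, per_eq0 hg (by linarith), per_eq0 hg (by linarith), per_eq0 hg (by linarith)]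

/-! ### The Wiener class -/

theorem wn_mono {f : P2 → ℝ} {η η' : ℝ} (h : Wn f η) (hη : η ≤ η') : Wn f η' :=
  ⟨h.1, h.2.1.trans hη, h.2.2⟩

theorem wn_mul {f : P2 → ℝ} {η c : ℝ} (h : Wn f η) (hc : 0 ≤ c) :
    Wn (fun y => c * f y) (c * η) := by
  have e : ∀ k, fc (fun y => c * f y) k = c * fc f k := fun k => by
    simp only [fc, ← integral_const_mul]
    push_cast
    simp only [mul_assoc]
  have e' : ∀ k, ‖fc (fun y => c * f y) k‖ = c * ‖fc f k‖ := fun k => by
    rw [e, norm_mul, Complex.norm_real, Real.norm_of_nonneg hc]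
  refine ⟨by simpa only [e'] using h.1.mul_left c, ?_, fun y => ?_⟩
  · simp only [e', tsum_mul_left]
    exact mul_le_mul_of_nonneg_left h.2.1 hc
  · simpa only [e, mul_assoc, Complex.ofReal_mul] using (h.2.2 y).mul_left (c : ℂ)

theorem wn_smooth (hF : FourS) {a : P2 → ℝ} (ha : ContDiff ℝ ∞ a) (hs : Sp a) :
    ∃ η, 0 ≤ η ∧ Wn (per a) η := by
  obtain ⟨D, hD, h⟩ := exists_sm2 ha hs.compact
  obtain ⟨κ, hκ, H⟩ := hF 1 1 1 one_pos one_pos
  set c := D + D / κ with hc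
  have p1 : 0 < D / κ := by positivity
  have p2 : 0 < c := by linarith
  have h1 := H (fun y => c⁻¹ * per a y) (continuous_const.mul (per_cont hs ha.continuous))
    (fun y => by simp only [(per_per a y).1, (per_per a y).2, and_self])
    (fun y => by
      rw [abs_mul, abs_of_pos (inv_pos.2 p2), inv_mul_le_iff₀ p2]
      refine (h.bd _).trans ?_
      rw [hc, add_mul, div_mul_cancel₀ _ hκ.ne']
      nlinarith)
    (fun z _ hz => by
      have hn := norm_nonneg z
      have k : ∀ y ∈ cell, ‖(c⁻¹ * per a (y + z + z) - 2 * (c⁻¹ * per a (y + z)) +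
          c⁻¹ * per a y) ^ 2‖ ≤ ‖z‖ ^ 3 := fun y hy => by
        have k1 : c⁻¹ * per a (y + z + z) - 2 * (c⁻¹ * per a (y + z)) + c⁻¹ * per a y =
            c⁻¹ * tau a z y := by
          rw [← tau_per hs hy hz, tau]; ring
        have k2 : |c⁻¹ * tau a z y| ≤ ‖z‖ ^ 2 := by
          rw [abs_mul, abs_of_pos (inv_pos.2 p2), inv_mul_le_iff₀ p2]
          refine (h.sec y z).trans ?_
          gcongr
          linarith
        rw [k1, norm_pow, Real.norm_eq_abs]
        calc _ ≤ (‖z‖ ^ 2) ^ 2 := by gcongr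
          _ = ‖z‖ ^ 3 * ‖z‖ := by ring
          _ ≤ ‖z‖ ^ 3 * 1 := by gcongr; linarith
          _ = _ := mul_one _
      have := norm_setIntegral_le_of_norm_le_const (μ := volume) (by rw [vol_cell]; simp) k
      rw [measureReal_def, vol_cell, ENNReal.toReal_one, mul_one] at this
      refine (le_abs_self _).trans (this.trans_eq ?_)
      rw [one_mul, ← Real.rpow_natCast]
      norm_num)
  refine ⟨c * 1, by positivity, ?_⟩
  have h2 := wn_mul h1 p2.le
  simpa only [mul_inv_cancel_left₀ p2.ne'] using h2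

end Pool.Agent.Lib.MP_16d934_gt.AReg
end
end

-- part Pool.Agent.Lib.MP_16d934_gt.DMida
section

/-! The sign of the height difference at points with equal slope, along three rays. -/

set_option autoImplicit false

open Set Metric Filter Topology Asymptotics
open scoped ContDiff NNReal Real

noncomputable section

namespace Pool.Agent.Lib.MP_16d934_gt.DMid

open AReg

/-- diagonal linear map -/
def Hm (A B : ℝ) : P2 →L[ℝ] P2 :=
  (A • ContinuousLinearMap.fst ℝ ℝ ℝ).prod (B • ContinuousLinearMap.snd ℝ ℝ ℝ)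

theorem Hm_apply (A B : ℝ) (v : P2) : Hm A B v = (A * v.1, B * v.2) := rfl

/-- diagonal linear equivalence -/
def He {A B : ℝ} (hA : A ≠ 0) (hB : B ≠ 0) : P2 ≃L[ℝ] P2 :=
  ContinuousLinearEquiv.equivOfInverse (Hm A B) (Hm A⁻¹ B⁻¹)
    (fun v => by simp [Hm_apply, hA, hB]) fun v => by simp [Hm_apply, hA, hB]

theorem hess (hD : DerS) {f : P2 → ℝ} (hf : AnalyticAt ℝ f 0) (h : d1 (d2 f) 0 = 0) :
    HasStrictFDerivAt (grad f) (Hm (d1 (d1 f) 0) (d2 (d2 f) 0)) 0 := by
  obtain ⟨h1, h2, h3, -⟩ := hD f 0 hf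
  refine (h1.hasStrictFDerivAt.prodMk h2.hasStrictFDerivAt).congr_fderiv ?_
  refine ContinuousLinearMap.ext fun v => Prod.ext ?_ ?_
  · change fderiv ℝ (d1 f) 0 v = d1 (d1 f) 0 * v.1
    rw [fderiv_eq_dot, dot, grad, h3, h]
    ring
  · change fderiv ℝ (d2 f) 0 v = d2 (d2 f) 0 * v.2
    rw [fderiv_eq_dot, dot, grad, h]
    ring

theorem grad_zero {f : P2 → ℝ} (h : fderiv ℝ f 0 = 0) : grad f 0 = 0 := by
  simp [grad, d1, d2, h]

theorem mv_o {g : P2 → ℝ} (hd : ∀ᶠ y in 𝓝 (0 : P2), DifferentiableAt ℝ g y)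
    (ho : (fun y => fderiv ℝ g y) =o[𝓝 0] fun y => y) :
    (fun p : P2 × P2 => g p.1 - g p.2) =o[𝓝 (0, 0)] fun p => ‖p‖ * ‖p.1 - p.2‖ := by
  refine isLittleO_iff.2 fun ε hε => ?_
  obtain ⟨ρ, hρ, H⟩ := Metric.eventually_nhds_iff_ball.1 (hd.and (ho.def hε))
  filter_upwards [ball_mem_nhds ((0, 0) : P2 × P2) hρ] with p hp
  have hp' : ‖p‖ < ρ := mem_ball_zero_iff.1 hp
  have k : ∀ y ∈ closedBall (0 : P2) ‖p‖, y ∈ ball (0 : P2) ρ := fun y hy =>
    closedBall_subset_ball hp' hy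
  have := (convex_closedBall (0 : P2) ‖p‖).norm_image_sub_le_of_norm_fderiv_le (𝕜 := ℝ) (f := g)
    (C := ε * ‖p‖) (fun y hy => (H y (k y hy)).1) (fun y hy => (H y (k y hy)).2.trans
      (mul_le_mul_of_nonneg_left (mem_closedBall_zero_iff.1 hy) hε.le))
    (mem_closedBall_zero_iff.2 (norm_snd_le p)) (mem_closedBall_zero_iff.2 (norm_fst_le p))
  rwa [Real.norm_of_nonneg (r := ‖p‖ * _) (by positivity), ← mul_assoc]

theorem ray_tendsto (v : P2) : Tendsto (fun s : ℝ => s • v) (𝓝[>] 0) (𝓝 0) := by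
  have : Tendsto (fun s : ℝ => s • v) (𝓝 0) (𝓝 ((0 : ℝ) • v)) :=
    (continuous_id.smul continuous_const).tendsto 0
  rw [zero_smul] at this
  exact this.mono_left nhdsWithin_le_nhds

theorem ray_lim {ϱ : P2 → ℝ} {A B : ℝ} (hA : A ≠ 0) (hB : B ≠ 0) (hϱ : AnalyticAt ℝ ϱ 0)
    (h0 : fderiv ℝ ϱ 0 = 0) (hH : HasStrictFDerivAt (grad ϱ) (Hm A B) 0) {x' : ℝ → P2} (v g : P2)
    (n : ℕ) (hx' : Tendsto x' (𝓝[>] 0) (𝓝 0))
    (hγ : Tendsto (fun s => (s ^ (n + 1))⁻¹ • (grad ϱ (x' s) - grad ϱ (s • v))) (𝓝[>] 0) (𝓝 g)) :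
    Tendsto (fun s => (s ^ (n + 2))⁻¹ * (ϱ (x' s) - ϱ (s • v))) (𝓝[>] 0)
      (𝓝 (dot v g + 0 ^ n * (g.1 ^ 2 / A + g.2 ^ 2 / B) / 2)) := by
  have hp : Tendsto (fun s => (x' s, s • v)) (𝓝[>] 0) (𝓝 (0, 0)) :=
    hx'.prodMk_nhds (ray_tendsto v)
  set D : ℝ → P2 := fun s => x' s - s • v with hD
  set γ : ℝ → P2 := fun s => grad ϱ (x' s) - grad ϱ (s • v) with hγ'
  have a1 : (fun s => γ s - Hm A B (D s)) =o[𝓝[>] 0] D := hH.isLittleO.comp_tendsto hp
  have a2 : D =O[𝓝[>] 0] fun s => Hm A B (D s) := (He hA hB).isBigO_comp_rev D _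
  have a3 : (fun s => Hm A B (D s)) =O[𝓝[>] 0] γ := by
    simpa using (a1.trans_isBigO a2).right_isBigO_add
  have a4 : γ =O[𝓝[>] 0] fun s => s ^ (n + 1) := by
    refine ((isBigO_refl (fun s : ℝ => s ^ (n + 1)) _).smul (hγ.isBigO_one ℝ)).congr' ?_
      (Eventually.of_forall fun s => by simp)
    filter_upwards [self_mem_nhdsWithin] with s (hs : 0 < s)
    rw [smul_smul, mul_inv_cancel₀ (by positivity), one_smul]
  have a5 : D =O[𝓝[>] 0] fun s => s ^ (n + 1) := (a2.trans a3).trans a4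
  have a6 : Tendsto (fun s => (s ^ (n + 1))⁻¹ • Hm A B (D s)) (𝓝[>] 0) (𝓝 g) := by
    have := hγ.sub (a1.trans_isBigO a5).tendsto_inv_smul_nhds_zero
    rw [sub_zero] at this
    exact this.congr fun s => by rw [← smul_sub, sub_sub_cancel]
  set g0 : P2 → ℝ := fun y => ϱ y - (A * y.1 ^ 2 + B * y.2 ^ 2) * 2⁻¹ with hg0
  have hd : ∀ᶠ y in 𝓝 (0 : P2), DifferentiableAt ℝ ϱ y :=
    hϱ.eventually_analyticAt.mono fun y hy => hy.differentiableAt
  have b1 : ∀ᶠ y in 𝓝 (0 : P2), grad g0 y = grad ϱ y - grad ϱ 0 - Hm A B (y - 0) := by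
    filter_upwards [hd] with y hy
    have := hy.hasFDerivAt.fun_sub (((((hasFDerivAt_fst (𝕜 := ℝ) (p := y)).pow 2).const_mul
      A).fun_add (((hasFDerivAt_snd (𝕜 := ℝ) (p := y)).pow 2).const_mul B)).mul_const 2⁻¹)
    rw [grad_zero h0]
    simp only [grad, d1, d2, hg0, this.fderiv, Hm_apply]
    ext <;> simp <;> ring
  have b2 : (fun y => fderiv ℝ g0 y) =o[𝓝 0] fun y => y := by
    have h1 : (fun y => fderiv ℝ g0 y) =O[𝓝 0] grad g0 :=
      IsBigO.of_bound 2 (Eventually.of_forall fun y => norm_fderiv_le g0 y)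
    simpa using h1.trans_isLittleO (hH.hasFDerivAt.isLittleO.congr' (EventuallyEq.symm b1) .rfl)
  have b3 := (mv_o (g := g0) (hd.mono fun y hy => hy.sub (by fun_prop)) b2).comp_tendsto hp
  have b4 : (fun s : ℝ => s • v) =O[𝓝[>] 0] fun s => s :=
    IsBigO.of_bound ‖v‖ (Eventually.of_forall fun s => by rw [norm_smul, mul_comm])
  have b5 : (fun s : ℝ => s ^ (n + 1)) =O[𝓝[>] 0] fun s => s := by
    refine IsBigO.of_bound 1 ?_
    filter_upwards [Ioo_mem_nhdsGT one_pos] with s hs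
    rw [one_mul, norm_pow, Real.norm_of_nonneg hs.1.le]
    exact pow_le_of_le_one hs.1.le hs.2.le (by omega)
  have b6 : x' =O[𝓝[>] 0] fun s => s := by simpa [hD] using (a5.trans b5).add b4
  have b7 : (fun s => ‖(x' s, s • v)‖ * ‖D s‖) =O[𝓝[>] 0] fun s => s ^ (n + 2) :=
    ((b6.prod_left b4).norm_left.mul a5.norm_left).congr_right fun s => by ring
  have b8 := (b3.trans_isBigO b7).tendsto_inv_smul_nhds_zero
  have c1 : Tendsto (fun s : ℝ => s ^ n) (𝓝[>] 0) (𝓝 (0 ^ n)) :=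
    ((continuous_pow n).tendsto 0).mono_left nhdsWithin_le_nhds
  have c2 := a6.fst_nhds
  have c3 := a6.snd_nhds
  have c4 := b8.add (((c2.const_mul v.1).add (c3.const_mul v.2)).add
    ((c1.mul (((c2.pow 2).div_const A).add ((c3.pow 2).div_const B))).div_const 2))
  rw [zero_add] at c4
  refine c4.congr' ?_
  filter_upwards [self_mem_nhdsWithin] with s (hs : 0 < s)
  simp only [Function.comp, hg0, hD, Hm_apply, smul_eq_mul, Prod.smul_fst, Prod.smul_snd,
    Prod.fst_sub, Prod.snd_sub]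
  field_simp
  ring

theorem lim_of_bound {u : ℝ → ℝ} {P C : ℝ} {k : ℕ}
    (h : ∀ᶠ s in 𝓝[>] (0 : ℝ), |u s - s ^ k * P| ≤ C * s ^ (k + 1)) :
    Tendsto (fun s => (s ^ k)⁻¹ * u s) (𝓝[>] 0) (𝓝 P) := by
  have h1 : Tendsto (fun s : ℝ => C * s) (𝓝[>] 0) (𝓝 0) := by
    simpa using ((continuous_const.mul continuous_id).tendsto (0 : ℝ) (f := fun s => C * s)
      ).mono_left (nhdsWithin_le_nhds (s := Ioi 0))
  refine tendsto_iff_norm_sub_tendsto_zero.2 (squeeze_zero'
    (Eventually.of_forall fun _ => norm_nonneg _) ?_ h1)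
  filter_upwards [h, self_mem_nhdsWithin] with s h (hs : 0 < s)
  have p : 0 < s ^ k := by positivity
  rw [show (s ^ k)⁻¹ * u s - P = (s ^ k)⁻¹ * (u s - s ^ k * P) by field_simp, Real.norm_eq_abs,
    abs_mul, abs_of_pos (inv_pos.2 p), inv_mul_le_iff₀ p]
  exact h.trans_eq (by ring)

/-- conformal coordinate -/
def TT (a b : ℝ) : ℂ →L[ℝ] P2 := (a⁻¹ • Complex.reCLM).prod (b⁻¹ • Complex.imCLM)

theorem TT_apply (a b : ℝ) (z : ℂ) : TT a b z = (a⁻¹ * z.re, b⁻¹ * z.im) := rfl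

theorem TT_ray (a b s : ℝ) (ζ : ℂ) : TT a b (s * ζ) = s • TT a b ζ := by
  rw [← Complex.real_smul, map_smul]

theorem lead_lim {w : P2 → ℝ} {a b : ℝ} (ha : 0 < a) (hb : 0 < b) {n : ℕ} {c : ℂ}
    (hL : Lead w 0 (TT a b) (n + 2) c) (ζ : ℂ) :
    Tendsto (fun s : ℝ => (s ^ (n + 2))⁻¹ * w (s • TT a b ζ)) (𝓝[>] 0) (𝓝 (c * ζ ^ (n + 2)).re) ∧
    Tendsto (fun s : ℝ => (s ^ (n + 1))⁻¹ • grad w (s • TT a b ζ)) (𝓝[>] 0)
      (𝓝 (a * (c * (n + 2) * ζ ^ (n + 1)).re, -(b * (c * (n + 2) * ζ ^ (n + 1)).im))) := by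
  obtain ⟨-, C, δ, hδ, H⟩ := hL
  have h1 : ∀ᶠ s : ℝ in 𝓝[>] 0, ‖(s : ℂ) * ζ‖ < δ := by
    have : Continuous fun s : ℝ => ‖(s : ℂ) * ζ‖ := by fun_prop
    exact (this.continuousAt.eventually_lt continuousAt_const (by simpa using hδ)).filter_mono
      nhdsWithin_le_nhds
  have h2 : ∀ ν : ℂ, Tendsto (fun s : ℝ => (s ^ (n + 1))⁻¹ * fderiv ℝ w (s • TT a b ζ) (TT a b ν))
      (𝓝[>] 0) (𝓝 (c * (n + 2) * ζ ^ (n + 1) * ν).re) := fun ν => by
    refine lim_of_bound (C := C * ‖ζ‖ ^ (n + 2) * ‖ν‖) ?_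
    filter_upwards [h1, self_mem_nhdsWithin] with s h (hs : 0 < s)
    have := (H _ h).2.2 ν
    rw [zero_add, TT_ray, norm_mul, Complex.norm_real, Real.norm_of_nonneg hs.le,
      show c * ((n + 2 : ℕ) : ℂ) * (s * ζ) ^ (n + 2 - 1) * ν =
        ((s ^ (n + 1) : ℝ) : ℂ) * (c * (n + 2) * ζ ^ (n + 1) * ν) by
        rw [show n + 2 - 1 = n + 1 from rfl]; push_cast; ring, Complex.re_ofReal_mul] at this
    exact this.trans_eq (by ring)
  constructor
  · refine lim_of_bound (C := C * ‖ζ‖ ^ (n + 3)) ?_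
    filter_upwards [h1, self_mem_nhdsWithin] with s h (hs : 0 < s)
    have := (H _ h).2.1
    rw [zero_add, TT_ray, norm_mul, Complex.norm_real, Real.norm_of_nonneg hs.le,
      show c * (s * ζ) ^ (n + 2) = ((s ^ (n + 2) : ℝ) : ℂ) * (c * ζ ^ (n + 2)) by
        push_cast; ring, Complex.re_ofReal_mul] at this
    exact this.trans_eq (by ring)
  · have e1 : TT a b a = (1, 0) := by simp [TT_apply, ha.ne']
    have e2 : TT a b (b * Complex.I) = (0, 1) := by simp [TT_apply, hb.ne']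
    have k1 := h2 a
    have k2 := h2 (b * Complex.I)
    rw [e1] at k1
    rw [e2] at k2
    generalize c * (n + 2) * ζ ^ (n + 1) = K at k1 k2 ⊢
    rw [show a * K.re = (K * a).re by simp [mul_comm],
      show -(b * K.im) = (K * (b * Complex.I)).re by simp [mul_comm]]
    exact k1.prodMk_nhds k2

theorem cis_re (β : ℝ) : (cis β).re = Real.cos β := Complex.exp_ofReal_mul_I_re β
theorem cis_im (β : ℝ) : (cis β).im = Real.sin β := Complex.exp_ofReal_mul_I_im β

theorem cis_step (β : ℝ) {m : ℕ} (hm : m ≠ 0) : cis (β + π / m) ^ m = -cis β ^ m := by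
  have : (m : ℂ) ≠ 0 := by exact_mod_cast hm
  rw [cis, cis, ← Complex.exp_nat_mul, ← Complex.exp_nat_mul, ← Complex.exp_add_pi_mul_I]
  congr 1
  push_cast
  field_simp

theorem cis_half (β : ℝ) {m : ℕ} (hm : m ≠ 0) :
    cis (β + π / 2 / m) ^ m = cis β ^ m * Complex.I := by
  have : (m : ℂ) ≠ 0 := by exact_mod_cast hm
  rw [cis, cis, ← Complex.exp_nat_mul, ← Complex.exp_nat_mul, ← Complex.exp_pi_div_two_mul_I,
    ← Complex.exp_add, Complex.exp_pi_div_two_mul_I]
  congr 1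
  push_cast
  field_simp

/-- three angles with alternating signs -/
def Alt (Φ : ℝ → ℝ) : Prop := ∃ β₁ β₂ β₃ ε : ℝ, 0 < β₁ ∧ β₁ < β₂ ∧ β₂ < β₃ ∧ β₃ < π ∧
  (ε = 1 ∨ ε = -1) ∧ ε * Φ β₁ < 0 ∧ 0 < ε * Φ β₂ ∧ ε * Φ β₃ < 0

theorem alt_of {Φ : ℝ → ℝ} {β₁ β₂ β₃ : ℝ} (h0 : 0 < β₁) (h1 : β₁ < β₂) (h2 : β₂ < β₃)
    (h3 : β₃ < π) (k1 : Φ β₁ * Φ β₂ < 0) (k2 : Φ β₃ = Φ β₁) : Alt Φ := by
  rcases mul_neg_iff.1 k1 with h | h
  · exact ⟨β₁, β₂, β₃, -1, h0, h1, h2, h3, Or.inr rfl, by linarith, by linarith, by linarith⟩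
  · exact ⟨β₁, β₂, β₃, 1, h0, h1, h2, h3, Or.inl rfl, by linarith, by linarith, by linarith⟩

theorem alt_high {c : ℂ} (hc : c ≠ 0) {m : ℕ} (hm : 3 ≤ m) {κ : ℝ} (hκ : κ ≠ 0) :
    Alt fun β => κ * (c * cis β ^ m).re := by
  have m0 : m ≠ 0 := by omega
  have m3 : (3 : ℝ) ≤ m := by exact_mod_cast hm
  have p : 0 < π / m := by positivity
  have p3 : 3 * (π / m) ≤ π := by
    rw [← mul_div_assoc, div_le_iff₀ (by positivity)]
    nlinarith [Real.pi_pos]
  obtain ⟨β, b0, b1, b2⟩ : ∃ β, 0 < β ∧ β < π / m ∧ (c * cis β ^ m).re ≠ 0 := by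
    have e : π / 2 / m = π / m / 2 := by ring
    by_contra h
    push Not at h
    have h1 := h (π / m / 4) (by linarith) (by linarith)
    have h2 := h (π / m / 4 + π / 2 / m) (by rw [e]; linarith) (by rw [e]; linarith)
    rw [cis_half _ m0, ← mul_assoc, Complex.mul_I_re, neg_eq_zero] at h2
    exact mul_ne_zero hc (pow_ne_zero m (Complex.exp_ne_zero _)) (Complex.ext h1 h2)
  refine alt_of (β₂ := β + π / m) (β₃ := β + π / m + π / m) b0 (by linarith) (by linarith)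
    (by linarith) ?_ ?_
  · rw [cis_step _ m0, mul_neg, Complex.neg_re, mul_neg, mul_neg, neg_lt_zero]
    exact mul_self_pos.2 (mul_ne_zero hκ b2)
  · rw [cis_step _ m0, cis_step _ m0, neg_neg]

theorem alt_two {k α γ : ℝ} (hk : k ≠ 0) (hα : 0 < α) (hγ : 0 < γ) :
    Alt fun β => k * (α * Real.cos β ^ 2 - γ * Real.sin β ^ 2) := by
  have hc : Continuous fun β => α * Real.cos β ^ 2 - γ * Real.sin β ^ 2 := by fun_prop
  have h1 : ∀ᶠ β in 𝓝 (0 : ℝ), 0 < α * Real.cos β ^ 2 - γ * Real.sin β ^ 2 :=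
    continuousAt_const.eventually_lt hc.continuousAt (by simpa using hα)
  obtain ⟨β, b1, b2⟩ := ((h1.filter_mono nhdsWithin_le_nhds).and
    (Ioo_mem_nhdsGT Real.pi_div_two_pos)).exists
  refine alt_of (β₂ := π / 2) (β₃ := π - β) b2.1 b2.2 (by linarith [b2.2]) (by linarith [b2.1])
    ?_ (by simp)
  have := mul_pos (mul_pos (mul_self_pos.2 hk) b1) hγ
  simp only [Real.cos_pi_div_two, Real.sin_pi_div_two]
  nlinarith

theorem core_sign (hD : DerS) {f ϱ : P2 → ℝ} (hf : AnalyticAt ℝ f 0) (hϱ : AnalyticAt ℝ ϱ 0)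
    (f0 : fderiv ℝ f 0 = 0) (ϱ0 : fderiv ℝ ϱ 0 = 0) (hA : 0 < d1 (d1 ϱ) 0) (hC : d1 (d2 ϱ) 0 = 0)
    (hB : d2 (d2 ϱ) 0 < 0) (hA' : 0 < d1 (d1 f) 0) (hC' : d1 (d2 f) 0 = 0) (hB' : d2 (d2 f) 0 < 0)
    {a b : ℝ} (ha : 0 < a) (hb : 0 < b) {m : ℕ} {c : ℂ} (hm : 2 ≤ m)
    (hL : Lead (fun x => f x - ϱ x) 0 (TT a b) m c) :
    ∃ ψ : P2 → P2, Tendsto ψ (𝓝 0) (𝓝 0) ∧ (∀ᶠ x in 𝓝 0, grad ϱ (ψ x) = grad f x) ∧
      ∃ Φ, Alt Φ ∧ ∀ β ε, 0 < ε * Φ β → ∀ᶠ s : ℝ in 𝓝[>] 0,
        0 < ε * (f (TT a b (s * cis β)) - ϱ (ψ (TT a b (s * cis β)))) := by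
  obtain ⟨n, rfl⟩ := Nat.exists_eq_add_of_le' hm
  have H := hess hD hϱ hC
  have H' := hess hD hf hC'
  set A := d1 (d1 ϱ) 0
  set B := d2 (d2 ϱ) 0
  set A' := d1 (d1 f) 0
  set B' := d2 (d2 f) 0
  have HE : HasStrictFDerivAt (grad ϱ) (He hA.ne' hB.ne : P2 →L[ℝ] P2) 0 := H
  have t0 : Tendsto (grad f) (𝓝 0) (𝓝 (grad ϱ 0)) := by
    rw [(grad_zero ϱ0).trans (grad_zero f0).symm]
    exact H'.continuousAt
  set ψ : P2 → P2 := fun x => HE.localInverse _ _ _ (grad f x) with hψ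
  have t1 : Tendsto ψ (𝓝 0) (𝓝 0) := HE.localInverse_tendsto.comp t0
  have t2 : ∀ᶠ x in 𝓝 0, grad ϱ (ψ x) = grad f x := t0.eventually HE.eventually_right_inverse
  have t3 : ∀ᶠ x in 𝓝 0, grad (fun x => f x - ϱ x) x = grad f x - grad ϱ x := by
    filter_upwards [hf.eventually_analyticAt, hϱ.eventually_analyticAt] with x h1 h2
    simp only [grad, d1, d2, fderiv_fun_sub h1.differentiableAt h2.differentiableAt]
    rfl
  set K : ℝ → ℂ := fun β => c * (n + 2) * cis β ^ (n + 1) with hK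
  set Φ : ℝ → ℝ := fun β => (c * cis β ^ (n + 2)).re - ((n + 2) * (c * cis β ^ (n + 2)).re +
    0 ^ n * ((a * (K β).re) ^ 2 / A + (-(b * (K β).im)) ^ 2 / B) / 2) with hΦ
  refine ⟨ψ, t1, t2, Φ, ?_, fun β ε h => ?_⟩
  · rcases Nat.eq_zero_or_pos n with rfl | hn
    · have u : ∀ ζ : ℂ, (a * (c * 2 * ζ).re, -(b * (c * 2 * ζ).im)) =
          Hm A' B' (TT a b ζ) - Hm A B (TT a b ζ) := fun ζ => by
        have u1 := ((H'.hasFDerivAt.sub H.hasFDerivAt).hasLineDerivAt
          (TT a b ζ)).tendsto_slope_zero_right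
        have u2 := (lead_lim ha hb hL ζ).2
        simp only [zero_add, pow_one, Nat.cast_zero] at u1 u2
        refine tendsto_nhds_unique_of_eventuallyEq u2 u1 ?_
        filter_upwards [(ray_tendsto (TT a b ζ)).eventually t3] with s hs
        simp [hs, grad_zero f0, grad_zero ϱ0]
      have u1 := u 1
      have u2 := u Complex.I
      simp [Hm_apply, TT_apply, ha.ne', hb.ne'] at u1 u2
      have k0 : c.re ≠ 0 := fun h => hL.1 (Complex.ext h u1.2)
      have e1 : A' = A + 2 * c.re * a ^ 2 := by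
        have := u1.1
        field_simp at this
        linarith
      have e2 : B' = B - 2 * c.re * b ^ 2 := by
        have := u2.2
        field_simp at this
        linarith
      convert alt_two (neg_ne_zero.2 k0) (div_pos hA' hA) (div_pos_of_neg_of_neg hB' hB) using 2
        with β
      have := hA.ne'
      have := hB.ne
      simp [hΦ, hK, sq, cis_re, cis_im, u1.2, e1, e2]
      field_simp
      ring
    · convert alt_high hL.1 (m := n + 2) (by omega) (κ := -(n + 1 : ℝ))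
        (neg_ne_zero.2 (by positivity)) using 2 with β
      simp only [hΦ, zero_pow hn.ne']
      ring
  · obtain ⟨l1, l2⟩ := lead_lim ha hb hL (cis β)
    have r := ray_tendsto (TT a b (cis β))
    have l3 := ray_lim hA.ne' hB.ne hϱ ϱ0 H (x' := fun s => ψ (s • TT a b (cis β)))
      (TT a b (cis β)) _ n (t1.comp r) (l2.congr' (by
        filter_upwards [r.eventually t2, r.eventually t3] with s h1 h2
        rw [h1, h2]))
    have l4 : dot (TT a b (cis β)) (a * (K β).re, -(b * (K β).im)) =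
        (n + 2) * (c * cis β ^ (n + 2)).re := by
      have : ((n + 2 : ℝ) : ℂ) * (c * cis β ^ (n + 2)) = K β * cis β := by
        rw [hK]; push_cast; ring
      rw [← Complex.re_ofReal_mul (n + 2), this]
      generalize K β = k
      rw [Complex.mul_re, dot, TT_apply]
      field_simp
      ring
    rw [l4] at l3
    filter_upwards [((l1.sub l3).const_mul ε).eventually (lt_mem_nhds h), self_mem_nhdsWithin]
      with s h1 (hs : 0 < s)
    rw [TT_ray]
    have p : 0 < (s ^ (n + 2))⁻¹ := by positivity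
    refine (mul_pos_iff_of_pos_left p).1 (h1.trans_eq ?_)
    ring

end Pool.Agent.Lib.MP_16d934_gt.DMid
end
end
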