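import Pool.Agent.Lib.MP_16d934_gt.StC
import Pool.Agent.Lib.MP_ecd4e3_gt.InvDom

-- part Pool.Agent.Lib.MP_16d934_gt.EUa
section

/-! Different leaves have different jets, and all jets occur. -/

set_option autoImplicit false

open Set Metric Filter Topology
open scoped InnerProductSpace Real

noncomputable section

namespace Pool.Agent.Lib.MP_16d934_gt

namespace EUa

theorem rj_inj {r p q r' p' q' : ℝ} (h0 : 0 < r) (h1 : r < π / 2) (h0' : 0 < r')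
    (h1' : r' < π / 2) (hp : 0 < p) (hp' : 0 < p') (hq : q < 0) (hq' : q' < 0)
    (h : rj r p q = rj r' p' q') : r = r' ∧ p = p' ∧ q = q' := by
  have c : 0 < Real.cos r := Real.cos_pos_of_mem_Ioo ⟨by linarith, h1⟩
  have c' : 0 < Real.cos r' := Real.cos_pos_of_mem_Ioo ⟨by linarith, h1'⟩
  have s : 0 < Real.sin r := Real.sin_pos_of_pos_of_lt_pi h0 (by linarith)
  simp only [rj, Prod.mk.injEq] at h
  obtain ⟨e1, e2, e3, e4⟩ := h
  have er : r = r' := Real.injOn_cos ⟨h0.le, by linarith⟩ ⟨h0'.le, by linarith⟩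
    ((pow_left_inj₀ c.le c'.le two_ne_zero).1 e1)
  subst er
  have w : 0 < √(1 + p ^ 2 / Real.sin r ^ 2 + q ^ 2 / Real.cos r ^ 2) :=
    Real.sqrt_pos.2 (by positivity)
  have w' : 0 < √(1 + p' ^ 2 / Real.sin r ^ 2 + q' ^ 2 / Real.cos r ^ 2) :=
    Real.sqrt_pos.2 (by positivity)
  rw [div_eq_div_iff w.ne' w'.ne'] at e2
  have ew := mul_left_cancel₀ (mul_pos s c).ne' e2
  rw [ew, div_left_inj' w.ne'] at e3 e4
  rw [abs_of_pos hp, abs_of_pos hp'] at e4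
  rw [abs_of_neg hq, abs_of_neg hq'] at e3
  exact ⟨rfl, e4, neg_injective e3⟩

theorem coord (hT : TetS) {a b : ℝ} {u ϱ : P2 → ℝ} (h : LeafPiece a b u ϱ) {y : P2}
    (hy : y ∈ Rho a b) (h1 : 0 < y.1) (h2 : 0 < y.2) : ∃ x ∈ Box (hA a) (hA b), 0 < x.1 ∧ 0 < x.2 ∧
      gX O0 u y = rX ϱ 0 0 x ∧ lj u y = rj (ϱ x) (d1 ϱ x) (d2 ϱ x) := by
  obtain ⟨x, hx, e⟩ := h.conv y hy
  obtain ⟨y', -, e', ej, i1, i2⟩ := h.mem x hx
  obtain rfl : y = y' := (hT.inj O0 _ _ _ _ (e.trans e'.symm)).1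
  exact ⟨x, hx, i1.2 h1, i2.2 h2, e, ej⟩

theorem inn (hT : TetS) (hL : LfS) (hP : PieceS) (hU : U1S) : ∀ l ∈ Ioo 0 π, ∀ l' ∈ Ioo 0 π,
    ∀ y ∈ Rho (aL l) √2, ∀ y' ∈ Rho (aL l') √2, 0 < y.1 →
    0 < y.2 → 0 < y'.1 → 0 < y'.2 → lj (lf l) y = lj (lf l') y' → l = l' ∧ y = y' := by
  intro l hl l' hl' y hy y' hy' h1 h2 h1' h2' e
  obtain ⟨ϱ, hϱ⟩ := hP _ _ _ (hL l hl)
  obtain ⟨ϱ', hϱ'⟩ := hP _ _ _ (hL l' hl')
  obtain ⟨x, hx, x1, x2, eX, ej⟩ := coord hT hϱ hy h1 h2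
  obtain ⟨x', hx', x1', x2', eX', ej'⟩ := coord hT hϱ' hy' h1' h2'
  obtain ⟨er, ep, eq⟩ := rj_inj (hϱ.piece.rng x hx).1 (hϱ.piece.rng x hx).2
    (hϱ'.piece.rng x' hx').1 (hϱ'.piece.rng x' hx').2 (hϱ.piece.m1 x hx x1)
    (hϱ'.piece.m1 x' hx' x1') (hϱ.piece.m2 x hx x2) (hϱ'.piece.m2 x' hx' x2')
    (ej.symm.trans (e.trans ej'))
  obtain ⟨ew, ex⟩ := hU _ _ _ _ _ hϱ.piece hϱ'.piece x hx x' hx' x1 x2 x1' x2' er ep eq
  rw [(hT.ang.2.2 l hl).2, (hT.ang.2.2 l' hl').2] at ew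
  obtain rfl : l = l' := by linarith
  subst ex
  refine ⟨rfl, (hT.inj O0 _ _ (lf l y) (lf l y') ?_).1⟩
  show gX O0 (lf l) y = gX O0 (lf l) y'
  rw [eX, eX', rX, rX, er]

/-- the special points of a germ -/
def Sp (Y M : P2 → E4) (s : P2) : Prop :=
  (u34 (Y 0) (M 0) = 0 ∧ u34 (Y s) (M s) = 0 ∧ ∃ c : ℝ, 0 < c ∧ wc (Y s) = c * wc (Y 0)) ∨
    (u34 (Y 0) (M 0) ≠ 0 ∧ (u12 (Y s) (M s) = 0 ∨ vv (Y s) (M s) = 0) ∧
      ∃ c : ℝ, 0 < c ∧ zc (Y s) = c * zc (Y 0))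

/-- the good points of a germ -/
def Gd (l : ℝ) (Y M : P2 → E4) (s : P2) : Prop :=
  AnalyticAt ℝ Y s ∧ (ContinuousAt M s ∧ ‖Y s‖ = 1 ∧ ‖M s‖ = 1 ∧ ⟪M s, Y s⟫_ℝ = 0 ∧
    MinEq Y s ∧ ⟪M s, d1 Y s⟫_ℝ = 0 ∧ ⟪M s, d2 Y s⟫_ℝ = 0) ∧
      (Inn l (jet (Y s) (M s)) ∨ Sp Y M s)

theorem ev_gd {l : ℝ} {Y M : P2 → E4} (h : Germ l Y M) : ∀ᶠ s in 𝓝 (0 : P2), Gd l Y M s :=
  h.ana.eventually_analyticAt.and (h.geo.and h.alt)

theorem patch (hP : ParamS) {l : ℝ} {Y M : P2 → E4} (h : Germ l Y M) :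
    ∃ U, (0 : P2) ∈ U ∧ Patch (Y '' U) U Y ∧ ∀ s ∈ U, Gd l Y M s := by
  obtain ⟨U, hU, h0, hp⟩ := hP.toS Y 0 h.ana h.imm (h.geo.mono fun s hs => ⟨hs.2.1, hs.2.2.2.2.1⟩)
    _ (ev_gd h)
  exact ⟨U, h0, hp, hU⟩

theorem isNor (hP : ParamS) {S : Set E4} (hS : IsMin S) {l : ℝ} {Y M : P2 → E4} {s : P2}
    (h : Gd l Y M s) (hi : Function.Injective (fderiv ℝ Y s)) (he : ∀ᶠ x in 𝓝 s, Y x ∈ S) :
    IsNor S (Y s) (M s) :=
  ((hP.inS S hS Y s h.1.contDiffAt hi he).2.2 _).2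
    ⟨h.2.1.2.2.1, h.2.1.2.2.2.1, h.2.1.2.2.2.2.2.1, h.2.1.2.2.2.2.2.2⟩

theorem jet_nor (hC : ChartS) (hI : InvS) {S : Set E4} (hS : IsMin S) {x n : E4} (hx : x ∈ S)
    (h : IsNor S x n) : jet x n = jet x (nor S x) := by
  rcases ((hC.nor_spec S hS x hx).2 n).1 h with e | e
  · rw [e]
  · rw [e, hI.neg]

theorem inn_pos (hA : AttS) {l : ℝ} (hl : l ∈ Ioo 0 π) {x n : E4} (h : Inn l (jet x n)) :
    vv x n ≠ 0 ∧ u12 x n ≠ 0 ∧ u34 x n ≠ 0 := by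
  obtain ⟨y, hy, h1, h2, e⟩ := h
  obtain ⟨-, -, a1, a2, a3, -⟩ := hA.int l hl y hy
  rw [← e] at a1 a2 a3
  refine ⟨abs_pos.1 a1, fun h => h2.ne' (a2.1 ?_), fun h => h1.ne' (a3.1 ?_)⟩
  · exact abs_eq_zero.2 h
  · exact abs_eq_zero.2 h

theorem not_sp (hA : AttS) {l : ℝ} (hl : l ∈ Ioo 0 π) {Y M : P2 → E4} {s : P2}
    (h : Inn l (jet (Y s) (M s))) : ¬ Sp Y M s := by
  obtain ⟨a1, a2, a3⟩ := inn_pos hA hl h
  rintro (⟨-, e, -⟩ | ⟨-, e | e, -⟩)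
  exacts [a3 e, a2 e, a1 e]

theorem fam {l : ℝ} {Y M : P2 → E4} (h : Germ l Y M) (g : ℝ → Iso) (g0 : ∀ x, g 0 x = x)
    (gc : Continuous fun q : ℝ × E4 => g q.1 q.2) :
    ∃ δ, Fam 0 δ (fun q => g q.1 (Y q.2)) (fun q => g q.1 (M q.2)) (Y 0) (M 0) ∧
      ∀ s ∈ ball (0 : P2) δ, Gd l Y M s := by
  obtain ⟨δ, hδ, hb⟩ := Metric.eventually_nhds_iff_ball.1 (ev_gd h)
  have hm : ∀ q ∈ ball ((0, 0) : ℝ × P2) δ, Gd l Y M q.2 := fun q hq => hb _ (by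
    rw [← ball_prod_same] at hq
    exact hq.2)
  have e : (fun s => g 0 (Y s)) = Y := funext fun s => g0 _
  refine ⟨δ, ⟨hδ, fun q hq => ?_, fun q hq => ?_, g0 _, g0 _, fun q hq => ?_, ?_, ?_, ?_⟩, hb⟩
  · exact (gc.continuousAt.comp (f := fun q : ℝ × P2 => (q.1, Y q.2)) (continuousAt_fst.prodMk
      ((hm q hq).1.continuousAt.comp continuousAt_snd))).continuousWithinAt
  · exact (gc.continuousAt.comp (f := fun q : ℝ × P2 => (q.1, M q.2)) (continuousAt_fst.prodMk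
      ((hm q hq).2.1.1.comp continuousAt_snd))).continuousWithinAt
  · obtain ⟨-, ⟨-, a1, a2, a3, -⟩, -⟩ := hm q hq
    exact ⟨by rw [LinearIsometryEquiv.norm_map, a1], by rw [LinearIsometryEquiv.norm_map, a2],
      by rw [LinearIsometryEquiv.inner_map_map, a3]⟩
  · simp only [e]
    exact h.ana
  · simp only [e]
    exact h.imm
  · simp only [g0]
    exact h.geo.mono fun s hs => hs.2.2.2.2

theorem main (hC : ChartS) (hP : ParamS) (hI : InvS) (hPc : PcS) (hA : AttS) {l l' : ℝ}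
    (hl : l ∈ Ioo 0 π) (hl' : l' ∈ Ioo 0 π) (hne : ∀ j, Inn l j → ¬ Inn l' j)
    {Y M Y' M' : P2 → E4} (h : Germ l Y M) (h' : Germ l' Y' M') (eY : Y' 0 = Y 0)
    (eM : M' 0 = M 0) (a0 : 0 < aa (Y 0)) (a1 : aa (Y 0) < 1)
    (hu : u34 (Y 0) (M 0) ≠ 0 ∨ u12 (Y 0) (M 0) ≠ 0) (g : ℝ → Iso) (g0 : ∀ x, g 0 x = x)
    (gc : Continuous fun q : ℝ × E4 => g q.1 q.2) (gg : ∀ t, Gam (g t)) :
    ∀ᶠ t in 𝓝 (0 : ℝ), ∃ s s', Sp Y M s ∧ Sp Y' M' s' ∧
      (u34 (Y 0) (M 0) ≠ 0 → ∃ φ, g t (Y' s') = rot 0 φ (Y s)) ∧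
      (u34 (Y 0) (M 0) = 0 → ∃ θ, g t (Y' s') = rot θ 0 (Y s)) := by
  obtain ⟨U, h0, hp, hg⟩ := patch hP h
  have hS : IsMin (Y '' U) := fun p hp' => ⟨U, Y, hp, hp'⟩
  have hn : ∀ s ∈ U, IsNor (Y '' U) (Y s) (M s) := fun s hs => isNor hP hS (hg s hs) (hp.imm s hs)
    (mem_of_superset (hp.isOpen.mem_nhds hs) fun x hx => mem_image_of_mem Y hx)
  have both : ∀ s ∈ U, ∀ s', Gd l' Y' M' s' → jet (Y s) (M s) = jet (Y' s') (M' s') →
      Sp Y M s ∧ Sp Y' M' s' := by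
    intro s hs s' hs' e
    rcases (hg s hs).2.2 with i | i <;> rcases hs'.2.2 with i' | i'
    · exact (hne _ i (e ▸ i')).elim
    · exact (not_sp hA hl (e ▸ i) i').elim
    · exact (not_sp hA hl' (e ▸ i') i).elim
    · exact ⟨i, i'⟩
  obtain ⟨δ, hF, hb⟩ := fam h' g g0 gc
  rw [eY, eM] at hF
  rcases hPc _ _ _ _ _ _ _ hS (mem_image_of_mem Y h0) (hn 0 h0) a0 a1 hu hF with hc | hc
  · exfalso
    obtain ⟨U', h0', hp', hg'⟩ := patch hP h'
    simp only [g0] at hc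
    obtain ⟨s', i', hs', he⟩ := (h'.freq.and_eventually
      (Eventually.and (hp'.isOpen.mem_nhds h0') hc.eventually_nhds)).exists
    have n' := isNor hP hS (hg' s' hs') (hp'.imm s' hs') he
    obtain ⟨s, hs, es⟩ := he.self_of_nhds
    have e : jet (Y s) (M s) = jet (Y' s') (M' s') := by
      rw [jet_nor hC hI hS (mem_image_of_mem Y hs) (hn s hs),
        jet_nor hC hI hS he.self_of_nhds n', es]
    exact not_sp hA hl' i' (both s hs s' (hg' s' hs') e).2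
  · filter_upwards [hc univ univ_mem] with t ht
    obtain ⟨s', hs', -, x, ⟨⟨s, hs, rfl⟩, -⟩, ej, r1, r2⟩ := ht
    rw [← ball_prod_same] at hs'
    have e : jet (Y s) (M s) = jet (Y' s') (M' s') := by
      rw [jet_nor hC hI hS (mem_image_of_mem Y hs) (hn s hs), ej]
      exact (hI.gam _ (gg t)).2.2 _ _
    obtain ⟨b, b'⟩ := both s hs s' (hb s' hs'.2) e
    exact ⟨s, s', b, b', fun hh => (r1 hh).imp fun _ hφ => hφ.1,
      fun hh => (r2 hh).imp fun _ hφ => hφ.1⟩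

theorem rot_cont : Continuous fun q : (ℝ × ℝ) × E4 => rot q.1.1 q.1.2 q.2 := by
  simp only [rot, mkO_apply, Matrix.cons_val_zero, Matrix.cons_val_one, Matrix.cons_val]
  fun_prop

theorem rot_zero (x : E4) : rot 0 0 x = x := by
  ext i
  fin_cases i <;> simp [rot, mkO_apply]

theorem zc_rot (θ φ : ℝ) (x : E4) : zc (rot θ φ x) = ⟨Real.cos θ, Real.sin θ⟩ * zc x := by
  refine Complex.ext ?_ ?_ <;> simp [zc, rot, mkO_apply] <;> ring

theorem wc_rot (θ φ : ℝ) (x : E4) : wc (rot θ φ x) = ⟨Real.cos φ, Real.sin φ⟩ * wc x := by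
  refine Complex.ext ?_ ?_ <;> simp [wc, rot, mkO_apply] <;> ring

theorem turn {t c c' : ℝ} {z : ℂ} (hz : z ≠ 0) (hc : 0 < c') (ht : t ∈ Ioo 0 π)
    (h : (⟨Real.cos t, Real.sin t⟩ : ℂ) * (c' * z) = ⟨Real.cos 0, Real.sin 0⟩ * (c * z)) :
    False := by
  rw [← mul_assoc, ← mul_assoc] at h
  have h1 := congrArg Complex.im (mul_right_cancel₀ hz h)
  simp at h1
  rcases h1 with h1 | h1
  · exact (Real.sin_pos_of_pos_of_lt_pi ht.1 ht.2).ne' h1
  · exact hc.ne' h1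

theorem small {p : ℝ → Prop} (h : ∀ᶠ t in 𝓝 (0 : ℝ), p t) : ∃ t ∈ Ioo 0 π, p t :=
  (Eventually.and (Ioo_mem_nhdsGT Real.pi_pos) (h.filter_mono nhdsWithin_le_nhds)).exists

theorem att_js (hA : AttS) {l : ℝ} (hl : l ∈ Ioo 0 π) {j : J4} (h : Att l j) : j ∈ JS := by
  rcases hA.char l hl j h with ⟨y, hy, -, -, rfl⟩ | ⟨s, hs, rfl⟩
  exacts [(hA.int l hl y hy).1, (hA.edge l hl s hs).1]

theorem att_mid (hA : AttS) {l : ℝ} (hl : l ∈ Ioo 0 π) {j : J4} (h : Att l j)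
    (h1 : j.2.2.1 = 0) (h2 : j.2.2.2 = 0) : j.1 = aa (gX O0 (lf l) 0) := by
  rcases hA.char l hl j h with ⟨y, hy, -, -, rfl⟩ | ⟨s, hs, rfl⟩
  · obtain ⟨-, -, -, a2, a3, -⟩ := hA.int l hl y hy
    obtain rfl : y = 0 := Prod.ext (a3.1 h2) (a2.1 h1)
    rfl
  · exact ((hA.edge l hl s hs).2.2.2.1.ne' h1).elim

end EUa

open EUa in
theorem uaS (hC : ChartS) (hP : ParamS) (hI : InvS) (hPc : PcS) (hT : TetS) (hL : LfS)
    (hPi : PieceS) (hU : U1S) (hAl : AlignS) (hA : AttS) : UaS := by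
  refine ⟨inn hT hL hPi hU, fun l hl l' hl' j h h' => ?_⟩
  by_contra hne
  obtain ⟨p, n, p1, n1, np, rfl⟩ := hI.real j (att_js hA hl h)
  by_cases hu : u34 p n ≠ 0 ∨ u12 p n ≠ 0
  swap
  · push Not at hu
    have e1 : (jet p n).2.2.1 = 0 := abs_eq_zero.2 hu.2
    have e2 : (jet p n).2.2.2 = 0 := abs_eq_zero.2 hu.1
    exact hne (hAl.mid.injOn hl hl'
      ((att_mid hA hl h e1 e2).symm.trans (att_mid hA hl' h' e1 e2)))
  obtain ⟨Y, M, rfl, rfl, hG⟩ := hA.germ l hl p n p1 n1 np h hu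
  obtain ⟨Y', M', eY, eM, hG'⟩ := hA.germ l' hl' _ _ p1 n1 np h' hu
  have hn : ∀ j, Inn l j → ¬ Inn l' j := by
    rintro j ⟨y, hy, y1, y2, e⟩ ⟨y', hy', y1', y2', e'⟩
    exact hne (inn hT hL hPi hU l hl l' hl' y hy y' hy' y1 y2 y1' y2' (e.symm.trans e')).1
  have a0 : 0 < aa (Y 0) := h.1
  have a1 : aa (Y 0) < 1 := h.2.1
  by_cases h34 : u34 (Y 0) (M 0) = 0
  · obtain ⟨t, ht, s, s', b, b', -, r⟩ := small (main hC hP hI hPc hA hl hl' hn hG hG' eY eM a0 a1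
      hu (fun t => rot 0 t) rot_zero (rot_cont.comp (f := fun q : ℝ × E4 => ((0, q.1), q.2))
        (by fun_prop)) fun t => hI.gams.1 _ _)
    obtain ⟨θ, e⟩ := r h34
    obtain ⟨-, -, c, -, ec⟩ := b.resolve_right fun hh => hh.1 h34
    obtain ⟨-, -, c', hc', ec'⟩ := b'.resolve_right fun hh => hh.1 (by rw [eY, eM, h34])
    have e1 := congrArg wc e
    rw [wc_rot, wc_rot, ec, ec', eY] at e1
    refine turn (fun h0 => ?_) hc' ht e1
    have h1 := real_inner_self_eq_norm_sq (Y 0)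
    have h2 : Y 0 2 = 0 := congrArg Complex.re h0
    have h3 : Y 0 3 = 0 := congrArg Complex.im h0
    rw [inner4, p1, h2, h3] at h1
    unfold aa at a1
    linarith
  · obtain ⟨t, ht, s, s', b, b', r, -⟩ := small (main hC hP hI hPc hA hl hl' hn hG hG' eY eM a0 a1
      hu (fun t => rot t 0) rot_zero (rot_cont.comp (f := fun q : ℝ × E4 => ((q.1, 0), q.2))
        (by fun_prop)) fun t => hI.gams.1 _ _)
    obtain ⟨θ, e⟩ := r h34
    obtain ⟨-, -, c, -, ec⟩ := b.resolve_left fun hh => h34 hh.1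
    obtain ⟨-, -, c', hc', ec'⟩ := b'.resolve_left fun hh => h34 (by rw [← eY, ← eM, hh.1])
    have e1 := congrArg zc e
    rw [zc_rot, zc_rot, ec, ec', eY] at e1
    refine turn (fun h0 => ?_) hc' ht e1
    have h2 : Y 0 0 = 0 := congrArg Complex.re h0
    have h3 : Y 0 1 = 0 := congrArg Complex.im h0
    unfold aa at a0
    rw [h2, h3] at a0
    linarith

namespace EUa

/-- a limit of jets of leaves is attained -/
theorem limit (hLi : LimS) (hA : AttS) {j : J4} (h0 : 0 < j.1) (h1 : j.1 < 1)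
    (hb : j.2.2.1 ^ 2 / j.1 < 1) (hc : j.2.2.2 ^ 2 / (1 - j.1) < 1)
    (h : j ∈ closure {i | ∃ l ∈ Ioo 0 π, ∃ y ∈ Rho (aL l) √2, i = lj (lf l) y}) :
    ∃ l ∈ Ioo 0 π, Att l j := by
  obtain ⟨i, hi, hj⟩ := mem_closure_iff_seq_limit.1 h
  choose l hl y hy e using hi
  obtain ⟨m, hm, φ, hφ, ht⟩ := isCompact_Icc.tendsto_subseq fun k => Ioo_subset_Icc_self (hl k)
  have hj' : Tendsto (fun k => i (φ k)) atTop (𝓝 j) := hj.comp hφ.tendsto_atTop
  have t1 : Tendsto (fun k => (i (φ k)).1) atTop (𝓝 j.1) := (continuous_fst.tendsto j).comp hj'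
  have hε : 0 < min j.1 (1 - j.1) / 2 := by
    have := lt_min h0 (sub_pos.2 h1)
    linarith
  have m1 := min_le_left j.1 (1 - j.1)
  have m2 := min_le_right j.1 (1 - j.1)
  have ea : ∀ᶠ k in atTop, min j.1 (1 - j.1) / 2 ≤ (i (φ k)).1 ∧
      (i (φ k)).1 ≤ 1 - min j.1 (1 - j.1) / 2 :=
    (t1.eventually_const_le (by linarith)).and (t1.eventually_le_const (by linarith))
  rcases hm.1.eq_or_lt with e0 | e0
  · exfalso
    obtain ⟨l₀, hl₀, H⟩ := hLi.zero _ _ hε (half_pos (sub_pos.2 hb))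
    have t2 : Tendsto (fun k => 1 - (i (φ k)).2.2.1 ^ 2 / (i (φ k)).1) atTop
        (𝓝 (1 - j.2.2.1 ^ 2 / j.1)) :=
      ((((by fun_prop : Continuous fun j : J4 => j.2.2.1 ^ 2).tendsto j).comp hj').div t1
        h0.ne').const_sub 1
    have := le_of_tendsto t2 (b := (1 - j.2.2.1 ^ 2 / j.1) / 2) (by
      filter_upwards [ea, ht.eventually_lt_const (e0 ▸ hl₀)] with k k1 k2
      rw [e] at k1 ⊢
      have := (H _ (hl _) k2 _ (hy _) k1.1 k1.2).1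
      rwa [← sq_abs (u12 _ _)] at this)
    linarith
  rcases hm.2.eq_or_lt with e1 | e1
  · exfalso
    obtain ⟨l₁, hl₁, H⟩ := hLi.top _ _ hε (half_pos (sub_pos.2 hc))
    have t2 : Tendsto (fun k => 1 - (i (φ k)).2.2.2 ^ 2 / (1 - (i (φ k)).1)) atTop
        (𝓝 (1 - j.2.2.2 ^ 2 / (1 - j.1))) :=
      ((((by fun_prop : Continuous fun j : J4 => j.2.2.2 ^ 2).tendsto j).comp hj').div
        (t1.const_sub 1) (sub_pos.2 h1).ne').const_sub 1
    have := le_of_tendsto t2 (b := (1 - j.2.2.2 ^ 2 / (1 - j.1)) / 2) (by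
      filter_upwards [ea, ht.eventually_const_lt (e1 ▸ hl₁)] with k k1 k2
      rw [e] at k1 ⊢
      have := H _ (hl _) k2 _ (hy _) k1.1 k1.2
      rwa [← sq_abs (u34 _ _)] at this)
    linarith
  refine ⟨m, ⟨e0, e1⟩, hA.cl m ⟨e0, e1⟩ j h0 h1 (mem_closure_of_tendsto (ht.prodMk_nhds hj')
    (Eventually.of_forall fun k => ⟨hl _, ?_⟩))⟩
  show Att (l (φ k)) (i (φ k))
  rw [e]
  exact (hA.int _ (hl _) _ (hy _)).2.1

/-- three-space -/
abbrev E3 : Type := EuclideanSpace ℝ (Fin 3)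

/-- simplex coordinates of a jet -/
def GG (j : J4) : E3 := !₂[j.1, j.2.2.1 ^ 2 / j.1, j.2.2.2 ^ 2 / (1 - j.1)]

/-- the jet with given simplex coordinates -/
def HH (v : E3) : J4 :=
  (v 0, √(v 0 * (1 - v 0) * (1 - v 1 - v 2)), √(v 0 * v 1), √((1 - v 0) * v 2))

/-- the open prism -/
def Cv : Set E3 := {v | 0 < v 0 ∧ v 0 < 1 ∧ 0 < v 1 ∧ 0 < v 2 ∧ v 1 + v 2 < 1}

/-- parameters of the open quarters of the leaves -/
def Dm : Set E3 := {v | v 0 ∈ Ioo 0 π ∧ 0 < v 1 ∧ 0 < v 2 ∧ (v 1, v 2) ∈ Rho (aL (v 0)) √2}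

/-- the jet map -/
def Ps (v : E3) : E3 := GG (lj (lf (v 0)) (v 1, v 2))

theorem HH_cont : Continuous HH := by
  unfold HH
  fun_prop

theorem HH_GG {j : J4} (h : j ∈ JS) : HH (GG j) = j := by
  obtain ⟨a, v, b, c⟩ := j
  obtain ⟨h0, h1, h2, h3, h4, h5⟩ := h
  simp only at h0 h1 h2 h3 h4 h5
  have h6 : 0 < 1 - a := sub_pos.2 h1
  have e1 : a * (1 - a) * (1 - b ^ 2 / a - c ^ 2 / (1 - a)) = v ^ 2 := by
    rw [show 1 - b ^ 2 / a - c ^ 2 / (1 - a) = v ^ 2 / (a * (1 - a)) by linarith]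
    field_simp
  have e2 : a * (b ^ 2 / a) = b ^ 2 := by field_simp
  have e3 : (1 - a) * (c ^ 2 / (1 - a)) = c ^ 2 := by field_simp
  show (a, √(a * (1 - a) * (1 - b ^ 2 / a - c ^ 2 / (1 - a))), √(a * (b ^ 2 / a)),
    √((1 - a) * (c ^ 2 / (1 - a)))) = (a, v, b, c)
  rw [e1, e2, e3, Real.sqrt_sq h2, Real.sqrt_sq h3, Real.sqrt_sq h4]

theorem GG_HH {v : E3} (h : v ∈ Cv) : GG (HH v) = v := by
  obtain ⟨h0, h1, h2, h3, -⟩ := h
  have h6 : 0 < 1 - v 0 := sub_pos.2 h1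
  ext i
  fin_cases i
  · rfl
  · show √(v 0 * v 1) ^ 2 / v 0 = v 1
    rw [Real.sq_sqrt (by positivity)]
    field_simp
  · show √((1 - v 0) * v 2) ^ 2 / (1 - v 0) = v 2
    rw [Real.sq_sqrt (by positivity)]
    field_simp

theorem Cv_convex : Convex ℝ Cv := by
  intro x hx y hy a b ha hb hab
  obtain ⟨x0, x1, x2, x3, x4⟩ := hx
  obtain ⟨y0, y1, y2, y3, y4⟩ := hy
  have key : ∀ s t : ℝ, 0 < s → 0 < t → 0 < a * s + b * t := fun s t hs ht => by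
    rcases ha.eq_or_lt with e | e
    · rw [← e, zero_add] at hab
      rw [← e, hab]
      linarith
    · have := mul_pos e hs
      have := mul_nonneg hb ht.le
      linarith
  have k1 := key _ _ (sub_pos.2 x1) (sub_pos.2 y1)
  have k2 := key _ _ (sub_pos.2 x4) (sub_pos.2 y4)
  simp only [Cv, mem_ofPred_eq, PiLp.add_apply, PiLp.smul_apply, smul_eq_mul]
  exact ⟨key _ _ x0 y0, by linarith, key _ _ x2 y2, key _ _ x3 y3, by linarith⟩

theorem Dm_open (hT : TetS) : IsOpen Dm := by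
  rw [isOpen_iff_mem_nhds]
  rintro v ⟨h0, h1, h2, h3⟩
  have c : ∀ i, ContinuousAt (fun v : E3 => v i) v := fun i => by fun_prop
  have ca : ContinuousAt (fun v : E3 => aL (v 0)) v := by
    refine continuousAt_const.mul (ContinuousAt.comp (f := fun v : E3 => v 0 / 2)
      (Real.continuousAt_tan.2 (Real.cos_pos_of_mem_Ioo ⟨?_, ?_⟩).ne') (by fun_prop))
    · linarith [h0.1, Real.pi_pos]
    · linarith [h0.2]
  have c3 : ContinuousAt (fun v : E3 => |v 1| / aL (v 0) + |v 2| / √2) v :=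
    ((c 1).abs.div ca (hT.ang.2.2 _ h0).1.ne').add ((c 2).abs.div_const _)
  filter_upwards [(c 0).eventually (Ioo_mem_nhds h0.1 h0.2), (c 1).eventually (lt_mem_nhds h1),
    (c 2).eventually (lt_mem_nhds h2), c3.eventually (gt_mem_nhds h3)] with w w0 w1 w2 w3
  exact ⟨w0, w1, w2, w3⟩

theorem jet_cont : Continuous fun q : P2 × ℝ × ℝ × ℝ × ℝ × ℝ × ℝ =>
    jet (O0 (gn q.1 q.2.1)) (O0 (nrm q.1 q.2.1 q.2.2.1 q.2.2.2.1)) := by
  have h1 : Continuous fun q : P2 × ℝ × ℝ × ℝ × ℝ × ℝ × ℝ => gn q.1 q.2.1 :=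
    (Continuous.inv₀ (by fun_prop) fun q => (Real.sqrt_pos.2 (by positivity)).ne').smul
      (by fun_prop)
  have h2 : Continuous fun q : P2 × ℝ × ℝ × ℝ × ℝ × ℝ × ℝ => nrm q.1 q.2.1 q.2.2.1 q.2.2.2.1 :=
    (Continuous.inv₀ (by fun_prop) fun q => (Real.sqrt_pos.2 (by positivity)).ne').smul
      (by fun_prop)
  have h3 : Continuous fun q : E4 × E4 => jet q.1 q.2 := by
    unfold jet aa vv u12 u34
    fun_prop
  exact h3.comp ((O0.continuous.comp h1).prodMk (O0.continuous.comp h2))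

theorem lj_cont (hIc : IcS) {l : ℝ} (hl : l ∈ Ioo 0 π) {y : P2} (hy : y ∈ Rho (aL l) √2) :
    ContinuousAt (fun q : ℝ × P2 => lj (lf q.1) q.2) (l, y) := by
  have h1 : ContinuousAt (fun q : ℝ × P2 => (q.2, j2 (lf q.1) q.2)) (l, y) :=
    continuousAt_snd.prodMk (hIc.int l hl y hy)
  have h2 := jet_cont.continuousAt.comp' h1
  simp only [j2] at h2
  simp only [lj, gX, gN]
  exact h2

theorem GG_cont {j : J4} (j0 : 0 < j.1) (j1 : j.1 < 1) : ContinuousAt GG j := by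
  have := j0.ne'
  have := (sub_pos.2 j1).ne'
  unfold GG
  fun_prop (disch := assumption)

theorem Ps_cont (hIc : IcS) (hA : AttS) : ContinuousOn Ps Dm := by
  rintro v ⟨h0, -, -, h3⟩
  have c0 : ContinuousAt (fun v : E3 => ((v 0, (v 1, v 2)) : ℝ × P2)) v := by fun_prop
  have c1 := ContinuousAt.comp' (f := fun v : E3 => ((v 0, (v 1, v 2)) : ℝ × P2))
    (lj_cont hIc h0 h3) c0
  obtain ⟨j0, j1, -⟩ := (hA.int _ h0 _ h3).1
  exact (ContinuousAt.comp' (f := fun v : E3 => lj (lf (v 0)) (v 1, v 2))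
    (GG_cont j0 j1) c1).continuousWithinAt

theorem Ps_inj (hA : AttS) (hU : UaS) : InjOn Ps Dm := by
  rintro v ⟨h0, h1, h2, h3⟩ w ⟨k0, k1, k2, k3⟩ e
  have e1 := congrArg HH e
  rw [Ps, Ps, HH_GG (hA.int _ h0 _ h3).1, HH_GG (hA.int _ k0 _ k3).1] at e1
  obtain ⟨a, b⟩ := hU.inn _ h0 _ k0 _ h3 _ k3 h1 h2 k1 k2 e1
  ext i
  fin_cases i
  exacts [a, congrArg Prod.fst b, congrArg Prod.snd b]

theorem Ps_mem (hA : AttS) {v : E3} (h : v ∈ Dm) : Ps v ∈ Cv := by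
  obtain ⟨h0, h1, h2, h3⟩ := h
  obtain ⟨⟨j0, j1, -, -, -, j5⟩, -, a1, a2, a3, -⟩ := hA.int _ h0 _ h3
  have j6 := sub_pos.2 j1
  have b2 := fun h => h2.ne' (a2.1 h)
  have b3 := fun h => h1.ne' (a3.1 h)
  refine ⟨j0, j1, div_pos (pow_pos (lt_of_le_of_ne (abs_nonneg _) (Ne.symm b2)) 2) j0,
    div_pos (pow_pos (lt_of_le_of_ne (abs_nonneg _) (Ne.symm b3)) 2) j6, ?_⟩
  have := div_pos (pow_pos a1 2) (mul_pos j0 j6)
  show (lj (lf (v 0)) (v 1, v 2)).2.2.1 ^ 2 / (lj (lf (v 0)) (v 1, v 2)).1 +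
    (lj (lf (v 0)) (v 1, v 2)).2.2.2 ^ 2 / (1 - (lj (lf (v 0)) (v 1, v 2)).1) < 1
  linarith

theorem HH_mem (hA : AttS) : MapsTo HH (Ps '' Dm)
    {i | ∃ l ∈ Ioo 0 π, ∃ y ∈ Rho (aL l) √2, i = lj (lf l) y} := by
  rintro _ ⟨v, ⟨h0, -, -, h3⟩, rfl⟩
  exact ⟨_, h0, _, h3, HH_GG (hA.int _ h0 _ h3).1⟩

theorem Ps_surj (hT : TetS) (hIc : IcS) (hLi : LimS) (hA : AttS) (hU : UaS) : Cv ⊆ Ps '' Dm := by
  refine Cv_convex.isPreconnected.subset_of_closure_inter_subset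
    (MP_ecd4e3_gt.inv_domain (Dm_open hT) (Ps_cont hIc hA) (Ps_inj hA hU)) ?_ ?_
  · have hl : π / 2 ∈ Ioo 0 π := ⟨by positivity, by linarith [Real.pi_pos]⟩
    have ha := (hT.ang.2.2 _ hl).1
    have hv : (!₂[π / 2, aL (π / 2) / 4, √2 / 4] : E3) ∈ Dm := by
      refine ⟨hl, (by positivity : 0 < aL (π / 2) / 4), (by positivity : (0 : ℝ) < √2 / 4), ?_⟩
      show |aL (π / 2) / 4| / aL (π / 2) + |√2 / 4| / √2 < 1
      rw [abs_of_pos (by positivity), abs_of_pos (by positivity)]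
      field_simp
      norm_num
    exact ⟨_, Ps_mem hA hv, _, hv, rfl⟩
  · rintro v ⟨hv, hc⟩
    have e := GG_HH hc
    obtain ⟨c0, c1, c2, c3, c4⟩ := hc
    have c5 := sub_pos.2 c1
    have e1 : (HH v).2.2.1 ^ 2 / (HH v).1 = v 1 := congrArg (fun w : E3 => w 1) e
    have e2 : (HH v).2.2.2 ^ 2 / (1 - (HH v).1) = v 2 := congrArg (fun w : E3 => w 2) e
    obtain ⟨l, hl, h⟩ := limit hLi hA (j := HH v) c0 c1 (by linarith) (by linarith)
      ((HH_mem hA).closure HH_cont hv)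
    rcases hA.char l hl _ h with ⟨y, hy, y1, y2, ey⟩ | ⟨s, hs, es⟩
    · obtain ⟨-, -, -, a2, a3, -⟩ := hA.int l hl y hy
      rw [← ey] at a2 a3
      refine ⟨!₂[l, y.1, y.2], ⟨hl, y1.lt_of_ne fun h0 => ?_, y2.lt_of_ne fun h0 => ?_, hy⟩, ?_⟩
      · exact (Real.sqrt_pos.2 (mul_pos c5 c3)).ne' (a3.2 h0.symm)
      · exact (Real.sqrt_pos.2 (mul_pos c0 c2)).ne' (a2.2 h0.symm)
      · rw [← e, ey]
        rfl
    · have h1 := (hA.edge l hl s hs).2.2.1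
      rw [← es] at h1
      exact ((Real.sqrt_pos.2 (mul_pos (mul_pos c0 c5) (by linarith))).ne' h1).elim

end EUa

open EUa in
theorem eaS (hT : TetS) (hIc : IcS) (hLi : LimS) (hA : AttS) (hU : UaS) : EaS := by
  intro j hj n1 n2
  have e := HH_GG hj
  obtain ⟨h0, h1, h2, h3, h4, h5⟩ := hj
  have h6 := sub_pos.2 h1
  have p1 : 0 ≤ j.2.1 ^ 2 / (j.1 * (1 - j.1)) := by positivity
  have p2 : 0 ≤ j.2.2.1 ^ 2 / j.1 := by positivity
  have p3 : 0 ≤ j.2.2.2 ^ 2 / (1 - j.1) := by positivity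
  have z : ∀ {x d : ℝ}, 0 < d → x ^ 2 / d = 0 → x = 0 := fun hd h =>
    pow_eq_zero_iff two_ne_zero |>.1 ((div_eq_zero_iff.1 h).resolve_right hd.ne')
  refine limit hLi hA h0 h1 (not_le.1 fun h => n1 ⟨z (mul_pos h0 h6) (by linarith),
    z h6 (by linarith)⟩) (not_le.1 fun h => n2 ⟨z (mul_pos h0 h6) (by linarith),
    z h0 (by linarith)⟩) ?_
  rw [← e]
  refine (((HH_mem hA).mono_left (Ps_surj hT hIc hLi hA hU)).closure HH_cont) ?_
  have c : Continuous fun t : ℝ => (!₂[j.1, (1 - t) * (j.2.2.1 ^ 2 / j.1) + t / 3,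
      (1 - t) * (j.2.2.2 ^ 2 / (1 - j.1)) + t / 3] : E3) := by fun_prop
  have t0 := (c.tendsto 0).mono_left (nhdsWithin_le_nhds (s := Ioi 0))
  simp only [sub_zero, one_mul, zero_div, add_zero] at t0
  refine mem_closure_of_tendsto t0 ?_
  filter_upwards [Ioo_mem_nhdsGT one_pos] with t ht
  have q1 := mul_nonneg (sub_pos.2 ht.2).le p1
  have q2 := mul_nonneg (sub_pos.2 ht.2).le p2
  have q3 := mul_nonneg (sub_pos.2 ht.2).le p3
  have q4 := congrArg (fun x => (1 - t) * x) h5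
  simp only [mul_add, mul_one] at q4
  refine ⟨h0, h1, ?_, ?_, ?_⟩
  · show 0 < (1 - t) * (j.2.2.1 ^ 2 / j.1) + t / 3
    linarith [ht.1]
  · show 0 < (1 - t) * (j.2.2.2 ^ 2 / (1 - j.1)) + t / 3
    linarith [ht.1]
  · show (1 - t) * (j.2.2.1 ^ 2 / j.1) + t / 3 + ((1 - t) * (j.2.2.2 ^ 2 / (1 - j.1)) + t / 3) < 1
    linarith [ht.1]

end Pool.Agent.Lib.MP_16d934_gt
end
end

-- part Pool.Agent.Lib.MP_16d934_gt.DNorm
section

/-! Normal form of a type-0 symmetry. -/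

set_option autoImplicit false

open Set Metric Filter Topology
open scoped InnerProductSpace

noncomputable section

namespace Pool.Agent.Lib.MP_16d934_gt

namespace DNorm

abbrev E3 : Type := EuclideanSpace ℝ (Fin 3)

theorem great_conn {v : E4} (hv : v ≠ 0) : IsPreconnected {x : E4 | ‖x‖ = 1 ∧ ⟪v, x⟫_ℝ = 0} := by
  have : Fact (Module.finrank ℝ E4 = 3 + 1) := ⟨by simp⟩
  have h : 1 < Module.rank ℝ (ℝ ∙ v)ᗮ := by
    rw [← Module.finrank_eq_rank, Submodule.finrank_orthogonal_span_singleton (n := 3) hv]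
    norm_num
  suffices e : {x : E4 | ‖x‖ = 1 ∧ ⟪v, x⟫_ℝ = 0} = Subtype.val '' sphere (0 : (ℝ ∙ v)ᗮ) 1 from
    e ▸ (isPreconnected_sphere h 0 1).image _ continuous_subtype_val.continuousOn
  ext x
  constructor
  · rintro ⟨h1, h2⟩
    exact ⟨⟨x, Submodule.mem_orthogonal_singleton_iff_inner_right.2 h2⟩, by simpa using h1, rfl⟩
  · rintro ⟨y, h1, rfl⟩
    exact ⟨by simpa using h1, Submodule.mem_orthogonal_singleton_iff_inner_right.1 y.2⟩

theorem ngeo (hC : ChartS) (hT : TouchS) (hH : HomS) {γ : ℕ} {S : Set E4} (hγ : 1 ≤ γ)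
    (h : ClosedMin γ S) (v : E4) (hv : v ≠ 0) : ∃ x ∈ S, ⟪v, x⟫_ℝ ≠ 0 := by
  obtain ⟨hm, hc, ⟨⟨p, hp⟩, -⟩, hb⟩ := h
  by_contra hn
  push Not at hn
  have sub : S ⊆ {x : E4 | ‖x‖ = 1 ∧ ⟪v, x⟫_ℝ = 0} := fun x hx => ⟨hC.unit S hm x hx, hn x hx⟩
  rcases hT.pers S _ hm (hT.great v hv) p hp (sub hp) with e | e
  · have := hT.cont _ S (hT.great v hv) hm (great_conn hv)
      (fun x hx => hc.isClosed.closure_subset hx.2) ⟨p, sub hp, e ▸ self_mem_nhdsWithin⟩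
    rw [sub.antisymm this, hH.sph v hv] at hb
    omega
  · obtain ⟨ε, hε, e⟩ := e univ univ_mem
    have n0 := norm_pos_iff.2 hv
    have c : ContinuousAt (fun t : ℝ => |Real.cos t - 1| + |Real.sin t|) 0 := by fun_prop
    have ev : ∀ᶠ t in 𝓝[>] (0 : ℝ), |Real.cos t - 1| + |Real.sin t| < ε ∧ t < 1 :=
      eventually_nhdsWithin_of_eventually_nhds
        ((c.eventually_lt continuousAt_const (by simpa using hε)).and (eventually_lt_nhds one_pos))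
    obtain ⟨t, ⟨h1, h2⟩, h3⟩ := (ev.and self_mem_nhdsWithin).exists
    have s0 := Real.sin_pos_of_pos_of_lt_pi h3 (by linarith [Real.pi_gt_three])
    have u1 : ‖‖v‖⁻¹ • v‖ = 1 := norm_smul_inv_norm (𝕜 := ℝ) hv
    obtain ⟨x, hx, gx⟩ := e (fun x => Real.cos t • x + Real.sin t • ‖v‖⁻¹ • v) (by fun_prop)
      fun x hx => by
        obtain ⟨⟨x1, x2⟩, -⟩ := hx
        constructor
        · rw [← sq_eq_sq₀ (norm_nonneg _) zero_le_one, norm_add_sq_real, norm_smul, norm_smul, u1,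
            x1, inner_smul_left, inner_smul_right, inner_smul_right, real_inner_comm, x2]
          simp
        · rw [show Real.cos t • x + Real.sin t • ‖v‖⁻¹ • v - x =
            (Real.cos t - 1) • x + Real.sin t • ‖v‖⁻¹ • v by module]
          refine (norm_add_le _ _).trans_lt ?_
          rw [norm_smul, norm_smul, u1, x1]
          simpa using h1
    have := hn _ gx
    rw [inner_add_right, inner_smul_right, hx.1.2, inner_smul_right, inner_smul_right,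
      real_inner_self_eq_norm_sq] at this
    have p : 0 < Real.sin t * (‖v‖⁻¹ * ‖v‖ ^ 2) := by positivity
    linarith

theorem is_refl (h2 : TwoS) {S : Set E4} (hm : IsMin S) (hc : IsCompact S)
    (ng : ∀ v : E4, v ≠ 0 → ∃ x ∈ S, ⟪v, x⟫_ℝ ≠ 0) (τ : Iso) (inv : ∀ x, τ (τ x) = x)
    (mp : τ '' S = S) (eff : ∃ x ∈ S, τ x ≠ x) (sep : ¬ IsPreconnected (S \ {x | τ x = x})) :
    ∃ v : E4, ‖v‖ = 1 ∧ ∀ x, τ x = x - (2 * ⟪v, x⟫_ℝ) • v := by
  set K : Submodule ℝ E4 := LinearMap.ker (τ.toLinearEquiv.toLinearMap + LinearMap.id)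
  have mK : ∀ x, x ∈ K ↔ τ x = -x := fun x => by simp [K, add_eq_zero_iff_eq_neg]
  have dK : ∀ x, x - τ x ∈ K := fun x => by rw [mK, map_sub, inv, neg_sub]
  have fl : ∀ v ∈ K, ∀ x, ⟪v, τ x⟫_ℝ = -⟪v, x⟫_ℝ := fun v hv x => by
    rw [← τ.inner_map_map, inv, (mK v).1 hv, inner_neg_left]
  have tw : ∀ v ∈ K, ∀ x, ⟪v, x - τ x⟫_ℝ = 2 * ⟪v, x⟫_ℝ := fun v hv x => by
    rw [inner_sub_right, fl v hv]; ring
  obtain ⟨x₀, hx₀, n₀⟩ := eff
  have rk : Module.rank ℝ K ≤ 1 := by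
    by_contra hr
    refine sep ?_
    set T := S \ {x | τ x = x}
    set A : K → Set E4 := fun v => S ∩ {x | 0 < ⟪(v : E4), x⟫_ℝ}
    have AT : ∀ v, A v ⊆ T := fun v x hx => ⟨hx.1, fun e => by
      have := fl v v.2 x
      rw [show τ x = x from e] at this
      linarith [show 0 < ⟪(v : E4), x⟫_ℝ from hx.2]⟩
    have TA : ∀ x ∈ T, (⟨_, dK x⟩ : K) ∈ ({0}ᶜ : Set K) ∧ x ∈ A ⟨_, dK x⟩ := fun x hx => by
      have n : x - τ x ≠ 0 := sub_ne_zero.2 (Ne.symm hx.2)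
      refine ⟨fun e => n (congrArg Subtype.val e), hx.1, ?_⟩
      have := tw _ (dK x) x
      have p := real_inner_self_pos.2 n
      change 0 < ⟪x - τ x, x⟫_ℝ
      linarith
    have key : ∀ v w x, x ∈ A v → x ∈ A w → A v ⊆ connectedComponentIn T x₀ →
        A w ⊆ connectedComponentIn T x₀ := fun v w x a b c => by
      rw [connectedComponentIn_eq (c a)]
      exact (h2 S hm hc w).subset_connectedComponentIn b (AT w)
    have all : T ⊆ connectedComponentIn T x₀ := fun y hy => by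
      have t0 := TA x₀ ⟨hx₀, n₀⟩
      refine (isConnected_compl_singleton_of_one_lt_rank (not_le.1 hr) 0).2.induction₂'
        (fun v w => A v ⊆ connectedComponentIn T x₀ → A w ⊆ connectedComponentIn T x₀)
        (fun v hv => ?_) (fun _ _ _ _ _ _ a b c => b (a c)) t0.1 (TA y hy).1
        ((h2 S hm hc _).subset_connectedComponentIn t0.2 (AT _)) (TA y hy).2
      obtain ⟨x, hx⟩ : (A v).Nonempty := by
        obtain ⟨x, h1, h3⟩ := ng v fun e => hv (Subtype.ext e)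
        rcases h3.lt_or_gt with h | h
        · exact ⟨τ x, mp ▸ mem_image_of_mem _ h1, by simpa [fl v v.2] using h⟩
        · exact ⟨x, h1, h⟩
      have c : Continuous fun w : K => ⟪(w : E4), x⟫_ℝ := by fun_prop
      filter_upwards [nhdsWithin_le_nhds (continuousAt_const.eventually_lt c.continuousAt hx.2)]
        with w hw
      exact ⟨key v w x hx ⟨hx.1, hw⟩, key w v x ⟨hx.1, hw⟩ hx⟩
    rw [all.antisymm (connectedComponentIn_subset _ _)]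
    exact isPreconnected_connectedComponentIn
  obtain ⟨u, hu⟩ := rank_le_one_iff.1 rk
  have u0 : (u : E4) ≠ 0 := fun e => by
    obtain ⟨r, hr⟩ := hu ⟨_, dK x₀⟩
    have : r • (u : E4) = x₀ - τ x₀ := congrArg Subtype.val hr
    rw [e, smul_zero] at this
    exact n₀ (sub_eq_zero.1 this.symm).symm
  have n0 := (norm_pos_iff.2 u0).ne'
  refine ⟨‖(u : E4)‖⁻¹ • (u : E4), norm_smul_inv_norm (𝕜 := ℝ) u0, fun x => ?_⟩
  obtain ⟨r, hr⟩ := hu ⟨_, dK x⟩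
  have e : r • (u : E4) = x - τ x := congrArg Subtype.val hr
  rw [← tw _ (K.smul_mem _ u.2), ← e, inner_smul_left, inner_smul_right,
    real_inner_self_eq_norm_sq, smul_smul, eq_sub_iff_add_eq', ← eq_sub_iff_add_eq, ← e]
  congr 1
  simp only [conj_trivial]
  field_simp

theorem orth {τ ρ : Iso} {v w : E4} (v1 : ‖v‖ = 1) (w1 : ‖w‖ = 1)
    (hτ : ∀ x, τ x = x - (2 * ⟪v, x⟫_ℝ) • v) (hρ : ∀ x, ρ x = x - (2 * ⟪w, x⟫_ℝ) • w)
    (comm : ∀ x, τ (ρ x) = ρ (τ x)) {y : E4} (hy : τ y ≠ ρ y) : ⟪v, w⟫_ℝ = 0 := by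
  by_contra c0
  have vv : ⟪v, v⟫_ℝ = 1 := by rw [real_inner_self_eq_norm_sq, v1, one_pow]
  have ww : ⟪w, w⟫_ℝ = 1 := by rw [real_inner_self_eq_norm_sq, w1, one_pow]
  have h := comm v
  simp only [hτ, hρ, inner_sub_right, inner_smul_right, vv, real_inner_comm v w] at h
  set c := ⟪v, w⟫_ℝ
  have e : w = c • v := by
    have : (4 * c) • w = (4 * c) • c • v := by linear_combination (norm := module) -h
    exact smul_right_injective _ (mul_ne_zero four_ne_zero c0) this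
  have c2 : c * c = 1 := by
    rw [e, inner_smul_left, inner_smul_right, vv] at ww
    simpa using ww
  refine hy ?_
  rw [hτ, hρ, e, inner_smul_left, smul_smul]
  congr 2
  simp only [conj_trivial]
  linear_combination (-2 * ⟪v, y⟫_ℝ) * c2

theorem frame {v w : E4} (v1 : ‖v‖ = 1) (w1 : ‖w‖ = 1) (h : ⟪v, w⟫_ℝ = 0) :
    ∃ g : Iso, (∀ x, g x 0 = ⟪v, x⟫_ℝ) ∧ (∀ x, g x 1 = ⟪w, x⟫_ℝ) ∧ g v = ee 0 ∧ g w = ee 1 := by
  obtain ⟨b, hb⟩ := Orthonormal.exists_orthonormalBasis_extension_of_card_eq (𝕜 := ℝ) (E := E4)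
    (ι := Fin 4) (by simp) (v := ![v, w, 0, 0]) (s := {0, 1}) (by
      rw [orthonormal_iff_ite]
      rintro ⟨i, rfl | rfl⟩ ⟨j, rfl | rfl⟩ <;>
        simp [v1, w1, h, real_inner_comm v w, Subtype.ext_iff])
  have b0 : b 0 = v := hb 0 (by simp)
  have b1 : b 1 = w := hb 1 (by simp)
  exact ⟨b.repr, fun x => by rw [b.repr_apply_apply, b0], fun x => by rw [b.repr_apply_apply, b1],
    b0 ▸ b.repr_self 0, b1 ▸ b.repr_self 1⟩

theorem rf0_eq (x : E4) : rf0 x = x - (2 * x 0) • ee 0 := by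
  ext i; fin_cases i <;> simp [rf0, mkO_apply, ee]; ring

theorem rf1_eq (x : E4) : rf1 x = x - (2 * x 1) • ee 1 := by
  ext i; fin_cases i <;> simp [rf1, mkO_apply, ee]; ring

theorem rf0_zero (x : E4) : rf0 x 0 = -x 0 := by simp [rf0, mkO_apply]

theorem rf0_fix {x : E4} : rf0 x = x ↔ x 0 = 0 :=
  ⟨fun h => by have := rf0_zero x; rw [h] at this; linarith, fun h => by simp [rf0_eq, h]⟩

theorem inner_ee (x : E4) : ⟪ee 0, x⟫_ℝ = x 0 := by simp [inner4, ee]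

theorem stereo {q : E3} (hq : ‖q‖ = 1) : ∃ (a : E3 → ℂ) (s : ℂ → E3),
    ContinuousOn a {x | ‖x‖ = 1 ∧ x ≠ q} ∧ Continuous s ∧ Function.Injective s ∧
      (∀ z, ‖s z‖ = 1) ∧ ∀ x, ‖x‖ = 1 → x ≠ q → s (a x) = x := by
  have : Fact (Module.finrank ℝ E3 = 2 + 1) := ⟨by simp⟩
  have q0 : q ≠ 0 := by rintro rfl; simp at hq
  let L : (ℝ ∙ q)ᗮ ≃L[ℝ] ℂ := ContinuousLinearEquiv.ofFinrankEq (by
    rw [Submodule.finrank_orthogonal_span_singleton (n := 2) q0, Complex.finrank_real_complex])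
  refine ⟨fun x => L (stereoToFun q x), fun z => stereoInvFun hq (L.symm z), ?_, ?_, ?_, ?_, ?_⟩
  · refine L.continuous.comp_continuousOn (continuousOn_stereoToFun.mono fun x hx e => hx.2 ?_)
    exact ((inner_eq_one_iff_of_norm_eq_one (𝕜 := ℝ) hq hx.1).1 e).symm
  · exact continuous_subtype_val.comp ((continuous_stereoInvFun hq).comp L.symm.continuous)
  · intro z z' e
    have := congrArg (stereoToFun q) e
    rw [stereo_right_inv, stereo_right_inv] at this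
    exact L.symm.injective this
  · exact fun z => norm_eq_of_mem_sphere _
  · intro x h1 h2
    simp only [L.symm_apply_apply]
    exact congrArg Subtype.val (stereo_left_inv hq (x := ⟨x, by simpa using h1⟩) h2)

theorem mirror {S : Set E4} (h : Sym S) : ∃ x ∈ S, x 0 = 0 := by
  obtain ⟨x, hx⟩ := h.conn.1
  have c : ContinuousOn (fun y : E4 => y 0) S := by fun_prop
  have := h.r0 x hx
  rcases le_total (x 0) 0 with l | l
  · exact h.conn.2.intermediate_value hx this c ⟨l, by simpa [rf0_zero] using l⟩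
  · exact h.conn.2.intermediate_value this hx c ⟨by simpa [rf0_zero] using l, l⟩

/-- a plane mapped injectively into a surface covers a neighbourhood -/
theorem open_img {S : Set E4} (hm : IsMin S) {k : ℂ → E4} (kc : Continuous k)
    (ki : Function.Injective k) (kS : ∀ z, k z ∈ S) (z₀ : ℂ) : range k ∈ 𝓝[S] (k z₀) := by
  obtain ⟨U, X, P, y₀, hy₀, e₀⟩ := hm _ (kS z₀)
  obtain ⟨V, Vo, hV⟩ := P.rel U subset_rfl P.isOpen
  have Wo : IsOpen (k ⁻¹' V) := Vo.preimage kc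
  have ex : ∀ z ∈ k ⁻¹' V, ∃ y ∈ U, X y = k z := fun z hz =>
    (hV ▸ ⟨kS z, hz⟩ : k z ∈ X '' U)
  choose! m mU mX using ex
  have z0 : z₀ ∈ k ⁻¹' V := (hV ▸ ⟨y₀, hy₀, e₀⟩ : k z₀ ∈ S ∩ V).2
  have mc : ContinuousOn m (k ⁻¹' V) := fun z hz => by
    refine tendsto_nhds.2 fun U' o h => ?_
    obtain ⟨V', o', h'⟩ := P.rel (U ∩ U') inter_subset_left (P.isOpen.inter o)
    have : k z ∈ V' := (h' ▸ ⟨m z, ⟨mU z hz, h⟩, mX z hz⟩ : k z ∈ S ∩ V').2
    filter_upwards [self_mem_nhdsWithin,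
      nhdsWithin_le_nhds ((o'.preimage kc).mem_nhds this)] with x x1 x2
    obtain ⟨y, y1, y2⟩ : k x ∈ X '' (U ∩ U') := h' ▸ ⟨kS x, x2⟩
    have := P.inj y1.1 (mU x x1) (y2.trans (mX x x1).symm)
    exact (this ▸ y1.2 : m x ∈ U')
  have op := MP_ecd4e3_gt.inv_domain Wo (f := fun z => Complex.equivRealProdCLM.symm (m z))
    (Complex.equivRealProdCLM.symm.continuous.comp_continuousOn mc) fun z hz z' hz' e =>
      ki (by rw [← mX z hz, ← mX z' hz', Complex.equivRealProdCLM.symm.injective e])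
  have op' : IsOpen (m '' (k ⁻¹' V)) := by
    have := op.preimage Complex.equivRealProdCLM.symm.continuous
    rwa [← image_image, preimage_image_eq _ Complex.equivRealProdCLM.symm.injective] at this
  obtain ⟨V', o', h'⟩ := P.rel _ (image_subset_iff.2 mU) op'
  have : k z₀ ∈ V' := (h' ▸ ⟨m z₀, ⟨z₀, z0, rfl⟩, mX _ z0⟩ : k z₀ ∈ S ∩ V').2
  refine mem_of_superset (inter_mem_nhdsWithin S (o'.mem_nhds this)) ?_
  rw [← h']
  rintro _ ⟨_, ⟨z, hz, rfl⟩, rfl⟩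
  exact ⟨z, (mX z hz).symm⟩

theorem planar (hT : TouchS) {S : Set E4} (h : Sym S) {F : E4 → E3} (Fc : ContinuousOn F S)
    (F1 : ∀ x ∈ S, ‖F x‖ = 1) (Fi : ∀ x ∈ S, ∀ y ∈ S, F x = F y → y = x ∨ y = rf0 x) :
    Planar {x | x ∈ S ∧ 0 ≤ x 0} := by
  set Y := {x | x ∈ S ∧ 0 ≤ x 0}
  have Yc : IsCompact Y :=
    h.cpt.inter_right (isClosed_le (g := fun x : E4 => x 0) continuous_const (by fun_prop))
  have inj : InjOn F Y := fun x hx y hy e => by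
    rcases Fi x hx.1 y hy.1 e with e | e
    · exact e.symm
    · have := hy.2
      rw [e, rf0_zero] at this
      rw [e, rf0_fix.2 (by linarith [hx.2])]
  have om : ∃ q : E3, ‖q‖ = 1 ∧ ∀ x ∈ Y, F x ≠ q := by
    by_contra hn
    push Not at hn
    obtain ⟨p, hp, p0⟩ := mirror h
    have n1 := F1 p hp
    obtain ⟨a, s, -, sc, si, s1, sa⟩ := stereo (q := -F p) (by rwa [norm_neg])
    choose k kY kF using fun z => hn (s z) (s1 z)
    have : CompactSpace Y := isCompact_iff_compactSpace.1 Yc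
    have emb := ((continuousOn_iff_continuous_domRestrict.1
      (Fc.mono fun x (hx : x ∈ Y) => hx.1)).isClosedEmbedding
        (injOn_iff_injective.1 inj)).isInducing
    have kc : Continuous k := continuous_subtype_val.comp
      ((emb.continuous_iff (f := fun z => (⟨k z, kY z⟩ : Y))).2 (sc.congr fun z => (kF z).symm))
    have ne : F p ≠ -F p := fun e => by
      have := real_inner_self_eq_norm_sq (F p)
      have e' := congrArg (fun x => ⟪F p, x⟫_ℝ) e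
      simp only [inner_neg_right, this, n1] at e'
      norm_num at e'
    have kp : k (a (F p)) = p := inj (kY _) ⟨hp, p0.ge⟩ ((kF _).trans (sa _ n1 ne))
    have nb := open_img h.minimal kc (fun z z' e => si (by rw [← kF, ← kF, e])) (fun z => (kY z).1)
      (a (F p))
    rw [kp] at nb
    obtain ⟨x, hx, x0⟩ := h.ngeo (ee 0) (by simp [ee])
    refine x0 (hT.geo S h.minimal h.conn.2 _ ⟨p, hp, hT.sphere S h.minimal p hp _
      (by rw [inner_ee, p0]) ?_⟩ x hx)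
    filter_upwards [nb]
    rintro _ ⟨z, rfl⟩
    rw [inner_ee]
    exact (kY z).2
  obtain ⟨q, q1, hq⟩ := om
  obtain ⟨a, s, ac, -, -, -, sa⟩ := stereo q1
  refine ⟨fun x => a (F x), ac.comp (Fc.mono fun x hx => hx.1) fun x hx => ⟨F1 x hx.1, hq x hx⟩,
    fun x hx y hy e => inj hx hy ?_⟩
  rw [← sa _ (F1 x hx.1) (hq x hx), ← sa _ (F1 y hy.1) (hq y hy)]
  exact congrArg s e

end DNorm

open DNorm in
theorem normS (hC : ChartS) (hT : TouchS) (hI : InvS) (h2 : TwoS) (hH : HomS) : NormS := by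
  intro γ S τ ρ hγ h t
  have ng := ngeo hC hT hH hγ h
  obtain ⟨hm, hc, hk, -⟩ := h
  obtain ⟨v, v1, hτ⟩ := is_refl h2 hm hc ng τ t.invτ t.mapτ t.effτ t.sepτ
  obtain ⟨w, w1, hρ⟩ := is_refl h2 hm hc ng ρ t.invρ t.mapρ t.effρ t.sepρ
  obtain ⟨y, -, hy⟩ := t.effτρ
  obtain ⟨g, g0, g1, gv, gw⟩ := frame v1 w1 (orth v1 w1 hτ hρ t.comm hy)
  have e0 : ∀ x, rf0 (g x) = g (τ x) := fun x => by rw [rf0_eq, hτ, map_sub, map_smul, g0, gv]
  have e1 : ∀ x, rf1 (g x) = g (ρ x) := fun x => by rw [rf1_eq, hρ, map_sub, map_smul, g1, gw]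
  have sym : Sym (g '' S) := by
    refine ⟨hI.min g S hm, hc.image g.continuous, hk.image _ g.continuous.continuousOn, ?_, ?_,
      fun u hu => ?_⟩
    · rintro _ ⟨x, hx, rfl⟩
      exact ⟨τ x, t.mapτ ▸ mem_image_of_mem _ hx, (e0 x).symm⟩
    · rintro _ ⟨x, hx, rfl⟩
      exact ⟨ρ x, t.mapρ ▸ mem_image_of_mem _ hx, (e1 x).symm⟩
    · obtain ⟨x, hx, n⟩ := ng (g.symm u) (by simpa using hu)
      exact ⟨g x, ⟨x, hx, rfl⟩, by rwa [← g.inner_map_map, g.apply_symm_apply] at n⟩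
  obtain ⟨F, Fc, F1, Fi⟩ := t.genus0
  have fix : ∀ x, τ x = x ↔ g x 0 = 0 := fun x => by rw [← rf0_fix, e0, g.injective.eq_iff]
  refine ⟨g, sym, planar hT sym (F := fun x => F (g.symm x))
    (Fc.comp g.symm.continuous.continuousOn ?_) ?_ ?_, ?_, mirror sym⟩
  · rintro _ ⟨x, hx, rfl⟩
    simpa using hx
  · rintro _ ⟨x, hx, rfl⟩
    simpa using F1 x hx
  · rintro _ ⟨x, hx, rfl⟩ _ ⟨y, hy, rfl⟩ e
    simp only [g.symm_apply_apply] at e
    rw [e0]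
    exact ((Fi x hx y hy).1 e).imp (congrArg g) (congrArg g)
  · rintro _ ⟨x, hx, rfl⟩ x0
    have m : x ∈ S ∩ {y | τ y = y} := ⟨hx, (fix x).2 x0⟩
    have : ρ x ∈ connectedComponentIn (S ∩ {y | τ y = y}) x :=
      t.ovals x hx m.2 ▸ mem_image_of_mem _ (mem_connectedComponentIn m)
    rw [e1]
    refine connectedComponentIn_mono _ ?_
      (g.continuous.continuousOn.image_connectedComponentIn_subset m (mem_image_of_mem _ this))
    rintro _ ⟨z, hz, rfl⟩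
    exact ⟨⟨z, hz.1, rfl⟩, (fix z).1 hz.2⟩

end Pool.Agent.Lib.MP_16d934_gt
end
end
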