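import Pool.Agent.Lib.MP_16d934_gt.StC

-- part Pool.Agent.Lib.MP_16d934_gt.DOrd
section

/-! The angle function at ordinary points, and the final count. -/

set_option autoImplicit false

open Set Metric Filter Topology
open scoped InnerProductSpace Real

noncomputable section

namespace Pool.Agent.Lib.MP_16d934_gt

namespace DOrd

theorem continuous_aa : Continuous aa := by
  unfold aa
  fun_prop

theorem continuous_jet : Continuous fun q : E4 × E4 => jet q.1 q.2 := by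
  unfold jet aa vv u12 u34
  fun_prop

theorem aa_nonneg (x : E4) : 0 ≤ aa x := by
  unfold aa
  positivity

theorem aa_eq_zero {x : E4} (h : aa x = 0) : x 0 = 0 ∧ x 1 = 0 := by
  unfold aa at h
  constructor <;> nlinarith [sq_nonneg (x 0), sq_nonneg (x 1)]

theorem aa_add {x : E4} (h : ‖x‖ = 1) : aa x + ‖wc x‖ ^ 2 = 1 := by
  have h1 := real_inner_self_eq_norm_sq x
  rw [inner4, h] at h1
  rw [Complex.sq_norm, Complex.normSq_apply]
  simp only [aa, wc]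
  linarith

theorem do_or_bd {S : Set E4} {p : E4} (hp : p ∈ Dq S) : p ∈ Do S ∨ p ∈ Bd S := by
  obtain ⟨h, h0, h1⟩ := hp
  rcases h0.eq_or_lt with e0 | e0
  · exact Or.inr ⟨h, h0, h1, Or.inl e0.symm⟩
  rcases h1.eq_or_lt with e1 | e1
  · exact Or.inr ⟨h, h0, h1, Or.inr e1.symm⟩
  exact Or.inl ⟨h, e0, e1⟩

theorem jet_cont (hC : ChartS) (hI : InvS) {S : Set E4} (hS : IsMin S) :
    ContinuousOn (fun x => jet x (nor S x)) S := by
  intro p hp
  obtain ⟨N, hN, hev⟩ := hC.cont S hS p hp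
  have h1 : ContinuousWithinAt (fun x => jet x (N x)) S p :=
    continuous_jet.continuousAt.comp_continuousWithinAt (f := fun x => (x, N x))
      (continuousWithinAt_id.prodMk hN)
  have h2 : (fun x => jet x (nor S x)) =ᶠ[𝓝[S] p] fun x => jet x (N x) := by
    filter_upwards [hev, self_mem_nhdsWithin] with x hx hxS
    rcases ((hC.nor_spec S hS x hxS).2 _).1 hx with e | e
    · rw [e]
    · rw [e, hI.neg]
  exact h1.congr_of_eventuallyEq h2 (h2.self_of_nhdsWithin hp)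

theorem jet_mem (hC : ChartS) (hI : InvS) {S : Set E4} (hS : IsMin S) {p : E4} (hp : p ∈ Gd S) :
    jet p (nor S p) ∈ JS :=
  hI.mem p _ (hC.unit S hS p hp.1.1) (hC.nor_spec S hS p hp.1.1).1.1
    (hC.nor_spec S hS p hp.1.1).1.2.1 hp.2.1 hp.2.2

/-! ### The circle -/

theorem norm_cis (φ : ℝ) : ‖cis φ‖ = 1 := Complex.norm_exp_ofReal_mul_I φ

theorem continuous_cis : Continuous cis := by
  unfold cis
  fun_prop

theorem cis_mem (φ : ℝ) : cis φ ∈ closedBall (0 : ℂ) 1 :=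
  mem_closedBall_zero_iff.2 (norm_cis φ).le

theorem cis_ne {a φ : ℝ} (h1 : a < φ) (h2 : φ < a + 2 * π) : cis a ≠ cis φ := by
  intro h
  obtain ⟨k, hk⟩ := Complex.exp_eq_exp_iff_exists_int.1 h
  have h3 : a = φ + k * (2 * π) := by
    have := congrArg Complex.im hk
    simpa using this
  have hπ := Real.pi_pos
  have h4 : (k : ℝ) < 0 := by nlinarith
  have h5 : (-1 : ℝ) < k := by nlinarith
  have h6 : k < 0 := by exact_mod_cast h4
  have h7 : -1 < k := by exact_mod_cast h5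
  omega

theorem exists_cis {z : ℂ} (hz : ‖z‖ = 1) (a : ℝ) : ∃ φ ∈ Icc a (a + 2 * π), cis φ = z := by
  have hπ : 0 < 2 * π := by positivity
  refine ⟨toIcoMod hπ a z.arg, Ico_subset_Icc_self (toIcoMod_mem_Ico hπ a _), ?_⟩
  have h1 : cis z.arg = z := by
    have := Complex.norm_mul_exp_arg_mul_I z
    rwa [hz, Complex.ofReal_one, one_mul] at this
  conv_rhs => rw [← h1]
  refine Complex.exp_eq_exp_iff_exists_int.2 ⟨-toIcoDiv hπ a z.arg, ?_⟩
  rw [toIcoMod, zsmul_eq_mul]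
  push_cast
  ring

theorem ray_mem {δ s β : ℝ} (hs : s ∈ Icc 0 δ) (h0 : 0 < β) (h1 : β < π) :
    (s : ℂ) * cis β ∈ Hd δ := by
  refine ⟨?_, ?_⟩
  · rw [norm_mul, norm_cis, mul_one, Complex.norm_real, Real.norm_of_nonneg hs.1]
    exact hs.2
  · have : ((s : ℂ) * cis β).im = s * Real.sin β := by
      simp [cis, Complex.exp_ofReal_mul_I_im]
    rw [this]
    exact mul_nonneg hs.1 (Real.sin_pos_of_pos_of_lt_pi h0 h1).le

theorem zero_mem_Hd {δ : ℝ} (hδ : 0 < δ) : (0 : ℂ) ∈ Hd δ := ⟨by simpa using hδ.le, by simp⟩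

/-- a ray enters every neighbourhood of the centre -/
theorem ray_near {κ : ℂ → E4} {δ β : ℝ} (hδ : 0 < δ) (hκ : ContinuousOn κ (Hd δ)) (h0 : 0 < β)
    (h1 : β < π) {V : Set E4} (hV : V ∈ 𝓝 (κ 0)) : ∃ s ∈ Ioc 0 δ, κ (s * cis β) ∈ V := by
  have h2 : Tendsto (fun s : ℝ => (s : ℂ) * cis β) (𝓝[Ioc 0 δ] 0) (𝓝[Hd δ] 0) := by
    refine tendsto_nhdsWithin_iff.2 ⟨?_, ?_⟩
    · have : Continuous fun s : ℝ => (s : ℂ) * cis β := by fun_prop
      simpa using (this.tendsto 0).mono_left nhdsWithin_le_nhds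
    · filter_upwards [self_mem_nhdsWithin] with s hs
      exact ray_mem (Ioc_subset_Icc_self hs) h0 h1
  have h3 := ((hκ 0 (zero_mem_Hd hδ)).tendsto.comp h2).eventually hV
  have : (𝓝[Ioc 0 δ] (0 : ℝ)).NeBot := left_nhdsWithin_Ioc_neBot hδ
  obtain ⟨s, hs, hs'⟩ := (h3.and self_mem_nhdsWithin).exists
  exact ⟨s, hs', hs⟩

theorem rays_nonExt {R : E4 → ℝ} {A : Set E4} {κ : ℂ → E4} {δ : ℝ} (hδ : 0 < δ)
    (hκ : ContinuousOn κ (Hd δ)) (hA : MapsTo κ (Hd δ) A) (hR : Rays R κ δ) :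
    NonExt R A (κ 0) (R (κ 0)) := by
  obtain ⟨β₁, β₂, β₃, ε, h1, h12, h23, h3, hε, h⟩ := hR
  intro V hV
  obtain ⟨s, hs, hsV⟩ := ray_near hδ hκ h1 (by linarith) hV
  obtain ⟨s', hs', hsV'⟩ := ray_near (β := β₂) hδ hκ (by linarith) (by linarith) hV
  have m1 := hA (ray_mem (β := β₁) (Ioc_subset_Icc_self hs) h1 (by linarith))
  have m2 := hA (ray_mem (β := β₂) (Ioc_subset_Icc_self hs') (by linarith) (by linarith))
  have e1 := (h s hs).1
  have e2 := (h s' hs').2.1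
  rcases hε with rfl | rfl
  · exact ⟨⟨_, ⟨m1, hsV⟩, by linarith⟩, ⟨_, ⟨m2, hsV'⟩, by linarith⟩⟩
  · exact ⟨⟨_, ⟨m2, hsV'⟩, by linarith⟩, ⟨_, ⟨m1, hsV⟩, by linarith⟩⟩

/-! ### The parametrisation by the disc -/

section star

variable {S : Set E4} {H : ℂ → E4} {n : ℕ} {t : ℤ → ℝ}

/-- the inverse of the parametrisation -/
def inv (H : ℂ → E4) : E4 → ℂ := Function.invFunOn H (closedBall 0 1)

theorem H_mem (h : Star S H n t) {z : ℂ} (hz : z ∈ closedBall (0 : ℂ) 1) : H z ∈ Dq S :=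
  h.img ▸ mem_image_of_mem H hz

theorem inv_mem (h : Star S H n t) {x : E4} (hx : x ∈ Dq S) : inv H x ∈ closedBall (0 : ℂ) 1 :=
  Function.invFunOn_mem (by rwa [← h.img] at hx)

theorem H_inv (h : Star S H n t) {x : E4} (hx : x ∈ Dq S) : H (inv H x) = x :=
  Function.invFunOn_eq (by rwa [← h.img] at hx)

theorem inv_H (h : Star S H n t) {z : ℂ} (hz : z ∈ closedBall (0 : ℂ) 1) : inv H (H z) = z :=
  h.inj (inv_mem h (H_mem h hz)) hz (H_inv h (H_mem h hz))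

theorem inv_cont (h : Star S H n t) : ContinuousOn (inv H) (Dq S) := by
  refine continuousOn_iff_isClosed.2 fun T hT => ⟨H '' (closedBall 0 1 ∩ T),
    (((isCompact_closedBall 0 1).inter_right hT).image_of_continuousOn
      (h.cont.mono inter_subset_left)).isClosed, ?_⟩
  ext x
  constructor
  · rintro ⟨h1, h2⟩
    exact ⟨⟨inv H x, ⟨inv_mem h h2, h1⟩, H_inv h h2⟩, h2⟩
  · rintro ⟨⟨z, hz, rfl⟩, h2⟩
    exact ⟨by rw [mem_preimage, inv_H h hz.1]; exact hz.2, h2⟩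

theorem aa_lt_one (h : Star S H n t) (hu : ∀ x ∈ S, ‖x‖ = 1) {z : ℂ}
    (hz : z ∈ closedBall (0 : ℂ) 1) (hz0 : z ≠ 0) : aa (H z) < 1 := by
  obtain ⟨s, hs, e⟩ := h.ray z hz
  have h1 := aa_add (hu _ (H_mem h hz).1)
  have h2 : 0 < ‖wc (H z)‖ := by
    rw [e]
    exact norm_pos_iff.2 (mul_ne_zero (by exact_mod_cast hs.ne') hz0)
  nlinarith

theorem punct_neBot {p : ℂ} (hp : p ∈ closedBall (0 : ℂ) 1) :
    (𝓝[closedBall 0 1 \ {p}] p).NeBot := by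
  have h1 : (closedBall (0 : ℂ) 1).Nontrivial := ⟨0, by simp, 1, by simp, zero_ne_one⟩
  have h2 := (convex_closedBall (0 : ℂ) 1).isPreconnected.preperfect_of_nontrivial h1 p hp
  exact accPt_principal_iff_nhdsWithin.1 h2

/-- near a point off the corners there are good points that avoid a given finite set -/
theorem near_good (h : Star S H n t) (hu : ∀ x ∈ S, ‖x‖ = 1) (F : Finset ℂ) {p : ℂ}
    (hp : p ∈ closedBall (0 : ℂ) 1) (hp0 : 0 < aa (H p)) {V : Set ℂ} (hV : V ∈ 𝓝 p) :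
    ∃ z ∈ closedBall (0 : ℂ) 1 ∩ V, z ∉ F ∧ H z ∈ Gd S := by
  classical
  have := punct_neBot hp
  have h1 : ∀ᶠ z in 𝓝[closedBall 0 1 \ {p}] p, 0 < aa (H z) :=
    (((continuous_aa.continuousAt.comp_continuousWithinAt (h.cont p hp)).mono
      sdiff_subset).tendsto.eventually (lt_mem_nhds hp0))
  have h2 : ((insert 0 F : Finset ℂ).erase p : Set ℂ)ᶜ ∈ 𝓝 p :=
    (Finset.finite_toSet _).isClosed.isOpen_compl.mem_nhds (by simp)
  obtain ⟨z, ⟨⟨hz1, hz2⟩, hz3⟩, hz4⟩ := (((h1.and (mem_nhdsWithin_of_mem_nhds h2)).and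
    (mem_nhdsWithin_of_mem_nhds hV)).and self_mem_nhdsWithin).exists
  have hz5 : z ∉ (insert 0 F : Finset ℂ) := fun hz => hz2 (Finset.mem_erase.2 ⟨hz4.2, hz⟩)
  rw [Finset.mem_insert, not_or] at hz5
  exact ⟨z, ⟨hz4.1, hz3⟩, hz5.2, H_mem h hz4.1, hz1, aa_lt_one h hu hz4.1 hz5.1⟩

theorem corner_t (h : Star S H n t) (i : ℤ) : aa (H (cis (t i))) = 0 := by
  have hm := h.mono.monotone
  obtain ⟨k, rfl | rfl⟩ := Int.even_or_odd' i
  · have h1 := h.ev k _ ⟨le_rfl, hm (by omega)⟩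
    have h2 := h.od (k - 1) (t (2 * k)) ⟨hm (by omega), hm (by omega)⟩
    simp [aa, h1, h2]
  · have h1 := h.ev k (t (2 * k + 1)) ⟨hm (by omega), le_rfl⟩
    have h2 := h.od k _ ⟨le_rfl, hm (by omega)⟩
    simp [aa, h1, h2]

/-- every boundary arc contains an interior local maximum of `aa` -/
theorem arc_max (h : Star S H n t) (i : ℤ) : ∃ a ∈ Ioo (t i) (t (i + 1)),
    0 < aa (H (cis a)) ∧ IsLocalMaxOn aa (Bd S) (H (cis a)) := by
  have hlt : t i < t (i + 1) := h.mono (by omega)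
  have hc : Continuous fun φ => H (cis φ) :=
    h.cont.comp_continuous continuous_cis cis_mem
  obtain ⟨a, ha, hmax⟩ := isCompact_Icc.exists_isMaxOn (nonempty_Icc.2 hlt.le)
    (continuous_aa.comp hc).continuousOn
  have hpos : 0 < aa (H (cis a)) := by
    have h1 : (t i + t (i + 1)) / 2 ∈ Icc (t i) (t (i + 1)) := ⟨by linarith, by linarith⟩
    refine lt_of_lt_of_le ((aa_nonneg _).lt_of_ne' fun h0 => ?_) (hmax h1)
    obtain ⟨k, hk⟩ := h.cor _ (aa_eq_zero h0).1 (aa_eq_zero h0).2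
    have h2 : i < k := h.mono.lt_iff_lt.1 (by linarith)
    have h3 : k < i + 1 := h.mono.lt_iff_lt.1 (by linarith)
    omega
  have ha1 : t i < a := ha.1.lt_of_ne fun e => by
    rw [← e, corner_t h] at hpos
    exact lt_irrefl _ hpos
  have ha2 : a < t (i + 1) := ha.2.lt_of_ne fun e => by
    rw [e, corner_t h] at hpos
    exact lt_irrefl _ hpos
  refine ⟨a, ⟨ha1, ha2⟩, hpos, ?_⟩
  have hK : IsClosed ((fun φ => H (cis φ)) '' Icc (t (i + 1)) (t i + 2 * π)) :=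
    (isCompact_Icc.image hc).isClosed
  have hp : H (cis a) ∉ (fun φ => H (cis φ)) '' Icc (t (i + 1)) (t i + 2 * π) := by
    rintro ⟨φ, hφ, e⟩
    exact cis_ne (ha2.trans_le hφ.1) (by linarith [hφ.2])
      (h.inj (cis_mem _) (cis_mem _) e).symm
  filter_upwards [mem_nhdsWithin_of_mem_nhds (hK.isOpen_compl.mem_nhds hp), self_mem_nhdsWithin]
    with x hx hxB
  have hxD : x ∈ Dq S := ⟨hxB.1, hxB.2.1, hxB.2.2.1⟩
  obtain ⟨φ, hφ, e⟩ := exists_cis ((h.bd _ (inv_mem h hxD)).2 (by rwa [H_inv h hxD])) (t i)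
  have e' : H (cis φ) = x := by rw [e, H_inv h hxD]
  have hφ2 : φ ≤ t (i + 1) := not_lt.1 fun hφ' => hx ⟨φ, ⟨hφ'.le, hφ.2⟩, e'⟩
  rw [← e']
  exact hmax ⟨hφ.1, hφ2⟩

/-- transfer of points from the surface to the disc -/
theorem transfer (h : Star S H n t) {p : ℂ} (hp : p ∈ closedBall (0 : ℂ) 1) {V : Set ℂ}
    (hV : V ∈ 𝓝 p) : ∃ W ∈ 𝓝 (H p), ∀ x ∈ Dq S ∩ W,
      ∃ z ∈ closedBall (0 : ℂ) 1 ∩ V, H z = x := by
  have h1 := (inv_cont h (H p) (H_mem h hp)).tendsto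
  rw [inv_H h hp] at h1
  obtain ⟨W, hW, hsub⟩ := mem_nhdsWithin_iff_exists_mem_nhds_inter.1 (h1 hV)
  exact ⟨W, hW, fun x hx => ⟨inv H x, ⟨inv_mem h hx.1, hsub ⟨hx.2, hx.1⟩⟩, H_inv h hx.1⟩⟩

end star

end DOrd

open DOrd in
theorem ordS (hC : ChartS) (hI : InvS) (hP : PcS) (hL : LocS) (hG : GeoS) : OrdS := by
  intro S Λ hS hΛ hcoin
  have hmin := hS.minimal
  have hrng : ∀ p ∈ Gd S, 0 ≤ RR Λ S p ∧ RR Λ S p < π ∧ (RR Λ S p = 0 ↔ p ∈ Crit S) := by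
    intro p hp
    have hj := jet_mem hC hI hmin hp
    refine ⟨(hΛ.rng _ hj).1, (hΛ.rng _ hj).2.lt_of_ne fun e => ?_, ?_⟩
    · obtain ⟨h1, h2⟩ := (hΛ.top _ hj).1 e
      rcases do_or_bd hp.1 with h | h
      · exact hG.b4 S hS p h (abs_eq_zero.1 h2)
      · exact (hG.bdv S hS p h hp.2.1).1 (abs_eq_zero.1 h1)
    · refine (hΛ.zero _ hj).trans ⟨fun ⟨h1, h2⟩ => ?_, fun h => ?_⟩
      · rcases do_or_bd hp.1 with h | h
        · exact ⟨h, hp.2.2, abs_eq_zero.1 h1, abs_eq_zero.1 h2⟩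
        · exact absurd (abs_eq_zero.1 h1) (hG.bdv S hS p h hp.2.1).1
      · exact ⟨abs_eq_zero.2 h.2.2.1, abs_eq_zero.2 h.2.2.2⟩
  refine ⟨hΛ.cont.comp ((jet_cont hC hI hmin).mono fun x hx => hx.1.1)
    fun x hx => jet_mem hC hI hmin hx, hrng, fun p hp hcr hu V hV => ?_⟩
  obtain ⟨h0, h1, h2⟩ := hrng p hp
  have hnor := (hC.nor_spec S hmin p hp.1.1).1
  obtain ⟨δ, X, N, hfam, hq, hco⟩ := hΛ.fam p (nor S p) (hC.unit S hmin p hp.1.1) hnor.1 hnor.2.1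
    hp.2.1 hp.2.2 ⟨h0.lt_of_ne' fun e => hcr (h2.1 e), h1⟩
  obtain ⟨ε, hε, hball⟩ := Metric.mem_nhds_iff.1 hV
  have hev := (hP S p _ _ δ X N hmin hp.1.1 hnor hp.2.1 hp.2.2 hu hfam).resolve_left
    (fun h => hcoin (hco S h)) (ball p ε) (ball_mem_nhds p hε)
  have key : ∀ᶠ t in 𝓝 (RR Λ S p), ∃ x ∈ Gd S ∩ V, RR Λ S x = t := by
    filter_upwards [hev] with t ⟨s, hs, _, x, hx, hjet, _⟩
    obtain ⟨x', hx', hj, _, _, _, _, hd⟩ := hL.fold S hS.toSym x hx.1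
    obtain ⟨hJ, hval⟩ := hq _ hs
    rw [← hjet, ← hj] at hJ hval
    refine ⟨x', ⟨⟨hx', hJ.1, hJ.2.1⟩, hball ?_⟩, hval⟩
    exact mem_ball_iff_norm.2 ((hd p hp.1).trans_lt (mem_ball_iff_norm.1 hx.2))
  constructor
  · obtain ⟨t, ⟨x, hx, e⟩, ht⟩ :=
      ((key.filter_mono (nhdsWithin_le_nhds (s := Ioi (RR Λ S p)))).and self_mem_nhdsWithin).exists
    exact ⟨x, hx, e ▸ ht⟩
  · obtain ⟨t, ⟨x, hx, e⟩, ht⟩ :=
      ((key.filter_mono (nhdsWithin_le_nhds (s := Iio (RR Λ S p)))).and self_mem_nhdsWithin).exists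
    exact ⟨x, hx, e ▸ ht⟩

open DOrd in
theorem coinS (hC : ChartS) (hG : GeoS) (hSt : StarS) (hCr : CritS) (hO : OrdS) (hE : EndS)
    (hM : MidS) (hN : CountS) : CoinS := by
  classical
  intro S Λ c hS h1 h2 h3
  by_contra hcoin
  obtain ⟨H, n, t, h⟩ := hSt S hS
  obtain ⟨F, hF, hFc⟩ := hCr S H n t hS h
  obtain ⟨hcont, hrng, hne⟩ := hO S Λ hS h1 hcoin
  have hu : ∀ x ∈ S, ‖x‖ = 1 := hC.unit S hS.minimal
  -- limits of the angle function on the closed quarter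
  have hcl : ∀ x ∈ Dq S, x ∈ closure (Gd S) := by
    intro x hx
    rcases (aa_nonneg x).eq_or_lt with h0 | h0
    · obtain ⟨l, _, hl⟩ := hE.corner S Λ c hS h1 h2 hcoin x hx.1 (aa_eq_zero h0.symm).1
        (aa_eq_zero h0.symm).2
      refine mem_closure_iff_nhds.2 fun V hV => ?_
      obtain ⟨y, hy, _⟩ := (hl V hV).1
      exact ⟨y, hy.2, hy.1⟩
    · refine mem_closure_iff_nhds.2 fun V hV => ?_
      have hp := inv_mem h hx
      have hV' : H ⁻¹' V ∈ 𝓝[closedBall 0 1] (inv H x) :=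
        (h.cont _ hp).tendsto (by rwa [H_inv h hx])
      obtain ⟨W, hW, hsub⟩ := mem_nhdsWithin_iff_exists_mem_nhds_inter.1 hV'
      obtain ⟨z, hz, _, hz'⟩ := near_good h hu ∅ hp (by rwa [H_inv h hx]) hW
      exact ⟨H z, hsub ⟨hz.2, hz.1⟩, hz'⟩
  have hlim : ∀ x ∈ Dq S, ∃ l, Tendsto (RR Λ S) (𝓝[Gd S] x) (𝓝 l) := by
    intro x hx
    rcases (aa_nonneg x).eq_or_lt with h0 | h0
    · obtain ⟨l, hl, _⟩ := hE.corner S Λ c hS h1 h2 hcoin x hx.1 (aa_eq_zero h0.symm).1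
        (aa_eq_zero h0.symm).2
      exact ⟨l, hl⟩
    have hle : aa x ≤ 1 := by nlinarith [aa_add (hu x hx.1), sq_nonneg ‖wc x‖]
    rcases hle.eq_or_lt with e1 | e1
    · rcases do_or_bd hx with hd | hd
      · exact hE.pole S Λ hS h1 x hd e1
      · exact absurd e1 (hG.bdv S hS x hd h0).2.2.ne
    · exact ⟨_, hcont x ⟨hx, h0, e1⟩⟩
  have hRc : ContinuousOn (extendFrom (Gd S) (RR Λ S)) (Dq S) := continuousOn_extendFrom hcl hlim
  have hRe : ∀ x ∈ Gd S, extendFrom (Gd S) (RR Λ S) x = RR Λ S x := extendFrom_extends hcont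
  generalize hR' : extendFrom (Gd S) (RR Λ S) = R' at hRc hRe
  -- off the critical points the function takes values on both sides
  have hnon : ∀ x ∈ Dq S, aa x < 1 → x ∉ Crit S → NonExt (RR Λ S) (Gd S) x (R' x) := by
    intro x hx e1 hcr
    rcases (aa_nonneg x).eq_or_lt with h0 | h0
    · obtain ⟨l, hl, hl'⟩ := hE.corner S Λ c hS h1 h2 hcoin x hx.1 (aa_eq_zero h0.symm).1
        (aa_eq_zero h0.symm).2
      rwa [← hR', extendFrom_eq (hcl x hx) hl]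
    have hxG : x ∈ Gd S := ⟨hx, h0, e1⟩
    rw [hRe x hxG]
    by_cases hv : u34 x (nor S x) ≠ 0 ∨ u12 x (nor S x) ≠ 0
    · exact hne x hxG hcr hv
    rw [not_or, not_not, not_not] at hv
    have hb : x ∈ Bd S := (do_or_bd hx).resolve_left fun hd => hG.b4 S hS x hd hv.2
    obtain ⟨κ, δ, hδ, hκ, _, hm, rfl, _, hr⟩ := hM.rays S Λ hS h3 hcoin x hb h0 hv.1
    exact rays_nonExt hδ hκ hm hr
  have hboth : ∀ p ∈ closedBall (0 : ℂ) 1, p ≠ 0 → H p ∉ Crit S → ∀ V ∈ 𝓝 p,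
      (∃ z ∈ closedBall (0 : ℂ) 1 ∩ V, R' (H p) < R' (H z)) ∧
        ∃ z ∈ closedBall (0 : ℂ) 1 ∩ V, R' (H z) < R' (H p) := by
    intro p hp hp0 hcr V hV
    obtain ⟨W, hW, hW'⟩ := transfer h hp hV
    obtain ⟨⟨x, hx, e⟩, ⟨y, hy, e'⟩⟩ := hnon _ (H_mem h hp) (aa_lt_one h hu hp hp0) hcr W hW
    obtain ⟨z, hz, rfl⟩ := hW' x ⟨hx.1.1, hx.2⟩
    obtain ⟨z', hz', rfl⟩ := hW' y ⟨hy.1.1, hy.2⟩
    exact ⟨⟨z, hz, by rwa [hRe _ hx.1]⟩, ⟨z', hz', by rwa [hRe _ hy.1]⟩⟩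
  have hCrit : ∀ p ∈ closedBall (0 : ℂ) 1, H p ∈ Crit S → p ∈ F.image (inv H) := fun p hp hcr =>
    Finset.mem_image.2 ⟨H p, hFc hcr, inv_H h hp⟩
  choose a ha using arc_max h
  refine hN (fun z => R' (H z)) (F.image (inv H)) n (fun i => a i) h.npos
    (Finset.card_image_le.trans_lt hF) (hRc.comp h.cont fun z hz => H_mem h hz)
    (fun p hp hp0 V hV => ?_)
    (fun p hp hp0 hcr V hV => (hboth p hp hp0 (fun hc => hcr (hCrit p hp hc)) V hV).2)
    (fun i j hij => ?_) (fun i j => ?_) fun i => ?_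
  · by_cases hcr : H p ∈ Crit S
    · have h0 : 0 < aa (H p) := by
        have := hcr.1.2.1
        unfold aa
        positivity
      have hG' : H p ∈ Gd S := ⟨H_mem h hp, h0, hcr.2.1⟩
      obtain ⟨z, hz, hzF, hzG⟩ := near_good h hu (F.image (inv H)) hp h0 hV
      refine ⟨z, hz, ?_⟩
      obtain ⟨e0, _, e1⟩ := hrng _ hzG
      show R' (H p) < R' (H z)
      rw [hRe _ hG', hRe _ hzG, (hrng _ hG').2.2.2 hcr]
      exact e0.lt_of_ne' fun e => hzF (hCrit z hz.1 (e1.1 e))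
    · exact (hboth p hp hp0 hcr V hV).1
  · have h4 : ((i : ℕ) : ℤ) + 1 ≤ (j : ℕ) := by
      have : (i : ℕ) < j := hij
      omega
    exact ((ha _).1.2.trans_le (h.mono.monotone h4)).trans (ha _).1.1
  · have h4 : ((i : ℕ) : ℤ) + 1 ≤ (j : ℕ) + 2 * n := by
      have := i.2
      omega
    have h5 := h.mono.monotone h4
    rw [h.per] at h5
    have h6 := (ha (i : ℕ)).1.2
    have h7 := (ha (j : ℕ)).1.1
    show a _ < a _ + _
    linarith
  · obtain ⟨_, h0, hmax⟩ := ha (i : ℕ)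
    have hb : H (cis (a (i : ℕ))) ∈ Bd S := (h.bd _ (cis_mem _)).1 (norm_cis _)
    obtain ⟨κ, δ, hδ, hκ, hinj, hm, hκ0, hbd, hr⟩ :=
      hM.rays S Λ hS h3 hcoin _ hb h0 (hM.ex S hS _ hb h0 hmax)
    have hmD : MapsTo κ (Hd δ) (Dq S) := fun z hz => (hm hz).1
    have hval : ∀ z ∈ Hd δ, R' (H (inv H (κ z))) = RR Λ S (κ z) := fun z hz => by
      rw [H_inv h (hmD hz), hRe _ (hm hz)]
    refine ⟨fun z => inv H (κ z), δ, hδ, (inv_cont h).comp hκ hmD, fun z hz z' hz' e => ?_,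
      fun z hz => inv_mem h (hmD hz), ?_, fun s hs => ?_, ?_⟩
    · refine hinj hz hz' ?_
      rw [← H_inv h (hmD hz), ← H_inv h (hmD hz')]
      exact congrArg H e
    · show inv H (κ 0) = _
      rw [hκ0, inv_H h (cis_mem _)]
    · have hs' := hbd s hs
      have hD : κ (s : ℝ) ∈ Dq S := ⟨hs'.1, hs'.2.1, hs'.2.2.1⟩
      exact (h.bd _ (inv_mem h hD)).2 (by rwa [H_inv h hD])
    · obtain ⟨β₁, β₂, β₃, ε, b1, b12, b23, b3, hε, hs⟩ := hr
      refine ⟨β₁, β₂, β₃, ε, b1, b12, b23, b3, hε, fun s hs' => ?_⟩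
      have hs'' := Ioc_subset_Icc_self hs'
      simp only
      rw [hval _ (zero_mem_Hd hδ), hval _ (ray_mem hs'' b1 (by linarith)),
        hval _ (ray_mem (β := β₂) hs'' (by linarith) (by linarith)),
        hval _ (ray_mem (β := β₃) hs'' (by linarith) b3)]
      exact hs s hs'

end Pool.Agent.Lib.MP_16d934_gt
end
end

-- part Pool.Agent.Lib.MP_16d934_gt.DQc
section

/-! Connectivity of the parts of the quarter; the boundary of the quarter is one curve. -/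

set_option autoImplicit false

open Set Metric Filter Topology
open scoped InnerProductSpace Real

noncomputable section

namespace Pool.Agent.Lib.MP_16d934_gt

namespace DQc

theorem clopen_aux {P A E : Set E4} (hP : IsPreconnected P)
    (hcov : ∀ q ∈ P, (∀ᶠ z in 𝓝 q, z ∈ A → z ∈ E) ∨ ∀ᶠ z in 𝓝 q, z ∈ A → z ∉ E)
    (hcl : ∀ q ∈ P, q ∈ closure A) {x : E4} (hx : x ∈ P) (hx' : ∀ᶠ z in 𝓝 x, z ∈ A → z ∈ E) :
    ∀ q ∈ P, ∀ᶠ z in 𝓝 q, z ∈ A → z ∈ E := by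
  intro q hq
  rcases hcov q hq with h | h
  · exact h
  · obtain ⟨w, hw, h1, h2⟩ := hP {q | ∀ᶠ z in 𝓝 q, z ∈ A → z ∈ E}
      {q | ∀ᶠ z in 𝓝 q, z ∈ A → z ∉ E} isOpen_setOfPred_eventually_nhds
      isOpen_setOfPred_eventually_nhds hcov ⟨x, hx, hx'⟩ ⟨q, hq, h⟩
    obtain ⟨z, hz, hzA⟩ := mem_closure_iff_nhds.1 (hcl w hw) _ (Eventually.and h1 h2)
    exact (hz.2 hzA (hz.1 hzA)).elim

theorem sub_comp {A B : Set E4} {x z : E4} (hB : IsPathConnected B) (hBA : B ⊆ A) (hz : z ∈ B)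
    (hx : z ∈ pathComponentIn A x) : B ⊆ pathComponentIn A x := fun _ hw =>
  JoinedIn.trans hx ((hB.joinedIn z hz _ hw).mono hBA)

theorem joined_of_lc {P A : Set E4} (hP : IsPreconnected P)
    (h : ∀ p ∈ P, ∀ V ∈ 𝓝 p, ∃ W ∈ 𝓝 p, W ⊆ V ∧ IsPathConnected (A ∩ W)) {x y : E4}
    (hx : x ∈ P) (hy : y ∈ P) (hxA : x ∈ A) (hyA : y ∈ A) : JoinedIn A x y := by
  have key : ∀ q ∈ P, ∃ W ∈ 𝓝 q, ∀ z ∈ A ∩ W, z ∈ pathComponentIn A x →
      A ∩ W ⊆ pathComponentIn A x := by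
    intro q hq
    obtain ⟨W, hW, -, hc⟩ := h q hq univ univ_mem
    exact ⟨W, hW, fun z hz hz' => sub_comp hc inter_subset_left hz hz'⟩
  have := clopen_aux (A := A) (E := pathComponentIn A x) hP (fun q hq => ?_) (fun q hq => ?_) hx
    ?_ y hy
  · exact this.self_of_nhds hyA
  · obtain ⟨W, hW, h1⟩ := key q hq
    by_cases h2 : ∃ z ∈ A ∩ W, z ∈ pathComponentIn A x
    · obtain ⟨z, hz, hz'⟩ := h2
      left
      filter_upwards [hW] with w hw hwA using h1 z hz hz' ⟨hwA, hw⟩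
    · right
      filter_upwards [hW] with w hw hwA hw' using h2 ⟨w, ⟨hwA, hw⟩, hw'⟩
  · refine mem_closure_iff_nhds.2 fun V hV => ?_
    obtain ⟨W, -, hWV, hc⟩ := h q hq V hV
    obtain ⟨z, hz⟩ := hc.nonempty
    exact ⟨z, hWV hz.2, hz.1⟩
  · obtain ⟨W, hW, h1⟩ := key x hx
    filter_upwards [hW] with w hw hwA using
      h1 x ⟨hxA, mem_of_mem_nhds hW⟩ (mem_pathComponentIn_self hxA) ⟨hwA, hw⟩

/-- the fold map -/
def fd (x : E4) : E4 := !₂[|x 0|, |x 1|, x 2, x 3]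

theorem continuous_fd : Continuous fd := by
  unfold fd
  refine (PiLp.continuous_toLp 2 _).comp (continuous_pi fun i => ?_)
  fin_cases i <;> simp <;> fun_prop

theorem fd_mem (hL : LocS) {S : Set E4} (hS : Sym S) {x : E4} (hx : x ∈ S) : fd x ∈ Dq S := by
  obtain ⟨x', h, -, h0, h1, h2, h3, -⟩ := hL.fold S hS x hx
  have : fd x = x' := by
    ext i
    fin_cases i <;> simp [fd, h0, h1, h2, h3]
  rwa [this]

theorem fd_self {S : Set E4} {x : E4} (hx : x ∈ Dq S) : fd x = x := by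
  ext i
  fin_cases i <;> simp [fd, abs_of_nonneg hx.2.1, abs_of_nonneg hx.2.2]

theorem cont_inner (v : E4) : Continuous fun z : E4 => ⟪v, z⟫_ℝ := by fun_prop

theorem cont_co (i : Fin 4) : Continuous fun z : E4 => z i := by fun_prop

theorem do_sub {S : Set E4} : Do S ⊆ Dq S := fun _ h => ⟨h.1, h.2.1.le, h.2.2.le⟩

theorem bd_sub {S : Set E4} : Bd S ⊆ Dq S := fun _ h => ⟨h.1, h.2.1, h.2.2.1⟩

theorem pos (hT : TwoS) (hL : LocS) (S : Set E4) (hS : Sym S) (v : E4) (v0 : 0 ≤ v 0)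
    (v1 : 0 ≤ v 1) (x : E4) (hx : x ∈ Do S) (y : E4) (hy : y ∈ Do S) (hx' : 0 < ⟪v, x⟫_ℝ)
    (hy' : 0 < ⟪v, y⟫_ℝ) : JoinedIn (Do S ∩ {z | 0 < ⟪v, z⟫_ℝ}) x y := by
  have h1 : Dq S ∩ {z | 0 < ⟪v, z⟫_ℝ} = fd '' (S ∩ {z | 0 < ⟪v, z⟫_ℝ}) := by
    refine Subset.antisymm (fun z hz => ⟨z, ⟨hz.1.1, hz.2⟩, fd_self hz.1⟩) ?_
    rintro _ ⟨z, hz, rfl⟩
    refine ⟨fd_mem hL hS hz.1, ?_⟩
    have h := hz.2
    simp only [mem_ofPred_eq, inner4] at h ⊢
    have a0 := mul_le_mul_of_nonneg_left (le_abs_self (z 0)) v0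
    have a1 := mul_le_mul_of_nonneg_left (le_abs_self (z 1)) v1
    simp only [fd]
    simp
    linarith
  have h2 : IsPreconnected (Dq S ∩ {z | 0 < ⟪v, z⟫_ℝ}) :=
    h1 ▸ (hT S hS.minimal hS.cpt v).image _ continuous_fd.continuousOn
  refine joined_of_lc h2 (fun p hp V hV => ?_) ⟨do_sub hx, hx'⟩ ⟨do_sub hy, hy'⟩ ⟨hx, hx'⟩
    ⟨hy, hy'⟩
  obtain ⟨W, hW, hWV, hc, -⟩ := hL.lc S hS p hp.1 (V ∩ {z | 0 < ⟪v, z⟫_ℝ})
    (inter_mem hV ((isOpen_lt continuous_const (cont_inner v)).mem_nhds hp.2))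
  refine ⟨W, hW, fun z hz => (hWV hz).1, ?_⟩
  convert hc using 1
  ext z
  exact ⟨fun h => ⟨h.1.1, h.2⟩, fun h => ⟨⟨h.1, (hWV h.2).2⟩, h.2⟩⟩

theorem do_joined (hL : LocS) {S : Set E4} (hS : Sym S) {x y : E4} (hx : x ∈ Do S)
    (hy : y ∈ Do S) : JoinedIn (Do S) x y := by
  have h1 : Dq S = fd '' S := by
    refine Subset.antisymm (fun z hz => ⟨z, hz.1, fd_self hz⟩) ?_
    rintro _ ⟨z, hz, rfl⟩
    exact fd_mem hL hS hz
  have h2 : IsPreconnected (Dq S) := h1 ▸ hS.conn.isPreconnected.image _ continuous_fd.continuousOn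
  refine joined_of_lc h2 (fun p hp V hV => ?_) (do_sub hx) (do_sub hy) hx hy
  obtain ⟨W, hW, hWV, hc, -⟩ := hL.lc S hS p hp V hV
  exact ⟨W, hW, hWV, hc⟩

/-- the normalising factor of the gnomonic chart -/
def rr (y : P2) (z : ℝ) : ℝ := (√(1 + y.1 ^ 2 + y.2 ^ 2 + z ^ 2))⁻¹

theorem rr_pos (y : P2) (z : ℝ) : 0 < rr y z := by unfold rr; positivity

theorem inner_gn (O : Iso) (v : E4) (y : P2) (z : ℝ) : ⟪v, O (gn y z)⟫_ℝ
    = rr y z * (⟪v, O (ee 0)⟫_ℝ + y.1 * ⟪v, O (ee 1)⟫_ℝ + y.2 * ⟪v, O (ee 2)⟫_ℝ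
      + z * ⟪v, O (ee 3)⟫_ℝ) := by
  have h : gn y z = rr y z • (ee 0 + y.1 • ee 1 + y.2 • ee 2 + z • ee 3) := by
    unfold gn rr
    congr 1
    ext i
    fin_cases i <;> simp [ee]
  rw [h]
  simp only [map_smul, map_add, inner_smul_right, inner_add_right]

theorem inner_ee (i : Fin 4) (x : E4) : ⟪ee i, x⟫_ℝ = x i := by
  simp [ee, EuclideanSpace.inner_single_left]

theorem inner_ee' (i : Fin 4) (x : E4) : ⟪x, ee i⟫_ℝ = x i := by
  rw [real_inner_comm, inner_ee]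

theorem co_gn1 {O : Iso} {i : Fin 4} (h : O (ee 1) = ee i) (y : P2) (z : ℝ) :
    O (gn y z) i = rr y z * y.1 := by
  rw [← inner_ee, ← h, O.inner_map_map, inner_ee]
  simp [gn, rr]

theorem co_gn2 {O : Iso} {i : Fin 4} (h : O (ee 2) = ee i) (y : P2) (z : ℝ) :
    O (gn y z) i = rr y z * y.2 := by
  rw [← inner_ee, ← h, O.inner_map_map, inner_ee]
  simp [gn, rr]

theorem gX_zero {S : Set E4} {O : Iso} {δ : ℝ} {u : P2 → ℝ} (h : Chart S O δ u) :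
    gX O u 0 = O (ee 0) := by
  unfold gX
  congr 1
  ext i
  fin_cases i <;> simp [gn, ee, h.zero]

theorem chart_map (hC : ChartS) {S : Set E4} {O : Iso} {δ : ℝ} {u : P2 → ℝ}
    (h : Chart S O δ u) : map (gX O u) (𝓝 0) = 𝓝[S] (O (ee 0)) := by
  rw [← gX_zero h]
  exact (hC.facts S O _ u ⟨isOpen_ball, h.sol, h.rel⟩ 0 (mem_ball_self h.pos)).2.2

theorem corner_est (hC : ChartS) (hL : LocS) {S : Set E4} (hS : Sym S) {v : E4} (v0 : 0 ≤ v 0)
    (v1 : 0 ≤ v 1) {p : E4} (hp : p ∈ S) (p0 : p 0 = 0) (p1 : p 1 = 0) (hv : ⟪v, p⟫_ℝ = 0)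
    {η : ℝ} (hη : 0 < η) : ∀ᶠ z in 𝓝 p, z ∈ Dq S → -(η * (z 0 + z 1)) ≤ ⟪v, z⟫_ℝ := by
  obtain ⟨O, δ, u, e0, e1, e2, -, -, hc, -, -⟩ :=
    hL.corner S hS p hp p0 p1 _ (hC.nor_spec S hS.minimal p hp).1
  have hm := chart_map hC hc
  rw [e0] at hm
  set b := ⟪v, O (ee 3)⟫_ℝ with hb
  have hd : HasFDerivAt u (0 : P2 →L[ℝ] ℝ) 0 := by
    rw [← hc.dzero]
    exact (hc.sol.1 0 (mem_ball_self hc.pos)).differentiableAt.hasFDerivAt
  have h1 := hd.isLittleO.def (show 0 < η / (|b| + 1) by positivity)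
  have h2 : ∀ᶠ z in 𝓝[S] p, z ∈ Dq S → -(η * (z 0 + z 1)) ≤ ⟪v, z⟫_ℝ := by
    rw [← hm, eventually_map]
    filter_upwards [h1] with y hy hz
    simp only [hc.zero, sub_zero, zero_apply, Real.norm_eq_abs] at hy
    have c0 : gX O u y 0 = rr y (u y) * y.1 := co_gn1 e1 y _
    have c1 : gX O u y 1 = rr y (u y) * y.2 := co_gn2 e2 y _
    have r := rr_pos y (u y)
    have y1 : 0 ≤ y.1 := by
      have := hz.2.1
      rw [c0] at this
      exact nonneg_of_mul_nonneg_right this r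
    have y2 : 0 ≤ y.2 := by
      have := hz.2.2
      rw [c1] at this
      exact nonneg_of_mul_nonneg_right this r
    have hn : ‖y‖ ≤ y.1 + y.2 := by
      rw [Prod.norm_def, Real.norm_eq_abs, Real.norm_eq_abs, abs_of_nonneg y1, abs_of_nonneg y2]
      exact max_le (by linarith) (by linarith)
    have h3 : |u y * b| ≤ η * (y.1 + y.2) := by
      rw [abs_mul]
      calc |u y| * |b| ≤ η / (|b| + 1) * (y.1 + y.2) * (|b| + 1) :=
            mul_le_mul (hy.trans (mul_le_mul_of_nonneg_left hn (by positivity))) (by linarith)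
              (abs_nonneg _) (by positivity)
        _ = _ := by field_simp
    rw [c0, c1, gX, inner_gn, e0, e1, e2, hv, inner_ee', inner_ee', ← hb]
    have h4 := mul_nonneg y1 v0
    have h5 := mul_nonneg y2 v1
    have h6 := neg_abs_le (u y * b)
    have h7 : -(η * (y.1 + y.2)) ≤ 0 + y.1 * v 0 + y.2 * v 1 + u y * b := by linarith
    calc _ = rr y (u y) * -(η * (y.1 + y.2)) := by ring
      _ ≤ _ := mul_le_mul_of_nonneg_left h7 r.le
  filter_upwards [eventually_nhdsWithin_iff.1 h2] with z hz hz' using hz hz'.1 hz'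

theorem neg (hC : ChartS) (hT : TouchS) (hL : LocS) (S : Set E4) (hS : Sym S) (v : E4)
    (v0 : 0 ≤ v 0) (v1 : 0 ≤ v 1) (x : E4) (hx : x ∈ Do S) (hx' : ⟪v, x⟫_ℝ < 0) :
    ∃ b ∈ Bd S, JoinedIn (Dq S ∩ {z | ⟪v, z⟫_ℝ < 0}) x b := by
  by_contra hcon
  set N := Dq S ∩ {z | ⟪v, z⟫_ℝ < 0} with hN
  set W := pathComponentIn N x with hW
  have hWN : W ⊆ N := pathComponentIn_subset
  have hWD : W ⊆ Do S := by
    intro z hz
    have h1 := (hWN hz).1
    by_contra h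
    refine hcon ⟨z, ⟨h1.1, h1.2.1, h1.2.2, ?_⟩, hz⟩
    by_contra h2
    rw [not_or] at h2
    exact h ⟨h1.1, lt_of_le_of_ne h1.2.1 (Ne.symm h2.1), lt_of_le_of_ne h1.2.2 (Ne.symm h2.2)⟩
  have hop : IsOpen {z : E4 | ⟪v, z⟫_ℝ < 0} := isOpen_lt (cont_inner v) continuous_const
  have hloc : ∀ p ∈ N, ∃ V ∈ 𝓝 p, ∀ z ∈ Do S ∩ V, z ∈ W → insert p (Do S ∩ V) ⊆ W := by
    intro p hp
    obtain ⟨V, hV, hVs, -, hc⟩ := hL.lc S hS p hp.1 _ (hop.mem_nhds hp.2)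
    refine ⟨V, hV, fun z hz hzW => sub_comp (hc p ⟨hp.1, mem_of_mem_nhds hV⟩) ?_
      (mem_insert_of_mem _ hz) hzW⟩
    exact insert_subset hp fun w hw => ⟨do_sub hw.1, hVs hw.2⟩
  have hclosed : ∀ p ∈ N, p ∈ closure W → p ∈ W := by
    intro p hp hp'
    obtain ⟨V, hV, h⟩ := hloc p hp
    obtain ⟨z, hz, hzW⟩ := mem_closure_iff_nhds.1 hp' V hV
    exact h z ⟨hWD hzW, hz⟩ hzW (mem_insert _ _)
  have hopen : ∀ p ∈ W, ∀ᶠ z in 𝓝[S] p, z ∈ W := by
    intro p hp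
    obtain ⟨V, hV, h⟩ := hloc p (hWN hp)
    have h1 := h p ⟨hWD hp, mem_of_mem_nhds hV⟩ hp
    rw [eventually_nhdsWithin_iff]
    filter_upwards [hV, (cont_co 0).continuousAt.eventually_const_lt (hWD hp).2.1,
      (cont_co 1).continuousAt.eventually_const_lt (hWD hp).2.2] with z a b c d
    exact h1 (mem_insert_of_mem _ ⟨⟨d, b, c⟩, a⟩)
  have hs : ∀ z ∈ W, 0 < z 0 + z 1 := fun z hz => add_pos (hWD hz).2.1 (hWD hz).2.2
  have hxW : x ∈ W := mem_pathComponentIn_self ⟨do_sub hx, hx'⟩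
  set μ := ⟪v, x⟫_ℝ / (x 0 + x 1) with hμ
  have hμ0 : μ < 0 := div_neg_of_neg_of_pos hx' (hs x hxW)
  have hK : IsClosed {z : E4 | ⟪v, z⟫_ℝ ≤ μ * (z 0 + z 1)} :=
    isClosed_le (cont_inner v) (by fun_prop)
  have hDq := (hL.one S hS).1
  have hcl : IsClosed (W ∩ {z | ⟪v, z⟫_ℝ ≤ μ * (z 0 + z 1)}) := by
    refine closure_subset_iff_isClosed.1 fun p hp => ?_
    have h1 : p ∈ closure W := closure_mono inter_subset_left hp
    have h2 : ⟪v, p⟫_ℝ ≤ μ * (p 0 + p 1) := closure_minimal inter_subset_right hK hp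
    have h3 : p ∈ Dq S := closure_minimal (hWD.trans do_sub) hDq.isClosed h1
    refine ⟨hclosed p ⟨h3, ?_⟩ h1, h2⟩
    have h4 : μ * (p 0 + p 1) ≤ 0 := mul_nonpos_of_nonpos_of_nonneg hμ0.le
      (add_nonneg h3.2.1 h3.2.2)
    refine lt_of_le_of_ne (h2.trans h4) fun h5 => ?_
    have h6 : p 0 + p 1 ≤ 0 := by
      by_contra h
      have := mul_neg_of_neg_of_pos hμ0 (not_le.1 h)
      linarith
    obtain ⟨z, hz, hzW, hz'⟩ := mem_closure_iff_nhds.1 hp _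
      (corner_est hC hL hS v0 v1 h3.1 (by linarith [h3.2.1, h3.2.2])
        (by linarith [h3.2.1, h3.2.2]) h5 (show 0 < -μ / 2 by linarith))
    have h7 := hz (do_sub (hWD hzW))
    have h8 := mul_neg_of_neg_of_pos hμ0 (hs z hzW)
    simp only [mem_ofPred_eq] at hz'
    linarith
  have hcp : IsCompact (W ∩ {z | ⟪v, z⟫_ℝ ≤ μ * (z 0 + z 1)}) :=
    hDq.of_isClosed_subset hcl fun z hz => do_sub (hWD hz.1)
  have hxK : x ∈ W ∩ {z | ⟪v, z⟫_ℝ ≤ μ * (z 0 + z 1)} :=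
    ⟨hxW, le_of_eq (div_mul_cancel₀ _ (hs x hxW).ne').symm⟩
  obtain ⟨q, hq, hmin⟩ := hcp.exists_isMinOn (f := fun z => ⟪v, z⟫_ℝ / (z 0 + z 1)) ⟨x, hxK⟩
    ((cont_inner v).continuousOn.div (by fun_prop) fun z hz => (hs z hz.1).ne')
  set m := ⟪v, q⟫_ℝ / (q 0 + q 1) with hm
  have hmμ : m ≤ μ := hmin hxK
  have hin : ∀ z : E4, ⟪v - m • (ee 0 + ee 1), z⟫_ℝ = ⟪v, z⟫_ℝ - m * (z 0 + z 1) := by
    intro z
    rw [inner_sub_left, real_inner_smul_left, inner_add_left, inner_ee, inner_ee]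
  have hq0 : ⟪v - m • (ee 0 + ee 1), q⟫_ℝ = 0 := by
    rw [hin, hm, div_mul_cancel₀ _ (hs q hq.1).ne', sub_self]
  have hge : ∀ z ∈ W, 0 ≤ ⟪v - m • (ee 0 + ee 1), z⟫_ℝ := by
    intro z hz
    rw [hin, sub_nonneg]
    by_cases h : ⟪v, z⟫_ℝ ≤ μ * (z 0 + z 1)
    · exact (le_div_iff₀ (hs z hz)).1 (hmin ⟨hz, h⟩)
    · exact (mul_le_mul_of_nonneg_right hmμ (hs z hz).le).trans (not_le.1 h).le
  have hqS := (hWD hq.1).1
  have h1 := hT.sphere S hS.minimal q hqS _ hq0 ((hopen q hq.1).mono hge)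
  have h2 := hT.geo S hS.minimal hS.conn.isPreconnected _ ⟨q, hqS, h1⟩
  obtain ⟨z, hz, hz'⟩ := hS.ngeo (v - m • (ee 0 + ee 1)) fun h => by
    have := hin (ee 0)
    rw [h, inner_zero_left, inner_ee'] at this
    simp [ee] at this
    linarith
  exact hz' (h2 z hz)

end DQc

theorem qcS (hC : ChartS) (hT : TouchS) (hW : TwoS) (hL : LocS) : QcS :=
  ⟨DQc.pos hW hL, DQc.neg hC hT hL⟩

namespace DQc

/-- every point has a neighbourhood that is an arc -/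
def Arcs (Z : Set E4) : Prop := ∀ p ∈ Z, ∃ c : ℝ → E4, c 0 = p ∧ ContinuousOn c (Icc (-1) 1) ∧
  InjOn c (Icc (-1) 1) ∧ MapsTo c (Icc (-1) 1) Z ∧ c '' Icc (-1) 1 ∈ 𝓝[Z] p

theorem arc_pc {c : ℝ → E4} {a b a' b' : ℝ} (hc : ContinuousOn c (Icc a b)) (h : a' ≤ b')
    (ha : a ≤ a') (hb : b' ≤ b) : IsPathConnected (c '' Icc a' b') :=
  ((convex_Icc a' b').isPathConnected (nonempty_Icc.2 h)).image' (hc.mono (Icc_subset_Icc ha hb))

theorem zero_mem : (0 : ℝ) ∈ Icc (-1 : ℝ) 1 := ⟨by norm_num, by norm_num⟩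

theorem arc_small {Z : Set E4} {c : ℝ → E4} (hc : ContinuousOn c (Icc (-1) 1))
    (hi : InjOn c (Icc (-1) 1)) (hn : c '' Icc (-1) 1 ∈ 𝓝[Z] (c 0)) {V : Set E4}
    (hV : V ∈ 𝓝 (c 0)) : ∃ ε : ℝ, 0 < ε ∧ ε ≤ 1 ∧ c '' Icc (-ε) ε ⊆ V ∧
      c '' Icc (-ε) ε ∈ 𝓝[Z] (c 0) := by
  have h0 : ContinuousAt c 0 := hc.continuousAt (Icc_mem_nhds (by norm_num) (by norm_num))
  obtain ⟨r, hr, hrV⟩ := Metric.mem_nhds_iff.1 (h0.preimage_mem_nhds hV)
  set ε := min (r / 2) 1 with hε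
  have e0 : 0 < ε := lt_min (half_pos hr) one_pos
  have e1 : ε ≤ 1 := min_le_right _ _
  have e2 : ε < r := (min_le_left _ _).trans_lt (half_lt_self hr)
  refine ⟨ε, e0, e1, ?_, ?_⟩
  · rintro _ ⟨t, ht, rfl⟩
    refine hrV ?_
    rw [mem_ball_zero_iff, Real.norm_eq_abs]
    exact (abs_le.2 ht).trans_lt e2
  · have hK : IsCompact (c '' (Icc (-1) 1 \ Ioo (-ε) ε)) :=
      (isCompact_Icc.diff isOpen_Ioo).image_of_continuousOn (hc.mono sdiff_subset)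
    have h1 : c 0 ∉ c '' (Icc (-1) 1 \ Ioo (-ε) ε) := by
      rintro ⟨t, ht, h⟩
      rw [hi ht.1 zero_mem h] at ht
      exact ht.2 ⟨by linarith, e0⟩
    filter_upwards [hn, mem_nhdsWithin_of_mem_nhds (hK.isClosed.isOpen_compl.mem_nhds h1)]
      with z hz hz'
    obtain ⟨t, ht, rfl⟩ := hz
    by_contra h
    exact hz' ⟨t, ⟨ht, fun h2 => h ⟨t, Ioo_subset_Icc_self h2, rfl⟩⟩, rfl⟩

theorem comp_loc {Z : Set E4} (hZ : Arcs Z) (b : E4) {q : E4} (hq : q ∈ Z) :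
    ∃ N ∈ 𝓝[Z] q, q ∈ N ∧ ∀ z ∈ N, z ∈ pathComponentIn Z b → N ⊆ pathComponentIn Z b := by
  obtain ⟨c, h0, hc, -, hm, hn⟩ := hZ q hq
  exact ⟨_, hn, ⟨0, zero_mem, h0⟩, fun z hz hz' =>
    sub_comp (arc_pc hc (by norm_num) le_rfl le_rfl) hm.image_subset hz hz'⟩

theorem comp_open {Z : Set E4} (hZ : Arcs Z) (b : E4) {q : E4} (hq : q ∈ pathComponentIn Z b) :
    pathComponentIn Z b ∈ 𝓝[Z] q := by
  obtain ⟨N, hN, hqN, h⟩ := comp_loc hZ b (pathComponentIn_subset hq)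
  exact mem_of_superset hN (h q hqN hq)

theorem comp_closed {Z : Set E4} (hZ : Arcs Z) (hc : IsClosed Z) (b : E4) :
    IsClosed (pathComponentIn Z b) := by
  refine closure_subset_iff_isClosed.1 fun q hq => ?_
  have hqZ : q ∈ Z := closure_minimal pathComponentIn_subset hc hq
  obtain ⟨N, hN, hqN, h⟩ := comp_loc hZ b hqZ
  obtain ⟨z, hz, hz'⟩ := mem_closure_iff_nhds.1 hq _ (eventually_nhdsWithin_iff.1 hN)
  exact h z (hz (pathComponentIn_subset hz')) hz' hqN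

theorem comp_arcs {Z : Set E4} (hZ : Arcs Z) (b : E4) : Arcs (pathComponentIn Z b) := by
  intro q hq
  obtain ⟨c, h0, hc, hi, hm, hn⟩ := hZ q (pathComponentIn_subset hq)
  refine ⟨c, h0, hc, hi, fun t ht => ?_, nhdsWithin_mono _ pathComponentIn_subset hn⟩
  exact sub_comp (arc_pc hc (by norm_num) le_rfl le_rfl) hm.image_subset ⟨0, zero_mem, h0⟩ hq
    ⟨t, ht, rfl⟩

theorem punct (hP : PlanS) {Z : Set E4} (hK : IsCompact Z) (hZ : Arcs Z) (hc : IsPreconnected Z)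
    {p : E4} (hp : p ∈ Z) : IsPathConnected (Z \ {p}) := by
  obtain ⟨c, rfl, cc, ci, cm, cn⟩ := hZ p hp
  have hj := hP.one Z hK hZ c cc ci cm cn
  have hsub : ∀ a b : ℝ, -1 ≤ a → b ≤ 1 → (0 < a ∨ b < 0) → c '' Icc a b ⊆ Z \ {c 0} := by
    rintro a b ha hb hab _ ⟨t, ht, rfl⟩
    have ht' : t ∈ Icc (-1 : ℝ) 1 := ⟨ha.trans ht.1, ht.2.trans hb⟩
    refine ⟨cm ht', fun h => ?_⟩
    have := ci ht' zero_mem h
    rcases hab with h1 | h1 <;> linarith [ht.1, ht.2]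
  have hp1 : ∀ᶠ z in 𝓝 (c 0), z ∈ Z \ {c 0} → z ∈ pathComponentIn (Z \ {c 0}) (c 1) := by
    filter_upwards [eventually_nhdsWithin_iff.1 cn] with z hz hz'
    obtain ⟨t, ht, rfl⟩ := hz hz'.1
    rcases lt_trichotomy t 0 with h | h | h
    · exact sub_comp (arc_pc cc ht.1 le_rfl ht.2) (hsub _ _ le_rfl ht.2 (Or.inr h))
        ⟨-1, ⟨le_rfl, ht.1⟩, rfl⟩ hj ⟨t, ⟨ht.1, le_rfl⟩, rfl⟩
    · exact (hz'.2 (by rw [h]; rfl)).elim
    · exact sub_comp (arc_pc cc ht.2 ht.1 le_rfl) (hsub _ _ ht.1 le_rfl (Or.inl h))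
        ⟨1, ⟨ht.2, le_rfl⟩, rfl⟩ (mem_pathComponentIn_self hj.source_mem) ⟨t, ⟨le_rfl, ht.2⟩, rfl⟩
  refine ⟨c 1, hj.source_mem, fun q hq => ?_⟩
  refine (clopen_aux (A := Z \ {c 0}) (E := pathComponentIn (Z \ {c 0}) (c 1)) hc
    (fun q hq => ?_) (fun q hq => ?_) hp hp1 q hq.1).self_of_nhds hq
  · by_cases h : q = c 0
    · exact Or.inl (h ▸ hp1)
    · obtain ⟨e, rfl, ec, ei, em, en⟩ := hZ q hq
      obtain ⟨ε, e0, e1, h1, h2⟩ := arc_small ec ei en (isOpen_compl_singleton.mem_nhds h)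
      have h3 : e '' Icc (-ε) ε ⊆ Z \ {c 0} := subset_inter
        ((image_mono (Icc_subset_Icc (by linarith) e1)).trans em.image_subset) h1
      by_cases h4 : ∃ z ∈ e '' Icc (-ε) ε, z ∈ pathComponentIn (Z \ {c 0}) (c 1)
      · obtain ⟨z, hz, hz'⟩ := h4
        left
        filter_upwards [eventually_nhdsWithin_iff.1 h2] with w hw hw'
        exact sub_comp (arc_pc ec (by linarith) (by linarith) e1) h3 hz hz' (hw hw'.1)
      · right
        filter_upwards [eventually_nhdsWithin_iff.1 h2] with w hw hw' h5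
        exact h4 ⟨w, hw hw'.1, h5⟩
  · by_cases h : q = c 0
    · rw [h]
      refine mem_closure_iff_nhds.2 fun V hV => ?_
      obtain ⟨ε, e0, e1, h1, -⟩ := arc_small cc ci cn hV
      exact ⟨c ε, h1 ⟨ε, ⟨by linarith, le_rfl⟩, rfl⟩,
        hsub ε ε (by linarith) e1 (Or.inl e0) ⟨ε, ⟨le_rfl, le_rfl⟩, rfl⟩⟩
    · exact subset_closure ⟨hq, h⟩

theorem rf1_0 (x : E4) : rf1 x 0 = x 0 := by simp [rf1, mkO_apply]

theorem rf1_1 (x : E4) : rf1 x 1 = -x 1 := by simp [rf1, mkO_apply]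

theorem rf1_rf1 (x : E4) : rf1 (rf1 x) = x := by
  ext i
  fin_cases i <;> simp [rf1, mkO_apply]

theorem rf1_fix {x : E4} (h : x 1 = 0) : rf1 x = x := by
  ext i
  fin_cases i <;> simp [rf1, mkO_apply, h]

theorem reach (hC : ChartS) (hL : LocS) {S : Set E4} (hS : Sym1 S) {b : E4} (hb : b ∈ Bd S) :
    ∃ p ∈ pathComponentIn (Bd S) b, p 1 = 0 ∧ 0 < p 0 := by
  obtain ⟨-, hK, hA⟩ := hL.one S hS.toSym
  by_contra hcon
  have h0 : ∀ z ∈ pathComponentIn (Bd S) b, z 0 = 0 := by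
    intro z hz
    have h1 : z ∈ Bd S := pathComponentIn_subset hz
    by_contra h
    exact hcon ⟨z, hz, h1.2.2.2.resolve_left h, lt_of_le_of_ne h1.2.1 (Ne.symm h)⟩
  have h1 : ∀ z ∈ pathComponentIn (Bd S) b, 0 < z 1 := by
    intro z hz
    have hz' : z ∈ Bd S := pathComponentIn_subset hz
    refine lt_of_le_of_ne hz'.2.2.1 fun h => ?_
    obtain ⟨O, δ, u, e0, e1, e2, -, -, hc, -, -⟩ := hL.corner S hS.toSym z hz'.1 (h0 z hz) h.symm _
      (hC.nor_spec S hS.minimal z hz'.1).1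
    have hm := chart_map hC hc
    rw [e0] at hm
    have h2 : ∀ᶠ w in 𝓝[S] z, w ∈ S ∧ (w ∈ Bd S → w ∈ pathComponentIn (Bd S) b) :=
      eventually_mem_nhdsWithin.and
        (mem_nhdsWithin_of_mem_nhds (eventually_nhdsWithin_iff.1 (comp_open hA b hz)))
    rw [← hm, eventually_map] at h2
    have h3 : Tendsto (fun t : ℝ => ((t, 0) : P2)) (𝓝[>] 0) (𝓝 0) :=
      ((show Continuous fun t : ℝ => ((t, 0) : P2) by fun_prop).tendsto' 0 0 rfl).mono_left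
        nhdsWithin_le_nhds
    obtain ⟨t, ht, ht0⟩ := ((h3.eventually h2).and eventually_mem_nhdsWithin).exists
    have c0 : 0 < gX O u (t, 0) 0 := by
      rw [gX, co_gn1 e1]
      exact mul_pos (rr_pos _ _) ht0
    have c1 : gX O u (t, 0) 1 = 0 := by
      rw [gX, co_gn2 e2, mul_zero]
    exact hcon ⟨_, ht.2 ⟨ht.1, c0.le, c1.ge, Or.inr c1⟩, c1, c0⟩
  have hbb := mem_pathComponentIn_self hb
  have hbM : b ∈ S ∩ {y | y 0 = 0} := ⟨hb.1, h0 b hbb⟩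
  have hloc : ∀ q ∈ pathComponentIn (Bd S) b,
      ∀ᶠ z in 𝓝 q, z ∈ S ∩ {y | y 0 = 0} → z ∈ pathComponentIn (Bd S) b := by
    intro q hq
    filter_upwards [eventually_nhdsWithin_iff.1 (comp_open hA b hq),
      (cont_co 1).continuousAt.eventually_const_lt (h1 q hq)] with z hz hz1 hz2
    exact hz ⟨hz2.1, Eq.ge hz2.2, hz1.le, Or.inl hz2.2⟩
  have hr := hS.oval b hb.1 (h0 b hbb)
  have h2 := (clopen_aux (A := S ∩ {y | y 0 = 0}) (E := pathComponentIn (Bd S) b)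
    isPreconnected_connectedComponentIn (fun q _ => ?_)
    (fun q hq => subset_closure (connectedComponentIn_subset _ _ hq))
    (mem_connectedComponentIn hbM) (hloc b hbb) _ hr).self_of_nhds
    (connectedComponentIn_subset _ _ hr)
  · have h3 := h1 _ h2
    rw [rf1_1] at h3
    linarith [h1 b hbb]
  · by_cases h : q ∈ pathComponentIn (Bd S) b
    · exact Or.inl (hloc q h)
    · right
      filter_upwards [(comp_closed hA hK.isClosed b).isOpen_compl.mem_nhds h] with z hz _ using hz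

theorem up_joined (hL : LocS) {S : Set E4} (hS : Sym S) {z b : E4} (hz : z ∈ Do S)
    (hb : b ∈ Dq S) : JoinedIn (insert b (Do S)) z b := by
  obtain ⟨W, hW, -, h1, h2⟩ := hL.lc S hS b hb univ univ_mem
  obtain ⟨w, hw⟩ := h1.nonempty
  refine ((do_joined hL hS hz hw.1).mono (subset_insert _ _)).trans ?_
  exact ((h2 b ⟨hb, mem_of_mem_nhds hW⟩).joinedIn w (mem_insert_of_mem _ hw) b
    (mem_insert _ _)).mono (insert_subset_insert inter_subset_left)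

theorem cis1 : cis (π / 2) = Complex.I := by
  unfold cis
  rw [Complex.exp_mul_I, ← Complex.ofReal_cos, ← Complex.ofReal_sin, Real.cos_pi_div_two,
    Real.sin_pi_div_two]
  simp

theorem cis2 : cis π = -1 := Complex.exp_pi_mul_I

theorem cis3 : cis (π + π / 2) = -Complex.I := by
  have h : cis (π + π / 2) = cis π * cis (π / 2) := by
    unfold cis
    rw [← Complex.exp_add]
    congr 1
    push_cast
    ring
  rw [h, cis1, cis2, neg_one_mul]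

theorem cis4 : cis (2 * π) = 1 := by
  unfold cis
  push_cast
  exact Complex.exp_two_pi_mul_I

theorem cont_gX (O : Iso) {u : P2 → ℝ} {U : Set P2} (hu : ContinuousOn u U) :
    ContinuousOn (gX O u) U := by
  refine O.continuous.comp_continuousOn (f := fun y => gn y (u y)) ?_
  unfold gn
  have h1 : ContinuousOn (fun y : P2 => (√(1 + y.1 ^ 2 + y.2 ^ 2 + u y ^ 2))⁻¹) U :=
    ContinuousOn.inv₀ (by fun_prop) fun y _ => by positivity
  refine h1.smul ?_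
  refine (PiLp.continuous_toLp 2 _).comp_continuousOn (continuousOn_pi.2 fun i => ?_)
  fin_cases i
  · exact continuousOn_const
  · exact continuousOn_fst
  · exact continuousOn_snd
  · exact hu

theorem inj_gX (O : Iso) (u : P2 → ℝ) {y y' : P2} (h : gX O u y = gX O u y') : y = y' := by
  have h1 := O.injective h
  have h0 : rr y (u y) = rr y' (u y') := by
    simpa [gn, rr] using congrArg (fun x : E4 => x 0) h1
  have h2 : rr y (u y) * y.1 = rr y' (u y') * y'.1 := by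
    simpa [gn, rr] using congrArg (fun x : E4 => x 1) h1
  have h3 : rr y (u y) * y.2 = rr y' (u y') * y'.2 := by
    simpa [gn, rr] using congrArg (fun x : E4 => x 2) h1
  rw [← h0] at h2 h3
  exact Prod.ext (mul_left_cancel₀ (rr_pos _ _).ne' h2) (mul_left_cancel₀ (rr_pos _ _).ne' h3)

theorem two (hC : ChartS) (hL : LocS) (hP : PlanS) {S : Set E4} (hS : Sym1 S) {p b : E4}
    (hp : p ∈ Bd S) (p1 : p 1 = 0) (p0 : 0 < p 0) (hb : b ∈ Bd S) (b1 : b 1 = 0) :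
    JoinedIn (Bd S) p b := by
  by_contra hcon
  obtain ⟨-, hK, hA⟩ := hL.one S hS.toSym
  obtain ⟨-, O, δ, u, e0, e2, -, hc, -⟩ := hL.arc S hS.toSym p hp.1 p1 _
    (hC.nor_spec S hS.minimal p hp.1).1
  have hm := chart_map hC hc
  have hz := gX_zero hc
  rw [e0] at hm hz
  have h1 : ∀ᶠ w in 𝓝[S] p, w ∈ S ∧ 0 < w 0 := eventually_mem_nhdsWithin.and
    (mem_nhdsWithin_of_mem_nhds ((cont_co 0).continuousAt.eventually_const_lt p0))
  rw [← hm, eventually_map] at h1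
  obtain ⟨r, hr, hr'⟩ := Metric.eventually_nhds_iff_ball.1 (h1.and (ball_mem_nhds _ hc.pos))
  set d := r / 2 with hd
  have d0 : 0 < d := half_pos hr
  have dr : d < r := half_lt_self hr
  set κ : ℂ → E4 := fun ζ => gX O u (ζ.re, ζ.im) with hκ
  have hin : ∀ ζ ∈ closedBall (0 : ℂ) d, ((ζ.re, ζ.im) : P2) ∈ ball (0 : P2) r := by
    intro ζ hζ
    rw [mem_closedBall_zero_iff] at hζ
    rw [mem_ball_zero_iff, Prod.norm_def]
    exact (max_le ((Complex.abs_re_le_norm ζ).trans hζ) ((Complex.abs_im_le_norm ζ).trans hζ)).trans_lt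
      dr
  have kc : ContinuousOn κ (closedBall 0 d) :=
    (cont_gX O hc.sol.1.continuousOn).comp (by fun_prop) fun ζ hζ => (hr' _ (hin ζ hζ)).2
  have ki : InjOn κ (closedBall 0 d) := fun ζ _ ζ' _ h => by
    have := inj_gX O u h
    exact Complex.ext (congrArg Prod.fst this) (congrArg Prod.snd this)
  have kS : ∀ ζ ∈ closedBall (0 : ℂ) d, κ ζ ∈ S ∧ 0 < κ ζ 0 := fun ζ hζ => (hr' _ (hin ζ hζ)).1
  have k1 : ∀ ζ : ℂ, ∃ s > 0, κ ζ 1 = s * ζ.im := fun ζ => ⟨_, rr_pos _ _, co_gn2 e2 _ _⟩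
  have k0 : κ 0 = p := hz
  set c : ℝ → E4 := fun t => κ ((d * t : ℝ) : ℂ) with hcd
  have cin : ∀ t ∈ Icc (-1 : ℝ) 1, ((d * t : ℝ) : ℂ) ∈ closedBall (0 : ℂ) d := by
    intro t ht
    rw [mem_closedBall_zero_iff, Complex.norm_real, Real.norm_eq_abs, abs_mul, abs_of_pos d0]
    exact mul_le_of_le_one_right d0.le (abs_le.2 ht)
  have c0 : c 0 = p := by simp only [hcd, mul_zero, Complex.ofReal_zero, k0]
  have cc : ContinuousOn c (Icc (-1) 1) := kc.comp (by fun_prop) cin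
  have ci : InjOn c (Icc (-1) 1) := fun t ht t' ht' h =>
    mul_left_cancel₀ d0.ne' (Complex.ofReal_injective (ki (cin t ht) (cin t' ht') h))
  have c1 : ∀ t, c t 1 = 0 := fun t => by
    obtain ⟨s, -, h⟩ := k1 ((d * t : ℝ) : ℂ)
    rw [Complex.ofReal_im, mul_zero] at h
    exact h
  have cB : c '' Icc (-1) 1 ⊆ pathComponentIn (Bd S) p := by
    refine sub_comp (arc_pc cc (by norm_num) le_rfl le_rfl) ?_ ⟨0, zero_mem, c0⟩
      (mem_pathComponentIn_self hp)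
    rintro _ ⟨t, ht, rfl⟩
    exact ⟨(kS _ (cin t ht)).1, (kS _ (cin t ht)).2.le, (c1 t).ge, Or.inr (c1 t)⟩
  have cn : c '' Icc (-1) 1 ∈ 𝓝[pathComponentIn (Bd S) p] (c 0) := by
    obtain ⟨V, hV, hVe⟩ := hc.rel (ball 0 d)
      (fun y hy => (hr' y (ball_subset_ball dr.le hy)).2) isOpen_ball
    have hpV : p ∈ S ∩ V := hVe ▸ ⟨0, mem_ball_self d0, hz⟩
    rw [c0]
    refine eventually_nhdsWithin_iff.2 ?_
    filter_upwards [hV.mem_nhds hpV.2, (cont_co 0).continuousAt.eventually_const_lt p0]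
      with z hzV hz0 hzB
    have hzB' : z ∈ Bd S := pathComponentIn_subset hzB
    obtain ⟨y, hy, rfl⟩ : z ∈ gX O u '' ball 0 d := hVe ▸ ⟨hzB'.1, hzV⟩
    have h2 : y.2 = 0 := by
      have := hzB'.2.2.2.resolve_left hz0.ne'
      rw [gX, co_gn2 e2] at this
      exact (mul_eq_zero.1 this).resolve_left (rr_pos _ _).ne'
    have h3 : |y.1| ≤ d := (norm_fst_le y).trans (mem_ball_zero_iff.1 hy).le
    refine ⟨y.1 / d, abs_le.1 ?_, ?_⟩
    · rw [abs_div, abs_of_pos d0]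
      exact div_le_one_of_le₀ h3 d0.le
    · simp only [hcd, hκ, Complex.ofReal_re, Complex.ofReal_im, mul_div_cancel₀ _ d0.ne']
      rw [← h2]
  have hj := hP.one _ (hK.of_isClosed_subset (comp_closed hA hK.isClosed p)
    pathComponentIn_subset) (comp_arcs hA p) c cc ci (fun t ht => cB ⟨t, ht, rfl⟩) cn
  rw [c0] at hj
  have sp : ∀ s ∈ Icc (0 : ℝ) d, ∀ ω : ℂ, ‖ω‖ = 1 → (s : ℂ) * ω ∈ closedBall (0 : ℂ) d := by
    intro s hs ω hω
    rw [mem_closedBall_zero_iff, norm_mul, hω, mul_one, Complex.norm_real, Real.norm_eq_abs,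
      abs_of_nonneg hs.1]
    exact hs.2
  have dA : ∀ z ∈ c '' Icc (-1) 1, z ∉ insert b {z | z ∈ S ∧ 0 < z 0 ∧ z 1 ≠ 0} := by
    rintro z hz (h | h)
    · exact hcon (h ▸ cB hz)
    · obtain ⟨t, -, rfl⟩ := hz
      exact h.2.2 (c1 t)
  have dB : ∀ s ∈ Icc (0 : ℝ) d, ∀ ω : ℂ, ‖ω‖ = 1 → ω.im ≠ 0 →
      κ (s * ω) ∉ pathComponentIn (Bd S) p \ {p} := by
    intro s hs ω hω hω' h
    have h2 : κ (s * ω) ∈ Bd S := pathComponentIn_subset h.1
    have h3 := h2.2.2.2.resolve_left (kS _ (sp s hs ω hω)).2.ne'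
    obtain ⟨a, ha, h4⟩ := k1 (s * ω)
    rw [h4, Complex.im_ofReal_mul] at h3
    have h5 : s = 0 := by simpa [ha.ne', hω'] using h3
    exact h.2 (by rw [h5, Complex.ofReal_zero, zero_mul, k0]; rfl)
  have dd : d ∈ Icc (0 : ℝ) d := ⟨d0.le, le_rfl⟩
  have hpi := Real.pi_pos
  refine hP.int E4 {x | x ∈ S ∧ 0 ≤ x 0} κ d (π / 2) π (π + π / 2) (2 * π)
    (insert b {z | z ∈ S ∧ 0 < z 0 ∧ z 1 ≠ 0}) (pathComponentIn (Bd S) p \ {p}) hS.planar d0 kc ki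
    (fun ζ hζ => ⟨(kS ζ hζ).1, (kS ζ hζ).2.le⟩) (by linarith) (by linarith) (by linarith)
    (by linarith) (insert_subset ⟨hb.1, hb.2.1⟩ fun z hz => ⟨hz.1, hz.2.1.le⟩)
    (fun z hz => ⟨(pathComponentIn_subset hz.1).1, (pathComponentIn_subset hz.1).2.1⟩)
    ?_ ?_ ?_ ?_ ?_ ?_ ?_
  · rw [cis1, cis3]
    have u1 : κ (d * Complex.I) ∈ Do S := by
      obtain ⟨a, ha, h4⟩ := k1 (d * Complex.I)
      have := kS _ (sp d dd Complex.I Complex.norm_I)
      refine ⟨this.1, this.2, ?_⟩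
      rw [h4]
      simpa using mul_pos ha d0
    have u2 : rf1 (κ (d * -Complex.I)) ∈ Do S := by
      obtain ⟨a, ha, h4⟩ := k1 (d * -Complex.I)
      have := kS _ (sp d dd (-Complex.I) (by simp))
      refine ⟨hS.r1 _ this.1, by rw [rf1_0]; exact this.2, ?_⟩
      rw [rf1_1, h4]
      simpa using mul_pos ha d0
    have hsub : Do S ⊆ {z | z ∈ S ∧ 0 < z 0 ∧ z 1 ≠ 0} := fun z hz => ⟨hz.1, hz.2.1, hz.2.2.ne'⟩
    refine ((up_joined hL hS.toSym u1 (bd_sub hb)).mono (insert_subset_insert hsub)).trans ?_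
    have h2 := (up_joined hL hS.toSym u2 (bd_sub hb)).symm.map rf1.continuous
    rw [rf1_rf1, rf1_fix b1] at h2
    refine h2.mono ?_
    rintro _ ⟨z, hz | hz, rfl⟩
    · rw [hz, rf1_fix b1]
      exact mem_insert _ _
    · refine mem_insert_of_mem _ ⟨hS.r1 _ hz.1, by rw [rf1_0]; exact hz.2.1, ?_⟩
      rw [rf1_1]
      exact neg_ne_zero.2 hz.2.2.ne'
  · rw [cis2, cis4]
    simpa [hcd] using hj.symm
  · refine disjoint_left.2 ?_
    rintro z (h | h) hz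
    · exact hcon (h ▸ hz.1)
    · rcases (pathComponentIn_subset hz.1).2.2.2 with h2 | h2
      · exact h.2.1.ne' h2
      · exact h.2.2 h2
  · refine disjoint_right.2 ?_
    rintro _ ⟨s, hs, rfl⟩
    refine dA _ ⟨-(s / d), ⟨neg_le_neg (div_le_one_of_le₀ hs.2 d0.le),
      by linarith [div_nonneg hs.1 d0.le]⟩, ?_⟩
    simp only [hcd, cis2, mul_neg, mul_div_cancel₀ _ d0.ne', Complex.ofReal_neg, mul_one]
  · refine disjoint_right.2 ?_
    rintro _ ⟨s, hs, rfl⟩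
    refine dA _ ⟨s / d, ⟨by linarith [div_nonneg hs.1 d0.le],
      div_le_one_of_le₀ hs.2 d0.le⟩, ?_⟩
    simp only [hcd, cis4, mul_div_cancel₀ _ d0.ne', mul_one]
  · refine disjoint_right.2 ?_
    rintro _ ⟨s, hs, rfl⟩
    simp only [cis1]
    exact dB s hs _ Complex.norm_I (by simp)
  · refine disjoint_right.2 ?_
    rintro _ ⟨s, hs, rfl⟩
    simp only [cis3]
    exact dB s hs _ (by simp) (by simp)

end DQc

open DQc in
theorem oneS (hC : ChartS) (hL : LocS) (hP : PlanS) : OneS := by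
  intro S hS
  obtain ⟨-, hK, hA⟩ := hL.one S hS.toSym
  have hcor : ∃ x ∈ S, x 0 = 0 ∧ x 1 = 0 := by
    obtain ⟨x, hx, x0⟩ := hS.ne
    have h1 := hS.oval x hx x0
    have h2 : x ∈ connectedComponentIn (S ∩ {y | y 0 = 0}) x := mem_connectedComponentIn ⟨hx, x0⟩
    have h3 : (0 : ℝ) ∈ (fun z : E4 => z 1) '' connectedComponentIn (S ∩ {y | y 0 = 0}) x := by
      rcases le_total (x 1) 0 with h | h
      · exact isPreconnected_connectedComponentIn.intermediate_value h2 h1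
          (cont_co 1).continuousOn ⟨h, by simp only [rf1_1]; linarith⟩
      · exact isPreconnected_connectedComponentIn.intermediate_value h1 h2
          (cont_co 1).continuousOn ⟨by simp only [rf1_1]; linarith, h⟩
    obtain ⟨z, hz, hz1⟩ := h3
    have h4 := connectedComponentIn_subset _ _ hz
    exact ⟨z, h4.1, h4.2, hz1⟩
  have hconn : IsPathConnected (Bd S) := by
    obtain ⟨x, hx, x0, x1⟩ := hcor
    have hxB : x ∈ Bd S := ⟨hx, x0.ge, x1.ge, Or.inl x0⟩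
    obtain ⟨p, hp, p1, p0⟩ := reach hC hL hS hxB
    refine ⟨x, hxB, fun y hy => ?_⟩
    obtain ⟨q, hq, q1, -⟩ := reach hC hL hS hy
    exact (JoinedIn.trans hp (two hC hL hP hS (pathComponentIn_subset hp) p1 p0
      (pathComponentIn_subset hq) q1)).trans (JoinedIn.symm hq)
  obtain ⟨e, ec, ei⟩ := hS.planar
  have hs : Dq S ⊆ {x | x ∈ S ∧ 0 ≤ x 0} := fun z hz => ⟨hz.1, hz.2.1⟩
  exact ⟨hS.toSym, ⟨e, ec.mono hs, ei.mono hs⟩,
    fun p hp => punct hP hK hA hconn.isConnected.isPreconnected hp, hconn, hcor⟩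

end Pool.Agent.Lib.MP_16d934_gt
end
end
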