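import Pool.Agent.Lib.MP_16d934_gt.StC

-- part Pool.Agent.Lib.MP_16d934_gt.DStara
section

/-! The quarter is a graph over a star-shaped domain. -/

set_option autoImplicit false

open Set Metric Filter Topology
open scoped InnerProductSpace Real

noncomputable section

namespace Pool.Agent.Lib.MP_16d934_gt

namespace DStar

/-- a compact set with an open part on which `f` is a local homeomorphism -/
structure Ab (D O B : Set E4) (f : E4 → ℂ) : Prop where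
  cpt : IsCompact D
  sub : O ⊆ D
  cov : ∀ x ∈ D, x ∉ O → x ∈ B
  cont : Continuous f
  loc : ∀ p ∈ O, ∃ δ > 0, ∃ κ : ℂ → E4, ContinuousOn κ (ball (f p) δ) ∧ κ (f p) = p ∧
    (∀ ζ ∈ ball (f p) δ, κ ζ ∈ O ∧ f (κ ζ) = ζ) ∧ κ '' ball (f p) δ ∈ 𝓝[D] p

theorem Ab.mul {D O B : Set E4} {f : E4 → ℂ} (h : Ab D O B f) (a : ℂ) (ha : ‖a‖ = 1) :
    Ab D O B fun x => a * f x := by
  have ha0 : a ≠ 0 := by rintro rfl; simp at ha
  refine ⟨h.cpt, h.sub, h.cov, continuous_const.mul h.cont, fun p hp => ?_⟩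
  obtain ⟨δ, hδ, κ, h1, h2, h3, h4⟩ := h.loc p hp
  have hm : ∀ ζ ∈ ball (a * f p) δ, a⁻¹ * ζ ∈ ball (f p) δ := by
    intro ζ hζ
    rw [mem_ball, dist_eq_norm] at hζ ⊢
    have : a⁻¹ * ζ - f p = a⁻¹ * (ζ - a * f p) := by field_simp
    rwa [this, norm_mul, norm_inv, ha, inv_one, one_mul]
  refine ⟨δ, hδ, fun ζ => κ (a⁻¹ * ζ), h1.comp (by fun_prop) hm, ?_, fun ζ hζ => ?_, ?_⟩
  · simp [ha0, h2]
  · refine ⟨(h3 _ (hm ζ hζ)).1, ?_⟩
    rw [(h3 _ (hm ζ hζ)).2]; field_simp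
  · refine mem_of_superset h4 ?_
    rintro _ ⟨ζ, hζ, rfl⟩
    refine ⟨a * ζ, ?_, by simp [ha0]⟩
    rw [mem_ball, dist_eq_norm] at hζ ⊢
    rwa [← mul_sub, norm_mul, ha, one_mul]

theorem seg {κ : ℂ → E4} {c : ℂ} {δ : ℝ} (hκ : ContinuousOn κ (ball c δ)) {z w : ℂ}
    (hz : z ∈ ball c δ) (hw : w ∈ ball c δ) {T : Set E4}
    (hT : ∀ ζ ∈ segment ℝ z w, ζ ∈ ball c δ → κ ζ ∈ T) : JoinedIn T (κ z) (κ w) := by
  have hs := (convex_ball c δ).segment_subset hz hw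
  refine ((JoinedIn.of_segment_subset (subset_refl _)).map_continuousOn (hκ.mono hs)).mono ?_
  rintro _ ⟨ζ, hζ, rfl⟩
  exact hT ζ hζ (hs hζ)

/-- the part of the line to the right of `c` -/
def Zr (O : Set E4) (f : E4 → ℂ) (c : ℝ) : Set E4 := {x | x ∈ O ∧ (f x).im = 0 ∧ c < (f x).re}

/-- the part of the line to the left of `c` -/
def Zl (O : Set E4) (f : E4 → ℂ) (c : ℝ) : Set E4 := {x | x ∈ O ∧ (f x).im = 0 ∧ (f x).re < c}

theorem accum {D O B : Set E4} {f : E4 → ℂ} (h : Ab D O B f) {c : ℝ} {x₀ : E4}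
    (hx : x₀ ∈ Zr O f c) : ∃ b ∈ B, b ∈ closure (pathComponentIn (Zr O f c) x₀) := by
  set C := pathComponentIn (Zr O f c) x₀ with hC
  have hCZ : C ⊆ Zr O f c := pathComponentIn_subset
  have hCD : closure C ⊆ D := closure_minimal (fun x hx => h.sub (hCZ hx).1) h.cpt.isClosed
  have hK : IsCompact (closure C) := h.cpt.of_isClosed_subset isClosed_closure hCD
  have hx₀ : x₀ ∈ C := mem_pathComponentIn_self hx
  have hre : Continuous fun x => (f x).re := Complex.continuous_re.comp h.cont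
  obtain ⟨b, hb, hmax⟩ := hK.exists_isMaxOn ⟨x₀, subset_closure hx₀⟩ hre.continuousOn
  refine ⟨b, h.cov b (hCD hb) fun hbO => ?_, hb⟩
  have him : (f b).im = 0 := by
    have : closure C ⊆ {x | (f x).im = 0} := closure_minimal (fun x hx => (hCZ hx).2.1)
      (isClosed_eq (Complex.continuous_im.comp h.cont) continuous_const)
    exact this hb
  have hcb : c < (f b).re := lt_of_lt_of_le hx.2.2 (hmax (subset_closure hx₀))
  obtain ⟨δ, hδ, κ, h1, h2, h3, h4⟩ := h.loc b hbO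
  obtain ⟨V, hV, hVs⟩ := mem_nhdsWithin_iff_exists_mem_nhds_inter.1 h4
  obtain ⟨x, hxV, hxC⟩ := mem_closure_iff_nhds.1 hb V hV
  obtain ⟨ζ, hζ, rfl⟩ := hVs ⟨hxV, h.sub (hCZ hxC).1⟩
  have hw : f b + (δ / 2 : ℝ) ∈ ball (f b) δ := by
    rw [mem_ball, dist_eq_norm, add_sub_cancel_left, Complex.norm_real, Real.norm_eq_abs,
      abs_of_pos (by positivity)]
    linarith
  have hζ1 := (hCZ hxC).2
  rw [(h3 ζ hζ).2] at hζ1
  have hj : JoinedIn (Zr O f c) (κ ζ) (κ (f b + (δ / 2 : ℝ))) := by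
    refine seg h1 hζ hw ?_
    rintro _ ⟨s, t, hs, ht, hst, rfl⟩ hm
    refine ⟨(h3 _ hm).1, ?_⟩
    rw [(h3 _ hm).2]
    constructor
    · simp [hζ1.1, him]
    · simp only [Complex.add_re, Complex.real_smul, Complex.mul_re, Complex.ofReal_re,
        Complex.ofReal_im, zero_mul, sub_zero]
      have e1 : s = 1 - t := by linarith
      subst e1
      rcases eq_or_lt_of_le ht with h0 | h0
      · subst h0; simpa using hζ1.2
      · nlinarith [hζ1.2]
  have hm : κ (f b + (δ / 2 : ℝ)) ∈ C := JoinedIn.trans hxC hj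
  have h5 : (f (κ (f b + (δ / 2 : ℝ)))).re ≤ (f b).re := hmax (subset_closure hm)
  rw [(h3 _ hw).2] at h5
  simp at h5
  linarith

theorem accum' {D O B : Set E4} {f : E4 → ℂ} (h : Ab D O B f) {c : ℝ} {x₀ : E4}
    (hx : x₀ ∈ Zl O f c) : ∃ b ∈ B, b ∈ closure (pathComponentIn (Zl O f c) x₀) := by
  have e : Zl O f c = Zr O (fun x => -1 * f x) (-c) := by
    ext x; simp [Zl, Zr]
  rw [e] at hx ⊢
  exact accum (h.mul (-1) (by simp)) hx

theorem cis1 : cis (π / 2) = Complex.I := by simp [cis]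

theorem cis2 : cis π = -1 := by simp [cis]

theorem cis3 : cis (3 * π / 2) = -Complex.I := by
  have : ((3 * π / 2 : ℝ) : ℂ) * Complex.I = π * Complex.I + π / 2 * Complex.I := by
    push_cast; ring
  rw [cis, this, Complex.exp_add]; simp

theorem cis4 : cis (2 * π) = 1 := by simp [cis]

theorem norm_cis (φ : ℝ) : ‖cis φ‖ = 1 := Complex.norm_exp_ofReal_mul_I φ

/-- a point of the line is joined to points above and below it -/
theorem cross {D O B : Set E4} {f : E4 → ℂ} (h : Ab D O B f) {q : E4} (hq : q ∈ O)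
    (hqi : (f q).im = 0) : ∃ x ∈ O, ∃ y ∈ O, 0 < (f x).im ∧ (f y).im < 0 ∧
      JoinedIn (insert q {z | z ∈ O ∧ (f z).im ≠ 0}) x y := by
  obtain ⟨δ, hδ, κ, h1, h2, h3, -⟩ := h.loc q hq
  have hw : ∀ s : ℝ, |s| = δ / 2 → f q + s * Complex.I ∈ ball (f q) δ := by
    intro s hs
    rw [mem_ball, dist_eq_norm, add_sub_cancel_left, norm_mul, Complex.norm_I, mul_one,
      Complex.norm_real, Real.norm_eq_abs, hs]
    linarith
  have h4 := hw (δ / 2) (abs_of_pos (by positivity))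
  have h5 := hw (-(δ / 2)) (by rw [abs_neg]; exact abs_of_pos (by positivity))
  refine ⟨_, (h3 _ h4).1, _, (h3 _ h5).1, ?_, ?_, seg h1 h4 h5 ?_⟩
  · rw [(h3 _ h4).2]; simp [hqi, hδ]
  · rw [(h3 _ h5).2]; simp [hqi, hδ]
  · rintro _ ⟨s, t, hs, ht, hst, rfl⟩ hm
    by_cases h0 : (s • (f q + (δ / 2 : ℝ) * Complex.I) +
        t • (f q + (-(δ / 2) : ℝ) * Complex.I)).im = 0
    · left
      rw [← h2]
      congr 1
      rw [h2]
      apply Complex.ext
      · simp only [Complex.add_re, Complex.real_smul, Complex.mul_re, Complex.ofReal_re,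
          Complex.ofReal_im, Complex.I_re, Complex.I_im]
        linear_combination (f q).re * hst
      · rw [h0, hqi]
    · right
      exact ⟨(h3 _ hm).1, by rwa [(h3 _ hm).2]⟩

/-- two points of the line are joined along the line -/
theorem line (hP : PlanS) {D O B : Set E4} {f : E4 → ℂ} (h : Ab D O B f) (hpl : Planar D)
    (hBD : B ⊆ D) (hOB : ∀ x ∈ O, x ∉ B) (hB : IsPathConnected B)
    (hlc : ∀ b ∈ B, ∀ V ∈ 𝓝 b, ∃ W ∈ 𝓝 b, W ⊆ V ∧ IsPathConnected (insert b (O ∩ W)))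
    (hpos : ∀ x ∈ O, ∀ y ∈ O, 0 < (f x).im → 0 < (f y).im →
      JoinedIn (O ∩ {z | 0 < (f z).im}) x y)
    (hneg : ∀ x ∈ O, ∀ y ∈ O, (f x).im < 0 → (f y).im < 0 →
      JoinedIn (O ∩ {z | (f z).im < 0}) x y)
    {p q : E4} (hp : p ∈ O) (hq : q ∈ O) (hpi : (f p).im = 0) (hqi : (f q).im = 0) :
    JoinedIn (insert p (Zr O f (f p).re)) p q ∨ JoinedIn (insert p (Zl O f (f p).re)) p q := by
  by_contra hcon
  rw [not_or] at hcon
  obtain ⟨hR, hL⟩ := hcon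
  obtain ⟨δ₀, hδ₀, κ₀, h1, h2, h3, -⟩ := h.loc p hp
  set δ := δ₀ / 2 with hδdef
  have hδ : 0 < δ := by positivity
  let κ : ℂ → E4 := fun ζ => κ₀ (f p + ζ)
  have hm : ∀ ζ ∈ closedBall (0 : ℂ) δ, f p + ζ ∈ ball (f p) δ₀ := by
    intro ζ hζ
    rw [mem_closedBall_zero_iff] at hζ
    rw [mem_ball, dist_eq_norm, add_sub_cancel_left]
    linarith
  have hκc : ContinuousOn κ (closedBall 0 δ) := h1.comp (by fun_prop) hm
  have hκO : ∀ ζ ∈ closedBall (0 : ℂ) δ, κ ζ ∈ O := fun ζ hζ => (h3 _ (hm ζ hζ)).1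
  have hκf : ∀ ζ ∈ closedBall (0 : ℂ) δ, f (κ ζ) = f p + ζ := fun ζ hζ => (h3 _ (hm ζ hζ)).2
  have hκ0 : κ 0 = p := by simp [κ, h2]
  have hsm : ∀ s ∈ Icc 0 δ, ∀ β : ℝ, (s : ℂ) * cis β ∈ closedBall (0 : ℂ) δ := by
    intro s hs β
    rw [mem_closedBall_zero_iff, norm_mul, norm_cis, mul_one, Complex.norm_real,
      Real.norm_eq_abs, abs_of_nonneg hs.1]
    exact hs.2
  have hδm : δ ∈ Icc 0 δ := ⟨hδ.le, le_rfl⟩
  have hspc : ∀ β, IsCompact (spoke κ δ β) := fun β =>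
    isCompact_Icc.image_of_continuousOn (hκc.comp (by fun_prop) fun s hs => hsm s hs β)
  have hspO : ∀ β, spoke κ δ β ⊆ O := by
    rintro β _ ⟨s, hs, rfl⟩
    exact hκO _ (hsm s hs β)
  -- horizontal spokes are joined to the centre
  have hjoin : ∀ (β : ℝ) (T : Set E4), (∀ s ∈ Ioc 0 δ, κ (s * cis β) ∈ T) →
      ∀ s ∈ Icc 0 δ, JoinedIn (insert p T) p (κ (s * cis β)) := by
    intro β T hT s hs
    have hc : ContinuousOn (fun r : ℝ => κ (r * cis β)) (Icc 0 s) :=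
      hκc.comp (by fun_prop) fun r hr => hsm r ⟨hr.1, hr.2.trans hs.2⟩ β
    have hj := (((convex_Icc (0 : ℝ) s).isPathConnected ⟨0, le_rfl, hs.1⟩).joinedIn 0
      ⟨le_rfl, hs.1⟩ s ⟨hs.1, le_rfl⟩).map_continuousOn hc
    simp only [Complex.ofReal_zero, zero_mul, hκ0] at hj
    refine hj.mono ?_
    rintro _ ⟨r, hr, rfl⟩
    rcases eq_or_lt_of_le hr.1 with h0 | h0
    · left; subst h0; simp [hκ0]
    · right; exact hT r ⟨h0, hr.2.trans hs.2⟩
  have hTR : ∀ s ∈ Ioc 0 δ, κ (s * cis (2 * π)) ∈ Zr O f (f p).re := by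
    intro s hs
    have hs' := hsm s ⟨hs.1.le, hs.2⟩ (2 * π)
    refine ⟨hκO _ hs', ?_⟩
    rw [hκf _ hs', cis4]
    simp [hpi, hs.1]
  have hTL : ∀ s ∈ Ioc 0 δ, κ (s * cis π) ∈ Zl O f (f p).re := by
    intro s hs
    have hs' := hsm s ⟨hs.1.le, hs.2⟩ π
    refine ⟨hκO _ hs', ?_⟩
    rw [hκf _ hs', cis2]
    simp [hpi, hs.1]
  -- the path A
  obtain ⟨x, hxO, y, hyO, hx, hy, hxy⟩ := cross h hq hqi
  have hA0 : JoinedIn (insert q {z | z ∈ O ∧ (f z).im ≠ 0}) (κ (δ * cis (π / 2)))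
      (κ (δ * cis (3 * π / 2))) := by
    have e1 := hpos _ (hκO _ (hsm δ hδm (π / 2))) x hxO
      (by rw [hκf _ (hsm δ hδm _), cis1]; simp [hpi, hδ]) hx
    have e2 := hneg y hyO _ (hκO _ (hsm δ hδm (3 * π / 2))) hy
      (by rw [hκf _ (hsm δ hδm _), cis3]; simp [hpi, hδ])
    exact ((e1.mono fun z hz => Or.inr ⟨hz.1, ne_of_gt hz.2⟩).trans hxy).trans
      (e2.mono fun z hz => Or.inr ⟨hz.1, ne_of_lt hz.2⟩)
  obtain ⟨γ, hγ⟩ := hA0
  set A := range γ with hA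
  have hAc : IsCompact A := isCompact_range γ.continuous
  have hAq : ∀ z ∈ A, z ∈ O ∧ ((f z).im = 0 → z = q) := by
    rintro _ ⟨t, rfl⟩
    rcases hγ t with e | e
    · exact ⟨e ▸ hq, fun _ => e⟩
    · exact ⟨e.1, fun h0 => absurd h0 e.2⟩
  -- the set B
  obtain ⟨bR, hbR, hcR⟩ := accum h (hTR δ ⟨hδ, le_rfl⟩)
  obtain ⟨bL, hbL, hcL⟩ := accum' h (hTL δ ⟨hδ, le_rfl⟩)
  set CR := pathComponentIn (Zr O f (f p).re) (κ (δ * cis (2 * π))) with hCR
  set CL := pathComponentIn (Zl O f (f p).re) (κ (δ * cis π)) with hCL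
  have hCRs : CR ⊆ Zr O f (f p).re := pathComponentIn_subset
  have hCLs : CL ⊆ Zl O f (f p).re := pathComponentIn_subset
  set K := A ∪ (spoke κ δ (π / 2) ∪ spoke κ δ (3 * π / 2)) with hK
  have hKc : IsClosed K := (hAc.union ((hspc _).union (hspc _))).isClosed
  have hKO : K ⊆ O := union_subset (fun z hz => (hAq z hz).1) (union_subset (hspO _) (hspO _))
  have hKn : ∀ b ∈ B, Kᶜ ∈ 𝓝 b := fun b hb =>
    hKc.isOpen_compl.mem_nhds fun hk => hOB b (hKO hk) hb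
  obtain ⟨WR, hWR, hWRK, hWRc⟩ := hlc bR hbR _ (hKn bR hbR)
  obtain ⟨WL, hWL, hWLK, hWLc⟩ := hlc bL hbL _ (hKn bL hbL)
  set B' := CR ∪ CL ∪ (O ∩ WR) ∪ (O ∩ WL) ∪ B with hB'
  have hBj : JoinedIn B' (κ (δ * cis π)) (κ (δ * cis (2 * π))) := by
    obtain ⟨xR, hxRW, hxRC⟩ := mem_closure_iff_nhds.1 hcR WR hWR
    obtain ⟨xL, hxLW, hxLC⟩ := mem_closure_iff_nhds.1 hcL WL hWL
    have e1 : JoinedIn B' (κ (δ * cis π)) xL :=
      ((isPathConnected_pathComponentIn (hTL δ ⟨hδ, le_rfl⟩)).joinedIn _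
        (mem_pathComponentIn_self (hTL δ ⟨hδ, le_rfl⟩)) xL hxLC).mono fun z hz =>
        Or.inl (Or.inl (Or.inl (Or.inr hz)))
    have e2 : JoinedIn B' xL bL :=
      (hWLc.joinedIn xL (Or.inr ⟨(hCLs hxLC).1, hxLW⟩) bL (Or.inl rfl)).mono fun z hz =>
        hz.elim (fun e => Or.inr (e ▸ hbL)) fun e => Or.inl (Or.inr e)
    have e3 : JoinedIn B' bL bR := (hB.joinedIn bL hbL bR hbR).mono fun z hz => Or.inr hz
    have e4 : JoinedIn B' bR xR :=
      (hWRc.joinedIn bR (Or.inl rfl) xR (Or.inr ⟨(hCRs hxRC).1, hxRW⟩)).mono fun z hz =>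
        hz.elim (fun e => Or.inr (e ▸ hbR)) fun e => Or.inl (Or.inl (Or.inr e))
    have e5 : JoinedIn B' xR (κ (δ * cis (2 * π))) :=
      ((isPathConnected_pathComponentIn (hTR δ ⟨hδ, le_rfl⟩)).joinedIn xR hxRC _
        (mem_pathComponentIn_self (hTR δ ⟨hδ, le_rfl⟩))).mono fun z hz =>
        Or.inl (Or.inl (Or.inl (Or.inl hz)))
    exact (((e1.trans e2).trans e3).trans e4).trans e5
  have hB'K : ∀ z ∈ B', z ∈ K → z ∈ CR ∪ CL := by
    rintro z ((((e | e) | e) | e) | e) hz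
    · exact Or.inl e
    · exact Or.inr e
    · exact absurd hz (hWRK e.2)
    · exact absurd hz (hWLK e.2)
    · exact absurd e (hOB z (hKO hz))
  have hvert : ∀ β, (cis β).re = 0 → spoke κ δ β ⊆ K → Disjoint B' (spoke κ δ β) := by
    intro β hβ hs
    rw [Set.disjoint_left]
    intro z hz hz'
    have e := hB'K z hz (hs hz')
    obtain ⟨s, hs, rfl⟩ := hz'
    have e1 : (f (κ (s * cis β))).re = (f p).re := by
      rw [hκf _ (hsm s hs β)]; simp [hβ]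
    rcases e with e | e
    · exact absurd (hCRs e).2.2 (by rw [e1]; exact lt_irrefl _)
    · exact absurd (hCLs e).2.2 (by rw [e1]; exact lt_irrefl _)
  have hhor : ∀ (β : ℝ) (T : Set E4), (cis β).im = 0 → (∀ s ∈ Ioc 0 δ, κ (s * cis β) ∈ T) →
      ¬ JoinedIn (insert p T) p q → Disjoint A (spoke κ δ β) := by
    intro β T hβ hT hn
    rw [Set.disjoint_left]
    rintro z hz ⟨s, hs, rfl⟩
    have e1 := (hAq _ hz).2 (by rw [hκf _ (hsm s hs β)]; simp [hβ, hpi])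
    exact hn (e1 ▸ hjoin β T hT s hs)
  have hπ := Real.pi_pos
  refine hP.int E4 D κ δ (π / 2) π (3 * π / 2) (2 * π) A B' hpl hδ hκc ?_
    (fun ζ hζ => h.sub (hκO ζ hζ)) (by linarith) (by linarith) (by linarith) (by linarith)
    (fun z hz => h.sub (hAq z hz).1) ?_ ⟨γ, fun t => ⟨t, rfl⟩⟩ hBj ?_
    (hhor π _ (by simp [cis2]) hTL hL) (hhor (2 * π) _ (by simp [cis4]) hTR hR)
    (hvert _ (by simp [cis1]) fun z hz => Or.inr (Or.inl hz))
    (hvert _ (by simp [cis3]) fun z hz => Or.inr (Or.inr hz))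
  · intro ζ hζ ζ' hζ' e
    have e1 := hκf ζ hζ
    rw [e, hκf ζ' hζ'] at e1
    exact (add_left_cancel e1).symm
  · rintro z ((((e | e) | e) | e) | e)
    · exact h.sub (hCRs e).1
    · exact h.sub (hCLs e).1
    · exact h.sub e.1
    · exact h.sub e.1
    · exact hBD e
  · rw [Set.disjoint_left]
    intro z hz hz'
    rcases hB'K z hz' (Or.inl hz) with e | e
    · have e1 := (hAq z hz).2 (hCRs e).2.1
      exact hR ((hjoin _ _ hTR δ hδm).trans (e1 ▸ JoinedIn.mono e (subset_insert _ _)))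
    · have e1 := (hAq z hz).2 (hCLs e).2.1
      exact hL ((hjoin _ _ hTL δ hδm).trans (e1 ▸ JoinedIn.mono e (subset_insert _ _)))

theorem cont_wc : Continuous wc := by
  have : wc = fun x : E4 => ((x 2 : ℝ) : ℂ) + ((x 3 : ℝ) : ℂ) * Complex.I := by
    funext x; apply Complex.ext <;> simp [wc]
  rw [this]; fun_prop

theorem do_sub (S : Set E4) : Do S ⊆ Dq S := fun _ h => ⟨h.1, h.2.1.le, h.2.2.le⟩

theorem bd_sub (S : Set E4) : Bd S ⊆ Dq S := fun _ h => ⟨h.1, h.2.1, h.2.2.1⟩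

theorem do_bd (S : Set E4) : ∀ x ∈ Do S, x ∉ Bd S := fun _ h h' =>
  h'.2.2.2.elim h.2.1.ne' h.2.2.ne'

theorem cov (S : Set E4) : ∀ x ∈ Dq S, x ∉ Do S → x ∈ Bd S := by
  intro x hx hn
  refine ⟨hx.1, hx.2.1, hx.2.2, ?_⟩
  by_contra hc
  rw [not_or] at hc
  exact hn ⟨hx.1, lt_of_le_of_ne hx.2.1 (Ne.symm hc.1), lt_of_le_of_ne hx.2.2 (Ne.symm hc.2)⟩

theorem ab (hL : LocS) (hW : WlocS) {S : Set E4} (h : Sym2 S) : Ab (Dq S) (Do S) (Bd S) wc := by
  refine ⟨(hL.one S h.toSym).1, do_sub S, cov S, cont_wc, fun p hp => ?_⟩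
  obtain ⟨δ, hδ, κ, h1, h2, h3, h4⟩ := hW.int S h p hp univ univ_mem
  exact ⟨δ, hδ, κ, h1, h2, fun ζ hζ => ⟨(h3 ζ hζ).1.1, (h3 ζ hζ).2⟩,
    nhdsWithin_mono p (fun x hx => hx.1) h4⟩

theorem lineS (hL : LocS) (hQ : QcS) (hW : WlocS) (hP : PlanS) {S : Set E4} (h : Sym2 S) (a : ℂ)
    (ha : ‖a‖ = 1) {p q : E4} (hp : p ∈ Do S) (hq : q ∈ Do S) (hpi : (a * wc p).im = 0)
    (hqi : (a * wc q).im = 0) :
    JoinedIn (insert p (Zr (Do S) (fun x => a * wc x) (a * wc p).re)) p q ∨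
      JoinedIn (insert p (Zl (Do S) (fun x => a * wc x) (a * wc p).re)) p q := by
  have hv : ∀ z : E4, ⟪(!₂[0, 0, a.im, a.re] : E4), z⟫_ℝ = (a * wc z).im := by
    intro z; rw [inner4]; simp [wc]; ring
  have hv' : ∀ z : E4, ⟪(!₂[0, 0, -a.im, -a.re] : E4), z⟫_ℝ = -(a * wc z).im := by
    intro z; rw [inner4]; simp [wc]
  refine line hP ((ab hL hW h).mul a ha) h.planar (bd_sub S) (do_bd S) h.bconn ?_ ?_ ?_ hp hq
    hpi hqi
  · intro b hb V hV
    obtain ⟨W, hW1, hW2, -, hW3⟩ := hL.lc S h.toSym b (bd_sub S hb) V hV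
    exact ⟨W, hW1, hW2, hW3 b ⟨bd_sub S hb, mem_of_mem_nhds hW1⟩⟩
  · intro x hx y hy h1 h2
    have := hQ.pos S h.toSym !₂[0, 0, a.im, a.re] (by simp) (by simp) x hx y hy
      (by rwa [hv]) (by rwa [hv])
    simpa only [hv] using this
  · intro x hx y hy h1 h2
    have := hQ.pos S h.toSym !₂[0, 0, -a.im, -a.re] (by simp) (by simp) x hx y hy
      (by rw [hv']; linarith) (by rw [hv']; linarith)
    simpa only [hv', neg_pos] using this

theorem exists_dir (w : ℂ) : ∃ a : ℂ, ‖a‖ = 1 ∧ a * w = (‖w‖ : ℝ) := by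
  refine ⟨cis (-w.arg), norm_cis _, ?_⟩
  have h := Complex.norm_mul_exp_arg_mul_I w
  have e : cis (-w.arg) * Complex.exp (w.arg * Complex.I) = 1 := by
    rw [cis, ← Complex.exp_add]; simp
  linear_combination (-cis (-w.arg)) * h + (‖w‖ : ℂ) * e

theorem inj_do (hL : LocS) (hQ : QcS) (hW : WlocS) (hP : PlanS) {S : Set E4} (h : Sym2 S) :
    InjOn wc (Do S) := by
  intro p hp q hq e
  obtain ⟨a, ha, hw⟩ := exists_dir (wc p)
  rcases lineS hL hQ hW hP h a ha hp hq (by rw [hw]; simp) (by rw [← e, hw]; simp) with j | j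
  · rcases j.target_mem with e1 | e1
    · exact e1.symm
    · exact absurd e1.2.2 (by simp [e])
  · rcases j.target_mem with e1 | e1
    · exact e1.symm
    · exact absurd e1.2.2 (by simp [e])

theorem inward (hW : WlocS) {S : Set E4} (h : Sym2 S) {p : E4} (hp : p ∈ Dq S) {V : Set E4}
    (hV : V ∈ 𝓝 p) : ∃ ε > 0, ∀ s ∈ Ioo (1 - ε) 1, ∃ x ∈ Do S ∩ V, wc x = (s : ℝ) * wc p := by
  by_cases hpO : p ∈ Do S
  · obtain ⟨δ, hδ, κ, -, -, h3, -⟩ := hW.int S h p hpO V hV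
    refine ⟨δ / (‖wc p‖ + 1), by positivity, fun s hs => ⟨κ (s * wc p), ?_⟩⟩
    refine h3 _ ?_
    rw [mem_ball, dist_eq_norm]
    have e : (s : ℂ) * wc p - wc p = ((s - 1 : ℝ) : ℂ) * wc p := by push_cast; ring
    rw [e, norm_mul, Complex.norm_real, Real.norm_eq_abs, abs_of_neg (by linarith [hs.2])]
    have h1 : 1 - s < δ / (‖wc p‖ + 1) := by linarith [hs.1]
    rw [lt_div_iff₀ (by positivity)] at h1
    nlinarith [hs.2]
  · exact (hW.bd S h p (cov S p hp hpO)).2 V hV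

theorem zero_mem (hL : LocS) (hW : WlocS) {S : Set E4} (h : Sym2 S) {p : E4} (hp : p ∈ Dq S) :
    ∃ x ∈ Do S, wc x = 0 := by
  have hK : IsCompact (wc '' Dq S) := (hL.one S h.toSym).1.image cont_wc
  obtain ⟨_, ⟨x, hx, rfl⟩, hmin⟩ := hK.exists_isMinOn ⟨_, p, hp, rfl⟩ continuous_norm.continuousOn
  have h0 : wc x = 0 := by
    by_contra hne
    obtain ⟨ε, hε, h1⟩ := inward hW h hx univ_mem
    obtain ⟨y, hy, e⟩ := h1 (max (1 - ε / 2) (1 / 2))
      ⟨lt_max_of_lt_left (by linarith), max_lt (by linarith) (by norm_num)⟩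
    have h2 : ‖wc x‖ ≤ ‖wc y‖ := hmin ⟨y, do_sub S hy.1, rfl⟩
    rw [e, norm_mul, Complex.norm_real, Real.norm_eq_abs,
      abs_of_pos (lt_max_of_lt_right (by norm_num))] at h2
    have h3 : max (1 - ε / 2) (1 / 2) < 1 := max_lt (by linarith) (by norm_num)
    have h4 := norm_pos_iff.2 hne
    nlinarith
  refine ⟨x, ?_, h0⟩
  by_contra hn
  exact (hW.bd S h x (cov S x hx hn)).1 h0

end DStar

open DStar in
theorem graphS (hL : LocS) (hQ : QcS) (hW : WlocS) (hP : PlanS) : GraphS := by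
  intro S h
  refine ⟨fun p hp q hq e => ?_, fun p hp s hs => ?_⟩
  · by_contra hne
    obtain ⟨U, V, hU, hV, hUV⟩ := t2_separation_nhds hne
    obtain ⟨ε, hε, h1⟩ := inward hW h hp hU
    obtain ⟨ε', hε', h2⟩ := inward hW h hq hV
    have h3 : 0 < min ε ε' := lt_min hε hε'
    obtain ⟨x, hx, ex⟩ := h1 (1 - min ε ε' / 2) ⟨by linarith [min_le_left ε ε'], by linarith⟩
    obtain ⟨y, hy, ey⟩ := h2 (1 - min ε ε' / 2) ⟨by linarith [min_le_right ε ε'], by linarith⟩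
    have h4 := inj_do hL hQ hW hP h hx.1 hy.1 (by rw [ex, ey, e])
    exact Set.disjoint_left.1 hUV hx.2 (h4 ▸ hy.2)
  · obtain ⟨x₀, hx₀, e₀⟩ := zero_mem hL hW h hp
    obtain ⟨ε, hε, h1⟩ := inward hW h hp univ_mem
    have h2 : max (1 - ε / 2) s < 1 := max_lt (by linarith) hs.2
    obtain ⟨x₁, hx₁, e₁⟩ := h1 (max (1 - ε / 2) s) ⟨lt_max_of_lt_left (by linarith), h2⟩
    obtain ⟨a, ha, hw⟩ := exists_dir (wc p)
    have ha0 : a ≠ 0 := by rintro rfl; simp at ha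
    have e₂ : a * wc x₁ = ((max (1 - ε / 2) s * ‖wc p‖ : ℝ) : ℂ) := by
      rw [e₁, mul_left_comm, hw]; push_cast; ring
    have hj : JoinedIn {x | x ∈ Do S ∧ (a * wc x).im = 0} x₀ x₁ := by
      have i0 : (a * wc x₀).im = 0 := by simp [e₀]
      rcases lineS hL hQ hW hP h a ha hx₀ hx₁.1 i0 (by rw [e₂, Complex.ofReal_im]) with j | j
      · exact j.mono (insert_subset ⟨hx₀, i0⟩ fun z hz => ⟨hz.1, hz.2.1⟩)
      · exact j.mono (insert_subset ⟨hx₀, i0⟩ fun z hz => ⟨hz.1, hz.2.1⟩)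
    obtain ⟨γ, hγ⟩ := hj
    have hc : Continuous fun t => (a * wc (γ t)).re :=
      Complex.continuous_re.comp (continuous_const.mul (cont_wc.comp γ.continuous))
    have hm : s * ‖wc p‖ ∈ Icc ((a * wc (γ 0)).re) ((a * wc (γ 1)).re) := by
      rw [γ.source, γ.target, e₀, e₂, Complex.ofReal_re, mul_zero, Complex.zero_re]
      exact ⟨mul_nonneg hs.1 (norm_nonneg _),
        mul_le_mul_of_nonneg_right (le_max_right _ _) (norm_nonneg _)⟩
    obtain ⟨t, ht⟩ := intermediate_value_univ 0 1 hc hm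
    refine ⟨γ t, (hγ t).1, mul_left_cancel₀ ha0 ?_⟩
    rw [mul_left_comm, hw]
    apply Complex.ext
    · simpa using ht
    · simpa using (hγ t).2

end Pool.Agent.Lib.MP_16d934_gt
end
end

-- part Pool.Agent.Lib.MP_16d934_gt.DStar
section

/-! Parametrisation of the quarter by the disc. -/

set_option autoImplicit false

open Set Metric Filter Topology
open scoped InnerProductSpace Real

noncomputable section

namespace Pool.Agent.Lib.MP_16d934_gt

namespace DStar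

theorem cont_inv {f : E4 → ℂ} {C : Set E4} (hC : IsCompact C) (hf : ContinuousOn f C)
    (hi : InjOn f C) : ContinuousOn (Function.invFunOn f C) (f '' C) := by
  rw [continuousOn_iff_isClosed]
  intro t ht
  refine ⟨f '' (C ∩ t), ((hC.inter_right ht).image_of_continuousOn
    (hf.mono inter_subset_left)).isClosed, ?_⟩
  ext w
  constructor
  · rintro ⟨h1, x, hx, rfl⟩
    rw [mem_preimage, hi.leftInvOn_invFunOn hx] at h1
    exact ⟨⟨x, ⟨hx, h1⟩, rfl⟩, x, hx, rfl⟩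
  · rintro ⟨⟨x, hx, rfl⟩, h2⟩
    refine ⟨?_, h2⟩
    rw [mem_preimage, hi.leftInvOn_invFunOn hx.1]
    exact hx.2

/-- direction of a complex number -/
def dir (w : ℂ) : ℂ := ((‖w‖⁻¹ : ℝ) : ℂ) * w

theorem norm_dir {w : ℂ} (h : w ≠ 0) : ‖dir w‖ = 1 := by
  have := norm_pos_iff.2 h
  rw [dir, norm_mul, Complex.norm_real, Real.norm_eq_abs, abs_of_pos (by positivity)]
  field_simp

theorem mul_dir (w : ℂ) : (‖w‖ : ℝ) * dir w = w := by
  by_cases h : w = 0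
  · simp [h, dir]
  · have : ((‖w‖ : ℝ) : ℂ) ≠ 0 := by simpa using h
    rw [dir]; push_cast; field_simp

theorem dir_mul {s : ℝ} (hs : 0 < s) (w : ℂ) : dir (s * w) = dir w := by
  have : (s : ℂ) ≠ 0 := by exact_mod_cast hs.ne'
  rw [dir, dir, norm_mul, Complex.norm_real, Real.norm_eq_abs, abs_of_pos hs]
  push_cast
  field_simp

theorem dir_unit {w : ℂ} (h : ‖w‖ = 1) : dir w = w := by simp [dir, h]

theorem cont_dir {w : ℂ} (h : w ≠ 0) : ContinuousAt dir w := by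
  have := norm_ne_zero_iff.2 h
  unfold dir
  exact (Complex.continuous_ofReal.continuousAt.comp
    (continuous_norm.continuousAt.inv₀ this)).mul continuousAt_id

/-- the radial parametrisation -/
theorem radial (hL : LocS) (hW : WlocS) (hG : GraphS) {S : Set E4} (h : Sym2 S) :
    ∃ H : ℂ → E4, ContinuousOn H (closedBall 0 1) ∧ InjOn H (closedBall 0 1) ∧
      H '' closedBall 0 1 = Dq S ∧
      (∀ z ∈ closedBall (0 : ℂ) 1, ∃ s : ℝ, 0 < s ∧ wc (H z) = s * z) ∧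
      ∀ z ∈ closedBall (0 : ℂ) 1, (‖z‖ = 1 ↔ H z ∈ Bd S) := by
  obtain ⟨hinj, hstar⟩ := hG S h
  obtain ⟨hD, hB, -⟩ := hL.one S h.toSym
  have hne : ∀ b ∈ Bd S, wc b ≠ 0 := fun b hb => (hW.bd S h b hb).1
  -- a boundary point is the farthest point on its ray
  have hfar : ∀ b ∈ Bd S, ∀ x ∈ Dq S, dir (wc x) = dir (wc b) → ‖wc x‖ ≤ ‖wc b‖ := by
    intro b hb x hx e
    by_contra hc
    rw [not_le] at hc
    have h0 : 0 < ‖wc x‖ := lt_of_le_of_lt (norm_nonneg _) hc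
    obtain ⟨y, hy, ey⟩ := hstar x hx (‖wc b‖ / ‖wc x‖) ⟨by positivity, (div_lt_one h0).2 hc⟩
    have e1 : wc y = wc b := by
      have : ((‖wc x‖ : ℝ) : ℂ) ≠ 0 := by exact_mod_cast h0.ne'
      rw [ey]
      conv_rhs => rw [← mul_dir (wc b), ← e, dir]
      push_cast
      field_simp
    exact do_bd S y hy (hinj (do_sub S hy) (bd_sub S hb) e1 ▸ hb)
  let g : E4 → ℂ := fun x => dir (wc x)
  have hgc : ContinuousOn g (Bd S) := fun b hb =>
    ((cont_dir (hne b hb)).comp cont_wc.continuousAt).continuousWithinAt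
  have hgi : InjOn g (Bd S) := by
    intro b hb b' hb' e
    have e1 := le_antisymm (hfar b' hb' b (bd_sub S hb) e) (hfar b hb b' (bd_sub S hb') e.symm)
    refine hinj (bd_sub S hb) (bd_sub S hb') ?_
    rw [← mul_dir (wc b), ← mul_dir (wc b'), e1]
    exact congrArg _ e
  have hgs : ∀ u : ℂ, ‖u‖ = 1 → u ∈ g '' Bd S := by
    intro u hu
    obtain ⟨c, hc, hc0, hc1⟩ := h.corner
    obtain ⟨x₀, hx₀, e₀⟩ := zero_mem hL hW h (p := c) ⟨hc, hc0.ge, hc1.ge⟩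
    have hT : IsCompact (Dq S ∩ {x | wc x = (‖wc x‖ : ℝ) * u}) := hD.inter_right
      (isClosed_eq cont_wc ((Complex.continuous_ofReal.comp cont_wc.norm).mul continuous_const))
    obtain ⟨b, hb, hmax⟩ := hT.exists_isMaxOn ⟨x₀, do_sub S hx₀, by simp [e₀]⟩
      cont_wc.norm.continuousOn
    have hbe : wc b = (‖wc b‖ : ℝ) * u := hb.2
    have hbB : b ∈ Bd S := by
      refine cov S b hb.1 fun hbO => ?_
      obtain ⟨δ, hδ, κ, -, -, h3, -⟩ := hW.int S h b hbO univ univ_mem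
      have hm : ((‖wc b‖ + δ / 2 : ℝ) : ℂ) * u ∈ ball (wc b) δ := by
        rw [mem_ball, dist_eq_norm]
        have e : ((‖wc b‖ + δ / 2 : ℝ) : ℂ) * u - wc b = ((δ / 2 : ℝ) : ℂ) * u := by
          push_cast; linear_combination -hbe
        rw [e, norm_mul, hu, mul_one, Complex.norm_real, Real.norm_eq_abs,
          abs_of_pos (by positivity)]
        linarith
      have hn : ‖((‖wc b‖ + δ / 2 : ℝ) : ℂ) * u‖ = ‖wc b‖ + δ / 2 := by
        rw [norm_mul, hu, mul_one, Complex.norm_real, Real.norm_eq_abs,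
          abs_of_pos (by positivity)]
      have h4 : ‖wc (κ (((‖wc b‖ + δ / 2 : ℝ) : ℂ) * u))‖ ≤ ‖wc b‖ :=
        hmax ⟨do_sub S (h3 _ hm).1.1, by
          show wc _ = _
          rw [(h3 _ hm).2, hn]⟩
      rw [(h3 _ hm).2, hn] at h4
      linarith
    refine ⟨b, hbB, ?_⟩
    show dir (wc b) = u
    rw [hbe, dir_mul (norm_pos_iff.2 (hne b hbB)), dir_unit hu]
  let β : ℂ → E4 := Function.invFunOn g (Bd S)
  have hβc : ContinuousOn β (g '' Bd S) := cont_inv hB hgc hgi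
  have hβB : ∀ u : ℂ, ‖u‖ = 1 → β u ∈ Bd S := fun u hu => Function.invFunOn_mem (hgs u hu)
  have hβg : ∀ u : ℂ, ‖u‖ = 1 → dir (wc (β u)) = u := fun u hu => Function.invFunOn_eq (hgs u hu)
  let ρ : ℂ → ℝ := fun z => ‖wc (β (dir z))‖
  have hρ : ∀ z, z ≠ 0 → 0 < ρ z := fun z hz => norm_pos_iff.2 (hne _ (hβB _ (norm_dir hz)))
  let R : ℂ → ℂ := fun z => (ρ z : ℝ) * z
  have hR : ∀ z, z ≠ 0 → R z = (‖z‖ : ℝ) * wc (β (dir z)) := by
    intro z hz
    conv_rhs => rw [← mul_dir (wc (β (dir z))), hβg _ (norm_dir hz), mul_left_comm, mul_dir]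
  have hR0 : R 0 = 0 := by simp [R]
  have hRO : ∀ z : ℂ, ‖z‖ < 1 → R z ∈ wc '' Do S := by
    intro z hz
    by_cases h0 : z = 0
    · obtain ⟨c, hc, hc0, hc1⟩ := h.corner
      rw [h0, hR0]
      exact zero_mem hL hW h (p := c) ⟨hc, hc0.ge, hc1.ge⟩
    · rw [hR z h0]
      exact hstar _ (bd_sub S (hβB _ (norm_dir h0))) _ ⟨norm_nonneg _, hz⟩
  have hRB : ∀ z : ℂ, ‖z‖ = 1 → R z ∈ wc '' Bd S := by
    intro z hz
    have h0 : z ≠ 0 := by rintro rfl; simp at hz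
    rw [hR z h0, hz]
    exact ⟨_, hβB _ (norm_dir h0), by simp⟩
  have hRD : ∀ z ∈ closedBall (0 : ℂ) 1, R z ∈ wc '' Dq S := by
    intro z hz
    rcases eq_or_lt_of_le (mem_closedBall_zero_iff.1 hz) with e | e
    · exact image_mono (bd_sub S) (hRB z e)
    · exact image_mono (do_sub S) (hRO z e)
  have hRc : Continuous R := by
    rw [continuous_iff_continuousAt]
    intro z
    by_cases h0 : z = 0
    · obtain ⟨M, hM⟩ := hB.exists_bound_of_continuousOn cont_wc.continuousOn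
      subst h0
      rw [ContinuousAt, hR0]
      refine squeeze_zero_norm (a := fun z : ℂ => M * ‖z‖) (fun z => ?_) ?_
      · by_cases hz : z = 0
        · simp [hz, hR0]
        · rw [hR z hz, norm_mul, Complex.norm_real, norm_norm, mul_comm]
          exact mul_le_mul_of_nonneg_right (hM _ (hβB _ (norm_dir hz))) (norm_nonneg _)
      · have : Continuous fun z : ℂ => M * ‖z‖ := by fun_prop
        simpa using this.tendsto 0
    · have h1 : ContinuousOn (fun z => β (dir z)) {z | z ≠ 0} :=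
        hβc.comp (fun z hz => (cont_dir hz).continuousWithinAt) fun z hz => hgs _ (norm_dir hz)
      have h2 : ContinuousAt (fun z => β (dir z)) z := h1.continuousAt (isOpen_ne.mem_nhds h0)
      exact (Complex.continuous_ofReal.continuousAt.comp
        (cont_wc.norm.continuousAt.comp h2)).mul continuousAt_id
  let ι : ℂ → E4 := Function.invFunOn wc (Dq S)
  have hι : ∀ x ∈ Dq S, ι (wc x) = x := fun x hx => hinj.leftInvOn_invFunOn hx
  have hw : ∀ z ∈ closedBall (0 : ℂ) 1, wc (ι (R z)) = R z := fun z hz =>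
    Function.invFunOn_eq (hRD z hz)
  refine ⟨fun z => ι (R z), (cont_inv hD cont_wc.continuousOn hinj).comp hRc.continuousOn hRD,
    fun z hz z' hz' e => ?_, ?_, fun z hz => ?_, fun z hz => ⟨fun e => ?_, fun e => ?_⟩⟩
  · have e1 : R z = R z' := by rw [← hw z hz, ← hw z' hz']; exact congrArg wc e
    have hz0 : ∀ z, R z = 0 → z = 0 := by
      intro z e
      by_contra hc
      exact mul_ne_zero (by exact_mod_cast (hρ z hc).ne') hc e
    by_cases h0 : z = 0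
    · rw [h0, hR0] at e1
      rw [h0, hz0 z' e1.symm]
    · have h0' : z' ≠ 0 := by
        rintro rfl
        exact h0 (hz0 z (e1.trans hR0))
      have e2 : dir z = dir z' := by
        rw [← dir_mul (hρ z h0) z, ← dir_mul (hρ z' h0') z']
        exact congrArg dir e1
      have e3 : ρ z' = ρ z := by simp only [ρ, e2]
      have e4 : ((ρ z : ℝ) : ℂ) * z = (ρ z : ℝ) * z' := by rw [← e3]; nth_rw 1 [e3]; exact e1
      exact mul_left_cancel₀ (by exact_mod_cast (hρ z h0).ne') e4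
  · apply Subset.antisymm
    · rintro _ ⟨z, hz, rfl⟩
      exact Function.invFunOn_mem (hRD z hz)
    · intro x hx
      by_cases h0 : wc x = 0
      · exact ⟨0, by simp, by show ι (R 0) = x; rw [hR0, ← h0, hι x hx]⟩
      · have h1 := hρ _ h0
        have h2 : ‖wc x‖ ≤ ρ (wc x) :=
          hfar _ (hβB _ (norm_dir h0)) x hx (hβg _ (norm_dir h0)).symm
        refine ⟨((ρ (wc x))⁻¹ : ℝ) * wc x, ?_, ?_⟩
        · rw [mem_closedBall_zero_iff, norm_mul, Complex.norm_real, Real.norm_eq_abs,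
            abs_of_pos (by positivity), inv_mul_le_iff₀ h1]
          linarith
        · have e1 : ρ (((ρ (wc x))⁻¹ : ℝ) * wc x) = ρ (wc x) := by
            simp only [ρ]
            rw [dir_mul (inv_pos.2 h1)]
          have e2 : R (((ρ (wc x))⁻¹ : ℝ) * wc x) = wc x := by
            have : ((ρ (wc x) : ℝ) : ℂ) ≠ 0 := by exact_mod_cast h1.ne'
            show ((ρ _ : ℝ) : ℂ) * _ = _
            rw [e1]; push_cast; field_simp
          show ι (R _) = x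
          rw [e2, hι x hx]
  · by_cases h0 : z = 0
    · exact ⟨1, one_pos, by rw [hw z hz, h0, hR0]; simp⟩
    · exact ⟨ρ z, hρ z h0, hw z hz⟩
  · obtain ⟨b, hb, eb⟩ := hRB z e
    show ι (R z) ∈ Bd S
    rwa [← eb, hι b (bd_sub S hb)]
  · by_contra hc
    obtain ⟨x, hx, ex⟩ := hRO z (lt_of_le_of_ne (mem_closedBall_zero_iff.1 hz) hc)
    have e1 : ι (R z) ∈ Bd S := e
    rw [← ex, hι x (do_sub S hx)] at e1
    exact do_bd S x hx e1

/-- enumeration of a periodic discrete set -/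
theorem enum (Θ : Set ℝ) (hper : ∀ φ ∈ Θ, ∀ k : ℤ, φ + k * (2 * π) ∈ Θ) (φ₀ : ℝ) (h₀ : φ₀ ∈ Θ)
    (hfin : (Θ ∩ Ico φ₀ (φ₀ + 2 * π)).Finite) :
    ∃ (N : ℕ) (t : ℤ → ℝ), 0 < N ∧ StrictMono t ∧ (∀ i, t (i + N) = t i + 2 * π) ∧
      range t = Θ ∧ (Θ ∩ Ico φ₀ (φ₀ + 2 * π)).ncard = N := by
  have hπ := Real.pi_pos
  set F := hfin.toFinset with hF
  have hFm : ∀ φ, φ ∈ F ↔ φ ∈ Θ ∧ φ ∈ Ico φ₀ (φ₀ + 2 * π) := fun φ => by simp [hF]
  have hN : 0 < F.card := Finset.card_pos.2 ⟨φ₀, (hFm _).2 ⟨h₀, le_rfl, by linarith⟩⟩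
  have hN' : (0 : ℤ) < F.card := by exact_mod_cast hN
  let o := F.orderEmbOfFin rfl
  have ho : ∀ a, o a ∈ Θ ∧ o a ∈ Ico φ₀ (φ₀ + 2 * π) := fun a =>
    (hFm _).1 (F.orderEmbOfFin_mem rfl a)
  let r : ℤ → Fin F.card := fun i => ⟨(i % F.card).toNat, by
    have h1 := Int.emod_nonneg i hN'.ne'
    have h2 := Int.emod_lt_of_pos i hN'
    omega⟩
  refine ⟨F.card, fun i => o (r i) + (i / F.card : ℤ) * (2 * π), hN, fun i j hij => ?_,
    fun i => ?_, ?_, Set.ncard_eq_toFinset_card _ hfin⟩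
  · have h1 : i / F.card ≤ j / F.card := Int.ediv_le_ediv hN' hij.le
    show o (r i) + (i / F.card : ℤ) * (2 * π) < o (r j) + (j / F.card : ℤ) * (2 * π)
    rcases eq_or_lt_of_le h1 with e | e
    · have h2 : r i < r j := by
        have h3 := Int.emod_add_mul_ediv i F.card
        have h4 := Int.emod_add_mul_ediv j F.card
        have h5 := Int.emod_nonneg i hN'.ne'
        rw [e] at h3
        show (i % F.card).toNat < (j % F.card).toNat
        omega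
      have h3 := o.strictMono h2
      rw [e]; linarith
    · have h2 : ((i / F.card : ℤ) : ℝ) + 1 ≤ (j / F.card : ℤ) := by exact_mod_cast e
      have h3 := (ho (r i)).2.2
      have h4 := (ho (r j)).2.1
      nlinarith
  · have e1 : r (i + F.card) = r i := by
      apply Fin.ext
      show ((i + F.card) % F.card).toNat = (i % F.card).toNat
      rw [Int.add_emod_right]
    have e2 : (i + F.card) / F.card = i / F.card + 1 := by
      rw [Int.add_ediv_of_dvd_right (dvd_refl _), Int.ediv_self hN'.ne']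
    show o (r (i + F.card)) + ((i + F.card) / F.card : ℤ) * (2 * π) = _
    rw [e1, e2]; push_cast; ring
  · apply Subset.antisymm
    · rintro _ ⟨i, rfl⟩
      exact hper _ (ho _).1 _
    · intro φ hφ
      have h2 : 0 < 2 * π := by positivity
      have h3 := toIcoMod_add_toIcoDiv_zsmul h2 φ₀ φ
      have h4 : toIcoMod h2 φ₀ φ ∈ F := by
        refine (hFm _).2 ⟨?_, toIcoMod_mem_Ico h2 φ₀ φ⟩
        have := hper φ hφ (-toIcoDiv h2 φ₀ φ)
        convert this using 1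
        rw [zsmul_eq_mul] at h3
        push_cast; linarith
      have h5 : toIcoMod h2 φ₀ φ ∈ range o := by
        rw [Finset.range_orderEmbOfFin]; exact h4
      obtain ⟨a, ha⟩ := h5
      have ha0 : (0 : ℤ) ≤ a.val := Int.natCast_nonneg _
      have ha1 : (a.val : ℤ) < F.card := by exact_mod_cast a.2
      refine ⟨a.val + F.card * toIcoDiv h2 φ₀ φ, ?_⟩
      have e1 : r (a.val + F.card * toIcoDiv h2 φ₀ φ) = a := by
        apply Fin.ext
        show ((a.val + F.card * toIcoDiv h2 φ₀ φ) % F.card).toNat = a.val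
        rw [Int.add_mul_emod_self_left, Int.emod_eq_of_lt ha0 ha1, Int.toNat_natCast]
      have e2 : (a.val + F.card * toIcoDiv h2 φ₀ φ) / F.card = toIcoDiv h2 φ₀ φ := by
        rw [Int.add_mul_ediv_left _ _ hN'.ne', Int.ediv_eq_zero_of_lt ha0 ha1, zero_add]
      show o (r _) + ((_ / F.card : ℤ) : ℝ) * (2 * π) = φ
      rw [e1, e2, ha, ← zsmul_eq_mul, h3]

theorem coord {O : Iso} {i j : Fin 4} (h : O (ee i) = ee j) (g : E4) : O g j = g i := by
  have h1 : ⟪ee j, O g⟫_ℝ = ⟪ee i, g⟫_ℝ := by rw [← h, O.inner_map_map]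
  simpa [ee, EuclideanSpace.inner_single_left] using h1

theorem cont_gn : Continuous fun q : P2 × ℝ => gn q.1 q.2 := by
  unfold gn
  have h1 : Continuous fun q : P2 × ℝ => (√(1 + q.1.1 ^ 2 + q.1.2 ^ 2 + q.2 ^ 2))⁻¹ :=
    Continuous.inv₀ (by fun_prop) fun q => (Real.sqrt_pos.2 (by positivity)).ne'
  have h2 : Continuous fun q : P2 × ℝ => (!₂[1, q.1.1, q.1.2, q.2] : E4) := by fun_prop
  exact h1.smul h2

theorem corner (hG : GeoS) {S : Set E4} (h : Sym2 S) {p : E4} (hp : p ∈ S) (h0 : p 0 = 0)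
    (h1 : p 1 = 0) : (∃ V ∈ 𝓝 p, ∀ x ∈ S ∩ V, x 0 = 0 → x 1 = 0 → x = p) ∧
      ∀ V ∈ 𝓝 p, (∃ x ∈ Bd S ∩ V, x 1 < x 0) ∧ ∃ x ∈ Bd S ∩ V, x 0 < x 1 := by
  obtain ⟨O, δ, u, e0, e1, e2, -, hc, -⟩ := hG.corner S h p hp h0 h1
  obtain ⟨V₀, hV₀, hrel⟩ := hc.rel (ball 0 δ) subset_rfl isOpen_ball
  have hz : gX O u 0 = p := by
    rw [gX, hc.zero, ← e0]
    congr 1
    ext i
    fin_cases i <;> simp [gn, ee]
  have c0 : ∀ y : P2, gX O u y 0 = (√(1 + y.1 ^ 2 + y.2 ^ 2 + u y ^ 2))⁻¹ * y.1 := by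
    intro y; rw [gX, coord e1]; simp [gn]
  have c1 : ∀ y : P2, gX O u y 1 = (√(1 + y.1 ^ 2 + y.2 ^ 2 + u y ^ 2))⁻¹ * y.2 := by
    intro y; rw [gX, coord e2]; simp [gn]
  have cp : ∀ y : P2, 0 < (√(1 + y.1 ^ 2 + y.2 ^ 2 + u y ^ 2))⁻¹ := fun y =>
    inv_pos.2 (Real.sqrt_pos.2 (by positivity))
  have hmem : ∀ y ∈ ball (0 : P2) δ, gX O u y ∈ S ∩ V₀ := fun y hy => hrel ▸ ⟨y, hy, rfl⟩
  constructor
  · refine ⟨V₀, hV₀.mem_nhds (hz ▸ (hmem 0 (mem_ball_self hc.pos)).2), fun x hx x0 x1 => ?_⟩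
    rw [← hrel] at hx
    obtain ⟨y, -, rfl⟩ := hx
    rw [c0] at x0
    rw [c1] at x1
    have : y = 0 := Prod.ext ((mul_eq_zero.1 x0).resolve_left (cp y).ne')
      ((mul_eq_zero.1 x1).resolve_left (cp y).ne')
    rw [this, hz]
  · intro V hV
    have hu : ContinuousAt u 0 := (hc.sol.1 0 (mem_ball_self hc.pos)).continuousAt
    have hX : ContinuousAt (gX O u) 0 := by
      have a1 : ContinuousAt (fun y : P2 => (y, u y)) 0 := continuousAt_id.prodMk hu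
      have a2 : ContinuousAt ((fun q : P2 × ℝ => gn q.1 q.2) ∘ fun y : P2 => (y, u y)) 0 :=
        cont_gn.continuousAt.comp a1
      exact O.continuous.continuousAt.comp a2
    have hn : gX O u ⁻¹' V ∩ ball 0 δ ∈ 𝓝 (0 : P2) :=
      inter_mem (hX (hz ▸ hV)) (ball_mem_nhds _ hc.pos)
    obtain ⟨ε, hε, hb⟩ := Metric.mem_nhds_iff.1 hn
    have m1 : ((ε / 2, 0) : P2) ∈ ball (0 : P2) ε := by
      rw [mem_ball_zero_iff, Prod.norm_def]
      simp [abs_of_pos hε, hε]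
    have m2 : ((0, ε / 2) : P2) ∈ ball (0 : P2) ε := by
      rw [mem_ball_zero_iff, Prod.norm_def]
      simp [abs_of_pos hε, hε]
    have p1 : 0 < gX O u (ε / 2, 0) 0 := by rw [c0]; exact mul_pos (cp _) (half_pos hε)
    have q1 : gX O u (ε / 2, 0) 1 = 0 := by rw [c1]; exact mul_zero _
    have p2 : 0 < gX O u (0, ε / 2) 1 := by rw [c1]; exact mul_pos (cp _) (half_pos hε)
    have q2 : gX O u (0, ε / 2) 0 = 0 := by rw [c0]; exact mul_zero _
    exact ⟨⟨_, ⟨⟨(hmem _ (hb m1).2).1, p1.le, q1.ge, Or.inr q1⟩, (hb m1).1⟩, q1.trans_lt p1⟩,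
      ⟨_, ⟨⟨(hmem _ (hb m2).2).1, q2.ge, p2.le, Or.inl q2⟩, (hb m2).1⟩, q2.trans_lt p2⟩⟩

theorem cis_per (φ : ℝ) (k : ℤ) : cis (φ + k * (2 * π)) = cis φ := by
  have : ((φ + k * (2 * π) : ℝ) : ℂ) * Complex.I = φ * Complex.I + k * (2 * π * Complex.I) := by
    push_cast; ring
  rw [cis, this, Complex.exp_add, Complex.exp_int_mul_two_pi_mul_I, mul_one, cis]

theorem cis_inj (a : ℝ) : InjOn cis (Ico a (a + 2 * π)) := by
  intro φ hφ ψ hψ e
  refine Circle.exp_injOn_Ico (a := a) (b := a + 2 * π) (by linarith) hφ hψ (Subtype.ext ?_)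
  exact e

theorem cis_surj (a : ℝ) {z : ℂ} (hz : ‖z‖ = 1) : ∃ φ ∈ Ico a (a + 2 * π), cis φ = z := by
  have h2 : 0 < 2 * π := by positivity
  refine ⟨toIcoMod h2 a z.arg, toIcoMod_mem_Ico h2 a _, ?_⟩
  rw [← cis_per _ (toIcoDiv h2 a z.arg), ← zsmul_eq_mul, toIcoMod_add_toIcoDiv_zsmul]
  have := Complex.norm_mul_exp_arg_mul_I z
  rw [hz] at this
  simpa [cis] using this

theorem cont_cis : Continuous cis := by unfold cis; fun_prop

/-- alternation forces an even period -/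
theorem alt {E : ℤ → Prop} (h : ∀ i, E i ↔ ¬ E (i + 1)) {i₀ : ℤ} (h₀ : E i₀) (k : ℤ) :
    E (2 * k + i₀) ∧ ¬ E (2 * k + 1 + i₀) := by
  have h2 : ∀ i, E i ↔ E (i + 2) := by
    intro i
    rw [h i, h (i + 1), not_not, add_assoc, one_add_one_eq_two]
  have h3 : E (2 * k + i₀) := by
    induction k using Int.induction_on with
    | zero => simpa using h₀
    | succ k ih => convert (h2 _).1 ih using 1; ring
    | pred k ih => exact (h2 _).2 (by convert ih using 1; ring)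
  refine ⟨h3, ?_⟩
  convert (h _).1 h3 using 2
  ring

end DStar

open DStar in
theorem starS (hL : LocS) (hGe : GeoS) (hW : WlocS) (hG : GraphS) : StarS := by
  intro S h
  obtain ⟨H, hc, hi, himg, hray, hbd⟩ := radial hL hW hG h
  have hπ := Real.pi_pos
  have hcm : ∀ φ, cis φ ∈ closedBall (0 : ℂ) 1 := fun φ => mem_closedBall_zero_iff.2 (norm_cis φ).le
  let B : ℝ → E4 := fun φ => H (cis φ)
  have hBc : Continuous B := hc.comp_continuous cont_cis hcm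
  have hBB : ∀ φ, B φ ∈ Bd S := fun φ => (hbd _ (hcm φ)).1 (norm_cis φ)
  have hBi : ∀ a, InjOn B (Ico a (a + 2 * π)) := fun a φ hφ ψ hψ e =>
    cis_inj a hφ hψ (hi (hcm φ) (hcm ψ) e)
  have hBs : ∀ a, ∀ x ∈ Bd S, ∃ φ ∈ Ico a (a + 2 * π), B φ = x := by
    intro a x hx
    obtain ⟨z, hz, rfl⟩ : x ∈ H '' closedBall 0 1 := himg ▸ bd_sub S hx
    obtain ⟨φ, hφ, rfl⟩ := cis_surj a ((hbd z hz).2 hx)
    exact ⟨φ, hφ, rfl⟩
  have hBp : ∀ φ (k : ℤ), B (φ + k * (2 * π)) = B φ := fun φ k => congrArg H (cis_per φ k)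
  set C : Set E4 := S ∩ {x | aa x = 0} with hC
  have hCm : ∀ x, x ∈ C ↔ x ∈ S ∧ x 0 = 0 ∧ x 1 = 0 := by
    intro x
    refine and_congr_right fun _ => ⟨fun e => ?_, fun e => ?_⟩
    · have e' : x 0 ^ 2 + x 1 ^ 2 = 0 := e
      constructor <;> nlinarith [sq_nonneg (x 0), sq_nonneg (x 1)]
    · show x 0 ^ 2 + x 1 ^ 2 = 0
      rw [e.1, e.2]; norm_num
  have hCB : C ⊆ Bd S := fun x hx =>
    have e := (hCm x).1 hx
    ⟨e.1, e.2.1.ge, e.2.2.ge, Or.inl e.2.1⟩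
  have hCf : C.Finite := by
    have hCc : IsCompact C := h.cpt.inter_right (isClosed_eq (by unfold aa; fun_prop)
      continuous_const)
    have : ∀ p ∈ C, ∃ V ∈ 𝓝 p, ∀ x ∈ C, x ∈ V → x = p := by
      intro p hp
      have e := (hCm p).1 hp
      obtain ⟨V, hV, hV'⟩ := (corner hGe h e.1 e.2.1 e.2.2).1
      exact ⟨V, hV, fun x hx hxV => hV' x ⟨hx.1, hxV⟩ ((hCm x).1 hx).2.1 ((hCm x).1 hx).2.2⟩
    choose! V hV hV' using this
    obtain ⟨t, ht, hcov⟩ := hCc.elim_nhds_subcover V hV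
    refine t.finite_toSet.subset fun x hx => ?_
    obtain ⟨p, hp, hxp⟩ := mem_iUnion₂.1 (hcov hx)
    rw [hV' p (ht p hp) x hx hxp]
    exact hp
  set Θ : Set ℝ := B ⁻¹' C with hΘ
  obtain ⟨c, hcS, hc0, hc1⟩ := h.corner
  have hcC : c ∈ C := (hCm c).2 ⟨hcS, hc0, hc1⟩
  obtain ⟨φ₀, -, hφ₀⟩ := hBs 0 c (hCB hcC)
  have himC : B '' (Θ ∩ Ico φ₀ (φ₀ + 2 * π)) = C := by
    apply Subset.antisymm
    · rintro _ ⟨φ, hφ, rfl⟩
      exact hφ.1
    · intro x hx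
      obtain ⟨φ, hφ, rfl⟩ := hBs φ₀ x (hCB hx)
      exact ⟨φ, ⟨hx, hφ⟩, rfl⟩
  have hinjΘ : InjOn B (Θ ∩ Ico φ₀ (φ₀ + 2 * π)) := (hBi φ₀).mono inter_subset_right
  obtain ⟨N, t, hN, ht, hper, hrange, hcard⟩ := enum Θ
    (fun φ hφ k => by rw [hΘ, mem_preimage, hBp]; exact hφ) φ₀
    (by rw [hΘ, mem_preimage, hφ₀]; exact hcC) (Finite.of_finite_image (himC ▸ hCf) hinjΘ)
  have hcnt : C.ncard = N := by rw [← himC, hinjΘ.ncard_image, hcard]
  have htC : ∀ i, B (t i) ∈ C := fun i => (hrange ▸ mem_range_self i : t i ∈ Θ)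
  let g : ℝ → ℝ := fun φ => B φ 0 - B φ 1
  have hgc : Continuous g := by fun_prop
  have hg0 : ∀ i, ∀ φ ∈ Ioo (t i) (t (i + 1)), g φ ≠ 0 := by
    intro i φ hφ e
    have e1 : B φ 0 = B φ 1 := sub_eq_zero.1 e
    have e2 : φ ∈ Θ := (hCm _).2 ⟨(hBB φ).1, (hBB φ).2.2.2.elim
      (fun e => ⟨e, e1 ▸ e⟩) fun e => ⟨e1 ▸ e, e⟩⟩
    rw [← hrange] at e2
    obtain ⟨j, rfl⟩ := e2
    have h1 := ht.lt_iff_lt.1 hφ.1
    have h2 := ht.lt_iff_lt.1 hφ.2
    omega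
  let E : ℤ → Prop := fun i => ∀ φ ∈ Ioo (t i) (t (i + 1)), 0 < g φ
  have hnE : ∀ i, ¬ E i → ∀ φ ∈ Ioo (t i) (t (i + 1)), g φ < 0 := by
    intro i hn φ hφ
    simp only [E, not_forall, not_lt] at hn
    obtain ⟨ψ, hψ, hle⟩ := hn
    by_contra hge
    rw [not_lt] at hge
    obtain ⟨χ, hχ, e⟩ := isPreconnected_Ioo.intermediate_value hψ hφ hgc.continuousOn
      (⟨hle, hge⟩ : (0 : ℝ) ∈ Icc (g ψ) (g φ))
    exact hg0 i χ hχ e
  have hnear : ∀ i, (∃ φ ∈ Ioo (t i) (t (i + 1 + 1)), 0 < g φ) ∧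
      ∃ φ ∈ Ioo (t i) (t (i + 1 + 1)), g φ < 0 := by
    intro i
    have l1 : t i < t (i + 1) := ht (by omega)
    have l2 : t (i + 1) < t (i + 1 + 1) := ht (by omega)
    obtain ⟨ε, hε, e1, e2⟩ : ∃ ε > 0, ε < t (i + 1) - t i ∧ ε < t (i + 1 + 1) - t (i + 1) :=
      ⟨min (t (i + 1) - t i) (t (i + 1 + 1) - t (i + 1)) / 2, half_pos (lt_min (by linarith)
        (by linarith)), by linarith [min_le_left (t (i + 1) - t i) (t (i + 1 + 1) - t (i + 1))],
        by linarith [min_le_right (t (i + 1) - t i) (t (i + 1 + 1) - t (i + 1))]⟩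
    have hK : IsClosed (B '' Icc (t (i + 1) + ε) (t (i + 1) - ε + 2 * π)) :=
      (isCompact_Icc.image hBc).isClosed
    have hV : (B '' Icc (t (i + 1) + ε) (t (i + 1) - ε + 2 * π))ᶜ ∈ 𝓝 (B (t (i + 1))) := by
      refine hK.isOpen_compl.mem_nhds ?_
      rintro ⟨φ, hφ, e⟩
      have := hBi (t (i + 1)) ⟨by linarith [hφ.1], by linarith [hφ.2]⟩ ⟨le_rfl, by linarith⟩ e
      linarith [hφ.1]
    have hloc : ∀ x ∈ Bd S ∩ (B '' Icc (t (i + 1) + ε) (t (i + 1) - ε + 2 * π))ᶜ,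
        ∃ φ ∈ Ioo (t i) (t (i + 1 + 1)), B φ = x := by
      intro x hx
      obtain ⟨φ, hφ, rfl⟩ := hBs (t (i + 1) - ε) x hx.1
      refine ⟨φ, ⟨by linarith [hφ.1], ?_⟩, rfl⟩
      by_contra hc
      exact hx.2 ⟨φ, ⟨by linarith, hφ.2.le⟩, rfl⟩
    have e := (hCm _).1 (htC (i + 1))
    obtain ⟨⟨x, hx, hx'⟩, y, hy, hy'⟩ := (corner hGe h e.1 e.2.1 e.2.2).2 _ hV
    obtain ⟨φ, hφ, rfl⟩ := hloc x hx
    obtain ⟨ψ, hψ, rfl⟩ := hloc y hy
    exact ⟨⟨φ, hφ, sub_pos.2 hx'⟩, ψ, hψ, sub_neg.2 hy'⟩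
  have hgt : ∀ i, g (t i) = 0 := fun i => by
    have e := (hCm _).1 (htC i)
    simp only [g, e.2.1, e.2.2, sub_zero]
  have halt : ∀ i, E i ↔ ¬ E (i + 1) := by
    intro i
    obtain ⟨⟨φ, hφ, hφ'⟩, ψ, hψ, hψ'⟩ := hnear i
    constructor
    · intro h1 h2
      rcases lt_trichotomy ψ (t (i + 1)) with l | l | l
      · linarith [h1 ψ ⟨hψ.1, l⟩]
      · rw [l, hgt] at hψ'; exact lt_irrefl _ hψ'
      · linarith [h2 ψ ⟨l, hψ.2⟩]
    · intro h2
      by_contra h1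
      rcases lt_trichotomy φ (t (i + 1)) with l | l | l
      · linarith [hnE i h1 φ ⟨hφ.1, l⟩]
      · rw [l, hgt] at hφ'; exact lt_irrefl _ hφ'
      · linarith [hnE _ h2 φ ⟨l, hφ.2⟩]
  have hEper : ∀ i, E i → E (i + N) := by
    intro i h1 φ hφ
    have e1 := hper i
    have e2 := hper (i + 1)
    rw [add_right_comm] at e2
    have h2 := h1 (φ - 2 * π) ⟨by linarith [hφ.1], by linarith [hφ.2]⟩
    have e3 := hBp (φ - 2 * π) 1
    rw [Int.cast_one, one_mul, sub_add_cancel] at e3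
    simpa only [g, e3] using h2
  obtain ⟨i₀, hi₀⟩ : ∃ i₀, E i₀ := by
    by_cases h0 : E 1
    · exact ⟨1, h0⟩
    · exact ⟨0, (halt 0).2 (by simpa using h0)⟩
  obtain ⟨n, hn⟩ : ∃ n, N = 2 * n := by
    rcases Nat.even_or_odd' N with ⟨n, e | e⟩
    · exact ⟨n, e⟩
    · exfalso
      refine (alt halt hi₀ n).2 ?_
      convert hEper i₀ hi₀ using 1
      rw [e]; push_cast; ring
  refine ⟨H, n, fun i => t (i + i₀), hc, hi, himg, hray, (hG S h).1, hbd, by omega,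
    fun i j hij => ht (by omega), fun i => ?_, fun i φ hφ => ?_, fun i φ hφ => ?_,
    fun φ e0 e1 => ?_, hn ▸ hcnt⟩
  · rw [← hper, hn]; congr 1; push_cast; ring
  · rcases eq_or_lt_of_le hφ.1 with l | l
    · exact l ▸ ((hCm _).1 (htC _)).2.2
    rcases eq_or_lt_of_le hφ.2 with l' | l'
    · exact l' ▸ ((hCm _).1 (htC _)).2.2
    have h1 := (alt halt hi₀ i).1 φ ⟨l, by rwa [add_right_comm] at l'⟩
    have h2 := hBB φ
    refine h2.2.2.2.resolve_left fun e => ?_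
    have h3 := h2.2.2.1
    simp only [g] at h1
    linarith
  · rcases eq_or_lt_of_le hφ.1 with l | l
    · exact l ▸ ((hCm _).1 (htC _)).2.1
    rcases eq_or_lt_of_le hφ.2 with l' | l'
    · exact l' ▸ ((hCm _).1 (htC _)).2.1
    have h1 := hnE _ (alt halt hi₀ i).2 φ ⟨l, by
      rwa [show 2 * i + 1 + i₀ + 1 = 2 * i + 2 + i₀ by ring]⟩
    have h2 := hBB φ
    refine h2.2.2.2.resolve_right fun e => ?_
    have h3 := h2.2.1
    simp only [g] at h1
    linarith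
  · have e2 : φ ∈ Θ := (hCm _).2 ⟨(hBB φ).1, e0, e1⟩
    rw [← hrange] at e2
    obtain ⟨j, rfl⟩ := e2
    exact ⟨j - i₀, by simp⟩

end Pool.Agent.Lib.MP_16d934_gt
end
end
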