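import Pool.Agent.Lib.MP_16d934_gt.StC

-- part Pool.Agent.Lib.MP_16d934_gt.EAtta
section

/-! Jets of the closed leaves: coordinates and families of graphs. -/

set_option autoImplicit false

open Set Metric Filter Topology Asymptotics
open scoped ContDiff InnerProductSpace NNReal Real

noncomputable section

namespace Pool.Agent.Lib.MP_16d934_gt

namespace EAtt

theorem OG_apply (A B : ℝ) (x : E4) : OG A B x =
    !₂[Real.cos B * x 0 - Real.sin B * ((x 2 + x 3) * (√2)⁻¹),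
      Real.sin B * x 0 + Real.cos B * ((x 2 + x 3) * (√2)⁻¹),
      Real.cos A * x 1 - Real.sin A * ((x 2 - x 3) * (√2)⁻¹),
      Real.sin A * x 1 + Real.cos A * ((x 2 - x 3) * (√2)⁻¹)] := by
  ext i
  fin_cases i <;> simp [OG, OQ, dg, mkO_apply] <;> ring

theorem OG_symm (A B : ℝ) (x : E4) : (OG A B).symm x =
    !₂[Real.cos B * x 0 + Real.sin B * x 1, Real.cos A * x 2 + Real.sin A * x 3,
      ((Real.cos B * x 1 - Real.sin B * x 0) + (Real.cos A * x 3 - Real.sin A * x 2)) * (√2)⁻¹,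
      ((Real.cos B * x 1 - Real.sin B * x 0) - (Real.cos A * x 3 - Real.sin A * x 2)) * (√2)⁻¹] := by
  rw [LinearIsometryEquiv.symm_apply_eq, OG_apply]
  have a := Real.sin_sq_add_cos_sq A
  have b := Real.sin_sq_add_cos_sq B
  ext i
  fin_cases i <;> simp
  · linear_combination (-x 0) * b
      + 2 * Real.sin B * (Real.cos B * x 1 - Real.sin B * x 0) * h2
  · linear_combination (-x 1) * b
      - 2 * Real.cos B * (Real.cos B * x 1 - Real.sin B * x 0) * h2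
  · linear_combination (-x 2) * a
      + 2 * Real.sin A * (Real.cos A * x 3 - Real.sin A * x 2) * h2
  · linear_combination (-x 3) * a
      - 2 * Real.cos A * (Real.cos A * x 3 - Real.sin A * x 2) * h2

theorem OG_cont : Continuous fun q : ℝ × E4 => OG (q.1 / 2) (π / 4) q.2 := by
  simp only [OG_apply]
  fun_prop

theorem OG_symm_cont : Continuous fun q : ℝ × E4 => (OG (q.1 / 2) (π / 4)).symm q.2 := by
  simp only [OG_symm]
  fun_prop

theorem OG_aa (A B : ℝ) (x : E4) : aa (OG A B x) = x 0 ^ 2 + ((x 2 + x 3) * (√2)⁻¹) ^ 2 := by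
  rw [OG_apply]
  simp only [aa]
  simp
  linear_combination (x 0 ^ 2 + ((x 2 + x 3) * (√2)⁻¹) ^ 2) * Real.sin_sq_add_cos_sq B

theorem OG_vv (A B : ℝ) (x n : E4) : vv (OG A B x) (OG A B n) =
    x 0 * n 0 + ((x 2 + x 3) * (√2)⁻¹) * ((n 2 + n 3) * (√2)⁻¹) := by
  rw [OG_apply, OG_apply]
  simp only [vv]
  simp
  linear_combination (x 0 * n 0 + ((x 2 + x 3) * (√2)⁻¹) * ((n 2 + n 3) * (√2)⁻¹))
    * Real.sin_sq_add_cos_sq B

theorem OG_u12 (A B : ℝ) (x n : E4) : u12 (OG A B x) (OG A B n) =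
    x 0 * ((n 2 + n 3) * (√2)⁻¹) - ((x 2 + x 3) * (√2)⁻¹) * n 0 := by
  rw [OG_apply, OG_apply]
  simp only [u12]
  simp
  linear_combination (x 0 * ((n 2 + n 3) * (√2)⁻¹) - ((x 2 + x 3) * (√2)⁻¹) * n 0)
    * Real.sin_sq_add_cos_sq B

theorem OG_u34 (A B : ℝ) (x n : E4) : u34 (OG A B x) (OG A B n) =
    x 1 * ((n 2 - n 3) * (√2)⁻¹) - ((x 2 - x 3) * (√2)⁻¹) * n 1 := by
  rw [OG_apply, OG_apply]
  simp only [u34]
  simp
  linear_combination (x 1 * ((n 2 - n 3) * (√2)⁻¹) - ((x 2 - x 3) * (√2)⁻¹) * n 1)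
    * Real.sin_sq_add_cos_sq A

theorem norm4 (x : E4) : ‖x‖ ^ 2 = x 0 ^ 2 + x 1 ^ 2 + x 2 ^ 2 + x 3 ^ 2 := by
  have := inner4 x x
  rw [real_inner_self_eq_norm_sq] at this
  linarith

theorem jet_cont : Continuous fun q : E4 × E4 => jet q.1 q.2 := by
  unfold jet aa vv u12 u34
  fun_prop

theorem gn_cont : Continuous fun q : P2 × ℝ => gn q.1 q.2 := by
  have a : Continuous fun q : P2 × ℝ => (√(1 + q.1.1 ^ 2 + q.1.2 ^ 2 + q.2 ^ 2))⁻¹ :=
    Continuous.inv₀ (by fun_prop) fun q => by positivity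
  unfold gn
  fun_prop

theorem nrm_cont : Continuous fun q : P2 × ℝ × ℝ × ℝ => nrm q.1 q.2.1 q.2.2.1 q.2.2.2 := by
  have a : Continuous fun q : P2 × ℝ × ℝ × ℝ => (√(1 + q.2.2.1 ^ 2 + q.2.2.2 ^ 2
      + (q.2.1 - q.1.1 * q.2.2.1 - q.1.2 * q.2.2.2) ^ 2))⁻¹ :=
    Continuous.inv₀ (by fun_prop) fun q => by positivity
  unfold nrm
  fun_prop

/-- gnomonic position -/
def yc (w : E4) : P2 := (w 1 / w 0, w 2 / w 0)

theorem gn_yc {w : E4} (h : ‖w‖ = 1) (h0 : 0 < w 0) : gn (yc w) (w 3 / w 0) = w := by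
  have n := norm4 w
  rw [h] at n
  have e : √(1 + (yc w).1 ^ 2 + (yc w).2 ^ 2 + (w 3 / w 0) ^ 2) = (w 0)⁻¹ := by
    rw [Real.sqrt_eq_iff_mul_self_eq (by positivity) (by positivity)]
    simp only [yc]
    field_simp
    linarith
  unfold gn
  rw [e, inv_inv]
  ext i
  fin_cases i <;> simp [yc] <;> field_simp

theorem gn_zero (y : P2) (z : ℝ) : 0 < gn y z 0 := by
  simp only [gn]
  simp
  positivity

theorem yc_gn (y : P2) (z : ℝ) : yc (gn y z) = y := by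
  have : √(1 + y.1 ^ 2 + y.2 ^ 2 + z ^ 2) ≠ 0 := by positivity
  apply Prod.ext <;> simp [yc, gn] <;> field_simp

theorem yc_cont {w : E4} (h : w 0 ≠ 0) : ContinuousAt yc w := by
  unfold yc
  exact ContinuousAt.prodMk (ContinuousAt.div (by fun_prop) (by fun_prop) h)
    (ContinuousAt.div (by fun_prop) (by fun_prop) h)

theorem gam_zc {g : Iso} (hg : Gam g) {x x' : E4} {c : ℝ} (h0 : x 0 = c * x' 0)
    (h1 : x 1 = c * x' 1) : zc (g x) = c * zc (g x') := by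
  have a := hg (x - c • x')
  rw [map_sub, map_smul] at a
  simp only [aa, PiLp.sub_apply, PiLp.smul_apply, smul_eq_mul, h0, h1] at a
  apply Complex.ext
  · rw [Complex.re_ofReal_mul]
    show g x 0 = c * g x' 0
    nlinarith [sq_nonneg (g x 0 - c * g x' 0), sq_nonneg (g x 1 - c * g x' 1)]
  · rw [Complex.im_ofReal_mul]
    show g x 1 = c * g x' 1
    nlinarith [sq_nonneg (g x 0 - c * g x' 0), sq_nonneg (g x 1 - c * g x' 1)]

theorem gam_wc {g : Iso} (hg : Gam g) {x x' : E4} {c : ℝ} (h2 : x 2 = c * x' 2)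
    (h3 : x 3 = c * x' 3) : wc (g x) = c * wc (g x') := by
  have a := hg (x - c • x')
  have b := norm4 (g (x - c • x'))
  rw [g.norm_map, norm4] at b
  rw [map_sub, map_smul] at a b
  simp only [aa, PiLp.sub_apply, PiLp.smul_apply, smul_eq_mul, h2, h3] at a b
  apply Complex.ext
  · rw [Complex.re_ofReal_mul]
    show g x 2 = c * g x' 2
    nlinarith [sq_nonneg (g x 2 - c * g x' 2), sq_nonneg (g x 3 - c * g x' 3)]
  · rw [Complex.im_ofReal_mul]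
    show g x 3 = c * g x' 3
    nlinarith [sq_nonneg (g x 2 - c * g x' 2), sq_nonneg (g x 3 - c * g x' 3)]

/-! ### Families of graphs -/

theorem cont_fam {U : ℝ → P2 → ℝ} {O : ℝ → Iso} (hO : Continuous fun q : ℝ × E4 => O q.1 q.2)
    {q₀ : ℝ × P2} (h : ContinuousAt (fun q : ℝ × P2 => j2 (U q.1) q.2) q₀) :
    ContinuousAt (fun q : ℝ × P2 => gX (O q.1) (U q.1) q.2) q₀ ∧
      ContinuousAt (fun q : ℝ × P2 => gN (O q.1) (U q.1) q.2) q₀ := by
  have h0 : ContinuousAt (fun q : ℝ × P2 => U q.1 q.2) q₀ := h.fst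
  have h1 : ContinuousAt (fun q : ℝ × P2 => d1 (U q.1) q.2) q₀ := h.snd.fst
  have h2 : ContinuousAt (fun q : ℝ × P2 => d2 (U q.1) q.2) q₀ := h.snd.snd.fst
  constructor
  · exact hO.continuousAt.comp (f := fun q : ℝ × P2 => (q.1, gn q.2 (U q.1 q.2)))
      (continuousAt_fst.prodMk (gn_cont.continuousAt.comp
        (f := fun q : ℝ × P2 => (q.2, U q.1 q.2)) (continuousAt_snd.prodMk h0)))
  · exact hO.continuousAt.comp
      (f := fun q : ℝ × P2 => (q.1, nrm q.2 (U q.1 q.2) (d1 (U q.1) q.2) (d2 (U q.1) q.2)))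
      (continuousAt_fst.prodMk (nrm_cont.continuousAt.comp
        (f := fun q : ℝ × P2 => (q.2, U q.1 q.2, d1 (U q.1) q.2, d2 (U q.1) q.2))
        (continuousAt_snd.prodMk (h0.prodMk (h1.prodMk h2)))))

theorem cont_jet {U : ℝ → P2 → ℝ} {O : ℝ → Iso} (hO : Continuous fun q : ℝ × E4 => O q.1 q.2)
    {q₀ : ℝ × P2} (h : ContinuousAt (fun q : ℝ × P2 => j2 (U q.1) q.2) q₀) :
    ContinuousAt (fun q : ℝ × P2 => jet (gX (O q.1) (U q.1) q.2) (gN (O q.1) (U q.1) q.2)) q₀ :=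
  jet_cont.continuousAt.comp
    (f := fun q : ℝ × P2 => (gX (O q.1) (U q.1) q.2, gN (O q.1) (U q.1) q.2))
    ((cont_fam hO h).1.prodMk (cont_fam hO h).2)

theorem d1_shift (F : P2 → E4) (y : P2) : d1 (fun s => F (y + s)) = fun s => d1 F (y + s) := by
  funext s
  simp only [d1, fderiv_comp_add_left]

theorem d2_shift (F : P2 → E4) (y : P2) : d2 (fun s => F (y + s)) = fun s => d2 F (y + s) := by
  funext s
  simp only [d2, fderiv_comp_add_left]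

theorem fam_gen (hM : MeqS) {O : ℝ → Iso} {U : ℝ → P2 → ℝ} {D : Set (ℝ × P2)}
    (hO : Continuous fun q : ℝ × E4 => O q.1 q.2) (hD : IsOpen D)
    (hc : ∀ q ∈ D, ContinuousAt (fun q : ℝ × P2 => j2 (U q.1) q.2) q)
    (hs : ∀ q ∈ D, AnalyticAt ℝ (U q.1) q.2 ∧ gAt (U q.1) q.2 (U q.1 q.2) = 0)
    {l : ℝ} {y : P2} (h0 : (l, y) ∈ D) {ε : ℝ} (hε : ε = 1 ∨ ε = -1) :
    ∃ δ, Fam l δ (fun q => gX (O q.1) (U q.1) (y + q.2)) (fun q => ε • gN (O q.1) (U q.1) (y + q.2))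
      (gX (O l) (U l) y) (ε • gN (O l) (U l) y) ∧
      ∀ q ∈ ball ((l, 0) : ℝ × P2) δ, (q.1, y + q.2) ∈ D := by
  have sh : Continuous fun q : ℝ × P2 => (q.1, y + q.2) := by fun_prop
  obtain ⟨δ, hδ, hb⟩ := Metric.isOpen_iff.1 (hD.preimage sh) (l, 0) (by simpa using h0)
  have e1 : |ε| = 1 := by rcases hε with rfl | rfl <;> simp
  refine ⟨δ, ⟨hδ, fun q hq => ?_, fun q hq => ?_, by simp, by simp, fun q hq => ?_, ?_, ?_, ?_⟩,
    hb⟩
  · exact ((cont_fam hO (hc _ (hb hq))).1.comp (f := fun q : ℝ × P2 => (q.1, y + q.2))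
      sh.continuousAt).continuousWithinAt
  · exact (((cont_fam hO (hc _ (hb hq))).2.comp (f := fun q : ℝ × P2 => (q.1, y + q.2))
      sh.continuousAt).const_smul ε).continuousWithinAt
  · obtain ⟨a, b, c, -⟩ := hM.normal (O q.1) (U q.1) (y + q.2) (hs _ (hb hq)).1.differentiableAt
    refine ⟨a, ?_, ?_⟩
    · rw [norm_smul, b, Real.norm_eq_abs, e1, mul_one]
    · rw [real_inner_smul_left, c, mul_zero]
  · have := (hM.ana (O l) (U l) y (hs _ h0).1).1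
    exact AnalyticAt.comp (g := gX (O l) (U l)) (f := fun s : P2 => y + s) (x := 0)
      (by simpa using this) (analyticAt_const.add analyticAt_id)
  · simp only [fderiv_comp_add_left, add_zero]
    exact (hM.normal (O l) (U l) y (hs _ h0).1.differentiableAt).2.2.2.2.2
  · have t : Tendsto (fun s : P2 => (l, s)) (𝓝 0) (𝓝 (l, 0)) :=
      (show Continuous fun s : P2 => (l, s) by fun_prop).tendsto 0
    filter_upwards [t.eventually (ball_mem_nhds _ hδ)] with s hq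
    obtain ⟨a, b⟩ := hs _ (hb hq)
    obtain ⟨-, -, -, c, d, -⟩ := hM.normal (O l) (U l) (y + s) a.differentiableAt
    have m := (hM.graph (O l) (U l) (y + s) a.contDiffAt).2 b
    simp only [d1_shift, d2_shift, real_inner_smul_left, c, d, mul_zero, and_self, and_true]
    simpa only [MinEq, d1_shift, d2_shift] using m

theorem fam_geo {l δ : ℝ} {X N : ℝ × P2 → E4} {p n : E4} (h : Fam l δ X N p n) :
    ∀ᶠ s in 𝓝 (0 : P2), ContinuousAt (fun s => N (l, s)) s ∧ ‖X (l, s)‖ = 1 ∧ ‖N (l, s)‖ = 1 ∧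
      ⟪N (l, s), X (l, s)⟫_ℝ = 0 ∧ MinEq (fun s => X (l, s)) s ∧
      ⟪N (l, s), d1 (fun s => X (l, s)) s⟫_ℝ = 0 ∧ ⟪N (l, s), d2 (fun s => X (l, s)) s⟫_ℝ = 0 := by
  have c : Continuous fun s : P2 => (l, s) := by fun_prop
  filter_upwards [(c.tendsto 0).eventually (ball_mem_nhds _ h.pos), h.minimal] with s h1 h2
  obtain ⟨a, b, d⟩ := h.unit _ h1
  exact ⟨(h.contN.continuousAt (isOpen_ball.mem_nhds h1)).comp (f := fun s : P2 => (l, s))
    c.continuousAt, a, b, d, h2⟩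

theorem jet_g (hI : InvS) {g : Iso} (hg : Gam g) (O : Iso) (u : P2 → ℝ) (y : P2) {ε : ℝ}
    (hε : ε = 1 ∨ ε = -1) :
    jet (gX (O.trans g) u y) (ε • gN (O.trans g) u y) = jet (gX O u y) (gN O u y) := by
  rw [← (hI.gam g hg).2.2 (gX O u y) (gN O u y)]
  rcases hε with rfl | rfl
  · rw [one_smul]; rfl
  · rw [neg_one_smul, hI.neg]; rfl

theorem aL_cont : ContinuousOn aL (Ioo 0 π) := by
  unfold aL
  refine continuousOn_const.mul (Real.continuousOn_tan_Ioo.comp (by fun_prop) fun l hl => ?_)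
  exact ⟨by linarith [hl.1, Real.pi_pos], by linarith [hl.2]⟩

/-- parameters and points of the open rhombi -/
def DR : Set (ℝ × P2) := {q | q.1 ∈ Ioo 0 π ∧ q.2 ∈ Rho (aL q.1) √2}

/-- parameters and points of the edge charts -/
def DE : Set (ℝ × P2) := {q | q.1 ∈ Ioo 0 π ∧ q.2 ∈ HE (aL q.1) √2}

theorem aLc {q : ℝ × P2} (h : q.1 ∈ Ioo 0 π) : ContinuousAt (fun q : ℝ × P2 => aL q.1) q :=
  (aL_cont.continuousAt (isOpen_Ioo.mem_nhds h)).comp continuousAt_fst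

theorem DR_open (hT : TetS) : IsOpen DR := by
  rw [isOpen_iff_mem_nhds]
  rintro q ⟨h1, h2⟩
  have c : ContinuousAt (fun q : ℝ × P2 => |q.2.1| / aL q.1 + |q.2.2| / √2) q :=
    (ContinuousAt.div (by fun_prop) (aLc h1) (hT.ang.2.2 _ h1).1.ne').add (by fun_prop)
  exact Filter.Eventually.and (continuousAt_fst.eventually_mem (isOpen_Ioo.mem_nhds h1))
    (c.eventually (gt_mem_nhds h2))

theorem DE_open : IsOpen DE := by
  rw [isOpen_iff_mem_nhds]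
  rintro q ⟨h1, h2, h3⟩
  have c : ContinuousAt (fun q : ℝ × P2 => min √2 (aL q.1 * q.2.1) / 2) q :=
    (continuousAt_const.min ((aLc h1).mul (by fun_prop))).div_const 2
  exact Filter.Eventually.and (continuousAt_fst.eventually_mem (isOpen_Ioo.mem_nhds h1))
    (Filter.Eventually.and (continuousAt_snd.fst.eventually (lt_mem_nhds h2))
      (ContinuousAt.eventually_lt (f := fun q : ℝ × P2 => |q.2.2|) (by fun_prop) c h3))

/-! ### Odd functions -/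

theorem odd_d {ζ : P2 → ℝ} (h : ∀ y : P2, ζ (y.1, -y.2) = -ζ y) (y : P2) :
    d1 ζ (y.1, -y.2) = -d1 ζ y ∧ d2 ζ (y.1, -y.2) = d2 ζ y := by
  let R : P2 ≃L[ℝ] P2 := (ContinuousLinearEquiv.refl ℝ ℝ).prodCongr (ContinuousLinearEquiv.neg ℝ)
  have e : ζ ∘ R = fun y => -ζ y := funext fun y => h y
  have f := R.comp_right_fderiv (f := ζ) (x := y)
  rw [e, fderiv_fun_neg] at f
  have f1 := congrArg (fun L => L (1, 0)) f
  have f2 := congrArg (fun L => L (0, 1)) f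
  have r : R y = (y.1, -y.2) := rfl
  have r1 : (R : P2 →L[ℝ] P2) (1, 0) = (1, 0) := by simp [R]
  have r2 : (R : P2 →L[ℝ] P2) (0, 1) = -(0, 1) := by simp [R]
  simp only [ContinuousLinearMap.neg_apply, ContinuousLinearMap.comp_apply, r, r1, r2,
    map_neg] at f1 f2
  exact ⟨f1.symm, (neg_injective f2).symm⟩

theorem jet_odd {ζ : P2 → ℝ} (h : ∀ y : P2, ζ (y.1, -y.2) = -ζ y) (A B : ℝ) (y : P2) :
    jet (gX (OG A B) ζ (y.1, -y.2)) (gN (OG A B) ζ (y.1, -y.2))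
      = jet (gX (OG A B) ζ y) (gN (OG A B) ζ y) := by
  obtain ⟨a, b⟩ := odd_d h y
  have e1 : √(1 + y.1 ^ 2 + (-y.2) ^ 2 + (-ζ y) ^ 2) = √(1 + y.1 ^ 2 + y.2 ^ 2 + ζ y ^ 2) := by
    congr 1; ring
  have e2 : √(1 + (-d1 ζ y) ^ 2 + d2 ζ y ^ 2 + (-ζ y - y.1 * -d1 ζ y - -y.2 * d2 ζ y) ^ 2)
      = √(1 + d1 ζ y ^ 2 + d2 ζ y ^ 2 + (ζ y - y.1 * d1 ζ y - y.2 * d2 ζ y) ^ 2) := by
    congr 1; ring
  unfold jet gX gN
  rw [h, a, b]
  simp only [OG_aa, OG_vv, OG_u12, OG_u34, gn, nrm, e1, e2]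
  generalize (√(1 + y.1 ^ 2 + y.2 ^ 2 + ζ y ^ 2))⁻¹ = r
  generalize (√(1 + d1 ζ y ^ 2 + d2 ζ y ^ 2 + (ζ y - y.1 * d1 ζ y - y.2 * d2 ζ y) ^ 2))⁻¹ = w
  simp only [PiLp.smul_apply, smul_eq_mul, Matrix.cons_val, Prod.mk.injEq]
  refine ⟨by ring, ?_, ?_, ?_⟩
  · rw [← abs_neg]; congr 1; ring
  · congr 1; ring
  · congr 1; ring

theorem edge_calc {ζ : P2 → ℝ} (h : ∀ y : P2, ζ (y.1, -y.2) = -ζ y) (A B s : ℝ) :
    ∃ w : ℝ, 0 < w ∧ gX (OG A B) ζ (s, 0) = OG A B ((√(1 + s ^ 2))⁻¹ • !₂[1, s, 0, 0]) ∧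
      gN (OG A B) ζ (s, 0) = OG A B (w • !₂[0, 0, -d2 ζ (s, 0), 1]) := by
  have z : ζ (s, 0) = 0 := by
    have := h (s, 0)
    simp only [neg_zero] at this
    linarith
  have p : d1 ζ (s, 0) = 0 := by
    have := (odd_d h (s, 0)).1
    simp only [neg_zero] at this
    linarith
  refine ⟨(√(1 + d2 ζ (s, 0) ^ 2))⁻¹, by positivity, ?_, ?_⟩
  · simp [gX, gn, z]
  · simp [gN, nrm, z, p]

end EAtt

end Pool.Agent.Lib.MP_16d934_gt
end
end

-- part Pool.Agent.Lib.MP_16d934_gt.EAtt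
section

/-! Jets of the closed leaves. -/

set_option autoImplicit false

open Set Metric Filter Topology Asymptotics
open scoped ContDiff InnerProductSpace NNReal Real

noncomputable section

namespace Pool.Agent.Lib.MP_16d934_gt

namespace EAtt

theorem emem (hT : TetS) (hC : IcS) {l : ℝ} (hl : l ∈ Ioo 0 π) {y : P2}
    (hy : y ∈ HE (aL l) √2) (h2 : y.2 < 0) : ∃ x ∈ Rho (aL l) √2, 0 < x.1 ∧ 0 < x.2 ∧
      gX O0 (lf l) x = gX (OG (l / 2) (π / 4)) (ez l) y ∧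
      gN O0 (lf l) x = gN (OG (l / 2) (π / 4)) (ez l) y := by
  obtain ⟨L, h⟩ := (hC.ezs l hl).1
  have := h.mem y hy h2
  rwa [(hT.ang.2.2 l hl).2, hT.ang.2.1] at this

theorem econv (hT : TetS) (hC : IcS) {l : ℝ} (hl : l ∈ Ioo 0 π) {x y : P2} {z : ℝ}
    (hx : x ∈ Rho (aL l) √2) (hy : y ∈ HE (aL l) √2)
    (h : gX O0 (lf l) x = OG (l / 2) (π / 4) (gn y z)) (h1 : 0 ≤ x.1) (h2 : 0 ≤ x.2) :
    y.2 < 0 ∧ z = ez l y := by
  obtain ⟨L, e⟩ := (hC.ezs l hl).1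
  refine e.conv x hx y hy z ?_ h1 h2
  rwa [(hT.ang.2.2 l hl).2, hT.ang.2.1]

theorem eodd (hC : IcS) {l : ℝ} (hl : l ∈ Ioo 0 π) (y : P2) : ez l (y.1, -y.2) = -ez l y := by
  obtain ⟨L, e⟩ := (hC.ezs l hl).1
  exact e.odd y

theorem esol (hC : IcS) {l : ℝ} (hl : l ∈ Ioo 0 π) : Sol (ez l) (HE (aL l) √2) := by
  obtain ⟨L, e⟩ := (hC.ezs l hl).1
  exact e.sol

theorem he_mem (hT : TetS) {l : ℝ} (hl : l ∈ Ioo 0 π) {s : ℝ} (hs : 0 < s) :
    ((s, 0) : P2) ∈ HE (aL l) √2 := by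
  have := (hT.ang.2.2 l hl).1
  refine ⟨hs, ?_⟩
  simp only [abs_zero]
  positivity

theorem rho_abs {a b : ℝ} {y : P2} (h : y ∈ Rho a b) : ((|y.1|, |y.2|) : P2) ∈ Rho a b := by
  simpa only [Rho, mem_setOf_eq, abs_abs] using h

theorem rho_rh {a b : ℝ} {y : P2} (h : y ∈ Rho a b) : y ∈ Rh a b := by
  simp only [Rho, Rh, mem_setOf_eq] at h ⊢
  exact h.le

theorem int (hM : MeqS) (hI : InvS) (hT : TetS) (hR : RadoS) (hL : LfS) (l : ℝ)
    (hl : l ∈ Ioo 0 π) (y : P2) (hy : y ∈ Rho (aL l) √2) :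
    lj (lf l) y ∈ JS ∧ Att l (lj (lf l) y) ∧ 0 < (lj (lf l) y).2.1 ∧
      ((lj (lf l) y).2.2.1 = 0 ↔ y.2 = 0) ∧ ((lj (lf l) y).2.2.2 = 0 ↔ y.1 = 0) ∧
      lj (lf l) (|y.1|, |y.2|) = lj (lf l) y := by
  have h := hL l hl
  obtain ⟨s1, s2, s3, s4, s5, s6, s7⟩ := hR.sign _ _ _ h y hy
  obtain ⟨n1, n2, n3, -⟩ := hM.normal O0 (lf l) y (h.sol.1 y hy).differentiableAt
  refine ⟨hI.mem _ _ n1 n2 n3 s1 s2, ⟨s1, s2, subset_closure (mem_image_of_mem _ hy)⟩,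
    abs_pos.2 s3.ne, ?_, ?_, ?_⟩
  · show |u12 _ _| = 0 ↔ _
    rw [abs_eq_zero]
    exact ⟨fun e => le_antisymm (not_lt.1 fun k => (s6.2 k).ne' e) (not_lt.1 fun k => (s7.2 k).ne e),
      fun e => le_antisymm (not_lt.1 fun k => (s6.1 k).ne' e) (not_lt.1 fun k => (s7.1 k).ne e)⟩
  · show |u34 _ _| = 0 ↔ _
    rw [abs_eq_zero]
    exact ⟨fun e => le_antisymm (not_lt.1 fun k => (s4.2 k).ne e) (not_lt.1 fun k => (s5.2 k).ne' e),
      fun e => le_antisymm (not_lt.1 fun k => (s5.1 k).ne e) (not_lt.1 fun k => (s4.1 k).ne' e)⟩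
  · have f1 : ∀ x ∈ Rho (aL l) √2, lj (lf l) (|x.1|, x.2) = lj (lf l) x := fun x hx => by
      rcases abs_choice x.1 with e | e
      · rw [e]
      · obtain ⟨a, b, -⟩ := hT.evg _ _ _ h x hx
        rw [e, lj, a, b, (hI.gam _ hI.gams.2.2.2.2).2.2]
        rfl
    have f2 : ∀ x ∈ Rho (aL l) √2, lj (lf l) (x.1, |x.2|) = lj (lf l) x := fun x hx => by
      rcases abs_choice x.2 with e | e
      · rw [e]
      · obtain ⟨-, -, a, b⟩ := hT.evg _ _ _ h x hx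
        rw [e, lj, a, b, (hI.gam _ hI.gams.2.2.2.1).2.2]
        rfl
    rw [← f2 y hy]
    exact f1 (y.1, |y.2|) (by simpa only [Rho, mem_setOf_eq, abs_abs] using hy)

theorem inn_int (hM : MeqS) (hI : InvS) (hT : TetS) (hR : RadoS) (hL : LfS) {l : ℝ}
    (hl : l ∈ Ioo 0 π) {y : P2} (hy : y ∈ Rho (aL l) √2) (h1 : y.1 ≠ 0) (h2 : y.2 ≠ 0) :
    Inn l (lj (lf l) y) :=
  ⟨_, rho_abs hy, abs_pos.2 h1, abs_pos.2 h2, (int hM hI hT hR hL l hl y hy).2.2.2.2.2.symm⟩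

theorem inn_edge (hT : TetS) (hC : IcS) {l : ℝ} (hl : l ∈ Ioo 0 π) {y : P2}
    (hy : y ∈ HE (aL l) √2) (h2 : y.2 ≠ 0) :
    Inn l (jet (gX (OG (l / 2) (π / 4)) (ez l) y) (gN (OG (l / 2) (π / 4)) (ez l) y)) := by
  have main : ∀ y ∈ HE (aL l) √2, y.2 < 0 →
      Inn l (jet (gX (OG (l / 2) (π / 4)) (ez l) y) (gN (OG (l / 2) (π / 4)) (ez l) y)) := by
    intro y hy h2
    obtain ⟨x, hx, a, b, c, d⟩ := emem hT hC hl hy h2
    exact ⟨x, hx, a, b, by rw [lj, c, d]⟩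
  rcases lt_or_gt_of_ne h2 with h | h
  · exact main y hy h
  · rw [← jet_odd (eodd hC hl)]
    exact main _ (by simpa only [HE, mem_setOf_eq, abs_neg] using hy) (neg_lt_zero.2 h)

theorem freq_neg (y : P2) (h : y.2 = 0) : ∃ᶠ x : P2 in 𝓝 y, x.2 < 0 := by
  have t : Tendsto (fun s : ℝ => ((y.1, s) : P2)) (𝓝[<] 0) (𝓝 y) := by
    have : Tendsto (fun s : ℝ => ((y.1, s) : P2)) (𝓝 0) (𝓝 (y.1, 0)) :=
      (show Continuous fun s : ℝ => ((y.1, s) : P2) by fun_prop).tendsto 0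
    rw [← h] at this ⊢
    exact this.mono_left nhdsWithin_le_nhds
  exact t.frequently (Filter.Eventually.frequently self_mem_nhdsWithin)

theorem slice {f : ℝ × P2 → J4} {l : ℝ} {y : P2} (h : ContinuousAt f (l, y)) :
    ContinuousAt (fun x => f (l, x)) y :=
  h.comp (f := fun x : P2 => (l, x)) (by fun_prop)

theorem he_nhds {l : ℝ} (hl : l ∈ Ioo 0 π) {y : P2} (hy : y ∈ HE (aL l) √2) :
    ∀ᶠ x in 𝓝 y, x ∈ HE (aL l) √2 := by
  have c : ContinuousAt (fun x : P2 => (l, x)) y := by fun_prop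
  exact (c.eventually_mem (DE_open.mem_nhds (show (l, y) ∈ DE from ⟨hl, hy⟩))).mono fun x h => h.2

theorem rho_nhds (hT : TetS) {l : ℝ} (hl : l ∈ Ioo 0 π) {y : P2} (hy : y ∈ Rho (aL l) √2) :
    ∀ᶠ x in 𝓝 y, x ∈ Rho (aL l) √2 := by
  have c : ContinuousAt (fun x : P2 => (l, x)) y := by fun_prop
  exact (c.eventually_mem ((DR_open hT).mem_nhds (show (l, y) ∈ DR from ⟨hl, hy⟩))).mono
    fun x h => h.2

theorem O0_cont : Continuous fun q : ℝ × E4 => O0 q.2 := O0.continuous.comp continuous_snd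

theorem cj_lf (hC : IcS) {l : ℝ} (hl : l ∈ Ioo 0 π) {y : P2} (hy : y ∈ Rho (aL l) √2) :
    ContinuousAt (fun q : ℝ × P2 => lj (lf q.1) q.2) (l, y) :=
  cont_jet (U := lf) (O := fun _ => O0) O0_cont (hC.int l hl y hy)

theorem cj_ez (hC : IcS) {l : ℝ} (hl : l ∈ Ioo 0 π) {y : P2} (hy : y ∈ HE (aL l) √2) :
    ContinuousAt (fun q : ℝ × P2 => jet (gX (OG (q.1 / 2) (π / 4)) (ez q.1) q.2)
      (gN (OG (q.1 / 2) (π / 4)) (ez q.1) q.2)) (l, y) :=
  cont_jet (U := ez) (O := fun t => OG (t / 2) (π / 4)) OG_cont (hC.edge l hl y hy)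

theorem edge (hM : MeqS) (hI : InvS) (hT : TetS) (hC : IcS) (l : ℝ) (hl : l ∈ Ioo 0 π) (s : ℝ)
    (hs : s > 0) : ej l s ∈ JS ∧ Att l (ej l s) ∧ (ej l s).2.1 = 0 ∧ 0 < (ej l s).2.2.1 ∧
      0 < (ej l s).2.2.2 := by
  have hy := he_mem hT hl hs
  obtain ⟨n1, n2, n3, -⟩ := hM.normal (OG (l / 2) (π / 4)) (ez l) (s, 0)
    ((esol hC hl).1 _ hy).differentiableAt
  obtain ⟨w, hw, e1, e2⟩ := edge_calc (eodd hC hl) (l / 2) (π / 4) s
  obtain ⟨q1, q2⟩ := abs_lt.1 ((hC.ezs l hl).2 s hs)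
  have r0 : 0 < (√(1 + s ^ 2))⁻¹ := by positivity
  have r1 : (√(1 + s ^ 2))⁻¹ < 1 :=
    inv_lt_one_of_one_lt₀ (Real.lt_sqrt_of_sq_lt (by nlinarith))
  have a : aa (gX (OG (l / 2) (π / 4)) (ez l) (s, 0)) = (√(1 + s ^ 2))⁻¹ ^ 2 := by
    rw [e1, OG_aa]; simp
  have a0 : 0 < aa (gX (OG (l / 2) (π / 4)) (ez l) (s, 0)) := by rw [a]; positivity
  have a1 : aa (gX (OG (l / 2) (π / 4)) (ez l) (s, 0)) < 1 := by rw [a]; nlinarith
  refine ⟨hI.mem _ _ n1 n2 n3 a0 a1, ⟨a0, a1, ?_⟩, ?_, ?_, ?_⟩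
  · have c := slice (cj_ez hC hl hy)
    refine mem_closure_of_frequently_of_tendsto ?_ c.tendsto
    refine ((freq_neg (s, 0) rfl).and_eventually (he_nhds hl hy)).mono fun x hx => ?_
    obtain ⟨z, hz, -, -, e⟩ := inn_edge hT hC hl hx.2 hx.1.ne
    exact ⟨z, hz, e.symm⟩
  · show |vv _ _| = 0
    rw [e1, e2, OG_vv]; simp
  · show 0 < |u12 _ _|
    rw [e1, e2, OG_u12, abs_pos]
    simp only [PiLp.smul_apply, smul_eq_mul, Matrix.cons_val]
    have : 0 < (√(1 + s ^ 2))⁻¹ * (w * (1 - d2 (ez l) (s, 0)) * (√2)⁻¹) :=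
      mul_pos r0 (mul_pos (mul_pos hw (by linarith)) (by positivity))
    intro h
    nlinarith
  · show 0 < |u34 _ _|
    rw [e1, e2, OG_u34, abs_pos]
    simp only [PiLp.smul_apply, smul_eq_mul, Matrix.cons_val]
    have : 0 < (√(1 + s ^ 2))⁻¹ * s * (w * (1 + d2 (ez l) (s, 0)) * (√2)⁻¹) :=
      mul_pos (mul_pos r0 hs) (mul_pos (mul_pos hw (by linarith)) (by positivity))
    intro h
    nlinarith

theorem att_he (hM : MeqS) (hI : InvS) (hT : TetS) (hR : RadoS) (hL : LfS) (hC : IcS) {l : ℝ}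
    (hl : l ∈ Ioo 0 π) {y : P2} (hy : y ∈ HE (aL l) √2) :
    Att l (jet (gX (OG (l / 2) (π / 4)) (ez l) y) (gN (OG (l / 2) (π / 4)) (ez l) y)) := by
  by_cases h : y.2 = 0
  · obtain ⟨s, t⟩ := y
    obtain rfl : t = 0 := h
    exact (edge hM hI hT hC l hl s hy.1).2.1
  · obtain ⟨x, hx, -, -, e⟩ := inn_edge hT hC hl hy h
    rw [e]
    exact (int hM hI hT hR hL l hl x hx).2.1

/-- a boundary point of the closed quarter in the edge frame -/
theorem bd_frame (hT : TetS) (hL : LfS) {l : ℝ} (hl : l ∈ Ioo 0 π) {y : P2}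
    (hy : y ∈ Rh (aL l) √2) (hn : y ∉ Rho (aL l) √2) (h1 : 0 ≤ y.1) (h2 : 0 ≤ y.2)
    (a0 : 0 < aa (gX O0 (lf l) y)) (a1 : aa (gX O0 (lf l) y) < 1) :
    0 < (OG (l / 2) (π / 4)).symm (gX O0 (lf l) y) 0 ∧
      0 < (OG (l / 2) (π / 4)).symm (gX O0 (lf l) y) 1 ∧
      (OG (l / 2) (π / 4)).symm (gX O0 (lf l) y) 2 = 0 := by
  have hq : gX O0 (lf l) y ∈ Quad (aL l) √2 := by
    rw [← hT.quad _ _ _ (hL l hl)]
    exact mem_image_of_mem _ ⟨hy, hn⟩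
  obtain ⟨-, c1, -, c3⟩ := hT.coord y (lf l y)
  have rp : 0 < rho y (lf l y) := by unfold rho; positivity
  have x1 : 0 ≤ gX O0 (lf l) y 1 := by
    show 0 ≤ O0 (gn y (lf l y)) 1
    rw [c1]; positivity
  have x3 : 0 ≤ gX O0 (lf l) y 3 := by
    show 0 ≤ O0 (gn y (lf l y)) 3
    rw [c3]; positivity
  generalize gX O0 (lf l) y = x at hq x1 x3 a0 a1
  obtain ⟨n, q3, q1⟩ := hq
  have n4 := norm4 x
  rw [n] at n4
  rw [abs_of_nonneg x3, aL, mul_assoc] at q3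
  rw [abs_of_nonneg x1] at q1
  have s0 : (√2 : ℝ) ≠ 0 := by positivity
  have e1 := mul_left_cancel₀ s0 q1
  have e3 := mul_left_cancel₀ s0 q3
  have pp := Real.pi_pos
  have cA : 0 < Real.cos (l / 2) :=
    Real.cos_pos_of_mem_Ioo ⟨by linarith [hl.1], by linarith [hl.2]⟩
  have sA : 0 < Real.sin (l / 2) :=
    Real.sin_pos_of_mem_Ioo ⟨by linarith [hl.1], by linarith [hl.2]⟩
  have tA : 0 < Real.tan (l / 2) := by rw [Real.tan_eq_sin_div_cos]; positivity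
  have e4 : Real.cos (l / 2) * x 3 = Real.sin (l / 2) * x 2 := by
    rw [e3, Real.tan_eq_sin_div_cos]; field_simp
  unfold aa at a0 a1
  have p0 : 0 < x 0 := by
    refine (e1 ▸ x1).lt_of_ne fun h => ?_
    rw [e1, ← h] at a0
    simp at a0
  have p2 : 0 < x 2 := by
    refine (nonneg_of_mul_nonneg_right (e3 ▸ x3) tA).lt_of_ne fun h => ?_
    rw [e3, ← h] at n4
    linarith
  rw [OG_symm]
  simp only [Matrix.cons_val, Real.cos_pi_div_four, Real.sin_pi_div_four]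
  refine ⟨by positivity, by positivity, ?_⟩
  rw [e1, e4]
  ring

/-- points of the leaf in the edge chart -/
theorem to_edge (hM : MeqS) (hT : TetS) (hL : LfS) (hC : IcS) {t : ℝ} (ht : t ∈ Ioo 0 π) {x : P2}
    (hx : x ∈ Rho (aL t) √2) (x1 : 0 ≤ x.1) (x2 : 0 ≤ x.2) {w : E4}
    (hw : w = (OG (t / 2) (π / 4)).symm (gX O0 (lf t) x)) (w0 : 0 < w 0)
    (hy : yc w ∈ HE (aL t) √2) : gX O0 (lf t) x = gX (OG (t / 2) (π / 4)) (ez t) (yc w) ∧
      gN O0 (lf t) x = gN (OG (t / 2) (π / 4)) (ez t) (yc w) := by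
  have nk := (hM.normal O0 _ _ ((hL _ ht).sol.1 _ hx).differentiableAt).1
  have g := gn_yc (w := w) (by rw [hw, LinearIsometryEquiv.norm_map, nk]) w0
  have g' : gX O0 (lf t) x = OG (t / 2) (π / 4) (gn (yc w) (w 3 / w 0)) := by
    rw [g, hw, LinearIsometryEquiv.apply_symm_apply]
  obtain ⟨c1, c2⟩ := econv hT hC ht hx hy g' x1 x2
  obtain ⟨z, -, -, -, m1, m2⟩ := emem hT hC ht hy c1
  have e : gX O0 (lf t) z = gX O0 (lf t) x := by
    rw [m1, g', c2]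
    rfl
  obtain rfl : z = x := (hT.inj O0 _ _ _ _ e).1
  exact ⟨m1, m2⟩

/-- limits of jets of leaves -/
theorem key (hM : MeqS) (hI : InvS) (hT : TetS) (hR : RadoS) (hL : LfS) (hC : IcS) {l : ℝ}
    (hl : l ∈ Ioo 0 π) {j : J4} (j0 : 0 < j.1) (j1 : j.1 < 1)
    (h : (l, j) ∈ closure ((fun q : ℝ × P2 => (q.1, lj (lf q.1) q.2)) '' DR)) :
    (∃ y ∈ Rho (aL l) √2, 0 ≤ y.1 ∧ 0 ≤ y.2 ∧ j = lj (lf l) y) ∨ ∃ s > 0, j = ej l s := by
  obtain ⟨f, hf, tf⟩ := mem_closure_iff_seq_limit.1 h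
  choose q hq e using hf
  have t1 : Tendsto (fun k => (q k).1) atTop (𝓝 l) := by
    have := (continuous_fst.tendsto _).comp tf
    refine this.congr fun k => ?_
    simp [← e k]
  have t2 : Tendsto (fun k => lj (lf (q k).1) (|(q k).2.1|, |(q k).2.2|)) atTop (𝓝 j) := by
    have := (continuous_snd.tendsto _).comp tf
    refine this.congr fun k => ?_
    rw [(int hM hI hT hR hL _ (hq k).1 _ (hq k).2).2.2.2.2.2]
    simp [← e k]
  have ta : Tendsto (fun k => aL (q k).1) atTop (𝓝 (aL l)) :=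
    (aL_cont.continuousAt (isOpen_Ioo.mem_nhds hl)).tendsto.comp t1
  have hb : ∀ᶠ k in atTop, ((|(q k).2.1|, |(q k).2.2|) : P2)
      ∈ Icc (0 : ℝ) (aL l + 1) ×ˢ Icc (0 : ℝ) √2 := by
    filter_upwards [ta.eventually (gt_mem_nhds (lt_add_one _))] with k hk
    have a := (hT.ang.2.2 _ (hq k).1).1
    have b : |(q k).2.1| / aL (q k).1 + |(q k).2.2| / √2 < 1 := (hq k).2
    have b1 : 0 ≤ |(q k).2.1| / aL (q k).1 := by positivity
    have b2 : 0 ≤ |(q k).2.2| / √2 := by positivity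
    refine ⟨⟨abs_nonneg _, ?_⟩, abs_nonneg _, ?_⟩
    · exact ((div_le_one a).1 (by linarith)).trans hk.le
    · exact (div_le_one (by positivity)).1 (by linarith)
  obtain ⟨y, hy, φ, hφ, ty⟩ := (isCompact_Icc.prod isCompact_Icc).tendsto_subseq' hb.frequently
  set Q : ℕ → ℝ × P2 := fun k => ((q (φ k)).1, (|(q (φ k)).2.1|, |(q (φ k)).2.2|)) with hQ
  have tQ : Tendsto Q atTop (𝓝 (l, y)) := (t1.comp hφ.tendsto_atTop).prodMk_nhds ty
  have tj : Tendsto (fun k => lj (lf (Q k).1) (Q k).2) atTop (𝓝 j) := t2.comp hφ.tendsto_atTop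
  have mQ : ∀ k, Q k ∈ DR := fun k => ⟨(hq _).1, rho_abs (hq _).2⟩
  have pQ : ∀ k, 0 ≤ (Q k).2.1 ∧ 0 ≤ (Q k).2.2 := fun k => ⟨abs_nonneg _, abs_nonneg _⟩
  clear_value Q
  by_cases hn : y ∈ Rho (aL l) √2
  · have c := (cj_lf hC hl hn).tendsto.comp tQ
    simp only [Function.comp_def] at c
    exact Or.inl ⟨y, hn, hy.1.1, hy.2.1, tendsto_nhds_unique tj c⟩
  right
  have hc : y ∈ Rh (aL l) √2 := by
    have c : ContinuousAt (fun q : ℝ × P2 => |q.2.1| / aL q.1 + |q.2.2| / √2) (l, y) :=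
      (ContinuousAt.div (by fun_prop) (aLc (q := (l, y)) hl) (hT.ang.2.2 _ hl).1.ne').add
        (by fun_prop)
    exact le_of_tendsto' (c.tendsto.comp tQ) fun k => le_of_lt (mQ k).2
  have tu : Tendsto (fun k => lf (Q k).1 (Q k).2) atTop (𝓝 (lf l y)) :=
    (hC.clo (l, y) ⟨hl, hc⟩).tendsto.comp (tendsto_nhdsWithin_iff.2
      ⟨tQ, Eventually.of_forall fun k => ⟨(mQ k).1, rho_rh (mQ k).2⟩⟩)
  have tX : Tendsto (fun k => gX O0 (lf (Q k).1) (Q k).2) atTop (𝓝 (gX O0 (lf l) y)) := by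
    have a := (gn_cont.tendsto (y, lf l y)).comp
      (((continuous_snd.tendsto _).comp tQ).prodMk_nhds tu)
    have b := (O0.continuous.tendsto _).comp a
    simpa only [Function.comp_def, gX] using b
  have ea : aa (gX O0 (lf l) y) = j.1 := by
    have c : Continuous aa := by unfold aa; fun_prop
    exact tendsto_nhds_unique ((c.tendsto _).comp tX) ((continuous_fst.tendsto _).comp tj)
  obtain ⟨w0, w1, w2⟩ := bd_frame hT hL hl hc hn hy.1.1 hy.2.1 (ea ▸ j0) (ea ▸ j1)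
  have tw : Tendsto (fun k => (OG ((Q k).1 / 2) (π / 4)).symm (gX O0 (lf (Q k).1) (Q k).2)) atTop
      (𝓝 ((OG (l / 2) (π / 4)).symm (gX O0 (lf l) y))) := by
    have a := (OG_symm_cont.tendsto (l, gX O0 (lf l) y)).comp
      (((continuous_fst.tendsto _).comp tQ).prodMk_nhds tX)
    simpa only [Function.comp_def] using a
  generalize (OG (l / 2) (π / 4)).symm (gX O0 (lf l) y) = w at w0 w1 w2 tw
  have ey : yc w = (w 1 / w 0, 0) := by simp [yc, w2]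
  have hs : 0 < w 1 / w 0 := div_pos w1 w0
  have tY := ((continuous_fst.tendsto _).comp tQ).prodMk_nhds
    ((yc_cont w0.ne').tendsto.comp tw)
  rw [ey] at tY
  have c0 : Continuous fun x : E4 => x 0 := by fun_prop
  have c := (cj_ez hC hl (he_mem hT hl hs)).tendsto.comp tY
  simp only [Function.comp_def] at c
  refine ⟨_, hs, tendsto_nhds_unique_of_eventuallyEq tj c ?_⟩
  filter_upwards [tY.eventually_mem (DE_open.mem_nhds ⟨hl, he_mem hT hl hs⟩),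
    ((c0.tendsto w).comp tw).eventually (lt_mem_nhds w0)] with k k1 k2
  obtain ⟨m1, m2⟩ := to_edge hM hT hL hC (mQ k).1 (mQ k).2 (pQ k).1 (pQ k).2 rfl k2 k1.2
  rw [← m1, ← m2]
  rfl

theorem att_cl {l : ℝ} (hl : l ∈ Ioo 0 π) {j : J4} (h : Att l j) :
    (l, j) ∈ closure ((fun q : ℝ × P2 => (q.1, lj (lf q.1) q.2)) '' DR) := by
  refine map_mem_closure (f := fun j : J4 => (l, j)) (by fun_prop) h.2.2 ?_
  rintro _ ⟨y, hy, rfl⟩
  exact ⟨(l, y), ⟨hl, hy⟩, rfl⟩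

theorem char (hM : MeqS) (hI : InvS) (hT : TetS) (hR : RadoS) (hL : LfS) (hC : IcS) (l : ℝ)
    (hl : l ∈ Ioo 0 π) (j : J4) (h : Att l j) :
    (∃ y ∈ Rho (aL l) √2, 0 ≤ y.1 ∧ 0 ≤ y.2 ∧ j = lj (lf l) y) ∨ ∃ s > 0, j = ej l s :=
  key hM hI hT hR hL hC hl h.1 h.2.1 (att_cl hl h)

theorem cl (hM : MeqS) (hI : InvS) (hT : TetS) (hR : RadoS) (hL : LfS) (hC : IcS) (l : ℝ)
    (hl : l ∈ Ioo 0 π) (j : J4) (j0 : 0 < j.1) (j1 : j.1 < 1)
    (h : (l, j) ∈ closure {q : ℝ × J4 | q.1 ∈ Ioo 0 π ∧ Att q.1 q.2}) : Att l j := by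
  rcases key hM hI hT hR hL hC hl j0 j1
    (closure_minimal (fun q hq => att_cl hq.1 hq.2) isClosed_closure h) with
      ⟨y, hy, -, -, rfl⟩ | ⟨s, hs, rfl⟩
  · exact (int hM hI hT hR hL l hl y hy).2.1
  · exact (edge hM hI hT hC l hl s hs).2.1

theorem sign_of {g : Iso} {m n : E4} (h : g m = n ∨ g m = -n) :
    ∃ ε : ℝ, (ε = 1 ∨ ε = -1) ∧ ε • g m = n := by
  rcases h with h | h
  · exact ⟨1, Or.inl rfl, by rw [h, one_smul]⟩
  · exact ⟨-1, Or.inr rfl, by rw [h]; simp⟩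

theorem shift (y : P2) : Tendsto (fun s : P2 => y + s) (𝓝 0) (𝓝 y) := by
  simpa using (show Continuous fun s : P2 => y + s by fun_prop).tendsto 0

theorem unshift {y : P2} {P : P2 → Prop} (h : ∀ᶠ s in 𝓝 (0 : P2), P (y + s)) :
    ∀ᶠ x in 𝓝 y, P x := by
  have : Tendsto (fun x : P2 => x - y) (𝓝 y) (𝓝 0) := by
    simpa using (show Continuous fun x : P2 => x - y by fun_prop).tendsto y
  simpa using this.eventually h

theorem jet_zero {x n x' n' : E4} (h : jet x n = jet x' n') :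
    (vv x n = 0 ↔ vv x' n' = 0) ∧ (u12 x n = 0 ↔ u12 x' n' = 0) ∧
      (u34 x n = 0 ↔ u34 x' n' = 0) := by
  simp only [jet, Prod.mk.injEq] at h
  refine ⟨?_, ?_, ?_⟩
  · rw [← abs_eq_zero, h.2.1, abs_eq_zero]
  · rw [← abs_eq_zero, h.2.2.1, abs_eq_zero]
  · rw [← abs_eq_zero, h.2.2.2, abs_eq_zero]

/-- the conclusion of both statements on families -/
def Both (l : ℝ) (p n : E4) : Prop := ∃ δ X N, Fam l δ X N p n ∧
  (∀ q ∈ ball ((l, 0) : ℝ × P2) δ, q.1 ∈ Ioo 0 π ∧ Att q.1 (jet (X q) (N q))) ∧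
  (∀ S : Set E4, (∀ᶠ s in 𝓝 (0 : P2), X (l, s) ∈ S) → Coin S) ∧
  (∃ᶠ s in 𝓝 (0 : P2), Inn l (jet (X (l, s)) (N (l, s)))) ∧
  ((u34 p n ≠ 0 ∨ u12 p n ≠ 0) → ∀ᶠ s in 𝓝 (0 : P2), Inn l (jet (X (l, s)) (N (l, s))) ∨
    (u34 p n = 0 ∧ u34 (X (l, s)) (N (l, s)) = 0 ∧ ∃ c : ℝ, 0 < c ∧ wc (X (l, s)) = c * wc p) ∨
    (u34 p n ≠ 0 ∧ (u12 (X (l, s)) (N (l, s)) = 0 ∨ vv (X (l, s)) (N (l, s)) = 0) ∧
      ∃ c : ℝ, 0 < c ∧ zc (X (l, s)) = c * zc p))

theorem heights (hT : TetS) (hL : LfS) {l : ℝ} (hl : l ∈ Ioo 0 π) {y : P2}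
    (hy : y ∈ Rho (aL l) √2) : 0 < gX O0 (lf l) y 0 ∧ 0 < gX O0 (lf l) y 2 ∧
      (y.2 = 0 → gX O0 (lf l) y 1 = 0) ∧ (y.1 = 0 → gX O0 (lf l) y 3 = 0) := by
  obtain ⟨-, -, -, a, b⟩ := hT.inner _ _ _ (hL l hl) y hy
  obtain ⟨-, c1, -, c3⟩ := hT.coord y (lf l y)
  have ap := (hT.ang.2.2 l hl).1
  have s2 : (0 : ℝ) < √2 := by positivity
  refine ⟨pos_of_mul_pos_right ((mul_nonneg s2.le (abs_nonneg _)).trans_lt b) s2.le,
    pos_of_mul_pos_right ((mul_nonneg s2.le (abs_nonneg _)).trans_lt a) ap.le,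
    fun h => ?_, fun h => ?_⟩
  · show O0 (gn y (lf l y)) 1 = 0
    rw [c1, h, zero_div]
  · show O0 (gn y (lf l y)) 3 = 0
    rw [c3, h, zero_div]

theorem both_int (hM : MeqS) (hI : InvS) (hT : TetS) (hR : RadoS) (hL : LfS) (hC : IcS) {l : ℝ}
    (hl : l ∈ Ioo 0 π) {y : P2} (hy : y ∈ Rho (aL l) √2) (y1 : 0 ≤ y.1) (y2 : 0 ≤ y.2) {g : Iso}
    (hg : Gam g) {ε : ℝ} (hε : ε = 1 ∨ ε = -1) :
    Both l (gX (O0.trans g) (lf l) y) (ε • gN (O0.trans g) (lf l) y) := by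
  obtain ⟨δ, hF, hb⟩ := fam_gen hM (O := fun _ => O0.trans g) (U := lf) (D := DR)
    ((O0.trans g).continuous.comp continuous_snd) (DR_open hT)
    (fun q hq => hC.int q.1 hq.1 q.2 hq.2)
    (fun q hq => ⟨(hL _ hq.1).sol.1 _ hq.2, (hL _ hq.1).sol.2 _ hq.2⟩)
    (show (l, y) ∈ DR from ⟨hl, hy⟩) hε
  have ev := (shift y).eventually (rho_nhds hT hl hy)
  have J : ∀ t x, jet (gX (O0.trans g) (lf t) x) (ε • gN (O0.trans g) (lf t) x) = lj (lf t) x :=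
    fun t x => jet_g hI hg O0 (lf t) x hε
  have Z : ∀ x ∈ Rho (aL l) √2,
      (u12 (gX (O0.trans g) (lf l) x) (ε • gN (O0.trans g) (lf l) x) = 0 ↔ x.2 = 0) ∧
      (u34 (gX (O0.trans g) (lf l) x) (ε • gN (O0.trans g) (lf l) x) = 0 ↔ x.1 = 0) := by
    intro x hx
    obtain ⟨-, -, -, a, b, -⟩ := int hM hI hT hR hL l hl x hx
    rw [← J] at a b
    exact ⟨abs_eq_zero.symm.trans a, abs_eq_zero.symm.trans b⟩
  refine ⟨δ, _, _, hF, fun q hq => ⟨(hb q hq).1, ?_⟩, fun S hS => ?_, ?_, fun hu => ?_⟩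
  · rw [J]
    exact (int hM hI hT hR hL _ (hb q hq).1 _ (hb q hq).2).2.1
  · refine ⟨l, hl, g, hg, interior {x | x ∈ Rho (aL l) √2 ∧ g (gX O0 (lf l) x) ∈ S},
      isOpen_interior, ⟨y, mem_interior_iff_mem_nhds.2 ?_⟩, fun x hx => (interior_subset hx).1,
      fun x hx => (interior_subset hx).2⟩
    exact (rho_nhds hT hl hy).and (unshift (P := fun x => g (gX O0 (lf l) x) ∈ S) hS)
  · have t : Tendsto (fun s : ℝ => ((s, s) : P2)) (𝓝[>] 0) (𝓝 0) :=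
      ((show Continuous fun s : ℝ => ((s, s) : P2) by fun_prop).tendsto 0).mono_left
        nhdsWithin_le_nhds
    have f : ∃ᶠ s : P2 in 𝓝 0, 0 < s.1 ∧ 0 < s.2 := t.frequently (Filter.Eventually.frequently
      (Filter.Eventually.mono self_mem_nhdsWithin fun s hs => ⟨hs, hs⟩))
    refine (f.and_eventually ev).mono fun s hs => ?_
    rw [J]
    exact ⟨_, hs.2, add_pos_of_nonneg_of_pos y1 hs.1.1, add_pos_of_nonneg_of_pos y2 hs.1.2, rfl⟩
  · obtain ⟨p0, p2, p1, p3⟩ := heights hT hL hl hy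
    have n1 : y.1 ≠ 0 → ∀ᶠ s in 𝓝 (0 : P2), (y + s).1 ≠ 0 := fun h =>
      (shift y).eventually (continuousAt_fst.eventually_ne h)
    have n2 : y.2 ≠ 0 → ∀ᶠ s in 𝓝 (0 : P2), (y + s).2 ≠ 0 := fun h =>
      (shift y).eventually (continuousAt_snd.eventually_ne h)
    by_cases h1 : y.1 = 0
    · have h2 : y.2 ≠ 0 := fun h => hu.elim (fun k => k ((Z y hy).2.2 h1))
        fun k => k ((Z y hy).1.2 h)
      filter_upwards [ev, n2 h2] with s hs k2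
      by_cases k1 : (y + s).1 = 0
      · obtain ⟨-, q2, -, q3⟩ := heights hT hL hl hs
        refine Or.inr (Or.inl ⟨(Z y hy).2.2 h1, (Z _ hs).2.2 k1, _, div_pos q2 p2,
          gam_wc hg (div_mul_cancel₀ _ p2.ne').symm ?_⟩)
        show gX O0 (lf l) (y + s) 3 = _ * gX O0 (lf l) y 3
        rw [q3 k1, p3 h1, mul_zero]
      · left
        rw [J]
        exact inn_int hM hI hT hR hL hl hs k1 k2
    · by_cases h2 : y.2 = 0
      · filter_upwards [ev, n1 h1] with s hs k1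
        by_cases k2 : (y + s).2 = 0
        · obtain ⟨q0, -, q1, -⟩ := heights hT hL hl hs
          refine Or.inr (Or.inr ⟨fun k => h1 ((Z y hy).2.1 k), Or.inl ((Z _ hs).1.2 k2), _,
            div_pos q0 p0, gam_zc hg (div_mul_cancel₀ _ p0.ne').symm ?_⟩)
          show gX O0 (lf l) (y + s) 1 = _ * gX O0 (lf l) y 1
          rw [q1 k2, p1 h2, mul_zero]
        · left
          rw [J]
          exact inn_int hM hI hT hR hL hl hs k1 k2
      · filter_upwards [ev, n1 h1, n2 h2] with s hs k1 k2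
        left
        rw [J]
        exact inn_int hM hI hT hR hL hl hs k1 k2

theorem coin_edge (hM : MeqS) (hT : TetS) (hL : LfS) (hC : IcS) {l : ℝ} (hl : l ∈ Ioo 0 π)
    {s : ℝ} (hs : 0 < s) {g : Iso} (hg : Gam g) {S : Set E4}
    (hS : ∀ᶠ y in 𝓝 ((s, 0) : P2), g (gX (OG (l / 2) (π / 4)) (ez l) y) ∈ S) : Coin S := by
  obtain ⟨y, y2, hy, hS'⟩ := ((freq_neg (s, 0) rfl).and_eventually
    ((he_nhds hl (he_mem hT hl hs)).and hS.eventually_nhds)).exists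
  obtain ⟨x, hx, x1, x2, e, -⟩ := emem hT hC hl hy y2
  refine ⟨l, hl, g, hg, interior {x | x ∈ Rho (aL l) √2 ∧ g (gX O0 (lf l) x) ∈ S},
    isOpen_interior, ⟨x, mem_interior_iff_mem_nhds.2 ?_⟩, fun x hx => (interior_subset hx).1,
    fun x hx => (interior_subset hx).2⟩
  have cw : ContinuousAt (fun x => (OG (l / 2) (π / 4)).symm (gX O0 (lf l) x)) x :=
    (OG (l / 2) (π / 4)).symm.continuous.continuousAt.comp
      (hM.ana O0 _ x ((hL l hl).sol.1 x hx)).1.continuousAt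
  have ew : (OG (l / 2) (π / 4)).symm (gX O0 (lf l) x) = gn y (ez l y) := by
    rw [e, gX, LinearIsometryEquiv.symm_apply_apply]
  have tw := cw.tendsto
  rw [ew] at tw
  have tY := (yc_cont (gn_zero y (ez l y)).ne').tendsto.comp tw
  rw [yc_gn] at tY
  have c0 : Continuous fun x : E4 => x 0 := by fun_prop
  filter_upwards [rho_nhds hT hl hx, continuousAt_fst.eventually (lt_mem_nhds x1),
    continuousAt_snd.eventually (lt_mem_nhds x2), tY.eventually (he_nhds hl hy),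
    tY.eventually hS', ((c0.tendsto _).comp tw).eventually (lt_mem_nhds (gn_zero y (ez l y)))]
    with z k1 k2 k3 k4 k5 k6
  refine ⟨k1, ?_⟩
  rw [(to_edge hM hT hL hC hl k1 k2.le k3.le rfl k6 k4).1]
  exact k5

theorem both_edge (hM : MeqS) (hI : InvS) (hT : TetS) (hR : RadoS) (hL : LfS) (hC : IcS) {l : ℝ}
    (hl : l ∈ Ioo 0 π) {s : ℝ} (hs : 0 < s) {g : Iso} (hg : Gam g) {ε : ℝ}
    (hε : ε = 1 ∨ ε = -1) : Both l (gX ((OG (l / 2) (π / 4)).trans g) (ez l) (s, 0))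
      (ε • gN ((OG (l / 2) (π / 4)).trans g) (ez l) (s, 0)) := by
  have hy := he_mem hT hl hs
  obtain ⟨δ, hF, hb⟩ := fam_gen hM (O := fun t => (OG (t / 2) (π / 4)).trans g) (U := ez)
    (D := DE) (g.continuous.comp OG_cont) DE_open (fun q hq => hC.edge q.1 hq.1 q.2 hq.2)
    (fun q hq => ⟨(esol hC hq.1).1 _ hq.2, (esol hC hq.1).2 _ hq.2⟩)
    (show (l, (s, 0)) ∈ DE from ⟨hl, hy⟩) hε
  have ev := (shift (s, 0)).eventually (he_nhds hl hy)
  refine ⟨δ, _, _, hF, fun q hq => ⟨(hb q hq).1, ?_⟩, fun S hS => ?_, ?_, fun _ => ?_⟩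
  · rw [jet_g hI hg _ _ _ hε]
    exact att_he hM hI hT hR hL hC (hb q hq).1 (hb q hq).2
  · exact coin_edge hM hT hL hC hl hs hg
      (unshift (P := fun x => g (gX (OG (l / 2) (π / 4)) (ez l) x) ∈ S) hS)
  · refine ((freq_neg 0 rfl).and_eventually ev).mono fun x hx => ?_
    rw [jet_g hI hg _ _ _ hε]
    exact inn_edge hT hC hl hx.2 (by simpa using hx.1.ne)
  · filter_upwards [ev] with x hx
    by_cases k : ((s, 0) + x).2 = 0
    · generalize ((s, 0) : P2) + x = z at hx k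
      obtain ⟨s', t⟩ := z
      obtain rfl : t = 0 := k
      obtain ⟨-, -, -, -, a⟩ := edge hM hI hT hC l hl s hs
      obtain ⟨-, -, b, -⟩ := edge hM hI hT hC l hl s' hx.1
      rw [ej, ← jet_g hI hg _ _ _ hε] at a b
      obtain ⟨-, -, e1, -⟩ := edge_calc (eodd hC hl) (l / 2) (π / 4) s
      obtain ⟨-, -, e2, -⟩ := edge_calc (eodd hC hl) (l / 2) (π / 4) s'
      have r : (√(1 + s ^ 2))⁻¹ ≠ 0 := by positivity
      refine Or.inr (Or.inr ⟨abs_pos.1 a, Or.inr (abs_eq_zero.1 b),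
        (√(1 + s' ^ 2))⁻¹ / (√(1 + s ^ 2))⁻¹, by positivity, gam_zc hg ?_ ?_⟩)
      · show gX (OG (l / 2) (π / 4)) (ez l) (s', 0) 0 = _ * gX (OG (l / 2) (π / 4)) (ez l) (s, 0) 0
        rw [e1, e2, OG_apply, OG_apply]
        simp only [PiLp.smul_apply, smul_eq_mul, Matrix.cons_val]
        field_simp
      · show gX (OG (l / 2) (π / 4)) (ez l) (s', 0) 1 = _ * gX (OG (l / 2) (π / 4)) (ez l) (s, 0) 1
        rw [e1, e2, OG_apply, OG_apply]
        simp only [PiLp.smul_apply, smul_eq_mul, Matrix.cons_val]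
        field_simp
    · left
      rw [jet_g hI hg _ _ _ hε]
      exact inn_edge hT hC hl hx k

theorem both (hM : MeqS) (hI : InvS) (hT : TetS) (hR : RadoS) (hL : LfS) (hC : IcS) {l : ℝ}
    (hl : l ∈ Ioo 0 π) {p n : E4} (hp : ‖p‖ = 1) (hn : ‖n‖ = 1) (ho : ⟪n, p⟫_ℝ = 0)
    (h : Att l (jet p n)) : Both l p n := by
  rcases char hM hI hT hR hL hC l hl _ h with ⟨y, hy, y1, y2, e⟩ | ⟨s, hs, e⟩
  · obtain ⟨n1, n2, n3, -⟩ := hM.normal O0 (lf l) y ((hL l hl).sol.1 y hy).differentiableAt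
    obtain ⟨s1, s2, -⟩ := hR.sign _ _ _ (hL l hl) y hy
    obtain ⟨g, hg, e1, e2⟩ := hI.trans _ _ p n n1 n2 n3 hp hn ho s1 s2 e.symm
    obtain ⟨ε, hε, e3⟩ := sign_of e2
    rw [← e1, ← e3]
    exact both_int hM hI hT hR hL hC hl hy y1 y2 hg hε
  · obtain ⟨n1, n2, n3, -⟩ := hM.normal (OG (l / 2) (π / 4)) (ez l) (s, 0)
      ((esol hC hl).1 _ (he_mem hT hl hs)).differentiableAt
    obtain ⟨-, ⟨s1, s2, -⟩, -⟩ := edge hM hI hT hC l hl s hs
    obtain ⟨g, hg, e1, e2⟩ := hI.trans _ _ p n n1 n2 n3 hp hn ho s1 s2 e.symm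
    obtain ⟨ε, hε, e3⟩ := sign_of e2
    rw [← e1, ← e3]
    exact both_edge hM hI hT hR hL hC hl hs hg hε

end EAtt

theorem attS (hM : MeqS) (_hD : DerS) (hI : InvS) (hT : TetS) (hR : RadoS) (hL : LfS)
    (hC : IcS) : AttS where
  int := EAtt.int hM hI hT hR hL
  edge := EAtt.edge hM hI hT hC
  char := EAtt.char hM hI hT hR hL hC
  cl := EAtt.cl hM hI hT hR hL hC
  fam := fun l hl p n hp hn ho h => by
    obtain ⟨δ, X, N, a, b, c, -⟩ := EAtt.both hM hI hT hR hL hC hl hp hn ho h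
    exact ⟨δ, X, N, a, b, c⟩
  germ := fun l hl p n hp hn ho h hu => by
    obtain ⟨δ, X, N, a, -, -, b, c⟩ := EAtt.both hM hI hT hR hL hC hl hp hn ho h
    refine ⟨fun s => X (l, s), fun s => N (l, s), a.X0, a.N0, a.ana, a.imm, EAtt.fam_geo a, b, ?_⟩
    simpa only [a.X0, a.N0] using c hu

end Pool.Agent.Lib.MP_16d934_gt
end
end
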