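import Pool.Agent.Lib.MP_16d934_gt.StC

/-! Barriers for thin and flat leaves; small and large curvature at the corner. -/

set_option autoImplicit false

open Set Metric Filter Topology
open scoped InnerProductSpace NNReal Real

noncomputable section

namespace Pool.Agent.Lib.MP_16d934_gt

namespace EBar

/-! ### Gnomonic coordinates -/

/-- horizontal coordinates -/
def yc (x : E4) : P2 := (x 1 / x 0, x 2 / x 0)

/-- height -/
def zq (x : E4) : ℝ := x 3 / x 0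

theorem rho_pos (y : P2) (z : ℝ) : 0 < √(1 + y.1 ^ 2 + y.2 ^ 2 + z ^ 2) :=
  Real.sqrt_pos.2 (by positivity)

theorem gn_pos (y : P2) (z : ℝ) : 0 < gn y z 0 := by
  have := rho_pos y z
  simp [gn, this]

theorem yc_gn (y : P2) (z : ℝ) : yc (gn y z) = y := by
  have := (rho_pos y z).ne'
  ext <;> simp [yc, gn] <;> field_simp

theorem zq_gn (y : P2) (z : ℝ) : zq (gn y z) = z := by
  have := (rho_pos y z).ne'
  simp [zq, gn]
  field_simp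

theorem sq4 {x : E4} (hx : ‖x‖ = 1) : x 0 ^ 2 + x 1 ^ 2 + x 2 ^ 2 + x 3 ^ 2 = 1 := by
  have h := real_inner_self_eq_norm_sq x
  rw [inner4, hx] at h
  linarith

theorem gn_coord {x : E4} (hx : ‖x‖ = 1) (h0 : 0 < x 0) : gn (yc x) (zq x) = x := by
  have h1 := sq4 hx
  have h2 : √(1 + (yc x).1 ^ 2 + (yc x).2 ^ 2 + (zq x) ^ 2) = (x 0)⁻¹ := by
    rw [Real.sqrt_eq_iff_mul_self_eq (by positivity) (by positivity)]
    simp only [yc, zq]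
    field_simp
    linarith
  rw [gn, h2]
  ext i
  fin_cases i <;> simp [yc, zq] <;> field_simp

/-- the barrier principle in gnomonic coordinates -/
theorem touch (hT : TouchS) {S : Set E4} (hS : IsMin S) (O : Iso) {V : P2 → ℝ}
    (hV : ContDiff ℝ 2 V) {ε : ℝ} (hε : ε = 1 ∨ ε = -1) {x : E4} (hx : x ∈ S) (hu : ‖x‖ = 1)
    (h0 : 0 < O.symm x 0) {N : Set (P2 × ℝ)} (hN : N ∈ 𝓝 (yc (O.symm x), zq (O.symm x)))
    (hmax : ∀ x' ∈ S, 0 < O.symm x' 0 → (yc (O.symm x'), zq (O.symm x')) ∈ N →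
      ε * (zq (O.symm x') - V (yc (O.symm x'))) ≤ ε * (zq (O.symm x) - V (yc (O.symm x)))) :
    0 ≤ ε * gAt V (yc (O.symm x)) (zq (O.symm x)) := by
  refine hT.bar S hS O V _ _ ε hε hV.contDiffAt ?_ ?_
  · rwa [gn_coord (by rw [O.symm.norm_map, hu]) h0, O.apply_symm_apply]
  · filter_upwards [hN] with q hq hqS
    have := hmax _ hqS
    rw [O.symm_apply_apply, yc_gn, zq_gn] at this
    exact this (gn_pos _ _) hq

/-- the frame for flat leaves -/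
def OF : Iso := mkO ![!₂[1, 0, 0, 0], !₂[0, 0, 0, 1], !₂[0, 1, 0, 0], !₂[0, 0, 1, 0]]
  (ortho4 _ fun i j => by fin_cases i <;> fin_cases j <;> simp)

theorem OF_symm (x : E4) : OF.symm x = !₂[x 0, x 3, x 1, x 2] := by
  rw [LinearIsometryEquiv.symm_apply_eq]
  ext i
  fin_cases i <;> simp [OF, mkO_apply]

theorem OP_symm (A : ℝ) (x : E4) : (OP A).symm x = !₂[Real.cos A * x 2 + Real.sin A * x 3, x 0,
    x 1, Real.sin A * x 2 - Real.cos A * x 3] := by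
  rw [LinearIsometryEquiv.symm_apply_eq]
  have h := Real.sin_sq_add_cos_sq A
  ext i
  fin_cases i <;> simp [OP, mkO_apply]
  · linear_combination (-x 2) * h
  · linear_combination (-x 3) * h

/-! ### Separable barriers -/

theorem d_sep {f g : ℝ → ℝ} {a b : ℝ} {y : P2} (hf : HasDerivAt f a y.1)
    (hg : HasDerivAt g b y.2) :
    d1 (fun y : P2 => f y.1 + g y.2) y = a ∧ d2 (fun y : P2 => f y.1 + g y.2) y = b := by
  have h := (hf.comp_hasFDerivAt y (hasFDerivAt_fst (𝕜 := ℝ))).add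
    (hg.comp_hasFDerivAt y (hasFDerivAt_snd (𝕜 := ℝ)))
  have e : fderiv ℝ (fun y : P2 => f y.1 + g y.2) y = _ := h.fderiv
  rw [d1, d2, e]
  simp

theorem gAt_sep {f g f' g' : ℝ → ℝ} {r t : ℝ} {y : P2} (hf : ∀ s, HasDerivAt f (f' s) s)
    (hg : ∀ s, HasDerivAt g (g' s) s) (hf' : HasDerivAt f' r y.1) (hg' : HasDerivAt g' t y.2)
    (z : ℝ) : gAt (fun y : P2 => f y.1 + g y.2) y z =
      ((1 + y.1 ^ 2) * (1 + g' y.2 ^ 2) + (z - y.2 * g' y.2) ^ 2) * r +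
        ((1 + y.2 ^ 2) * (1 + f' y.1 ^ 2) + (z - y.1 * f' y.1) ^ 2) * t := by
  have e1 : d1 (fun y : P2 => f y.1 + g y.2) = fun y : P2 => f' y.1 + (fun _ => 0) y.2 :=
    funext fun y => by rw [(d_sep (hf _) (hg _)).1]; simp
  have e2 : d2 (fun y : P2 => f y.1 + g y.2) = fun y : P2 => (fun _ => 0) y.1 + g' y.2 :=
    funext fun y => by rw [(d_sep (hf _) (hg _)).2]; simp
  rw [gAt, e1, e2, (d_sep hf' (hasDerivAt_const _ _)).1, (d_sep (hasDerivAt_const _ _) hg').1,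
    (d_sep (hasDerivAt_const _ _) hg').2, gOp]
  ring

/-- a smooth approximation of the absolute value -/
def sa (d s : ℝ) : ℝ := √(s ^ 2 + d ^ 2)

theorem sa_sq (d s : ℝ) : sa d s ^ 2 = s ^ 2 + d ^ 2 := Real.sq_sqrt (by positivity)

theorem le_sa (d s : ℝ) : d ≤ sa d s :=
  Real.le_sqrt_of_sq_le (by nlinarith [sq_nonneg s])

theorem abs_le_sa (d s : ℝ) : |s| ≤ sa d s :=
  Real.le_sqrt_of_sq_le (by rw [sq_abs]; nlinarith [sq_nonneg d])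

theorem sa_le {d : ℝ} (hd : 0 < d) (s : ℝ) : sa d s ≤ |s| + d :=
  Real.sqrt_le_iff.2 ⟨by positivity, by nlinarith [sq_abs s, abs_nonneg s]⟩

theorem contDiff_sa {d : ℝ} (hd : 0 < d) : ContDiff ℝ 2 (sa d) :=
  ContDiff.sqrt (by fun_prop) fun s => by positivity

theorem hasDerivAt_sa {d : ℝ} (hd : 0 < d) (s : ℝ) : HasDerivAt (sa d) (s / sa d s) s := by
  have h := ((hasDerivAt_pow 2 s).add_const (d ^ 2)).sqrt (by positivity)
  refine h.congr_deriv ?_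
  have := (hd.trans_le (le_sa d s)).ne'
  change _ / (2 * sa d s) = _
  field_simp
  simp

theorem hasDerivAt_sa' {d : ℝ} (hd : 0 < d) (s : ℝ) :
    HasDerivAt (fun s => s / sa d s) (d ^ 2 / sa d s ^ 3) s := by
  have h0 := (hd.trans_le (le_sa d s)).ne'
  refine ((hasDerivAt_id s).div (hasDerivAt_sa hd s) h0).congr_deriv ?_
  have := sa_sq d s
  simp only [id]
  field_simp
  linarith

theorem thin_ineq {y1 y2 z p q t K d : ℝ} (hK : K * d = 20) (hd : 0 < d) (hy1 : |y1| ≤ 1)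
    (hy2 : y2 ^ 2 ≤ 2) (hz : |z| ≤ 1) (hp : |p| ≤ 2) (ht : -(3 / 2) ≤ t * d) :
    0 < ((1 + y1 ^ 2) * (1 + q ^ 2) + (z - y2 * q) ^ 2) * (2 * K) +
      ((1 + y2 ^ 2) * (1 + p ^ 2) + (z - y1 * p) ^ 2) * t := by
  have hp2 : p ^ 2 ≤ 4 := by nlinarith [sq_abs p, abs_nonneg p]
  have h1 : |z - y1 * p| ≤ 3 := by
    refine (abs_sub _ _).trans ?_
    rw [abs_mul]
    nlinarith [abs_nonneg y1, abs_nonneg p]
  have h2 : (z - y1 * p) ^ 2 ≤ 9 := by nlinarith [sq_abs (z - y1 * p), abs_nonneg (z - y1 * p)]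
  have hE : (1 + y2 ^ 2) * (1 + p ^ 2) + (z - y1 * p) ^ 2 ≤ 24 := by
    nlinarith [sq_nonneg y2, sq_nonneg p]
  have hE0 : 0 ≤ (1 + y2 ^ 2) * (1 + p ^ 2) + (z - y1 * p) ^ 2 := by positivity
  have hG : 1 ≤ (1 + y1 ^ 2) * (1 + q ^ 2) + (z - y2 * q) ^ 2 := by
    nlinarith [sq_nonneg y1, sq_nonneg q, sq_nonneg (z - y2 * q), sq_nonneg (y1 * q)]
  generalize (1 + y2 ^ 2) * (1 + p ^ 2) + (z - y1 * p) ^ 2 = E at hE hE0
  generalize (1 + y1 ^ 2) * (1 + q ^ 2) + (z - y2 * q) ^ 2 = G at hG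
  refine (mul_pos_iff_of_pos_right hd).1 ?_
  have e : (G * (2 * K) + E * t) * d = 40 * G + E * (t * d) := by
    linear_combination (2 * G) * hK
  rw [e]
  nlinarith

theorem flat_ineq {y1 y2 z e w : ℝ} (he : 0 < e) (he5 : e ≤ 1 / 5) (hw : w ^ 2 = y1 ^ 2 + 1 ^ 2)
    (hw1 : 1 ≤ w) (hy2 : y2 ^ 2 ≤ 1) (hz : e * w ≤ z) :
    ((1 + y1 ^ 2) * (1 + (-(3 * e) * y2) ^ 2) + (z - y2 * (-(3 * e) * y2)) ^ 2) *
        (e * (1 ^ 2 / w ^ 3)) +
      ((1 + y2 ^ 2) * (1 + (e * (y1 / w)) ^ 2) + (z - y1 * (e * (y1 / w))) ^ 2) * -(3 * e) < 0 := by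
  have hw0 : 0 < w := by linarith
  obtain ⟨ζ, hζ⟩ : ∃ ζ, ζ = z - y1 * (e * (y1 / w)) := ⟨_, rfl⟩
  have h1 : y1 * (e * (y1 / w)) ≤ e * w := by
    have : y1 * (e * (y1 / w)) = e * (y1 ^ 2 / w) := by ring
    rw [this]
    refine mul_le_mul_of_nonneg_left ?_ he.le
    rw [div_le_iff₀ hw0]
    nlinarith
  have hζ0 : 0 ≤ ζ := by linarith
  have h2 : z - y2 * (-(3 * e) * y2) ≤ ζ + 4 * e * w := by nlinarith
  have h3 : 0 ≤ z - y2 * (-(3 * e) * y2) := by nlinarith [sq_nonneg y2, mul_pos he hw0]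
  have h4 : (z - y2 * (-(3 * e) * y2)) ^ 2 ≤ 2 * ζ ^ 2 + 32 * e ^ 2 * w ^ 2 := by
    nlinarith [sq_nonneg (ζ - 4 * e * w)]
  have h5 : (1 + y1 ^ 2) * (1 + (-(3 * e) * y2) ^ 2) ≤ w ^ 2 * (1 + 9 * e ^ 2) := by
    rw [hw]
    have : (-(3 * e) * y2) ^ 2 ≤ 9 * e ^ 2 := by nlinarith [sq_nonneg e]
    nlinarith [sq_nonneg y1]
  have hE : 1 + ζ ^ 2 ≤ (1 + y2 ^ 2) * (1 + (e * (y1 / w)) ^ 2) + ζ ^ 2 := by
    nlinarith [sq_nonneg y2, sq_nonneg (e * (y1 / w)), sq_nonneg (y2 * (e * (y1 / w)))]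
  rw [← hζ]
  generalize (1 + y2 ^ 2) * (1 + (e * (y1 / w)) ^ 2) + ζ ^ 2 = E at hE
  have hG : (1 + y1 ^ 2) * (1 + (-(3 * e) * y2) ^ 2) + (z - y2 * (-(3 * e) * y2)) ^ 2 ≤
      (1 + 41 * e ^ 2 + 2 * ζ ^ 2) * w ^ 3 := by
    have h6 : w ^ 2 ≤ w ^ 3 := pow_le_pow_right₀ hw1 (by norm_num)
    have h7 : 1 ≤ w ^ 3 := one_le_pow₀ hw1
    nlinarith [sq_nonneg e, sq_nonneg ζ]
  generalize (1 + y1 ^ 2) * (1 + (-(3 * e) * y2) ^ 2) + (z - y2 * (-(3 * e) * y2)) ^ 2 = G at hG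
  have h8 : G * (e * (1 ^ 2 / w ^ 3)) = e * (G / w ^ 3) := by ring
  have h9 : G / w ^ 3 ≤ 1 + 41 * e ^ 2 + 2 * ζ ^ 2 := (div_le_iff₀ (by positivity)).2 hG
  have h10 : 41 * e ^ 2 < 2 := by nlinarith
  rw [h8]
  have : e * (G / w ^ 3) + E * -(3 * e) = e * (G / w ^ 3 - 3 * E) := by ring
  rw [this]
  exact mul_neg_of_pos_of_neg he (by nlinarith [sq_nonneg ζ])

theorem large_ineq {y1 y2 z μ κ : ℝ} (hμ : 1 ≤ μ) (hκ : κ = 49 * μ ^ 2)
    (hR : κ * (y1 ^ 2 + y2 ^ 2) ≤ 1) (hh : y2 ^ 2 < y1 ^ 2) (hz : 0 ≤ z) :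
    0 < ((1 + y1 ^ 2) * (1 + (-(μ * (2 * y2 + 4 * κ * y2 ^ 3))) ^ 2) +
        (z - y2 * -(μ * (2 * y2 + 4 * κ * y2 ^ 3))) ^ 2) * (μ * (2 + 12 * κ * y1 ^ 2)) +
      ((1 + y2 ^ 2) * (1 + (μ * (2 * y1 + 4 * κ * y1 ^ 3)) ^ 2) +
        (z - y1 * (μ * (2 * y1 + 4 * κ * y1 ^ 3))) ^ 2) * -(μ * (2 + 12 * κ * y2 ^ 2)) := by
  have hμ0 : 0 < μ := by linarith
  have hκ1 : 1 ≤ κ := by nlinarith
  obtain ⟨p, hp⟩ : ∃ p, p = μ * (2 * y1 + 4 * κ * y1 ^ 3) := ⟨_, rfl⟩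
  obtain ⟨q, hq⟩ : ∃ q, q = -(μ * (2 * y2 + 4 * κ * y2 ^ 3)) := ⟨_, rfl⟩
  rw [← hp, ← hq]
  obtain ⟨s, hs⟩ : ∃ s, s = κ * y1 ^ 2 := ⟨_, rfl⟩
  obtain ⟨s', hs'⟩ : ∃ s, s = κ * y2 ^ 2 := ⟨_, rfl⟩
  have hs0 : 0 ≤ s := by rw [hs]; positivity
  have hs0' : 0 ≤ s' := by rw [hs']; positivity
  have hss : s + s' ≤ 1 := by rw [hs, hs']; linarith
  obtain ⟨h, hh'⟩ : ∃ h, h = y1 ^ 2 - y2 ^ 2 := ⟨_, rfl⟩
  have hh0 : 0 < h := by linarith
  have hR1 : y1 ^ 2 + y2 ^ 2 ≤ 1 := by nlinarith [sq_nonneg y1, sq_nonneg y2]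
  have hpq : p ^ 2 - q ^ 2 =
      4 * μ ^ 2 * h * (1 + 4 * (s + s') + 4 * (s ^ 2 + s * s' + s' ^ 2)) := by
    rw [hp, hq, hs, hs', hh']; ring
  have hb : 1 + 4 * (s + s') + 4 * (s ^ 2 + s * s' + s' ^ 2) ≤ 9 := by
    nlinarith [mul_nonneg hs0 hs0']
  have hpq1 : p ^ 2 - q ^ 2 ≤ 36 * μ ^ 2 * h := by
    rw [hpq]
    nlinarith [mul_pos (pow_pos hμ0 2) hh0]
  have hpq0 : 0 ≤ p ^ 2 - q ^ 2 := by rw [hpq]; positivity
  have h1 : 0 ≤ y1 * p - y2 * q := by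
    have : y1 * p - y2 * q = μ * (2 * y1 ^ 2 + 4 * κ * y1 ^ 4 + 2 * y2 ^ 2 + 4 * κ * y2 ^ 4) := by
      rw [hp, hq]; ring
    rw [this]; positivity
  have hGE : -(72 * μ ^ 2 * h) ≤ ((1 + y1 ^ 2) * (1 + q ^ 2) + (z - y2 * q) ^ 2) -
      ((1 + y2 ^ 2) * (1 + p ^ 2) + (z - y1 * p) ^ 2) := by
    have e : ((1 + y1 ^ 2) * (1 + q ^ 2) + (z - y2 * q) ^ 2) -
        ((1 + y2 ^ 2) * (1 + p ^ 2) + (z - y1 * p) ^ 2) =
        h - (1 + (y1 ^ 2 + y2 ^ 2)) * (p ^ 2 - q ^ 2) + 2 * (z * (y1 * p - y2 * q)) := by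
      rw [hh']; ring
    rw [e]
    have := mul_nonneg hz h1
    nlinarith
  have hG : 1 ≤ (1 + y1 ^ 2) * (1 + q ^ 2) + (z - y2 * q) ^ 2 := by
    nlinarith [sq_nonneg y1, sq_nonneg q, sq_nonneg (z - y2 * q), sq_nonneg (y1 * q)]
  have hE : 1 ≤ (1 + y2 ^ 2) * (1 + p ^ 2) + (z - y1 * p) ^ 2 := by
    nlinarith [sq_nonneg y2, sq_nonneg p, sq_nonneg (z - y1 * p), sq_nonneg (y2 * p)]
  generalize (1 + y2 ^ 2) * (1 + p ^ 2) + (z - y1 * p) ^ 2 = E at hE hGE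
  generalize (1 + y1 ^ 2) * (1 + q ^ 2) + (z - y2 * q) ^ 2 = G at hG hGE
  have e : G * (μ * (2 + 12 * κ * y1 ^ 2)) + E * -(μ * (2 + 12 * κ * y2 ^ 2)) =
      μ * (6 * κ * h * (G + E) + (2 + 6 * (s + s')) * (G - E)) := by
    rw [hs, hs', hh']; ring
  rw [e]
  refine mul_pos hμ0 ?_
  have h2 : 6 * κ * h * 2 ≤ 6 * κ * h * (G + E) :=
    mul_le_mul_of_nonneg_left (by linarith) (by positivity)
  have h3 : (2 + 6 * (s + s')) * -(72 * μ ^ 2 * h) ≤ (2 + 6 * (s + s')) * (G - E) :=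
    mul_le_mul_of_nonneg_left hGE (by positivity)
  have h4 : 0 < μ ^ 2 * h := by positivity
  have h5 : 6 * κ * h * 2 = 588 * (μ ^ 2 * h) := by rw [hκ]; ring
  nlinarith

/-! ### The maximum principle on a compact part of a leaf -/

theorem maxp (hT : TouchS) {S K : Set E4} (hS : IsMin S) (hK : IsCompact K) (O : Iso)
    {V : P2 → ℝ} (hV : ContDiff ℝ 2 V) {ε : ℝ} (hε : ε = 1 ∨ ε = -1)
    (hK0 : ∀ x ∈ K, ‖x‖ = 1 ∧ 0 < O.symm x 0)
    (hin : ∀ x ∈ K, 0 < ε * (zq (O.symm x) - V (yc (O.symm x))) → x ∈ S ∧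
      ε * gAt V (yc (O.symm x)) (zq (O.symm x)) < 0 ∧
      ∃ N ∈ 𝓝 (yc (O.symm x), zq (O.symm x)), ∀ x' ∈ S, 0 < O.symm x' 0 →
        (yc (O.symm x'), zq (O.symm x')) ∈ N →
          x' ∈ K ∨ ε * (zq (O.symm x') - V (yc (O.symm x'))) ≤ 0) :
    ∀ x ∈ K, ε * (zq (O.symm x) - V (yc (O.symm x))) ≤ 0 := by
  intro x₀ hx₀
  by_contra hneg
  have hc : ContinuousOn (fun x => ε * (zq (O.symm x) - V (yc (O.symm x)))) K := by
    have h0 : ∀ x ∈ K, O.symm x 0 ≠ 0 := fun x hx => (hK0 x hx).2.ne'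
    have hi : ∀ i, ContinuousOn (fun x => O.symm x i / O.symm x 0) K := fun i =>
      ContinuousOn.div (by fun_prop) (by fun_prop) h0
    exact continuousOn_const.mul ((hi 3).sub
      (hV.continuous.comp_continuousOn ((hi 1).prodMk (hi 2))))
  obtain ⟨x, hx, hmax⟩ := hK.exists_isMaxOn ⟨x₀, hx₀⟩ hc
  have hpos := (not_le.1 hneg).trans_le (hmax hx₀)
  obtain ⟨hxS, hg, N, hN, hN'⟩ := hin x hx hpos
  refine hg.not_ge (touch hT hS O hV hε hxS (hK0 x hx).1 (hK0 x hx).2 hN fun x' hx' h0 hn => ?_)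
  rcases hN' x' hx' h0 hn with h | h
  · exact hmax h
  · exact h.trans hpos.le

theorem rho_sub {a b : ℝ} : Rho a b ⊆ Rh a b := fun y h =>
  (le_of_lt h : |y.1| / a + |y.2| / b ≤ 1)

theorem cl_cases (hT : TetS) {a b : ℝ} {u : P2 → ℝ} (h : IsLeaf a b u) {x : E4}
    (hx : x ∈ gX O0 u '' Rh a b) :
    x ∈ Tet a b ∧ ((x ∈ gX O0 u '' Rho a b ∧ x ∈ TetO a b) ∨ x ∈ Quad a b) := by
  obtain ⟨y, hy, rfl⟩ := hx
  refine ⟨(hT.mem a b h.apos h.bpos _).2 ⟨y, hy, _, h.low y hy, h.upp y hy, rfl⟩, ?_⟩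
  by_cases ho : y ∈ Rho a b
  · exact Or.inl ⟨⟨y, ho, rfl⟩, (hT.inner a b u h y ho).2.2⟩
  · exact Or.inr (hT.quad a b u h ▸ ⟨y, ⟨hy, ho⟩, rfl⟩)

theorem r2 : (0 : ℝ) < √2 := by positivity

theorem r2le : √2 ≤ (3 / 2 : ℝ) := Real.sqrt_le_iff.2 ⟨by norm_num, by norm_num⟩

theorem r2ge : (1 : ℝ) ≤ √2 := Real.le_sqrt_of_sq_le (by norm_num)

theorem rh_abs {a : ℝ} (ha : 0 < a) {y : P2} (hy : y ∈ Rh a √2) : |y.1| ≤ a ∧ |y.2| ≤ √2 := by
  have h1 : 0 ≤ |y.1| / a := by positivity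
  have h2 : 0 ≤ |y.2| / √2 := by positivity
  have h : |y.1| / a + |y.2| / √2 ≤ 1 := hy
  exact ⟨(div_le_one ha).1 (by linarith), (div_le_one r2).1 (by linarith)⟩

theorem up_eq (y : P2) : up √2 y = 1 - √2 * |y.2| := by
  rw [up, sub_right_inj, div_eq_iff r2.ne']
  linear_combination (-|y.2|) * s2

theorem thin (hT : TouchS) (hE : TetS) (μ : ℝ) (hμ : 0 < μ) :
    ∃ a₀ > 0, ∀ a u, a < a₀ → IsLeaf a √2 u → ∀ y ∈ Rh a √2, up √2 y - u y ≤ μ := by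
  obtain ⟨d, hd⟩ : ∃ d, d = μ / 4 := ⟨_, rfl⟩
  have hd0 : 0 < d := by rw [hd]; positivity
  obtain ⟨K, hK⟩ : ∃ K, K = 20 / d := ⟨_, rfl⟩
  have hK0 : 0 < K := by rw [hK]; positivity
  have hKd : K * d = 20 := by rw [hK]; field_simp
  refine ⟨min 1 (min (d / 20) (μ / 2)), by positivity, fun a u ha hu => ?_⟩
  simp only [lt_min_iff] at ha
  obtain ⟨ha1, ha2, ha3⟩ := ha
  have ha0 := hu.apos
  have hKa : K * a ≤ 1 := by nlinarith
  obtain ⟨-, hcp, -, hmin, -⟩ := hE.cpt a _ u hu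
  have hV : ContDiff ℝ 2 fun y : P2 => (fun s => 1 - K * (a ^ 2 - s ^ 2)) y.1 +
      (fun s => -√2 * sa d s) y.2 :=
    ContDiff.add (by fun_prop) (contDiff_const.mul ((contDiff_sa hd0).comp contDiff_snd))
  have key := maxp hT hmin hcp O0 hV (Or.inr rfl) ?_ ?_
  · intro y hy
    have h := key _ ⟨y, hy, rfl⟩
    simp only [gX, LinearIsometryEquiv.symm_apply_apply, yc_gn, zq_gn] at h
    have h1 := sa_le hd0 y.2
    have h2 := mul_le_mul_of_nonneg_left h1 r2.le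
    rw [up_eq]
    nlinarith [r2le, mul_nonneg hK0.le (sq_nonneg y.1)]
  · rintro x hx
    refine ⟨(cl_cases hE hu hx).1.1, ?_⟩
    obtain ⟨y, -, rfl⟩ := hx
    rw [gX, LinearIsometryEquiv.symm_apply_apply]
    exact gn_pos _ _
  · rintro x ⟨y, hy, rfl⟩ h
    simp only [gX, LinearIsometryEquiv.symm_apply_apply, yc_gn, zq_gn] at h ⊢
    obtain ⟨h1, h2⟩ := rh_abs ha0 hy
    have hlo := hu.low y hy
    have hup := hu.upp y hy
    have hy1 : y.1 ^ 2 ≤ a ^ 2 := by nlinarith [sq_abs y.1, abs_nonneg y.1]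
    refine ⟨?_, ?_, univ, univ_mem, fun x' hx' _ _ => Or.inl (image_mono rho_sub hx')⟩
    · by_contra hn
      have ho : y ∉ Rho a √2 := fun ho => hn ⟨y, ho, rfl⟩
      have he : |y.1| / a + |y.2| / √2 = 1 := le_antisymm hy (not_lt.1 ho)
      have e : lo a y = up √2 y := by
        rw [lo, up]
        linear_combination 2 * he
      rw [e, up_eq] at hlo
      have h3 := mul_le_mul_of_nonneg_left (abs_le_sa d y.2) r2.le
      nlinarith [mul_nonneg hK0.le (sub_nonneg.2 hy1)]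
    · rw [gAt_sep (f' := fun s => 2 * K * s) (g' := fun s => -√2 * (s / sa d s)) (r := 2 * K)
        (t := -√2 * (d ^ 2 / sa d y.2 ^ 3))
        (fun s => (((hasDerivAt_pow 2 s).const_sub _).const_mul K |>.const_sub 1).congr_deriv
          (by simp; ring))
        (fun s => (hasDerivAt_sa hd0 s).const_mul _)
        (by simpa using (hasDerivAt_id y.1).const_mul (2 * K))
        ((hasDerivAt_sa' hd0 _).const_mul _)]
      rw [neg_one_mul, neg_lt_zero]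
      refine thin_ineq hKd hd0 (h1.trans ha1.le) ?_ ?_ ?_ ?_
      · nlinarith [sq_abs y.2, abs_nonneg y.2, s2]
      · rw [up_eq] at hup
        have h3 : 0 ≤ 2 * |y.1| / a := by positivity
        have h4 : 0 ≤ √2 * |y.2| := by positivity
        rw [lo] at hlo
        exact abs_le.2 ⟨by linarith, by linarith⟩
      · rw [abs_mul, abs_of_pos (by positivity : 0 < 2 * K)]
        nlinarith
      · have h3 : d ^ 3 / sa d y.2 ^ 3 ≤ 1 :=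
          (div_le_one (pow_pos (hd0.trans_le (le_sa d _)) 3)).2
            (pow_le_pow_left₀ hd0.le (le_sa d _) 3)
        have h4 : -√2 * (d ^ 2 / sa d y.2 ^ 3) * d = -(√2 * (d ^ 3 / sa d y.2 ^ 3)) := by ring
        rw [h4]
        nlinarith [r2le, r2]

theorem flat (hT : TouchS) (hE : TetS) (μ : ℝ) (hμ : 0 < μ) :
    ∃ a₁, ∀ a u, a₁ < a → IsLeaf a √2 u → ∀ y ∈ Rh a √2, gX O0 u y 2 ≤ μ := by
  obtain ⟨e, he⟩ : ∃ e, e = min (1 / 5) (μ / 3) := ⟨_, rfl⟩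
  have he0 : 0 < e := by rw [he]; positivity
  have he5 : e ≤ 1 / 5 := he ▸ min_le_left _ _
  have he3 : e ≤ μ / 3 := he ▸ min_le_right _ _
  refine ⟨2 / e, fun a u ha hu => ?_⟩
  have hae : 2 < a * e := (div_lt_iff₀ he0).1 ha
  obtain ⟨-, hcp, -, hmin, -⟩ := hE.cpt a _ u hu
  have hV : ContDiff ℝ 2 fun y : P2 => (fun s => e * sa 1 s) y.1 +
      (fun s => 3 * e / 2 * (1 - s ^ 2)) y.2 :=
    ContDiff.add (contDiff_const.mul ((contDiff_sa one_pos).comp contDiff_fst)) (by fun_prop)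
  have hcl : IsClosed {x : E4 | e ^ 2 * (x 0 ^ 2 + x 3 ^ 2) ≤ x 2 ^ 2} :=
    isClosed_le (by fun_prop) (by fun_prop)
  have hKS : ∀ x ∈ gX O0 u '' Rh a √2 ∩ {x : E4 | e ^ 2 * (x 0 ^ 2 + x 3 ^ 2) ≤ x 2 ^ 2},
      x ∈ gX O0 u '' Rho a √2 ∧ x ∈ TetO a √2 := by
    rintro x ⟨hx, hx'⟩
    refine (cl_cases hE hu hx).2.resolve_right ?_
    rintro ⟨h1, h2, h3⟩
    have h4 := sq4 h1
    have h5 : e ^ 2 * (x 0 ^ 2 + x 3 ^ 2) ≤ x 2 ^ 2 := hx'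
    have h6 : 2 * x 3 ^ 2 = a ^ 2 * x 2 ^ 2 := by
      rw [← mul_pow, ← h2, mul_pow, sq_abs, Real.sq_sqrt (by norm_num)]
    have h7 : x 1 ^ 2 = x 0 ^ 2 := by rw [← mul_left_cancel₀ r2.ne' h3, sq_abs]
    have h8 : 4 * (x 0 ^ 2 + x 3 ^ 2) ≤ (a * e) ^ 2 * (x 0 ^ 2 + x 3 ^ 2) :=
      mul_le_mul_of_nonneg_right (by nlinarith) (by positivity)
    have h9 := mul_le_mul_of_nonneg_left h5 (sq_nonneg a)
    have h10 : x 0 ^ 2 = 0 := by nlinarith [sq_nonneg (x 0), sq_nonneg (x 3)]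
    have h11 : x 3 ^ 2 = 0 := by nlinarith [sq_nonneg (x 0), sq_nonneg (x 3)]
    have h12 : x 2 ^ 2 = 1 := by linarith
    rw [h11, h12] at h6
    nlinarith [hu.apos]
  have hO : ∀ x ∈ TetO a √2, 0 < x 0 ∧ (x 1 / x 0) ^ 2 ≤ 1 := by
    rintro x ⟨-, -, h⟩
    have h1 : |x 1| < x 0 := lt_of_mul_lt_mul_left h r2.le
    have h2 : 0 < x 0 := (abs_nonneg _).trans_lt h1
    refine ⟨h2, ?_⟩
    rw [div_pow, div_le_one (by positivity)]
    nlinarith [sq_abs (x 1), abs_nonneg (x 1)]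
  have key := maxp hT hmin (hcp.inter_right hcl) OF hV (Or.inl rfl) ?_ ?_
  · intro y hy
    have hx : gX O0 u y ∈ gX O0 u '' Rh a √2 := ⟨y, hy, rfl⟩
    generalize gX O0 u y = x at hx
    have h4 := sq4 (cl_cases hE hu hx).1.1
    by_cases hx' : e ^ 2 * (x 0 ^ 2 + x 3 ^ 2) ≤ x 2 ^ 2
    · have h := key x ⟨hx, hx'⟩
      obtain ⟨h0, -⟩ := hO x (hKS x ⟨hx, hx'⟩).2
      simp only [OF_symm, yc, zq] at h
      simp at h
      rw [div_le_iff₀ h0] at h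
      have h1 : (sa 1 (x 3 / x 0) * x 0) ^ 2 = x 3 ^ 2 + x 0 ^ 2 := by
        rw [mul_pow, sa_sq]
        field_simp
      have h2 : sa 1 (x 3 / x 0) * x 0 ≤ 1 := by
        nlinarith [sq_nonneg (x 1), sq_nonneg (x 2)]
      have h3 : x 0 ≤ 1 := by nlinarith [sq_nonneg (x 1), sq_nonneg (x 2), sq_nonneg (x 3)]
      have h5 : (1 - (x 1 / x 0) ^ 2) * x 0 ≤ 1 := by nlinarith [sq_nonneg (x 1 / x 0)]
      nlinarith
    · have h1 : x 2 ^ 2 ≤ e ^ 2 := by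
        nlinarith [mul_nonneg (sq_nonneg e) (add_nonneg (sq_nonneg (x 1)) (sq_nonneg (x 2)))]
      have := abs_le_of_sq_le_sq' h1 he0.le
      linarith [this.2]
  · intro x hx
    refine ⟨(hKS x hx).2.1, ?_⟩
    rw [OF_symm]
    simpa using (hO x (hKS x hx).2).1
  · have hz : ∀ x ∈ TetO a √2, 0 < 1 * (zq (OF.symm x) - (e * sa 1 (yc (OF.symm x)).1 +
        3 * e / 2 * (1 - (yc (OF.symm x)).2 ^ 2))) → (yc (OF.symm x)).2 ^ 2 ≤ 1 ∧
          e * sa 1 (yc (OF.symm x)).1 ≤ zq (OF.symm x) := by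
      intro x hx h
      have h1 : (yc (OF.symm x)).2 ^ 2 ≤ 1 := by simpa [OF_symm, yc] using (hO x hx).2
      exact ⟨h1, by nlinarith⟩
    intro x hx h
    obtain ⟨h1, h2⟩ := hz x (hKS x hx).2 h
    refine ⟨(hKS x hx).1, ?_, univ, univ_mem, fun x' hx' _ _ => ?_⟩
    · rw [gAt_sep (f' := fun s => e * (s / sa 1 s)) (g' := fun s => -(3 * e) * s)
        (r := e * (1 ^ 2 / sa 1 (yc (OF.symm x)).1 ^ 3)) (t := -(3 * e))
        (fun s => (hasDerivAt_sa one_pos s).const_mul _)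
        (fun s => (((hasDerivAt_pow 2 s).const_sub 1).const_mul _).congr_deriv (by simp; ring))
        ((hasDerivAt_sa' one_pos _).const_mul _)
        (by simpa using (hasDerivAt_id (yc (OF.symm x)).2).const_mul (-(3 * e))), one_mul]
      exact flat_ineq he0 he5 (sa_sq _ _) (le_sa _ _) h1 h2
    · refine or_iff_not_imp_right.2 fun hn => ⟨image_mono rho_sub hx', ?_⟩
      obtain ⟨y, hy, rfl⟩ := hx'
      have hx'' := (hE.inner a _ u hu y hy).2.2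
      obtain ⟨-, h4⟩ := hz _ hx'' (not_le.1 hn)
      obtain ⟨h0, -⟩ := hO _ hx''
      generalize gX O0 u y = x' at h4 h0
      simp only [OF_symm, yc, zq] at h4
      simp at h4
      rw [le_div_iff₀ h0] at h4
      have h5 : (sa 1 (x' 3 / x' 0) * x' 0) ^ 2 = x' 0 ^ 2 + x' 3 ^ 2 := by
        rw [mul_pow, sa_sq]
        field_simp
        ring
      change e ^ 2 * _ ≤ _
      rw [← h5, ← mul_pow, ← mul_assoc]
      exact pow_le_pow_left₀ (by have := le_sa 1 (x' 3 / x' 0); positivity) h4 2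

/-! ### The curvature at the corner -/

theorem zero_mem {a b : ℝ} : (0 : P2) ∈ Rho a b := by simp [Rho]

theorem wedge_bd (hE : TetS) {a μ ρ : ℝ} {u ζ : P2 → ℝ} {L : ℝ≥0} (hu : IsLeaf a √2 u)
    (hζ : PExt a u ζ ρ L) (hμ : 0 < μ) (hμ2 : μ ≤ 1 / 2)
    (hfl : ∀ y ∈ Rh a √2, gX O0 u y 2 ≤ μ) {h : ℝ} (hρ : h ≤ ρ) (h1 : h ≤ 1 / 2) :
    ∀ y ∈ ball (0 : P2) h, |ζ y| ≤ 2 * μ := by
  have hw : ∀ s t : ℝ, 0 ≤ t → t < s → s < h → |ζ (s, t)| ≤ 2 * μ := by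
    intro s t ht hts hs
    obtain ⟨h0, x, hx, hx1, e, -⟩ := hζ.mem (s, t) (by
      rw [mem_ball_zero_iff, Prod.norm_def, Real.norm_eq_abs, Real.norm_eq_abs,
        abs_of_nonneg ht, abs_of_nonneg (ht.trans hts.le), max_lt_iff]
      constructor <;> linarith) (by rwa [abs_of_nonneg ht])
    obtain ⟨hA0, hA1, -⟩ := hE.ang.1 a hu.apos
    have hT := (cl_cases hE hu ⟨x, rho_sub hx, rfl⟩).1
    have h2 := hfl x (rho_sub hx)
    have h3 : 0 ≤ gX O0 u x 3 := by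
      rw [gX, (hE.coord _ _).2.2.2]
      exact div_nonneg hx1.le (rho_pos _ _).le
    have h4 : 0 ≤ gX O0 u x 2 := by
      have := hT.2.1
      exact nonneg_of_mul_nonneg_right (le_trans (by positivity) this) hu.apos
    have h5 : (OP (hA a)).symm (gX O0 u x) = gn (s, t) (ζ (s, t)) := by
      rw [e, gX, LinearIsometryEquiv.symm_apply_apply]
    have h6 : gn (s, t) (ζ (s, t)) 3 ≤ μ := by
      rw [← h5, OP_symm]
      have := mul_nonneg (Real.cos_pos_of_mem_Ioo ⟨by linarith, hA1⟩).le h3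
      have := mul_le_mul_of_nonneg_right (Real.sin_le_one (hA a)) h4
      simp only [Fin.isValue, Matrix.cons_val]
      linarith
    generalize ζ (s, t) = z at h0 h6
    have h7 := rho_pos (s, t) z
    have h8 : √(1 + s ^ 2 + t ^ 2 + z ^ 2) ^ 2 = 1 + s ^ 2 + t ^ 2 + z ^ 2 :=
      Real.sq_sqrt (by positivity)
    simp only [gn, Fin.isValue, PiLp.smul_apply, Matrix.cons_val, smul_eq_mul] at h6 h7
    rw [inv_mul_le_iff₀ h7] at h6
    have h9 := pow_le_pow_left₀ h0.le h6 2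
    rw [mul_pow, h8] at h9
    have h10 : s ^ 2 ≤ 1 / 4 := by nlinarith
    have h11 : t ^ 2 ≤ 1 / 4 := by nlinarith
    have h12 : μ ^ 2 ≤ 1 / 4 := by nlinarith
    refine abs_le_of_sq_le_sq' ?_ (by positivity) |> abs_le.2
    nlinarith [sq_nonneg z, sq_nonneg μ]
  intro y hy
  rw [mem_ball_zero_iff, Prod.norm_def, Real.norm_eq_abs, Real.norm_eq_abs, max_lt_iff] at hy
  have e1 : ∀ s t : ℝ, ζ (|s|, t) = ζ (s, t) := fun s t => by
    rcases abs_choice s with h | h <;> rw [h]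
    exact hζ.ev1 (s, t)
  have e2 : ∀ s t : ℝ, ζ (s, |t|) = ζ (s, t) := fun s t => by
    rcases abs_choice t with h | h <;> rw [h]
    exact hζ.ev2 (s, t)
  have e : ζ y = ζ (|y.1|, |y.2|) := by rw [e1, e2]
  have ea : ζ (|y.2|, |y.1|) = -ζ (|y.1|, |y.2|) := hζ.anti (|y.1|, |y.2|)
  rw [e]
  rcases lt_trichotomy |y.2| |y.1| with h | h | h
  · exact hw _ _ (abs_nonneg _) h hy.1
  · rw [h] at ea ⊢
    rw [show ζ (|y.1|, |y.1|) = 0 by linarith, abs_zero]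
    positivity
  · rw [← abs_neg, ← ea]
    exact hw _ _ (abs_nonneg _) h hy.2

theorem small (hR : RegS) (hC : CWS) (hI : IntS) (hD : DerS) (hE : TetS) (hL : LfS) (hB : BarS)
    (hP : PextS) (η : ℝ) (hη : 0 < η) : ∃ l ∈ Ioo 0 π, cL l ≤ η := by
  obtain ⟨ρ, hρ, L, hex⟩ := hP.ex (1 / 2) 1 (by norm_num) one_pos
  obtain ⟨C, hC3⟩ := hR L 1 3
  obtain ⟨C', hC'⟩ := hI 3 (by norm_num)
  obtain ⟨ε, hε⟩ : ∃ ε, ε = min ρ 1 / 2 := ⟨_, rfl⟩
  have hε0 : 0 < ε := by rw [hε]; positivity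
  have hε1 : ε ≤ 1 / 2 := by rw [hε]; linarith [min_le_right ρ 1]
  have hε2 : ε ≤ ρ / 2 := by rw [hε]; linarith [min_le_left ρ 1]
  obtain ⟨M, hM⟩ : ∃ M, M = C * ε / ε ^ 3 := ⟨_, rfl⟩
  obtain ⟨h, hh⟩ : ∃ h, h = min ε (η / (|C' * M| + 1)) := ⟨_, rfl⟩
  have hh0 : 0 < h := by rw [hh]; positivity
  have hh1 : h ≤ ε := hh ▸ min_le_left _ _
  have hh2 : h * (|C' * M| + 1) ≤ η := (le_div_iff₀ (by positivity)).1 (hh ▸ min_le_right _ _)
  obtain ⟨μ, hμ⟩ : ∃ μ, μ = min (1 / 2) (η * h ^ 2 / (2 * (|C'| + 1))) := ⟨_, rfl⟩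
  have hμ0 : 0 < μ := by rw [hμ]; positivity
  have hμ1 : μ ≤ 1 / 2 := hμ ▸ min_le_left _ _
  have hμ2 : μ * (2 * (|C'| + 1)) ≤ η * h ^ 2 :=
    (le_div_iff₀ (by positivity)).1 (hμ ▸ min_le_right _ _)
  obtain ⟨a₁, ha₁⟩ := hB.flat μ hμ0
  obtain ⟨a, ha⟩ : ∃ a, a = max a₁ 1 + 1 := ⟨_, rfl⟩
  have ha1 : a₁ < a := by rw [ha]; linarith [le_max_left a₁ 1]
  have ha2 : 1 ≤ a := by rw [ha]; linarith [le_max_right a₁ 1]
  obtain ⟨hA0, hA1, hA2⟩ := hE.ang.1 a (by linarith)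
  have hl : 2 * hA a ∈ Ioo 0 π := ⟨by linarith, by linarith⟩
  have hal : aL (2 * hA a) = a := by rw [aL, mul_div_cancel_left₀ _ two_ne_zero, hA2]
  refine ⟨_, hl, ?_⟩
  have hu := hL _ hl
  have hv := hP.val _ hl
  rw [hal] at hu hv
  generalize lf (2 * hA a) = u at hu hv
  have hfl := ha₁ a u ha1 hu
  obtain ⟨ζ, hζ⟩ := hex a u ha2 hu (by
    have hT := (cl_cases hE hu ⟨0, rho_sub zero_mem, rfl⟩).1
    have h1 := sq4 hT.1
    have h2 := hfl 0 (rho_sub zero_mem)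
    have h3 : gX O0 u 0 3 = 0 := by rw [gX, (hE.coord _ _).2.2.2]; simp
    have h4 : 0 ≤ gX O0 u 0 2 :=
      nonneg_of_mul_nonneg_right (le_trans (by positivity) hT.2.1) hu.apos
    rw [aa]
    rw [h3] at h1
    nlinarith)
  have hbd := wedge_bd hE hu hζ hμ0 hμ1 hfl (h := h) (by linarith) (by linarith)
  have hsub : ball (0 : P2) h ⊆ ball 0 ρ := ball_subset_ball (by linarith)
  have h3 : ∀ x ∈ ball (0 : P2) h, ‖iteratedFDeriv ℝ 3 ζ x‖ ≤ M := by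
    intro x hx
    have hx' := mem_ball_zero_iff.1 hx
    have hs : ball x ε ⊆ ball 0 ρ := ball_subset_ball' (by rw [dist_zero_right]; linarith)
    rw [hM]
    exact (hC3 ζ x ε hε0 (by linarith) (by linarith) ((hbd x hx).trans (by linarith))
      (hζ.lip.mono hs) ((hC ζ _ isOpen_ball (hζ.sol.1.mono hs).contDiffOn_of_completeSpace).2
        fun y hy => hζ.sol.2 y (hs hy))).2 3 (by norm_num) le_rfl
  have h4 := hC' ζ 0 h (2 * μ) M hh0 (hζ.sol.1.mono hsub) hbd h3 2 le_rfl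
  have h5 := (hD ζ 0 (hζ.sol.1 0 (mem_ball_self hρ))).2.2.2.2.2.1
  rw [hv ζ ρ L hρ hζ] at h5
  have h6 : C' * (2 * μ / h ^ 2) ≤ η := by
    rw [← mul_div_assoc, div_le_iff₀ (by positivity)]
    nlinarith [le_abs_self C']
  have h7 : C' * (M * h ^ (3 - 2)) ≤ η := by
    rw [show 3 - 2 = 1 from rfl, pow_one]
    nlinarith [le_abs_self (C' * M)]
  rw [mul_add] at h4
  have h8 := (le_abs_self _).trans (h5.trans (h4.trans (add_le_add h6 h7)))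
  linarith only [h8]

theorem hasDerivAt_d1 {f : P2 → ℝ} {s : ℝ} (hf : DifferentiableAt ℝ f (s, 0)) :
    HasDerivAt (fun t => f (t, 0)) (d1 f (s, 0)) s :=
  hf.hasFDerivAt.comp_hasDerivAt s ((hasDerivAt_id s).prodMk (hasDerivAt_const s (0 : ℝ)))

theorem second (hD : DerS) {ζ : P2 → ℝ} {ρ μ : ℝ} (hρ : 0 < ρ)
    (ha : AnalyticOnNhd ℝ ζ (ball 0 ρ)) (h0 : ζ 0 = 0) (h1 : fderiv ℝ ζ 0 = 0)
    (hlow : ∀ s ∈ Ioo 0 ρ, μ * s ^ 2 < ζ (s, 0)) : 2 * μ ≤ d1 (d1 ζ) 0 := by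
  by_contra hneg
  have hder : ∀ s ∈ Ioo (-ρ) ρ,
      HasDerivAt (fun t => ζ (t, 0) - μ * t ^ 2) (d1 ζ (s, 0) - 2 * μ * s) s := by
    intro s hs
    have hm : ((s, 0) : P2) ∈ ball (0 : P2) ρ := by
      simp [Prod.norm_def, abs_lt, hs.1, hs.2]
    exact ((hasDerivAt_d1 (ha _ hm).differentiableAt).sub
      ((hasDerivAt_pow 2 s).const_mul μ)).congr_deriv (by simp; ring)
  have hz : (0 : ℝ) ∈ Ioo (-ρ) ρ := ⟨by linarith, hρ⟩
  have hev : deriv (fun t => ζ (t, 0) - μ * t ^ 2) =ᶠ[𝓝 0] fun s => d1 ζ (s, 0) - 2 * μ * s := by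
    filter_upwards [isOpen_Ioo.mem_nhds hz] with s hs using (hder s hs).deriv
  have h2 : HasDerivAt (fun s => d1 ζ (s, 0) - 2 * μ * s) (d1 (d1 ζ) 0 - 2 * μ) 0 :=
    ((hasDerivAt_d1 (s := 0) (hD ζ 0 (ha 0 (mem_ball_self hρ))).1.differentiableAt).sub
      ((hasDerivAt_id 0).const_mul (2 * μ))).congr_deriv (by simp; rfl)
  have hmax := isLocalMax_of_deriv_deriv_neg (f := fun t => ζ (t, 0) - μ * t ^ 2) (x₀ := 0)
    (by rw [hev.deriv_eq, h2.deriv]; linarith)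
    (by rw [(hder 0 hz).deriv, d1, show ((0 : ℝ), (0 : ℝ)) = (0 : P2) from rfl, h1]; simp)
    (hder 0 hz).continuousAt
  obtain ⟨s, hs, hs'⟩ := ((hmax.filter_mono (nhdsWithin_le_nhds (s := Ioi 0))).and
    (Ioo_mem_nhdsGT hρ)).exists
  have := hlow s hs'
  simp only [show ((0 : ℝ), (0 : ℝ)) = (0 : P2) from rfl, h0] at hs
  linarith

theorem frameP {A a : ℝ} (hA0 : 0 < A) (hA : A ≤ 1 / 8) (ha : √2 * Real.tan A = a) {x : E4}
    (hx : x ∈ Tet a √2) : 0 ≤ hp A x ∧ hp A x ≤ (OP A).symm x 3 ∧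
      (OP A).symm x 3 ≤ (OP A).symm x 0 ∧ (OP A).symm x 1 = x 0 ∧ (OP A).symm x 2 = x 1 ∧
      (OP A).symm x 0 ^ 2 + (OP A).symm x 3 ^ 2 = 1 - aa x ∧ |x 1| ≤ x 0 := by
  have hc : 1 / 2 ≤ Real.cos A := by nlinarith [Real.one_sub_sq_div_two_le_cos (x := A)]
  have hs : Real.sin A ≤ 1 / 8 := (Real.sin_le hA0.le).trans hA
  have hs0 : 0 ≤ Real.sin A := Real.sin_nonneg_of_nonneg_of_le_pi hA0.le
    (by linarith [Real.pi_gt_three])
  have h1 := sq4 hx.1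
  have h2 := hx.2.1
  rw [← ha, mul_assoc, Real.tan_eq_sin_div_cos] at h2
  have h3 := le_of_mul_le_mul_left h2 r2
  rw [div_mul_eq_mul_div, le_div_iff₀ (by linarith)] at h3
  have h4 := Real.sin_sq_add_cos_sq A
  have h5 : 0 ≤ x 2 := by
    by_contra hn
    have h6 : Real.sin A * x 2 < 0 := mul_neg_of_pos_of_neg
      (Real.sin_pos_of_pos_of_lt_pi hA0 (by linarith [Real.pi_gt_three])) (not_le.1 hn)
    nlinarith [abs_nonneg (x 3)]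
  have h6 : |x 3| ≤ x 2 / 4 := by nlinarith [abs_nonneg (x 3)]
  obtain ⟨h7, h8⟩ := abs_le.1 h6
  rw [OP_symm, hp, aa]
  simp only [Fin.isValue, Matrix.cons_val]
  refine ⟨by linarith, ?_, ?_, trivial, trivial, ?_, le_of_mul_le_mul_left hx.2.2 r2⟩
  · nlinarith [le_abs_self (x 3)]
  · nlinarith [Real.cos_le_one A]
  · linear_combination h1 + (x 2 ^ 2 + x 3 ^ 2) * h4

theorem ring_bd {μ κ r c0 c3 x0 x1 : ℝ} (hμ : 0 < μ) (hκ : κ * r ^ 2 = 1) (hr : μ * r = 1 / 7)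
    (h0 : 0 < c0) (hx : |x1| ≤ x0) (hR : (x0 / c0) ^ 2 + (x1 / c0) ^ 2 = r ^ 2)
    (hq : x0 - |x1| ≤ c3) :
    μ * ((x0 / c0) ^ 2 + κ * (x0 / c0) ^ 4) + -(μ * ((x1 / c0) ^ 2 + κ * (x1 / c0) ^ 4)) ≤
      c3 / c0 := by
  have hr0 : 0 < r := pos_of_mul_pos_right (by rw [hr]; norm_num) hμ.le
  obtain ⟨s, hs⟩ : ∃ s, s = x0 / c0 := ⟨_, rfl⟩
  obtain ⟨t, ht⟩ : ∃ t, t = |x1| / c0 := ⟨_, rfl⟩
  have e2 : (x1 / c0) ^ 2 = t ^ 2 := by rw [ht, div_pow, div_pow, sq_abs]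
  have e4 : (x1 / c0) ^ 4 = t ^ 4 := by
    rw [show 4 = 2 * 2 from rfl, pow_mul, pow_mul, e2]
  rw [e2, ← hs] at hR
  rw [e2, e4, ← hs]
  have h1 : s - t ≤ c3 / c0 := by
    rw [hs, ht, ← sub_div]
    exact div_le_div_of_nonneg_right hq h0.le
  have h2 : t ≤ s := by rw [hs, ht]; exact div_le_div_of_nonneg_right hx h0.le
  have h4 : 0 ≤ t := by rw [ht]; positivity
  have h5 : s ≤ r := by nlinarith [sq_nonneg t]
  have e : μ * (s ^ 2 + κ * s ^ 4) + -(μ * (t ^ 2 + κ * t ^ 4)) = 2 * (μ * (s + t)) * (s - t) := by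
    linear_combination (μ * (s ^ 2 - t ^ 2) * κ) * hR + (μ * (s ^ 2 - t ^ 2)) * hκ
  have h6 : μ * (s + t) ≤ 2 / 7 := by nlinarith
  rw [e]
  nlinarith

theorem hq_bd {x0 x1 p c : ℝ} (h7 : x1 ≤ x0) (h2 : p ≤ c)
    (h : √2 / 2 * x0 - √2 / 2 * x1 ≤ 1 / 2 * p) : x0 - x1 ≤ c := by nlinarith [r2ge]

theorem ring_aa {r c0 c3 α : ℝ} (hr0 : 0 < r) (hr : r ≤ 1 / 7) (h8 : r ^ 2 * c0 ^ 2 = α)
    (h6 : c0 ^ 2 + c3 ^ 2 = 1 - α) (h10 : c3 ^ 2 ≤ c0 ^ 2) :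
    r ^ 2 / 3 ≤ α ∧ α ≤ 1 - r ^ 2 / 3 := by
  have h12 : r ^ 2 ≤ 1 / 49 := by nlinarith
  have h11 : 0 ≤ α := by rw [← h8]; positivity
  have h13 : c0 ^ 2 ≤ 1 := by nlinarith [sq_nonneg c3]
  have h14 : α ≤ 1 / 49 := by nlinarith [sq_nonneg r]
  constructor <;> nlinarith [sq_nonneg r]

theorem der4 (μ κ s : ℝ) :
    HasDerivAt (fun s => μ * (s ^ 2 + κ * s ^ 4)) (μ * (2 * s + 4 * κ * s ^ 3)) s :=
  (((hasDerivAt_pow 2 s).add ((hasDerivAt_pow 4 s).const_mul κ)).const_mul μ).congr_deriv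
    (by simp; ring_nf; simp)

theorem der3 (μ κ s : ℝ) :
    HasDerivAt (fun s => μ * (2 * s + 4 * κ * s ^ 3)) (μ * (2 + 12 * κ * s ^ 2)) s :=
  ((((hasDerivAt_id s).const_mul 2).add ((hasDerivAt_pow 3 s).const_mul (4 * κ))).const_mul
    μ).congr_deriv (by simp; ring_nf; simp)

theorem large (hD : DerS) (hT : TouchS) (hE : TetS) (hL : LfS) (hM : LimS) (hP : PextS)
    (μ : ℝ) (hμ : 1 ≤ μ) : ∃ l ∈ Ioo 0 π, μ ≤ cL l := by
  have hμ0 : 0 < μ := by linarith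
  obtain ⟨κ, hκ⟩ : ∃ κ, κ = 49 * μ ^ 2 := ⟨_, rfl⟩
  obtain ⟨r, hr⟩ : ∃ r, r = 1 / (7 * μ) := ⟨_, rfl⟩
  have hκ0 : 0 < κ := by rw [hκ]; positivity
  have hr0 : 0 < r := by rw [hr]; positivity
  have hκr : κ * r ^ 2 = 1 := by rw [hκ, hr]; field_simp; norm_num
  have hμr : μ * r = 1 / 7 := by rw [hr]; field_simp
  have hr1 : r ≤ 1 / 7 := by nlinarith
  obtain ⟨l₀, hl₀, hz⟩ := hM.zero (r ^ 2 / 3) (1 / 2) (by positivity) (by norm_num)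
  obtain ⟨l, hl⟩ : ∃ l, l = min (l₀ / 2) (1 / 4) := ⟨_, rfl⟩
  have hl0 : 0 < l := by rw [hl]; positivity
  have hl1 : l ≤ l₀ / 2 := hl ▸ min_le_left _ _
  have hl2 : l ≤ 1 / 4 := hl ▸ min_le_right _ _
  have hlm : l ∈ Ioo 0 π := ⟨hl0, by linarith [Real.pi_gt_three]⟩
  refine ⟨l, hlm, ?_⟩
  have hu := hL l hlm
  have hv := hP.val l hlm
  have hz' := hz l hlm (by linarith)
  have hAl := (hE.ang.2.2 l hlm).2
  have hfr : ∀ x ∈ Tet (aL l) √2, _ := fun x hx =>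
    frameP (A := l / 2) (by linarith) (by linarith) rfl (x := x) hx
  generalize lf l = u at hu hv hz'
  generalize aL l = a at hu hv hz' hAl hfr
  obtain ⟨-, hcp, -, hmin, -⟩ := hE.cpt a _ u hu
  have hV : ContDiff ℝ 2 fun y : P2 => (fun s => μ * (s ^ 2 + κ * s ^ 4)) y.1 +
      (fun s => -(μ * (s ^ 2 + κ * s ^ 4))) y.2 := by fun_prop
  have hcl : IsClosed {x : E4 | aa x ≤ r ^ 2 * (OP (l / 2)).symm x 0 ^ 2} :=
    isClosed_le (by unfold aa; fun_prop) (by fun_prop)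
  have hK0 : ∀ x ∈ gX O0 u '' Rh a √2 ∩ {x : E4 | aa x ≤ r ^ 2 * (OP (l / 2)).symm x 0 ^ 2},
      ‖x‖ = 1 ∧ 0 < (OP (l / 2)).symm x 0 := by
    rintro x ⟨hx, hx'⟩
    have hT := (cl_cases hE hu hx).1
    obtain ⟨h1, h2, h3, -, -, h6, -⟩ := hfr x hT
    refine ⟨hT.1, ((h1.trans h2).trans h3).lt_of_ne' fun h => ?_⟩
    have h7 : aa x ≤ r ^ 2 * (OP (l / 2)).symm x 0 ^ 2 := hx'
    have h8 : (OP (l / 2)).symm x 3 = 0 := le_antisymm (h ▸ h3) (h1.trans h2)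
    rw [h, h8] at h6
    rw [h] at h7
    nlinarith
  have hiff : ∀ x ∈ Tet a √2, 0 < (OP (l / 2)).symm x 0 →
      ((yc ((OP (l / 2)).symm x)).1 ^ 2 + (yc ((OP (l / 2)).symm x)).2 ^ 2) *
        (OP (l / 2)).symm x 0 ^ 2 = aa x := by
    intro x hx h0
    obtain ⟨-, -, -, h4, h5, -⟩ := hfr x hx
    simp only [yc, h4, h5, aa]
    field_simp
  have key := maxp hT hmin (hcp.inter_right hcl) (OP (l / 2)) hV (Or.inr rfl) hK0 ?_
  · obtain ⟨ρ, hρ, L, hex⟩ := hP.ex (1 - aa (gX O0 u 0)) a (by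
      obtain ⟨-, -, h⟩ := (hE.inner a _ u hu 0 zero_mem).2.2
      have h1 := (abs_nonneg _).trans_lt (lt_of_mul_lt_mul_left h r2.le)
      rw [aa]
      nlinarith [sq_nonneg (gX O0 u 0 1)]) hu.apos
    obtain ⟨ζ, hζ⟩ := hex a u le_rfl hu le_rfl
    obtain ⟨h0, h1, -⟩ := hP.hess a u ζ ρ L hρ hu hζ
    have h2 := second hD (μ := μ) (lt_min hρ hr0)
      (hζ.sol.1.mono (ball_subset_ball (min_le_left _ _))) h0 h1 fun s hs => ?_
    · rw [hv ζ ρ L hρ hζ] at h2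
      linarith
    obtain ⟨hs0, hs1⟩ := hs
    rw [lt_min_iff] at hs1
    obtain ⟨-, x, hx, -, e, -⟩ := hζ.mem (s, 0)
      (by simp [Prod.norm_def, abs_of_pos hs0, hs1.1, hρ]) (by simpa using hs0)
    have h5 : (OP (l / 2)).symm (gX O0 u x) = gn (s, 0) (ζ (s, 0)) := by
      rw [e, hAl, gX, LinearIsometryEquiv.symm_apply_apply]
    have hx' : gX O0 u x ∈ gX O0 u '' Rh a √2 := ⟨x, rho_sub hx, rfl⟩
    have h6 := hiff _ (cl_cases hE hu hx').1 (h5 ▸ gn_pos _ _)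
    have h7 := key _ ⟨hx', by
      rw [mem_ofPred_eq, ← h6, h5, yc_gn]
      exact mul_le_mul_of_nonneg_right (by simp only; nlinarith) (sq_nonneg _)⟩
    simp only [h5, yc_gn, zq_gn] at h7
    nlinarith [mul_pos hμ0 (mul_pos hκ0 (pow_pos hs0 4))]
  · intro x hx hneg
    obtain ⟨hx1, h0⟩ := hK0 x hx
    obtain ⟨hT', hcase⟩ := cl_cases hE hu hx.1
    obtain ⟨h1, h2, h3, h4, h5, h6, h7⟩ := hfr x hT'
    have h8 := hiff x hT' h0
    have h9 : aa x ≤ r ^ 2 * (OP (l / 2)).symm x 0 ^ 2 := hx.2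
    have hz0 : 0 ≤ zq ((OP (l / 2)).symm x) := div_nonneg (h1.trans h2) h0.le
    have hR : (yc ((OP (l / 2)).symm x)).1 ^ 2 + (yc ((OP (l / 2)).symm x)).2 ^ 2 ≤ r ^ 2 :=
      le_of_mul_le_mul_right (h8 ▸ h9) (by positivity)
    have hh : (yc ((OP (l / 2)).symm x)).2 ^ 2 < (yc ((OP (l / 2)).symm x)).1 ^ 2 := by
      by_contra hn
      have h10 := pow_le_pow_left₀ (sq_nonneg _) (not_lt.1 hn) 2
      rw [← pow_mul, ← pow_mul] at h10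
      have h11 := mul_le_mul_of_nonneg_left
        (add_le_add (not_lt.1 hn) (mul_le_mul_of_nonneg_left h10 hκ0.le)) hμ0.le
      simp only at hneg
      linarith
    have hxS : x ∈ gX O0 u '' Rho a √2 := by
      refine (hcase.resolve_right ?_).1
      rintro ⟨-, -, h⟩
      simp only [yc, h4, h5, div_pow] at hh
      rw [← mul_left_cancel₀ r2.ne' h, sq_abs] at hh
      exact hh.false
    refine ⟨hxS, ?_, {q | q.1.1 ^ 2 + q.1.2 ^ 2 < r ^ 2},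
      (isOpen_lt (by fun_prop) (by fun_prop)).mem_nhds ?_, fun x' hx' h0' hn => Or.inl ?_⟩
    · rw [gAt_sep (der4 μ κ) (g := fun s => -(μ * (s ^ 2 + κ * s ^ 4)))
        (g' := fun s => -(μ * (2 * s + 4 * κ * s ^ 3))) (fun s => (der4 μ κ s).neg)
        (der3 μ κ _) (der3 μ κ _).neg, neg_one_mul, neg_lt_zero]
      exact large_ineq hμ hκ (hκr ▸ mul_le_mul_of_nonneg_left hR hκ0.le) hh hz0
    · refine hR.lt_of_ne fun he => ?_
      obtain ⟨y, hy, rfl⟩ := hxS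
      rw [he] at h8
      have h10 : (OP (l / 2)).symm (gX O0 u y) 3 ^ 2 ≤ (OP (l / 2)).symm (gX O0 u y) 0 ^ 2 :=
        pow_le_pow_left₀ (h1.trans h2) h3 2
      obtain ⟨h11, h12⟩ := ring_aa hr0 hr1 h8 h6 h10
      have h13 := (hz' y hy h11 h12).2
      rw [hq, Real.sin_pi_div_four, Real.cos_pi_div_four] at h13
      have h14 := ring_bd hμ0 hκr hμr h0 h7 (by simpa only [yc, h4, h5] using he)
        (hq_bd h7 h2 h13)
      simp only [yc, zq, h4, h5] at hneg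
      linarith
    · have hx'' := image_mono rho_sub hx'
      refine ⟨hx'', ?_⟩
      rw [mem_ofPred_eq, ← hiff x' (cl_cases hE hu hx'').1 h0']
      exact mul_le_mul_of_nonneg_right (le_of_lt hn) (sq_nonneg _)

end EBar

/-- barriers for thin and flat leaves -/
theorem barS (_hM : MeqS) (hT : TouchS) (hE : TetS) : BarS :=
  ⟨EBar.thin hT hE, EBar.flat hT hE⟩

/-- the curvature at the corner takes small and large values -/
theorem ccS (hR : RegS) (hC : CWS) (hI : IntS) (hD : DerS) (hT : TouchS) (hE : TetS)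
    (_hRa : RadoS) (hL : LfS) (hB : BarS) (hM : LimS) (hP : PextS) : CcS := by
  refine ⟨EBar.small hR hC hI hD hE hL hB hP, fun μ => ?_⟩
  obtain ⟨l, hl, h⟩ := EBar.large hD hT hE hL hM hP (max μ 1) (le_max_right _ _)
  exact ⟨l, hl, (le_max_left _ _).trans h⟩

end Pool.Agent.Lib.MP_16d934_gt
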