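import Pool.Agent.Lib.MP_16d934_gt.StC
import Pool.Agent.Lib.MP_16d934_gt.EMin

-- part Pool.Agent.Lib.MP_16d934_gt.EEdge
section

/-! Extension of a leaf across an edge of the quadrilateral. -/

set_option autoImplicit false

open Set Metric Filter Topology Asymptotics
open scoped ContDiff InnerProductSpace NNReal Real

noncomputable section

namespace Pool.Agent.Lib.MP_16d934_gt

namespace EEdge

open BTouch

/-! ### Calculus -/

theorem d1c {f g : P2 → ℝ} {y : P2} (h : f =ᶠ[𝓝 y] g) : d1 f =ᶠ[𝓝 y] d1 g :=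
  (h.fderiv (𝕜 := ℝ)).mono fun x hx => by simp only [d1, hx]

theorem d2c {f g : P2 → ℝ} {y : P2} (h : f =ᶠ[𝓝 y] g) : d2 f =ᶠ[𝓝 y] d2 g :=
  (h.fderiv (𝕜 := ℝ)).mono fun x hx => by simp only [d2, hx]

theorem gAtc {f g : P2 → ℝ} {y : P2} (h : f =ᶠ[𝓝 y] g) : gAt f y (f y) = gAt g y (g y) := by
  simp only [gAt, h.eq_of_nhds, (d1c h).eq_of_nhds, (d2c h).eq_of_nhds,
    (d1c (d1c h)).eq_of_nhds, (d1c (d2c h)).eq_of_nhds, (d2c (d2c h)).eq_of_nhds]

theorem gNc (O : Iso) {f g : P2 → ℝ} {y : P2} (h : f =ᶠ[𝓝 y] g) : gN O f y = gN O g y := by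
  simp only [gN, h.eq_of_nhds, (d1c h).eq_of_nhds, (d2c h).eq_of_nhds]

theorem fd (f : P2 → ℝ) (y v : P2) : fderiv ℝ f y v = d1 f y * v.1 + d2 f y * v.2 := by
  have e : v = v.1 • ((1, 0) : P2) + v.2 • ((0, 1) : P2) := by ext <;> simp
  conv_lhs => rw [e]
  simp only [map_add, map_smul, smul_eq_mul, d1, d2]
  ring

theorem sides {h : ℝ → ℝ} {c d : ℝ} (hd : HasDerivAt h d c) (d0 : 0 < d) (h0 : h c = 0) :
    (∀ᶠ t in 𝓝[>] c, 0 < h t) ∧ ∀ᶠ t in 𝓝[<] c, h t < 0 := by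
  have e := (hasDerivAt_iff_tendsto_slope.1 hd).eventually (lt_mem_nhds d0)
  constructor
  · filter_upwards [e.filter_mono (nhdsGT_le_nhdsNE c), self_mem_nhdsWithin] with t a b
    rw [slope_def_field, h0, sub_zero] at a
    exact (div_pos_iff_of_pos_right (sub_pos.2 b)).1 a
  · filter_upwards [e.filter_mono (nhdsLT_le_nhdsNE c), self_mem_nhdsWithin] with t a b
    rw [slope_def_field, h0, sub_zero] at a
    have b' : t - c < 0 := sub_neg.2 b
    by_contra hn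
    exact absurd a (not_lt.2 (div_nonpos_of_nonneg_of_nonpos (not_lt.1 hn) b'.le))

theorem uz {h : ℝ → ℝ} {α β : ℝ} (hc : ContinuousOn h (Icc α β))
    (hd : ∀ c ∈ Icc α β, h c = 0 → ∃ d > 0, HasDerivAt h d c) (hα : h α = 0) (hβ : h β = 0) :
    ¬ α < β := fun hl => by
  obtain ⟨d, d0, e⟩ := hd α ⟨le_rfl, hl.le⟩ hα
  obtain ⟨t, t1, t2⟩ := ((sides e d0 hα).1.and (Ioo_mem_nhdsGT hl)).exists
  have sub : Icc t β ⊆ Icc α β := Icc_subset_Icc_left t2.1.le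
  have hK : IsCompact (Icc t β ∩ h ⁻¹' {0}) :=
    isCompact_Icc.of_isClosed_subset
      ((hc.mono sub).preimage_isClosed_of_isClosed isClosed_Icc isClosed_singleton)
      inter_subset_left
  obtain ⟨c, ⟨c1, c2⟩, c3⟩ := hK.exists_isLeast ⟨β, ⟨t2.2.le, le_rfl⟩, hβ⟩
  have c4 : t < c := lt_of_le_of_ne c1.1 fun a => by
    rw [a] at t1
    exact t1.ne' c2
  obtain ⟨d', d0', e'⟩ := hd c (sub c1) c2
  obtain ⟨r, r1, r2⟩ := ((sides e' d0' c2).2.and (Ioo_mem_nhdsLT c4)).exists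
  have sub2 : Icc t r ⊆ Icc t β := Icc_subset_Icc_right (r2.2.le.trans c1.2)
  obtain ⟨x, x1, x2⟩ := intermediate_value_Icc' r2.1.le (hc.mono (sub2.trans sub))
    (show (0 : ℝ) ∈ Icc _ _ from ⟨r1.le, t1.le⟩)
  exact absurd (c3 ⟨sub2 x1, x2⟩) (not_le.2 (x1.2.trans_lt r2.2))

theorem inner_O (O : Iso) (w V : E4) :
    ⟪O w, V⟫_ℝ = w 0 * cd O 0 V + w 1 * cd O 1 V + w 2 * cd O 2 V + w 3 * cd O 3 V := by
  obtain ⟨v, rfl⟩ := O.surjective V
  simp only [cd_apply, O.inner_map_map, inner4]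

theorem W_pos (y : P2) (z p q : ℝ) : 0 < √(1 + p ^ 2 + q ^ 2 + (z - y.1 * p - y.2 * q) ^ 2) :=
  Real.sqrt_pos.2 (by positivity)

/-- transversal crossing of a graph -/
theorem der (O : Iso) {u : P2 → ℝ} (P V : E4) (t : ℝ) (h0 : 0 < cd O 0 (P + t • V))
    (hu : DifferentiableAt ℝ u (yc O (P + t • V))) (hz : zz O (P + t • V) = u (yc O (P + t • V)))
    (hn : 0 < ⟪gN O u (yc O (P + t • V)), V⟫_ℝ) :
    ∃ d > 0, HasDerivAt (fun t : ℝ => zz O (P + t • V) - u (yc O (P + t • V))) d t := by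
  have a : HasDerivAt (fun t : ℝ => P + t • V) V t := by
    simpa using ((hasDerivAt_id t).smul_const V).const_add P
  have b : ∀ i, HasDerivAt (fun t : ℝ => cd O i (P + t • V)) (cd O i V) t := fun i =>
    (cd O i).hasFDerivAt.comp_hasDerivAt t a
  have c := fun i => (b i).div (b 0) h0.ne'
  refine ⟨_, ?_, (c 3).sub (hu.hasFDerivAt.comp_hasDerivAt t ((c 1).prodMk (c 2)))⟩
  rw [gN, inner_O, ← hz] at hn
  simp only [nrm, PiLp.smul_apply, smul_eq_mul] at hn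
  have w := W_pos (yc O (P + t • V)) (zz O (P + t • V)) (d1 u (yc O (P + t • V)))
    (d2 u (yc O (P + t • V)))
  rw [fd]
  generalize √_ = W at hn w
  generalize d1 u _ = p at hn ⊢
  generalize d2 u _ = q at hn ⊢
  simp only [yc, zz] at hn
  generalize cd O 0 (P + t • V) = D at h0 hn ⊢
  have e := mul_pos (div_pos w h0) hn
  refine e.trans_eq ?_
  simp
  field_simp
  ring

/-! ### The frame at the edge -/

theorem co (A B : ℝ) (x : E4) :
    OG A B x 0 = x 0 * Real.cos B - (x 2 + x 3) / √2 * Real.sin B ∧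
    OG A B x 1 = x 0 * Real.sin B + (x 2 + x 3) / √2 * Real.cos B ∧
    OG A B x 2 = x 1 * Real.cos A - (x 2 - x 3) / √2 * Real.sin A ∧
    OG A B x 3 = x 1 * Real.sin A + (x 2 - x 3) / √2 * Real.cos A := by
  refine ⟨?_, ?_, ?_, ?_⟩ <;> simp [OG, OQ, dg, mkO_apply] <;> first | (left; ring) | ring

theorem e1 (A B : ℝ) : OG A B (ee 1) = vP A := by
  obtain ⟨a, b, c, d⟩ := co A B (ee 1)
  ext i
  fin_cases i <;> simp [a, b, c, d, vP] <;> simp [ee]

theorem e3 (A B : ℝ) (n : E4) :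
    ⟪n, OG A B (ee 3)⟫_ℝ = (⟪n, vQ (B + π / 2)⟫_ℝ - ⟪n, vP (A + π / 2)⟫_ℝ) / √2 := by
  obtain ⟨a, b, c, d⟩ := co A B (ee 3)
  simp only [inner4, a, b, c, d]
  simp [vP, vQ, ee, Real.cos_add_pi_div_two, Real.sin_add_pi_div_two]
  ring

theorem ang (hT : TetS) {a : ℝ} (ha : 0 < a) : 0 < Real.cos (hA a) ∧ 0 < Real.sin (hA a) ∧
    Real.sin (hA a) = a * Real.cos (hA a) / √2 := by
  obtain ⟨h1, h2, h3⟩ := hT.ang.1 a ha
  have c : 0 < Real.cos (hA a) := Real.cos_pos_of_mem_Ioo ⟨by linarith, h2⟩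
  refine ⟨c, Real.sin_pos_of_pos_of_lt_pi h1 (by linarith), ?_⟩
  rw [Real.tan_eq_sin_div_cos] at h3
  have : (0 : ℝ) < √2 := by positivity
  field_simp at h3 ⊢
  linarith

theorem key (hT : TetS) {a b : ℝ} (ha : 0 < a) (hb : 0 < b) (y : P2) (z : ℝ) {X : E4}
    (hX : X = OG (hA a) (hA b) (gn y z)) : ∃ k₁ k₂ k₃ k₄ : ℝ, 0 < k₁ ∧ 0 < k₂ ∧ 0 < k₃ ∧ 0 < k₄ ∧
      a * X 2 - √2 * X 3 = k₁ * (z - y.2) ∧ b * X 0 - √2 * X 1 = k₂ * (-y.2 - z) ∧
      X 3 = k₃ * (a * y.1 + y.2 - z) ∧ X 1 = k₄ * (b + y.2 + z) := by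
  obtain ⟨a1, -, a3⟩ := ang hT ha
  obtain ⟨b1, -, b3⟩ := ang hT hb
  obtain ⟨c0, c1, c2, c3⟩ := co (hA a) (hA b) (gn y z)
  have r := rho_pos y z
  have s : (0 : ℝ) < √2 := by positivity
  have s' := s2
  rw [← hX, a3, b3] at *
  generalize Real.cos (hA a) = C at *
  generalize Real.cos (hA b) = D at *
  simp only [gn, PiLp.smul_apply, smul_eq_mul] at c0 c1 c2 c3
  generalize √(1 + y.1 ^ 2 + y.2 ^ 2 + z ^ 2) = ρ at *
  generalize √2 = σ at *
  simp at c0 c1 c2 c3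
  refine ⟨C * (a ^ 2 + σ ^ 2) / (σ ^ 2 * ρ), D * (b ^ 2 + σ ^ 2) / (σ ^ 2 * ρ), C / (σ * ρ),
    D / (σ * ρ), by positivity, by positivity, by positivity, by positivity, ?_, ?_, ?_, ?_⟩ <;>
  simp only [c0, c1, c2, c3] <;> field_simp <;> ring

theorem HE_lt {a b : ℝ} {y : P2} (hy : y ∈ HE a b) :
    0 < y.1 ∧ 2 * |y.2| < b ∧ 2 * |y.2| < a * y.1 := by
  have := lt_min_iff.1 (show 2 * |y.2| < min b (a * y.1) by linarith [hy.2])
  exact ⟨hy.1, this.1, this.2⟩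

/-- points of the leaf lie between the two faces through the edge -/
theorem btw (hT : TetS) {a b : ℝ} {u : P2 → ℝ} (h : IsLeaf a b u) {y : P2} {z : ℝ}
    (hz : OG (hA a) (hA b) (gn y z) ∈ gX O0 u '' Rho a b) : y.2 < z ∧ z < -y.2 := by
  obtain ⟨x, hx, e⟩ := hz
  obtain ⟨-, -, -, t1, t2⟩ := hT.inner a b u h x hx
  obtain ⟨k₁, k₂, -, -, p1, p2, -, -, q1, q2, -⟩ := key hT h.apos h.bpos y z e
  have s : (0 : ℝ) < √2 := by positivity
  have r1 := mul_le_mul_of_nonneg_left (le_abs_self (gX O0 u x 3)) s.le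
  have r2 := mul_le_mul_of_nonneg_left (le_abs_self (gX O0 u x 1)) s.le
  have u1 := (mul_pos_iff_of_pos_left p1).1 (show 0 < k₁ * (z - y.2) by linarith)
  have u2 := (mul_pos_iff_of_pos_left p2).1 (show 0 < k₂ * (-y.2 - z) by linarith)
  constructor <;> linarith

/-- the vertical segment in the central frame -/
theorem seg (hT : TetS) {a b : ℝ} (ha : 0 < a) (hb : 0 < b) {y : P2} (hy : y ∈ HE a b)
    (h2 : y.2 < 0) {z : ℝ} (hz : z ∈ Icc y.2 (-y.2)) :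
    ∃ x ∈ Rho a b, ∃ w, OG (hA a) (hA b) (gn y z) = O0 (gn x w) ∧ 0 < x.1 ∧ 0 < x.2 ∧
      (z = y.2 → w = lo a x) ∧ (z = -y.2 → w = up b x) := by
  obtain ⟨k₁, k₂, k₃, k₄, p1, p2, p3, p4, q1, q2, q3, q4⟩ := key hT ha hb y z rfl
  obtain ⟨-, y1, y2⟩ := HE_lt hy
  rw [abs_of_neg h2] at y1 y2
  set X := OG (hA a) (hA b) (gn y z)
  have x3 : 0 < X 3 := q3 ▸ mul_pos p3 (by linarith [hz.2])
  have x1 : 0 < X 1 := q4 ▸ mul_pos p4 (by linarith [hz.1])
  have r1 := mul_nonneg p1.le (sub_nonneg.2 hz.1)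
  have r2 := mul_nonneg p2.le (sub_nonneg.2 hz.2)
  obtain ⟨x, -, w, l1, l2, e⟩ := (hT.mem a b ha hb X).1
    ⟨by rw [LinearIsometryEquiv.norm_map, norm_gn], by rw [abs_of_pos x3]; linarith,
      by rw [abs_of_pos x1]; linarith⟩
  obtain ⟨c0, c1, c2, c3⟩ := hT.coord x w
  rw [← e] at c0 c1 c2 c3
  have r : 0 < rho x w := rho_pos x w
  have s : (0 : ℝ) < √2 := by positivity
  have f1 : 0 < x.1 := (div_pos_iff_of_pos_right r).1 (c3 ▸ x3)
  have f2 : 0 < x.2 := (div_pos_iff_of_pos_right r).1 (c1 ▸ x1)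
  have g1 : k₁ * (z - y.2) = a / (√2 * rho x w) * (w - lo a x) := by
    rw [← q1, c2, c3, lo, abs_of_pos f1]
    field_simp
    rw [Real.sq_sqrt (by norm_num)]
    ring
  have g2 : k₂ * (-y.2 - z) = b / (√2 * rho x w) * (up b x - w) := by
    rw [← q2, c0, c1, up, abs_of_pos f2]
    field_simp
    rw [Real.sq_sqrt (by norm_num)]
    ring
  have m1 : 0 < a / (√2 * rho x w) := by positivity
  have m2 : 0 < b / (√2 * rho x w) := by positivity
  refine ⟨x, ?_, w, e, f1, f2, fun h => ?_, fun h => ?_⟩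
  · have : lo a x < up b x := by
      by_contra hn
      rw [show w - lo a x = 0 by linarith, mul_zero] at g1
      rw [show up b x - w = 0 by linarith, mul_zero] at g2
      linarith [(mul_eq_zero.1 g1).resolve_left p1.ne', (mul_eq_zero.1 g2).resolve_left p2.ne']
    simp only [lo, up, mul_div_assoc] at this
    change |x.1| / a + |x.2| / b < 1
    linarith
  · rw [h, sub_self, mul_zero] at g1
    linarith [(mul_eq_zero.1 g1.symm).resolve_left m1.ne']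
  · rw [h, sub_self, mul_zero] at g2
    linarith [(mul_eq_zero.1 g2.symm).resolve_left m2.ne']

/-- the lower bound for the vertical component of the normal -/
def cc (a₀ : ℝ) : ℝ := Real.sin (hA a₀) / √2

theorem cc_pos (hT : TetS) {a₀ : ℝ} (h : 0 < a₀) : 0 < cc a₀ :=
  div_pos (ang hT h).2.1 (by positivity)

theorem sin_mono {a₀ a : ℝ} (h : a₀ ≤ a) : Real.sin (hA a₀) ≤ Real.sin (hA a) :=
  Real.sin_le_sin_of_le_of_le_pi_div_two (Real.neg_pi_div_two_lt_arctan _).le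
    (Real.arctan_lt_pi_div_two _).le (Real.arctan_mono (by gcongr))

theorem vert (hM : MeqS) (hT : TetS) (hR : RadoS) {a₀ a b : ℝ} {u : P2 → ℝ} (h0 : 0 < a₀)
    (ha : a₀ ≤ a) (hb : a₀ ≤ b) (h : IsLeaf a b u) {x : P2} (hx : x ∈ Rho a b) (h1 : 0 < x.1)
    (h2 : 0 < x.2) : cc a₀ ≤ ⟪gN O0 u x, OG (hA a) (hA b) (ee 3)⟫_ℝ := by
  obtain ⟨c1, c2⟩ := hR.cone a b u h x hx
  have n1 := (hM.normal O0 u x (h.sol.1 x hx).differentiableAt).2.1
  set n := gN O0 u x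
  have n2 := EuclideanSpace.real_norm_sq_eq n
  rw [n1, Fin.sum_univ_four] at n2
  have a0 : 0 ≤ aa n := by rw [aa]; positivity
  have a1 : 0 ≤ 1 - aa n := by rw [aa]; nlinarith [sq_nonneg (n 2), sq_nonneg (n 3)]
  have s1 := Real.sqrt_nonneg (aa n)
  have s2 := Real.sqrt_nonneg (1 - aa n)
  have s3 : 1 ≤ √(aa n) + √(1 - aa n) := by
    nlinarith [Real.sq_sqrt a0, Real.sq_sqrt a1, mul_nonneg s1 s2]
  have m := (ang hT h0).2.1
  rw [e3, cc]
  gcongr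
  nlinarith [c1 h2.le, c2 h1.le, mul_le_mul_of_nonneg_right (sin_mono ha) s2,
    mul_le_mul_of_nonneg_right (sin_mono hb) s1]

/-- the vertical segment meets the leaf exactly once -/
theorem once (hM : MeqS) (hT : TetS) (hR : RadoS) {a b : ℝ} {u : P2 → ℝ} (h : IsLeaf a b u)
    {y : P2} (hy : y ∈ HE a b) (h2 : y.2 < 0) :
    ∃! z, OG (hA a) (hA b) (gn y z) ∈ gX O0 u '' Rho a b := by
  set O := OG (hA a) (hA b) with hO
  let F : ℝ → ℝ := fun z => zz O0 (O (gn y z)) - u (yc O0 (O (gn y z)))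
  have sg := fun z hz => seg hT h.apos h.bpos hy h2 (z := z) hz
  have cF : ContinuousOn F (Icc y.2 (-y.2)) := fun z hz => by
    obtain ⟨x, hx, w, e, -⟩ := sg z hz
    have c0 : cd O0 0 (O (gn y z)) ≠ 0 := by rw [e]; exact (cd0_gn _ _ _).ne'
    have c1 : ContinuousAt (fun z => O (gn y z)) z :=
      (ana_Xi O (y, z)).continuousAt.comp (f := fun z => (y, z)) (by fun_prop)
    have c2 : ContinuousAt u (yc O0 (O (gn y z))) := by
      rw [e, yc_gn]
      exact (h.sol.1 x hx).continuousAt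
    exact (((diff_zz O0 c0).continuousAt.sub (c2.comp (diff_yc O0 c0).continuousAt)).comp
      (f := fun z => O (gn y z)) c1).continuousWithinAt
  have dF : ∀ z ∈ Icc y.2 (-y.2), F z = 0 → ∃ d > 0, HasDerivAt F d z := fun z hz e0 => by
    obtain ⟨x, hx, w, e, x1, x2, -⟩ := sg z hz
    let P : E4 := O (ee 0 + y.1 • ee 1 + y.2 • ee 2)
    have g : ∀ t, O (gn y t) = (√(1 + y.1 ^ 2 + y.2 ^ 2 + t ^ 2))⁻¹ • (P + t • O (ee 3)) :=
      fun t => by rw [gn_eq, map_smul, map_add, map_smul]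
    have g1 : ∀ t, zz O0 (O (gn y t)) = zz O0 (P + t • O (ee 3)) := fun t => by
      simp only [g, zz, map_smul, smul_eq_mul, mul_div_mul_left _ _ (inv_ne_zero (rho_pos y t).ne')]
    have g2 : ∀ t, yc O0 (O (gn y t)) = yc O0 (P + t • O (ee 3)) := fun t => by
      simp only [g, yc, map_smul, smul_eq_mul, mul_div_mul_left _ _ (inv_ne_zero (rho_pos y t).ne')]
    have g3 : yc O0 (P + z • O (ee 3)) = x := by rw [← g2, e, yc_gn]
    have g4 := cd0_gn O0 x w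
    rw [← e, g, map_smul] at g4
    simp only [F, g1, g2] at e0 ⊢
    refine der O0 P _ z ((mul_pos_iff_of_pos_left (inv_pos.2 (rho_pos y z))).1 g4)
      (g3 ▸ (h.sol.1 x hx).differentiableAt) (sub_eq_zero.1 e0) ?_
    have m := lt_min h.apos h.bpos
    rw [g3]
    exact (cc_pos hT m).trans_le (vert hM hT hR m (min_le_left _ _) (min_le_right _ _) h hx x1 x2)
  have z0 : ∀ z, O (gn y z) ∈ gX O0 u '' Rho a b → z ∈ Icc y.2 (-y.2) ∧ F z = 0 := fun z hz => by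
    refine ⟨⟨(btw hT h hz).1.le, (btw hT h hz).2.le⟩, ?_⟩
    obtain ⟨x, -, e⟩ := hz
    simp only [F, ← e, gX, yc_gn, zz_gn, sub_self]
  have l : y.2 ≤ -y.2 := by linarith
  have ne : ∀ z z', O (gn y z) ∈ gX O0 u '' Rho a b → O (gn y z') ∈ gX O0 u '' Rho a b →
      ¬ z < z' := fun z z' hz hz' => by
    have sub : Icc z z' ⊆ Icc y.2 (-y.2) := Icc_subset_Icc (z0 z hz).1.1 (z0 z' hz').1.2
    exact uz (cF.mono sub) (fun c hc => dF c (sub hc)) (z0 z hz).2 (z0 z' hz').2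
  refine existsUnique_of_exists_of_unique ?_ fun z z' hz hz' =>
    le_antisymm (not_lt.1 (ne _ _ hz' hz)) (not_lt.1 (ne _ _ hz hz'))
  obtain ⟨z, hz, e0⟩ := intermediate_value_Icc l cF (show (0 : ℝ) ∈ Icc _ _ by
    obtain ⟨x, hx, w, e, -, -, f, -⟩ := sg y.2 ⟨le_rfl, l⟩
    obtain ⟨x', hx', w', e', -, -, -, f'⟩ := sg (-y.2) ⟨l, le_rfl⟩
    simp only [F, hO, e, e', yc_gn, zz_gn, f rfl, f' rfl]
    exact ⟨by linarith [(hT.inner a b u h x hx).1], by linarith [(hT.inner a b u h x' hx').2.1]⟩)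
  obtain ⟨x, hx, w, e, -⟩ := sg z hz
  simp only [F, hO, e, yc_gn, zz_gn, sub_eq_zero] at e0
  exact ⟨z, x, hx, by rw [gX, ← e0, e]⟩

/-! ### The graph over the lower half -/

/-- height of the leaf over the lower half of the edge chart -/
def ZZ (a b : ℝ) (u : P2 → ℝ) (y : P2) : ℝ :=
  Classical.epsilon fun z => OG (hA a) (hA b) (gn y z) ∈ gX O0 u '' Rho a b

/-- the lower half -/
def HM (a b : ℝ) : Set P2 := HE a b ∩ {y | y.2 < 0}

theorem HE_open (a b : ℝ) : IsOpen (HE a b) :=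
  (isOpen_lt continuous_const continuous_fst).inter
    (isOpen_lt (f := fun y : P2 => |y.2|) (g := fun y : P2 => min b (a * y.1) / 2) (by fun_prop)
      (by fun_prop))

theorem HM_open (a b : ℝ) : IsOpen (HM a b) :=
  (HE_open a b).inter (isOpen_lt continuous_snd continuous_const)

theorem HM_convex (a b : ℝ) : Convex ℝ (HM a b) := by
  refine convex_iff_forall_pos.2 fun x hx y hy s t hs ht e => ?_
  obtain ⟨x1, x2, x3⟩ := HE_lt hx.1
  obtain ⟨y1, y2, y3⟩ := HE_lt hy.1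
  have x4 : x.2 < 0 := hx.2
  have y4 : y.2 < 0 := hy.2
  rw [abs_of_neg x4] at x2 x3
  rw [abs_of_neg y4] at y2 y3
  have n : s * x.2 + t * y.2 < 0 := by nlinarith
  refine ⟨⟨show 0 < s * x.1 + t * y.1 by positivity, ?_⟩, n⟩
  change |s * x.2 + t * y.2| < min b (a * (s * x.1 + t * y.1)) / 2
  rw [abs_of_neg n, lt_div_iff₀ two_pos, lt_min_iff]
  constructor
  · have : b = s * b + t * b := by rw [← add_mul, e, one_mul]
    nlinarith [mul_lt_mul_of_pos_left x2 hs, mul_lt_mul_of_pos_left y2 ht]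
  · nlinarith [mul_lt_mul_of_pos_left x3 hs, mul_lt_mul_of_pos_left y3 ht]

theorem nrm3 (O : Iso) (v : P2 → ℝ) (y : P2) : ⟪gN O v y, O (ee 3)⟫_ℝ =
    (√(1 + d1 v y ^ 2 + d2 v y ^ 2 + (v y - y.1 * d1 v y - y.2 * d2 v y) ^ 2))⁻¹ := by
  rw [gN, O.inner_map_map, inner4]
  simp [nrm, ee]

theorem nrm1 (O : Iso) (v : P2 → ℝ) (y : P2) : ⟪gN O v y, O (ee 1)⟫_ℝ =
    -(d1 v y / √(1 + d1 v y ^ 2 + d2 v y ^ 2 + (v y - y.1 * d1 v y - y.2 * d2 v y) ^ 2)) := by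
  rw [gN, O.inner_map_map, inner4]
  simp [nrm, ee]
  ring

section

variable (hM : MeqS) (hC : ChartS) (hT : TetS) (hR : RadoS) {a b : ℝ} {u : P2 → ℝ}
  (h : IsLeaf a b u)

include hM hT hR h

theorem Z_mem {y : P2} (hy : y ∈ HM a b) : gX (OG (hA a) (hA b)) (ZZ a b u) y ∈ gX O0 u '' Rho a b :=
  Classical.epsilon_spec (once hM hT hR h hy.1 hy.2).exists

theorem Z_eq {y : P2} (hy : y ∈ HM a b) {z : ℝ}
    (hz : OG (hA a) (hA b) (gn y z) ∈ gX O0 u '' Rho a b) : z = ZZ a b u y :=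
  (once hM hT hR h hy.1 hy.2).unique hz (Z_mem hM hT hR h hy)

include hC

theorem Z_loc {y : P2} (hy : y ∈ HM a b) : AnalyticAt ℝ (ZZ a b u) y ∧
    gAt (ZZ a b u) y (ZZ a b u y) = 0 ∧ ∃ x ∈ Rho a b, 0 < x.1 ∧ 0 < x.2 ∧
      gX O0 u x = gX (OG (hA a) (hA b)) (ZZ a b u) y ∧
      gN O0 u x = gN (OG (hA a) (hA b)) (ZZ a b u) y := by
  obtain ⟨x, hx, e⟩ := Z_mem hM hT hR h hy
  have bt := btw hT h (Z_mem hM hT hR h hy)
  obtain ⟨x', -, w, e', x1, x2, -⟩ := seg hT h.apos h.bpos hy.1 hy.2 ⟨bt.1.le, bt.2.le⟩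
  obtain ⟨rfl, -⟩ := hT.inj O0 _ _ _ _ (e.trans e')
  obtain ⟨-, -, -, hS, -, hl⟩ := hT.cpt a b u h
  have m := lt_min h.apos h.bpos
  have v0 := (cc_pos hT m).trans_le
    (vert hM hT hR m (min_le_left _ _) (min_le_right _ _) h hx x1 x2)
  obtain ⟨f1, f2, -⟩ := hC.facts _ _ _ _ hl x hx
  rw [e] at f1 f2
  obtain ⟨δ, hδ, v, hv, vy⟩ := hC.lchart _ hS _ y _ _ f1 f2 v0.ne'
  have y0 := mem_ball_self (x := y) hδ
  have ev : ZZ a b u =ᶠ[𝓝 y] v := by
    filter_upwards [ball_mem_nhds y hδ, (HM_open a b).mem_nhds hy] with y' a1 a2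
    exact (Z_eq hM hT hR h a2 (hC.facts _ _ _ _ hv y' a1).1).symm
  refine ⟨(hv.sol.1 y y0).congr ev.symm, (gAtc ev).trans (hv.sol.2 y y0), x, hx, x1, x2, e, ?_⟩
  have g2 := (hC.facts _ _ _ _ hv y y0).2.1
  rw [gX, vy] at g2
  rw [gNc _ ev]
  have v1 : 0 < ⟪gN (OG (hA a) (hA b)) v y, OG (hA a) (hA b) (ee 3)⟫_ℝ := by
    rw [nrm3]
    exact inv_pos.2 (W_pos _ _ _ _)
  have sp := (hC.nor_spec _ hS _ f1).2
  rcases (sp _).1 f2 with k | k <;> rcases (sp _).1 g2 with k' | k'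
  · rw [k, k']
  · rw [k', ← k, inner_neg_left] at v1
    linarith
  · rw [k, ← k', inner_neg_left] at v0
    linarith
  · rw [k, k']

theorem Z_lip {a₀ : ℝ} (h0 : 0 < a₀) (ha : a₀ ≤ a) (hb : a₀ ≤ b) :
    LipschitzOnWith (2 / cc a₀).toNNReal (ZZ a b u) (HM a b) := by
  refine (HM_convex a b).lipschitzOnWith_of_nnnorm_fderiv_le (𝕜 := ℝ)
    (fun y hy => (Z_loc hM hC hT hR h hy).1.differentiableAt) fun y hy => ?_
  obtain ⟨-, -, x, hx, x1, x2, -, e⟩ := Z_loc hM hC hT hR h hy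
  have c := cc_pos hT h0
  have v := vert hM hT hR h0 ha hb h hx x1 x2
  rw [e, nrm3, le_inv_comm₀ c (W_pos _ _ _ _)] at v
  have p1 : |d1 (ZZ a b u) y| ≤ (cc a₀)⁻¹ := (Real.abs_le_sqrt (by
    nlinarith [sq_nonneg (d2 (ZZ a b u) y), sq_nonneg (ZZ a b u y - y.1 * d1 (ZZ a b u) y -
      y.2 * d2 (ZZ a b u) y)])).trans v
  have p2 : |d2 (ZZ a b u) y| ≤ (cc a₀)⁻¹ := (Real.abs_le_sqrt (by
    nlinarith [sq_nonneg (d1 (ZZ a b u) y), sq_nonneg (ZZ a b u y - y.1 * d1 (ZZ a b u) y -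
      y.2 * d2 (ZZ a b u) y)])).trans v
  rw [← NNReal.coe_le_coe, coe_nnnorm, Real.coe_toNNReal _ (by positivity)]
  refine ContinuousLinearMap.opNorm_le_bound _ (by positivity) fun w => ?_
  rw [fd, Real.norm_eq_abs]
  refine (abs_add_le _ _).trans ?_
  rw [abs_mul, abs_mul]
  calc _ ≤ (cc a₀)⁻¹ * ‖w‖ + (cc a₀)⁻¹ * ‖w‖ := by
        gcongr
        exacts [norm_fst_le w, norm_snd_le w]
    _ = _ := by ring

end

/-! ### The odd extension -/

/-- extension by zero -/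
def cut (Z : P2 → ℝ) (y : P2) : ℝ := if y.2 < 0 then Z y else 0

/-- odd extension -/
def od (Z : P2 → ℝ) (y : P2) : ℝ := cut Z y - cut Z (y.1, -y.2)

theorem od_odd (Z : P2 → ℝ) (y : P2) : od Z (y.1, -y.2) = -od Z y := by simp [od]

theorem od_neg (Z : P2 → ℝ) {y : P2} (h : y.2 < 0) : od Z y = Z y := by
  simp [od, cut, h, h.le]

theorem od_zero (Z : P2 → ℝ) (s : ℝ) : od Z (s, 0) = 0 := by simp [od]

theorem od_ev (Z : P2 → ℝ) {y : P2} (h : y.2 < 0) : od Z =ᶠ[𝓝 y] Z := by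
  filter_upwards [(isOpen_lt continuous_snd continuous_const).mem_nhds h] with x hx
  exact od_neg Z hx

theorem HE_neg {a b : ℝ} {y : P2} (h : y ∈ HE a b) : (y.1, -y.2) ∈ HE a b :=
  ⟨h.1, by simpa using h.2⟩

theorem od_le {a b : ℝ} {Z : P2 → ℝ} (h : ∀ y ∈ HM a b, |Z y| < -y.2) {y : P2}
    (hy : y ∈ HE a b) : |od Z y| ≤ |y.2| := by
  rcases lt_trichotomy y.2 0 with l | l | l
  · rw [od_neg Z l, abs_of_neg l]
    exact (h y ⟨hy, l⟩).le
  · rw [show y = (y.1, 0) from Prod.ext rfl l, od_zero]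
  · have l' : (y.1, -y.2).2 < 0 := neg_neg_of_pos l
    rw [← abs_neg, ← od_odd, od_neg Z l', abs_of_pos l]
    simpa using (h _ ⟨HE_neg hy, l'⟩).le

theorem od_lip {a b : ℝ} {Z : P2 → ℝ} {K : ℝ≥0} (h : ∀ y ∈ HM a b, |Z y| < -y.2)
    (hK : LipschitzOnWith K Z (HM a b)) : LipschitzOnWith (K + 1) (od Z) (HE a b) := by
  have k : ∀ x ∈ HE a b, ∀ y ∈ HE a b, x.2 < 0 → y.2 < 0 →
      dist (od Z x) (od Z y) ≤ (K + 1 : ℝ≥0) * dist x y := fun x hx y hy l l' => by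
    rw [od_neg Z l, od_neg Z l']
    refine (hK.dist_le_mul x ⟨hx, l⟩ y ⟨hy, l'⟩).trans ?_
    gcongr
    exact le_self_add
  refine LipschitzOnWith.of_dist_le_mul fun x hx y hy => ?_
  by_cases c1 : x.2 < 0 ∧ y.2 < 0
  · exact k x hx y hy c1.1 c1.2
  by_cases c2 : 0 < x.2 ∧ 0 < y.2
  · have := k _ (HE_neg hx) _ (HE_neg hy) (neg_neg_of_pos c2.1) (neg_neg_of_pos c2.2)
    rw [od_odd, od_odd, dist_neg_neg] at this
    simpa [Prod.dist_eq] using this
  have e : |x.2| + |y.2| ≤ |x.2 - y.2| := by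
    rw [not_and_or, not_lt, not_lt] at c1 c2
    cases abs_cases x.2 <;> cases abs_cases y.2 <;> cases abs_cases (x.2 - y.2) <;>
      cases c1 <;> cases c2 <;> linarith
  have e2 : |x.2 - y.2| ≤ dist x y := le_max_right _ _
  have e3 : dist (od Z x) (od Z y) ≤ |od Z x| + |od Z y| := abs_sub _ _
  have e4 : 0 ≤ (K : ℝ) * dist x y := by positivity
  push_cast
  linarith [od_le h hx, od_le h hy]

theorem od_sol (hG : RegS) (hW : CWS) (hE : RemS) {a b : ℝ} {Z : P2 → ℝ} {L : ℝ≥0}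
    (hZ : Sol Z (HM a b)) (hL : LipschitzOnWith L (od Z) (HE a b)) : Sol (od Z) (HE a b) := by
  have w1 : Weak (od Z) (HM a b) := (hW _ _ (HM_open a b) fun y hy =>
    ((hZ.1 y hy).congr (od_ev Z hy.2).symm).contDiffAt.contDiffWithinAt).2 fun y hy =>
      (gAtc (od_ev Z hy.2)).trans (hZ.2 y hy)
  have r : ∀ y : P2, rfl2 (0, -1) y = (y.1, -y.2) := fun y => by
    ext <;> simp [rfl2, dot]
    ring
  have w2 : Weak (od Z) (HE a b) := hE.1 _ _ L (0, -1) (HE_open a b) (by simp [dot])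
    (fun y hy => by rw [r]; exact ⟨HE_neg hy, od_odd Z y⟩) hL (by simpa [dot, HM] using w1)
  have an : AnalyticOnNhd ℝ (od Z) (HE a b) := fun y hy => by
    obtain ⟨ε, e0, e1⟩ := Metric.isOpen_iff.1 (HE_open a b) y hy
    have sub : ball y (min ε 1) ⊆ HE a b := (ball_subset_ball (min_le_left _ _)).trans e1
    obtain ⟨C, hC⟩ := hG L (max ‖y‖ |od Z y|) 0
    exact (hC _ y _ (lt_min e0 one_pos) (min_le_right _ _) (le_max_left _ _) (le_max_right _ _)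
      (hL.mono sub) fun η K k1 k2 k3 => w2 η K k1 k2 (k3.trans sub)).1
  exact ⟨an, (hW _ _ (HE_open a b) fun y hy => (an y hy).contDiffAt.contDiffWithinAt).1 w2⟩

/-! ### The edge -/

theorem line1 {f : P2 → ℝ} {s : ℝ} (hf : DifferentiableAt ℝ f (s, 0)) :
    HasDerivAt (fun t => f (t, 0)) (d1 f (s, 0)) s :=
  hf.hasFDerivAt.comp_hasDerivAt s ((hasDerivAt_id s).prodMk (hasDerivAt_const s (0 : ℝ)))

theorem line2 {f : P2 → ℝ} {s : ℝ} (hf : DifferentiableAt ℝ f (s, 0)) :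
    HasDerivAt (fun t => f (s, t)) (d2 f (s, 0)) 0 :=
  hf.hasFDerivAt.comp_hasDerivAt (0 : ℝ) ((hasDerivAt_const _ s).prodMk (hasDerivAt_id _))

theorem below {a b s : ℝ} (hs : (s, 0) ∈ HE a b) : ∀ᶠ t in 𝓝[<] (0 : ℝ), (s, t) ∈ HM a b := by
  have : ∀ᶠ t in 𝓝 (0 : ℝ), (s, t) ∈ HE a b :=
    (by fun_prop : Continuous fun t : ℝ => (s, t)).continuousAt ((HE_open a b).mem_nhds hs)
  filter_upwards [this.filter_mono nhdsWithin_le_nhds, self_mem_nhdsWithin] with t a1 a2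
  exact ⟨a1, a2⟩

theorem left_nonneg {g : ℝ → ℝ} {d : ℝ} (hd : HasDerivAt g d 0) (h0 : g 0 = 0)
    (h : ∀ᶠ t in 𝓝[<] (0 : ℝ), g t ≤ 0) : 0 ≤ d := by
  by_contra hn
  obtain ⟨t, t1, t2⟩ := ((sides hd.neg (neg_pos.2 (not_le.1 hn)) (by simp [h0])).2.and h).exists
  simp only [Pi.neg_apply] at t1
  linarith

theorem ray {w : P2 → ℝ} {x₀ : P2} {T : ℂ →L[ℝ] P2} {m : ℕ} {c : ℂ} (h : Lead w x₀ T m c)
    {ε : ℝ} (hε : |ε| = 1) {q : ℂ} (hq : 0 < ε * (c * q ^ m).re) :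
    ∀ᶠ t : ℝ in 𝓝[>] 0, 0 < ε * w (x₀ + T (t * q)) := by
  obtain ⟨-, C, δ, hδ, h⟩ := h
  have e1 : ∀ᶠ t : ℝ in 𝓝[>] 0, t * ‖q‖ < δ :=
    ((by fun_prop : Continuous fun t : ℝ => t * ‖q‖).continuousAt.eventually_lt continuousAt_const
      (by simpa using hδ)).filter_mono nhdsWithin_le_nhds
  have e2 : ∀ᶠ t : ℝ in 𝓝[>] 0, C * ‖q‖ ^ (m + 1) * t < ε * (c * q ^ m).re :=
    ((by fun_prop : Continuous fun t : ℝ => C * ‖q‖ ^ (m + 1) * t).continuousAt.eventually_lt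
      continuousAt_const (by simpa only [mul_zero] using hq)).filter_mono nhdsWithin_le_nhds
  filter_upwards [e1, e2, self_mem_nhdsWithin] with t h1 h2 h3
  have h3' : 0 < t := h3
  have n1 : ‖(t : ℂ) * q‖ = t * ‖q‖ := by rw [norm_mul, Complex.norm_real, Real.norm_of_nonneg h3'.le]
  have a := (h (t * q) (by rwa [n1])).2.1
  have b : (c * (t * q) ^ m).re = (c * q ^ m).re * t ^ m := by
    rw [← Complex.re_mul_ofReal]
    congr 1
    push_cast
    ring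
  rw [b, n1, ← one_mul |_|, ← hε, ← abs_mul] at a
  have d : C * (t * ‖q‖) ^ (m + 1) < ε * (c * q ^ m).re * t ^ m := by
    calc C * (t * ‖q‖) ^ (m + 1) = (C * ‖q‖ ^ (m + 1) * t) * t ^ m := by ring
      _ < _ := mul_lt_mul_of_pos_right h2 (pow_pos h3' m)
  linarith [(abs_lt.1 (a.trans_lt d)).1]

theorem dir (l : ℂ →L[ℝ] ℝ) (hl : ∃ v, 0 < l v) {m : ℕ} (hm : 2 ≤ m) {c : ℂ} (hc : c ≠ 0)
    {ε : ℝ} (hε : |ε| = 1) : ∃ q, 0 < l q ∧ 0 < ε * (c * q ^ m).re := by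
  obtain ⟨q, hq⟩ := IsAlgClosed.exists_pow_nat_eq (c⁻¹ * ε) (show 0 < m by omega)
  have hj := Complex.isPrimitiveRoot_exp m (by omega)
  generalize Complex.exp _ = j at hj
  obtain ⟨k, hk⟩ : ∃ k, 0 ≤ l (q * j ^ k) := by
    by_contra hn
    push Not at hn
    have := Finset.sum_neg (s := Finset.range m) (fun k _ => hn k) ⟨0, by simp; omega⟩
    rw [← map_sum, ← Finset.mul_sum, hj.geom_sum_eq_zero (by omega)] at this
    simp at this
  obtain ⟨v, hv⟩ := hl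
  have e : ∀ᶠ t : ℝ in 𝓝[>] 0, 0 < ε * (c * (q * j ^ k + t • v) ^ m).re :=
    (continuousAt_const.eventually_lt (by fun_prop : Continuous fun t : ℝ =>
      ε * (c * (q * j ^ k + t • v) ^ m).re).continuousAt (by
        rw [zero_smul, add_zero, mul_pow, ← pow_mul, mul_comm k, pow_mul, hj.pow_eq_one, hq, one_pow,
          mul_one, mul_inv_cancel_left₀ hc, Complex.ofReal_re, ← abs_mul_abs_self, hε]
        norm_num)).filter_mono nhdsWithin_le_nhds
  obtain ⟨t, t1, t2⟩ := (e.and self_mem_nhdsWithin).exists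
  refine ⟨_, ?_, t1⟩
  rw [map_add, map_smul]
  exact add_pos_of_nonneg_of_pos hk (mul_pos t2 hv)

theorem slope_lt (hM : MeqS) (hL : LeadS) (hT : TetS) {a b s : ℝ} {Z : P2 → ℝ}
    (h : ∀ y ∈ HM a b, |Z y| < -y.2) (hZ : Sol (od Z) (HE a b)) (hs : (s, 0) ∈ HE a b) :
    d1 (od Z) (s, 0) = 0 ∧ |d2 (od Z) (s, 0)| < 1 := by
  have an := hZ.1 _ hs
  have k1 : d1 (od Z) (s, 0) = 0 := (line1 an.differentiableAt).unique (by
    simpa only [od_zero] using hasDerivAt_const s (0 : ℝ))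
  have lt : ∀ᶠ t in 𝓝[<] (0 : ℝ), |od Z (s, t)| < -t := (below hs).mono fun t ht => by
    rw [od_neg Z ht.2]
    exact h _ ht
  have k2 := left_nonneg ((hasDerivAt_id (0 : ℝ)).add (line2 an.differentiableAt))
    (by simp [od_zero]) (lt.mono fun t ht => by simpa using by linarith [(abs_lt.1 ht).2])
  have k3 := left_nonneg ((hasDerivAt_id (0 : ℝ)).sub (line2 an.differentiableAt))
    (by simp [od_zero]) (lt.mono fun t ht => by simpa using by linarith [(abs_lt.1 ht).1])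
  refine ⟨k1, lt_of_le_of_ne (abs_le.2 ⟨by linarith, by linarith⟩) fun hε => ?_⟩
  generalize he : d2 (od Z) (s, 0) = ε at hε
  let O : Iso := LinearIsometryEquiv.refl ℝ E4
  obtain ⟨T, hT'⟩ := exists_T _ (hM.normal O _ _ an.differentiableAt).2.2.2.2.2
  have pl := hT.plane 0 (0, ε)
  simp only [dot, zero_mul, zero_add] at pl
  rcases hL (Xi O) (od Z) _ (s, 0) T (ana_Xi O _) (inj_Xi O _)
    (Eventually.of_forall fun s => by rw [Xi, O.norm_map, norm_gn]) an (pl.1 _ (mem_univ _))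
    (by simp [od_zero]) (by
      rw [((hasFDerivAt_snd (𝕜 := ℝ) (p := ((s, 0) : P2))).const_mul ε).fderiv]
      ext
      · exact k1.trans (by simp)
      · exact he.trans (by simp))
    (sol_ev hM O (HE_open a b) hZ hs) (sol_ev hM O isOpen_univ pl (mem_univ _)) hT' with
      g | ⟨m, c, hm, g⟩
  · have g' : ∀ᶠ t in 𝓝 (0 : ℝ), od Z (s, t) = ε * t :=
      (by fun_prop : Continuous fun t : ℝ => (s, t)).continuousAt.eventually g
    obtain ⟨t, t1, t2⟩ := (lt.and (g'.filter_mono nhdsWithin_le_nhds)).exists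
    rw [t2, abs_mul, hε, one_mul] at t1
    exact absurd t1 (not_lt.2 (neg_le_abs t))
  have inj : Function.Injective T := (injective_iff_map_eq_zero T).2 fun v hv => by
    rw [← norm_eq_zero, ← hT' v, hv, map_zero, norm_zero]
  obtain ⟨v, hv⟩ := (LinearMap.injective_iff_surjective_of_finrank_eq_finrank
    (f := T.toLinearMap) (by simp)).1 inj (0, 1)
  obtain ⟨q, q1, q2⟩ := dir ((ContinuousLinearMap.snd ℝ ℝ ℝ).comp T)
    ⟨v, by simp [show T v = (0, 1) from hv]⟩ hm g.1 hε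
  have near : ∀ᶠ t : ℝ in 𝓝 0, (s, 0) + T (t * q) ∈ HE a b :=
    (by fun_prop : Continuous fun t : ℝ => ((s, 0) : P2) + T (t * q)).continuousAt
      ((HE_open a b).mem_nhds (by simpa using hs))
  obtain ⟨t, ⟨t1, t2⟩, t3⟩ := (((ray g hε q2).and (near.filter_mono nhdsWithin_le_nhds)).and
    self_mem_nhdsWithin).exists
  have p : 0 < ((s, 0) + T (t * q)).2 := by
    rw [← Complex.real_smul, map_smul]
    simpa using mul_pos t3 q1
  have u1 := od_le h t2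
  generalize (s, 0) + T (t * q) = y at t1 p u1
  have u2 := le_abs_self (ε * od Z y)
  rw [abs_mul, hε] at u2
  rw [abs_of_pos p] at u1
  rw [mul_sub, ← mul_assoc, ← abs_mul_abs_self, hε] at t1
  linarith

end EEdge

open EEdge in
theorem edgeS (hG : RegS) (hW : CWS) (hE : RemS) (hM : MeqS) (hD : DerS) (hC : ChartS) (hL : LeadS)
    (hT : TetS) (hR : RadoS) : EdgeS := fun a₀ h0 => by
  refine ⟨(2 / cc a₀).toNNReal + 1, fun a b u ha hb h => ?_⟩
  have lt : ∀ y ∈ HM a b, |ZZ a b u y| < -y.2 := fun y hy => by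
    have := btw hT h (Z_mem hM hT hR h hy)
    exact abs_lt.2 ⟨by linarith [this.1], this.2⟩
  have lip := od_lip lt (Z_lip hM hC hT hR h h0 ha hb)
  have sol := od_sol hG hW hE ⟨fun y hy => (Z_loc hM hC hT hR h hy).1,
    fun y hy => (Z_loc hM hC hT hR h hy).2.1⟩ lip
  have mem : ∀ y ∈ HE a b, y.2 < 0 → ∃ x ∈ Rho a b, 0 < x.1 ∧ 0 < x.2 ∧
      gX O0 u x = gX (OG (hA a) (hA b)) (od (ZZ a b u)) y ∧
      gN O0 u x = gN (OG (hA a) (hA b)) (od (ZZ a b u)) y := fun y hy l => by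
    rw [gNc _ (od_ev _ l), gX, od_neg _ l]
    exact (Z_loc hM hC hT hR h ⟨hy, l⟩).2.2
  refine ⟨od (ZZ a b u), ⟨sol, lip, od_odd _, mem, fun x hx y hy z e _ _ => ?_⟩, fun s hs => ?_⟩
  · have := btw hT h ⟨x, hx, e⟩
    have l : y.2 < 0 := by linarith [this.1, this.2]
    exact ⟨l, (Z_eq hM hT hR h ⟨hy, l⟩ ⟨x, hx, e⟩).trans (od_neg _ l).symm⟩
  have hs' : (s, 0) ∈ HE a b := ⟨hs, by
    have := lt_min h.bpos (mul_pos h.apos hs)
    simpa using this⟩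
  obtain ⟨k1, k2⟩ := slope_lt hM hL hT lt sol hs'
  obtain ⟨d1a, -, sy, -⟩ := hD _ _ (sol.1 _ hs')
  refine ⟨k2, sy ▸ left_nonneg (line2 d1a.differentiableAt) k1 ((below hs').mono fun t ht => ?_)⟩
  obtain ⟨x, hx, -, -, -, e⟩ := mem _ ht.1 ht.2
  have r := (hR.rado a b u h x hx).1
  rw [e, ← e1 _ (hA b), nrm1, neg_pos] at r
  exact ((div_neg_iff.1 r).resolve_left fun k => (W_pos _ _ _ _).not_gt k.2).1.le

end Pool.Agent.Lib.MP_16d934_gt
end
end

-- part Pool.Agent.Lib.MP_16d934_gt.EIc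
section

/-! Continuity of the leaves and of their extensions in the angle. -/

set_option autoImplicit false

open Set Metric Filter Topology
open scoped ContDiff InnerProductSpace NNReal Real

noncomputable section

namespace Pool.Agent.Lib.MP_16d934_gt

namespace EIc

open BTouch

/-! ### General tools -/

theorem ana_d {f : P2 → ℝ} {y : P2} (h : AnalyticAt ℝ f y) :
    AnalyticAt ℝ (d1 f) y ∧ AnalyticAt ℝ (d2 f) y :=
  ⟨((ContinuousLinearMap.apply ℝ ℝ ((1, 0) : P2)).analyticAt _).comp h.fderiv,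
    ((ContinuousLinearMap.apply ℝ ℝ ((0, 1) : P2)).analyticAt _).comp h.fderiv⟩

theorem cont_j2 {f : P2 → ℝ} {y : P2} (h : AnalyticAt ℝ f y) : ContinuousAt (j2 f) y :=
  h.continuousAt.prodMk ((ana_d h).1.continuousAt.prodMk ((ana_d h).2.continuousAt.prodMk
    ((ana_d (ana_d h).1).1.continuousAt.prodMk ((ana_d (ana_d h).2).1.continuousAt.prodMk
      (ana_d (ana_d h).2).2.continuousAt))))

theorem joint (hK : CptS) {u : ℝ → P2 → ℝ} {l : ℝ} {U : Set P2} {L : ℝ≥0} (hU : IsOpen U)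
    (h : ∀ᶠ t in 𝓝 l, Sol (u t) U ∧ LipschitzOnWith L (u t) U)
    (hp : ∀ x ∈ U, Tendsto (fun t => u t x) (𝓝 l) (𝓝 (u l x))) {y : P2} (hy : y ∈ U) :
    ContinuousAt (fun q : ℝ × P2 => j2 (u q.1) q.2) (l, y) := by
  have f : Tendsto Prod.fst (𝓝 (l, y)) (𝓝 l) := continuousAt_fst
  have g : Tendsto Prod.snd (𝓝 (l, y)) (𝓝 y) := continuousAt_snd
  obtain ⟨a, b⟩ := hK (ℝ × P2) (𝓝 (l, y)) (fun q => u q.1) (u l) U L inferInstance hU
    (f.eventually h) fun x hx => (hp x hx).comp f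
  exact b.tendsto_comp (cont_j2 (a.1 y hy)).continuousWithinAt hy
    (tendsto_nhdsWithin_iff.2 ⟨g, g.eventually (hU.mem_nhds hy)⟩)

theorem box {P : ℝ × P2 → Prop} {l : ℝ} {y : P2} (h : ∀ᶠ q in 𝓝 (l, y), P q) :
    ∃ r > 0, ∀ t ∈ ball l r, ∀ x ∈ ball y r, P (t, x) := by
  obtain ⟨r, hr, hb⟩ := Metric.eventually_nhds_iff_ball.1 h
  exact ⟨r, hr, fun t ht x hx => hb _ (by rw [← ball_prod_same]; exact ⟨ht, hx⟩)⟩

theorem sol_mono {u : P2 → ℝ} {U V : Set P2} (h : Sol u U) (hV : V ⊆ U) : Sol u V :=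
  ⟨h.1.mono hV, fun y hy => h.2 y (hV hy)⟩

theorem cont_aL {l : ℝ} (hl : l ∈ Ioo 0 π) : ContinuousAt aL l :=
  continuousAt_const.mul ((Real.continuousAt_tan.2 (Real.cos_pos_of_mem_Ioo
    ⟨by linarith [hl.1, hl.2], by linarith [hl.2]⟩).ne').comp (f := fun l : ℝ => l / 2)
      (by fun_prop))

theorem cont_hA : Continuous hA := Real.continuous_arctan.comp (by fun_prop)

theorem rho_sub (a b : ℝ) : Rho a b ⊆ Rh a b := fun _ h => le_of_lt (α := ℝ) h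

theorem lo_up {a b : ℝ} {y : P2} (h : y ∈ Rh a b) (h' : y ∉ Rho a b) : lo a y = up b y := by
  have := le_antisymm (α := ℝ) h (not_lt.1 h')
  simp only [lo, up, mul_div_assoc]
  linarith

theorem open_rho (a b : ℝ) : IsOpen (Rho a b) := isOpen_lt (by fun_prop) continuous_const

theorem open_HE (a b : ℝ) : IsOpen (HE a b) :=
  (isOpen_lt continuous_const continuous_fst).inter (isOpen_lt (f := fun y : P2 => |y.2|)
    (g := fun y : P2 => min b (a * y.1) / 2) (by fun_prop) (by fun_prop))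

theorem zero_rho (a b : ℝ) : (0 : P2) ∈ Rho a b := by simp [Rho]

theorem cont_gn : Continuous fun s : P2 × ℝ => gn s.1 s.2 :=
  continuous_iff_continuousAt.2 fun s => (ana_Xi (LinearIsometryEquiv.refl ℝ E4) s).continuousAt

theorem tend_gn {F : Filter ℝ} {a : ℝ → P2} {b : ℝ → ℝ} {y : P2} {z : ℝ} (ha : Tendsto a F (𝓝 y))
    (hb : Tendsto b F (𝓝 z)) : Tendsto (fun t => gn (a t) (b t)) F (𝓝 (gn y z)) := by
  simpa only [Function.comp_def] using (cont_gn.tendsto (y, z)).comp (ha.prodMk_nhds hb)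

theorem tend_O {O : ℝ → Iso} (hO : Continuous fun q : ℝ × E4 => O q.1 q.2) {F : Filter ℝ}
    {a : ℝ → ℝ} {b : ℝ → E4} {y : ℝ} {z : E4} (ha : Tendsto a F (𝓝 y)) (hb : Tendsto b F (𝓝 z)) :
    Tendsto (fun t => O (a t) (b t)) F (𝓝 (O y z)) := by
  simpa only [Function.comp_def] using (hO.tendsto (y, z)).comp (ha.prodMk_nhds hb)

theorem tend_pair (l : ℝ) (x : P2) : Tendsto (fun t : ℝ => (t, x)) (𝓝 l) (𝓝 (l, x)) :=
  tendsto_id.prodMk_nhds tendsto_const_nhds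

theorem ulim {α β : Type} [TopologicalSpace β] {g : Ultrafilter α} {f : α → β} {K : Set β}
    (hK : IsCompact K) (h : ∀ᶠ t in g, f t ∈ K) : ∃ z, Tendsto f g (𝓝 z) := by
  obtain ⟨z, -, hz⟩ := hK.ultrafilter_le_nhds (g.map f) (le_principal_iff.2 h)
  exact ⟨z, hz⟩

/-! ### The leaves -/

section

variable (hK : CptS) (hT : TetS) (hR : RadoS) (hL : LfS)

include hL in
theorem cont_nm {l : ℝ} (hl : l ∈ Ioo 0 π) (y : P2) :
    ContinuousAt (fun q : ℝ × P2 => |q.2.1| / aL q.1) (l, y) :=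
  ContinuousAt.div (by fun_prop) (ContinuousAt.comp (g := aL) (cont_aL hl) continuousAt_fst)
    (hL l hl).apos.ne'

include hL in
theorem cont_lo {l : ℝ} (hl : l ∈ Ioo 0 π) (y : P2) :
    ContinuousAt (fun q : ℝ × P2 => lo (aL q.1) q.2) (l, y) := by
  simp only [lo, mul_div_assoc]
  exact (continuousAt_const.mul (cont_nm hL hl y)).sub continuousAt_const

theorem cont_up (b : ℝ) : Continuous (up b) := by
  unfold up
  fun_prop

include hL in
theorem ev_rho {l : ℝ} (hl : l ∈ Ioo 0 π) {y : P2} (hy : y ∈ Rho (aL l) √2) :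
    ∀ᶠ q : ℝ × P2 in 𝓝 (l, y), q.2 ∈ Rho (aL q.1) √2 :=
  ((cont_nm hL hl y).add (g := fun q : ℝ × P2 => |q.2.2| / √2) (by fun_prop)).eventually_lt
    continuousAt_const hy

include hR hL in
theorem ev_lip {l : ℝ} (hl : l ∈ Ioo 0 π) {y : P2} (hy : y ∈ Rho (aL l) √2) :
    ∃ r > 0, ∃ L : ℝ≥0, ball y r ⊆ Rho (aL l) √2 ∧
      ∀ᶠ t in 𝓝 l, Sol (lf t) (ball y r) ∧ LipschitzOnWith L (lf t) (ball y r) := by
  obtain ⟨r, hr, hb⟩ := box (ev_rho hL hl hy)
  refine ⟨r, hr, (2 / aL l + 1 + 2 / √2).toNNReal, hb l (mem_ball_self hr), ?_⟩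
  filter_upwards [ball_mem_nhds l hr, Ioo_mem_nhds hl.1 hl.2,
    ((continuousAt_const (y := (2 : ℝ))).div (cont_aL hl) (hL l hl).apos.ne').eventually_lt
      continuousAt_const (lt_add_one _)] with t h1 h2 h3
  exact ⟨sol_mono (hL t h2).sol (hb t h1), ((hR.lip _ _ _ (hL t h2)).2.mono
    fun x hx => rho_sub _ _ (hb t h1 x hx)).weaken
      (Real.toNNReal_le_toNNReal (add_le_add_left (le_of_lt h3) _))⟩

include hK hT hR hL in
theorem ptw {l : ℝ} (hl : l ∈ Ioo 0 π) {y : P2} (hy : y ∈ Rho (aL l) √2) :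
    Tendsto (fun t => lf t y) (𝓝 l) (𝓝 (lf l y)) := by
  classical
  refine tendsto_iff_ultrafilter _ _ _ |>.2 fun g hg => ?_
  have bd : ∀ x ∈ Rho (aL l) √2, ∀ᶠ t in 𝓝 l, lo (aL t) x ≤ lf t x ∧ lf t x ≤ up √2 x :=
    fun x hx => by
      filter_upwards [Ioo_mem_nhds hl.1 hl.2, (tend_pair l x).eventually (ev_rho hL hl hx)]
        with t h1 h2
      exact ⟨(hL t h1).low x (rho_sub _ _ h2), (hL t h1).upp x (rho_sub _ _ h2)⟩
  have tl : ∀ x, Tendsto (fun t => lo (aL t) x) (𝓝 l) (𝓝 (lo (aL l) x)) := fun x => by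
    simpa only [Function.comp_def] using (cont_lo hL hl x).tendsto.comp (tend_pair l x)
  have ex : ∀ x, ∃ z, (x ∈ Rho (aL l) √2 → Tendsto (fun t => lf t x) g (𝓝 z)) ∧
      (x ∉ Rho (aL l) √2 → z = lo (aL l) x) := fun x => by
    by_cases hx : x ∈ Rho (aL l) √2
    · obtain ⟨z, hz⟩ := ulim (g := g) (f := fun t => lf t x)
        (isCompact_Icc (a := lo (aL l) x - 1) (b := up √2 x)) (hg (by
          filter_upwards [bd x hx, (tl x).eventually (lt_mem_nhds (sub_one_lt _))] with t h1 h2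
          exact ⟨h2.le.trans h1.1, h1.2⟩))
      exact ⟨z, fun _ => hz, fun h => (h hx).elim⟩
    · exact ⟨_, fun h => (hx h).elim, fun _ => rfl⟩
  choose w hw hw' using ex
  have low : ∀ x ∈ Rh (aL l) √2, lo (aL l) x ≤ w x ∧ w x ≤ up √2 x := fun x hx => by
    by_cases h : x ∈ Rho (aL l) √2
    · exact ⟨le_of_tendsto_of_tendsto ((tl x).mono_left hg) (hw x h)
        (hg ((bd x h).mono fun _ k => k.1)),
        le_of_tendsto (hw x h) (hg ((bd x h).mono fun _ k => k.2))⟩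
    · exact ⟨(hw' x h).ge, ((hw' x h).trans (lo_up hx h)).le⟩
  have sol : ∀ x ∈ Rho (aL l) √2, AnalyticAt ℝ w x ∧ gAt w x (w x) = 0 := fun x hx => by
    obtain ⟨r, hr, L, h1, h2⟩ := ev_lip hR hL hl hx
    have := (hK ℝ g lf w _ L inferInstance isOpen_ball (hg h2) fun x' hx' => hw x' (h1 hx')).1
    exact ⟨this.1 x (mem_ball_self hr), this.2 x (mem_ball_self hr)⟩
  have lf' : IsLeaf (aL l) √2 w := by
    refine ⟨(hL l hl).apos, (hL l hl).bpos, fun x hx => ?_, fun x hx => (low x hx).1,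
      fun x hx => (low x hx).2, fun x hx => (sol x hx).1, fun x hx => (sol x hx).2⟩
    by_cases h : x ∈ Rho (aL l) √2
    · exact (sol x h).1.continuousAt.continuousWithinAt
    · have c : Continuous (lo (aL l)) := by
        unfold lo
        fun_prop
      refine tendsto_of_tendsto_of_tendsto_of_le_of_le' (g := lo (aL l)) (h := up √2)
        ((c.tendsto' x _ (hw' x h).symm).mono_left nhdsWithin_le_nhds)
        (((cont_up _).tendsto' x _ ((hw' x h).trans (lo_up hx h)).symm).mono_left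
          nhdsWithin_le_nhds) ?_ ?_ <;> filter_upwards [self_mem_nhdsWithin] with z hz
      exacts [(low z hz).1, (low z hz).2]
  rw [hT.uniq _ _ _ _ (hL l hl) lf' (rho_sub _ _ hy)]
  exact hw y hy

include hK hT hR hL in
theorem int (l : ℝ) (hl : l ∈ Ioo 0 π) (y : P2) (hy : y ∈ Rho (aL l) √2) :
    ContinuousAt (fun q : ℝ × P2 => j2 (lf q.1) q.2) (l, y) := by
  obtain ⟨r, hr, L, h1, h2⟩ := ev_lip hR hL hl hy
  exact joint hK isOpen_ball h2 (fun x hx => ptw hK hT hR hL hl (h1 hx)) (mem_ball_self hr)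

include hK hT hR hL in
theorem clo : ContinuousOn (fun q : ℝ × P2 => lf q.1 q.2)
    {q | q.1 ∈ Ioo 0 π ∧ q.2 ∈ Rh (aL q.1) √2} := by
  rintro ⟨l, y⟩ ⟨hl, hy⟩
  by_cases h : y ∈ Rho (aL l) √2
  · exact (int hK hT hR hL l hl y h).fst.continuousWithinAt
  · have e := lo_up hy h
    have e1 : lo (aL l) y = lf l y := le_antisymm ((hL l hl).low y hy) (e ▸ (hL l hl).upp y hy)
    refine tendsto_of_tendsto_of_tendsto_of_le_of_le' (g := fun q : ℝ × P2 => lo (aL q.1) q.2)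
      (h := fun q : ℝ × P2 => up √2 q.2) ?_ ?_ ?_ ?_
    · exact (e1 ▸ (cont_lo hL hl y).tendsto :).mono_left nhdsWithin_le_nhds
    · exact (((cont_up _).comp continuous_snd).tendsto' _ _ (e.symm.trans e1)).mono_left
        nhdsWithin_le_nhds
    all_goals filter_upwards [self_mem_nhdsWithin] with q hq
    exacts [(hL _ hq.1).low _ hq.2, (hL _ hq.1).upp _ hq.2]

include hK hT hR hL in
/-- convergence of a second graph function at one point -/
theorem other {l : ℝ} (hl : l ∈ Ioo 0 π) {O : ℝ → Iso} (hO : Continuous fun q : ℝ × E4 => O q.1 q.2)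
    {ζ : ℝ → ℝ} {x : P2} {M : ℝ} {Q : Set P2} (hQ : IsClosed Q)
    (h : ∀ᶠ t in 𝓝 l, |ζ t| ≤ M ∧ ∃ ξ ∈ Rho (aL t) √2, ξ ∈ Q ∧
      gX O0 (lf t) ξ = O (hA (aL t)) (gn x (ζ t)))
    (hid : ∀ ξ ∈ Rh (aL l) √2, ξ ∈ Q → ∀ z, gX O0 (lf l) ξ = O (hA (aL l)) (gn x z) → z = ζ l) :
    Tendsto ζ (𝓝 l) (𝓝 (ζ l)) := by
  refine tendsto_iff_ultrafilter _ _ _ |>.2 fun g hg => ?_
  obtain ⟨z, hz⟩ := ulim (g := g) (f := ζ) (isCompact_Icc (a := -M) (b := M))
    (hg (h.mono fun _ k => abs_le.1 k.1))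
  obtain ⟨ξ, hξ⟩ := (h.mono fun _ k => k.2).choice
  have hI := Ioo_mem_nhds hl.1 hl.2
  obtain ⟨η, hη⟩ := ulim (g := g) (f := ξ) (isCompact_closedBall (0 : P2) (aL l + 2)) (hg (by
    filter_upwards [hξ, hI, (cont_aL hl).eventually_lt continuousAt_const (lt_add_one _)]
      with t h1 h2 h3
    have a := (hL t h2).apos
    have b := (hL t h2).bpos
    have k : |(ξ t).1| / aL t + |(ξ t).2| / √2 < 1 := h1.1
    have k1 : |(ξ t).1| / aL t < 1 := by linarith [div_nonneg (abs_nonneg (ξ t).2) b.le]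
    have k2 : |(ξ t).2| / √2 < 1 := by linarith [div_nonneg (abs_nonneg (ξ t).1) a.le]
    rw [div_lt_one a] at k1
    rw [div_lt_one b] at k2
    have : √2 < 2 := Real.sqrt_lt_self_iff.2 (by norm_num)
    simp only [mem_closedBall_zero_iff, Prod.norm_def, Real.norm_eq_abs, max_le_iff]
    constructor <;> linarith [(hL l hl).apos]))
  have hg' : Tendsto (fun t => t) (g : Filter ℝ) (𝓝 l) := hg
  have t1 : Tendsto (fun t => (t, ξ t)) (g : Filter ℝ) (𝓝 (l, η)) := hg'.prodMk_nhds hη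
  have m : η ∈ Rh (aL l) √2 := le_of_tendsto ((((cont_nm hL hl η).add
    (g := fun q : ℝ × P2 => |q.2.2| / √2) (by fun_prop)).tendsto).comp t1)
      ((hξ.filter_mono hg).mono fun _ k => rho_sub _ _ k.1)
  have t2 : Tendsto (fun t => lf t (ξ t)) g (𝓝 (lf l η)) := by
    simpa only [Function.comp_def] using (clo hK hT hR hL (l, η) ⟨hl, m⟩).tendsto.comp
      (tendsto_nhdsWithin_iff.2 ⟨t1, ((hξ.and hI).filter_mono hg).mono
        fun _ k => ⟨k.2, rho_sub _ _ k.1.1⟩⟩)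
  have t3 : Tendsto (fun t => gX O0 (lf t) (ξ t)) g (𝓝 (gX O0 (lf l) η)) :=
    by simpa only [Function.comp_def, gX] using (O0.continuous.tendsto _).comp (tend_gn hη t2)
  have t4 : Tendsto (fun t => O (hA (aL t)) (gn x (ζ t))) g (𝓝 (O (hA (aL l)) (gn x z))) :=
    tend_O hO ((cont_hA.tendsto _).comp ((cont_aL hl).tendsto.mono_left hg))
      (tend_gn tendsto_const_nhds hz)
  rw [← hid η m (hQ.mem_of_tendsto hη ((hξ.filter_mono hg).mono fun _ k => k.2.1)) z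
    (tendsto_nhds_unique_of_eventuallyEq t3 t4 ((hξ.filter_mono hg).mono fun _ k => k.2.2))]
  exact hz

/-! ### The edge extension -/

theorem edge_uniq {a b : ℝ} {u ζ ζ' : P2 → ℝ} {L L' : ℝ≥0} (h : EdgeExt a b u ζ L)
    (h' : EdgeExt a b u ζ' L') : EqOn ζ ζ' (HE a b) := by
  have neg : ∀ y ∈ HE a b, y.2 < 0 → ζ y = ζ' y := fun y hy h2 => by
    obtain ⟨x, hx, x1, x2, e, -⟩ := h.mem y hy h2
    exact (h'.conv x hx y hy _ e x1.le x2.le).2
  intro y hy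
  have o := h.odd y
  have o' := h'.odd y
  rcases lt_trichotomy y.2 0 with k | k | k
  · exact neg y hy k
  · rw [show (y.1, -y.2) = y from Prod.ext rfl (by simp [k])] at o o'
    linarith
  · have := neg (y.1, -y.2) ⟨hy.1, by simpa using hy.2⟩ (neg_neg_of_pos k)
    linarith

theorem ez_spec {l : ℝ} {ζ : P2 → ℝ} {L : ℝ≥0} (h : EdgeExt (aL l) √2 (lf l) ζ L) :
    ∃ L, EdgeExt (aL l) √2 (lf l) (ez l) L := by
  have h' : ∃ ζ, ∃ L, EdgeExt (aL l) √2 (lf l) ζ L := ⟨ζ, L, h⟩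
  rw [ez, dif_pos h']
  exact h'.choose_spec

include hL in
theorem ezs (hE : EdgeS) (l : ℝ) (hl : l ∈ Ioo 0 π) :
    (∃ L, EdgeExt (aL l) √2 (lf l) (ez l) L) ∧ ∀ s > 0, |d2 (ez l) (s, 0)| < 1 := by
  have a := (hL l hl).apos
  have b := (hL l hl).bpos
  obtain ⟨L, h⟩ := hE _ (lt_min a b)
  obtain ⟨ζ, h1, h2⟩ := h _ _ _ (min_le_left _ _) (min_le_right _ _) (hL l hl)
  obtain ⟨L', h3⟩ := ez_spec h1
  refine ⟨⟨L', h3⟩, fun s hs => ?_⟩
  have m : ((s, 0) : P2) ∈ HE (aL l) √2 := ⟨hs, by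
    simpa using half_pos (lt_min b (mul_pos a hs))⟩
  rw [d2, ← ((edge_uniq h1 h3).eventuallyEq_of_mem ((open_HE _ _).mem_nhds m)).fderiv_eq]
  exact (h2 s hs).1

include hL in
theorem ev_ez (hE : EdgeS) {l : ℝ} (hl : l ∈ Ioo 0 π) : ∃ L : ℝ≥0, ∀ᶠ t in 𝓝 l,
    (∃ L', EdgeExt (aL t) √2 (lf t) (ez t) L') ∧ LipschitzOnWith L (ez t) (HE (aL t) √2) := by
  have a := (hL l hl).apos
  obtain ⟨L, h⟩ := hE _ (lt_min (half_pos a) (hL l hl).bpos)
  refine ⟨L, ?_⟩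
  filter_upwards [Ioo_mem_nhds hl.1 hl.2, (cont_aL hl).eventually (lt_mem_nhds (half_lt_self a))]
    with t h1 h2
  obtain ⟨ζ, h3, -⟩ := h _ _ _ ((min_le_left _ _).trans h2.le) (min_le_right _ _) (hL t h1)
  obtain ⟨L', h4⟩ := ez_spec h3
  refine ⟨⟨L', h4⟩, fun x hx y hy => ?_⟩
  rw [← edge_uniq h3 h4 hx, ← edge_uniq h3 h4 hy]
  exact h3.lip hx hy

theorem ev_HE {l : ℝ} (hl : l ∈ Ioo 0 π) {y : P2} (hy : y ∈ HE (aL l) √2) :
    ∀ᶠ q : ℝ × P2 in 𝓝 (l, y), q.2 ∈ HE (aL q.1) √2 := by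
  have c : ContinuousAt (fun q : ℝ × P2 => aL q.1) (l, y) :=
    ContinuousAt.comp (g := aL) (cont_aL hl) continuousAt_fst
  exact (continuousAt_const.eventually_lt (g := fun q : ℝ × P2 => q.2.1) (by fun_prop) hy.1).and
    (ContinuousAt.eventually_lt (f := fun q : ℝ × P2 => |q.2.2|)
      (g := fun q : ℝ × P2 => min √2 (aL q.1 * q.2.1) / 2) (by fun_prop) (by fun_prop) hy.2)

theorem OG_apply (A B : ℝ) (w : E4) : OG A B w = !₂[
    w 0 * Real.cos B - (√2)⁻¹ * (w 2 + w 3) * Real.sin B,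
    w 0 * Real.sin B + (√2)⁻¹ * (w 2 + w 3) * Real.cos B,
    w 1 * Real.cos A - (√2)⁻¹ * (w 2 - w 3) * Real.sin A,
    w 1 * Real.sin A + (√2)⁻¹ * (w 2 - w 3) * Real.cos A] := by
  ext i
  fin_cases i <;> simp [OG, OQ, dg, mkO_apply, -mul_eq_mul_right_iff, -add_right_inj] <;> ring

theorem OP_apply (A : ℝ) (w : E4) : OP A w = !₂[w 1, w 2,
    w 0 * Real.cos A + w 3 * Real.sin A, w 0 * Real.sin A - w 3 * Real.cos A] := by
  ext i
  fin_cases i <;> simp [OP, mkO_apply]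
  ring

theorem cont4 {α : Type} [TopologicalSpace α] {a b c d : α → ℝ} (ha : Continuous a)
    (hb : Continuous b) (hc : Continuous c) (hd : Continuous d) :
    Continuous fun x => (!₂[a x, b x, c x, d x] : E4) :=
  (PiLp.continuous_toLp 2 _).comp (continuous_pi fun i => by fin_cases i <;> simpa)

theorem cont_OG (B : ℝ) : Continuous fun q : ℝ × E4 => OG q.1 B q.2 := by
  simp only [OG_apply]
  exact cont4 (by fun_prop) (by fun_prop) (by fun_prop) (by fun_prop)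

theorem cont_OP : Continuous fun q : ℝ × E4 => OP q.1 q.2 := by
  simp only [OP_apply]
  exact cont4 (by fun_prop) (by fun_prop) (by fun_prop) (by fun_prop)

include hT in
theorem face {a s t : ℝ} (ha : 0 < a)
    (h0 : 0 ≤ s * Real.sin (hA a) + t * Real.cos (hA a))
    (h : √2 * |s * Real.sin (hA a) + t * Real.cos (hA a)|
      = a * (s * Real.cos (hA a) - t * Real.sin (hA a))) : t = 0 := by
  obtain ⟨h1, h2, h3⟩ := hT.ang.1 a ha
  have c := Real.cos_pos_of_mem_Ioo ⟨by linarith, h2⟩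
  set A := hA a
  rw [abs_of_nonneg h0, ← h3, Real.tan_eq_sin_div_cos, mul_assoc,
    mul_right_inj' (by positivity), div_mul_eq_mul_div, eq_div_iff c.ne'] at h
  linear_combination h - t * Real.sin_sq_add_cos_sq A

include hK hT hR hL in
theorem ptw_ez (hE : EdgeS) {l : ℝ} (hl : l ∈ Ioo 0 π) {x : P2} (hx : x ∈ HE (aL l) √2) :
    Tendsto (fun t => ez t x) (𝓝 l) (𝓝 (ez l x)) := by
  obtain ⟨L, hz⟩ := ev_ez hL hE hl
  obtain ⟨L', h0⟩ := hz.self_of_nhds.1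
  have zero : ∀ s, ∀ᶠ t in 𝓝 l, ez t (s, 0) = 0 := fun s => hz.mono fun t ⟨⟨_, k⟩, _⟩ => by
    have := k.odd (s, 0)
    rw [neg_zero] at this
    linarith
  have neg : ∀ x ∈ HE (aL l) √2, x.2 < 0 → Tendsto (fun t => ez t x) (𝓝 l) (𝓝 (ez l x)) := by
    intro x hx h2
    refine other hK hT hR hL hl (O := fun A => OG A (hA √2)) (cont_OG _) (ζ := fun t => ez t x) (x := x)
      (M := L * dist x (x.1, 0)) (Q := {ξ | 0 ≤ ξ.1 ∧ 0 ≤ ξ.2})
      ((isClosed_le continuous_const continuous_fst).inter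
        (isClosed_le continuous_const continuous_snd)) ?_ fun ξ h3 h4 z e => ?_
    · filter_upwards [hz, zero x.1, (tend_pair l x).eventually (ev_HE hl hx)]
        with t ⟨⟨_, k⟩, k1⟩ k2 k3
      have := k1.dist_le_mul x k3 (x.1, 0) ⟨k3.1, by simpa using (abs_nonneg _).trans_lt k3.2⟩
      rw [k2, Real.dist_eq, sub_zero] at this
      obtain ⟨ξ, m, x1, x2, e, -⟩ := k.mem x k3 h2
      exact ⟨this, ξ, m, ⟨x1.le, x2.le⟩, e⟩
    · by_cases m : ξ ∈ Rho (aL l) √2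
      · exact (h0.conv ξ m x hx z e h4.1 h4.2).2
      exfalso
      have q : gX O0 (lf l) ξ ∈ Quad (aL l) √2 :=
        hT.quad _ _ _ (hL l hl) ▸ mem_image_of_mem _ ⟨h3, m⟩
      have r := (rho_pos ξ (lf l ξ)).le
      have c1 : 0 ≤ gX O0 (lf l) ξ 1 := by
        rw [gX, (hT.coord _ _).2.1]
        exact div_nonneg h4.2 r
      have c3 : 0 ≤ gX O0 (lf l) ξ 3 := by
        rw [gX, (hT.coord _ _).2.2.2]
        exact div_nonneg h4.1 r
      obtain ⟨-, q1, q2⟩ := q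
      rw [e, OG_apply] at c1 c3 q1 q2
      have f1 := face hT (hL l hl).apos c3 q1
      have f2 := face hT (hL l hl).bpos c1 q2
      have r' := (rho_pos x z).ne'
      simp [gn, ← mul_add, ← mul_sub, r'] at f1 f2
      linarith
  rcases lt_trichotomy x.2 0 with k | k | k
  · exact neg x hx k
  · rw [show x = (x.1, 0) from Prod.ext rfl k, (zero x.1).self_of_nhds]
    exact tendsto_const_nhds.congr' ((zero x.1).mono fun _ k => k.symm)
  · have := (neg (x.1, -x.2) ⟨hx.1, by simpa using hx.2⟩ (neg_neg_of_pos k)).neg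
    rw [h0.odd, neg_neg] at this
    exact this.congr' (hz.mono fun t ⟨⟨_, k⟩, _⟩ => by simp only [k.odd, neg_neg])

include hK hT hR hL in
theorem edge (hE : EdgeS) (l : ℝ) (hl : l ∈ Ioo 0 π) (y : P2) (hy : y ∈ HE (aL l) √2) :
    ContinuousAt (fun q : ℝ × P2 => j2 (ez q.1) q.2) (l, y) := by
  obtain ⟨L, hz⟩ := ev_ez hL hE hl
  obtain ⟨r, hr, hb⟩ := box (ev_HE hl hy)
  refine joint hK (L := L) isOpen_ball ?_ (fun x hx => ptw_ez hK hT hR hL hE hl
    (hb l (mem_ball_self hr) x hx)) (mem_ball_self hr)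
  filter_upwards [hz, ball_mem_nhds l hr] with t ⟨⟨_, k⟩, k1⟩ k2
  exact ⟨sol_mono k.sol (hb t k2), k1.mono (hb t k2)⟩

/-! ### The corner extension -/

include hK hT hR hL in
theorem ptw_pz {l δ : ℝ} (hl : l ∈ Ioo 0 π) {U : ℝ → P2 → ℝ} {L : ℝ≥0}
    (hU : ∀ᶠ t in 𝓝 l, PExt (aL t) (lf t) (U t) δ L) (hδ : 2 * δ ^ 2 ≤ aa (gX O0 (lf l) 0))
    {x : P2} (hx : x ∈ ball (0 : P2) δ) : Tendsto (fun t => U t x) (𝓝 l) (𝓝 (U l x)) := by
  have h0 := hU.self_of_nhds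
  have diag : ∀ s, ∀ᶠ t in 𝓝 l, U t (s, s) = 0 := fun s => hU.mono fun t k => by
    linarith [k.anti (s, s)]
  have pos : ∀ x ∈ ball (0 : P2) δ, |x.2| < x.1 → Tendsto (fun t => U t x) (𝓝 l) (𝓝 (U l x)) := by
    intro x hx h2
    refine other hK hT hR hL hl cont_OP (ζ := fun t => U t x) (x := x) (M := L * dist x (0, 0))
      (Q := {ξ | 0 ≤ ξ.1}) (isClosed_le continuous_const continuous_fst) ?_
      fun ξ h3 h4 z e => ?_
    · filter_upwards [hU, diag 0] with t k k2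
      have := k.lip.dist_le_mul x hx (0, 0) (mem_ball_self (pos_of_mem_ball hx))
      rw [k2, Real.dist_eq, sub_zero] at this
      obtain ⟨-, ξ, m, x1, e, -⟩ := k.mem x hx h2
      exact ⟨this, ξ, m, x1.le, e⟩
    have r := rho_pos x z
    have e0 : gX O0 (lf l) ξ 0 = (√(1 + x.1 ^ 2 + x.2 ^ 2 + z ^ 2))⁻¹ * x.1 := by
      simp [e, OP_apply, gn]
    have e1 : gX O0 (lf l) ξ 1 = (√(1 + x.1 ^ 2 + x.2 ^ 2 + z ^ 2))⁻¹ * x.2 := by
      simp [e, OP_apply, gn]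
    have m : ξ ∈ Rho (aL l) √2 := by
      by_contra m
      have q : gX O0 (lf l) ξ ∈ Quad (aL l) √2 :=
        hT.quad _ _ _ (hL l hl) ▸ mem_image_of_mem _ ⟨h3, m⟩
      have q2 := q.2.2
      rw [mul_right_inj' (by positivity), e0, e1, abs_mul, abs_of_pos (inv_pos.2 r),
        mul_right_inj' (inv_pos.2 r).ne'] at q2
      exact h2.ne q2
    refine (h0.conv ξ m x hx z e (lt_of_le_of_ne h4 fun k => ?_)).2
    have ax := (hR.axis _ _ _ (hL l hl) ξ m).2 k.symm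
    rw [aa, aa, e0, e1, mul_pow, mul_pow, inv_pow, Real.sq_sqrt (by positivity), ← mul_add,
      ← aa] at ax
    have n := mem_ball_zero_iff.1 hx
    rw [Prod.norm_def, max_lt_iff, Real.norm_eq_abs, Real.norm_eq_abs] at n
    have n1 := sq_lt_sq' (abs_lt.1 n.1).1 (abs_lt.1 n.1).2
    have n2 := sq_lt_sq' (abs_lt.1 n.2).1 (abs_lt.1 n.2).2
    have : (1 + x.1 ^ 2 + x.2 ^ 2 + z ^ 2)⁻¹ ≤ 1 :=
      inv_le_one_of_one_le₀ (by nlinarith [sq_nonneg x.1, sq_nonneg x.2, sq_nonneg z])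
    nlinarith [sq_nonneg x.1, sq_nonneg x.2]
  have ab : ∀ t, PExt (aL t) (lf t) (U t) δ L → U t x = U t (|x.1|, |x.2|) := fun t k => by
    have a := k.ev1 x
    have b := k.ev2 x
    have c := k.ev1 (x.1, -x.2)
    rcases le_total 0 x.1 with h1 | h1 <;> rcases le_total 0 x.2 with h2 | h2 <;>
      simp only [abs_of_nonneg, abs_of_nonpos, h1, h2] <;> linarith
  have n := mem_ball_zero_iff.1 hx
  rw [ab l h0]
  refine Tendsto.congr' (hU.mono fun t k => (ab t k).symm) ?_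
  rcases lt_trichotomy |x.2| |x.1| with k | k | k
  · exact pos _ (by simpa [Prod.norm_def] using n) (by simpa using k)
  · rw [k, (diag _).self_of_nhds]
    exact tendsto_const_nhds.congr' ((diag _).mono fun _ k => k.symm)
  · have := (pos (|x.2|, |x.1|) (by simpa [Prod.norm_def, and_comm] using n)
      (by simpa using k)).neg
    rw [← h0.anti (|x.2|, |x.1|)] at this
    exact this.congr' (hU.mono fun t k => (k.anti (|x.2|, |x.1|)).symm)

include hK hT hR hL in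
theorem cor (hP : PextS) (l : ℝ) (hl : l ∈ Ioo 0 π) : ∃ δ > 0, ∃ (U : ℝ → P2 → ℝ) (L : ℝ≥0),
    ball l δ ⊆ Ioo 0 π ∧ (∀ t ∈ ball l δ, PExt (aL t) (lf t) (U t) δ L) ∧
    ContinuousOn (fun q : ℝ × P2 => j2 (U q.1) q.2) (ball (l, 0) δ) := by
  have a := (hL l hl).apos
  have h0 := (hR.sign _ _ _ (hL l hl) 0 (zero_rho _ _)).1
  have c : Tendsto (fun t => aa (gX O0 (lf t) 0)) (𝓝 l) (𝓝 (aa (gX O0 (lf l) 0))) := by
    have c1 : Continuous aa := by
      unfold aa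
      fun_prop
    simpa only [Function.comp_def, gX] using (c1.tendsto _).comp ((O0.continuous.tendsto _).comp
      (tend_gn tendsto_const_nhds (ptw hK hT hR hL hl (zero_rho _ _))))
  set α := aa (gX O0 (lf l) 0)
  obtain ⟨ρ, hρ, L, h⟩ := hP.ex (1 - α / 2) (aL l / 2) (by linarith) (half_pos a)
  obtain ⟨r, hr, hb⟩ := Metric.eventually_nhds_iff_ball.1 ((isOpen_Ioo.eventually_mem hl).and
    (((cont_aL hl).eventually (lt_mem_nhds (half_lt_self a))).and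
      (c.eventually (lt_mem_nhds (half_lt_self h0)))))
  obtain ⟨δ, d0, d1, d2, d3, d4⟩ : ∃ δ > 0, δ ≤ r ∧ δ ≤ ρ ∧ δ ≤ 1 ∧ δ ≤ α / 4 :=
    ⟨min (min r ρ) (min 1 (α / 4)), by positivity, by simp, by simp, by simp, by simp⟩
  have hb' := fun t (ht : t ∈ ball l δ) => hb t (ball_subset_ball d1 ht)
  have ex : ∀ t, ∃ ζ, t ∈ ball l δ → PExt (aL t) (lf t) ζ δ L := fun t => by
    by_cases ht : t ∈ ball l δ
    · obtain ⟨k1, k2, k3⟩ := hb' t ht
      obtain ⟨ζ, hζ⟩ := h _ _ k2.le (hL t k1) (by linarith)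
      exact ⟨ζ, fun _ => hP.mono _ _ _ _ _ _ d2 hζ⟩
    · exact ⟨0, fun k => (ht k).elim⟩
  choose U hU using ex
  refine ⟨δ, d0, U, L, fun t ht => (hb' t ht).1, hU, ?_⟩
  rintro ⟨t, y⟩ hq
  rw [← ball_prod_same] at hq
  have ev : ∀ᶠ s in 𝓝 t, PExt (aL s) (lf s) (U s) δ L :=
    mem_of_superset (isOpen_ball.mem_nhds hq.1) hU
  exact (joint hK isOpen_ball (ev.mono fun _ k => ⟨k.sol, k.lip⟩) (fun x hx => ptw_pz hK hT hR hL
    (hb' t hq.1).1 ev (by nlinarith [(hb' t hq.1).2.2]) hx) hq.2).continuousWithinAt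

end

end EIc

open EIc in
theorem icS (hK : CptS) (hT : TetS) (hR : RadoS) (hE : EdgeS) (hP : PextS) (hL : LfS) : IcS where
  clo := clo hK hT hR hL
  int := int hK hT hR hL
  ezs := ezs hL hE
  edge := edge hK hT hR hL hE
  cor := cor hK hT hR hL hP

end Pool.Agent.Lib.MP_16d934_gt
end
end
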