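import Pool.Agent.Lib.MP_16d934_gt.Defs

-- part Pool.Agent.Lib.MP_16d934_gt.IDefs
section

/-! Internal definitions for the uniqueness of Lawson surfaces. -/

set_option autoImplicit false

open Set Metric Filter Topology MeasureTheory Asymptotics
open scoped ContDiff InnerProductSpace NNReal Real

noncomputable section

namespace Pool.Agent.Lib.MP_16d934_gt

/-- isometries of four-space -/
abbrev Iso : Type := E4 ≃ₗᵢ[ℝ] E4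

/-- standard basis vector -/
def ee (i : Fin 4) : E4 := EuclideanSpace.single i 1

/-- the isometry that sends the standard basis to an orthonormal family -/
def mkO (v : Fin 4 → E4) (h : Orthonormal ℝ v) : Iso :=
  ((basisOfOrthonormalOfCardEqFinrank h (by simp)).toOrthonormalBasis (by simpa using h)).repr.symm

theorem mkO_apply (v : Fin 4 → E4) (h : Orthonormal ℝ v) (x : E4) :
    mkO v h x = x 0 • v 0 + x 1 • v 1 + x 2 • v 2 + x 3 • v 3 := by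
  have := ((basisOfOrthonormalOfCardEqFinrank h (by simp)).toOrthonormalBasis
    (by simpa using h)).sum_repr_symm x
  rw [mkO, ← this, Fin.sum_univ_four]
  simp

theorem inner4 (x y : E4) : ⟪x, y⟫_ℝ = x 0 * y 0 + x 1 * y 1 + x 2 * y 2 + x 3 * y 3 := by
  simp [PiLp.inner_apply, Fin.sum_univ_four, mul_comm]

theorem ortho4 (v : Fin 4 → E4)
    (h : ∀ i j, v i 0 * v j 0 + v i 1 * v j 1 + v i 2 * v j 2 + v i 3 * v j 3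
      = if i = j then 1 else 0) : Orthonormal ℝ v :=
  orthonormal_iff_ite.2 fun i j => by rw [inner4, h]

theorem s2 : √2 * √2 = (2 : ℝ) := Real.mul_self_sqrt (by norm_num)

theorem h2 : (√2)⁻¹ * (√2)⁻¹ = (1 / 2 : ℝ) := by rw [← mul_inv, s2]; norm_num

/-- central frame of the tetrahedron -/
def O0 : Iso := mkO ![!₂[(√2)⁻¹, 0, (√2)⁻¹, 0], !₂[0, 0, 0, 1], !₂[0, 1, 0, 0],
  !₂[-(√2)⁻¹, 0, (√2)⁻¹, 0]] (ortho4 _ fun i j => by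
    fin_cases i <;> fin_cases j <;> simp <;> linarith [h2])

/-- rotation by `θ` in the first and by `φ` in the second plane -/
def rot (θ φ : ℝ) : Iso := mkO ![!₂[Real.cos θ, Real.sin θ, 0, 0],
  !₂[-Real.sin θ, Real.cos θ, 0, 0], !₂[0, 0, Real.cos φ, Real.sin φ],
  !₂[0, 0, -Real.sin φ, Real.cos φ]] (ortho4 _ fun i j => by
    fin_cases i <;> fin_cases j <;> simp <;>
      nlinarith [Real.sin_sq_add_cos_sq θ, Real.sin_sq_add_cos_sq φ])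

/-- frame at the vertex `vQ B` with vertical direction along the circle through it -/
def OQ (A B : ℝ) : Iso := mkO ![!₂[Real.cos B, Real.sin B, 0, 0],
  !₂[0, 0, Real.cos A, Real.sin A], !₂[0, 0, -Real.sin A, Real.cos A],
  !₂[-Real.sin B, Real.cos B, 0, 0]] (ortho4 _ fun i j => by
    fin_cases i <;> fin_cases j <;> simp <;>
      nlinarith [Real.sin_sq_add_cos_sq A, Real.sin_sq_add_cos_sq B])

/-- the turn by 45 degrees in the last two coordinates -/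
def dg : Iso := mkO ![!₂[1, 0, 0, 0], !₂[0, 1, 0, 0], !₂[0, 0, (√2)⁻¹, (√2)⁻¹],
  !₂[0, 0, -(√2)⁻¹, (√2)⁻¹]] (ortho4 _ fun i j => by
    fin_cases i <;> fin_cases j <;> simp <;> linarith [h2])

/-- frame adapted to the edge from `vQ B` to `vP A` -/
def OG (A B : ℝ) : Iso := dg.trans (OQ A B)

/-- frame at the vertex `vP A` -/
def OP (A : ℝ) : Iso := mkO ![!₂[0, 0, Real.cos A, Real.sin A], !₂[1, 0, 0, 0],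
  !₂[0, 1, 0, 0], !₂[0, 0, Real.sin A, -Real.cos A]] (ortho4 _ fun i j => by
    fin_cases i <;> fin_cases j <;> simp <;> nlinarith [Real.sin_sq_add_cos_sq A])

/-- exchange of the two planes -/
def sw : Iso := mkO ![!₂[0, 0, 1, 0], !₂[0, 0, 0, 1], !₂[1, 0, 0, 0], !₂[0, 1, 0, 0]]
  (ortho4 _ fun i j => by fin_cases i <;> fin_cases j <;> simp)

/-- exchange of the first two coordinates -/
def sx : Iso := mkO ![!₂[0, 1, 0, 0], !₂[1, 0, 0, 0], !₂[0, 0, 1, 0], !₂[0, 0, 0, 1]]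
  (ortho4 _ fun i j => by fin_cases i <;> fin_cases j <;> simp)

/-- reflection of the coordinate 0 -/
def rf0 : Iso := mkO ![!₂[-1, 0, 0, 0], !₂[0, 1, 0, 0], !₂[0, 0, 1, 0], !₂[0, 0, 0, 1]]
  (ortho4 _ fun i j => by fin_cases i <;> fin_cases j <;> simp)

/-- reflection of the coordinate 1 -/
def rf1 : Iso := mkO ![!₂[1, 0, 0, 0], !₂[0, -1, 0, 0], !₂[0, 0, 1, 0], !₂[0, 0, 0, 1]]
  (ortho4 _ fun i j => by fin_cases i <;> fin_cases j <;> simp)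

/-- reflection of the coordinate 3 -/
def rf3 : Iso := mkO ![!₂[1, 0, 0, 0], !₂[0, 1, 0, 0], !₂[0, 0, 1, 0], !₂[0, 0, 0, -1]]
  (ortho4 _ fun i j => by fin_cases i <;> fin_cases j <;> simp)

/-! ### Gnomonic graphs -/

/-- the point with gnomonic coordinates `(y, z)` -/
def gn (y : P2) (z : ℝ) : E4 := (√(1 + y.1 ^ 2 + y.2 ^ 2 + z ^ 2))⁻¹ • !₂[1, y.1, y.2, z]

/-- upward unit normal of a gnomonic graph with height `z` and gradient `(p, q)` -/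
def nrm (y : P2) (z p q : ℝ) : E4 :=
  (√(1 + p ^ 2 + q ^ 2 + (z - y.1 * p - y.2 * q) ^ 2))⁻¹ • !₂[y.1 * p + y.2 * q - z, -p, -q, 1]

/-- graph of `u` in the frame `O` -/
def gX (O : Iso) (u : P2 → ℝ) (y : P2) : E4 := O (gn y (u y))

/-- unit normal of the graph of `u` in the frame `O` -/
def gN (O : Iso) (u : P2 → ℝ) (y : P2) : E4 := O (nrm y (u y) (d1 u y) (d2 u y))

/-- the minimal surface operator on a Hessian `(r, s, t)` -/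
def gOp (y : P2) (z p q r s t : ℝ) : ℝ :=
  ((1 + y.1 ^ 2 + y.2 ^ 2 + z ^ 2) * (1 + q ^ 2) - (y.2 + z * q) ^ 2) * r
    - 2 * ((1 + y.1 ^ 2 + y.2 ^ 2 + z ^ 2) * (p * q) - (y.1 + z * p) * (y.2 + z * q)) * s
    + ((1 + y.1 ^ 2 + y.2 ^ 2 + z ^ 2) * (1 + p ^ 2) - (y.1 + z * p) ^ 2) * t

/-- the operator on `u` at `y`, with the height `z` in the coefficients -/
def gAt (u : P2 → ℝ) (y : P2) (z : ℝ) : ℝ :=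
  gOp y z (d1 u y) (d2 u y) (d1 (d1 u) y) (d1 (d2 u) y) (d2 (d2 u) y)

/-- analytic solutions of the minimal surface equation -/
def Sol (u : P2 → ℝ) (U : Set P2) : Prop := AnalyticOnNhd ℝ u U ∧ ∀ y ∈ U, gAt u y (u y) = 0

/-- `S` is near `O e₀` the graph of `u`, tangent to the base -/
structure Chart (S : Set E4) (O : Iso) (δ : ℝ) (u : P2 → ℝ) : Prop where
  pos : 0 < δ
  sol : Sol u (ball 0 δ)
  zero : u 0 = 0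
  dzero : fderiv ℝ u 0 = 0
  rel : ∀ U ⊆ ball (0 : P2) δ, IsOpen U → ∃ V, IsOpen V ∧ gX O u '' U = S ∩ V

/-- `n` is a unit normal of `S` at `p` tangent to the sphere -/
def IsNor (S : Set E4) (p n : E4) : Prop :=
  ‖n‖ = 1 ∧ ⟪n, p⟫_ℝ = 0 ∧ (fun x => ⟪n, x⟫_ℝ) =o[𝓝[S] p] fun x => x - p

/-- a chosen unit normal -/
def nor (S : Set E4) (p : E4) : E4 := Classical.epsilon (IsNor S p)

/-- near `x₀` the function `w` has the harmonic leading term `Re (c z ^ m)` in the coordinate `T` -/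
def Lead (w : P2 → ℝ) (x₀ : P2) (T : ℂ →L[ℝ] P2) (m : ℕ) (c : ℂ) : Prop :=
  c ≠ 0 ∧ ∃ C δ : ℝ, 0 < δ ∧ ∀ z : ℂ, ‖z‖ < δ → DifferentiableAt ℝ w (x₀ + T z) ∧
    |w (x₀ + T z) - (c * z ^ m).re| ≤ C * ‖z‖ ^ (m + 1) ∧
    ∀ v : ℂ, |fderiv ℝ w (x₀ + T z) (T v) - (c * m * z ^ (m - 1) * v).re| ≤ C * ‖z‖ ^ m * ‖v‖

/-! ### Weak formulation -/

/-- dot product of the plane -/
def dot (a b : P2) : ℝ := a.1 * b.1 + a.2 * b.2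

/-- gradient -/
def grad (u : P2 → ℝ) (y : P2) : P2 := (d1 u y, d2 u y)

/-- area density -/
def FF (y : P2) (z : ℝ) (p : P2) : ℝ :=
  √(1 + p.1 ^ 2 + p.2 ^ 2 + (z - dot y p) ^ 2) / √(1 + y.1 ^ 2 + y.2 ^ 2 + z ^ 2) ^ 3

/-- derivative of the area density in the gradient -/
def FP (y : P2) (z : ℝ) (p : P2) : P2 :=
  (√(1 + p.1 ^ 2 + p.2 ^ 2 + (z - dot y p) ^ 2) * √(1 + y.1 ^ 2 + y.2 ^ 2 + z ^ 2) ^ 3)⁻¹ •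
    (p - (z - dot y p) • y)

/-- derivative of the area density in the height -/
def FZ (y : P2) (z : ℝ) (p : P2) : ℝ :=
  (z - dot y p) /
      (√(1 + p.1 ^ 2 + p.2 ^ 2 + (z - dot y p) ^ 2) * √(1 + y.1 ^ 2 + y.2 ^ 2 + z ^ 2) ^ 3)
    - 3 * z * √(1 + p.1 ^ 2 + p.2 ^ 2 + (z - dot y p) ^ 2) /
      √(1 + y.1 ^ 2 + y.2 ^ 2 + z ^ 2) ^ 5

/-- position, height, gradient -/
abbrev Q5 : Type := P2 × ℝ × P2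

/-- weak solutions of `div A = B` on `U`, with Lipschitz test functions -/
def WeakG (A : Q5 → P2) (B : Q5 → ℝ) (u : P2 → ℝ) (U : Set P2) : Prop :=
  ∀ (η : P2 → ℝ) (L : ℝ≥0), LipschitzWith L η → HasCompactSupport η → tsupport η ⊆ U →
    ∫ y, (dot (A (y, u y, grad u y)) (grad η y) + B (y, u y, grad u y) * η y) = 0

/-- weak solutions of the minimal surface equation -/
def Weak (u : P2 → ℝ) (U : Set P2) : Prop :=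
  WeakG (fun q => FP q.1 q.2.1 q.2.2) (fun q => FZ q.1 q.2.1 q.2.2) u U

/-- the compact set on which the structure conditions hold -/
def KS (M L : ℝ) : Set Q5 := {q | ‖q.1‖ ≤ 8 ∧ |q.2.1| ≤ M ∧ ‖q.2.2‖ ≤ L}

/-- structure conditions of a uniformly elliptic equation -/
structure Str (A : Q5 → P2) (B : Q5 → ℝ) (lam Lam M L : ℝ) : Prop where
  lipA : ∀ q ∈ KS M L, ∀ q' ∈ KS M L, ‖A q' - A q‖ ≤ Lam * ‖q' - q‖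
  lipB : ∀ q ∈ KS M L, ∀ q' ∈ KS M L, |B q' - B q| ≤ Lam * ‖q' - q‖
  bdA : ∀ q ∈ KS M L, ‖A q‖ ≤ Lam ∧ |B q| ≤ Lam
  mono : ∀ x z p p', (x, z, p) ∈ KS M L → (x, z, p') ∈ KS M L →
    lam * ‖p' - p‖ ^ 2 ≤ dot (A (x, z, p') - A (x, z, p)) (p' - p)
  taylor : ∃ A' : Q5 → Q5 →L[ℝ] P2, ∀ q ∈ KS M L, ‖A' q‖ ≤ Lam ∧
    (∀ ξ : P2, lam * ‖ξ‖ ^ 2 ≤ dot (A' q (0, 0, ξ)) ξ) ∧
    ∀ q' ∈ KS M L, ‖A q' - A q - A' q (q' - q)‖ ≤ Lam * ‖q' - q‖ ^ 2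

/-- vectors along a coordinate axis -/
def Axis (h : P2) : Prop := h.1 = 0 ∨ h.2 = 0

/-- periodic with period one in both variables -/
def Per (f : P2 → ℝ) : Prop := ∀ y : P2, f (y.1 + 1, y.2) = f y ∧ f (y.1, y.2 + 1) = f y

/-- the period cell -/
def cell : Set P2 := Ioc (-(1 / 2)) (1 / 2) ×ˢ Ioc (-(1 / 2)) (1 / 2)

/-- the characters of the torus -/
def ex (k : ℤ × ℤ) (y : P2) : ℂ := Complex.exp (2 * π * Complex.I * (k.1 * y.1 + k.2 * y.2))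

/-- Fourier coefficients -/
def fc (f : P2 → ℝ) (k : ℤ × ℤ) : ℂ := ∫ y in cell, (f y : ℂ) * ex (-k) y

/-- `f` is the sum of its Fourier series, whose coefficients have sum of norms at most `η` -/
def Wn (f : P2 → ℝ) (η : ℝ) : Prop :=
  Summable (fun k => ‖fc f k‖) ∧ ∑' k, ‖fc f k‖ ≤ η ∧
    ∀ y, HasSum (fun k => fc f k * ex k y) (f y : ℂ)

/-- parameters: base point, height, slope, scale -/
abbrev Par : Type := P2 × ℝ × P2 × ℝ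

/-- the argument of the area density after scaling and the change of variables
`x ↦ x + β x • l`; `b` and `g` stand for `β x` and its gradient -/
def tQ (a : Par) (l x : P2) (b : ℝ) (g : P2) (V : ℝ) (G : P2) : Q5 :=
  (a.1 + a.2.2.2 • (x + b • l), a.2.1 + a.2.2.2 * (dot a.2.2.1 (x + b • l) + V),
    a.2.2.1 + G - (dot l G / (1 + dot l g)) • g)

/-- transformed flux -/
def tA (a : Par) (l x : P2) (b : ℝ) (g : P2) (V : ℝ) (G : P2) : P2 :=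
  (1 + dot l g) • FP (tQ a l x b g V G).1 (tQ a l x b g V G).2.1 (tQ a l x b g V G).2.2
    - dot g (FP (tQ a l x b g V G).1 (tQ a l x b g V G).2.1 (tQ a l x b g V G).2.2) • l

/-- transformed source -/
def tB (a : Par) (l x : P2) (b : ℝ) (g : P2) (V : ℝ) (G : P2) : ℝ :=
  (1 + dot l g) * a.2.2.2 *
    FZ (tQ a l x b g V G).1 (tQ a l x b g V G).2.1 (tQ a l x b g V G).2.2

/-! ### Jets modulo the torus -/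

/-- first complex coordinate -/
def zc (x : E4) : ℂ := ⟨x 0, x 1⟩

/-- second complex coordinate -/
def wc (x : E4) : ℂ := ⟨x 2, x 3⟩

/-- squared modulus of the first complex coordinate -/
def aa (x : E4) : ℝ := x 0 ^ 2 + x 1 ^ 2

/-- radial normal component -/
def vv (x n : E4) : ℝ := x 0 * n 0 + x 1 * n 1

/-- normal component of the first rotation field -/
def u12 (x n : E4) : ℝ := x 0 * n 1 - x 1 * n 0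

/-- normal component of the second rotation field -/
def u34 (x n : E4) : ℝ := x 2 * n 3 - x 3 * n 2

/-- jets -/
abbrev J4 : Type := ℝ × ℝ × ℝ × ℝ

/-- the invariants of a contact element -/
def jet (x n : E4) : J4 := (aa x, |vv x n|, |u12 x n|, |u34 x n|)

/-- the space of jets away from the two circles -/
def JS : Set J4 := {j | 0 < j.1 ∧ j.1 < 1 ∧ 0 ≤ j.2.1 ∧ 0 ≤ j.2.2.1 ∧ 0 ≤ j.2.2.2 ∧
  j.2.1 ^ 2 / (j.1 * (1 - j.1)) + j.2.2.1 ^ 2 / j.1 + j.2.2.2 ^ 2 / (1 - j.1) = 1}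

/-- isometries that preserve both planes -/
def Gam (g : Iso) : Prop := ∀ x, aa (g x) = aa x

/-- frames centred on the circle `x₀ = x₁ = 0` and vertical along it -/
def CFr (O : Iso) : Prop := ∀ x, aa (O x) = x 1 ^ 2 + x 2 ^ 2

/-- toroidal coordinates -/
def pol (r φ θ : ℝ) : E4 :=
  !₂[Real.cos r * Real.cos θ, Real.cos r * Real.sin θ, Real.sin r * Real.cos φ,
    Real.sin r * Real.sin φ]

/-- radial graph -/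
def rX (ϱ : P2 → ℝ) (φ θ : ℝ) (x : P2) : E4 := pol (ϱ x) (φ + x.1) (θ + x.2)

/-- jet of a radial graph with value `r` and gradient `(p, q)` -/
def rj (r p q : ℝ) : J4 :=
  (Real.cos r ^ 2,
    Real.sin r * Real.cos r / √(1 + p ^ 2 / Real.sin r ^ 2 + q ^ 2 / Real.cos r ^ 2),
    |q| / √(1 + p ^ 2 / Real.sin r ^ 2 + q ^ 2 / Real.cos r ^ 2),
    |p| / √(1 + p ^ 2 / Real.sin r ^ 2 + q ^ 2 / Real.cos r ^ 2))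

/-- a continuous family of contact elements whose slice at `t₀` is a minimal immersion -/
structure Fam (t₀ δ : ℝ) (X N : ℝ × P2 → E4) (p n : E4) : Prop where
  pos : 0 < δ
  contX : ContinuousOn X (ball (t₀, 0) δ)
  contN : ContinuousOn N (ball (t₀, 0) δ)
  X0 : X (t₀, 0) = p
  N0 : N (t₀, 0) = n
  unit : ∀ q ∈ ball ((t₀, 0) : ℝ × P2) δ, ‖X q‖ = 1 ∧ ‖N q‖ = 1 ∧ ⟪N q, X q⟫_ℝ = 0
  ana : AnalyticAt ℝ (fun s => X (t₀, s)) 0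
  imm : Function.Injective (fderiv ℝ (fun s => X (t₀, s)) 0)
  minimal : ∀ᶠ s in 𝓝 (0 : P2), MinEq (fun s => X (t₀, s)) s ∧
    ⟪N (t₀, s), d1 (fun s => X (t₀, s)) s⟫_ℝ = 0 ∧ ⟪N (t₀, s), d2 (fun s => X (t₀, s)) s⟫_ℝ = 0

/-- a continuous family of graphs through a corner -/
structure PFam (c : ℝ → ℝ) (t₀ δ : ℝ) (U : ℝ → P2 → ℝ) : Prop where
  pos : 0 < δ
  sol : ∀ t ∈ ball t₀ δ, Sol (U t) (ball 0 δ)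
  cont : ContinuousOn (fun q : ℝ × P2 => (U q.1 q.2, d1 (U q.1) q.2, d2 (U q.1) q.2))
    (ball (t₀, 0) δ)
  zero : ∀ t ∈ ball t₀ δ, U t 0 = 0 ∧ fderiv ℝ (U t) 0 = 0
  hess : ∀ t ∈ ball t₀ δ, d1 (d1 (U t)) 0 = 2 * c t ∧ d1 (d2 (U t)) 0 = 0 ∧
    d2 (d2 (U t)) 0 = -(2 * c t)

/-! ### Plane topology -/

/-- `Y` embeds in the plane -/
def Planar {α : Type} [TopologicalSpace α] (Y : Set α) : Prop :=
  ∃ e : α → ℂ, ContinuousOn e Y ∧ InjOn e Y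

/-- point of the unit circle -/
def cis (φ : ℝ) : ℂ := Complex.exp (φ * Complex.I)

/-- three rays in the upper half disc on which `R ∘ κ` is alternately above and below its value
at the centre -/
def Rays {α : Type} (R : α → ℝ) (κ : ℂ → α) (δ : ℝ) : Prop :=
  ∃ β₁ β₂ β₃ ε : ℝ, 0 < β₁ ∧ β₁ < β₂ ∧ β₂ < β₃ ∧ β₃ < π ∧ (ε = 1 ∨ ε = -1) ∧
    ∀ s ∈ Ioc 0 δ, 0 < ε * (R (κ (s * cis β₁)) - R (κ 0)) ∧
      ε * (R (κ (s * cis β₂)) - R (κ 0)) < 0 ∧ 0 < ε * (R (κ (s * cis β₃)) - R (κ 0))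

/-- closed upper half disc -/
def Hd (δ : ℝ) : Set ℂ := {z | ‖z‖ ≤ δ ∧ 0 ≤ z.im}

/-- image of a radial segment -/
def spoke {α : Type} (κ : ℂ → α) (δ β : ℝ) : Set α := (fun s : ℝ => κ (s * cis β)) '' Icc 0 δ

end Pool.Agent.Lib.MP_16d934_gt
end
end

-- part Pool.Agent.Lib.MP_16d934_gt.StA
section

/-! Statements: regularity theory, local geometry, plane topology. -/

set_option autoImplicit false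

open Set Metric Filter Topology MeasureTheory Asymptotics
open scoped ContDiff InnerProductSpace NNReal Real

noncomputable section

namespace Pool.Agent.Lib.MP_16d934_gt

/-! ### Regularity -/

/-- Poincare inequality on a square annulus -/
def PoinS : Prop := ∃ C : ℝ, ∀ (f : P2 → ℝ) (L : ℝ≥0), LipschitzWith L f → ∀ (x : P2) (r : ℝ),
  0 < r → ∃ c : ℝ, ∫ y in ball x (2 * r) \ ball x r, (f y - c) ^ 2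
    ≤ C * r ^ 2 * ∫ y in ball x (2 * r) \ ball x r, ‖grad f y‖ ^ 2

/-- Morrey's growth lemma -/
def MorreyS : Prop := ∀ σ : ℝ, 0 < σ → σ ≤ 1 → ∃ C : ℝ, ∀ (f : P2 → ℝ) (L : ℝ≥0) (K : ℝ),
  LipschitzWith L f → 0 ≤ K →
  (∀ x ∈ ball (0 : P2) 6, ∀ r ∈ Ioc (0 : ℝ) (1 / 2),
    ∫ y in ball x r, ‖grad f y‖ ^ 2 ≤ K ^ 2 * r ^ (2 * σ)) →
  ∀ x ∈ ball (0 : P2) 6, ∀ x' ∈ ball (0 : P2) 6, |f x - f x'| ≤ C * K * ‖x - x'‖ ^ σ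

/-- the conclusion of the first regularity step -/
def Reg1 (u : P2 → ℝ) (σ C : ℝ) : Prop :=
  (∀ y ∈ ball (0 : P2) 6, DifferentiableAt ℝ u y) ∧
  (∀ y ∈ ball (0 : P2) 6, ∀ y' ∈ ball (0 : P2) 6, ‖grad u y - grad u y'‖ ≤ C * ‖y - y'‖ ^ σ) ∧
  ∀ h : P2, ‖h‖ ≤ 1 / 2 → ∫ y in ball (0 : P2) 5, ‖grad u (y + h) - grad u y‖ ^ 2 ≤ C * ‖h‖ ^ 2

/-- hole filling: Hoelder gradient -/
def HoleS : Prop := ∀ (lam Lam M : ℝ) (L : ℝ≥0), 0 < lam → ∃ σ C : ℝ, 0 < σ ∧ σ ≤ 1 ∧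
  ∀ A B u, Str A B lam Lam M L → LipschitzWith L u → (∀ y ∈ ball (0 : P2) 8, |u y| ≤ M) →
    WeakG A B u (ball 0 8) → Reg1 u σ C

/-- second differences of the gradient -/
def SecS : Prop := ∀ (lam Lam M : ℝ) (L : ℝ≥0) (σ C₀ : ℝ), 0 < lam → 0 < σ → σ ≤ 1 → ∃ C : ℝ,
  ∀ A B u, Str A B lam Lam M L → LipschitzWith L u → (∀ y ∈ ball (0 : P2) 8, |u y| ≤ M) →
    WeakG A B u (ball 0 8) → Reg1 u σ C₀ → ∀ h : P2, ‖h‖ ≤ 1 / 4 →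
      ∫ y in ball (0 : P2) 1, ‖grad u (y + h + h) - (2 : ℝ) • grad u (y + h) + grad u y‖ ^ 2
        ≤ C * ‖h‖ ^ (2 + σ)

/-- Bernstein's theorem with smallness -/
def FourS : Prop := ∀ C σ η : ℝ, 0 < σ → 0 < η → ∃ κ > 0, ∀ f : P2 → ℝ, Continuous f → Per f →
  (∀ y, |f y| ≤ κ) →
  (∀ h : P2, Axis h → ‖h‖ ≤ 1 / 16 →
    ∫ y in cell, (f (y + h + h) - 2 * f (y + h) + f y) ^ 2 ≤ C * ‖h‖ ^ (2 + σ)) → Wn f η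

/-- the argument after the change of variables `x ↦ x + β x • l` -/
def cQ (β : P2 → ℝ) (l : P2) (q : Q5) : Q5 :=
  (q.1 + β q.1 • l, q.2.1,
    q.2.2 - (dot l q.2.2 / (1 + dot l (grad β q.1))) • grad β q.1)

/-- change of variables in a weak equation -/
def ChgS : Prop := ∀ (A : Q5 → P2) (B : Q5 → ℝ) (u β : P2 → ℝ) (U : Set P2) (L K : ℝ≥0) (l : P2),
  IsOpen U → LipschitzWith L u → ContDiff ℝ 1 β → LipschitzWith K β → HasCompactSupport β →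
  tsupport β ⊆ U → (K : ℝ) * ‖l‖ < 1 → WeakG A B u U →
  WeakG (fun q => (1 + dot l (grad β q.1)) • A (cQ β l q) - dot (grad β q.1) (A (cQ β l q)) • l)
    (fun q => (1 + dot l (grad β q.1)) * B (cQ β l q)) (fun x => u (x + β x • l)) U

/-- parameters bounded by `R`, scale bounded by `η` -/
def ParB (R η : ℝ) (a : Par) : Prop := ‖a.1‖ ≤ R ∧ |a.2.1| ≤ R ∧ ‖a.2.2.1‖ ≤ R ∧ |a.2.2.2| ≤ η

/-- the transformed equations are uniformly elliptic -/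
def StrS : Prop := ∀ β : P2 → ℝ, ContDiff ℝ ∞ β → ∀ R M L : ℝ, ∃ lam Lam η : ℝ, 0 < lam ∧ 0 < η ∧
  ∀ (a : Par) (l : P2), ParB R 1 a → ‖l‖ ≤ η →
    Str (fun q => tA a l q.1 (β q.1) (grad β q.1) q.2.1 q.2.2)
      (fun q => tB a l q.1 (β q.1) (grad β q.1) q.2.1 q.2.2) lam Lam M L

/-- Fourier coefficient of the transformed equation -/
def eqn (a : Par) (l : P2) (X : P2 → P2) (β V : P2 → ℝ) (k : ℤ × ℤ) : ℂ :=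
  2 * π * Complex.I *
      (k.1 * fc (fun y => (tA a l (X y) (β y) (grad β y) (V y) (grad V y)).1) k
        + k.2 * fc (fun y => (tA a l (X y) (β y) (grad β y) (V y) (grad V y)).2) k)
    - fc (fun y => tB a l (X y) (β y) (grad β y) (V y) (grad V y)) k

/-- analytic dependence on the parameter in the Wiener algebra -/
def WienS : Prop := ∀ (X : P2 → P2) (β : P2 → ℝ) (η₀ R : ℝ) (N : ℕ),
  Wn (fun y => (X y).1) η₀ → Wn (fun y => (X y).2) η₀ → Wn β η₀ → Wn (d1 β) η₀ → Wn (d2 β) η₀ →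
  ∃ η > 0, ∃ C : ℝ, ∀ (a : Par) (V : P2 → P2 → ℝ) (δ : ℝ), ParB R η a → 0 < δ →
    (∀ l ∈ ball (0 : P2) δ, Differentiable ℝ (V l) ∧ Per (V l) ∧ V l (1 / 2, 1 / 2) = 0 ∧
      Wn (d1 (V l)) η ∧ Wn (d2 (V l)) η ∧
      ∀ k : ℤ × ℤ, k ≠ 0 → eqn a l X β (V l) k = eqn a 0 X β (V 0) k) →
    AnalyticAt ℝ (fun l => V l 0) 0 ∧
      ∀ k ≤ N, ‖iteratedFDeriv ℝ k (fun l => V l 0) 0‖ ≤ C

/-- Lipschitz weak solutions are analytic, with scale invariant estimates -/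
def RegS : Prop := ∀ (L : ℝ≥0) (R : ℝ) (N : ℕ), ∃ C : ℝ, ∀ (u : P2 → ℝ) (y₀ : P2) (ε : ℝ),
  0 < ε → ε ≤ 1 → ‖y₀‖ ≤ R → |u y₀| ≤ R → LipschitzOnWith L u (ball y₀ ε) → Weak u (ball y₀ ε) →
  AnalyticAt ℝ u y₀ ∧ ∀ k, 1 ≤ k → k ≤ N → ‖iteratedFDeriv ℝ k u y₀‖ ≤ C * ε / ε ^ k

/-- classical and weak solutions -/
def CWS : Prop := ∀ (u : P2 → ℝ) (U : Set P2), IsOpen U → ContDiffOn ℝ 2 u U →
  (Weak u U ↔ ∀ y ∈ U, gAt u y (u y) = 0)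

/-- reflection in the line orthogonal to `ν` -/
def rfl2 (ν y : P2) : P2 := y - (2 * dot y ν) • ν

/-- removal of a line of odd symmetry and of a point -/
def RemS : Prop :=
  (∀ (u : P2 → ℝ) (U : Set P2) (L : ℝ≥0) (ν : P2), IsOpen U → dot ν ν = 1 →
    (∀ y ∈ U, rfl2 ν y ∈ U ∧ u (rfl2 ν y) = -u y) → LipschitzOnWith L u U →
    Weak u (U ∩ {y | 0 < dot y ν}) → Weak u U) ∧
  ∀ (u : P2 → ℝ) (U : Set P2) (L : ℝ≥0) (y₀ : P2), IsOpen U → LipschitzOnWith L u U →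
    Weak u (U \ {y₀}) → Weak u U

/-- interpolation of derivatives -/
def IntS : Prop := ∀ N : ℕ, 2 ≤ N → ∃ C : ℝ, ∀ (f : P2 → ℝ) (y : P2) (h m M : ℝ), 0 < h →
  AnalyticOnNhd ℝ f (ball y h) → (∀ x ∈ ball y h, |f x| ≤ m) →
  (∀ x ∈ ball y h, ‖iteratedFDeriv ℝ N f x‖ ≤ M) →
  ∀ k ≤ 2, ‖iteratedFDeriv ℝ k f y‖ ≤ C * (m / h ^ k + M * h ^ (N - k))

/-- partial derivatives are bounded by total derivatives -/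
def DerS : Prop := ∀ (f : P2 → ℝ) (y : P2), AnalyticAt ℝ f y →
  AnalyticAt ℝ (d1 f) y ∧ AnalyticAt ℝ (d2 f) y ∧ d2 (d1 f) y = d1 (d2 f) y ∧
  |d1 f y| ≤ ‖iteratedFDeriv ℝ 1 f y‖ ∧ |d2 f y| ≤ ‖iteratedFDeriv ℝ 1 f y‖ ∧
  |d1 (d1 f) y| ≤ ‖iteratedFDeriv ℝ 2 f y‖ ∧ |d1 (d2 f) y| ≤ ‖iteratedFDeriv ℝ 2 f y‖ ∧
  |d2 (d2 f) y| ≤ ‖iteratedFDeriv ℝ 2 f y‖ ∧
  (∀ v : P2, fderiv ℝ f y v = d1 f y * v.1 + d2 f y * v.2) ∧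
  ∀ v w : P2, fderiv ℝ (fderiv ℝ f) y v w
    = d1 (d1 f) y * v.1 * w.1 + d1 (d2 f) y * (v.1 * w.2 + v.2 * w.1) + d2 (d2 f) y * v.2 * w.2

/-- the jet of order two -/
def j2 (u : P2 → ℝ) (y : P2) : ℝ × ℝ × ℝ × ℝ × ℝ × ℝ :=
  (u y, d1 u y, d2 u y, d1 (d1 u) y, d1 (d2 u) y, d2 (d2 u) y)

/-- limits of uniformly Lipschitz solutions -/
def CptS : Prop := ∀ (ι : Type) (F : Filter ι) (u : ι → P2 → ℝ) (v : P2 → ℝ) (U : Set P2)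
  (L : ℝ≥0), F.NeBot → IsOpen U → (∀ᶠ i in F, Sol (u i) U ∧ LipschitzOnWith L (u i) U) →
  (∀ y ∈ U, Tendsto (fun i => u i y) F (𝓝 (v y))) →
  Sol v U ∧ TendstoLocallyUniformlyOn (fun i => j2 (u i)) (j2 v) F U

/-! ### Local geometry -/

/-- calculus of the minimal surface equation -/
structure MeqS : Prop where
  iso : ∀ (g : Iso) (X : P2 → E4) (y : P2), ContDiffAt ℝ 2 X y →
    (MinEq (fun x => g (X x)) y ↔ MinEq X y)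
  comp : ∀ (X : P2 → E4) (ψ : P2 → P2) (y : P2), ContDiffAt ℝ 2 ψ y → ContDiffAt ℝ 2 X (ψ y) →
    Function.Injective (fderiv ℝ ψ y) → (MinEq (fun x => X (ψ x)) y ↔ MinEq X (ψ y))
  graph : ∀ (O : Iso) (u : P2 → ℝ) (y : P2), ContDiffAt ℝ 2 u y →
    (MinEq (gX O u) y ↔ gAt u y (u y) = 0)
  normal : ∀ (O : Iso) (u : P2 → ℝ) (y : P2), DifferentiableAt ℝ u y →
    ‖gX O u y‖ = 1 ∧ ‖gN O u y‖ = 1 ∧ ⟪gN O u y, gX O u y⟫_ℝ = 0 ∧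
    ⟪gN O u y, d1 (gX O u) y⟫_ℝ = 0 ∧ ⟪gN O u y, d2 (gX O u) y⟫_ℝ = 0 ∧
    Function.Injective (fderiv ℝ (gX O u) y)
  ana : ∀ (O : Iso) (u : P2 → ℝ) (y : P2), AnalyticAt ℝ u y →
    AnalyticAt ℝ (gX O u) y ∧ AnalyticAt ℝ (gN O u) y
  ell : ∀ (y : P2) (z p q r s t : ℝ), (∀ ξ : P2, 0 ≤ r * ξ.1 ^ 2 + 2 * s * ξ.1 * ξ.2 + t * ξ.2 ^ 2) →
    0 ≤ gOp y z p q r s t ∧ (gOp y z p q r s t = 0 → r = 0 ∧ s = 0 ∧ t = 0)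
  uniq : ∀ p a b n n' : E4, LinearIndependent ℝ ![p, a, b] → ‖n‖ = 1 → ‖n'‖ = 1 →
    ⟪n, p⟫_ℝ = 0 → ⟪n, a⟫_ℝ = 0 → ⟪n, b⟫_ℝ = 0 → ⟪n', p⟫_ℝ = 0 → ⟪n', a⟫_ℝ = 0 → ⟪n', b⟫_ℝ = 0 →
    n' = n ∨ n' = -n
  frame : ∀ p n : E4, ‖p‖ = 1 → ‖n‖ = 1 → ⟪n, p⟫_ℝ = 0 → (∃ O : Iso, O (ee 0) = p ∧ O (ee 3) = n) ∧
    ∀ b : E4, ‖b‖ = 1 → ⟪b, p⟫_ℝ = 0 → ⟪b, n⟫_ℝ = 0 →
      ∃ O : Iso, O (ee 0) = p ∧ O (ee 2) = b ∧ O (ee 3) = n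

/-- over the open set `U` the graph of `u` is an open part of `S` -/
structure LChart (S : Set E4) (O : Iso) (U : Set P2) (u : P2 → ℝ) : Prop where
  isOpen : IsOpen U
  sol : Sol u U
  rel : ∀ U' ⊆ U, IsOpen U' → ∃ V, IsOpen V ∧ gX O u '' U' = S ∩ V

/-- charts and normals -/
structure ChartS : Prop where
  unit : ∀ S, IsMin S → ∀ p ∈ S, ‖p‖ = 1
  nor_spec : ∀ S, IsMin S → ∀ p ∈ S, IsNor S p (nor S p) ∧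
    ∀ n, IsNor S p n ↔ n = nor S p ∨ n = -nor S p
  lchart : ∀ S, IsMin S → ∀ (O : Iso) (y : P2) (z : ℝ) (n : E4), O (gn y z) ∈ S →
    IsNor S (O (gn y z)) n → ⟪n, O (ee 3)⟫_ℝ ≠ 0 →
    ∃ δ > 0, ∃ u, LChart S O (ball y δ) u ∧ u y = z
  chart : ∀ S, IsMin S → ∀ O : Iso, O (ee 0) ∈ S → IsNor S (O (ee 0)) (O (ee 3)) →
    ∃ δ u, Chart S O δ u
  facts : ∀ S O U u, LChart S O U u → ∀ y ∈ U, gX O u y ∈ S ∧ IsNor S (gX O u y) (gN O u y) ∧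
    map (gX O u) (𝓝 y) = 𝓝[S] (gX O u y)
  graph : ∀ (O : Iso) (u : P2 → ℝ) (U : Set P2), IsOpen U → Sol u U →
    IsMin (gX O u '' U) ∧ LChart (gX O u '' U) O U u
  loc : ∀ S S' : Set E4, IsMin S → (∀ p ∈ S', p ∈ S ∧ 𝓝[S'] p = 𝓝[S] p) → IsMin S'
  glue : ∀ S : Set E4, (∀ p ∈ S, ∃ S', IsMin S' ∧ p ∈ S' ∧ 𝓝[S'] p = 𝓝[S] p) → IsMin S
  cont : ∀ S, IsMin S → ∀ p ∈ S, ∃ N : E4 → E4, ContinuousWithinAt N S p ∧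
    ∀ᶠ x in 𝓝[S] p, IsNor S x (N x)

/-- parametrised pieces -/
structure ParamS : Prop where
  inS : ∀ S, IsMin S → ∀ (X : P2 → E4) (y : P2), ContDiffAt ℝ 2 X y →
    Function.Injective (fderiv ℝ X y) → (∀ᶠ s in 𝓝 y, X s ∈ S) →
    (∀ᶠ s in 𝓝 y, MinEq X s) ∧ map X (𝓝 y) = 𝓝[S] (X y) ∧
    ∀ n, IsNor S (X y) n ↔ ‖n‖ = 1 ∧ ⟪n, X y⟫_ℝ = 0 ∧ ⟪n, d1 X y⟫_ℝ = 0 ∧ ⟪n, d2 X y⟫_ℝ = 0
  toS : ∀ (X : P2 → E4) (y : P2), AnalyticAt ℝ X y → Function.Injective (fderiv ℝ X y) →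
    (∀ᶠ s in 𝓝 y, ‖X s‖ = 1 ∧ MinEq X s) →
    ∀ W ∈ 𝓝 y, ∃ U ⊆ W, y ∈ U ∧ Patch (X '' U) U X
  any : ∀ S, IsMin S → ∀ (Ξ : P2 × ℝ → E4) (q : P2 × ℝ) (n : E4), AnalyticAt ℝ Ξ q →
    Function.Injective (fderiv ℝ Ξ q) → (∀ᶠ s in 𝓝 q, ‖Ξ s‖ = 1) → Ξ q ∈ S → IsNor S (Ξ q) n →
    ⟪n, fderiv ℝ Ξ q (0, 1)⟫_ℝ ≠ 0 → ∃ f : P2 → ℝ, AnalyticAt ℝ f q.1 ∧ f q.1 = q.2 ∧
      ∀ᶠ s in 𝓝 q, (Ξ s ∈ S ↔ s.2 = f s.1)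

/-- the difference of two tangent minimal graphs has a harmonic leading term -/
def LeadS : Prop := ∀ (Ξ : P2 × ℝ → E4) (f g : P2 → ℝ) (x₀ : P2) (T : ℂ →L[ℝ] P2),
  AnalyticAt ℝ Ξ (x₀, f x₀) → Function.Injective (fderiv ℝ Ξ (x₀, f x₀)) →
  (∀ᶠ s in 𝓝 (x₀, f x₀), ‖Ξ s‖ = 1) → AnalyticAt ℝ f x₀ → AnalyticAt ℝ g x₀ → f x₀ = g x₀ →
  fderiv ℝ f x₀ = fderiv ℝ g x₀ → (∀ᶠ x in 𝓝 x₀, MinEq (fun x => Ξ (x, f x)) x) →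
  (∀ᶠ x in 𝓝 x₀, MinEq (fun x => Ξ (x, g x)) x) →
  (∀ v, ‖fderiv ℝ (fun x => Ξ (x, f x)) x₀ (T v)‖ = ‖v‖) →
  f =ᶠ[𝓝 x₀] g ∨ ∃ m c, 2 ≤ m ∧ Lead (fun x => f x - g x) x₀ T m c

/-- the standard identification of the complex plane with the parameter plane -/
def T0 : ℂ →L[ℝ] P2 := Complex.equivRealProdCLM.toContinuousLinearMap

/-- touching principles, unique continuation, barriers -/
structure TouchS : Prop where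
  pers : ∀ S S', IsMin S → IsMin S' → ∀ p ∈ S, p ∈ S' → 𝓝[S] p = 𝓝[S'] p ∨
    ∀ V ∈ 𝓝 p, ∃ ε > 0, ∀ g : E4 → E4, ContinuousOn g (S' ∩ V) →
      (∀ x ∈ S' ∩ V, ‖g x‖ = 1 ∧ ‖g x - x‖ < ε) → ∃ x ∈ S' ∩ V, g x ∈ S
  graph : ∀ (u v : P2 → ℝ) (U : Set P2), IsOpen U → Sol u U → Sol v U → ∀ y ∈ U, u y = v y →
    (∀ᶠ x in 𝓝 y, u x ≤ v x) → u =ᶠ[𝓝 y] v
  sphere : ∀ S, IsMin S → ∀ p ∈ S, ∀ v : E4, ⟪v, p⟫_ℝ = 0 → (∀ᶠ x in 𝓝[S] p, 0 ≤ ⟪v, x⟫_ℝ) →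
    ∀ᶠ x in 𝓝[S] p, ⟪v, x⟫_ℝ = 0
  cont : ∀ S S', IsMin S → IsMin S' → IsPreconnected S → S ∩ closure S' ⊆ S' →
    (∃ p ∈ S, ∀ᶠ x in 𝓝[S] p, x ∈ S') → S ⊆ S'
  geo : ∀ S, IsMin S → IsPreconnected S → ∀ v : E4,
    (∃ p ∈ S, ∀ᶠ x in 𝓝[S] p, ⟪v, x⟫_ℝ = 0) → ∀ x ∈ S, ⟪v, x⟫_ℝ = 0
  great : ∀ v : E4, v ≠ 0 → IsMin {x | ‖x‖ = 1 ∧ ⟪v, x⟫_ℝ = 0}
  lead : ∀ S O δ u, Chart S O δ u → u =ᶠ[𝓝 0] 0 ∨ ∃ m c, 2 ≤ m ∧ Lead u 0 T0 m c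
  bar : ∀ S, IsMin S → ∀ (O : Iso) (V : P2 → ℝ) (y : P2) (z ε : ℝ), (ε = 1 ∨ ε = -1) →
    ContDiffAt ℝ 2 V y → O (gn y z) ∈ S →
    (∀ᶠ q : P2 × ℝ in 𝓝 (y, z), O (gn q.1 q.2) ∈ S → ε * (q.2 - V q.1) ≤ ε * (z - V y)) →
    0 ≤ ε * gAt V y z

/-- persistence of zeros by winding numbers -/
def WindS : Prop :=
  (∀ (G : ℂ → ℂ) (r : ℝ) (c : ℂ) (k : ℕ), 0 < r → 1 ≤ k → ContinuousOn G (closedBall 0 r) →
    (∀ z ∈ sphere (0 : ℂ) r, ‖G z - c * z ^ k‖ < ‖c‖ * r ^ k) → ∃ z ∈ ball (0 : ℂ) r, G z = 0) ∧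
  ∀ (G : ℂ → ℂ) (r r' : ℝ) (c c' : ℂ) (k k' : ℕ), 0 < r → r < r' → k ≠ k' →
    ContinuousOn G (closedBall 0 r' \ ball 0 r) →
    (∀ z ∈ sphere (0 : ℂ) r, ‖G z - c * z ^ k‖ < ‖c‖ * r ^ k) →
    (∀ z ∈ sphere (0 : ℂ) r', ‖G z - c' * z ^ k'‖ < ‖c'‖ * r' ^ k') →
    ∃ z ∈ closedBall (0 : ℂ) r' \ ball 0 r, G z = 0

/-- invariance under isometries, algebra of jets -/
structure InvS : Prop where
  min : ∀ (g : Iso) (S : Set E4), IsMin S → IsMin (g '' S)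
  nor : ∀ (g : Iso) (S : Set E4) (p n : E4), IsNor S p n → IsNor (g '' S) (g p) (g n)
  betti : ∀ (g : Iso) (S : Set E4), betti1 (g '' S) = betti1 S
  neg : ∀ x n, jet x (-n) = jet x n
  gam : ∀ g : Iso, Gam g → Gam g.symm ∧ (∀ g' : Iso, Gam g' → Gam (g.trans g')) ∧
    ∀ x n, jet (g x) (g n) = jet x n
  gams : (∀ θ φ, Gam (rot θ φ)) ∧ Gam sx ∧ Gam rf0 ∧ Gam rf1 ∧ Gam rf3
  mem : ∀ x n : E4, ‖x‖ = 1 → ‖n‖ = 1 → ⟪n, x⟫_ℝ = 0 → 0 < aa x → aa x < 1 → jet x n ∈ JS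
  real : ∀ j ∈ JS, ∃ x n : E4, ‖x‖ = 1 ∧ ‖n‖ = 1 ∧ ⟪n, x⟫_ℝ = 0 ∧ jet x n = j
  trans : ∀ x n x' n' : E4, ‖x‖ = 1 → ‖n‖ = 1 → ⟪n, x⟫_ℝ = 0 → ‖x'‖ = 1 → ‖n'‖ = 1 →
    ⟪n', x'⟫_ℝ = 0 → 0 < aa x → aa x < 1 → jet x n = jet x' n' →
    ∃ g : Iso, Gam g ∧ g x = x' ∧ (g n = n' ∨ g n = -n')
  swap : ∀ x n : E4, ‖x‖ = 1 → ⟪n, x⟫_ℝ = 0 →
    jet (sw x) (sw n) = (1 - aa x, |vv x n|, |u34 x n|, |u12 x n|)
  rad : ∀ (ϱ : P2 → ℝ) (φ θ : ℝ) (x : P2) (n : E4), DifferentiableAt ℝ ϱ x → 0 < ϱ x →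
    ϱ x < π / 2 → Function.Injective (fderiv ℝ (rX ϱ φ θ) x) ∧ (‖n‖ = 1 →
    ⟪n, rX ϱ φ θ x⟫_ℝ = 0 → ⟪n, d1 (rX ϱ φ θ) x⟫_ℝ = 0 → ⟪n, d2 (rX ϱ φ θ) x⟫_ℝ = 0 →
    jet (rX ϱ φ θ x) n = rj (ϱ x) (d1 ϱ x) (d2 ϱ x))
  rjm : ∀ r p q : ℝ, 0 < r → r < π / 2 → rj r p q ∈ JS

/-- persistence of tangency modulo the torus -/
def PcS : Prop := ∀ (S : Set E4) (p n : E4) (t₀ δ : ℝ) (X N : ℝ × P2 → E4), IsMin S → p ∈ S →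
  IsNor S p n → 0 < aa p → aa p < 1 → (u34 p n ≠ 0 ∨ u12 p n ≠ 0) → Fam t₀ δ X N p n →
  (∀ᶠ s in 𝓝 (0 : P2), X (t₀, s) ∈ S) ∨ ∀ V ∈ 𝓝 p, ∀ᶠ t in 𝓝 t₀, ∃ s : P2,
    (t, s) ∈ ball ((t₀, 0) : ℝ × P2) δ ∧ X (t, s) ∈ V ∧ ∃ x ∈ S ∩ V,
      jet x (nor S x) = jet (X (t, s)) (N (t, s)) ∧
      (u34 p n ≠ 0 → ∃ φ, X (t, s) = rot 0 φ x ∧
        (N (t, s) = rot 0 φ (nor S x) ∨ N (t, s) = -rot 0 φ (nor S x))) ∧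
      (u34 p n = 0 → ∃ θ, X (t, s) = rot θ 0 x ∧
        (N (t, s) = rot θ 0 (nor S x) ∨ N (t, s) = -rot θ 0 (nor S x)))

/-- persistence of tangency at a corner -/
def PcpS : Prop := ∀ (S : Set E4) (O : Iso) (δ δ' t₀ : ℝ) (u : P2 → ℝ) (c : ℝ → ℝ)
  (U : ℝ → P2 → ℝ), IsMin S → CFr O → Chart S O δ u → PFam c t₀ δ' U →
  d1 (d1 u) 0 = 2 * c t₀ → d1 (d2 u) 0 = 0 → d2 (d2 u) 0 = -(2 * c t₀) →
  (∀ᶠ y in 𝓝 (0 : P2), gX O (U t₀) y ∈ S) ∨ ∀ η > 0, ∀ᶠ t in 𝓝 t₀, c t ≠ c t₀ →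
    ∃ y ∈ ball (0 : P2) (min η δ'), y ≠ 0 ∧ ∃ y' ∈ ball (0 : P2) (min η δ), y' ≠ 0 ∧
      jet (gX O u y') (gN O u y') = jet (gX O (U t) y) (gN O (U t) y)

/-! ### Plane topology -/

/-- no crossing lemmas -/
structure PlanS : Prop where
  int : ∀ (α : Type) [TopologicalSpace α] (Y : Set α) (κ : ℂ → α) (δ β₁ β₂ β₃ β₄ : ℝ)
    (A B : Set α), Planar Y → 0 < δ → ContinuousOn κ (closedBall 0 δ) → InjOn κ (closedBall 0 δ) →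
    MapsTo κ (closedBall 0 δ) Y → β₁ < β₂ → β₂ < β₃ → β₃ < β₄ → β₄ < β₁ + 2 * π →
    A ⊆ Y → B ⊆ Y → JoinedIn A (κ (δ * cis β₁)) (κ (δ * cis β₃)) →
    JoinedIn B (κ (δ * cis β₂)) (κ (δ * cis β₄)) → Disjoint A B →
    Disjoint A (spoke κ δ β₂) → Disjoint A (spoke κ δ β₄) →
    Disjoint B (spoke κ δ β₁) → Disjoint B (spoke κ δ β₃) → False
  bdry : ∀ (α : Type) [TopologicalSpace α] (Y : Set α) (κ : ℂ → α) (δ β₀ β₁ β₂ β₃ β₅ : ℝ)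
    (A B C : Set α) (b : α), Planar Y → 0 < δ → ContinuousOn κ (closedBall 0 δ) →
    InjOn κ (closedBall 0 δ) → (∀ s ∈ Icc 0 δ, ∀ β ∈ Icc β₀ β₅, κ (s * cis β) ∈ Y) →
    β₀ < β₁ → β₁ < β₂ → β₂ < β₃ → β₃ < β₅ → β₅ < β₀ + 2 * π → A ⊆ Y → B ⊆ Y → C ⊆ Y →
    JoinedIn A (κ (δ * cis β₁)) (κ (δ * cis β₃)) → JoinedIn B (κ (δ * cis β₂)) b →
    JoinedIn C b (κ (δ * cis β₀)) → JoinedIn C b (κ (δ * cis β₅)) →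
    Disjoint A B → Disjoint A C → Disjoint A (spoke κ δ β₀) → Disjoint A (spoke κ δ β₂) →
    Disjoint B (spoke κ δ β₁) → Disjoint B (spoke κ δ β₃) →
    (∀ s ∈ Icc 0 δ, ∀ β ∈ Icc β₁ β₃, κ (s * cis β) ∉ C) → False
  disc : ∀ (a b c d : ℝ) (A B : Set ℂ), a < b → b < c → c < d → d < a + 2 * π →
    A ⊆ closedBall 0 1 → B ⊆ closedBall 0 1 → JoinedIn A (cis a) (cis c) →
    JoinedIn B (cis b) (cis d) → Disjoint A B → False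
  one : ∀ Z : Set E4, IsCompact Z →
    (∀ p ∈ Z, ∃ c : ℝ → E4, c 0 = p ∧ ContinuousOn c (Icc (-1) 1) ∧ InjOn c (Icc (-1) 1) ∧
      MapsTo c (Icc (-1) 1) Z ∧ c '' Icc (-1) 1 ∈ 𝓝[Z] p) →
    ∀ c : ℝ → E4, ContinuousOn c (Icc (-1) 1) → InjOn c (Icc (-1) 1) → MapsTo c (Icc (-1) 1) Z →
      c '' Icc (-1) 1 ∈ 𝓝[Z] (c 0) → JoinedIn (Z \ {c 0}) (c 1) (c (-1))

/-- the final count on the disc -/
def CountS : Prop := ∀ (R : ℂ → ℝ) (Cr : Finset ℂ) (n : ℕ) (a : Fin (2 * n) → ℝ),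
  0 < n → Cr.card < n → ContinuousOn R (closedBall 0 1) →
  (∀ p ∈ closedBall (0 : ℂ) 1, p ≠ 0 → ∀ V ∈ 𝓝 p, ∃ x ∈ closedBall (0 : ℂ) 1 ∩ V, R p < R x) →
  (∀ p ∈ closedBall (0 : ℂ) 1, p ≠ 0 → p ∉ Cr →
    ∀ V ∈ 𝓝 p, ∃ x ∈ closedBall (0 : ℂ) 1 ∩ V, R x < R p) →
  StrictMono a → (∀ i j, a i < a j + 2 * π) →
  (∀ i, ∃ (κ : ℂ → ℂ) (δ : ℝ), 0 < δ ∧ ContinuousOn κ (Hd δ) ∧ InjOn κ (Hd δ) ∧
    MapsTo κ (Hd δ) (closedBall 0 1) ∧ κ 0 = cis (a i) ∧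
    (∀ s ∈ Icc (-δ) δ, ‖κ (s : ℝ)‖ = 1) ∧ Rays R κ δ) → False

end Pool.Agent.Lib.MP_16d934_gt
end
end

-- part Pool.Agent.Lib.MP_16d934_gt.IDefs2
section

/-! Internal definitions: leaves, the angle function, the symmetric surface. -/

set_option autoImplicit false

open Set Metric Filter Topology MeasureTheory Asymptotics
open scoped ContDiff InnerProductSpace NNReal Real

noncomputable section

namespace Pool.Agent.Lib.MP_16d934_gt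

/-! ### Leaves -/

/-- closed rhombus -/
def Rh (a b : ℝ) : Set P2 := {y | |y.1| / a + |y.2| / b ≤ 1}

/-- open rhombus -/
def Rho (a b : ℝ) : Set P2 := {y | |y.1| / a + |y.2| / b < 1}

/-- lower faces of the tetrahedron -/
def lo (a : ℝ) (y : P2) : ℝ := 2 * |y.1| / a - 1

/-- upper faces of the tetrahedron -/
def up (b : ℝ) (y : P2) : ℝ := 1 - 2 * |y.2| / b

/-- the minimal graph spanning the skew quadrilateral -/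
structure IsLeaf (a b : ℝ) (u : P2 → ℝ) : Prop where
  apos : 0 < a
  bpos : 0 < b
  cont : ContinuousOn u (Rh a b)
  low : ∀ y ∈ Rh a b, lo a y ≤ u y
  upp : ∀ y ∈ Rh a b, u y ≤ up b y
  sol : Sol u (Rho a b)

/-- half angle of a half diagonal -/
def hA (a : ℝ) : ℝ := Real.arctan (a / √2)

/-- half diagonal of an angle -/
def aL (l : ℝ) : ℝ := √2 * Real.tan (l / 2)

open Classical in
/-- the leaf with angles `l` and `π / 2` -/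
def lf (l : ℝ) : P2 → ℝ := if h : ∃ u, IsLeaf (aL l) √2 u then h.choose else 0

/-- the closed leaf -/
def leafSet (l : ℝ) : Set E4 := gX O0 (lf l) '' Rh (aL l) √2

/-- jet of a leaf -/
def lj (u : P2 → ℝ) (y : P2) : J4 := jet (gX O0 u y) (gN O0 u y)

/-- the jet `j` occurs on the closed leaf with angle `l` -/
def Att (l : ℝ) (j : J4) : Prop :=
  0 < j.1 ∧ j.1 < 1 ∧ j ∈ closure (lj (lf l) '' Rho (aL l) √2)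

/-- `S` contains an open piece of a leaf -/
def Coin (S : Set E4) : Prop :=
  ∃ l ∈ Ioo 0 π, ∃ g : Iso, Gam g ∧ ∃ V, IsOpen V ∧ V.Nonempty ∧ V ⊆ Rho (aL l) √2 ∧
    ∀ y ∈ V, g (gX O0 (lf l) y) ∈ S

/-- the domain of the edge chart -/
def HE (a b : ℝ) : Set P2 := {y | 0 < y.1 ∧ |y.2| < min b (a * y.1) / 2}

/-- the odd extension of a leaf across an edge -/
structure EdgeExt (a b : ℝ) (u ζ : P2 → ℝ) (L : ℝ≥0) : Prop where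
  sol : Sol ζ (HE a b)
  lip : LipschitzOnWith L ζ (HE a b)
  odd : ∀ y : P2, ζ (y.1, -y.2) = -ζ y
  mem : ∀ y ∈ HE a b, y.2 < 0 → ∃ x ∈ Rho a b, 0 < x.1 ∧ 0 < x.2 ∧
    gX O0 u x = gX (OG (hA a) (hA b)) ζ y ∧ gN O0 u x = gN (OG (hA a) (hA b)) ζ y
  conv : ∀ x ∈ Rho a b, ∀ y ∈ HE a b, ∀ z, gX O0 u x = OG (hA a) (hA b) (gn y z) →
    0 ≤ x.1 → 0 ≤ x.2 → y.2 < 0 ∧ z = ζ y

/-- the extension of a leaf around a vertex with a right angle -/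
structure PExt (a : ℝ) (u ζ : P2 → ℝ) (ρ : ℝ) (L : ℝ≥0) : Prop where
  sol : Sol ζ (ball 0 ρ)
  lip : LipschitzOnWith L ζ (ball 0 ρ)
  ev1 : ∀ y : P2, ζ (-y.1, y.2) = ζ y
  ev2 : ∀ y : P2, ζ (y.1, -y.2) = ζ y
  anti : ∀ y : P2, ζ (y.2, y.1) = -ζ y
  mem : ∀ y ∈ ball (0 : P2) ρ, |y.2| < y.1 → 0 < ζ y ∧ ∃ x ∈ Rho a √2, 0 < x.1 ∧
    gX O0 u x = gX (OP (hA a)) ζ y ∧ gN O0 u x = gN (OP (hA a)) ζ y
  conv : ∀ x ∈ Rho a √2, ∀ y ∈ ball (0 : P2) ρ, ∀ z, gX O0 u x = OP (hA a) (gn y z) →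
    0 < x.1 → |y.2| < y.1 ∧ z = ζ y

/-- open coordinate rectangle -/
def Box (w h : ℝ) : Set P2 := Ioo (-w) w ×ˢ Ioo (-h) h

/-- monotone minimal radial graph over a rectangle -/
structure Piece (ϱ : P2 → ℝ) (w h : ℝ) : Prop where
  wpos : 0 < w
  wlt : w < π / 2
  hpos : 0 < h
  hlt : h < π / 2
  ana : AnalyticOnNhd ℝ ϱ (Box w h)
  rng : ∀ x ∈ Box w h, 0 < ϱ x ∧ ϱ x < π / 2
  ev1 : ∀ x : P2, ϱ (-x.1, x.2) = ϱ x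
  ev2 : ∀ x : P2, ϱ (x.1, -x.2) = ϱ x
  m1 : ∀ x ∈ Box w h, 0 < x.1 → 0 < d1 ϱ x
  m2 : ∀ x ∈ Box w h, 0 < x.2 → d2 ϱ x < 0
  cvx : 0 < d1 (d1 ϱ) 0 ∧ d2 (d2 ϱ) 0 < 0
  minimal : ∀ φ θ, ∀ x ∈ Box w h, MinEq (rX ϱ φ θ) x
  limP : ∀ θ < h, ∀ η > 0, ∃ φ < w, ∀ x ∈ Box w h, φ < x.1 → |x.2| ≤ θ → π / 2 - η < ϱ x
  limQ : ∀ φ < w, ∀ η > 0, ∃ θ < h, ∀ x ∈ Box w h, θ < x.2 → |x.1| ≤ φ → ϱ x < η

/-- `ϱ` is the radial graph function of the leaf `u` -/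
structure LeafPiece (a b : ℝ) (u ϱ : P2 → ℝ) : Prop where
  piece : Piece ϱ (hA a) (hA b)
  mem : ∀ x ∈ Box (hA a) (hA b), ∃ y ∈ Rho a b, gX O0 u y = rX ϱ 0 0 x ∧
    lj u y = rj (ϱ x) (d1 ϱ x) (d2 ϱ x) ∧ (0 < x.1 ↔ 0 < y.1) ∧ (0 < x.2 ↔ 0 < y.2)
  conv : ∀ y ∈ Rho a b, ∃ x ∈ Box (hA a) (hA b), gX O0 u y = rX ϱ 0 0 x

open Classical in
/-- the angle of the leaf that has the jet `j` -/
def Lam (j : J4) : ℝ :=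
  if h : ∃ l ∈ Ioo 0 π, Att l j then h.choose else if j.2.2.2 = 0 then 0 else π

/-- global properties of the angle function -/
structure Spec1 (Λ : J4 → ℝ) : Prop where
  cont : ContinuousOn Λ JS
  rng : ∀ j ∈ JS, 0 ≤ Λ j ∧ Λ j ≤ π
  zero : ∀ j ∈ JS, (Λ j = 0 ↔ j.2.1 = 0 ∧ j.2.2.2 = 0)
  top : ∀ j ∈ JS, (Λ j = π ↔ j.2.1 = 0 ∧ j.2.2.1 = 0)
  nearQ : ∀ l ∈ Ioo 0 π, ∃ ρ > 0, ∀ j ∈ JS, 1 - j.1 < ρ → j.2.2.1 = 0 → l < Λ j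
  nearP : ∀ l ∈ Ioo 0 π, ∃ ρ > 0, ∀ j ∈ JS, j.1 < ρ → j.2.2.2 = 0 → Λ j < l
  upQ : ∀ l ∈ Ioo 0 π, ∀ κ < π / l - 1, ∃ C, ∃ ρ > 0, ∀ j ∈ JS, Λ j = l → 1 - j.1 < ρ →
    1 - j.2.2.1 ^ 2 / j.1 ≤ C * (1 - j.1) ^ κ
  loQ : ∀ l ∈ Ioo 0 π, ∀ κ > π / l - 1, ∃ C > 0, ∃ ρ > 0, ∀ j ∈ JS, Λ j = l → 1 - j.1 < ρ →
    C * (1 - j.1) ^ κ ≤ 1 - j.2.2.1 ^ 2 / j.1
  fam : ∀ p n : E4, ‖p‖ = 1 → ‖n‖ = 1 → ⟪n, p⟫_ℝ = 0 → 0 < aa p → aa p < 1 →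
    Λ (jet p n) ∈ Ioo 0 π → ∃ δ X N, Fam (Λ (jet p n)) δ X N p n ∧
      (∀ q ∈ ball ((Λ (jet p n), 0) : ℝ × P2) δ,
        jet (X q) (N q) ∈ JS ∧ Λ (jet (X q) (N q)) = q.1) ∧
      ∀ S : Set E4, (∀ᶠ s in 𝓝 (0 : P2), X (Λ (jet p n), s) ∈ S) → Coin S

/-- properties of the angle function near the corners -/
structure Spec2 (Λ : J4 → ℝ) (c : ℝ → ℝ) : Prop where
  cpos : ∀ l ∈ Ioo 0 π, 0 < c l
  canti : StrictAntiOn c (Ioo 0 π)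
  csurj : ∀ μ > 0, ∃ l ∈ Ioo 0 π, c l = μ
  slope : ∀ l ∈ Ioo 0 π, ∀ η > 0, ∃ ρ > 0, ∀ j ∈ JS, Λ j = l → j.1 < ρ →
    |(1 - j.2.2.2 ^ 2 / (1 - j.1)) / j.1 - 4 * c l ^ 2| ≤ η
  fam : ∀ l ∈ Ioo 0 π, ∃ δ U, PFam c l δ U ∧ ∀ O, CFr O →
    (∀ t ∈ ball l δ, ∀ y ∈ ball (0 : P2) δ, y ≠ 0 →
      jet (gX O (U t) y) (gN O (U t) y) ∈ JS ∧ Λ (jet (gX O (U t) y) (gN O (U t) y)) = t) ∧
    ∀ S : Set E4, (∀ᶠ y in 𝓝 (0 : P2), gX O (U l) y ∈ S) → Coin S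

/-- properties of the angle function near radial normals -/
def Spec3 (Λ : J4 → ℝ) : Prop :=
  ∀ r ∈ Ioo 0 (π / 2), ∃ ϱ : P2 → ℝ, AnalyticAt ℝ ϱ 0 ∧ ϱ 0 = r ∧ fderiv ℝ ϱ 0 = 0 ∧
    0 < d1 (d1 ϱ) 0 ∧ d1 (d2 ϱ) 0 = 0 ∧ d2 (d2 ϱ) 0 < 0 ∧
    (∀ φ θ, ∀ᶠ x in 𝓝 (0 : P2), MinEq (rX ϱ φ θ) x) ∧
    (∀ᶠ q : P2 × ℝ in 𝓝 (0, r),
      (ϱ q.1 < q.2 → Λ (rj q.2 (d1 ϱ q.1) (d2 ϱ q.1)) < Λ (rj r 0 0)) ∧
      (q.2 < ϱ q.1 → Λ (rj r 0 0) < Λ (rj q.2 (d1 ϱ q.1) (d2 ϱ q.1)))) ∧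
    ∀ (S : Set E4) (φ θ : ℝ), (∀ᶠ x in 𝓝 (0 : P2), rX ϱ φ θ x ∈ S) → Coin S

/-! ### The symmetric surface -/

/-- closed quarter -/
def Dq (S : Set E4) : Set E4 := {x | x ∈ S ∧ 0 ≤ x 0 ∧ 0 ≤ x 1}

/-- open quarter -/
def Do (S : Set E4) : Set E4 := {x | x ∈ S ∧ 0 < x 0 ∧ 0 < x 1}

/-- boundary of the quarter -/
def Bd (S : Set E4) : Set E4 := {x | x ∈ S ∧ 0 ≤ x 0 ∧ 0 ≤ x 1 ∧ (x 0 = 0 ∨ x 1 = 0)}

/-- the quarter without the two circles -/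
def Gd (S : Set E4) : Set E4 := {x | x ∈ Dq S ∧ 0 < aa x ∧ aa x < 1}

/-- closed minimal surface with two orthogonal reflections, not a great sphere -/
structure Sym (S : Set E4) : Prop where
  minimal : IsMin S
  cpt : IsCompact S
  conn : IsConnected S
  r0 : ∀ x ∈ S, rf0 x ∈ S
  r1 : ∀ x ∈ S, rf1 x ∈ S
  ngeo : ∀ v : E4, v ≠ 0 → ∃ x ∈ S, ⟪v, x⟫_ℝ ≠ 0

/-- type-0 symmetry in normal form -/
structure Sym1 (S : Set E4) : Prop extends Sym S where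
  planar : Planar {x | x ∈ S ∧ 0 ≤ x 0}
  oval : ∀ x ∈ S, x 0 = 0 → rf1 x ∈ connectedComponentIn (S ∩ {y | y 0 = 0}) x
  ne : ∃ x ∈ S, x 0 = 0

/-- the quarter is planar with one boundary curve -/
structure Sym2 (S : Set E4) : Prop extends Sym S where
  planar : Planar (Dq S)
  punct : ∀ p ∈ Bd S, IsPathConnected (Bd S \ {p})
  bconn : IsPathConnected (Bd S)
  corner : ∃ x ∈ S, x 0 = 0 ∧ x 1 = 0

/-- the quarter is a star-shaped graph with `2 n` corners -/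
structure Star (S : Set E4) (H : ℂ → E4) (n : ℕ) (t : ℤ → ℝ) : Prop where
  cont : ContinuousOn H (closedBall 0 1)
  inj : InjOn H (closedBall 0 1)
  img : H '' closedBall 0 1 = Dq S
  ray : ∀ z ∈ closedBall (0 : ℂ) 1, ∃ s : ℝ, 0 < s ∧ wc (H z) = s * z
  winj : InjOn wc (Dq S)
  bd : ∀ z ∈ closedBall (0 : ℂ) 1, (‖z‖ = 1 ↔ H z ∈ Bd S)
  npos : 0 < n
  mono : StrictMono t
  per : ∀ i, t (i + 2 * n) = t i + 2 * π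
  ev : ∀ i : ℤ, ∀ φ ∈ Icc (t (2 * i)) (t (2 * i + 1)), H (cis φ) 1 = 0
  od : ∀ i : ℤ, ∀ φ ∈ Icc (t (2 * i + 1)) (t (2 * i + 2)), H (cis φ) 0 = 0
  cor : ∀ φ, H (cis φ) 0 = 0 → H (cis φ) 1 = 0 → ∃ i, φ = t i
  cnt : (S ∩ {x | aa x = 0}).ncard = 2 * n

/-- critical points of the angle of the first coordinate, off the pole -/
def Crit (S : Set E4) : Set E4 :=
  {p | p ∈ Do S ∧ aa p < 1 ∧ vv p (nor S p) = 0 ∧ u34 p (nor S p) = 0}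

/-- the angle of the matching leaf -/
def RR (Λ : J4 → ℝ) (S : Set E4) (p : E4) : ℝ := Λ (jet p (nor S p))

/-- `R` takes values on both sides of `c` near `p` -/
def NonExt {α : Type} [TopologicalSpace α] (R : α → ℝ) (A : Set α) (p : α) (c : ℝ) : Prop :=
  ∀ V ∈ 𝓝 p, (∃ x ∈ A ∩ V, c < R x) ∧ ∃ x ∈ A ∩ V, R x < c

end Pool.Agent.Lib.MP_16d934_gt
end
end

-- part Pool.Agent.Lib.MP_16d934_gt.StB
section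

/-! Statements: the symmetric surface. -/

set_option autoImplicit false

open Set Metric Filter Topology MeasureTheory Asymptotics
open scoped ContDiff InnerProductSpace NNReal Real

noncomputable section

namespace Pool.Agent.Lib.MP_16d934_gt

/-- two piece property -/
def TwoS : Prop := ∀ S : Set E4, IsMin S → IsCompact S → ∀ v : E4,
  IsPreconnected (S ∩ {x | 0 < ⟪v, x⟫_ℝ})

/-- Betti numbers -/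
structure HomS : Prop where
  sph : ∀ v : E4, v ≠ 0 → betti1 {x | ‖x‖ = 1 ∧ ⟪v, x⟫_ℝ = 0} = 0
  star : ∀ S H n t, Star S H n t → (∀ x ∈ S, rf0 x ∈ S ∧ rf1 x ∈ S) →
    betti1 S + 2 = 2 * n ∨ betti1 S + 3 = 2 * n

/-- normal form of a type-0 symmetry -/
def NormS : Prop := ∀ (γ : ℕ) (S : Set E4) (τ ρ : Iso), 1 ≤ γ → ClosedMin γ S → Type0 S τ ρ →
  ∃ g : Iso, Sym1 (g '' S)

/-- even in the second variable -/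
def Ev2 (u : P2 → ℝ) (δ : ℝ) : Prop := ∀ y ∈ ball (0 : P2) δ, u (y.1, -y.2) = u y

/-- even in the first variable -/
def Ev1 (u : P2 → ℝ) (δ : ℝ) : Prop := ∀ y ∈ ball (0 : P2) δ, u (-y.1, y.2) = u y

/-- local structure along the mirrors -/
structure LocS : Prop where
  arc : ∀ S, Sym S → ∀ p ∈ S, p 1 = 0 → ∀ n, IsNor S p n → n 1 = 0 ∧ ∃ (O : Iso) (δ : ℝ)
    (u : P2 → ℝ), O (ee 0) = p ∧ O (ee 2) = ee 1 ∧ O (ee 3) = n ∧ Chart S O δ u ∧ Ev2 u δ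
  corner : ∀ S, Sym S → ∀ p ∈ S, p 0 = 0 → p 1 = 0 → ∀ n, IsNor S p n → ∃ (O : Iso) (δ : ℝ)
    (u : P2 → ℝ), O (ee 0) = p ∧ O (ee 1) = ee 0 ∧ O (ee 2) = ee 1 ∧ O (ee 3) = n ∧ CFr O ∧
      Chart S O δ u ∧ Ev1 u δ ∧ Ev2 u δ
  swap : ∀ S, (Sym S → Sym (sx '' S)) ∧ (Sym2 S → Sym2 (sx '' S)) ∧
    (∀ x, x ∈ sx '' S ↔ sx x ∈ S) ∧ Dq (sx '' S) = sx '' Dq S ∧ Do (sx '' S) = sx '' Do S ∧
    Bd (sx '' S) = sx '' Bd S ∧ Gd (sx '' S) = sx '' Gd S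
  jetg : ∀ (g : Iso) (S : Set E4), Gam g → IsMin S → ∀ p ∈ S,
    jet (g p) (nor (g '' S) (g p)) = jet p (nor S p)
  fold : ∀ S, Sym S → ∀ x ∈ S, ∃ x' ∈ Dq S, jet x' (nor S x') = jet x (nor S x) ∧
    x' 0 = |x 0| ∧ x' 1 = |x 1| ∧ x' 2 = x 2 ∧ x' 3 = x 3 ∧ ∀ p ∈ Dq S, ‖x' - p‖ ≤ ‖x - p‖
  lc : ∀ S, Sym S → ∀ p ∈ Dq S, ∀ V ∈ 𝓝 p, ∃ W ∈ 𝓝 p, W ⊆ V ∧ IsPathConnected (Do S ∩ W) ∧
    ∀ x ∈ Dq S ∩ W, IsPathConnected (insert x (Do S ∩ W))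
  one : ∀ S, Sym S → IsCompact (Dq S) ∧ IsCompact (Bd S) ∧ ∀ p ∈ Bd S, ∃ c : ℝ → E4, c 0 = p ∧
    ContinuousOn c (Icc (-1) 1) ∧ InjOn c (Icc (-1) 1) ∧ MapsTo c (Icc (-1) 1) (Bd S) ∧
    c '' Icc (-1) 1 ∈ 𝓝[Bd S] p
  lead : ∀ S, Sym S → ∀ O δ u, Chart S O δ u → ∃ m c, 2 ≤ m ∧ Lead u 0 T0 m c

/-- connectivity of the parts cut out of the quarter by a great sphere -/
structure QcS : Prop where
  pos : ∀ S, Sym S → ∀ v : E4, 0 ≤ v 0 → 0 ≤ v 1 → ∀ x ∈ Do S, ∀ y ∈ Do S, 0 < ⟪v, x⟫_ℝ →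
    0 < ⟪v, y⟫_ℝ → JoinedIn (Do S ∩ {z | 0 < ⟪v, z⟫_ℝ}) x y
  neg : ∀ S, Sym S → ∀ v : E4, 0 ≤ v 0 → 0 ≤ v 1 → ∀ x ∈ Do S, ⟪v, x⟫_ℝ < 0 →
    ∃ b ∈ Bd S, JoinedIn (Dq S ∩ {z | ⟪v, z⟫_ℝ < 0}) x b

/-- the boundary of the quarter is one curve -/
def OneS : Prop := ∀ S, Sym1 S → Sym2 S

/-- geometry of the quarter -/
structure GeoS : Prop where
  b4 : ∀ S, Sym2 S → ∀ p ∈ Do S, u12 p (nor S p) ≠ 0
  arc : ∀ S, Sym2 S → ∀ p ∈ S, p 1 = 0 → 0 < p 0 → ∃ (O : Iso) (δ : ℝ) (u : P2 → ℝ),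
    O (ee 0) = p ∧ O (ee 2) = ee 1 ∧ 0 < O (ee 3) 0 ∧ Chart S O δ u ∧ Ev2 u δ ∧ d1 (d1 u) 0 < 0
  corner : ∀ S, Sym2 S → ∀ p ∈ S, p 0 = 0 → p 1 = 0 → ∃ (O : Iso) (δ : ℝ) (u : P2 → ℝ),
    O (ee 0) = p ∧ O (ee 1) = ee 0 ∧ O (ee 2) = ee 1 ∧ CFr O ∧ Chart S O δ u ∧ Ev1 u δ ∧
    Ev2 u δ ∧ 0 < d1 (d1 u) 0 ∧ d1 (d2 u) 0 = 0 ∧ d2 (d2 u) 0 = -d1 (d1 u) 0
  bdv : ∀ S, Sym2 S → ∀ p ∈ Bd S, 0 < aa p →
    vv p (nor S p) ≠ 0 ∧ u12 p (nor S p) = 0 ∧ aa p < 1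

/-- local behaviour of the second complex coordinate -/
structure WlocS : Prop where
  int : ∀ S, Sym2 S → ∀ p ∈ Do S, ∀ V ∈ 𝓝 p, ∃ δ > 0, ∃ κ : ℂ → E4,
    ContinuousOn κ (ball (wc p) δ) ∧ κ (wc p) = p ∧
    (∀ ζ ∈ ball (wc p) δ, κ ζ ∈ Do S ∩ V ∧ wc (κ ζ) = ζ) ∧ κ '' ball (wc p) δ ∈ 𝓝[S] p
  bd : ∀ S, Sym2 S → ∀ p ∈ Bd S, wc p ≠ 0 ∧ ∀ V ∈ 𝓝 p, ∃ ε > 0, ∀ s ∈ Ioo (1 - ε) 1,
    ∃ x ∈ Do S ∩ V, wc x = (s : ℝ) * wc p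

/-- the quarter is a graph over a star-shaped domain -/
def GraphS : Prop := ∀ S, Sym2 S → InjOn wc (Dq S) ∧
  ∀ p ∈ Dq S, ∀ s ∈ Ico (0 : ℝ) 1, ∃ x ∈ Do S, wc x = (s : ℝ) * wc p

/-- parametrisation of the quarter by the disc -/
def StarS : Prop := ∀ S, Sym2 S → ∃ H n t, Star S H n t

/-- the number of critical points -/
def CritS : Prop := ∀ S H n t, Sym2 S → Star S H n t →
  ∃ F : Finset E4, F.card < n ∧ Crit S ⊆ F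

/-- the angle function at ordinary points -/
def OrdS : Prop := ∀ (S : Set E4) (Λ : J4 → ℝ), Sym2 S → Spec1 Λ → ¬ Coin S →
  ContinuousOn (RR Λ S) (Gd S) ∧
  (∀ p ∈ Gd S, 0 ≤ RR Λ S p ∧ RR Λ S p < π ∧ (RR Λ S p = 0 ↔ p ∈ Crit S)) ∧
  ∀ p ∈ Gd S, p ∉ Crit S → (u34 p (nor S p) ≠ 0 ∨ u12 p (nor S p) ≠ 0) →
    NonExt (RR Λ S) (Gd S) p (RR Λ S p)

/-- the angle function at the corners and at the pole -/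
structure EndS : Prop where
  corner : ∀ (S : Set E4) (Λ : J4 → ℝ) (c : ℝ → ℝ), Sym2 S → Spec1 Λ → Spec2 Λ c → ¬ Coin S →
    ∀ p ∈ S, p 0 = 0 → p 1 = 0 → ∃ l, Tendsto (RR Λ S) (𝓝[Gd S] p) (𝓝 l) ∧
      NonExt (RR Λ S) (Gd S) p l
  pole : ∀ (S : Set E4) (Λ : J4 → ℝ), Sym2 S → Spec1 Λ → ∀ q ∈ Do S, aa q = 1 →
    ∃ l, Tendsto (RR Λ S) (𝓝[Gd S] q) (𝓝 l)

/-- the angle function at the points with radial normal -/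
structure MidS : Prop where
  rays : ∀ (S : Set E4) (Λ : J4 → ℝ), Sym2 S → Spec3 Λ → ¬ Coin S → ∀ p ∈ Bd S, 0 < aa p →
    u34 p (nor S p) = 0 → ∃ (κ : ℂ → E4) (δ : ℝ), 0 < δ ∧ ContinuousOn κ (Hd δ) ∧
      InjOn κ (Hd δ) ∧ MapsTo κ (Hd δ) (Gd S) ∧ κ 0 = p ∧
      (∀ s ∈ Icc (-δ) δ, κ (s : ℝ) ∈ Bd S) ∧ Rays (RR Λ S) κ δ
  ex : ∀ S, Sym2 S → ∀ p ∈ Bd S, 0 < aa p → IsLocalMaxOn aa (Bd S) p → u34 p (nor S p) = 0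

/-- the surface contains a piece of a leaf -/
def CoinS : Prop := ∀ (S : Set E4) (Λ : J4 → ℝ) (c : ℝ → ℝ), Sym2 S → Spec1 Λ → Spec2 Λ c →
  Spec3 Λ → Coin S

end Pool.Agent.Lib.MP_16d934_gt
end
end

-- part Pool.Agent.Lib.MP_16d934_gt.StC
section

/-! Statements: the leaves and the angle function. -/

set_option autoImplicit false

open Set Metric Filter Topology MeasureTheory Asymptotics
open scoped ContDiff InnerProductSpace NNReal Real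

noncomputable section

namespace Pool.Agent.Lib.MP_16d934_gt

/-! ### Existence of leaves -/

/-- area of a graph over the rhombus -/
def area (a b : ℝ) (u : P2 → ℝ) : ℝ := ∫ y in Rho a b, FF y (u y) (grad u y)

/-- admissible functions -/
def Adm (a b : ℝ) (K : ℝ≥0) (u : P2 → ℝ) : Prop :=
  LipschitzWith K u ∧ ∀ y ∈ Rh a b \ Rho a b, u y = lo a y

/-- minimisers -/
def Minz (a b : ℝ) (K : ℝ≥0) (u : P2 → ℝ) : Prop :=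
  Adm a b K u ∧ ∀ v, Adm a b K v → area a b u ≤ area a b v

/-- saddle property with respect to all planes -/
def Saddle (a b : ℝ) (u : P2 → ℝ) : Prop :=
  ∀ (c : ℝ) (p : P2) (ε : ℝ), (ε = 1 ∨ ε = -1) → ∀ y ∈ Rh a b, 0 < ε * (u y - c - dot p y) →
    ∃ y' ∈ Rh a b \ Rho a b, JoinedIn (Rh a b ∩ {x | 0 < ε * (u x - c - dot p x)}) y y'

/-- existence of minimisers -/
def MinS : Prop := ∀ (a b : ℝ) (K : ℝ≥0), 0 < a → 0 < b → 2 / a + 2 / b ≤ K → ∃ u, Minz a b K u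

/-- cut and paste -/
def CutS : Prop := ∀ (a b : ℝ) (K : ℝ≥0) (u : P2 → ℝ), 0 < a → 0 < b → Minz a b K u → Saddle a b u

/-- von Neumann's lemma -/
def NeuS : Prop := ∀ (a b : ℝ) (u : P2 → ℝ), 0 < a → 0 < b → ContinuousOn u (Rh a b) →
  (∀ y ∈ Rh a b \ Rho a b, u y = lo a y) → Saddle a b u →
  (∀ y ∈ Rh a b, lo a y ≤ u y ∧ u y ≤ up b y) ∧
    LipschitzOnWith (2 / a + 2 / b).toNNReal u (Rh a b)

/-- existence of leaves -/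
def ExS : Prop := ∀ a b : ℝ, 0 < a → 0 < b → ∃ u, IsLeaf a b u

/-- the chosen leaves -/
def LfS : Prop := ∀ l ∈ Ioo 0 π, IsLeaf (aL l) √2 (lf l)

/-! ### The tetrahedron -/

/-- closed tetrahedron -/
def Tet (a b : ℝ) : Set E4 := {x | ‖x‖ = 1 ∧ √2 * |x 3| ≤ a * x 2 ∧ √2 * |x 1| ≤ b * x 0}

/-- open tetrahedron -/
def TetO (a b : ℝ) : Set E4 := {x | ‖x‖ = 1 ∧ √2 * |x 3| < a * x 2 ∧ √2 * |x 1| < b * x 0}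

/-- the skew quadrilateral -/
def Quad (a b : ℝ) : Set E4 := {x | ‖x‖ = 1 ∧ √2 * |x 3| = a * x 2 ∧ √2 * |x 1| = b * x 0}

/-- the dual graph -/
def du (u : P2 → ℝ) (y : P2) : ℝ := -u (y.2, y.1)

/-- normalising factor -/
def rho (y : P2) (z : ℝ) : ℝ := √(1 + y.1 ^ 2 + y.2 ^ 2 + z ^ 2)

/-- elementary facts, uniqueness, symmetry -/
structure TetS : Prop where
  coord : ∀ (y : P2) (z : ℝ), O0 (gn y z) 0 = (1 - z) / (√2 * rho y z) ∧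
    O0 (gn y z) 1 = y.2 / rho y z ∧ O0 (gn y z) 2 = (1 + z) / (√2 * rho y z) ∧
    O0 (gn y z) 3 = y.1 / rho y z
  inj : ∀ (O : Iso) (y y' : P2) (z z' : ℝ), O (gn y z) = O (gn y' z') → y = y' ∧ z = z'
  ang : (∀ a : ℝ, 0 < a → 0 < hA a ∧ hA a < π / 2 ∧ √2 * Real.tan (hA a) = a) ∧ hA √2 = π / 4 ∧
    ∀ l ∈ Ioo 0 π, 0 < aL l ∧ hA (aL l) = l / 2
  mem : ∀ a b : ℝ, 0 < a → 0 < b → ∀ x, x ∈ Tet a b ↔
    ∃ y ∈ Rh a b, ∃ z, lo a y ≤ z ∧ z ≤ up b y ∧ x = O0 (gn y z)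
  arcs : ∀ a b : ℝ, 0 < a → 0 < b → Quad a b =
    arc (vP (hA a)) (vQ (hA b)) ∪ arc (vP (-hA a)) (vQ (hA b)) ∪
      arc (vP (-hA a)) (vQ (-hA b)) ∪ arc (vP (hA a)) (vQ (-hA b))
  law : ∀ γ : ℕ, 1 ≤ γ → tetra γ = Tet (aL (π / (γ + 1))) √2 ∧ quad γ = Quad (aL (π / (γ + 1))) √2
  quad : ∀ a b u, IsLeaf a b u → gX O0 u '' (Rh a b \ Rho a b) = Quad a b
  inner : ∀ a b u, IsLeaf a b u → ∀ y ∈ Rho a b,
    lo a y < u y ∧ u y < up b y ∧ gX O0 u y ∈ TetO a b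
  cpt : ∀ a b u, IsLeaf a b u → ContinuousOn (gX O0 u) (Rh a b) ∧ IsCompact (gX O0 u '' Rh a b) ∧
    closure (gX O0 u '' Rho a b) = gX O0 u '' Rh a b ∧ IsMin (gX O0 u '' Rho a b) ∧
    IsPreconnected (gX O0 u '' Rho a b) ∧ LChart (gX O0 u '' Rho a b) O0 (Rho a b) u
  uq : ∀ a b u, IsLeaf a b u → ∀ S, IsMin S → S ⊆ Tet a b → closure S ⊆ S ∪ Quad a b →
    S ⊆ gX O0 u '' Rh a b
  uniq : ∀ a b u v, IsLeaf a b u → IsLeaf a b v → EqOn u v (Rh a b)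
  ev : ∀ a b u, IsLeaf a b u → ∀ y ∈ Rh a b, u (-y.1, y.2) = u y ∧ u (y.1, -y.2) = u y
  evg : ∀ a b u, IsLeaf a b u → ∀ y ∈ Rho a b,
    gX O0 u (-y.1, y.2) = rf3 (gX O0 u y) ∧ gN O0 u (-y.1, y.2) = rf3 (gN O0 u y) ∧
    gX O0 u (y.1, -y.2) = rf1 (gX O0 u y) ∧ gN O0 u (y.1, -y.2) = rf1 (gN O0 u y)
  dual : (∀ a b u, IsLeaf a b u → IsLeaf b a (du u)) ∧ ∀ (u : P2 → ℝ) (y : P2),
    gX O0 (du u) y = sw (gX O0 u (y.2, y.1)) ∧ gN O0 (du u) y = -sw (gN O0 u (y.2, y.1))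
  neg : ∀ u U, Sol u U → Sol (fun y => -u y) U
  negg : ∀ (O : Iso) (u : P2 → ℝ) (y : P2), gX (rf3.trans O) (fun x => -u x) y = gX O u y ∧
    gN (rf3.trans O) (fun x => -u x) y = -gN O u y
  plane : ∀ (c : ℝ) (p : P2), Sol (fun y => c + dot p y) univ
  orth : ∀ R : P2 ≃L[ℝ] P2, (∀ x y, dot (R x) (R y) = dot x y) →
    (∀ u U, Sol u U → Sol (fun y => u (R y)) (R ⁻¹' U)) ∧ ∃ R' : Iso, R' (ee 0) = ee 0 ∧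
      R' (ee 3) = ee 3 ∧ (∀ y z, R' (gn y z) = gn (R y) z) ∧ ∀ (O : Iso) (u : P2 → ℝ) (y : P2),
        gX O u (R y) = gX (R'.trans O) (fun x => u (R x)) y ∧
        gN O u (R y) = gN (R'.trans O) (fun x => u (R x)) y

/-- Lawson's disc is a leaf -/
def LawS : Prop := ∀ γ : ℕ, 1 ≤ γ → ∀ M, LawsonDisc γ M ↔ M = leafSet (π / (γ + 1))

/-- a closed surface that contains a leaf is its orbit -/
def OrbS : Prop := ∀ S : Set E4, IsMin S → IsCompact S → IsConnected S → ∀ l ∈ Ioo 0 π,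
  leafSet l ⊆ S → ∃ γ : ℕ, 1 ≤ γ ∧ l = π / (γ + 1) ∧ {x | Orbit γ (leafSet l) x} = S ∧
    (S ∩ {x | aa x = 0}).ncard = 2 * (γ + 1)

/-! ### Geometry of a leaf -/

/-- Rado's theorem and monotonicity -/
structure RadoS : Prop where
  lip : ∀ a b u, IsLeaf a b u → Saddle a b u ∧ LipschitzOnWith (2 / a + 2 / b).toNNReal u (Rh a b)
  rado : ∀ a b u, IsLeaf a b u → ∀ y ∈ Rho a b, 0 < ⟪gN O0 u y, vP (hA a)⟫_ℝ ∧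
    0 < ⟪gN O0 u y, vP (-hA a)⟫_ℝ ∧ ⟪gN O0 u y, vQ (hA b)⟫_ℝ < 0 ∧ ⟪gN O0 u y, vQ (-hA b)⟫_ℝ < 0
  hess : ∀ a b u, IsLeaf a b u → ∀ y ∈ Rho a b,
    d1 (d1 u) y * d2 (d2 u) y < d1 (d2 u) y ^ 2
  mono : ∀ a b u, IsLeaf a b u → ∀ y ∈ Rho a b, (0 < d1 u y ↔ 0 < y.1) ∧ (d1 u y < 0 ↔ y.1 < 0) ∧
    (d2 u y < 0 ↔ 0 < y.2) ∧ (0 < d2 u y ↔ y.2 < 0)
  sign : ∀ a b u, IsLeaf a b u → ∀ y ∈ Rho a b, 0 < aa (gX O0 u y) ∧ aa (gX O0 u y) < 1 ∧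
    vv (gX O0 u y) (gN O0 u y) < 0 ∧
    (u34 (gX O0 u y) (gN O0 u y) < 0 ↔ 0 < y.1) ∧ (0 < u34 (gX O0 u y) (gN O0 u y) ↔ y.1 < 0) ∧
    (0 < u12 (gX O0 u y) (gN O0 u y) ↔ 0 < y.2) ∧ (u12 (gX O0 u y) (gN O0 u y) < 0 ↔ y.2 < 0)
  cone : ∀ a b u, IsLeaf a b u → ∀ y ∈ Rho a b,
    (0 ≤ y.2 → Real.sin (hA b) * √(aa (gN O0 u y)) ≤ ⟪gN O0 u y, vQ (hA b + π / 2)⟫_ℝ) ∧
    (0 ≤ y.1 → Real.sin (hA a) * √(1 - aa (gN O0 u y)) ≤ -⟪gN O0 u y, vP (hA a + π / 2)⟫_ℝ)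
  axis : ∀ a b u, IsLeaf a b u → ∀ y ∈ Rho a b,
    (y.2 = 0 → aa (gX O0 u y) ≤ aa (gX O0 u 0)) ∧ (y.1 = 0 → aa (gX O0 u 0) ≤ aa (gX O0 u y))

/-- extension across an edge -/
def EdgeS : Prop := ∀ a₀ > 0, ∃ L : ℝ≥0, ∀ a b u, a₀ ≤ a → a₀ ≤ b → IsLeaf a b u →
  ∃ ζ, EdgeExt a b u ζ L ∧ ∀ s > 0, |d2 ζ (s, 0)| < 1 ∧ 0 ≤ d1 (d2 ζ) (s, 0)

/-- the leaf is a monotone radial graph -/
def PieceS : Prop := ∀ a b u, IsLeaf a b u → ∃ ϱ, LeafPiece a b u ϱ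

/-- height below the faces through the vertices `vQ` -/
def hq (B : ℝ) (x : E4) : ℝ := Real.sin B * x 0 - Real.cos B * |x 1|

/-- height below the faces through the vertices `vP` -/
def hp (A : ℝ) (x : E4) : ℝ := Real.sin A * x 2 - Real.cos A * |x 3|

/-- barriers at the vertices `vQ` -/
structure QbarS : Prop where
  up : ∀ a b u, IsLeaf a b u → ∀ k < π / (2 * hA a), ∃ C, ∃ ρ > 0, ∀ y ∈ Rho a b,
    1 - aa (gX O0 u y) < ρ → hq (hA b) (gX O0 u y) ≤ C * (1 - aa (gX O0 u y)) ^ (k / 2)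
  lo : ∀ a b u, IsLeaf a b u → ∀ k > π / (2 * hA a), ∃ c > 0, ∃ ρ > 0, ∀ y ∈ Rho a b,
    1 - aa (gX O0 u y) < ρ →
      c * (1 - aa (gX O0 u y)) ^ ((k - 1) / 2) * hp (hA a) (gX O0 u y) ≤ hq (hA b) (gX O0 u y)

/-- decay of the normal at the vertices `vQ` -/
structure QdecS : Prop where
  up : ∀ a b u, IsLeaf a b u → ∀ κ < π / (2 * hA a) - 1, ∃ C, ∃ ρ > 0, ∀ y ∈ Rho a b,
    1 - aa (gX O0 u y) < ρ →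
      1 - u12 (gX O0 u y) (gN O0 u y) ^ 2 / aa (gX O0 u y) ≤ C * (1 - aa (gX O0 u y)) ^ κ
  lo : ∀ a b u, IsLeaf a b u → ∀ κ > π / (2 * hA a) - 1, ∃ C > 0, ∃ ρ > 0, ∀ y ∈ Rho a b,
    1 - aa (gX O0 u y) < ρ →
      C * (1 - aa (gX O0 u y)) ^ κ ≤ 1 - u12 (gX O0 u y) (gN O0 u y) ^ 2 / aa (gX O0 u y)

/-- lower bound for the normal component of the first rotation field -/
def PsiS : Prop := ∀ a b u, IsLeaf a b u → ∀ y ∈ Rho a b,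
  √(aa (gX O0 u y)) - √(aa (gX O0 u 0)) ≤ |u12 (gX O0 u y) (gN O0 u y)|

/-- open wedge -/
def Wd (A ρ : ℝ) : Set P2 := {y | |y.2| < Real.tan A * y.1 ∧ y.1 ^ 2 + y.2 ^ 2 < ρ ^ 2}

/-- wedge with its sides -/
def Wc (A ρ : ℝ) : Set P2 := {y | |y.2| ≤ Real.tan A * y.1 ∧ y.1 ^ 2 + y.2 ^ 2 < ρ ^ 2}

/-- the leaf as a graph over a wedge at the vertex `vQ` -/
structure WExt (a b : ℝ) (u ζ : P2 → ℝ) (ρ : ℝ) (L : ℝ≥0) : Prop where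
  sol : Sol ζ (Wd (hA a) ρ)
  lip : LipschitzOnWith L ζ (Wc (hA a) ρ)
  side : ∀ y ∈ Wc (hA a) ρ \ Wd (hA a) ρ, ζ y = 0
  ev : ∀ y : P2, ζ (y.1, -y.2) = ζ y
  mem : ∀ y ∈ Wd (hA a) ρ, ζ y < 0 ∧ ∃ x ∈ Rho a b, 0 < x.2 ∧
    gX O0 u x = gX (OQ 0 (hA b)) ζ y ∧ gN O0 u x = gN (OQ 0 (hA b)) ζ y
  conv : ∀ x ∈ Rho a b, 0 < x.2 → ∀ (y : P2) (z : ℝ), gX O0 u x = OQ 0 (hA b) (gn y z) →
    y.1 ^ 2 + y.2 ^ 2 < ρ ^ 2 → y ∈ Wd (hA a) ρ ∧ z = ζ y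

/-- existence of the wedge graph -/
def WedgeS : Prop := ∀ ρ μ b₀ : ℝ, 0 < ρ → μ < 1 / (1 + ρ ^ 2) → 0 < b₀ → ∃ L : ℝ≥0,
  ∀ a b u, b₀ ≤ b → IsLeaf a b u → aa (gX O0 u 0) ≤ μ → ∃ ζ, WExt a b u ζ ρ L

/-- barriers for thin and for flat leaves -/
structure BarS : Prop where
  thin : ∀ μ > 0, ∃ a₀ > 0, ∀ a u, a < a₀ → IsLeaf a √2 u → ∀ y ∈ Rh a √2, up √2 y - u y ≤ μ
  flat : ∀ μ > 0, ∃ a₁, ∀ a u, a₁ < a → IsLeaf a √2 u → ∀ y ∈ Rh a √2, gX O0 u y 2 ≤ μ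

/-- small heights give small slopes -/
def Lim0S : Prop := ∀ ε η b₀ : ℝ, 0 < ε → 0 < η → 0 < b₀ → ∃ μ > 0, ∀ a b u, b₀ ≤ b →
  IsLeaf a b u → aa (gX O0 u 0) ≤ μ → (∀ y ∈ Rho a b, hq (hA b) (gX O0 u y) ≤ μ) →
  ∀ y ∈ Rho a b, ε ≤ aa (gX O0 u y) → aa (gX O0 u y) ≤ 1 - ε →
    1 - u12 (gX O0 u y) (gN O0 u y) ^ 2 / aa (gX O0 u y) ≤ η ∧
    hq (hA b) (gX O0 u y) ≤ η * hp (hA a) (gX O0 u y)

/-- the ends of the family -/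
structure LimS : Prop where
  zero : ∀ ε η : ℝ, 0 < ε → 0 < η → ∃ l₀ > 0, ∀ l ∈ Ioo 0 π, l < l₀ → ∀ y ∈ Rho (aL l) √2,
    ε ≤ aa (gX O0 (lf l) y) → aa (gX O0 (lf l) y) ≤ 1 - ε →
      1 - u12 (gX O0 (lf l) y) (gN O0 (lf l) y) ^ 2 / aa (gX O0 (lf l) y) ≤ η ∧
      hq (π / 4) (gX O0 (lf l) y) ≤ η * hp (l / 2) (gX O0 (lf l) y)
  top : ∀ ε η : ℝ, 0 < ε → 0 < η → ∃ l₁ < π, ∀ l ∈ Ioo 0 π, l₁ < l → ∀ y ∈ Rho (aL l) √2,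
    ε ≤ aa (gX O0 (lf l) y) → aa (gX O0 (lf l) y) ≤ 1 - ε →
      1 - u34 (gX O0 (lf l) y) (gN O0 (lf l) y) ^ 2 / (1 - aa (gX O0 (lf l) y)) ≤ η

open Classical in
/-- the chosen edge extension -/
def ez (l : ℝ) : P2 → ℝ :=
  if h : ∃ ζ, ∃ L, EdgeExt (aL l) √2 (lf l) ζ L then h.choose else 0

open Classical in
/-- the chosen corner extension -/
def pz (l : ℝ) : P2 → ℝ :=
  if h : ∃ ζ, ∃ ρ > 0, ∃ L, PExt (aL l) (lf l) ζ ρ L then h.choose else 0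

/-- curvature at the corner -/
def cL (l : ℝ) : ℝ := d1 (d1 (pz l)) 0 / 2

/-- extension around the vertices `vP` -/
structure PextS : Prop where
  ex : ∀ μ a₀ : ℝ, μ < 1 → 0 < a₀ → ∃ ρ > 0, ∃ L : ℝ≥0, ∀ a u, a₀ ≤ a → IsLeaf a √2 u →
    1 - aa (gX O0 u 0) ≤ μ → ∃ ζ, PExt a u ζ ρ L
  hess : ∀ a u ζ ρ L, 0 < ρ → IsLeaf a √2 u → PExt a u ζ ρ L → ζ 0 = 0 ∧ fderiv ℝ ζ 0 = 0 ∧
    0 < d1 (d1 ζ) 0 ∧ d1 (d2 ζ) 0 = 0 ∧ d2 (d2 ζ) 0 = -d1 (d1 ζ) 0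
  uniq : ∀ a u ζ ρ L ζ' ρ' L', PExt a u ζ ρ L → PExt a u ζ' ρ' L' →
    EqOn ζ ζ' (ball 0 (min ρ ρ'))
  val : ∀ l ∈ Ioo 0 π, ∀ ζ ρ L, 0 < ρ → PExt (aL l) (lf l) ζ ρ L → d1 (d1 ζ) 0 = 2 * cL l
  mono : ∀ a u ζ ρ L ρ', ρ' ≤ ρ → PExt a u ζ ρ L → PExt a u ζ ρ' L

/-- the curvature at the corner takes small and large values -/
structure CcS : Prop where
  small : ∀ η > 0, ∃ l ∈ Ioo 0 π, cL l ≤ η
  large : ∀ μ : ℝ, ∃ l ∈ Ioo 0 π, μ ≤ cL l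

/-- continuity in the angle -/
structure IcS : Prop where
  clo : ContinuousOn (fun q : ℝ × P2 => lf q.1 q.2) {q | q.1 ∈ Ioo 0 π ∧ q.2 ∈ Rh (aL q.1) √2}
  int : ∀ l ∈ Ioo 0 π, ∀ y ∈ Rho (aL l) √2,
    ContinuousAt (fun q : ℝ × P2 => j2 (lf q.1) q.2) (l, y)
  ezs : ∀ l ∈ Ioo 0 π, (∃ L, EdgeExt (aL l) √2 (lf l) (ez l) L) ∧ ∀ s > 0, |d2 (ez l) (s, 0)| < 1
  edge : ∀ l ∈ Ioo 0 π, ∀ y ∈ HE (aL l) √2,
    ContinuousAt (fun q : ℝ × P2 => j2 (ez q.1) q.2) (l, y)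
  cor : ∀ l ∈ Ioo 0 π, ∃ δ > 0, ∃ (U : ℝ → P2 → ℝ) (L : ℝ≥0), ball l δ ⊆ Ioo 0 π ∧
    (∀ t ∈ ball l δ, PExt (aL t) (lf t) (U t) δ L) ∧
    ContinuousOn (fun q : ℝ × P2 => j2 (U q.1) q.2) (ball (l, 0) δ)

/-! ### Comparison of leaves -/

/-- every component of the set where one radial graph is below another reaches a source -/
def SrcS : Prop := ∀ (ϱ₁ ϱ₂ : P2 → ℝ) (w₁ h₁ w₂ h₂ d₁ d₂ e₁ e₂ : ℝ), Piece ϱ₁ w₁ h₁ →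
  Piece ϱ₂ w₂ h₂ → max d₁ d₂ = 0 → max e₁ e₂ = 0 → ∀ U : Set P2,
  U = {x | x ∈ Ioo 0 (min (d₁ + w₁) (d₂ + w₂)) ×ˢ Ioo 0 (min (e₁ + h₁) (e₂ + h₂)) ∧
    ϱ₁ (x.1 - d₁, x.2 - e₁) < ϱ₂ (x.1 - d₂, x.2 - e₂)} →
  ∀ x ∈ U, ∃ b : P2, JoinedIn (insert b U) x b ∧
    ((d₁ < 0 ∧ b.1 = 0 ∧ b.2 ∈ Ioo 0 (min (e₁ + h₁) (e₂ + h₂))) ∨
      (e₂ < 0 ∧ b.2 = 0 ∧ b.1 ∈ Ioo 0 (min (d₁ + w₁) (d₂ + w₂))) ∨
      (d₂ + w₂ < d₁ + w₁ ∧ b.1 = d₂ + w₂ ∧ b.2 ∈ Ioo 0 (min (e₁ + h₁) (e₂ + h₂))) ∨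
      (e₁ + h₁ < e₂ + h₂ ∧ b.2 = e₁ + h₁ ∧ b.1 ∈ Ioo 0 (min (d₁ + w₁) (d₂ + w₂))))

/-- no tangency of pieces with equal heights -/
def U1S : Prop := ∀ (ϱ₁ ϱ₂ : P2 → ℝ) (w₁ w₂ h : ℝ), Piece ϱ₁ w₁ h → Piece ϱ₂ w₂ h →
  ∀ x ∈ Box w₁ h, ∀ x' ∈ Box w₂ h, 0 < x.1 → 0 < x.2 → 0 < x'.1 → 0 < x'.2 → ϱ₁ x = ϱ₂ x' →
    d1 ϱ₁ x = d1 ϱ₂ x' → d2 ϱ₁ x = d2 ϱ₂ x' → w₁ = w₂ ∧ x = x'

/-- monotonicity of the centre and of the corner curvature -/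
structure AlignS : Prop where
  mid : StrictMonoOn (fun l => aa (gX O0 (lf l) 0)) (Ioo 0 π)
  cor : StrictAntiOn cL (Ioo 0 π)

/-- jet on the edge of a leaf -/
def ej (l s : ℝ) : J4 :=
  jet (gX (OG (l / 2) (π / 4)) (ez l) (s, 0)) (gN (OG (l / 2) (π / 4)) (ez l) (s, 0))

/-- jets of the open quarter of a leaf -/
def Inn (l : ℝ) (j : J4) : Prop := ∃ y ∈ Rho (aL l) √2, 0 < y.1 ∧ 0 < y.2 ∧ j = lj (lf l) y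

/-- a germ of an extended leaf -/
structure Germ (l : ℝ) (Y M : P2 → E4) : Prop where
  ana : AnalyticAt ℝ Y 0
  imm : Function.Injective (fderiv ℝ Y 0)
  geo : ∀ᶠ s in 𝓝 (0 : P2), ContinuousAt M s ∧ ‖Y s‖ = 1 ∧ ‖M s‖ = 1 ∧ ⟪M s, Y s⟫_ℝ = 0 ∧
    MinEq Y s ∧ ⟪M s, d1 Y s⟫_ℝ = 0 ∧ ⟪M s, d2 Y s⟫_ℝ = 0
  freq : ∃ᶠ s in 𝓝 (0 : P2), Inn l (jet (Y s) (M s))
  alt : ∀ᶠ s in 𝓝 (0 : P2), Inn l (jet (Y s) (M s)) ∨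
    (u34 (Y 0) (M 0) = 0 ∧ u34 (Y s) (M s) = 0 ∧ ∃ c : ℝ, 0 < c ∧ wc (Y s) = c * wc (Y 0)) ∨
    (u34 (Y 0) (M 0) ≠ 0 ∧ (u12 (Y s) (M s) = 0 ∨ vv (Y s) (M s) = 0) ∧
      ∃ c : ℝ, 0 < c ∧ zc (Y s) = c * zc (Y 0))

/-- the jets of the closed leaves -/
structure AttS : Prop where
  int : ∀ l ∈ Ioo 0 π, ∀ y ∈ Rho (aL l) √2, lj (lf l) y ∈ JS ∧ Att l (lj (lf l) y) ∧
    0 < (lj (lf l) y).2.1 ∧ ((lj (lf l) y).2.2.1 = 0 ↔ y.2 = 0) ∧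
    ((lj (lf l) y).2.2.2 = 0 ↔ y.1 = 0) ∧ lj (lf l) (|y.1|, |y.2|) = lj (lf l) y
  edge : ∀ l ∈ Ioo 0 π, ∀ s > 0, ej l s ∈ JS ∧ Att l (ej l s) ∧ (ej l s).2.1 = 0 ∧
    0 < (ej l s).2.2.1 ∧ 0 < (ej l s).2.2.2
  char : ∀ l ∈ Ioo 0 π, ∀ j, Att l j →
    (∃ y ∈ Rho (aL l) √2, 0 ≤ y.1 ∧ 0 ≤ y.2 ∧ j = lj (lf l) y) ∨ ∃ s > 0, j = ej l s
  cl : ∀ l ∈ Ioo 0 π, ∀ j : J4, 0 < j.1 → j.1 < 1 →
    (l, j) ∈ closure {q : ℝ × J4 | q.1 ∈ Ioo 0 π ∧ Att q.1 q.2} → Att l j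
  fam : ∀ l ∈ Ioo 0 π, ∀ p n : E4, ‖p‖ = 1 → ‖n‖ = 1 → ⟪n, p⟫_ℝ = 0 → Att l (jet p n) →
    ∃ δ X N, Fam l δ X N p n ∧
      (∀ q ∈ ball ((l, 0) : ℝ × P2) δ, q.1 ∈ Ioo 0 π ∧ Att q.1 (jet (X q) (N q))) ∧
      ∀ S : Set E4, (∀ᶠ s in 𝓝 (0 : P2), X (l, s) ∈ S) → Coin S
  germ : ∀ l ∈ Ioo 0 π, ∀ p n : E4, ‖p‖ = 1 → ‖n‖ = 1 → ⟪n, p⟫_ℝ = 0 → Att l (jet p n) →
    (u34 p n ≠ 0 ∨ u12 p n ≠ 0) → ∃ Y M, Y 0 = p ∧ M 0 = n ∧ Germ l Y M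

/-- different leaves have different jets -/
structure UaS : Prop where
  inn : ∀ l ∈ Ioo 0 π, ∀ l' ∈ Ioo 0 π, ∀ y ∈ Rho (aL l) √2, ∀ y' ∈ Rho (aL l') √2, 0 < y.1 →
    0 < y.2 → 0 < y'.1 → 0 < y'.2 → lj (lf l) y = lj (lf l') y' → l = l' ∧ y = y'
  att : ∀ l ∈ Ioo 0 π, ∀ l' ∈ Ioo 0 π, ∀ j, Att l j → Att l' j → l = l'

/-- all jets occur -/
def EaS : Prop := ∀ j ∈ JS, ¬ (j.2.1 = 0 ∧ j.2.2.2 = 0) → ¬ (j.2.1 = 0 ∧ j.2.2.1 = 0) →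
  ∃ l ∈ Ioo 0 π, Att l j

/-- the angle function has the global properties -/
def Sp1S : Prop := Spec1 Lam ∧ ∀ l ∈ Ioo 0 π, ∀ j, Att l j ↔ j ∈ JS ∧ Lam j = l

/-- the angle function near the corners -/
def Sp2S : Prop := Spec2 Lam cL

/-- the angle function near radial normals -/
def Sp3S : Prop := Spec3 Lam

end Pool.Agent.Lib.MP_16d934_gt
end
end
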