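import Pool.Agent.Lib.MP_16d934_gt.EMin
import Pool.Agent.Lib.MP_16d934_gt.ACW
import Pool.Agent.Lib.MP_16d934_gt.StC

-- part Pool.Agent.Lib.MP_16d934_gt.ECut
section

/-! Cut and paste with planes; existence of leaves. -/

set_option autoImplicit false

open Set Metric Filter Topology MeasureTheory
open scoped ContDiff NNReal Real

noncomputable section

namespace Pool.Agent.Lib.MP_16d934_gt

namespace ECut

/-- a segment that leaves a set meets its frontier -/
lemma seg_front {W : Set P2} {x y : P2} (hx : x ∈ W) (hy : y ∉ W) :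
    ∃ z ∈ segment ℝ x y, z ∈ frontier W := by
  by_contra hne
  push Not at hne
  have hsub : segment ℝ x y ⊆ interior W ∪ interior Wᶜ := by
    rw [← compl_frontier_eq_union_interior]
    exact hne
  have hd : Disjoint (interior W) (interior Wᶜ) :=
    disjoint_compl_right.mono interior_subset interior_subset
  rcases (convex_segment x y).isPreconnected.subset_or_subset isOpen_interior isOpen_interior hd
    hsub with h | h
  · exact hy (interior_subset (h (right_mem_segment ℝ x y)))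
  · exact interior_subset (h (left_mem_segment ℝ x y)) hx

open Classical in
/-- gluing of Lipschitz functions -/
lemma lip_pw {f g : P2 → ℝ} {K : ℝ≥0} {W : Set P2} (hf : LipschitzWith K f)
    (hg : LipschitzWith K g) (h : ∀ z ∈ frontier W, f z = g z) :
    LipschitzWith K (fun y => if y ∈ W then f y else g y) := by
  have key : ∀ x y, x ∈ W → y ∉ W → dist (f x) (g y) ≤ K * dist x y := by
    intro x y hx hy
    obtain ⟨z, hz, hz'⟩ := seg_front hx hy
    have h1 := hf.dist_le_mul x z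
    have h2 := hg.dist_le_mul z y
    have h3 := dist_triangle (f x) (f z) (g y)
    rw [← dist_add_dist_of_mem_segment hz, mul_add]
    rw [h z hz'] at h1 h3
    linarith
  refine LipschitzWith.of_dist_le_mul fun x y => ?_
  by_cases hx : x ∈ W <;> by_cases hy : y ∈ W <;> simp only [hx, hy, if_true, if_false]
  · exact hf.dist_le_mul x y
  · exact key x y hx hy
  · rw [dist_comm, dist_comm x y]
    exact key y x hy hx
  · exact hg.dist_le_mul x y

lemma lip_of_loc {h : P2 → ℝ} (hl : LocallyLipschitz h) (hc : HasCompactSupport h) :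
    ∃ L, LipschitzWith L h := by
  obtain ⟨R, hR0, hR⟩ := hc.isCompact.isBounded.subset_ball_lt 0 (0 : P2)
  obtain ⟨C, hC⟩ := hl.locallyLipschitzOn.exists_lipschitzOnWith_of_compact
    (isCompact_closedBall (0 : P2) R)
  obtain ⟨g, hg, he⟩ := hC.extend_real
  have h0 : ∀ y, y ∉ ball (0 : P2) R → h y = 0 := fun y hy =>
    image_eq_zero_of_notMem_tsupport fun h' => hy (hR h')
  have h1 := lip_pw (W := ball (0 : P2) R) hg ((LipschitzWith.const (0 : ℝ)).weaken zero_le)
    fun z hz => by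
      rw [frontier_ball _ hR0.ne'] at hz
      rw [← he (sphere_subset_closedBall hz)]
      exact h0 z fun h' => (mem_ball.1 h').ne (mem_sphere.1 hz)
  refine ⟨C, ?_⟩
  convert h1 using 2 with y
  split_ifs with hy
  · exact he (ball_subset_closedBall hy)
  · exact h0 y hy

/-- the integral of a derivative vanishes -/
lemma int_fderiv {h : P2 → ℝ} (hl : LocallyLipschitz h) (hc : HasCompactSupport h) (v : P2) :
    Integrable (fun y => fderiv ℝ h y v) ∧ ∫ y, fderiv ℝ h y v = 0 := by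
  obtain ⟨L, hL⟩ := lip_of_loc hl hc
  have := ACW.parts (f := fun _ => (1 : ℝ)) isOpen_univ contDiffOn_const hL hc (subset_univ _) v
  simpa using And.intro this.1 this.2.2

section Param

variable {E : Type} [NormedAddCommGroup E] [MeasurableSpace E] [BorelSpace E]
  {A : Set P2} {q : P2 → E} {S : Set E}

lemma int_on (hA : MeasurableSet A) (hfin : volume A ≠ ⊤) (hq : Measurable q) (hS : IsCompact S)
    (hqS : ∀ y ∈ A, q y ∈ S) {G : E → ℝ} (hG : Continuous G) :
    IntegrableOn (fun y => G (q y)) A := by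
  obtain ⟨C, hC⟩ := hS.exists_bound_of_continuousOn hG.continuousOn
  refine Measure.integrableOn_of_bounded (M := C) hfin
    (hG.measurable.comp hq).aestronglyMeasurable ?_
  rw [ae_restrict_iff' hA]
  exact .of_forall fun y hy => hC _ (hqS y hy)

/-- differentiation under the integral -/
lemma der_int (hA : MeasurableSet A) (hfin : volume A ≠ ⊤) (hq : Measurable q) (hS : IsCompact S)
    (hqS : ∀ y ∈ A, q y ∈ S) {Ψ Ψ' : ℝ × E → ℝ} (h1 : Continuous Ψ) (h2 : Continuous Ψ')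
    (hd : ∀ t e, HasDerivAt (fun s => Ψ (s, e)) (Ψ' (t, e)) t) (t₀ : ℝ) :
    HasDerivAt (fun t => ∫ y in A, Ψ (t, q y)) (∫ y in A, Ψ' (t₀, q y)) t₀ := by
  obtain ⟨C, hC⟩ := ((isCompact_closedBall t₀ 1).prod hS).exists_bound_of_continuousOn
    h2.continuousOn
  have c1 : ∀ t : ℝ, Continuous fun e : E => Ψ (t, e) := fun t => by fun_prop
  have c2 : ∀ t : ℝ, Continuous fun e : E => Ψ' (t, e) := fun t => by fun_prop
  refine (hasDerivAt_integral_of_dominated_loc_of_deriv_le (μ := volume.restrict A)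
    (F := fun t y => Ψ (t, q y)) (F' := fun t y => Ψ' (t, q y)) (bound := fun _ => C)
    (closedBall_mem_nhds t₀ one_pos)
    (.of_forall fun t => ((c1 t).measurable.comp hq).aestronglyMeasurable)
    (int_on hA hfin hq hS hqS (c1 t₀)) ((c2 t₀).measurable.comp hq).aestronglyMeasurable ?_
    (integrableOn_const hfin) (.of_forall fun y t _ => hd t (q y))).2
  rw [ae_restrict_iff' hA]
  exact .of_forall fun y hy t ht => hC (t, q y) ⟨ht, hqS y hy⟩

end Param

/-- first variation of the area density -/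
lemma der_FF (y : P2) (z e : ℝ) (p g : P2) (t : ℝ) :
    HasDerivAt (fun s : ℝ => FF y (z + s * e) (p + s • g))
      (dot (FP y (z + t * e) (p + t • g)) g + FZ y (z + t * e) (p + t • g) * e) t := by
  have l : ∀ a b : ℝ, HasDerivAt (fun s : ℝ => a + s * b) b t := fun a b => by
    simpa using ((hasDerivAt_id t).mul_const b).const_add a
  have hw0 : 0 < 1 + (p.1 + t * g.1) ^ 2 + (p.2 + t * g.2) ^ 2 +
    (z + t * e - (y.1 * (p.1 + t * g.1) + y.2 * (p.2 + t * g.2))) ^ 2 := by positivity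
  have hr0 : 0 < 1 + y.1 ^ 2 + y.2 ^ 2 + (z + t * e) ^ 2 := by positivity
  have hw := (((((l p.1 g.1).fun_pow 2).const_add 1).fun_add ((l p.2 g.2).fun_pow 2)).fun_add
    (((l z e).fun_sub (((l p.1 g.1).const_mul y.1).fun_add
      ((l p.2 g.2).const_mul y.2))).fun_pow 2)).sqrt hw0.ne'
  have hr := (((l z e).fun_pow 2).const_add (1 + y.1 ^ 2 + y.2 ^ 2)).sqrt hr0.ne'
  have h := hw.fun_div (hr.fun_pow 3) (by positivity)
  simp only [FF, FP, FZ, dot, Prod.fst_add, Prod.snd_add, Prod.smul_fst, Prod.smul_snd,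
    Prod.fst_sub, Prod.snd_sub, smul_eq_mul]
  refine h.congr_deriv ?_
  have e2 := Real.sq_sqrt hr0.le
  have p1 := Real.sqrt_pos.2 hw0
  have p2 := Real.sqrt_pos.2 hr0
  generalize √(1 + (p.1 + t * g.1) ^ 2 + (p.2 + t * g.2) ^ 2 +
    (z + t * e - (y.1 * (p.1 + t * g.1) + y.2 * (p.2 + t * g.2))) ^ 2) = W at *
  generalize √(1 + y.1 ^ 2 + y.2 ^ 2 + (z + t * e) ^ 2) = R at *
  field_simp
  ring

/-- strict convexity of the area density in the gradient -/
lemma strict (y : P2) (z : ℝ) (p g : P2) (h : p ≠ g) :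
    FF y z g + dot (FP y z g) (p - g) < FF y z p := by
  have hne : 0 < (p.1 - g.1) ^ 2 + (p.2 - g.2) ^ 2 := by
    by_contra h0
    refine h (Prod.ext ?_ ?_)
    · nlinarith [sq_nonneg (p.1 - g.1), sq_nonneg (p.2 - g.2)]
    · nlinarith [sq_nonneg (p.1 - g.1), sq_nonneg (p.2 - g.2)]
  have hs : z - dot y p = (z - dot y g) - y.1 * (p.1 - g.1) - y.2 * (p.2 - g.2) := by
    simp only [dot]; ring
  unfold FF FP
  generalize z - dot y p = s at hs ⊢
  generalize z - dot y g = t at hs ⊢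
  simp only [dot, Prod.smul_fst, Prod.smul_snd, Prod.fst_sub, Prod.snd_sub, smul_eq_mul]
  have hρ : 0 < √(1 + y.1 ^ 2 + y.2 ^ 2 + z ^ 2) ^ 3 := by positivity
  generalize √(1 + y.1 ^ 2 + y.2 ^ 2 + z ^ 2) ^ 3 = ρ at hρ ⊢
  have hB : 0 < √(1 + g.1 ^ 2 + g.2 ^ 2 + t ^ 2) := by positivity
  have hB2 := Real.sq_sqrt (show 0 ≤ 1 + g.1 ^ 2 + g.2 ^ 2 + t ^ 2 by positivity)
  have cs : 1 + p.1 * g.1 + p.2 * g.2 + s * t <
      √(1 + p.1 ^ 2 + p.2 ^ 2 + s ^ 2) * √(1 + g.1 ^ 2 + g.2 ^ 2 + t ^ 2) := by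
    rw [← Real.sqrt_mul (by positivity)]
    refine Real.lt_sqrt_of_sq_lt ?_
    nlinarith [sq_nonneg (s - t),
      sq_nonneg (p.1 * g.2 - p.2 * g.1), sq_nonneg (p.1 * t - s * g.1),
      sq_nonneg (p.2 * t - s * g.2)]
  generalize √(1 + g.1 ^ 2 + g.2 ^ 2 + t ^ 2) = B at hB hB2 cs ⊢
  generalize √(1 + p.1 ^ 2 + p.2 ^ 2 + s ^ 2) = A at cs ⊢
  have e : B / ρ + ((B * ρ)⁻¹ * (g.1 - t * y.1) * (p.1 - g.1) +
      (B * ρ)⁻¹ * (g.2 - t * y.2) * (p.2 - g.2)) =
      (1 + p.1 * g.1 + p.2 * g.2 + s * t) / (B * ρ) := by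
    field_simp
    rw [hB2, hs]
    ring
  rw [e, div_lt_div_iff₀ (by positivity) hρ]
  nlinarith

/-! ### Planes -/

lemma has_plane (s : ℝ) (p y : P2) : HasFDerivAt (fun x => s + dot p x)
    (p.1 • ContinuousLinearMap.fst ℝ ℝ ℝ + p.2 • ContinuousLinearMap.snd ℝ ℝ ℝ) y := by
  have h := (p.1 • ContinuousLinearMap.fst ℝ ℝ ℝ +
    p.2 • ContinuousLinearMap.snd ℝ ℝ ℝ).hasFDerivAt (x := y)
  exact h.const_add s

lemma grad_plane (s : ℝ) (p y : P2) : grad (fun x => s + dot p x) y = p := by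
  simp [grad, d1, d2, (has_plane s p y).fderiv]

lemma smooth_plane (s : ℝ) (p : P2) : ContDiff ℝ 2 fun x => s + dot p x := by
  unfold dot
  fun_prop

lemma lip_plane (s : ℝ) (p : P2) {K : ℝ≥0} (h : |p.1| + |p.2| ≤ K) :
    LipschitzWith K fun x => s + dot p x := by
  refine LipschitzWith.of_dist_le_mul fun x y => ?_
  have h1 : |x.1 - y.1| ≤ dist x y := le_max_left (dist x.1 y.1) (dist x.2 y.2)
  have h2 : |x.2 - y.2| ≤ dist x y := le_max_right (dist x.1 y.1) (dist x.2 y.2)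
  have e : s + dot p x - (s + dot p y) = p.1 * (x.1 - y.1) + p.2 * (x.2 - y.2) := by
    unfold dot; ring
  rw [Real.dist_eq, e]
  refine (abs_add_le _ _).trans ?_
  rw [abs_mul, abs_mul]
  have a1 := mul_le_mul_of_nonneg_left h1 (abs_nonneg p.1)
  have a2 := mul_le_mul_of_nonneg_left h2 (abs_nonneg p.2)
  have a3 := mul_le_mul_of_nonneg_right h (dist_nonneg (x := x) (y := y))
  linarith

/-- the flux of the planes with slope `p` -/
def TT (p : P2) (q : P2 × ℝ) : P2 := FP q.1 (q.2 + dot p q.1) p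

lemma smooth_TT (p : P2) : ContDiff ℝ 1 (TT p) := by
  have h : ContDiff ℝ 1 fun q : P2 × ℝ => ((q.1, q.2 + dot p q.1, p) : Q5) := by
    unfold dot
    fun_prop
  exact ACW.contDiff_FP.comp h

/-- planes solve the equation -/
lemma div_TT (p y : P2) (s : ℝ) :
    (fderiv ℝ (TT p) (y, s) ((1, 0), 0)).1 + (fderiv ℝ (TT p) (y, s) ((0, 1), 0)).2
      = FZ y (s + dot p y) p := by
  have h := ACW.div_flux (y := y) (smooth_plane s p).contDiffAt
  have g1 : d1 (fun x => s + dot p x) = fun _ => p.1 :=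
    funext fun x => congrArg Prod.fst (grad_plane s p x)
  have g2 : d2 (fun x => s + dot p x) = fun _ => p.2 :=
    funext fun x => congrArg Prod.snd (grad_plane s p x)
  have g0 : gAt (fun x => s + dot p x) y (s + dot p y) = 0 := by
    rw [gAt, g1, g2]
    simp [gOp, d1, d2]
  have ha : ACW.fa (fun x => s + dot p x) = fun x => TT p (x, s) := by
    funext x
    simp only [ACW.fa, TT, grad_plane]
  rw [g0, mul_zero, ha, ACW.fb, grad_plane] at h
  have hT : HasFDerivAt (fun x => TT p (x, s))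
      ((fderiv ℝ (TT p) (y, s)).comp (ContinuousLinearMap.inl ℝ P2 ℝ)) y :=
    HasFDerivAt.comp (g := TT p) (f := fun x : P2 => (x, s)) y
      ((smooth_TT p).differentiable one_ne_zero (y, s)).hasFDerivAt
      (hasFDerivAt_prodMk_left (𝕜 := ℝ) y s)
  rw [d1, d2, hT.fst.fderiv, hT.snd.fderiv] at h
  simpa [sub_eq_zero] using h

variable {a b : ℝ}

lemma rho_open : IsOpen (Rho a b) := isOpen_lt (by fun_prop) continuous_const

lemma rho_fin (ha : 0 < a) (hb : 0 < b) : volume (Rho a b) ≠ ⊤ :=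
  ((measure_mono EMin.rho_sub).trans_lt (EMin.rh_compact ha hb).measure_lt_top).ne

/-- the jet of order one -/
def jt (u : P2 → ℝ) (y : P2) : Q5 := (y, u y, grad u y)

lemma jt_meas {u : P2 → ℝ} (hu : Continuous u) : Measurable (jt u) :=
  measurable_id.prodMk (hu.measurable.prodMk (ACW.measurable_grad u))

lemma jt_cpt (ha : 0 < a) (hb : 0 < b) {u : P2 → ℝ} {K : ℝ≥0} (hu : LipschitzWith K u) :
    ∃ S, IsCompact S ∧ ∀ y ∈ Rho a b, jt u y ∈ S := by
  have hc := EMin.rh_compact ha hb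
  exact ⟨_, hc.prod ((hc.image hu.continuous).prod (isCompact_closedBall (0 : P2) K)),
    fun y hy => ⟨EMin.rho_sub hy, ⟨y, EMin.rho_sub hy, rfl⟩, EMin.grad_mem hu y⟩⟩

/-- the interpolating integrand -/
def Ps (c : ℝ) (p : P2) (x : ℝ × Q5) : ℝ :=
  x.1 * dot (TT p (x.2.1, c + x.1 * x.2.2.1)) x.2.2.2
    + FF x.2.1 (c + dot p x.2.1 + x.1 * x.2.2.1) p - FF x.2.1 (c + dot p x.2.1) p

/-- its derivative in the parameter -/
def Ps' (c : ℝ) (p : P2) (x : ℝ × Q5) : ℝ :=
  dot (TT p (x.2.1, c + x.1 * x.2.2.1)) x.2.2.2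
    + x.1 * x.2.2.1 * dot (fderiv ℝ (TT p) (x.2.1, c + x.1 * x.2.2.1) (0, 1)) x.2.2.2
    + FZ x.2.1 (c + dot p x.2.1 + x.1 * x.2.2.1) p * x.2.2.1

lemma cont_Ps (c : ℝ) (p : P2) : Continuous (Ps c p) := by
  have h1 := (smooth_TT p).continuous
  have h2 : Continuous fun x : ℝ × Q5 => TT p (x.2.1, c + x.1 * x.2.2.1) :=
    h1.comp (by fun_prop)
  have h3 : Continuous fun x : ℝ × Q5 => FF x.2.1 (c + dot p x.2.1 + x.1 * x.2.2.1) p :=
    EMin.cont_FF.comp (f := fun x : ℝ × Q5 => (x.2.1, c + dot p x.2.1 + x.1 * x.2.2.1, p))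
      (by unfold dot; fun_prop)
  have h4 : Continuous fun x : ℝ × Q5 => FF x.2.1 (c + dot p x.2.1) p :=
    EMin.cont_FF.comp (f := fun x : ℝ × Q5 => (x.2.1, c + dot p x.2.1, p))
      (by unfold dot; fun_prop)
  refine ((continuous_fst.mul ?_).add h3).sub h4
  exact (h2.fst.mul (by fun_prop)).add (h2.snd.mul (by fun_prop))

lemma cont_Ps' (c : ℝ) (p : P2) : Continuous (Ps' c p) := by
  have h1 := (smooth_TT p).continuous
  have h2 : Continuous fun x : ℝ × Q5 => TT p (x.2.1, c + x.1 * x.2.2.1) :=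
    h1.comp (by fun_prop)
  have h3 : Continuous fun x : ℝ × Q5 => FZ x.2.1 (c + dot p x.2.1 + x.1 * x.2.2.1) p :=
    ACW.contDiff_FZ.continuous.comp
      (f := fun x : ℝ × Q5 => ((x.2.1, c + dot p x.2.1 + x.1 * x.2.2.1, p) : Q5))
      (by unfold dot; fun_prop)
  have h4 : Continuous fun x : ℝ × Q5 => fderiv ℝ (TT p) (x.2.1, c + x.1 * x.2.2.1) (0, 1) :=
    (((smooth_TT p).continuous_fderiv one_ne_zero).comp
      (f := fun x : ℝ × Q5 => (x.2.1, c + x.1 * x.2.2.1)) (by fun_prop)).clm_apply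
      continuous_const
  refine (Continuous.add ?_ (Continuous.mul (by fun_prop) ?_)).add (h3.mul (by fun_prop))
  · exact (h2.fst.mul (by fun_prop)).add (h2.snd.mul (by fun_prop))
  · exact (h4.fst.mul (by fun_prop)).add (h4.snd.mul (by fun_prop))

lemma der_Ps (c : ℝ) (p : P2) (t : ℝ) (q : Q5) :
    HasDerivAt (fun s => Ps c p (s, q)) (Ps' c p (t, q)) t := by
  obtain ⟨y, e, g⟩ := q
  have h1 : HasDerivAt (fun s : ℝ => ((y, c + s * e) : P2 × ℝ)) (e • ((0, 1) : P2 × ℝ)) t := by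
    have := (hasDerivAt_const t y).prodMk (((hasDerivAt_id t).mul_const e).const_add c)
    simpa using this
  have h2 : HasDerivAt (fun s : ℝ => TT p (y, c + s * e))
      (e • fderiv ℝ (TT p) (y, c + t * e) (0, 1)) t := by
    rw [← map_smul]
    exact HasFDerivAt.comp_hasDerivAt (l := TT p) (f := fun s : ℝ => ((y, c + s * e) : P2 × ℝ)) t
      ((smooth_TT p).differentiable one_ne_zero (y, c + t * e)).hasFDerivAt h1
  have h3 := der_FF y (c + dot p y) e p 0 t
  simp only [smul_zero, add_zero] at h3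
  have k1 : HasDerivAt (fun s : ℝ => (TT p (y, c + s * e)).1)
      (e • fderiv ℝ (TT p) (y, c + t * e) (0, 1)).1 t :=
    (ContinuousLinearMap.fst ℝ ℝ ℝ).hasFDerivAt.comp_hasDerivAt t h2
  have k2 : HasDerivAt (fun s : ℝ => (TT p (y, c + s * e)).2)
      (e • fderiv ℝ (TT p) (y, c + t * e) (0, 1)).2 t :=
    (ContinuousLinearMap.snd ℝ ℝ ℝ).hasFDerivAt.comp_hasDerivAt t h2
  have h4 := (((hasDerivAt_id t).fun_mul ((k1.mul_const g.1).fun_add
    (k2.mul_const g.2))).fun_add h3).sub_const (FF y (c + dot p y) p)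
  refine HasDerivAt.congr_deriv h4 ?_
  simp only [Ps', dot, id, Prod.smul_fst, Prod.smul_snd, smul_eq_mul, Prod.fst_zero,
    Prod.snd_zero]
  ring

/-- the derivative of the interpolating integrand is a divergence -/
lemma div_Ps (c : ℝ) (p : P2) (t : ℝ) {η : P2 → ℝ} {y : P2} (hy : DifferentiableAt ℝ η y) :
    fderiv ℝ (fun x => η x * (TT p (x, c + t * η x)).1) y (1, 0)
      + fderiv ℝ (fun x => η x * (TT p (x, c + t * η x)).2) y (0, 1) = Ps' c p (t, jt η y) := by
  have h1 : HasFDerivAt (fun x : P2 => ((x, c + t * η x) : P2 × ℝ))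
      ((ContinuousLinearMap.id ℝ P2).prod (t • fderiv ℝ η y)) y :=
    (hasFDerivAt_id y).prodMk ((hy.hasFDerivAt.const_mul t).const_add c)
  have h2 : HasFDerivAt (fun x : P2 => TT p (x, c + t * η x))
      ((fderiv ℝ (TT p) (y, c + t * η y)).comp
        ((ContinuousLinearMap.id ℝ P2).prod (t • fderiv ℝ η y))) y :=
    HasFDerivAt.comp (g := TT p) (f := fun x : P2 => ((x, c + t * η x) : P2 × ℝ)) y
      ((smooth_TT p).differentiable one_ne_zero (y, c + t * η y)).hasFDerivAt h1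
  have h3 := div_TT p y (c + t * η y)
  have h4 : ∀ (v : P2) (s : ℝ), fderiv ℝ (TT p) (y, c + t * η y) (v, s) =
      fderiv ℝ (TT p) (y, c + t * η y) (v, 0) + s • fderiv ℝ (TT p) (y, c + t * η y) (0, 1) := by
    intro v s
    rw [← map_smul, ← map_add]
    simp
  rw [(hy.hasFDerivAt.fun_mul h2.fst).fderiv, (hy.hasFDerivAt.fun_mul h2.snd).fderiv]
  have e : c + dot p y + t * η y = c + t * η y + dot p y := by ring
  simp only [Ps', jt, e, ← h3]
  simp only [add_apply, smul_apply,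
    ContinuousLinearMap.comp_apply, ContinuousLinearMap.prod_apply, ContinuousLinearMap.id_apply,
    ContinuousLinearMap.coe_fst', ContinuousLinearMap.coe_snd', smul_eq_mul]
  rw [h4 (1, 0) (t * _), h4 (0, 1) (t * _)]
  simp only [dot, grad, d1, d2, Prod.fst_add, Prod.snd_add, Prod.smul_fst, Prod.smul_snd,
    smul_eq_mul]
  ring

lemma supp_of (ha : 0 < a) (hb : 0 < b) {η : P2 → ℝ} (hz : ∀ y, y ∉ Rho a b → η y = 0) :
    HasCompactSupport η :=
  HasCompactSupport.intro (EMin.rh_compact ha hb) fun y hy => hz y fun h => hy (EMin.rho_sub h)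

/-- the calibration identity -/
lemma calib (ha : 0 < a) (hb : 0 < b) (c : ℝ) (p : P2) {η : P2 → ℝ} {L : ℝ≥0}
    (hη : LipschitzWith L η) (hz : ∀ y, y ∉ Rho a b → η y = 0 ∧ grad η y = 0) :
    ∫ y in Rho a b, Ps c p (1, jt η y) = 0 := by
  obtain ⟨S, hS, hqS⟩ := jt_cpt ha hb hη
  have hc := supp_of ha hb fun y hy => (hz y hy).1
  have hd : ∀ t, HasDerivAt (fun t => ∫ y in Rho a b, Ps c p (t, jt η y)) 0 t := by
    intro t
    have h := der_int EMin.rho_meas (rho_fin ha hb) (jt_meas hη.continuous) hS hqS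
      (cont_Ps c p) (cont_Ps' c p) (der_Ps c p) t
    refine h.congr_deriv ?_
    have hl : LocallyLipschitz fun x : P2 => ((x, η x) : P2 × ℝ) :=
      (LipschitzWith.id.prodMk hη).locallyLipschitz
    have hT : ContDiff ℝ 1 fun q : P2 × ℝ => TT p (q.1, c + t * q.2) :=
      (smooth_TT p).comp (f := fun q : P2 × ℝ => (q.1, c + t * q.2)) (by fun_prop)
    have l1 : LocallyLipschitz fun x => η x * (TT p (x, c + t * η x)).1 :=
      (contDiff_snd.mul hT.fst).locallyLipschitz.comp hl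
    have l2 : LocallyLipschitz fun x => η x * (TT p (x, c + t * η x)).2 :=
      (contDiff_snd.mul hT.snd).locallyLipschitz.comp hl
    obtain ⟨i1, j1⟩ := int_fderiv l1 hc.mul_right (1, 0)
    obtain ⟨i2, j2⟩ := int_fderiv l2 hc.mul_right (0, 1)
    rw [setIntegral_eq_integral_of_forall_compl_eq_zero fun y hy => by
      simp [Ps', jt, (hz y hy).1, (hz y hy).2, dot]]
    have := integral_add i1 i2
    rw [j1, j2, add_zero] at this
    rw [← this]
    refine integral_congr_ae ?_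
    filter_upwards [hη.ae_differentiableAt (μ := volume)] with y hy
    exact (div_Ps c p t hy).symm
  have h := is_const_of_deriv_eq_zero (fun t => (hd t).differentiableAt)
    (fun t => (hd t).deriv) 1 0
  rw [h]
  simp [Ps]

/-- planes are strict minimisers -/
lemma plane_min (ha : 0 < a) (hb : 0 < b) (c : ℝ) (p : P2) {η : P2 → ℝ} {L : ℝ≥0}
    (hη : LipschitzWith L η) (hz : ∀ y, y ∉ Rho a b → η y = 0 ∧ grad η y = 0)
    (hle : ∫ y in Rho a b, (FF y (c + dot p y + η y) (p + grad η y) - FF y (c + dot p y) p) ≤ 0) :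
    ∫ y, η y = 0 := by
  obtain ⟨S, hS, hqS⟩ := jt_cpt ha hb hη
  have hc := supp_of ha hb fun y hy => (hz y hy).1
  have c1 : Continuous fun q : Q5 =>
      FF q.1 (c + dot p q.1 + q.2.1) (p + q.2.2) - FF q.1 (c + dot p q.1) p :=
    (EMin.cont_FF.comp (f := fun q : Q5 => (q.1, c + dot p q.1 + q.2.1, p + q.2.2))
      (by unfold dot; fun_prop)).sub
    (EMin.cont_FF.comp (f := fun q : Q5 => (q.1, c + dot p q.1, p)) (by unfold dot; fun_prop))
  have c2 : Continuous fun q : Q5 => Ps c p (1, q) := (cont_Ps c p).comp (by fun_prop)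
  have i1 := int_on EMin.rho_meas (rho_fin ha hb) (jt_meas hη.continuous) hS hqS c1
  have i2 := int_on EMin.rho_meas (rho_fin ha hb) (jt_meas hη.continuous) hS hqS c2
  set D : P2 → ℝ := fun y => (FF y (c + dot p y + η y) (p + grad η y) - FF y (c + dot p y) p)
    - Ps c p (1, jt η y) with hD
  have hD1 : ∀ y, grad η y ≠ 0 → 0 < D y := by
    intro y hy
    have h := strict y (c + dot p y + η y) (p + grad η y) p (by simpa using hy)
    have e : c + η y + dot p y = c + dot p y + η y := by ring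
    simp only [hD, Ps, jt, TT, one_mul, e]
    rw [add_sub_cancel_left] at h
    linarith
  have hD0 : ∀ y, 0 ≤ D y := by
    intro y
    by_cases hy : grad η y = 0
    · simp [hD, Ps, jt, hy, dot]
    · exact (hD1 y hy).le
  have h0 : ∫ y in Rho a b, D y = 0 := by
    refine le_antisymm ?_ (integral_nonneg hD0)
    have := integral_sub i1 i2
    rw [calib ha hb c p hη hz, sub_zero] at this
    exact this.trans_le hle
  rw [integral_eq_zero_iff_of_nonneg hD0 (i1.sub i2), EventuallyEq,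
    ae_restrict_iff' EMin.rho_meas] at h0
  have l1 : LocallyLipschitz fun x : P2 => η x * x.1 :=
    (ContDiff.locallyLipschitz (𝕂 := ℝ) (f := fun q : P2 × ℝ => q.2 * q.1.1) (by fun_prop)).comp
      (LipschitzWith.id.prodMk hη).locallyLipschitz
  rw [← (int_fderiv l1 hc.mul_right (1, 0)).2]
  refine integral_congr_ae ?_
  filter_upwards [h0, hη.ae_differentiableAt (μ := volume)] with y h1 h2
  have h3 : grad η y = 0 := by
    by_cases hy : y ∈ Rho a b
    · by_contra h4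
      exact (hD1 y h4).ne' (h1 hy)
    · exact (hz y hy).2
  have h4 : fderiv ℝ η y (1, 0) = 0 := congrArg Prod.fst h3
  rw [(h2.hasFDerivAt.fun_mul hasFDerivAt_fst).fderiv]
  simp [h4]

lemma rh_convex (ha : 0 < a) (hb : 0 < b) : Convex ℝ (Rh a b) := by
  intro x hx y hy s t hs ht hst
  have hx' : |x.1| / a + |x.2| / b ≤ 1 := hx
  have hy' : |y.1| / a + |y.2| / b ≤ 1 := hy
  have h : ∀ u v : ℝ, |s * u + t * v| ≤ s * |u| + t * |v| := fun u v => by
    refine (abs_add_le _ _).trans ?_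
    rw [abs_mul, abs_mul, abs_of_nonneg hs, abs_of_nonneg ht]
  change |s * x.1 + t * y.1| / a + |s * x.2 + t * y.2| / b ≤ 1
  have h1 := div_le_div_of_nonneg_right (h x.1 y.1) ha.le
  have h2 := div_le_div_of_nonneg_right (h x.2 y.2) hb.le
  have e : (s * |x.1| + t * |y.1|) / a + (s * |x.2| + t * |y.2|) / b
      = s * (|x.1| / a + |x.2| / b) + t * (|y.1| / a + |y.2| / b) := by ring
  have h3 := mul_le_mul_of_nonneg_left hx' hs
  have h4 := mul_le_mul_of_nonneg_left hy' ht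
  linarith

/-- steep planes: walk to the boundary -/
lemma steep (ha : 0 < a) (hb : 0 < b) {u : P2 → ℝ} {K : ℝ≥0} (hu : LipschitzWith K u) (c : ℝ)
    {p : P2} (hp : (K : ℝ) ≤ |p.1| + |p.2|) {ε : ℝ} (hε : ε = 1 ∨ ε = -1) {y : P2}
    (hy : y ∈ Rh a b) (hpos : 0 < ε * (u y - c - dot p y)) :
    ∃ y' ∈ Rh a b \ Rho a b, JoinedIn (Rh a b ∩ {x | 0 < ε * (u x - c - dot p x)}) y y' := by
  have sg : ∀ r : ℝ, ∃ s : ℝ, |s| = 1 ∧ ε * (r * s) = -|r| := by
    intro r
    rcases hε with rfl | rfl <;> rcases le_total 0 r with h | h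
    · exact ⟨-1, by simp, by simp [abs_of_nonneg h]⟩
    · exact ⟨1, by simp, by simp [abs_of_nonpos h]⟩
    · exact ⟨1, by simp, by simp [abs_of_nonneg h]⟩
    · exact ⟨-1, by simp, by simp [abs_of_nonpos h]⟩
  obtain ⟨s₁, hs₁, e₁⟩ := sg p.1
  obtain ⟨s₂, hs₂, e₂⟩ := sg p.2
  have hε1 : |ε| = 1 := by rcases hε with rfl | rfl <;> simp
  set d : P2 := (s₁, s₂) with hd
  have hn : ‖d‖ = 1 := by simp [hd, Prod.norm_def, hs₁, hs₂]
  have hφ : Continuous fun t : ℝ => |(y + t • d).1| / a + |(y + t • d).2| / b := by fun_prop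
  have hy' : |y.1| / a + |y.2| / b ≤ 1 := hy
  have hT : (0 : ℝ) ≤ a + |y.1| := by positivity
  obtain ⟨t, ht, ht1⟩ := intermediate_value_Icc hT hφ.continuousOn (show (1 : ℝ) ∈ _ by
    constructor
    · simpa using hy'
    · have h1 : a ≤ |(y + (a + |y.1|) • d).1| := by
        have h2 := abs_sub_abs_le_abs_add ((a + |y.1|) * s₁) y.1
        rw [abs_mul, hs₁, abs_of_nonneg hT, add_comm ((a + |y.1|) * s₁)] at h2
        change a ≤ |y.1 + (a + |y.1|) * s₁|
        linarith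
      have h3 : 0 ≤ |(y + (a + |y.1|) • d).2| / b := by positivity
      have h4 := (one_le_div ha).2 h1
      change 1 ≤ |(y + (a + |y.1|) • d).1| / a + |(y + (a + |y.1|) • d).2| / b
      linarith)
  have hm : y + t • d ∈ Rh a b := le_of_eq ht1
  refine ⟨y + t • d, ⟨hm, fun h => (ne_of_lt h) ht1⟩, JoinedIn.of_segment_subset fun z hz =>
    ⟨(rh_convex ha hb).segment_subset hy hm hz, ?_⟩⟩
  rw [segment_eq_image'] at hz
  obtain ⟨θ, hθ, rfl⟩ := hz
  have hs : 0 ≤ θ * t := mul_nonneg hθ.1 ht.1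
  simp only [add_sub_cancel_left, smul_smul, mem_ofPred_eq]
  generalize θ * t = s at hs
  have h1 := hu.dist_le_mul (y + s • d) y
  rw [Real.dist_eq, dist_eq_norm, add_sub_cancel_left, norm_smul, hn, Real.norm_eq_abs,
    abs_of_nonneg hs, mul_one] at h1
  have h2 : |ε * (u (y + s • d) - u y)| ≤ K * s := by rw [abs_mul, hε1, one_mul]; exact h1
  have h3 := (abs_le.1 h2).1
  have e : ε * (u (y + s • d) - c - dot p (y + s • d)) = ε * (u y - c - dot p y)
      + ε * (u (y + s • d) - u y) - s * (ε * (p.1 * s₁) + ε * (p.2 * s₂)) := by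
    simp only [dot, hd, Prod.fst_add, Prod.snd_add, Prod.smul_fst, Prod.smul_snd, smul_eq_mul]
    ring
  rw [e, e₁, e₂]
  nlinarith [mul_le_mul_of_nonneg_right hp hs]

lemma grad_add {f g : P2 → ℝ} {y : P2} (hf : DifferentiableAt ℝ f y) (hg : DifferentiableAt ℝ g y)
    (t : ℝ) : grad (fun x => f x + t * g x) y = grad f y + t • grad g y := by
  have h := (hf.hasFDerivAt.fun_add (hg.hasFDerivAt.const_mul t)).fderiv
  simp [grad, d1, d2, h]

end ECut

open ECut in
theorem cutS : CutS := by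
  classical
  intro a b K u ha hb hm c p ε hε y hy hpos
  obtain ⟨⟨hu, hbd⟩, hmin⟩ := hm
  rcases le_total (K : ℝ) (|p.1| + |p.2|) with hp | hp
  · exact steep ha hb hu c hp hε hy hpos
  by_contra hne
  push Not at hne
  set G : Set P2 := {x | 0 < ε * (u x - c - dot p x)} with hG
  have hcont : Continuous fun x => ε * (u x - c - dot p x) :=
    continuous_const.mul ((hu.continuous.sub continuous_const).sub (by unfold dot; fun_prop))
  have hGo : IsOpen G := isOpen_lt continuous_const hcont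
  set W : Set P2 := {x | JoinedIn (Rh a b ∩ G) y x} with hW
  have hyW : y ∈ W := JoinedIn.refl ⟨hy, hpos⟩
  have hWG : W ⊆ Rh a b ∩ G := fun x hx => JoinedIn.target_mem hx
  have hWR : W ⊆ Rho a b := fun x hx => by
    by_contra h
    exact hne x ⟨(hWG hx).1, h⟩ hx
  have hjoin : ∀ x r, ball x r ⊆ G → ∀ w ∈ W, w ∈ ball x r → ∀ z ∈ Rh a b, z ∈ ball x r →
      z ∈ W := by
    intro x r hr w hw hw' z hz hz'
    refine JoinedIn.trans hw (JoinedIn.of_segment_subset fun s hs => ⟨?_, hr ?_⟩)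
    · exact (rh_convex ha hb).segment_subset (hWG hw).1 hz hs
    · exact (convex_ball x r).segment_subset hw' hz' hs
  have hWo : IsOpen W := by
    refine isOpen_iff.2 fun x hx => ?_
    obtain ⟨r, hr, h⟩ := isOpen_iff.1 (rho_open.inter hGo) x ⟨hWR hx, (hWG hx).2⟩
    exact ⟨r, hr, fun z hz => hjoin x r (fun s hs => (h hs).2) x hx (mem_ball_self hr) z
      (EMin.rho_sub (h hz).1) hz⟩
  have hfr : ∀ z ∈ frontier W, u z = c + dot p z := by
    intro z hz
    rw [hWo.frontier_eq] at hz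
    have h1 : z ∈ Rh a b := closure_minimal (fun x hx => (hWG hx).1)
      (EMin.rh_compact ha hb).isClosed hz.1
    have h2 : 0 ≤ ε * (u z - c - dot p z) :=
      closure_minimal (t := {x | 0 ≤ ε * (u x - c - dot p x)})
        (fun x hx => le_of_lt (α := ℝ) (hWG hx).2) (isClosed_le continuous_const hcont) hz.1
    have h3 : z ∉ G := fun h => by
      obtain ⟨r, hr, h'⟩ := isOpen_iff.1 hGo z h
      obtain ⟨w, hw, hw'⟩ := Metric.mem_closure_iff.1 hz.1 r hr
      exact hz.2 (hjoin z r h' w hw (mem_ball'.2 hw') z h1 (mem_ball_self hr))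
    have h4 : ε * (u z - c - dot p z) = 0 := le_antisymm (not_lt.1 h3) h2
    rcases hε with rfl | rfl <;> linarith
  have hl := lip_plane c p hp
  set v : P2 → ℝ := fun x => if x ∈ W then c + dot p x else u x with hv
  have hvl : LipschitzWith K v := lip_pw hl hu fun z hz => (hfr z hz).symm
  have hva : Adm a b K v := ⟨hvl, fun x hx => by
    rw [← hbd x hx]
    exact if_neg fun h => hx.2 (hWR h)⟩
  set η : P2 → ℝ := fun x => u x - v x with hη
  have hηl : LipschitzWith (K + K) η := hu.sub hvl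
  have hη0 : ∀ x, x ∉ W → η x = 0 := fun x hx => by simp [hη, hv, hx]
  have hη1 : ∀ x ∈ W, η x = u x - c - dot p x := fun x hx => by
    simp only [hη, hv, hx, if_true]
    ring
  have hnn : ∀ x, 0 ≤ ε * η x := fun x => by
    by_cases hx : x ∈ W
    · rw [hη1 x hx]
      exact le_of_lt (hWG hx).2
    · rw [hη0 x hx, mul_zero]
  have hg0 : ∀ x, x ∉ W → grad η x = 0 := fun x hx => by
    have h : fderiv ℝ η x = 0 := by
      rcases hε with rfl | rfl
      · exact IsLocalMin.fderiv_eq_zero (.of_forall fun z => by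
          have := hnn z
          rw [hη0 x hx]
          linarith)
      · exact IsLocalMax.fderiv_eq_zero (.of_forall fun z => by
          have := hnn z
          rw [hη0 x hx]
          linarith)
    simp [grad, d1, d2, h]
  have hz : ∀ x, x ∉ Rho a b → η x = 0 ∧ grad η x = 0 := fun x hx =>
    ⟨hη0 x fun h => hx (hWR h), hg0 x fun h => hx (hWR h)⟩
  have hle := hmin v hva
  have i1 : IntegrableOn (fun x => FF x (u x) (grad u x)) (Rho a b) :=
    EMin.intOn ha hb hu EMin.cont_FF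
  have i2 : IntegrableOn (fun x => FF x (v x) (grad v x)) (Rho a b) :=
    EMin.intOn ha hb hvl EMin.cont_FF
  have h0 := plane_min ha hb c p hηl hz (by
    refine le_of_eq_of_le ?_ (sub_nonpos.2 hle)
    rw [area, area, ← integral_sub i1 i2]
    refine integral_congr_ae (ae_restrict_of_ae ?_)
    filter_upwards [hvl.ae_differentiableAt (μ := volume),
      hηl.ae_differentiableAt (μ := volume)] with x h1 h2
    have e : grad u x = grad v x + grad η x := by
      have h3 := grad_add h1 h2 1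
      simpa [hη] using h3
    by_cases hx : x ∈ W
    · have h3 : v =ᶠ[𝓝 x] fun x => c + dot p x :=
        eventually_of_mem (hWo.mem_nhds hx) fun z hz => if_pos hz
      have h4 : grad v x = p := by rw [ACW.grad_congr h3, grad_plane]
      have h5 : c + dot p x + η x = u x := by rw [hη1 x hx]; ring
      rw [e, h4, h5, h3.eq_of_nhds]
    · have h3 : v x = u x := if_neg hx
      rw [e, hg0 x hx, hη0 x hx, h3]
      simp)
  have h1 := Continuous.integral_pos_of_hasCompactSupport_nonneg_nonzero (μ := volume)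
    (f := fun x => ε * η x) (x := y) (continuous_const.mul hηl.continuous)
    (supp_of ha hb fun x hx => (hz x hx).1).mul_left hnn (by
      rw [hη1 y hyW]
      exact hpos.ne')
  rw [integral_const_mul, h0, mul_zero] at h1
  exact lt_irrefl _ h1

namespace ECut

/-- the jet of a variation -/
def va (x : ℝ × Q5 × Q5) : Q5 :=
  (x.2.1.1, x.2.1.2.1 + x.1 * x.2.2.2.1, x.2.1.2.2 + x.1 • x.2.2.2.2)

lemma cont_va : Continuous va := by
  unfold va
  fun_prop

/-- the area density of a variation -/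
def Ar (x : ℝ × Q5 × Q5) : ℝ := FF (va x).1 (va x).2.1 (va x).2.2

/-- its derivative in the parameter -/
def Ar' (x : ℝ × Q5 × Q5) : ℝ :=
  dot (FP (va x).1 (va x).2.1 (va x).2.2) x.2.2.2.2 + FZ (va x).1 (va x).2.1 (va x).2.2 * x.2.2.2.1

lemma cont_Ar : Continuous Ar :=
  Continuous.comp (g := fun q : Q5 => FF q.1 q.2.1 q.2.2) (f := va) EMin.cont_FF cont_va

lemma cont_Ar' : Continuous Ar' := by
  have c2 : Continuous fun x => FP (va x).1 (va x).2.1 (va x).2.2 :=
    Continuous.comp (g := fun q : Q5 => FP q.1 q.2.1 q.2.2) (f := va) EMin.cont_FP cont_va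
  have c3 : Continuous fun x => FZ (va x).1 (va x).2.1 (va x).2.2 :=
    Continuous.comp (g := fun q : Q5 => FZ q.1 q.2.1 q.2.2) (f := va)
      ACW.contDiff_FZ.continuous cont_va
  refine Continuous.add ?_ (c3.mul (by fun_prop))
  exact (c2.fst.mul (by fun_prop)).add (c2.snd.mul (by fun_prop))

lemma der_Ar (t : ℝ) (e : Q5 × Q5) : HasDerivAt (fun s => Ar (s, e)) (Ar' (t, e)) t :=
  der_FF e.1.1 e.1.2.1 e.2.2.1 e.1.2.2 e.2.2.2 t

/-- minimisers in the interior of the constraint are weak solutions -/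
lemma weak_of_min {a b : ℝ} (ha : 0 < a) (hb : 0 < b) {K : ℝ≥0} {u : P2 → ℝ}
    (hu : Adm a b K u) (hmin : ∀ v, Adm a b (K + 1) v → area a b u ≤ area a b v) :
    Weak u (Rho a b) := by
  intro η L hη hc hs
  obtain ⟨S, hS, hqS⟩ := jt_cpt ha hb hu.1
  obtain ⟨S', hS', hqS'⟩ := jt_cpt ha hb hη
  have hd := der_int (q := fun y => (jt u y, jt η y)) EMin.rho_meas (rho_fin ha hb)
    ((jt_meas hu.1.continuous).prodMk (jt_meas hη.continuous)) (hS.prod hS')
    (fun y hy => ⟨hqS y hy, hqS' y hy⟩) cont_Ar cont_Ar' der_Ar 0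
  have he : ∀ t : ℝ, ∫ y in Rho a b, FF y (u y + t * η y) (grad u y + t • grad η y)
      = area a b fun y => u y + t * η y := by
    intro t
    refine integral_congr_ae (ae_restrict_of_ae ?_)
    filter_upwards [hu.1.ae_differentiableAt (μ := volume),
      hη.ae_differentiableAt (μ := volume)] with x h1 h2
    rw [grad_add h1 h2]
  simp only [Ar, Ar', va, jt, he] at hd
  have hL : (0 : ℝ) ≤ L := L.2
  have hloc : IsLocalMin (fun t : ℝ => area a b fun y => u y + t * η y) 0 := by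
    filter_upwards [closedBall_mem_nhds (0 : ℝ) (show (0 : ℝ) < 1 / (L + 1) by positivity)]
      with t ht
    simp only [zero_mul, add_zero]
    refine hmin _ ⟨LipschitzWith.of_dist_le_mul fun x y => ?_, fun y hy => ?_⟩
    · rw [mem_closedBall_zero_iff, Real.norm_eq_abs, le_div_iff₀ (by positivity)] at ht
      have h1 := hu.1.dist_le_mul x y
      have h2 := hη.dist_le_mul x y
      rw [Real.dist_eq] at h1 h2 ⊢
      have e : u x + t * η x - (u y + t * η y) = (u x - u y) + t * (η x - η y) := by ring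
      rw [e]
      refine (abs_add_le _ _).trans ?_
      rw [abs_mul]
      push_cast
      have h3 := mul_le_mul_of_nonneg_left h2 (abs_nonneg t)
      have h4 : |t| * L ≤ 1 := by nlinarith [abs_nonneg t]
      have h5 := mul_le_mul_of_nonneg_right h4 (dist_nonneg (x := x) (y := y))
      nlinarith
    · have h1 : η y = 0 := image_eq_zero_of_notMem_tsupport fun h => hy.2 (hs h)
      simp only [h1, mul_zero, add_zero]
      exact hu.2 y hy
  have h0 := hloc.hasDerivAt_eq_zero hd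
  simp only [zero_mul, add_zero, zero_smul] at h0
  have h1 : ∫ y in Rho a b, ACW.ig (ACW.fa u) (ACW.fb u) η y = 0 := h0
  rw [setIntegral_eq_integral_of_forall_compl_eq_zero fun y hy =>
    ACW.ig_zero (ACW.fa u) (ACW.fb u) fun h => hy (hs h)] at h1
  exact h1

end ECut

open ECut in
theorem exS (hReg : RegS) (hCW : CWS) (hMin : MinS) (hCut : CutS) (hNeu : NeuS) : ExS := by
  intro a b ha hb
  set K : ℝ≥0 := (2 / a + 2 / b).toNNReal with hK
  obtain ⟨u, hu⟩ := hMin a b (K + 1) ha hb (by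
    have := Real.le_coe_toNNReal (2 / a + 2 / b)
    push_cast
    linarith)
  obtain ⟨h1, h2⟩ := hNeu a b u ha hb hu.1.1.continuous.continuousOn hu.1.2
    (hCut a b _ u ha hb hu)
  obtain ⟨w, hw, he⟩ := h2.extend_real
  have hwa : Adm a b K w := ⟨hw, fun y hy => by rw [← he hy.1]; exact hu.1.2 y hy⟩
  have harea : area a b w = area a b u := by
    refine setIntegral_congr_fun EMin.rho_meas fun y hy => ?_
    have h : u =ᶠ[𝓝 y] w := eventually_of_mem (rho_open.mem_nhds hy) fun z hz =>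
      he (EMin.rho_sub hz)
    simp only [ACW.grad_congr h, h.eq_of_nhds]
  have hweak : Weak w (Rho a b) := weak_of_min ha hb hwa fun v hv => harea.trans_le (hu.2 v hv)
  have hana : AnalyticOnNhd ℝ w (Rho a b) := by
    intro y hy
    obtain ⟨r, hr, h⟩ := isOpen_iff.1 rho_open y hy
    obtain ⟨C, hC⟩ := hReg K (max ‖y‖ |w y|) 0
    exact (hC w y (min r 1) (lt_min hr one_pos) (min_le_right _ _) (le_max_left _ _)
      (le_max_right _ _) hw.lipschitzOnWith fun η L k1 k2 k3 => hweak η L k1 k2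
        (k3.trans ((ball_subset_ball (min_le_left _ _)).trans h))).1
  refine ⟨w, ha, hb, hw.continuous.continuousOn, fun y hy => ?_, fun y hy => ?_, hana,
    (hCW w _ rho_open (hana.contDiffOn_of_completeSpace)).1 hweak⟩
  · rw [← he hy]
    exact (h1 y hy).1
  · rw [← he hy]
    exact (h1 y hy).2

theorem lfS (hEx : ExS) : LfS := by
  intro l hl
  have h1 : 0 < Real.tan (l / 2) :=
    Real.tan_pos_of_pos_of_lt_pi_div_two (by linarith [hl.1]) (by linarith [hl.2])
  have h : ∃ u, IsLeaf (aL l) √2 u := hEx _ _ (mul_pos (by positivity) h1) (by positivity)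
  rw [lf, dif_pos h]
  exact h.choose_spec

end Pool.Agent.Lib.MP_16d934_gt
end
end

-- part Pool.Agent.Lib.MP_16d934_gt.ELawa
section

/-! Lawson surfaces as orbits of leaves: tools and the reflection principle. -/

set_option autoImplicit false

open Set Metric Filter Topology Asymptotics
open scoped ContDiff InnerProductSpace NNReal Real

noncomputable section

namespace Pool.Agent.Lib.MP_16d934_gt.ELaw

/-! ### Germs and charts -/

theorem germ_eq (hM : MeqS) (hC : ChartS) {S S' : Set E4} (hS : IsMin S) (hS' : IsMin S') {p : E4}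
    (hp : p ∈ S) (h : ∀ᶠ x in 𝓝[S] p, x ∈ S') : 𝓝[S] p = 𝓝[S'] p := by
  obtain ⟨O, δ, δ', u, u', hδ, hδ', hu, hu', -, e1, e2⟩ :=
    BTouch.two hM hC hS hS' hp (h.self_of_nhdsWithin hp)
  have f0 := (hC.facts S O _ u hu 0 (mem_ball_self hδ)).2.2
  rw [e1] at f0
  obtain ⟨V, hV, eV⟩ := hu'.rel _ Subset.rfl isOpen_ball
  have pV : p ∈ V := (eV.subset ⟨0, mem_ball_self hδ', e2⟩).2
  have ev : ∀ᶠ y in 𝓝 (0 : P2), gX O u y ∈ V :=
    (hM.ana O u 0 (hu.sol.1 0 (mem_ball_self hδ))).1.continuousAt (e1 ▸ hV.mem_nhds pV)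
  rw [← f0, eventually_map] at h
  have := BTouch.nhds_eq hC hu hu' (mem_ball_self hδ) (mem_ball_self hδ') (by
    filter_upwards [ev, h] with y a b
    obtain ⟨y', -, c⟩ := eV.symm.subset ⟨b, a⟩
    obtain ⟨rfl, d⟩ := BTouch.gX_inj c
    exact d.symm)
  rwa [e1, e2] at this

theorem lch {S : Set E4} {O : Iso} {δ : ℝ} {u : P2 → ℝ} (h : Chart S O δ u) :
    LChart S O (ball 0 δ) u := ⟨isOpen_ball, h.sol, h.rel⟩

theorem gX0 {S : Set E4} {O : Iso} {δ : ℝ} {u : P2 → ℝ} (h : Chart S O δ u) :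
    gX O u 0 = O (ee 0) := by rw [gX, h.zero, BTouch.gn_zero]

theorem near {S : Set E4} {O : Iso} {δ : ℝ} {u : P2 → ℝ} (h : Chart S O δ u) :
    ∀ᶠ q : P2 × ℝ in 𝓝 (0, 0), O (gn q.1 q.2) ∈ S → u q.1 = q.2 := by
  obtain ⟨V, hV, eV⟩ := h.rel _ Subset.rfl isOpen_ball
  have pV : BTouch.Xi O (0, 0) ∈ V := by
    have := (eV.subset ⟨0, mem_ball_self h.pos, rfl⟩).2
    rwa [gX, h.zero] at this
  filter_upwards [(BTouch.ana_Xi O (0, 0)).continuousAt (hV.mem_nhds pV)] with q a b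
  obtain ⟨y, -, c⟩ := eV.symm.subset ⟨b, a⟩
  obtain ⟨rfl, d⟩ := BTouch.gX_inj (v := fun _ => q.2) c
  exact d

theorem fill (hM : MeqS) (hC : ChartS) {S L : Set E4} {O : Iso} {U W : Set P2} {u : P2 → ℝ}
    (hl : LChart S O U u) (hW : IsPreconnected W) (hWs : W ⊆ U)
    (h : ∀ y ∈ W, gX O u y ∈ closure L → ∀ᶠ x in 𝓝[S] (gX O u y), x ∈ L)
    (hne : ∃ y ∈ W, gX O u y ∈ L) : ∀ y ∈ W, gX O u y ∈ L := by
  have key : ∀ y ∈ W, gX O u y ∈ closure L → ∀ᶠ y' in 𝓝 y, gX O u y' ∈ L := fun y hy a => by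
    have := h y hy a
    rwa [← (hC.facts S O U u hl y (hWs hy)).2.2, eventually_map] at this
  obtain ⟨y, hy, a⟩ := hne
  have := hW.subset_of_closure_inter_subset (u := {y | ∀ᶠ y' in 𝓝 y, gX O u y' ∈ L})
    isOpen_setOfPred_eventually_nhds ⟨y, hy, key y hy (subset_closure a)⟩ (by
      rintro z ⟨z1, z2⟩
      refine key z z2 (mem_closure_of_frequently_of_tendsto
        ((mem_closure_iff_frequently.1 z1).mono fun w hw => hw.self_of_nhds)
        (hM.ana O u z (hl.sol.1 z (hWs z2))).1.continuousAt))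
  exact fun z hz => (this hz).self_of_nhds

theorem clopen {S A : Set E4} (hS : IsPreconnected S) (hA : IsClosed A) (hne : (S ∩ A).Nonempty)
    (h : ∀ x ∈ S, x ∈ A → ∀ᶠ y in 𝓝[S] x, y ∈ A) : S ⊆ A := by
  intro p hp
  by_contra hn
  obtain ⟨q, hq, hq'⟩ := hne
  have hB : IsOpen {p | ∀ᶠ x in 𝓝[S] p, x ∈ A} := by
    simp only [eventually_nhdsWithin_iff]
    exact isOpen_setOfPred_eventually_nhds
  obtain ⟨x, x1, x2, x3⟩ := hS _ Aᶜ hB hA.isOpen_compl
    (fun x hx => (em (x ∈ A)).imp (h x hx) id) ⟨q, hq, h q hq hq'⟩ ⟨p, hp, hn⟩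
  exact x3 (Eventually.self_of_nhdsWithin x2 x1)

theorem half (δ : ℝ) (f : P2 →L[ℝ] ℝ) : Convex ℝ (ball (0 : P2) δ ∩ {y | 0 < f y}) :=
  (convex_ball 0 δ).inter (convex_halfSpace_gt f.isLinear 0)

theorem punct {δ : ℝ} (hδ : 0 < δ) : IsPreconnected (ball (0 : P2) δ \ {0}) := by
  let a := ContinuousLinearMap.fst ℝ ℝ ℝ
  let b := ContinuousLinearMap.snd ℝ ℝ ℝ
  have m : ∀ s t : ℝ, |s| = δ / 2 → |t| = δ / 2 → (s, t) ∈ ball (0 : P2) δ := fun s t hs ht => by
    simp [Prod.norm_def, hs, ht, hδ]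
  have p1 : |δ / 2| = δ / 2 := abs_of_pos (by positivity)
  have p2 : |-(δ / 2)| = δ / 2 := by rw [abs_neg, p1]
  have un : ∀ {A B : Set P2} (x : P2), IsPreconnected A → IsPreconnected B → x ∈ A → x ∈ B →
      IsPreconnected (A ∪ B) := fun x hA hB h1 h2 => hA.union x h1 h2 hB
  have h0 := un (δ / 2, δ / 2) (half δ a).isPreconnected (half δ b).isPreconnected
    ⟨m _ _ p1 p1, by simpa [a] using hδ⟩ ⟨m _ _ p1 p1, by simpa [b] using hδ⟩
  have h1 := un (-(δ / 2), δ / 2) h0 (half δ (-a)).isPreconnected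
    (Or.inr ⟨m _ _ p2 p1, by simpa [b] using hδ⟩) ⟨m _ _ p2 p1, by simpa [a] using hδ⟩
  have h2 := un (δ / 2, -(δ / 2)) h1 (half δ (-b)).isPreconnected
    (Or.inl (Or.inl ⟨m _ _ p1 p2, by simpa [a] using hδ⟩)) ⟨m _ _ p1 p2, by simpa [b] using hδ⟩
  convert h2 using 1
  ext y
  simp only [Set.mem_sdiff, mem_singleton_iff, mem_union, mem_inter_iff, mem_ofPred_eq, a, b,
    ContinuousLinearMap.coe_fst', ContinuousLinearMap.coe_snd', neg_apply, Left.neg_pos_iff]
  constructor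
  · rintro ⟨h, h0⟩
    rcases lt_trichotomy y.1 0 with c | c | c
    · exact Or.inl (Or.inr ⟨h, c⟩)
    · rcases lt_trichotomy y.2 0 with d | d | d
      · exact Or.inr ⟨h, d⟩
      · exact absurd (Prod.ext c d) h0
      · exact Or.inl (Or.inl (Or.inr ⟨h, d⟩))
    · exact Or.inl (Or.inl (Or.inl ⟨h, c⟩))
  · rintro (((⟨h, c⟩ | ⟨h, c⟩) | ⟨h, c⟩) | ⟨h, c⟩) <;> refine ⟨h, ?_⟩ <;> rintro rfl <;>
      simp at c

theorem vertex (hM : MeqS) (hC : ChartS) {S A F : Set E4} (hS : IsMin S) (hA : IsClosed A)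
    (hAS : A ⊆ S) (hF : F.Finite) (h : ∀ x ∈ A, x ∉ F → ∀ᶠ y in 𝓝[S] x, y ∈ A) {p : E4}
    (hp : p ∈ closure (A \ F)) : ∀ᶠ y in 𝓝[S] p, y ∈ A := by
  have hpA : p ∈ A := hA.closure_subset (closure_mono sdiff_subset hp)
  by_cases hpF : p ∈ F
  swap
  · exact h p hpA hpF
  have hn := (hC.nor_spec S hS p (hAS hpA)).1
  obtain ⟨⟨O, o0, o3⟩, -⟩ := hM.frame p _ (hC.unit S hS p (hAS hpA)) hn.1 hn.2.1
  obtain ⟨δ, u, hu⟩ := hC.chart S hS O (o0 ▸ hAS hpA) (o0 ▸ o3 ▸ hn)
  have e0 : gX O u 0 = p := (gX0 hu).trans o0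
  have f0 := (hC.facts S O _ u (lch hu) 0 (mem_ball_self hu.pos)).2.2
  rw [e0] at f0
  have c0 : Tendsto (gX O u) (𝓝 0) (𝓝 p) := (le_of_eq f0).trans nhdsWithin_le_nhds
  have hF' : (F \ {p})ᶜ ∈ 𝓝 p :=
    (hF.subset sdiff_subset).isClosed.isOpen_compl.mem_nhds fun h => h.2 rfl
  obtain ⟨r, hr, hb⟩ := Metric.eventually_nhds_iff_ball.1
    (Eventually.and (c0.eventually hF') (ball_mem_nhds 0 hu.pos))
  have fr : ∃ᶠ y in 𝓝 (0 : P2), gX O u y ∈ A \ F := by
    rw [← frequently_map (P := fun x => x ∈ A \ F), f0, frequently_nhdsWithin_iff]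
    exact (mem_closure_iff_frequently.1 hp).mono fun x hx => ⟨hx, hAS hx.1⟩
  obtain ⟨y, y1, y2⟩ := (fr.and_eventually (ball_mem_nhds 0 hr)).exists
  have := fill hM hC (L := A) (lch hu) (punct hr) (fun y hy => (hb y hy.1).2)
    (fun y hy a => h _ (hA.closure_subset a) fun b => (hb y hy.1).1
      ⟨b, fun e => hy.2 (BTouch.gX_inj (e.trans e0.symm)).1⟩)
    ⟨y, ⟨y2, fun e => y1.2 (by rw [e, e0]; exact hpF)⟩, y1.1⟩
  rw [← f0, eventually_map]
  filter_upwards [ball_mem_nhds 0 hr] with z hz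
  rcases eq_or_ne z 0 with rfl | e
  · rwa [e0]
  · exact this z ⟨hz, e⟩

theorem tangent {S : Set E4} {p n b : E4} (hn : IsNor S p n)
    (h : ∀ᶠ r in 𝓝[>] (0 : ℝ), Real.cos r • p + Real.sin r • b ∈ S) : ⟪n, b⟫_ℝ = 0 := by
  have d : HasDerivAt (fun r => Real.cos r • p + Real.sin r • b) b 0 :=
    (((Real.hasDerivAt_cos 0).smul_const p).add
      ((Real.hasDerivAt_sin 0).smul_const b)).congr_deriv (by simp)
  have t : Tendsto (fun r => Real.cos r • p + Real.sin r • b) (𝓝[>] 0) (𝓝[S] p) :=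
    tendsto_nhdsWithin_iff.2 ⟨by simpa using d.continuousAt.tendsto.mono_left nhdsWithin_le_nhds, h⟩
  have h1 := (hn.2.2.comp_tendsto t).trans_isBigO
    (show _ =O[𝓝[>] 0] fun r : ℝ => r - 0 by
      simpa [Function.comp_def] using d.hasFDerivAt.isBigO_sub.mono nhdsWithin_le_nhds)
  have h2 : HasDerivWithinAt (fun r => ⟪n, Real.cos r • p + Real.sin r • b⟫_ℝ) 0 (Ioi 0) 0 := by
    rw [hasDerivWithinAt_iff_isLittleO]
    simpa [Function.comp_def, hn.2.1] using h1
  have h3 : HasDerivAt (fun r => ⟪n, Real.cos r • p + Real.sin r • b⟫_ℝ) ⟪n, b⟫_ℝ 0 :=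
    (innerSL ℝ n).hasFDerivAt.comp_hasDerivAt 0 d
  exact (uniqueDiffWithinAt_Ioi (0 : ℝ)).eq_deriv _ h3.hasDerivWithinAt h2

/-! ### Leading terms -/

theorem le_of_ev {φ C : ℝ} (h : ∀ᶠ r in 𝓝[>] (0 : ℝ), φ ≤ C * r) : φ ≤ 0 := by
  have : Tendsto (fun r : ℝ => C * r) (𝓝 0) (𝓝 0) :=
    (show Continuous fun r : ℝ => C * r by fun_prop).tendsto' _ _ (mul_zero _)
  exact ge_of_tendsto (this.mono_left nhdsWithin_le_nhds) h

theorem ev_small (v : ℂ) {δ : ℝ} (hδ : 0 < δ) : ∀ᶠ r : ℝ in 𝓝[>] 0, ‖(r : ℂ) * v‖ < δ :=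
  ((show Continuous fun r : ℝ => ‖(r : ℂ) * v‖ by fun_prop).continuousAt.eventually_lt
    continuousAt_const (by simpa using hδ)).filter_mono nhdsWithin_le_nhds

theorem lead_le {w : P2 → ℝ} {T : ℂ →L[ℝ] P2} {m : ℕ} {c : ℂ} (h : Lead w 0 T m c) (v : ℂ) {ε : ℝ}
    (hε : |ε| = 1) (hw : ∀ᶠ r : ℝ in 𝓝[>] 0, ε * w (T (r * v)) ≤ 0) :
    ε * (c * v ^ m).re ≤ 0 := by
  obtain ⟨-, C, δ, hδ, h⟩ := h
  refine le_of_ev (C := C * ‖v‖ ^ (m + 1)) ?_
  filter_upwards [hw, ev_small v hδ, self_mem_nhdsWithin] with r a b hr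
  have hr' : 0 < r := hr
  have h1 := (h _ b).2.1
  have e : (c * ((r : ℂ) * v) ^ m).re = r ^ m * (c * v ^ m).re := by
    rw [mul_pow, mul_left_comm, ← Complex.ofReal_pow, Complex.re_ofReal_mul]
  rw [zero_add, e, norm_mul, Complex.norm_real, Real.norm_of_nonneg hr'.le] at h1
  have h2 := neg_abs_le (ε * (w (T (r * v)) - r ^ m * (c * v ^ m).re))
  rw [abs_mul, hε, one_mul] at h2
  refine le_of_mul_le_mul_left ?_ (pow_pos hr' m)
  have e2 : r ^ m * (C * ‖v‖ ^ (m + 1) * r) = C * (r * ‖v‖) ^ (m + 1) := by ring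
  rw [e2]
  linarith

theorem lead_eq {w : P2 → ℝ} {T : ℂ →L[ℝ] P2} {m : ℕ} {c : ℂ} (h : Lead w 0 T m c) (v : ℂ)
    (hw : ∀ᶠ r : ℝ in 𝓝[>] 0, w (T (r * v)) = 0) : (c * v ^ m).re = 0 := by
  have h1 := lead_le h v (ε := 1) (by simp) (hw.mono fun r hr => by simp [hr])
  have h2 := lead_le h v (ε := -1) (by simp) (hw.mono fun r hr => by simp [hr])
  linarith

/-- the reflection in the second axis -/
def rf : P2 ≃L[ℝ] P2 := (ContinuousLinearEquiv.neg ℝ).prodCongr (ContinuousLinearEquiv.refl ℝ ℝ)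

theorem rf_apply (y : P2) : rf y = (-y.1, y.2) := rfl

theorem no_lead {w : P2 → ℝ} {m : ℕ} {c : ℂ} (hm : 1 ≤ m) (h : Lead w 0 T0 m c)
    (h1 : ∀ y, w (rf y) = w y) (h2 : ∀ᶠ r in 𝓝 (0 : ℝ), w (0, r) = 0) : False := by
  have e : ∀ r : ℝ, T0 (r * Complex.I) = (0, r) := fun r => by simp [T0]
  have a1 := lead_eq h Complex.I ((h2.filter_mono nhdsWithin_le_nhds).mono fun r hr => by rwa [e])
  obtain ⟨hc, C, δ, hδ, h⟩ := h
  have a2 : |(c * m * Complex.I ^ (m - 1)).re| ≤ 0 := by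
    refine le_of_ev (C := C) ?_
    filter_upwards [ev_small Complex.I hδ, self_mem_nhdsWithin] with r b hr
    have hr' : 0 < r := hr
    obtain ⟨d, -, h3⟩ := h _ b
    have h4 := h3 1
    rw [zero_add, e] at d h4
    have h5 : fderiv ℝ w (0, r) (T0 1) = 0 := by
      have f1 : fderiv ℝ w (0, r) = (fderiv ℝ w (0, r)).comp (rf : P2 →L[ℝ] P2) := by
        have := rf.comp_right_fderiv (f := w) (x := (0, r))
        rwa [show w ∘ rf = w from funext h1, show rf (0, r) = (0, r) by simp [rf_apply]] at this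
      have f2 := ContinuousLinearMap.ext_iff.1 f1 (T0 1)
      have f3 : (rf : P2 →L[ℝ] P2) (T0 1) = -T0 1 := by simp [rf_apply, T0]
      rw [ContinuousLinearMap.comp_apply, f3, map_neg] at f2
      linarith
    have e2 : (c * m * ((r : ℂ) * Complex.I) ^ (m - 1) * 1).re
        = r ^ (m - 1) * (c * m * Complex.I ^ (m - 1)).re := by
      rw [mul_one, mul_pow, mul_left_comm, ← Complex.ofReal_pow, Complex.re_ofReal_mul]
    rw [h5, e2, zero_sub, abs_neg, abs_mul, abs_of_pos (pow_pos hr' _)] at h4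
    refine le_of_mul_le_mul_left (h4.trans_eq ?_) (pow_pos hr' (m - 1))
    obtain ⟨k, rfl⟩ := Nat.exists_eq_add_of_le' hm
    simp [abs_of_pos hr']
    ring
  obtain ⟨k, rfl⟩ := Nat.exists_eq_add_of_le' hm
  have a3 : (c * Complex.I ^ k).re = 0 := by
    have := abs_nonpos_iff.1 a2
    rw [Nat.add_sub_cancel, mul_right_comm, ← Complex.ofReal_natCast, Complex.re_mul_ofReal] at this
    exact (mul_eq_zero.1 this).resolve_right (by positivity)
  rw [pow_succ, ← mul_assoc, Complex.mul_I_re, neg_eq_zero] at a1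
  exact mul_ne_zero hc (pow_ne_zero k Complex.I_ne_zero) (Complex.ext a3 a1)

theorem angle {c : ℂ} {m : ℕ} {A : ℝ} (hc : c ≠ 0) (hm : 1 ≤ m) (hA : 0 < A)
    (h1 : (c * cis A ^ m).re = 0) (h2 : (c * cis (-A) ^ m).re = 0)
    (h3 : ∀ β, |β| < A → (c * cis β ^ m).re ≤ 0) : 2 * A = π / m := by
  have hm' : (0 : ℝ) < m := by exact_mod_cast hm
  have key : ∀ τ : ℝ, (c * cis (-A + τ) ^ m).re = -(c * cis (-A) ^ m).im * Real.sin (m * τ) := by
    intro τ
    have e : cis (-A + τ) ^ m = cis (-A) ^ m * Complex.exp ((m * τ : ℝ) * Complex.I) := by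
      simp only [cis, ← Complex.exp_nat_mul, ← Complex.exp_add]
      congr 1
      push_cast
      ring
    rw [e, ← mul_assoc, Complex.mul_re, h2, Complex.exp_ofReal_mul_I_im]
    ring
  have hk : (c * cis (-A) ^ m).im ≠ 0 := fun h =>
    mul_ne_zero hc (pow_ne_zero m (Complex.exp_ne_zero _)) (Complex.ext h2 h)
  have h4 := key (2 * A)
  rw [show -A + 2 * A = A by ring, h1] at h4
  obtain ⟨j, hj⟩ := Real.sin_eq_zero_iff.1
    ((mul_eq_zero.1 h4.symm).resolve_left (neg_ne_zero.2 hk))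
  have j0 : 0 < j := by
    have : (0 : ℝ) < j * π := by rw [hj]; positivity
    exact_mod_cast (mul_pos_iff_of_pos_right Real.pi_pos).1 this
  have j1 : j = 1 := by
    by_contra hn
    have j2 : (2 : ℝ) ≤ j := by exact_mod_cast (by omega : 2 ≤ j)
    have hA2 : π / m ≤ A := by
      rw [div_le_iff₀ hm']
      nlinarith [Real.pi_pos]
    have hp : 0 < π / m := by positivity
    have a := h3 (-A + π / m / 2) (abs_lt.2 ⟨by linarith, by linarith⟩)
    have b := h3 (-A + 3 * (π / m) / 2) (abs_lt.2 ⟨by linarith, by linarith⟩)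
    rw [key, show m * (π / m / 2) = π / 2 by field_simp, Real.sin_pi_div_two] at a
    rw [key, show m * (3 * (π / m) / 2) = π / 2 + π by field_simp; ring, Real.sin_add_pi,
      Real.sin_pi_div_two] at b
    exact hk (by linarith)
  rw [j1] at hj
  rw [eq_div_iff hm'.ne']
  push_cast at hj
  linarith

/-! ### Isometries -/

/-- complex conjugation in both planes -/
def cj : Iso := rf1.trans rf3

/-- geodesic reflection -/
def gR (s t : ℝ) : Iso := cj.trans (rot (2 * t) (2 * s))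

theorem gR_def (s t : ℝ) (x : E4) : gR s t x = rot (2 * t) (2 * s) (cj x) := rfl

theorem gR_eq (s t : ℝ) (x : E4) : geoRefl (vP s) (vQ t) x = gR s t x := by
  ext i
  fin_cases i <;>
    simp [geoRefl, gR, cj, rot, rf1, rf3, mkO_apply, inner4, vP, vQ, Real.cos_two_mul,
      Real.sin_two_mul]
  · ring
  · linear_combination (2 * x 1) * Real.sin_sq_add_cos_sq t
  · ring
  · linear_combination (2 * x 3) * Real.sin_sq_add_cos_sq s

theorem rot_rot (θ φ θ' φ' : ℝ) (x : E4) : rot θ φ (rot θ' φ' x) = rot (θ + θ') (φ + φ') x := by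
  ext i
  fin_cases i <;> simp [rot, mkO_apply, Real.cos_add, Real.sin_add] <;> ring

theorem cj_rot (θ φ : ℝ) (x : E4) : cj (rot θ φ x) = rot (-θ) (-φ) (cj x) := by
  ext i
  fin_cases i <;> simp [rot, cj, rf1, rf3, mkO_apply] <;> ring

theorem cj_cj (x : E4) : cj (cj x) = x := by
  ext i
  fin_cases i <;> simp [cj, rf1, rf3, mkO_apply]

theorem rot_zero (x : E4) : rot 0 0 x = x := by
  ext i
  fin_cases i <;> simp [rot, mkO_apply]

theorem rot_per (θ φ : ℝ) (j k : ℤ) (x : E4) :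
    rot (θ + j * (2 * π)) (φ + k * (2 * π)) x = rot θ φ x := by
  ext i
  fin_cases i <;> simp [rot, mkO_apply]

theorem gR_rot (s t θ φ : ℝ) (x : E4) :
    gR s t (rot θ φ x) = rot (2 * t - θ) (2 * s - φ) (cj x) := by
  rw [gR_def, cj_rot, rot_rot, ← sub_eq_add_neg, ← sub_eq_add_neg]

theorem gR_gR (s t s' t' : ℝ) (x : E4) :
    gR s t (gR s' t' x) = rot (2 * t - 2 * t') (2 * s - 2 * s') x := by
  rw [gR_def s', gR_rot, cj_cj]

theorem gR_inv (s t : ℝ) (x : E4) : gR s t (gR s t x) = x := by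
  rw [gR_gR, sub_self, sub_self, rot_zero]

theorem rot_vP (θ φ s : ℝ) : rot θ φ (vP s) = vP (φ + s) := by
  ext i
  fin_cases i <;> simp [rot, mkO_apply, vP, Real.cos_add, Real.sin_add] <;> ring

theorem gR_vP (s t s' : ℝ) : gR s t (vP s') = vP (2 * s - s') := by
  rw [gR_def, show cj (vP s') = vP (-s') by
    ext i
    fin_cases i <;> simp [cj, rf1, rf3, mkO_apply, vP], rot_vP, sub_eq_add_neg]

theorem gam_cj (hI : InvS) (θ φ : ℝ) : Gam (cj.trans (rot θ φ)) := fun x => by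
  change aa (rot θ φ (rf3 (rf1 x))) = _
  rw [hI.gams.1, hI.gams.2.2.2.2, hI.gams.2.2.2.1]

theorem aa_cone (α β s t : ℝ) : aa (α • vP s + β • vQ t) = β ^ 2 := by
  simp [aa, vP, vQ]
  linear_combination β ^ 2 * Real.sin_sq_add_cos_sq t

theorem norm_cone {α β : ℝ} (h : α ^ 2 + β ^ 2 = 1) (s t : ℝ) : ‖α • vP s + β • vQ t‖ = 1 := by
  have : ‖α • vP s + β • vQ t‖ ^ 2 = 1 := by
    rw [← real_inner_self_eq_norm_sq, inner4]
    simp [vP, vQ]
    linear_combination β ^ 2 * Real.sin_sq_add_cos_sq t + α ^ 2 * Real.sin_sq_add_cos_sq s + h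
  nlinarith [norm_nonneg (α • vP s + β • vQ t)]

/-- the arc from `vP s` to `vQ t` lies in `S` -/
def ArcIn (S : Set E4) (s t : ℝ) : Prop :=
  ∀ α β : ℝ, 0 ≤ α → 0 ≤ β → α ^ 2 + β ^ 2 = 1 → α • vP s + β • vQ t ∈ S

theorem edge_chart (hM : MeqS) (hC : ChartS) {S : Set E4} (hS : IsMin S) {s t α β : ℝ}
    (h : ArcIn S s t) (hα : 0 < α) (hβ : 0 < β) (h1 : α ^ 2 + β ^ 2 = 1) :
    ∃ O δ u, Chart S O δ u ∧ O (ee 0) = α • vP s + β • vQ t ∧
      (∀ y z, gR s t (O (gn y z)) = O (gn (rf y) (-z))) ∧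
      ∀ᶠ r in 𝓝 (0 : ℝ), u (0, r) = 0 ∧ ∀ Z, ArcIn Z s t → O (gn (0, r) 0) ∈ Z := by
  have hp := h α β hα.le hβ.le h1
  have hn := (hC.nor_spec S hS _ hp).1
  have hb : ⟪nor S (α • vP s + β • vQ t), (-β) • vP s + α • vQ t⟫_ℝ = 0 := by
    refine tangent hn ?_
    have c1 : ∀ᶠ r in 𝓝 (0 : ℝ), 0 < Real.cos r * α - Real.sin r * β :=
      continuousAt_const.eventually_lt (by fun_prop) (by simpa using hα)
    have c2 : ∀ᶠ r in 𝓝 (0 : ℝ), 0 < Real.cos r * β + Real.sin r * α :=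
      continuousAt_const.eventually_lt (by fun_prop) (by simpa using hβ)
    filter_upwards [(c1.and c2).filter_mono nhdsWithin_le_nhds] with r ⟨a, b⟩
    convert h _ _ a.le b.le (by
      linear_combination (α ^ 2 + β ^ 2) * Real.sin_sq_add_cos_sq r + h1) using 1
    module
  obtain ⟨O, o0, o2, o3⟩ := (hM.frame _ _ (norm_cone h1 s t) hn.1 hn.2.1).2
    ((-β) • vP s + α • vQ t) (norm_cone (by linarith) s t) (by
      rw [inner4]
      simp [vP, vQ]
      linear_combination α * β * Real.sin_sq_add_cos_sq t - α * β * Real.sin_sq_add_cos_sq s)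
    (by rw [real_inner_comm, hb])
  obtain ⟨δ, u, hu⟩ := hC.chart S hS O (o0 ▸ hp) (o0 ▸ o3 ▸ hn)
  have eP : vP s = O (α • ee 0 - β • ee 2) := by
    rw [map_sub, map_smul, map_smul, o0, o2]
    match_scalars
    · linear_combination -h1
    · ring
  have eQ : vQ t = O (β • ee 0 + α • ee 2) := by
    rw [map_add, map_smul, map_smul, o0, o2]
    match_scalars
    · linear_combination -h1
    · ring
  have hz : ∀ᶠ r in 𝓝 (0 : ℝ), ∀ Z, ArcIn Z s t → O (gn (0, r) 0) ∈ Z := by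
    have c1 : ∀ᶠ r in 𝓝 (0 : ℝ), 0 < α - r * β :=
      continuousAt_const.eventually_lt (by fun_prop) (by simpa using hα)
    have c2 : ∀ᶠ r in 𝓝 (0 : ℝ), 0 < β + r * α :=
      continuousAt_const.eventually_lt (by fun_prop) (by simpa using hβ)
    filter_upwards [c1, c2] with r a b Z hZ
    have hρ := BTouch.rho_pos (0, r) 0
    have hρ2 := Real.sq_sqrt (show 0 ≤ 1 + (0, r).1 ^ 2 + (0, r).2 ^ 2 + (0 : ℝ) ^ 2 by positivity)
    rw [BTouch.gn_eq]
    generalize √(1 + (0, r).1 ^ 2 + (0, r).2 ^ 2 + (0 : ℝ) ^ 2) = ρ at hρ hρ2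
    convert hZ (ρ⁻¹ * (α - r * β)) (ρ⁻¹ * (β + r * α)) (by positivity) (by positivity) (by
      field_simp
      linear_combination (1 + r ^ 2) * h1 - hρ2) using 1
    simp only [map_smul, map_add, o0, o2, zero_smul, add_zero]
    module
  refine ⟨O, δ, u, hu, o0, fun y z => ?_, ?_⟩
  · rw [← gR_eq, geoRefl, eP, eQ, O.inner_map_map, O.inner_map_map, ← map_smul, ← map_smul,
      ← map_add, ← map_sub]
    congr 1
    ext i
    fin_cases i <;> simp [inner4, ee, gn, rf_apply]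
    · linear_combination 2 * (√(1 + y.1 ^ 2 + y.2 ^ 2 + z ^ 2))⁻¹ * h1
    · linear_combination 2 * (√(1 + y.1 ^ 2 + y.2 ^ 2 + z ^ 2))⁻¹ * y.2 * h1
  · have t0 : Tendsto (fun r : ℝ => (((0, r), 0) : P2 × ℝ)) (𝓝 0) (𝓝 (0, 0)) :=
      (show Continuous fun r : ℝ => (((0, r), 0) : P2 × ℝ) by fun_prop).tendsto' _ _ rfl
    filter_upwards [t0.eventually (near hu), hz] with r a b
    exact ⟨a (b S h), b⟩

theorem refl (hM : MeqS) (hC : ChartS) (hTo : TouchS) (hL : LeadS) (hI : InvS) (hT : TetS)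
    {S : Set E4} (hS : IsMin S) (hc : IsCompact S) (hS' : IsPreconnected S) {s t : ℝ}
    (h : ArcIn S s t) : ∀ x ∈ S, gR s t x ∈ S := by
  obtain ⟨O, δ, u, hu, o0, hg, hz⟩ := edge_chart hM hC hS h (α := 3 / 5) (β := 4 / 5)
    (by norm_num) (by norm_num) (by norm_num)
  have h0 := mem_ball_self (x := (0 : P2)) hu.pos
  have hs : Sol (fun y => -u (rf y)) (rf ⁻¹' ball 0 δ) :=
    hT.neg _ _ ((hT.orth rf fun x y => by simp [dot, rf_apply]).1 u _ hu.sol)
  have h0' : (0 : P2) ∈ rf ⁻¹' ball 0 δ := by simpa using hu.pos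
  have hd := (hu.sol.1 0 h0).differentiableAt
  rcases hL (BTouch.Xi O) u (fun y => -u (rf y)) 0 T0 (BTouch.ana_Xi O _) (BTouch.inj_Xi O _)
    (Eventually.of_forall fun s => by rw [BTouch.Xi, O.norm_map, BTouch.norm_gn]) (hu.sol.1 0 h0)
    (hs.1 0 h0') (by simp [hu.zero]) (by
      have := rf.comp_right_fderiv (f := u) (x := 0)
      rw [map_zero, hu.dzero] at this
      rw [fderiv_fun_neg, hu.dzero]
      exact (neg_eq_zero.2 (this.trans (ContinuousLinearMap.zero_comp _))).symm)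
    (BTouch.sol_ev hM O isOpen_ball hu.sol h0)
    (BTouch.sol_ev hM O (isOpen_ball.preimage rf.continuous) hs h0') (fun v => by
      refine (congrArg norm (BTouch.fderiv_gX O hd hu.zero hu.dzero (T0 v))).trans ?_
      rw [O.norm_map, EuclideanSpace.norm_eq, Complex.norm_eq_sqrt_sq_add_sq, Fin.sum_univ_four]
      simp [T0, ee]) with he | ⟨m, c, hm, he⟩
  · have f0 := hC.facts S O _ u (lch hu) 0 h0
    have := hTo.cont S (gR s t '' S) hS (hI.min _ S hS) hS'
      (fun x hx => (hc.image (gR s t).continuous).isClosed.closure_subset hx.2) ⟨_, f0.1, by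
        rw [← f0.2.2, eventually_map]
        filter_upwards [he, (isOpen_ball.preimage rf.continuous).mem_nhds h0'] with y a b
        refine ⟨_, (hC.facts S O _ u (lch hu) _ b).1, ?_⟩
        rw [gX, hg, gX, a]
        simp [rf_apply]⟩
    intro x hx
    obtain ⟨y, hy, rfl⟩ := this hx
    rwa [gR_inv]
  · exact (no_lead (by omega) he (fun y => by simp [rf_apply, add_comm])
      (hz.mono fun r hr => by simp [rf_apply, hr.1])).elim

end Pool.Agent.Lib.MP_16d934_gt.ELaw
end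
end
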