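import Pool.Agent.Lib.MP_16d934_gt.StC

/-! Small heights give small slopes; the two ends of the family of leaves. -/

set_option autoImplicit false

open Set Metric Filter Topology MeasureTheory Asymptotics
open scoped ContDiff InnerProductSpace NNReal Real

noncomputable section

namespace Pool.Agent.Lib.MP_16d934_gt

namespace ELim

/-! ### Euclidean length in the plane -/

/-- Euclidean length -/
def en (y : P2) : ℝ := √(dot y y)

theorem dot_self_nonneg (y : P2) : 0 ≤ dot y y := by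
  unfold dot; nlinarith [sq_nonneg y.1, sq_nonneg y.2]

theorem en_nonneg (y : P2) : 0 ≤ en y := Real.sqrt_nonneg _

theorem norm_le_en (y : P2) : ‖y‖ ≤ en y := by
  rw [Prod.norm_def]
  refine max_le ?_ ?_
  · rw [Real.norm_eq_abs]
    exact Real.abs_le_sqrt (by unfold dot; nlinarith [sq_nonneg y.2])
  · rw [Real.norm_eq_abs]
    exact Real.abs_le_sqrt (by unfold dot; nlinarith [sq_nonneg y.1])

theorem abs1_le (y : P2) : |y.1| ≤ ‖y‖ := by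
  simpa [Real.norm_eq_abs] using norm_fst_le y

theorem abs2_le (y : P2) : |y.2| ≤ ‖y‖ := by
  simpa [Real.norm_eq_abs] using norm_snd_le y

theorem dot_self_le (y : P2) : dot y y ≤ (2 * ‖y‖) ^ 2 := by
  have h1 := abs1_le y
  have h2 := abs2_le y
  have h3 : y.1 ^ 2 ≤ ‖y‖ ^ 2 := by
    rw [← sq_abs]; exact pow_le_pow_left₀ (abs_nonneg _) h1 2
  have h4 : y.2 ^ 2 ≤ ‖y‖ ^ 2 := by
    rw [← sq_abs]; exact pow_le_pow_left₀ (abs_nonneg _) h2 2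
  unfold dot
  nlinarith [sq_nonneg ‖y‖]

theorem en_le_norm (y : P2) : en y ≤ 2 * ‖y‖ :=
  Real.sqrt_le_iff.2 ⟨by positivity, dot_self_le y⟩

theorem sq_dot_le {ν : P2} (h : dot ν ν = 1) (y : P2) : dot y ν ^ 2 ≤ dot y y := by
  unfold dot at *
  nlinarith [sq_nonneg (y.1 * ν.2 - y.2 * ν.1)]

theorem abs_dot_le_en {ν : P2} (h : dot ν ν = 1) (y : P2) : |dot y ν| ≤ en y :=
  Real.abs_le_sqrt (sq_dot_le h y)

theorem abs_dot_le_norm {ν : P2} (h : dot ν ν = 1) (y : P2) : |dot y ν| ≤ 2 * ‖y‖ :=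
  (abs_dot_le_en h y).trans (en_le_norm y)

theorem en_smul {ν : P2} (h : dot ν ν = 1) (t : ℝ) : en (t • ν) = |t| := by
  have : dot (t • ν) (t • ν) = t ^ 2 := by
    unfold dot at *
    simp only [Prod.smul_fst, Prod.smul_snd, smul_eq_mul]
    linear_combination t ^ 2 * h
  rw [en, this, Real.sqrt_sq_eq_abs]

theorem dot_sub (x y ν : P2) : dot (x - y) ν = dot x ν - dot y ν := by
  simp only [dot, Prod.fst_sub, Prod.snd_sub]; ring

theorem dot_smul (t : ℝ) (y ν : P2) : dot (t • y) ν = t * dot y ν := by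
  simp only [dot, Prod.smul_fst, Prod.smul_snd, smul_eq_mul]; ring

theorem dot_comm (x y : P2) : dot x y = dot y x := by
  simp only [dot]; ring

theorem continuous_dot (ν : P2) : Continuous fun y : P2 => dot y ν := by
  unfold dot; fun_prop

theorem continuous_dot_self : Continuous fun y : P2 => dot y y := by
  unfold dot; fun_prop

theorem rfl2_invol {ν : P2} (h : dot ν ν = 1) (y : P2) : rfl2 ν (rfl2 ν y) = y := by
  unfold dot at h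
  ext
  · simp only [rfl2, dot, Prod.fst_sub, Prod.snd_sub, Prod.smul_fst, Prod.smul_snd, smul_eq_mul]
    linear_combination (4 * (y.1 * ν.1 + y.2 * ν.2) * ν.1) * h
  · simp only [rfl2, dot, Prod.fst_sub, Prod.snd_sub, Prod.smul_fst, Prod.smul_snd, smul_eq_mul]
    linear_combination (4 * (y.1 * ν.1 + y.2 * ν.2) * ν.2) * h

theorem dot_rfl2 (ν x y : P2) : dot (rfl2 ν x) y = dot x (rfl2 ν y) := by
  simp only [rfl2, dot, Prod.fst_sub, Prod.snd_sub, Prod.smul_fst, Prod.smul_snd, smul_eq_mul]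
  ring

theorem dot_rfl2' (ν x y : P2) : dot x (rfl2 ν y) = dot x y - 2 * dot y ν * dot x ν := by
  simp only [rfl2, dot, Prod.fst_sub, Prod.snd_sub, Prod.smul_fst, Prod.smul_snd, smul_eq_mul]
  ring

theorem dot_rfl2_nu {ν : P2} (h : dot ν ν = 1) (y : P2) : dot (rfl2 ν y) ν = -dot y ν := by
  rw [dot_rfl2, dot_rfl2', h]; ring

theorem dot_rfl2_self {ν : P2} (h : dot ν ν = 1) (y : P2) :
    dot (rfl2 ν y) (rfl2 ν y) = dot y y := by
  rw [dot_rfl2, rfl2_invol h]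

theorem rfl2_sub (ν x y : P2) : rfl2 ν x - rfl2 ν y = rfl2 ν (x - y) := by
  ext <;>
  simp only [rfl2, dot, Prod.fst_sub, Prod.snd_sub, Prod.smul_fst, Prod.smul_snd, smul_eq_mul] <;>
  ring

theorem en_rfl2 {ν : P2} (h : dot ν ν = 1) (x y : P2) :
    en (rfl2 ν x - rfl2 ν y) = en (x - y) := by
  rw [rfl2_sub, en, en, dot_rfl2_self h]

/-- projection to the line orthogonal to `ν` -/
def pj (ν y : P2) : P2 := y - dot y ν • ν

theorem dot_pj (ν y w : P2) : dot (pj ν y) w = dot y w - dot y ν * dot ν w := by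
  rw [pj, dot_sub, dot_smul]

theorem dot_pj_self {ν : P2} (h : dot ν ν = 1) (y : P2) :
    dot (pj ν y) (pj ν y) = dot y y - dot y ν ^ 2 := by
  unfold dot at h
  simp only [pj, dot, Prod.fst_sub, Prod.snd_sub, Prod.smul_fst, Prod.smul_snd, smul_eq_mul]
  linear_combination (y.1 * ν.1 + y.2 * ν.2) ^ 2 * h

/-- Lipschitz bound for the Euclidean length -/
def EL (L : ℝ) (f : P2 → ℝ) (K : Set P2) : Prop :=
  ∀ y ∈ K, ∀ y' ∈ K, |f y - f y'| ≤ L * en (y - y')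

theorem EL.mono {L : ℝ} {f : P2 → ℝ} {K K' : Set P2} (h : EL L f K) (hK : K' ⊆ K) : EL L f K' :=
  fun y hy y' hy' => h y (hK hy) y' (hK hy')

theorem el_of_lip {L : ℝ≥0} {f : P2 → ℝ} {K : Set P2} (h : LipschitzOnWith L f K) :
    EL L f K := fun y hy y' hy' => by
  have h1 := h.dist_le_mul y hy y' hy'
  rw [Real.dist_eq, dist_eq_norm] at h1
  exact h1.trans (mul_le_mul_of_nonneg_left (norm_le_en _) L.coe_nonneg)

theorem EL.lip {L : ℝ≥0} {f : P2 → ℝ} {K : Set P2} (h : EL L f K) :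
    LipschitzOnWith (2 * L) f K := by
  refine LipschitzOnWith.of_dist_le_mul fun y hy y' hy' => ?_
  rw [Real.dist_eq, dist_eq_norm]
  refine (h y hy y' hy').trans ?_
  have := mul_le_mul_of_nonneg_left (en_le_norm (y - y')) L.coe_nonneg
  push_cast
  linarith

/-! ### Odd extension across a line -/

open Classical in
/-- odd extension -/
def oe (ν : P2) (f : P2 → ℝ) (y : P2) : ℝ := if 0 ≤ dot y ν then f y else -f (rfl2 ν y)

theorem oe_pos {ν : P2} {f : P2 → ℝ} {y : P2} (h : 0 ≤ dot y ν) : oe ν f y = f y := if_pos h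

theorem oe_neg {ν : P2} {f : P2 → ℝ} {y : P2} (h : dot y ν < 0) :
    oe ν f y = -f (rfl2 ν y) := if_neg (not_le.2 h)

theorem ext_lip {ν : P2} (hν : dot ν ν = 1) {L : ℝ} (hL0 : 0 ≤ L) {f : P2 → ℝ} {K : Set P2}
    (hK : ∀ y ∈ K, rfl2 ν y ∈ K ∧ pj ν y ∈ K) (hL : EL L f (K ∩ {y | 0 ≤ dot y ν}))
    (h0 : ∀ y ∈ K, dot y ν = 0 → f y = 0) : EL L (oe ν f) K := by
  have key : ∀ y ∈ K, 0 ≤ dot y ν → |f y| ≤ L * dot y ν := by
    intro y hy hp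
    have h1 : dot (pj ν y) ν = 0 := by rw [dot_pj, hν]; ring
    have h2 := hL y ⟨hy, hp⟩ (pj ν y) ⟨(hK y hy).2, h1.ge⟩
    rw [h0 _ (hK y hy).2 h1, sub_zero, pj, sub_sub_cancel, en_smul hν, abs_of_nonneg hp] at h2
    exact h2
  have mixed : ∀ y ∈ K, ∀ y' ∈ K, 0 ≤ dot y ν → dot y' ν < 0 →
      |f y + f (rfl2 ν y')| ≤ L * |dot y ν - dot y' ν| := by
    intro y hy y' hy' hp hn
    have h1 := key y hy hp
    have h2 := key (rfl2 ν y') (hK y' hy').1 (by rw [dot_rfl2_nu hν]; linarith)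
    rw [dot_rfl2_nu hν] at h2
    rw [abs_of_nonneg (by linarith : 0 ≤ dot y ν - dot y' ν)]
    have := abs_add_le (f y) (f (rfl2 ν y'))
    linarith
  intro y hy y' hy'
  rcases le_or_gt 0 (dot y ν) with hp | hn <;> rcases le_or_gt 0 (dot y' ν) with hp' | hn'
  · rw [oe_pos hp, oe_pos hp']
    exact hL y ⟨hy, hp⟩ y' ⟨hy', hp'⟩
  · rw [oe_pos hp, oe_neg hn', sub_neg_eq_add]
    refine (mixed y hy y' hy' hp hn').trans (mul_le_mul_of_nonneg_left ?_ hL0)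
    rw [← dot_sub]; exact abs_dot_le_en hν _
  · rw [oe_neg hn, oe_pos hp', ← neg_add', abs_neg, add_comm]
    refine (mixed y' hy' y hy hp' hn).trans (mul_le_mul_of_nonneg_left ?_ hL0)
    rw [abs_sub_comm, ← dot_sub]; exact abs_dot_le_en hν _
  · rw [oe_neg hn, oe_neg hn', neg_sub_neg, abs_sub_comm, ← en_rfl2 hν]
    exact hL _ ⟨(hK y hy).1, by simp only [mem_ofPred_eq, dot_rfl2_nu hν]; linarith⟩ _
      ⟨(hK y' hy').1, by simp only [mem_ofPred_eq, dot_rfl2_nu hν]; linarith⟩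

theorem d1_congr {f g : P2 → ℝ} {y : P2} (h : f =ᶠ[𝓝 y] g) : d1 f =ᶠ[𝓝 y] d1 g := by
  filter_upwards [h.fderiv (𝕜 := ℝ)] with x hx
  simp only [d1, hx]

theorem d2_congr {f g : P2 → ℝ} {y : P2} (h : f =ᶠ[𝓝 y] g) : d2 f =ᶠ[𝓝 y] d2 g := by
  filter_upwards [h.fderiv (𝕜 := ℝ)] with x hx
  simp only [d2, hx]

theorem sol_congr {f g : P2 → ℝ} {U : Set P2} (hU : IsOpen U) (h : EqOn f g U) (hs : Sol f U) :
    Sol g U := by
  refine ⟨hs.1.congr hU h, fun y hy => ?_⟩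
  have h1 : f =ᶠ[𝓝 y] g := eventuallyEq_of_mem (hU.mem_nhds hy) h
  have h2 := hs.2 y hy
  simp only [gAt] at h2 ⊢
  rw [← (d1_congr h1).eq_of_nhds, ← (d2_congr h1).eq_of_nhds,
    ← (d1_congr (d1_congr h1)).eq_of_nhds, ← (d1_congr (d2_congr h1)).eq_of_nhds,
    ← (d2_congr (d2_congr h1)).eq_of_nhds, ← h hy]
  exact h2

theorem sol_mono {f : P2 → ℝ} {U V : Set P2} (hs : Sol f U) (h : V ⊆ U) : Sol f V :=
  ⟨hs.1.mono h, fun y hy => hs.2 y (h hy)⟩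

theorem weak_mono {f : P2 → ℝ} {U V : Set P2} (hs : Weak f U) (h : V ⊆ U) : Weak f V :=
  fun η L h1 h2 h3 => hs η L h1 h2 (h3.trans h)

theorem weak_of_sol (hCW : CWS) {f : P2 → ℝ} {U : Set P2} (hU : IsOpen U) (hs : Sol f U) :
    Weak f U :=
  (hCW f U hU (hs.1.contDiffOn hU.uniqueDiffOn)).2 hs.2

theorem sol_of_weak (hReg : RegS) (hCW : CWS) {f : P2 → ℝ} {U : Set P2} {L : ℝ≥0} (hU : IsOpen U)
    (hL : LipschitzOnWith L f U) (hw : Weak f U) : Sol f U := by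
  have ha : AnalyticOnNhd ℝ f U := by
    intro y hy
    obtain ⟨ε, hε, hb⟩ := Metric.isOpen_iff.1 hU y hy
    obtain ⟨C, hC⟩ := hReg L (max ‖y‖ |f y|) 1
    have hsub : ball y (min ε 1) ⊆ U := (ball_subset_ball (min_le_left _ _)).trans hb
    exact (hC f y (min ε 1) (lt_min hε one_pos) (min_le_right _ _) (le_max_left _ _)
      (le_max_right _ _) (hL.mono hsub) (weak_mono hw hsub)).1
  exact ⟨ha, (hCW f U hU (ha.contDiffOn hU.uniqueDiffOn)).1 hw⟩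

theorem ext_sol (hReg : RegS) (hCW : CWS) (hRem : RemS) {ν : P2} (hν : dot ν ν = 1) {L : ℝ≥0}
    {f : P2 → ℝ} {U : Set P2} (hU : IsOpen U) (hK : ∀ y ∈ U, rfl2 ν y ∈ U)
    (hL : EL L (oe ν f) U) (h0 : ∀ y ∈ U, dot y ν = 0 → f y = 0)
    (hs : Sol f (U ∩ {y | 0 < dot y ν})) : Sol (oe ν f) U := by
  have ho : IsOpen (U ∩ {y | 0 < dot y ν}) :=
    hU.inter (isOpen_lt continuous_const (continuous_dot ν))
  have h1 : Sol (oe ν f) (U ∩ {y | 0 < dot y ν}) :=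
    sol_congr ho (fun y hy => (oe_pos (le_of_lt hy.2)).symm) hs
  refine sol_of_weak hReg hCW hU hL.lip
    (hRem.1 _ U (2 * L) ν hU hν (fun y hy => ⟨hK y hy, ?_⟩) hL.lip (weak_of_sol hCW ho h1))
  rcases lt_trichotomy (dot y ν) 0 with hn | hz | hp
  · rw [oe_neg hn, oe_pos (by rw [dot_rfl2_nu hν]; linarith), neg_neg]
  · have h2 : rfl2 ν y = y := by simp [rfl2, hz]
    rw [h2, oe_pos hz.ge, h0 y hy hz, neg_zero]
  · rw [oe_neg (by rw [dot_rfl2_nu hν]; linarith), rfl2_invol hν, oe_pos hp.le]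

/-! ### The interior estimate -/

theorem est (hReg : RegS) (hCW : CWS) (hInt : IntS) (hDer : DerS) (L : ℝ≥0) (R η d : ℝ)
    (hη : 0 < η) (hd : 0 < d) (hd1 : d ≤ 1) : ∃ m > 0, ∀ (f : P2 → ℝ) (y : P2),
      Sol f (ball y d) → LipschitzOnWith L f (ball y d) → (∀ x ∈ ball y d, |f x| ≤ m) →
      ‖y‖ ≤ R → |d1 f y| ≤ η ∧ |d2 f y| ≤ η := by
  obtain ⟨C, hC⟩ := hReg L (|R| + 1) 2
  obtain ⟨C', hC'⟩ := hInt 2 le_rfl
  set M : ℝ := |C| * (d / 2) / (d / 2) ^ 2 with hM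
  have hM0 : 0 ≤ M := by positivity
  set K : ℝ := |C'| + 1 with hK
  have hK0 : 0 < K := by positivity
  set h : ℝ := min (d / 2) (η / (2 * K * (M + 1))) with hh
  have hh0 : 0 < h := lt_min (by positivity) (by positivity)
  have hh1 : h ≤ d / 2 := min_le_left _ _
  have hh2 : h ≤ η / (2 * K * (M + 1)) := min_le_right _ _
  refine ⟨min 1 (η * h / (2 * K)), lt_min one_pos (by positivity), fun f y hs hL hm hy => ?_⟩
  have hsub : ball y h ⊆ ball y d := ball_subset_ball (by linarith)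
  have h2 : ∀ x ∈ ball y h, ‖iteratedFDeriv ℝ 2 f x‖ ≤ M := by
    intro x hx
    have hx' : dist x y < h := hx
    have hb : ball x (d / 2) ⊆ ball y d := ball_subset_ball' (by linarith)
    have hxn : ‖x‖ ≤ |R| + 1 := by
      have h3 : ‖x‖ ≤ ‖y‖ + ‖x - y‖ := norm_le_insert' x y
      rw [← dist_eq_norm] at h3
      linarith [le_abs_self R]
    have hfx : |f x| ≤ |R| + 1 := by
      have := (hm x (hsub hx)).trans (min_le_left _ _)
      linarith [abs_nonneg R]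
    refine ((hC f x (d / 2) (by positivity) (by linarith) hxn hfx (hL.mono hb)
      (weak_of_sol hCW isOpen_ball (sol_mono hs hb))).2 2 (by norm_num) le_rfl).trans ?_
    rw [hM]
    gcongr
    exact le_abs_self C
  have h3 := hC' f y h (min 1 (η * h / (2 * K))) M hh0 (hs.1.mono hsub)
    (fun x hx => hm x (hsub hx)) h2 1 (by norm_num)
  have h4 : ‖iteratedFDeriv ℝ 1 f y‖ ≤ η := by
    refine h3.trans ?_
    have h5 : min 1 (η * h / (2 * K)) / h ^ 1 ≤ η / (2 * K) := by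
      rw [pow_one, div_le_iff₀ hh0]
      refine (min_le_right _ _).trans (le_of_eq ?_)
      ring
    have h6 : M * h ^ (2 - 1) ≤ η / (2 * K) := by
      rw [show 2 - 1 = 1 from rfl, pow_one]
      calc M * h ≤ (M + 1) * (η / (2 * K * (M + 1))) := by gcongr; linarith
        _ = η / (2 * K) := by field_simp
    have h7 : 0 ≤ min 1 (η * h / (2 * K)) / h ^ 1 + M * h ^ (2 - 1) := by positivity
    calc C' * (min 1 (η * h / (2 * K)) / h ^ 1 + M * h ^ (2 - 1))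
        ≤ K * (min 1 (η * h / (2 * K)) / h ^ 1 + M * h ^ (2 - 1)) := by
          gcongr; linarith [le_abs_self C']
      _ ≤ K * (η / (2 * K) + η / (2 * K)) := by gcongr
      _ = η := by field_simp; ring
  have h8 := hDer f y (hs.1 y (mem_ball_self hd))
  exact ⟨h8.2.2.2.1.trans h4, h8.2.2.2.2.1.trans h4⟩

/-! ### Wedges and doubling -/

/-- open wedge between two lines -/
def WO (ρ : ℝ) (ν₁ ν₂ : P2) : Set P2 := {y | 0 < dot y ν₁ ∧ 0 < dot y ν₂ ∧ dot y y < ρ ^ 2}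

/-- the wedge with its sides -/
def WC (ρ : ℝ) (ν₁ ν₂ : P2) : Set P2 := {y | 0 ≤ dot y ν₁ ∧ 0 ≤ dot y ν₂ ∧ dot y y < ρ ^ 2}

theorem isOpen_WO (ρ : ℝ) (ν₁ ν₂ : P2) : IsOpen (WO ρ ν₁ ν₂) :=
  (isOpen_lt continuous_const (continuous_dot ν₁)).inter
    ((isOpen_lt continuous_const (continuous_dot ν₂)).inter
      (isOpen_lt continuous_dot_self continuous_const))

theorem WO_subset (ρ : ℝ) (ν₁ ν₂ : P2) : WO ρ ν₁ ν₂ ⊆ WC ρ ν₁ ν₂ :=
  fun _ hy => ⟨hy.1.le, hy.2.1.le, hy.2.2⟩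

/-- small solutions on a wedge that vanish on the sides -/
structure Good (ρ : ℝ) (L : ℝ≥0) (m : ℝ) (ν₁ ν₂ : P2) (f : P2 → ℝ) : Prop where
  u1 : dot ν₁ ν₁ = 1
  u2 : dot ν₂ ν₂ = 1
  sol : Sol f (WO ρ ν₁ ν₂)
  lip : EL L f (WC ρ ν₁ ν₂)
  zero : ∀ y ∈ WC ρ ν₁ ν₂, dot y ν₁ = 0 ∨ dot y ν₂ = 0 → f y = 0
  bd : ∀ y ∈ WC ρ ν₁ ν₂, |f y| ≤ m

theorem WO_comm (ρ : ℝ) (ν₁ ν₂ : P2) : WO ρ ν₁ ν₂ = WO ρ ν₂ ν₁ := by
  ext y; simp only [WO, mem_ofPred_eq]; tauto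

theorem WC_comm (ρ : ℝ) (ν₁ ν₂ : P2) : WC ρ ν₁ ν₂ = WC ρ ν₂ ν₁ := by
  ext y; simp only [WC, mem_ofPred_eq]; tauto

theorem Good.symm {ρ : ℝ} {L : ℝ≥0} {m : ℝ} {ν₁ ν₂ : P2} {f : P2 → ℝ}
    (h : Good ρ L m ν₁ ν₂ f) : Good ρ L m ν₂ ν₁ f :=
  ⟨h.u2, h.u1, WO_comm ρ ν₁ ν₂ ▸ h.sol, WC_comm ρ ν₁ ν₂ ▸ h.lip,
    fun y hy hz => h.zero y (WC_comm ρ ν₁ ν₂ ▸ hy) hz.symm,
    fun y hy => h.bd y (WC_comm ρ ν₁ ν₂ ▸ hy)⟩

theorem Good.double (hReg : RegS) (hCW : CWS) (hRem : RemS) {ρ : ℝ} {L : ℝ≥0} {m : ℝ}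
    {ν₁ ν₂ : P2} {f : P2 → ℝ} (h : Good ρ L m ν₁ ν₂ f) (hs : dot ν₁ ν₂ ≤ 0) :
    Good ρ L m ν₁ (rfl2 ν₂ ν₁) (oe ν₂ f) := by
  have h2 := h.u2
  have hr : ∀ y ∈ WC ρ ν₁ (rfl2 ν₂ ν₁), rfl2 ν₂ y ∈ WC ρ ν₁ (rfl2 ν₂ ν₁) := fun y hy =>
    ⟨by rw [dot_rfl2]; exact hy.2.1, by rw [dot_rfl2, rfl2_invol h2]; exact hy.1,
      by rw [dot_rfl2_self h2]; exact hy.2.2⟩
  have hp : ∀ y ∈ WC ρ ν₁ (rfl2 ν₂ ν₁), pj ν₂ y ∈ WC ρ ν₁ (rfl2 ν₂ ν₁) := by
    intro y hy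
    obtain ⟨a, b, c⟩ := hy
    rw [dot_rfl2'] at b
    refine ⟨?_, ?_, ?_⟩
    · rw [dot_pj, dot_comm ν₂ ν₁]; linarith
    · rw [dot_rfl2', dot_pj, dot_pj, h2, dot_comm ν₂ ν₁]; linarith
    · rw [dot_pj_self h2]; linarith [sq_nonneg (dot y ν₂)]
  have hc : ∀ y ∈ WC ρ ν₁ (rfl2 ν₂ ν₁), 0 ≤ dot y ν₂ → y ∈ WC ρ ν₁ ν₂ := fun y hy hy' =>
    ⟨hy.1, hy', hy.2.2⟩
  have hlip : EL L (oe ν₂ f) (WC ρ ν₁ (rfl2 ν₂ ν₁)) :=
    ext_lip h2 L.coe_nonneg (fun y hy => ⟨hr y hy, hp y hy⟩)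
      (h.lip.mono fun y hy => hc y hy.1 hy.2)
      fun y hy hz => h.zero y (hc y hy hz.ge) (Or.inr hz)
  have hz : ∀ y ∈ WC ρ ν₁ (rfl2 ν₂ ν₁), 0 ≤ dot y ν₂ →
      dot y ν₁ = 0 ∨ dot y (rfl2 ν₂ ν₁) = 0 → f y = 0 := by
    intro y hy hy' hz
    refine h.zero y (hc y hy hy') (Or.inl ?_)
    rcases hz with hz | hz
    · exact hz
    · rw [dot_rfl2'] at hz
      have := mul_nonneg (neg_nonneg.2 hs) hy'
      exact le_antisymm (by linarith) hy.1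
  refine ⟨h.u1, by rw [dot_rfl2_self h2]; exact h.u1, ?_, hlip, ?_, ?_⟩
  · refine ext_sol hReg hCW hRem h2 (isOpen_WO _ _ _) (fun y hy => ?_)
      (hlip.mono (WO_subset _ _ _))
      (fun y hy hz => h.zero y (hc y (WO_subset _ _ _ hy) hz.ge) (Or.inr hz))
      (sol_mono h.sol fun y hy => ⟨hy.1.1, hy.2, hy.1.2.2⟩)
    exact ⟨by rw [dot_rfl2]; exact hy.2.1, by rw [dot_rfl2, rfl2_invol h2]; exact hy.1,
      by rw [dot_rfl2_self h2]; exact hy.2.2⟩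
  · intro y hy h0
    rcases le_or_gt 0 (dot y ν₂) with hpos | hneg
    · rw [oe_pos hpos]; exact hz y hy hpos h0
    · rw [oe_neg hneg, neg_eq_zero]
      refine hz _ (hr y hy) (by rw [dot_rfl2_nu h2]; linarith) ?_
      rw [dot_rfl2, dot_rfl2, rfl2_invol h2]
      exact h0.symm
  · intro y hy
    rcases le_or_gt 0 (dot y ν₂) with hpos | hneg
    · rw [oe_pos hpos]; exact h.bd y (hc y hy hpos)
    · rw [oe_neg hneg, abs_neg]
      exact h.bd _ (hc _ (hr y hy) (by rw [dot_rfl2_nu h2]; linarith))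

theorem dot_ball {ν : P2} (hν : dot ν ν = 1) {x y : P2} {d : ℝ} (h : x ∈ ball y d) :
    |dot x ν - dot y ν| < 2 * d := by
  rw [← dot_sub]
  have h1 := abs_dot_le_norm hν (x - y)
  rw [mem_ball, dist_eq_norm] at h
  linarith

theorem sq_ball {x y : P2} {d C : ℝ} (h : x ∈ ball y d) (hd : d ≤ 1 / 4) (hC : 0 ≤ C)
    (hy : dot y y ≤ C ^ 2) : dot x x < (C + 1) ^ 2 := by
  rw [mem_ball, dist_eq_norm] at h
  have h1 := dot_self_le (x - y)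
  have h2 : (2 * ‖x - y‖) ^ 2 ≤ (1 / 2) ^ 2 :=
    pow_le_pow_left₀ (by positivity) (by linarith) 2
  have h3 : dot y (x - y) ^ 2 ≤ dot y y * dot (x - y) (x - y) := by
    unfold dot
    nlinarith [sq_nonneg (y.1 * (x - y).2 - y.2 * (x - y).1)]
  have h4 : dot y y * dot (x - y) (x - y) ≤ C ^ 2 * (1 / 2) ^ 2 :=
    mul_le_mul hy (h1.trans h2) (dot_self_nonneg _) (sq_nonneg _)
  have h5 : dot y (x - y) ≤ C / 2 :=
    (abs_le_of_sq_le_sq' (by nlinarith) (by positivity)).2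
  have h6 : dot x x = dot y y + 2 * dot y (x - y) + dot (x - y) (x - y) := by
    simp only [dot, Prod.fst_sub, Prod.snd_sub]; ring
  nlinarith

/-- the interior estimate at a fixed scale -/
def Est (L : ℝ≥0) (R η d m : ℝ) : Prop := ∀ (f : P2 → ℝ) (y : P2),
  Sol f (ball y d) → LipschitzOnWith (2 * L) f (ball y d) → (∀ x ∈ ball y d, |f x| ≤ m) →
  ‖y‖ ≤ R → |d1 f y| ≤ η ∧ |d2 f y| ≤ η

theorem norm_le_of_dot {y : P2} {C : ℝ} (hC : 0 ≤ C) (h : dot y y ≤ C ^ 2) : ‖y‖ ≤ C :=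
  (norm_le_en y).trans (Real.sqrt_le_iff.2 ⟨hC, h⟩)

theorem exists_tau {ν y : P2} (hν : dot ν ν = 1) {d : ℝ} (hd : 0 ≤ d)
    (h : d ^ 2 < dot y y - dot y ν ^ 2) : ∃ τ : P2, dot τ τ = 1 ∧ dot τ ν = 0 ∧ d < dot y τ ∧
      ∀ x w : P2, dot x w = dot x ν * dot w ν + dot x τ * dot w τ := by
  have hdec : ∀ e : ℝ, e ^ 2 = 1 → ∀ x w : P2,
      dot x w = dot x ν * dot w ν + dot x (-e * ν.2, e * ν.1) * dot w (-e * ν.2, e * ν.1) := by
    intro e he x w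
    unfold dot at *
    simp only
    linear_combination (-(x.1 * w.1 + x.2 * w.2)) * hν
      - (x.2 * ν.1 - x.1 * ν.2) * (w.2 * ν.1 - w.1 * ν.2) * he
  have hu : ∀ e : ℝ, e ^ 2 = 1 → dot ((-e * ν.2, e * ν.1) : P2) (-e * ν.2, e * ν.1) = 1 := by
    intro e he
    unfold dot at *
    simp only
    linear_combination e ^ 2 * hν + he
  have ho : ∀ e : ℝ, dot ((-e * ν.2, e * ν.1) : P2) ν = 0 := by
    intro e
    unfold dot
    simp only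
    ring
  have h1 := hdec 1 (by norm_num) y y
  have h2 : dot y (-(-1) * ν.2, -1 * ν.1) = -dot y (-1 * ν.2, 1 * ν.1) := by
    unfold dot; simp only; ring
  rcases le_total 0 (dot y (-1 * ν.2, 1 * ν.1)) with hp | hn
  · exact ⟨_, hu 1 (by norm_num), ho 1, by nlinarith, hdec 1 (by norm_num)⟩
  · exact ⟨_, hu (-1) (by norm_num), ho (-1), by rw [h2]; nlinarith, hdec (-1) (by norm_num)⟩

theorem base1 (hReg : RegS) (hCW : CWS) (hRem : RemS) {L : ℝ≥0} {C η d m : ℝ}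
    (hE : Est L C η d m) (hd : 0 < d) (hd1 : d ≤ 1 / 4) (hC : 0 ≤ C) {ν₁ ν₂ : P2} {f : P2 → ℝ}
    (h : Good (C + 1) L m ν₁ ν₂ f) (hs : 0 ≤ dot ν₁ ν₂) {y : P2} (hy : y ∈ WO (C + 1) ν₁ ν₂)
    (hle : dot y ν₂ ≤ dot y ν₁) (hlo : 8 * d ^ 2 ≤ dot y y) (hhi : dot y y ≤ C ^ 2) :
    |d1 f y| ≤ η ∧ |d2 f y| ≤ η := by
  have h2 := h.u2
  rcases le_or_gt (2 * d) (dot y ν₂) with hfar | hnear
  · have hb : ball y d ⊆ WO (C + 1) ν₁ ν₂ := fun x hx =>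
      ⟨by linarith [(abs_lt.1 (dot_ball h.u1 hx)).1], by linarith [(abs_lt.1 (dot_ball h2 hx)).1],
        sq_ball hx hd1 hC hhi⟩
    exact hE f y (sol_mono h.sol hb) (h.lip.mono (hb.trans (WO_subset _ _ _))).lip
      (fun x hx => h.bd x (WO_subset _ _ _ (hb hx))) (norm_le_of_dot hC hhi)
  · obtain ⟨τ, hτ, hτν, hyτ, hdec⟩ := exists_tau (y := y) h2 (d := 2 * d) (by positivity)
      (by nlinarith [hy.2.1])
    have hs1 : dot ν₁ ν₂ ≤ 1 := by nlinarith [sq_dot_le h2 ν₁, h.u1]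
    have hσ : 0 ≤ dot ν₁ τ := by
      have h3 := hdec y ν₁
      have h4 : 0 ≤ dot y τ * dot ν₁ τ := by nlinarith [hy.2.1]
      exact nonneg_of_mul_nonneg_right h4 (by linarith)
    have hsσ := hdec ν₁ ν₁
    rw [h.u1] at hsσ
    set U : Set P2 := {x | 0 < dot x τ ∧ dot x x < (C + 1) ^ 2} with hU
    have hUo : IsOpen U := (isOpen_lt continuous_const (continuous_dot τ)).inter
      (isOpen_lt continuous_dot_self continuous_const)
    have hr : ∀ x ∈ U, rfl2 ν₂ x ∈ U := fun x hx =>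
      ⟨by rw [dot_rfl2, dot_rfl2', hτν]; linarith [hx.1], by rw [dot_rfl2_self h2]; exact hx.2⟩
    have hp : ∀ x ∈ U, pj ν₂ x ∈ U := fun x hx =>
      ⟨by rw [dot_pj, dot_comm ν₂ τ, hτν]; linarith [hx.1],
        by rw [dot_pj_self h2]; linarith [hx.2, sq_nonneg (dot x ν₂)]⟩
    have hc : ∀ x ∈ U, 0 ≤ dot x ν₂ → x ∈ WC (C + 1) ν₁ ν₂ := fun x hx hx' =>
      ⟨by rw [hdec x ν₁]; exact add_nonneg (mul_nonneg hx' hs) (mul_nonneg hx.1.le hσ), hx', hx.2⟩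
    have hco : ∀ x ∈ U, 0 < dot x ν₂ → x ∈ WO (C + 1) ν₁ ν₂ := by
      intro x hx hx'
      refine ⟨?_, hx', hx.2⟩
      rw [hdec x ν₁]
      rcases hs.eq_or_lt with hz | hz
      · have : 0 < dot ν₁ τ := by
          rcases hσ.eq_or_lt with hz' | hz'
          · rw [← hz, ← hz'] at hsσ; norm_num at hsσ
          · exact hz'
        exact add_pos_of_nonneg_of_pos (mul_nonneg hx'.le hs) (mul_pos hx.1 this)
      · exact add_pos_of_pos_of_nonneg (mul_pos hx' hz) (mul_nonneg hx.1.le hσ)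
    have h0 : ∀ x ∈ U, dot x ν₂ = 0 → f x = 0 := fun x hx hz =>
      h.zero x (hc x hx hz.ge) (Or.inr hz)
    have hlip : EL L (oe ν₂ f) U := ext_lip h2 L.coe_nonneg (fun x hx => ⟨hr x hx, hp x hx⟩)
      (h.lip.mono fun x hx => hc x hx.1 hx.2) h0
    have hsol : Sol (oe ν₂ f) U := ext_sol hReg hCW hRem h2 hUo hr hlip h0
      (sol_mono h.sol fun x hx => hco x hx.1 hx.2)
    have hb : ball y d ⊆ U := fun x hx =>
      ⟨by linarith [(abs_lt.1 (dot_ball hτ hx)).1], sq_ball hx hd1 hC hhi⟩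
    have hbd : ∀ x ∈ U, |oe ν₂ f x| ≤ m := by
      intro x hx
      rcases le_or_gt 0 (dot x ν₂) with hpos | hneg
      · rw [oe_pos hpos]; exact h.bd x (hc x hx hpos)
      · rw [oe_neg hneg, abs_neg]
        exact h.bd _ (hc _ (hr x hx) (by rw [dot_rfl2_nu h2]; linarith))
    have h5 := hE (oe ν₂ f) y (sol_mono hsol hb) (hlip.mono hb).lip (fun x hx => hbd x (hb hx))
      (norm_le_of_dot hC hhi)
    have h6 : oe ν₂ f =ᶠ[𝓝 y] f := by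
      filter_upwards [(isOpen_WO _ _ _).mem_nhds hy] with x hx using oe_pos hx.2.1.le
    rwa [(d1_congr h6).eq_of_nhds, (d2_congr h6).eq_of_nhds] at h5

theorem base (hReg : RegS) (hCW : CWS) (hRem : RemS) {L : ℝ≥0} {C η d m : ℝ}
    (hE : Est L C η d m) (hd : 0 < d) (hd1 : d ≤ 1 / 4) (hC : 0 ≤ C) {ν₁ ν₂ : P2} {f : P2 → ℝ}
    (h : Good (C + 1) L m ν₁ ν₂ f) (hs : 0 ≤ dot ν₁ ν₂) {y : P2} (hy : y ∈ WO (C + 1) ν₁ ν₂)
    (hlo : 8 * d ^ 2 ≤ dot y y) (hhi : dot y y ≤ C ^ 2) : |d1 f y| ≤ η ∧ |d2 f y| ≤ η := by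
  rcases le_total (dot y ν₂) (dot y ν₁) with hle | hle
  · exact base1 hReg hCW hRem hE hd hd1 hC h hs hy hle hlo hhi
  · exact base1 hReg hCW hRem hE hd hd1 hC h.symm (by rwa [dot_comm]) (WO_comm _ _ _ ▸ hy) hle
      hlo hhi

theorem step (hReg : RegS) (hCW : CWS) (hRem : RemS) {L : ℝ≥0} {C η d m : ℝ}
    (hE : Est L C η d m) (hd : 0 < d) (hd1 : d ≤ 1 / 4) (hC : 0 ≤ C) (n : ℕ) :
    ∀ (ν₁ ν₂ : P2) (f : P2 → ℝ), Good (C + 1) L m ν₁ ν₂ f → 1 ≤ 2 ^ n * (1 + dot ν₁ ν₂) →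
      ∀ y ∈ WO (C + 1) ν₁ ν₂, 8 * d ^ 2 ≤ dot y y → dot y y ≤ C ^ 2 →
        |d1 f y| ≤ η ∧ |d2 f y| ≤ η := by
  induction n with
  | zero =>
    intro ν₁ ν₂ f h hn y hy hlo hhi
    exact base hReg hCW hRem hE hd hd1 hC h (by linarith) hy hlo hhi
  | succ n ih =>
    intro ν₁ ν₂ f h hn y hy hlo hhi
    rcases le_total 0 (dot ν₁ ν₂) with hs | hs
    · exact base hReg hCW hRem hE hd hd1 hC h hs hy hlo hhi
    · have hs1 : -1 ≤ dot ν₁ ν₂ := by nlinarith [sq_dot_le h.u2 ν₁, h.u1]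
      have h1 : 2 * (1 + dot ν₁ ν₂) ≤ 1 + dot ν₁ (rfl2 ν₂ ν₁) := by
        rw [dot_rfl2', h.u1]
        nlinarith
      have h2 : (0 : ℝ) ≤ 2 ^ n := by positivity
      have h3 := ih ν₁ (rfl2 ν₂ ν₁) (oe ν₂ f) (h.double hReg hCW hRem hs)
        (by rw [pow_succ] at hn; nlinarith) y
        ⟨hy.1, by rw [dot_rfl2']; nlinarith [hy.1, hy.2.1], hy.2.2⟩ hlo hhi
      have h6 : oe ν₂ f =ᶠ[𝓝 y] f := by
        filter_upwards [(isOpen_WO _ _ _).mem_nhds hy] with x hx using oe_pos hx.2.1.le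
      rwa [(d1_congr h6).eq_of_nhds, (d2_congr h6).eq_of_nhds] at h3

theorem slope (hReg : RegS) (hCW : CWS) (hRem : RemS) {L : ℝ≥0} {C η d m : ℝ}
    (hE : Est L C η d m) (hd : 0 < d) (hd1 : d ≤ 1 / 4) (hC : 0 ≤ C) {ν₁ ν₂ : P2} {f : P2 → ℝ}
    (h : Good (C + 1) L m ν₁ ν₂ f) (hs : -1 < dot ν₁ ν₂) {y : P2} (hy : y ∈ WO (C + 1) ν₁ ν₂)
    (hlo : 8 * d ^ 2 ≤ dot y y) (hhi : dot y y ≤ C ^ 2) : |d1 f y| ≤ η ∧ |d2 f y| ≤ η := by
  have h1 : 0 < 1 + dot ν₁ ν₂ := by linarith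
  obtain ⟨n, hn⟩ := pow_unbounded_of_one_lt (1 / (1 + dot ν₁ ν₂)) (one_lt_two (α := ℝ))
  rw [div_lt_iff₀ h1] at hn
  exact step hReg hCW hRem hE hd hd1 hC n ν₁ ν₂ f h hn.le y hy hlo hhi

theorem height1 (hReg : RegS) (hCW : CWS) (hRem : RemS) (hDer : DerS) {L : ℝ≥0} {C η d m : ℝ}
    (hE : Est L C η d m) (hd : 0 < d) (hd1 : d ≤ 1 / 4) (hC : 0 ≤ C) (hm : m ≤ 2 * η * d)
    (hη : 0 ≤ η) {ν₁ ν₂ : P2} {f : P2 → ℝ}
    (h : Good (C + 1) L m ν₁ ν₂ f) (hs : -1 < dot ν₁ ν₂) {y : P2} (hy : y ∈ WO (C + 1) ν₁ ν₂)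
    (hle : dot y ν₂ ≤ dot y ν₁) (hlo : 9 * d ^ 2 ≤ dot y y) (hhi : dot y y ≤ C ^ 2) :
    |f y| ≤ 2 * η * dot y ν₂ := by
  have h2 := h.u2
  rcases le_or_gt d (dot y ν₂) with hfar | hnear
  · exact (h.bd y (WO_subset _ _ _ hy)).trans (hm.trans (by gcongr))
  · have ha : 0 < dot y ν₂ := hy.2.1
    have hs1 : dot ν₁ ν₂ ≤ 1 := by nlinarith [sq_dot_le h2 ν₁, h.u1]
    have hsq : ∀ t : ℝ, dot (y - t • ν₂) (y - t • ν₂) = dot y y - 2 * t * dot y ν₂ + t ^ 2 := by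
      intro t
      unfold dot at h2
      simp only [dot, Prod.fst_sub, Prod.snd_sub, Prod.smul_fst, Prod.smul_snd, smul_eq_mul]
      linear_combination t ^ 2 * h2
    have hC1 : C ^ 2 < (C + 1) ^ 2 := by nlinarith
    have hc : ∀ t ∈ Icc 0 (dot y ν₂), y - t • ν₂ ∈ WC (C + 1) ν₁ ν₂ := by
      intro t ht
      refine ⟨?_, ?_, ?_⟩
      · rw [dot_sub, dot_smul, dot_comm ν₂ ν₁]; nlinarith [ht.1, ht.2]
      · rw [dot_sub, dot_smul, h2]; linarith [ht.2]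
      · rw [hsq]; nlinarith [ht.1, ht.2]
    have ho : ∀ t ∈ Ioo 0 (dot y ν₂), y - t • ν₂ ∈ WO (C + 1) ν₁ ν₂ := by
      intro t ht
      refine ⟨?_, ?_, (hc t (Ioo_subset_Icc_self ht)).2.2⟩
      · rw [dot_sub, dot_smul, dot_comm ν₂ ν₁]; nlinarith [ht.1, ht.2]
      · rw [dot_sub, dot_smul, h2]; linarith [ht.2]
    have hcont : ContinuousOn (fun t : ℝ => f (y - t • ν₂)) (Icc 0 (dot y ν₂)) :=
      h.lip.lip.continuousOn.comp (by fun_prop) hc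
    have hder : ∀ t ∈ Ioo 0 (dot y ν₂), HasDerivAt (fun t : ℝ => f (y - t • ν₂))
        (fderiv ℝ f (y - t • ν₂) (-ν₂)) t := by
      intro t ht
      have h3 : HasDerivAt (fun t : ℝ => y - t • ν₂) (-ν₂) t := by
        simpa using ((hasDerivAt_id t).smul_const ν₂).const_sub y
      exact (h.sol.1 _ (ho t ht)).differentiableAt.hasFDerivAt.comp_hasDerivAt t h3
    obtain ⟨t, ht, hslope⟩ := exists_hasDerivAt_eq_slope _ _ ha hcont hder
    have hz : f (y - dot y ν₂ • ν₂) = 0 :=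
      h.zero _ (hc _ ⟨ha.le, le_rfl⟩) (Or.inr (by rw [dot_sub, dot_smul, h2]; ring))
    have hg := slope hReg hCW hRem hE hd hd1 hC h hs (ho t ht)
      (by rw [hsq]; nlinarith [ht.1, ht.2, sq_nonneg (t - dot y ν₂)])
      (by rw [hsq]; nlinarith [ht.1, ht.2])
    rw [(hDer f _ (h.sol.1 _ (ho t ht))).2.2.2.2.2.2.2.2.1, hz, zero_smul, sub_zero, sub_zero,
      eq_div_iff ha.ne'] at hslope
    have hn1 : |ν₂.1| ≤ 1 := by
      unfold dot at h2; exact abs_le_one_iff_mul_self_le_one.2 (by nlinarith)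
    have hn2 : |ν₂.2| ≤ 1 := by
      unfold dot at h2; exact abs_le_one_iff_mul_self_le_one.2 (by nlinarith)
    have h7 : |d1 f (y - t • ν₂) * (-ν₂).1 + d2 f (y - t • ν₂) * (-ν₂).2| ≤ 2 * η := by
      refine (abs_add_le _ _).trans ?_
      rw [abs_mul, abs_mul, Prod.fst_neg, Prod.snd_neg, abs_neg, abs_neg]
      have e1 := mul_le_mul hg.1 hn1 (abs_nonneg _) hη
      have e2 := mul_le_mul hg.2 hn2 (abs_nonneg _) hη
      linarith
    rw [← abs_neg, ← zero_sub, ← hslope, abs_mul, abs_of_pos ha]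
    exact mul_le_mul_of_nonneg_right h7 ha.le

/-! ### The frame at the vertex -/

theorem oq (B : ℝ) (x : E4) : OQ 0 B x 0 = x 0 * Real.cos B - x 3 * Real.sin B ∧
    OQ 0 B x 1 = x 0 * Real.sin B + x 3 * Real.cos B ∧ OQ 0 B x 2 = x 1 ∧ OQ 0 B x 3 = x 2 := by
  refine ⟨?_, ?_, ?_, ?_⟩
  · simp [OQ, mkO_apply]; ring
  · simp [OQ, mkO_apply]
  · simp [OQ, mkO_apply]
  · simp [OQ, mkO_apply]

theorem rho_pos (y : P2) (z : ℝ) : 0 < rho y z := Real.sqrt_pos.2 (by positivity)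

theorem rho_sq (y : P2) (z : ℝ) : rho y z ^ 2 = 1 + y.1 ^ 2 + y.2 ^ 2 + z ^ 2 :=
  Real.sq_sqrt (by positivity)

theorem one_le_rho (y : P2) (z : ℝ) : 1 ≤ rho y z :=
  Real.le_sqrt_of_sq_le (by nlinarith [sq_nonneg y.1, sq_nonneg y.2, sq_nonneg z])

theorem gn_c (y : P2) (z : ℝ) : gn y z 0 = (rho y z)⁻¹ ∧ gn y z 1 = (rho y z)⁻¹ * y.1 ∧
    gn y z 2 = (rho y z)⁻¹ * y.2 ∧ gn y z 3 = (rho y z)⁻¹ * z := by
  refine ⟨?_, ?_, ?_, ?_⟩ <;> simp [gn, rho]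

theorem norm_sq4 (x : E4) : ‖x‖ ^ 2 = x 0 ^ 2 + x 1 ^ 2 + x 2 ^ 2 + x 3 ^ 2 := by
  rw [← real_inner_self_eq_norm_sq, inner4]; ring

theorem exists_gn (B : ℝ) (X : E4) (h : ‖X‖ = 1)
    (hp : 0 < Real.cos B * X 0 + Real.sin B * X 1) : ∃ y z, X = OQ 0 B (gn y z) := by
  set w := Real.cos B * X 0 + Real.sin B * X 1 with hw
  have h1 := norm_sq4 X
  rw [h] at h1
  have hcs := Real.sin_sq_add_cos_sq B
  have hr : rho (X 2 / w, X 3 / w) ((Real.cos B * X 1 - Real.sin B * X 0) / w) = w⁻¹ := by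
    rw [rho, Real.sqrt_eq_iff_mul_self_eq (by positivity) (by positivity)]
    field_simp
    rw [hw]
    linear_combination (X 0 ^ 2 + X 1 ^ 2) * hcs - h1
  refine ⟨(X 2 / w, X 3 / w), (Real.cos B * X 1 - Real.sin B * X 0) / w, ?_⟩
  obtain ⟨a0, a1, a2, a3⟩ := oq B (gn (X 2 / w, X 3 / w) ((Real.cos B * X 1 - Real.sin B * X 0) / w))
  obtain ⟨b0, b1, b2, b3⟩ := gn_c (X 2 / w, X 3 / w) ((Real.cos B * X 1 - Real.sin B * X 0) / w)
  rw [hr, inv_inv] at b0 b1 b2 b3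
  ext i
  fin_cases i
  · simp only [Fin.zero_eta]
    rw [a0, b0, b3]; field_simp; rw [hw]; linear_combination (-X 0) * hcs
  · simp only [Fin.mk_one]
    rw [a1, b0, b3]; field_simp; rw [hw]; linear_combination (-X 1) * hcs
  · simp only [Fin.reduceFinMk]
    rw [a2, b1]; field_simp
  · simp only [Fin.reduceFinMk]
    rw [a3, b2]; field_simp

theorem aa_oq (B : ℝ) (y : P2) (z : ℝ) :
    aa (OQ 0 B (gn y z)) = (1 + z ^ 2) / rho y z ^ 2 := by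
  obtain ⟨a0, a1, -, -⟩ := oq B (gn y z)
  obtain ⟨b0, -, -, b3⟩ := gn_c y z
  have := (rho_pos y z).ne'
  rw [aa, a0, a1, b0, b3]
  field_simp
  linear_combination (1 + z ^ 2) * Real.sin_sq_add_cos_sq B

theorem hq_oq (B : ℝ) (y : P2) (z : ℝ) (h : 0 ≤ OQ 0 B (gn y z) 1) :
    hq B (OQ 0 B (gn y z)) = -z / rho y z := by
  obtain ⟨a0, a1, -, -⟩ := oq B (gn y z)
  obtain ⟨b0, -, -, b3⟩ := gn_c y z
  have := (rho_pos y z).ne'
  rw [hq, abs_of_nonneg h, a0, a1, b0, b3]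
  field_simp
  linear_combination (-z) * Real.sin_sq_add_cos_sq B

theorem hp_oq (A B : ℝ) (y : P2) (z : ℝ) :
    hp A (OQ 0 B (gn y z)) = (Real.sin A * y.1 - Real.cos A * |y.2|) / rho y z := by
  obtain ⟨-, -, a2, a3⟩ := oq B (gn y z)
  obtain ⟨-, b1, b2, -⟩ := gn_c y z
  have := rho_pos y z
  rw [hp, a2, a3, b1, b2, abs_mul, abs_of_pos (inv_pos.2 this)]
  field_simp

theorem u12_oq (B : ℝ) (y : P2) (z p q : ℝ) :
    1 - u12 (OQ 0 B (gn y z)) (OQ 0 B (nrm y z p q)) ^ 2 / aa (OQ 0 B (gn y z))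
      ≤ p ^ 2 + q ^ 2 + (y.1 * p + y.2 * q) ^ 2 := by
  obtain ⟨a0, a1, -, -⟩ := oq B (gn y z)
  obtain ⟨c0, c1, -, -⟩ := oq B (nrm y z p q)
  obtain ⟨b0, -, -, b3⟩ := gn_c y z
  set W := √(1 + p ^ 2 + q ^ 2 + (z - y.1 * p - y.2 * q) ^ 2) with hW
  have hW0 : 0 < W := Real.sqrt_pos.2 (by positivity)
  have hW2 : W ^ 2 = 1 + p ^ 2 + q ^ 2 + (z - y.1 * p - y.2 * q) ^ 2 :=
    Real.sq_sqrt (by positivity)
  have n0 : nrm y z p q 0 = W⁻¹ * (y.1 * p + y.2 * q - z) := by simp [nrm, hW]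
  have n3 : nrm y z p q 3 = W⁻¹ := by simp [nrm, hW]
  have hr := rho_pos y z
  have hu : u12 (OQ 0 B (gn y z)) (OQ 0 B (nrm y z p q))
      = (1 + z ^ 2 - z * (y.1 * p + y.2 * q)) / (rho y z * W) := by
    rw [u12, a0, a1, c0, c1, b0, b3, n0, n3]
    field_simp
    linear_combination (1 + z ^ 2 - z * (y.1 * p + y.2 * q)) * Real.sin_sq_add_cos_sq B
  have h1 : 1 - u12 (OQ 0 B (gn y z)) (OQ 0 B (nrm y z p q)) ^ 2 / aa (OQ 0 B (gn y z))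
      = ((1 + z ^ 2) * (p ^ 2 + q ^ 2) + (y.1 * p + y.2 * q) ^ 2) / ((1 + z ^ 2) * W ^ 2) := by
    rw [hu, aa_oq]
    field_simp
    rw [hW2]
    ring
  have h2 : 1 ≤ W ^ 2 := by
    rw [hW2]; nlinarith [sq_nonneg p, sq_nonneg q, sq_nonneg (z - y.1 * p - y.2 * q)]
  rw [h1, div_le_iff₀ (by positivity)]
  have h3 : 1 + z ^ 2 ≤ (1 + z ^ 2) * W ^ 2 := le_mul_of_one_le_right (by positivity) h2
  have h4 : 1 ≤ (1 + z ^ 2) * W ^ 2 := by nlinarith [sq_nonneg z]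
  have h5 := mul_le_mul_of_nonneg_right h3 (by positivity : 0 ≤ p ^ 2 + q ^ 2)
  have h6 := mul_le_mul_of_nonneg_right h4 (sq_nonneg (y.1 * p + y.2 * q))
  linarith

theorem rf1_c (x : E4) : rf1 x 0 = x 0 ∧ rf1 x 1 = -x 1 ∧ rf1 x 2 = x 2 ∧ rf1 x 3 = x 3 := by
  refine ⟨?_, ?_, ?_, ?_⟩ <;> simp [rf1, mkO_apply]

theorem sw_c (x : E4) : sw x 0 = x 2 ∧ sw x 1 = x 3 ∧ sw x 2 = x 0 ∧ sw x 3 = x 1 := by
  refine ⟨?_, ?_, ?_, ?_⟩ <;> simp [sw, mkO_apply]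

/-! ### The wedge graph -/

theorem tan_iff {A : ℝ} (h0 : 0 < A) (h1 : A < π / 2) (y : P2) :
    (|y.2| < Real.tan A * y.1 ↔
      0 < dot y (Real.sin A, Real.cos A) ∧ 0 < dot y (Real.sin A, -Real.cos A)) ∧
    (|y.2| ≤ Real.tan A * y.1 ↔
      0 ≤ dot y (Real.sin A, Real.cos A) ∧ 0 ≤ dot y (Real.sin A, -Real.cos A)) := by
  have hc : 0 < Real.cos A := Real.cos_pos_of_mem_Ioo ⟨by linarith, h1⟩
  rw [Real.tan_eq_sin_div_cos, div_mul_eq_mul_div, lt_div_iff₀ hc, le_div_iff₀ hc,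
    ← abs_of_pos hc, ← abs_mul, abs_of_pos hc, abs_lt, abs_le]
  simp only [dot]
  constructor <;> constructor <;> rintro ⟨a, b⟩ <;> constructor <;> linarith

theorem Wd_eq {A : ℝ} (h0 : 0 < A) (h1 : A < π / 2) (ρ : ℝ) :
    Wd A ρ = WO ρ (Real.sin A, Real.cos A) (Real.sin A, -Real.cos A) := by
  ext y
  simp only [Wd, WO, mem_ofPred_eq, (tan_iff h0 h1 y).1, and_assoc]
  rw [show dot y y = y.1 ^ 2 + y.2 ^ 2 by unfold dot; ring]

theorem Wc_eq {A : ℝ} (h0 : 0 < A) (h1 : A < π / 2) (ρ : ℝ) :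
    Wc A ρ = WC ρ (Real.sin A, Real.cos A) (Real.sin A, -Real.cos A) := by
  ext y
  simp only [Wc, WC, mem_ofPred_eq, (tan_iff h0 h1 y).2, and_assoc]
  rw [show dot y y = y.1 ^ 2 + y.2 ^ 2 by unfold dot; ring]

theorem x1_pos (hT : TetS) (u : P2 → ℝ) {x : P2} (hx : 0 < x.2) : 0 < gX O0 u x 1 := by
  rw [gX, (hT.coord x (u x)).2.1]
  exact div_pos hx (rho_pos _ _)

theorem good_of_wext (hT : TetS) {a b ρ μ m : ℝ} {u ζ : P2 → ℝ} {L : ℝ≥0} (hu : IsLeaf a b u)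
    (hW : WExt a b u ζ ρ L) (hρ : 0 ≤ ρ) (hμ0 : 0 ≤ μ) (hμ : μ ≤ 1 / 2) (hm : 2 * μ * (1 + ρ) ≤ m)
    (hq' : ∀ y ∈ Rho a b, hq (hA b) (gX O0 u y) ≤ μ) :
    Good ρ L m (Real.sin (hA a), Real.cos (hA a)) (Real.sin (hA a), -Real.cos (hA a)) ζ := by
  obtain ⟨h0, h1, -⟩ := hT.ang.1 a hu.apos
  have hcs := Real.sin_sq_add_cos_sq (hA a)
  have hz : ∀ y ∈ WC ρ (Real.sin (hA a), Real.cos (hA a)) (Real.sin (hA a), -Real.cos (hA a)),
      y ∉ WO ρ (Real.sin (hA a), Real.cos (hA a)) (Real.sin (hA a), -Real.cos (hA a)) →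
      ζ y = 0 := fun y hy hy' =>
    hW.side y ⟨by rw [Wc_eq h0 h1]; exact hy, by rw [Wd_eq h0 h1]; exact hy'⟩
  refine ⟨by simp only [dot]; linarith, by simp only [dot]; linarith, Wd_eq h0 h1 ρ ▸ hW.sol,
    Wc_eq h0 h1 ρ ▸ el_of_lip hW.lip, fun y hy h => hz y hy fun hy' => ?_, fun y hy => ?_⟩
  · rcases h with h | h
    · exact hy'.1.ne' h
    · exact hy'.2.1.ne' h
  · by_cases hy' : y ∈ WO ρ (Real.sin (hA a), Real.cos (hA a)) (Real.sin (hA a), -Real.cos (hA a))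
    · obtain ⟨hneg, x, hx, hx2, hX, -⟩ := hW.mem y (by rw [Wd_eq h0 h1]; exact hy')
      have h2 := hq' x hx
      have h3 := x1_pos hT u hx2
      rw [hX, gX] at h2 h3
      rw [hq_oq _ _ _ h3.le, div_le_iff₀ (rho_pos _ _)] at h2
      have h4 : rho y (ζ y) ≤ 1 + ρ - ζ y := by
        have h5 := hy.2.2
        unfold dot at h5
        exact Real.sqrt_le_iff.2 ⟨by linarith, by nlinarith⟩
      rw [abs_of_neg hneg]
      nlinarith
    · rw [hz y hy hy', abs_zero]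
      exact le_trans (by positivity) hm

theorem radius {ε μ C d : ℝ} {y : P2} {z : ℝ} (hε : 0 < ε) (hC : 2 / ε ≤ C ^ 2) (hμ0 : 0 ≤ μ)
    (hμ3 : μ ≤ 1 / 2) (hμ4 : μ ≤ ε / 2) (hd : 9 * d ^ 2 ≤ ε) (hq0 : 0 ≤ -z / rho y z)
    (hq1 : -z / rho y z ≤ μ) (hlo : ε ≤ (1 + z ^ 2) / rho y z ^ 2)
    (hhi : (1 + z ^ 2) / rho y z ^ 2 ≤ 1 - ε) : 9 * d ^ 2 ≤ dot y y ∧ dot y y ≤ C ^ 2 := by
  have hr := rho_pos y z
  have hr2 := rho_sq y z
  rw [le_div_iff₀ (by positivity)] at hlo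
  rw [div_le_iff₀ (by positivity)] at hhi
  rw [div_le_iff₀ hr] at hq1
  have hz0 : 0 ≤ -z := by
    have := mul_nonneg hq0 hr.le
    rwa [div_mul_cancel₀ _ hr.ne'] at this
  have hz2 : z ^ 2 ≤ ε / 4 * rho y z ^ 2 := by
    have h1 : (-z) ^ 2 ≤ (μ * rho y z) ^ 2 := pow_le_pow_left₀ hz0 hq1 2
    have h2 : μ ^ 2 ≤ ε / 4 := by nlinarith
    have h3 := mul_le_mul_of_nonneg_right h2 (sq_nonneg (rho y z))
    nlinarith
  have hyy : dot y y = y.1 ^ 2 + y.2 ^ 2 := by unfold dot; ring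
  have hr1 : 1 ≤ rho y z ^ 2 := one_le_pow₀ (one_le_rho y z)
  have h4 := mul_le_mul_of_nonneg_left hr1 hε.le
  refine ⟨by rw [hyy]; linarith, ?_⟩
  have h1 : rho y z ^ 2 ≤ 2 / ε := by
    rw [le_div_iff₀ hε]; linarith
  rw [hyy]; linarith [sq_nonneg z]

theorem slope_num {y : P2} {p q η η' C : ℝ} (g1 : |p| ≤ η') (g2 : |q| ≤ η') (he1 : η' ≤ 1)
    (he2 : η' * (2 * (1 + C ^ 2)) ≤ η) (hy : dot y y ≤ C ^ 2) :
    p ^ 2 + q ^ 2 + (y.1 * p + y.2 * q) ^ 2 ≤ η := by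
  have he0 : 0 ≤ η' := (abs_nonneg _).trans g1
  have e1 : p ^ 2 ≤ η' ^ 2 := by
    rw [← sq_abs]; exact pow_le_pow_left₀ (abs_nonneg _) g1 2
  have e2 : q ^ 2 ≤ η' ^ 2 := by
    rw [← sq_abs]; exact pow_le_pow_left₀ (abs_nonneg _) g2 2
  have e3 : (y.1 * p + y.2 * q) ^ 2 ≤ dot y y * (p ^ 2 + q ^ 2) := by
    unfold dot; nlinarith [sq_nonneg (y.1 * q - y.2 * p)]
  have e4 : dot y y * (p ^ 2 + q ^ 2) ≤ C ^ 2 * (2 * η' ^ 2) :=
    mul_le_mul hy (by linarith) (by positivity) (by positivity)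
  have e5 : η' ^ 2 ≤ η' := by nlinarith
  have e6 := mul_le_mul_of_nonneg_right e5 (by positivity : 0 ≤ 2 * (1 + C ^ 2))
  linarith

theorem height (hReg : RegS) (hCW : CWS) (hRem : RemS) (hDer : DerS) {L : ℝ≥0} {C η d m A : ℝ}
    (hE : Est L C η d m) (hd : 0 < d) (hd1 : d ≤ 1 / 4) (hC : 0 ≤ C) (hm : m ≤ 2 * η * d)
    (hη : 0 ≤ η) {f : P2 → ℝ} (hc : 0 ≤ Real.cos A)
    (h : Good (C + 1) L m (Real.sin A, Real.cos A) (Real.sin A, -Real.cos A) f)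
    (hs : -1 < dot ((Real.sin A, Real.cos A) : P2) (Real.sin A, -Real.cos A)) {y : P2}
    (hy : y ∈ WO (C + 1) (Real.sin A, Real.cos A) (Real.sin A, -Real.cos A))
    (hlo : 9 * d ^ 2 ≤ dot y y) (hhi : dot y y ≤ C ^ 2) :
    0 ≤ Real.sin A * y.1 - Real.cos A * |y.2| ∧
      |f y| ≤ 2 * η * (Real.sin A * y.1 - Real.cos A * |y.2|) := by
  rcases le_total 0 y.2 with hp | hp
  · have e : dot y (Real.sin A, -Real.cos A) = Real.sin A * y.1 - Real.cos A * |y.2| := by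
      rw [abs_of_nonneg hp]; simp only [dot]; ring
    rw [← e]
    exact ⟨hy.2.1.le, height1 hReg hCW hRem hDer hE hd hd1 hC hm hη h hs hy
      (by simp only [dot]; linarith [mul_nonneg hp hc]) hlo hhi⟩
  · have e : dot y (Real.sin A, Real.cos A) = Real.sin A * y.1 - Real.cos A * |y.2| := by
      rw [abs_of_nonpos hp]; simp only [dot]; ring
    rw [← e]
    exact ⟨hy.1.le, height1 hReg hCW hRem hDer hE hd hd1 hC hm hη h.symm (by rwa [dot_comm])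
      (WO_comm _ _ _ ▸ hy) (by simp only [dot]; linarith [mul_nonneg (neg_nonneg.2 hp) hc])
      hlo hhi⟩

theorem core (hReg : RegS) (hCW : CWS) (hRem : RemS) (hDer : DerS) (hT : TetS)
    {ε η η' C d m μ a b : ℝ} {L : ℝ≥0} {u ζ : P2 → ℝ} (hε : 0 < ε) (hC0 : 0 ≤ C)
    (hC : 2 / ε ≤ C ^ 2) (hd0 : 0 < d) (hd1 : d ≤ 1 / 4) (hd2 : 9 * d ^ 2 ≤ ε) (he0 : 0 < η')
    (he1 : η' ≤ 1) (he2 : η' * (2 * (1 + C ^ 2)) ≤ η) (hE : Est L C η' d m)
    (hm : m ≤ 2 * η' * d) (hμ0 : 0 ≤ μ) (hμ2 : 2 * μ * (1 + (C + 1)) ≤ m) (hμ3 : μ ≤ 1 / 2)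
    (hμ4 : μ ≤ ε / 2) (hu : IsLeaf a b u) (hW : WExt a b u ζ (C + 1) L)
    (hq' : ∀ y ∈ Rho a b, hq (hA b) (gX O0 u y) ≤ μ) {x : P2} (hx : x ∈ Rho a b) (hx2 : 0 < x.2)
    (hlo : ε ≤ aa (gX O0 u x)) (hhi : aa (gX O0 u x) ≤ 1 - ε) :
    1 - u12 (gX O0 u x) (gN O0 u x) ^ 2 / aa (gX O0 u x) ≤ η ∧
      hq (hA b) (gX O0 u x) ≤ η * hp (hA a) (gX O0 u x) := by
  have hG := good_of_wext hT hu hW (by linarith) hμ0 hμ3 hμ2 hq'
  obtain ⟨hA0, hA1, -⟩ := hT.ang.1 a hu.apos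
  obtain ⟨hB0, hB1, hB2⟩ := hT.ang.1 b hu.bpos
  have hsA : 0 < Real.sin (hA a) := Real.sin_pos_of_pos_of_lt_pi hA0 (by linarith [Real.pi_pos])
  have hcA : 0 < Real.cos (hA a) := Real.cos_pos_of_mem_Ioo ⟨by linarith, hA1⟩
  have hsB : 0 < Real.sin (hA b) := Real.sin_pos_of_pos_of_lt_pi hB0 (by linarith [Real.pi_pos])
  have hcB : 0 < Real.cos (hA b) := Real.cos_pos_of_mem_Ioo ⟨by linarith, hB1⟩
  obtain ⟨hn, -, hT0⟩ := (hT.inner a b u hu x hx).2.2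
  have hX1 := x1_pos hT u hx2
  have hX0 : 0 < gX O0 u x 0 := by
    have : 0 < b * gX O0 u x 0 := lt_of_le_of_lt (by positivity) hT0
    exact (mul_pos_iff_of_pos_left hu.bpos).1 this
  have hq0 : 0 ≤ hq (hA b) (gX O0 u x) := by
    rw [← hB2, mul_assoc, mul_lt_mul_iff_right₀ (by positivity), Real.tan_eq_sin_div_cos,
      div_mul_eq_mul_div, lt_div_iff₀ hcB] at hT0
    rw [hq]; linarith
  obtain ⟨y, z, hX⟩ := exists_gn (hA b) _ hn (by positivity)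
  have hq1 := hq' x hx
  have hX1' := hX1
  rw [hX] at hX1'
  rw [hX, hq_oq _ _ _ hX1'.le] at hq0 hq1
  rw [hX, aa_oq] at hlo hhi
  obtain ⟨hylo, hyhi⟩ := radius hε hC hμ0 hμ3 hμ4 hd2 hq0 hq1 hlo hhi
  have hyy : dot y y = y.1 ^ 2 + y.2 ^ 2 := by unfold dot; ring
  have hC1 : C ^ 2 < (C + 1) ^ 2 := pow_lt_pow_left₀ (by linarith) hC0 two_ne_zero
  obtain ⟨hyW, hzζ⟩ := hW.conv x hx hx2 y z hX (by rw [← hyy]; linarith)
  obtain ⟨hneg, x', -, -, hX', hN'⟩ := hW.mem y hyW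
  have hxx : x' = x := by
    have h1 : gX O0 u x' = gX O0 u x := by rw [hX', hX, hzζ, gX]
    exact (hT.inj O0 _ _ _ _ h1).1
  rw [hxx] at hN'
  rw [Wd_eq hA0 hA1] at hyW
  have hs : -1 < dot ((Real.sin (hA a), Real.cos (hA a)) : P2)
      (Real.sin (hA a), -Real.cos (hA a)) := by
    simp only [dot]
    linarith [Real.sin_sq_add_cos_sq (hA a), mul_pos hsA hsA]
  constructor
  · obtain ⟨g1, g2⟩ := slope hReg hCW hRem hE hd0 hd1 hC0 hG hs hyW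
      (by linarith [sq_nonneg d]) hyhi
    rw [hN', hX, hzζ, gN]
    exact (u12_oq _ _ _ _ _).trans (slope_num g1 g2 he1 he2 hyhi)
  · rw [hX, hq_oq _ _ _ hX1'.le, hp_oq, ← mul_div_assoc]
    refine div_le_div_of_nonneg_right ?_ (rho_pos _ _).le
    have e1 : 2 * η' ≤ η := by linarith [mul_nonneg he0.le (sq_nonneg C)]
    obtain ⟨e2, e3⟩ := height hReg hCW hRem hDer hE hd0 hd1 hC0 hm he0.le hcA.le hG hs hyW hylo hyhi
    rw [hzζ, ← abs_of_neg hneg]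
    exact e3.trans (mul_le_mul_of_nonneg_right e1 e2)

theorem upper (hReg : RegS) (hCW : CWS) (hRem : RemS) (hInt : IntS) (hDer : DerS) (hT : TetS)
    (hWe : WedgeS) (ε η b₀ : ℝ) (hε : 0 < ε) (hη : 0 < η) (hb₀ : 0 < b₀) :
    ∃ μ > 0, μ < ε ∧ ∀ a b u, b₀ ≤ b → IsLeaf a b u → aa (gX O0 u 0) ≤ μ →
      (∀ y ∈ Rho a b, hq (hA b) (gX O0 u y) ≤ μ) →
      ∀ y ∈ Rho a b, 0 < y.2 → ε ≤ aa (gX O0 u y) → aa (gX O0 u y) ≤ 1 - ε →
        1 - u12 (gX O0 u y) (gN O0 u y) ^ 2 / aa (gX O0 u y) ≤ η ∧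
        hq (hA b) (gX O0 u y) ≤ η * hp (hA a) (gX O0 u y) := by
  obtain ⟨C, hC0, hC⟩ : ∃ C : ℝ, 0 ≤ C ∧ 2 / ε ≤ C ^ 2 :=
    ⟨√(2 / ε), Real.sqrt_nonneg _, (Real.sq_sqrt (by positivity)).ge⟩
  obtain ⟨d, hd0, hd1, hd2⟩ : ∃ d : ℝ, 0 < d ∧ d ≤ 1 / 4 ∧ 9 * d ^ 2 ≤ ε := by
    refine ⟨min (1 / 4) (ε / 3), lt_min (by norm_num) (by positivity), min_le_left _ _, ?_⟩
    have h1 := min_le_left (1 / 4) (ε / 3)
    have h2 := min_le_right (1 / 4) (ε / 3)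
    have h3 : 0 < min (1 / 4) (ε / 3) := lt_min (by norm_num) (by positivity)
    nlinarith
  obtain ⟨η', he0, he1, he2⟩ : ∃ η' : ℝ, 0 < η' ∧ η' ≤ 1 ∧ η' * (2 * (1 + C ^ 2)) ≤ η :=
    ⟨min 1 (η / (2 * (1 + C ^ 2))), lt_min one_pos (by positivity), min_le_left _ _,
      (le_div_iff₀ (by positivity)).1 (min_le_right _ _)⟩
  obtain ⟨L, hL⟩ := hWe (C + 1) (1 / (2 * (1 + (C + 1) ^ 2))) b₀ (by linarith)
    (one_div_lt_one_div_of_lt (by positivity) (by linarith [sq_nonneg (C + 1)])) hb₀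
  obtain ⟨m₀, hm₀, hm⟩ := est hReg hCW hInt hDer (2 * L) C η' d he0 hd0 (by linarith)
  have hm0 : 0 < min m₀ (2 * η' * d) := lt_min hm₀ (by positivity)
  have hE : Est L C η' d (min m₀ (2 * η' * d)) := fun f y h1 h2 h3 h4 =>
    hm f y h1 h2 (fun x hx => (h3 x hx).trans (min_le_left _ _)) h4
  obtain ⟨μ, hμ0, hμ1, hμ2, hμ3, hμ4⟩ : ∃ μ : ℝ, 0 < μ ∧ μ ≤ 1 / (2 * (1 + (C + 1) ^ 2)) ∧
      μ * (2 * (1 + (C + 1))) ≤ min m₀ (2 * η' * d) ∧ μ ≤ 1 / 2 ∧ μ ≤ ε / 2 :=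
    ⟨min (min (1 / (2 * (1 + (C + 1) ^ 2))) (min m₀ (2 * η' * d) / (2 * (1 + (C + 1)))))
      (min (1 / 2) (ε / 2)), lt_min (lt_min (by positivity) (by positivity))
        (lt_min (by norm_num) (by positivity)), (min_le_left _ _).trans (min_le_left _ _),
      (le_div_iff₀ (by positivity)).1 ((min_le_left _ _).trans (min_le_right _ _)),
      (min_le_right _ _).trans (min_le_left _ _), (min_le_right _ _).trans (min_le_right _ _)⟩
  refine ⟨μ, hμ0, by linarith, fun a b u hb hu h0 hq' x hx hx2 hlo hhi => ?_⟩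
  obtain ⟨ζ, hW⟩ := hL a b u hb hu (h0.trans hμ1)
  exact core hReg hCW hRem hDer hT hε hC0 hC hd0 hd1 hd2 he0 he1 he2 hE (min_le_right _ _) hμ0.le
    (by linarith) hμ3 hμ4 hu hW hq' hx hx2 hlo hhi

theorem rho_sub {a b : ℝ} {x : P2} (h : x ∈ Rho a b) : x ∈ Rh a b :=
  le_of_lt (show |x.1| / a + |x.2| / b < 1 from h)

end ELim

open ELim in
theorem lim0S (hReg : RegS) (hCW : CWS) (hRem : RemS) (hInt : IntS) (hDer : DerS) (hT : TetS)
    (hR : RadoS) (hWe : WedgeS) : Lim0S := by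
  intro ε η b₀ hε hη hb₀
  obtain ⟨μ, hμ0, hμ1, h⟩ := upper hReg hCW hRem hInt hDer hT hWe ε η b₀ hε hη hb₀
  refine ⟨μ, hμ0, fun a b u hb hu h0 hq' y hy hlo hhi => ?_⟩
  rcases lt_trichotomy y.2 0 with hn | hz | hp'
  · have hy' : (y.1, -y.2) ∈ Rho a b := by simpa [Rho] using hy
    obtain ⟨-, -, e1, e2⟩ := hT.evg a b u hu y hy
    obtain ⟨a0, a1, a2, a3⟩ := rf1_c (gX O0 u y)
    obtain ⟨b0, b1, -, -⟩ := rf1_c (gN O0 u y)
    have haa : aa (rf1 (gX O0 u y)) = aa (gX O0 u y) := by rw [aa, aa, a0, a1]; ring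
    have h1 := h a b u hb hu h0 hq' _ hy' (by simpa using hn) (by rwa [e1, haa]) (by rwa [e1, haa])
    rw [e1, e2, haa] at h1
    have h2 : u12 (rf1 (gX O0 u y)) (rf1 (gN O0 u y)) ^ 2 = u12 (gX O0 u y) (gN O0 u y) ^ 2 := by
      rw [u12, u12, a0, a1, b0, b1]; ring
    have h3 : hq (hA b) (rf1 (gX O0 u y)) = hq (hA b) (gX O0 u y) := by
      rw [hq, hq, a0, a1, abs_neg]
    have h4 : hp (hA a) (rf1 (gX O0 u y)) = hp (hA a) (gX O0 u y) := by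
      rw [hp, hp, a2, a3]
    rwa [h2, h3, h4] at h1
  · have := (hR.axis a b u hu y hy).1 hz
    linarith
  · exact h a b u hb hu h0 hq' y hy hp' hlo hhi

open ELim in
theorem limS (hT : TetS) (hL : LfS) (hB : BarS) (h0 : Lim0S) : LimS := by
  have hs2 : (0 : ℝ) < √2 := by positivity
  constructor
  · intro ε η hε hη
    obtain ⟨μ, hμ, h⟩ := h0 ε η √2 hε hη hs2
    obtain ⟨a₀, ha₀, hthin⟩ := hB.thin (min μ 1) (lt_min hμ one_pos)
    obtain ⟨hA0, hA1, hA2⟩ := hT.ang.1 a₀ ha₀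
    refine ⟨2 * hA a₀, by linarith, fun l hl hl' y hy hlo hhi => ?_⟩
    have hu := hL l hl
    have ha : aL l < a₀ := by
      rw [← hA2, aL]
      exact mul_lt_mul_of_pos_left (Real.tan_lt_tan_of_nonneg_of_lt_pi_div_two
        (by linarith [hl.1]) hA1 (by linarith)) hs2
    have hb := hthin _ _ ha hu
    have h00 : (0 : P2) ∈ Rh (aL l) √2 := by simp [Rh]
    have h1 := h (aL l) √2 (lf l) le_rfl hu ?_ ?_ y hy hlo hhi
    · rwa [hT.ang.2.1, (hT.ang.2.2 l hl).2] at h1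
    · obtain ⟨c0, c1, -, -⟩ := hT.coord 0 (lf l 0)
      have e1 := hb 0 h00
      have e2 := hu.upp 0 h00
      simp only [up, Prod.snd_zero, abs_zero, mul_zero, zero_div, sub_zero] at e1 e2
      have e3 : 1 ≤ √2 * rho 0 (lf l 0) :=
        one_le_mul_of_one_le_of_one_le (Real.one_le_sqrt.2 one_le_two) (one_le_rho _ _)
      have e4 : (1 - lf l 0) / (√2 * rho 0 (lf l 0)) ≤ 1 - lf l 0 :=
        div_le_self (by linarith) e3
      have e5 : 0 ≤ (1 - lf l 0) / (√2 * rho 0 (lf l 0)) := div_nonneg (by linarith) (by linarith)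
      have e6 := min_le_left μ 1
      have e7 := min_le_right μ 1
      rw [aa, gX, c0, c1]
      simp only [Prod.snd_zero, zero_div]
      nlinarith
    · intro x hx
      obtain ⟨c0, c1, -, -⟩ := hT.coord x (lf l x)
      have e1 := hb x (rho_sub hx)
      have hr := rho_pos x (lf l x)
      have e2 : hq (hA √2) (gX O0 (lf l) x) = (up √2 x - lf l x) / (2 * rho x (lf l x)) := by
        rw [hT.ang.2.1, hq, gX, c0, c1, Real.sin_pi_div_four, Real.cos_pi_div_four, abs_div,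
          abs_of_pos hr, up]
        field_simp
        linear_combination (-|x.2|) * s2
      have e3 := hu.upp x (rho_sub hx)
      rw [e2]
      refine (div_le_self (by linarith) (by linarith [one_le_rho x (lf l x)])).trans ?_
      exact e1.trans (min_le_left _ _)
  · intro ε η hε hη
    obtain ⟨μ, hμ, h⟩ := h0 ε η 1 hε hη one_pos
    obtain ⟨a₁, hflat⟩ := hB.flat (min μ 1) (lt_min hμ one_pos)
    obtain ⟨hA0, hA1, hA2⟩ := hT.ang.1 (max a₁ 1) (lt_max_of_lt_right one_pos)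
    refine ⟨2 * hA (max a₁ 1), by linarith, fun l hl hl' y hy hlo hhi => ?_⟩
    have hu := hL l hl
    have ha : max a₁ 1 < aL l := by
      rw [← hA2, aL]
      exact mul_lt_mul_of_pos_left (Real.tan_lt_tan_of_nonneg_of_lt_pi_div_two
        hA0.le (by linarith [hl.2]) (by linarith)) hs2
    have hb := hflat _ _ ((le_max_left _ _).trans_lt ha) hu
    have hsw : ∀ x : P2, x ∈ Rho √2 (aL l) → (x.2, x.1) ∈ Rho (aL l) √2 := fun x hx => by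
      simp only [Rho, mem_ofPred_eq] at hx ⊢
      linarith
    have hpos : ∀ x ∈ Rho (aL l) √2, 0 ≤ gX O0 (lf l) x 2 := fun x hx => by
      have e1 := (hT.inner _ _ _ hu x hx).2.2.2.1
      have : 0 < aL l * gX O0 (lf l) x 2 := lt_of_le_of_lt (by positivity) e1
      exact ((mul_pos_iff_of_pos_left hu.apos).1 this).le
    have hy' : (y.2, y.1) ∈ Rho √2 (aL l) := by
      simp only [Rho, mem_ofPred_eq] at hy ⊢
      linarith
    obtain ⟨f1, f2⟩ := hT.dual.2 (lf l) (y.2, y.1)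
    obtain ⟨a0, a1, -, -⟩ := sw_c (gX O0 (lf l) y)
    obtain ⟨b0, b1, -, -⟩ := sw_c (gN O0 (lf l) y)
    have hn := norm_sq4 (gX O0 (lf l) y)
    rw [(hT.inner _ _ _ hu y hy).2.2.1] at hn
    have haa : aa (gX O0 (du (lf l)) (y.2, y.1)) = 1 - aa (gX O0 (lf l) y) := by
      rw [f1, aa, aa, a0, a1]; linarith
    have h1 := h √2 (aL l) (du (lf l)) ((le_max_right _ _).trans ha.le) (hT.dual.1 _ _ _ hu) ?_ ?_
      (y.2, y.1) hy' (by linarith) (by linarith)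
    · have h2 : u12 (gX O0 (du (lf l)) (y.2, y.1)) (gN O0 (du (lf l)) (y.2, y.1)) ^ 2
          = u34 (gX O0 (lf l) y) (gN O0 (lf l) y) ^ 2 := by
        rw [f1, f2, u12, u34, a0, a1, PiLp.neg_apply, PiLp.neg_apply, b0, b1]; ring
      rw [← h2, ← haa]
      exact h1.1
    · have h00 : (0 : P2) ∈ Rho (aL l) √2 := by simp [Rho]
      obtain ⟨c0, c1, -, -⟩ := sw_c (gX O0 (lf l) 0)
      have e1 := hb 0 (rho_sub h00)
      have e2 := hpos 0 h00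
      have e3 : gX O0 (lf l) 0 3 = 0 := by rw [gX, (hT.coord 0 _).2.2.2]; simp
      have e6 := min_le_left μ 1
      have e7 := min_le_right μ 1
      rw [(hT.dual.2 (lf l) 0).1, aa]
      change sw (gX O0 (lf l) 0) 0 ^ 2 + sw (gX O0 (lf l) 0) 1 ^ 2 ≤ μ
      rw [c0, c1, e3]
      nlinarith
    · intro x hx
      obtain ⟨c0, c1, -, -⟩ := sw_c (gX O0 (lf l) (x.2, x.1))
      have e1 := hb _ (rho_sub (hsw x hx))
      have e2 := hpos _ (hsw x hx)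
      obtain ⟨g0, g1, -⟩ := hT.ang.1 _ hu.apos
      have e3 : 0 ≤ Real.cos (hA (aL l)) := (Real.cos_pos_of_mem_Ioo ⟨by linarith, g1⟩).le
      have e4 := mul_le_mul_of_nonneg_right (Real.sin_le_one (hA (aL l))) e2
      have e5 := mul_nonneg e3 (abs_nonneg (gX O0 (lf l) (x.2, x.1) 3))
      rw [(hT.dual.2 (lf l) x).1, hq, c0, c1]
      linarith [min_le_left μ 1]

end Pool.Agent.Lib.MP_16d934_gt
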