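import Pool.Agent.Lib.MP_16d934_gt.StC

-- part Pool.Agent.Lib.MP_16d934_gt.BMeq
section

/-! Calculus of the minimal surface equation. -/

set_option autoImplicit false

open Set Metric Filter Topology
open scoped ContDiff InnerProductSpace

noncomputable section

namespace Pool.Agent.Lib.MP_16d934_gt

namespace BMeq

section general
variable {F : Type} [NormedAddCommGroup F] [NormedSpace ℝ F]

theorem diff_fd {X : P2 → F} {y : P2} (h : ContDiffAt ℝ 2 X y) :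
    DifferentiableAt ℝ (fderiv ℝ X) y :=
  (h.fderiv_right (m := 1) (by norm_num)).differentiableAt (by norm_num)

theorem diff_fd_app {X : P2 → F} {y : P2} (h : ContDiffAt ℝ 2 X y) (w : P2) :
    DifferentiableAt ℝ (fun x => fderiv ℝ X x w) y :=
  (diff_fd h).clm_apply (differentiableAt_const w)

theorem dd {X : P2 → F} {y : P2} (h : ContDiffAt ℝ 2 X y) (v w : P2) :
    fderiv ℝ (fun x => fderiv ℝ X x w) y v = fderiv ℝ (fderiv ℝ X) y v w := by
  rw [fderiv_clm_apply (diff_fd h) (differentiableAt_const w)]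
  simp

theorem ev_diff {X : P2 → F} {y : P2} (h : ContDiffAt ℝ 2 X y) :
    ∀ᶠ x in 𝓝 y, DifferentiableAt ℝ X x :=
  (h.eventually (by simp)).mono fun _ hx => hx.differentiableAt (by norm_num)

theorem lin2 (A : P2 →L[ℝ] F) (v : P2) : A v = v.1 • A (1, 0) + v.2 • A (0, 1) := by
  rw [← map_smul, ← map_smul, ← map_add]
  congr 1
  ext <;> simp

/-- second derivative of a composition -/
theorem dd_comp {X : P2 → F} {ψ : P2 → P2} {y : P2} (hψ : ContDiffAt ℝ 2 ψ y)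
    (hX : ContDiffAt ℝ 2 X (ψ y)) (v w : P2) :
    fderiv ℝ (fun x => fderiv ℝ (fun x => X (ψ x)) x w) y v =
      fderiv ℝ (fderiv ℝ X) (ψ y) (fderiv ℝ ψ y v) (fderiv ℝ ψ y w) +
        fderiv ℝ X (ψ y) (fderiv ℝ (fun x => fderiv ℝ ψ x w) y v) := by
  have h1 : (fun x => fderiv ℝ (fun x => X (ψ x)) x w) =ᶠ[𝓝 y]
      fun x => fderiv ℝ X (ψ x) (fderiv ℝ ψ x w) := by
    filter_upwards [ev_diff hψ, hψ.continuousAt.eventually (ev_diff hX)] with x h1 h2
    rw [fderiv_fun_comp x h2 h1]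
    rfl
  have hd : DifferentiableAt ℝ ψ y := hψ.differentiableAt (by norm_num)
  have h2 : HasFDerivAt (fun x => fderiv ℝ X (ψ x))
      ((fderiv ℝ (fderiv ℝ X) (ψ y)).comp (fderiv ℝ ψ y)) y :=
    (diff_fd hX).hasFDerivAt.comp y hd.hasFDerivAt
  rw [h1.fderiv_eq, (h2.clm_apply (diff_fd_app hψ w).hasFDerivAt).fderiv]
  simp [add_comm]

theorem d_smul {s : P2 → ℝ} {Y : P2 → F} {x : P2} (hs : DifferentiableAt ℝ s x)
    (hY : DifferentiableAt ℝ Y x) (v : P2) :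
    fderiv ℝ (fun x => s x • Y x) x v = s x • fderiv ℝ Y x v + fderiv ℝ s x v • Y x := by
  rw [fderiv_fun_smul hs hY]
  simp

end general

/-! ### Isometries -/

theorem fd_iso (g : Iso) (X : P2 → E4) (w : P2) :
    (fun y => fderiv ℝ (fun x => g (X x)) y w) = fun y => g (fderiv ℝ X y w) := by
  ext1 y
  have := g.comp_fderiv (f := X) (x := y)
  change fderiv ℝ (fun x => g (X x)) y = _ at this
  rw [this]
  rfl

theorem d1_iso (g : Iso) (X : P2 → E4) : d1 (fun x => g (X x)) = fun y => g (d1 X y) :=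
  fd_iso g X _

theorem d2_iso (g : Iso) (X : P2 → E4) : d2 (fun x => g (X x)) = fun y => g (d2 X y) :=
  fd_iso g X _

theorem iso (g : Iso) (X : P2 → E4) (y : P2) : MinEq (fun x => g (X x)) y ↔ MinEq X y := by
  unfold MinEq
  simp only [d1_iso, d2_iso, LinearIsometryEquiv.norm_map, LinearIsometryEquiv.inner_map_map]
  simp only [← map_smul, ← map_sub, ← map_add]
  constructor
  · intro h n h0 h1 h2
    have := h (g n)
    simp only [LinearIsometryEquiv.inner_map_map] at this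
    exact this h0 h1 h2
  · intro h n
    obtain ⟨n, rfl⟩ := g.surjective n
    simp only [LinearIsometryEquiv.inner_map_map]
    exact h n

/-! ### Change of parameters -/

theorem comp (X : P2 → E4) (ψ : P2 → P2) (y : P2) (hψ : ContDiffAt ℝ 2 ψ y)
    (hX : ContDiffAt ℝ 2 X (ψ y)) (hJ : Function.Injective (fderiv ℝ ψ y)) :
    MinEq (fun x => X (ψ x)) y ↔ MinEq X (ψ y) := by
  have hd : DifferentiableAt ℝ ψ y := hψ.differentiableAt (by norm_num)
  have hdX : DifferentiableAt ℝ X (ψ y) := hX.differentiableAt (by norm_num)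
  have hsym : ∀ v w, fderiv ℝ (fderiv ℝ X) (ψ y) v w = fderiv ℝ (fderiv ℝ X) (ψ y) w v :=
    (hX.isSymmSndFDerivAt (by simp)).eq
  have e1 : ∀ w, fderiv ℝ (fun x => X (ψ x)) y w = fderiv ℝ X (ψ y) (fderiv ℝ ψ y w) := by
    intro w
    rw [fderiv_fun_comp y hdX hd]
    rfl
  unfold MinEq
  unfold d1 d2
  simp only [dd_comp hψ hX, dd hX, e1]
  set A := fderiv ℝ X (ψ y)
  set B := fderiv ℝ (fderiv ℝ X) (ψ y)
  set J := fderiv ℝ ψ y
  obtain ⟨⟨a, c⟩, ha⟩ : ∃ p, J (1, 0) = p := ⟨_, rfl⟩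
  obtain ⟨⟨b, d⟩, hb⟩ : ∃ p, J (0, 1) = p := ⟨_, rfl⟩
  have hdet : a * d - b * c ≠ 0 := by
    intro h0
    have h1 : J (d, -c) = 0 := by
      rw [lin2 J, ha, hb]
      ext <;> simp <;> linarith
    have h2 : J (-b, a) = 0 := by
      rw [lin2 J, ha, hb]
      ext <;> simp <;> linarith
    have h3 := (injective_iff_map_eq_zero J).1 hJ _ h1
    have h4 := (injective_iff_map_eq_zero J).1 hJ _ h2
    simp only [Prod.mk_eq_zero, neg_eq_zero] at h3 h4
    have h5 : J (1, 0) = 0 := by rw [ha, h4.2, h3.2]; rfl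
    have := (injective_iff_map_eq_zero J).1 hJ _ h5
    simp at this
  have hB : ∀ v w : P2, B v w = (v.1 * w.1) • B (1, 0) (1, 0) +
      (v.1 * w.2 + v.2 * w.1) • B (1, 0) (0, 1) + (v.2 * w.2) • B (0, 1) (0, 1) := by
    intro v w
    rw [lin2 B v, add_apply, smul_apply,
      smul_apply, lin2 (B (1, 0)) w, lin2 (B (0, 1)) w, hsym (0, 1) (1, 0)]
    module
  rw [ha, hb]
  refine forall_congr' fun n => forall_congr' fun _ => ?_
  have key : ⟪n, A (1, 0)⟫_ℝ = 0 → ⟪n, A (0, 1)⟫_ℝ = 0 → ∀ p q r : P2,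
      ⟪n, ‖A (b, d)‖ ^ 2 • (B (a, c) (a, c) + A p) -
        (2 * ⟪A (a, c), A (b, d)⟫_ℝ) • (B (a, c) (b, d) + A q) +
        ‖A (a, c)‖ ^ 2 • (B (b, d) (b, d) + A r)⟫_ℝ = (a * d - b * c) ^ 2 *
      ⟪n, ‖A (0, 1)‖ ^ 2 • B (1, 0) (1, 0) - (2 * ⟪A (1, 0), A (0, 1)⟫_ℝ) • B (1, 0) (0, 1) +
        ‖A (1, 0)‖ ^ 2 • B (0, 1) (0, 1)⟫_ℝ := by
    intro h1 h2 p q r
    have h3 : ∀ v, ⟪n, A v⟫_ℝ = 0 := fun v => by
      rw [lin2 A v, inner_add_right, inner_smul_right, inner_smul_right, h1, h2]; ring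
    rw [hB (a, c) (a, c), hB (a, c) (b, d), hB (b, d) (b, d)]
    simp only [inner_add_right, inner_sub_right, inner_smul_right, h3,
      ← real_inner_self_eq_norm_sq]
    rw [lin2 A (a, c), lin2 A (b, d)]
    simp only [inner_add_right, inner_add_left, inner_smul_right, real_inner_smul_left,
      real_inner_comm (A (1, 0)) (A (0, 1))]
    ring
  constructor
  · intro h h1 h2
    have h3 : ∀ v, ⟪n, A v⟫_ℝ = 0 := fun v => by
      rw [lin2 A v, inner_add_right, inner_smul_right, inner_smul_right, h1, h2]; ring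
    have := h (h3 _) (h3 _)
    rw [key h1 h2] at this
    exact (mul_eq_zero.1 this).resolve_left (pow_ne_zero 2 hdet)
  · intro h h1 h2
    rw [lin2 A, inner_add_right, inner_smul_right, inner_smul_right] at h1 h2
    simp only at h1 h2
    have h3 : ⟪n, A (1, 0)⟫_ℝ = 0 := by
      apply mul_left_cancel₀ hdet
      linear_combination d * h1 - c * h2
    have h4 : ⟪n, A (0, 1)⟫_ℝ = 0 := by
      apply mul_left_cancel₀ hdet
      linear_combination a * h2 - b * h1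
    rw [key h3 h4, h h3 h4, mul_zero]

/-! ### Graphs -/

/-- the affine graph -/
def YY (u : P2 → ℝ) (x : P2) : E4 := ee 0 + x.1 • ee 1 + x.2 • ee 2 + u x • ee 3

/-- squared length of the affine graph -/
def rr (u : P2 → ℝ) (x : P2) : ℝ := 1 + x.1 ^ 2 + x.2 ^ 2 + u x ^ 2

/-- normalising factor -/
def ss (u : P2 → ℝ) (x : P2) : ℝ := (√(rr u x))⁻¹

theorem vec4 (a b c d : ℝ) : (!₂[a, b, c, d] : E4) = a • ee 0 + b • ee 1 + c • ee 2 + d • ee 3 := by
  ext i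
  fin_cases i <;> simp [ee]

theorem gn_eq (u : P2 → ℝ) : (fun x => gn x (u x)) = fun x => ss u x • YY u x := by
  ext1 x
  rw [gn, vec4, one_smul]
  rfl

theorem rr_pos (u : P2 → ℝ) (x : P2) : 0 < rr u x := by unfold rr; positivity

theorem ss_pos (u : P2 → ℝ) (x : P2) : 0 < ss u x := inv_pos.2 (Real.sqrt_pos.2 (rr_pos u x))

theorem ss_sq (u : P2 → ℝ) (x : P2) : ss u x ^ 2 * rr u x = 1 := by
  rw [ss, inv_pow, Real.sq_sqrt (rr_pos u x).le, inv_mul_cancel₀ (rr_pos u x).ne']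

theorem cd_YY {m : WithTop ℕ∞} {u : P2 → ℝ} {y : P2} (h : ContDiffAt ℝ m u y) :
    ContDiffAt ℝ m (YY u) y :=
  ((contDiffAt_const.add (contDiffAt_fst.smul contDiffAt_const)).add
    (contDiffAt_snd.smul contDiffAt_const)).add (h.smul contDiffAt_const)

theorem cd_ss {m : WithTop ℕ∞} {u : P2 → ℝ} {y : P2} (h : ContDiffAt ℝ m u y) :
    ContDiffAt ℝ m (ss u) y := by
  have h1 : ContDiffAt ℝ m (rr u) y :=
    ((contDiffAt_const.add (contDiffAt_fst.pow 2)).add (contDiffAt_snd.pow 2)).add (h.pow 2)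
  exact (h1.sqrt (rr_pos u y).ne').inv (Real.sqrt_pos.2 (rr_pos u y)).ne'

theorem has_YY {u : P2 → ℝ} {y : P2} (h : DifferentiableAt ℝ u y) :
    HasFDerivAt (YY u) ((ContinuousLinearMap.fst ℝ ℝ ℝ).smulRight (ee 1) +
      (ContinuousLinearMap.snd ℝ ℝ ℝ).smulRight (ee 2) + (fderiv ℝ u y).smulRight (ee 3)) y := by
  have h1 := ((hasFDerivAt_fst (𝕜 := ℝ) (p := y)).smul_const (ee 1)).const_add (ee 0)
  have h2 := (hasFDerivAt_snd (𝕜 := ℝ) (p := y)).smul_const (ee 2)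
  exact (h1.add h2).add (h.hasFDerivAt.smul_const (ee 3))

theorem fd_YY {u : P2 → ℝ} {y : P2} (h : DifferentiableAt ℝ u y) (v : P2) :
    fderiv ℝ (YY u) y v = v.1 • ee 1 + v.2 • ee 2 + fderiv ℝ u y v • ee 3 := by
  rw [(has_YY h).fderiv]
  simp

theorem diff_rr {u : P2 → ℝ} {y : P2} (h : DifferentiableAt ℝ u y) :
    DifferentiableAt ℝ (rr u) y := by
  unfold rr
  fun_prop

theorem diff_ss {u : P2 → ℝ} {y : P2} (h : DifferentiableAt ℝ u y) :
    DifferentiableAt ℝ (ss u) y :=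
  ((diff_rr h).sqrt (rr_pos u y).ne').inv (Real.sqrt_pos.2 (rr_pos u y)).ne'

theorem fd_ss {u : P2 → ℝ} {y : P2} (h : DifferentiableAt ℝ u y) (v : P2) :
    fderiv ℝ (ss u) y v =
      -(ss u y ^ 3 * (y.1 * v.1 + y.2 * v.2 + u y * fderiv ℝ u y v)) := by
  have h1 := (((hasFDerivAt_fst (𝕜 := ℝ) (p := y)).pow 2).const_add 1).add
    ((hasFDerivAt_snd (𝕜 := ℝ) (p := y)).pow 2)
  have h2 : HasFDerivAt (rr u) _ y := h1.add (h.hasFDerivAt.pow 2)
  have h3 := (((diff_ss h).hasFDerivAt.pow 2).mul h2).fderiv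
  have h4 : (fun x => ss u x ^ 2) * rr u = fun _ => (1 : ℝ) := by
    ext x; exact ss_sq u x
  rw [h4, fderiv_fun_const] at h3
  have h5 := congrArg (fun A : P2 →L[ℝ] ℝ => A v) h3
  simp only [Pi.zero_apply, zero_apply, add_apply,
    smul_apply, ContinuousLinearMap.coe_fst', ContinuousLinearMap.coe_snd',
    smul_eq_mul, nsmul_eq_mul, Nat.cast_ofNat, Nat.add_one_sub_one, pow_one] at h5
  have h6 := ss_sq u y
  linear_combination (-(ss u y) / 2) * h5 - fderiv ℝ (ss u) y v * h6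

theorem fd_gn {u : P2 → ℝ} {y : P2} (h : DifferentiableAt ℝ u y) (v : P2) :
    fderiv ℝ (fun x => gn x (u x)) y v =
      ss u y • (v.1 • ee 1 + v.2 • ee 2 + fderiv ℝ u y v • ee 3) -
        (ss u y ^ 3 * (y.1 * v.1 + y.2 * v.2 + u y * fderiv ℝ u y v)) • YY u y := by
  rw [gn_eq, d_smul (diff_ss h) (has_YY h).differentiableAt, fd_YY h, fd_ss h, neg_smul,
    sub_eq_add_neg]

theorem dd_YY {u : P2 → ℝ} {y : P2} (h : ContDiffAt ℝ 2 u y) (v w : P2) :
    fderiv ℝ (fun x => fderiv ℝ (YY u) x w) y v =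
      fderiv ℝ (fun x => fderiv ℝ u x w) y v • ee 3 := by
  have h1 : (fun x => fderiv ℝ (YY u) x w) =ᶠ[𝓝 y]
      fun x => w.1 • ee 1 + w.2 • ee 2 + fderiv ℝ u x w • ee 3 := by
    filter_upwards [ev_diff h] with x hx
    exact fd_YY hx w
  rw [h1.fderiv_eq, (((diff_fd_app h w).hasFDerivAt.smul_const (ee 3)).const_add _).fderiv]
  simp

theorem dd_gn {u : P2 → ℝ} {y : P2} (h : ContDiffAt ℝ 2 u y) (n : E4) (h0 : ⟪n, YY u y⟫_ℝ = 0)
    (h1 : ∀ v, ⟪n, fderiv ℝ (YY u) y v⟫_ℝ = 0) (v w : P2) :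
    ⟪n, fderiv ℝ (fun x => fderiv ℝ (fun x => gn x (u x)) x w) y v⟫_ℝ =
      ss u y * fderiv ℝ (fun x => fderiv ℝ u x w) y v * n 3 := by
  have h2 : (fun x => fderiv ℝ (fun x => gn x (u x)) x w) =ᶠ[𝓝 y]
      fun x => ss u x • fderiv ℝ (YY u) x w + fderiv ℝ (ss u) x w • YY u x := by
    filter_upwards [ev_diff h] with x hx
    rw [gn_eq, d_smul (diff_ss hx) (has_YY hx).differentiableAt]
  have hd : DifferentiableAt ℝ u y := h.differentiableAt (by norm_num)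
  have a1 := diff_ss hd
  have a2 := diff_fd_app (cd_YY h) w
  have a3 := diff_fd_app (cd_ss h) w
  have a4 := (has_YY hd).differentiableAt
  rw [h2.fderiv_eq, fderiv_fun_add (a1.fun_smul a2) (a3.fun_smul a4),
    add_apply, d_smul a1 a2, d_smul a3 a4, dd_YY h]
  simp only [inner_add_right, inner_smul_right, h0, h1, mul_zero, add_zero]
  simp [inner4, ee, mul_assoc]

theorem graph0 (u : P2 → ℝ) (y : P2) (h : ContDiffAt ℝ 2 u y) :
    MinEq (fun x => gn x (u x)) y ↔ gAt u y (u y) = 0 := by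
  have hd : DifferentiableAt ℝ u y := h.differentiableAt (by norm_num)
  have hs := ss_pos u y
  have hq := ss_sq u y
  have hgn : gn y (u y) = ss u y • YY u y := congrFun (gn_eq u) y
  have key : ∀ n : E4, ⟪n, YY u y⟫_ℝ = 0 → (∀ v, ⟪n, fderiv ℝ (YY u) y v⟫_ℝ = 0) →
      ⟪n, ‖d2 (fun x => gn x (u x)) y‖ ^ 2 • d1 (d1 fun x => gn x (u x)) y -
        (2 * ⟪d1 (fun x => gn x (u x)) y, d2 (fun x => gn x (u x)) y⟫_ℝ) •
          d1 (d2 fun x => gn x (u x)) y +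
        ‖d1 (fun x => gn x (u x)) y‖ ^ 2 • d2 (d2 fun x => gn x (u x)) y⟫_ℝ =
      ss u y ^ 5 * n 3 * gAt u y (u y) := by
    intro n h0 h1
    simp only [inner_add_right, inner_sub_right, inner_smul_right, ← real_inner_self_eq_norm_sq]
    unfold gAt gOp
    unfold d1 d2
    simp only [dd_gn h n h0 h1, fd_gn hd]
    generalize fderiv ℝ (fun x => fderiv ℝ u x (1, 0)) y (1, 0) = r
    generalize fderiv ℝ (fun x => fderiv ℝ u x (0, 1)) y (1, 0) = s
    generalize fderiv ℝ (fun x => fderiv ℝ u x (0, 1)) y (0, 1) = t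
    generalize fderiv ℝ u y (1, 0) = p
    generalize fderiv ℝ u y (0, 1) = q
    unfold rr at hq
    simp only [inner4]
    simp [YY, ee]
    generalize ss u y = σ at hq
    generalize u y = z at hq
    linear_combination (σ ^ 3 * n 3 * (-((1 + q ^ 2) * r - 2 * (p * q) * s + (1 + p ^ 2) * t) +
      σ ^ 2 * ((y.2 + z * q) ^ 2 * r - 2 * ((y.1 + z * p) * (y.2 + z * q)) * s +
        (y.1 + z * p) ^ 2 * t))) * hq
  constructor
  · intro hM
    set n : E4 := !₂[y.1 * d1 u y + y.2 * d2 u y - u y, -d1 u y, -d2 u y, 1] with hn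
    have h0 : ⟪n, YY u y⟫_ℝ = 0 := by
      simp [hn, inner4, YY, ee]; ring
    have h1 : ∀ v, ⟪n, fderiv ℝ (YY u) y v⟫_ℝ = 0 := by
      intro v
      rw [fd_YY hd, lin2 (fderiv ℝ u y) v]
      simp [hn, inner4, ee, d1, d2]; ring
    have h2 : ∀ v, ⟪n, fderiv ℝ (fun x => gn x (u x)) y v⟫_ℝ = 0 := by
      intro v
      rw [fd_gn hd, ← fd_YY hd, inner_sub_right, inner_smul_right, inner_smul_right, h0, h1]
      ring
    have h3 := hM n (by beta_reduce; rw [hgn, inner_smul_right, h0, mul_zero]) (h2 _) (h2 _)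
    rw [key n h0 h1] at h3
    have h4 : n 3 = 1 := by simp [hn]
    rw [h4, mul_one] at h3
    exact (mul_eq_zero.1 h3).resolve_left (pow_ne_zero 5 hs.ne')
  · intro hg n h0 h1 h2
    beta_reduce at h0
    rw [hgn, inner_smul_right] at h0
    have h0' := (mul_eq_zero.1 h0).resolve_left hs.ne'
    unfold d1 at h1
    unfold d2 at h2
    rw [fd_gn hd, ← fd_YY hd, inner_sub_right, inner_smul_right, inner_smul_right, h0',
      mul_zero, sub_zero] at h1 h2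
    have h1' := (mul_eq_zero.1 h1).resolve_left hs.ne'
    have h2' := (mul_eq_zero.1 h2).resolve_left hs.ne'
    rw [key n h0' fun v => ?_, hg, mul_zero]
    rw [lin2 (fderiv ℝ (YY u) y) v, inner_add_right, inner_smul_right, inner_smul_right, h1', h2']
    ring

theorem norm_unit (a b c d : ℝ) (ρ : ℝ) (hρ : 0 < ρ) (h : a ^ 2 + b ^ 2 + c ^ 2 + d ^ 2 = ρ) :
    ‖(√ρ)⁻¹ • (!₂[a, b, c, d] : E4)‖ = 1 := by
  have h1 : ‖(!₂[a, b, c, d] : E4)‖ = √ρ := by
    rw [EuclideanSpace.norm_eq, Fin.sum_univ_four, ← h]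
    simp
  have h2 := Real.sqrt_pos.2 hρ
  rw [norm_smul, h1, norm_inv, Real.norm_eq_abs, abs_of_pos h2, inv_mul_cancel₀ h2.ne']

theorem normal (O : Iso) (u : P2 → ℝ) (y : P2) (hd : DifferentiableAt ℝ u y) :
    ‖gX O u y‖ = 1 ∧ ‖gN O u y‖ = 1 ∧ ⟪gN O u y, gX O u y⟫_ℝ = 0 ∧
    ⟪gN O u y, d1 (gX O u) y⟫_ℝ = 0 ∧ ⟪gN O u y, d2 (gX O u) y⟫_ℝ = 0 ∧
    Function.Injective (fderiv ℝ (gX O u) y) := by
  have hgn : gn y (u y) = ss u y • YY u y := congrFun (gn_eq u) y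
  have hfd : ∀ v, fderiv ℝ (gX O u) y v = O (fderiv ℝ (fun x => gn x (u x)) y v) :=
    fun v => congrFun (fd_iso O (fun x => gn x (u x)) v) y
  set n : E4 := !₂[y.1 * d1 u y + y.2 * d2 u y - u y, -d1 u y, -d2 u y, 1] with hn
  have h0 : ⟪n, YY u y⟫_ℝ = 0 := by
    simp [hn, inner4, YY, ee]; ring
  have h1 : ∀ v, ⟪n, fderiv ℝ (YY u) y v⟫_ℝ = 0 := by
    intro v
    rw [fd_YY hd, lin2 (fderiv ℝ u y) v]
    simp [hn, inner4, ee, d1, d2]; ring
  have h2 : ∀ v, ⟪gN O u y, fderiv ℝ (gX O u) y v⟫_ℝ = 0 := by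
    intro v
    rw [hfd, gN, O.inner_map_map, nrm, ← hn, real_inner_smul_left, fd_gn hd, ← fd_YY hd,
      inner_sub_right, inner_smul_right, inner_smul_right, h0, h1]
    ring
  refine ⟨?_, ?_, ?_, h2 _, h2 _, ?_⟩
  · rw [gX, O.norm_map, gn]
    exact norm_unit _ _ _ _ _ (by positivity) (by ring)
  · rw [gN, O.norm_map, nrm]
    exact norm_unit _ _ _ _ _ (by positivity) (by ring)
  · rw [gN, gX, O.inner_map_map, nrm, ← hn, real_inner_smul_left, hgn, inner_smul_right, h0]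
    ring
  · refine (injective_iff_map_eq_zero _).2 fun v hv => ?_
    rw [hfd, O.map_eq_zero_iff, fd_gn hd] at hv
    generalize ss u y ^ 3 * (y.1 * v.1 + y.2 * v.2 + u y * fderiv ℝ u y v) = c at hv
    have c0 := congrArg (fun x : E4 => x 0) hv
    have c1 := congrArg (fun x : E4 => x 1) hv
    have c2 := congrArg (fun x : E4 => x 2) hv
    simp [YY, ee] at c0
    simp [YY, ee, c0, (ss_pos u y).ne'] at c1 c2
    exact Prod.ext c1 c2

theorem ana (O : Iso) (u : P2 → ℝ) (y : P2) (h : AnalyticAt ℝ u y) :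
    AnalyticAt ℝ (gX O u) y ∧ AnalyticAt ℝ (gN O u) y := by
  have hu : ContDiffAt ℝ ω u y := h.contDiffAt
  have hO : ContDiff ℝ ω O := O.contDiff
  have hf : ContDiffAt ℝ ω (fderiv ℝ u) y := h.fderiv.contDiffAt
  have h1 : ContDiffAt ℝ ω (d1 u) y := hf.clm_apply contDiffAt_const
  have h2 : ContDiffAt ℝ ω (d2 u) y := hf.clm_apply contDiffAt_const
  constructor
  · have : ContDiffAt ℝ ω (fun x => gn x (u x)) y := by
      rw [gn_eq]
      exact (cd_ss hu).smul (cd_YY hu)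
    exact (hO.contDiffAt.comp y this).analyticAt
  · have h3 : ContDiffAt ℝ ω (fun x : P2 =>
        1 + d1 u x ^ 2 + d2 u x ^ 2 + (u x - x.1 * d1 u x - x.2 * d2 u x) ^ 2) y :=
      ((contDiffAt_const.add (h1.pow 2)).add (h2.pow 2)).add
        (((hu.sub (contDiffAt_fst.mul h1)).sub (contDiffAt_snd.mul h2)).pow 2)
    have hp : 0 < 1 + d1 u y ^ 2 + d2 u y ^ 2 + (u y - y.1 * d1 u y - y.2 * d2 u y) ^ 2 := by
      positivity
    have h4 := (h3.sqrt hp.ne').inv (Real.sqrt_pos.2 hp).ne'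
    have : ContDiffAt ℝ ω (fun x => nrm x (u x) (d1 u x) (d2 u x)) y := by
      simp only [nrm, vec4]
      exact h4.smul ((((((contDiffAt_fst.mul h1).add (contDiffAt_snd.mul h2)).sub hu).smul
        contDiffAt_const).add (h1.neg.smul contDiffAt_const)).add
        (h2.neg.smul contDiffAt_const) |>.add contDiffAt_const)
    exact (hO.contDiffAt.comp y this).analyticAt

theorem ell (y : P2) (z p q r s t : ℝ)
    (h : ∀ ξ : P2, 0 ≤ r * ξ.1 ^ 2 + 2 * s * ξ.1 * ξ.2 + t * ξ.2 ^ 2) :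
    0 ≤ gOp y z p q r s t ∧ (gOp y z p q r s t = 0 → r = 0 ∧ s = 0 ∧ t = 0) := by
  unfold gOp
  set a := (1 + y.1 ^ 2 + y.2 ^ 2 + z ^ 2) * (1 + q ^ 2) - (y.2 + z * q) ^ 2 with ha
  set b := (1 + y.1 ^ 2 + y.2 ^ 2 + z ^ 2) * (p * q) - (y.1 + z * p) * (y.2 + z * q) with hb
  set c := (1 + y.1 ^ 2 + y.2 ^ 2 + z ^ 2) * (1 + p ^ 2) - (y.1 + z * p) ^ 2 with hc
  have ha0 : 0 < a := by
    have : a = (1 + y.1 ^ 2) * (1 + q ^ 2) + (y.2 * q - z) ^ 2 := by rw [ha]; ring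
    rw [this]; positivity
  have hD : 0 < a * c - b ^ 2 := by
    have : a * c - b ^ 2 = (1 + y.1 ^ 2 + y.2 ^ 2 + z ^ 2) *
        (1 + p ^ 2 + q ^ 2 + (z - y.1 * p - y.2 * q) ^ 2) := by rw [ha, hb, hc]; ring
    rw [this]; positivity
  clear_value a b c
  have h1 := h (a, -b)
  have h2 := h (-b, c)
  have h3 := h (1, 0)
  have h4 := h (0, 1)
  have h5 := h (1, 1)
  have h6 := h (1, -1)
  simp only at h1 h2 h3 h4 h5 h6
  have e1 : a * (a * r - 2 * b * s + c * t) =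
      (r * a ^ 2 + 2 * s * a * -b + t * (-b) ^ 2) + t * (a * c - b ^ 2) := by ring
  have e2 : c * (a * r - 2 * b * s + c * t) =
      (r * (-b) ^ 2 + 2 * s * -b * c + t * c ^ 2) + r * (a * c - b ^ 2) := by ring
  have hr : 0 ≤ r := by linarith
  have ht : 0 ≤ t := by linarith
  constructor
  · have : 0 ≤ a * (a * r - 2 * b * s + c * t) := by
      rw [e1]; exact add_nonneg h1 (mul_nonneg ht hD.le)
    exact nonneg_of_mul_nonneg_right this ha0
  · intro h0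
    rw [h0, mul_zero] at e1 e2
    have ht0 : t = 0 := by
      have : t * (a * c - b ^ 2) = 0 := le_antisymm (by linarith) (mul_nonneg ht hD.le)
      exact (mul_eq_zero.1 this).resolve_right hD.ne'
    have hr0 : r = 0 := by
      have : r * (a * c - b ^ 2) = 0 := le_antisymm (by linarith) (mul_nonneg hr hD.le)
      exact (mul_eq_zero.1 this).resolve_right hD.ne'
    refine ⟨hr0, ?_, ht0⟩
    rw [hr0, ht0] at h5 h6
    linarith

theorem uniq (p a b n n' : E4) (hl : LinearIndependent ℝ ![p, a, b]) (hn : ‖n‖ = 1)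
    (hn' : ‖n'‖ = 1) (h1 : ⟪n, p⟫_ℝ = 0) (h2 : ⟪n, a⟫_ℝ = 0) (h3 : ⟪n, b⟫_ℝ = 0)
    (h4 : ⟪n', p⟫_ℝ = 0) (h5 : ⟪n', a⟫_ℝ = 0) (h6 : ⟪n', b⟫_ℝ = 0) : n' = n ∨ n' = -n := by
  set K := Submodule.span ℝ (Set.range ![p, a, b]) with hK
  have hK3 : Module.finrank ℝ K = 3 := by
    rw [hK, finrank_span_eq_card hl]; simp
  have hK1 : Module.finrank ℝ Kᗮ = 1 := by
    have := K.finrank_add_finrank_orthogonal
    rw [hK3, finrank_euclideanSpace_fin] at this
    omega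
  have mem : ∀ m : E4, ⟪m, p⟫_ℝ = 0 → ⟪m, a⟫_ℝ = 0 → ⟪m, b⟫_ℝ = 0 → m ∈ Kᗮ := by
    intro m g1 g2 g3
    rw [Submodule.mem_orthogonal']
    intro x hx
    induction hx using Submodule.span_induction with
    | mem x hx =>
      obtain ⟨i, rfl⟩ := hx
      fin_cases i
      exacts [g1, g2, g3]
    | zero => simp
    | add x y _ _ hx hy => rw [inner_add_right, hx, hy, add_zero]
    | smul c x _ hx => rw [inner_smul_right, hx, mul_zero]
  have hne : (⟨n, mem n h1 h2 h3⟩ : Kᗮ) ≠ 0 := by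
    intro h
    have : n = 0 := congrArg Subtype.val h
    rw [this, norm_zero] at hn
    exact zero_ne_one hn
  obtain ⟨c, hc⟩ := (finrank_eq_one_iff_of_nonzero' _ hne).1 hK1 ⟨n', mem n' h4 h5 h6⟩
  have hc' : c • n = n' := congrArg Subtype.val hc
  have : |c| = 1 := by
    have := congrArg norm hc'
    rwa [norm_smul, hn, hn', mul_one, Real.norm_eq_abs] at this
  rcases (abs_eq zero_le_one).1 this with h | h
  · left; rw [← hc', h, one_smul]
  · right; rw [← hc', h, neg_one_smul]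

theorem ext_frame (v : Fin 4 → E4) (s : Set (Fin 4)) (h1 : ∀ i ∈ s, ‖v i‖ = 1)
    (h2 : ∀ i ∈ s, ∀ j ∈ s, i ≠ j → ⟪v i, v j⟫_ℝ = 0) : ∃ O : Iso, ∀ i ∈ s, O (ee i) = v i := by
  have ho : Orthonormal ℝ (s.domRestrict v) :=
    ⟨fun i => h1 i i.2, fun i j hij => h2 i i.2 j j.2 fun h => hij (Subtype.ext h)⟩
  obtain ⟨b, hb⟩ := ho.exists_orthonormalBasis_extension_of_card_eq (by simp)
  exact ⟨b.repr.symm, fun i hi => by rw [ee, b.repr_symm_single, hb i hi]⟩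

theorem frame (p n : E4) (hp : ‖p‖ = 1) (hn : ‖n‖ = 1) (h : ⟪n, p⟫_ℝ = 0) :
    (∃ O : Iso, O (ee 0) = p ∧ O (ee 3) = n) ∧
    ∀ b : E4, ‖b‖ = 1 → ⟪b, p⟫_ℝ = 0 → ⟪b, n⟫_ℝ = 0 →
      ∃ O : Iso, O (ee 0) = p ∧ O (ee 2) = b ∧ O (ee 3) = n := by
  have h' : ⟪p, n⟫_ℝ = 0 := by rwa [real_inner_comm]
  constructor
  · obtain ⟨O, hO⟩ := ext_frame ![p, p, p, n] {0, 3}
      (by rintro i (rfl | rfl) <;> simpa) (by
        rintro i (rfl | rfl) j (rfl | rfl) hij <;> first | exact (hij rfl).elim | simpa)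
    exact ⟨O, hO 0 (by simp), hO 3 (by simp)⟩
  · intro b hb h1 h2
    have h1' : ⟪p, b⟫_ℝ = 0 := by rwa [real_inner_comm]
    have h2' : ⟪n, b⟫_ℝ = 0 := by rwa [real_inner_comm]
    obtain ⟨O, hO⟩ := ext_frame ![p, p, b, n] {0, 2, 3}
      (by rintro i (rfl | rfl | rfl) <;> simpa) (by
        rintro i (rfl | rfl | rfl) j (rfl | rfl | rfl) hij <;>
          first | exact (hij rfl).elim | simpa)
    exact ⟨O, hO 0 (by simp), hO 2 (by simp), hO 3 (by simp)⟩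

end BMeq

theorem meqS : MeqS where
  iso g X y _ := BMeq.iso g X y
  comp := BMeq.comp
  graph O u y h := (BMeq.iso O (fun x => gn x (u x)) y).trans (BMeq.graph0 u y h)
  normal := BMeq.normal
  ana := BMeq.ana
  ell := BMeq.ell
  uniq := BMeq.uniq
  frame := BMeq.frame

end Pool.Agent.Lib.MP_16d934_gt
end
end

-- part Pool.Agent.Lib.MP_16d934_gt.EPsia
section

/-! The conjugate function of a minimal graph: local calculus. -/

set_option autoImplicit false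

open Set Metric Filter Topology MeasureTheory Asymptotics
open scoped ContDiff InnerProductSpace NNReal Real

noncomputable section

namespace Pool.Agent.Lib.MP_16d934_gt

namespace EPsi

/-- the skew form as a continuous bilinear map -/
def Bf : E4 →L[ℝ] E4 →L[ℝ] ℝ :=
  (EuclideanSpace.proj 0 : E4 →L[ℝ] ℝ).smulRight (EuclideanSpace.proj 1) -
    (EuclideanSpace.proj 1 : E4 →L[ℝ] ℝ).smulRight (EuclideanSpace.proj 0)

theorem Bf_apply (a b : E4) : Bf a b = u12 a b := by simp [Bf, u12]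

/-- a germ of a minimal immersion with unit normal -/
structure Sf (X N : P2 → E4) (y : P2) : Prop where
  aX : AnalyticAt ℝ X y
  aN : AnalyticAt ℝ N y
  geo : ∀ᶠ x in 𝓝 y, ‖X x‖ = 1 ∧ ‖N x‖ = 1 ∧ ⟪N x, X x⟫_ℝ = 0 ∧ ∀ v, ⟪N x, fderiv ℝ X x v⟫_ℝ = 0
  inj : Function.Injective (fderiv ℝ X y)
  min : MinEq X y

theorem inner_const {f g : P2 → E4} {y : P2} {c : ℝ} (hf : DifferentiableAt ℝ f y)
    (hg : DifferentiableAt ℝ g y) (h : ∀ᶠ x in 𝓝 y, ⟪f x, g x⟫_ℝ = c) (v : P2) :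
    ⟪f y, fderiv ℝ g y v⟫_ℝ + ⟪fderiv ℝ f y v, g y⟫_ℝ = 0 := by
  have h1 : (fun x => ⟪f x, g x⟫_ℝ) =ᶠ[𝓝 y] fun _ => c := h
  have h2 := fderiv_inner_apply ℝ hf hg v
  rw [h1.fderiv_eq] at h2
  simpa using h2.symm

variable {X N : P2 → E4} {y : P2}

theorem Sf.dX (h : Sf X N y) : DifferentiableAt ℝ X y := h.aX.differentiableAt

theorem Sf.dN (h : Sf X N y) : DifferentiableAt ℝ N y := h.aN.differentiableAt

theorem Sf.c2 (h : Sf X N y) : ContDiffAt ℝ 2 X y := h.aX.contDiffAt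

theorem Sf.XdX (h : Sf X N y) (v : P2) : ⟪X y, fderiv ℝ X y v⟫_ℝ = 0 := by
  have := inner_const (c := 1) h.dX h.dX (h.geo.mono fun x hx => by
    rw [real_inner_self_eq_norm_sq, hx.1]; norm_num) v
  rw [real_inner_comm (X y) (fderiv ℝ X y v)] at this
  linarith

theorem Sf.NdN (h : Sf X N y) (v : P2) : ⟪N y, fderiv ℝ N y v⟫_ℝ = 0 := by
  have := inner_const (c := 1) h.dN h.dN (h.geo.mono fun x hx => by
    rw [real_inner_self_eq_norm_sq, hx.2.1]; norm_num) v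
  rw [real_inner_comm (N y) (fderiv ℝ N y v)] at this
  linarith

theorem Sf.NdX (h : Sf X N y) (v : P2) : ⟪N y, fderiv ℝ X y v⟫_ℝ = 0 :=
  h.geo.self_of_nhds.2.2.2 v

theorem Sf.XdN (h : Sf X N y) (v : P2) : ⟪X y, fderiv ℝ N y v⟫_ℝ = 0 := by
  have := inner_const (c := 0) h.dN h.dX (h.geo.mono fun x hx => hx.2.2.1) v
  rw [h.NdX, real_inner_comm] at this
  linarith

theorem Sf.dNdX (h : Sf X N y) (v w : P2) :
    ⟪fderiv ℝ N y v, fderiv ℝ X y w⟫_ℝ =
      -⟪N y, fderiv ℝ (fun x => fderiv ℝ X x w) y v⟫_ℝ := by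
  have := inner_const (c := 0) h.dN (BMeq.diff_fd_app h.c2 w)
    (h.geo.mono fun x hx => hx.2.2.2 w) v
  linarith

theorem Sf.sym (h : Sf X N y) (v w : P2) :
    fderiv ℝ (fderiv ℝ X) y v w = fderiv ℝ (fderiv ℝ X) y w v :=
  (h.c2.isSymmSndFDerivAt (by simp)).eq v w

/-- vectors orthogonal to the position and the normal are tangent -/
theorem Sf.tang (h : Sf X N y) (v : E4) (h1 : ⟪X y, v⟫_ℝ = 0) (h2 : ⟪N y, v⟫_ℝ = 0) :
    ∃ w, fderiv ℝ X y w = v := by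
  obtain ⟨hX, hN, hNX, -⟩ := h.geo.self_of_nhds
  obtain ⟨⟨O, h0, h3⟩, -⟩ := BMeq.frame (X y) (N y) hX hN hNX
  have key : ∀ t : E4, ⟪X y, t⟫_ℝ = 0 → ⟪N y, t⟫_ℝ = 0 → O.symm t 0 = 0 ∧ O.symm t 3 = 0 := by
    intro t ht1 ht2
    rw [← h0, ← O.apply_symm_apply t, LinearIsometryEquiv.inner_map_map, inner4] at ht1
    rw [← h3, ← O.apply_symm_apply t, LinearIsometryEquiv.inner_map_map, inner4] at ht2
    simp [ee] at ht1 ht2
    exact ⟨ht1, ht2⟩
  have ext2 : ∀ t t' : E4, ⟪X y, t⟫_ℝ = 0 → ⟪N y, t⟫_ℝ = 0 → ⟪X y, t'⟫_ℝ = 0 → ⟪N y, t'⟫_ℝ = 0 →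
      O.symm t 1 = O.symm t' 1 → O.symm t 2 = O.symm t' 2 → t = t' := by
    intro t t' a1 a2 a3 a4 a5 a6
    apply O.symm.injective
    obtain ⟨b1, b2⟩ := key t a1 a2
    obtain ⟨b3, b4⟩ := key t' a3 a4
    ext i
    fin_cases i
    · simpa [b1] using b3.symm
    · exact a5
    · exact a6
    · simpa [b2] using b4.symm
  let L : P2 →ₗ[ℝ] P2 :=
    { toFun := fun w => (O.symm (fderiv ℝ X y w) 1, O.symm (fderiv ℝ X y w) 2)
      map_add' := fun a b => by simp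
      map_smul' := fun c a => by simp }
  have hL : Function.Injective L := by
    intro a b hab
    have hab' : (O.symm (fderiv ℝ X y a) 1, O.symm (fderiv ℝ X y a) 2) =
      (O.symm (fderiv ℝ X y b) 1, O.symm (fderiv ℝ X y b) 2) := hab
    exact h.inj (ext2 _ _ (h.XdX a) (h.NdX a) (h.XdX b) (h.NdX b) (congrArg Prod.fst hab')
      (congrArg Prod.snd hab'))
  obtain ⟨w, hw⟩ := LinearMap.injective_iff_surjective.1 hL (O.symm v 1, O.symm v 2)
  have hw' : (O.symm (fderiv ℝ X y w) 1, O.symm (fderiv ℝ X y w) 2) =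
    (O.symm v 1, O.symm v 2) := hw
  exact ⟨w, ext2 _ _ (h.XdX w) (h.NdX w) h1 h2 (congrArg Prod.fst hw') (congrArg Prod.snd hw')⟩

theorem Sf.gram (h : Sf X N y) :
    ⟪d1 X y, d2 X y⟫_ℝ ^ 2 ≠ ‖d1 X y‖ ^ 2 * ‖d2 X y‖ ^ 2 := by
  intro he
  have h1 : d1 X y ≠ 0 := fun h0 => by
    have : ((1, 0) : P2) = 0 := h.inj (by rw [map_zero]; exact h0)
    simp at this
  have hE : 0 < ‖d1 X y‖ ^ 2 := pow_pos (norm_pos_iff.2 h1) 2
  have h2 : fderiv ℝ X y (-⟪d1 X y, d2 X y⟫_ℝ, ‖d1 X y‖ ^ 2) = 0 := by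
    rw [BMeq.lin2]
    change (-⟪d1 X y, d2 X y⟫_ℝ) • d1 X y + (‖d1 X y‖ ^ 2) • d2 X y = 0
    rw [← inner_self_eq_zero (𝕜 := ℝ)]
    simp only [inner_add_left, inner_add_right, real_inner_smul_left, real_inner_smul_right]
    simp only [real_inner_self_eq_norm_sq, real_inner_comm (d1 X y) (d2 X y)]
    linear_combination (-(‖d1 X y‖ ^ 2)) * he
  have : ((-⟪d1 X y, d2 X y⟫_ℝ, ‖d1 X y‖ ^ 2) : P2) = 0 := h.inj (by rw [map_zero]; exact h2)
  have h3 := congrArg Prod.snd this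
  simp only [Prod.snd_zero] at h3
  linarith

/-- the Weingarten map has trace zero -/
theorem Sf.wein (h : Sf X N y) : ∃ α β γ : ℝ, d1 N y = α • d1 X y + β • d2 X y ∧
    d2 N y = γ • d1 X y + (-α) • d2 X y := by
  obtain ⟨w1, hw1⟩ := h.tang (d1 N y) (h.XdN _) (h.NdN _)
  obtain ⟨w2, hw2⟩ := h.tang (d2 N y) (h.XdN _) (h.NdN _)
  rw [BMeq.lin2] at hw1 hw2
  change w1.1 • d1 X y + w1.2 • d2 X y = d1 N y at hw1
  change w2.1 • d1 X y + w2.2 • d2 X y = d2 N y at hw2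
  have hm := h.min (N y) h.geo.self_of_nhds.2.2.1 (h.NdX _) (h.NdX _)
  have e11 : ⟪d1 N y, d1 X y⟫_ℝ = -⟪N y, d1 (d1 X) y⟫_ℝ := h.dNdX (1, 0) (1, 0)
  have e12 : ⟪d1 N y, d2 X y⟫_ℝ = -⟪N y, d1 (d2 X) y⟫_ℝ := h.dNdX (1, 0) (0, 1)
  have e22 : ⟪d2 N y, d2 X y⟫_ℝ = -⟪N y, d2 (d2 X) y⟫_ℝ := h.dNdX (0, 1) (0, 1)
  have e21 : ⟪d2 N y, d1 X y⟫_ℝ = -⟪N y, d1 (d2 X) y⟫_ℝ := by
    have := h.dNdX (0, 1) (1, 0)
    rw [BMeq.dd h.c2, h.sym, ← BMeq.dd h.c2] at this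
    exact this
  rw [← hw1] at e11 e12
  rw [← hw2] at e21 e22
  simp only [inner_add_left, inner_add_right, inner_sub_right, real_inner_smul_left,
    real_inner_smul_right, real_inner_self_eq_norm_sq, real_inner_comm (d1 X y) (d2 X y)]
    at e11 e12 e21 e22 hm
  have hg := h.gram
  have ht : (w1.1 + w2.2) * (‖d1 X y‖ ^ 2 * ‖d2 X y‖ ^ 2 - ⟪d1 X y, d2 X y⟫_ℝ ^ 2) = 0 := by
    linear_combination ‖d2 X y‖ ^ 2 * e11 - ⟪d1 X y, d2 X y⟫_ℝ * e12 -
      ⟪d1 X y, d2 X y⟫_ℝ * e21 + ‖d1 X y‖ ^ 2 * e22 - hm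
  have ht2 : w2.2 = -w1.1 := by
    rcases mul_eq_zero.1 ht with h0 | h0
    · linarith
    · exact absurd (by linarith) hg
  exact ⟨w1.1, w1.2, w2.1, hw1.symm, by rw [← ht2, hw2]⟩

/-- the one-form whose primitive is the conjugate function -/
def om (X N : P2 → E4) (y : P2) : P2 →L[ℝ] ℝ := (Bf.flip (N y)).comp (fderiv ℝ X y)

theorem om_apply (X N : P2 → E4) (y v : P2) : om X N y v = u12 (fderiv ℝ X y v) (N y) := by
  simp [om, Bf_apply]

theorem Sf.diff_om (h : Sf X N y) : DifferentiableAt ℝ (om X N) y :=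
  (Bf.flip.differentiableAt.comp y h.dN).clm_comp (BMeq.diff_fd h.c2)

theorem Sf.fd_om (h : Sf X N y) (v w : P2) : fderiv ℝ (om X N) y v w =
    u12 (fderiv ℝ (fderiv ℝ X) y v w) (N y) + u12 (fderiv ℝ X y w) (fderiv ℝ N y v) := by
  have h1 := (Bf.flip.hasFDerivAt.comp y h.dN.hasFDerivAt).clm_comp
    (BMeq.diff_fd h.c2).hasFDerivAt
  have h2 : fderiv ℝ (om X N) y = _ := h1.fderiv
  rw [h2]
  simp [Bf_apply, add_comm]

theorem Sf.closed (h : Sf X N y) (v w : P2) :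
    fderiv ℝ (om X N) y v w = fderiv ℝ (om X N) y w v := by
  rw [h.fd_om, h.fd_om, h.sym v w]
  congr 1
  obtain ⟨α, β, γ, h1, h2⟩ := h.wein
  rw [BMeq.lin2 (fderiv ℝ N y) v, BMeq.lin2 (fderiv ℝ N y) w, BMeq.lin2 (fderiv ℝ X y) v,
    BMeq.lin2 (fderiv ℝ X y) w]
  change u12 (w.1 • d1 X y + w.2 • d2 X y) (v.1 • d1 N y + v.2 • d2 N y) =
    u12 (v.1 • d1 X y + v.2 • d2 X y) (w.1 • d1 N y + w.2 • d2 N y)
  rw [h1, h2]
  simp only [u12, PiLp.add_apply, PiLp.smul_apply, smul_eq_mul]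
  ring

theorem prim {U : Set P2} (hU : IsOpen U) (hc : Convex ℝ U) (h : ∀ y ∈ U, Sf X N y) :
    ∃ χ : P2 → ℝ, ∀ y ∈ U, HasFDerivAt χ (om X N y) y :=
  hc.exists_forall_hasFDerivAt_of_fderiv_symmetric hU
    (fun y hy => (h y hy).diff_om.differentiableWithinAt) fun y hy => (h y hy).closed

theorem Sf.has_u12 (h : Sf X N y) : HasFDerivAt (fun x => u12 (X x) (N x))
    (om X N y + (Bf (X y)).comp (fderiv ℝ N y)) y := by
  have h1 := (Bf.hasFDerivAt.comp y h.dX.hasFDerivAt).clm_apply h.dN.hasFDerivAt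
  have h2 : (fun x => u12 (X x) (N x)) = fun x => (Bf ∘ X) x (N x) := by
    ext x
    simp [Bf_apply]
  rw [h2]
  refine h1.congr_fderiv ?_
  ext <;> simp [om, add_comm]

/-- graphs of solutions -/
theorem sf_graph (hM : MeqS) (O : Iso) {u : P2 → ℝ} {U : Set P2} (hU : IsOpen U) (hs : Sol u U)
    {y : P2} (hy : y ∈ U) : Sf (gX O u) (gN O u) y where
  aX := (hM.ana O u y (hs.1 y hy)).1
  aN := (hM.ana O u y (hs.1 y hy)).2
  geo := by
    filter_upwards [hU.mem_nhds hy] with x hx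
    obtain ⟨a1, a2, a3, a4, a5, -⟩ := hM.normal O u x (hs.1 x hx).differentiableAt
    refine ⟨a1, a2, a3, fun v => ?_⟩
    rw [BMeq.lin2, inner_add_right, real_inner_smul_right, real_inner_smul_right]
    change v.1 * ⟪gN O u x, d1 (gX O u) x⟫_ℝ + v.2 * ⟪gN O u x, d2 (gX O u) x⟫_ℝ = 0
    rw [a4, a5]
    ring
  inj := (hM.normal O u y (hs.1 y hy).differentiableAt).2.2.2.2.2
  min := (hM.graph O u y (hs.1 y hy).contDiffAt).2 (hs.2 y hy)

/-- second fundamental form of a graph -/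
theorem second (O : Iso) {u : P2 → ℝ} {y : P2} (h : AnalyticAt ℝ u y) : ∃ c : ℝ, c ≠ 0 ∧
    ∀ v w, ⟪gN O u y, fderiv ℝ (fun x => fderiv ℝ (gX O u) x w) y v⟫_ℝ =
      c * fderiv ℝ (fderiv ℝ u) y v w := by
  have h2 : ContDiffAt ℝ 2 u y := h.contDiffAt
  have hd : DifferentiableAt ℝ u y := h.differentiableAt
  set n := nrm y (u y) (d1 u y) (d2 u y) with hn
  set W := √(1 + d1 u y ^ 2 + d2 u y ^ 2 + (u y - y.1 * d1 u y - y.2 * d2 u y) ^ 2) with hW
  have hWp : 0 < W := Real.sqrt_pos.2 (by positivity)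
  have n0 : n 0 = W⁻¹ * (y.1 * d1 u y + y.2 * d2 u y - u y) := by simp [hn, nrm, hW]
  have n1 : n 1 = W⁻¹ * (-d1 u y) := by simp [hn, nrm, hW]
  have n2 : n 2 = W⁻¹ * (-d2 u y) := by simp [hn, nrm, hW]
  have n3 : n 3 = W⁻¹ := by simp [hn, nrm, hW]
  refine ⟨BMeq.ss u y * W⁻¹, (mul_pos (BMeq.ss_pos u y) (inv_pos.2 hWp)).ne', fun v w => ?_⟩
  have e1 : (fun x => fderiv ℝ (gX O u) x w) =
      fun x => O (fderiv ℝ (fun x => gn x (u x)) x w) := BMeq.fd_iso O (fun x => gn x (u x)) w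
  have e2 := congrFun (BMeq.fd_iso O (fun x => fderiv ℝ (fun x => gn x (u x)) x w) v) y
  rw [e1, e2]
  change ⟪O n, O _⟫_ℝ = _
  rw [LinearIsometryEquiv.inner_map_map, BMeq.dd_gn h2 n ?_ ?_, BMeq.dd h2, n3]
  · ring
  · rw [inner4, n0, n1, n2, n3]
    simp [BMeq.YY, ee]
    ring
  · intro t
    rw [BMeq.fd_YY hd, inner4, n0, n1, n2, n3, BMeq.lin2 (fderiv ℝ u y) t]
    simp only [d1, d2]
    simp [ee]
    ring

theorem inner_sq (x : E4) (hx : ‖x‖ = 1) : x 0 ^ 2 + x 1 ^ 2 + x 2 ^ 2 + x 3 ^ 2 = 1 := by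
  have := real_inner_self_eq_norm_sq x
  rw [inner4, hx] at this
  linarith

/-- the rotation component is smaller than the distance from the axis -/
theorem u12_lt (x n : E4) (hn : ‖n‖ = 1) (ha : 0 < aa x) (hv : vv x n ≠ 0) :
    u12 x n < √(aa x) := by
  have h1 := inner_sq n hn
  have h2 : u12 x n ^ 2 + vv x n ^ 2 = aa x * (n 0 ^ 2 + n 1 ^ 2) := by
    unfold u12 vv aa
    ring
  have h3 : 0 < vv x n ^ 2 := by positivity
  have h4 : aa x * (n 0 ^ 2 + n 1 ^ 2) ≤ aa x * 1 :=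
    mul_le_mul_of_nonneg_left (by nlinarith [sq_nonneg (n 2), sq_nonneg (n 3)]) ha.le
  exact Real.lt_sqrt_of_sq_lt (by linarith)

/-- the second conjugate function has no critical point -/
theorem Sf.nocrit1 (h : Sf X N y) (ha : 0 < aa (X y)) (hv : vv (X y) (N y) ≠ 0)
    (hnd : ∀ w, (∀ v, ⟪N y, fderiv ℝ (fun x => fderiv ℝ X x w) y v⟫_ℝ = 0) → w = 0) :
    (Bf (X y)).comp (fderiv ℝ N y) ≠ 0 := by
  intro h0
  obtain ⟨hX, hN, hNX, -⟩ := h.geo.self_of_nhds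
  have n1 := inner_sq _ hN
  rw [inner4] at hNX
  set κ : E4 := !₂[-X y 1, X y 0, 0, 0] with hκ
  obtain ⟨w, hw⟩ := h.tang (κ - u12 (X y) (N y) • N y)
    (by
      rw [inner4]
      simp [hκ, u12]
      linear_combination (-(X y 0 * N y 1 - X y 1 * N y 0)) * hNX)
    (by
      rw [inner4]
      simp [hκ, u12]
      linear_combination (-(X y 0 * N y 1 - X y 1 * N y 0)) * n1)
  have hw0 : w = 0 := hnd w fun v => by
    have e1 := h.dNdX v w
    have e2 : u12 (X y) (fderiv ℝ N y v) = 0 := by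
      have := congrArg (fun L : P2 →L[ℝ] ℝ => L v) h0
      simpa [Bf_apply] using this
    have e3 := h.NdN v
    rw [hw, inner_sub_right, real_inner_smul_right, real_inner_comm (N y), e3, inner4] at e1
    simp [hκ] at e1
    unfold u12 at e2
    linarith
  rw [hw0, map_zero] at hw
  have c0 := congrArg (fun t : E4 => t 0) hw
  have c1 := congrArg (fun t : E4 => t 1) hw
  simp [hκ] at c0 c1
  have e : u12 (X y) (N y) * vv (X y) (N y) = 0 := by
    unfold vv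
    linear_combination X y 0 * c0 + X y 1 * c1
  have e0 : u12 (X y) (N y) = 0 := (mul_eq_zero.1 e).resolve_right hv
  rw [e0] at c0 c1
  unfold aa at ha
  have a0 : X y 0 = 0 := by linarith
  have a1 : X y 1 = 0 := by linarith
  rw [a0, a1] at ha
  simp at ha

/-- derivative of the distance from the axis -/
theorem Sf.has_f (h : Sf X N y) (ha : 0 < aa (X y)) : ∃ L : P2 →L[ℝ] ℝ,
    HasFDerivAt (fun x => √(aa (X x))) L y ∧ ∀ v, L v =
      (X y 0 * fderiv ℝ X y v 0 + X y 1 * fderiv ℝ X y v 1) / √(aa (X y)) := by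
  have h0 := (EuclideanSpace.proj 0 : E4 →L[ℝ] ℝ).hasFDerivAt.comp y h.dX.hasFDerivAt
  have h1 := (EuclideanSpace.proj 1 : E4 →L[ℝ] ℝ).hasFDerivAt.comp y h.dX.hasFDerivAt
  have h2 : HasFDerivAt (fun x => aa (X x)) _ y := (h0.pow 2).add (h1.pow 2)
  refine ⟨_, h2.sqrt ha.ne', fun v => ?_⟩
  have hs : 0 < √(aa (X y)) := Real.sqrt_pos.2 ha
  simp
  field_simp

/-- off the axis the difference of the distance and the conjugate function is not critical -/
theorem Sf.nocrit2 (h : Sf X N y) (ha : 0 < aa (X y)) (hv : vv (X y) (N y) ≠ 0)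
    (h34 : u34 (X y) (N y) ≠ 0) : ∃ v : P2,
      (X y 0 * fderiv ℝ X y v 0 + X y 1 * fderiv ℝ X y v 1) / √(aa (X y)) ≠ om X N y v := by
  obtain ⟨hX, hN, hNX, -⟩ := h.geo.self_of_nhds
  obtain ⟨v, hv0, hk⟩ : ∃ v : P2, v ≠ 0 ∧ u12 (X y) (fderiv ℝ X y v) = 0 := by
    by_cases hz : u12 (X y) (d1 X y) = 0
    · exact ⟨(1, 0), by simp, hz⟩
    · refine ⟨(u12 (X y) (d2 X y), -u12 (X y) (d1 X y)), fun h0 => hz ?_, ?_⟩
      · have := congrArg Prod.snd h0
        simpa using this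
      · rw [BMeq.lin2]
        change u12 (X y) (u12 (X y) (d2 X y) • d1 X y + (-u12 (X y) (d1 X y)) • d2 X y) = 0
        simp only [u12, PiLp.add_apply, PiLp.smul_apply, smul_eq_mul]
        ring
  refine ⟨v, ?_⟩
  rw [om_apply]
  set T := fderiv ℝ X y v with hT
  have t1 := h.XdX v
  have t2 := h.NdX v
  rw [← hT, inner4] at t1 t2
  have hs : 0 < √(aa (X y)) := Real.sqrt_pos.2 ha
  have hss : √(aa (X y)) * √(aa (X y)) = aa (X y) := Real.mul_self_sqrt ha.le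
  have hlt := u12_lt _ _ hN ha hv
  intro he
  rw [div_eq_iff hs.ne'] at he
  set lam := X y 0 * T 0 + X y 1 * T 1 with hlam
  have e0 : aa (X y) * T 0 = lam * X y 0 := by
    unfold u12 at hk
    unfold aa
    linear_combination (-X y 1) * hk
  have e1 : aa (X y) * T 1 = lam * X y 1 := by
    unfold u12 at hk
    unfold aa
    linear_combination X y 0 * hk
  have e2 : aa (X y) * u12 T (N y) = lam * u12 (X y) (N y) := by
    unfold u12
    linear_combination N y 1 * e0 - N y 0 * e1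
  have e3 : lam * (√(aa (X y)) - u12 (X y) (N y)) * √(aa (X y)) = 0 := by
    linear_combination aa (X y) * he + √(aa (X y)) * e2 + lam * hss
  have e4 : lam = 0 := by
    rcases mul_eq_zero.1 e3 with h5 | h5
    · exact (mul_eq_zero.1 h5).resolve_right (by linarith)
    · exact absurd h5 hs.ne'
  rw [e4, zero_mul] at e0 e1
  have z0 : T 0 = 0 := (mul_eq_zero.1 e0).resolve_left ha.ne'
  have z1 : T 1 = 0 := (mul_eq_zero.1 e1).resolve_left ha.ne'
  rw [z0, z1] at t2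
  rw [e4] at t1
  unfold u34 at h34
  have z2 : T 2 = 0 := by
    have : (X y 2 * N y 3 - X y 3 * N y 2) * T 2 = 0 := by
      linear_combination N y 3 * t1 - X y 3 * t2
    exact (mul_eq_zero.1 this).resolve_left h34
  have z3 : T 3 = 0 := by
    have : (X y 2 * N y 3 - X y 3 * N y 2) * T 3 = 0 := by
      linear_combination X y 2 * t2 - N y 2 * t1
    exact (mul_eq_zero.1 this).resolve_left h34
  apply hv0
  apply h.inj
  rw [map_zero, ← hT]
  ext i
  fin_cases i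
  · exact z0
  · exact z1
  · exact z2
  · exact z3

/-- on the axis the difference decreases -/
theorem Sf.axis (h : Sf X N y) (ha : 0 < aa (X y)) (hv : vv (X y) (N y) ≠ 0)
    (hu : 0 < u12 (X y) (N y)) (v : P2) (x2 : 0 < X y 2) (x3 : X y 3 = 0) (n3 : N y 3 = 0)
    (t2 : fderiv ℝ X y v 2 < 0) :
    (X y 0 * fderiv ℝ X y v 0 + X y 1 * fderiv ℝ X y v 1) / √(aa (X y)) < om X N y v := by
  obtain ⟨hX, hN, hNX, -⟩ := h.geo.self_of_nhds
  rw [om_apply]
  set T := fderiv ℝ X y v with hT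
  have s1 := h.XdX v
  have s2 := h.NdX v
  rw [← hT, inner4] at s1 s2
  rw [inner4] at hNX
  have n1 := inner_sq _ hN
  rw [x3] at s1 hNX
  rw [n3] at s2 n1
  have hs : 0 < √(aa (X y)) := Real.sqrt_pos.2 ha
  have hlt := u12_lt _ _ hN ha hv
  have e : u12 (X y) (N y) * u12 T (N y) = -(X y 2 * T 2) := by
    unfold u12
    linear_combination (N y 0 ^ 2 + N y 1 ^ 2) * s1 - (X y 0 * N y 0 + X y 1 * N y 1) * s2 +
      (N y 2 * T 2) * hNX - (X y 2 * T 2) * n1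
  have hp : 0 < -(X y 2 * T 2) := by nlinarith
  have hq : 0 < u12 T (N y) := by
    by_contra hc
    nlinarith
  rw [div_lt_iff₀ hs]
  nlinarith

end EPsi

end Pool.Agent.Lib.MP_16d934_gt
end
end
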