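import Pool.Agent.Lib.MP_16d934_gt.StC
import Pool.Agent.Shared.SingHom.Main
import Pool.Agent.Lib.MP_1ba768_gt.Compare
import Pool.Agent.Lib.MP_16d934_gt.EPsia

-- part Pool.Agent.Lib.MP_16d934_gt.DHom
section

/-! First Betti numbers of the great sphere and of the star-shaped symmetric surface. -/

set_option autoImplicit false

open Set Metric Pool.Agent.Shared.SingHom
open scoped InnerProductSpace Real

noncomputable section

namespace Pool.Agent.Lib.MP_16d934_gt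

namespace DHom

/-! ### Mayer-Vietoris bookkeeping -/

section alg
variable {X Y : Type} [TopologicalSpace X] [TopologicalSpace Y] {A A₁ A₂ A₀ : Set X}

lemma acyc_of_conc {a : ℕ} (h : Conc A a 0) : Acyc A := by
  intro m
  by_cases hm : m = a
  · subst hm
    obtain ⟨e⟩ := h.2
    exact Z_le_B_iff.2 fun c => e.injective (Subsingleton.elim _ _)
  · exact h.1 m hm

lemma acyc_union (h : Exc A A₁ A₂ A₀) (h₁ : Acyc A₁) (h₂ : Acyc A₂) (h₀ : Acyc A₀) : Acyc A :=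
  acyc_of_conc (h.conc_susp h₁ h₂ (h₀.conc 0))

lemma conc_glue (h : Exc A A₁ A₂ A₀) {a μ ν : ℕ} (h₁ : Conc A₁ (a + 1) μ) (h₂ : Acyc A₂)
    (h₀ : Conc A₀ a ν) : Conc A (a + 1) (μ + ν) := by
  refine ⟨fun m hm x hx => ?_, ?_⟩
  · cases m with
    | zero => exact B_mono h.sub₂ _ (h₂ 0 (mem_Z.2 ⟨C_zero A A₂ ▸ hx.1, (mem_Z.1 hx).2⟩))
    | succ m =>
      obtain ⟨x₁, k₁, x₂, k₂, k⟩ := h.exists_split (h₀.1 m (by omega)) hx
      have := Submodule.add_mem _ (Submodule.add_mem _ k (B_mono h.sub₂ _ (h₂ _ k₂)))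
        (B_mono h.sub₁ _ (h₁.1 _ hm k₁))
      simpa using this
  · obtain ⟨δ, e1, e2⟩ := h.mv a
    have hi : Function.Injective (Hinc h.sub₁ (a + 1)) := by
      rw [injective_iff_map_eq_zero]
      intro c hc
      obtain ⟨x, hx, rfl⟩ := Hq.mk_surj c
      obtain ⟨z, hz, h3, -⟩ := h.exists_mid hx (Submodule.zero_mem _)
        (by rw [add_zero]; exact Hq.mk_eq_zero.1 hc)
      refine Hq.mk_eq_zero.2 ?_
      simpa using Submodule.add_mem _ h3 (B_mono h.int₁ _ (h₀.1 _ (by omega) hz))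
    have hs : Function.Surjective δ := fun c =>
      (e2 c).1 (Prod.ext (Z_le_B_iff.1 (h₁.1 a (by omega)) _) (Z_le_B_iff.1 (h₂ _) _))
    have he : Function.Exact (Hinc h.sub₁ (a + 1)) δ := by
      intro c
      rw [e1 c]
      constructor
      · rintro ⟨⟨c₁, c₂⟩, rfl⟩
        refine ⟨c₁, ?_⟩
        rw [Z_le_B_iff.1 (h₂ _) c₂]
        simp
      · rintro ⟨c₁, rfl⟩
        exact ⟨(c₁, 0), by simp⟩
    obtain ⟨e₁⟩ := h₁.2
    obtain ⟨e₀⟩ := h₀.2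
    have : Module.Free ℤ (H A₀ a) := Module.Free.of_equiv e₀.symm
    obtain ⟨l, hl⟩ := Module.projective_lifting_property δ LinearMap.id hs
    let e := (he.splitSurjectiveEquiv hi ⟨l, hl⟩).1
    refine ⟨(e.trans (e₁.prodCongr e₀)).trans (LinearEquiv.ofFinrankEq _ _ ?_)⟩
    simp

lemma rank_cap (h : Exc A A₁ A₂ A₀) {μ : ℕ} (h₁ : Conc A₁ 2 μ) (h₂ : Acyc A₂)
    (h₀ : Conc A₀ 2 1) :
    Module.finrank ℤ (H A 2) = μ ∨ Module.finrank ℤ (H A 2) + 1 = μ := by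
  have hs : Function.Surjective (Hinc h.sub₁ 2) := by
    intro c
    obtain ⟨x, hx, rfl⟩ := Hq.mk_surj c
    obtain ⟨x₁, k₁, x₂, k₂, k⟩ := h.exists_split (h₀.1 1 (by omega)) hx
    refine ⟨cls x₁ k₁, (Hq.mk_eq_mk.2 ?_).symm⟩
    simpa using Submodule.add_mem _ k (B_mono h.sub₂ _ (h₂ _ k₂))
  have hk : LinearMap.ker (Hinc h.sub₁ 2) ≤ LinearMap.range (Hinc h.int₁ 2) := by
    intro c e
    obtain ⟨x, hx, rfl⟩ := Hq.mk_surj c
    obtain ⟨z, hz, h3, -⟩ := h.exists_mid hx (Submodule.zero_mem _)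
      (by rw [add_zero]; exact Hq.mk_eq_zero.1 e)
    exact ⟨cls z hz, (Hq.mk_eq_mk.2 h3).symm⟩
  obtain ⟨e₁⟩ := h₁.2
  obtain ⟨e₀⟩ := h₀.2
  have : Module.Finite ℤ (H A₁ 2) := Module.Finite.equiv e₁.symm
  have : Module.Finite ℤ (H A₀ 2) := Module.Finite.equiv e₀.symm
  have r1 : Module.finrank ℤ (H A₁ 2) = μ := by rw [e₁.finrank_eq]; simp
  have r0 : Module.finrank ℤ (H A₀ 2) = 1 := by rw [e₀.finrank_eq]; simp
  have r2 := (LinearMap.ker (Hinc h.sub₁ 2)).finrank_quotient_add_finrank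
  rw [(LinearMap.quotKerEquivOfSurjective _ hs).finrank_eq, r1] at r2
  have r3 := (Submodule.finrank_mono hk).trans (LinearMap.finrank_range_le (Hinc h.int₁ 2))
  omega

lemma exc_rel {φ : X → Y} (hφ : ContinuousOn φ A) {O₁ O₂ : Set Y} (h₁ : IsOpen O₁)
    (h₂ : IsOpen O₂) (hc : ∀ x ∈ A, φ x ∈ O₁ ∨ φ x ∈ O₂)
    (e₁ : ∀ x, x ∈ A₁ ↔ x ∈ A ∧ φ x ∈ O₁) (e₂ : ∀ x, x ∈ A₂ ↔ x ∈ A ∧ φ x ∈ O₂)
    (e₀ : ∀ x, x ∈ A₀ ↔ x ∈ A₁ ∧ x ∈ A₂) : Exc A A₁ A₂ A₀ := by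
  obtain ⟨U₁, u₁, k₁⟩ := continuousOn_iff'.1 hφ O₁ h₁
  obtain ⟨U₂, u₂, k₂⟩ := continuousOn_iff'.1 hφ O₂ h₂
  refine exc_of_open u₁ u₂ (fun x hx => ?_) ?_ ?_ (Set.ext e₀)
  · exact (hc x hx).imp (fun h => (k₁.subset ⟨h, hx⟩).1) fun h => (k₂.subset ⟨h, hx⟩).1
  · rw [inter_comm, ← k₁]
    exact Set.ext fun x => (e₁ x).trans and_comm
  · rw [inter_comm, ← k₂]
    exact Set.ext fun x => (e₂ x).trans and_comm

/-- two disjoint acyclic open pieces -/
lemma conc_two {ℓ : X → ℝ} (hℓ : ContinuousOn ℓ A) (h0 : ∀ x ∈ A, ℓ x ≠ 0)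
    (h₁ : Acyc {x | x ∈ A ∧ 0 < ℓ x}) (h₂ : Acyc {x | x ∈ A ∧ ℓ x < 0}) : Conc A 1 1 := by
  refine (exc_rel (A₀ := ∅) hℓ isOpen_Ioi isOpen_Iio (fun x hx => (h0 x hx).lt_or_gt.symm)
    (fun _ => Iff.rfl) (fun _ => Iff.rfl) fun x => ?_).conc_susp h₁ h₂ conc_empty
  exact ⟨fun h => h.elim, fun h => (lt_asymm (show 0 < ℓ x from h.1.2) h.2.2).elim⟩

open MP_1ba768_gt.Cmp in
lemma rank_univ (X : Type) [TopologicalSpace X] :
    Module.finrank ℤ (((AlgebraicTopology.singularHomologyFunctor (ModuleCat.{0} ℤ) 1).obj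
      (ModuleCat.of ℤ ℤ)).obj (TopCat.of X)) = Module.finrank ℤ (H (univ : Set X) 2) := by
  obtain ⟨q, hs, hq⟩ := exists_class (KX X) 1
  let j : Z (univ : Set X) 2 →+ ((KX X).d 1 (1 - 1)).hom.toAddMonoidHom.ker :=
    ((ofCh 1).comp (Z univ 2).subtype.toAddMonoidHom).codRestrict _ fun x => d_cycle x.2
  let θ : H (univ : Set X) 2 →+ (KX X).homology 1 :=
    (Hq.lift (q.comp j).toIntLinearMap fun x hx => by
      obtain ⟨y, hy, h⟩ := mem_B.1 hx
      exact (hq _).2 ⟨ofCh 2 y, (d_ofCh hy).trans (congrArg _ h)⟩).toAddMonoidHom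
  have hb : Function.Bijective θ := by
    refine ⟨(injective_iff_map_eq_zero θ).2 fun c hc => ?_, fun b => ?_⟩
    · obtain ⟨x, hx, rfl⟩ := Hq.mk_surj c
      obtain ⟨w, hw⟩ := (hq _).1 hc
      refine Hq.mk_eq_zero.2 ⟨toCh 2 w, toCh_mem w, ?_⟩
      rw [← toCh_d, hw]
      exact toCh_ofCh hx.1
    · obtain ⟨z, rfl⟩ := hs b
      have h1 : bd (toCh 1 z.1) = 0 := by
        have h2 : ((KX X).d 1 0).hom z.1 = 0 := z.2
        rw [← toCh_d, h2, map_zero]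
      exact ⟨cls (toCh 1 z.1) ⟨toCh_mem _, h1⟩, congrArg q (Subtype.ext (ofCh_toCh _))⟩
  exact (AddEquiv.ofBijective θ hb).toIntLinearEquiv.finrank_eq.symm

end alg

lemma betti_eq (S : Set E4) : betti1 S = Module.finrank ℤ (H S 2) := by
  rw [betti1, rank_univ]
  exact (LinearEquiv.ofBijective _ (Hmap_bijective_of_embedding (incl S)
    Topology.IsEmbedding.subtypeVal (A := univ) (A' := S) (fun x _ => x.2)
    (fun x hx => ⟨⟨x, hx⟩, mem_univ _, rfl⟩) 2)).finrank_eq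

lemma sph (v : E4) (hv : v ≠ 0) : betti1 {x | ‖x‖ = 1 ∧ ⟪v, x⟫_ℝ = 0} = 0 := by
  have : Fact (Module.finrank ℝ E4 = 3 + 1) := ⟨by simp⟩
  have h1 := conc_compl_point (0 : (ℝ ∙ v)ᗮ)
  rw [Submodule.finrank_orthogonal_span_singleton (n := 3) hv] at h1
  let g : C((ℝ ∙ v)ᗮ, E4) := ⟨Subtype.val, continuous_subtype_val⟩
  have h2 := (conc_image_iff g Topology.IsEmbedding.subtypeVal).2 h1
  have e : g '' {0}ᶜ = {x | x ≠ 0 ∧ ⟪v, x⟫_ℝ = 0} := by
    ext x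
    constructor
    · rintro ⟨y, hy, rfl⟩
      exact ⟨fun h => hy (Subtype.ext h), Submodule.mem_orthogonal_singleton_iff_inner_right.1 y.2⟩
    · rintro ⟨h3, h4⟩
      exact ⟨⟨x, Submodule.mem_orthogonal_singleton_iff_inner_right.2 h4⟩,
        fun h => h3 (congrArg Subtype.val h), rfl⟩
  rw [e] at h2
  have hs : {x : E4 | ‖x‖ = 1 ∧ ⟪v, x⟫_ℝ = 0} ⊆ {x | x ≠ 0 ∧ ⟪v, x⟫_ℝ = 0} :=
    fun x hx => ⟨fun h => by simp [h] at hx, hx.2⟩
  have h3 := (Ac.conc_iff (ac_of_deform hs fun K _ hK => ?_) hs).1 h2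
  · rw [betti_eq]
    have : Subsingleton (H {x : E4 | ‖x‖ = 1 ∧ ⟪v, x⟫_ℝ = 0} 2) := ⟨fun x y => by
      rw [Z_le_B_iff.1 (h3.1 2 (by omega)) x, Z_le_B_iff.1 (h3.1 2 (by omega)) y]⟩
    exact Module.finrank_zero_of_subsingleton
  refine ⟨fun q => ((1 - q.1) + q.1 * ‖q.2‖⁻¹) • q.2, ?_, fun z _ => by simp,
    fun t ht z hz => ⟨?_, ?_⟩, fun t _ z _ hz => ?_, fun z hz => ⟨?_, ?_⟩⟩
  · refine ContinuousOn.smul (ContinuousOn.add (by fun_prop) (continuousOn_fst.mul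
      (ContinuousOn.inv₀ (by fun_prop) fun q hq => norm_ne_zero_iff.2 (hK hq.2).1)))
      continuousOn_snd
  · have h4 : 0 < ‖z‖⁻¹ := inv_pos.2 (norm_pos_iff.2 (hK hz).1)
    refine smul_ne_zero (ne_of_gt ?_) (hK hz).1
    rcases ht.1.eq_or_lt with h | h
    · simp [← h]
    · have := mul_pos h h4
      linarith [ht.2]
  · rw [real_inner_smul_right, (hK hz).2, mul_zero]
  · simpa [hz.1] using hz
  · simp only [sub_self, one_mul, zero_add]
    exact norm_smul_inv_norm (𝕜 := ℝ) (hK hz).1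
  · rw [real_inner_smul_right, (hK hz).2, mul_zero]

/-! ### Charts of the quotient by the two reflections -/

/-- the two reflected coordinates -/
abbrev T (j : Fin 4) : Prop := j = 0 ∨ j = 1

/-- folding into the quarter -/
def fold (x : E4) : E4 := WithLp.toLp 2 fun j => if T j then |x j| else x j

/-- `y` with the signs of `x` -/
def twist (x y : E4) : E4 :=
  WithLp.toLp 2 fun j => if T j then (if 0 ≤ x j then y j else -y j) else y j

lemma fold_T {j : Fin 4} (h : T j) (x : E4) : fold x j = |x j| := by simp [fold, h]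

lemma twist_T {j : Fin 4} (h : T j) (x y : E4) :
    twist x y j = if 0 ≤ x j then y j else -y j := by simp [twist, h]

lemma cont_fold : Continuous fold :=
  (PiLp.continuous_toLp 2 _).comp (continuous_pi fun j => by split_ifs <;> fun_prop)

lemma twist_fold (x : E4) : twist x (fold x) = x := by
  ext j
  by_cases h : T j
  · rw [twist_T h, fold_T h]
    split_ifs with h1
    · exact abs_of_nonneg h1
    · rw [abs_of_neg (not_le.1 h1), neg_neg]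
  · simp [twist, fold, h]

lemma fold_twist (x : E4) {y : E4} (hy : ∀ j, T j → 0 ≤ y j) : fold (twist x y) = y := by
  ext j
  by_cases h : T j
  · rw [fold_T h, twist_T h]
    split_ifs <;> simp [abs_of_nonneg (hy j h)]
  · simp [twist, fold, h]

lemma twist_pos {j : Fin 4} (h : T j) {x y : E4} {s : ℝ} (hx : 0 < s * x j) (hy : 0 < y j) :
    0 < s * twist x y j := by
  rw [twist_T h]
  rcases pos_and_pos_or_neg_and_neg_of_mul_pos hx with k | k
  · rw [if_pos k.2.le]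
    exact mul_pos k.1 hy
  · rw [if_neg k.2.not_ge]
    exact mul_pos_of_neg_of_neg k.1 (neg_neg_of_pos hy)

lemma cont_twist {Y : Type} [TopologicalSpace Y] {K : Set Y} {f g : Y → E4}
    (hf : ContinuousOn f K) (hg : ContinuousOn g K)
    (h : ∀ q ∈ K, ∀ j, T j → f q j = 0 → g q j = 0) :
    ContinuousOn (fun q => twist (f q) (g q)) K := by
  rw [continuousOn_iff_continuous_domRestrict] at hf hg ⊢
  refine (PiLp.continuous_toLp 2 _).comp (continuous_pi fun j => ?_)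
  have h1 : Continuous fun q : K => f q j := (EuclideanSpace.proj j).continuous.comp hf
  have h2 : Continuous fun q : K => g q j := (EuclideanSpace.proj j).continuous.comp hg
  by_cases hj : T j
  · simp only [if_pos hj]
    refine h2.if_le h2.neg continuous_const h1 fun q e => ?_
    simp [h q q.2 j hj e.symm]
  · simpa only [if_neg hj] using h2

/-- a chart of the quotient of `U` by a half-open rectangle -/
structure Chart (U : Set E4) (L : Set ℝ) (Ψ : ℝ × ℝ → E4) (p : E4 → ℝ × ℝ) : Prop where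
  cΨ : ContinuousOn Ψ (L ×ˢ Ico 0 1)
  cp : ContinuousOn p U
  mem : ∀ x ∈ U, p x ∈ L ×ˢ Ico 0 1
  fo : ∀ x ∈ U, Ψ (p x) = fold x
  li : ∀ q ∈ L ×ˢ Ico (0 : ℝ) 1, ∀ x, fold x = Ψ q → x ∈ U ∧ p x = q
  pos : ∀ q ∈ L ×ˢ Ico (0 : ℝ) 1, ∀ j, T j → 0 ≤ Ψ q j
  int : ∀ q ∈ L ×ˢ Ico (0 : ℝ) 1, 0 < q.2 → ∀ j, T j → Ψ q j ≠ 0
  bd : ∀ r ∈ L, Ψ (r, 0) 0 = 0 ∨ Ψ (r, 0) 1 = 0

/-- the part over an interval -/
def St (U : Set E4) (p : E4 → ℝ × ℝ) (a b : ℝ) : Set E4 := {x | x ∈ U ∧ (p x).1 ∈ Ioo a b}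

section chart
variable {U : Set E4} {L : Set ℝ} {Ψ : ℝ × ℝ → E4} {p : E4 → ℝ × ℝ} {a b : ℝ}

lemma Chart.acyc (h : Chart U L Ψ p) (hL : Ioo a b ⊆ L) (s : E4) {v : ℝ × ℝ}
    (hv : v ∈ Ioo a b ×ˢ Ico (0 : ℝ) 1) (hv0 : ∀ j, T j → (s j = 0 ↔ Ψ v j = 0))
    (hb : ∀ r ∈ Ioo a b, (∀ j, T j → s j ≠ 0 → Ψ (r, 0) j ≠ 0) → v.2 = 0 ∧
      ∀ r' ∈ uIcc r v.1, ∀ j, T j → (s j ≠ 0 → Ψ (r', 0) j ≠ 0) ∧
        (Ψ (r, 0) j = 0 → Ψ (r', 0) j = 0))
    {A : Set E4} (hA : ∀ x, x ∈ A ↔ x ∈ St U p a b ∧ ∀ j, T j → s j ≠ 0 → 0 < s j * x j) :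
    Acyc A := by
  have hQ : Ioo a b ×ˢ Ico (0 : ℝ) 1 ⊆ L ×ˢ Ico 0 1 := prod_mono_left hL
  have cv : Convex ℝ (Ioo a b ×ˢ Ico (0 : ℝ) 1) := (convex_Ioo a b).prod (convex_Ico 0 1)
  have hw : ∀ t ∈ Icc (0 : ℝ) 1, ∀ x ∈ A, (1 - t) • p x + t • v ∈ Ioo a b ×ˢ Ico (0 : ℝ) 1 :=
    fun t ht x hx => cv ⟨((hA x).1 hx).1.2, (h.mem x ((hA x).1 hx).1.1).2⟩ hv
      (sub_nonneg.2 ht.2) ht.1 (by ring)
  have key : ∀ t ∈ Icc (0 : ℝ) 1, ∀ x ∈ A, ∀ j, T j →
      (s j ≠ 0 → Ψ ((1 - t) • p x + t • v) j ≠ 0) ∧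
        (x j = 0 → Ψ ((1 - t) • p x + t • v) j = 0) := by
    intro t ht x hx j hj
    obtain ⟨⟨hU, hx1⟩, hx2⟩ := (hA x).1 hx
    have e : ∀ i, T i → (Ψ (p x) i = 0 ↔ x i = 0) := fun i hi => by
      rw [h.fo x hU, fold_T hi, abs_eq_zero]
    rcases (h.mem x hU).2.1.eq_or_lt with h0 | h0
    · have e1 : p x = ((p x).1, 0) := Prod.ext rfl h0.symm
      obtain ⟨k1, k2⟩ := hb _ hx1 fun i hi hs h1 => by
        have := hx2 i hi hs
        rw [← e1, e i hi] at h1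
        simp [h1] at this
      have e2 : (1 - t) • p x + t • v = ((1 - t) * (p x).1 + t * v.1, 0) :=
        Prod.ext rfl (by simp [k1, ← h0])
      have k3 := k2 _ (convex_uIcc _ _ left_mem_uIcc right_mem_uIcc (sub_nonneg.2 ht.2) ht.1
        (by ring)) j hj
      rw [e2]
      exact ⟨k3.1, fun h1 => k3.2 (by rw [← e1, e j hj, h1])⟩
    · refine ⟨fun hs => ?_, fun h1 => (h.int _ (h.mem x hU) h0 j hj ((e j hj).2 h1)).elim⟩
      rcases ht.2.eq_or_lt with h1 | h1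
      · simpa [h1, ← hv0 j hj] using hs
      · refine h.int _ (hQ (hw t ht x hx)) ?_ j hj
        exact add_pos_of_pos_of_nonneg (mul_pos (sub_pos.2 h1) h0) (mul_nonneg ht.1 hv.2.1)
  have li : ∀ q ∈ Ioo a b ×ˢ Ico (0 : ℝ) 1, ∀ x : E4, (∀ j, T j → s j ≠ 0 → 0 < s j * x j) →
      (∀ j, T j → s j ≠ 0 → Ψ q j ≠ 0) → twist x (Ψ q) ∈ A ∧ p (twist x (Ψ q)) = q := by
    intro q hq x hx hn
    obtain ⟨k1, k2⟩ := h.li q (hQ hq) _ (fold_twist x (h.pos q (hQ hq)))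
    exact ⟨(hA _).2 ⟨⟨k1, by rw [k2]; exact hq.1⟩, fun j hj hs => twist_pos hj (hx j hj hs)
      ((h.pos q (hQ hq) j hj).lt_of_ne' (hn j hj hs))⟩, k2⟩
  obtain ⟨m1, m2⟩ := li v hv s (fun j _ hs => mul_self_pos.2 hs) fun j hj hs h1 =>
    hs ((hv0 j hj).2 h1)
  have e1 : ∀ x ∈ A, twist x (Ψ v) = twist s (Ψ v) := by
    intro x hx
    ext j
    by_cases hj : T j
    · rw [twist_T hj, twist_T hj]
      by_cases hs : s j = 0
      · simp [(hv0 j hj).1 hs]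
      · rcases pos_and_pos_or_neg_and_neg_of_mul_pos (((hA x).1 hx).2 j hj hs) with k | k
        · rw [if_pos k.1.le, if_pos k.2.le]
        · rw [if_neg k.1.not_ge, if_neg k.2.not_ge]
    · simp [twist, hj]
  have hs : {twist s (Ψ v)} ⊆ A := singleton_subset_iff.2 m1
  refine (Ac.acyc_iff (ac_of_deform hs fun K _ hK => ?_) hs).2 (acyc_singleton _)
  refine ⟨fun q => twist q.2 (Ψ ((1 - q.1) • p q.2 + q.1 • v)), cont_twist continuousOn_snd
    (h.cΨ.comp ?_ fun q hq => hQ (hw _ hq.1 _ (hK hq.2)))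
    (fun q hq j hj => (key _ hq.1 _ (hK hq.2) j hj).2), fun z hz => ?_, fun t ht z hz => ?_,
    fun t _ z _ hz => ?_, fun z hz => ?_⟩
  · exact ((continuousOn_const.sub continuousOn_fst).smul (h.cp.comp continuousOn_snd
      fun q hq => ((hA _).1 (hK hq.2)).1.1)).add (continuousOn_fst.smul continuousOn_const)
  · simp [h.fo z ((hA _).1 (hK hz)).1.1, twist_fold]
  · exact (li _ (hw t ht z (hK hz)) z ((hA _).1 (hK hz)).2
      fun j hj => (key t ht z (hK hz) j hj).1).1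
  · rw [mem_singleton_iff] at hz ⊢
    simp only
    rw [hz, m2, ← add_smul, sub_add_cancel, one_smul, e1 _ m1]
  · simpa using e1 z (hK hz)

lemma Chart.one (h : Chart U L Ψ p) (hL : Ioo a b ⊆ L) {j : Fin 4} (hj : T j) {ε a' b' : ℝ}
    (hε : ε ≠ 0) (hab : a' < b') (hs : Ioo a' b' ⊆ Ioo a b)
    (hc : ∀ r ∈ Ioo a b, Ψ (r, 0) j ≠ 0 ↔ r ∈ Ioo a' b') :
    Acyc {x | x ∈ St U p a b ∧ 0 < ε * x j} := by
  obtain ⟨v, hv⟩ := nonempty_Ioo.2 hab
  have ot : ∀ r ∈ Ioo a' b', ∀ i, T i → i ≠ j → Ψ (r, 0) i = 0 := by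
    intro r hr i hi hij
    have h1 := (hc r (hs hr)).2 hr
    have h2 := h.bd r (hL (hs hr))
    rcases hi with rfl | rfl <;> rcases hj with rfl | rfl <;> tauto
  refine h.acyc hL (EuclideanSpace.single j ε) (v := (v, 0)) ⟨hs hv, by simp⟩ (fun i hi => ?_)
    (fun r hr hn => ⟨rfl, fun r' hr' i hi => ?_⟩) fun x => and_congr_right fun _ => ?_
  · by_cases hij : i = j
    · simpa [hij, hε] using (hc v (hs hv)).2 hv
    · simp [hij, ot v hv i hi hij]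
  · have h1 := (hc r hr).1 (hn j hj (by simpa using hε))
    have h2 : r' ∈ Ioo a' b' := ordConnected_Ioo.uIcc_subset h1 hv hr'
    by_cases hij : i = j
    · subst hij
      exact ⟨fun _ => (hc r' (hs h2)).2 h2, fun h3 => ((hc r hr).2 h1 h3).elim⟩
    · exact ⟨fun h3 => (h3 (by simp [hij])).elim, fun _ => ot r' h2 i hi hij⟩
  · refine ⟨fun h1 i _ h2 => ?_, fun h1 => by simpa using h1 j hj (by simpa using hε)⟩
    by_cases hij : i = j
    · simpa [hij] using h1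
    · simp [hij] at h2

lemma Chart.two (h : Chart U L Ψ p) (hL : Ioo a b ⊆ L) (hab : a < b) {ε δ : ℝ} (hε : ε ≠ 0)
    (hδ : δ ≠ 0) {A : Set E4}
    (hA : ∀ x, x ∈ A ↔ x ∈ St U p a b ∧ 0 < ε * x 0 ∧ 0 < δ * x 1) : Acyc A := by
  obtain ⟨v, hv⟩ := nonempty_Ioo.2 hab
  have hq : ((v, 1 / 2) : ℝ × ℝ) ∈ Ioo a b ×ˢ Ico (0 : ℝ) 1 := ⟨hv, by norm_num⟩
  refine h.acyc hL !₂[ε, δ, 0, 0] hq (fun i hi => ?_) (fun r hr hn => ?_)
    fun x => (hA x).trans (and_congr_right fun _ => ?_)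
  · have := h.int _ (prod_mono_left hL hq) (by norm_num) i hi
    rcases hi with rfl | rfl <;> simp only [this] <;> simpa
  · rcases h.bd r (hL hr) with h1 | h1
    · exact (hn 0 (Or.inl rfl) (by simpa using hε) h1).elim
    · exact (hn 1 (Or.inr rfl) (by simpa using hδ) h1).elim
  · simp [hε, hδ]

/-- the zero pattern around a corner -/
def Side (f : ℝ → E4) (a v b : ℝ) : Prop :=
  ∀ j, T j → (∀ r ∈ Ioo a b, f r j = 0 ↔ r ≤ v) ∨ ∀ r ∈ Ioo a b, f r j = 0 ↔ v ≤ r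

lemma Chart.corner (h : Chart U L Ψ p) (hL : Ioo a b ⊆ L) {v : ℝ} (hv : v ∈ Ioo a b)
    (hs : Side (fun r => Ψ (r, 0)) a v b) : Acyc (St U p a b) := by
  refine h.acyc hL 0 (v := (v, 0)) ⟨hv, by simp⟩ (fun i hi => ?_)
    (fun r hr _ => ⟨rfl, fun r' hr' i hi => ⟨by simp, fun h1 => ?_⟩⟩) fun x => by simp
  · rcases hs i hi with k | k <;> simpa using (k v hv).2 le_rfl
  · have h2 : r' ∈ Ioo a b := ordConnected_Ioo.uIcc_subset hr hv hr'
    rcases hs i hi with k | k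
    · exact (k r' h2).2 (ordConnected_Iic.uIcc_subset ((k r hr).1 h1) (le_refl v) hr')
    · exact (k r' h2).2 (ordConnected_Ici.uIcc_subset ((k r hr).1 h1) (le_refl v) hr')

lemma Chart.arc (h : Chart U L Ψ p) (hL : Ioo a b ⊆ L) (hab : a < b) {j : Fin 4} (hj : T j)
    (hc : ∀ r ∈ Ioo a b, Ψ (r, 0) j ≠ 0) : Conc (St U p a b) 1 1 := by
  have k := fun ε hε => h.one hL hj (ε := ε) hε hab Subset.rfl fun r hr => iff_of_true (hc r hr) hr
  refine conc_two (ℓ := fun x => x j) (by fun_prop) (fun x hx h1 => ?_)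
    (by simpa using k 1 one_ne_zero) (by simpa using k (-1) (by simp))
  have e : Ψ (p x) j = 0 := by rw [h.fo x hx.1, fold_T hj, h1, abs_zero]
  rcases (h.mem x hx.1).2.1.eq_or_lt with h0 | h0
  · exact hc _ hx.2 (by rwa [show ((p x).1, (0 : ℝ)) = p x from Prod.ext rfl h0])
  · exact h.int _ (h.mem x hx.1) h0 j hj e

lemma Chart.punct (h : Chart U L Ψ p) (hL : Ioo a b ⊆ L) {v : ℝ} (hv : v ∈ Ioo a b)
    (hs : Side (fun r => Ψ (r, 0)) a v b) :
    Conc {x | x ∈ St U p a b ∧ (x 0 ≠ 0 ∨ x 1 ≠ 0)} 2 1 := by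
  have hab := hv.1.trans hv.2
  have k1 : ∀ j, T j → ∀ ε : ℝ, ε ≠ 0 → Acyc {x | x ∈ St U p a b ∧ 0 < ε * x j} := by
    intro j hj ε hε
    rcases hs j hj with k | k
    · exact h.one hL hj hε hv.2 (Ioo_subset_Ioo_left hv.1.le) fun r hr => by
        simp [k r hr, hr.2]
    · exact h.one hL hj hε hv.1 (Ioo_subset_Ioo_right hv.2.le) fun r hr => by
        simp [k r hr, hr.1]
  have op : ∀ (ε : ℝ) j, IsOpen {x : E4 | 0 < ε * x j} := fun ε j =>
    isOpen_lt continuous_const (by fun_prop)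
  have k2 : ∀ ε : ℝ, ε ≠ 0 → Acyc {x | x ∈ St U p a b ∧ (0 < ε * x 0 ∨ 0 < ε * x 1)} := by
    intro ε hε
    refine acyc_union (exc_rel continuousOn_id (op ε 0) (op ε 1) (fun x hx => hx.2) ?_ ?_
      fun _ => mem_inter_iff _ _ _) (k1 0 (Or.inl rfl) ε hε) (k1 1 (Or.inr rfl) ε hε)
      (h.two hL hab hε hε ?_) <;> intro x <;> simp only [mem_inter_iff, mem_ofPred_eq, id] <;>
      tauto
  refine (exc_rel (A₀ := {x | x ∈ St U p a b ∧ x 0 * x 1 < 0}) continuousOn_id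
    ((op 1 0).union (op 1 1)) ((op (-1) 0).union (op (-1) 1)) (fun x hx => ?_) (fun x => ?_)
    (fun x => ?_) fun x => ?_).conc_susp (k2 1 one_ne_zero) (k2 (-1) (by simp))
    (conc_two (ℓ := fun x => x 0) (by fun_prop) (fun x hx h1 => ?_)
      (h.two hL hab one_ne_zero (neg_ne_zero.2 one_ne_zero) fun x => ?_)
      (h.two hL hab (neg_ne_zero.2 one_ne_zero) one_ne_zero fun x => ?_))
  · rcases hx.2 with h1 | h1 <;> rcases h1.lt_or_gt with h2 | h2 <;> simp [h2]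
  · simp only [mem_ofPred_eq, id, mem_union, one_mul]
    exact ⟨fun k => ⟨⟨k.1, k.2.imp ne_of_gt ne_of_gt⟩, k.2⟩, fun k => ⟨k.1.1, k.2⟩⟩
  · simp only [mem_ofPred_eq, id, mem_union, neg_mul, one_mul, neg_pos]
    exact ⟨fun k => ⟨⟨k.1, k.2.imp ne_of_lt ne_of_lt⟩, k.2⟩, fun k => ⟨k.1.1, k.2⟩⟩
  · simp only [mem_ofPred_eq, neg_mul, one_mul, neg_pos, mul_neg_iff]
    constructor
    · rintro ⟨k, k3 | k3⟩ <;> simp [k, k3.1, k3.2]
    · rintro ⟨⟨k, k3 | k3⟩, -, k4 | k4⟩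
      exacts [(lt_asymm k3 k4).elim, ⟨k, Or.inl ⟨k3, k4⟩⟩, ⟨k, Or.inr ⟨k4, k3⟩⟩,
        (lt_asymm k3 k4).elim]
  · simpa [h1] using hx.2
  · simp only [mem_ofPred_eq, neg_mul, one_mul, neg_pos, and_assoc]
    exact and_congr_right fun _ => ⟨fun k => ⟨k.2, neg_of_mul_neg_right k.1 k.2.le⟩,
      fun k => ⟨mul_neg_of_pos_of_neg k.1 k.2, k.1⟩⟩
  · simp only [mem_ofPred_eq, neg_mul, one_mul, neg_pos, and_assoc]
    exact and_congr_right fun _ => ⟨fun k => ⟨k.2, pos_of_mul_neg_right k.1 k.2.le⟩,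
      fun k => ⟨mul_neg_of_neg_of_pos k.1 k.2, k.1⟩⟩

lemma Chart.chain (h : Chart U L Ψ p) {t : ℤ → ℝ} (ht : StrictMono t)
    (hs : ∀ k, Side (fun r => Ψ (r, 0)) (t k) (t (k + 1)) (t (k + 2)))
    (ha : ∀ k, ∃ j, T j ∧ ∀ r ∈ Ioo (t k) (t (k + 1)), Ψ (r, 0) j ≠ 0) (k : ℕ)
    (hL : Ioo (t 0) (t (k + 2)) ⊆ L) : Conc (St U p (t 0) (t (k + 2))) 2 k := by
  have hc : ∀ i : ℤ, Ioo (t i) (t (i + 2)) ⊆ L → Acyc (St U p (t i) (t (i + 2))) := fun i hi =>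
    h.corner hi ⟨ht (by omega), ht (by omega)⟩ (hs i)
  induction k with
  | zero => exact (hc 0 hL).conc 2
  | succ k ih =>
    obtain ⟨j, hj, hn⟩ := ha (k + 1)
    have l1 : t 0 < t (k + 1) := ht (by omega)
    have l2 : t (k + 1) < t (k + 2) := ht (by omega)
    have l3 : t (k + 2) < t (k + 3) := ht (by omega)
    have e1 : ((k + 1 : ℕ) : ℤ) + 2 = k + 3 := by omega
    have e2 : (k : ℤ) + 1 + 2 = k + 3 := by omega
    have e3 : (k : ℤ) + 1 + 1 = k + 2 := by omega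
    have k1 := hc (k + 1)
    rw [e1] at hL ⊢
    rw [e2] at k1
    rw [e3] at hn
    refine conc_glue (exc_rel (φ := fun x => (p x).1) (h.cp.mono fun x hx => hx.1).fst
      (isOpen_Iio (a := t (k + 2))) (isOpen_Ioi (a := t (k + 1))) (fun x _ => ?_) (fun x => ?_)
      (fun x => ?_) fun x => ?_) (ih ((Ioo_subset_Ioo_right l3.le).trans hL))
      (k1 ((Ioo_subset_Ioo_left l1.le).trans hL))
      (h.arc ((Ioo_subset_Ioo l1.le l3.le).trans hL) l2 hj hn)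
    · exact (lt_or_ge (p x).1 _).imp id l2.trans_le
    · exact ⟨fun k => ⟨⟨k.1, k.2.1, k.2.2.trans l3⟩, k.2.2⟩, fun k => ⟨k.1.1, k.1.2.1, k.2⟩⟩
    · exact ⟨fun k => ⟨⟨k.1, l1.trans k.2.1, k.2.2⟩, k.2.1⟩, fun k => ⟨k.1.1, k.2, k.1.2.2⟩⟩
    · exact ⟨fun k => ⟨⟨k.1, l1.trans k.2.1, k.2.2⟩, k.1, k.2.1, k.2.2.trans l3⟩,
        fun k => ⟨k.1.1, k.2.2.1, k.1.2.2⟩⟩

end chart

/-! ### The chord chart of the disc -/

/-- the point on the chord from `cis φ` to `-cis c` -/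
def κ (c : ℝ) (q : ℝ × ℝ) : ℂ := (1 - q.2 : ℝ) * cis q.1 - q.2 * cis c

/-- the disc seen from `-cis c` -/
def ω (c : ℝ) (z : ℂ) : ℂ := 1 + z * cis (-c)

/-- chord coordinates -/
def Cc (c : ℝ) (z : ℂ) : ℝ × ℝ :=
  (c + 2 * (ω c z).arg, 1 - Complex.normSq (ω c z) / (2 * (ω c z).re))

lemma norm_cis (φ : ℝ) : ‖cis φ‖ = 1 := Complex.norm_exp_ofReal_mul_I φ

lemma cis_add (a b : ℝ) : cis (a + b) = cis a * cis b := by
  simp [cis, add_mul, Complex.exp_add]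

lemma cis_neg (c : ℝ) : cis c * cis (-c) = 1 := by rw [← cis_add]; simp [cis]

lemma κ_zero (c r : ℝ) : κ c (r, 0) = cis r := by simp [κ]

lemma ω_κ (c : ℝ) (q : ℝ × ℝ) : ω c (κ c q) = (2 * (1 - q.2) * Real.cos ((q.1 - c) / 2) : ℝ) *
    (Complex.cos ((q.1 - c) / 2 : ℝ) + Complex.sin ((q.1 - c) / 2 : ℝ) * Complex.I) := by
  have h1 : cis q.1 * cis (-c) = cis ((q.1 - c) / 2) * cis ((q.1 - c) / 2) := by
    rw [← cis_add, ← cis_add]
    congr 1
    ring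
  have h2 := Complex.cos_sq_add_sin_sq ((q.1 - c) / 2 : ℝ)
  rw [cis.eq_def ((q.1 - c) / 2), Complex.exp_mul_I] at h1
  rw [ω, κ, Complex.ofReal_mul, Complex.ofReal_cos]
  generalize Complex.cos ((q.1 - c) / 2 : ℝ) = u at h1 h2 ⊢
  generalize Complex.sin ((q.1 - c) / 2 : ℝ) = w at h1 h2 ⊢
  push_cast
  linear_combination (1 - (q.2 : ℂ)) * h1 - q.2 * cis_neg c - (1 - (q.2 : ℂ)) * h2 +
    (1 - (q.2 : ℂ)) * w ^ 2 * Complex.I_sq

lemma nsq (c : ℝ) (z : ℂ) : Complex.normSq (ω c z) = 2 * (ω c z).re - 1 + ‖z‖ ^ 2 := by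
  have h : Complex.normSq (z * cis (-c)) = ‖z‖ ^ 2 := by
    rw [Complex.normSq_eq_norm_sq, norm_mul, norm_cis, mul_one]
  rw [ω, Complex.normSq_add, h]
  simp
  ring

lemma re_pos {c : ℝ} {z : ℂ} (hz : ‖z‖ ≤ 1) (h : ω c z ≠ 0) : 0 < (ω c z).re := by
  have := Complex.normSq_pos.2 h
  nlinarith [nsq c z, norm_nonneg z]

lemma Cc_mem {c : ℝ} {z : ℂ} (hz : ‖z‖ ≤ 1) (h : ω c z ≠ 0) :
    Cc c z ∈ Ioo (c - π) (c + π) ×ˢ Ico (0 : ℝ) 1 := by
  have h1 := re_pos hz h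
  have h2 := abs_lt.1 (Complex.abs_arg_lt_pi_div_two_iff.2 (Or.inl h1))
  have h3 := Complex.normSq_pos.2 h
  refine ⟨⟨by simp only [Cc]; linarith [h2.1], by simp only [Cc]; linarith [h2.2]⟩, ?_, ?_⟩
  · refine sub_nonneg.2 ((div_le_one (by positivity)).2 ?_)
    nlinarith [nsq c z, norm_nonneg z]
  · exact sub_lt_self _ (by positivity)

lemma κ_Cc {c : ℝ} {z : ℂ} (hz : ‖z‖ ≤ 1) (h : ω c z ≠ 0) : κ c (Cc c z) = z := by
  have h1 := re_pos hz h
  have h2 := ω_κ c (Cc c z)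
  have e1 : ((Cc c z).1 - c) / 2 = (ω c z).arg := by simp [Cc]
  have e2 : 2 * (1 - (Cc c z).2) * Real.cos (ω c z).arg = ‖ω c z‖ := by
    have := norm_pos_iff.2 h
    rw [Complex.cos_arg h, Cc, Complex.normSq_eq_norm_sq]
    field_simp
    ring
  rw [e1, e2, Complex.norm_mul_cos_add_sin_mul_I] at h2
  exact mul_right_cancel₀ (Complex.exp_ne_zero _) (add_left_cancel h2)

lemma Cc_κ {c : ℝ} {q : ℝ × ℝ} (hq : q ∈ Ioo (c - π) (c + π) ×ˢ Ico (0 : ℝ) 1) :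
    ω c (κ c q) ≠ 0 ∧ Cc c (κ c q) = q := by
  have h1 : (q.1 - c) / 2 ∈ Ioo (-(π / 2)) (π / 2) := ⟨by linarith [hq.1.1], by linarith [hq.1.2]⟩
  have h2 := Real.cos_pos_of_mem_Ioo h1
  have h3 := sub_pos.2 hq.2.2
  have h4 : 0 < 2 * (1 - q.2) * Real.cos ((q.1 - c) / 2) := by positivity
  have h5 : ‖ω c (κ c q)‖ = 2 * (1 - q.2) * Real.cos ((q.1 - c) / 2) := by
    rw [ω_κ, norm_mul, Complex.norm_cos_add_sin_mul_I, mul_one, Complex.norm_of_nonneg h4.le]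
  have h6 : (ω c (κ c q)).arg = (q.1 - c) / 2 := by
    rw [ω_κ]
    exact Complex.arg_mul_cos_add_sin_mul_I h4
      ⟨by linarith [h1.1, Real.pi_pos], by linarith [h1.2, Real.pi_pos]⟩
  have h7 : ω c (κ c q) ≠ 0 := norm_pos_iff.1 (h5 ▸ h4)
  have h8 := Complex.cos_arg h7
  rw [h6, eq_div_iff (norm_ne_zero_iff.2 h7), h5] at h8
  refine ⟨h7, Prod.ext ?_ ?_⟩
  · simp only [Cc, h6]
    ring
  · simp only [Cc, Complex.normSq_eq_norm_sq, h5, ← h8]
    field_simp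
    ring

lemma norm_κ {c : ℝ} {q : ℝ × ℝ} (hq : q.2 ∈ Ico (0 : ℝ) 1) : ‖κ c q‖ ≤ 1 := by
  refine (norm_sub_le _ _).trans (le_of_eq ?_)
  rw [norm_mul, norm_mul, norm_cis, norm_cis, Complex.norm_of_nonneg (sub_pos.2 hq.2).le,
    Complex.norm_of_nonneg hq.1]
  ring

lemma norm_κ_ne {c : ℝ} {q : ℝ × ℝ} (hq : q ∈ Ioo (c - π) (c + π) ×ˢ Ico (0 : ℝ) 1)
    (h0 : 0 < q.2) : ‖κ c q‖ ≠ 1 := by
  intro h
  obtain ⟨h1, h2⟩ := Cc_κ hq
  have h3 := re_pos h.le h1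
  rw [← h2, Cc, nsq, h] at h0
  have : (2 * (ω c (κ c q)).re - 1 + 1 ^ 2) / (2 * (ω c (κ c q)).re) = 1 := by
    field_simp
    ring
  simp only [this] at h0
  linarith

lemma cont_ω (c : ℝ) : Continuous (ω c) := by unfold ω; fun_prop

lemma cont_Cc (c : ℝ) : ContinuousOn (Cc c) {z | ‖z‖ ≤ 1 ∧ ω c z ≠ 0} := by
  intro z hz
  have h1 := re_pos hz.1 hz.2
  have h2 := (cont_ω c).continuousAt (x := z)
  have h3 := (Complex.continuousAt_arg (Or.inl h1)).comp h2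
  refine ContinuousAt.continuousWithinAt ((continuousAt_const.add (continuousAt_const.mul h3)).prodMk
    (continuousAt_const.sub (ContinuousAt.div (Complex.continuous_normSq.continuousAt.comp h2)
      (continuousAt_const.mul (Complex.continuous_re.continuousAt.comp h2)) (by positivity))))

/-! ### The star-shaped surface -/

/-- the projection to the disc -/
def pr (Φ : ℂ → E4) (x : E4) : ℂ := Function.invFunOn Φ (closedBall 0 1) (fold x)

lemma side_aux {P R : ℝ → Prop} {a v b : ℝ} (hP : ∀ r ∈ Icc a v, P r) (hR : ∀ r ∈ Icc v b, R r)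
    (hc : ∀ r ∈ Ioo a b, P r → R r → r = v) :
    (∀ r ∈ Ioo a b, P r ↔ r ≤ v) ∧ ∀ r ∈ Ioo a b, R r ↔ v ≤ r := by
  refine ⟨fun r hr => ⟨fun h => ?_, fun h => hP r ⟨hr.1.le, h⟩⟩,
    fun r hr => ⟨fun h => ?_, fun h => hR r ⟨h, hr.2.le⟩⟩⟩
  · exact (le_total r v).elim id fun k => (hc r hr h (hR r ⟨k, hr.2.le⟩)).le
  · exact (le_total v r).elim id fun k => (hc r hr (hP r ⟨hr.1.le, k⟩) h).ge

section star
variable {S : Set E4} {Φ : ℂ → E4} {n : ℕ} {t : ℤ → ℝ}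

lemma flip (hr : ∀ x ∈ S, rf0 x ∈ S ∧ rf1 x ∈ S) {x y : E4} (hy : y ∈ S) (h : fold x = fold y) :
    x ∈ S := by
  have h0 : |x 0| = |y 0| := by simpa [fold, T] using congrArg (· 0) h
  have h1 : |x 1| = |y 1| := by simpa [fold, T] using congrArg (· 1) h
  have h2 : x 2 = y 2 := by simpa [fold, T] using congrArg (· 2) h
  have h3 : x 3 = y 3 := by simpa [fold, T] using congrArg (· 3) h
  rcases abs_eq_abs.1 h0 with k0 | k0 <;> rcases abs_eq_abs.1 h1 with k1 | k1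
  · convert hy using 1
    ext j
    fin_cases j <;> simp [k0, k1, h2, h3]
  · convert (hr y hy).2 using 1
    ext j
    fin_cases j <;> simp [k0, k1, h2, h3, rf1, mkO_apply]
  · convert (hr y hy).1 using 1
    ext j
    fin_cases j <;> simp [k0, k1, h2, h3, rf0, mkO_apply]
  · convert (hr _ (hr y hy).1).2 using 1
    ext j
    fin_cases j <;> simp [k0, k1, h2, h3, rf0, rf1, mkO_apply]

lemma fold_self {y : E4} (hy : ∀ j, T j → 0 ≤ y j) : fold y = y := by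
  ext j
  by_cases h : T j
  · rw [fold_T h, abs_of_nonneg (hy j h)]
  · simp [fold, h]

lemma fold_mem (h : Star S Φ n t) (hr : ∀ x ∈ S, rf0 x ∈ S ∧ rf1 x ∈ S) {x : E4} (hx : x ∈ S) :
    fold x ∈ Φ '' closedBall 0 1 := by
  have h1 : ∀ j, T j → 0 ≤ fold x j := fun j hj => by rw [fold_T hj]; exact abs_nonneg _
  rw [h.img]
  exact ⟨flip hr hx (fold_self h1), h1 0 (Or.inl rfl), h1 1 (Or.inr rfl)⟩

lemma pr_spec (h : Star S Φ n t) (hr : ∀ x ∈ S, rf0 x ∈ S ∧ rf1 x ∈ S) {x : E4} (hx : x ∈ S) :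
    ‖pr Φ x‖ ≤ 1 ∧ Φ (pr Φ x) = fold x :=
  ⟨mem_closedBall_zero_iff.1 (Function.invFunOn_mem (fold_mem h hr hx)),
    Function.invFunOn_eq (fold_mem h hr hx)⟩

lemma cont_pr (h : Star S Φ n t) (hr : ∀ x ∈ S, rf0 x ∈ S ∧ rf1 x ∈ S) :
    ContinuousOn (pr Φ) S := by
  refine ContinuousOn.comp (g := Function.invFunOn Φ (closedBall 0 1)) (t := Φ '' closedBall 0 1)
    (continuousOn_iff_isClosed.2 fun F hF => ⟨Φ '' (closedBall 0 1 ∩ F),
      (((isCompact_closedBall 0 1).inter_right hF).image_of_continuousOn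
        (h.cont.mono inter_subset_left)).isClosed, ?_⟩) cont_fold.continuousOn
    fun x hx => fold_mem h hr hx
  ext y
  constructor
  · rintro ⟨h1, z, hz, rfl⟩
    rw [mem_preimage, h.inj.leftInvOn_invFunOn hz] at h1
    exact ⟨⟨z, ⟨hz, h1⟩, rfl⟩, z, hz, rfl⟩
  · rintro ⟨⟨z, hz, rfl⟩, h1⟩
    exact ⟨by rw [mem_preimage, h.inj.leftInvOn_invFunOn hz.1]; exact hz.2, h1⟩

lemma chart (h : Star S Φ n t) (hr : ∀ x ∈ S, rf0 x ∈ S ∧ rf1 x ∈ S) (c : ℝ) :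
    Chart {x | x ∈ S ∧ ω c (pr Φ x) ≠ 0} (Ioo (c - π) (c + π)) (fun q => Φ (κ c q))
      fun x => Cc c (pr Φ x) := by
  have hk : ∀ q : ℝ × ℝ, q.2 ∈ Ico (0 : ℝ) 1 → κ c q ∈ closedBall (0 : ℂ) 1 := fun q hq =>
    mem_closedBall_zero_iff.2 (norm_κ hq)
  have hd : ∀ q : ℝ × ℝ, q.2 ∈ Ico (0 : ℝ) 1 → Φ (κ c q) ∈ Dq S := fun q hq =>
    h.img ▸ mem_image_of_mem Φ (hk q hq)
  have hp : ∀ q : ℝ × ℝ, q.2 ∈ Ico (0 : ℝ) 1 → ∀ j, T j → 0 ≤ Φ (κ c q) j := by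
    rintro q hq j (rfl | rfl)
    exacts [(hd q hq).2.1, (hd q hq).2.2]
  refine ⟨h.cont.comp (Continuous.continuousOn (by unfold κ cis; fun_prop)) fun q hq => hk q hq.2,
    (cont_Cc c).comp ((cont_pr h hr).mono fun x hx => hx.1)
      fun x hx => ⟨(pr_spec h hr hx.1).1, hx.2⟩,
    fun x hx => Cc_mem (pr_spec h hr hx.1).1 hx.2, fun x hx => ?_, fun q hq x hx => ?_,
    fun q hq => hp q hq.2, fun q hq h0 j hj h1 => ?_, fun r _ => ?_⟩
  · rw [κ_Cc (pr_spec h hr hx.1).1 hx.2, (pr_spec h hr hx.1).2]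
  · have e : pr Φ x = κ c q := by rw [pr, hx, h.inj.leftInvOn_invFunOn (hk q hq.2)]
    refine ⟨⟨flip hr (hd q hq.2).1 (hx.trans (fold_self (hp q hq.2)).symm), ?_⟩, ?_⟩
    · rw [e]
      exact (Cc_κ hq).1
    · simp only [e, (Cc_κ hq).2]
  · refine norm_κ_ne hq h0 ((h.bd _ (hk q hq.2)).2 ⟨(hd q hq.2).1, (hd q hq.2).2.1,
      (hd q hq.2).2.2, ?_⟩)
    rcases hj with rfl | rfl
    exacts [Or.inl h1, Or.inr h1]
  · exact ((h.bd _ (hk (r, 0) (by simp))).1 (by rw [κ_zero, norm_cis])).2.2.2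

lemma cor' (h : Star S Φ n t) (k : ℤ) : ∀ r ∈ Ioo (t k) (t (k + 2)),
    Φ (cis r) 0 = 0 → Φ (cis r) 1 = 0 → r = t (k + 1) := by
  intro r hr h0 h1
  obtain ⟨i, rfl⟩ := h.cor r h0 h1
  have h2 := h.mono.lt_iff_lt.1 hr.1
  have h3 := h.mono.lt_iff_lt.1 hr.2
  rw [show i = k + 1 by omega]

lemma sides (h : Star S Φ n t) (k : ℤ) : ∃ i j : Fin 4, T i ∧ (∀ l, T l → l = i ∨ l = j) ∧
    (∀ r ∈ Ioo (t k) (t (k + 2)), Φ (cis r) j = 0 ↔ r ≤ t (k + 1)) ∧
      ∀ r ∈ Ioo (t k) (t (k + 2)), Φ (cis r) i = 0 ↔ t (k + 1) ≤ r := by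
  obtain ⟨m, rfl | rfl⟩ := Int.even_or_odd' k
  · exact ⟨0, 1, Or.inl rfl, fun _ => id,
      side_aux (h.ev m) (h.od m) fun r hr h1 h0 => cor' h _ r hr h0 h1⟩
  · refine ⟨1, 0, Or.inr rfl, fun _ => Or.symm, side_aux ?_ ?_ (cor' h _)⟩
    · simpa only [add_assoc, one_add_one_eq_two] using h.od m
    · have := h.ev (m + 1)
      rwa [show 2 * (m + 1) + 1 = 2 * m + 1 + 2 by ring,
        show 2 * (m + 1) = 2 * m + 1 + 1 by ring] at this

lemma side (h : Star S Φ n t) (c : ℝ) (k : ℤ) {a b : ℝ} (hs : Ioo a b ⊆ Ioo (t k) (t (k + 2))) :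
    Side (fun r => Φ (κ c (r, 0))) a (t (k + 1)) b := by
  obtain ⟨i, j, -, h1, h2, h3⟩ := sides h k
  intro l hl
  simp only [κ_zero]
  rcases h1 l hl with rfl | rfl
  · exact Or.inr fun r hr => h3 r (hs hr)
  · exact Or.inl fun r hr => h2 r (hs hr)

lemma star (h : Star S Φ n t) (hr : ∀ x ∈ S, rf0 x ∈ S ∧ rf1 x ∈ S) :
    betti1 S + 2 = 2 * n ∨ betti1 S + 3 = 2 * n := by
  have hn := h.npos
  have hπ := Real.pi_pos
  have c₁ := chart h hr (t 0 + π)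
  have c₂ := chart h hr (t 0)
  have eL : Ioo (t 0 + π - π) (t 0 + π + π) = Ioo (t 0) (t ((2 * n - 2 : ℕ) + 2)) := by
    rw [show ((2 * n - 2 : ℕ) : ℤ) + 2 = 0 + 2 * n by omega, h.per]
    congr 1 <;> ring
  have k₁ := c₁.chain h.mono (fun k => side h _ k Subset.rfl) (fun k => by
    obtain ⟨i, j, h1, -, -, h3⟩ := sides h k
    refine ⟨i, h1, fun r hr h4 => ?_⟩
    rw [κ_zero, h3 r ⟨hr.1, hr.2.trans (h.mono (by omega))⟩] at h4
    exact hr.2.not_ge h4) (2 * n - 2) eL.ge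
  set a := max (t (-1)) (t 0 - π)
  set b := min (t (-1 + 2)) (t 0 + π)
  have hv : t 0 ∈ Ioo a b := ⟨max_lt (h.mono (by omega)) (by linarith),
    lt_min (h.mono (by omega)) (by linarith)⟩
  have hL : Ioo a b ⊆ Ioo (t 0 - π) (t 0 + π) := Ioo_subset_Ioo (le_max_right _ _) (min_le_right _ _)
  have hI : Ioo a b ⊆ Ioo (t (-1)) (t (-1 + 2)) := Ioo_subset_Ioo (le_max_left _ _) (min_le_left _ _)
  have hs : Side (fun r => Φ (κ (t 0) (r, 0))) a (t 0) b := side h (t 0) (-1) hI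
  have hz : ∀ j, T j → Φ (cis (t 0)) j = 0 := fun j hj => by
    rcases hs j hj with k | k <;> simpa [κ_zero] using (k _ hv).2 le_rfl
  have e0 : ∀ z, ω (t 0 + π) z = 0 ↔ z = cis (t 0) := fun z => by
    have h1 := cis_neg (t 0 + π)
    have h2 : cis (t 0 + π) = -cis (t 0) := by rw [cis_add]; simp [cis]
    rw [ω]
    refine ⟨fun e => ?_, fun e => ?_⟩
    · linear_combination cis (t 0 + π) * e - z * h1 - h2
    · rw [e, ← h1, h2]
      ring
  have hO : IsOpen ({z | 0 < (ω (t 0) z).re} ∩ (fun z => (Cc (t 0) z).1) ⁻¹' Ioo a b) := by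
    refine ContinuousOn.isOpen_inter_preimage (fun z hz => ?_)
      (isOpen_lt continuous_const (Complex.continuous_re.comp (cont_ω _))) isOpen_Ioo
    exact (continuousAt_const.add (continuousAt_const.mul ((Complex.continuousAt_arg
      (Or.inl hz)).comp (cont_ω _).continuousAt))).continuousWithinAt
  have hq : ((t 0, 0) : ℝ × ℝ) ∈ Ioo (t 0 - π) (t 0 + π) ×ˢ Ico (0 : ℝ) 1 := ⟨hL hv, by simp⟩
  have k₂ := rank_cap (exc_rel (cont_pr h hr) (isOpen_ne_fun (cont_ω (t 0 + π)) continuous_zero)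
    hO (fun x hx => ?_) (fun x => ?_) (fun x => ?_) fun x => ?_) k₁ (c₂.corner hL hv hs)
    (c₂.punct hL hv hs)
  · rw [betti_eq]
    omega
  · refine (eq_or_ne _ _).symm.imp id fun e => ?_
    have := Cc_κ hq
    rw [κ_zero, ← (e0 _).1 e] at this
    exact ⟨re_pos (pr_spec h hr hx).1 this.1, by simpa [this.2] using hv⟩
  · exact ⟨fun k => k.1, fun k => ⟨k, eL ▸ (c₁.mem x k).1⟩⟩
  · exact ⟨fun k => ⟨k.1.1, re_pos (pr_spec h hr k.1.1).1 k.1.2, k.2⟩,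
      fun k => ⟨⟨k.1, fun e => by simpa [e] using k.2.1⟩, k.2.2⟩⟩
  · refine ⟨fun k => ⟨?_, k.1⟩, fun k => ⟨k.2, ?_⟩⟩
    · have h1 : x ∈ {x | x ∈ S ∧ ω (t 0 + π) (pr Φ x) ≠ 0} := ⟨k.1.1.1, fun e => by
        have h2 := (pr_spec h hr k.1.1.1).2
        rw [(e0 _).1 e] at h2
        have h3 := fun j hj => abs_eq_zero.1 ((fold_T hj x).symm.trans (h2 ▸ hz j hj))
        exact k.2.elim (· (h3 0 (Or.inl rfl))) (· (h3 1 (Or.inr rfl)))⟩
      exact ⟨h1, eL ▸ (c₁.mem x h1).1⟩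
    · by_contra h1
      push Not at h1
      have h2 : ∀ j, T j → Φ (κ (t 0) (Cc (t 0) (pr Φ x))) j = 0 := by
        intro j hj
        rw [c₂.fo x k.2.1, fold_T hj, abs_eq_zero]
        rcases hj with rfl | rfl
        exacts [h1.1, h1.2]
      have h3 := c₂.mem x k.2.1
      have h4 : Cc (t 0) (pr Φ x) = ((Cc (t 0) (pr Φ x)).1, 0) := Prod.ext rfl
        (h3.2.1.eq_or_lt.elim Eq.symm fun h0 => (c₂.int _ h3 h0 0 (Or.inl rfl) (h2 0 (Or.inl rfl))).elim)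
      rw [h4, κ_zero] at h2
      have h5 := cor' h (-1) _ (hI k.2.2) (h2 0 (Or.inl rfl)) (h2 1 (Or.inr rfl))
      refine k.1.1.2 ((e0 _).2 ?_)
      rw [← κ_Cc (pr_spec h hr k.2.1.1).1 k.2.1.2, h4, κ_zero, h5]
      rfl

end star

end DHom

/-- Betti numbers -/
theorem homS : HomS := ⟨DHom.sph, fun _ _ _ _ => DHom.star⟩

end Pool.Agent.Lib.MP_16d934_gt
end
end

-- part Pool.Agent.Lib.MP_16d934_gt.EPsib
section

/-! The conjugate function of a leaf and its values on the edge. -/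

set_option autoImplicit false

open Set Metric Filter Topology MeasureTheory Asymptotics
open scoped ContDiff InnerProductSpace NNReal Real

noncomputable section

namespace Pool.Agent.Lib.MP_16d934_gt

namespace EPsi

theorem rho_open (a b : ℝ) : IsOpen (Rho a b) :=
  isOpen_lt (by fun_prop) continuous_const

theorem rh_closed (a b : ℝ) : IsClosed (Rh a b) :=
  isClosed_le (by fun_prop) continuous_const

theorem rho_sub (a b : ℝ) : Rho a b ⊆ Rh a b := fun _ hy => le_of_lt (α := ℝ) hy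

theorem zero_mem (a b : ℝ) : (0 : P2) ∈ Rho a b := by simp [Rho]

theorem abs_comb {x y s t : ℝ} (hs : 0 ≤ s) (ht : 0 ≤ t) : |s * x + t * y| ≤ s * |x| + t * |y| := by
  have := abs_add_le (s * x) (t * y)
  rwa [abs_mul, abs_mul, abs_of_nonneg hs, abs_of_nonneg ht] at this

theorem comb_lt {p q c s t : ℝ} (hs : 0 ≤ s) (ht : 0 ≤ t) (hst : s + t = 1) (hp : p < c)
    (hq : q < c) : s * p + t * q < c := by
  rcases hs.eq_or_lt with h | h
  · have : t = 1 := by linarith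
    rw [← h, this]
    linarith
  · have e : s * c + t * c = c := by rw [← add_mul, hst, one_mul]
    nlinarith [mul_pos h (sub_pos.2 hp), mul_nonneg ht (sub_pos.2 hq).le]

theorem rho_convex {a b : ℝ} (ha : 0 < a) (hb : 0 < b) : Convex ℝ (Rho a b) := by
  intro x hx y hy s t hs ht hst
  have h1 := div_le_div_of_nonneg_right (abs_comb (x := x.1) (y := y.1) hs ht) ha.le
  have h2 := div_le_div_of_nonneg_right (abs_comb (x := x.2) (y := y.2) hs ht) hb.le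
  have h3 := comb_lt hs ht hst (show |x.1| / a + |x.2| / b < 1 from hx)
    (show |y.1| / a + |y.2| / b < 1 from hy)
  change |s * x.1 + t * y.1| / a + |s * x.2 + t * y.2| / b < 1
  have e : s * (|x.1| / a + |x.2| / b) + t * (|y.1| / a + |y.2| / b) =
      (s * |x.1| + t * |y.1|) / a + (s * |x.2| + t * |y.2|) / b := by ring
  linarith

theorem rh_compact {a b : ℝ} (ha : 0 < a) (hb : 0 < b) : IsCompact (Rh a b) := by
  refine (isCompact_closedBall (0 : P2) (a + b)).of_isClosed_subset (rh_closed a b) fun y hy => ?_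
  have hy' : |y.1| / a + |y.2| / b ≤ 1 := hy
  have h1 : 0 ≤ |y.1| / a := by positivity
  have h2 : 0 ≤ |y.2| / b := by positivity
  have h3 : |y.1| ≤ a := by rw [← div_le_one ha]; linarith
  have h4 : |y.2| ≤ b := by rw [← div_le_one hb]; linarith
  rw [mem_closedBall_zero_iff, Prod.norm_def, max_le_iff, Real.norm_eq_abs, Real.norm_eq_abs]
  constructor <;> linarith

theorem he_iff {a b : ℝ} {y : P2} :
    y ∈ HE a b ↔ 0 < y.1 ∧ |y.2| < b / 2 ∧ |y.2| < a * y.1 / 2 := by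
  unfold HE
  rw [mem_ofPred_eq, ← min_div_div_right (by norm_num : (0 : ℝ) ≤ 2), lt_min_iff]

theorem he_open (a b : ℝ) : IsOpen (HE a b) :=
  (isOpen_lt continuous_const continuous_fst).inter
    (isOpen_lt (f := fun y : P2 => |y.2|) (g := fun y : P2 => min b (a * y.1) / 2)
      (by fun_prop) (by fun_prop))

theorem he_convex (a b : ℝ) : Convex ℝ (HE a b) := by
  intro x hx y hy s t hs ht hst
  rw [he_iff] at hx hy ⊢
  have h1 := abs_comb (x := x.2) (y := y.2) hs ht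
  have h2 := comb_lt (p := -x.1) (q := -y.1) (c := 0) hs ht hst (by linarith [hx.1])
    (by linarith [hy.1])
  have h3 := comb_lt hs ht hst hx.2.1 hy.2.1
  have h4 := comb_lt (p := |x.2| - a * x.1 / 2) (q := |y.2| - a * y.1 / 2) (c := 0) hs ht hst
    (by linarith [hx.2.2]) (by linarith [hy.2.2])
  change 0 < s * x.1 + t * y.1 ∧ |s * x.2 + t * y.2| < b / 2 ∧
    |s * x.2 + t * y.2| < a * (s * x.1 + t * y.1) / 2
  refine ⟨by linarith, by linarith, by linarith⟩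

theorem he_axis {a b s : ℝ} (ha : 0 < a) (hb : 0 < b) (hs : 0 < s) : ((s, 0) : P2) ∈ HE a b := by
  rw [he_iff]
  simp only [abs_zero]
  exact ⟨hs, by positivity, by positivity⟩

theorem line1 {F : Type} [NormedAddCommGroup F] [NormedSpace ℝ F] {g : P2 → F} {L : P2 →L[ℝ] F}
    {s c : ℝ} (h : HasFDerivAt g L (s, c)) : HasDerivAt (fun t => g (t, c)) (L (1, 0)) s :=
  h.comp_hasDerivAt s ((hasDerivAt_id s).prodMk (hasDerivAt_const s c))

theorem line2 {F : Type} [NormedAddCommGroup F] [NormedSpace ℝ F] {g : P2 → F} {L : P2 →L[ℝ] F}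
    {s c : ℝ} (h : HasFDerivAt g L (c, s)) : HasDerivAt (fun t => g (c, t)) (L (0, 1)) s :=
  h.comp_hasDerivAt s ((hasDerivAt_const s c).prodMk (hasDerivAt_id s))

theorem anti_of {g : ℝ → ℝ} {D : Set ℝ} (hD : Convex ℝ D) (hc : ContinuousOn g D)
    (h : ∀ x ∈ interior D, ∃ d ≤ 0, HasDerivAt g d x) : AntitoneOn g D :=
  antitoneOn_of_deriv_nonpos hD hc
    (fun x hx => (h x hx).choose_spec.2.differentiableAt.differentiableWithinAt)
    fun x hx => by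
      obtain ⟨d, hd, h1⟩ := h x hx
      rwa [h1.deriv]

theorem cd_gn : ContDiff ℝ 1 (fun q : P2 × ℝ => gn q.1 q.2) := by
  have e : (fun q : P2 × ℝ => gn q.1 q.2) = fun q : P2 × ℝ =>
      (√(1 + q.1.1 ^ 2 + q.1.2 ^ 2 + q.2 ^ 2))⁻¹ •
        ((1 : ℝ) • ee 0 + q.1.1 • ee 1 + q.1.2 • ee 2 + q.2 • ee 3) := by
    ext1 q
    rw [gn, BMeq.vec4]
  rw [e]
  have hp : ∀ q : P2 × ℝ, 0 < 1 + q.1.1 ^ 2 + q.1.2 ^ 2 + q.2 ^ 2 := fun q => by positivity
  refine ContDiff.smul (ContDiff.inv (ContDiff.sqrt (by fun_prop) fun q => (hp q).ne')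
    fun q => (Real.sqrt_pos.2 (hp q)).ne') (by fun_prop)

theorem norm_gn (y : P2) (z : ℝ) : ‖gn y z‖ = 1 :=
  BMeq.norm_unit _ _ _ _ _ (by positivity) (by ring)

theorem gn_coord (w : E4) (hw : ‖w‖ = 1) (h0 : 0 < w 0) :
    gn (w 1 / w 0, w 2 / w 0) (w 3 / w 0) = w := by
  have h1 := inner_sq w hw
  have h2 : √(1 + (w 1 / w 0) ^ 2 + (w 2 / w 0) ^ 2 + (w 3 / w 0) ^ 2) = (w 0)⁻¹ := by
    rw [Real.sqrt_eq_iff_mul_self_eq (by positivity) (by positivity)]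
    field_simp
    linarith
  unfold gn
  rw [h2, inv_inv]
  ext i
  fin_cases i <;> simp <;> field_simp

/-- the conjugate function -/
structure Conj (a b : ℝ) (u χ : P2 → ℝ) : Prop where
  cont : Continuous χ
  zero : χ 0 = 0
  der : ∀ y ∈ Rho a b, HasFDerivAt χ (om (gX O0 u) (gN O0 u) y) y

theorem abs_u12 (p q : E4) : |u12 p q| ≤ 2 * ‖p‖ * ‖q‖ := by
  have hp : ∀ i, |p i| ≤ ‖p‖ := fun i => PiLp.norm_apply_le p i
  have hq : ∀ i, |q i| ≤ ‖q‖ := fun i => PiLp.norm_apply_le q i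
  have h1 := mul_le_mul (hp 0) (hq 1) (abs_nonneg _) (norm_nonneg _)
  have h2 := mul_le_mul (hp 1) (hq 0) (abs_nonneg _) (norm_nonneg _)
  have h3 := abs_sub (p 0 * q 1) (p 1 * q 0)
  rw [abs_mul, abs_mul] at h3
  unfold u12
  linarith

variable {a b : ℝ} {u χ : P2 → ℝ}

theorem sf_leaf (hM : MeqS) (hu : IsLeaf a b u) {y : P2} (hy : y ∈ Rho a b) :
    Sf (gX O0 u) (gN O0 u) y := sf_graph hM O0 (rho_open a b) hu.sol hy

theorem exists_conj (hM : MeqS) (hR : RadoS) (hu : IsLeaf a b u) : ∃ χ, Conj a b u χ := by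
  obtain ⟨χ, hχ⟩ := prim (rho_open a b) (rho_convex hu.apos hu.bpos) fun y hy => sf_leaf hM hu hy
  have hl := (hR.lip a b u hu).2
  have hl2 : LipschitzOnWith _ (fun y : P2 => (y, u y)) (Rh a b) :=
    (LipschitzWith.id.lipschitzOnWith).prodMk hl
  have hK : IsCompact ((fun y : P2 => (y, u y)) '' Rh a b) :=
    (rh_compact hu.apos hu.bpos).image_of_continuousOn hl2.continuousOn
  obtain ⟨C, hC⟩ := (cd_gn.locallyLipschitz.locallyLipschitzOn).exists_lipschitzOnWith_of_compact hK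
  have hl3 := O0.lipschitz.comp_lipschitzOnWith (hC.comp hl2 (mapsTo_image _ _))
  obtain ⟨C', hl4⟩ : ∃ C' : ℝ≥0, LipschitzOnWith C' (gX O0 u) (Rh a b) := ⟨_, hl3⟩
  have hb : ∀ y ∈ Rho a b, ‖om (gX O0 u) (gN O0 u) y‖₊ ≤ 2 * C' := by
    intro y hy
    have h1 : ‖fderiv ℝ (gX O0 u) y‖ ≤ C' := norm_fderiv_le_of_lipschitzOn ℝ
      (mem_of_superset ((rho_open a b).mem_nhds hy) (rho_sub a b)) hl4
    rw [← NNReal.coe_le_coe, coe_nnnorm]
    refine ContinuousLinearMap.opNorm_le_bound _ (by positivity) fun v => ?_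
    rw [om_apply, Real.norm_eq_abs]
    refine (abs_u12 _ _).trans ?_
    rw [(sf_leaf hM hu hy).geo.self_of_nhds.2.1]
    have h2 := (fderiv ℝ (gX O0 u) y).le_of_opNorm_le h1 v
    push_cast
    linarith
  have hl5 : LipschitzOnWith (2 * C') χ (Rho a b) :=
    (rho_convex hu.apos hu.bpos).lipschitzOnWith_of_nnnorm_hasFDerivWithin_le
      (fun y hy => (hχ y hy).hasFDerivWithinAt) hb
  obtain ⟨g, hg, he⟩ := hl5.extend_real
  refine ⟨fun y => g y - g 0, hg.continuous.sub continuous_const, sub_self _, fun y hy => ?_⟩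
  refine HasFDerivAt.sub_const _ ((hχ y hy).congr_of_eventuallyEq ?_)
  filter_upwards [(rho_open a b).mem_nhds hy] with x hx
  exact (he hx).symm

theorem Conj.pull (hM : MeqS) (hu : IsLeaf a b u) (h : Conj a b u χ) {Φ : P2 → P2}
    {Y M : P2 → E4} {η : P2} (hΦ : DifferentiableAt ℝ Φ η) (hm : Φ η ∈ Rho a b)
    (hY : ∀ᶠ x in 𝓝 η, gX O0 u (Φ x) = Y x) (hN : gN O0 u (Φ η) = M η) :
    HasFDerivAt (fun x => χ (Φ x)) (om Y M η) η := by
  refine ((h.der _ hm).comp η hΦ.hasFDerivAt).congr_fderiv ?_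
  have h1 : (fun x => gX O0 u (Φ x)) =ᶠ[𝓝 η] Y := hY
  have h2 : fderiv ℝ Y η = (fderiv ℝ (gX O0 u) (Φ η)).comp (fderiv ℝ Φ η) := by
    rw [← h1.fderiv_eq]
    exact fderiv_comp η (sf_leaf hM hu hm).dX hΦ
  refine ContinuousLinearMap.ext fun v => ?_
  rw [ContinuousLinearMap.comp_apply, om_apply, om_apply, h2, hN]
  rfl

theorem const_of {U : Set P2} (hU : IsOpen U) (hc : Convex ℝ U) {g : P2 → ℝ}
    (h : ∀ y ∈ U, HasFDerivAt g (0 : P2 →L[ℝ] ℝ) y) : ∃ c, ∀ y ∈ U, g y = c :=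
  hU.exists_is_const_of_fderiv_eq_zero hc.isPreconnected
    (fun y hy => (h y hy).differentiableAt.differentiableWithinAt) fun y hy => (h y hy).fderiv

theorem Conj.sym (hM : MeqS) (hu : IsLeaf a b u) (h : Conj a b u χ) (R : P2 →L[ℝ] P2) (g : Iso)
    (ε : ℝ) (hR : ∀ y ∈ Rho a b, R y ∈ Rho a b)
    (hX : ∀ y ∈ Rho a b, gX O0 u (R y) = g (gX O0 u y))
    (hN : ∀ y ∈ Rho a b, gN O0 u (R y) = g (gN O0 u y))
    (hg : ∀ p q, u12 (g p) (g q) = ε * u12 p q) : ∀ y ∈ Rho a b, χ (R y) = ε * χ y := by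
  obtain ⟨c, hc⟩ := const_of (rho_open a b) (rho_convex hu.apos hu.bpos)
    (g := fun y => χ (R y) - ε * χ y) fun y hy => by
      have h1 := h.pull hM hu (Φ := R) (Y := fun x => g (gX O0 u x))
        (M := fun x => g (gN O0 u x)) R.differentiableAt (hR y hy)
        (by filter_upwards [(rho_open a b).mem_nhds hy] with x hx using hX x hx) (hN y hy)
      refine (h1.sub ((h.der y hy).const_mul ε)).congr_fderiv ?_
      refine ContinuousLinearMap.ext fun v => ?_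
      have e := congrFun (BMeq.fd_iso g (gX O0 u) v) y
      simp only [sub_apply, smul_apply, om_apply, e, hg]
      simp
  have h0 := hc 0 (zero_mem a b)
  rw [map_zero, h.zero] at h0
  intro y hy
  have := hc y hy
  linarith

theorem u12_rf3 (p q : E4) : u12 (rf3 p) (rf3 q) = 1 * u12 p q := by simp [u12, rf3, mkO_apply]

theorem u12_rf1 (p q : E4) : u12 (rf1 p) (rf1 q) = -1 * u12 p q := by
  simp [u12, rf1, mkO_apply]
  ring

theorem aa_rf3 (p : E4) : aa (rf3 p) = aa p := by simp [aa, rf3, mkO_apply]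

theorem aa_rf1 (p : E4) : aa (rf1 p) = aa p := by simp [aa, rf1, mkO_apply]

theorem neg1_mem {y : P2} (hy : y ∈ Rho a b) : ((-y.1, y.2) : P2) ∈ Rho a b := by
  simpa [Rho] using hy

theorem neg2_mem {y : P2} (hy : y ∈ Rho a b) : ((y.1, -y.2) : P2) ∈ Rho a b := by
  simpa [Rho] using hy

theorem Conj.even (hM : MeqS) (hT : TetS) (hu : IsLeaf a b u) (h : Conj a b u χ) {y : P2}
    (hy : y ∈ Rho a b) : χ (-y.1, y.2) = χ y := by
  have := h.sym hM hu ((-ContinuousLinearMap.fst ℝ ℝ ℝ).prod (ContinuousLinearMap.snd ℝ ℝ ℝ))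
    rf3 1 (fun y hy => neg1_mem hy) (fun y hy => (hT.evg a b u hu y hy).1)
    (fun y hy => (hT.evg a b u hu y hy).2.1) u12_rf3 y hy
  rwa [one_mul] at this

theorem Conj.axis (hM : MeqS) (hT : TetS) (hu : IsLeaf a b u) (h : Conj a b u χ) {y : P2}
    (hy : y ∈ Rho a b) (h2 : y.2 = 0) : χ y = 0 := by
  have := h.sym hM hu ((ContinuousLinearMap.fst ℝ ℝ ℝ).prod (-ContinuousLinearMap.snd ℝ ℝ ℝ))
    rf1 (-1) (fun y hy => neg2_mem hy) (fun y hy => (hT.evg a b u hu y hy).2.2.1)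
    (fun y hy => (hT.evg a b u hu y hy).2.2.2) u12_rf1 y hy
  have e : ((ContinuousLinearMap.fst ℝ ℝ ℝ).prod (-ContinuousLinearMap.snd ℝ ℝ ℝ)) y = y := by
    ext <;> simp [h2]
  rw [e] at this
  linarith

theorem Conj.vertP (hM : MeqS) (hT : TetS) (hu : IsLeaf a b u) (h : Conj a b u χ) :
    χ (a, 0) = 0 := by
  have h1 : Tendsto (fun t : ℝ => χ (t, 0)) (𝓝[<] a) (𝓝 (χ (a, 0))) :=
    ((h.cont.comp (continuous_id.prodMk continuous_const)).tendsto a).mono_left nhdsWithin_le_nhds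
  refine tendsto_nhds_unique h1 (tendsto_const_nhds.congr' ?_)
  filter_upwards [Ioo_mem_nhdsLT hu.apos] with t ht
  refine (h.axis hM hT hu ?_ rfl).symm
  change |t| / a + |(0 : ℝ)| / b < 1
  rw [abs_of_pos ht.1, abs_zero, zero_div, add_zero, div_lt_one hu.apos]
  exact ht.2

/-- reflection into the right half -/
theorem Conj.abs1 (hM : MeqS) (hT : TetS) (hu : IsLeaf a b u) (h : Conj a b u χ) {y : P2}
    (hy : y ∈ Rho a b) : ((|y.1|, y.2) : P2) ∈ Rho a b ∧ χ (|y.1|, y.2) = χ y ∧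
      aa (gX O0 u (|y.1|, y.2)) = aa (gX O0 u y) ∧
      u12 (gX O0 u (|y.1|, y.2)) (gN O0 u (|y.1|, y.2)) = u12 (gX O0 u y) (gN O0 u y) := by
  rcases le_total 0 y.1 with h1 | h1
  · rw [abs_of_nonneg h1]
    exact ⟨hy, rfl, rfl, rfl⟩
  · rw [abs_of_nonpos h1]
    obtain ⟨e1, e2, -, -⟩ := hT.evg a b u hu y hy
    exact ⟨neg1_mem hy, h.even hM hT hu hy, by rw [e1, aa_rf3], by rw [e1, e2, u12_rf3, one_mul]⟩

/-- central gnomonic coordinates -/
def py (x : E4) : P2 := (√2 * x 3 / (x 0 + x 2), √2 * x 1 / (x 0 + x 2))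

theorem rho_pos (y : P2) (z : ℝ) : 0 < rho y z := Real.sqrt_pos.2 (by positivity)

theorem sum02 (hT : TetS) (y : P2) (z : ℝ) : O0 (gn y z) 0 + O0 (gn y z) 2 = √2 / rho y z := by
  obtain ⟨e0, -, e2, -⟩ := hT.coord y z
  have := rho_pos y z
  rw [e0, e2]
  field_simp
  rw [Real.sq_sqrt (by norm_num)]
  ring

theorem py_X (hT : TetS) (y : P2) (z : ℝ) : py (O0 (gn y z)) = y := by
  have := rho_pos y z
  obtain ⟨-, e1, -, e3⟩ := hT.coord y z
  unfold py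
  rw [sum02 hT, e1, e3]
  ext <;> simp only <;> field_simp

theorem diff_py {x : E4} (h : x 0 + x 2 ≠ 0) : DifferentiableAt ℝ py x := by
  have hp : ∀ i : Fin 4, DifferentiableAt ℝ (fun x : E4 => x i) x := fun i =>
    (EuclideanSpace.proj i : E4 →L[ℝ] ℝ).differentiableAt
  have hi : DifferentiableAt ℝ (fun x : E4 => (x 0 + x 2)⁻¹) x := ((hp 0).add (hp 2)).inv h
  unfold py
  simp only [div_eq_mul_inv]
  exact (((hp 3).const_mul _).mul hi).prodMk (((hp 1).const_mul _).mul hi)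

/-- distance of an edge point from the axis -/
def ff (s : ℝ) : ℝ := (√(1 + s ^ 2))⁻¹

/-- the normal component on the edge -/
def bb (q : ℝ) : ℝ := (1 - q) / (√2 * √(1 + q ^ 2))

theorem ff_pos (s : ℝ) : 0 < ff s := inv_pos.2 (Real.sqrt_pos.2 (by positivity))

theorem ff_cont : Continuous ff :=
  Continuous.inv₀ (by fun_prop) fun s => (Real.sqrt_pos.2 (by positivity)).ne'

theorem ff_zero : ff 0 = 1 := by simp [ff]

theorem ff_le (s : ℝ) : ff s ≤ 1 :=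
  inv_le_one_of_one_le₀ (Real.one_le_sqrt.2 (by nlinarith [sq_nonneg s]))

theorem ff_der {s : ℝ} (hs : 0 < s) : ∃ d ≤ 0, HasDerivAt ff d s := by
  have hp : 0 < 1 + s ^ 2 := by positivity
  have hq := Real.sqrt_pos.2 hp
  have h1 := ((((hasDerivAt_id s).pow 2).const_add 1).sqrt hp.ne').inv hq.ne'
  refine ⟨_, ?_, h1⟩
  refine div_nonpos_of_nonpos_of_nonneg (neg_nonpos.2 ?_) (by positivity)
  simp only [id]
  positivity

theorem bb_nonneg {q : ℝ} (hq : q ≤ 1) : 0 ≤ bb q :=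
  div_nonneg (by linarith) (by positivity)

theorem bb_le (q : ℝ) : bb q ≤ 1 := by
  have hp : 0 < 1 + q ^ 2 := by positivity
  unfold bb
  rw [div_le_one (by positivity), ← Real.sqrt_mul (by norm_num)]
  exact Real.le_sqrt_of_sq_le (by nlinarith [sq_nonneg (1 + q)])

theorem bb_der {q : ℝ} (hq : -1 ≤ q) : ∃ d ≤ 0, HasDerivAt bb d q := by
  have hp : 0 < 1 + q ^ 2 := by positivity
  have hs := Real.sqrt_pos.2 hp
  have hss : √(1 + q ^ 2) * √(1 + q ^ 2) = 1 + q ^ 2 := Real.mul_self_sqrt hp.le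
  have h0 : (0 : ℝ) < √2 := by positivity
  have h1 := ((hasDerivAt_id q).const_sub 1).div
    (((((hasDerivAt_id q).pow 2).const_add 1).sqrt hp.ne').const_mul (√2)) (mul_pos h0 hs).ne'
  refine ⟨_, ?_, h1⟩
  refine div_nonpos_of_nonpos_of_nonneg ?_ (by positivity)
  simp only [id, Pi.pow_apply]
  set W := √(1 + q ^ 2)
  have e : -1 * (√2 * W) - (1 - q) * (√2 * (((2 : ℕ) : ℝ) * q ^ (2 - 1) * 1 / (2 * W))) =
      -(√2 * (1 + q) / W) := by
    field_simp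
    push_cast
    linear_combination (-2) * hss
  rw [e]
  have : 0 ≤ 1 + q := by linarith
  exact neg_nonpos.2 (by positivity)

theorem edge_X (A B s : ℝ) : OG A B (gn (s, 0) 0) 0 = Real.cos B * ff s ∧
    OG A B (gn (s, 0) 0) 1 = Real.sin B * ff s ∧
    OG A B (gn (s, 0) 0) 2 = s * Real.cos A * ff s ∧
    OG A B (gn (s, 0) 0) 3 = s * Real.sin A * ff s := by
  simp [OG, OQ, dg, mkO_apply, gn, ff]
  refine ⟨by ring, by ring, by ring, by ring⟩

theorem edge_N (A B s q : ℝ) : OG A B (nrm (s, 0) 0 0 q) 0 = -Real.sin B * bb q ∧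
    OG A B (nrm (s, 0) 0 0 q) 1 = Real.cos B * bb q := by
  simp [OG, OQ, dg, mkO_apply, nrm, bb]
  constructor <;> ring

/-- the edge in central coordinates -/
def ep (a b s : ℝ) : P2 :=
  (a * (s * Real.cos (hA a) / (Real.cos (hA b) + s * Real.cos (hA a))),
    b * (Real.cos (hA b) / (Real.cos (hA b) + s * Real.cos (hA a))))

theorem cos_hA (a : ℝ) : 0 < Real.cos (hA a) := Real.cos_arctan_pos _

theorem sin_hA (hT : TetS) (ha : 0 < a) : √2 * Real.sin (hA a) = a * Real.cos (hA a) := by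
  have h1 := (hT.ang.1 a ha).2.2
  have h2 := cos_hA a
  rw [Real.tan_eq_sin_div_cos] at h1
  field_simp at h1
  linarith

theorem py_edge (hT : TetS) (ha : 0 < a) (hb : 0 < b) {s : ℝ} (hs : 0 < s) :
    py (OG (hA a) (hA b) (gn (s, 0) 0)) = ep a b s := by
  obtain ⟨e0, e1, e2, e3⟩ := edge_X (hA a) (hA b) s
  have h1 := sin_hA hT ha
  have h2 := sin_hA hT hb
  have h3 := cos_hA a
  have h4 := cos_hA b
  have h5 := ff_pos s
  unfold py ep
  rw [e0, e1, e2, e3]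
  ext
  · simp only
    field_simp
    linarith
  · simp only
    field_simp
    linarith

theorem ep_zero (a b : ℝ) : Tendsto (ep a b) (𝓝[>] 0) (𝓝 (0, b)) := by
  have h4 := cos_hA b
  have h : ContinuousAt (ep a b) 0 := by
    unfold ep
    refine ContinuousAt.prodMk ?_ ?_ <;>
      exact continuousAt_const.mul (ContinuousAt.div (by fun_prop) (by fun_prop) (by simpa using h4.ne'))
  have e : ep a b 0 = (0, b) := by simp [ep, h4.ne']
  rw [← e]
  exact h.tendsto.mono_left nhdsWithin_le_nhds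

theorem ep_top (a b : ℝ) : Tendsto (fun t => ep a b t⁻¹) (𝓝[>] 0) (𝓝 (a, 0)) := by
  have h3 := cos_hA a
  have h4 := cos_hA b
  have h : ContinuousAt (fun t : ℝ =>
      ((a * (Real.cos (hA a) / (t * Real.cos (hA b) + Real.cos (hA a))),
        b * (t * Real.cos (hA b) / (t * Real.cos (hA b) + Real.cos (hA a)))) : P2)) 0 := by
    refine ContinuousAt.prodMk ?_ ?_ <;>
      exact continuousAt_const.mul (ContinuousAt.div (by fun_prop) (by fun_prop) (by simpa using h3.ne'))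
  have h1 := h.tendsto.mono_left (nhdsWithin_le_nhds (s := Ioi 0))
  simp only [zero_mul, zero_add, zero_div, mul_zero, div_self h3.ne', mul_one] at h1
  refine h1.congr' ?_
  filter_upwards [self_mem_nhdsWithin] with t ht
  have ht' : 0 < t := ht
  unfold ep
  ext
  · simp only
    field_simp
  · simp only
    field_simp

theorem ep_mem (ha : 0 < a) (hb : 0 < b) {s : ℝ} (hs : 0 < s) : ep a b s ∈ Rh a b := by
  have h3 := cos_hA a
  have h4 := cos_hA b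
  change |(ep a b s).1| / a + |(ep a b s).2| / b ≤ 1
  unfold ep
  simp only
  rw [abs_of_pos (by positivity), abs_of_pos (by positivity)]
  apply le_of_eq
  field_simp
  ring

theorem bdry (ha : 0 < a) (hb : 0 < b) {y : P2} (h1 : y ∈ Rh a b) (h2 : y ∉ Rho a b)
    (p1 : 0 ≤ y.1) (p2 : 0 ≤ y.2) : y = (a, 0) ∨ y = (0, b) ∨ ∃ s > 0, y = ep a b s := by
  have h3 := cos_hA a
  have h4 := cos_hA b
  have e : y.1 / a + y.2 / b = 1 := by
    have := le_antisymm (show |y.1| / a + |y.2| / b ≤ 1 from h1) (not_lt.1 h2)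
    rwa [abs_of_nonneg p1, abs_of_nonneg p2] at this
  rcases p2.eq_or_lt with q2 | q2
  · left
    rw [← q2, zero_div, add_zero, div_eq_one_iff_eq ha.ne'] at e
    exact Prod.ext e q2.symm
  rcases p1.eq_or_lt with q1 | q1
  · right; left
    rw [← q1, zero_div, zero_add, div_eq_one_iff_eq hb.ne'] at e
    exact Prod.ext q1.symm e
  right; right
  refine ⟨y.1 * b * Real.cos (hA b) / (y.2 * a * Real.cos (hA a)), by positivity, ?_⟩
  field_simp at e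
  unfold ep
  ext
  · simp only
    field_simp
    linarith
  · simp only
    field_simp
    linarith

end EPsi

end Pool.Agent.Lib.MP_16d934_gt
end
end
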