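import Pool.Agent.Lib.MP_16d934_gt.EQbara

/-! Barriers in a wedge: growth of a leaf at the vertices `vQ`. -/

set_option autoImplicit false

open Set Metric Filter Topology
open scoped ContDiff InnerProductSpace NNReal Real

noncomputable section

namespace Pool.Agent.Lib.MP_16d934_gt.EQbar

/-- frame at the vertex `vQ B` whose vertical direction points into the tetrahedron -/
def OF (B : ℝ) : Iso := mkO ![!₂[Real.cos B, Real.sin B, 0, 0], !₂[0, 0, 1, 0], !₂[0, 0, 0, 1],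
  !₂[Real.sin B, -Real.cos B, 0, 0]] (ortho4 _ fun i j => by
    fin_cases i <;> fin_cases j <;> simp <;> nlinarith [Real.sin_sq_add_cos_sq B])

theorem rho_pos (w : P2) (z : ℝ) : 0 < rho w z := by unfold rho; positivity

theorem OF_coord (B : ℝ) (w : P2) (z : ℝ) :
    OF B (gn w z) 0 = (Real.cos B + z * Real.sin B) / rho w z ∧
    OF B (gn w z) 1 = (Real.sin B - z * Real.cos B) / rho w z ∧
    OF B (gn w z) 2 = w.1 / rho w z ∧ OF B (gn w z) 3 = w.2 / rho w z := by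
  refine ⟨?_, ?_, ?_, ?_⟩ <;> simp [OF, mkO_apply, gn, rho] <;> ring

/-- component along the vertex -/
def DD (B : ℝ) (x : E4) : ℝ := Real.cos B * x 0 + Real.sin B * x 1

/-- vertical component -/
def HH (B : ℝ) (x : E4) : ℝ := Real.sin B * x 0 - Real.cos B * x 1

/-- gnomonic height -/
def et (B : ℝ) (x : E4) : ℝ := HH B x / DD B x

/-- gnomonic base point -/
def ww (B : ℝ) (x : E4) : P2 := (x 2 / DD B x, x 3 / DD B x)

theorem nsq {x : E4} (h : ‖x‖ = 1) : x 0 ^ 2 + x 1 ^ 2 + x 2 ^ 2 + x 3 ^ 2 = 1 := by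
  have := real_inner_self_eq_norm_sq x
  rw [inner4, h] at this
  linarith

theorem DH (B : ℝ) (x : E4) : DD B x ^ 2 + HH B x ^ 2 = x 0 ^ 2 + x 1 ^ 2 := by
  unfold DD HH
  linear_combination (x 0 ^ 2 + x 1 ^ 2) * Real.sin_sq_add_cos_sq B

theorem fwd (B : ℝ) (w : P2) (z : ℝ) : DD B (OF B (gn w z)) = 1 / rho w z ∧
    ww B (OF B (gn w z)) = w ∧ et B (OF B (gn w z)) = z := by
  obtain ⟨h0, h1, h2, h3⟩ := OF_coord B w z
  have hr := (rho_pos w z).ne'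
  have hD : DD B (OF B (gn w z)) = 1 / rho w z := by
    rw [DD, h0, h1]; field_simp
    linear_combination Real.sin_sq_add_cos_sq B
  have hH : HH B (OF B (gn w z)) = z / rho w z := by
    rw [HH, h0, h1]; field_simp
    linear_combination z * Real.sin_sq_add_cos_sq B
  refine ⟨hD, ?_, ?_⟩
  · rw [ww, hD, h2, h3]
    ext <;> simp only <;> field_simp
  · rw [et, hD, hH]; field_simp

theorem back (B : ℝ) {x : E4} (h : ‖x‖ = 1) (hD : 0 < DD B x) :
    OF B (gn (ww B x) (et B x)) = x := by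
  obtain ⟨h0, h1, h2, h3⟩ := OF_coord B (ww B x) (et B x)
  have hr : rho (ww B x) (et B x) = 1 / DD B x := by
    rw [rho, Real.sqrt_eq_iff_mul_self_eq (by positivity) (by positivity)]
    simp only [ww, et]
    field_simp
    linarith [DH B x, nsq h]
  have hD' := hD.ne'
  ext i
  fin_cases i
  · change OF B (gn (ww B x) (et B x)) 0 = x 0
    rw [h0, hr, et]; field_simp; unfold DD HH
    linear_combination x 0 * Real.sin_sq_add_cos_sq B
  · change OF B (gn (ww B x) (et B x)) 1 = x 1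
    rw [h1, hr, et]; field_simp; unfold DD HH
    linear_combination x 1 * Real.sin_sq_add_cos_sq B
  · change OF B (gn (ww B x) (et B x)) 2 = x 2
    rw [h2, hr, ww]; field_simp
  · change OF B (gn (ww B x) (et B x)) 3 = x 3
    rw [h3, hr, ww]; field_simp

theorem nn_ww (B : ℝ) (x : E4) : nn (ww B x) = (x 2 ^ 2 + x 3 ^ 2) / DD B x ^ 2 := by
  simp only [nn, ww]; ring

/-- closed tetrahedron in terms of angles -/
def Tc (A B : ℝ) (x : E4) : Prop :=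
  ‖x‖ = 1 ∧ |x 3| ≤ Real.tan A * x 2 ∧ Real.cos B * |x 1| ≤ Real.sin B * x 0

/-- the data of a leaf that the barrier argument uses -/
structure Cfg (A B m : ℝ) (S L : Set E4) : Prop where
  A0 : 0 < A
  A1 : A < π / 2
  B0 : 0 < B
  B1 : B < π / 2
  m0 : 0 < m
  mn : IsMin S
  cpt : IsCompact L
  sub : S ⊆ L
  inn : ∀ x ∈ S, ‖x‖ = 1 ∧ |x 3| < Real.tan A * x 2 ∧ Real.cos B * |x 1| < Real.sin B * x 0
  bd : ∀ x ∈ L, x ∈ S ∨
    (‖x‖ = 1 ∧ |x 3| = Real.tan A * x 2 ∧ Real.cos B * |x 1| = Real.sin B * x 0)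
  ax : ∀ x ∈ S, x 1 = 0 → m ≤ x 2 ^ 2 + x 3 ^ 2

variable {A B m : ℝ} {S L : Set E4}

theorem Cfg.tA (h : Cfg A B m S L) : 0 < Real.tan A := Real.tan_pos_of_pos_of_lt_pi_div_two h.A0 h.A1

theorem Cfg.tB (h : Cfg A B m S L) : 0 < Real.tan B := Real.tan_pos_of_pos_of_lt_pi_div_two h.B0 h.B1

theorem Cfg.cB (h : Cfg A B m S L) : 0 < Real.cos B :=
  Real.cos_pos_of_mem_Ioo ⟨by linarith [h.B0, h.B1], h.B1⟩

theorem Cfg.sB (h : Cfg A B m S L) : 0 < Real.sin B :=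
  Real.sin_pos_of_pos_of_lt_pi h.B0 (by linarith [h.B0, h.B1])

theorem Cfg.cA (h : Cfg A B m S L) : 0 < Real.cos A :=
  Real.cos_pos_of_mem_Ioo ⟨by linarith [h.A0, h.A1], h.A1⟩

theorem Cfg.tc (h : Cfg A B m S L) {x : E4} (hx : x ∈ L) : Tc A B x := by
  rcases h.bd x hx with hS | ⟨a, b, c⟩
  · obtain ⟨a, b, c⟩ := h.inn x hS
    exact ⟨a, b.le, c.le⟩
  · exact ⟨a, b.le, c.le⟩

/-- the compact part of the closed leaf near the vertex -/
def KK (B N₀ : ℝ) (L : Set E4) : Set E4 :=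
  L ∩ {x | 0 ≤ x 1 ∧ x 2 ^ 2 + x 3 ^ 2 ≤ N₀ * DD B x ^ 2}

theorem cont_DD (B : ℝ) : Continuous (DD B) := by unfold DD; fun_prop

theorem cont_HH (B : ℝ) : Continuous (HH B) := by unfold HH; fun_prop

theorem Cfg.cptK (h : Cfg A B m S L) (N₀ : ℝ) : IsCompact (KK B N₀ L) := by
  have c1 : Continuous fun x : E4 => x 1 := by fun_prop
  have c2 : Continuous fun x : E4 => x 2 ^ 2 + x 3 ^ 2 := by fun_prop
  exact h.cpt.inter_right (IsClosed.inter (isClosed_le continuous_const c1)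
    (isClosed_le c2 (continuous_const.mul ((cont_DD B).pow 2))))

theorem Cfg.basic (h : Cfg A B m S L) {x : E4} (hx : x ∈ L) (h1 : 0 ≤ x 1) :
    0 ≤ DD B x ∧ DD B x ≤ 1 ∧ 0 ≤ HH B x ∧ Real.cos B * HH B x ≤ Real.sin B * DD B x ∧
      Real.cos B ^ 2 * (x 0 ^ 2 + x 1 ^ 2) ≤ DD B x ^ 2 := by
  obtain ⟨a, -, c⟩ := h.tc hx
  have hc := h.cB
  have hs := h.sB
  rw [abs_of_nonneg h1] at c
  have h0 : 0 ≤ x 0 := by
    by_contra hn
    have := mul_neg_of_pos_of_neg hs (not_le.1 hn)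
    have := mul_nonneg hc.le h1
    linarith
  have hD : 0 ≤ DD B x := by unfold DD; positivity
  have hH : 0 ≤ HH B x := by unfold HH; linarith
  have e := DH B x
  have e2 := nsq a
  have hle : Real.cos B * HH B x ≤ Real.sin B * DD B x := by
    have : Real.sin B * DD B x - Real.cos B * HH B x = x 1 := by
      unfold DD HH; linear_combination x 1 * Real.sin_sq_add_cos_sq B
    linarith
  refine ⟨hD, ?_, hH, hle, ?_⟩
  · refine (sq_le_one_iff₀ hD).1 ?_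
    nlinarith [sq_nonneg (HH B x), sq_nonneg (x 2), sq_nonneg (x 3)]
  · have := pow_le_pow_left₀ (mul_nonneg hc.le hH) hle 2
    rw [← e]
    have e3 : DD B x ^ 2 = (Real.sin B ^ 2 + Real.cos B ^ 2) * DD B x ^ 2 := by
      rw [Real.sin_sq_add_cos_sq, one_mul]
    nlinarith

theorem Cfg.Dlow (h : Cfg A B m S L) {N₀ : ℝ} (hN : N₀ ≤ 1) {x : E4} (hx : x ∈ KK B N₀ L) :
    Real.cos B / 2 ≤ DD B x := by
  obtain ⟨hD, -, -, -, e⟩ := h.basic hx.1 hx.2.1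
  have e2 := nsq (h.tc hx.1).1
  have e3 : x 2 ^ 2 + x 3 ^ 2 ≤ DD B x ^ 2 :=
    hx.2.2.trans (mul_le_of_le_one_left (sq_nonneg _) hN)
  have hc := h.cB
  have hc1 : Real.cos B ^ 2 ≤ 1 := Real.cos_sq_le_one B
  refine (pow_le_pow_iff_left₀ (by positivity) hD two_ne_zero).1 ?_
  have e4 : Real.cos B ^ 2 * (x 2 ^ 2 + x 3 ^ 2) ≤ 1 * DD B x ^ 2 :=
    mul_le_mul hc1 e3 (by positivity) zero_le_one
  have e5 : Real.cos B ^ 2 = Real.cos B ^ 2 * (x 0 ^ 2 + x 1 ^ 2)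
      + Real.cos B ^ 2 * (x 2 ^ 2 + x 3 ^ 2) := by linear_combination -Real.cos B ^ 2 * e2
  nlinarith [sq_nonneg (DD B x)]

theorem Cfg.onK (h : Cfg A B m S L) {N₀ : ℝ} (hN : N₀ ≤ 1) {x : E4} (hx : x ∈ KK B N₀ L) :
    0 < DD B x ∧ |(ww B x).2| ≤ Real.tan A * (ww B x).1 ∧ nn (ww B x) ≤ N₀ ∧ 0 ≤ et B x ∧
      et B x ≤ Real.tan B ∧ (0 < (ww B x).1 ∨ ww B x = 0) := by
  have hD : 0 < DD B x := lt_of_lt_of_le (by linarith [h.cB]) (h.Dlow hN hx)
  obtain ⟨-, -, hH, hle, -⟩ := h.basic hx.1 hx.2.1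
  obtain ⟨-, b, -⟩ := h.tc hx.1
  have hw : |(ww B x).2| ≤ Real.tan A * (ww B x).1 := by
    simp only [ww]
    rw [abs_div, abs_of_pos hD, ← mul_div_assoc]
    exact div_le_div_of_nonneg_right b hD.le
  refine ⟨hD, hw, ?_, div_nonneg hH hD.le, ?_, ?_⟩
  · rw [nn_ww, div_le_iff₀ (by positivity)]; exact hx.2.2
  · rw [et, Real.tan_eq_sin_div_cos, div_le_div_iff₀ hD h.cB]; linarith
  · have h1 : 0 ≤ (ww B x).1 :=
      nonneg_of_mul_nonneg_right ((abs_nonneg _).trans hw) h.tA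
    rcases h1.lt_or_eq with h2 | h2
    · exact Or.inl h2
    · right
      rw [← h2, mul_zero] at hw
      exact Prod.ext h2.symm (abs_nonpos_iff.1 hw)

/-- maximum principle with a barrier -/
theorem Cfg.maxp (h : Cfg A B m S L) (hB : TouchS) {N₀ ε : ℝ} (hN : N₀ ≤ 1) (hm : N₀ < m)
    (hN0 : 0 ≤ N₀) (hε : ε = 1 ∨ ε = -1) {V : P2 → ℝ}
    (hVc : ∀ w : P2, 0 < w.1 ∨ w = 0 → ContinuousAt V w)
    (hV2 : ∀ w : P2, 0 < w.1 → ContDiffAt ℝ 2 V w)
    (hst : ∀ (w : P2) (z : ℝ), 0 < w.1 → |w.2| ≤ Real.tan A * w.1 → nn w ≤ N₀ → 0 ≤ z →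
      z ≤ Real.tan B → ε * gAt V w z < 0)
    (hside : ∀ w : P2, (0 < w.1 ∨ w = 0) → |w.2| = Real.tan A * w.1 → nn w ≤ N₀ →
      ε * (0 - V w) ≤ 0)
    (hcirc : ∀ x ∈ KK B N₀ L, nn (ww B x) = N₀ → ε * (et B x - V (ww B x)) ≤ 0) :
    ∀ x ∈ KK B N₀ L, ε * (et B x - V (ww B x)) ≤ 0 := by
  intro x₀ hx₀
  have hc : ContinuousOn (fun x => ε * (et B x - V (ww B x))) (KK B N₀ L) := fun x hx => by
    obtain ⟨hD, -, -, -, -, hw⟩ := h.onK hN hx
    have c1 : ContinuousAt (et B) x :=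
      (cont_HH B).continuousAt.div (cont_DD B).continuousAt hD.ne'
    have c2 : ContinuousAt (ww B) x :=
      (ContinuousAt.div (by fun_prop) (cont_DD B).continuousAt hD.ne').prodMk
        (ContinuousAt.div (by fun_prop) (cont_DD B).continuousAt hD.ne')
    exact (continuousAt_const.mul (c1.sub ((hVc _ hw).comp c2))).continuousWithinAt
  obtain ⟨x, hx, hmax⟩ := (h.cptK N₀).exists_isMaxOn ⟨x₀, hx₀⟩ hc
  refine (hmax hx₀).trans ?_
  by_contra hpos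
  obtain ⟨hD, hw, hn, hz0, hz1, hw0⟩ := h.onK hN hx
  rcases h.bd x hx.1 with hS | ⟨-, b, c⟩
  · obtain ⟨a, b, c⟩ := h.inn x hS
    have hx1 : 0 < x 1 := by
      refine lt_of_le_of_ne hx.2.1 fun e => ?_
      have e1 := h.ax x hS e.symm
      obtain ⟨-, hD1, -⟩ := h.basic hx.1 hx.2.1
      have e2 : N₀ * DD B x ^ 2 ≤ N₀ * 1 :=
        mul_le_mul_of_nonneg_left (pow_le_one₀ hD.le hD1) hN0
      linarith [hx.2.2]
    have hn' : nn (ww B x) < N₀ := lt_of_le_of_ne hn fun e => hpos (hcirc x hx e)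
    have hw1 : 0 < (ww B x).1 := by
      have : 0 < x 2 := (mul_pos_iff_of_pos_left h.tA).1 ((abs_nonneg _).trans_lt b)
      exact div_pos this hD
    have hb := back B a hD
    have hz : 0 < Real.sin B - et B x * Real.cos B := by
      have e := (OF_coord B (ww B x) (et B x)).2.1
      rw [hb] at e
      rw [e] at hx1
      exact (div_pos_iff_of_pos_right (rho_pos _ _)).1 hx1
    have key := hB.bar S h.mn (OF B) V (ww B x) (et B x) ε hε (hV2 _ hw1) (hb.symm ▸ hS) ?_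
    · exact absurd key (not_le.2 (hst _ _ hw1 hw hn hz0 hz1))
    have v1 : ∀ᶠ q : P2 × ℝ in 𝓝 (ww B x, et B x), 0 < Real.sin B - q.2 * Real.cos B :=
      (show ContinuousAt (fun q : P2 × ℝ => Real.sin B - q.2 * Real.cos B) (ww B x, et B x) by
        fun_prop).eventually (lt_mem_nhds hz)
    have v2 : ∀ᶠ q : P2 × ℝ in 𝓝 (ww B x, et B x), nn q.1 < N₀ :=
      (show ContinuousAt (fun q : P2 × ℝ => nn q.1) (ww B x, et B x) by
        unfold nn; fun_prop).eventually (gt_mem_nhds hn')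
    filter_upwards [v1, v2] with q q1 q2 hq
    obtain ⟨f1, f2, f3⟩ := fwd B q.1 q.2
    obtain ⟨-, g1, g2, g3⟩ := OF_coord B q.1 q.2
    have hr := rho_pos q.1 q.2
    have hK : OF B (gn q.1 q.2) ∈ KK B N₀ L := by
      refine ⟨h.sub hq, ?_, ?_⟩
      · rw [g1]; positivity
      · rw [g2, g3, f1]
        have : (q.1.1 / rho q.1 q.2) ^ 2 + (q.1.2 / rho q.1 q.2) ^ 2
            = nn q.1 * (1 / rho q.1 q.2) ^ 2 := by unfold nn; ring
        rw [this]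
        exact mul_le_mul_of_nonneg_right q2.le (sq_nonneg _)
    have : ε * (et B (OF B (gn q.1 q.2)) - V (ww B (OF B (gn q.1 q.2))))
        ≤ ε * (et B x - V (ww B x)) := hmax hK
    rwa [f2, f3] at this
  · have e : et B x = 0 := by
      rw [abs_of_nonneg hx.2.1] at c
      rw [et, HH, c, sub_self, zero_div]
    apply hpos
    change ε * (et B x - V (ww B x)) ≤ 0
    rw [e]
    refine hside _ hw0 ?_ hn
    simp only [ww]
    rw [abs_div, abs_of_pos hD, b, mul_div_assoc]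

theorem cos_le_cos {A k ψ : ℝ} (hk : 0 < k) (hkA : k * A ≤ π) (h0 : 0 ≤ ψ) (h1 : ψ ≤ A) :
    Real.cos (k * A) ≤ Real.cos (k * ψ) :=
  Real.cos_le_cos_of_nonneg_of_le_pi (by positivity) hkA (mul_le_mul_of_nonneg_left h1 hk.le)

/-- upper barrier -/
theorem Cfg.upper (h : Cfg A B m S L) (hB : TouchS) {k : ℝ} (hk : 1 < k) (hkA : k * A < π / 2) :
    ∃ μ N₀ : ℝ, 0 < μ ∧ 0 < N₀ ∧ N₀ ≤ 1 ∧ ∀ x ∈ KK B N₀ L, et B x ≤ μ * rp k (ww B x) := by
  have hk0 : 0 < k := by linarith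
  have hpi := Real.pi_pos
  obtain ⟨c, hc⟩ : ∃ c, c = Real.cos (k * A) / 2 := ⟨_, rfl⟩
  have hc0 : 0 < c := by
    have := Real.cos_pos_of_mem_Ioo (x := k * A) ⟨by linarith [mul_pos hk0 h.A0], hkA⟩
    linarith
  obtain ⟨T, hT⟩ : ∃ T, T = Real.tan B := ⟨_, rfl⟩
  have hT0 : 0 < T := hT ▸ h.tB
  have hm := h.m0
  obtain ⟨N₀, hN0, hN1, hNm, hNc⟩ : ∃ N₀ : ℝ, 0 < N₀ ∧ N₀ ≤ 1 ∧ N₀ < m ∧
      N₀ * (c + 2 * T ^ 2) < c ^ 2 := by
    refine ⟨min 1 (min (m / 2) (c ^ 2 / (2 * (c + 2 * T ^ 2)))), by positivity, min_le_left _ _,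
      ((min_le_right _ _).trans (min_le_left _ _)).trans_lt (by linarith), ?_⟩
    have e1 : min 1 (min (m / 2) (c ^ 2 / (2 * (c + 2 * T ^ 2))))
        ≤ c ^ 2 / (2 * (c + 2 * T ^ 2)) := (min_le_right _ _).trans (min_le_right _ _)
    rw [le_div_iff₀ (by positivity)] at e1
    have : 0 < c ^ 2 := by positivity
    linarith
  have hp : 0 < N₀ ^ (k / 2) := Real.rpow_pos_of_pos hN0 _
  obtain ⟨μ, hμ⟩ : ∃ μ, μ = T / (c * N₀ ^ (k / 2)) := ⟨_, rfl⟩
  have hμ0 : 0 < μ := by rw [hμ]; positivity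
  have hco : ∀ w : P2, 0 < w.1 → |w.2| ≤ Real.tan A * w.1 → 2 * c ≤ Real.cos (k * ang w) := by
    intro w hw1 hw
    obtain ⟨ψ, p0, p1, p2, -⟩ := polar h.A0 h.A1 hw1 hw
    rw [p2, hc]
    linarith [cos_le_cos hk0 (by linarith : k * A ≤ π) p0 p1]
  have hV : ∀ w : P2, bar k k μ (-(μ * c)) 0 w = μ * rp k w * (Real.cos (k * ang w) - c) := by
    intro w; simp only [bar, cf]; ring
  have hlow : ∀ w : P2, (0 < w.1 ∨ w = 0) → |w.2| ≤ Real.tan A * w.1 →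
      μ * rp k w * c ≤ bar k k μ (-(μ * c)) 0 w := by
    intro w hw0 hw
    rcases hw0 with hw1 | rfl
    · rw [hV]
      exact mul_le_mul_of_nonneg_left (by linarith [hco w hw1 hw])
        (mul_nonneg hμ0.le (rp_nonneg k w))
    · rw [bar_zero hk0 hk0, rp_zero hk0]; simp
  have key := h.maxp hB (ε := 1) hN1 hNm hN0.le (Or.inl rfl) (V := bar k k μ (-(μ * c)) 0)
    (fun w hw => ca_bar hk0 hk0 _ _ _ hw) (fun w hw => cd_bar _ _ _ _ _ hw) ?_ ?_ ?_
  · refine ⟨μ, N₀, hμ0, hN0, hN1, fun x hx => ?_⟩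
    have e1 := key x hx
    rw [hV] at e1
    have e2 : μ * rp k (ww B x) * (Real.cos (k * ang (ww B x)) - c) ≤ μ * rp k (ww B x) * 1 :=
      mul_le_mul_of_nonneg_left (by linarith [Real.cos_le_one (k * ang (ww B x))])
        (mul_nonneg hμ0.le (rp_nonneg k _))
    linarith
  · intro w z hw1 hw hn hz0 hz1
    have e1 := gAt_bar k k μ (-(μ * c)) 0 z hw1
    have hN := nn_pos hw1
    have e2 := pOp_neg (k := k) (c := c) (co := Real.cos (k * ang w)) (si := Real.sin (k * ang w))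
      (E := μ * rp k w) (N := nn w) (z := z) (T := T) hk hc0 (hco w hw1 hw) (Real.cos_le_one _)
      (Real.sin_sq_le_one _) (mul_pos hμ0 (rp_pos k hw1)) hN hz0 (hT ▸ hz1)
      (lt_of_le_of_lt (mul_le_mul_of_nonneg_right hn (by positivity)) hNc)
    have e3 : gAt (bar k k μ (-(μ * c)) 0) w z * nn w ^ 2 < 0 := by
      rw [e1]
      convert e2 using 2 <;> simp only [cf, sf] <;> ring
    rw [one_mul]
    exact neg_of_mul_neg_left e3 (by positivity)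
  · intro w hw0 hw _
    have := hlow w hw0 hw.le
    have : 0 ≤ μ * rp k w * c := mul_nonneg (mul_nonneg hμ0.le (rp_nonneg k w)) hc0.le
    linarith
  · intro x hx hn
    obtain ⟨-, hw, -, -, hz1, hw0⟩ := h.onK hN1 hx
    have e1 := hlow _ hw0 hw
    have e2 : μ * rp k (ww B x) * c = T := by
      rw [rp, hn, hμ]; field_simp
    linarith

theorem abs3 {K E F a b d s t r : ℝ} (hF : 0 ≤ F) (hFE : F ≤ E) (ha : 0 ≤ a) (ha' : a ≤ K)
    (hb : 0 ≤ b) (hb' : b ≤ K) (hd : 0 ≤ d) (hd' : d ≤ K) (hs : |s| ≤ 1) (ht : |t| ≤ 1)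
    (hr : |r| ≤ 1) : |a * (E * s) + b * (E * t) + d * (F * r)| ≤ 3 * K * E := by
  have hE : 0 ≤ E := hF.trans hFE
  have hK : 0 ≤ K := ha.trans ha'
  have one : ∀ a G s : ℝ, 0 ≤ a → a ≤ K → 0 ≤ G → G ≤ E → |s| ≤ 1 → |a * (G * s)| ≤ K * E := by
    intro a G s h1 h2 h3 h4 h5
    rw [abs_mul, abs_mul, abs_of_nonneg h1, abs_of_nonneg h3]
    refine mul_le_mul h2 ?_ (by positivity) hK
    exact (mul_le_of_le_one_right h3 h5).trans h4
  have e1 := abs_le.1 (one a E s ha ha' hE le_rfl hs)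
  have e2 := abs_le.1 (one b E t hb hb' hE le_rfl ht)
  have e3 := abs_le.1 (one d F r hd hd' hF hFE hr)
  exact abs_le.2 ⟨by linarith, by linarith⟩

theorem cos_sub_le (x y : ℝ) (h : x ≤ y) : Real.cos x - Real.cos y ≤ y - x := by
  have := Real.abs_cos_sub_cos_le x y
  rw [abs_sub_comm x y, abs_of_nonneg (sub_nonneg.2 h)] at this
  exact (le_abs_self _).trans this

theorem le_cos_sub {x y : ℝ} (h0 : 0 ≤ x) (h : x ≤ y) (h1 : π / 2 ≤ y) (h2 : y ≤ 3 * π / 4) :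
    (y - x) / π ≤ Real.cos x - Real.cos y := by
  have hpi := Real.pi_pos
  have e : Real.cos x - Real.cos y = 2 * Real.sin ((x + y) / 2) * Real.sin ((y - x) / 2) := by
    rw [Real.cos_sub_cos, show (x - y) / 2 = -((y - x) / 2) by ring, Real.sin_neg]; ring
  have a1 : 1 / 2 ≤ Real.sin ((x + y) / 2) := by
    rcases le_total ((x + y) / 2) (π / 2) with c | c
    · have := Real.mul_le_sin (x := (x + y) / 2) (by linarith) c
      refine le_trans ?_ this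
      rw [div_mul_eq_mul_div, le_div_iff₀ hpi]; linarith
    · have := Real.mul_le_sin (x := π - (x + y) / 2) (by linarith) (by linarith)
      rw [Real.sin_pi_sub] at this
      refine le_trans ?_ this
      rw [div_mul_eq_mul_div, le_div_iff₀ hpi]; linarith
  have a2 : (y - x) / π ≤ Real.sin ((y - x) / 2) := by
    have := Real.mul_le_sin (x := (y - x) / 2) (by linarith) (by linarith)
    refine le_trans (le_of_eq ?_) this
    ring
  have a3 : 0 ≤ (y - x) / π := div_nonneg (by linarith) hpi.le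
  rw [e]
  nlinarith

theorem Cfg.gap (h : Cfg A B m S L) {σ : ℝ} (hσ : 0 < σ) : ∃ c > 0, ∀ x ∈ L,
    σ ≤ Real.sin A * x 2 - Real.cos A * |x 3| → c ≤ Real.sin B * x 0 - Real.cos B * |x 1| := by
  have c1 : Continuous fun x : E4 => Real.sin A * x 2 - Real.cos A * |x 3| := by fun_prop
  have c2 : Continuous fun x : E4 => Real.sin B * x 0 - Real.cos B * |x 1| := by fun_prop
  have hK : IsCompact (L ∩ {x | σ ≤ Real.sin A * x 2 - Real.cos A * |x 3|}) :=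
    h.cpt.inter_right (isClosed_le continuous_const c1)
  obtain ⟨c, hc, hle⟩ := hK.exists_forall_le' c2.continuousOn (a := 0) fun x hx => by
    rcases h.bd x hx.1 with hS | ⟨-, b, -⟩
    · exact sub_pos.2 (h.inn x hS).2.2
    · have e : σ ≤ Real.sin A * x 2 - Real.cos A * |x 3| := hx.2
      rw [b, Real.tan_eq_sin_div_cos] at e
      have : Real.cos A * (Real.sin A / Real.cos A * x 2) = Real.sin A * x 2 := by
        have := h.cA.ne'
        field_simp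
      linarith
  exact ⟨c, hc, fun x hx hs => hle x ⟨hx, hs⟩⟩

theorem rp_add (k j : ℝ) {w : P2} (h : 0 < w.1) : rp (k + j) w = rp k w * rp j w := by
  rw [rp, rp, rp, add_div, Real.rpow_add (nn_pos h)]

theorem rp_one (w : P2) : rp 1 w = √(nn w) := by rw [rp, Real.sqrt_eq_rpow]

theorem kbounds {k j : ℝ} (hk : 1 < k) (hj : 0 < j) : k ≤ (k + j) ^ 2 ∧ k + j ≤ (k + j) ^ 2 ∧
    0 ≤ k * (k - 1) ∧ k * (k - 1) ≤ (k + j) ^ 2 ∧ 0 ≤ (k + j) * (k + j - 1) ∧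
    (k + j) * (k + j - 1) ≤ (k + j) ^ 2 ∧ 0 ≤ k + j :=
  ⟨by nlinarith, by nlinarith, mul_nonneg (by linarith) (by linarith), by nlinarith,
    mul_nonneg (by linarith) (by linarith), by nlinarith, by linarith⟩

/-- lower barrier -/
theorem Cfg.lower (h : Cfg A B m S L) (hB : TouchS) {k : ℝ} (hk1 : π / 2 < k * A)
    (hk2 : k * A ≤ 3 * π / 4) : ∃ c N₁ : ℝ, 0 < c ∧ 0 < N₁ ∧ N₁ ≤ 1 ∧ ∀ x ∈ KK B N₁ L,
      0 < (ww B x).1 → c * rp (k - 1) (ww B x) *
        (Real.sin A * (ww B x).1 - Real.cos A * |(ww B x).2|) ≤ et B x := by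
  have hpi := Real.pi_pos
  have hA0 := h.A0
  have hA1 := h.A1
  have hk : 1 < k := by nlinarith
  have hk0 : 0 < k := by linarith
  obtain ⟨j, hj⟩ : ∃ j, j = 3 * π / (2 * A) - k := ⟨_, rfl⟩
  have hjA : (k + j) * A = 3 * π / 2 := by rw [hj]; field_simp; ring
  have hj0 : 0 < j := by
    have : 0 < j * A := by linarith
    exact (mul_pos_iff_of_pos_right hA0).1 this
  obtain ⟨c, hc⟩ : ∃ c, c = -Real.cos (k * A) := ⟨_, rfl⟩
  have hc0 : 0 < c := by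
    have := Real.cos_neg_of_pi_div_two_lt_of_lt hk1 (by linarith)
    linarith
  have hc1 : c ≤ 1 := by linarith [Real.neg_one_le_cos (k * A)]
  obtain ⟨T, hT⟩ : ∃ T, T = Real.tan B := ⟨_, rfl⟩
  have hT0 : 0 < T := hT ▸ h.tB
  have hm := h.m0
  obtain ⟨Λ, hΛ⟩ : ∃ Λ, Λ = 3 * (k + j) ^ 2 := ⟨_, rfl⟩
  have hΛ0 : 0 < Λ := by rw [hΛ]; positivity
  obtain ⟨κ, hκ⟩ : ∃ κ, κ = k ^ 2 * c := ⟨_, rfl⟩
  have hκ0 : 0 < κ := by rw [hκ]; positivity
  obtain ⟨N₀, hN0, hN1, hNm, hNc⟩ : ∃ N₀ : ℝ, 0 < N₀ ∧ N₀ ≤ 1 ∧ N₀ < m ∧ Λ * N₀ ≤ κ / 3 := by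
    refine ⟨min 1 (min (m / 2) (κ / (3 * Λ))), by positivity, min_le_left _ _,
      ((min_le_right _ _).trans (min_le_left _ _)).trans_lt (by linarith), ?_⟩
    have e1 : min 1 (min (m / 2) (κ / (3 * Λ))) ≤ κ / (3 * Λ) :=
      (min_le_right _ _).trans (min_le_right _ _)
    rw [le_div_iff₀ (by positivity)] at e1
    linarith
  have hs3 : 0 < Real.sin (A / 3) := Real.sin_pos_of_pos_of_lt_pi (by linarith) (by linarith)
  have hcB := h.cB
  obtain ⟨c₀, hc₀, hgap⟩ := h.gap (σ := Real.cos B / 2 * (√N₀ * Real.sin (A / 3))) (by positivity)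
  obtain ⟨μ, hμ0, hμ1, hμ2, hμ3⟩ : ∃ μ : ℝ, 0 < μ ∧ μ ≤ 1 ∧ 3 * μ ≤ c₀ ∧
      (8 * Λ ^ 3 + 4 * T * Λ ^ 2) * μ ≤ κ / 3 := by
    refine ⟨min 1 (min (c₀ / 3) (κ / (3 * (8 * Λ ^ 3 + 4 * T * Λ ^ 2)))), by positivity,
      min_le_left _ _, ?_, ?_⟩
    · have := (min_le_right 1 (min (c₀ / 3) (κ / (3 * (8 * Λ ^ 3 + 4 * T * Λ ^ 2))))).trans
        (min_le_left _ _)
      linarith
    · have e1 := (min_le_right 1 (min (c₀ / 3) (κ / (3 * (8 * Λ ^ 3 + 4 * T * Λ ^ 2))))).trans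
        (min_le_right _ _)
      rw [le_div_iff₀ (by positivity)] at e1
      linarith
  have hp : 0 < N₀ ^ (j / 2) := Real.rpow_pos_of_pos hN0 _
  obtain ⟨l, hl⟩ : ∃ l, l = k * A / 3 := ⟨_, rfl⟩
  have hl0 : 0 < l := by rw [hl]; positivity
  have hl1 : l ≤ 1 := by linarith [Real.pi_le_four]
  obtain ⟨γ, hγ⟩ : ∃ γ, γ = μ * l / N₀ ^ (j / 2) := ⟨_, rfl⟩
  have hγ0 : 0 < γ := by rw [hγ]; positivity
  have hF : ∀ w : P2, 0 < w.1 →
      γ * rp (k + j) w = μ * rp k w * (l * (rp j w / N₀ ^ (j / 2))) := by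
    intro w hw
    rw [rp_add k j hw, hγ]; ring
  have hτ : ∀ w : P2, nn w ≤ N₀ → rp j w / N₀ ^ (j / 2) ≤ 1 := fun w hn =>
    (div_le_one hp).2 (Real.rpow_le_rpow (nn_nonneg w) hn (by positivity))
  have hrp1 : ∀ w : P2, nn w ≤ N₀ → rp k w ≤ 1 := fun w hn =>
    Real.rpow_le_one (nn_nonneg w) (hn.trans hN1) (by positivity)
  have hV : ∀ w : P2, 0 < w.1 → |w.2| ≤ Real.tan A * w.1 → ∃ δ : ℝ, 0 ≤ δ ∧ δ ≤ A ∧
      bar k (k + j) μ (μ * c) γ w = μ * rp k w * ((Real.cos (k * A - k * δ) - Real.cos (k * A))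
        - l * (rp j w / N₀ ^ (j / 2)) * Real.sin ((k + j) * δ)) ∧
      Real.sin A * w.1 - Real.cos A * |w.2| = √(nn w) * Real.sin δ ∧
      (|w.2| = Real.tan A * w.1 → δ = 0) := by
    intro w hw1 hw
    obtain ⟨ψ, p0, p1, p2, p3, p4⟩ := polar hA0 hA1 hw1 hw
    refine ⟨A - ψ, by linarith, by linarith, ?_, p3, fun e => by rw [p4 e, sub_self]⟩
    have e1 : Real.cos ((k + j) * ψ) = -Real.sin ((k + j) * (A - ψ)) := by
      rw [mul_sub, hjA, show 3 * π / 2 - (k + j) * ψ = (π / 2 - (k + j) * ψ) + π by ring,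
        Real.sin_add_pi, Real.sin_pi_div_two_sub, neg_neg]
    simp only [bar, cf]
    rw [p2, p2, e1, ← mul_assoc γ, hF w hw1, hc, show k * A - k * (A - ψ) = k * ψ by ring]
    ring
  have key := h.maxp hB (ε := -1) hN1 hNm hN0.le (Or.inr rfl) (V := bar k (k + j) μ (μ * c) γ)
    (fun w hw => ca_bar hk0 (by linarith) _ _ _ hw) (fun w hw => cd_bar _ _ _ _ _ hw) ?_ ?_ ?_
  · have ht : Tendsto (fun N : ℝ => l * (N ^ (j / 2) / N₀ ^ (j / 2)) * (k + j)) (𝓝 0) (𝓝 0) := by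
      have c1 : Continuous fun N : ℝ => l * (N ^ (j / 2) / N₀ ^ (j / 2)) * (k + j) :=
        (continuous_const.mul ((Real.continuous_rpow_const (by positivity)).div_const _)).mul
          continuous_const
      have := c1.tendsto 0
      have e : j / 2 ≠ 0 := by positivity
      simpa [e] using this
    obtain ⟨r, hr, hball⟩ := Metric.eventually_nhds_iff.1
      (ht.eventually (gt_mem_nhds (show 0 < k / π / 2 by positivity)))
    refine ⟨μ * (k / π / 2), min N₀ (r / 2), by positivity, by positivity,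
      (min_le_left _ _).trans hN1, fun x hx hw1 => ?_⟩
    have hx' : x ∈ KK B N₀ L := ⟨hx.1, hx.2.1,
      hx.2.2.trans (mul_le_mul_of_nonneg_right (min_le_left _ _) (sq_nonneg _))⟩
    obtain ⟨-, hw, hn, -⟩ := h.onK ((min_le_left _ _).trans hN1) hx
    obtain ⟨δ, d0, d1, d2, d3, -⟩ := hV _ hw1 hw
    have e1 := key x hx'
    have e2 : l * (rp j (ww B x) / N₀ ^ (j / 2)) * (k + j) < k / π / 2 := by
      refine hball ?_
      rw [Real.dist_eq, sub_zero, abs_of_nonneg (nn_nonneg _)]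
      linarith [min_le_right N₀ (r / 2)]
    have e3 := le_cos_sub (x := k * A - k * δ) (y := k * A)
      (sub_nonneg.2 (mul_le_mul_of_nonneg_left d1 hk0.le)) (by linarith [mul_nonneg hk0.le d0])
      hk1.le hk2
    have e4 : Real.sin ((k + j) * δ) ≤ (k + j) * δ := Real.sin_le (by positivity)
    have e5 : Real.sin δ ≤ δ := Real.sin_le d0
    have e6 : 0 ≤ l * (rp j (ww B x) / N₀ ^ (j / 2)) :=
      mul_nonneg hl0.le (div_nonneg (rp_nonneg _ _) hp.le)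
    have e7 : k / π / 2 * Real.sin δ ≤ (Real.cos (k * A - k * δ) - Real.cos (k * A))
        - l * (rp j (ww B x) / N₀ ^ (j / 2)) * Real.sin ((k + j) * δ) := by
      have a1 := mul_le_mul_of_nonneg_left e4 e6
      have a2 := mul_le_mul_of_nonneg_right e2.le d0
      have a3 := mul_le_mul_of_nonneg_left e5 (show 0 ≤ k / π / 2 by positivity)
      have a4 : (k * A - (k * A - k * δ)) / π = k / π * δ := by ring
      linarith
    have e8 : rp k (ww B x) = rp (k - 1) (ww B x) * √(nn (ww B x)) := by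
      rw [← rp_one, ← rp_add _ _ hw1, sub_add_cancel]
    have e9 := mul_le_mul_of_nonneg_left e7 (mul_nonneg hμ0.le (rp_nonneg k (ww B x)))
    rw [d3]
    rw [← d2, e8] at e9
    linarith
  · intro w z hw1 hw hn hz0 hz1
    have e1 := gAt_bar k (k + j) μ (μ * c) γ z hw1
    have hN := nn_pos hw1
    have hE : 0 < μ * rp k w := mul_pos hμ0 (rp_pos k hw1)
    have f0 : 0 ≤ γ * rp (k + j) w := mul_nonneg hγ0.le (rp_nonneg _ _)
    have f1 : γ * rp (k + j) w ≤ μ * rp k w := by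
      rw [hF w hw1]
      exact mul_le_of_le_one_right hE.le
        (mul_le_one₀ hl1 (div_nonneg (rp_nonneg _ _) hp.le) (hτ w hn))
    obtain ⟨k1, k2, k3, k4, k5, k6, k7⟩ := kbounds hk hj0
    have k8 : (0 : ℝ) ≤ (k + j) ^ 2 := sq_nonneg _
    have ac : |c| ≤ 1 := abs_le.2 ⟨by linarith, hc1⟩
    have a1 := Real.abs_cos_le_one (k * ang w)
    have a2 := Real.abs_cos_le_one ((k + j) * ang w)
    have a3 : |-Real.sin (k * ang w)| ≤ 1 := by rw [abs_neg]; exact Real.abs_sin_le_one _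
    have a4 : |-Real.sin ((k + j) * ang w)| ≤ 1 := by rw [abs_neg]; exact Real.abs_sin_le_one _
    have a5 : |-Real.cos (k * ang w)| ≤ 1 := by rw [abs_neg]; exact a1
    have a6 : |-Real.cos ((k + j) * ang w)| ≤ 1 := by rw [abs_neg]; exact a2
    have hE2 : (μ * rp k w) ^ 2 ≤ μ ^ 2 * nn w := by
      rw [mul_pow]
      refine mul_le_mul_of_nonneg_left ?_ (sq_nonneg _)
      rw [sq, ← rp_add k k hw1, rp, add_self_div_two]
      exact (Real.rpow_le_rpow_of_exponent_ge hN (hn.trans hN1) hk.le).trans_eq (Real.rpow_one _)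
    have hs : Λ * nn w + 8 * Λ ^ 3 * μ ^ 2 + 4 * T * Λ ^ 2 * μ < κ := by
      have b1 : Λ * nn w ≤ Λ * N₀ := mul_le_mul_of_nonneg_left hn hΛ0.le
      have b2 : 8 * Λ ^ 3 * μ ^ 2 ≤ 8 * Λ ^ 3 * μ :=
        mul_le_mul_of_nonneg_left (pow_le_of_le_one hμ0.le hμ1 two_ne_zero) (by positivity)
      linarith
    have e2 := pOp_pos (hΛ ▸ abs3 f0 f1 hk0.le k1 hk0.le k1 k7 k2 a1 ac a2)
      (hΛ ▸ abs3 f0 f1 hk0.le k1 le_rfl k8 k7 k2 a3 ac a4)
      (hΛ ▸ abs3 f0 f1 k3 k4 k3 k4 k5 k6 a1 ac a2)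
      (hΛ ▸ abs3 f0 f1 k3 k4 le_rfl k8 k5 k6 a3 ac a4)
      (hΛ ▸ abs3 f0 f1 k3 k4 hk0.le k1 k5 k6 a5 ac a6) (by rw [hκ]; ring) hκ0 hΛ0.le hE
      (mul_le_of_le_one_right hμ0.le (hrp1 w hn)) hE2 hN (hn.trans hN1) hz0 (hT ▸ hz1) hs
    have e3 : 0 < gAt (bar k (k + j) μ (μ * c) γ) w z * nn w ^ 2 := by
      rw [e1]
      convert e2 using 2 <;> simp only [cf, sf] <;> ring
    have := (mul_pos_iff_of_pos_right (by positivity)).1 e3
    linarith
  · intro w hw0 hw _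
    rcases hw0 with hw1 | rfl
    · obtain ⟨δ, -, -, d2, -, d4⟩ := hV w hw1 hw.le
      rw [d2, d4 hw]; simp
    · rw [bar_zero hk0 (by linarith)]; simp
  · intro x hx hn
    obtain ⟨hD, hw, -, hz0, -, hw0⟩ := h.onK hN1 hx
    have hw1 : 0 < (ww B x).1 := by
      refine hw0.resolve_right fun e => ?_
      rw [e] at hn
      simp only [nn, Prod.fst_zero, Prod.snd_zero] at hn
      linarith
    obtain ⟨δ, d0, d1, d2, d3, -⟩ := hV _ hw1 hw
    have hE : 0 < μ * rp k (ww B x) := mul_pos hμ0 (rp_pos k hw1)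
    have e0 : rp j (ww B x) / N₀ ^ (j / 2) = 1 := by rw [rp, hn, div_self hp.ne']
    rw [e0, mul_one] at d2
    suffices bar k (k + j) μ (μ * c) γ (ww B x) ≤ et B x by linarith
    rw [d2]
    rcases le_total δ (A / 3) with hδ | hδ
    · have a1 := cos_sub_le (k * A - k * δ) (k * A) (by linarith [mul_nonneg hk0.le d0])
      have a2 := Real.mul_le_sin (x := (k + j) * δ) (by positivity)
        (by linarith [mul_le_mul_of_nonneg_left hδ (show 0 ≤ k + j by linarith)])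
      have a3 : l * (2 / π * ((k + j) * δ)) = k * δ := by
        have : l * (2 / π * ((k + j) * δ)) = k * δ * (2 / (3 * π) * ((k + j) * A)) := by
          rw [hl]; ring
        rw [this, hjA]; field_simp
      have a4 := mul_le_mul_of_nonneg_left a2 hl0.le
      exact (mul_nonpos_of_nonneg_of_nonpos hE.le (by linarith)).trans hz0
    · have a1 : Real.sin (A / 3) ≤ Real.sin δ :=
        Real.sin_le_sin_of_le_of_le_pi_div_two (by linarith) (by linarith) hδ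
      obtain ⟨-, hD1, hH, -⟩ := h.basic hx.1 hx.2.1
      have a2 : Real.sin A * x 2 - Real.cos A * |x 3|
          = DD B x * (Real.sin A * (ww B x).1 - Real.cos A * |(ww B x).2|) := by
        simp only [ww]
        rw [abs_div, abs_of_pos hD]; field_simp
      have a3 := hgap x hx.1 (by
        rw [a2, d3, hn]
        exact mul_le_mul (h.Dlow hN1 hx) (mul_le_mul_of_nonneg_left a1 (Real.sqrt_nonneg _))
          (by positivity) hD.le)
      rw [abs_of_nonneg hx.2.1] at a3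
      have a4 : HH B x ≤ et B x := le_div_self hH hD hD1
      have a5 : (Real.cos (k * A - k * δ) - Real.cos (k * A)) - l * Real.sin ((k + j) * δ) ≤ 3 := by
        have := mul_le_mul_of_nonneg_left (Real.neg_one_le_sin ((k + j) * δ)) hl0.le
        linarith [Real.cos_le_one (k * A - k * δ), Real.neg_one_le_cos (k * A)]
      have a6 := mul_le_mul_of_nonneg_left a5 hE.le
      have a7 : μ * rp k (ww B x) ≤ μ := mul_le_of_le_one_right hμ0.le (hrp1 _ hn.le)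
      unfold HH at a4
      linarith

theorem Cfg.memK (h : Cfg A B m S L) {N₀ : ℝ} (hN0 : 0 < N₀) {x : E4} (hx : x ∈ S) (h1 : 0 ≤ x 1)
    (hs : x 2 ^ 2 + x 3 ^ 2 < min (1 / 2) (N₀ * (Real.cos B ^ 2 / 2))) :
    x ∈ KK B N₀ L ∧ Real.cos B ^ 2 / 2 ≤ DD B x ^ 2 ∧ 0 < x 2 ∧ x 2 ^ 2 + x 3 ^ 2 ≤ 1 := by
  obtain ⟨a, b, -⟩ := h.inn x hx
  obtain ⟨-, -, -, -, e⟩ := h.basic (h.sub hx) h1
  have e1 := nsq a
  have e2 := hs.trans_le (min_le_left _ _)
  have e3 := hs.trans_le (min_le_right _ _)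
  have e4 : Real.cos B ^ 2 * (1 / 2) ≤ Real.cos B ^ 2 * (x 0 ^ 2 + x 1 ^ 2) :=
    mul_le_mul_of_nonneg_left (by linarith) (sq_nonneg _)
  have e5 : Real.cos B ^ 2 / 2 ≤ DD B x ^ 2 := by linarith
  exact ⟨⟨h.sub hx, h1, e3.le.trans (mul_le_mul_of_nonneg_left e5 hN0.le)⟩, e5,
    (mul_pos_iff_of_pos_left h.tA).1 ((abs_nonneg _).trans_lt b), by linarith⟩

theorem Cfg.up (h : Cfg A B m S L) (hB : TouchS) {k : ℝ} (hk : k < π / (2 * A)) :
    ∃ C, ∃ ρ > 0, ∀ x ∈ S, 0 ≤ x 1 → x 2 ^ 2 + x 3 ^ 2 < ρ →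
      HH B x ≤ C * (x 2 ^ 2 + x 3 ^ 2) ^ (k / 2) := by
  have hA0 := h.A0
  have h1 : 1 < π / (2 * A) := by rw [one_lt_div (by positivity)]; linarith [h.A1]
  obtain ⟨k₁, a1, a2, a3⟩ : ∃ k₁, 1 < k₁ ∧ k ≤ k₁ ∧ k₁ < π / (2 * A) :=
    ⟨max k ((1 + π / (2 * A)) / 2), lt_max_of_lt_right (by linarith), le_max_left _ _,
      max_lt hk (by linarith)⟩
  rw [lt_div_iff₀ (by positivity)] at a3
  obtain ⟨μ, N₀, hμ, hN0, hN1, key⟩ := h.upper hB a1 (by linarith)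
  have hc := h.cB
  refine ⟨μ * (2 / Real.cos B ^ 2) ^ (k₁ / 2), min (1 / 2) (N₀ * (Real.cos B ^ 2 / 2)),
    by positivity, fun x hx hx1 hs => ?_⟩
  obtain ⟨hK, hD2, hx2, hs1⟩ := h.memK hN0 hx hx1 hs
  obtain ⟨hD, -⟩ := h.onK hN1 hK
  obtain ⟨-, hD1, hH, -⟩ := h.basic hK.1 hx1
  have hs0 : 0 < x 2 ^ 2 + x 3 ^ 2 := by positivity
  have e1 : nn (ww B x) ≤ 2 / Real.cos B ^ 2 * (x 2 ^ 2 + x 3 ^ 2) := by
    rw [nn_ww]
    calc _ ≤ (x 2 ^ 2 + x 3 ^ 2) / (Real.cos B ^ 2 / 2) :=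
          div_le_div_of_nonneg_left hs0.le (by positivity) hD2
      _ = _ := by field_simp
  calc HH B x ≤ et B x := le_div_self hH hD hD1
    _ ≤ μ * rp k₁ (ww B x) := key x hK
    _ ≤ μ * (2 / Real.cos B ^ 2 * (x 2 ^ 2 + x 3 ^ 2)) ^ (k₁ / 2) :=
        mul_le_mul_of_nonneg_left (Real.rpow_le_rpow (nn_nonneg _) e1 (by linarith)) hμ.le
    _ = μ * (2 / Real.cos B ^ 2) ^ (k₁ / 2) * (x 2 ^ 2 + x 3 ^ 2) ^ (k₁ / 2) := by
        rw [Real.mul_rpow (by positivity) hs0.le, mul_assoc]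
    _ ≤ _ := mul_le_mul_of_nonneg_left
        (Real.rpow_le_rpow_of_exponent_ge hs0 hs1 (by linarith)) (by positivity)

theorem Cfg.lo (h : Cfg A B m S L) (hB : TouchS) {k : ℝ} (hk : π / (2 * A) < k) :
    ∃ c > 0, ∃ ρ > 0, ∀ x ∈ S, 0 ≤ x 1 → x 2 ^ 2 + x 3 ^ 2 < ρ →
      c * (x 2 ^ 2 + x 3 ^ 2) ^ ((k - 1) / 2) * (Real.sin A * x 2 - Real.cos A * |x 3|)
        ≤ HH B x := by
  have hA0 := h.A0
  have hA1 := h.A1
  have hpi := Real.pi_pos
  obtain ⟨k₁, a1, a2, a3⟩ : ∃ k₁, π / 2 < k₁ * A ∧ k₁ ≤ k ∧ k₁ * A ≤ 3 * π / 4 := by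
    rw [div_lt_iff₀ (by positivity)] at hk
    have e : 3 * π / (4 * A) * A = 3 * π / 4 := by field_simp
    rcases le_total k (3 * π / (4 * A)) with c | c
    · exact ⟨k, by linarith, le_rfl, e ▸ mul_le_mul_of_nonneg_right c hA0.le⟩
    · exact ⟨3 * π / (4 * A), by linarith, c, e.le⟩
  have a4 : 1 < k₁ := by nlinarith
  obtain ⟨c, N₁, hc0, hN0, hN1, key⟩ := h.lower hB a1 a3
  have hc := h.cB
  refine ⟨c, hc0, min (1 / 2) (N₁ * (Real.cos B ^ 2 / 2)), by positivity, fun x hx hx1 hs => ?_⟩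
  obtain ⟨hK, -, hx2, hs1⟩ := h.memK hN0 hx hx1 hs
  obtain ⟨hD, -⟩ := h.onK hN1 hK
  obtain ⟨-, hD1, -⟩ := h.basic hK.1 hx1
  have hs0 : 0 < x 2 ^ 2 + x 3 ^ 2 := by positivity
  have e0 := key x hK (div_pos hx2 hD)
  have e1 : x 2 ^ 2 + x 3 ^ 2 ≤ nn (ww B x) := by
    rw [nn_ww]
    exact le_div_self hs0.le (by positivity) (pow_le_one₀ hD.le hD1)
  have e2 : (x 2 ^ 2 + x 3 ^ 2) ^ ((k - 1) / 2) ≤ rp (k₁ - 1) (ww B x) :=
    (Real.rpow_le_rpow_of_exponent_ge hs0 hs1 (by linarith)).trans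
      (Real.rpow_le_rpow hs0.le e1 (by linarith))
  have e3 : 0 ≤ Real.sin A * x 2 - Real.cos A * |x 3| := by
    have b := mul_le_mul_of_nonneg_left (h.inn x hx).2.1.le h.cA.le
    rw [Real.tan_eq_sin_div_cos] at b
    have : Real.cos A * (Real.sin A / Real.cos A * x 2) = Real.sin A * x 2 := by
      have := h.cA.ne'
      field_simp
    linarith
  have e4 : Real.sin A * x 2 - Real.cos A * |x 3|
      = (Real.sin A * (ww B x).1 - Real.cos A * |(ww B x).2|) * DD B x := by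
    simp only [ww]
    rw [abs_div, abs_of_pos hD]; field_simp
  have e5 : HH B x = et B x * DD B x := by rw [et]; field_simp
  calc _ ≤ c * rp (k₁ - 1) (ww B x) * (Real.sin A * x 2 - Real.cos A * |x 3|) :=
        mul_le_mul_of_nonneg_right (mul_le_mul_of_nonneg_left e2 hc0.le) e3
    _ ≤ _ := by
        rw [e4, e5, ← mul_assoc]
        exact mul_le_mul_of_nonneg_right e0 hD.le

theorem cfg (hT : TetS) (hR : RadoS) {a b : ℝ} {u : P2 → ℝ} (hu : IsLeaf a b u) :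
    Cfg (hA a) (hA b) (1 - aa (gX O0 u 0)) (gX O0 u '' Rho a b) (gX O0 u '' Rh a b) := by
  obtain ⟨a0, a1, a2⟩ := hT.ang.1 a hu.apos
  obtain ⟨b0, b1, b2⟩ := hT.ang.1 b hu.bpos
  obtain ⟨-, c1, -, c2, -⟩ := hT.cpt a b u hu
  have s0 : (0 : ℝ) < √2 := by positivity
  have hcB : 0 < Real.cos (hA b) := Real.cos_pos_of_mem_Ioo ⟨by linarith, b1⟩
  have hb : Real.cos (hA b) * b = √2 * Real.sin (hA b) := by
    conv_lhs => rw [← b2, b2, show Real.cos (hA b) * b = Real.cos (hA b) * (√2 * Real.tan (hA b)) by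
      rw [b2], Real.tan_eq_sin_div_cos]
    field_simp
  have h0 : (0 : P2) ∈ Rho a b := by simp [Rho]
  refine ⟨a0, a1, b0, b1, sub_pos.2 (hR.sign a b u hu 0 h0).2.1, c2, c1,
    image_mono fun y hy => le_of_lt (α := ℝ) hy, ?_, ?_, ?_⟩
  · rintro x ⟨y, hy, rfl⟩
    obtain ⟨n1, n2, n3⟩ := (hT.inner a b u hu y hy).2.2
    refine ⟨n1, lt_of_mul_lt_mul_left ?_ s0.le, lt_of_mul_lt_mul_left ?_ s0.le⟩
    · rwa [← mul_assoc, a2]
    · have := mul_lt_mul_of_pos_left n3 hcB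
      rw [← mul_assoc _ b, hb] at this
      linarith
  · rintro x ⟨y, hy, rfl⟩
    by_cases hy' : y ∈ Rho a b
    · exact Or.inl ⟨y, hy', rfl⟩
    · have hq : gX O0 u y ∈ Quad a b := hT.quad a b u hu ▸ mem_image_of_mem _ ⟨hy, hy'⟩
      obtain ⟨n1, n2, n3⟩ := hq
      refine Or.inr ⟨n1, mul_left_cancel₀ s0.ne' ?_, mul_left_cancel₀ s0.ne' ?_⟩
      · rwa [← mul_assoc, a2]
      · linear_combination Real.cos (hA b) * n3 + gX O0 u y 0 * hb
  · rintro x ⟨y, hy, rfl⟩ hx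
    have e : y.2 = 0 := by
      have := (hT.coord y (u y)).2.1
      rw [gX, this, div_eq_zero_iff] at hx
      exact hx.resolve_right (rho_pos _ _).ne'
    have e1 := (hR.axis a b u hu y hy).1 e
    have e2 := nsq (hT.inner a b u hu y hy).2.2.1
    unfold aa at e1 ⊢
    linarith

theorem symm (hT : TetS) {a b : ℝ} {u : P2 → ℝ} (hu : IsLeaf a b u) {y : P2} (hy : y ∈ Rho a b) :
    ∃ x ∈ gX O0 u '' Rho a b, x 0 = gX O0 u y 0 ∧ x 1 = |gX O0 u y 1| ∧ x 2 = gX O0 u y 2 ∧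
      x 3 = gX O0 u y 3 ∧ 1 - aa (gX O0 u y) = x 2 ^ 2 + x 3 ^ 2 := by
  have e := nsq (hT.inner a b u hu y hy).2.2.1
  have e1 : 1 - aa (gX O0 u y) = gX O0 u y 2 ^ 2 + gX O0 u y 3 ^ 2 := by unfold aa; linarith
  rcases le_total 0 (gX O0 u y 1) with c | c
  · exact ⟨_, ⟨y, hy, rfl⟩, rfl, (abs_of_nonneg c).symm, rfl, rfl, e1⟩
  · have hy' : (y.1, -y.2) ∈ Rho a b := by simpa [Rho] using hy
    refine ⟨_, ⟨_, hy', rfl⟩, ?_⟩
    rw [(hT.evg a b u hu y hy).2.2.1, abs_of_nonpos c, e1]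
    simp [rf1, mkO_apply]

end Pool.Agent.Lib.MP_16d934_gt.EQbar

namespace Pool.Agent.Lib.MP_16d934_gt

open EQbar in
/-- barriers at the vertices `vQ` -/
theorem qbarS (hB : TouchS) (hT : TetS) (hR : RadoS) : QbarS where
  up a b u hu k hk := by
    obtain ⟨C, ρ, hρ, key⟩ := (cfg hT hR hu).up hB hk
    refine ⟨C, ρ, hρ, fun y hy hs => ?_⟩
    obtain ⟨x, hx, x0, x1, -, -, e⟩ := EQbar.symm hT hu hy
    have := key x hx (x1 ▸ abs_nonneg _) (e ▸ hs)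
    rwa [HH, x0, x1, ← e] at this
  lo a b u hu k hk := by
    obtain ⟨c, hc, ρ, hρ, key⟩ := (cfg hT hR hu).lo hB hk
    refine ⟨c, hc, ρ, hρ, fun y hy hs => ?_⟩
    obtain ⟨x, hx, x0, x1, x2, x3, e⟩ := EQbar.symm hT hu hy
    have := key x hx (x1 ▸ abs_nonneg _) (e ▸ hs)
    rwa [HH, x0, x1, ← e, x2, x3] at this

end Pool.Agent.Lib.MP_16d934_gt
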