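import Pool.Agent.Lib.MP_16d934_gt.StC

-- part Pool.Agent.Lib.MP_16d934_gt.EQdecA
section

/-! Decay of the normal of a leaf at the vertices `vQ`: preparations. -/

set_option autoImplicit false

open Set Metric Filter Topology MeasureTheory Asymptotics
open scoped ContDiff InnerProductSpace NNReal Real

noncomputable section

namespace Pool.Agent.Lib.MP_16d934_gt

namespace EQdec

/-! ### Small scales -/

lemma ev_pos : ∀ᶠ R in 𝓝[>] (0 : ℝ), 0 < R := self_mem_nhdsWithin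

lemma ev_rpow {s c : ℝ} (C : ℝ) (hs : 0 < s) (hc : 0 < c) :
    ∀ᶠ R in 𝓝[>] (0 : ℝ), C * R ^ s < c := by
  have h : ContinuousAt (fun R : ℝ => C * R ^ s) 0 :=
    continuousAt_const.mul (Real.continuousAt_rpow_const 0 s (Or.inr hs.le))
  have h2 : Tendsto (fun R : ℝ => C * R ^ s) (𝓝[>] 0) (𝓝 0) := by
    simpa [Real.zero_rpow hs.ne'] using h.tendsto.mono_left nhdsWithin_le_nhds
  exact h2.eventually (gt_mem_nhds hc)

lemma ev_lin {c : ℝ} (C : ℝ) (hc : 0 < c) : ∀ᶠ R in 𝓝[>] (0 : ℝ), C * R < c := by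
  simpa using ev_rpow C one_pos hc

lemma ev_lt {c : ℝ} (hc : 0 < c) : ∀ᶠ R in 𝓝[>] (0 : ℝ), R < c := by
  simpa using ev_lin 1 hc

lemma of_ev {P : ℝ → Prop} (h : ∀ᶠ R in 𝓝[>] (0 : ℝ), P R) :
    ∃ ρ > 0, ∀ r : ℝ, 0 < r → r < ρ → P √r := by
  obtain ⟨R0, h0, h1⟩ := mem_nhdsGT_iff_exists_Ioo_subset.1 h
  have h0' : 0 < R0 := h0
  refine ⟨R0 ^ 2, by positivity, fun r hr hr' => h1 ⟨Real.sqrt_pos.2 hr, ?_⟩⟩
  exact (Real.sqrt_lt' h0').2 hr'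

lemma rpow_half {r : ℝ} (hr : 0 ≤ r) (k : ℝ) : r ^ (k / 2) = √r ^ k := by
  rw [Real.sqrt_eq_rpow, ← Real.rpow_mul hr]; congr 1; ring

lemma rpow_sq {r : ℝ} (hr : 0 ≤ r) (k : ℝ) : r ^ k = (√r ^ k) ^ 2 := by
  rw [← rpow_half hr, ← Real.rpow_natCast, ← Real.rpow_mul hr]; congr 1; push_cast; ring

/-! ### Interior estimates -/

lemma iter_aff {ζ : P2 → ℝ} {x : P2} (h : AnalyticAt ℝ ζ x) (c0 t : ℝ) {n : ℕ} (hn : 2 ≤ n) :
    iteratedFDeriv ℝ n (fun x => ζ x - (c0 + t * x.2)) x = iteratedFDeriv ℝ n ζ x := by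
  have h1 : ContDiffAt ℝ n (fun x : P2 => c0 + t * x.2) x := by fun_prop
  rw [fun_iteratedFDeriv_sub_apply h.contDiffAt h1]
  obtain ⟨m, rfl⟩ : ∃ m, n = m + 1 + 1 := ⟨n - 2, by omega⟩
  have h2 : fderiv ℝ (fun x : P2 => c0 + t * x.2) =
      fun _ => t • ContinuousLinearMap.snd ℝ ℝ ℝ := by
    funext y
    exact ((hasFDerivAt_snd.const_mul t).const_add c0).fderiv
  have h3 : iteratedFDeriv ℝ (m + 1 + 1) (fun x : P2 => c0 + t * x.2) x = 0 := by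
    rw [← norm_eq_zero, ← norm_iteratedFDeriv_fderiv, h2,
      iteratedFDeriv_const_of_ne (Nat.succ_ne_zero m)]
    simp
  rw [h3, sub_zero]

lemma d_aff {ζ : P2 → ℝ} {x : P2} (h : AnalyticAt ℝ ζ x) (c0 t : ℝ) :
    d1 (fun x => ζ x - (c0 + t * x.2)) x = d1 ζ x ∧
      d2 (fun x => ζ x - (c0 + t * x.2)) x = d2 ζ x - t := by
  have h1 := (h.differentiableAt.hasFDerivAt.sub
    ((hasFDerivAt_snd (p := x).const_mul t).const_add c0)).fderiv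
  have e : (fun x => ζ x - (c0 + t * x.2)) = ζ - fun x : P2 => c0 + t * x.2 := rfl
  rw [e]
  constructor <;> simp [d1, d2, h1]

lemma decay (hR : RegS) (hC : CWS) (hI : IntS) (hD : DerS) (L : ℝ≥0) (Rb k : ℝ) {c C0 s : ℝ}
    (hc : 0 < c) (hs : 0 < s) (hC0 : 0 ≤ C0) : ∃ C, 0 ≤ C ∧ ∀ᶠ R in 𝓝[>] (0 : ℝ),
    ∀ (ζ : P2 → ℝ) (c0 t : ℝ) (y : P2), Sol ζ (ball y (c * R)) →
      LipschitzOnWith L ζ (ball y (c * R)) →
      (∀ x ∈ ball y (c * R), ‖x‖ ≤ Rb ∧ |ζ x| ≤ Rb ∧ |ζ x - (c0 + t * x.2)| ≤ C0 * R ^ k) →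
      ∀ x ∈ ball y (c * R / 4), |d1 ζ x| ≤ C * R ^ (k - 1 - s) ∧
        |d2 ζ x - t| ≤ C * R ^ (k - 1 - s) ∧ |d2 (d2 ζ) x| ≤ C * R ^ (k - 2 - 2 * s) := by
  obtain ⟨N, hN⟩ := exists_nat_ge (max 2 ((k - 1) / s))
  have hN2 : 2 ≤ N := by exact_mod_cast (le_max_left _ _).trans hN
  have hNs : k - 1 ≤ s * N := by
    have := (le_max_right _ _).trans hN
    rwa [div_le_iff₀ hs, mul_comm] at this
  obtain ⟨C1, hC1⟩ := hR L Rb N
  obtain ⟨C2, hC2⟩ := hI N hN2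
  set M0 := max C1 0 * (c / 4) / (c / 4) ^ N with hM0
  have hM00 : 0 ≤ M0 := by have := le_max_right C1 0; positivity
  refine ⟨max C2 0 * (C0 + M0), by have := le_max_right C2 0; positivity, ?_⟩
  filter_upwards [ev_pos, ev_lt one_pos, ev_lin (c / 4) one_pos,
    ev_rpow 1 hs (by positivity : 0 < c / 4)] with R hR0 hR1 hR2 hR3
  intro ζ c0 t y hsol hlip hb x hx
  have hcR : 0 < c * R := by positivity
  set h := R ^ (1 + s) with hh
  have hh0 : 0 < h := by positivity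
  have hh1 : h ≤ c * R / 4 := by
    rw [hh, Real.rpow_add hR0, Real.rpow_one]
    nlinarith
  have hsub : ball x h ⊆ ball y (c * R) := ball_subset_ball' (by
    rw [mem_ball] at hx; linarith)
  have hx' : x ∈ ball y (c * R) := hsub (mem_ball_self hh0)
  have hM : ∀ z ∈ ball x h, ‖iteratedFDeriv ℝ N (fun x => ζ x - (c0 + t * x.2)) z‖ ≤
      M0 * (R / R ^ N) := by
    intro z hz
    have hs2 : ball z (c / 4 * R) ⊆ ball y (c * R) := ball_subset_ball' (by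
      rw [mem_ball] at hx hz
      have := dist_triangle z x y
      linarith)
    have hw : Weak ζ (ball z (c / 4 * R)) :=
      (hC ζ _ isOpen_ball (hsol.1.mono hs2).contDiffOn_of_completeSpace).2
        fun w hw => hsol.2 w (hs2 hw)
    have h1 := (hC1 ζ z (c / 4 * R) (by positivity) hR2.le (hb z (hsub hz)).1 (hb z (hsub hz)).2.1
      (hlip.mono hs2) hw).2 N (by omega) le_rfl
    rw [iter_aff (hsol.1 z (hsub hz)) c0 t hN2]
    refine h1.trans ?_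
    have e : M0 * (R / R ^ N) = max C1 0 * (c / 4 * R) / (c / 4 * R) ^ N := by
      rw [hM0, mul_pow]; field_simp
    rw [e]
    gcongr
    exact le_max_left _ _
  have hf : AnalyticOnNhd ℝ (fun x => ζ x - (c0 + t * x.2)) (ball x h) := fun z hz =>
    (hsol.1 z (hsub hz)).sub (analyticAt_const.add (analyticAt_const.mul analyticAt_snd))
  have key : ∀ j : ℕ, j ≤ 2 → ‖iteratedFDeriv ℝ j (fun x => ζ x - (c0 + t * x.2)) x‖ ≤
      max C2 0 * (C0 + M0) * R ^ (k - j - j * s) := by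
    intro j hj
    have h1 := hC2 _ x h _ _ hh0 hf (fun z hz => (hb z (hsub hz)).2.2) hM j hj
    have e1 : C0 * R ^ k / h ^ j = C0 * R ^ (k - j - j * s) := by
      rw [hh, ← Real.rpow_natCast, ← Real.rpow_mul hR0.le, mul_div_assoc, ← Real.rpow_sub hR0]
      congr 2; ring
    have e2 : R / R ^ N * h ^ (N - j) ≤ R ^ (k - j - j * s) := by
      have e3 : R / R ^ N * h ^ (N - j) = R ^ (1 - (N : ℝ) + (1 + s) * ((N : ℝ) - j)) := by
        rw [hh, ← Real.rpow_natCast _ (N - j), ← Real.rpow_mul hR0.le, Real.rpow_add hR0,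
          Real.rpow_sub hR0, Real.rpow_one, Real.rpow_natCast, Nat.cast_sub (by omega)]
      rw [e3]
      exact Real.rpow_le_rpow_of_exponent_ge hR0 hR1.le (by nlinarith)
    have h2 : C0 * R ^ k / h ^ j + M0 * (R / R ^ N) * h ^ (N - j) ≤
        (C0 + M0) * R ^ (k - j - j * s) := by
      rw [e1, mul_assoc, add_mul]
      gcongr
    refine h1.trans ?_
    rw [mul_assoc (max C2 0)]
    refine le_trans (mul_le_mul_of_nonneg_right (le_max_left C2 0) (by positivity)) ?_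
    exact mul_le_mul_of_nonneg_left h2 (le_max_right _ _)
  have ha := hsol.1 x hx'
  have g1 := hD _ x (hf x (mem_ball_self hh0))
  have g2 := hD _ x ha
  have k1 := key 1 (by norm_num)
  have k2 := key 2 le_rfl
  rw [iter_aff ha c0 t le_rfl] at k2
  simp only [Nat.cast_one, one_mul, Nat.cast_ofNat] at k1 k2
  rw [(d_aff ha c0 t).1, (d_aff ha c0 t).2] at g1
  exact ⟨g1.2.2.2.1.trans k1, g1.2.2.2.2.1.trans k1, g2.2.2.2.2.2.2.2.1.trans k2⟩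

lemma hasDeriv_d2 {F : P2 → ℝ} {p τ : ℝ} (h : DifferentiableAt ℝ F (p, τ)) :
    HasDerivAt (fun τ => F (p, τ)) (d2 F (p, τ)) τ :=
  h.hasFDerivAt.comp_hasDerivAt τ ((hasDerivAt_const τ p).prodMk (hasDerivAt_id τ))

lemma slope_low {g g' g'' : ℝ → ℝ} {t c M : ℝ} (ht : t < 0)
    (h1 : ∀ τ ∈ Icc t 0, HasDerivAt g (g' τ) τ) (h2 : ∀ τ ∈ Icc t 0, HasDerivAt g' (g'' τ) τ)
    (h3 : ∀ τ ∈ Icc t 0, |g'' τ| ≤ M) (h0 : g 0 = 0) (h4 : g t ≤ c * t) :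
    c - M * (-t) ≤ g' t := by
  obtain ⟨τ, hτ, e⟩ := exists_hasDerivAt_eq_slope g g' ht
    (fun τ hτ => (h1 τ hτ).continuousAt.continuousWithinAt) fun τ hτ => h1 τ (Ioo_subset_Icc_self hτ)
  have hM : 0 ≤ M := (abs_nonneg _).trans (h3 t ⟨le_rfl, ht.le⟩)
  have h5 := norm_image_sub_le_of_norm_deriv_le_segment' (fun τ hτ => (h2 τ hτ).hasDerivWithinAt)
    (fun τ hτ => h3 τ (Ico_subset_Icc_self hτ)) τ (Ioo_subset_Icc_self hτ)
  have h6 : c ≤ g' τ := by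
    rw [e, h0, le_div_iff₀ (by linarith)]
    linarith
  have h7 : M * (τ - t) ≤ M * (-t) := by gcongr; linarith [hτ.2]
  linarith [(abs_le.1 h5).2]

/-! ### Coordinates -/

def nw (x : E4) : ℝ := x 2 ^ 2 + x 3 ^ 2

lemma nw_nonneg (x : E4) : 0 ≤ nw x := by unfold nw; positivity

lemma unit_sq {x : E4} (h : ‖x‖ = 1) : aa x + nw x = 1 := by
  have := real_inner_self_eq_norm_sq x
  rw [inner4, h] at this
  unfold aa nw
  linarith

lemma key_bounds {x n : E4} (hx : ‖x‖ = 1) (hn : ‖n‖ = 1) (ho : ⟪n, x⟫_ℝ = 0)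
    (ha : 1 / 2 ≤ aa x) :
    nw n ≤ 1 - u12 x n ^ 2 / aa x ∧ 1 - u12 x n ^ 2 / aa x ≤ 2 * nw n := by
  have h1 := unit_sq hx
  have h2 := unit_sq hn
  have h0 : 0 < aa x := by linarith
  rw [inner4] at ho
  have e1 : u12 x n ^ 2 = aa x * aa n - vv x n ^ 2 := by unfold u12 aa vv; ring
  have e2 : 1 - u12 x n ^ 2 / aa x = nw n + vv x n ^ 2 / aa x := by
    rw [e1]; field_simp; linear_combination (-aa x) * h2
  have e3 : vv x n = -(n 2 * x 2 + n 3 * x 3) := by unfold vv; linarith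
  have h3 : vv x n ^ 2 ≤ nw n * nw x := by
    rw [e3]; unfold nw; nlinarith [sq_nonneg (n 2 * x 3 - n 3 * x 2)]
  have h4 : vv x n ^ 2 / aa x ≤ nw n := by
    rw [div_le_iff₀ h0]
    exact h3.trans (by gcongr; exacts [nw_nonneg n, by linarith])
  have h5 : 0 ≤ vv x n ^ 2 / aa x := by positivity
  rw [e2]
  constructor <;> linarith

lemma h2' : (√2)⁻¹ * (√2)⁻¹ = (1 / 2 : ℝ) := h2

lemma OG_c (A B : ℝ) (w : E4) :
    Real.cos B * OG A B w 0 + Real.sin B * OG A B w 1 = w 0 ∧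
    Real.cos A * OG A B w 2 + Real.sin A * OG A B w 3 = w 1 ∧
    Real.sin A * OG A B w 2 - Real.cos A * OG A B w 3 = (√2)⁻¹ * (w 3 - w 2) ∧
    Real.sin B * OG A B w 0 - Real.cos B * OG A B w 1 = -((√2)⁻¹ * (w 2 + w 3)) ∧
    nw (OG A B w) = w 1 ^ 2 + (w 2 - w 3) ^ 2 / 2 := by
  have hA := Real.sin_sq_add_cos_sq A
  have hB := Real.sin_sq_add_cos_sq B
  have e0 : OG A B w 0 = w 0 * Real.cos B - (√2)⁻¹ * (w 2 + w 3) * Real.sin B := by
    simp [OG, OQ, dg, mkO_apply]; ring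
  have e1 : OG A B w 1 = w 0 * Real.sin B + (√2)⁻¹ * (w 2 + w 3) * Real.cos B := by
    simp [OG, OQ, dg, mkO_apply, -mul_eq_mul_right_iff]; ring
  have e2 : OG A B w 2 = w 1 * Real.cos A - (√2)⁻¹ * (w 2 - w 3) * Real.sin A := by
    simp [OG, OQ, dg, mkO_apply]; ring
  have e3 : OG A B w 3 = w 1 * Real.sin A + (√2)⁻¹ * (w 2 - w 3) * Real.cos A := by
    simp [OG, OQ, dg, mkO_apply, -mul_eq_mul_right_iff]; ring
  rw [nw, e0, e1, e2, e3]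
  refine ⟨by linear_combination w 0 * hB, by linear_combination w 1 * hA,
    by linear_combination (√2)⁻¹ * (w 3 - w 2) * hA,
    by linear_combination (-((√2)⁻¹ * (w 2 + w 3))) * hB, ?_⟩
  linear_combination (w 1 ^ 2 + ((√2)⁻¹ * (w 2 - w 3)) ^ 2) * hA + (w 2 - w 3) ^ 2 * h2

lemma nw_O0 (w : E4) : nw (O0 w) = (w 0 + w 3) ^ 2 / 2 + w 1 ^ 2 := by
  have e2 : O0 w 2 = (√2)⁻¹ * (w 0 + w 3) := by simp [O0, mkO_apply]; ring
  have e3 : O0 w 3 = w 1 := by simp [O0, mkO_apply]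
  rw [nw, e2, e3]
  linear_combination (w 0 + w 3) ^ 2 * h2

lemma one_le_rho (y : P2) (z : ℝ) : 1 ≤ rho y z :=
  Real.one_le_sqrt.2 (by nlinarith [sq_nonneg y.1, sq_nonneg y.2, sq_nonneg z])

lemma rho_pos (y : P2) (z : ℝ) : 0 < rho y z := one_pos.trans_le (one_le_rho y z)

lemma rho_le {y : P2} {z a b c : ℝ} (h1 : |y.1| ≤ a) (h2 : |y.2| ≤ b) (h3 : |z| ≤ c) :
    rho y z ≤ 1 + a + b + c := by
  have ha := (abs_nonneg _).trans h1
  have hb := (abs_nonneg _).trans h2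
  have hc := (abs_nonneg _).trans h3
  refine Real.sqrt_le_iff.2 ⟨by positivity, ?_⟩
  have g1 : y.1 ^ 2 ≤ a ^ 2 := by rw [← sq_abs]; gcongr
  have g2 : y.2 ^ 2 ≤ b ^ 2 := by rw [← sq_abs]; gcongr
  have g3 : z ^ 2 ≤ c ^ 2 := by rw [← sq_abs]; gcongr
  nlinarith [mul_nonneg ha hb, mul_nonneg ha hc, mul_nonneg hb hc]

lemma gn_c (y : P2) (z : ℝ) : gn y z 0 = (rho y z)⁻¹ ∧ gn y z 1 = (rho y z)⁻¹ * y.1 ∧
    gn y z 2 = (rho y z)⁻¹ * y.2 ∧ gn y z 3 = (rho y z)⁻¹ * z := by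
  simp [gn, rho]

lemma gn_coord {x : E4} (hx : ‖x‖ = 1) (h0 : 0 < x 0) :
    gn (x 1 / x 0, x 2 / x 0) (x 3 / x 0) = x := by
  have h1 := unit_sq hx
  unfold aa nw at h1
  have e : rho (x 1 / x 0, x 2 / x 0) (x 3 / x 0) = (x 0)⁻¹ := by
    unfold rho
    rw [Real.sqrt_eq_iff_mul_self_eq (by positivity) (by positivity)]
    field_simp
    linarith
  obtain ⟨a0, a1, a2, a3⟩ := gn_c (x 1 / x 0, x 2 / x 0) (x 3 / x 0)
  rw [e, inv_inv] at a0 a1 a2 a3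
  ext i
  fin_cases i
  · exact a0
  · exact a1.trans (by field_simp; rfl)
  · exact a2.trans (by field_simp; rfl)
  · exact a3.trans (by field_simp; rfl)

/-- the normalising factor of the normal -/
def WW (y : P2) (z p q : ℝ) : ℝ := √(1 + p ^ 2 + q ^ 2 + (z - y.1 * p - y.2 * q) ^ 2)

lemma nrm_c (y : P2) (z p q : ℝ) :
    nrm y z p q 0 = (WW y z p q)⁻¹ * (y.1 * p + y.2 * q - z) ∧
    nrm y z p q 1 = (WW y z p q)⁻¹ * (-p) ∧ nrm y z p q 2 = (WW y z p q)⁻¹ * (-q) ∧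
    nrm y z p q 3 = (WW y z p q)⁻¹ := by
  simp [nrm, WW]

lemma WW_sq (y : P2) (z p q : ℝ) :
    WW y z p q ^ 2 = 1 + p ^ 2 + q ^ 2 + (z - y.1 * p - y.2 * q) ^ 2 :=
  Real.sq_sqrt (by positivity)

lemma one_le_WW (y : P2) (z p q : ℝ) : 1 ≤ WW y z p q ^ 2 := by
  rw [WW_sq]; nlinarith [sq_nonneg p, sq_nonneg q, sq_nonneg (z - y.1 * p - y.2 * q)]

lemma nw_gN0 (u : P2 → ℝ) (x : P2) : nw (gN O0 u x) ≤
    (x.1 * d1 u x + x.2 * d2 u x - u x + 1) ^ 2 + d1 u x ^ 2 := by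
  obtain ⟨a0, a1, -, a3⟩ := nrm_c x (u x) (d1 u x) (d2 u x)
  have h := one_le_WW x (u x) (d1 u x) (d2 u x)
  rw [gN, nw_O0, a0, a1, a3]
  set W := WW x (u x) (d1 u x) (d2 u x)
  have e : (W⁻¹ * (x.1 * d1 u x + x.2 * d2 u x - u x) + W⁻¹) ^ 2 / 2 + (W⁻¹ * -d1 u x) ^ 2 =
      ((x.1 * d1 u x + x.2 * d2 u x - u x + 1) ^ 2 / 2 + d1 u x ^ 2) / W ^ 2 := by ring
  rw [e]
  refine (div_le_self (by positivity) h).trans ?_
  nlinarith [sq_nonneg (x.1 * d1 u x + x.2 * d2 u x - u x + 1)]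

lemma nw_gNG (A B : ℝ) (ζ : P2 → ℝ) (y : P2) : nw (gN (OG A B) ζ y) =
    (d1 ζ y ^ 2 + (d2 ζ y + 1) ^ 2 / 2) / WW y (ζ y) (d1 ζ y) (d2 ζ y) ^ 2 := by
  obtain ⟨-, a1, a2, a3⟩ := nrm_c y (ζ y) (d1 ζ y) (d2 ζ y)
  rw [gN, (OG_c A B _).2.2.2.2, a1, a2, a3]
  ring

lemma sin_hA (hT : TetS) {a : ℝ} (ha : 0 < a) : 0 < Real.cos (hA a) ∧ 0 < Real.sin (hA a) ∧
    √2 * Real.sin (hA a) = a * Real.cos (hA a) := by
  obtain ⟨h1, h2, h3⟩ := hT.ang.1 a ha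
  have hc : 0 < Real.cos (hA a) := Real.cos_pos_of_mem_Ioo ⟨by linarith, h2⟩
  refine ⟨hc, Real.sin_pos_of_pos_of_lt_pi h1 (by linarith), ?_⟩
  rw [Real.tan_eq_sin_div_cos, ← mul_div_assoc, div_eq_iff hc.ne'] at h3
  exact h3

lemma hq_eq (hT : TetS) {b : ℝ} (hb : 0 < b) (y : P2) (z : ℝ) :
    hq (hA b) (O0 (gn y z)) * rho y z = Real.cos (hA b) * (b / 2) * (up b y - z) := by
  obtain ⟨a0, a1, -, -⟩ := hT.coord y z
  have h := (sin_hA hT hb).2.2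
  have hr := rho_pos y z
  rw [hq, a0, a1, abs_div, abs_of_pos hr, up]
  have e : Real.sin (hA b) = b * Real.cos (hA b) / √2 := by rw [← h]; field_simp
  rw [e]
  field_simp
  rw [Real.sq_sqrt (by norm_num)]
  ring

lemma hp_eq (hT : TetS) {a : ℝ} (ha : 0 < a) (y : P2) (z : ℝ) :
    hp (hA a) (O0 (gn y z)) * rho y z = Real.cos (hA a) * (a / 2) * (z - lo a y) := by
  obtain ⟨-, -, a2, a3⟩ := hT.coord y z
  have h := (sin_hA hT ha).2.2
  have hr := rho_pos y z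
  rw [hp, a2, a3, abs_div, abs_of_pos hr, lo]
  have e : Real.sin (hA a) = a * Real.cos (hA a) / √2 := by rw [← h]; field_simp
  rw [e]
  field_simp
  rw [Real.sq_sqrt (by norm_num)]
  ring

/-! ### Points of a leaf -/

variable {a b : ℝ} {u : P2 → ℝ}

/-- distance to the circle through the vertices `vQ` -/
def RR (u : P2 → ℝ) (x : P2) : ℝ := √(1 - aa (gX O0 u x))

lemma rho_sub {x : P2} (hx : x ∈ Rho a b) : x ∈ Rh a b := le_of_lt (b := (1 : ℝ)) hx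

lemma bnd (h : IsLeaf a b u) {x : P2} (hx : x ∈ Rho a b) : |x.1| ≤ a ∧ |x.2| ≤ b ∧ |u x| ≤ 1 := by
  have ha := h.apos
  have hb := h.bpos
  have h1 : 0 ≤ |x.1| / a := by positivity
  have h2 : 0 ≤ |x.2| / b := by positivity
  have h3 : |x.1| / a + |x.2| / b < 1 := hx
  have h4 := h.low x (rho_sub hx)
  have h5 := h.upp x (rho_sub hx)
  rw [lo, mul_div_assoc] at h4
  rw [up, mul_div_assoc] at h5
  exact ⟨(div_le_one ha).1 (by linarith), (div_le_one hb).1 (by linarith),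
    abs_le.2 ⟨by linarith, by linarith⟩⟩

lemma rho_bd (h : IsLeaf a b u) {x : P2} (hx : x ∈ Rho a b) : rho x (u x) ≤ 1 + a + b + 1 :=
  rho_le (bnd h hx).1 (bnd h hx).2.1 (bnd h hx).2.2

lemma unit (hM : MeqS) (h : IsLeaf a b u) {x : P2} (hx : x ∈ Rho a b) :
    ‖gX O0 u x‖ = 1 ∧ ‖gN O0 u x‖ = 1 ∧ ⟪gN O0 u x, gX O0 u x⟫_ℝ = 0 := by
  obtain ⟨h1, h2, h3, -⟩ := hM.normal O0 u x (h.sol.1 x hx).differentiableAt
  exact ⟨h1, h2, h3⟩

lemma RR_sq (hM : MeqS) (h : IsLeaf a b u) {x : P2} (hx : x ∈ Rho a b) :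
    RR u x ^ 2 = nw (gX O0 u x) := by
  have := unit_sq (unit hM h hx).1
  rw [RR, Real.sq_sqrt (by linarith [nw_nonneg (gX O0 u x)])]
  linarith

lemma hq_nonneg (hT : TetS) (h : IsLeaf a b u) {x : P2} (hx : x ∈ Rho a b) :
    0 ≤ hq (hA b) (gX O0 u x) := by
  have h1 := hq_eq hT h.bpos x (u x)
  have h2 := (sin_hA hT h.bpos).1
  have h3 := sub_nonneg.2 (h.upp x (rho_sub hx))
  have hb := h.bpos
  exact (mul_nonneg_iff_of_pos_right (rho_pos x (u x))).1 (h1 ▸ by positivity)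

lemma hp_nonneg (hT : TetS) (h : IsLeaf a b u) {x : P2} (hx : x ∈ Rho a b) :
    0 ≤ hp (hA a) (gX O0 u x) := by
  have h1 := hp_eq hT h.apos x (u x)
  have h2 := (sin_hA hT h.apos).1
  have h3 := sub_nonneg.2 (h.low x (rho_sub hx))
  have ha := h.apos
  exact (mul_nonneg_iff_of_pos_right (rho_pos x (u x))).1 (h1 ▸ by positivity)

lemma signs (hT : TetS) (h : IsLeaf a b u) {x : P2} (hx : x ∈ Rho a b) (h1 : 0 ≤ x.1)
    (h2 : 0 ≤ x.2) : 0 ≤ gX O0 u x 0 ∧ 0 ≤ gX O0 u x 1 ∧ 0 ≤ gX O0 u x 2 ∧ 0 ≤ gX O0 u x 3 := by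
  obtain ⟨a0, a1, a2, a3⟩ := hT.coord x (u x)
  obtain ⟨b1, b2⟩ := abs_le.1 (bnd h hx).2.2
  have hr := rho_pos x (u x)
  have c1 : 0 ≤ 1 - u x := by linarith
  have c2 : 0 ≤ 1 + u x := by linarith
  rw [gX, a0, a1, a2, a3]
  exact ⟨by positivity, by positivity, by positivity, by positivity⟩

lemma RR_le (hM : MeqS) (hT : TetS) (h : IsLeaf a b u) {x : P2} (hx : x ∈ Rho a b) :
    RR u x ≤ |1 + u x| + |x.1| ∧ |1 + u x| ≤ 2 * (1 + a + b + 1) * RR u x ∧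
      |x.1| ≤ (1 + a + b + 1) * RR u x := by
  obtain ⟨-, -, a2, a3⟩ := hT.coord x (u x)
  have h1 := RR_sq hM h hx
  have hr := rho_pos x (u x)
  have hr1 := one_le_rho x (u x)
  have hr2 := rho_bd h hx
  have hR : 0 ≤ RR u x := Real.sqrt_nonneg _
  have e : (RR u x * rho x (u x)) ^ 2 = |1 + u x| ^ 2 / 2 + |x.1| ^ 2 := by
    rw [mul_pow, h1, nw, gX, a2, a3, sq_abs, sq_abs]
    field_simp
    rw [Real.sq_sqrt (by norm_num)]
    ring
  have p1 := abs_nonneg (1 + u x)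
  have p2 := abs_nonneg x.1
  have hm : RR u x * rho x (u x) ≤ (1 + a + b + 1) * RR u x := by rw [mul_comm]; gcongr
  have hm0 : 0 ≤ RR u x * rho x (u x) := by positivity
  refine ⟨le_trans (le_mul_of_one_le_right hR hr1) ?_, le_trans ?_ (by linarith :
    2 * (RR u x * rho x (u x)) ≤ _), le_trans ?_ hm⟩
  · exact abs_le_of_sq_le_sq' (by rw [e]; nlinarith [mul_nonneg p1 p2]) (by positivity) |>.2
  · exact abs_le_of_sq_le_sq' (by rw [mul_pow, e]; nlinarith) (by positivity) |>.2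
  · exact abs_le_of_sq_le_sq' (by rw [e]; nlinarith) hm0 |>.2

lemma near (hM : MeqS) (hT : TetS) (h : IsLeaf a b u) {x : P2} (hx : x ∈ Rho a b) (h1 : 0 ≤ x.1)
    (h2 : 0 ≤ x.2) (h3 : RR u x ≤ 1 / 2) (h4 : hq (hA b) (gX O0 u x) ≤ RR u x) :
    1 / 2 ≤ Real.cos (hA b) * gX O0 u x 0 + Real.sin (hA b) * gX O0 u x 1 ∧
      Real.cos (hA b) * gX O0 u x 0 + Real.sin (hA b) * gX O0 u x 1 ≤ 1 := by
  obtain ⟨s0, s1, -, -⟩ := signs hT h hx h1 h2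
  obtain ⟨c0, c1, -⟩ := sin_hA hT h.bpos
  have e1 := unit_sq (unit hM h hx).1
  have e2 := RR_sq hM h hx
  have q0 := hq_nonneg hT h hx
  have hR : 0 ≤ RR u x := Real.sqrt_nonneg _
  have e3 : (Real.cos (hA b) * gX O0 u x 0 + Real.sin (hA b) * gX O0 u x 1) ^ 2 +
      hq (hA b) (gX O0 u x) ^ 2 = aa (gX O0 u x) := by
    rw [hq, abs_of_nonneg s1, aa]
    linear_combination (gX O0 u x 0 ^ 2 + gX O0 u x 1 ^ 2) * Real.sin_sq_add_cos_sq (hA b)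
  have g1 : hq (hA b) (gX O0 u x) ^ 2 ≤ (1 / 2) ^ 2 := by gcongr; linarith
  have g2 : RR u x ^ 2 ≤ (1 / 2) ^ 2 := by gcongr
  constructor
  · exact abs_le_of_sq_le_sq' (by linarith) (by positivity) |>.2
  · exact abs_le_of_sq_le_sq' (by nlinarith [sq_nonneg (hq (hA b) (gX O0 u x)), sq_nonneg (RR u x)])
      zero_le_one |>.2

lemma sym (hT : TetS) (h : IsLeaf a b u) {x : P2} (hx : x ∈ Rho a b) : ∃ x' ∈ Rho a b,
    0 ≤ x'.1 ∧ 0 ≤ x'.2 ∧ aa (gX O0 u x') = aa (gX O0 u x) ∧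
      u12 (gX O0 u x') (gN O0 u x') ^ 2 = u12 (gX O0 u x) (gN O0 u x) ^ 2 := by
  have s1 : ∀ x ∈ Rho a b, (-x.1, x.2) ∈ Rho a b ∧ aa (gX O0 u (-x.1, x.2)) = aa (gX O0 u x) ∧
      u12 (gX O0 u (-x.1, x.2)) (gN O0 u (-x.1, x.2)) ^ 2 = u12 (gX O0 u x) (gN O0 u x) ^ 2 := by
    intro x hx
    obtain ⟨e1, e2, -, -⟩ := hT.evg a b u h x hx
    refine ⟨by simpa [Rho] using hx, ?_, ?_⟩ <;> simp [e1, e2, aa, u12, rf3, mkO_apply]
  have s2 : ∀ x ∈ Rho a b, (x.1, -x.2) ∈ Rho a b ∧ aa (gX O0 u (x.1, -x.2)) = aa (gX O0 u x) ∧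
      u12 (gX O0 u (x.1, -x.2)) (gN O0 u (x.1, -x.2)) ^ 2 = u12 (gX O0 u x) (gN O0 u x) ^ 2 := by
    intro x hx
    obtain ⟨-, -, e1, e2⟩ := hT.evg a b u h x hx
    refine ⟨by simpa [Rho] using hx, ?_, ?_⟩
    · simp [e1, aa, rf1, mkO_apply]
    · simp [e1, e2, u12, rf1, mkO_apply]; ring
  rcases le_total 0 x.1 with h1 | h1 <;> rcases le_total 0 x.2 with h2 | h2
  · exact ⟨x, hx, h1, h2, rfl, rfl⟩
  · exact ⟨_, (s2 x hx).1, h1, neg_nonneg.2 h2, (s2 x hx).2⟩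
  · exact ⟨_, (s1 x hx).1, neg_nonneg.2 h1, h2, (s1 x hx).2⟩
  · obtain ⟨g1, g2, g3⟩ := s1 x hx
    obtain ⟨g4, g5, g6⟩ := s2 _ g1
    exact ⟨_, g4, neg_nonneg.2 h1, neg_nonneg.2 h2, g5.trans g2, g6.trans g3⟩

/-- the upper barrier in the form used here -/
def UpB (a b : ℝ) (u : P2 → ℝ) (k C ρ : ℝ) : Prop :=
  0 ≤ C ∧ 0 < ρ ∧ ∀ x ∈ Rho a b, RR u x < ρ → hq (hA b) (gX O0 u x) ≤ C * RR u x ^ k

lemma one_sub_pos (hRa : RadoS) (h : IsLeaf a b u) {x : P2} (hx : x ∈ Rho a b) :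
    0 < 1 - aa (gX O0 u x) := sub_pos.2 (hRa.sign a b u h x hx).2.1

lemma upB (hRa : RadoS) (hQ : QbarS) (h : IsLeaf a b u) {k : ℝ} (hk : k < π / (2 * hA a)) :
    ∃ C ρ, UpB a b u k C ρ := by
  obtain ⟨C, ρ, hρ, H⟩ := hQ.up a b u h k hk
  refine ⟨max C 0, √ρ, le_max_right _ _, Real.sqrt_pos.2 hρ, fun x hx hr => ?_⟩
  have h0 := one_sub_pos hRa h hx
  refine (H x hx ((Real.sqrt_lt_sqrt_iff h0.le).1 hr)).trans ?_
  rw [rpow_half h0.le, RR]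
  gcongr
  exact le_max_left _ _

lemma ev_hq {k C ρ η : ℝ} (hk : 1 < k) (H : UpB a b u k C ρ) (hη : 0 < η) :
    ∀ᶠ R in 𝓝[>] (0 : ℝ), ∀ x ∈ Rho a b, RR u x = R → hq (hA b) (gX O0 u x) ≤ η * R := by
  filter_upwards [ev_pos, ev_lt H.2.1, ev_rpow C (sub_pos.2 hk) hη] with R h0 h1 h2 x hx hR
  refine (H.2.2 x hx (hR ▸ h1)).trans ?_
  have e : R ^ k = R ^ (k - 1) * R := by rw [Real.rpow_sub_one h0.ne']; field_simp
  rw [hR, e, ← mul_assoc]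
  gcongr

/-! ### The central chart -/

lemma cen (hR : RegS) (hC : CWS) (hI : IntS) (hD : DerS) (hM : MeqS) (hT : TetS) (hRa : RadoS)
    (h : IsLeaf a b u) {k C ρ s α : ℝ} (hk : 1 < k) (H : UpB a b u k C ρ) (hs : 0 < s)
    (hα : 0 < α) : ∃ C', ∀ᶠ R in 𝓝[>] (0 : ℝ), ∀ x ∈ Rho a b, 0 ≤ x.1 → 0 ≤ x.2 → RR u x = R →
      α * R ≤ hp (hA a) (gX O0 u x) → nw (gN O0 u x) ≤ C' * (R ^ (k - 1 - s)) ^ 2 := by
  have ha := h.apos
  have hb := h.bpos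
  obtain ⟨cB, sB, -⟩ := sin_hA hT hb
  obtain ⟨cA, -, -⟩ := sin_hA hT ha
  set c := α * b / (a + b) with hc
  have hc0 : 0 < c := by positivity
  set K := (2 / a + 2 / b).toNNReal with hK
  set C2 := 3 * (1 + a + b + 1) + K * c + c with hC2
  have hC20 : 0 < C2 := by positivity
  set C0 := C * C2 ^ k * (1 + a + b + 1) / (Real.cos (hA b) * (b / 2)) with hC0
  have hC00 : 0 ≤ C0 := by have := H.1; positivity
  obtain ⟨C3, hC3, hdec⟩ := decay hR hC hI hD K (a + b + 1) k hc0 hs hC00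
  have hlip := (hRa.lip a b u h).2
  refine ⟨((a + b) * C3 + C0) ^ 2 + C3 ^ 2, ?_⟩
  filter_upwards [hdec, ev_pos, ev_lt one_half_pos, ev_hq hk H one_pos, ev_lin C2 H.2.1,
    ev_lin (1 + c) (half_pos sB)] with R hdec hR0 hR1 hq1 hR2 hR3 x hx h1 h2 hRx hα'
  have hq2 := hq1 x hx hRx
  rw [one_mul] at hq2
  have hsub : ball x (c * R) ⊆ Rho a b := by
    intro z hz
    rw [mem_ball, dist_eq_norm] at hz
    have z1 : |z.1| < |x.1| + c * R := by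
      have := abs_sub_abs_le_abs_sub z.1 x.1
      linarith [show |z.1 - x.1| ≤ ‖z - x‖ from norm_fst_le (z - x)]
    have z2 : |z.2| < |x.2| + c * R := by
      have := abs_sub_abs_le_abs_sub z.2 x.2
      linarith [show |z.2 - x.2| ≤ ‖z - x‖ from norm_snd_le (z - x)]
    have g1 : hp (hA a) (gX O0 u x) ≤ a / 2 * (u x - lo a x) := by
      have g2 := sub_nonneg.2 (h.low x (rho_sub hx))
      refine (le_mul_of_one_le_right (hp_nonneg hT h hx) (one_le_rho x (u x))).trans ?_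
      rw [gX, hp_eq hT ha, mul_assoc]
      exact mul_le_of_le_one_left (by positivity) (Real.cos_le_one _)
    have g3 := h.upp x (rho_sub hx)
    have g4 : α * R / a ≤ 1 - |x.1| / a - |x.2| / b := by
      rw [div_le_iff₀ ha]
      rw [lo, mul_div_assoc] at g1
      rw [up, mul_div_assoc] at g3
      nlinarith
    have g5 : (|x.1| + c * R) / a + (|x.2| + c * R) / b = |x.1| / a + |x.2| / b + α * R / a := by
      rw [hc]; field_simp; ring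
    change |z.1| / a + |z.2| / b < 1
    have g6 : |z.1| / a < (|x.1| + c * R) / a := by gcongr
    have g7 : |z.2| / b < (|x.2| + c * R) / b := by gcongr
    linarith
  have hx2 : c * R ≤ x.2 := by
    obtain ⟨n1, -⟩ := near hM hT h hx h1 h2 (hRx ▸ hR1.le) (hRx ▸ hq2)
    have s1 := (signs hT h hx h1 h2).2.1
    have e : gX O0 u x 1 = (Real.cos (hA b) * gX O0 u x 0 + Real.sin (hA b) * gX O0 u x 1) *
        Real.sin (hA b) - hq (hA b) (gX O0 u x) * Real.cos (hA b) := by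
      rw [hq, abs_of_nonneg s1]
      linear_combination (-gX O0 u x 1) * Real.sin_sq_add_cos_sq (hA b)
    have g1 : hq (hA b) (gX O0 u x) * Real.cos (hA b) ≤ R :=
      (mul_le_of_le_one_right (hq_nonneg hT h hx) (Real.cos_le_one _)).trans hq2
    have g2 : gX O0 u x 1 ≤ x.2 := by
      rw [gX, (hT.coord x (u x)).2.1]; exact div_le_self h2 (one_le_rho _ _)
    nlinarith [mul_le_mul_of_nonneg_right n1 sB.le]
  have hf : ∀ z ∈ ball x (c * R), |u z - (1 + -(2 / b) * z.2)| ≤ C0 * R ^ k := by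
    intro z hz
    have hz' := hsub hz
    have l1 := hlip.dist_le_mul z (rho_sub hz') x (rho_sub hx)
    rw [mem_ball] at hz
    have z1 : |z.1 - x.1| ≤ dist z x := by rw [dist_eq_norm]; exact norm_fst_le (z - x)
    have z2 : |z.2 - x.2| ≤ dist z x := by rw [dist_eq_norm]; exact norm_snd_le (z - x)
    have z3 : 0 ≤ z.2 := by linarith [(abs_le.1 z2).1]
    obtain ⟨-, r2, r3⟩ := RR_le hM hT h hx
    have r1 := (RR_le hM hT h hz').1
    have g1 : RR u z ≤ C2 * R := by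
      have g2 : |1 + u z| ≤ |1 + u x| + K * (c * R) := by
        have e : 1 + u z = 1 + u x + (u z - u x) := by ring
        rw [e]
        refine (abs_add_le _ _).trans ?_
        rw [Real.dist_eq] at l1
        gcongr
        exact l1.trans (by gcongr)
      have g3 : |z.1| ≤ |x.1| + c * R := by linarith [abs_sub_abs_le_abs_sub z.1 x.1]
      rw [hRx] at r2 r3
      rw [hC2]
      linarith
    have g4 : hq (hA b) (gX O0 u z) ≤ C * (C2 ^ k * R ^ k) := by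
      refine (H.2.2 z hz' (g1.trans_lt hR2)).trans ?_
      rw [← Real.mul_rpow hC20.le hR0.le]
      have := H.1
      have : 0 ≤ RR u z := Real.sqrt_nonneg _
      gcongr
    have g5 := hq_eq hT hb z (u z)
    have g6 := sub_nonneg.2 (h.upp z (rho_sub hz'))
    have e : u z - (1 + -(2 / b) * z.2) = -(up b z - u z) := by
      rw [up, abs_of_nonneg z3]; ring
    rw [e, abs_neg, abs_of_nonneg g6, hC0, div_mul_eq_mul_div, le_div_iff₀ (by positivity),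
      mul_comm, ← g5]
    calc _ ≤ C * (C2 ^ k * R ^ k) * (1 + a + b + 1) :=
          mul_le_mul g4 (rho_bd h hz') (rho_pos _ _).le (by have := H.1; positivity)
      _ = _ := by ring
  obtain ⟨d1', d2', -⟩ := hdec u 1 (-(2 / b)) x ⟨h.sol.1.mono hsub, fun z hz => h.sol.2 z (hsub hz)⟩
    (hlip.mono fun z hz => rho_sub (hsub hz)) (fun z hz => ⟨norm_prod_le_iff.2
      ⟨(bnd h (hsub hz)).1.trans (by linarith), (bnd h (hsub hz)).2.1.trans (by linarith)⟩,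
      (bnd h (hsub hz)).2.2.trans (by linarith), hf z hz⟩) x (mem_ball_self (by positivity))
  have f0 := hf x (mem_ball_self (by positivity))
  have hE : R ^ k ≤ R ^ (k - 1 - s) :=
    Real.rpow_le_rpow_of_exponent_ge hR0 (by linarith) (by linarith)
  set E := R ^ (k - 1 - s) with hEd
  have g1 : |x.1 * d1 u x + x.2 * d2 u x - u x + 1| ≤ ((a + b) * C3 + C0) * E := by
    have e : x.1 * d1 u x + x.2 * d2 u x - u x + 1 =
        x.1 * d1 u x + x.2 * (d2 u x - -(2 / b)) - (u x - (1 + -(2 / b) * x.2)) := by ring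
    have t1 : |x.1 * d1 u x| ≤ a * (C3 * E) := by
      rw [abs_mul]; gcongr; exact (bnd h hx).1
    have t2 : |x.2 * (d2 u x - -(2 / b))| ≤ b * (C3 * E) := by
      rw [abs_mul]; gcongr; exact (bnd h hx).2.1
    have t3 : C0 * R ^ k ≤ C0 * E := by gcongr
    rw [e]
    refine (abs_sub _ _).trans ?_
    linarith [abs_add_le (x.1 * d1 u x) (x.2 * (d2 u x - -(2 / b)))]
  refine (nw_gN0 u x).trans ?_
  rw [← sq_abs, ← sq_abs (d1 u x), add_mul, ← mul_pow, ← mul_pow]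
  gcongr

/-! ### The edge chart -/

variable {ζ : P2 → ℝ} {L : ℝ≥0}

lemma HE_zero {y : P2} (hy : y ∈ HE a b) : (y.1, (0 : ℝ)) ∈ HE a b :=
  ⟨hy.1, by simpa using (abs_nonneg _).trans_lt hy.2⟩

lemma zeta_zero (hE : EdgeExt a b u ζ L) (p : ℝ) : ζ (p, 0) = 0 := by
  have := hE.odd (p, 0)
  rw [neg_zero] at this
  linarith

lemma abs_zeta (hE : EdgeExt a b u ζ L) {y : P2} (hy : y ∈ HE a b) : |ζ y| ≤ L * |y.2| := by
  have := hE.lip.dist_le_mul y hy _ (HE_zero hy)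
  rw [zeta_zero hE, Real.dist_eq, sub_zero, Prod.dist_eq] at this
  simpa [Real.dist_eq] using this

lemma fb_neg (hM : MeqS) (hT : TetS) (h : IsLeaf a b u) (hE : EdgeExt a b u ζ L) {k C ρ R : ℝ}
    (hk : 1 < k) (H : UpB a b u k C ρ) (hR0 : 0 < R) (hR1 : R ≤ 1 / 2) (hR2 : (5 + 2 * L) * R < ρ)
    {y : P2} (hy : y ∈ HE a b) (h1 : |y.1| ≤ 3 * R) (h2 : |y.2| ≤ 2 * R) (h3 : y.2 < 0) :
    |ζ y + y.2| ≤ 2 * (4 + L) * (C * (5 + 2 * L) ^ k) * R ^ k := by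
  obtain ⟨x, hx, x1, x2, e, -⟩ := hE.mem y hy h3
  obtain ⟨-, -, -, c3, c4⟩ := OG_c (hA a) (hA b) (gn y (ζ y))
  obtain ⟨-, a1, a2, a3⟩ := gn_c y (ζ y)
  have e' : OG (hA a) (hA b) (gn y (ζ y)) = gX O0 u x := e.symm
  rw [e'] at c3 c4
  have hz : |ζ y| ≤ L * (2 * R) := (abs_zeta hE hy).trans (by gcongr)
  have hr := rho_pos y (ζ y)
  have hr1 := one_le_rho y (ζ y)
  have hr2 : rho y (ζ y) ≤ 4 + L := by
    have := rho_le (y := y) (z := ζ y) (a := 2) (b := 1) (c := L) (by linarith) (by linarith)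
      (hz.trans (mul_le_of_le_one_right L.2 (by linarith)))
    linarith
  have g1 : RR u x ≤ (5 + 2 * L) * R := by
    have g2 : RR u x ^ 2 = (y.1 ^ 2 + (y.2 - ζ y) ^ 2 / 2) / rho y (ζ y) ^ 2 := by
      rw [RR_sq hM h hx, c4, a1, a2, a3]; field_simp
    have g3 : RR u x ^ 2 ≤ |y.1| ^ 2 + |y.2 - ζ y| ^ 2 := by
      rw [g2, sq_abs, sq_abs]
      refine (div_le_self (by positivity) (one_le_pow₀ hr1)).trans ?_
      linarith [sq_nonneg (y.2 - ζ y)]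
    have g4 : RR u x ≤ |y.1| + |y.2 - ζ y| :=
      (abs_le_of_sq_le_sq' (by nlinarith [mul_nonneg (abs_nonneg y.1) (abs_nonneg (y.2 - ζ y))])
        (by positivity)).2
    linarith [abs_sub y.2 (ζ y)]
  have g4 : hq (hA b) (gX O0 u x) ≤ C * (5 + 2 * L) ^ k * R ^ k := by
    refine (H.2.2 x hx (g1.trans_lt hR2)).trans ?_
    rw [mul_assoc, ← Real.mul_rpow (by positivity) hR0.le]
    have := H.1
    have : 0 ≤ RR u x := Real.sqrt_nonneg _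
    gcongr
  have g5 : ζ y + y.2 = -(√2 * rho y (ζ y) * hq (hA b) (gX O0 u x)) := by
    rw [hq, abs_of_nonneg (signs hT h hx x1.le x2.le).2.1, c3, a2, a3]
    field_simp
    ring
  have q0 := hq_nonneg hT h hx
  have s2' : √2 ≤ 2 := Real.sqrt_le_iff.2 ⟨by norm_num, by norm_num⟩
  rw [g5, abs_neg, abs_of_nonneg (by positivity), mul_assoc (2 * (4 + (L : ℝ)))]
  gcongr

lemma fb (hM : MeqS) (hT : TetS) (h : IsLeaf a b u) (hE : EdgeExt a b u ζ L) {k C ρ R : ℝ}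
    (hk : 1 < k) (H : UpB a b u k C ρ) (hR0 : 0 < R) (hR1 : R ≤ 1 / 2) (hR2 : (5 + 2 * L) * R < ρ)
    {y : P2} (hy : y ∈ HE a b) (h1 : |y.1| ≤ 3 * R) (h2 : |y.2| ≤ 2 * R) :
    |ζ y + y.2| ≤ 2 * (4 + L) * (C * (5 + 2 * L) ^ k) * R ^ k := by
  rcases lt_trichotomy y.2 0 with h3 | h3 | h3
  · exact fb_neg hM hT h hE hk H hR0 hR1 hR2 hy h1 h2 h3
  · have e : ζ y = 0 := by rw [← zeta_zero hE y.1, ← h3]
    have := H.1
    rw [e, h3, add_zero, abs_zero]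
    positivity
  · have := fb_neg hM hT h hE hk H hR0 hR1 hR2 (y := (y.1, -y.2))
      ⟨hy.1, by simpa using hy.2⟩ h1 (by simpa using h2) (neg_lt_zero.2 h3)
    rwa [hE.odd, ← neg_add, abs_neg] at this

end EQdec

end Pool.Agent.Lib.MP_16d934_gt
end
end

-- part Pool.Agent.Lib.MP_16d934_gt.EQdec
section

/-! Decay of the normal of a leaf at the vertices `vQ`. -/

set_option autoImplicit false

open Set Metric Filter Topology MeasureTheory Asymptotics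
open scoped ContDiff InnerProductSpace NNReal Real

noncomputable section

namespace Pool.Agent.Lib.MP_16d934_gt

namespace EQdec

variable {a b : ℝ} {u ζ : P2 → ℝ} {L : ℝ≥0}

lemma coords (hM : MeqS) (hT : TetS) (h : IsLeaf a b u) {x : P2} (hx : x ∈ Rho a b)
    (h1 : 0 ≤ x.1) (h2 : 0 ≤ x.2) {R : ℝ} (hR0 : 0 < R) (hR1 : R ≤ 1 / 2) (hRx : RR u x = R)
    (hq2 : hq (hA b) (gX O0 u x) ≤ R / 4) (hp2 : hp (hA a) (gX O0 u x) ≤ R / 4) :
    ∃ (y : P2) (z l : ℝ), 0 < l ∧ l ≤ 2 ∧ R / 2 ≤ y.1 ∧ y.1 ≤ 2 * R ∧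
      y.2 = -(l * (hp (hA a) (gX O0 u x) + hq (hA b) (gX O0 u x))) ∧
      z + y.2 = -(2 * l * hq (hA b) (gX O0 u x)) ∧ gX O0 u x = OG (hA a) (hA b) (gn y z) := by
  obtain ⟨cA, sA, -⟩ := sin_hA hT h.apos
  obtain ⟨n1, n2⟩ := near hM hT h hx h1 h2 (hRx ▸ hR1) (by rw [hRx]; linarith)
  obtain ⟨-, s1, s2', s3⟩ := signs hT h hx h1 h2
  have p0 := hp_nonneg hT h hx
  have hRs := RR_sq hM h hx
  obtain ⟨w, hw⟩ : ∃ w, OG (hA a) (hA b) w = gX O0 u x := (OG (hA a) (hA b)).surjective _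
  have hwn : ‖w‖ = 1 := by rw [← (OG (hA a) (hA b)).norm_map, hw]; exact (unit hM h hx).1
  obtain ⟨c0, c1, c2, c3, c4⟩ := OG_c (hA a) (hA b) w
  rw [hw] at c0 c1 c2 c3 c4
  have ep : hp (hA a) (gX O0 u x) = (√2)⁻¹ * (w 3 - w 2) := by rw [hp, abs_of_nonneg s3, c2]
  have eq : hq (hA b) (gX O0 u x) = -((√2)⁻¹ * (w 2 + w 3)) := by rw [hq, abs_of_nonneg s1, c3]
  rw [c0] at n1 n2
  have w0 : 0 < w 0 := by linarith
  have w1 : 0 ≤ w 1 := by rw [← c1]; positivity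
  have e1 : w 1 ^ 2 + hp (hA a) (gX O0 u x) ^ 2 = R ^ 2 := by
    rw [← hRx, hRs, c4, ep]
    linear_combination (w 3 - w 2) ^ 2 * h2'
  have w11 : w 1 ≤ R :=
    (abs_le_of_sq_le_sq' (by linarith [sq_nonneg (hp (hA a) (gX O0 u x))]) hR0.le).2
  have w12 : R / 2 ≤ w 1 := by
    have : hp (hA a) (gX O0 u x) ^ 2 ≤ (R / 4) ^ 2 := by gcongr
    exact (abs_le_of_sq_le_sq' (by linarith [sq_nonneg R]) w1).2
  refine ⟨(w 1 / w 0, w 2 / w 0), w 3 / w 0, (√2)⁻¹ / w 0, by positivity, ?_,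
    w12.trans (le_div_self w1 w0 n2), ?_, ?_, ?_, by rw [gn_coord hwn w0, hw]⟩
  · rw [div_le_iff₀ w0]
    have : (√2)⁻¹ ≤ 1 := inv_le_one_of_one_le₀ (Real.one_le_sqrt.2 (by norm_num))
    linarith
  · change w 1 / w 0 ≤ _
    rw [div_le_iff₀ w0]
    linarith [mul_le_mul_of_nonneg_left n1 hR0.le]
  · rw [ep, eq]
    change w 2 / w 0 = _
    field_simp
    rw [Real.sq_sqrt (by norm_num)]
    ring
  · rw [eq]
    change _ + w 2 / w 0 = _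
    field_simp
    rw [Real.sq_sqrt (by norm_num)]
    ring

lemma edge (hR : RegS) (hC : CWS) (hI : IntS) (hD : DerS) (hM : MeqS) (hT : TetS)
    (h : IsLeaf a b u) (hE : EdgeExt a b u ζ L) {k C ρ s : ℝ} (hk : 1 < k) (H : UpB a b u k C ρ)
    (hs : 0 < s) : ∃ α > 0, ∃ C', 0 ≤ C' ∧ ∀ᶠ R in 𝓝[>] (0 : ℝ), ∀ x ∈ Rho a b, 0 ≤ x.1 → 0 ≤ x.2 →
      RR u x = R → hp (hA a) (gX O0 u x) ≤ α * R → ∃ (y : P2) (l : ℝ), 0 < l ∧ l ≤ 2 ∧ ‖y‖ ≤ 1 ∧
        y.2 < 0 ∧ y.2 = -(l * (hp (hA a) (gX O0 u x) + hq (hA b) (gX O0 u x))) ∧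
        ζ y + y.2 = -(2 * l * hq (hA b) (gX O0 u x)) ∧ gN O0 u x = gN (OG (hA a) (hA b)) ζ y ∧
        ∀ z ∈ ball y (α * R / 4), z ∈ HE a b ∧ |d1 ζ z| ≤ C' * R ^ (k - 1 - s) ∧
          |d2 ζ z + 1| ≤ C' * R ^ (k - 1 - s) ∧ |d2 (d2 ζ) z| ≤ C' * R ^ (k - 2 - 2 * s) := by
  have ha := h.apos
  have hb := h.bpos
  obtain ⟨α, hα0, hα1, hα2⟩ : ∃ α > 0, α ≤ 1 / 4 ∧ α ≤ a / 40 :=
    ⟨min (1 / 4) (a / 40), by positivity, min_le_left _ _, min_le_right _ _⟩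
  obtain ⟨C3, hC3, hdec⟩ := decay hR hC hI hD L (2 + L) k
    (C0 := 2 * (4 + L) * (C * (5 + 2 * L) ^ k)) hα0 hs (by have := H.1; positivity)
  refine ⟨α, hα0, C3, hC3, ?_⟩
  filter_upwards [hdec, ev_pos, ev_lt one_half_pos, ev_hq hk H hα0, ev_lin (5 + 2 * L) H.2.1,
    ev_lin (5 * α) (half_pos hb)] with R hdec hR0 hR1 hq1 hR2 hR3 x hx h1 h2 hRx hα'
  have hq2 := hq1 x hx hRx
  have hαR : α * R ≤ R / 4 := by linarith [mul_le_mul_of_nonneg_right hα1 hR0.le]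
  have hαR2 : α * R ≤ a / 40 * R := mul_le_mul_of_nonneg_right hα2 hR0.le
  have hαR0 : 0 < α * R := mul_pos hα0 hR0
  have p0 := hp_nonneg hT h hx
  have q0 := hq_nonneg hT h hx
  obtain ⟨y, z0, l, l0, l1, y11, y12, y2, z2, hX⟩ :=
    coords hM hT h hx h1 h2 hR0 hR1.le hRx (hq2.trans hαR) (hα'.trans hαR)
  have y21 : |y.2| ≤ 4 * (α * R) := by
    rw [y2, abs_neg, abs_of_nonneg (by positivity)]
    linarith [mul_le_mul_of_nonneg_right l1 (add_nonneg p0 q0)]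
  have hball : ∀ z ∈ ball y (α * R), z ∈ HE a b ∧ |z.1| ≤ 3 * R ∧ |z.2| ≤ 2 * R := by
    intro z hz
    rw [mem_ball, dist_eq_norm] at hz
    have z1 := abs_lt.1 ((show |z.1 - y.1| ≤ ‖z - y‖ from norm_fst_le (z - y)).trans_lt hz)
    have z3 : |z.2| < 5 * (α * R) := by
      have := abs_sub_abs_le_abs_sub z.2 y.2
      linarith [show |z.2 - y.2| ≤ ‖z - y‖ from norm_snd_le (z - y)]
    have z4 : R / 4 ≤ z.1 := by linarith [z1.1]
    refine ⟨⟨by linarith, ?_⟩, abs_le.2 ⟨by linarith, by linarith [z1.2]⟩, by linarith⟩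
    rw [lt_div_iff₀ two_pos, lt_min_iff]
    exact ⟨by linarith, by linarith [mul_le_mul_of_nonneg_left z4 ha.le]⟩
  have hyH := (hball y (mem_ball_self hαR0)).1
  obtain ⟨v1, v2⟩ := hE.conv x hx y hyH _ hX h1 h2
  obtain ⟨x', -, -, -, v3, v4⟩ := hE.mem y hyH v1
  have v5 : x' = x := by
    rw [gX, gX, ← v2, ← hX] at v3
    exact (hT.inj O0 _ _ _ _ v3).1
  refine ⟨y, l, l0, l1, norm_prod_le_iff.2 ⟨abs_le.2 ⟨by linarith, by linarith⟩,
    y21.trans (by linarith)⟩, v1, y2, v2 ▸ z2, v5 ▸ v4, fun z hz => ?_⟩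
  have hsub : ball y (α * R) ⊆ HE a b := fun z hz => (hball z hz).1
  have := hdec ζ 0 (-1) y ⟨hE.sol.1.mono hsub, fun z hz => hE.sol.2 z (hsub hz)⟩
    (hE.lip.mono hsub) (fun z hz => by
      obtain ⟨b1, b2, b3⟩ := hball z hz
      have hL : (0 : ℝ) ≤ L := L.2
      refine ⟨norm_prod_le_iff.2 ⟨b2.trans (by linarith), b3.trans (by linarith)⟩,
        (abs_zeta hE b1).trans ?_, ?_⟩
      · have : L * |z.2| ≤ L * 1 := by gcongr; linarith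
        linarith
      · simpa using fb hM hT h hE hk H hR0 hR1.le hR2 b1 b2 b3) z hz
  rw [sub_neg_eq_add] at this
  exact ⟨hsub (ball_subset_ball (by linarith) hz), this⟩

lemma one_lt_k (hT : TetS) (ha : 0 < a) : 1 < π / (2 * hA a) := by
  obtain ⟨h1, h2, -⟩ := hT.ang.1 a ha
  rw [lt_div_iff₀ (by positivity)]
  linarith

lemma ex_ext (hE : EdgeS) (h : IsLeaf a b u) : ∃ ζ L, EdgeExt a b u ζ L := by
  obtain ⟨L, H⟩ := hE (min a b) (lt_min h.apos h.bpos)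
  obtain ⟨ζ, H1, -⟩ := H a b u (min_le_left _ _) (min_le_right _ _) h
  exact ⟨ζ, L, H1⟩

lemma nw_up (hR : RegS) (hC : CWS) (hI : IntS) (hD : DerS) (hM : MeqS) (hT : TetS) (hRa : RadoS)
    (hE : EdgeS) (hQ : QbarS) (h : IsLeaf a b u) {κ : ℝ} (h0 : 0 ≤ κ)
    (hκ : κ < π / (2 * hA a) - 1) : ∃ C, 0 ≤ C ∧ ∀ᶠ R in 𝓝[>] (0 : ℝ), ∀ x ∈ Rho a b, 0 ≤ x.1 →
      0 ≤ x.2 → RR u x = R → nw (gN O0 u x) ≤ C * (R ^ κ) ^ 2 := by
  obtain ⟨δ, hδ0, hδ⟩ : ∃ δ > 0, π / (2 * hA a) - δ - 1 - δ = κ :=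
    ⟨(π / (2 * hA a) - 1 - κ) / 2, by linarith, by ring⟩
  have hk : 1 < π / (2 * hA a) - δ := by linarith
  obtain ⟨C, ρ, H⟩ := upB hRa hQ h (k := π / (2 * hA a) - δ) (by linarith)
  obtain ⟨ζ, L, hζ⟩ := ex_ext hE h
  obtain ⟨α, hα, C1, hC1, e1⟩ := edge hR hC hI hD hM hT h hζ hk H hδ0
  obtain ⟨C2, e2⟩ := cen hR hC hI hD hM hT hRa h hk H hδ0 hα
  rw [hδ] at e1 e2
  refine ⟨max C2 (2 * C1 ^ 2), le_max_of_le_right (by positivity), ?_⟩
  filter_upwards [e1, e2, ev_pos] with R e1 e2 hR0 x hx h1 h2 hRx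
  rcases le_total (α * R) (hp (hA a) (gX O0 u x)) with h3 | h3
  · exact (e2 x hx h1 h2 hRx h3).trans (by gcongr; exact le_max_left _ _)
  · obtain ⟨y, l, -, -, -, -, -, -, g1, g2⟩ := e1 x hx h1 h2 hRx h3
    obtain ⟨-, g3, g4, -⟩ := g2 y (mem_ball_self (by positivity))
    rw [g1, nw_gNG]
    refine (div_le_self (by positivity) (one_le_WW _ _ _ _)).trans ?_
    refine le_trans ?_ (mul_le_mul_of_nonneg_right (le_max_right _ _) (by positivity))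
    have g5 : |d1 ζ y| ^ 2 ≤ (C1 * R ^ κ) ^ 2 := by gcongr
    have g6 : |d2 ζ y + 1| ^ 2 ≤ (C1 * R ^ κ) ^ 2 := by gcongr
    rw [sq_abs, mul_pow] at g5 g6
    linarith [sq_nonneg (d2 ζ y + 1)]

lemma far (hM : MeqS) (hT : TetS) (hRa : RadoS) (h : IsLeaf a b u) {x : P2} (hx : x ∈ Rho a b)
    (h1 : 0 ≤ x.1) (h2 : 0 ≤ x.2) :
    (hq (hA b) (gX O0 u x) * Real.sin (hA b)) ^ 2 * (1 - nw (gN O0 u x)) ≤
      nw (gN O0 u x) * RR u x ^ 2 := by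
  obtain ⟨cB, sB, -⟩ := sin_hA hT h.bpos
  obtain ⟨s0, s1, -, -⟩ := signs hT h hx h1 h2
  obtain ⟨-, u2, u3⟩ := unit hM h hx
  have r1 := (hRa.rado a b u h x hx).2.2.1
  have r2 := (hRa.cone a b u h x hx).1 h2
  have q0 := hq_nonneg hT h hx
  have e0 := unit_sq u2
  rw [RR_sq hM h hx]
  rw [inner4] at u3 r1 r2
  simp only [vQ, Real.cos_add_pi_div_two, Real.sin_add_pi_div_two] at r1 r2
  set X := gX O0 u x
  set n := gN O0 u x
  have r1' : n 0 * Real.cos (hA b) + n 1 * Real.sin (hA b) < 0 := by simpa using r1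
  have r2' : Real.sin (hA b) * √(aa n) ≤ -(n 0 * Real.sin (hA b)) + n 1 * Real.cos (hA b) := by
    simpa using r2
  have e1 : n 2 * X 2 + n 3 * X 3 =
      (Real.cos (hA b) * X 0 + Real.sin (hA b) * X 1) *
        -(n 0 * Real.cos (hA b) + n 1 * Real.sin (hA b)) +
      hq (hA b) X * (-(n 0 * Real.sin (hA b)) + n 1 * Real.cos (hA b)) := by
    rw [hq, abs_of_nonneg s1]
    linear_combination u3 + (n 0 * X 0 + n 1 * X 1) * Real.sin_sq_add_cos_sq (hA b)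
  have g1 : hq (hA b) X * (Real.sin (hA b) * √(aa n)) ≤ n 2 * X 2 + n 3 * X 3 := by
    rw [e1]
    have := mul_nonneg (by positivity : 0 ≤ Real.cos (hA b) * X 0 + Real.sin (hA b) * X 1)
      (neg_nonneg.2 r1'.le)
    linarith [mul_le_mul_of_nonneg_left r2' q0]
  have g2 : (hq (hA b) X * (Real.sin (hA b) * √(aa n))) ^ 2 ≤ (n 2 * X 2 + n 3 * X 3) ^ 2 := by
    gcongr
  have g3 : (n 2 * X 2 + n 3 * X 3) ^ 2 ≤ nw n * nw X := by
    unfold nw; linarith [sq_nonneg (n 2 * X 3 - n 3 * X 2)]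
  rw [← mul_assoc, mul_pow, Real.sq_sqrt (by unfold aa; positivity)] at g2
  rw [show 1 - nw n = aa n by linarith]
  exact g2.trans g3

lemma WW_le {y : P2} {z p q C Z : ℝ} (hy : ‖y‖ ≤ 1) (hz : |z| ≤ Z) (hp : |p| ≤ C)
    (hq : |q + 1| ≤ C) : WW y z p q ^ 2 ≤ 1 + C ^ 2 + (C + 1) ^ 2 + (Z + C + (C + 1)) ^ 2 := by
  have y1 : |y.1| ≤ 1 := (norm_fst_le y).trans hy
  have y2 : |y.2| ≤ 1 := (norm_snd_le y).trans hy
  have q1 : |q| ≤ C + 1 := by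
    have := abs_sub (q + 1) 1
    rw [add_sub_cancel_right, abs_one] at this
    linarith
  have t1 : |y.1 * p| ≤ C := by
    rw [abs_mul]; exact (mul_le_of_le_one_left (abs_nonneg _) y1).trans hp
  have t2 : |y.2 * q| ≤ C + 1 := by
    rw [abs_mul]; exact (mul_le_of_le_one_left (abs_nonneg _) y2).trans q1
  have t3 : |z - y.1 * p - y.2 * q| ≤ Z + C + (C + 1) := by
    linarith [abs_sub (z - y.1 * p) (y.2 * q), abs_sub z (y.1 * p)]
  rw [WW_sq, ← sq_abs p, ← sq_abs q, ← sq_abs (z - _ - _)]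
  gcongr

lemma slope_edge (hD : DerS) (hE : EdgeExt a b u ζ L) {y : P2} {r c M : ℝ} (hy : y.2 < 0)
    (hr : -y.2 < r) (hc : ζ y + y.2 ≤ c * y.2)
    (H : ∀ z ∈ ball y r, z ∈ HE a b ∧ |d2 (d2 ζ) z| ≤ M) : c - M * -y.2 ≤ d2 ζ y + 1 := by
  have hm : ∀ τ ∈ Icc y.2 0, (y.1, τ) ∈ ball y r := fun τ hτ => by
    rw [mem_ball, Prod.dist_eq, dist_self, Real.dist_eq, abs_of_nonneg (sub_nonneg.2 hτ.1)]
    exact max_lt (by linarith) (by linarith [hτ.2])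
  exact slope_low (g := fun τ => ζ (y.1, τ) + τ) (g' := fun τ => d2 ζ (y.1, τ) + 1)
    (g'' := fun τ => d2 (d2 ζ) (y.1, τ)) hy
    (fun τ hτ => (hasDeriv_d2 (hE.sol.1 _ (H _ (hm τ hτ)).1).differentiableAt).add
      (hasDerivAt_id τ))
    (fun τ hτ => (hasDeriv_d2
      (hD _ _ (hE.sol.1 _ (H _ (hm τ hτ)).1)).2.1.differentiableAt).add_const 1)
    (fun τ hτ => (H _ (hm τ hτ)).2) (by rw [zeta_zero hE, add_zero]) hc

lemma nw_lo (hR : RegS) (hC : CWS) (hI : IntS) (hD : DerS) (hM : MeqS) (hT : TetS) (hRa : RadoS)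
    (hE : EdgeS) (hQ : QbarS) (h : IsLeaf a b u) {κ : ℝ} (hκ : π / (2 * hA a) - 1 < κ) :
    ∃ c > 0, ∀ᶠ R in 𝓝[>] (0 : ℝ), ∀ x ∈ Rho a b, 0 ≤ x.1 →
      0 ≤ x.2 → RR u x = R → c * (R ^ κ) ^ 2 ≤ nw (gN O0 u x) := by
  have hk0 := one_lt_k hT h.apos
  obtain ⟨cB, sB, -⟩ := sin_hA hT h.bpos
  obtain ⟨δ, hδ0, hδ1, hδ2⟩ : ∃ δ > 0, δ ≤ (π / (2 * hA a) - 1) / 2 ∧
      δ ≤ (κ - π / (2 * hA a) + 1) / 6 :=
    ⟨min _ _, lt_min (by linarith) (by linarith), min_le_left _ _, min_le_right _ _⟩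
  have hk : 1 < π / (2 * hA a) - δ := by linarith
  obtain ⟨C, ρ, H⟩ := upB hRa hQ h (k := π / (2 * hA a) - δ) (by linarith)
  obtain ⟨ζ, L, hζ⟩ := ex_ext hE h
  obtain ⟨α, hα, C1, hC1, e1⟩ := edge hR hC hI hD hM hT h hζ hk H hδ0
  obtain ⟨c1, hc1, ρ1, hρ1, e2⟩ := hQ.lo a b u h (π / (2 * hA a) + δ) (by linarith)
  generalize π / (2 * hA a) = k at *
  obtain ⟨W, hW⟩ : ∃ W, W = 1 + C1 ^ 2 + (C1 + 1) ^ 2 + (L + C1 + (C1 + 1)) ^ 2 := ⟨_, rfl⟩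
  have hW0 : 0 < W := by rw [hW]; positivity
  refine ⟨min ((c1 / 2 * Real.sin (hA b)) ^ 2 / 2) ((c1 / 2) ^ 2 / 2 / W), by positivity, ?_⟩
  filter_upwards [e1, ev_pos, ev_lt one_pos, ev_lt (Real.sqrt_pos.2 hρ1),
    ev_rpow c1 (by linarith : 0 < k + δ - 1) one_pos,
    ev_rpow (c1 / 2 * Real.sin (hA b)) (by linarith : 0 < κ) one_pos,
    ev_rpow 1 (by linarith : 0 < 5 * δ) (by positivity : 0 < α / 16),
    ev_rpow (2 * C1) hδ0 (half_pos hc1)] with R e1 hR0 hR1 hR2 hR3 hR4 hR5 hR6 x hx h1 h2 hRx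
  have p0 := hp_nonneg hT h hx
  have q0 := hq_nonneg hT h hx
  have r0 := one_sub_pos hRa h hx
  have b1 := e2 x hx ((Real.sqrt_lt_sqrt_iff r0.le).1 (hRx.trans_lt hR2))
  rw [rpow_half r0.le, ← RR, hRx] at b1
  have b2 : c1 * R ^ (k + δ - 1) * (hp (hA a) (gX O0 u x) + hq (hA b) (gX O0 u x)) ≤
      2 * hq (hA b) (gX O0 u x) := by
    linarith [mul_le_of_le_one_left q0 hR3.le]
  have hκ0 : 0 < R ^ κ := by positivity
  rcases le_total (R ^ (5 * δ) * R) (hp (hA a) (gX O0 u x) + hq (hA b) (gX O0 u x)) with h3 | h3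
  · have g1 : R ^ κ ≤ R ^ (k + δ - 1) * R ^ (5 * δ) := by
      rw [← Real.rpow_add hR0]
      exact Real.rpow_le_rpow_of_exponent_ge hR0 hR1.le (by linarith)
    have g2 : c1 / 2 * R ^ κ * R ≤ hq (hA b) (gX O0 u x) := by
      have : c1 * R ^ κ * R ≤ c1 * R ^ (k + δ - 1) * (R ^ (5 * δ) * R) := by
        rw [mul_assoc c1 (R ^ (k + δ - 1)), ← mul_assoc (R ^ (k + δ - 1)), ← mul_assoc c1]
        gcongr
      linarith [mul_le_mul_of_nonneg_left h3 (by positivity : 0 ≤ c1 * R ^ (k + δ - 1))]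
    have g3 := far hM hT hRa h hx h1 h2
    have n0 := nw_nonneg (gN O0 u x)
    have n1 : 0 ≤ 1 - nw (gN O0 u x) := by
      have := unit_sq (unit hM h hx).2.1
      have : 0 ≤ aa (gN O0 u x) := by unfold aa; positivity
      linarith
    have g4 : (c1 / 2 * Real.sin (hA b) * R ^ κ) ^ 2 * (1 - nw (gN O0 u x)) ≤ nw (gN O0 u x) := by
      refine le_of_mul_le_mul_right (le_trans ?_ (hRx ▸ g3)) (pow_pos hR0 2)
      calc _ = (c1 / 2 * R ^ κ * R * Real.sin (hA b)) ^ 2 * (1 - nw (gN O0 u x)) := by ring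
        _ ≤ _ := by gcongr
    have g5 : (c1 / 2 * Real.sin (hA b) * R ^ κ) ^ 2 ≤ 1 :=
      pow_le_one₀ (by positivity) hR4.le
    refine (mul_le_mul_of_nonneg_right (min_le_left _ _) (by positivity)).trans ?_
    rw [mul_pow] at g4 g5
    linarith [mul_le_of_le_one_left n0 g5]
  · have g1 : R ^ (5 * δ) * R ≤ α / 16 * R := by gcongr; linarith
    have hαR := mul_pos hα hR0
    obtain ⟨y, l, l0, l1, y0, y1, y2, y3, y4, y5⟩ := e1 x hx h1 h2 hRx (by linarith)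
    have g2 : -y.2 ≤ 2 * (R ^ (5 * δ) * R) := by
      rw [y2, neg_neg]; gcongr
    have g3 := slope_edge hD hζ (r := α * R / 4) (c := c1 * R ^ (k + δ - 1)) y1 (by linarith)
      (by rw [y3, y2]; linarith [mul_le_mul_of_nonneg_left b2 l0.le])
      fun z hz => ⟨(y5 z hz).1, (y5 z hz).2.2.2⟩
    have g4 : C1 * R ^ (k - δ - 2 - 2 * δ) * -y.2 ≤ c1 / 2 * R ^ (k + δ - 1) := by
      have e : R ^ (k - δ - 2 - 2 * δ) * (R ^ (5 * δ) * R) = R ^ δ * R ^ (k + δ - 1) := by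
        rw [← Real.rpow_add_one hR0.ne', ← Real.rpow_add hR0, ← Real.rpow_add hR0]
        congr 1; ring
      calc _ ≤ C1 * R ^ (k - δ - 2 - 2 * δ) * (2 * (R ^ (5 * δ) * R)) := by gcongr
        _ = 2 * C1 * R ^ δ * R ^ (k + δ - 1) := by linear_combination 2 * C1 * e
        _ ≤ _ := by gcongr
    have g5 : c1 / 2 * R ^ κ ≤ d2 ζ y + 1 := by
      have : R ^ κ ≤ R ^ (k + δ - 1) := Real.rpow_le_rpow_of_exponent_ge hR0 hR1.le (by linarith)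
      linarith [mul_le_mul_of_nonneg_left this (half_pos hc1).le]
    obtain ⟨t0, t1, t2, -⟩ := y5 y (mem_ball_self (by positivity))
    have t3 : C1 * R ^ (k - δ - 1 - δ) ≤ C1 :=
      mul_le_of_le_one_right hC1 (Real.rpow_le_one hR0.le hR1.le (by linarith))
    have t4 := WW_le y0 ((abs_zeta hζ t0).trans
      (mul_le_of_le_one_right L.2 ((norm_snd_le y).trans y0))) (t1.trans t3) (t2.trans t3)
    have t5 := one_le_WW y (ζ y) (d1 ζ y) (d2 ζ y)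
    refine (mul_le_mul_of_nonneg_right (min_le_right _ _) (by positivity)).trans ?_
    rw [y4, nw_gNG]
    calc _ = (c1 / 2 * R ^ κ) ^ 2 / 2 / W := by ring
      _ ≤ (d1 ζ y ^ 2 + (d2 ζ y + 1) ^ 2 / 2) / W := by
        have : (c1 / 2 * R ^ κ) ^ 2 ≤ (d2 ζ y + 1) ^ 2 := by gcongr
        gcongr
        linarith [sq_nonneg (d1 ζ y)]
      _ ≤ _ := by gcongr; exact hW ▸ t4

lemma red (hM : MeqS) (hT : TetS) (hRa : RadoS) (h : IsLeaf a b u) {Φ : ℝ → ℝ → Prop}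
    (H : ∀ᶠ R in 𝓝[>] (0 : ℝ), ∀ x ∈ Rho a b, 0 ≤ x.1 → 0 ≤ x.2 → RR u x = R →
      Φ R (nw (gN O0 u x))) : ∃ ρ > 0, ∀ y ∈ Rho a b, 1 - aa (gX O0 u y) < ρ →
      1 - aa (gX O0 u y) ≤ 1 ∧ ∃ N, Φ √(1 - aa (gX O0 u y)) N ∧
        N ≤ 1 - u12 (gX O0 u y) (gN O0 u y) ^ 2 / aa (gX O0 u y) ∧
        1 - u12 (gX O0 u y) (gN O0 u y) ^ 2 / aa (gX O0 u y) ≤ 2 * N := by
  obtain ⟨ρ, hρ, H1⟩ := of_ev H
  refine ⟨min ρ (1 / 2), by positivity, fun y hy hr => ?_⟩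
  obtain ⟨r1, r2⟩ := lt_min_iff.1 hr
  obtain ⟨x, hx, x1, x2, e1, e2⟩ := sym hT h hy
  obtain ⟨u1, u2, u3⟩ := unit hM h hx
  refine ⟨by linarith, _, H1 _ (one_sub_pos hRa h hy) r1 x hx x1 x2 (by rw [RR, e1]), ?_⟩
  rw [← e1, ← e2]
  exact key_bounds u1 u2 u3 (by linarith)

end EQdec

open EQdec in
theorem qdecS (hR : RegS) (hC : CWS) (hI : IntS) (hD : DerS) (hM : MeqS) (hT : TetS)
    (hRa : RadoS) (hE : EdgeS) (hQ : QbarS) : QdecS where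
  up a b u h κ hκ := by
    obtain ⟨C, hC0, H⟩ := nw_up hR hC hI hD hM hT hRa hE hQ h (le_max_right κ 0)
      (max_lt hκ (sub_pos.2 (one_lt_k hT h.apos)))
    obtain ⟨ρ, hρ, H1⟩ := red hM hT hRa h (Φ := fun R N => N ≤ C * (R ^ max κ 0) ^ 2) H
    refine ⟨2 * C, ρ, hρ, fun y hy hr => ?_⟩
    obtain ⟨g0, N, g1, -, g2⟩ := H1 y hy hr
    have r0 := one_sub_pos hRa h hy
    rw [← rpow_sq r0.le] at g1
    linarith [mul_le_mul_of_nonneg_left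
      (Real.rpow_le_rpow_of_exponent_ge r0 g0 (le_max_left κ 0)) hC0]
  lo a b u h κ hκ := by
    obtain ⟨c, hc, H⟩ := nw_lo hR hC hI hD hM hT hRa hE hQ h hκ
    obtain ⟨ρ, hρ, H1⟩ := red hM hT hRa h (Φ := fun R N => c * (R ^ κ) ^ 2 ≤ N) H
    refine ⟨c, hc, ρ, hρ, fun y hy hr => ?_⟩
    obtain ⟨-, N, g1, g2, -⟩ := H1 y hy hr
    rw [← rpow_sq (one_sub_pos hRa h hy).le] at g1
    exact g1.trans g2

end Pool.Agent.Lib.MP_16d934_gt
end
end
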