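import Pool.Agent.Lib.MP_16d934_gt.StC
import Pool.Agent.Lib.MP_16d934_gt.EMin

/-! Rado's theorem for the leaves, monotonicity and signs. -/

set_option autoImplicit false

open Set Metric Filter Topology
open scoped InnerProductSpace NNReal Real

noncomputable section

namespace Pool.Agent.Lib.MP_16d934_gt

namespace ERado

/-! ### A function with the saddle property on a quadrilateral -/

/-- the part of `D` where `f` is positive -/
def Ps (D : Set P2) (f : P2 → ℝ) : Set P2 := D ∩ {z | 0 < f z}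

/-- `f` is affine on the four sides and has the saddle property -/
structure Cfg (D B : Set P2) (f : P2 → ℝ) (P Q : Bool → P2) : Prop where
  sub : B ⊆ D
  edge : ∀ s t, segment ℝ (P s) (Q t) ⊆ B
  cover : ∀ x ∈ B, ∃ s t, x ∈ segment ℝ (P s) (Q t)
  aff : ∀ s t (α β : ℝ), 0 ≤ α → 0 ≤ β → α + β = 1 →
    f (α • P s + β • Q t) = α * f (P s) + β * f (Q t)
  pos : ∀ x ∈ Ps D f, ∃ x' ∈ B, JoinedIn (Ps D f) x x'
  neg : ∀ x ∈ Ps D (-f), ∃ x' ∈ B, JoinedIn (Ps D (-f)) x x'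
  cross : ∀ A A' : Set P2, A ⊆ D → A' ⊆ D → JoinedIn A (P true) (P false) →
    JoinedIn A' (Q true) (Q false) → Disjoint A A' → False
  sum : f (Q true) + f (Q false) < f (P true) + f (P false)

variable {D B : Set P2} {f : P2 → ℝ} {P Q : Bool → P2} {κ κ' : ℂ → P2}
  {δ δ' β β₁ β₂ β₃ β₄ β₅ β₆ γ₁ γ₂ γ₃ γ₄ : ℝ}

theorem Cfg.symm (h : Cfg D B f P Q) : Cfg D B (-f) Q P where
  sub := h.sub
  edge s t := by rw [segment_symm]; exact h.edge t s
  cover x hx := by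
    obtain ⟨s, t, k⟩ := h.cover x hx
    exact ⟨t, s, by rwa [segment_symm]⟩
  aff s t α β ha hb hab := by
    simp only [Pi.neg_apply]
    rw [add_comm, h.aff t s β α hb ha (by linarith)]
    ring
  pos := h.neg
  neg := by rw [neg_neg]; exact h.pos
  cross A A' k1 k2 k3 k4 k5 := h.cross A' A k2 k1 k4 k3 k5.symm
  sum := by
    simp only [Pi.neg_apply]
    linarith [h.sum]

theorem Cfg.cvx (h : Cfg D B f P Q) (s t : Bool) {S : Set ℝ} (hS : Convex ℝ S) :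
    Convex ℝ (segment ℝ (P s) (Q t) ∩ f ⁻¹' S) := by
  rintro _ ⟨⟨a, b, ha, hb, hab, rfl⟩, h1⟩ _ ⟨⟨a', b', ha', hb', hab', rfl⟩, h2⟩ l m hl hm hlm
  have e : l • (a • P s + b • Q t) + m • (a' • P s + b' • Q t)
      = (l * a + m * a') • P s + (l * b + m * b') • Q t := by module
  have p1 : 0 ≤ l * a + m * a' := by positivity
  have p2 : 0 ≤ l * b + m * b' := by positivity
  have p3 : (l * a + m * a') + (l * b + m * b') = 1 := by
    linear_combination l * hab + m * hab' + hlm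
  rw [e]
  refine ⟨⟨_, _, p1, p2, p3, rfl⟩, ?_⟩
  rw [mem_preimage, h.aff s t _ _ ha hb hab] at h1
  rw [mem_preimage, h.aff s t _ _ ha' hb' hab'] at h2
  rw [mem_preimage, h.aff s t _ _ p1 p2 p3]
  convert hS h1 h2 hl hm hlm using 1
  simp only [smul_eq_mul]
  ring

theorem Cfg.join (h : Cfg D B f P Q) (s t : Bool) {S : Set ℝ} (hS : Convex ℝ S) {x x' : P2}
    (hx : x ∈ segment ℝ (P s) (Q t)) (hx' : x' ∈ segment ℝ (P s) (Q t)) (k : f x ∈ S)
    (k' : f x' ∈ S) : JoinedIn (B ∩ f ⁻¹' S) x x' :=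
  (JoinedIn.of_segment_subset ((h.cvx s t hS).segment_subset ⟨hx, k⟩ ⟨hx', k'⟩)).mono
    (inter_subset_inter_left _ (h.edge s t))

theorem Cfg.toV (h : Cfg D B f P Q) {S : Set ℝ} (hS : Convex ℝ S) (hS' : Convex ℝ Sᶜ) {x : P2}
    (hx : x ∈ B ∩ f ⁻¹' S) : (∃ s, JoinedIn (B ∩ f ⁻¹' S) x (P s)) ∨
      ∃ t, JoinedIn (B ∩ f ⁻¹' S) x (Q t) := by
  obtain ⟨s, t, k⟩ := h.cover x hx.1
  by_cases h1 : f (P s) ∈ S
  · exact Or.inl ⟨s, h.join s t hS k (left_mem_segment _ _ _) hx.2 h1⟩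
  by_cases h2 : f (Q t) ∈ S
  · exact Or.inr ⟨t, h.join s t hS k (right_mem_segment _ _ _) hx.2 h2⟩
  exact absurd hx.2 ((h.cvx s t hS').segment_subset ⟨left_mem_segment _ _ _, h1⟩
    ⟨right_mem_segment _ _ _, h2⟩ k).2

theorem Cfg.adj (h : Cfg D B f P Q) (s t : Bool) {S : Set ℝ} (hS : Convex ℝ S)
    (k : f (P s) ∈ S) (k' : f (Q t) ∈ S) : JoinedIn (B ∩ f ⁻¹' S) (P s) (Q t) :=
  h.join s t hS (left_mem_segment _ _ _) (right_mem_segment _ _ _) k k'

theorem all_of_ne {p : Bool → Prop} {s s' : Bool} (h : s ≠ s') (k : p s) (k' : p s') :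
    ∀ r, p r := by
  intro r
  cases s <;> cases s' <;> cases r <;> simp_all

theorem Cfg.conn (h : Cfg D B f P Q) {S : Set ℝ} (hS : Convex ℝ S) (hS' : Convex ℝ Sᶜ)
    (h1 : (∀ s, f (P s) ∈ S) → ∃ t, f (Q t) ∈ S) (h2 : (∀ t, f (Q t) ∈ S) → ∃ s, f (P s) ∈ S)
    {x x' : P2} (hx : x ∈ B ∩ f ⁻¹' S) (hx' : x' ∈ B ∩ f ⁻¹' S) :
    JoinedIn (B ∩ f ⁻¹' S) x x' := by
  rcases h.toV hS hS' hx with ⟨s, k⟩ | ⟨t, k⟩ <;> rcases h.toV hS hS' hx' with ⟨s', k'⟩ | ⟨t', k'⟩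
  · by_cases e : s = s'
    · subst e
      exact k.trans k'.symm
    · obtain ⟨t, ht⟩ := h1 (all_of_ne (p := fun s => f (P s) ∈ S) e k.target_mem.2 k'.target_mem.2)
      exact ((k.trans (h.adj s t hS k.target_mem.2 ht)).trans
        (h.adj s' t hS k'.target_mem.2 ht).symm).trans k'.symm
  · exact (k.trans (h.adj s t' hS k.target_mem.2 k'.target_mem.2)).trans k'.symm
  · exact (k.trans (h.adj s' t hS k'.target_mem.2 k.target_mem.2).symm).trans k'.symm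
  · by_cases e : t = t'
    · subst e
      exact k.trans k'.symm
    · obtain ⟨s, hs⟩ := h2 (all_of_ne (p := fun t => f (Q t) ∈ S) e k.target_mem.2 k'.target_mem.2)
      exact ((k.trans (h.adj s t hS hs k.target_mem.2).symm).trans
        (h.adj s t' hS hs k'.target_mem.2)).trans k'.symm

theorem norm_cis (β : ℝ) : ‖cis β‖ = 1 := Complex.norm_exp_ofReal_mul_I β

theorem cis_per (β : ℝ) : cis (β + 2 * π) = cis β := by
  unfold cis
  push_cast
  rw [add_mul, Complex.exp_add, Complex.exp_two_pi_mul_I, mul_one]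

theorem norm_ray {s : ℝ} (hs : 0 ≤ s) (β : ℝ) : ‖(s : ℂ) * cis β‖ = s := by
  rw [norm_mul, norm_cis, mul_one, Complex.norm_real, Real.norm_of_nonneg hs]

theorem ray_mem {s δ : ℝ} (hs : s ∈ Icc 0 δ) (β : ℝ) : (s : ℂ) * cis β ∈ closedBall (0 : ℂ) δ := by
  rw [mem_closedBall_zero_iff, norm_ray hs.1]
  exact hs.2

/-- a small disc around an inner zero of `f` -/
structure Sp (D B : Set P2) (f : P2 → ℝ) (κ : ℂ → P2) (δ : ℝ) : Prop where
  pos : 0 < δ
  cont : Continuous κ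
  inj : Function.Injective κ
  maps : ∀ z ∈ closedBall (0 : ℂ) δ, κ z ∈ D ∧ κ z ∉ B
  zero : f (κ 0) = 0

theorem Sp.symm (h : Sp D B f κ δ) : Sp D B (-f) κ δ :=
  ⟨h.pos, h.cont, h.inj, h.maps, by simp [h.zero]⟩

/-- `f` is positive along a ray -/
def Sg (f : P2 → ℝ) (κ : ℂ → P2) (δ β : ℝ) : Prop := ∀ s ∈ Ioc 0 δ, 0 < f (κ (s * cis β))

/-- four rays with alternating signs -/
structure Fo (f : P2 → ℝ) (κ : ℂ → P2) (δ β₁ β₂ β₃ β₄ : ℝ) : Prop where
  b12 : β₁ < β₂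
  b23 : β₂ < β₃
  b34 : β₃ < β₄
  b41 : β₄ < β₁ + 2 * π
  s1 : Sg f κ δ β₁
  s2 : Sg (-f) κ δ β₂
  s3 : Sg f κ δ β₃
  s4 : Sg (-f) κ δ β₄

theorem Fo.symm (h : Fo f κ δ β₁ β₂ β₃ β₄) : Fo (-f) κ δ β₂ β₃ β₄ (β₁ + 2 * π) where
  b12 := h.b23
  b23 := h.b34
  b34 := h.b41
  b41 := by linarith [h.b12]
  s1 := h.s2
  s2 := by rw [neg_neg]; exact h.s3
  s3 := h.s4
  s4 := by
    rw [neg_neg]
    intro s hs
    rw [cis_per]
    exact h.s1 s hs

theorem Sp.tip (h : Sp D B f κ δ) (k : Sg f κ δ β) : κ (δ * cis β) ∈ Ps D f :=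
  ⟨(h.maps _ (ray_mem ⟨h.pos.le, le_rfl⟩ β)).1, k δ ⟨h.pos, le_rfl⟩⟩

theorem Sp.spoke (h : Sp D B f κ δ) (k : Sg f κ δ β) {x : P2} (hx : x ∈ spoke κ δ β) :
    x ∉ B ∧ 0 ≤ f x ∧ x ∈ Ps D f ∪ {κ 0} := by
  obtain ⟨s, hs, rfl⟩ := hx
  have := h.maps _ (ray_mem hs β)
  rcases hs.1.eq_or_lt with rfl | h1
  · refine ⟨this.2, ?_, Or.inr ?_⟩
    · simp [h.zero]
    · simp
  · exact ⟨this.2, (k s ⟨h1, hs.2⟩).le, Or.inl ⟨this.1, k s ⟨h1, hs.2⟩⟩⟩

theorem Sp.star (h : Sp D B f κ δ) (k : Sg f κ δ β) :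
    JoinedIn (Ps D f ∪ {κ 0}) (κ 0) (κ (δ * cis β)) := by
  have c : Continuous fun s : ℝ => κ (s * cis β) := h.cont.comp (by fun_prop)
  have := (((convex_Icc 0 δ).isPathConnected (nonempty_Icc.2 h.pos.le)).image c).joinedIn _
    (mem_image_of_mem _ (left_mem_Icc.2 h.pos.le)) _
    (mem_image_of_mem _ (right_mem_Icc.2 h.pos.le))
  simpa using this.mono fun x hx => (h.spoke k hx).2.2

theorem planar : Planar (univ : Set P2) :=
  ⟨Complex.equivRealProdCLM.symm, Complex.equivRealProdCLM.symm.continuous.continuousOn,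
    Complex.equivRealProdCLM.symm.injective.injOn⟩

theorem nocross (hP : PlanS) (h : Sp D B f κ δ) (k : Fo f κ δ β₁ β₂ β₃ β₄) {A A' : Set P2}
    (hA : A ⊆ Ps D f) (hA' : A' ⊆ Ps D (-f) ∪ (B \ A))
    (j : JoinedIn A (κ (δ * cis β₁)) (κ (δ * cis β₃)))
    (j' : JoinedIn A' (κ (δ * cis β₂)) (κ (δ * cis β₄))) : False := by
  have a : ∀ β, Sg (-f) κ δ β → Disjoint A (spoke κ δ β) := fun β hβ =>
    Set.disjoint_left.2 fun x hx hx' => by
      have h1 : 0 < f x := (hA hx).2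
      have h2 : 0 ≤ -f x := (h.symm.spoke hβ hx').2.1
      linarith
  have b : ∀ β, Sg f κ δ β → Disjoint A' (spoke κ δ β) := fun β hβ =>
    Set.disjoint_left.2 fun x hx hx' => by
      rcases hA' hx with h1 | h1
      · have h1 : 0 < -f x := h1.2
        linarith [(h.spoke hβ hx').2.1]
      · exact (h.spoke hβ hx').1 h1.1
  refine hP.int P2 univ κ δ β₁ β₂ β₃ β₄ A A' planar h.pos h.cont.continuousOn h.inj.injOn
    (mapsTo_univ _ _) k.b12 k.b23 k.b34 k.b41 (subset_univ _) (subset_univ _) j j' ?_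
    (a _ k.s2) (a _ k.s4) (b _ k.s1) (b _ k.s3)
  refine Set.disjoint_left.2 fun x hx hx' => ?_
  rcases hA' hx' with h1 | h1
  · have h1 : 0 < -f x := h1.2
    have h2 : 0 < f x := (hA hx).2
    linarith
  · exact h1.2 hx

theorem signs0 (hP : PlanS) (c : Cfg D B f P Q) (h : Sp D B f κ δ) (k : Fo f κ δ β₁ β₂ β₃ β₄) :
    (∀ s, 0 < f (P s)) ∧ ∀ t, f (Q t) ≤ 0 := by
  by_contra hn
  obtain ⟨x1, m1, j1⟩ := c.pos _ (h.tip k.s1)
  obtain ⟨x3, m3, j3⟩ := c.pos _ (h.tip k.s3)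
  obtain ⟨x2, m2, j2⟩ := c.neg _ (h.symm.tip k.s2)
  obtain ⟨x4, m4, j4⟩ := c.neg _ (h.symm.tip k.s4)
  have e := c.sum
  have j13 : JoinedIn (B ∩ f ⁻¹' Ioi 0) x1 x3 := by
    refine c.conn (convex_Ioi 0) (by rw [compl_Ioi]; exact convex_Iic 0) (fun a => ?_)
      (fun a => ?_) ⟨m1, j1.target_mem.2⟩ ⟨m3, j3.target_mem.2⟩
    · by_contra b
      exact hn ⟨a, fun t => not_lt.1 fun l => b ⟨t, l⟩⟩
    · by_contra b
      have b1 : f (P true) ≤ 0 := not_lt.1 fun l => b ⟨true, l⟩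
      have b2 : f (P false) ≤ 0 := not_lt.1 fun l => b ⟨false, l⟩
      have a1 : 0 < f (Q true) := a true
      have a2 : 0 < f (Q false) := a false
      linarith
  have j24 : JoinedIn (B ∩ f ⁻¹' Iic 0) x2 x4 := by
    have n2 : 0 < -f x2 := j2.target_mem.2
    have n4 : 0 < -f x4 := j4.target_mem.2
    refine c.conn (convex_Iic 0) (by rw [compl_Iic]; exact convex_Ioi 0) (fun a => ?_)
      (fun a => ?_) ⟨m2, show f x2 ≤ 0 by linarith⟩ ⟨m4, show f x4 ≤ 0 by linarith⟩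
    · by_contra b
      have b1 : 0 < f (Q true) := not_le.1 fun l => b ⟨true, l⟩
      have b2 : 0 < f (Q false) := not_le.1 fun l => b ⟨false, l⟩
      have a1 : f (P true) ≤ 0 := a true
      have a2 : f (P false) ≤ 0 := a false
      linarith
    · by_contra b
      exact hn ⟨fun s => not_le.1 fun l => b ⟨s, l⟩, a⟩
  have j24' : JoinedIn (Ps D (-f) ∪ (B \ Ps D f)) x2 x4 :=
    j24.mono fun x hx => Or.inr ⟨hx.1, fun l => (show f x ≤ 0 from hx.2).not_gt l.2⟩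
  exact nocross hP h k (A := Ps D f) (A' := Ps D (-f) ∪ (B \ Ps D f)) subset_rfl subset_rfl
    ((j1.trans (j13.mono fun x hx => ⟨c.sub hx.1, hx.2⟩)).trans j3.symm)
    (((j2.mono subset_union_left).trans j24').trans (j4.mono subset_union_left).symm)

/-- signs at the vertices -/
theorem signs (hP : PlanS) (c : Cfg D B f P Q) (h : Sp D B f κ δ) (k : Fo f κ δ β₁ β₂ β₃ β₄) :
    (∀ s, 0 < f (P s)) ∧ ∀ t, 0 < (-f) (Q t) :=
  ⟨(signs0 hP c h k).1, (signs0 hP c.symm h.symm k.symm).1⟩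

theorem Cfg.reach (c : Cfg D B f P Q) (hQ : ∀ t, 0 < (-f) (Q t)) {x : P2} (hx : x ∈ Ps D f) :
    ∃ s, JoinedIn (Ps D f) x (P s) := by
  obtain ⟨x', m, j⟩ := c.pos x hx
  rcases c.toV (convex_Ioi 0) (by rw [compl_Ioi]; exact convex_Iic 0) ⟨m, j.target_mem.2⟩ with
    ⟨s, k⟩ | ⟨t, k⟩
  · exact ⟨s, j.trans (k.mono fun x hx => ⟨c.sub hx.1, hx.2⟩)⟩
  · have h1 : 0 < f (Q t) := k.target_mem.2
    have h2 : 0 < -f (Q t) := hQ t
    linarith

theorem both {A : Set P2} {s s' : Bool} (e : s ≠ s') (j : JoinedIn A (P s) (P s')) :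
    JoinedIn A (P true) (P false) := by
  cases s <;> cases s'
  · exact absurd rfl e
  · exact j.symm
  · exact j
  · exact absurd rfl e

theorem thru0 (c : Cfg D B f P Q) (h : Sp D B f κ δ) (hQ : ∀ t, 0 < (-f) (Q t))
    (s1 : Sg f κ δ β₁) (s3 : Sg f κ δ β₃)
    (n : ¬ JoinedIn (Ps D f) (κ (δ * cis β₁)) (κ (δ * cis β₃))) :
    JoinedIn (Ps D f ∪ {κ 0}) (P true) (P false) := by
  obtain ⟨s, j⟩ := c.reach hQ (h.tip s1)
  obtain ⟨s', j'⟩ := c.reach hQ (h.tip s3)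
  refine both (s := s) (s' := s') (fun e => n ?_) ?_
  · subst e
    exact j.trans j'.symm
  · exact (((j.mono subset_union_left).symm.trans (h.star s1).symm).trans (h.star s3)).trans
      (j'.mono subset_union_left)

theorem Sp.sub (h : Sp D B f κ δ) (g : P2 → ℝ) : Ps D g ∪ {κ 0} ⊆ D := by
  rintro x (hx | rfl)
  · exact hx.1
  · exact (h.maps 0 (mem_closedBall_self h.pos.le)).1

/-- two positive rays that are separated by negative rays are not joined -/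
theorem sep (hP : PlanS) (c : Cfg D B f P Q) (h : Sp D B f κ δ) (k : Fo f κ δ β₁ β₂ β₃ β₄) :
    ¬ JoinedIn (Ps D f) (κ (δ * cis β₁)) (κ (δ * cis β₃)) := by
  intro j
  obtain ⟨sP, sQ⟩ := signs hP c h k
  have sP' : ∀ s, 0 < (- -f) (P s) := by rwa [neg_neg]
  have hq := thru0 c.symm h.symm sP' k.s2 k.s4
    fun j' => nocross hP h k subset_rfl subset_union_left j j'
  obtain ⟨s, hs⟩ : ∃ s, P s ∉ pathComponentIn (Ps D f) (κ (δ * cis β₁)) := by
    by_contra n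
    push Not at n
    refine c.cross _ _ inter_subset_left (h.sub _) ((n true).symm.trans (n false)) hq
      (Set.disjoint_left.2 ?_)
    rintro x hx (hx' | rfl)
    · have h1 : 0 < f x := hx.2
      have h2 : 0 < -f x := hx'.2
      linarith
    · exact (show 0 < f (κ 0) from hx.2).ne' h.zero
  have ed : ∀ t, JoinedIn (Ps D (-f) ∪ (B \ pathComponentIn (Ps D f) (κ (δ * cis β₁))))
      (P s) (Q t) := fun t => by
    refine JoinedIn.of_segment_subset fun x hx => Or.inr ⟨c.edge s t hx, fun l => hs ?_⟩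
    exact JoinedIn.trans l ((c.join s t (convex_Ioi 0) hx (left_mem_segment _ _ _)
      l.target_mem.2 (sP s)).mono fun x hx => ⟨c.sub hx.1, hx.2⟩)
  obtain ⟨t, j2⟩ := c.symm.reach sP' (h.symm.tip k.s2)
  obtain ⟨t', j4⟩ := c.symm.reach sP' (h.symm.tip k.s4)
  exact nocross hP h k pathComponentIn_subset subset_rfl
    ((isPathConnected_pathComponentIn j.source_mem).joinedIn _
      (mem_pathComponentIn_self j.source_mem) _ j)
    ((((j2.mono subset_union_left).trans (ed t).symm).trans (ed t')).trans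
      (j4.mono subset_union_left).symm)

theorem thru (hP : PlanS) (c : Cfg D B f P Q) (h : Sp D B f κ δ) (k : Fo f κ δ β₁ β₂ β₃ β₄) :
    JoinedIn (Ps D f ∪ {κ 0}) (P true) (P false) :=
  thru0 c h (signs hP c h k).2 k.s1 k.s3 (sep hP c h k)

/-- there is only one saddle point -/
theorem uniq (hP : PlanS) (c : Cfg D B f P Q) (h : Sp D B f κ δ) (k : Fo f κ δ β₁ β₂ β₃ β₄)
    (h' : Sp D B f κ' δ') (k' : Fo f κ' δ' γ₁ γ₂ γ₃ γ₄) : κ 0 = κ' 0 := by
  by_contra n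
  refine c.cross _ _ (h.sub _) (h'.sub _) (thru hP c h k) (thru hP c.symm h'.symm k'.symm)
    (Set.disjoint_left.2 ?_)
  rintro x (hx | rfl) (hx' | hx')
  · have h1 : 0 < f x := hx.2
    have h2 : 0 < -f x := hx'.2
    linarith
  · have h1 : 0 < f x := hx.2
    rw [hx', h'.zero] at h1
    exact h1.false
  · have h2 : 0 < -f (κ 0) := hx'.2
    rw [h.zero, neg_zero] at h2
    exact h2.false
  · exact n hx'

/-- six alternating rays are impossible -/
theorem six (hP : PlanS) (c : Cfg D B f P Q) (h : Sp D B f κ δ) (k : Fo f κ δ β₁ β₂ β₃ β₄)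
    (k' : Fo f κ δ β₃ β₄ β₅ β₆) (b : β₆ < β₁ + 2 * π) : False := by
  have k'' : Fo f κ δ β₁ β₂ β₅ β₆ :=
    ⟨k.b12, by linarith [k.b23, k.b34, k'.b23], k'.b34, b, k.s1, k.s2, k'.s3, k'.s4⟩
  have sQ := (signs hP c h k).2
  obtain ⟨s1, j1⟩ := c.reach sQ (h.tip k.s1)
  obtain ⟨s3, j3⟩ := c.reach sQ (h.tip k.s3)
  obtain ⟨s5, j5⟩ := c.reach sQ (h.tip k'.s3)
  have : s1 = s3 ∨ s3 = s5 ∨ s1 = s5 := by cases s1 <;> cases s3 <;> cases s5 <;> simp
  rcases this with rfl | rfl | rfl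
  · exact sep hP c h k (j1.trans j3.symm)
  · exact sep hP c h k' (j3.trans j5.symm)
  · exact sep hP c h k'' (j1.trans j5.symm)

/-! ### The rhombus -/

variable {a b : ℝ} {u : P2 → ℝ} {y : P2}

theorem rho_open (a b : ℝ) : IsOpen (Rho a b) := isOpen_lt (by fun_prop) continuous_const

theorem rh_closed (a b : ℝ) : IsClosed (Rh a b) := isClosed_le (by fun_prop) continuous_const

theorem rho_sub : Rho a b ⊆ Rh a b := fun x h => le_of_lt (a := |x.1| / a + |x.2| / b) h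

theorem gcv (ha : 0 < a) (hb : 0 < b) :
    ConvexOn ℝ univ fun y : P2 => |y.1| / a + |y.2| / b := by
  refine ⟨convex_univ, fun x _ z _ l m hl hm _ => ?_⟩
  have e : ∀ s t : ℝ, |l * s + m * t| ≤ l * |s| + m * |t| := fun s t =>
    (abs_add_le _ _).trans (by rw [abs_mul, abs_mul, abs_of_nonneg hl, abs_of_nonneg hm])
  simp only [Prod.fst_add, Prod.snd_add, Prod.smul_fst, Prod.smul_snd, smul_eq_mul]
  calc _ ≤ (l * |x.1| + m * |z.1|) / a + (l * |x.2| + m * |z.2|) / b := by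
        gcongr <;> exact e _ _
    _ = _ := by ring

theorem rh_cvx (ha : 0 < a) (hb : 0 < b) : Convex ℝ (Rh a b) := by
  simpa [Rh] using (gcv ha hb).convex_le 1

theorem rho_cvx (ha : 0 < a) (hb : 0 < b) : Convex ℝ (Rho a b) := by
  simpa [Rho] using (gcv ha hb).convex_lt 1

theorem rh_cpt (ha : 0 < a) (hb : 0 < b) : IsCompact (Rh a b) := by
  refine (isCompact_Icc (a := ((-a, -b) : P2)) (b := (a, b))).of_isClosed_subset (rh_closed a b)
    fun x hx => ?_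
  have h : |x.1| / a + |x.2| / b ≤ 1 := hx
  have p1 : 0 ≤ |x.1| / a := by positivity
  have p2 : 0 ≤ |x.2| / b := by positivity
  have q1 := abs_le.1 ((div_le_one ha).1 (show |x.1| / a ≤ 1 by linarith))
  have q2 := abs_le.1 ((div_le_one hb).1 (show |x.2| / b ≤ 1 by linarith))
  exact ⟨⟨q1.1, q2.1⟩, q1.2, q2.2⟩

theorem bd_iff {x : P2} : x ∈ Rh a b \ Rho a b ↔ |x.1| / a + |x.2| / b = 1 :=
  ⟨fun h => le_antisymm h.1 (not_lt.1 h.2), fun h => ⟨h.le, fun k => h.not_lt k⟩⟩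

theorem bd_val (h : IsLeaf a b u) : ∀ x ∈ Rh a b \ Rho a b, u x = lo a x := fun x hx => by
  have e := bd_iff.1 hx
  have h1 := h.low x hx.1
  have h2 := h.upp x hx.1
  simp only [lo, up, mul_div_assoc] at h1 h2 ⊢
  linarith

theorem notaff (h : IsLeaf a b u) (hy : y ∈ Rho a b) (c : ℝ) (p : P2) :
    ¬ u =ᶠ[𝓝 y] fun x => c + dot p x := fun e => by
  have ha := h.apos
  have hb := h.bpos
  have an : AnalyticOnNhd ℝ (fun x : P2 => c + dot p x) (Rho a b) := fun x _ =>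
    analyticAt_const.add ((analyticAt_const.mul analyticAt_fst).add
      (analyticAt_const.mul analyticAt_snd))
  have k := h.sol.1.eqOn_of_preconnected_of_eventuallyEq an (rho_cvx ha hb).isPreconnected hy e
  have a1 : |3 / 4 * a| / a = 3 / 4 := by
    rw [abs_of_pos (by positivity)]
    field_simp
  have b1 : |3 / 4 * b| / b = 3 / 4 := by
    rw [abs_of_pos (by positivity)]
    field_simp
  have m1 : ((3 / 4 * a, 0) : P2) ∈ Rho a b := by
    simp only [Rho, mem_ofPred_eq, a1]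
    norm_num
  have m2 : ((-(3 / 4 * a), 0) : P2) ∈ Rho a b := by
    simp only [Rho, mem_ofPred_eq, abs_neg, a1]
    norm_num
  have m3 : ((0, 3 / 4 * b) : P2) ∈ Rho a b := by
    simp only [Rho, mem_ofPred_eq, b1]
    norm_num
  have m4 : ((0, -(3 / 4 * b)) : P2) ∈ Rho a b := by
    simp only [Rho, mem_ofPred_eq, abs_neg, b1]
    norm_num
  have l1 := h.low _ (rho_sub m1)
  have l2 := h.low _ (rho_sub m2)
  have l3 := h.upp _ (rho_sub m3)
  have l4 := h.upp _ (rho_sub m4)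
  rw [k m1] at l1
  rw [k m2] at l2
  rw [k m3] at l3
  rw [k m4] at l4
  simp only [lo, up, dot, mul_div_assoc (2 : ℝ), abs_neg, a1, b1] at l1 l2 l3 l4
  linarith

theorem saddle (hT : TouchS) (hE : TetS) (h : IsLeaf a b u) : Saddle a b u := by
  intro c p ε hε y hy h0
  by_contra n
  push Not at n
  set g : P2 → ℝ := fun x => ε * (u x - c - dot p x) with hg
  have cg : ContinuousOn g (Rh a b) := continuousOn_const.mul
    ((h.cont.sub continuousOn_const).sub (by unfold dot; fun_prop))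
  set W := pathComponentIn (Rh a b ∩ {x | 0 < g x}) y with hW
  have yW : y ∈ W := mem_pathComponentIn_self ⟨hy, h0⟩
  have Wsub : W ⊆ Rh a b := fun x hx => hx.target_mem.1
  have clW : closure W ⊆ Rh a b := closure_minimal Wsub (rh_closed a b)
  obtain ⟨x0, m0, hmax⟩ := ((rh_cpt h.apos h.bpos).of_isClosed_subset isClosed_closure
    clW).exists_isMaxOn ⟨y, subset_closure yW⟩ (cg.mono clW)
  have g0 : 0 < g x0 := h0.trans_le (hmax (subset_closure yW))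
  obtain ⟨r, hr, hball⟩ := mem_nhdsWithin_iff.1
    ((cg x0 (clW m0)).eventually (lt_mem_nhds g0))
  have cv : Convex ℝ (ball x0 r ∩ Rh a b) := (convex_ball _ _).inter (rh_cvx h.apos h.bpos)
  obtain ⟨w, w1, w2⟩ := mem_closure_iff_nhds.1 m0 _ (ball_mem_nhds x0 hr)
  have inW : ∀ x ∈ ball x0 r ∩ Rh a b, x ∈ W := fun x hx =>
    JoinedIn.trans w2 ((JoinedIn.of_segment_subset (cv.segment_subset ⟨w1, Wsub w2⟩ hx)).mono
      fun z hz => ⟨hz.2, hball hz⟩)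
  have x0in : x0 ∈ Rho a b := by
    by_contra k
    exact n x0 ⟨clW m0, k⟩ (inW x0 ⟨mem_ball_self hr, clW m0⟩)
  have ev : ∀ᶠ x in 𝓝 x0, g x ≤ g x0 := by
    filter_upwards [ball_mem_nhds x0 hr, (rho_open a b).mem_nhds x0in] with x h1 h2
    exact hmax (subset_closure (inW x ⟨h1, rho_sub h2⟩))
  have sv : Sol (fun x => u x0 - dot p x0 + dot p x) (Rho a b) :=
    ⟨(hE.plane _ p).1.mono (subset_univ _), fun x _ => (hE.plane _ p).2 x (mem_univ _)⟩
  refine notaff h x0in (u x0 - dot p x0) p ?_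
  rcases hε with rfl | rfl
  · refine hT.graph _ _ _ (rho_open a b) h.sol sv x0 x0in (by ring) (ev.mono fun x hx => ?_)
    simp only [hg] at hx
    linarith
  · refine (hT.graph _ _ _ (rho_open a b) sv h.sol x0 x0in (by ring)
      (ev.mono fun x hx => ?_)).symm
    simp only [hg] at hx
    linarith

/-- the vertices of height one -/
def vp (a : ℝ) (s : Bool) : P2 := (if s then a else -a, 0)

/-- the vertices of height minus one -/
def vq (b : ℝ) (t : Bool) : P2 := (0, if t then b else -b)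

theorem comb (ha : 0 < a) (hb : 0 < b) (s t : Bool) {α β : ℝ} (h1 : 0 ≤ α) (h2 : 0 ≤ β) :
    |(α • vp a s + β • vq b t).1| / a = α ∧ |(α • vp a s + β • vq b t).2| / b = β := by
  have e1 : |α * a| / a = α := by
    rw [abs_of_nonneg (by positivity)]
    field_simp
  have e2 : |β * b| / b = β := by
    rw [abs_of_nonneg (by positivity)]
    field_simp
  cases s <;> cases t <;> simp [vp, vq, -abs_mul, e1, e2]

theorem edge_val (h : IsLeaf a b u) (s t : Bool) {α β : ℝ} (h1 : 0 ≤ α) (h2 : 0 ≤ β)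
    (h3 : α + β = 1) : u (α • vp a s + β • vq b t) = α - β := by
  obtain ⟨e1, e2⟩ := comb h.apos h.bpos s t h1 h2
  rw [bd_val h _ (bd_iff.2 (by rw [e1, e2, h3])), lo, mul_div_assoc, e1]
  linarith

theorem vp_val (h : IsLeaf a b u) (s : Bool) : u (vp a s) = 1 := by
  simpa using edge_val h s true zero_le_one le_rfl (add_zero _)

theorem vq_val (h : IsLeaf a b u) (t : Bool) : u (vq b t) = -1 := by
  simpa using edge_val h true t le_rfl zero_le_one (zero_add _)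

theorem cis0 : cis 0 = 1 := by simp [cis]

theorem cis1 : cis (π / 2) = Complex.I := by
  unfold cis
  rw [Complex.exp_mul_I, ← Complex.ofReal_cos, ← Complex.ofReal_sin, Real.cos_pi_div_two,
    Real.sin_pi_div_two]
  simp

theorem cis2 : cis π = -1 := Complex.exp_pi_mul_I

theorem cis3 : cis (π + π / 2) = -Complex.I := by
  have h : cis (π + π / 2) = cis π * cis (π / 2) := by
    unfold cis
    rw [← Complex.exp_add]
    congr 1
    push_cast
    ring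
  rw [h, cis1, cis2, neg_one_mul]

theorem cross (hP : PlanS) (ha : 0 < a) (hb : 0 < b) (A A' : Set P2) (hA : A ⊆ Rh a b)
    (hA' : A' ⊆ Rh a b) (j : JoinedIn A (vp a true) (vp a false))
    (j' : JoinedIn A' (vq b true) (vq b false)) (d : Disjoint A A') : False := by
  let φ : P2 → ℂ := fun x => Complex.equivRealProdCLM.symm (x.1 / a, x.2 / b)
  have re : ∀ x, (φ x).re = x.1 / a := fun x => by simp [φ]
  have im : ∀ x, (φ x).im = x.2 / b := fun x => by simp [φ]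
  have cφ : Continuous φ := Complex.equivRealProdCLM.symm.continuous.comp (by fun_prop)
  have iφ : Function.Injective φ := fun x z e => by
    have e1 := congrArg Complex.re e
    have e2 := congrArg Complex.im e
    rw [re, re, div_left_inj' ha.ne'] at e1
    rw [im, im, div_left_inj' hb.ne'] at e2
    exact Prod.ext e1 e2
  have mφ : ∀ X : Set P2, X ⊆ Rh a b → φ '' X ⊆ closedBall 0 1 := by
    rintro X hX _ ⟨x, hx, rfl⟩
    rw [mem_closedBall_zero_iff]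
    refine (Complex.norm_le_abs_re_add_abs_im _).trans ?_
    rw [re, im, abs_div, abs_div, abs_of_pos ha, abs_of_pos hb]
    exact hX hx
  have e0 : φ (vp a true) = cis 0 := by
    rw [cis0]
    exact Complex.ext (by simp [re, vp, ha.ne']) (by simp [im, vp])
  have e1 : φ (vq b true) = cis (π / 2) := by
    rw [cis1]
    exact Complex.ext (by simp [re, vq]) (by simp [im, vq, hb.ne'])
  have e2 : φ (vp a false) = cis π := by
    rw [cis2]
    exact Complex.ext (by simp [re, vp, ha.ne']) (by simp [im, vp])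
  have e3 : φ (vq b false) = cis (π + π / 2) := by
    rw [cis3]
    exact Complex.ext (by simp [re, vq]) (by simp [im, vq, hb.ne'])
  have hp := Real.pi_pos
  exact hP.disc 0 (π / 2) π (π + π / 2) (φ '' A) (φ '' A') (by linarith) (by linarith)
    (by linarith) (by linarith) (mφ A hA) (mφ A' hA') (e0 ▸ e2 ▸ j.map cφ) (e1 ▸ e3 ▸ j'.map cφ)
    (disjoint_image_of_injective iφ d)

theorem cfg (hT : TouchS) (hP : PlanS) (hE : TetS) (h : IsLeaf a b u) (c : ℝ) (p : P2) :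
    Cfg (Rh a b) (Rh a b \ Rho a b) (fun x => u x - (c + dot p x)) (vp a) (vq b) where
  sub := sdiff_subset
  edge s t := by
    rintro _ ⟨α, β, h1, h2, h3, rfl⟩
    obtain ⟨e1, e2⟩ := comb h.apos h.bpos s t h1 h2
    exact bd_iff.2 (by rw [e1, e2, h3])
  cover x hx := by
    have ha := h.apos
    have hb := h.bpos
    refine ⟨decide (0 ≤ x.1), decide (0 ≤ x.2), |x.1| / a, |x.2| / b, by positivity,
      by positivity, bd_iff.1 hx, Prod.ext ?_ ?_⟩
    · by_cases k : 0 ≤ x.1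
      · simp [vp, vq, k, abs_of_nonneg k, ha.ne']
      · simp [vp, vq, k, abs_of_neg (not_le.1 k), neg_div, ha.ne']
    · by_cases k : 0 ≤ x.2
      · simp [vp, vq, k, abs_of_nonneg k, hb.ne']
      · simp [vp, vq, k, abs_of_neg (not_le.1 k), neg_div, hb.ne']
  aff s t α β h1 h2 h3 := by
    rw [edge_val h s t h1 h2 h3, vp_val h, vq_val h]
    simp only [dot, Prod.fst_add, Prod.snd_add, Prod.smul_fst, Prod.smul_snd, smul_eq_mul]
    linear_combination c * h3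
  pos x hx := by
    have e : Ps (Rh a b) (fun x => u x - (c + dot p x))
        = Rh a b ∩ {x | 0 < 1 * (u x - c - dot p x)} := by
      simp only [Ps, one_mul, sub_sub]
    rw [e] at hx ⊢
    exact saddle hT hE h c p 1 (Or.inl rfl) x hx.1 hx.2
  neg x hx := by
    have e : Ps (Rh a b) (-fun x => u x - (c + dot p x))
        = Rh a b ∩ {x | 0 < -1 * (u x - c - dot p x)} := by
      simp only [Ps, neg_one_mul, sub_sub, Pi.neg_apply]
    rw [e] at hx ⊢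
    exact saddle hT hE h c p (-1) (Or.inr rfl) x hx.1 hx.2
  cross := cross hP h.apos h.bpos
  sum := by
    simp only [vp_val h, vq_val h]
    simp [vp, vq, dot]
    linarith

/-! ### The tangent plane -/

theorem cis_pow (β : ℝ) (m : ℕ) : cis β ^ m = cis (m * β) := by
  unfold cis
  rw [← Complex.exp_nat_mul]
  congr 1
  push_cast
  ring

theorem ray {w : P2 → ℝ} {x₀ : P2} {T : ℂ →L[ℝ] P2} {m : ℕ} {c : ℂ} (h : Lead w x₀ T m c)
    {ε β : ℝ} (hε : |ε| = 1) (hb : 0 < ε * (c * cis β ^ m).re) :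
    ∀ᶠ s : ℝ in 𝓝[>] 0, 0 < ε * w (x₀ + T (s * cis β)) := by
  obtain ⟨-, C, δ, hδ, h⟩ := h
  have e2 : ∀ᶠ s : ℝ in 𝓝[>] 0, C * s < ε * (c * cis β ^ m).re :=
    ((by fun_prop : Continuous fun s : ℝ => C * s).continuousAt.eventually_lt
      continuousAt_const (by simpa using hb)).filter_mono nhdsWithin_le_nhds
  filter_upwards [Ioo_mem_nhdsGT hδ, e2] with s h1 h2
  have := (h (s * cis β) (by rw [norm_ray h1.1.le]; exact h1.2)).2.1
  have e : (c * ((s : ℂ) * cis β) ^ m).re = s ^ m * (c * cis β ^ m).re := by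
    rw [mul_pow, ← Complex.ofReal_pow, mul_left_comm, Complex.re_ofReal_mul]
  rw [norm_ray h1.1.le, e] at this
  have h4 : |ε * w (x₀ + T (s * cis β)) - s ^ m * (ε * (c * cis β ^ m).re)| ≤ C * s ^ (m + 1) := by
    rw [mul_left_comm, ← mul_sub, abs_mul, hε, one_mul]
    exact this
  have h6 : 0 < s ^ m := pow_pos h1.1 m
  have h7 : C * s ^ (m + 1) = s ^ m * (C * s) := by ring
  linarith [mul_lt_mul_of_pos_left h2 h6, (abs_le.1 h4).1]

theorem angle (c : ℂ) {m : ℕ} (hm : 2 ≤ m) (j : ℕ) :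
    (c * cis (-c.arg / m + j * (π / m)) ^ m).re = ‖c‖ * (-1) ^ j := by
  have hm' : (m : ℝ) ≠ 0 := by positivity
  have e : (m : ℝ) * (-c.arg / m + j * (π / m)) = -c.arg + j * π := by field_simp
  have e2 : c * cis (-c.arg + j * π) = ((‖c‖ * (-1) ^ j : ℝ) : ℂ) := by
    nth_rw 1 [← Complex.norm_mul_exp_arg_mul_I c]
    unfold cis
    rw [mul_assoc, ← Complex.exp_add]
    push_cast
    rw [← Complex.exp_pi_mul_I, ← Complex.exp_nat_mul]
    congr 2
    ring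
  rw [cis_pow, e, e2, Complex.ofReal_re]

theorem spokes {x₀ : P2} {T : ℂ →L[ℝ] P2} {m : ℕ} {c : ℂ} (h : Lead f x₀ T m c) (hm : 2 ≤ m)
    (hT : Function.Injective T) (h0 : f x₀ = 0) (hD : D \ B ∈ 𝓝 x₀) :
    ∃ δ θ : ℝ, Sp D B f (fun z => x₀ + T z) δ ∧ ∀ j : ℕ, j < 3 →
      Sg f (fun z => x₀ + T z) δ (θ + (2 * j : ℕ) * (π / m)) ∧
        Sg (-f) (fun z => x₀ + T z) δ (θ + (2 * j + 1 : ℕ) * (π / m)) := by
  have hc : 0 < ‖c‖ := norm_pos_iff.2 h.1
  have e : ∀ᶠ s : ℝ in 𝓝[>] 0, ∀ j ∈ Finset.range 3,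
      0 < 1 * f (x₀ + T (s * cis (-c.arg / m + (2 * j : ℕ) * (π / m)))) ∧
        0 < -1 * f (x₀ + T (s * cis (-c.arg / m + (2 * j + 1 : ℕ) * (π / m)))) := by
    refine (eventually_all_finset _).2 fun j _ => (ray h abs_one ?_).and (ray h (by simp) ?_)
    · rw [angle c hm, pow_mul]
      simpa using hc
    · rw [angle c hm, pow_succ, pow_mul]
      simpa using hc
  have cκ : Continuous fun z => x₀ + T z := by fun_prop
  obtain ⟨r1, hr1, h1⟩ := nhds_basis_closedBall.mem_iff.1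
    (cκ.continuousAt.preimage_mem_nhds (x := 0) (by simpa using hD))
  obtain ⟨r2, hr2, h2⟩ := mem_nhdsGT_iff_exists_Ioc_subset.1 e
  refine ⟨min r1 r2, -c.arg / m, ⟨lt_min hr1 hr2, cκ, fun z w k => hT (add_left_cancel k),
    fun z hz => h1 (closedBall_subset_closedBall (min_le_left _ _) hz), by simpa using h0⟩,
    fun j hj => ⟨fun s hs => ?_, fun s hs => ?_⟩⟩
  · simpa using (h2 ⟨hs.1, hs.2.trans (min_le_right _ _)⟩ j (Finset.mem_range.2 hj)).1
  · simpa using (h2 ⟨hs.1, hs.2.trans (min_le_right _ _)⟩ j (Finset.mem_range.2 hj)).2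

/-- the linear form of a vector -/
def lin (p : P2) : P2 →L[ℝ] ℝ :=
  p.1 • ContinuousLinearMap.fst ℝ ℝ ℝ + p.2 • ContinuousLinearMap.snd ℝ ℝ ℝ

theorem plane_d (c : ℝ) (p x : P2) : HasFDerivAt (fun x => c + dot p x) (lin p) x :=
  ((lin p).hasFDerivAt (x := x)).const_add c

/-- the height over the tangent plane at `y` -/
def ft (u : P2 → ℝ) (y : P2) : P2 → ℝ :=
  fun x => u x - (u y - dot (grad u y) y + dot (grad u y) x)

theorem lead (hM : MeqS) (hD : DerS) (hL : LeadS) (hE : TetS) (h : IsLeaf a b u)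
    (hy : y ∈ Rho a b) : ∃ (T : ℂ →L[ℝ] P2) (m : ℕ) (c : ℂ), Function.Injective T ∧ 2 ≤ m ∧
      Lead (ft u y) y T m c := by
  let O : Iso := LinearIsometryEquiv.refl ℝ E4
  have au := h.sol.1 y hy
  obtain ⟨T, hT⟩ := BTouch.exists_T _ (hM.normal O u y au.differentiableAt).2.2.2.2.2
  have sv := hE.plane (u y - dot (grad u y) y) (grad u y)
  have hd : fderiv ℝ u y = fderiv ℝ (fun x => u y - dot (grad u y) y + dot (grad u y) x) y := by
    rw [(plane_d _ _ _).fderiv]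
    refine ContinuousLinearMap.ext fun v => ?_
    rw [(hD u y au).2.2.2.2.2.2.2.2.1 v]
    simp [lin, grad]
  rcases hL (BTouch.Xi O) u _ y T (BTouch.ana_Xi O _) (BTouch.inj_Xi O _)
    (Eventually.of_forall fun s => by rw [BTouch.Xi, O.norm_map, BTouch.norm_gn]) au
    (sv.1 y (mem_univ _)) (by ring) hd (BTouch.sol_ev hM O (rho_open a b) h.sol hy)
    (BTouch.sol_ev hM O isOpen_univ sv (mem_univ _)) hT with k | ⟨m, c, hm, k⟩
  · exact (notaff h hy _ _ k).elim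
  · refine ⟨T, m, c, (injective_iff_map_eq_zero T).2 fun v hv => ?_, hm, k⟩
    have := hT v
    rw [hv, map_zero, norm_zero] at this
    exact norm_eq_zero.1 this.symm

/-- the hypotheses -/
structure Hy : Prop where
  hM : MeqS
  hD : DerS
  hT : TouchS
  hL : LeadS
  hP : PlanS
  hE : TetS

theorem tang (H : Hy) (h : IsLeaf a b u) (hy : y ∈ Rho a b) :
    (∃ κ δ β₁ β₂ β₃ β₄, κ 0 = y ∧ Sp (Rh a b) (Rh a b \ Rho a b) (ft u y) κ δ ∧
      Fo (ft u y) κ δ β₁ β₂ β₃ β₄) ∧ ∃ T c, Lead (ft u y) y T 2 c := by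
  obtain ⟨T, m, c, hT, hm, k⟩ := lead H.hM H.hD H.hL H.hE h hy
  obtain ⟨δ, θ, sp, sg⟩ := spokes (D := Rh a b) (B := Rh a b \ Rho a b) k hm hT (by simp [ft])
    (mem_of_superset ((rho_open a b).mem_nhds hy) fun x hx => ⟨rho_sub hx, fun l => l.2 hx⟩)
  have hp := Real.pi_pos
  have m0 : (0 : ℝ) < m := by positivity
  have e0 : 0 < π / m := by positivity
  have e1 : π / m ≤ π / 2 := by
    gcongr
    exact_mod_cast hm
  obtain ⟨s0, s1⟩ := sg 0 (by norm_num)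
  obtain ⟨s2, s3⟩ := sg 1 (by norm_num)
  obtain ⟨s4, s5⟩ := sg 2 (by norm_num)
  have f1 := Fo.mk (by push_cast; linarith) (by push_cast; linarith) (by push_cast; linarith)
    (by push_cast; linarith) s0 s1 s2 s3
  have f2 := Fo.mk (by push_cast; linarith) (by push_cast; linarith) (by push_cast; linarith)
    (by push_cast; linarith) s2 s3 s4 s5
  refine ⟨⟨_, δ, _, _, _, _, by simp, sp, f1⟩, T, c, ?_⟩
  rcases hm.eq_or_lt with rfl | h3
  · exact k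
  have e2 : π / m ≤ π / 3 := by
    gcongr
    exact_mod_cast h3
  exact (six H.hP (cfg H.hT H.hP H.hE h _ _) sp f1 f2 (by push_cast; linarith)).elim

/-- Rado's theorem -/
theorem rad (H : Hy) (h : IsLeaf a b u) (hy : y ∈ Rho a b) :
    |d1 u y| * a < 1 + (y.1 * d1 u y + y.2 * d2 u y - u y) ∧
      |d2 u y| * b < 1 - (y.1 * d1 u y + y.2 * d2 u y - u y) := by
  obtain ⟨⟨κ, δ, β₁, β₂, β₃, β₄, -, sp, fo⟩, -⟩ := tang H h hy
  obtain ⟨k1, k2⟩ := signs H.hP (cfg H.hT H.hP H.hE h _ _) sp fo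
  have p1 := k1 true
  have p2 := k1 false
  have q1 := k2 true
  have q2 := k2 false
  simp only [Pi.neg_apply, vp_val h, vq_val h] at p1 p2 q1 q2
  simp only [vp, vq, dot, grad, if_true, Bool.false_eq_true, if_false] at p1 p2 q1 q2
  constructor
  · rcases abs_cases (d1 u y) with ⟨e, -⟩ | ⟨e, -⟩ <;> rw [e] <;> linarith
  · rcases abs_cases (d2 u y) with ⟨e, -⟩ | ⟨e, -⟩ <;> rw [e] <;> linarith

theorem same (H : Hy) (h : IsLeaf a b u) (hy : y ∈ Rho a b) {y' : P2} (hy' : y' ∈ Rho a b)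
    (e : ft u y' = ft u y) : y = y' := by
  obtain ⟨⟨κ, δ, β₁, β₂, β₃, β₄, k, sp, fo⟩, -⟩ := tang H h hy
  obtain ⟨⟨κ', δ', γ₁, γ₂, γ₃, γ₄, k', sp', fo'⟩, -⟩ := tang H h hy'
  rw [e] at sp' fo'
  rw [← k, ← k']
  exact uniq H.hP (cfg H.hT H.hP H.hE h _ _) sp fo sp' fo'

theorem deriv1 {g : ℝ → ℝ} {A C δ : ℝ} (hδ : 0 < δ)
    (h : ∀ s : ℝ, |s| < δ → |g s - A * s| ≤ C * |s| ^ 2) : HasDerivAt g A 0 := by
  have g0 : g 0 = 0 := by simpa using h 0 (by simpa using hδ)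
  rw [hasDerivAt_iff_isLittleO_nhds_zero]
  have k : (fun s : ℝ => g (0 + s) - g 0 - s • A) =O[𝓝 0] fun s : ℝ => s ^ 2 := by
    refine Asymptotics.IsBigO.of_bound C ?_
    filter_upwards [ball_mem_nhds (0 : ℝ) hδ] with s hs
    rw [zero_add, g0, sub_zero, smul_eq_mul, mul_comm s A, Real.norm_eq_abs, Real.norm_eq_abs,
      abs_pow]
    exact h s (by simpa using hs)
  exact k.trans_isLittleO (Asymptotics.isLittleO_pow_id (by norm_num))

theorem hess_ne {T : ℂ →L[ℝ] P2} {c : ℂ} (hu : AnalyticAt ℝ u y) (h : Lead (ft u y) y T 2 c)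
    (h0 : ∀ v w, fderiv ℝ (fderiv ℝ u) y v w = 0) : False := by
  obtain ⟨hc, C, δ, hδ, h⟩ := h
  let v : ℂ := (starRingEnd ℂ) c
  have l : HasDerivAt (fun s : ℝ => y + T s) (T 1) 0 :=
    (T.hasFDerivAt.comp_hasDerivAt (0 : ℝ) (Complex.ofRealCLM.hasDerivAt (x := 0))).const_add y
  have d : HasFDerivAt (fderiv ℝ u) (fderiv ℝ (fderiv ℝ u) y) (y + T (0 : ℝ)) := by
    simpa using hu.fderiv.differentiableAt.hasFDerivAt
  have d' : HasFDerivAt (fun x => fderiv ℝ u x (T v)) (0 : P2 →L[ℝ] ℝ) (y + T (0 : ℝ)) :=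
    ((ContinuousLinearMap.apply ℝ ℝ (T v)).hasFDerivAt.comp _ d).congr_fderiv
      (ContinuousLinearMap.ext fun w => h0 w (T v))
  have h1 : HasDerivAt (fun s : ℝ => fderiv ℝ u (y + T s) (T v) - lin (grad u y) (T v)) 0 0 :=
    (d'.comp_hasDerivAt (0 : ℝ) l).sub_const (lin (grad u y) (T v))
  have h2 : HasDerivAt (fun s : ℝ => fderiv ℝ u (y + T s) (T v) - lin (grad u y) (T v))
      (2 * Complex.normSq c) 0 := by
    refine deriv1 hδ (C := C * ‖v‖) fun s hs => ?_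
    obtain ⟨k1, -, k2⟩ := h s (by simpa using hs)
    have k3 := k2 v
    have e1 : u = fun x => ft u y x + (u y - dot (grad u y) y + dot (grad u y) x) := by
      ext x
      simp [ft]
    have e2 : fderiv ℝ u (y + T s) = fderiv ℝ (ft u y) (y + T s) + lin (grad u y) := by
      nth_rw 1 [e1]
      exact (k1.hasFDerivAt.add (plane_d _ _ _)).fderiv
    have e3 : (c * (2 : ℕ) * (s : ℂ) ^ (2 - 1) * v).re = 2 * Complex.normSq c * s := by
      have : c * (2 : ℕ) * (s : ℂ) ^ (2 - 1) * v = ((2 * Complex.normSq c * s : ℝ) : ℂ) := by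
        push_cast
        rw [← Complex.mul_conj]
        ring
      rw [this, Complex.ofReal_re]
    rw [e3, Complex.norm_real, Real.norm_eq_abs] at k3
    rw [e2, add_apply, add_sub_cancel_right]
    linarith
  have := h1.unique h2
  linarith [Complex.normSq_pos.2 hc]

theorem psd {r s t : ℝ} (hr : 0 ≤ r) (ht : 0 ≤ t) (h : s ^ 2 ≤ r * t) (ξ : P2) :
    0 ≤ r * ξ.1 ^ 2 + 2 * s * ξ.1 * ξ.2 + t * ξ.2 ^ 2 := by
  rcases hr.eq_or_lt with rfl | hr'
  · have : s = 0 := by nlinarith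
    subst this
    have := mul_nonneg ht (sq_nonneg ξ.2)
    linarith
  · refine nonneg_of_mul_nonneg_right ?_ hr'
    nlinarith [sq_nonneg (r * ξ.1 + s * ξ.2), mul_nonneg (sub_nonneg.2 h) (sq_nonneg ξ.2)]

theorem hess (H : Hy) (h : IsLeaf a b u) (hy : y ∈ Rho a b) :
    d1 (d1 u) y * d2 (d2 u) y < d1 (d2 u) y ^ 2 := by
  by_contra n
  rw [not_lt] at n
  obtain ⟨-, T, c, k⟩ := tang H h hy
  have au := h.sol.1 y hy
  have e : gOp y (u y) (d1 u y) (d2 u y) (d1 (d1 u) y) (d1 (d2 u) y) (d2 (d2 u) y) = 0 :=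
    h.sol.2 y hy
  have z : d1 (d1 u) y = 0 ∧ d1 (d2 u) y = 0 ∧ d2 (d2 u) y = 0 := by
    rcases mul_nonneg_iff.1 ((sq_nonneg _).trans n) with ⟨k1, k2⟩ | ⟨k1, k2⟩
    · exact (H.hM.ell y _ _ _ _ _ _ (psd k1 k2 n)).2 e
    · have := (H.hM.ell y (u y) (d1 u y) (d2 u y) _ (-d1 (d2 u) y) _
        (psd (neg_nonneg.2 k1) (neg_nonneg.2 k2) (by linarith))).2 (by
          unfold gOp at e ⊢
          linarith)
      simpa using this
  refine hess_ne au k fun v w => ?_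
  rw [(H.hD u y au).2.2.2.2.2.2.2.2.2 v w, z.1, z.2.1, z.2.2]
  ring

/-! ### Monotonicity -/

theorem refl_mem (hy : y ∈ Rho a b) : ((-y.1, y.2) : P2) ∈ Rho a b := by
  simpa [Rho] using hy

theorem swap_mem (hy : y ∈ Rho a b) : ((y.2, y.1) : P2) ∈ Rho b a := by
  simpa [Rho, add_comm] using hy

theorem d_ev (H : Hy) (h : IsLeaf a b u) (hy : y ∈ Rho a b) :
    d1 u (-y.1, y.2) = -d1 u y ∧ d2 u (-y.1, y.2) = d2 u y := by
  let R : P2 →L[ℝ] P2 := (-ContinuousLinearMap.fst ℝ ℝ ℝ).prod (ContinuousLinearMap.snd ℝ ℝ ℝ)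
  have d : HasFDerivAt u (fderiv ℝ u (-y.1, y.2)) (R y) :=
    (h.sol.1 _ (refl_mem hy)).differentiableAt.hasFDerivAt
  have e : u =ᶠ[𝓝 y] u ∘ R := by
    filter_upwards [(rho_open a b).mem_nhds hy] with x hx
    exact ((H.hE.ev a b u h x (rho_sub hx)).1).symm
  have k := ((d.comp y R.hasFDerivAt).congr_of_eventuallyEq e).fderiv
  have e1 : R (1, 0) = -(1, 0) := by simp [R]
  have e2 : R (0, 1) = (0, 1) := by simp [R]
  simp only [d1, d2, k, ContinuousLinearMap.comp_apply, e1, e2, map_neg, neg_neg, and_self]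

theorem d1_ne (H : Hy) (h : IsLeaf a b u) (hy : y ∈ Rho a b) (h0 : d1 u y = 0) : y.1 = 0 := by
  obtain ⟨e1, e2⟩ := d_ev H h hy
  have e := same H h hy (refl_mem hy) (by
    ext x
    simp [ft, dot, grad, e1, e2, h0, (H.hE.ev a b u h y (rho_sub hy)).1])
  linarith [congrArg Prod.fst e]

theorem ax_mem (ha : 0 < a) {s : ℝ} (h0 : 0 ≤ s) :
    (s ≤ a → ((s, 0) : P2) ∈ Rh a b) ∧ (s < a → ((s, 0) : P2) ∈ Rho a b) := by
  simp [Rh, Rho, abs_of_nonneg h0, div_le_one ha, div_lt_one ha]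

theorem mvt (h : IsLeaf a b u) {s : ℝ} (h0 : 0 < s) (h1 : s ≤ a) :
    ∃ c ∈ Ioo 0 s, d1 u (c, 0) = (u (s, 0) - u (0, 0)) / (s - 0) := by
  refine exists_hasDerivAt_eq_slope (fun t => u (t, 0)) (fun t => d1 u (t, 0)) h0
    (h.cont.comp (by fun_prop) fun t ht => (ax_mem h.apos ht.1).1 (ht.2.trans h1)) fun t ht => ?_
  have l : HasDerivAt (fun s : ℝ => ((s, 0) : P2)) (1, 0) t :=
    (hasDerivAt_id t).prodMk (hasDerivAt_const t (0 : ℝ))
  exact HasFDerivAt.comp_hasDerivAt (f := fun s : ℝ => ((s, 0) : P2)) t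
    (h.sol.1 _ ((ax_mem h.apos ht.1.le).2 (ht.2.trans_le h1))).differentiableAt.hasFDerivAt l

theorem d1_pos (H : Hy) (h : IsLeaf a b u) (hy : y ∈ Rho a b) (h0 : 0 < y.1) : 0 < d1 u y := by
  by_contra n
  obtain ⟨c, hc, e⟩ := mvt h h.apos le_rfl
  have u1 : u (a, 0) = 1 := vp_val h true
  have u0 : u (0, 0) < 1 := by
    simpa [up] using (H.hE.inner a b u h _ ((ax_mem h.apos le_rfl).2 h.apos)).2.1
  have p : 0 < d1 u (c, 0) := by
    rw [e, u1]
    exact div_pos (by linarith) (by linarith [h.apos])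
  have cv : Convex ℝ (Rho a b ∩ {x | 0 < x.1}) := (rho_cvx h.apos h.bpos).inter
    (convex_halfSpace_gt (LinearMap.fst ℝ ℝ ℝ).isLinear 0)
  obtain ⟨x, hx, k⟩ := cv.isPreconnected.intermediate_value (f := d1 u) ⟨hy, h0⟩
    (show ((c, 0) : P2) ∈ _ from ⟨(ax_mem h.apos hc.1.le).2 hc.2, hc.1⟩)
    (fun x hx => (H.hD u x (h.sol.1 x hx.1)).1.continuousAt.continuousWithinAt)
    (show (0 : ℝ) ∈ Icc _ _ from ⟨not_lt.1 n, p.le⟩)
  exact (show 0 < x.1 from hx.2).ne' (d1_ne H h hx.1 k)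

theorem mono1 (H : Hy) (h : IsLeaf a b u) (hy : y ∈ Rho a b) :
    (0 < y.1 ∧ 0 < d1 u y) ∨ (y.1 = 0 ∧ d1 u y = 0) ∨ (y.1 < 0 ∧ d1 u y < 0) := by
  have e := (d_ev H h hy).1
  rcases lt_trichotomy 0 y.1 with k | k | k
  · exact Or.inl ⟨k, d1_pos H h hy k⟩
  · refine Or.inr (Or.inl ⟨k.symm, ?_⟩)
    have : ((-y.1, y.2) : P2) = y := Prod.ext (by linarith) rfl
    rw [this] at e
    linarith
  · refine Or.inr (Or.inr ⟨k, ?_⟩)
    have := d1_pos H h (refl_mem hy) (neg_pos.2 k)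
    linarith

theorem mono2 (H : Hy) (h : IsLeaf a b u) (hy : y ∈ Rho a b) :
    (0 < y.2 ∧ d2 u y < 0) ∨ (y.2 = 0 ∧ d2 u y = 0) ∨ (y.2 < 0 ∧ 0 < d2 u y) := by
  let R : P2 →L[ℝ] P2 := (ContinuousLinearMap.snd ℝ ℝ ℝ).prod (ContinuousLinearMap.fst ℝ ℝ ℝ)
  have d : HasFDerivAt u (fderiv ℝ u y) (R (y.2, y.1)) :=
    (h.sol.1 _ hy).differentiableAt.hasFDerivAt
  have k : fderiv ℝ (du u) (y.2, y.1) = -(fderiv ℝ u y).comp R :=
    (d.comp (y.2, y.1) R.hasFDerivAt).neg.fderiv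
  have e : d1 (du u) (y.2, y.1) = -d2 u y := by simp [d1, d2, k, R]
  simpa [e] using mono1 H (H.hE.dual.1 a b u h) (swap_mem hy)

theorem ax1 (H : Hy) (h : IsLeaf a b u) (hy : y ∈ Rho a b) (h0 : y.2 = 0) : u 0 ≤ u y := by
  have e : u y = u (|y.1|, 0) := by
    rcases abs_cases y.1 with ⟨k, -⟩ | ⟨k, -⟩ <;> rw [k, ← h0]
    exact (H.hE.ev a b u h y (rho_sub hy)).1.symm
  have k : |y.1| < a := by simpa [Rho, h0, div_lt_one h.apos] using hy
  rw [e]
  rcases (abs_nonneg y.1).eq_or_lt with k0 | k0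
  · rw [← k0]
    exact le_rfl
  obtain ⟨c, hc, e⟩ := mvt h k0 k.le
  have := d1_pos H h ((ax_mem h.apos hc.1.le).2 (hc.2.trans k)) hc.1
  rw [e, sub_zero, div_pos_iff_of_pos_right k0] at this
  exact (sub_pos.1 this).le

theorem ax2 (H : Hy) (h : IsLeaf a b u) (hy : y ∈ Rho a b) (h0 : y.1 = 0) : u y ≤ u 0 :=
  neg_le_neg_iff.1 (ax1 H (H.hE.dual.1 a b u h) (swap_mem hy) h0)

/-! ### Coordinates -/

theorem O0_co (x : E4) : O0 x 0 = (√2)⁻¹ * (x 0 - x 3) ∧ O0 x 1 = x 2 ∧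
    O0 x 2 = (√2)⁻¹ * (x 0 + x 3) ∧ O0 x 3 = x 1 := by
  simp [O0, mkO_apply]
  constructor <;> ring

theorem X_co (u : P2 → ℝ) (y : P2) : ∃ r > 0, r ^ 2 * (1 + y.1 ^ 2 + y.2 ^ 2 + u y ^ 2) = 1 ∧
    gX O0 u y 0 = (√2)⁻¹ * (r * (1 - u y)) ∧ gX O0 u y 1 = r * y.2 ∧
    gX O0 u y 2 = (√2)⁻¹ * (r * (1 + u y)) ∧ gX O0 u y 3 = r * y.1 := by
  refine ⟨(√(1 + y.1 ^ 2 + y.2 ^ 2 + u y ^ 2))⁻¹, by positivity, ?_, ?_⟩
  · rw [inv_pow, Real.sq_sqrt (by positivity), inv_mul_cancel₀ (by positivity)]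
  · obtain ⟨e0, e1, e2, e3⟩ := O0_co (gn y (u y))
    rw [gX, e0, e1, e2, e3]
    simp [gn, mul_sub, mul_add]

theorem N_co (u : P2 → ℝ) (y : P2) : ∃ w > 0,
    gN O0 u y 0 = (√2)⁻¹ * (w * (y.1 * d1 u y + y.2 * d2 u y - u y - 1)) ∧
    gN O0 u y 1 = -(w * d2 u y) ∧
    gN O0 u y 2 = (√2)⁻¹ * (w * (y.1 * d1 u y + y.2 * d2 u y - u y + 1)) ∧
    gN O0 u y 3 = -(w * d1 u y) := by
  refine ⟨(√(1 + d1 u y ^ 2 + d2 u y ^ 2 + (u y - y.1 * d1 u y - y.2 * d2 u y) ^ 2))⁻¹,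
    by positivity, ?_⟩
  obtain ⟨e0, e1, e2, e3⟩ := O0_co (nrm y (u y) (d1 u y) (d2 u y))
  rw [gN, e0, e1, e2, e3]
  simp [nrm, mul_sub, mul_add]

theorem inP (x : E4) (s : ℝ) : ⟪x, vP s⟫_ℝ = x 2 * Real.cos s + x 3 * Real.sin s := by
  simp [inner4, vP]

theorem inQ (x : E4) (s : ℝ) : ⟪x, vQ s⟫_ℝ = x 0 * Real.cos s + x 1 * Real.sin s := by
  simp [inner4, vQ]

theorem r2 : (0 : ℝ) < (√2)⁻¹ := by positivity

theorem hA_co {a : ℝ} (ha : 0 < a) : 0 < Real.cos (hA a) ∧ 0 < Real.sin (hA a) ∧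
    Real.sin (hA a) = (√2)⁻¹ * a * Real.cos (hA a) := by
  have c : 0 < Real.cos (hA a) := Real.cos_arctan_pos _
  have e : Real.sin (hA a) = (√2)⁻¹ * a * Real.cos (hA a) := by
    rw [← Real.tan_mul_cos c.ne', hA, Real.tan_arctan]
    ring
  exact ⟨c, by rw [e]; positivity, e⟩

theorem rado (H : Hy) (h : IsLeaf a b u) (hy : y ∈ Rho a b) :
    0 < ⟪gN O0 u y, vP (hA a)⟫_ℝ ∧ 0 < ⟪gN O0 u y, vP (-hA a)⟫_ℝ ∧
      ⟪gN O0 u y, vQ (hA b)⟫_ℝ < 0 ∧ ⟪gN O0 u y, vQ (-hA b)⟫_ℝ < 0 := by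
  obtain ⟨w, hw, n0, n1, n2, n3⟩ := N_co u y
  obtain ⟨k1, k2⟩ := rad H h hy
  obtain ⟨c1, -, s1⟩ := hA_co h.apos
  obtain ⟨c2, -, s2⟩ := hA_co h.bpos
  have p1 := mul_le_mul_of_nonneg_right (le_abs_self (d1 u y)) h.apos.le
  have p2 := mul_le_mul_of_nonneg_right (neg_abs_le (d1 u y)) h.apos.le
  have q1 := mul_le_mul_of_nonneg_right (le_abs_self (d2 u y)) h.bpos.le
  have q2 := mul_le_mul_of_nonneg_right (neg_abs_le (d2 u y)) h.bpos.le
  have t1 := mul_pos (mul_pos r2 hw) c1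
  have t2 := mul_pos (mul_pos r2 hw) c2
  set d := y.1 * d1 u y + y.2 * d2 u y - u y
  simp only [inP, inQ, Real.cos_neg, Real.sin_neg, n0, n1, n2, n3, s1, s2]
  refine ⟨?_, ?_, ?_, ?_⟩
  · linarith [mul_pos t1 (show 0 < d + 1 - d1 u y * a by linarith)]
  · linarith [mul_pos t1 (show 0 < d + 1 + d1 u y * a by linarith)]
  · linarith [mul_pos t2 (show 0 < 1 - d + d2 u y * b by linarith)]
  · linarith [mul_pos t2 (show 0 < 1 - d - d2 u y * b by linarith)]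

theorem rng (H : Hy) (h : IsLeaf a b u) (hy : y ∈ Rho a b) :
    -1 < u y ∧ u y < 1 ∧ 2 * |y.2| < (1 - u y) * b := by
  obtain ⟨k1, k2, -⟩ := H.hE.inner a b u h y hy
  have ha := h.apos
  have hb := h.bpos
  have p1 : 0 ≤ 2 * |y.1| / a := by positivity
  have p2 : 0 ≤ 2 * |y.2| / b := by positivity
  unfold lo at k1
  unfold up at k2
  exact ⟨by linarith, by linarith, (div_lt_iff₀ hb).1 (by linarith)⟩

theorem dd (H : Hy) (h : IsLeaf a b u) (hy : y ∈ Rho a b) :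
    0 < y.1 * d1 u y + y.2 * d2 u y - u y + 1 ∧ 0 < 1 - (y.1 * d1 u y + y.2 * d2 u y - u y) := by
  obtain ⟨k1, k2⟩ := rad H h hy
  have p1 := mul_nonneg (abs_nonneg (d1 u y)) h.apos.le
  have p2 := mul_nonneg (abs_nonneg (d2 u y)) h.bpos.le
  exact ⟨by linarith, by linarith⟩

theorem aa_co (u : P2 → ℝ) (y : P2) : aa (gX O0 u y) =
    ((1 - u y) ^ 2 / 2 + y.2 ^ 2) / (1 + y.1 ^ 2 + y.2 ^ 2 + u y ^ 2) := by
  obtain ⟨r, hr, e, x0, x1, -⟩ := X_co u y
  rw [aa, x0, x1, eq_div_iff (by positivity)]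
  linear_combination ((1 - u y) ^ 2 / 2 + y.2 ^ 2) * e
    + (r * (1 - u y)) ^ 2 * (1 + y.1 ^ 2 + y.2 ^ 2 + u y ^ 2) * h2

theorem tri3 {x z : ℝ} (h : (0 < x ∧ 0 < z) ∨ (x = 0 ∧ z = 0) ∨ (x < 0 ∧ z < 0)) :
    (0 < z ↔ 0 < x) ∧ (z < 0 ↔ x < 0) := by
  rcases h with ⟨k, l⟩ | ⟨k, l⟩ | ⟨k, l⟩
  · exact ⟨iff_of_true l k, iff_of_false l.not_gt k.not_gt⟩
  · simp [k, l]
  · exact ⟨iff_of_false l.not_gt k.not_gt, iff_of_true l k⟩

theorem sign (H : Hy) (h : IsLeaf a b u) (hy : y ∈ Rho a b) :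
    0 < aa (gX O0 u y) ∧ aa (gX O0 u y) < 1 ∧ vv (gX O0 u y) (gN O0 u y) < 0 ∧
    (u34 (gX O0 u y) (gN O0 u y) < 0 ↔ 0 < y.1) ∧ (0 < u34 (gX O0 u y) (gN O0 u y) ↔ y.1 < 0) ∧
    (0 < u12 (gX O0 u y) (gN O0 u y) ↔ 0 < y.2) ∧
      (u12 (gX O0 u y) (gN O0 u y) < 0 ↔ y.2 < 0) := by
  obtain ⟨r, hr, -, x0, x1, x2, x3⟩ := X_co u y
  obtain ⟨w, hw, n0, n1, n2, n3⟩ := N_co u y
  obtain ⟨u0, u1, u2⟩ := rng H h hy
  obtain ⟨d0, d1'⟩ := dd H h hy
  have k2 := (rad H h hy).2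
  set d := y.1 * d1 u y + y.2 * d2 u y - u y
  have up : 0 < 1 + u y := by linarith
  have um : 0 < 1 - u y := by linarith
  have t := mul_pos r2 (mul_pos hr hw)
  have e34 : -u34 (gX O0 u y) (gN O0 u y)
      = (√2)⁻¹ * (r * w) * ((1 + u y) * d1 u y + y.1 * (d + 1)) := by
    rw [u34, x2, x3, n2, n3]
    ring
  have e12 : u12 (gX O0 u y) (gN O0 u y)
      = (√2)⁻¹ * (r * w) * ((1 - u y) * -d2 u y + y.2 * (1 - d)) := by
    rw [u12, x0, x1, n0, n1]
    ring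
  have t34 := tri3 (x := y.1) (z := -u34 (gX O0 u y) (gN O0 u y)) (by
    rw [e34]
    rcases mono1 H h hy with ⟨k, l⟩ | ⟨k, l⟩ | ⟨k, l⟩
    · exact Or.inl ⟨k, by positivity⟩
    · exact Or.inr (Or.inl ⟨k, by simp [k, l]⟩)
    · exact Or.inr (Or.inr ⟨k, mul_neg_of_pos_of_neg t
        (add_neg (mul_neg_of_pos_of_neg up l) (mul_neg_of_neg_of_pos k d0))⟩))
  have t12 := tri3 (x := y.2) (z := u12 (gX O0 u y) (gN O0 u y)) (by
    rw [e12]
    rcases mono2 H h hy with ⟨k, l⟩ | ⟨k, l⟩ | ⟨k, l⟩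
    · exact Or.inl ⟨k, mul_pos t (add_pos (mul_pos um (neg_pos.2 l)) (mul_pos k d1'))⟩
    · exact Or.inr (Or.inl ⟨k, by simp [k, l]⟩)
    · exact Or.inr (Or.inr ⟨k, mul_neg_of_pos_of_neg t
        (add_neg (mul_neg_of_pos_of_neg um (neg_neg_of_pos l)) (mul_neg_of_neg_of_pos k d1'))⟩))
  refine ⟨?_, ?_, ?_, neg_pos.symm.trans t34.1, neg_lt_zero.symm.trans t34.2, t12.1, t12.2⟩
  · rw [aa_co]
    positivity
  · rw [aa_co, div_lt_one (by positivity)]
    nlinarith [sq_nonneg y.1, pow_pos up 2]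
  · have ev : vv (gX O0 u y) (gN O0 u y) = -(r * w * ((1 - u y) * (1 - d) / 2 + y.2 * d2 u y)) := by
      rw [vv, x0, x1, n0, n1]
      linear_combination (r * w * (1 - u y) * (d - 1)) * h2
    rw [ev, neg_lt_zero]
    refine mul_pos (mul_pos hr hw) ?_
    have a1 := neg_abs_le (y.2 * d2 u y)
    rw [abs_mul] at a1
    have a2 : |y.2| * |d2 u y| * b < (1 - u y) * (1 - d) / 2 * b := by
      have := mul_le_mul_of_nonneg_left k2.le (abs_nonneg y.2)
      have := mul_lt_mul_of_pos_right u2 d1'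
      linarith
    linarith [lt_of_mul_lt_mul_right a2 h.bpos.le]

theorem cone0 {s c n m : ℝ} (hs : 0 < s) (hc : 0 < c) (hn : n < 0) (hm : 0 ≤ m)
    (h : n * c + m * s < 0) : s * √(n ^ 2 + m ^ 2) ≤ n * -s + m * c := by
  have p1 : 0 ≤ -n * s := (mul_pos (neg_pos.2 hn) hs).le
  have p2 : 0 ≤ m * c := mul_nonneg hm hc.le
  rw [← Real.sqrt_sq hs.le, ← Real.sqrt_mul (sq_nonneg s), Real.sqrt_sq hs.le]
  refine Real.sqrt_le_iff.2 ⟨by linarith, ?_⟩
  nlinarith [mul_nonneg p1 p2, mul_nonneg (mul_nonneg hm hs.le) (neg_nonneg.2 h.le),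
    sq_nonneg (m * c)]

theorem cone (H : Hy) (h : IsLeaf a b u) (hy : y ∈ Rho a b) :
    (0 ≤ y.2 → Real.sin (hA b) * √(aa (gN O0 u y)) ≤ ⟪gN O0 u y, vQ (hA b + π / 2)⟫_ℝ) ∧
    (0 ≤ y.1 → Real.sin (hA a) * √(1 - aa (gN O0 u y)) ≤ -⟪gN O0 u y, vP (hA a + π / 2)⟫_ℝ) := by
  obtain ⟨w, hw, n0, n1, n2, n3⟩ := N_co u y
  obtain ⟨d0, d1'⟩ := dd H h hy
  obtain ⟨k1, -, k2, -⟩ := rado H h hy
  obtain ⟨c1, s1, -⟩ := hA_co h.apos
  obtain ⟨c2, s2, -⟩ := hA_co h.bpos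
  rw [inP] at k1
  rw [inQ] at k2
  rw [inP, inQ, Real.cos_add_pi_div_two, Real.sin_add_pi_div_two, Real.cos_add_pi_div_two,
    Real.sin_add_pi_div_two]
  refine ⟨fun k => cone0 s2 c2 ?_ ?_ k2, fun k => ?_⟩
  · rw [n0]
    exact mul_neg_of_pos_of_neg r2 (mul_neg_of_pos_of_neg hw (by linarith))
  · rw [n1, neg_nonneg]
    refine mul_nonpos_of_nonneg_of_nonpos hw.le ?_
    rcases mono2 H h hy with ⟨-, l⟩ | ⟨-, l⟩ | ⟨l, -⟩ <;> linarith
  · have e : 1 - aa (gN O0 u y) = (-gN O0 u y 2) ^ 2 + (-gN O0 u y 3) ^ 2 := by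
      have := EuclideanSpace.real_norm_sq_eq (gN O0 u y)
      rw [(H.hM.normal O0 u y (h.sol.1 y hy).differentiableAt).2.1, Fin.sum_univ_four] at this
      unfold aa
      linarith
    rw [e]
    refine (cone0 s1 c1 ?_ ?_ (by linarith)).trans_eq (by ring)
    · rw [n2, neg_lt_zero]
      exact mul_pos r2 (mul_pos hw d0)
    · rw [n3, neg_neg]
      refine mul_nonneg hw.le ?_
      rcases mono1 H h hy with ⟨-, l⟩ | ⟨-, l⟩ | ⟨l, -⟩ <;> linarith

theorem frac {z z0 s : ℝ} (h0 : -1 < z0) (h : z0 ≤ z) (h1 : z < 1) :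
    (1 - z) ^ 2 / 2 / (1 + s ^ 2 + z ^ 2) ≤ (1 - z0) ^ 2 / 2 / (1 + z0 ^ 2) := by
  have k : (1 - z) ^ 2 / 2 / (1 + z ^ 2) ≤ (1 - z0) ^ 2 / 2 / (1 + z0 ^ 2) := by
    rw [div_le_div_iff₀ (by positivity) (by positivity)]
    have : 0 ≤ 1 - z * z0 := by nlinarith
    nlinarith [mul_nonneg (sub_nonneg.2 h) this]
  refine le_trans ?_ k
  gcongr
  linarith [sq_nonneg s]

theorem axis (H : Hy) (h : IsLeaf a b u) (hy : y ∈ Rho a b) :
    (y.2 = 0 → aa (gX O0 u y) ≤ aa (gX O0 u 0)) ∧ (y.1 = 0 → aa (gX O0 u 0) ≤ aa (gX O0 u y)) := by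
  obtain ⟨u0, u1, -⟩ := rng H h hy
  obtain ⟨v0, v1, -⟩ := rng H h (y := 0) ((ax_mem h.apos le_rfl).2 h.apos)
  rw [aa_co, aa_co]
  refine ⟨fun k => ?_, fun k => ?_⟩
  · simpa [k] using frac (s := y.1) v0 (ax1 H h hy k) u1
  · have := frac (s := y.2) (z0 := -u 0) (z := -u y) (by linarith)
      (neg_le_neg (ax2 H h hy k)) (by linarith)
    have e : ∀ z s : ℝ, ((1 - z) ^ 2 / 2 + s ^ 2) / (1 + (0 : ℝ) ^ 2 + s ^ 2 + z ^ 2)
        = 1 - (1 - -z) ^ 2 / 2 / (1 + s ^ 2 + (-z) ^ 2) := fun z s => by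
      field_simp
      ring
    rw [k, Prod.fst_zero, Prod.snd_zero, e, e, zero_pow two_ne_zero, add_zero]
    linarith

end ERado

open ERado in
/-- Rado's theorem and monotonicity -/
theorem radoS (hM : MeqS) (hD : DerS) (hT : TouchS) (hL : LeadS) (hP : PlanS) (hN : NeuS)
    (hE : TetS) : RadoS := by
  have H : Hy := ⟨hM, hD, hT, hL, hP, hE⟩
  refine ⟨fun a b u h => ⟨saddle hT hE h,
    (hN a b u h.apos h.bpos h.cont (bd_val h) (saddle hT hE h)).2⟩, fun a b u h y hy => rado H h hy,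
    fun a b u h y hy => hess H h hy, fun a b u h y hy => ?_, fun a b u h y hy => sign H h hy,
    fun a b u h y hy => cone H h hy, fun a b u h y hy => axis H h hy⟩
  have t1 := tri3 (mono1 H h hy)
  have t2 := tri3 (x := y.2) (z := -d2 u y) (by simpa using mono2 H h hy)
  exact ⟨t1.1, t1.2, neg_pos.symm.trans t2.1, neg_lt_zero.symm.trans t2.2⟩

end Pool.Agent.Lib.MP_16d934_gt
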