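import Pool.Agent.Lib.MP_16d934_gt.StC
import Pool.Agent.Lib.MP_16d934_gt.EMin
import Pool.Agent.Lib.MP_16d934_gt.DCrit
import Pool.Agent.Lib.MP_16d934_gt.DMida

-- part Pool.Agent.Lib.MP_16d934_gt.EU1
section

/-! Comparison of monotone radial graphs and of leaves. -/

set_option autoImplicit false

open Set Metric Filter Topology
open scoped ContDiff InnerProductSpace Real

noncomputable section

namespace Pool.Agent.Lib.MP_16d934_gt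

namespace EU1

/-! ### Toroidal coordinates -/

/-- toroidal coordinates as a chart -/
def Xp (s : P2 × ℝ) : E4 := pol s.2 s.1.1 s.1.2

theorem pol_eq (r φ θ : ℝ) : pol r φ θ = (Real.cos r * Real.cos θ) • ee 0 +
    (Real.cos r * Real.sin θ) • ee 1 + (Real.sin r * Real.cos φ) • ee 2 +
    (Real.sin r * Real.sin φ) • ee 3 := by
  ext i
  fin_cases i <;> simp [pol, ee]

theorem ana_Xp (s : P2 × ℝ) : AnalyticAt ℝ Xp s := by
  refine ContDiffAt.analyticAt (𝕜 := ℝ) ?_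
  have : Xp = fun s : P2 × ℝ => (Real.cos s.2 * Real.cos s.1.2) • ee 0 +
      (Real.cos s.2 * Real.sin s.1.2) • ee 1 + (Real.sin s.2 * Real.cos s.1.1) • ee 2 +
      (Real.sin s.2 * Real.sin s.1.1) • ee 3 := funext fun s => pol_eq _ _ _
  rw [this]
  fun_prop

theorem norm_pol (r φ θ : ℝ) : ‖pol r φ θ‖ = 1 := by
  have : ‖pol r φ θ‖ ^ 2 = 1 := by
    rw [EuclideanSpace.real_norm_sq_eq, Fin.sum_univ_four]
    simp [pol]
    nlinarith [Real.sin_sq_add_cos_sq r, Real.sin_sq_add_cos_sq φ, Real.sin_sq_add_cos_sq θ]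
  nlinarith [norm_nonneg (pol r φ θ)]

theorem inj_Xp {s : P2 × ℝ} (h0 : 0 < s.2) (h1 : s.2 < π / 2) :
    Function.Injective (fderiv ℝ Xp s) := by
  have hr : HasFDerivAt (fun s : P2 × ℝ => s.2) (ContinuousLinearMap.snd ℝ P2 ℝ) s :=
    hasFDerivAt_snd
  have ha : HasFDerivAt (fun s : P2 × ℝ => s.1.1)
      ((ContinuousLinearMap.fst ℝ ℝ ℝ).comp (ContinuousLinearMap.fst ℝ P2 ℝ)) s :=
    ((ContinuousLinearMap.fst ℝ ℝ ℝ).comp (ContinuousLinearMap.fst ℝ P2 ℝ)).hasFDerivAt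
  have hb : HasFDerivAt (fun s : P2 × ℝ => s.1.2)
      ((ContinuousLinearMap.snd ℝ ℝ ℝ).comp (ContinuousLinearMap.fst ℝ P2 ℝ)) s :=
    ((ContinuousLinearMap.snd ℝ ℝ ℝ).comp (ContinuousLinearMap.fst ℝ P2 ℝ)).hasFDerivAt
  have c0 := hr.cos.mul hb.cos
  have c1 := hr.cos.mul hb.sin
  have c2 := hr.sin.mul ha.cos
  have c3 := hr.sin.mul ha.sin
  have hi : ∀ i, HasFDerivAt (fun y => Xp y i)
      ((EuclideanSpace.proj i : E4 →L[ℝ] ℝ).comp (fderiv ℝ Xp s)) s := fun i =>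
    (EuclideanSpace.proj i : E4 →L[ℝ] ℝ).hasFDerivAt.comp s
      (ana_Xp s).differentiableAt.hasFDerivAt
  refine (injective_iff_map_eq_zero _).2 fun v hv => ?_
  have e0 := DFunLike.congr_fun ((hi 0).unique c0) v
  have e1 := DFunLike.congr_fun ((hi 1).unique c1) v
  have e2 := DFunLike.congr_fun ((hi 2).unique c2) v
  have e3 := DFunLike.congr_fun ((hi 3).unique c3) v
  simp [hv] at e0 e1 e2 e3
  have hs : 0 < Real.sin s.2 := Real.sin_pos_of_pos_of_lt_pi h0 (by linarith [Real.pi_pos])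
  have hc : 0 < Real.cos s.2 := Real.cos_pos_of_mem_Ioo ⟨by linarith [Real.pi_pos], h1⟩
  have t1 := Real.sin_sq_add_cos_sq s.1.1
  have t2 := Real.sin_sq_add_cos_sq s.1.2
  have v2 : Real.sin s.2 * v.2 = 0 := by
    linear_combination Real.cos s.1.2 * e0 + Real.sin s.1.2 * e1 - Real.sin s.2 * v.2 * t2
  have v12 : Real.cos s.2 * v.1.2 = 0 := by
    linear_combination Real.sin s.1.2 * e0 - Real.cos s.1.2 * e1 - Real.cos s.2 * v.1.2 * t2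
  have v11 : Real.sin s.2 * v.1.1 = 0 := by
    linear_combination Real.sin s.1.1 * e2 - Real.cos s.1.1 * e3 - Real.sin s.2 * v.1.1 * t1
  exact Prod.ext (Prod.ext ((mul_eq_zero.1 v11).resolve_left hs.ne')
    ((mul_eq_zero.1 v12).resolve_left hc.ne')) ((mul_eq_zero.1 v2).resolve_left hs.ne')

theorem lead_pol (hL : LeadS) {f g : P2 → ℝ} {x₀ : P2} (hf : AnalyticAt ℝ f x₀)
    (hg : AnalyticAt ℝ g x₀) (h0 : 0 < f x₀) (h1 : f x₀ < π / 2) (e : f x₀ = g x₀)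
    (e' : fderiv ℝ f x₀ = fderiv ℝ g x₀) (mf : ∀ᶠ x in 𝓝 x₀, MinEq (fun x => Xp (x, f x)) x)
    (mg : ∀ᶠ x in 𝓝 x₀, MinEq (fun x => Xp (x, g x)) x) :
    f =ᶠ[𝓝 x₀] g ∨ ∃ (T : ℂ →L[ℝ] P2) (m : ℕ) (c : ℂ), Function.Injective T ∧ 2 ≤ m ∧
      Lead (fun x => f x - g x) x₀ T m c := by
  have hi := inj_Xp (s := (x₀, f x₀)) h0 h1
  have hd : HasFDerivAt (fun x => Xp (x, f x)) ((fderiv ℝ Xp (x₀, f x₀)).comp
      ((ContinuousLinearMap.id ℝ P2).prod (fderiv ℝ f x₀))) x₀ :=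
    HasFDerivAt.comp (g := Xp) (f := fun x => (x, f x)) x₀ (ana_Xp _).differentiableAt.hasFDerivAt
      ((hasFDerivAt_id x₀).prodMk hf.differentiableAt.hasFDerivAt)
  obtain ⟨T, hT⟩ := BTouch.exists_T (fderiv ℝ (fun x => Xp (x, f x)) x₀) (by
    rw [hd.fderiv]
    exact fun a b hab => congrArg Prod.fst (hi hab))
  rcases hL Xp f g x₀ T (ana_Xp _) hi (Eventually.of_forall fun s => norm_pol _ _ _) hf hg e e'
    mf mg hT with h | ⟨m, c, hm, h⟩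
  · exact Or.inl h
  · refine Or.inr ⟨T, m, c, (injective_iff_map_eq_zero _).2 fun v hv => ?_, hm, h⟩
    have := hT v
    rw [hv, map_zero, norm_zero] at this
    exact norm_eq_zero.1 this.symm

/-! ### Pieces -/

variable {ϱ ϱ₁ ϱ₂ : P2 → ℝ} {w h w₁ w₂ : ℝ}

theorem box_open (w h : ℝ) : IsOpen (Box w h) := isOpen_Ioo.prod isOpen_Ioo

theorem mem_box {x : P2} : x ∈ Box w h ↔ (-w < x.1 ∧ x.1 < w) ∧ -h < x.2 ∧ x.2 < h := Iff.rfl

theorem ana_sh (hp : Piece ϱ w h) {a x : P2} (hx : x - a ∈ Box w h) :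
    AnalyticAt ℝ (fun y => ϱ (y - a)) x :=
  AnalyticAt.comp (g := ϱ) (f := fun y => y - a) (hp.ana _ hx) (analyticAt_id.sub analyticAt_const)

theorem min_sh (hM : MeqS) (hp : Piece ϱ w h) {a x : P2} (hx : x - a ∈ Box w h) :
    ∀ᶠ y in 𝓝 x, MinEq (fun y => Xp (y, ϱ (y - a))) y := by
  have hc : Continuous fun y : P2 => y - a := by fun_prop
  filter_upwards [hc.continuousAt.preimage_mem_nhds ((box_open w h).mem_nhds hx)] with y hy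
  have e : (fun y => Xp (y, ϱ (y - a))) = fun y => rX ϱ a.1 a.2 (y - a) := by
    funext y
    simp [Xp, rX]
  have h1 : AnalyticAt ℝ (rX ϱ a.1 a.2) (y - a) :=
    AnalyticAt.comp (g := Xp) (f := fun x : P2 => ((a.1 + x.1, a.2 + x.2), ϱ x)) (ana_Xp _)
      (((analyticAt_const.add analyticAt_fst).prod (analyticAt_const.add analyticAt_snd)).prod
        (hp.ana _ hy))
  rw [e]
  refine (hM.comp (rX ϱ a.1 a.2) (fun y => y - a) y (by fun_prop) h1.contDiffAt ?_).2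
    (hp.minimal _ _ _ hy)
  rw [fderiv_sub_const, fderiv_fun_id]
  exact fun _ _ h => h

theorem fderiv_ext {f g : P2 → ℝ} {x x' : P2} (h1 : d1 f x = d1 g x') (h2 : d2 f x = d2 g x') :
    fderiv ℝ f x = fderiv ℝ g x' := by
  refine ContinuousLinearMap.ext fun v => ?_
  have e : v = v.1 • ((1, 0) : P2) + v.2 • ((0, 1) : P2) := by ext <;> simp
  unfold d1 at h1
  unfold d2 at h2
  rw [e, map_add, map_add, map_smul, map_smul, map_smul, map_smul, h1, h2]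

theorem fderiv_even {f : P2 → ℝ} (L : P2 →L[ℝ] P2) (he : ∀ x, f (L x) = f x) {x v : P2}
    (hx : L x = x) (hv : L v = -v) (hf : DifferentiableAt ℝ f x) : fderiv ℝ f x v = 0 := by
  have h1 : HasFDerivAt f (fderiv ℝ f x) (L x) := by rw [hx]; exact hf.hasFDerivAt
  have h2 := h1.comp x L.hasFDerivAt
  have h3 : f ∘ L = f := funext he
  rw [h3] at h2
  have h4 := DFunLike.congr_fun (h2.unique hf.hasFDerivAt) v
  rw [ContinuousLinearMap.comp_apply, hv, map_neg] at h4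
  linarith

theorem d1_axis (hp : Piece ϱ w h) {x : P2} (hx : x ∈ Box w h) (h0 : x.1 = 0) : d1 ϱ x = 0 :=
  fderiv_even ((-ContinuousLinearMap.fst ℝ ℝ ℝ).prod (ContinuousLinearMap.snd ℝ ℝ ℝ)) hp.ev1
    (Prod.ext (by simp [h0]) rfl) (by simp) (hp.ana x hx).differentiableAt

theorem d2_axis (hp : Piece ϱ w h) {x : P2} (hx : x ∈ Box w h) (h0 : x.2 = 0) : d2 ϱ x = 0 :=
  fderiv_even ((ContinuousLinearMap.fst ℝ ℝ ℝ).prod (-ContinuousLinearMap.snd ℝ ℝ ℝ)) hp.ev2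
    (Prod.ext rfl (by simp [h0])) (by simp) (hp.ana x hx).differentiableAt

theorem mono1 (hp : Piece ϱ w h) {θ : ℝ} (h1 : -h < θ) (h2 : θ < h) :
    StrictMonoOn (fun φ => ϱ (φ, θ)) (Ioo 0 w) := by
  have hd : ∀ φ ∈ Ioo 0 w, HasDerivAt (fun φ => ϱ (φ, θ)) (d1 ϱ (φ, θ)) φ := fun φ hφ => by
    have l : HasDerivAt (fun s : ℝ => ((s, θ) : P2)) (1, 0) φ :=
      (hasDerivAt_id φ).prodMk (hasDerivAt_const φ θ)
    have hb : ((φ, θ) : P2) ∈ Box w h := ⟨⟨by linarith [hφ.1, hp.wpos], hφ.2⟩, h1, h2⟩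
    exact HasFDerivAt.comp_hasDerivAt (f := fun s : ℝ => ((s, θ) : P2)) φ
      (hp.ana _ hb).differentiableAt.hasFDerivAt l
  refine strictMonoOn_of_deriv_pos (convex_Ioo _ _)
    (fun φ hφ => (hd φ hφ).continuousAt.continuousWithinAt) fun φ hφ => ?_
  rw [interior_Ioo] at hφ
  rw [(hd φ hφ).deriv]
  exact hp.m1 _ ⟨⟨by linarith [hφ.1, hp.wpos], hφ.2⟩, h1, h2⟩ hφ.1

theorem not_lt_of_eqOn (h1 : Piece ϱ₁ w₁ h) (h2 : Piece ϱ₂ w₂ h)
    (he : ∀ x ∈ Box w₁ h, x ∈ Box w₂ h → ϱ₁ x = ϱ₂ x) : ¬ w₁ < w₂ := by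
  intro hlt
  have hw := h1.wpos
  have hh := h1.hpos
  have hb : ((w₁, 0) : P2) ∈ Box w₂ h := ⟨⟨by linarith, hlt⟩, by simpa using hh, hh⟩
  have hr := (h2.rng _ hb).2
  obtain ⟨φ, hφ, hl⟩ := h1.limP 0 hh ((π / 2 - ϱ₂ (w₁, 0)) / 2) (by linarith)
  have hc : ContinuousAt (fun s : ℝ => ϱ₂ (s, 0)) w₁ :=
    ContinuousAt.comp (g := ϱ₂) (f := fun s : ℝ => ((s, 0) : P2)) (h2.ana _ hb).continuousAt
      (by fun_prop)
  have e1 : ∀ᶠ s in 𝓝[<] w₁, ϱ₂ (s, 0) < π / 2 - (π / 2 - ϱ₂ (w₁, 0)) / 2 :=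
    (hc.eventually_lt continuousAt_const (by linarith)).filter_mono nhdsWithin_le_nhds
  obtain ⟨s, a1, a2⟩ := (e1.and (Ioo_mem_nhdsLT (max_lt hφ hw))).exists
  have s0 : 0 < s := (le_max_right _ _).trans_lt a2.1
  have hs : ((s, 0) : P2) ∈ Box w₁ h := ⟨⟨by linarith, a2.2⟩, by simpa using hh, hh⟩
  have := hl _ hs ((le_max_left _ _).trans_lt a2.1) (by simp)
  rw [he _ hs ⟨⟨by linarith, a2.2.trans hlt⟩, hs.2⟩] at this
  linarith

/-- equal germs force equal positions -/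
theorem germ_eq (h1 : Piece ϱ₁ w₁ h) (h2 : Piece ϱ₂ w₂ h) {d₁ d₂ e : ℝ} (hd : max d₁ d₂ = 0)
    (he : e ≤ 0) {x₀ : P2} (hx : x₀ ∈ Ioo 0 (min (d₁ + w₁) (d₂ + w₂)) ×ˢ Ioo 0 (e + h))
    (hg : (fun y => ϱ₁ (y - (d₁, 0))) =ᶠ[𝓝 x₀] fun y => ϱ₂ (y - (d₂, e))) :
    w₁ = w₂ ∧ d₁ = 0 ∧ d₂ = 0 ∧ e = 0 := by
  have hd1 : d₁ ≤ 0 := hd ▸ le_max_left _ _
  have hd2 : d₂ ≤ 0 := hd ▸ le_max_right _ _
  obtain ⟨⟨x1, x2⟩, x3, x4⟩ := hx
  rw [lt_min_iff] at x2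
  have w1 := h1.wpos
  have w2 := h2.wpos
  have hh := h1.hpos
  let Ω : Set P2 := (Ioo (d₁ - w₁) (d₁ + w₁) ∩ Ioo (d₂ - w₂) (d₂ + w₂)) ×ˢ Ioo (-h) (e + h) ∩
    univ ×ˢ Ioi (e - h)
  have hΩc : Convex ℝ Ω := (((convex_Ioo _ _).inter (convex_Ioo _ _)).prod (convex_Ioo _ _)).inter
    (convex_univ.prod (convex_Ioi _))
  have hΩo : IsOpen Ω := ((isOpen_Ioo.inter isOpen_Ioo).prod isOpen_Ioo).inter
    (isOpen_univ.prod isOpen_Ioi)
  have m1 : ∀ y ∈ Ω, y - (d₁, 0) ∈ Box w₁ h := by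
    rintro y ⟨⟨⟨⟨a1, a2⟩, -⟩, a3, a4⟩, -⟩
    simp only [mem_box, Prod.fst_sub, Prod.snd_sub]
    exact ⟨⟨by linarith, by linarith⟩, by linarith, by linarith⟩
  have m2 : ∀ y ∈ Ω, y - (d₂, e) ∈ Box w₂ h := by
    rintro y ⟨⟨⟨-, a1, a2⟩, -, a4⟩, -, a3⟩
    have a3' : e - h < y.2 := a3
    simp only [mem_box, Prod.fst_sub, Prod.snd_sub]
    exact ⟨⟨by linarith, by linarith⟩, by linarith, by linarith⟩
  have mem : ∀ y : P2, 0 ≤ y.1 → y.1 ≤ x₀.1 → 0 ≤ y.2 → y.2 ≤ x₀.2 → y ∈ Ω := fun y a1 a2 a3 a4 =>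
    ⟨⟨⟨⟨by linarith, by linarith [x2.1]⟩, by linarith, by linarith [x2.2]⟩, by linarith,
      by linarith⟩, trivial, show e - h < y.2 by linarith⟩
  have heq : EqOn (fun y => ϱ₁ (y - (d₁, 0))) (fun y => ϱ₂ (y - (d₂, e))) Ω :=
    AnalyticOnNhd.eqOn_of_preconnected_of_eventuallyEq (fun y hy => ana_sh h1 (m1 y hy))
      (fun y hy => ana_sh h2 (m2 y hy)) hΩc.isPreconnected (mem x₀ x1.le le_rfl x3.le le_rfl) hg
  have hfd : ∀ y ∈ Ω, fderiv ℝ ϱ₁ (y - (d₁, 0)) = fderiv ℝ ϱ₂ (y - (d₂, e)) := fun y hy => by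
    rw [← fderiv_comp_sub, ← fderiv_comp_sub]
    exact (heq.eventuallyEq_of_mem (hΩo.mem_nhds hy)).fderiv_eq
  have y1 := mem (0, x₀.2) le_rfl x1.le x3.le le_rfl
  have y2 := mem (x₀.1, 0) x1.le le_rfl le_rfl x3.le
  have k1 : d1 ϱ₁ ((0, x₀.2) - (d₁, 0)) = d1 ϱ₂ ((0, x₀.2) - (d₂, e)) := by
    unfold d1; rw [hfd _ y1]
  have k2 : d2 ϱ₁ ((x₀.1, 0) - (d₁, 0)) = d2 ϱ₂ ((x₀.1, 0) - (d₂, e)) := by
    unfold d2; rw [hfd _ y2]
  have z1 : d₁ = 0 := le_antisymm hd1 (not_lt.1 fun hlt => by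
    have z : d₂ = 0 := by
      rcases max_choice d₁ d₂ with h | h <;> linarith
    have a := h1.m1 _ (m1 _ y1) (by simpa using hlt)
    rw [k1, d1_axis h2 (m2 _ y1) (by simp [z])] at a
    exact lt_irrefl _ a)
  have z2 : d₂ = 0 := le_antisymm hd2 (not_lt.1 fun hlt => by
    have a := h2.m1 _ (m2 _ y1) (by simpa using hlt)
    rw [← k1, d1_axis h1 (m1 _ y1) (by simp [z1])] at a
    exact lt_irrefl _ a)
  have z3 : e = 0 := le_antisymm he (not_lt.1 fun hlt => by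
    have a := h2.m2 _ (m2 _ y2) (by simpa using hlt)
    rw [← k2, d2_axis h1 (m1 _ y2) (by simp)] at a
    exact lt_irrefl _ a)
  subst z1 z2 z3
  have fin : ∀ x ∈ Box w₁ h, x ∈ Box w₂ h → ϱ₁ x = ϱ₂ x := fun x a b => by
    have := heq (x := x) ⟨⟨⟨⟨by linarith [a.1.1], by linarith [a.1.2]⟩, by linarith [b.1.1],
      by linarith [b.1.2]⟩, a.2.1, by linarith [a.2.2]⟩, trivial,
      show 0 - h < x.2 by linarith [a.2.1]⟩
    simpa [← Prod.zero_eq_mk] using this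
  exact ⟨le_antisymm (not_lt.1 (not_lt_of_eqOn h2 h1 fun x a b => (fin x b a).symm))
    (not_lt.1 (not_lt_of_eqOn h1 h2 fin)), rfl, rfl, rfl⟩

/-! ### No tangency -/

theorem lead_ev {f : P2 → ℝ} {x₀ : P2} {T : ℂ →L[ℝ] P2} {m : ℕ} {c : ℂ} (hl : Lead f x₀ T m c)
    (hm : 2 ≤ m) {θ e : ℝ} (he : Real.cos θ = e) (he1 : e = 1 ∨ e = -1) :
    ∀ᶠ s : ℝ in 𝓝[>] 0, 0 < e * f (x₀ + T (s * cis ((θ - c.arg) / m))) := by
  obtain ⟨hc, C, δ, hδ, hl⟩ := hl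
  have e2 : ∀ᶠ s : ℝ in 𝓝[>] 0, C * s < ‖c‖ :=
    (ContinuousAt.eventually_lt (f := fun s : ℝ => C * s) (by fun_prop) continuousAt_const
      (by simpa using hc)).filter_mono nhdsWithin_le_nhds
  filter_upwards [e2, Ioo_mem_nhdsGT hδ] with s a2 hs
  have hn := DCrit.norm_ray hs.1.le ((θ - c.arg) / m)
  have h1 := (hl _ (hn.trans_lt hs.2)).2.1
  rw [DCrit.lead_ray c hm, he, hn, pow_succ, abs_le] at h1
  have hsm : 0 < s ^ m := pow_pos hs.1 m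
  have h2 : C * (s ^ m * s) < ‖c‖ * s ^ m := by nlinarith
  rcases he1 with rfl | rfl <;> linarith [h1.1, h1.2]

theorem cj {K I : Set P2} (hK : Convex ℝ K) (hI : K ⊆ I) {x y : P2} (hx : x ∈ K) (hy : y ∈ K) :
    JoinedIn I x y := ((hK.isPathConnected ⟨x, hx⟩).joinedIn x hx y hy).mono hI

theorem nocross (hP : PlanS) {A B : ℝ} (hA : 0 < A) (hB : 0 < B) {f : P2 → ℝ} {x₀ : P2}
    {T : ℂ →L[ℝ] P2} {m : ℕ} {c : ℂ} (hx : x₀ ∈ Ioo 0 A ×ˢ Ioo 0 B) (hf0 : f x₀ = 0)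
    (hT : Function.Injective T) (hm : 2 ≤ m) (hl : Lead f x₀ T m c) {P₁ P₂ Q₁ Q₂ : Prop}
    (hPP : ¬ (P₁ ∧ P₂)) (hQQ : ¬ (Q₁ ∧ Q₂))
    (hU : ∀ x ∈ Ioo 0 A ×ˢ Ioo 0 B, f x < 0 →
      ∃ b, JoinedIn (insert b {x | x ∈ Ioo 0 A ×ˢ Ioo 0 B ∧ f x < 0}) x b ∧
        (b.2 ≤ 0 ∨ b.2 < B ∧ (P₁ ∧ b.1 = 0 ∨ Q₁ ∧ b.1 = A)))
    (hV : ∀ x ∈ Ioo 0 A ×ˢ Ioo 0 B, 0 < f x →
      ∃ b, JoinedIn (insert b {x | x ∈ Ioo 0 A ×ˢ Ioo 0 B ∧ 0 < f x}) x b ∧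
        (B ≤ b.2 ∨ 0 < b.2 ∧ (P₂ ∧ b.1 = 0 ∨ Q₂ ∧ b.1 = A))) : False := by
  set Ω : Set P2 := Ioo 0 A ×ˢ Ioo 0 B with hΩ
  let IU : Set P2 := {b | b.2 ≤ 0 ∨ b.2 < B ∧ (P₁ ∧ b.1 = 0 ∨ Q₁ ∧ b.1 = A)}
  let IV : Set P2 := {b | B ≤ b.2 ∨ 0 < b.2 ∧ (P₂ ∧ b.1 = 0 ∨ Q₂ ∧ b.1 = A)}
  have jU : ∀ b ∈ IU, JoinedIn IU b (0, 0) := by
    have h0 : ∀ b : P2, b.2 ≤ 0 → JoinedIn IU b (0, 0) := fun b hb =>
      cj (K := univ ×ˢ Iic 0) (convex_univ.prod (convex_Iic _)) (fun y hy => Or.inl hy.2)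
        ⟨trivial, hb⟩ ⟨trivial, le_refl (0 : ℝ)⟩
    rintro b (hb | ⟨hb, hb'⟩)
    · exact h0 b hb
    · refine (cj (K := {b.1} ×ˢ Iio B) ((convex_singleton _).prod (convex_Iio _))
        (fun y hy => Or.inr ⟨hy.2, ?_⟩) (y := (b.1, 0)) ⟨rfl, hb⟩ ⟨rfl, hB⟩).trans
        (h0 _ le_rfl)
      rwa [show y.1 = b.1 from hy.1]
  have jV : ∀ b ∈ IV, JoinedIn IV b (0, B) := by
    have h0 : ∀ b : P2, B ≤ b.2 → JoinedIn IV b (0, B) := fun b hb =>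
      cj (K := univ ×ˢ Ici B) (convex_univ.prod (convex_Ici _)) (fun y hy => Or.inl hy.2)
        ⟨trivial, hb⟩ ⟨trivial, le_refl B⟩
    rintro b (hb | ⟨hb, hb'⟩)
    · exact h0 b hb
    · refine (cj (K := {b.1} ×ˢ Ioi 0) ((convex_singleton _).prod (convex_Ioi _))
        (fun y hy => Or.inr ⟨hy.2, ?_⟩) (y := (b.1, B)) ⟨rfl, hb⟩ ⟨rfl, hB⟩).trans
        (h0 _ le_rfl)
      rwa [show y.1 = b.1 from hy.1]
  have nU : ∀ y ∈ Ω, y ∉ IU := by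
    rintro y ⟨⟨a1, a2⟩, a3, a4⟩ (h | ⟨-, ⟨-, h⟩ | ⟨-, h⟩⟩) <;> linarith
  have nV : ∀ y ∈ Ω, y ∉ IV := by
    rintro y ⟨⟨a1, a2⟩, a3, a4⟩ (h | ⟨-, ⟨-, h⟩ | ⟨-, h⟩⟩) <;> linarith
  have nUV : ∀ y ∈ IU, y ∉ IV := by
    rintro y (h | ⟨h, ⟨p, e⟩ | ⟨p, e⟩⟩) (h' | ⟨h', ⟨p', e'⟩ | ⟨p', e'⟩⟩) <;>
      first | linarith | exact hPP ⟨p, p'⟩ | exact hQQ ⟨p, p'⟩
  let U : Set P2 := {x | x ∈ Ω ∧ f x < 0} ∪ IU
  let V : Set P2 := {x | x ∈ Ω ∧ 0 < f x} ∪ IV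
  have toU : ∀ x ∈ Ω, f x < 0 → JoinedIn U x (0, 0) := fun x hx hf => by
    obtain ⟨b, hj, hb⟩ := hU x hx hf
    refine (hj.mono ?_).trans ((jU b hb).mono subset_union_right)
    rintro y (rfl | hy)
    · exact Or.inr hb
    · exact Or.inl hy
  have toV : ∀ x ∈ Ω, 0 < f x → JoinedIn V x (0, B) := fun x hx hf => by
    obtain ⟨b, hj, hb⟩ := hV x hx hf
    refine (hj.mono ?_).trans ((jV b hb).mono subset_union_right)
    rintro y (rfl | hy)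
    · exact Or.inr hb
    · exact Or.inl hy
  let κ : ℂ → P2 := fun z => x₀ + T z
  have hκ : Continuous κ := by fun_prop
  obtain ⟨ε, hε, hb⟩ := nhds_basis_closedBall.eventually_iff.1
    (hκ.continuousAt (x := 0) |>.preimage_mem_nhds ((isOpen_Ioo.prod isOpen_Ioo).mem_nhds
      (show κ 0 ∈ Ω by simpa [κ] using hx)))
  have c3 : Real.cos (3 * π) = -1 := by
    rw [show 3 * π = π + 2 * π by ring, Real.cos_add_two_pi, Real.cos_pi]
  obtain ⟨δ, hδ, hs⟩ := mem_nhdsGT_iff_exists_Ioc_subset.1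
    ((lead_ev hl hm Real.cos_zero (Or.inl rfl)).and ((lead_ev hl hm Real.cos_pi (Or.inr rfl)).and
      ((lead_ev hl hm Real.cos_two_pi (Or.inl rfl)).and ((lead_ev hl hm c3 (Or.inr rfl)).and
        (Ioo_mem_nhdsGT hε)))))
  have hδ0 : 0 < δ := hδ
  have hδε : δ < ε := (hs ⟨hδ0, le_rfl⟩).2.2.2.2.2
  have inΩ : ∀ s ∈ Icc 0 δ, ∀ β, κ (s * cis β) ∈ Ω := fun s hs' β =>
    hb (DCrit.ray_mem ⟨hs'.1, hs'.2.trans hδε.le⟩ β)
  have dV : ∀ β, (∀ s ∈ Ioc 0 δ, 0 < -1 * f (κ (s * cis β))) → Disjoint V (spoke κ δ β) := by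
    intro β hβ
    refine disjoint_right.2 ?_
    rintro _ ⟨s, hs', rfl⟩ (h | h)
    · rcases eq_or_lt_of_le hs'.1 with rfl | h0
      · have := h.2
        simp [κ, hf0] at this
      · linarith [hβ s ⟨h0, hs'.2⟩, h.2]
    · exact nV _ (inΩ s hs' β) h
  have dU : ∀ β, (∀ s ∈ Ioc 0 δ, 0 < 1 * f (κ (s * cis β))) → Disjoint U (spoke κ δ β) := by
    intro β hβ
    refine disjoint_right.2 ?_
    rintro _ ⟨s, hs', rfl⟩ (h | h)
    · rcases eq_or_lt_of_le hs'.1 with rfl | h0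
      · have := h.2
        simp [κ, hf0] at this
      · linarith [hβ s ⟨h0, hs'.2⟩, h.2]
    · exact nU _ (inΩ s hs' β) h
  have hmR : (0 : ℝ) < m := Nat.cast_pos.2 (by omega)
  have hm2 : (2 : ℝ) ≤ m := by exact_mod_cast hm
  have hpi := Real.pi_pos
  have hδ' : δ ∈ Icc 0 δ := ⟨hδ0.le, le_rfl⟩
  obtain ⟨s1, s2, s3, s4, -⟩ := hs ⟨hδ0, le_rfl⟩
  refine hP.int P2 univ κ δ ((0 - c.arg) / m) ((π - c.arg) / m) ((2 * π - c.arg) / m)
    ((3 * π - c.arg) / m) V U ⟨Complex.equivRealProdCLM.symm,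
      Complex.equivRealProdCLM.symm.continuous.continuousOn,
      Complex.equivRealProdCLM.symm.injective.injOn⟩ hδ0 hκ.continuousOn
    (fun z _ z' _ h => hT (add_left_cancel h)) (mapsTo_univ _ _)
    (div_lt_div_of_pos_right (by linarith) hmR) (div_lt_div_of_pos_right (by linarith) hmR)
    (div_lt_div_of_pos_right (by linarith) hmR) ?_ (subset_univ _) (subset_univ _)
    ((toV _ (inΩ δ hδ' _) (by linarith)).trans (toV _ (inΩ δ hδ' _) (by linarith)).symm)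
    ((toU _ (inΩ δ hδ' _) (by linarith)).trans (toU _ (inΩ δ hδ' _) (by linarith)).symm) ?_
    (dV _ fun s h => (hs h).2.1) (dV _ fun s h => (hs h).2.2.2.1) (dU _ fun s h => (hs h).1)
    (dU _ fun s h => (hs h).2.2.1)
  · rw [div_add' _ _ _ hmR.ne']
    exact div_lt_div_of_pos_right (by nlinarith) hmR
  · refine disjoint_left.2 ?_
    rintro y (h | h) (h' | h')
    · linarith [h.2, h'.2]
    · exact nU y h.1 h'
    · exact nV y h'.1 h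
    · exact nUV y h' h

theorem core (hM : MeqS) (hL : LeadS) (hP : PlanS) (hS : SrcS) (h1 : Piece ϱ₁ w₁ h)
    (h2 : Piece ϱ₂ w₂ h) {d₁ d₂ e : ℝ} (hd : max d₁ d₂ = 0) (he : e ≤ 0) {x₀ : P2}
    (hx : x₀ ∈ Ioo 0 (min (d₁ + w₁) (d₂ + w₂)) ×ˢ Ioo 0 (e + h))
    (hv : ϱ₁ (x₀ - (d₁, 0)) = ϱ₂ (x₀ - (d₂, e)))
    (hf : fderiv ℝ ϱ₁ (x₀ - (d₁, 0)) = fderiv ℝ ϱ₂ (x₀ - (d₂, e))) :
    w₁ = w₂ ∧ d₁ = 0 ∧ d₂ = 0 ∧ e = 0 := by
  have hd1 : d₁ ≤ 0 := hd ▸ le_max_left _ _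
  have hd2 : d₂ ≤ 0 := hd ▸ le_max_right _ _
  have w1 := h1.wpos
  have w2 := h2.wpos
  have hh := h1.hpos
  have x1 := hx.1.1
  have x2 := lt_min_iff.1 hx.1.2
  have x3 := hx.2.1
  have x4 := hx.2.2
  have b1 : x₀ - (d₁, 0) ∈ Box w₁ h := by
    simp only [mem_box, Prod.fst_sub, Prod.snd_sub]
    exact ⟨⟨by linarith, by linarith [x2.1]⟩, by linarith, by linarith⟩
  have b2 : x₀ - (d₂, e) ∈ Box w₂ h := by
    simp only [mem_box, Prod.fst_sub, Prod.snd_sub]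
    exact ⟨⟨by linarith, by linarith [x2.2]⟩, by linarith, by linarith⟩
  rcases lead_pol hL (ana_sh h1 b1) (ana_sh h2 b2) (h1.rng _ b1).1 (h1.rng _ b1).2 hv
    (by rw [fderiv_comp_sub, fderiv_comp_sub, hf]) (min_sh hM h1 b1) (min_sh hM h2 b2) with
    hg | ⟨T, m, c, hT, hm, hl⟩
  · exact germ_eq h1 h2 hd he hx hg
  exfalso
  have m1 : min (0 + h) (e + h) = e + h := min_eq_right (by linarith)
  have m2 : min (e + h) (0 + h) = e + h := min_eq_left (by linarith)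
  refine nocross hP (x1.trans hx.1.2) (x3.trans x4) hx (sub_eq_zero.2 hv) hT hm hl
    (P₁ := d₁ < 0) (P₂ := d₂ < 0) (Q₁ := d₂ + w₂ < d₁ + w₁) (Q₂ := d₁ + w₁ < d₂ + w₂)
    (fun h => by rcases max_choice d₁ d₂ with h' | h' <;> linarith [h.1, h.2])
    (fun h => by linarith [h.1, h.2]) (fun x hx' hfx => ?_) fun x hx' hfx => ?_
  · obtain ⟨b, hj, hb⟩ := hS ϱ₁ ϱ₂ w₁ h w₂ h d₁ d₂ 0 e h1 h2 hd (max_eq_left he) _ rfl x
      ⟨by rwa [m1], sub_neg.1 hfx⟩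
    rw [m1] at hj hb
    refine ⟨b, hj.mono (insert_subset_insert fun y hy => ⟨hy.1, sub_neg.2 hy.2⟩), ?_⟩
    rcases hb with ⟨a1, a2, a3⟩ | ⟨a1, a2, a3⟩ | ⟨a1, a2, a3⟩ | ⟨a1, a2, a3⟩
    · exact Or.inr ⟨a3.2, Or.inl ⟨a1, a2⟩⟩
    · exact Or.inl a2.le
    · exact Or.inr ⟨a3.2, Or.inr ⟨a1, by rw [a2, min_eq_right a1.le]⟩⟩
    · linarith
  · obtain ⟨b, hj, hb⟩ := hS ϱ₂ ϱ₁ w₂ h w₁ h d₂ d₁ e 0 h2 h1 (by rwa [max_comm])
      (max_eq_right he) _ rfl x ⟨by rwa [m2, min_comm], sub_pos.1 hfx⟩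
    rw [m2, min_comm (d₂ + w₂)] at hj hb
    refine ⟨b, hj.mono (insert_subset_insert fun y hy => ⟨hy.1, sub_pos.2 hy.2⟩), ?_⟩
    rcases hb with ⟨a1, a2, a3⟩ | ⟨a1, a2, a3⟩ | ⟨a1, a2, a3⟩ | ⟨a1, a2, a3⟩
    · exact Or.inr ⟨a3.1, Or.inl ⟨a1, a2⟩⟩
    · linarith
    · exact Or.inr ⟨a3.1, Or.inr ⟨a1, by rw [a2, min_eq_left a1.le]⟩⟩
    · exact Or.inl a2.ge

theorem u1_aux (hM : MeqS) (hL : LeadS) (hP : PlanS) (hS : SrcS) (h1 : Piece ϱ₁ w₁ h)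
    (h2 : Piece ϱ₂ w₂ h) {x x' : P2} (hx : x ∈ Box w₁ h) (hx' : x' ∈ Box w₂ h) (a1 : 0 < x.1)
    (a2 : 0 < x.2) (a3 : 0 < x'.1) (hle : x.2 ≤ x'.2) (hv : ϱ₁ x = ϱ₂ x')
    (hf : fderiv ℝ ϱ₁ x = fderiv ℝ ϱ₂ x') : w₁ = w₂ ∧ x = x' := by
  have e1 : ((min x.1 x'.1, x.2) : P2) - (min x.1 x'.1 - x.1, 0) = x := by ext <;> simp
  have e2 : ((min x.1 x'.1, x.2) : P2) - (min x.1 x'.1 - x'.1, x.2 - x'.2) = x' := by ext <;> simp
  obtain ⟨r1, r2, r3, r4⟩ := core hM hL hP hS h1 h2 (d₁ := min x.1 x'.1 - x.1)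
    (d₂ := min x.1 x'.1 - x'.1) (e := x.2 - x'.2) (x₀ := (min x.1 x'.1, x.2))
    (by rcases le_total x.1 x'.1 with h | h <;> simp [h]) (by linarith)
    ⟨⟨lt_min a1 a3, lt_min (by linarith [hx.1.2]) (by linarith [hx'.1.2])⟩, a2,
      by linarith [hx'.2.2]⟩ (by rw [e1, e2, hv]) (by rw [e1, e2, hf])
  exact ⟨r1, Prod.ext (by linarith) (by linarith)⟩

end EU1

open EU1 in
theorem u1S (hM : MeqS) (hL : LeadS) (hP : PlanS) (hS : SrcS) : U1S := by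
  intro ϱ₁ ϱ₂ w₁ w₂ h h1 h2 x hx x' hx' a1 a2 a3 a4 hv e1 e2
  rcases le_total x.2 x'.2 with hle | hle
  · exact u1_aux hM hL hP hS h1 h2 hx hx' a1 a2 a3 hle hv (fderiv_ext e1 e2)
  · obtain ⟨r1, r2⟩ := u1_aux hM hL hP hS h2 h1 hx' hx a3 a4 a1 hle hv.symm
      (fderiv_ext e1.symm e2.symm)
    exact ⟨r1.symm, r2.symm⟩

namespace EU1

variable {ϱ ϱ₁ ϱ₂ : P2 → ℝ} {w h w₁ w₂ : ℝ}

/-! ### Aligned pieces -/

theorem cmp (hS : SrcS) (hU : U1S) (h1 : Piece ϱ₁ w₁ h) (h2 : Piece ϱ₂ w₂ h) (hne : w₁ ≠ w₂)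
    {d : ℝ} (hd : d ≤ 0) (hw : w₁ ≤ d + w₂) {x : P2}
    (hx : x ∈ Ioo 0 w₁ ×ˢ Ioo 0 h) : ϱ₂ (x - (d, 0)) < ϱ₁ x := by
  have w1 := h1.wpos
  have w2 := h2.wpos
  have hh := h1.hpos
  have le : ∀ y ∈ Ioo 0 w₁ ×ˢ Ioo 0 h, ϱ₂ (y - (d, 0)) ≤ ϱ₁ y := fun y hy => by
    by_contra hlt
    obtain ⟨b, -, hb⟩ := hS ϱ₁ ϱ₂ w₁ h w₂ h 0 d 0 0 h1 h2 (max_eq_left hd) (max_self _) _ rfl y
      ⟨by rwa [zero_add, zero_add, min_self, min_eq_left hw], by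
        rw [sub_zero y.1, sub_zero y.2]
        simpa [Prod.sub_def] using hlt⟩
    rcases hb with ⟨a1, -⟩ | ⟨a1, -⟩ | ⟨a1, -⟩ | ⟨a1, -⟩ <;> linarith
  refine lt_of_le_of_ne (le x hx) fun e => hne ?_
  have b1 : x ∈ Box w₁ h := ⟨⟨by linarith [hx.1.1], hx.1.2⟩, by linarith [hx.2.1], hx.2.2⟩
  have b2 : x - (d, 0) ∈ Box w₂ h := by
    simp only [mem_box, Prod.fst_sub, Prod.snd_sub]
    exact ⟨⟨by linarith [hx.1.1], by linarith [hx.1.2]⟩, by linarith [hx.2.1],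
      by linarith [hx.2.2]⟩
  have hmin : IsLocalMin (fun y => ϱ₁ y - ϱ₂ (y - (d, 0))) x := by
    filter_upwards [(isOpen_Ioo.prod isOpen_Ioo).mem_nhds hx] with y hy
    linarith [le y hy]
  have h0 := hmin.fderiv_eq_zero
  rw [fderiv_fun_sub (h1.ana x b1).differentiableAt (ana_sh h2 b2).differentiableAt, sub_eq_zero,
    fderiv_comp_sub] at h0
  exact (hU ϱ₁ ϱ₂ w₁ w₂ h h1 h2 x b1 _ b2 hx.1.1 hx.2.1 (by simpa using hd.trans_lt hx.1.1)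
    (by simpa using hx.2.1) e.symm (by unfold d1; rw [h0]) (by unfold d2; rw [h0])).1

theorem abs_ev (hp : Piece ϱ w h) (x : P2) : ϱ (|x.1|, |x.2|) = ϱ x := by
  have h1 : ϱ (|x.1|, |x.2|) = ϱ (x.1, |x.2|) := by
    rcases abs_choice x.1 with e | e <;> rw [e]
    exact hp.ev1 (x.1, |x.2|)
  rw [h1]
  rcases abs_choice x.2 with e | e <;> rw [e]
  exact hp.ev2 x

theorem centre_lt (hM : MeqS) (hL : LeadS) (hS : SrcS) (hU : U1S) (h1 : Piece ϱ₁ w₁ h)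
    (h2 : Piece ϱ₂ w₂ h) (hlt : w₁ < w₂) : ϱ₂ 0 < ϱ₁ 0 := by
  have w1 := h1.wpos
  have hh := h1.hpos
  have lt : ∀ x ∈ Ioo 0 w₁ ×ˢ Ioo 0 h, ϱ₂ x < ϱ₁ x := fun x hx => by
    simpa [← Prod.zero_eq_mk] using
      cmp hS hU h1 h2 hlt.ne (d := 0) le_rfl (by linarith) hx
  have sub : ∀ x ∈ Box w₁ h, x ∈ Box w₂ h := fun x hx =>
    ⟨⟨by linarith [hx.1.1], hx.1.2.trans hlt⟩, hx.2⟩
  have near : ∀ x : P2, 0 ≤ x.1 → x.1 < w₁ → 0 ≤ x.2 → x.2 < h →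
      Tendsto (fun s : ℝ => x + (s, s)) (𝓝[>] 0) (𝓝 x) ∧
        ∀ᶠ s : ℝ in 𝓝[>] 0, x + (s, s) ∈ Ioo 0 w₁ ×ˢ Ioo 0 h := fun x a1 a2 a3 a4 => by
    refine ⟨?_, ?_⟩
    · have : Continuous fun s : ℝ => x + (s, s) := by fun_prop
      simpa [← Prod.zero_eq_mk] using (this.tendsto 0).mono_left nhdsWithin_le_nhds
    · filter_upwards [Ioo_mem_nhdsGT (sub_pos.2 a2), Ioo_mem_nhdsGT (sub_pos.2 a4)] with s b1 b2
      simp only [mem_prod, mem_Ioo, Prod.fst_add, Prod.snd_add]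
      exact ⟨⟨by linarith [b1.1], by linarith [b1.2]⟩, by linarith [b1.1], by linarith [b2.2]⟩
  have le : ∀ x ∈ Box w₁ h, ϱ₂ x ≤ ϱ₁ x := fun x hx => by
    have b1 : ((|x.1|, |x.2|) : P2) ∈ Box w₁ h :=
      ⟨⟨by linarith [abs_nonneg x.1], abs_lt.2 hx.1⟩, by linarith [abs_nonneg x.2], abs_lt.2 hx.2⟩
    obtain ⟨t1, t2⟩ := near (|x.1|, |x.2|) (abs_nonneg _) b1.1.2 (abs_nonneg _) b1.2.2
    rw [← abs_ev h1, ← abs_ev h2]
    exact le_of_tendsto_of_tendsto ((h2.ana _ (sub _ b1)).continuousAt.tendsto.comp t1)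
      ((h1.ana _ b1).continuousAt.tendsto.comp t1) (t2.mono fun s hs => (lt _ hs).le)
  have b0 : (0 : P2) ∈ Box w₁ h := ⟨⟨by simpa using w1, w1⟩, by simpa using hh, hh⟩
  refine lt_of_le_of_ne (le 0 b0) fun e => ?_
  have m1 := min_sh hM h1 (a := 0) (x := 0) (by simpa using b0)
  have m2 := min_sh hM h2 (a := 0) (x := 0) (by simpa using sub _ b0)
  simp only [sub_zero] at m1 m2
  rcases lead_pol hL (h1.ana _ b0) (h2.ana _ (sub _ b0)) (h1.rng _ b0).1 (h1.rng _ b0).2 e.symm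
    (fderiv_ext ((d1_axis h1 b0 rfl).trans (d1_axis h2 (sub _ b0) rfl).symm)
      ((d2_axis h1 b0 rfl).trans (d2_axis h2 (sub _ b0) rfl).symm)) m1 m2 with
    hg | ⟨T, m, c, -, hm, hl⟩
  · obtain ⟨t1, t2⟩ := near 0 le_rfl w1 le_rfl hh
    obtain ⟨s, a1, a2⟩ := ((t1.eventually hg).and t2).exists
    exact (lt _ a2).ne' a1
  · obtain ⟨x, a1, a2⟩ := ((BTouch.signs hl (by omega) (Or.inr rfl)).and_eventually
      ((box_open w₁ h).mem_nhds b0)).exists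
    linarith [le x a2]

theorem aa_centre (hT : TetS) {a b : ℝ} {u : P2 → ℝ} (hp : LeafPiece a b u ϱ) :
    aa (gX O0 u 0) = Real.cos (ϱ 0) ^ 2 := by
  have w1 := hp.piece.wpos
  have hh := hp.piece.hpos
  obtain ⟨y, -, e, -⟩ := hp.mem 0 ⟨⟨by simpa using w1, w1⟩, by simpa using hh, hh⟩
  obtain ⟨-, c1, -, c3⟩ := hT.coord y (u y)
  have hr : 0 < rho y (u y) := BTouch.rho_pos _ _
  have e1 : y.2 = 0 := by
    have : gX O0 u y 1 = 0 := by rw [e]; simp [rX, pol]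
    rw [gX, c1] at this
    exact (div_eq_zero_iff.1 this).resolve_right hr.ne'
  have e3 : y.1 = 0 := by
    have : gX O0 u y 3 = 0 := by rw [e]; simp [rX, pol]
    rw [gX, c3] at this
    exact (div_eq_zero_iff.1 this).resolve_right hr.ne'
  rw [show (0 : P2) = y from (Prod.ext e3 e1).symm, e, show y = 0 from Prod.ext e3 e1]
  simp [aa, rX, pol]

/-- toroidal coordinates of a point in the chart at the corner -/
theorem pcoord {A r φ θ z : ℝ} {y : P2} (hr : 0 < r) (hr' : r < π / 2) (hy : 0 < y.1)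
    (e : OP A (gn y z) = pol r φ θ) : Real.tan (A - φ) = z ∧ Real.tan θ = y.2 / y.1 ∧
      Real.cos r ^ 2 * (1 + y.1 ^ 2 + y.2 ^ 2 + z ^ 2) = y.1 ^ 2 + y.2 ^ 2 := by
  have hk := DCrit.rh_pos y z
  have k2 : DCrit.rh y z ^ 2 * (1 + y.1 ^ 2 + y.2 ^ 2 + z ^ 2) = 1 := by
    rw [DCrit.rh, inv_pow, Real.sq_sqrt (by positivity)]
    exact inv_mul_cancel₀ (by positivity)
  have e0 : DCrit.rh y z * y.1 = Real.cos r * Real.cos θ := by
    simpa [OP, mkO_apply, DCrit.gn1, pol] using congrArg (fun x : E4 => x 0) e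
  have e1 : DCrit.rh y z * y.2 = Real.cos r * Real.sin θ := by
    simpa [OP, mkO_apply, DCrit.gn2, pol] using congrArg (fun x : E4 => x 1) e
  have e2 : DCrit.rh y z * Real.cos A + DCrit.rh y z * z * Real.sin A =
      Real.sin r * Real.cos φ := by
    simpa [OP, mkO_apply, DCrit.gn0, DCrit.gn3, pol] using congrArg (fun x : E4 => x 2) e
  have e3 : DCrit.rh y z * Real.sin A - DCrit.rh y z * z * Real.cos A =
      Real.sin r * Real.sin φ := by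
    simpa [OP, mkO_apply, DCrit.gn0, DCrit.gn3, pol, sub_eq_add_neg] using
      congrArg (fun x : E4 => x 3) e
  set k := DCrit.rh y z
  have hs : 0 < Real.sin r := Real.sin_pos_of_pos_of_lt_pi hr (by linarith [Real.pi_pos])
  have hc : 0 < Real.cos r := Real.cos_pos_of_mem_Ioo ⟨by linarith [Real.pi_pos], hr'⟩
  have tA := Real.sin_sq_add_cos_sq A
  have tθ := Real.sin_sq_add_cos_sq θ
  have f1 : Real.sin r * Real.cos (A - φ) = k := by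
    rw [Real.cos_sub]
    linear_combination -Real.cos A * e2 - Real.sin A * e3 + k * tA
  have f2 : Real.sin r * Real.sin (A - φ) = k * z := by
    rw [Real.sin_sub]
    linear_combination -Real.sin A * e2 + Real.cos A * e3 + k * z * tA
  have c1 : Real.cos (A - φ) ≠ 0 := fun h => by rw [h] at f1; linarith
  have c2 : Real.cos θ ≠ 0 := fun h => by rw [h] at e0; nlinarith
  refine ⟨?_, ?_, ?_⟩
  · rw [Real.tan_eq_sin_div_cos, div_eq_iff c1]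
    refine mul_left_cancel₀ hs.ne' ?_
    linear_combination f2 - z * f1
  · rw [Real.tan_eq_sin_div_cos, div_eq_div_iff c2 hy.ne']
    refine mul_left_cancel₀ hc.ne' ?_
    linear_combination y.2 * e0 - y.1 * e1
  · have : Real.cos r ^ 2 = k ^ 2 * (y.1 ^ 2 + y.2 ^ 2) := by
      linear_combination -(Real.cos r * Real.cos θ + k * y.1) * e0 -
        (Real.cos r * Real.sin θ + k * y.2) * e1 - Real.cos r ^ 2 * tθ
    rw [this]
    linear_combination (y.1 ^ 2 + y.2 ^ 2) * k2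

theorem wedge_pt (hT : TetS) {a ρ : ℝ} {u ζ : P2 → ℝ} {L : NNReal} (hp : LeafPiece a √2 u ϱ)
    (he : PExt a u ζ ρ L) {y : P2} (hy : y ∈ ball (0 : P2) ρ) (h0 : 0 < y.2) (h1 : y.2 < y.1) :
    0 < ζ y ∧ ∃ ξ ∈ Ioo 0 (hA a) ×ˢ Ioo 0 (hA √2), Real.tan (hA a - ξ.1) = ζ y ∧
      Real.tan ξ.2 = y.2 / y.1 ∧
      Real.cos (ϱ ξ) ^ 2 * (1 + y.1 ^ 2 + y.2 ^ 2 + ζ y ^ 2) = y.1 ^ 2 + y.2 ^ 2 := by
  obtain ⟨z0, x, hx, x1, e, -⟩ := he.mem y hy (by rwa [abs_of_pos h0])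
  obtain ⟨ξ, hξ, e'⟩ := hp.conv x hx
  obtain ⟨r0, r1⟩ := hp.piece.rng ξ hξ
  have hpi := Real.pi_pos
  have e2 : OP (hA a) (gn y (ζ y)) = pol (ϱ ξ) ξ.1 ξ.2 := by
    have := e.symm.trans e'
    simpa [gX, rX] using this
  obtain ⟨t1, t2, t3⟩ := pcoord r0 r1 (h0.trans h1) e2
  refine ⟨z0, ξ, ⟨⟨?_, hξ.1.2⟩, ?_, hξ.2.2⟩, t1, t2, t3⟩
  · have c3 := (hT.coord x (u x)).2.2.2
    have : gX O0 u x 3 = Real.sin (ϱ ξ) * Real.sin ξ.1 := by rw [e']; simp [rX, pol]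
    rw [gX, c3] at this
    have hr : 0 < rho x (u x) := BTouch.rho_pos _ _
    have hs : 0 < Real.sin (ϱ ξ) := Real.sin_pos_of_pos_of_lt_pi r0 (by linarith)
    have h3 : 0 < Real.sin ξ.1 := (mul_pos_iff_of_pos_left hs).1 (this ▸ div_pos x1 hr)
    by_contra hn
    have := Real.sin_nonpos_of_nonpos_of_neg_pi_le (not_lt.1 hn)
      (by linarith [hξ.1.1, hp.piece.wlt])
    linarith
  · by_contra hn
    have h4 := Real.tan_nonpos_of_nonpos_of_neg_pi_div_two_le (not_lt.1 hn)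
      (by linarith [hξ.2.1, hp.piece.hlt])
    have := div_pos h0 (h0.trans h1)
    linarith

theorem wedge_lt (hT : TetS) (hS : SrcS) (hU : U1S) {a₁ a₂ ρ₁ ρ₂ : ℝ} {u₁ u₂ ζ₁ ζ₂ : P2 → ℝ}
    {L₁ L₂ : NNReal} (p1 : LeafPiece a₁ √2 u₁ ϱ₁) (p2 : LeafPiece a₂ √2 u₂ ϱ₂)
    (e1 : PExt a₁ u₁ ζ₁ ρ₁ L₁) (e2 : PExt a₂ u₂ ζ₂ ρ₂ L₂) (hlt : hA a₁ < hA a₂) {y : P2}
    (y1 : y ∈ ball (0 : P2) ρ₁) (y2 : y ∈ ball (0 : P2) ρ₂) (h0 : 0 < y.2) (h1 : y.2 < y.1) :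
    ζ₂ y < ζ₁ y := by
  obtain ⟨z1, ξ, hξ, t1, t2, t3⟩ := wedge_pt hT p1 e1 y1 h0 h1
  obtain ⟨z2, η, hη, s1, s2, s3⟩ := wedge_pt hT p2 e2 y2 h0 h1
  by_contra hn
  rw [not_lt] at hn
  have hpi := Real.pi_pos
  have A1 := p1.piece.wlt
  have A2 := p2.piece.wlt
  have B := p1.piece.hlt
  have eθ : η.2 = ξ.2 := Real.injOn_tan ⟨by linarith [hη.2.1], by linarith [hη.2.2]⟩
    ⟨by linarith [hξ.2.1], by linarith [hξ.2.2]⟩ (s2.trans t2.symm)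
  have hφ : hA a₁ - ξ.1 ≤ hA a₂ - η.1 := (Real.strictMonoOn_tan.le_iff_le
    ⟨by linarith [hξ.1.2], by linarith [hξ.1.1]⟩ ⟨by linarith [hη.1.2], by linarith [hη.1.1]⟩).1
      (by rwa [t1, s1])
  have c1 := cmp hS hU p1.piece p2.piece hlt.ne (d := hA a₁ - hA a₂) (by linarith) (by linarith)
    hξ
  have c2 : ϱ₂ (η.1, ξ.2) ≤ ϱ₂ (ξ.1 - (hA a₁ - hA a₂), ξ.2) :=
    (mono1 p2.piece (by linarith [hξ.2.1, p1.piece.hpos]) hξ.2.2).monotoneOn hη.1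
      ⟨by linarith [hξ.1.1], by linarith [hξ.1.2]⟩ (by linarith)
  have c3 : ϱ₂ η < ϱ₁ ξ := by
    have a1 : η = (η.1, ξ.2) := Prod.ext rfl eθ
    have a2 : ξ - (hA a₁ - hA a₂, 0) = (ξ.1 - (hA a₁ - hA a₂), ξ.2) := by ext <;> simp
    rw [a2] at c1
    rw [a1]
    exact c2.trans_lt c1
  have bξ : ξ ∈ Box (hA a₁) (hA √2) :=
    ⟨⟨by linarith [hξ.1.1, p1.piece.wpos], hξ.1.2⟩, by linarith [hξ.2.1, p1.piece.hpos], hξ.2.2⟩
  have bη : η ∈ Box (hA a₂) (hA √2) :=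
    ⟨⟨by linarith [hη.1.1, p2.piece.wpos], hη.1.2⟩, by linarith [hη.2.1, p1.piece.hpos], hη.2.2⟩
  obtain ⟨r0, r1⟩ := p1.piece.rng ξ bξ
  obtain ⟨r2, r3⟩ := p2.piece.rng η bη
  have c4 : Real.cos (ϱ₁ ξ) < Real.cos (ϱ₂ η) :=
    Real.cos_lt_cos_of_nonneg_of_le_pi r2.le (by linarith) c3
  have c5 : 0 < Real.cos (ϱ₁ ξ) := Real.cos_pos_of_mem_Ioo ⟨by linarith, r1⟩
  have c6 : Real.cos (ϱ₁ ξ) ^ 2 < Real.cos (ϱ₂ η) ^ 2 := by nlinarith
  have c7 : ζ₁ y ^ 2 ≤ ζ₂ y ^ 2 := by nlinarith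
  have c8 : 0 < 1 + y.1 ^ 2 + y.2 ^ 2 + ζ₁ y ^ 2 := by positivity
  nlinarith [mul_lt_mul_of_pos_right c6 c8,
    mul_le_mul_of_nonneg_left c7 (sq_nonneg (Real.cos (ϱ₂ η)))]

theorem hess_lt (hM : MeqS) (hD : DerS) (hL : LeadS) {ζ₁ ζ₂ : P2 → ℝ} {ρ : ℝ} (hρ : 0 < ρ)
    (s1 : Sol ζ₁ (ball 0 ρ)) (s2 : Sol ζ₂ (ball 0 ρ)) (z1 : ζ₁ 0 = 0) (z2 : ζ₂ 0 = 0)
    (f1 : fderiv ℝ ζ₁ 0 = 0) (f2 : fderiv ℝ ζ₂ 0 = 0) (v1 : ∀ y : P2, ζ₁ (y.1, -y.2) = ζ₁ y)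
    (v2 : ∀ y : P2, ζ₂ (y.1, -y.2) = ζ₂ y)
    (hlt : ∀ y ∈ ball (0 : P2) ρ, 0 < y.2 → y.2 < y.1 → ζ₂ y < ζ₁ y) :
    d1 (d1 ζ₂) 0 < d1 (d1 ζ₁) 0 := by
  have h0 := mem_ball_self (x := (0 : P2)) hρ
  have hpi := Real.pi_pos
  have ray : ∀ β : ℝ, 0 < β → β < π / 4 →
      ∀ᶠ s : ℝ in 𝓝[>] 0, 0 < ζ₁ (T0 (s * cis β)) - ζ₂ (T0 (s * cis β)) := fun β b0 b1 => by
    filter_upwards [DGeo.small ρ hρ] with s hs
    have a1 : 0 < Real.sin β := Real.sin_pos_of_pos_of_lt_pi b0 (by linarith)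
    have a2 : Real.sin β < Real.cos β := by
      rw [← Real.sin_pi_div_two_sub]
      exact Real.sin_lt_sin_of_lt_of_le_pi_div_two (by linarith) (by linarith) (by linarith)
    refine sub_pos.2 (hlt _ (DGeo.T0_ball β hs.1 hs.2) ?_ ?_)
    · rw [DGeo.T0_cis]; exact mul_pos hs.1 a1
    · rw [DGeo.T0_cis]; exact mul_lt_mul_of_pos_left a2 hs.1
  have a1 := s1.1 0 h0
  have a2 := s2.1 0 h0
  rcases hL (BTouch.Xi O0) ζ₁ ζ₂ 0 T0 (BTouch.ana_Xi O0 _) (BTouch.inj_Xi O0 _)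
    (Eventually.of_forall fun s => by rw [BTouch.Xi, O0.norm_map, BTouch.norm_gn]) a1 a2
    (z1.trans z2.symm) (f1.trans f2.symm) (BTouch.sol_ev hM O0 isOpen_ball s1 h0)
    (BTouch.sol_ev hM O0 isOpen_ball s2 h0) (fun v => by
      refine (congrArg norm (BTouch.fderiv_gX O0 a1.differentiableAt z1 f1 (T0 v))).trans ?_
      rw [O0.norm_map, EuclideanSpace.norm_eq, Complex.norm_eq_sqrt_sq_add_sq, Fin.sum_univ_four]
      simp [T0, ee]) with hg | ⟨m, c, hm, hl⟩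
  · have t : Tendsto (fun s : ℝ => T0 (s * cis (π / 8))) (𝓝[>] 0) (𝓝 0) := by
      have : Continuous fun s : ℝ => T0 (s * cis (π / 8)) := by fun_prop
      simpa using (this.tendsto 0).mono_left nhdsWithin_le_nhds
    obtain ⟨s, b1, b2⟩ := ((t.eventually hg).and (ray (π / 8) (by linarith) (by linarith))).exists
    linarith
  have him : c.im = 0 := DGeo.lead_real hρ hm hl fun y _ => by simp only [v1, v2]
  have hre : c.re ≠ 0 := fun h => hl.1 (Complex.ext h him)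
  have hmR : (2 : ℝ) ≤ m := by exact_mod_cast hm
  have key : ∀ θ : ℝ, 0 < θ → θ < m * (π / 4) → 0 ≤ c.re * Real.cos θ := fun θ t0 t1 => by
    by_contra hn
    have e : (m : ℝ) * (θ / m) = θ := by field_simp
    obtain ⟨s, b1, b2⟩ := ((DGeo.spoke_sign hl (-1) (θ / m) (by rw [e, him]; linarith)).and
      (ray (θ / m) (by positivity) (by rw [div_lt_iff₀ (by linarith)]; linarith))).exists
    linarith
  have hpos : 0 < c.re := lt_of_le_of_ne (by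
    have h1 := key (π / 4) (by linarith) (by nlinarith)
    have h2 : 0 < Real.cos (π / 4) := Real.cos_pos_of_mem_Ioo ⟨by linarith, by linarith⟩
    exact nonneg_of_mul_nonneg_left h1 h2) hre.symm
  have hm2 : m = 2 := by
    by_contra hne
    have h3 : (3 : ℝ) ≤ m := by exact_mod_cast (by omega : 3 ≤ m)
    have h1 := key (5 * π / 8) (by linarith) (by nlinarith)
    have h2 : Real.cos (5 * π / 8) < 0 :=
      Real.cos_neg_of_pi_div_two_lt_of_lt (by linarith) (by linarith)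
    nlinarith
  have h5 := ((DGeo.lead_hess hD (a1.sub a2) hm hl).1 hm2).1
  have h6 : d1 (fun x => ζ₁ x - ζ₂ x) =ᶠ[𝓝 0] fun x => d1 ζ₁ x - d1 ζ₂ x := by
    filter_upwards [ball_mem_nhds (0 : P2) hρ] with x hx
    unfold d1
    rw [fderiv_fun_sub (s1.1 x hx).differentiableAt (s2.1 x hx).differentiableAt]
    rfl
  have h7 : d1 (d1 (fun x => ζ₁ x - ζ₂ x)) 0 = d1 (d1 ζ₁) 0 - d1 (d1 ζ₂) 0 := by
    have b1 := (hD ζ₁ 0 a1).1.differentiableAt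
    have b2 := (hD ζ₂ 0 a2).1.differentiableAt
    show fderiv ℝ (d1 fun x => ζ₁ x - ζ₂ x) 0 (1, 0) = _
    rw [h6.fderiv_eq, fderiv_fun_sub b1 b2]
    rfl
  have h8 : d1 (d1 (fun x => ζ₁ x - ζ₂ x)) 0 = 2 * c.re := h5
  linarith

end EU1

open EU1 in
theorem alignS (hM : MeqS) (hD : DerS) (hL : LeadS) (hT : TetS) (hF : LfS) (hP : PieceS)
    (hX : PextS) (hS : SrcS) (hU : U1S) : AlignS := by
  have hpi := Real.pi_pos
  constructor
  · intro l hl l' hl' hlt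
    obtain ⟨ϱ₁, p1⟩ := hP _ _ _ (hF l hl)
    obtain ⟨ϱ₂, p2⟩ := hP _ _ _ (hF l' hl')
    have h := centre_lt hM hL hS hU p1.piece p2.piece (by
      rw [(hT.ang.2.2 l hl).2, (hT.ang.2.2 l' hl').2]; linarith)
    have b : ∀ {ϱ : P2 → ℝ} {w h : ℝ}, Piece ϱ w h → 0 < ϱ 0 ∧ ϱ 0 < π / 2 := fun hp =>
      hp.rng 0 ⟨⟨by simpa using hp.wpos, hp.wpos⟩, by simpa using hp.hpos, hp.hpos⟩
    have c4 : Real.cos (ϱ₁ 0) < Real.cos (ϱ₂ 0) :=
      Real.cos_lt_cos_of_nonneg_of_le_pi (b p2.piece).1.le (by linarith [(b p1.piece).2]) h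
    have c5 : 0 < Real.cos (ϱ₁ 0) :=
      Real.cos_pos_of_mem_Ioo ⟨by linarith [(b p1.piece).1], (b p1.piece).2⟩
    show aa (gX O0 (lf l) 0) < aa (gX O0 (lf l') 0)
    rw [aa_centre hT p1, aa_centre hT p2]
    nlinarith
  · have ex : ∀ l ∈ Ioo 0 π, ∃ ϱ ζ ρ L, LeafPiece (aL l) √2 (lf l) ϱ ∧ 0 < ρ ∧
        PExt (aL l) (lf l) ζ ρ L := fun l hl => by
      obtain ⟨ϱ, p⟩ := hP _ _ _ (hF l hl)
      have b := p.piece.rng 0 ⟨⟨by simpa using p.piece.wpos, p.piece.wpos⟩,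
        by simpa using p.piece.hpos, p.piece.hpos⟩
      have c5 : 0 < Real.cos (ϱ 0) := Real.cos_pos_of_mem_Ioo ⟨by linarith [b.1], b.2⟩
      obtain ⟨ρ, hρ, L, h⟩ := hX.ex (1 - aa (gX O0 (lf l) 0)) (aL l) (by
        rw [aa_centre hT p]; nlinarith) (hT.ang.2.2 l hl).1
      obtain ⟨ζ, hζ⟩ := h _ _ le_rfl (hF l hl) le_rfl
      exact ⟨ϱ, ζ, ρ, L, p, hρ, hζ⟩
    intro l hl l' hl' hlt
    obtain ⟨ϱ₁, ζ₁, ρ₁, L₁, p1, r1, e1⟩ := ex l hl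
    obtain ⟨ϱ₂, ζ₂, ρ₂, L₂, p2, r2, e2⟩ := ex l' hl'
    obtain ⟨z1, f1, -⟩ := hX.hess _ _ _ _ _ r1 (hF l hl) e1
    obtain ⟨z2, f2, -⟩ := hX.hess _ _ _ _ _ r2 (hF l' hl') e2
    have h := hess_lt hM hD hL (lt_min r1 r2) (hX.mono _ _ _ _ _ _ (min_le_left _ _) e1).sol
      (hX.mono _ _ _ _ _ _ (min_le_right _ _) e2).sol z1 z2 f1 f2 e1.ev2 e2.ev2
      fun y hy h0 h1 => wedge_lt hT hS hU p1 p2 e1 e2 (by
        rw [(hT.ang.2.2 l hl).2, (hT.ang.2.2 l' hl').2]; linarith)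
        (ball_subset_ball (min_le_left _ _) hy) (ball_subset_ball (min_le_right _ _) hy) h0 h1
    rw [hX.val l hl _ _ _ r1 e1, hX.val l' hl' _ _ _ r2 e2] at h
    linarith

end Pool.Agent.Lib.MP_16d934_gt
end
end

-- part Pool.Agent.Lib.MP_16d934_gt.ESp1
section

/-! Properties of the angle function. -/

set_option autoImplicit false

open Set Metric Filter Topology Asymptotics
open scoped ContDiff InnerProductSpace NNReal Real

noncomputable section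

namespace Pool.Agent.Lib.MP_16d934_gt

namespace ESp1

theorem clo_le {f : P2 → J4} {Y : Set P2} {j : J4} (hj : j ∈ closure (f '' Y)) {W : J4 → Prop}
    (hW : ∀ᶠ i in 𝓝 j, W i) {g₁ g₂ : J4 → ℝ} (h1 : ContinuousAt g₁ j) (h2 : ContinuousAt g₂ j)
    (h : ∀ y ∈ Y, W (f y) → g₁ (f y) ≤ g₂ (f y)) : g₁ j ≤ g₂ j := by
  have := mem_closure_iff_nhdsWithin_neBot.1 hj
  refine le_of_tendsto_of_tendsto (b := 𝓝[f '' Y] j) (h1.tendsto.mono_left nhdsWithin_le_nhds)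
    (h2.tendsto.mono_left nhdsWithin_le_nhds) ?_
  filter_upwards [self_mem_nhdsWithin, hW.filter_mono nhdsWithin_le_nhds] with i ⟨y, hy, e⟩ hi
  subst e
  exact h y hy hi

theorem att_facts (hA : AttS) {l : ℝ} (hl : l ∈ Ioo 0 π) {j : J4} (h : Att l j) :
    j ∈ JS ∧ ¬ (j.2.1 = 0 ∧ j.2.2.2 = 0) ∧ ¬ (j.2.1 = 0 ∧ j.2.2.1 = 0) := by
  rcases hA.char l hl j h with ⟨y, hy, -, -, rfl⟩ | ⟨s, hs, rfl⟩
  · obtain ⟨a, -, b, -⟩ := hA.int l hl y hy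
    exact ⟨a, fun h => b.ne' h.1, fun h => b.ne' h.1⟩
  · obtain ⟨a, -, -, b, c⟩ := hA.edge l hl s hs
    exact ⟨a, fun h => c.ne' h.2, fun h => b.ne' h.2⟩

theorem lam_pos {j : J4} (h : ∃ l ∈ Ioo 0 π, Att l j) : Lam j ∈ Ioo 0 π ∧ Att (Lam j) j := by
  rw [Lam, dif_pos h]
  exact h.choose_spec

theorem lam_neg {j : J4} (h : ¬ ∃ l ∈ Ioo 0 π, Att l j) :
    Lam j = if j.2.2.2 = 0 then 0 else π := by
  rw [Lam, dif_neg h]

theorem att_of {j : J4} (h : Lam j ∈ Ioo 0 π) : Att (Lam j) j := by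
  by_cases h' : ∃ l ∈ Ioo 0 π, Att l j
  · exact (lam_pos h').2
  · rw [lam_neg h'] at h
    split_ifs at h
    exacts [absurd h.1 (lt_irrefl _), absurd h.2 (lt_irrefl _)]

theorem lam_rng (j : J4) : 0 ≤ Lam j ∧ Lam j ≤ π := by
  by_cases h' : ∃ l ∈ Ioo 0 π, Att l j
  · exact ⟨(lam_pos h').1.1.le, (lam_pos h').1.2.le⟩
  · rw [lam_neg h']
    split_ifs
    exacts [⟨le_rfl, Real.pi_pos.le⟩, ⟨Real.pi_pos.le, le_rfl⟩]

theorem js_ne {j : J4} (hj : j ∈ JS) (h1 : j.2.1 = 0) (h2 : j.2.2.1 = 0) : j.2.2.2 ≠ 0 :=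
  fun h3 => by simpa [h1, h2, h3] using hj.2.2.2.2.2

theorem lam_zero (hA : AttS) (hE : EaS) {j : J4} (hj : j ∈ JS) :
    Lam j = 0 ↔ j.2.1 = 0 ∧ j.2.2.2 = 0 := by
  constructor
  · intro h
    have h' : ¬ ∃ l ∈ Ioo 0 π, Att l j := fun h' => (lam_pos h').1.1.ne' h
    rw [lam_neg h'] at h
    split_ifs at h with h3
    · by_contra h4
      exact h' (hE j hj h4 fun h5 => h4 ⟨h5.1, h3⟩)
    · exact absurd h Real.pi_ne_zero
  · intro h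
    rw [lam_neg fun ⟨l, hl, a⟩ => (att_facts hA hl a).2.1 h, if_pos h.2]

theorem lam_top (hA : AttS) (hE : EaS) {j : J4} (hj : j ∈ JS) :
    Lam j = π ↔ j.2.1 = 0 ∧ j.2.2.1 = 0 := by
  constructor
  · intro h
    have h' : ¬ ∃ l ∈ Ioo 0 π, Att l j := fun h' => (lam_pos h').1.2.ne h
    rw [lam_neg h'] at h
    split_ifs at h with h3
    · exact absurd h.symm Real.pi_ne_zero
    · by_contra h4
      exact h' (hE j hj (fun h5 => h3 h5.2) h4)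
  · intro h
    rw [lam_neg fun ⟨l, hl, a⟩ => (att_facts hA hl a).2.2 h, if_neg (js_ne hj h.1 h.2)]

theorem cont1 {j : J4} (h : 0 < j.1) : ContinuousAt (fun i : J4 => 1 - i.2.2.1 ^ 2 / i.1) j := by
  fun_prop (disch := exact h.ne')

theorem cont2 {j : J4} (h : j.1 < 1) :
    ContinuousAt (fun i : J4 => 1 - i.2.2.2 ^ 2 / (1 - i.1)) j := by
  fun_prop (disch := exact (sub_pos.2 h).ne')

theorem ev_mid {j : J4} {ε : ℝ} (h : ε < j.1 ∧ j.1 < 1 - ε) :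
    ∀ᶠ i : J4 in 𝓝 j, ε < i.1 ∧ i.1 < 1 - ε :=
  continuous_fst.continuousAt.eventually (isOpen_Ioo.mem_nhds h)

theorem lam_cont (hL : LimS) (hA : AttS) (hU : UaS) (hE : EaS) : ContinuousOn Lam JS := by
  intro j hj
  refine isCompact_Icc.tendsto_nhds_of_unique_mapClusterPt (Eventually.of_forall lam_rng)
    fun l hl hc => ?_
  obtain ⟨U, hU1, hU2⟩ := mapClusterPt_iff_ultrafilter.1 hc
  have hU3 : Tendsto id (U : Filter J4) (𝓝 j) := hU1.trans nhdsWithin_le_nhds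
  have hU4 : ∀ᶠ i in (U : Filter J4), i ∈ JS := hU1 self_mem_nhdsWithin
  obtain ⟨j0, j1, -, -, -, js⟩ := id hj
  have j2 : 0 < 1 - j.1 := sub_pos.2 j1
  have e0 : 0 < min j.1 (1 - j.1) / 2 := by positivity
  have e1 : min j.1 (1 - j.1) / 2 < j.1 ∧ j.1 < 1 - min j.1 (1 - j.1) / 2 :=
    ⟨by linarith [min_le_left j.1 (1 - j.1)], by linarith [min_le_right j.1 (1 - j.1)]⟩
  have p1 : 0 ≤ j.2.1 ^ 2 / (j.1 * (1 - j.1)) := by positivity
  have p2 : 0 ≤ j.2.2.1 ^ 2 / j.1 := by positivity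
  have p3 : 0 ≤ j.2.2.2 ^ 2 / (1 - j.1) := by positivity
  rcases hl.1.eq_or_lt with rfl | l0
  · have k : 1 - j.2.2.1 ^ 2 / j.1 ≤ 0 := le_of_forall_pos_le_add fun η hη => by
      obtain ⟨l₀, hl₀, H⟩ := hL.zero _ η e0 hη
      refine (le_of_tendsto ((cont1 j0).tendsto.comp hU3) ?_).trans_eq (zero_add η).symm
      filter_upwards [hU4, hU3.eventually (ev_mid e1), hU2.eventually (gt_mem_nhds hl₀),
        hU2.eventually (gt_mem_nhds Real.pi_pos)] with i a b c d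
      rcases (lam_rng i).1.eq_or_lt with h | h
      · obtain ⟨h1, h2⟩ := (lam_zero hA hE a).1 h.symm
        have := a.2.2.2.2.2
        simp only [h1, h2] at this
        simp only [Function.comp, id]
        norm_num at this
        linarith
      · exact clo_le (att_of ⟨h, d⟩).2.2 (ev_mid b) (cont1 a.1) continuousAt_const fun y hy w => by
          simpa only [lj, jet, sq_abs] using (H _ ⟨h, d⟩ c y hy w.1.le w.2.le).1
    have k1 : j.2.1 ^ 2 / (j.1 * (1 - j.1)) = 0 := by linarith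
    have k2 : j.2.2.2 ^ 2 / (1 - j.1) = 0 := by linarith
    exact ((lam_zero hA hE hj).2 ⟨by simpa [j0.ne', j2.ne'] using k1,
      by simpa [j2.ne'] using k2⟩).symm
  rcases hl.2.eq_or_lt with rfl | l1
  · have k : 1 - j.2.2.2 ^ 2 / (1 - j.1) ≤ 0 := le_of_forall_pos_le_add fun η hη => by
      obtain ⟨l₀, hl₀, H⟩ := hL.top _ η e0 hη
      refine (le_of_tendsto ((cont2 j1).tendsto.comp hU3) ?_).trans_eq (zero_add η).symm
      filter_upwards [hU4, hU3.eventually (ev_mid e1), hU2.eventually (lt_mem_nhds hl₀),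
        hU2.eventually (lt_mem_nhds Real.pi_pos)] with i a b c d
      rcases (lam_rng i).2.eq_or_lt with h | h
      · obtain ⟨h1, h2⟩ := (lam_top hA hE a).1 h
        have := a.2.2.2.2.2
        simp only [h1, h2] at this
        simp only [Function.comp, id]
        norm_num at this
        linarith
      · exact clo_le (att_of ⟨d, h⟩).2.2 (ev_mid b) (cont2 a.2.1) continuousAt_const
          fun y hy w => by
          simpa only [lj, jet, sq_abs] using H _ ⟨d, h⟩ c y hy w.1.le w.2.le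
    have k1 : j.2.1 ^ 2 / (j.1 * (1 - j.1)) = 0 := by linarith
    have k2 : j.2.2.1 ^ 2 / j.1 = 0 := by linarith
    exact ((lam_top hA hE hj).2 ⟨by simpa [j0.ne', j2.ne'] using k1,
      by simpa [j0.ne'] using k2⟩).symm
  have a := hA.cl l ⟨l0, l1⟩ j j0 j1 (mem_closure_of_tendsto (hU2.prodMk_nhds hU3) (by
    filter_upwards [hU2.eventually (isOpen_Ioo.mem_nhds ⟨l0, l1⟩)] with i hi
    exact ⟨hi, att_of hi⟩))
  exact hU.att l ⟨l0, l1⟩ _ (lam_pos ⟨l, ⟨l0, l1⟩, a⟩).1 j a (lam_pos ⟨l, ⟨l0, l1⟩, a⟩).2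

theorem zero_mem (a b : ℝ) : (0 : P2) ∈ Rho a b := by simp [Rho]

theorem ev_q {j : J4} {ρ : ℝ} (h : 1 - j.1 < ρ) : ∀ᶠ i : J4 in 𝓝 j, 1 - i.1 < ρ :=
  (continuous_const.sub continuous_fst).continuousAt.eventually_lt continuousAt_const h

theorem cont3 {j : J4} (h : j.1 < 1) (C κ : ℝ) :
    ContinuousAt (fun i : J4 => C * (1 - i.1) ^ κ) j :=
  continuousAt_const.mul ((continuous_const.sub continuous_fst).continuousAt.rpow_const
    (Or.inl (sub_pos.2 h).ne'))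

/-! ### Frames at the corners -/

theorem ext4 {x y : E4} (h0 : x 0 = y 0) (h1 : x 1 = y 1) (h2 : x 2 = y 2) (h3 : x 3 = y 3) :
    x = y := by
  ext i
  fin_cases i
  exacts [h0, h1, h2, h3]

theorem norm_sq4 (x : E4) : ‖x‖ ^ 2 = x 0 ^ 2 + x 1 ^ 2 + x 2 ^ 2 + x 3 ^ 2 := by
  rw [← real_inner_self_eq_norm_sq, inner4]
  ring

theorem inner_ee (i : Fin 4) (x : E4) : ⟪ee i, x⟫_ℝ = x i := by
  simp [ee, EuclideanSpace.inner_single_left]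

theorem cfr_OP (A : ℝ) : CFr (OP A) := fun x => by simp [aa, OP, mkO_apply]

theorem cfr_gam {O O' : Iso} (h : CFr O) (h' : CFr O') : Gam (O'.symm.trans O) := fun x => by
  rw [LinearIsometryEquiv.trans_apply, h, ← h', O'.apply_symm_apply]

theorem cfr_jet (hI : InvS) {O O' : Iso} (h : CFr O) (h' : CFr O') (x n : E4) :
    jet (O x) (O n) = jet (O' x) (O' n) := by
  rw [← (hI.gam _ (cfr_gam h h')).2.2 (O' x) (O' n)]
  simp

theorem cfr_trans {O R : Iso} (h : CFr O) (h0 : ∀ x, R x 0 ^ 2 = x 0 ^ 2)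
    (h3 : ∀ x, R x 3 ^ 2 = x 3 ^ 2) : CFr (R.trans O) := fun x => by
  have := norm_sq4 (R x)
  rw [R.norm_map, norm_sq4, h0, h3] at this
  rw [LinearIsometryEquiv.trans_apply, h]
  linarith

theorem fix_coord {R : Iso} {i : Fin 4} (h : R (ee i) = ee i) (x : E4) : R x i ^ 2 = x i ^ 2 := by
  rw [← inner_ee i (R x), ← h, R.inner_map_map, inner_ee]

/-- the jet of a graph in a corner frame -/
def JC (ζ : P2 → ℝ) (y : P2) : J4 := jet (gX (OP 0) ζ y) (gN (OP 0) ζ y)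

theorem jc_eq (hI : InvS) {O : Iso} (h : CFr O) (ζ : P2 → ℝ) (y : P2) :
    jet (gX O ζ y) (gN O ζ y) = JC ζ y := cfr_jet hI h (cfr_OP 0) _ _

theorem jc_neg (hI : InvS) (hT : TetS) (ζ : P2 → ℝ) (y : P2) : JC (fun x => -ζ x) y = JC ζ y := by
  obtain ⟨h1, h2⟩ := hT.negg (OP 0) ζ y
  rw [← jc_eq hI (cfr_trans (R := rf3) (cfr_OP 0) (fun x => by simp [rf3, mkO_apply])
    fun x => by simp [rf3, mkO_apply]), h1, h2, hI.neg, JC]

theorem jc_orth (hI : InvS) (hT : TetS) (R : P2 ≃L[ℝ] P2) (hR : ∀ x y, dot (R x) (R y) = dot x y)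
    (ζ : P2 → ℝ) (y : P2) : JC ζ (R y) = JC (fun x => ζ (R x)) y := by
  obtain ⟨-, R', r0, r3, -, h⟩ := hT.orth R hR
  rw [JC, (h _ ζ y).1, (h _ ζ y).2,
    jc_eq hI (cfr_trans (cfr_OP 0) (fix_coord r0) (fix_coord r3))]

theorem jc_fst (ζ : P2 → ℝ) (y : P2) :
    (JC ζ y).1 = (y.1 ^ 2 + y.2 ^ 2) / (1 + y.1 ^ 2 + y.2 ^ 2 + ζ y ^ 2) := by
  have h := Real.sq_sqrt (show 0 ≤ 1 + y.1 ^ 2 + y.2 ^ 2 + ζ y ^ 2 by positivity)
  have p : 0 < √(1 + y.1 ^ 2 + y.2 ^ 2 + ζ y ^ 2) := by positivity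
  rw [JC, jet, gX, cfr_OP, ← h]
  simp [gn]
  field_simp

theorem jc_last (ζ : P2 → ℝ) (y : P2) :
    (JC ζ y).2.2.2 ^ 2 = (1 + ζ y ^ 2 - ζ y * dot y (grad ζ y)) ^ 2 /
      ((1 + y.1 ^ 2 + y.2 ^ 2 + ζ y ^ 2) *
        (1 + d1 ζ y ^ 2 + d2 ζ y ^ 2 + (ζ y - dot y (grad ζ y)) ^ 2)) := by
  have e : ζ y - dot y (grad ζ y) = ζ y - y.1 * d1 ζ y - y.2 * d2 ζ y := by
    simp only [dot, grad]; ring
  have h := Real.sq_sqrt (show 0 ≤ 1 + y.1 ^ 2 + y.2 ^ 2 + ζ y ^ 2 by positivity)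
  have p : 0 < √(1 + y.1 ^ 2 + y.2 ^ 2 + ζ y ^ 2) := by positivity
  have h' := Real.sq_sqrt (show 0 ≤ 1 + d1 ζ y ^ 2 + d2 ζ y ^ 2 +
    (ζ y - y.1 * d1 ζ y - y.2 * d2 ζ y) ^ 2 by positivity)
  have p' : 0 < √(1 + d1 ζ y ^ 2 + d2 ζ y ^ 2 + (ζ y - y.1 * d1 ζ y - y.2 * d2 ζ y) ^ 2) := by
    positivity
  rw [JC, jet, sq_abs, e, ← h, ← h']
  simp [gX, gN, gn, nrm, u34, OP, mkO_apply, dot, grad]
  field_simp
  ring

theorem jc_lim (hD : DerS) {ζ : P2 → ℝ} {c : ℝ} (hζ : AnalyticAt ℝ ζ 0) (h0 : ζ 0 = 0)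
    (h1 : fderiv ℝ ζ 0 = 0) (h2 : d1 (d1 ζ) 0 = 2 * c) (h3 : d1 (d2 ζ) 0 = 0)
    (h4 : d2 (d2 ζ) 0 = -(2 * c)) :
    Tendsto (fun y => (1 - (JC ζ y).2.2.2 ^ 2 / (1 - (JC ζ y).1)) / (JC ζ y).1) (𝓝[≠] 0)
      (𝓝 (4 * c ^ 2)) := by
  have H := (DMid.hess hD hζ h3).hasFDerivAt
  rw [h2, h4] at H
  have g0 := DMid.grad_zero h1
  have o0 : (fun y => grad ζ y - DMid.Hm (2 * c) (-(2 * c)) y) =o[𝓝 0] fun y => y := by
    simpa [g0] using H.isLittleO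
  have o1 : (fun y : P2 => d1 ζ y - 2 * c * y.1) =o[𝓝 0] fun y => ‖y‖ :=
    o0.prod_left_fst.norm_right
  have o2 : (fun y : P2 => d2 ζ y - -(2 * c) * y.2) =o[𝓝 0] fun y => ‖y‖ :=
    o0.prod_left_snd.norm_right
  have b1 : (fun y : P2 => y.1) =O[𝓝 0] fun y => ‖y‖ := isBigO_fst_prod'.norm_right
  have b2 : (fun y : P2 => y.2) =O[𝓝 0] fun y => ‖y‖ := isBigO_snd_prod'.norm_right
  have n : (fun y : P2 => ‖y‖ * ‖y‖) =O[𝓝 0] fun y => y.1 ^ 2 + y.2 ^ 2 :=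
    IsBigO.of_bound 1 (Eventually.of_forall fun y => by
      rw [one_mul, Real.norm_of_nonneg (by positivity), Real.norm_of_nonneg (by positivity),
        Prod.norm_def, Real.norm_eq_abs, Real.norm_eq_abs]
      rcases max_cases |y.1| |y.2| with h | h <;> rw [h.1, abs_mul_abs_self] <;>
        nlinarith [sq_nonneg y.1, sq_nonneg y.2])
  have q1 := (((o1.mul_isBigO (o1.isBigO.add (b1.const_mul_left (4 * c)))).add
    (o2.mul_isBigO (o2.isBigO.add (b2.const_mul_left (-(4 * c)))))).trans_isBigO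
    n).tendsto_div_nhds_zero
  have tg : Tendsto (grad ζ) (𝓝 0) (𝓝 0) := by
    have := H.continuousAt.tendsto
    rwa [g0] at this
  have o3 : (fun y : P2 => dot y (grad ζ y)) =o[𝓝 0] fun y => ‖y‖ := by
    simpa only [dot, mul_one] using (b1.mul_isLittleO ((isLittleO_one_iff ℝ).2 tg.fst_nhds)).add
      (b2.mul_isLittleO ((isLittleO_one_iff ℝ).2 tg.snd_nhds))
  have q2 := ((o3.mul_isBigO o3.isBigO).trans_isBigO n).tendsto_div_nhds_zero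
  have t0 : Tendsto ζ (𝓝 0) (𝓝 0) := by
    have := hζ.continuousAt.tendsto
    rwa [h0] at this
  have t1 : Tendsto (fun y : P2 => y.1) (𝓝 0) (𝓝 0) := continuous_fst.tendsto 0
  have t2 : Tendsto (fun y : P2 => y.2) (𝓝 0) (𝓝 0) := continuous_snd.tendsto 0
  have t3 : Tendsto (fun y : P2 => dot y (grad ζ y)) (𝓝 0) (𝓝 0) := by
    simpa only [dot, zero_mul, add_zero] using (t1.mul tg.fst_nhds).add (t2.mul tg.snd_nhds)
  have t4 : Tendsto (d1 ζ) (𝓝 0) (𝓝 0) := tg.fst_nhds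
  have t5 : Tendsto (d2 ζ) (𝓝 0) (𝓝 0) := tg.snd_nhds
  have T := ((((((t1.pow 2).const_add 1).add (t2.pow 2)).add (t0.pow 2)).div
    (((t0.pow 2).const_add 1).mul (((((t4.pow 2).const_add 1).add (t5.pow 2)).add
      ((t0.sub t3).pow 2)))) (by norm_num)).mul
    ((((t0.pow 2).const_add 1).mul (q1.add_const (4 * c ^ 2))).add q2)).mono_left
    (nhdsWithin_le_nhds (s := {0}ᶜ))
  norm_num at T
  refine T.congr' ?_
  filter_upwards [self_mem_nhdsWithin] with y (hy : y ≠ 0)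
  have p : 0 < y.1 ^ 2 + y.2 ^ 2 := by
    by_contra h
    exact hy (Prod.ext (show y.1 = 0 by nlinarith [sq_nonneg y.1, sq_nonneg y.2])
      (show y.2 = 0 by nlinarith [sq_nonneg y.1, sq_nonneg y.2]))
  have e : 1 - (y.1 ^ 2 + y.2 ^ 2) / (1 + y.1 ^ 2 + y.2 ^ 2 + ζ y ^ 2) =
      (1 + ζ y ^ 2) / (1 + y.1 ^ 2 + y.2 ^ 2 + ζ y ^ 2) := by
    field_simp
    ring
  rw [jc_last, jc_fst, e]
  field_simp
  ring

theorem cont_jet : Continuous fun q : E4 × E4 => jet q.1 q.2 := by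
  unfold jet aa vv u12 u34
  fun_prop

theorem jc_att (hM : MeqS) (hI : InvS) (hT : TetS) (hAt : AttS) {l : ℝ} (hl : l ∈ Ioo 0 π)
    {ζ : P2 → ℝ} {δ : ℝ} {L : ℝ≥0} (h : PExt (aL l) (lf l) ζ δ L) {y : P2}
    (hy : y ∈ ball (0 : P2) δ) (h0 : y ≠ 0) : Att l (JC ζ y) := by
  have s1 : ∀ y : P2, JC ζ (-y.1, y.2) = JC ζ y := fun y =>
    (jc_orth hI hT ((ContinuousLinearEquiv.neg ℝ).prodCongr (.refl ℝ ℝ))
      (fun x y => by simp [dot]) ζ y).trans (congrArg (JC · y) (funext h.ev1))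
  have s2 : ∀ y : P2, JC ζ (y.1, -y.2) = JC ζ y := fun y =>
    (jc_orth hI hT ((ContinuousLinearEquiv.refl ℝ ℝ).prodCongr (.neg ℝ))
      (fun x y => by simp [dot]) ζ y).trans (congrArg (JC · y) (funext h.ev2))
  have s3 : ∀ y : P2, JC ζ (y.2, y.1) = JC ζ y := fun y =>
    ((jc_orth hI hT (ContinuousLinearEquiv.prodComm ℝ ℝ ℝ)
      (fun x y => by simp [dot, add_comm]) ζ y).trans
      (congrArg (JC · y) (funext h.anti))).trans (jc_neg hI hT ζ y)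
  have s4 : ∀ y : P2, JC ζ (|y.1|, y.2) = JC ζ y := fun y => by
    rcases abs_choice y.1 with e | e <;> rw [e]
    exact s1 y
  have a1 : ∀ y ∈ ball (0 : P2) δ, |y.2| < |y.1| → Att l (JC ζ y) := fun y hy e => by
    obtain ⟨-, x, hx, -, e1, e2⟩ := h.mem (|y.1|, y.2)
      (by simpa [Prod.norm_def] using hy) e
    rw [← s4, ← jc_eq hI (cfr_OP (hA (aL l))), ← e1, ← e2]
    exact (hAt.int l hl x hx).2.1
  have a2 : ∀ y ∈ ball (0 : P2) δ, |y.1| < |y.2| → Att l (JC ζ y) := fun y hy e => by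
    rw [← s3]
    exact a1 _ (by simpa [Prod.norm_def, and_comm] using hy) e
  rcases lt_trichotomy |y.1| |y.2| with e | e | e
  · exact a2 y hy e
  swap
  · exact a1 y hy e
  have p : 0 < |y.1| := abs_pos.2 fun h1 =>
    h0 (Prod.ext h1 (abs_eq_zero.1 (by rw [← e, h1, abs_zero])))
  have p1 : 0 < y.1 ^ 2 := sq_abs y.1 ▸ pow_pos p 2
  refine ⟨by rw [jc_fst]; positivity, by rw [jc_fst, div_lt_one (by positivity)]; nlinarith, ?_⟩
  obtain ⟨c1, c2⟩ := hM.ana (OP 0) ζ y (h.sol.1 y hy)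
  have c3 : ContinuousAt (JC ζ) y :=
    cont_jet.continuousAt.comp (c1.continuousAt.prodMk c2.continuousAt)
  have t : Tendsto (fun s : ℝ => ((s * y.1, y.2) : P2)) (𝓝[<] 1) (𝓝 y) :=
    (((continuous_id.mul continuous_const).prodMk continuous_const).tendsto' 1 y
      (by simp)).mono_left nhdsWithin_le_nhds
  refine isClosed_closure.mem_of_tendsto (c3.tendsto.comp t) ?_
  filter_upwards [t.eventually (isOpen_ball.mem_nhds hy), Ioo_mem_nhdsLT one_pos] with s a b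
  refine (a2 _ a ?_).2.2
  simp only
  rw [abs_mul, abs_of_pos b.1, ← e]
  nlinarith [b.2]

/-- a cone around the first axis -/
def Cone (ε : ℝ) : Set E4 := {x | 0 < x 0 ∧ |x 1| < ε * x 0 ∧ |x 2| < ε * x 0}

theorem cone_open (ε : ℝ) : IsOpen (Cone ε) := by
  have c : ∀ i, Continuous fun x : E4 => x i := fun i => by fun_prop
  exact (isOpen_lt continuous_const (c 0)).inter
    ((isOpen_lt (c 1).abs (continuous_const.mul (c 0))).inter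
      (isOpen_lt (c 2).abs (continuous_const.mul (c 0))))

theorem cone_gn {ε : ℝ} {x : E4} (hx : ‖x‖ = 1) (h : x ∈ Cone ε) :
    ∃ y ∈ ball (0 : P2) ε, ∃ z, x = gn y z := by
  obtain ⟨h0, h1, h2⟩ := h
  refine ⟨(x 1 / x 0, x 2 / x 0), ?_, x 3 / x 0, ?_⟩
  · rw [mem_ball_zero_iff, Prod.norm_def, max_lt_iff]
    simp only [Real.norm_eq_abs, abs_div, abs_of_pos h0, div_lt_iff₀ h0]
    exact ⟨h1, h2⟩
  · have e := norm_sq4 x
    have : √(1 + (x 1 / x 0) ^ 2 + (x 2 / x 0) ^ 2 + (x 3 / x 0) ^ 2) = (x 0)⁻¹ := by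
      rw [Real.sqrt_eq_iff_mul_self_eq (by positivity) (by positivity)]
      rw [hx] at e
      field_simp
      linarith
    refine ext4 ?_ ?_ ?_ ?_ <;> simp [gn, this] <;> field_simp

theorem OP_symm (A : ℝ) (x : E4) : (OP A).symm x =
    !₂[Real.cos A * x 2 + Real.sin A * x 3, x 0, x 1, Real.sin A * x 2 - Real.cos A * x 3] := by
  rw [LinearIsometryEquiv.symm_apply_eq]
  refine ext4 ?_ ?_ ?_ ?_ <;> simp [OP, mkO_apply]
  · linear_combination (-x 2) * Real.sin_sq_add_cos_sq A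
  · linear_combination (-x 3) * Real.sin_sq_add_cos_sq A

theorem cone_conv (hT : TetS) {a : ℝ} {u ζ : P2 → ℝ} (hu : IsLeaf a √2 u) {δ ε : ℝ} {L : ℝ≥0}
    (h : PExt a u ζ δ L) (hε : ε ≤ δ) {x : P2} (hx : x ∈ Rho a √2) (h1 : 0 < x.1)
    (hc : (OP (hA a)).symm (gX O0 u x) ∈ Cone ε) : ∃ y ∈ ball (0 : P2) ε, y ≠ 0 ∧
      gX O0 u x = gX (OP (hA a)) ζ y ∧ gN O0 u x = gN (OP (hA a)) ζ y := by
  obtain ⟨y, hy, z, e⟩ := cone_gn
    (by rw [LinearIsometryEquiv.norm_map]; exact (hT.inner _ _ u hu x hx).2.2.1) hc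
  rw [LinearIsometryEquiv.symm_apply_eq] at e
  have hy' := ball_subset_ball hε hy
  obtain ⟨k1, rfl⟩ := h.conv x hx y hy' z e h1
  obtain ⟨-, x', -, -, e1, e2⟩ := h.mem y hy' k1
  obtain rfl : x = x' := (hT.inj O0 _ _ _ _ (e.trans e1.symm)).1
  exact ⟨y, hy, fun h => by simp [h] at k1, e, e2⟩

end ESp1

open ESp1

theorem sp1S (_hI : InvS) (hT : TetS) (hR : RadoS) (hQ : QdecS) (hF : LfS) (hL : LimS)
    (hAl : AlignS) (hA : AttS) (hU : UaS) (hE : EaS) : Sp1S := by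
  have key : ∀ l ∈ Ioo 0 π, ∀ j, Att l j ↔ j ∈ JS ∧ Lam j = l := fun l hl j =>
    ⟨fun h => ⟨(att_facts hA hl h).1,
      hU.att _ (lam_pos ⟨l, hl, h⟩).1 l hl j (lam_pos ⟨l, hl, h⟩).2 h⟩,
      fun h => h.2 ▸ att_of (h.2 ▸ hl)⟩
  have ang : ∀ l ∈ Ioo 0 π, π / (2 * Pool.Agent.Lib.MP_16d934_gt.hA (aL l)) = π / l :=
    fun l hl => by rw [(hT.ang.2.2 l hl).2, mul_div_cancel₀ _ two_ne_zero]
  refine ⟨⟨lam_cont hL hA hU hE, fun j _ => lam_rng j, fun j => lam_zero hA hE,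
    fun j => lam_top hA hE, fun l hl => ?_, fun l hl => ?_, fun l hl κ hκ => ?_,
    fun l hl κ hκ => ?_, fun p n hp hn h0 h1 h2 hl => ?_⟩, key⟩
  · refine ⟨_, sub_pos.2 (hR.sign _ _ _ (hF l hl) 0 (zero_mem _ _)).2.1, fun j hj h1 h2 => ?_⟩
    rcases (lam_rng j).2.eq_or_lt with h | h
    · exact h ▸ hl.2
    rcases (lam_rng j).1.eq_or_lt with h' | h'
    · obtain ⟨k1, k2⟩ := (lam_zero hA hE hj).1 h'.symm
      exact absurd k2 (js_ne hj k1 h2)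
    rcases hA.char _ ⟨h', h⟩ j (att_of ⟨h', h⟩) with ⟨y, hy, -, -, e⟩ | ⟨s, hs, e⟩
    · have k := (hR.axis _ _ _ (hF _ ⟨h', h⟩) y hy).1
        ((hA.int _ ⟨h', h⟩ y hy).2.2.2.1.1 (e ▸ h2))
      have k2 : j.1 = aa (gX O0 (lf (Lam j)) y) := congrArg Prod.fst e
      exact (hAl.mid.lt_iff_lt hl ⟨h', h⟩).1 (by linarith)
    · exact absurd (e ▸ h2) (hA.edge _ ⟨h', h⟩ s hs).2.2.2.1.ne'
  · refine ⟨_, (hR.sign _ _ _ (hF l hl) 0 (zero_mem _ _)).1, fun j hj h1 h2 => ?_⟩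
    rcases (lam_rng j).1.eq_or_lt with h' | h'
    · exact h' ▸ hl.1
    rcases (lam_rng j).2.eq_or_lt with h | h
    · obtain ⟨k1, k2⟩ := (lam_top hA hE hj).1 h
      exact absurd h2 (js_ne hj k1 k2)
    rcases hA.char _ ⟨h', h⟩ j (att_of ⟨h', h⟩) with ⟨y, hy, -, -, e⟩ | ⟨s, hs, e⟩
    · have k := (hR.axis _ _ _ (hF _ ⟨h', h⟩) y hy).2
        ((hA.int _ ⟨h', h⟩ y hy).2.2.2.2.1.1 (e ▸ h2))
      have k2 : j.1 = aa (gX O0 (lf (Lam j)) y) := congrArg Prod.fst e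
      exact (hAl.mid.lt_iff_lt ⟨h', h⟩ hl).1 (by linarith)
    · exact absurd (e ▸ h2) (hA.edge _ ⟨h', h⟩ s hs).2.2.2.2.ne'
  · obtain ⟨C, ρ, hρ, H⟩ := hQ.up _ _ _ (hF l hl) κ (by rwa [ang l hl])
    refine ⟨C, ρ, hρ, fun j hj h1 h2 => clo_le ((key l hl j).2 ⟨hj, h1⟩).2.2 (ev_q h2)
      (cont1 hj.1) (cont3 hj.2.1 C κ) fun y hy w => ?_⟩
    simpa only [lj, jet, sq_abs] using H y hy w
  · obtain ⟨C, hC, ρ, hρ, H⟩ := hQ.lo _ _ _ (hF l hl) κ (by rwa [ang l hl])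
    refine ⟨C, hC, ρ, hρ, fun j hj h1 h2 => clo_le ((key l hl j).2 ⟨hj, h1⟩).2.2 (ev_q h2)
      (cont3 hj.2.1 C κ) (cont1 hj.1) fun y hy w => ?_⟩
    simpa only [lj, jet, sq_abs] using H y hy w
  · obtain ⟨δ, X, N, f1, f2, f3⟩ := hA.fam _ hl p n hp hn h0 (att_of hl)
    exact ⟨δ, X, N, f1, fun q hq => (key _ (f2 q hq).1 _).1 (f2 q hq).2, f3⟩

theorem sp2S (hM : MeqS) (hD : DerS) (hI : InvS) (hT : TetS) (hF : LfS) (hP : PextS) (hC : CcS)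
    (hc : IcS) (hAl : AlignS) (hAt : AttS) (h1 : Sp1S) : Sp2S := by
  refine ⟨fun l hl => ?_, hAl.cor, fun μ hμ => ?_, fun l hl η hη => ?_, fun l hl => ?_⟩
  · obtain ⟨δ, hδ, U, L, -, e, -⟩ := hc.cor l hl
    have e' := e l (mem_ball_self hδ)
    linarith [(hP.hess _ _ _ _ _ hδ (hF l hl) e').2.2.1, hP.val l hl _ _ _ hδ e']
  · have cont : ContinuousOn cL (Ioo 0 π) := fun l hl => by
      obtain ⟨δ, hδ, U, L, s, e, c⟩ := hc.cor l hl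
      have c1 : ContinuousAt (fun t : ℝ => j2 (U t) 0) l :=
        ContinuousAt.comp (f := fun t : ℝ => ((t, 0) : ℝ × P2))
          (g := fun q : ℝ × P2 => j2 (U q.1) q.2) (c.continuousAt (ball_mem_nhds _ hδ))
          (continuous_id.prodMk continuous_const).continuousAt
      refine ((c1.snd.snd.snd.fst.div_const 2).congr ?_).continuousWithinAt
      filter_upwards [ball_mem_nhds l hδ] with t ht
      have := hP.val t (s ht) _ _ _ hδ (e t ht)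
      simp only [j2]
      linarith
    obtain ⟨l₁, a₁, b₁⟩ := hC.small μ hμ
    obtain ⟨l₂, a₂, b₂⟩ := hC.large μ
    exact isPreconnected_Ioo.intermediate_value a₁ a₂ cont ⟨b₁, b₂⟩
  · obtain ⟨δ, hδ, U, L, -, e, -⟩ := hc.cor l hl
    have e' := e l (mem_ball_self hδ)
    obtain ⟨k0, k1, -, k3, k4⟩ := hP.hess _ _ _ _ _ hδ (hF l hl) e'
    have k2 := hP.val l hl _ _ _ hδ e'
    obtain ⟨ε, hε, H⟩ := Metric.eventually_nhds_iff_ball.1 (eventually_nhdsWithin_iff.1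
      ((jc_lim hD (e'.sol.1 0 (mem_ball_self hδ)) k0 k1 k2 k3 (k2 ▸ k4)).eventually
        (closedBall_mem_nhds _ hη)))
    obtain ⟨ρ, hρ, HP⟩ := h1.1.nearP l hl
    obtain ⟨a0, a1, -⟩ := hT.ang.1 _ (hF l hl).apos
    set A := hA (aL l)
    have s0 : 0 < Real.sin A := Real.sin_pos_of_pos_of_lt_pi a0 (by linarith [Real.pi_pos])
    have c0 : 0 < Real.cos A := Real.cos_pos_of_mem_Ioo ⟨by linarith [Real.pi_pos], a1⟩
    set m := min (Real.cos A) (Real.sin A) with hm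
    have m0 : 0 < m := lt_min c0 s0
    have ε0 : 0 < min ε δ := lt_min hε hδ
    refine ⟨min ρ (min (1 / 2) ((min ε δ * m / 2) ^ 2)), by positivity, fun j hj j1 j2 => ?_⟩
    refine clo_le ((h1.2 l hl j).2 ⟨hj, j1⟩).2.2
      (continuous_fst.continuousAt.eventually_lt continuousAt_const j2)
      (((cont2 hj.2.1).div continuousAt_fst hj.1.ne').sub continuousAt_const).abs
      continuousAt_const fun y hy w => ?_
    obtain ⟨i1, i2, -, -, i3, i4⟩ := hAt.int l hl y hy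
    have y1 : 0 < |y.1| := abs_pos.2 fun h =>
      (HP _ i1 (w.trans_le (min_le_left _ _)) (i3.2 h)).ne ((h1.2 l hl _).1 i2).2
    have hx : ((|y.1|, |y.2|) : P2) ∈ Rho (aL l) √2 := by simpa [Rho] using hy
    rw [← i4] at w ⊢
    obtain ⟨n1, n2, -⟩ := (hT.inner _ _ _ (hF l hl) _ hx).2.2
    have n3 : 0 < gX O0 (lf l) (|y.1|, |y.2|) 3 := by
      rw [gX, (hT.coord _ _).2.2.2, rho]
      positivity
    obtain ⟨z, hz, z0, e1, e2⟩ := cone_conv hT (hF l hl) e' (min_le_right ε δ) hx y1 (by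
      change aa (gX O0 (lf l) (|y.1|, |y.2|)) < _ at w
      rw [OP_symm]
      generalize gX O0 (lf l) (|y.1|, |y.2|) = X at w n1 n2 n3
      have n4 := norm_sq4 X
      have n5 : 0 < X 2 := (mul_pos_iff_of_pos_left (hF l hl).apos).1
        (lt_of_le_of_lt (by positivity) n2)
      have w1 := w.trans_le ((min_le_right _ _).trans (min_le_left _ _))
      have w2 := w.trans_le ((min_le_right _ _).trans (min_le_right _ _))
      rw [aa] at w1 w2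
      rw [n1] at n4
      have n6 : 1 / 2 ≤ X 2 + X 3 := by nlinarith [mul_pos n5 n3]
      have n7 : m / 2 ≤ Real.cos A * X 2 + Real.sin A * X 3 := by
        nlinarith [mul_le_mul_of_nonneg_right (min_le_left (Real.cos A) (Real.sin A)) n5.le,
          mul_le_mul_of_nonneg_right (min_le_right (Real.cos A) (Real.sin A)) n3.le]
      have n8 := mul_le_mul_of_nonneg_left n7 ε0.le
      refine ⟨?_, ?_, ?_⟩ <;> simp only [Matrix.cons_val]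
      · linarith
      · exact (abs_lt_of_sq_lt_sq (b := min ε δ * m / 2) (by linarith [sq_nonneg (X 1)])
          (by positivity)).trans_le (by linarith)
      · exact (abs_lt_of_sq_lt_sq (b := min ε δ * m / 2) (by linarith [sq_nonneg (X 0)])
          (by positivity)).trans_le (by linarith))
    rw [lj, e1, e2, jc_eq hI (cfr_OP _)]
    exact H z (ball_subset_ball (min_le_left _ _) hz) z0
  · obtain ⟨δ, hδ, U, L, s, e, c⟩ := hc.cor l hl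
    refine ⟨δ, U, ⟨hδ, fun t ht => (e t ht).sol, c.fst.prodMk (c.snd.fst.prodMk c.snd.snd.fst),
      fun t ht => ?_, fun t ht => ?_⟩, fun O hO => ⟨fun t ht y hy y0 => ?_, fun S hS => ?_⟩⟩
    · obtain ⟨k0, k1, -⟩ := hP.hess _ _ _ _ _ hδ (hF t (s ht)) (e t ht)
      exact ⟨k0, k1⟩
    · obtain ⟨-, -, -, k3, k4⟩ := hP.hess _ _ _ _ _ hδ (hF t (s ht)) (e t ht)
      have k2 := hP.val t (s ht) _ _ _ hδ (e t ht)
      exact ⟨k2, k3, k2 ▸ k4⟩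
    · rw [jc_eq hI hO]
      exact (h1.2 t (s ht) _).1 (jc_att hM hI hT hAt (s ht) (e t ht) hy y0)
    · obtain ⟨ε, hε, H⟩ := Metric.eventually_nhds_iff_ball.1 hS
      have e' := e l (mem_ball_self hδ)
      have ε0 : 0 < min ε δ := lt_min hε hδ
      have o1 : IsOpen (Rho (aL l) √2) := isOpen_lt (by fun_prop) continuous_const
      have c1 : ContinuousOn (fun x => (OP (hA (aL l))).symm (gX O0 (lf l) x)) (Rho (aL l) √2) :=
        (OP _).symm.continuous.comp_continuousOn ((hT.cpt _ _ _ (hF l hl)).1.mono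
          (ofPred_subset_ofPred.2 fun x hx => le_of_lt hx))
      refine ⟨l, hl, _, cfr_gam hO (cfr_OP (hA (aL l))), _,
        (c1.isOpen_inter_preimage o1 (cone_open (min ε δ))).inter
          (isOpen_lt (continuous_const (y := (0 : ℝ))) continuous_fst), ?_, fun x hx => hx.1.1, fun x hx => ?_⟩
      · obtain ⟨-, x, hx, x1, e1, -⟩ := e'.mem (min ε δ / 2, 0)
          (by simp [abs_of_pos ε0, hδ]; linarith [min_le_right ε δ]) (by simpa using ε0)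
        refine ⟨x, ⟨hx, ?_⟩, x1⟩
        have p : 0 < (√(1 + (min ε δ / 2) ^ 2 + U l (min ε δ / 2, 0) ^ 2))⁻¹ := by positivity
        rw [mem_preimage, e1, gX, LinearIsometryEquiv.symm_apply_apply]
        refine ⟨?_, ?_, ?_⟩ <;> simp only [gn, PiLp.smul_apply, Matrix.cons_val, smul_eq_mul,
          ne_eq, OfNat.ofNat_ne_zero, not_false_eq_true, zero_pow, add_zero, mul_one, mul_zero,
          abs_zero]
        · exact p
        · rw [abs_of_pos (by positivity)]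
          nlinarith
        · positivity
      · obtain ⟨z, hz, -, e1, -⟩ := cone_conv hT (hF l hl) e' (min_le_right ε δ) hx.1.1 hx.2 hx.1.2
        rw [LinearIsometryEquiv.trans_apply, e1, gX, LinearIsometryEquiv.symm_apply_apply]
        exact H z (ball_subset_ball (min_le_left _ _) hz)

end Pool.Agent.Lib.MP_16d934_gt
end
end
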