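import Pool.Agent.Lib.MP_16d934_gt.StC

/-! Sliding a radial graph along a Killing flow. -/

set_option autoImplicit false

open Set Metric Filter Topology Real
open scoped ContDiff InnerProductSpace

noncomputable section

namespace Pool.Agent.Lib.MP_16d934_gt

namespace ESrc

/-! ### Toroidal coordinates and the flow -/

/-- the point with angles `x` and radius `r` -/
def Xi (x : P2) (r : ℝ) : E4 := pol r x.1 x.2

/-- the two angles -/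
def cx (P : E4) : P2 := (arctan (P 3 / P 2), arctan (P 1 / P 0))

/-- the radius -/
def cr (P : E4) : ℝ := arccos √(P 0 ^ 2 + P 1 ^ 2)

/-- the rotation in the plane of the coordinates 0 and 2 -/
def fl (s : ℝ) : Iso := mkO ![!₂[cos s, 0, -sin s, 0], !₂[0, 1, 0, 0], !₂[sin s, 0, cos s, 0],
  !₂[0, 0, 0, 1]] (ortho4 _ fun i j => by
    fin_cases i <;> fin_cases j <;> simp <;> nlinarith [sin_sq_add_cos_sq s])

variable {x y : P2} {r s t : ℝ} {P : E4}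

lemma Xi0 : Xi x r 0 = cos r * cos x.2 := rfl
lemma Xi1 : Xi x r 1 = cos r * sin x.2 := rfl
lemma Xi2 : Xi x r 2 = sin r * cos x.1 := rfl
lemma Xi3 : Xi x r 3 = sin r * sin x.1 := rfl
lemma fl0 : fl s P 0 = P 0 * cos s + P 2 * sin s := by simp [fl, mkO_apply]
lemma fl1 : fl s P 1 = P 1 := by simp [fl, mkO_apply]
lemma fl2 : fl s P 2 = P 2 * cos s - P 0 * sin s := by simp [fl, mkO_apply]; ring
lemma fl3 : fl s P 3 = P 3 := by simp [fl, mkO_apply]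

lemma ext4 {P Q : E4} (h0 : P 0 = Q 0) (h1 : P 1 = Q 1) (h2 : P 2 = Q 2) (h3 : P 3 = Q 3) :
    P = Q := by
  ext i
  fin_cases i
  exacts [h0, h1, h2, h3]

lemma fl_add : fl s (fl t P) = fl (s + t) P := by
  refine ext4 ?_ ?_ ?_ ?_ <;> simp only [fl0, fl1, fl2, fl3, cos_add, sin_add] <;> ring

lemma fl_zero : fl 0 P = P := by
  refine ext4 ?_ ?_ ?_ ?_ <;> simp [fl0, fl1, fl2, fl3]

lemma cont4 {α : Type} [TopologicalSpace α] {f : α → E4} {a : α}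
    (h0 : ContinuousAt (fun z => f z 0) a) (h1 : ContinuousAt (fun z => f z 1) a)
    (h2 : ContinuousAt (fun z => f z 2) a) (h3 : ContinuousAt (fun z => f z 3) a) :
    ContinuousAt f a := by
  refine (PiLp.continuous_toLp 2 _).continuousAt.comp (f := fun z => (f z).ofLp)
    (continuousAt_pi.2 fun i => ?_)
  fin_cases i
  exacts [h0, h1, h2, h3]

lemma cont_fl : Continuous fun q : ℝ × E4 => fl q.1 q.2 :=
  continuous_iff_continuousAt.2 fun q => by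
    refine cont4 ?_ ?_ ?_ ?_ <;> simp only [fl0, fl1, fl2, fl3] <;> fun_prop

lemma cont_Xi : Continuous fun q : P2 × ℝ => Xi q.1 q.2 :=
  continuous_iff_continuousAt.2 fun q => by
    refine cont4 ?_ ?_ ?_ ?_ <;> simp only [Xi0, Xi1, Xi2, Xi3] <;> fun_prop

lemma cont_flX : Continuous fun q : ℝ × P2 × ℝ => fl q.1 (Xi q.2.1 q.2.2) :=
  cont_fl.comp (f := fun q : ℝ × P2 × ℝ => (q.1, Xi q.2.1 q.2.2))
    (continuous_fst.prodMk (cont_Xi.comp continuous_snd))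

lemma cont_cr : Continuous cr := by unfold cr; fun_prop

lemma cont_c1 (h : P 2 ≠ 0) : ContinuousAt (fun Q => (cx Q).1) P :=
  continuous_arctan.continuousAt.comp (ContinuousAt.div (by fun_prop) (by fun_prop) h)

lemma cont_c2 (h : P 0 ≠ 0) : ContinuousAt (fun Q => (cx Q).2) P :=
  continuous_arctan.continuousAt.comp (ContinuousAt.div (by fun_prop) (by fun_prop) h)

lemma cont_cx (h0 : 0 < P 0) (h2 : 0 < P 2) : ContinuousAt cx P :=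
  (cont_c1 h2.ne').prodMk (cont_c2 h0.ne')

lemma sq4 (P : E4) : ‖P‖ ^ 2 = P 0 ^ 2 + P 1 ^ 2 + P 2 ^ 2 + P 3 ^ 2 := by
  rw [← real_inner_self_eq_norm_sq, inner4]; ring

lemma unit (h : ‖P‖ = 1) : P 0 ^ 2 + P 1 ^ 2 + P 2 ^ 2 + P 3 ^ 2 = 1 := by
  rw [← sq4, h, one_pow]

lemma Xi_unit : ‖Xi x r‖ = 1 := by
  refine (pow_eq_one_iff_of_nonneg (norm_nonneg _) two_ne_zero).1 ?_
  rw [sq4, Xi0, Xi1, Xi2, Xi3]
  linear_combination cos r ^ 2 * sin_sq_add_cos_sq x.2 + sin r ^ 2 * sin_sq_add_cos_sq x.1 +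
    sin_sq_add_cos_sq r

lemma fl_unit : ‖fl s (Xi x r)‖ = 1 := by rw [LinearIsometryEquiv.norm_map, Xi_unit]

lemma fl_near {ε : ℝ} (hε : 0 < ε) : ∀ᶠ t in 𝓝 (0 : ℝ), ∀ P : E4, ‖P‖ = 1 → ‖fl t P - P‖ < ε := by
  have c : ContinuousAt (fun t : ℝ => 2 - 2 * cos t) 0 := by fun_prop
  filter_upwards [c.eventually_lt (continuousAt_const (y := ε ^ 2)) (by simpa using pow_pos hε 2)]
    with t ht P hP
  refine lt_of_pow_lt_pow_left₀ 2 hε.le (lt_of_le_of_lt ?_ ht)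
  have := unit hP
  simp only [sq4, PiLp.sub_apply, fl0, fl1, fl2, fl3]
  nlinarith [sin_sq_add_cos_sq t, cos_le_one t, sq_nonneg (P 1), sq_nonneg (P 3),
    mul_nonneg (sub_nonneg.2 (cos_le_one t)) (add_nonneg (sq_nonneg (P 1)) (sq_nonneg (P 3)))]

lemma cos_pos' (h : |t| < π / 2) : 0 < cos t := cos_pos_of_mem_Ioo (abs_lt.1 h)

lemma sin_pos' (h0 : 0 < t) (h : t ≤ π / 2) : 0 < sin t :=
  sin_pos_of_pos_of_lt_pi h0 (by linarith [pi_pos])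

lemma sin_nn (h : t ∈ Icc 0 (π / 2)) : 0 ≤ sin t :=
  sin_nonneg_of_nonneg_of_le_pi h.1 (by linarith [pi_pos, h.2])

lemma cos_nn (h : t ∈ Icc 0 (π / 2)) : 0 ≤ cos t :=
  cos_nonneg_of_mem_Icc ⟨by linarith [pi_pos, h.1], h.2⟩

lemma cr_Xi (h : r ∈ Icc 0 (π / 2)) : cr (Xi x r) = r := by
  rw [cr, Xi0, Xi1, show (cos r * cos x.2) ^ 2 + (cos r * sin x.2) ^ 2 = cos r ^ 2 by
    linear_combination cos r ^ 2 * sin_sq_add_cos_sq x.2, sqrt_sq (cos_nn h),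
    arccos_cos h.1 (by linarith [pi_pos, h.2])]

/-- the range of the coordinates -/
structure Rg (x : P2) (r : ℝ) : Prop where
  r0 : 0 < r
  r1 : r < π / 2
  a1 : |x.1| < π / 2
  a2 : |x.2| < π / 2

lemma Rg.sin (h : Rg x r) : 0 < sin r := sin_pos' h.r0 h.r1.le
lemma Rg.cos (h : Rg x r) : 0 < cos r := cos_pos' (by rw [abs_of_pos h.r0]; exact h.r1)
lemma Rg.p0 (h : Rg x r) : 0 < Xi x r 0 := mul_pos h.cos (cos_pos' h.a2)
lemma Rg.p2 (h : Rg x r) : 0 < Xi x r 2 := mul_pos h.sin (cos_pos' h.a1)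
lemma Rg.cr (h : Rg x r) : cr (Xi x r) = r := cr_Xi ⟨h.r0.le, h.r1.le⟩

lemma Rg.p1 (h : Rg x r) (h' : 0 ≤ x.2) : 0 ≤ Xi x r 1 :=
  mul_nonneg h.cos.le (sin_nn ⟨h', (abs_lt.1 h.a2).2.le⟩)

lemma Rg.p3 (h : Rg x r) (h' : 0 ≤ x.1) : 0 ≤ Xi x r 3 :=
  mul_nonneg h.sin.le (sin_nn ⟨h', (abs_lt.1 h.a1).2.le⟩)

lemma Rg.cx (h : Rg x r) : cx (Xi x r) = x := by
  refine Prod.ext ?_ ?_
  · show arctan (_ / _) = _
    rw [Xi3, Xi2, mul_div_mul_left _ _ h.sin.ne', ← tan_eq_sin_div_cos,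
      arctan_tan (abs_lt.1 h.a1).1 (abs_lt.1 h.a1).2]
  · show arctan (_ / _) = _
    rw [Xi1, Xi0, mul_div_mul_left _ _ h.cos.ne', ← tan_eq_sin_div_cos,
      arctan_tan (abs_lt.1 h.a2).1 (abs_lt.1 h.a2).2]

lemma Rg.abs (h : Rg x r) : Rg (|x.1|, |x.2|) r :=
  ⟨h.r0, h.r1, by simpa using h.a1, by simpa using h.a2⟩

lemma sin_abs' (h : |t| < π / 2) : sin |t| = |sin t| := by
  rcases le_total 0 t with a | a
  · rw [abs_of_nonneg a, abs_of_nonneg (sin_nn ⟨a, (abs_lt.1 h).2.le⟩)]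
  · rw [abs_of_nonpos a, ← abs_neg, ← sin_neg,
      abs_of_nonneg (sin_nn ⟨by linarith, by linarith [(abs_lt.1 h).1]⟩)]

lemma Rg.fold {r' : ℝ} (h : Rg x r) (h' : Rg y r') (e : fl s (Xi x r) = Xi y r') :
    fl s (Xi (|x.1|, |x.2|) r) = Xi (|y.1|, |y.2|) r' := by
  have e0 := congrArg (· 0) e
  have e1 := congrArg (|· 1|) e
  have e2 := congrArg (· 2) e
  have e3 := congrArg (|· 3|) e
  simp only [fl0, fl1, fl2, fl3, Xi0, Xi1, Xi2, Xi3, abs_mul, abs_of_pos h.sin, abs_of_pos h.cos,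
    abs_of_pos h'.sin, abs_of_pos h'.cos] at e0 e1 e2 e3
  refine ext4 ?_ ?_ ?_ ?_ <;>
    simp only [fl0, fl1, fl2, fl3, Xi0, Xi1, Xi2, Xi3, cos_abs, sin_abs' h.a1, sin_abs' h.a2,
      sin_abs' h'.a1, sin_abs' h'.a2] <;> assumption

lemma polar {a b : ℝ} (ha : 0 < a) :
    √(a ^ 2 + b ^ 2) * cos (arctan (b / a)) = a ∧ √(a ^ 2 + b ^ 2) * sin (arctan (b / a)) = b := by
  have e : √(a ^ 2 + b ^ 2) = a * √(1 + (b / a) ^ 2) := by
    rw [← sqrt_sq ha.le, ← sqrt_mul (sq_nonneg a), sqrt_sq ha.le]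
    congr 1
    field_simp
  have p : 0 < √(1 + (b / a) ^ 2) := sqrt_pos.2 (by positivity)
  rw [e, cos_arctan, sin_arctan]
  constructor <;> field_simp

lemma Xi_co (hP : ‖P‖ = 1) (h0 : 0 < P 0) (h2 : 0 < P 2) :
    Xi (cx P) (cr P) = P ∧ Rg (cx P) (cr P) := by
  have u := unit hP
  have a1 : P 0 ^ 2 + P 1 ^ 2 < 1 := by nlinarith [sq_nonneg (P 3)]
  have a2 : √(P 0 ^ 2 + P 1 ^ 2) < 1 := (sqrt_lt' one_pos).2 (by simpa using a1)
  have c : cos (cr P) = √(P 0 ^ 2 + P 1 ^ 2) :=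
    cos_arccos (by linarith [sqrt_nonneg (P 0 ^ 2 + P 1 ^ 2)]) a2.le
  have s : sin (cr P) = √(P 2 ^ 2 + P 3 ^ 2) := by
    rw [cr, sin_arccos, sq_sqrt (by positivity)]
    congr 1
    linarith
  refine ⟨ext4 ?_ ?_ ?_ ?_, arccos_pos.2 a2, arccos_lt_pi_div_two.2 (sqrt_pos.2 (by positivity)),
    abs_lt.2 ⟨neg_pi_div_two_lt_arctan _, arctan_lt_pi_div_two _⟩,
    abs_lt.2 ⟨neg_pi_div_two_lt_arctan _, arctan_lt_pi_div_two _⟩⟩
  · rw [Xi0, c]; exact (polar h0).1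
  · rw [Xi1, c]; exact (polar h0).2
  · rw [Xi2, s]; exact (polar h2).1
  · rw [Xi3, s]; exact (polar h2).2

lemma fl_lt (h0 : 0 ≤ P 0) (h2 : 0 < P 2) (hs : s ∈ Ioc 0 (π / 2)) (h : 0 ≤ fl s P 2) :
    P 0 < fl s P 0 := by
  have a1 := sin_pos' hs.1 hs.2
  have a2 := cos_nn ⟨hs.1.le, hs.2⟩
  have a3 := sin_sq_add_cos_sq s
  have a4 : cos s < 1 := by nlinarith
  have a5 : 0 < fl s P 0 := by rw [fl0]; positivity
  have a6 : P 0 = fl s P 0 * cos s - fl s P 2 * sin s := by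
    rw [fl0, fl2]; linear_combination (-P 0) * a3
  nlinarith [mul_nonneg h a1.le]

lemma fl_le (h0 : 0 ≤ P 0) (h2 : 0 < P 2) (hs : s ∈ Icc 0 (π / 2)) (h : 0 ≤ fl s P 2) :
    P 0 ≤ fl s P 0 := by
  rcases hs.1.eq_or_lt with rfl | a
  · rw [fl_zero]
  · exact (fl_lt h0 h2 ⟨a, hs.2⟩ h).le

lemma cr_lt (hP : ‖P‖ = 1) (h0 : 0 ≤ P 0) (h2 : 0 < P 2) (hs : s ∈ Ioc 0 (π / 2))
    (h : 0 ≤ fl s P 2) : cr (fl s P) < cr P := by
  have a := fl_lt h0 h2 hs h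
  have u := unit ((LinearIsometryEquiv.norm_map (fl s) P).trans hP)
  refine arccos_lt_arccos (by linarith [sqrt_nonneg (P 0 ^ 2 + P 1 ^ 2)])
    (sqrt_lt_sqrt (by positivity) (by rw [fl1]; nlinarith))
    (sqrt_le_one.2 (by nlinarith [sq_nonneg (fl s P 2), sq_nonneg (fl s P 3)]))

lemma c2_le (h0 : 0 < P 0) (h1 : 0 ≤ P 1) (h2 : 0 < P 2) (hs : s ∈ Icc 0 (π / 2))
    (h : 0 ≤ fl s P 2) : 0 ≤ (cx (fl s P)).2 ∧ (cx (fl s P)).2 ≤ (cx P).2 := by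
  have a := fl_le h0.le h2 hs h
  simp only [cx, fl1]
  exact ⟨arctan_nonneg.2 (div_nonneg h1 (h0.le.trans a)),
    arctan_le_arctan_iff.2 (div_le_div_of_nonneg_left h1 h0 a)⟩

lemma c1_le (h0 : 0 < P 0) (h2 : 0 < P 2) (h3 : 0 ≤ P 3) (hs : s ∈ Icc 0 (π / 2))
    (h : 0 < fl s P 2) : 0 ≤ (cx P).1 ∧ (cx P).1 ≤ (cx (fl s P)).1 := by
  have a : fl s P 2 ≤ P 2 := by
    rw [fl2]
    nlinarith [mul_nonneg h0.le (sin_nn hs), mul_le_mul_of_nonneg_left (cos_le_one s) h2.le]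
  simp only [cx, fl3]
  exact ⟨arctan_nonneg.2 (div_nonneg h3 h2.le),
    arctan_le_arctan_iff.2 (div_le_div_of_nonneg_left h3 h a)⟩

lemma c1_tan {A : ℝ} (h2 : 0 < P 2) (hA : |A| < π / 2) (h : (cx P).1 ≤ A) : P 3 ≤ tan A * P 2 := by
  rw [← arctan_tan (abs_lt.1 hA).1 (abs_lt.1 hA).2] at h
  exact (div_le_iff₀ h2).1 (arctan_le_arctan_iff.1 h)

lemma exists_gap {A : ℝ} (hA : A ∈ Ioo 0 (π / 2)) (hs : s ∈ Ioc 0 (π / 2)) : ∃ A' < A,
    ∀ (x : P2) (r : ℝ), r ∈ Ioc 0 (π / 2) → |x.1| < π / 2 → |x.2| < π / 2 →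
      fl s (Xi x r) 3 ≤ tan A * fl s (Xi x r) 2 → x.1 ≤ A' := by
  have t0 := tan_pos_of_pos_of_lt_pi_div_two hA.1 hA.2
  have a1 := sin_pos' hs.1 hs.2
  have a4 : cos s < 1 := by nlinarith [sin_sq_add_cos_sq s]
  refine ⟨arctan (tan A * cos s), ?_, fun x r hr h1 h2 h => ?_⟩
  · conv_rhs => rw [← arctan_tan (by linarith [hA.1, pi_pos]) hA.2]
    exact arctan_lt_arctan_iff.2 (by nlinarith)
  · rw [← arctan_tan (abs_lt.1 h1).1 (abs_lt.1 h1).2, arctan_le_arctan_iff, tan_eq_sin_div_cos,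
      div_le_iff₀ (cos_pos' h1)]
    rw [fl3, fl2, Xi0, Xi2, Xi3] at h
    refine le_of_mul_le_mul_left (h.trans ?_) (sin_pos' hr.1 hr.2)
    nlinarith [mul_nonneg t0.le (mul_nonneg (mul_nonneg (cos_nn ⟨hr.1.le, hr.2⟩)
      (cos_pos' h2).le) a1.le)]

/-! ### Shifted pieces -/

lemma mem_Box {A B : ℝ} : x ∈ Box A B ↔ |x.1| < A ∧ |x.2| < B := by
  simp only [Box, mem_prod, mem_Ioo, abs_lt]

lemma Box_open (A B : ℝ) : IsOpen (Box A B) := isOpen_Ioo.prod isOpen_Ioo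

/-- the properties of a shifted piece -/
structure Pc (ϱ : P2 → ℝ) (A B : ℝ) : Prop where
  Alt : A < π / 2
  Blt : B < π / 2
  cont : ∀ x ∈ Box A B, ContinuousAt ϱ x
  rng : ∀ x ∈ Box A B, 0 < ϱ x ∧ ϱ x < π / 2
  min : ∀ D ⊆ Box A B, IsOpen D → IsMin ((fun x => Xi x (ϱ x)) '' D)
  mono : ∀ x ∈ Box A B, ∀ y ∈ Box A B, |x.1| ≤ y.1 → |y.2| ≤ x.2 → ϱ x ≤ ϱ y
  limP : ∀ θ < B, ∀ η > 0, ∃ φ < A, ∀ x ∈ Box A B, φ < x.1 → |x.2| ≤ θ → π / 2 - η < ϱ x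
  limQ : ∀ φ < A, ∀ η > 0, ∃ θ < B, ∀ x ∈ Box A B, θ < x.2 → |x.1| ≤ φ → ϱ x < η

variable {ϱ : P2 → ℝ} {A B : ℝ}

lemma Pc.rg' (h : Pc ϱ A B) (hx : x ∈ Box A B) (h0 : 0 < r) (h1 : r ≤ ϱ x) : Rg x r :=
  ⟨h0, h1.trans_lt (h.rng x hx).2, (mem_Box.1 hx).1.trans h.Alt, (mem_Box.1 hx).2.trans h.Blt⟩

lemma Pc.rg (h : Pc ϱ A B) (hx : x ∈ Box A B) : Rg x (ϱ x) := h.rg' hx (h.rng x hx).1 le_rfl

lemma Pc.contX (h : Pc ϱ A B) (hx : x ∈ Box A B) : ContinuousAt (fun z => Xi z (ϱ z)) x :=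
  cont_Xi.continuousAt.comp (f := fun z => (z, ϱ z)) (continuousAt_id.prodMk (h.cont x hx))

lemma piece_abs {w h : ℝ} (hp : Piece ϱ w h) (x : P2) : ϱ (|x.1|, |x.2|) = ϱ x := by
  rcases abs_choice x.1 with a | a <;> rcases abs_choice x.2 with b | b <;> rw [a, b]
  · exact hp.ev2 x
  · exact hp.ev1 x
  · exact (hp.ev1 (x.1, -x.2)).trans (hp.ev2 x)

lemma piece_mono {w h : ℝ} (hp : Piece ϱ w h) (hx : x ∈ Box w h) (hy : y ∈ Box w h)
    (h1 : |x.1| ≤ |y.1|) (h2 : |y.2| ≤ |x.2|) : ϱ x ≤ ϱ y := by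
  rw [mem_Box] at hx hy
  have m1 : MonotoneOn (fun t => ϱ (t, |x.2|)) (Ico 0 w) := by
    have d : ∀ t ∈ Ico 0 w, HasDerivAt (fun t => ϱ (t, |x.2|)) (d1 ϱ (t, |x.2|)) t := fun t ht =>
      (hp.ana (t, |x.2|) (mem_Box.2 ⟨by rw [abs_of_nonneg ht.1]; exact ht.2, by
        simpa using hx.2⟩)).differentiableAt.hasFDerivAt.comp_hasDerivAt t
        ((hasDerivAt_id t).prodMk (hasDerivAt_const t _))
    refine monotoneOn_of_hasDerivWithinAt_nonneg (convex_Ico 0 w)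
      (fun t ht => (d t ht).continuousAt.continuousWithinAt)
      (fun t ht => (d t (interior_subset ht)).hasDerivWithinAt) fun t ht => ?_
    rw [interior_Ico] at ht
    exact (hp.m1 _ (mem_Box.2 ⟨by rw [abs_of_pos ht.1]; exact ht.2, by simpa using hx.2⟩) ht.1).le
  have m2 : AntitoneOn (fun t => ϱ (|y.1|, t)) (Ico 0 h) := by
    have d : ∀ t ∈ Ico 0 h, HasDerivAt (fun t => ϱ (|y.1|, t)) (d2 ϱ (|y.1|, t)) t := fun t ht =>
      (hp.ana (|y.1|, t) (mem_Box.2 ⟨by simpa using hy.1, by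
        rw [abs_of_nonneg ht.1]; exact ht.2⟩)).differentiableAt.hasFDerivAt.comp_hasDerivAt t
        ((hasDerivAt_const t _).prodMk (hasDerivAt_id t))
    refine antitoneOn_of_hasDerivWithinAt_nonpos (convex_Ico 0 h)
      (fun t ht => (d t ht).continuousAt.continuousWithinAt)
      (fun t ht => (d t (interior_subset ht)).hasDerivWithinAt) fun t ht => ?_
    rw [interior_Ico] at ht
    exact (hp.m2 _ (mem_Box.2 ⟨by simpa using hy.1, by rw [abs_of_pos ht.1]; exact ht.2⟩) ht.1).le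
  rw [← piece_abs hp x, ← piece_abs hp y]
  exact (m1 ⟨abs_nonneg _, hx.1⟩ ⟨abs_nonneg _, hy.1⟩ h1).trans
    (m2 ⟨abs_nonneg _, hy.2⟩ ⟨abs_nonneg _, hx.2⟩ h2)

lemma pc_of_piece (hI : InvS) {w h d e : ℝ} (hp : Piece ϱ w h) (hd : d ≤ 0) (he : e ≤ 0) :
    Pc (fun x => ϱ (x.1 - d, x.2 - e)) (d + w) (e + h) := by
  have sh : ∀ x ∈ Box (d + w) (e + h), (x.1 - d, x.2 - e) ∈ Box w h := fun x hx => by
    simp only [mem_Box, abs_lt] at hx ⊢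
    refine ⟨⟨?_, ?_⟩, ?_, ?_⟩ <;> linarith [hx.1.1, hx.1.2, hx.2.1, hx.2.2]
  have A1 : d + w < π / 2 := by linarith [hp.wlt]
  have B1 : e + h < π / 2 := by linarith [hp.hlt]
  refine ⟨A1, B1, fun x hx => ?_, fun x hx => hp.rng _ (sh x hx), fun D hD oD => ?_,
    fun x hx y hy h1 h2 => piece_mono hp (sh x hx) (sh y hy) ?_ ?_, fun θ hθ η hη => ?_,
    fun φ hφ η hη => ?_⟩
  · exact ContinuousAt.comp (f := fun x : P2 => (x.1 - d, x.2 - e))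
      (hp.ana _ (sh x hx)).continuousAt (by fun_prop)
  · have eq : ∀ y : P2, rX ϱ d e y = (fun x : P2 => Xi x (ϱ (x.1 - d, x.2 - e)))
        (d + y.1, e + y.2) := fun y => by simp [rX, Xi]
    have bx : ∀ y : P2, (d + y.1, e + y.2) ∈ D → y ∈ Box w h := fun y hy => by
      simpa using sh _ (hD hy)
    have rg : ∀ y : P2, (d + y.1, e + y.2) ∈ D → Rg (d + y.1, e + y.2) (ϱ y) := fun y hy =>
      ⟨(hp.rng y (bx y hy)).1, (hp.rng y (bx y hy)).2, (mem_Box.1 (hD hy)).1.trans A1,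
        (mem_Box.1 (hD hy)).2.trans B1⟩
    have co : ∀ y : P2, (d + y.1, e + y.2) ∈ D → cx (rX ϱ d e y) = (d + y.1, e + y.2) :=
      fun y hy => (rg y hy).cx
    rintro _ ⟨x, hx, rfl⟩
    refine ⟨{y | (d + y.1, e + y.2) ∈ D}, rX ϱ d e, ⟨oD.preimage (by fun_prop), fun y hy => ?_,
      fun y _ => Xi_unit (x := (d + y.1, e + y.2)), fun y hy => (hI.rad ϱ d e y 0
        (hp.ana y (bx y hy)).differentiableAt (rg y hy).r0 (rg y hy).r1).1, fun y hy z hz E => ?_,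
      fun U hU oU => ⟨{P | 0 < P 0 ∧ 0 < P 2 ∧ ((cx P).1 - d, (cx P).2 - e) ∈ U}, ?_, ?_⟩,
      fun y hy => hp.minimal d e y (bx y hy)⟩, (x.1 - d, x.2 - e), by simpa using hx,
      by rw [eq]; simp⟩
    · have c : ContDiffAt ℝ ∞ ϱ y := (hp.ana y (bx y hy)).contDiffAt
      refine ContDiffAt.contDiffWithinAt (contDiffAt_euclidean.2 fun i => ?_)
      fin_cases i <;> simp [rX, pol] <;> fun_prop
    · have := (co y hy).symm.trans ((congrArg cx E).trans (co z hz))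
      simpa [Prod.ext_iff] using this
    · refine isOpen_iff_mem_nhds.2 fun P hP => ?_
      have c : ContinuousAt (fun P => ((cx P).1 - d, (cx P).2 - e)) P :=
        ((cont_c1 hP.2.1.ne').sub continuousAt_const).prodMk
          ((cont_c2 hP.1.ne').sub continuousAt_const)
      filter_upwards [(isOpen_lt continuous_const (by fun_prop : Continuous fun P : E4 => P 0)
        ).mem_nhds hP.1, (isOpen_lt continuous_const (by fun_prop : Continuous fun P : E4 => P 2)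
        ).mem_nhds hP.2.1, c (oU.mem_nhds hP.2.2)] with Q a1 a2 a3 using ⟨a1, a2, a3⟩
    · ext P
      constructor
      · rintro ⟨y, hy, rfl⟩
        exact ⟨⟨_, hU hy, (eq y).symm⟩, (rg y (hU hy)).p0, (rg y (hU hy)).p2, by
          rw [co y (hU hy)]; simpa using hy⟩
      · rintro ⟨⟨z, hz, rfl⟩, -, -, h3⟩
        have hz' : (d + (z.1 - d), e + (z.2 - e)) ∈ D := by simpa using hz
        have E : rX ϱ d e (z.1 - d, z.2 - e) = Xi z (ϱ (z.1 - d, z.2 - e)) := by simp [rX, Xi]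
        refine ⟨(z.1 - d, z.2 - e), ?_, E⟩
        dsimp only at h3
        rw [← E, co _ hz'] at h3
        simpa using h3
  · refine (abs_le.2 ⟨?_, ?_⟩).trans (le_abs_self _) <;> dsimp only <;>
      linarith [(abs_le.1 h1).1, (abs_le.1 h1).2]
  · refine (abs_le.2 ⟨?_, ?_⟩).trans (le_abs_self _) <;> dsimp only <;>
      linarith [(abs_le.1 h2).1, (abs_le.1 h2).2]
  · obtain ⟨φ, h1, h2⟩ := hp.limP (θ - e) (by linarith) η hη
    refine ⟨φ + d, by linarith, fun x hx a b => h2 _ (sh x hx) (by dsimp only; linarith)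
      (abs_le.2 ⟨?_, ?_⟩)⟩ <;> dsimp only <;> linarith [(abs_le.1 b).1, (abs_le.1 b).2]
  · obtain ⟨θ, h1, h2⟩ := hp.limQ (φ - d) (by linarith) η hη
    refine ⟨θ + e, by linarith, fun x hx a b => h2 _ (sh x hx) (by dsimp only; linarith)
      (abs_le.2 ⟨?_, ?_⟩)⟩ <;> dsimp only <;> linarith [(abs_le.1 b).1, (abs_le.1 b).2]

/-- the open set above the graph -/
def Ab (ϱ : P2 → ℝ) (A B : ℝ) : Set E4 :=
  {P | 0 < P 0 ∧ 0 < P 2 ∧ cx P ∈ Box A B ∧ ϱ (cx P) < cr P}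

lemma Ab_open (h : Pc ϱ A B) : IsOpen (Ab ϱ A B) := by
  refine isOpen_iff_mem_nhds.2 fun P hP => ?_
  have c := cont_cx hP.1 hP.2.1
  filter_upwards [(isOpen_lt continuous_const (by fun_prop : Continuous fun P : E4 => P 0)
    ).mem_nhds hP.1, (isOpen_lt continuous_const (by fun_prop : Continuous fun P : E4 => P 2)
    ).mem_nhds hP.2.1, c ((Box_open A B).mem_nhds hP.2.2.1),
    ((h.cont _ hP.2.2.1).comp c).eventually_lt cont_cr.continuousAt hP.2.2.2] with Q a1 a2 a3 a4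
    using ⟨a1, a2, a3, a4⟩

/-- limits of points above the graph -/
lemma Pc.lim (h : Pc ϱ A B) {ι : Type} {F : Filter ι} [F.NeBot] {Z : ι → E4}
    (hZ : Tendsto Z F (𝓝 P)) (h0 : 0 < P 0) (hB : |(cx P).2| < B)
    (H : ∀ᶠ i in F, ‖Z i‖ = 1 ∧ 0 < Z i 2 ∧ 0 ≤ Z i 3 ∧ cx (Z i) ∈ Box A B ∧
      ϱ (cx (Z i)) ≤ cr (Z i)) : 0 < P 2 ∧ cx P ∈ Box A B ∧ ϱ (cx P) ≤ cr P := by
  have t2 : Tendsto (fun i => Z i 2) F (𝓝 (P 2)) :=
    ((by fun_prop : Continuous fun P : E4 => P 2).tendsto P).comp hZ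
  have t3 : Tendsto (fun i => Z i 3) F (𝓝 (P 3)) :=
    ((by fun_prop : Continuous fun P : E4 => P 3).tendsto P).comp hZ
  have tr := (cont_cr.tendsto P).comp hZ
  obtain ⟨θ, θ1, θ2⟩ := exists_between hB
  have e1 := (((cont_c2 h0.ne').tendsto.comp hZ).abs).eventually_le_const θ1
  obtain ⟨c, c1, c2⟩ := exists_between (show cr P < π / 2 from
    arccos_lt_pi_div_two.2 (sqrt_pos.2 (by positivity)))
  obtain ⟨φ, φ1, φ2⟩ := h.limP θ θ2 (π / 2 - c) (by linarith)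
  have e2 : ∀ᶠ i in F, 0 ≤ (cx (Z i)).1 ∧ (cx (Z i)).1 ≤ φ := by
    filter_upwards [H, e1, tr.eventually_lt_const c1] with i a1 a2 a3
    refine ⟨arctan_nonneg.2 (div_nonneg a1.2.2.1 a1.2.1.le), not_lt.1 fun a => ?_⟩
    have := φ2 _ a1.2.2.2.1 a a2
    have a4 : cr (Z i) < c := a3
    linarith [a1.2.2.2.2]
  obtain ⟨i, i1, i2⟩ := e2.exists
  have φ0 : |φ| < A := by rwa [abs_of_nonneg (i1.trans i2)]
  have b0 : ((0 : ℝ), θ) ∈ Box A B := mem_Box.2 ⟨by simpa using (abs_nonneg _).trans_lt φ0,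
    by rwa [abs_of_nonneg ((abs_nonneg _).trans θ1.le)]⟩
  have l1 : ϱ (0, θ) ≤ cr P := ge_of_tendsto tr (by
    filter_upwards [H, e1, e2] with i a1 a2 a3
    exact (h.mono _ b0 _ a1.2.2.2.1 (by simpa using a3.1) a2).trans a1.2.2.2.2)
  have l2 : P 3 ≤ tan φ * P 2 := le_of_tendsto_of_tendsto t3 (t2.const_mul _) (by
    filter_upwards [H, e2] with i a1 a3 using c1_tan a1.2.1 (φ0.trans h.Alt) a3.2)
  have l3 : 0 ≤ P 3 := ge_of_tendsto t3 (H.mono fun i a => a.2.2.1)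
  have l4 : ‖P‖ = 1 := tendsto_nhds_unique hZ.norm
    (tendsto_const_nhds.congr' (H.mono fun i a => a.1.symm))
  have p2 : 0 < P 2 := (ge_of_tendsto t2 (H.mono fun i a => a.2.1.le)).lt_of_ne fun e => by
    have u := unit l4
    have e3 : P 3 = 0 := le_antisymm (by rwa [← e, mul_zero] at l2) l3
    rw [← e, e3] at u
    rw [cr, show P 0 ^ 2 + P 1 ^ 2 = 1 by linarith, sqrt_one, arccos_one] at l1
    linarith [(h.rng _ b0).1]
  have tx := (cont_cx h0 p2).tendsto.comp hZ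
  have t1 := (continuous_fst.tendsto _).comp tx
  have bx : cx P ∈ Box A B := mem_Box.2 ⟨abs_lt.2
    ⟨(neg_lt_zero.2 ((abs_nonneg _).trans_lt φ0)).trans_le
      (ge_of_tendsto t1 (e2.mono fun i a => a.1)),
      (le_of_tendsto t1 (e2.mono fun i a => a.2)).trans_lt φ1⟩, hB⟩
  exact ⟨p2, bx, le_of_tendsto_of_tendsto ((h.cont _ bx).tendsto.comp tx) tr
    (H.mono fun i a => a.2.2.2.2)⟩

/-! ### The last time of contact -/

variable {σ : P2 → ℝ} {A' B' s₀ : ℝ} {W N : Set P2}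

lemma diag (y : P2) : Tendsto (fun ε : ℝ => y + (ε, ε)) (𝓝[>] 0) (𝓝 y) :=
  tendsto_nhdsWithin_of_tendsto_nhds
    ((by fun_prop : Continuous fun ε : ℝ => y + (ε, ε)).tendsto' 0 y (by simp))

/-- no point below the second graph is above the first graph after the last time -/
lemma key (h1 : Pc ϱ A B) (h2 : Pc σ A' B') (s0 : 0 ≤ s₀)
    (hs : ∀ s ∈ Icc 0 (π / 2), ∀ x ∈ W, ∀ r, 0 < r → r ≤ σ x → fl s (Xi x r) ∈ Ab ϱ A B → s ≤ s₀)
    (oN : IsOpen N) (hN : ∀ y ∈ N, y ∈ Box A' B' ∧ y.2 < B ∧ (0 < y.1 → 0 < y.2 → y ∈ W))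
    (hy : y ∈ N) (y1 : 0 ≤ y.1) (y2 : 0 ≤ y.2) (r0 : 0 < r) (r1 : r ≤ σ y)
    (hs' : s ∈ Ioc s₀ (π / 2)) (p2 : 0 < fl s (Xi y r) 2) (bx : cx (fl s (Xi y r)) ∈ Box A B) :
    cr (fl s (Xi y r)) < ϱ (cx (fl s (Xi y r))) := by
  by_contra le
  rw [not_lt] at le
  obtain ⟨n1, n2, -⟩ := hN y hy
  have g := h2.rg' n1 r0 r1
  obtain ⟨t, t1, t2⟩ := exists_between hs'.1
  have ht : t ∈ Icc 0 (π / 2) := ⟨s0.trans t1.le, t2.le.trans hs'.2⟩
  have ht' : s - t ∈ Ioc 0 (π / 2) := ⟨by linarith, by linarith [hs'.2, ht.1]⟩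
  have e : fl s (Xi y r) = fl (s - t) (fl t (Xi y r)) := by rw [fl_add, sub_add_cancel]
  have q0 : 0 < fl s (Xi y r) 0 :=
    g.p0.trans_le (fl_le g.p0.le g.p2 ⟨ht.1.trans t2.le, hs'.2⟩ p2.le)
  have q2 : 0 < fl t (Xi y r) 2 := by
    rw [show t = -(s - t) + s by ring, ← fl_add, fl2, cos_neg, sin_neg]
    nlinarith [mul_pos q0 (sin_pos' ht'.1 ht'.2), mul_nonneg p2.le (cos_nn ⟨ht'.1.le, ht'.2⟩)]
  have q0' := g.p0.trans_le (fl_le g.p0.le g.p2 ht q2.le)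
  obtain ⟨a1, a2⟩ := c2_le g.p0 (g.p1 y2) g.p2 ht q2.le
  rw [g.cx] at a2
  rw [e] at p2 bx le
  obtain ⟨a3, a4⟩ := c1_le q0' q2 (by rw [fl3]; exact g.p3 y1) ⟨ht'.1.le, ht'.2⟩ p2
  obtain ⟨a5, a6⟩ := c2_le q0' (by rw [fl1]; exact g.p1 y2) q2 ⟨ht'.1.le, ht'.2⟩ p2.le
  have bx' : cx (fl t (Xi y r)) ∈ Box A B := mem_Box.2
    ⟨by rw [abs_of_nonneg a3]; exact a4.trans_lt (abs_lt.1 (mem_Box.1 bx).1).2,
      by rw [abs_of_nonneg a1]; exact a2.trans_lt n2⟩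
  have ab : fl t (Xi y r) ∈ Ab ϱ A B := ⟨q0', q2, bx',
    (h1.mono _ bx' _ bx (by rwa [abs_of_nonneg a3]) (by rwa [abs_of_nonneg a5])).trans_lt
      (le.trans_lt (cr_lt fl_unit q0'.le q2 ht' p2.le))⟩
  have T1 := diag y
  have T2 := (tendsto_const_nhds (x := r)).min ((h2.cont y n1).tendsto.comp T1)
  rw [min_eq_left r1] at T2
  have T3 := (cont_fl.tendsto _).comp ((tendsto_const_nhds (x := t)).prodMk_nhds
    ((cont_Xi.tendsto _).comp (T1.prodMk_nhds T2)))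
  obtain ⟨ε, ⟨⟨b1, b2⟩, b3⟩, b4⟩ := ((((T3.eventually ((Ab_open h1).mem_nhds ab)).and
    (T1.eventually (oN.mem_nhds hy))).and (T2.eventually_const_lt r0)).and
    self_mem_nhdsWithin).exists
  exact (hs t ht _ ((hN _ b2).2.2 (add_pos_of_nonneg_of_pos y1 b4)
    (add_pos_of_nonneg_of_pos y2 b4)) _ b3 (min_le_right _ _) b1).not_gt t1

/-- equal germs: the rotated second graph lies in the first graph -/
lemma germ (hI : InvS) (hT : TouchS) (h1 : Pc ϱ A B) (h2 : Pc σ A' B') (hs : s ∈ Ioc 0 (π / 2))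
    {b : ℝ} (b1 : b ≤ B) (b2 : b ≤ B') (A0 : 0 < A) (hy : y ∈ Ioo 0 A' ×ˢ Ioo 0 b)
    (H : ∀ᶠ z in 𝓝 y, fl s (Xi z (σ z)) ∈ (fun x => Xi x (ϱ x)) '' Box A B) :
    A' < A ∧ ∀ z ∈ Ioo 0 A' ×ˢ Ioo 0 b, ϱ z < σ z := by
  have hD : Ioo 0 A' ×ˢ Ioo 0 b ⊆ Box A' B' := fun z hz => mem_Box.2
    ⟨by rw [abs_of_pos hz.1.1]; exact hz.1.2, by rw [abs_of_pos hz.2.1]; exact hz.2.2.trans_le b2⟩
  have hs' : s ∈ Icc 0 (π / 2) := ⟨hs.1.le, hs.2⟩
  have tA := tan_pos_of_pos_of_lt_pi_div_two A0 h1.Alt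
  have aA : |A| < π / 2 := by rw [abs_of_pos A0]; exact h1.Alt
  have sub := hT.cont _ _ (hI.min (fl s) _ (h2.min _ hD (isOpen_Ioo.prod isOpen_Ioo)))
    (h1.min _ subset_rfl (Box_open A B))
    (((isPreconnected_Ioo.prod isPreconnected_Ioo).image _ fun z hz =>
      (h2.contX (hD hz)).continuousWithinAt).image _ (fl s).continuous.continuousOn) ?_ ?_
  · have all : ∀ z ∈ Ioo 0 A' ×ˢ Ioo 0 b, fl s (Xi z (σ z)) 3 ≤ tan A * fl s (Xi z (σ z)) 2 ∧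
        ϱ z < σ z := fun z hz => by
      obtain ⟨x, hx, e⟩ := sub ⟨_, ⟨z, hz, rfl⟩, rfl⟩
      have g := h2.rg (hD hz)
      have g' := h1.rg hx
      dsimp only at e
      have p2 : 0 < fl s (Xi z (σ z)) 2 := e ▸ g'.p2
      have a1 := (c1_le g.p0 g.p2 (g.p3 hz.1.1.le) hs' p2).2
      obtain ⟨a2, a3⟩ := c2_le g.p0 (g.p1 hz.2.1.le) g.p2 hs' p2.le
      have a4 := cr_lt Xi_unit g.p0.le g.p2 hs p2.le
      have a5 := (abs_lt.1 (mem_Box.1 hx).1).2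
      rw [← e, g'.cx] at a1 a2 a3
      rw [g.cx] at a1 a3
      rw [← e, g'.cr, g.cr] at a4
      refine ⟨c1_tan p2 aA (by rw [← e, g'.cx]; exact a5.le), lt_of_le_of_lt (h1.mono z (mem_Box.2
        ⟨by rw [abs_of_pos hz.1.1]; exact a1.trans_lt a5,
          by rw [abs_of_pos hz.2.1]; exact hz.2.2.trans_le b1⟩) x hx
        (by rwa [abs_of_pos hz.1.1]) (by rwa [abs_of_nonneg a2])) a4⟩
    obtain ⟨c, c1, c2⟩ := exists_gap ⟨A0, h1.Alt⟩ hs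
    refine ⟨lt_of_le_of_lt (le_of_forall_lt_imp_le_of_dense fun t ht => ?_) c1,
      fun z hz => (all z hz).2⟩
    have hz : (max t y.1, y.2) ∈ Ioo 0 A' ×ˢ Ioo 0 b :=
      ⟨⟨lt_max_of_lt_right hy.1.1, max_lt ht hy.1.2⟩, hy.2⟩
    have g := h2.rg (hD hz)
    exact (le_max_left _ _).trans (c2 _ _ ⟨g.r0, g.r1.le⟩ g.a1 g.a2 (all _ hz).1)
  · rintro _ ⟨⟨_, ⟨z, hz, rfl⟩, rfl⟩, hc⟩
    have g := h2.rg (hD hz)
    have p3 : 0 < fl s (Xi z (σ z)) 3 := by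
      rw [fl3, Xi3]
      exact mul_pos g.sin (sin_pos' hz.1.1 (abs_lt.1 g.a1).2.le)
    have p2 : 0 ≤ fl s (Xi z (σ z)) 2 :=
      closure_minimal (t := {P : E4 | 0 ≤ P 2}) (by rintro _ ⟨x, hx, rfl⟩; exact (h1.rg hx).p2.le)
        (isClosed_le continuous_const (by fun_prop)) hc
    have p0 := g.p0.trans_le (fl_le g.p0.le g.p2 hs' p2)
    obtain ⟨a2, a3⟩ := c2_le g.p0 (g.p1 hz.2.1.le) g.p2 hs' p2
    rw [g.cx] at a3
    have := mem_closure_iff_nhdsWithin_neBot.1 hc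
    have tZ : Tendsto id (𝓝[(fun x => Xi x (ϱ x)) '' Box A B] fl s (Xi z (σ z)))
      (𝓝 (fl s (Xi z (σ z)))) := nhdsWithin_le_nhds
    have ev : ∀ᶠ Z in 𝓝[(fun x => Xi x (ϱ x)) '' Box A B] fl s (Xi z (σ z)),
        ‖Z‖ = 1 ∧ 0 < Z 2 ∧ cx Z ∈ Box A B ∧ ϱ (cx Z) = cr Z := by
      filter_upwards [self_mem_nhdsWithin]
      rintro _ ⟨x, hx, rfl⟩
      have g' := h1.rg hx
      exact ⟨Xi_unit, g'.p2, by rwa [g'.cx], by rw [g'.cx, g'.cr]⟩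
    obtain ⟨c1, c2, -⟩ := h1.lim tZ p0
      (by rw [abs_of_nonneg a2]; exact a3.trans_lt (hz.2.2.trans_le b1)) (by
        filter_upwards [ev, (((by fun_prop : Continuous fun P : E4 => P 3).tendsto _).comp
          tZ).eventually_const_lt p3] with Z a b using ⟨a.1, a.2.1, b.le, a.2.2.1, a.2.2.2.le⟩)
    have c3 : ϱ (cx (fl s (Xi z (σ z)))) = cr (fl s (Xi z (σ z))) := tendsto_nhds_unique
      (((h1.cont _ c2).comp (cont_cx p0 c1)).tendsto.comp tZ)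
      (((cont_cr.tendsto _).comp tZ).congr' (ev.mono fun Z a => a.2.2.2.symm))
    exact ⟨_, c2, by dsimp only; rw [c3]; exact (Xi_co fl_unit p0 c1).1⟩
  · refine ⟨_, ⟨_, ⟨y, hy, rfl⟩, rfl⟩, ?_⟩
    have g := h2.rg (hD hy)
    have e : ∀ P, fl (-s) (fl s P) = P := fun P => by rw [fl_add, neg_add_cancel, fl_zero]
    have c : Tendsto (fun P => cx (fl (-s) P)) (𝓝 (fl s (Xi y (σ y)))) (𝓝 y) := by
      have := (cont_cx g.p0 g.p2).tendsto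
      rw [g.cx] at this
      exact this.comp ((fl (-s)).continuous.tendsto' _ _ (e _))
    filter_upwards [self_mem_nhdsWithin, nhdsWithin_le_nhds (c.eventually H)]
    rintro _ ⟨_, ⟨z, hz, rfl⟩, rfl⟩ h
    rwa [e, (h2.rg (hD hz)).cx] at h

/-- contact at the last time forces equal germs -/
lemma touch (hI : InvS) (hT : TouchS) (h1 : Pc ϱ A B) (h2 : Pc σ A' B') (s0 : s₀ ∈ Ioo 0 (π / 2))
    (hs : ∀ s ∈ Icc 0 (π / 2), ∀ x ∈ W, ∀ r, 0 < r → r ≤ σ x → fl s (Xi x r) ∈ Ab ϱ A B → s ≤ s₀)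
    {δ : ℝ} (δ0 : 0 < δ)
    (hN : ∀ y ∈ ball x δ, y ∈ Box A' B' ∧ y.2 < B ∧ (0 < y.1 → 0 < y.2 → y ∈ W))
    (x1 : 0 ≤ x.1) (x2 : 0 ≤ x.2)
    (e1 : (∀ y ∈ ball x δ, 0 < y.1) ∨ ∀ y : P2, ϱ (-y.1, y.2) = ϱ y)
    (e2 : (∀ y ∈ ball x δ, 0 < y.2) ∨ ∀ y : P2, σ (y.1, -y.2) = σ y)
    (r0 : 0 < r) (r1 : r ≤ σ x) (p2 : 0 < fl s₀ (Xi x r) 2) (bx : cx (fl s₀ (Xi x r)) ∈ Box A B)
    (le : ϱ (cx (fl s₀ (Xi x r))) ≤ cr (fl s₀ (Xi x r))) : ∃ y ∈ ball x δ, 0 < y.1 ∧ 0 < y.2 ∧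
      ∀ᶠ z in 𝓝 y, fl s₀ (Xi z (σ z)) ∈ (fun x => Xi x (ϱ x)) '' Box A B := by
  have K := fun y r s => key (y := y) (r := r) (s := s) h1 h2 s0.1.le hs isOpen_ball hN
  have m := mem_ball_self (x := x) δ0
  have xb := (hN x m).1
  have g := h2.rg' xb r0 r1
  have p0 := g.p0.trans_le (fl_le g.p0.le g.p2 ⟨s0.1.le, s0.2.le⟩ p2.le)
  have sm : ∀ᶠ t in 𝓝[>] (0 : ℝ), s₀ + t ∈ Ioc s₀ (π / 2) := by
    filter_upwards [Ioo_mem_nhdsGT (sub_pos.2 s0.2)] with t ht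
    exact ⟨by linarith [ht.1], by linarith [ht.2]⟩
  have eq1 : ϱ (cx (fl s₀ (Xi x r))) = cr (fl s₀ (Xi x r)) := le.eq_of_not_lt fun lt => by
    have c : Tendsto (fun t => fl (s₀ + t) (Xi x r)) (𝓝[>] 0) (𝓝 (fl s₀ (Xi x r))) :=
      tendsto_nhdsWithin_of_tendsto_nhds ((cont_fl.comp (by fun_prop :
        Continuous fun t : ℝ => (s₀ + t, Xi x r))).tendsto' 0 _ (by simp))
    obtain ⟨t, a, b⟩ := ((c.eventually ((Ab_open h1).mem_nhds ⟨p0, p2, bx, lt⟩)).and sm).exists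
    exact (K x r _ m x1 x2 r0 r1 b a.2.1 a.2.2.1).not_gt a.2.2.2
  obtain rfl : r = σ x := r1.eq_of_not_lt fun lt => by
    have c : Tendsto (fun t => fl (-t) (Xi x r)) (𝓝[>] 0) (𝓝 (Xi x r)) :=
      tendsto_nhdsWithin_of_tendsto_nhds ((cont_fl.comp (by fun_prop :
        Continuous fun t : ℝ => (-t, Xi x r))).tendsto' 0 _ (by simp [fl_zero]))
    have c1 := (cont_cx g.p0 g.p2).tendsto.comp c
    have c2 := (cont_cr.tendsto _).comp c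
    rw [g.cx] at c1
    rw [g.cr] at c2
    obtain ⟨t, ⟨⟨a, a'⟩, a1, a2⟩, b⟩ := ((((c1.eventually (ball_mem_nhds x δ0)).and
      (c2.eventually_lt ((h2.cont x xb).tendsto.comp c1) lt)).and
      (((((by fun_prop : Continuous fun P : E4 => P 0).tendsto _).comp c).eventually_const_lt
        g.p0).and ((((by fun_prop : Continuous fun P : E4 => P 2).tendsto _).comp
          c).eventually_const_lt g.p2))).and sm).exists
    obtain ⟨f1, f2⟩ := Xi_co fl_unit a1 a2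
    have f3 : fl (s₀ + t) (Xi (cx (fl (-t) (Xi x r))) (cr (fl (-t) (Xi x r)))) =
        fl s₀ (Xi x r) := by rw [f1, fl_add, add_neg_cancel_right]
    have := K (cx (fl (-t) (Xi x r))) _ _ a (arctan_nonneg.2 (div_nonneg (by rw [fl3]; exact g.p3 x1) a2.le))
      (arctan_nonneg.2 (div_nonneg (by rw [fl1]; exact g.p1 x2) a1.le)) f2.r0 a'.le b
    rw [f3] at this
    exact (this p2 bx).not_ge le
  have hb : ball x δ ⊆ Box A' B' := fun y hy => (hN y hy).1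
  rcases hT.pers _ _ (h1.min _ subset_rfl (Box_open A B))
    (hI.min (fl s₀) _ (h2.min _ hb isOpen_ball)) (fl s₀ (Xi x (σ x)))
    ⟨_, bx, by dsimp only; rw [eq1]; exact (Xi_co fl_unit p0 p2).1⟩ ⟨_, ⟨x, m, rfl⟩, rfl⟩
    with h | h
  · have c : ∀ y ∈ ball x δ, ContinuousAt (fun z => fl s₀ (Xi z (σ z))) y := fun y hy =>
      (fl s₀).continuous.continuousAt.comp (f := fun z => Xi z (σ z)) (h2.contX (hb hy))
    obtain ⟨V, oV, V1, V2⟩ := mem_nhdsWithin.1 (h ▸ self_mem_nhdsWithin)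
    obtain ⟨ε, ⟨a1, a2⟩, a3⟩ := ((((diag x).eventually (ball_mem_nhds x δ0)).and
      (((c x m).tendsto.comp (diag x)).eventually (oV.mem_nhds V1))).and
      self_mem_nhdsWithin).exists
    refine ⟨_, a1, add_pos_of_nonneg_of_pos x1 a3, add_pos_of_nonneg_of_pos x2 a3, ?_⟩
    filter_upwards [isOpen_ball.mem_nhds a1, c _ a1 (oV.mem_nhds a2)] with z b1 b2
    exact V2 ⟨b2, _, ⟨z, b1, rfl⟩, rfl⟩
  · exfalso
    obtain ⟨ε, ε0, h⟩ := h univ univ_mem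
    obtain ⟨t, a, b⟩ := (((fl_near ε0).filter_mono nhdsWithin_le_nhds).and sm).exists
    obtain ⟨_, ⟨⟨_, ⟨y, hy, rfl⟩, rfl⟩, -⟩, z, hz, E⟩ := h (fl t) (fl t).continuous.continuousOn (by
      rintro _ ⟨⟨_, ⟨y, hy, rfl⟩, rfl⟩, -⟩
      exact ⟨by rw [fl_add]; exact fl_unit, a _ fl_unit⟩)
    dsimp only at E
    rw [fl_add, add_comm] at E
    have gy := h2.rg (hb hy)
    have gz := h1.rg hz
    have F := gy.fold gz E.symm
    have my : (|y.1|, |y.2|) ∈ ball x δ := by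
      simp only [mem_ball, Prod.dist_eq, Real.dist_eq, max_lt_iff] at hy ⊢
      exact ⟨lt_of_le_of_lt (by simpa [abs_of_nonneg x1] using abs_abs_sub_abs_le y.1 x.1) hy.1,
        lt_of_le_of_lt (by simpa [abs_of_nonneg x2] using abs_abs_sub_abs_le y.2 x.2) hy.2⟩
    have mz : (|z.1|, |z.2|) ∈ Box A B := by simpa [mem_Box] using hz
    have l1 : σ y ≤ σ (|y.1|, |y.2|) := by
      by_cases a : 0 ≤ y.2
      · exact h2.mono _ (hb hy) _ (hb my) le_rfl (by simp [abs_of_nonneg a])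
      · rw [← (e2.resolve_left fun h => a (h y hy).le) y]
        exact h2.mono _ (by simpa [mem_Box] using hb hy) _ (hb my) le_rfl (by
          simp [abs_of_neg (not_le.1 a)])
    have l2 : ϱ (|z.1|, |z.2|) ≤ ϱ z := by
      by_cases a : 0 ≤ z.1
      · exact h1.mono _ mz _ hz (by simp [abs_of_nonneg a]) le_rfl
      · rw [← (e1.resolve_left fun h => ?_) z]
        · exact h1.mono _ mz _ (by simpa [mem_Box] using hz)
            (by simp [abs_of_neg (not_le.1 a)]) le_rfl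
        · have b1 := congrArg (· 3) E
          simp only [fl3, Xi3] at b1
          have b2 := mul_pos gy.sin (sin_pos' (h y hy) (abs_lt.1 gy.a1).2.le)
          have b3 := mul_nonpos_of_nonneg_of_nonpos gz.sin.le (sin_nonpos_of_nonpos_of_neg_pi_le
            (not_le.1 a).le (by linarith [(abs_lt.1 gz.a1).1, pi_pos]))
          linarith
    have := K _ _ _ my (abs_nonneg _) (abs_nonneg _) gy.r0 l1 b
    rw [F, gz.abs.cx, gz.abs.cr] at this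
    exact (this gz.abs.p2 mz).not_ge l2

/-! ### The main argument -/

lemma reach {U : Set P2} {x₀ b : P2} (h : JoinedIn U x₀ y)
    (H : ∀ z ∈ segment ℝ y b, z.1 ∈ uIcc y.1 b.1 → z.2 ∈ uIcc y.2 b.2 → z ≠ b → z ∈ U) :
    JoinedIn (insert b U) x₀ b :=
  (h.mono (subset_insert _ _)).trans (JoinedIn.of_segment_subset fun z hz => by
    have := Prod.segment_subset y b hz
    rw [segment_eq_uIcc, segment_eq_uIcc] at this
    exact (eq_or_ne z b).imp id (H z hz this.1 this.2))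

theorem main (hI : InvS) (hT : TouchS) (h1 : Pc ϱ A B) (h2 : Pc σ A' B') {L Bt : Prop}
    (hL : ¬ L → ∀ y : P2, ϱ (-y.1, y.2) = ϱ y) (hB : ¬ Bt → ∀ y : P2, σ (y.1, -y.2) = σ y)
    {U : Set P2} (hU : ∀ x, x ∈ U ↔ x ∈ Ioo 0 (min A A') ×ˢ Ioo 0 (min B B') ∧ ϱ x < σ x)
    {x₀ : P2} (hx₀ : x₀ ∈ U) : ∃ b : P2, JoinedIn (insert b U) x₀ b ∧
      ((L ∧ b.1 = 0 ∧ b.2 ∈ Ioo 0 (min B B')) ∨ (Bt ∧ b.2 = 0 ∧ b.1 ∈ Ioo 0 (min A A')) ∨
        (A' < A ∧ b.1 = A' ∧ b.2 ∈ Ioo 0 (min B B')) ∨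
        (B < B' ∧ b.2 = B ∧ b.1 ∈ Ioo 0 (min A A'))) := by
  have mA := min_le_left A A'
  have mA' := min_le_right A A'
  have mB := min_le_left B B'
  have mB' := min_le_right B B'
  have bx : ∀ x ∈ Ioo 0 (min A A') ×ˢ Ioo 0 (min B B'), x ∈ Box A B ∧ x ∈ Box A' B' := by
    intro x hx
    simp only [mem_Box, abs_of_pos hx.1.1, abs_of_pos hx.2.1]
    exact ⟨⟨hx.1.2.trans_le mA, hx.2.2.trans_le mB⟩, hx.1.2.trans_le mA', hx.2.2.trans_le mB'⟩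
  obtain ⟨o0, o1⟩ := (hU _).1 hx₀
  have A0 : 0 < A := o0.1.1.trans (o0.1.2.trans_le mA)
  set C : Set (ℝ × P2 × ℝ) := {q | q.1 ∈ Icc 0 (π / 2) ∧ JoinedIn U x₀ q.2.1 ∧ 0 < q.2.2 ∧
    q.2.2 ≤ σ q.2.1 ∧ fl q.1 (Xi q.2.1 q.2.2) ∈ Ab ϱ A B} with hC
  have om : ∀ q ∈ C, q.2.1 ∈ Ioo 0 (min A A') ×ˢ Ioo 0 (min B B') := fun q hq =>
    ((hU _).1 hq.2.1.target_mem).1
  have rg : ∀ q ∈ C, Rg q.2.1 q.2.2 := fun q hq => h2.rg' (bx _ (om q hq)).2 hq.2.2.1 hq.2.2.2.1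
  have sub : closure C ⊆ Icc 0 (π / 2) ×ˢ (Icc 0 (min A A') ×ˢ Icc 0 (min B B')) ×ˢ
      Icc 0 (π / 2) := closure_minimal (fun q hq => ⟨hq.1, ⟨Ioo_subset_Icc_self (om q hq).1,
        Ioo_subset_Icc_self (om q hq).2⟩, (rg q hq).r0.le, (rg q hq).r1.le⟩)
      (isClosed_Icc.prod ((isClosed_Icc.prod isClosed_Icc).prod isClosed_Icc))
  obtain ⟨t₀, t1, t2⟩ : ∃ t, 0 < t ∧ (t, x₀, σ x₀) ∈ C := by
    have g := h2.rg (bx _ o0).2
    have c : Tendsto (fun t => fl t (Xi x₀ (σ x₀))) (𝓝[>] 0) (𝓝 (Xi x₀ (σ x₀))) :=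
      tendsto_nhdsWithin_of_tendsto_nhds ((cont_fl.comp (by fun_prop :
        Continuous fun t : ℝ => (t, Xi x₀ (σ x₀)))).tendsto' 0 _ (by simp [fl_zero]))
    obtain ⟨t, a, b⟩ := ((c.eventually ((Ab_open h1).mem_nhds ⟨g.p0, g.p2,
      by rw [g.cx]; exact (bx _ o0).1, by rwa [g.cx, g.cr]⟩)).and
      (Ioo_mem_nhdsGT pi_div_two_pos)).exists
    exact ⟨t, b.1, ⟨b.1.le, b.2.le⟩, JoinedIn.refl hx₀, g.r0, le_rfl, a⟩
  obtain ⟨⟨s, x, r⟩, hq, mx⟩ := ((isCompact_Icc.prod ((isCompact_Icc.prod isCompact_Icc).prod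
    isCompact_Icc)).of_isClosed_subset isClosed_closure sub).exists_isMaxOn
    ⟨_, subset_closure t2⟩ continuous_fst.continuousOn
  obtain ⟨hs, ⟨hx1, hx2⟩, hr⟩ := sub hq
  dsimp only at hs hx1 hx2 hr
  have hs' : s ∈ Ioc 0 (π / 2) := ⟨t1.trans_le (mx (subset_closure t2)), hs.2⟩
  have := mem_closure_iff_nhdsWithin_neBot.1 hq
  set F := 𝓝[C] (s, x, r)
  have eC : ∀ᶠ q in F, q ∈ C := self_mem_nhdsWithin
  have tq : Tendsto id F (𝓝 (s, x, r)) := nhdsWithin_le_nhds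
  have tx : Tendsto (fun q : ℝ × P2 × ℝ => q.2.1) F (𝓝 x) :=
    (continuous_snd.fst.tendsto _).comp tq
  have tr : Tendsto (fun q : ℝ × P2 × ℝ => q.2.2) F (𝓝 r) :=
    (continuous_snd.snd.tendsto _).comp tq
  have tP : Tendsto (fun q : ℝ × P2 × ℝ => fl q.1 (Xi q.2.1 q.2.2)) F (𝓝 (fl s (Xi x r))) :=
    (cont_flX.tendsto (s, x, r)).mono_left nhdsWithin_le_nhds
  have t2' : Tendsto (fun q : ℝ × P2 × ℝ => fl q.1 (Xi q.2.1 q.2.2) 2) F (𝓝 (fl s (Xi x r) 2)) :=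
    ((by fun_prop : Continuous fun P : E4 => P 2).tendsto _).comp tP
  have t3' : Tendsto (fun q : ℝ × P2 × ℝ => fl q.1 (Xi q.2.1 q.2.2) 3) F (𝓝 (fl s (Xi x r) 3)) :=
    ((by fun_prop : Continuous fun P : E4 => P 3).tendsto _).comp tP
  have x1 : |x.1| < π / 2 := by rw [abs_of_nonneg hx1.1]; linarith [hx1.2, h1.Alt]
  have x2 : |x.2| < π / 2 := by rw [abs_of_nonneg hx2.1]; linarith [hx2.2, h1.Blt]
  have p2 : 0 ≤ fl s (Xi x r) 2 := ge_of_tendsto t2' (eC.mono fun q h => h.2.2.2.2.2.1.le)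
  have r0 : 0 < r := hr.1.lt_of_ne fun e => by
    rw [fl2, Xi2, Xi0, ← e] at p2
    simp only [sin_zero, cos_zero, zero_mul, one_mul, zero_sub] at p2
    linarith [mul_pos (cos_pos' x2) (sin_pos' hs'.1 hs'.2)]
  have xA : x.1 < A := by
    obtain ⟨c, c1, c2⟩ := exists_gap ⟨A0, h1.Alt⟩ hs'
    refine (c2 x r ⟨r0, hr.2⟩ x1 x2 (le_of_tendsto_of_tendsto t3' (t2'.const_mul _) ?_)).trans_lt c1
    filter_upwards [eC] with q h
    exact c1_tan h.2.2.2.2.2.1 (by rw [abs_of_pos A0]; exact h1.Alt)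
      (abs_lt.1 (mem_Box.1 h.2.2.2.2.2.2.1).1).2.le
  have lt := cr_lt Xi_unit (mul_nonneg (cos_nn hr) (cos_pos' x2).le)
    (mul_pos (sin_pos' r0 hr.2) (cos_pos' x1)) hs' p2
  rw [cr_Xi hr] at lt
  obtain ⟨c, c1, c2⟩ := exists_between lt
  have c0 : 0 < c := (arccos_nonneg _).trans_lt c1
  have ord : ∀ q ∈ C, |(cx (fl q.1 (Xi q.2.1 q.2.2))).2| ≤ q.2.1.2 ∧
      ϱ q.2.1 < cr (fl q.1 (Xi q.2.1 q.2.2)) := fun q h => by
    have g := rg q h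
    have o := om q h
    have a1 := (c1_le g.p0 g.p2 (g.p3 o.1.1.le) h.1 h.2.2.2.2.2.1).2
    obtain ⟨a2, a3⟩ := c2_le g.p0 (g.p1 o.2.1.le) g.p2 h.1 h.2.2.2.2.2.1.le
    rw [g.cx] at a1 a3
    rw [← abs_of_nonneg a2] at a3
    exact ⟨a3, (h1.mono _ (bx _ o).1 _ h.2.2.2.2.2.2.1 (by rwa [abs_of_pos o.1.1]) a3).trans_lt
      h.2.2.2.2.2.2.2⟩
  have N1 : ∀ᶠ y in 𝓝 x, y ∈ Ioo 0 (min A A') ×ˢ Ioo 0 (min B B') → ϱ y < c := by
    rcases (hx2.2.trans mB).lt_or_eq with a | a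
    · have b : x ∈ Box A B := mem_Box.2 ⟨by rwa [abs_of_nonneg hx1.1], by rwa [abs_of_nonneg hx2.1]⟩
      have := le_of_tendsto_of_tendsto ((h1.cont x b).tendsto.comp tx) ((cont_cr.tendsto _).comp tP)
        (eC.mono fun q h => (ord q h).2.le)
      exact ((h1.cont x b).eventually_lt continuousAt_const (this.trans_lt c1)).mono fun y h _ => h
    · obtain ⟨φ, φ1, φ2⟩ := exists_between xA
      obtain ⟨θ, θ1, θ2⟩ := h1.limQ φ φ2 c c0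
      filter_upwards [(continuous_fst.tendsto x).eventually_le_const φ1,
        (continuous_snd.tendsto x).eventually_const_lt (θ1.trans_eq a.symm)] with y b1 b2 b3
      exact θ2 y (bx y b3).1 b2 (by rwa [abs_of_pos b3.1.1])
  have ec := tr.eventually_const_lt c2
  rcases (hx1.2.trans mA').eq_or_lt with xA' | xA'
  · obtain ⟨δ, δ0, hδ⟩ := Metric.eventually_nhds_iff_ball.1 N1
    obtain ⟨⟨s', y, r'⟩, ⟨q1, q2⟩, q3⟩ := ((eC.and ec).and (tx.eventually (ball_mem_nhds x δ0))).exists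
    have o := om _ q1
    have AA : A' < A := xA' ▸ xA
    refine ⟨(A', y.2), reach q1.2.1 fun z hz z1 z2 z3 => ?_, Or.inr (Or.inr (Or.inl ⟨AA, rfl, o.2⟩))⟩
    dsimp only at o q2 q3 z1 z2
    rw [uIcc_of_le (o.1.2.le.trans mA')] at z1
    rw [uIcc_self, mem_singleton_iff] at z2
    have zo : z ∈ Ioo 0 (min A A') ×ˢ Ioo 0 (min B B') :=
      ⟨⟨o.1.1.trans_le z1.1, lt_min (z1.2.trans_lt AA)
        (z1.2.lt_of_ne fun e => z3 (Prod.ext e z2))⟩, z2 ▸ o.2⟩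
    have zb : z ∈ ball x δ := (convex_ball x δ).segment_subset q3 (by
      simp only [mem_ball, Prod.dist_eq, max_lt_iff] at q3 ⊢
      exact ⟨by rw [xA', dist_self]; exact δ0, q3.2⟩) hz
    exact (hU z).2 ⟨zo, (hδ z zb zo).trans (q2.trans_le (q1.2.2.2.1.trans (h2.mono _ (bx _ o).2 _
      (bx _ zo).2 (by rw [abs_of_pos o.1.1]; exact z1.1) (by rw [z2, abs_of_pos o.2.1]))))⟩
  have xB' : x.2 < B' := (hx2.2.trans mB').lt_of_ne fun a => by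
    obtain ⟨φ, φ1, φ2⟩ := exists_between xA'
    obtain ⟨θ, θ1, θ2⟩ := h2.limQ φ φ2 c c0
    obtain ⟨q, ⟨q1, q2⟩, q3, q4⟩ := ((eC.and ec).and
      ((((continuous_fst.tendsto x).comp tx).eventually_le_const φ1).and
      (((continuous_snd.tendsto x).comp tx).eventually_const_lt (θ1.trans_eq a.symm)))).exists
    have := θ2 _ (bx _ (om q q1)).2 q4 (by rwa [abs_of_pos (om q q1).1.1])
    linarith [q1.2.2.2.1]
  have xb : x ∈ Box A' B' := mem_Box.2 ⟨by rwa [abs_of_nonneg hx1.1], by rwa [abs_of_nonneg hx2.1]⟩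
  have r1 : r ≤ σ x := le_of_tendsto_of_tendsto tr ((h2.cont x xb).tendsto.comp tx)
    (eC.mono fun q h => h.2.2.2.1)
  have imp : ∀ {p : Prop} {Q : P2 → Prop}, (p → ∀ᶠ y in 𝓝 x, Q y) → ∀ᶠ y in 𝓝 x, p → Q y :=
    fun h => eventually_imp_distrib_left.2 h
  obtain ⟨δ, δ0, hδ⟩ := Metric.eventually_nhds_iff_ball.1 (N1.and
    (((h2.cont x xb).tendsto.eventually_const_lt (c2.trans_le r1)).and
    (((continuous_fst.tendsto x).eventually_lt_const xA).and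
    ((show ∀ᶠ y in 𝓝 x, y ∈ Box A' B' from (Box_open A' B').mem_nhds xb).and
    ((imp (continuous_snd.tendsto x).eventually_lt_const (p := x.2 < B)).and
    ((imp (continuous_fst.tendsto x).eventually_const_lt (p := 0 < x.1)).and
    (imp (continuous_snd.tendsto x).eventually_const_lt (p := 0 < x.2))))))))
  have inU : ∀ z ∈ ball x δ, 0 < z.1 → 0 < z.2 → z.2 < B → z ∈ U := fun z hz a1 a2 a3 => by
    obtain ⟨b1, b2, b3, b4, -⟩ := hδ z hz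
    have zo : z ∈ Ioo 0 (min A A') ×ˢ Ioo 0 (min B B') :=
      ⟨⟨a1, lt_min b3 (abs_lt.1 (mem_Box.1 b4).1).2⟩, a2, lt_min a3 (abs_lt.1 (mem_Box.1 b4).2).2⟩
    exact (hU z).2 ⟨zo, (b1 zo).trans b2⟩
  obtain ⟨⟨s', y, r'⟩, q1, q3⟩ := (eC.and (tx.eventually (ball_mem_nhds x δ0))).exists
  have o := om _ q1
  have yB : y.2 < B := o.2.2.trans_le mB
  dsimp only at o q3
  have v1 : (x.1, y.2) ∈ ball x δ := by
    simp only [mem_ball, Prod.dist_eq, max_lt_iff] at q3 ⊢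
    exact ⟨by rw [dist_self]; exact δ0, q3.2⟩
  have v2 : (y.1, x.2) ∈ ball x δ := by
    simp only [mem_ball, Prod.dist_eq, max_lt_iff] at q3 ⊢
    exact ⟨q3.1, by rw [dist_self]; exact δ0⟩
  rcases (hx2.2.trans mB).eq_or_lt with xB | xB
  · refine ⟨(y.1, x.2), reach q1.2.1 fun z hz z1 z2 z3 => ?_,
      Or.inr (Or.inr (Or.inr ⟨xB ▸ xB', xB, o.1⟩))⟩
    dsimp only at z1 z2
    rw [uIcc_self, mem_singleton_iff] at z1
    rw [uIcc_of_le (yB.le.trans xB.ge)] at z2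
    exact inU z ((convex_ball x δ).segment_subset q3 v2 hz) (z1 ▸ o.1.1) (o.2.1.trans_le z2.1)
      ((z2.2.lt_of_ne fun e => z3 (Prod.ext z1 e)).trans_eq xB)
  by_cases k1 : x.1 = 0 ∧ L
  · refine ⟨(x.1, y.2), reach q1.2.1 fun z hz z1 z2 z3 => ?_, Or.inl ⟨k1.2, k1.1, o.2⟩⟩
    dsimp only at z1 z2
    rw [uIcc_self, mem_singleton_iff] at z2
    rw [uIcc_of_ge (k1.1.le.trans o.1.1.le)] at z1
    exact inU z ((convex_ball x δ).segment_subset q3 v1 hz)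
      (k1.1.ge.trans_lt (z1.1.lt_of_ne fun e => z3 (Prod.ext e.symm z2))) (z2 ▸ o.2.1) (z2 ▸ yB)
  by_cases k2 : x.2 = 0 ∧ Bt
  · refine ⟨(y.1, x.2), reach q1.2.1 fun z hz z1 z2 z3 => ?_, Or.inr (Or.inl ⟨k2.2, k2.1, o.1⟩)⟩
    dsimp only at z1 z2
    rw [uIcc_self, mem_singleton_iff] at z1
    rw [uIcc_of_ge (k2.1.le.trans o.2.1.le)] at z2
    exact inU z ((convex_ball x δ).segment_subset q3 v2 hz) (z1 ▸ o.1.1)
      (k2.1.ge.trans_lt (z2.1.lt_of_ne fun e => z3 (Prod.ext z1 e.symm))) (z2.2.trans_lt yB)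
  have hN : ∀ z ∈ ball x δ, z ∈ Box A' B' ∧ z.2 < B ∧ (0 < z.1 → 0 < z.2 → z ∈ {z | JoinedIn U x₀ z}) :=
    fun z hz => ⟨(hδ z hz).2.2.2.1, (hδ z hz).2.2.2.2.1 xB, fun a1 a2 =>
      q1.2.1.trans (JoinedIn.of_segment_subset fun w hw => by
        have b1 := (convex_ball x δ).segment_subset q3 hz hw
        have b2 := ((convex_Ioi 0).prod (convex_Ioi 0)).segment_subset
          (show y ∈ Ioi 0 ×ˢ Ioi 0 from ⟨o.1.1, o.2.1⟩) ⟨a1, a2⟩ hw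
        exact inU w b1 b2.1 b2.2 ((hδ w b1).2.2.2.2.1 xB))⟩
  have g := h2.rg' xb r0 r1
  obtain ⟨a2, a3⟩ := c2_le g.p0 (g.p1 hx2.1) g.p2 hs p2
  rw [g.cx] at a3
  obtain ⟨f1, f2, f3⟩ := h1.lim tP (g.p0.trans_le (fl_le g.p0.le g.p2 hs p2))
    (by rw [abs_of_nonneg a2]; exact a3.trans_lt xB) (eC.mono fun q h =>
      ⟨fl_unit, h.2.2.2.2.2.1, by rw [fl3]; exact (rg q h).p3 (om q h).1.1.le, h.2.2.2.2.2.2.1,
        h.2.2.2.2.2.2.2.le⟩)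
  have s1 : s < π / 2 := hs.2.lt_of_ne fun e => by
    rw [fl2, e, cos_pi_div_two, sin_pi_div_two] at f1
    linarith [g.p0]
  obtain ⟨w, w0, w1, w2, w3⟩ := touch hI hT h1 h2 ⟨hs'.1, s1⟩
    (fun t ht z hz ρ a b c => mx (subset_closure (show (t, z, ρ) ∈ C from ⟨ht, hz, a, b, c⟩))) δ0 hN
    hx1.1 hx2.1
    (hx1.1.lt_or_eq.imp (fun a z hz => (hδ z hz).2.2.2.2.2.1 a) fun a => hL fun b => k1 ⟨a.symm, b⟩)
    (hx2.1.lt_or_eq.imp (fun a z hz => (hδ z hz).2.2.2.2.2.2 a) fun a => hB fun b => k2 ⟨a.symm, b⟩)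
    r0 r1 f1 f2 f3
  obtain ⟨n1, n2, n3⟩ := hN w w0
  have wo := ((hU w).1 (n3 w1 w2).target_mem).1
  obtain ⟨AA, all⟩ := germ hI hT h1 h2 hs' mB mB' A0 ⟨⟨w1, wo.1.2.trans_le mA'⟩, wo.2⟩ w3
  refine ⟨(A', w.2), reach (n3 w1 w2) fun z hz z1 z2 z3 => ?_,
    Or.inr (Or.inr (Or.inl ⟨AA, rfl, wo.2⟩))⟩
  dsimp only at z1 z2
  rw [uIcc_of_le (wo.1.2.le.trans mA')] at z1
  rw [uIcc_self, mem_singleton_iff] at z2
  have z4 := z1.2.lt_of_ne fun e => z3 (Prod.ext e z2)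
  exact (hU z).2 ⟨⟨⟨w1.trans_le z1.1, lt_min (z4.trans AA) z4⟩, z2 ▸ wo.2⟩,
    all z ⟨⟨w1.trans_le z1.1, z4⟩, z2 ▸ wo.2⟩⟩

end ESrc

open ESrc in
theorem srcS (hT : TouchS) (hI : InvS) : SrcS := by
  intro ϱ₁ ϱ₂ w₁ h₁ w₂ h₂ d₁ d₂ e₁ e₂ p1 p2 hd he U hU x hx
  have a1 : d₁ ≤ 0 := hd ▸ le_max_left _ _
  have a2 : e₂ ≤ 0 := he ▸ le_max_right _ _
  refine main hI hT (pc_of_piece hI p1 a1 (he ▸ le_max_left _ _))
    (pc_of_piece hI p2 (hd ▸ le_max_right _ _) a2) (fun h y => ?_) (fun h y => ?_)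
    (fun x => by rw [hU]; rfl) hx
  · rw [le_antisymm a1 (not_lt.1 h), sub_zero, sub_zero]
    exact p1.ev1 (y.1, y.2 - e₁)
  · rw [le_antisymm a2 (not_lt.1 h), sub_zero, sub_zero]
    exact p2.ev2 (y.1 - d₂, y.2)

end Pool.Agent.Lib.MP_16d934_gt
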