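import Pool.Agent.Lib.MP_16d934_gt.StC

/-! The tetrahedron: coordinates, uniqueness and symmetry of leaves. -/

set_option autoImplicit false

open Set Metric Filter Topology
open scoped InnerProductSpace Real

noncomputable section

namespace Pool.Agent.Lib.MP_16d934_gt

namespace ETet

theorem ext4 {x y : E4} (h0 : x 0 = y 0) (h1 : x 1 = y 1) (h2 : x 2 = y 2) (h3 : x 3 = y 3) :
    x = y := by
  ext i
  fin_cases i <;> assumption

theorem nsq (x : E4) : ‖x‖ ^ 2 = x 0 ^ 2 + x 1 ^ 2 + x 2 ^ 2 + x 3 ^ 2 := by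
  rw [← real_inner_self_eq_norm_sq, inner4]
  ring

theorem norm_one {x : E4} : ‖x‖ = 1 ↔ x 0 ^ 2 + x 1 ^ 2 + x 2 ^ 2 + x 3 ^ 2 = 1 := by
  rw [← nsq]
  exact (pow_eq_one_iff_of_nonneg (norm_nonneg x) two_ne_zero).symm

theorem cont_co (i : Fin 4) : Continuous fun z : E4 => z i := by fun_prop

theorem s2pos : (0 : ℝ) < √2 := by positivity

theorem rho_pos (y : P2) (z : ℝ) : 0 < rho y z := by
  unfold rho
  positivity

theorem rho_sq (y : P2) (z : ℝ) : rho y z ^ 2 = 1 + y.1 ^ 2 + y.2 ^ 2 + z ^ 2 :=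
  Real.sq_sqrt (by positivity)

theorem gn_co (y : P2) (z : ℝ) : gn y z 0 = (rho y z)⁻¹ ∧ gn y z 1 = (rho y z)⁻¹ * y.1 ∧
    gn y z 2 = (rho y z)⁻¹ * y.2 ∧ gn y z 3 = (rho y z)⁻¹ * z := by
  simp [gn, rho]

theorem norm_gn (y : P2) (z : ℝ) : ‖gn y z‖ = 1 := by
  obtain ⟨h0, h1, h2, h3⟩ := gn_co y z
  rw [norm_one, h0, h1, h2, h3]
  have := rho_sq y z
  have := (rho_pos y z).ne'
  field_simp
  linarith

theorem O0_co (x : E4) : O0 x 0 = (√2)⁻¹ * (x 0 - x 3) ∧ O0 x 1 = x 2 ∧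
    O0 x 2 = (√2)⁻¹ * (x 0 + x 3) ∧ O0 x 3 = x 1 := by
  simp only [O0, mkO_apply]
  refine ⟨?_, ?_, ?_, ?_⟩ <;> simp <;> ring

theorem coord (y : P2) (z : ℝ) : O0 (gn y z) 0 = (1 - z) / (√2 * rho y z) ∧
    O0 (gn y z) 1 = y.2 / rho y z ∧ O0 (gn y z) 2 = (1 + z) / (√2 * rho y z) ∧
    O0 (gn y z) 3 = y.1 / rho y z := by
  obtain ⟨h0, h1, h2, h3⟩ := gn_co y z
  obtain ⟨k0, k1, k2, k3⟩ := O0_co (gn y z)
  rw [k0, k1, k2, k3, h0, h1, h2, h3]
  have := (rho_pos y z).ne'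
  refine ⟨?_, ?_, ?_, ?_⟩ <;> field_simp

theorem inj (O : Iso) (y y' : P2) (z z' : ℝ) (h : O (gn y z) = O (gn y' z')) :
    y = y' ∧ z = z' := by
  have h1 := O.injective h
  obtain ⟨a0, a1, a2, a3⟩ := gn_co y z
  obtain ⟨b0, b1, b2, b3⟩ := gn_co y' z'
  rw [h1] at a0 a1 a2 a3
  rw [a0] at b0
  rw [← b0, a1] at b1
  rw [← b0, a2] at b2
  rw [← b0, a3] at b3
  have := inv_ne_zero (rho_pos y z).ne'
  exact ⟨Prod.ext (mul_left_cancel₀ this b1) (mul_left_cancel₀ this b2), mul_left_cancel₀ this b3⟩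

theorem sw_co (x : E4) : sw x 0 = x 2 ∧ sw x 1 = x 3 ∧ sw x 2 = x 0 ∧ sw x 3 = x 1 := by
  simp [sw, mkO_apply]

theorem rf1_co (x : E4) : rf1 x 0 = x 0 ∧ rf1 x 1 = -x 1 ∧ rf1 x 2 = x 2 ∧ rf1 x 3 = x 3 := by
  simp [rf1, mkO_apply]

theorem rf3_co (x : E4) : rf3 x 0 = x 0 ∧ rf3 x 1 = x 1 ∧ rf3 x 2 = x 2 ∧ rf3 x 3 = -x 3 := by
  simp [rf3, mkO_apply]

/-! ### Angles -/

theorem hA_spec (a : ℝ) (ha : 0 < a) : 0 < hA a ∧ hA a < π / 2 ∧ √2 * Real.tan (hA a) = a := by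
  refine ⟨Real.arctan_pos.2 (by positivity), Real.arctan_lt_pi_div_two _, ?_⟩
  rw [hA, Real.tan_arctan]
  field_simp

theorem hA_two : hA √2 = π / 4 := by rw [hA, div_self s2pos.ne', Real.arctan_one]

theorem aL_spec (l : ℝ) (hl : l ∈ Ioo 0 π) : 0 < aL l ∧ hA (aL l) = l / 2 := by
  have h1 : 0 < l / 2 := by linarith [hl.1]
  have h2 : l / 2 < π / 2 := by linarith [hl.2]
  refine ⟨mul_pos s2pos (Real.tan_pos_of_pos_of_lt_pi_div_two h1 h2), ?_⟩
  rw [hA, aL, mul_div_cancel_left₀ _ s2pos.ne', Real.arctan_tan (by linarith) h2]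

theorem hA_sc (a : ℝ) (ha : 0 < a) : 0 < Real.cos (hA a) ∧ 0 < Real.sin (hA a) ∧
    √2 * Real.sin (hA a) = a * Real.cos (hA a) := by
  obtain ⟨h1, h2, h3⟩ := hA_spec a ha
  have hc : 0 < Real.cos (hA a) := Real.cos_pos_of_mem_Ioo ⟨by linarith, h2⟩
  refine ⟨hc, Real.sin_pos_of_pos_of_lt_pi h1 (by linarith), ?_⟩
  rw [← Real.tan_mul_cos hc.ne', ← mul_assoc, h3]

/-! ### Membership -/

theorem face (a t w ρ : ℝ) (ha : 0 < a) (hρ : 0 < ρ) :
    a * (w / (√2 * ρ)) - √2 * |t / ρ| = a / (√2 * ρ) * (w - 2 * |t| / a) := by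
  rw [abs_div, abs_of_pos hρ]
  have h := s2
  field_simp
  linear_combination (-|t|) * h

theorem faces (a b : ℝ) (ha : 0 < a) (hb : 0 < b) (y : P2) (z : ℝ) :
    ∃ c > 0, ∃ d > 0, a * O0 (gn y z) 2 - √2 * |O0 (gn y z) 3| = c * (z - lo a y) ∧
      b * O0 (gn y z) 0 - √2 * |O0 (gn y z) 1| = d * (up b y - z) := by
  obtain ⟨h0, h1, h2, h3⟩ := coord y z
  have hρ := rho_pos y z
  refine ⟨a / (√2 * rho y z), by positivity, b / (√2 * rho y z), by positivity, ?_, ?_⟩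
  · rw [h2, h3, face _ _ _ _ ha hρ, lo]
    ring
  · rw [h0, h1, face _ _ _ _ hb hρ, up]
    ring

theorem norm_O0 (y : P2) (z : ℝ) : ‖O0 (gn y z)‖ = 1 := by rw [O0.norm_map, norm_gn]

theorem tet_iff {a b : ℝ} (ha : 0 < a) (hb : 0 < b) (y : P2) (z : ℝ) :
    O0 (gn y z) ∈ Tet a b ↔ lo a y ≤ z ∧ z ≤ up b y := by
  obtain ⟨c, hc, d, hd, h1, h2⟩ := faces a b ha hb y z
  simp only [Tet, mem_ofPred_eq, norm_O0, true_and]
  rw [← sub_nonneg, h1, ← sub_nonneg (b := √2 * _), h2, mul_nonneg_iff_of_pos_left hc,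
    mul_nonneg_iff_of_pos_left hd, sub_nonneg, sub_nonneg]

theorem teto_iff {a b : ℝ} (ha : 0 < a) (hb : 0 < b) (y : P2) (z : ℝ) :
    O0 (gn y z) ∈ TetO a b ↔ lo a y < z ∧ z < up b y := by
  obtain ⟨c, hc, d, hd, h1, h2⟩ := faces a b ha hb y z
  simp only [TetO, mem_ofPred_eq, norm_O0, true_and]
  rw [← sub_pos, h1, ← sub_pos (b := √2 * _), h2, mul_pos_iff_of_pos_left hc,
    mul_pos_iff_of_pos_left hd, sub_pos, sub_pos]

theorem quad_iff {a b : ℝ} (ha : 0 < a) (hb : 0 < b) (y : P2) (z : ℝ) :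
    O0 (gn y z) ∈ Quad a b ↔ lo a y = z ∧ z = up b y := by
  obtain ⟨c, hc, d, hd, h1, h2⟩ := faces a b ha hb y z
  simp only [Quad, mem_ofPred_eq, norm_O0, true_and]
  rw [eq_comm, ← sub_eq_zero, h1, eq_comm (a := √2 * _), ← sub_eq_zero (b := √2 * _), h2,
    mul_eq_zero_iff_left hc.ne', mul_eq_zero_iff_left hd.ne', sub_eq_zero, sub_eq_zero, eq_comm,
    eq_comm (a := up b y)]

theorem up_lo (a b : ℝ) (y : P2) : up b y - lo a y = 2 * (1 - (|y.1| / a + |y.2| / b)) := by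
  unfold up lo
  ring

theorem rh_iff {a b : ℝ} {y : P2} : y ∈ Rh a b ↔ lo a y ≤ up b y := by
  rw [← sub_nonneg, up_lo]
  simp only [Rh, mem_ofPred_eq]
  constructor <;> intro h <;> linarith

theorem rho_iff {a b : ℝ} {y : P2} : y ∈ Rho a b ↔ lo a y < up b y := by
  rw [← sub_pos, up_lo]
  simp only [Rho, mem_ofPred_eq]
  constructor <;> intro h <;> linarith

theorem rho_sub {a b : ℝ} : Rho a b ⊆ Rh a b := fun _ h => rh_iff.2 (rho_iff.1 h).le

theorem quad_sub {a b : ℝ} : Quad a b ⊆ Tet a b := fun _ h => ⟨h.1, h.2.1.le, h.2.2.le⟩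

theorem tet_pos {a b : ℝ} (ha : 0 < a) (hb : 0 < b) {x : E4} (hx : x ∈ Tet a b) :
    0 ≤ x 0 ∧ 0 ≤ x 2 ∧ 0 < x 0 + x 2 := by
  obtain ⟨h, h1, h2⟩ := hx
  have a1 : 0 ≤ √2 * |x 3| := by positivity
  have a2 : 0 ≤ √2 * |x 1| := by positivity
  have b0 : 0 ≤ x 0 := nonneg_of_mul_nonneg_right (a2.trans h2) hb
  have b2 : 0 ≤ x 2 := nonneg_of_mul_nonneg_right (a1.trans h1) ha
  refine ⟨b0, b2, ?_⟩
  by_contra hc
  have c0 : x 0 = 0 := by linarith
  have c2 : x 2 = 0 := by linarith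
  rw [c2, mul_zero] at h1
  rw [c0, mul_zero] at h2
  have c3 : x 3 = 0 := abs_nonpos_iff.1 (nonpos_of_mul_nonpos_right h1 s2pos)
  have c1 : x 1 = 0 := abs_nonpos_iff.1 (nonpos_of_mul_nonpos_right h2 s2pos)
  rw [norm_one, c0, c1, c2, c3] at h
  norm_num at h

/-- base point of the central projection -/
def py (x : E4) : P2 := (√2 * x 3 / (x 0 + x 2), √2 * x 1 / (x 0 + x 2))

/-- height of the central projection -/
def pz (x : E4) : ℝ := (x 2 - x 0) / (x 0 + x 2)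

theorem proj {x : E4} (h : ‖x‖ = 1) (hs : 0 < x 0 + x 2) : O0 (gn (py x) (pz x)) = x := by
  have hρ : rho (py x) (pz x) = √2 / (x 0 + x 2) := by
    rw [rho, Real.sqrt_eq_iff_mul_self_eq (by positivity) (by positivity)]
    rw [norm_one] at h
    have h2 := s2
    simp only [py, pz]
    field_simp
    linear_combination (x 3 ^ 2 + x 1 ^ 2 - 1) * h2 + 2 * h
  obtain ⟨h0, h1, h2, h3⟩ := coord (py x) (pz x)
  have h4 := s2
  refine ext4 ?_ ?_ ?_ ?_
  · rw [h0, hρ, pz, ← mul_div_assoc, s2]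
    field_simp
    ring
  · rw [h1, hρ]
    simp only [py]
    field_simp
  · rw [h2, hρ, pz, ← mul_div_assoc, s2]
    field_simp
    ring
  · rw [h3, hρ]
    simp only [py]
    field_simp

theorem tet_proj {a b : ℝ} (ha : 0 < a) (hb : 0 < b) {x : E4} (hx : x ∈ Tet a b) :
    O0 (gn (py x) (pz x)) = x ∧ py x ∈ Rh a b ∧ lo a (py x) ≤ pz x ∧ pz x ≤ up b (py x) := by
  have h := proj hx.1 (tet_pos ha hb hx).2.2
  have h2 := (tet_iff ha hb _ _).1 (h.symm ▸ hx)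
  exact ⟨h, rh_iff.2 (h2.1.trans h2.2), h2⟩

theorem mem (a b : ℝ) (ha : 0 < a) (hb : 0 < b) (x : E4) : x ∈ Tet a b ↔
    ∃ y ∈ Rh a b, ∃ z, lo a y ≤ z ∧ z ≤ up b y ∧ x = O0 (gn y z) := by
  constructor
  · intro hx
    obtain ⟨h1, h2, h3, h4⟩ := tet_proj ha hb hx
    exact ⟨_, h2, _, h3, h4, h1.symm⟩
  · rintro ⟨y, -, z, h1, h2, rfl⟩
    exact (tet_iff ha hb y z).2 ⟨h1, h2⟩

/-! ### Arcs and convex hull -/

theorem arc_co (s t r : ℝ) :
    (Real.cos r • vP s + Real.sin r • vQ t) 0 = Real.sin r * Real.cos t ∧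
    (Real.cos r • vP s + Real.sin r • vQ t) 1 = Real.sin r * Real.sin t ∧
    (Real.cos r • vP s + Real.sin r • vQ t) 2 = Real.cos r * Real.cos s ∧
    (Real.cos r • vP s + Real.sin r • vQ t) 3 = Real.cos r * Real.sin s := by
  simp [vP, vQ]

theorem arc_sub {a b : ℝ} (ha : 0 < a) (hb : 0 < b) {s t : ℝ} (hs : s = hA a ∨ s = -hA a)
    (ht : t = hA b ∨ t = -hA b) : arc (vP s) (vQ t) ⊆ Quad a b := by
  rintro _ ⟨r, hr, rfl⟩
  obtain ⟨h0, h1, h2, h3⟩ := arc_co s t r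
  have c0 : 0 ≤ Real.cos r := Real.cos_nonneg_of_mem_Icc ⟨by linarith [hr.1, Real.pi_pos], hr.2⟩
  have s0 : 0 ≤ Real.sin r :=
    Real.sin_nonneg_of_nonneg_of_le_pi hr.1 (by linarith [hr.2, Real.pi_pos])
  obtain ⟨-, a2, a3⟩ := hA_sc a ha
  obtain ⟨-, b2, b3⟩ := hA_sc b hb
  refine ⟨?_, ?_, ?_⟩
  · rw [norm_one, h0, h1, h2, h3]
    linear_combination Real.sin r ^ 2 * Real.sin_sq_add_cos_sq t
      + Real.cos r ^ 2 * Real.sin_sq_add_cos_sq s + Real.sin_sq_add_cos_sq r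
  · rw [h2, h3, abs_mul, abs_of_nonneg c0]
    rcases hs with rfl | rfl
    · rw [abs_of_pos a2]
      linear_combination Real.cos r * a3
    · rw [Real.sin_neg, Real.cos_neg, abs_neg, abs_of_pos a2]
      linear_combination Real.cos r * a3
  · rw [h0, h1, abs_mul, abs_of_nonneg s0]
    rcases ht with rfl | rfl
    · rw [abs_of_pos b2]
      linear_combination Real.sin r * b3
    · rw [Real.sin_neg, Real.cos_neg, abs_neg, abs_of_pos b2]
      linear_combination Real.sin r * b3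

theorem polar {a : ℝ} (ha : 0 < a) {v w : ℝ} (h : √2 * |w| = a * v) :
    ∃ r, 0 ≤ r ∧ ∃ s, (s = hA a ∨ s = -hA a) ∧ v = r * Real.cos s ∧ w = r * Real.sin s := by
  obtain ⟨a1, a2, a3⟩ := hA_sc a ha
  have v0 : 0 ≤ v := nonneg_of_mul_nonneg_right (h ▸ by positivity) ha
  have hw : |w| = v / Real.cos (hA a) * Real.sin (hA a) := by
    refine mul_left_cancel₀ s2pos.ne' ?_
    rw [h, mul_left_comm, a3]
    field_simp
  refine ⟨v / Real.cos (hA a), by positivity, ?_⟩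
  rcases le_total 0 w with h0 | h0
  · refine ⟨_, Or.inl rfl, by field_simp, ?_⟩
    rw [← hw, abs_of_nonneg h0]
  · refine ⟨_, Or.inr rfl, by rw [Real.cos_neg]; field_simp, ?_⟩
    rw [Real.sin_neg, mul_neg, ← hw, abs_of_nonpos h0, neg_neg]

theorem arcs (a b : ℝ) (ha : 0 < a) (hb : 0 < b) : Quad a b =
    arc (vP (hA a)) (vQ (hA b)) ∪ arc (vP (-hA a)) (vQ (hA b)) ∪
      arc (vP (-hA a)) (vQ (-hA b)) ∪ arc (vP (hA a)) (vQ (-hA b)) := by
  refine Subset.antisymm (fun x hx => ?_) (union_subset (union_subset (union_subset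
    (arc_sub ha hb (Or.inl rfl) (Or.inl rfl)) (arc_sub ha hb (Or.inr rfl) (Or.inl rfl)))
    (arc_sub ha hb (Or.inr rfl) (Or.inr rfl))) (arc_sub ha hb (Or.inl rfl) (Or.inr rfl)))
  obtain ⟨r, r0, s, hs, e2, e3⟩ := polar ha hx.2.1
  obtain ⟨q, q0, t, ht, e0, e1⟩ := polar hb hx.2.2
  have h1 : r ^ 2 + q ^ 2 = 1 := by
    have := norm_one.1 hx.1
    rw [e0, e1, e2, e3] at this
    linear_combination this - q ^ 2 * Real.sin_sq_add_cos_sq t - r ^ 2 * Real.sin_sq_add_cos_sq s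
  have r1 : r ≤ 1 := by nlinarith
  have hc : Real.cos (Real.arccos r) = r := Real.cos_arccos (by linarith) r1
  have hs' : Real.sin (Real.arccos r) = q := by
    rw [Real.sin_arccos, Real.sqrt_eq_iff_mul_self_eq (by nlinarith) q0]
    linarith
  have hm : x ∈ arc (vP s) (vQ t) := by
    refine ⟨Real.arccos r, ⟨Real.arccos_nonneg r, Real.arccos_le_pi_div_two.2 r0⟩, ?_⟩
    obtain ⟨h0, h1, h2, h3⟩ := arc_co s t (Real.arccos r)
    refine ext4 ?_ ?_ ?_ ?_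
    · rw [h0, hs', e0]
    · rw [h1, hs', e1]
    · rw [h2, hc, e2]
    · rw [h3, hc, e3]
  rcases hs with rfl | rfl <;> rcases ht with rfl | rfl
  · exact Or.inl (Or.inl (Or.inl hm))
  · exact Or.inr hm
  · exact Or.inl (Or.inl (Or.inr hm))
  · exact Or.inl (Or.inr hm)

theorem cone {a : ℝ} (ha : 0 < a) (v w : ℝ) : √2 * |w| ≤ a * v ↔
    ∃ c d : ℝ, 0 ≤ c ∧ 0 ≤ d ∧ v = (c + d) * Real.cos (hA a) ∧ w = (c - d) * Real.sin (hA a) := by
  obtain ⟨a1, a2, a3⟩ := hA_sc a ha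
  constructor
  · intro h
    have h1 : |w / Real.sin (hA a)| ≤ v / Real.cos (hA a) := by
      rw [abs_div, abs_of_pos a2, div_le_div_iff₀ a2 a1]
      refine le_of_mul_le_mul_left ?_ s2pos
      rw [mul_left_comm _ v, a3]
      nlinarith
    obtain ⟨h2, h3⟩ := abs_le.1 h1
    refine ⟨(v / Real.cos (hA a) + w / Real.sin (hA a)) / 2,
      (v / Real.cos (hA a) - w / Real.sin (hA a)) / 2, by linarith, by linarith, ?_, ?_⟩
    · field_simp
      ring
    · field_simp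
      ring
  · rintro ⟨c, d, hc, hd, rfl, rfl⟩
    have h1 : |c - d| ≤ c + d := abs_le.2 ⟨by linarith, by linarith⟩
    rw [abs_mul, abs_of_pos a2, mul_left_comm, a3, mul_left_comm a]
    exact mul_le_mul_of_nonneg_right h1 (by positivity)

theorem hull (a b : ℝ) (ha : 0 < a) (hb : 0 < b) : Tet a b =
    {x | ‖x‖ = 1 ∧ ∃ c d e f : ℝ, 0 ≤ c ∧ 0 ≤ d ∧ 0 ≤ e ∧ 0 ≤ f ∧
      x = c • vP (hA a) + d • vP (-hA a) + e • vQ (hA b) + f • vQ (-hA b)} := by
  ext x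
  simp only [Tet, mem_ofPred_eq, cone ha, cone hb]
  refine and_congr_right fun _ => ⟨?_, ?_⟩
  · rintro ⟨⟨c, d, hc, hd, h2, h3⟩, e, f, he, hf, h0, h1⟩
    refine ⟨c, d, e, f, hc, hd, he, hf, ext4 ?_ ?_ ?_ ?_⟩ <;> simp [vP, vQ] <;> linarith
  · rintro ⟨c, d, e, f, hc, hd, he, hf, rfl⟩
    refine ⟨⟨c, d, hc, hd, ?_, ?_⟩, e, f, he, hf, ?_, ?_⟩ <;> simp [vP, vQ] <;> ring

theorem law (γ : ℕ) (hγ : 1 ≤ γ) :
    tetra γ = Tet (aL (π / (γ + 1))) √2 ∧ quad γ = Quad (aL (π / (γ + 1))) √2 := by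
  have h1 : (1 : ℝ) ≤ γ := by exact_mod_cast hγ
  have hpi := Real.pi_pos
  obtain ⟨h2, h3⟩ := aL_spec (π / (γ + 1))
    ⟨by positivity, div_lt_self hpi (by linarith)⟩
  have h4 : π / (γ + 1) / 2 = hf γ := by rw [hf, div_div, mul_comm]
  rw [hull _ _ h2 s2pos, arcs _ _ h2 s2pos, h3, h4, hA_two]
  exact ⟨rfl, rfl⟩

/-! ### Calculus -/

theorem d1_neg (u : P2 → ℝ) : d1 (fun y => -u y) = fun y => -d1 u y := by
  funext y
  simp [d1]

theorem d2_neg (u : P2 → ℝ) : d2 (fun y => -u y) = fun y => -d2 u y := by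
  funext y
  simp [d2]

theorem neg (u : P2 → ℝ) (U : Set P2) (h : Sol u U) : Sol (fun y => -u y) U := by
  refine ⟨h.1.neg, fun y hy => ?_⟩
  have := h.2 y hy
  simp only [gAt, gOp, d1_neg, d2_neg] at this ⊢
  linear_combination -this

theorem negg (O : Iso) (u : P2 → ℝ) (y : P2) : gX (rf3.trans O) (fun x => -u x) y = gX O u y ∧
    gN (rf3.trans O) (fun x => -u x) y = -gN O u y := by
  constructor
  · simp only [gX, LinearIsometryEquiv.trans_apply]
    congr 1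
    obtain ⟨h0, h1, h2, h3⟩ := rf3_co (gn y (-u y))
    refine ext4 (h0.trans ?_) (h1.trans ?_) (h2.trans ?_) (h3.trans ?_) <;> simp [gn]
  · simp only [gN, LinearIsometryEquiv.trans_apply, d1_neg, d2_neg, ← map_neg]
    congr 1
    obtain ⟨h0, h1, h2, h3⟩ := rf3_co (nrm y (-u y) (-d1 u y) (-d2 u y))
    have h : 1 + (-d1 u y) ^ 2 + (-d2 u y) ^ 2 + (-u y - y.1 * -d1 u y - y.2 * -d2 u y) ^ 2
        = 1 + d1 u y ^ 2 + d2 u y ^ 2 + (u y - y.1 * d1 u y - y.2 * d2 u y) ^ 2 := by ring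
    refine ext4 ?_ ?_ ?_ ?_
    · rw [h0]
      simp only [nrm, h]
      simp
      ring
    · rw [h1]
      simp only [nrm, h]
      simp
    · rw [h2]
      simp only [nrm, h]
      simp
    · rw [h3]
      simp only [nrm, h]
      simp

theorem plane (c : ℝ) (p : P2) : Sol (fun y => c + dot p y) univ := by
  have hd : ∀ y : P2, HasFDerivAt (fun y : P2 => c + dot p y)
      (p.1 • ContinuousLinearMap.fst ℝ ℝ ℝ + p.2 • ContinuousLinearMap.snd ℝ ℝ ℝ) y := fun y =>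
    ((hasFDerivAt_fst.const_mul p.1).add (hasFDerivAt_snd.const_mul p.2)).const_add c
  have h1 : d1 (fun y : P2 => c + dot p y) = fun _ => p.1 := by
    funext y
    simp [d1, (hd y).fderiv]
  have h2 : d2 (fun y : P2 => c + dot p y) = fun _ => p.2 := by
    funext y
    simp [d2, (hd y).fderiv]
  refine ⟨fun y _ => ?_, fun y _ => ?_⟩
  · exact analyticAt_const.add ((analyticAt_const.mul analyticAt_fst).add
      (analyticAt_const.mul analyticAt_snd))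
  · simp only [gAt, h1, h2]
    simp [d1, d2, gOp]

theorem d_comp (R : P2 ≃L[ℝ] P2) (u : P2 → ℝ) (y : P2) :
    d1 (fun x => u (R x)) y = (R (1, 0)).1 * d1 u (R y) + (R (1, 0)).2 * d2 u (R y) ∧
    d2 (fun x => u (R x)) y = (R (0, 1)).1 * d1 u (R y) + (R (0, 1)).2 * d2 u (R y) := by
  have h := R.comp_right_fderiv (f := u) (x := y)
  have k : ∀ v : P2, fderiv ℝ u (R y) v = v.1 * d1 u (R y) + v.2 * d2 u (R y) := by
    intro v
    rw [d1, d2, ← smul_eq_mul, ← smul_eq_mul, ← map_smul, ← map_smul, ← map_add]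
    simp
  constructor
  · rw [← k]
    exact congrArg (fun L : P2 →L[ℝ] ℝ => L (1, 0)) h
  · rw [← k]
    exact congrArg (fun L : P2 →L[ℝ] ℝ => L (0, 1)) h

theorem orth_alg {a b c d : ℝ} (h1 : a * a + c * c = 1) (h2 : b * b + d * d = 1)
    (h3 : a * b + c * d = 0) : a * a + b * b = 1 ∧ c * c + d * d = 1 ∧ a * c + b * d = 0 := by
  have hD : (a * d - b * c) ^ 2 = 1 := by
    linear_combination (b * b + d * d) * h1 + h2 - (a * b + c * d) * h3
  have e1 : d = (a * d - b * c) * a := by linear_combination (-d) * h1 + c * h3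
  have e2 : b = -((a * d - b * c) * c) := by linear_combination (-b) * h1 + a * h3
  refine ⟨?_, ?_, ?_⟩
  · linear_combination h1 + (b - (a * d - b * c) * c) * e2 + c ^ 2 * hD
  · linear_combination h1 + (d + (a * d - b * c) * a) * e1 + a ^ 2 * hD
  · linear_combination d * e2 - (a * d - b * c) * c * e1 - a * c * hD

theorem orth (hM : MeqS) (R : P2 ≃L[ℝ] P2) (hR : ∀ x y, dot (R x) (R y) = dot x y) :
    (∀ u U, Sol u U → Sol (fun y => u (R y)) (R ⁻¹' U)) ∧ ∃ R' : Iso, R' (ee 0) = ee 0 ∧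
      R' (ee 3) = ee 3 ∧ (∀ y z, R' (gn y z) = gn (R y) z) ∧ ∀ (O : Iso) (u : P2 → ℝ) (y : P2),
        gX O u (R y) = gX (R'.trans O) (fun x => u (R x)) y ∧
        gN O u (R y) = gN (R'.trans O) (fun x => u (R x)) y := by
  set a := (R (1, 0)).1 with ha
  set c := (R (1, 0)).2 with hc
  set b := (R (0, 1)).1 with hb
  set d := (R (0, 1)).2 with hd
  have h1 : a * a + c * c = 1 := by simpa [dot] using hR (1, 0) (1, 0)
  have h2 : b * b + d * d = 1 := by simpa [dot] using hR (0, 1) (0, 1)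
  have h3 : a * b + c * d = 0 := by simpa [dot] using hR (1, 0) (0, 1)
  obtain ⟨k1, k2, k3⟩ := orth_alg h1 h2 h3
  have hy : ∀ y : P2, (R y).1 = y.1 * a + y.2 * b ∧ (R y).2 = y.1 * c + y.2 * d := by
    intro y
    have : R y = y.1 • R (1, 0) + y.2 • R (0, 1) := by
      rw [← map_smul, ← map_smul, ← map_add]
      simp
    rw [this]
    exact ⟨rfl, rfl⟩
  set R' : Iso := mkO ![!₂[1, 0, 0, 0], !₂[0, a, c, 0], !₂[0, b, d, 0], !₂[0, 0, 0, 1]]
    (ortho4 _ fun i j => by fin_cases i <;> fin_cases j <;> simp <;> linarith) with hR'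
  have co : ∀ x : E4, R' x 0 = x 0 ∧ R' x 1 = x 1 * a + x 2 * b ∧ R' x 2 = x 1 * c + x 2 * d ∧
      R' x 3 = x 3 := fun x => by simp [hR', mkO_apply]
  have hg : ∀ y z, R' (gn y z) = gn (R y) z := by
    intro y z
    obtain ⟨c0, c1, c2, c3⟩ := co (gn y z)
    obtain ⟨a0, a1, a2, a3⟩ := gn_co y z
    obtain ⟨b0, b1, b2, b3⟩ := gn_co (R y) z
    obtain ⟨e1, e2⟩ := hy y
    have hρ : rho (R y) z = rho y z := by
      have := hR y y
      unfold dot at this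
      unfold rho
      congr 1
      linarith
    refine ext4 ?_ ?_ ?_ ?_
    · rw [c0, a0, b0, hρ]
    · rw [c1, a1, a2, b1, hρ, e1]
      ring
    · rw [c2, a1, a2, b2, hρ, e2]
      ring
    · rw [c3, a3, b3, hρ]
  have hX : ∀ (O : Iso) (u : P2 → ℝ) (y : P2),
      gX O u (R y) = gX (R'.trans O) (fun x => u (R x)) y := fun O u y => by
    simp only [gX, LinearIsometryEquiv.trans_apply, hg]
  refine ⟨fun u U h => ?_, R', ?_, ?_, hg, fun O u y => ⟨hX O u y, ?_⟩⟩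
  · have hA : AnalyticOnNhd ℝ (fun y => u (R y)) (R ⁻¹' U) := fun y hy =>
      (h.1 _ hy).comp (f := R) (R.toContinuousLinearMap.analyticAt y)
    refine ⟨hA, fun y hy => ?_⟩
    rw [← hM.graph (R'.trans O0) _ y (hA y hy).contDiffAt]
    have e : gX (R'.trans O0) (fun x => u (R x)) = fun x => gX O0 u (R x) :=
      funext fun x => (hX O0 u x).symm
    rw [e, hM.comp (gX O0 u) R y R.contDiff.contDiffAt (hM.ana O0 u _ (h.1 _ hy)).1.contDiffAt
      (by rw [R.fderiv]; exact R.injective), hM.graph O0 u _ (h.1 _ hy).contDiffAt]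
    exact h.2 _ hy
  · obtain ⟨c0, c1, c2, c3⟩ := co (ee 0)
    refine ext4 c0 (c1.trans ?_) (c2.trans ?_) c3 <;> simp [ee]
  · obtain ⟨c0, c1, c2, c3⟩ := co (ee 3)
    refine ext4 c0 (c1.trans ?_) (c2.trans ?_) c3 <;> simp [ee]
  · simp only [gN, LinearIsometryEquiv.trans_apply]
    congr 1
    obtain ⟨e1, e2⟩ := d_comp R u y
    obtain ⟨f1, f2⟩ := hy y
    rw [e1, e2, ← ha, ← hb, ← hc, ← hd]
    generalize d1 u (R y) = p
    generalize d2 u (R y) = q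
    generalize u (R y) = z
    obtain ⟨c0, c1, c2, c3⟩ := co (nrm y z (a * p + c * q) (b * p + d * q))
    have h : 1 + (a * p + c * q) ^ 2 + (b * p + d * q) ^ 2
        + (z - y.1 * (a * p + c * q) - y.2 * (b * p + d * q)) ^ 2
        = 1 + p ^ 2 + q ^ 2 + (z - (R y).1 * p - (R y).2 * q) ^ 2 := by
      rw [f1, f2]
      linear_combination p ^ 2 * k1 + q ^ 2 * k2 + 2 * p * q * k3
    refine ext4 ?_ ?_ ?_ ?_
    · rw [c0]
      simp only [nrm, h]
      simp [f1, f2]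
      left
      ring
    · rw [c1]
      simp only [nrm, h]
      simp
      generalize (√(1 + p ^ 2 + q ^ 2 + (z - (R y).1 * p - (R y).2 * q) ^ 2))⁻¹ = w
      linear_combination w * p * k1 + w * q * k3
    · rw [c2]
      simp only [nrm, h]
      simp
      generalize (√(1 + p ^ 2 + q ^ 2 + (z - (R y).1 * p - (R y).2 * q) ^ 2))⁻¹ = w
      linear_combination w * q * k2 + w * p * k3
    · rw [c3]
      simp only [nrm, h]
      simp

/-! ### Leaves -/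

theorem cont_gn : Continuous fun q : P2 × ℝ => gn q.1 q.2 := by
  unfold gn
  have h1 : Continuous fun q : P2 × ℝ => (√(1 + q.1.1 ^ 2 + q.1.2 ^ 2 + q.2 ^ 2))⁻¹ :=
    Continuous.inv₀ (by fun_prop) fun y => by positivity
  refine h1.smul ((PiLp.continuous_toLp 2 _).comp (continuous_pi fun i => ?_))
  fin_cases i <;> simp <;> fun_prop

theorem cont_gX (O : Iso) {u : P2 → ℝ} {U : Set P2} (hu : ContinuousOn u U) :
    ContinuousOn (gX O u) U := by
  have h : ContinuousOn (fun y => gn y (u y)) U :=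
    cont_gn.comp_continuousOn (f := fun y => (y, u y)) (continuousOn_id.prodMk hu)
  exact O.continuous.comp_continuousOn h

theorem cont_g (a b : ℝ) : Continuous fun y : P2 => |y.1| / a + |y.2| / b := by fun_prop

theorem open_rho (a b : ℝ) : IsOpen (Rho a b) := isOpen_lt (cont_g a b) continuous_const

theorem closed_rh (a b : ℝ) : IsClosed (Rh a b) := isClosed_le (cont_g a b) continuous_const

theorem convex_rho {a b : ℝ} (ha : 0 < a) (hb : 0 < b) : Convex ℝ (Rho a b) := by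
  intro x hx y hy s t hs ht hst
  simp only [Rho, mem_ofPred_eq, Prod.fst_add, Prod.snd_add, Prod.smul_fst, Prod.smul_snd,
    smul_eq_mul] at hx hy ⊢
  have k : ∀ v w c : ℝ, 0 < c → |s * v + t * w| / c ≤ s * (|v| / c) + t * (|w| / c) := by
    intro v w c hc
    rw [← mul_div_assoc, ← mul_div_assoc, ← add_div]
    refine div_le_div_of_nonneg_right ((abs_add_le _ _).trans ?_) hc.le
    rw [abs_mul, abs_mul, abs_of_nonneg hs, abs_of_nonneg ht]
  have h1 := k x.1 y.1 a ha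
  have h2 := k x.2 y.2 b hb
  rcases hs.eq_or_lt with h | h
  · subst h
    rw [zero_add] at hst
    subst hst
    linarith
  · nlinarith [mul_pos h (sub_pos.2 hx), mul_nonneg ht (sub_pos.2 hy).le]

theorem cpt_rh {a b : ℝ} (ha : 0 < a) (hb : 0 < b) : IsCompact (Rh a b) := by
  refine ((isCompact_Icc (a := -a) (b := a)).prod (isCompact_Icc (a := -b) (b := b))).of_isClosed_subset
    (closed_rh a b) fun y hy => ?_
  have h : |y.1| / a + |y.2| / b ≤ 1 := hy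
  have h1 : 0 ≤ |y.1| / a := by positivity
  have h2 : 0 ≤ |y.2| / b := by positivity
  exact ⟨abs_le.1 ((div_le_one ha).1 (by linarith)), abs_le.1 ((div_le_one hb).1 (by linarith))⟩

theorem rh_clo {a b : ℝ} : Rh a b ⊆ closure (Rho a b) := by
  intro y hy
  have h : |y.1| / a + |y.2| / b ≤ 1 := hy
  have h1 : Tendsto (fun t : ℝ => t • y) (𝓝[<] 1) (𝓝 y) :=
    ((show Continuous fun t : ℝ => t • y by fun_prop).tendsto' 1 y (one_smul _ _)).mono_left
      nhdsWithin_le_nhds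
  refine mem_closure_of_tendsto h1 ?_
  filter_upwards [Ioo_mem_nhdsLT (zero_lt_one' ℝ)] with t ht
  simp only [Rho, mem_ofPred_eq, Prod.smul_fst, Prod.smul_snd, smul_eq_mul, abs_mul,
    abs_of_pos ht.1, mul_div_assoc]
  nlinarith [ht.1, ht.2]

variable {a b : ℝ} {u v : P2 → ℝ}

theorem bdry (h : IsLeaf a b u) {y : P2} (hy : y ∈ Rh a b \ Rho a b) :
    lo a y = u y ∧ u y = up b y := by
  have h1 := h.low y hy.1
  have h2 := h.upp y hy.1
  have h3 := not_lt.1 (mt rho_iff.2 hy.2)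
  exact ⟨by linarith, by linarith⟩

theorem quad_img (h : IsLeaf a b u) : gX O0 u '' (Rh a b \ Rho a b) = Quad a b := by
  refine Subset.antisymm ?_ fun x hx => ?_
  · rintro _ ⟨y, hy, rfl⟩
    exact (quad_iff h.apos h.bpos _ _).2 (bdry h hy)
  · obtain ⟨h1, h2, -⟩ := tet_proj h.apos h.bpos (quad_sub hx)
    obtain ⟨h3, h4⟩ := (quad_iff h.apos h.bpos _ _).1 (h1.symm ▸ hx)
    have h5 : py x ∈ Rh a b \ Rho a b := ⟨h2, fun h6 => (rho_iff.1 h6).ne (h3.trans h4)⟩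
    refine ⟨_, h5, ?_⟩
    rw [gX, ← (bdry h h5).1, h3, h1]

theorem sol_mono {U V : Set P2} (h : Sol u U) (hV : V ⊆ U) : Sol u V :=
  ⟨h.1.mono hV, fun y hy => h.2 y (hV hy)⟩

theorem sgn (t : ℝ) : ∃ ε : ℝ, |ε| = 1 ∧ ε * t = |t| ∧ ∀ s, ε * s ≤ |s| := by
  rcases le_total 0 t with h | h
  · exact ⟨1, abs_one, by rw [one_mul, abs_of_nonneg h], fun s => by simpa using le_abs_self s⟩
  · exact ⟨-1, by simp, by rw [neg_one_mul, abs_of_nonpos h], fun s => by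
      simpa using neg_le_abs s⟩

theorem dual (hM : MeqS) (h : IsLeaf a b u) : IsLeaf b a (du u) := by
  have hs : ∀ y ∈ Rh b a, (y.2, y.1) ∈ Rh a b := fun y hy => by
    simpa only [Rh, mem_ofPred_eq, add_comm] using hy
  refine ⟨h.bpos, h.apos, (h.cont.comp (f := fun y : P2 => (y.2, y.1)) (by fun_prop) hs).neg,
    fun y hy => ?_, fun y hy => ?_, ?_⟩
  · have := h.upp _ (hs y hy)
    simp only [up, lo, du] at this ⊢
    linarith
  · have := h.low _ (hs y hy)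
    simp only [up, lo, du] at this ⊢
    linarith
  · refine sol_mono (neg _ _ ((orth hM (ContinuousLinearEquiv.prodComm ℝ ℝ ℝ)
      fun x y => by simp [dot, add_comm]).1 u _ h.sol)) fun y hy => ?_
    simpa only [Rho, mem_preimage, ContinuousLinearEquiv.prodComm_apply, Prod.fst_swap,
      Prod.snd_swap, mem_ofPred_eq, add_comm] using hy

theorem lo_lt (hT : TouchS) (h : IsLeaf a b u) {y : P2} (hy : y ∈ Rho a b) : lo a y < u y := by
  refine (h.low y (rho_sub hy)).lt_of_ne fun he => ?_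
  obtain ⟨ε, e1, e2, e3⟩ := sgn y.1
  have ha := h.apos
  have hp := sol_mono (plane (-1) (2 * ε / a, 0)) (subset_univ (Rho a b))
  have hl : ∀ x : P2, -1 + dot (2 * ε / a, 0) x = 2 * (ε * x.1) / a - 1 := fun x => by
    simp only [dot]
    ring
  have h1 := hT.graph _ u _ (open_rho a b) hp h.sol y hy (by rw [hl, e2, ← he, lo]) (by
    filter_upwards [(open_rho a b).mem_nhds hy] with x hx
    refine le_trans ?_ (h.low x (rho_sub hx))
    rw [hl, lo]
    gcongr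
    exact e3 _)
  have h2 := hp.1.eqOn_of_preconnected_of_eventuallyEq h.sol.1
    (convex_rho ha h.bpos).isPreconnected hy h1
  have k : |-(ε * a / 2)| = a / 2 := by
    rw [abs_neg, abs_div, abs_mul, e1, one_mul, abs_of_pos ha, abs_two]
  have h3 : ((-(ε * a / 2), 0) : P2) ∈ Rho a b := by
    simp only [Rho, mem_ofPred_eq, k, abs_zero, zero_div, add_zero]
    rw [div_lt_one ha]
    linarith
  have h4 := h.low _ (rho_sub h3)
  rw [← h2 h3] at h4
  have e4 : ε * ε = 1 := by rw [← abs_mul_abs_self, e1, one_mul]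
  simp only [hl, lo, k] at h4
  have h5 : 2 * (ε * -(ε * a / 2)) / a = -1 := by
    field_simp
    linear_combination (-1 : ℝ) * e4
  have h6 : 2 * (a / 2) / a = 1 := by field_simp
  linarith

theorem inner (hM : MeqS) (hT : TouchS) (h : IsLeaf a b u) (y : P2) (hy : y ∈ Rho a b) :
    lo a y < u y ∧ u y < up b y ∧ gX O0 u y ∈ TetO a b := by
  have h1 := lo_lt hT h hy
  have h2 := lo_lt hT (dual hM h) (y := (y.2, y.1))
    (by simpa only [Rho, mem_ofPred_eq, add_comm] using hy)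
  have h3 : u y < up b y := by
    simp only [lo, du, up] at h2 ⊢
    linarith
  exact ⟨h1, h3, (teto_iff h.apos h.bpos _ _).2 ⟨h1, h3⟩⟩

theorem cpt (hC : ChartS) (h : IsLeaf a b u) : ContinuousOn (gX O0 u) (Rh a b) ∧
    IsCompact (gX O0 u '' Rh a b) ∧
    closure (gX O0 u '' Rho a b) = gX O0 u '' Rh a b ∧ IsMin (gX O0 u '' Rho a b) ∧
    IsPreconnected (gX O0 u '' Rho a b) ∧ LChart (gX O0 u '' Rho a b) O0 (Rho a b) u := by
  have h1 := cont_gX O0 h.cont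
  have h2 := (cpt_rh h.apos h.bpos).image_of_continuousOn h1
  obtain ⟨h3, h4⟩ := hC.graph O0 u _ (open_rho a b) h.sol
  refine ⟨h1, h2, Subset.antisymm (closure_minimal (image_mono rho_sub) h2.isClosed) ?_, h3,
    (convex_rho h.apos h.bpos).isPreconnected.image _ (h1.mono rho_sub), h4⟩
  rintro _ ⟨y, hy, rfl⟩
  exact ((h1 y hy).mono rho_sub).mem_closure_image (rh_clo hy)

theorem leaf_tet (h : IsLeaf a b u) : gX O0 u '' Rh a b ⊆ Tet a b := by
  rintro _ ⟨y, hy, rfl⟩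
  exact (tet_iff h.apos h.bpos _ _).2 ⟨h.low y hy, h.upp y hy⟩

theorem closed_tet (a b : ℝ) : IsClosed (Tet a b) := by
  have h1 : IsClosed {x : E4 | √2 * |x 3| ≤ a * x 2} := isClosed_le (by fun_prop) (by fun_prop)
  have h2 : IsClosed {x : E4 | √2 * |x 1| ≤ b * x 0} := isClosed_le (by fun_prop) (by fun_prop)
  exact (isClosed_eq continuous_norm continuous_const).inter (h1.inter h2)

theorem sw_gn (y : P2) (z : ℝ) : O0 (gn y (-z)) = sw (O0 (gn (y.2, y.1) z)) := by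
  obtain ⟨a0, a1, a2, a3⟩ := coord y (-z)
  obtain ⟨b0, b1, b2, b3⟩ := coord (y.2, y.1) z
  obtain ⟨c0, c1, c2, c3⟩ := sw_co (O0 (gn (y.2, y.1) z))
  have hρ : rho (y.2, y.1) z = rho y (-z) := by
    unfold rho
    congr 1
    ring
  refine ext4 ?_ ?_ ?_ ?_
  · rw [a0, c0, b2, hρ, sub_neg_eq_add]
  · rw [a1, c1, b3, hρ]
  · rw [a2, c2, b0, hρ, sub_eq_add_neg]
  · rw [a3, c3, b1, hρ]

theorem gN_co (u : P2 → ℝ) (y : P2) : ∃ w : ℝ,
    w = (√(1 + d1 u y ^ 2 + d2 u y ^ 2 + (u y - y.1 * d1 u y - y.2 * d2 u y) ^ 2))⁻¹ ∧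
    gN O0 u y 0 = (√2)⁻¹ * (w * (y.1 * d1 u y + y.2 * d2 u y - u y) - w) ∧
    gN O0 u y 1 = -(w * d2 u y) ∧
    gN O0 u y 2 = (√2)⁻¹ * (w * (y.1 * d1 u y + y.2 * d2 u y - u y) + w) ∧
    gN O0 u y 3 = -(w * d1 u y) := by
  obtain ⟨h0, h1, h2, h3⟩ := O0_co (nrm y (u y) (d1 u y) (d2 u y))
  refine ⟨_, rfl, h0.trans ?_, h1.trans ?_, h2.trans ?_, h3.trans ?_⟩ <;> simp [nrm]

theorem dualg (u : P2 → ℝ) (y : P2) :
    gX O0 (du u) y = sw (gX O0 u (y.2, y.1)) ∧ gN O0 (du u) y = -sw (gN O0 u (y.2, y.1)) := by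
  refine ⟨sw_gn y _, ?_⟩
  obtain ⟨e1, e2⟩ := d_comp (ContinuousLinearEquiv.prodComm ℝ ℝ ℝ) u y
  have f1 : d1 (du u) y = -d2 u (y.2, y.1) := by
    refine (congrFun (d1_neg fun x => u (x.2, x.1)) y).trans (congrArg _ (e1.trans ?_))
    simp [Prod.swap]
  have f2 : d2 (du u) y = -d1 u (y.2, y.1) := by
    refine (congrFun (d2_neg fun x => u (x.2, x.1)) y).trans (congrArg _ (e2.trans ?_))
    simp [Prod.swap]
  obtain ⟨w, hw, a0, a1, a2, a3⟩ := gN_co (du u) y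
  obtain ⟨w', hw', b0, b1, b2, b3⟩ := gN_co u (y.2, y.1)
  obtain ⟨c0, c1, c2, c3⟩ := sw_co (gN O0 u (y.2, y.1))
  have hww : w = w' := by
    rw [hw, hw', f1, f2, du]
    congr 2
    ring
  subst hww
  refine ext4 ?_ ?_ ?_ ?_
  · rw [a0, PiLp.neg_apply, c0, b2, f1, f2, du]
    ring
  · rw [a1, PiLp.neg_apply, c1, b3, f2]
    ring
  · rw [a2, PiLp.neg_apply, c2, b0, f1, f2, du]
    ring
  · rw [a3, PiLp.neg_apply, c3, b1, f1]
    ring

/-! ### The rotation argument -/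

/-- rotation in the plane of the coordinates 0 and 2 -/
def KK (t : ℝ) : Iso := mkO ![!₂[Real.cos t, 0, Real.sin t, 0], !₂[0, 1, 0, 0],
  !₂[-Real.sin t, 0, Real.cos t, 0], !₂[0, 0, 0, 1]] (ortho4 _ fun i j => by
    fin_cases i <;> fin_cases j <;> simp <;> nlinarith [Real.sin_sq_add_cos_sq t])

theorem KK_co (t : ℝ) (x : E4) : KK t x 0 = x 0 * Real.cos t - x 2 * Real.sin t ∧
    KK t x 1 = x 1 ∧ KK t x 2 = x 0 * Real.sin t + x 2 * Real.cos t ∧ KK t x 3 = x 3 := by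
  simp [KK, mkO_apply, sub_eq_add_neg]

theorem KK_add (s t : ℝ) (x : E4) : KK s (KK t x) = KK (t + s) x := by
  obtain ⟨a0, a1, a2, a3⟩ := KK_co t x
  obtain ⟨b0, b1, b2, b3⟩ := KK_co s (KK t x)
  obtain ⟨c0, c1, c2, c3⟩ := KK_co (t + s) x
  refine ext4 ?_ (by rw [b1, a1, c1]) ?_ (by rw [b3, a3, c3])
  · rw [b0, a0, a2, c0, Real.cos_add, Real.sin_add]
    ring
  · rw [b2, a0, a2, c2, Real.cos_add, Real.sin_add]
    ring

theorem KK_zero (x : E4) : KK 0 x = x := by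
  obtain ⟨a0, a1, a2, a3⟩ := KK_co 0 x
  exact ext4 (by simpa using a0) a1 (by simpa using a2) a3

theorem KK_cont : Continuous fun q : ℝ × E4 => KK q.1 q.2 := by
  have h : (fun q : ℝ × E4 => KK q.1 q.2) = fun q => !₂[q.2 0 * Real.cos q.1 - q.2 2 * Real.sin q.1,
      q.2 1, q.2 0 * Real.sin q.1 + q.2 2 * Real.cos q.1, q.2 3] := by
    funext q
    obtain ⟨a0, a1, a2, a3⟩ := KK_co q.1 q.2
    exact ext4 a0 a1 a2 a3
  rw [h]
  refine (PiLp.continuous_toLp 2 _).comp (continuous_pi fun i => ?_)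
  fin_cases i <;> simp <;> fun_prop

theorem KK_near (t : ℝ) {x : E4} (hx : ‖x‖ = 1) : ‖KK t x - x‖ ≤ |t| := by
  obtain ⟨a0, a1, a2, a3⟩ := KK_co t x
  refine abs_le_of_sq_le_sq' ?_ (abs_nonneg t) |>.2
  rw [nsq, sq_abs]
  simp only [PiLp.sub_apply, a0, a1, a2, a3]
  rw [norm_one] at hx
  have h1 := Real.one_sub_sq_div_two_le_cos (x := t)
  have h2 := Real.cos_le_one t
  have h3 : (x 0 * Real.cos t - x 2 * Real.sin t - x 0) ^ 2 + (x 1 - x 1) ^ 2
      + (x 0 * Real.sin t + x 2 * Real.cos t - x 2) ^ 2 + (x 3 - x 3) ^ 2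
      = (x 0 ^ 2 + x 2 ^ 2) * (2 - 2 * Real.cos t) := by
    linear_combination (x 0 ^ 2 + x 2 ^ 2) * Real.sin_sq_add_cos_sq t
  rw [h3]
  nlinarith [sq_nonneg (x 1), sq_nonneg (x 3), sq_nonneg (x 0), sq_nonneg (x 2)]

theorem trig {t p q : ℝ} (ht : 0 < t) (ht' : t ≤ π / 2) (hp : 0 ≤ p) (hq : 0 ≤ q)
    (h : 0 < p + q) : p * Real.cos t - q * Real.sin t < p := by
  have hpi := Real.pi_pos
  have h1 : 0 < Real.sin t := Real.sin_pos_of_pos_of_lt_pi ht (by linarith)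
  have h2 : Real.cos t < 1 := by
    rw [← Real.cos_zero]
    exact Real.cos_lt_cos_of_nonneg_of_le_pi le_rfl (by linarith) ht
  rcases hp.eq_or_lt with h3 | h3
  · subst h3
    nlinarith
  · nlinarith [mul_nonneg hq h1.le]

theorem not_src (ha : 0 < a) (hb : 0 < b) {t : ℝ} (ht : 0 < t) (ht' : t ≤ π / 2) {x : E4}
    (hx : x ∈ Quad a b) : KK t x ∉ Tet a b := by
  intro h
  obtain ⟨a0, a1, -, -⟩ := KK_co t x
  obtain ⟨p0, p2, ps⟩ := tet_pos ha hb (quad_sub hx)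
  have h1 := h.2.2
  rw [a1, hx.2.2, a0] at h1
  exact (trig ht ht' p0 p2 ps).not_ge (le_of_mul_le_mul_left h1 hb)

theorem not_tgt (ha : 0 < a) (hb : 0 < b) {t : ℝ} (ht : 0 < t) (ht' : t ≤ π / 2) {x : E4}
    (hx : x ∈ Tet a b) : KK t x ∉ Quad a b := by
  intro h
  obtain ⟨a0, -, a2, a3⟩ := KK_co t x
  obtain ⟨p0, p2, ps⟩ := tet_pos ha hb (quad_sub h)
  have h1 := hx.2.1
  rw [← a3, h.2.1] at h1
  have h2 := trig ht ht' p2 p0 (by linarith)
  have h3 : KK t x 2 * Real.cos t - KK t x 0 * Real.sin t = x 2 := by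
    rw [a0, a2]
    linear_combination x 2 * Real.sin_sq_add_cos_sq t
  rw [h3] at h2
  exact h2.not_ge (le_of_mul_le_mul_left h1 ha)

theorem push (h : IsLeaf a b u) {p : E4} (hp : p ∈ Tet a b) (hz : u (py p) < pz p) :
    ∃ t ∈ Ioc 0 (π / 2), ∃ x ∈ gX O0 u '' Rh a b, KK t x = p := by
  have ha := h.apos
  have hb := h.bpos
  have hpi := Real.pi_pos
  obtain ⟨p0, p2, ps⟩ := tet_pos ha hb hp
  have co : ∀ t, KK (-t) p 0 = p 0 * Real.cos t + p 2 * Real.sin t ∧ KK (-t) p 1 = p 1 ∧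
      KK (-t) p 2 = p 2 * Real.cos t - p 0 * Real.sin t ∧ KK (-t) p 3 = p 3 := fun t => by
    obtain ⟨a0, a1, a2, a3⟩ := KK_co (-t) p
    rw [Real.cos_neg, Real.sin_neg] at a0 a2
    exact ⟨by linarith, a1, by linarith, a3⟩
  obtain ⟨t1, ht1, e1⟩ : ∃ t1 ∈ Icc 0 (π / 2),
      a * (p 2 * Real.cos t1 - p 0 * Real.sin t1) = √2 * |p 3| := by
    refine intermediate_value_Icc' (f := fun t => a * (p 2 * Real.cos t - p 0 * Real.sin t))
      (by linarith) (by fun_prop) ⟨?_, by simpa using hp.2.1⟩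
    have h1 : 0 ≤ √2 * |p 3| := by positivity
    have h2 := mul_nonneg ha.le p0
    simp only [Real.cos_pi_div_two, Real.sin_pi_div_two]
    linarith
  have hin : ∀ t ∈ Icc 0 t1, KK (-t) p ∈ Tet a b := by
    intro t ht
    obtain ⟨a0, a1, a2, a3⟩ := co t
    have c1 : Real.cos t1 ≤ Real.cos t :=
      Real.cos_le_cos_of_nonneg_of_le_pi ht.1 (by linarith [ht1.2]) ht.2
    have c2 : Real.sin t ≤ Real.sin t1 :=
      Real.sin_le_sin_of_le_of_le_pi_div_two (by linarith [ht.1]) ht1.2 ht.2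
    have c3 : 0 ≤ Real.sin t :=
      Real.sin_nonneg_of_nonneg_of_le_pi ht.1 (by linarith [ht.2, ht1.2])
    have c4 : 0 ≤ Real.cos t :=
      Real.cos_nonneg_of_mem_Icc ⟨by linarith [ht.1], ht.2.trans ht1.2⟩
    have d1 : √2 * |p 3| ≤ a * (p 2 * Real.cos t - p 0 * Real.sin t) := by
      rw [← e1]
      gcongr
    have d2 : 0 ≤ p 2 * Real.cos t - p 0 * Real.sin t :=
      nonneg_of_mul_nonneg_right (le_trans (by positivity) d1) ha
    have d3 : p 0 ≤ p 0 * Real.cos t + p 2 * Real.sin t := by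
      have d4 : 0 ≤ p 0 * Real.cos t + p 2 * Real.sin t := by positivity
      have d5 : p 0 = (p 0 * Real.cos t + p 2 * Real.sin t) * Real.cos t
          - (p 2 * Real.cos t - p 0 * Real.sin t) * Real.sin t := by
        linear_combination (-p 0) * Real.sin_sq_add_cos_sq t
      nlinarith [mul_nonneg d2 c3, mul_nonneg d4 (sub_nonneg.2 (Real.cos_le_one t))]
    refine ⟨by rw [LinearIsometryEquiv.norm_map, hp.1], by rwa [a2, a3], ?_⟩
    rw [a0, a1]
    exact hp.2.2.trans (mul_le_mul_of_nonneg_left d3 hb.le)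
  have hK : Continuous fun t : ℝ => KK (-t) p :=
    KK_cont.comp (f := fun t : ℝ => (-t, p)) (by fun_prop)
  have hs : ∀ x ∈ Tet a b, x 0 + x 2 ≠ 0 := fun x hx => (tet_pos ha hb hx).2.2.ne'
  have hy : ContinuousOn py (Tet a b) :=
    (ContinuousOn.div (by fun_prop) (by fun_prop) hs).prodMk
      (ContinuousOn.div (by fun_prop) (by fun_prop) hs)
  have hc : ContinuousOn (fun x => pz x - u (py x)) (Tet a b) :=
    (ContinuousOn.div (by fun_prop) (by fun_prop) hs).sub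
      (h.cont.comp hy fun x hx => (tet_proj ha hb hx).2.1)
  obtain ⟨t, ht, e⟩ : (0 : ℝ) ∈ (fun t => pz (KK (-t) p) - u (py (KK (-t) p))) '' Icc 0 t1 := by
    refine intermediate_value_Icc' ht1.1 (hc.comp hK.continuousOn hin) ⟨?_, ?_⟩
    · have h1 := hin t1 ⟨ht1.1, le_rfl⟩
      obtain ⟨h2, h3, -⟩ := tet_proj ha hb h1
      obtain ⟨c, hc, -, -, h4, -⟩ := faces a b ha hb (py (KK (-t1) p)) (pz (KK (-t1) p))
      rw [h2, (co t1).2.2.1, (co t1).2.2.2, e1, sub_self] at h4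
      have h5 := (mul_eq_zero.1 h4.symm).resolve_left hc.ne'
      have h6 := h.low _ h3
      change pz (KK (-t1) p) - u (py (KK (-t1) p)) ≤ 0
      linarith
    · change 0 ≤ pz (KK (-0) p) - u (py (KK (-0) p))
      rw [neg_zero, KK_zero]
      linarith
  obtain ⟨h2, h3, -⟩ := tet_proj ha hb (hin t ht)
  refine ⟨t, ⟨ht.1.lt_of_ne fun h0 => ?_, ht.2.trans ht1.2⟩, KK (-t) p, ⟨_, h3, ?_⟩, ?_⟩
  · subst h0
    simp only [neg_zero, KK_zero] at e
    linarith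
  · rw [gX, ← sub_eq_zero.1 e, h2]
  · rw [KK_add, neg_add_cancel, KK_zero]

theorem below (hM : MeqS) (hC : ChartS) (hT : TouchS) (hI : InvS) (h : IsLeaf a b u)
    {S : Set E4} (hS : IsMin S) (h1 : S ⊆ Tet a b) (h2 : closure S ⊆ S ∪ Quad a b) {p : E4}
    (hp : p ∈ S) : pz p ≤ u (py p) := by
  by_contra hcon
  have ha := h.apos
  have hb := h.bpos
  obtain ⟨t0, ht0, x0, hx0, e0⟩ := push h (h1 hp) (not_le.1 hcon)
  obtain ⟨-, c2, c3, c4, c5, -⟩ := cpt hC h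
  have hZ : IsCompact ((Icc 0 (π / 2) ×ˢ (gX O0 u '' Rh a b)) ∩
      (fun q : ℝ × E4 => KK q.1 q.2) ⁻¹' closure S) :=
    (isCompact_Icc.prod c2).inter_right (isClosed_closure.preimage KK_cont)
  have hp0 : KK t0 x0 ∈ closure S := e0 ▸ subset_closure hp
  obtain ⟨⟨t, x⟩, ⟨⟨ht, hx⟩, hq⟩, hmax⟩ := hZ.exists_isMaxOn
    ⟨(t0, x0), ⟨⟨ht0.1.le, ht0.2⟩, hx0⟩, hp0⟩ continuous_fst.continuousOn
  replace hq : KK t x ∈ closure S := hq
  replace hx : x ∈ gX O0 u '' Rh a b := hx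
  replace ht : t ∈ Icc 0 (π / 2) := ht
  have t0' : 0 < t := ht0.1.trans_le (hmax (a := (t0, x0)) ⟨⟨⟨ht0.1.le, ht0.2⟩, hx0⟩, hp0⟩)
  have hcl : closure S ⊆ Tet a b := h2.trans (union_subset h1 quad_sub)
  have hin : ∀ x ∈ gX O0 u '' Rh a b, KK t x ∈ closure S → KK t x ∈ S := fun x hx hq =>
    (h2 hq).resolve_right (not_tgt ha hb t0' ht.2 (leaf_tet h hx))
  have hxo : x ∈ gX O0 u '' Rho a b := by
    obtain ⟨y, hy, rfl⟩ := hx
    by_contra h3
    exact not_src ha hb t0' ht.2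
      (quad_img h ▸ mem_image_of_mem _ ⟨hy, fun h4 => h3 ⟨y, h4, rfl⟩⟩) (hcl hq)
  have tlt : t < π / 2 := ht.2.lt_of_ne fun h3 => by
    obtain ⟨y, hy, rfl⟩ := hxo
    have h4 := (inner hM hT h y hy).2.2.2.1
    have h5 := (tet_pos ha hb (hcl hq)).1
    rw [(KK_co _ _).1, h3, Real.cos_pi_div_two, Real.sin_pi_div_two] at h5
    have h6 := (mul_pos_iff_of_pos_left ha).1 (lt_of_le_of_lt (by positivity) h4)
    linarith
  have hS' := hI.min (KK t) _ c4
  rcases hT.pers S _ hS hS' _ (hin x hx hq) (mem_image_of_mem _ hxo) with h3 | h3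
  · have h4 := hT.cont _ S hS' hS (c5.image _ (KK t).continuous.continuousOn)
      (by
        rintro _ ⟨⟨w, hw, rfl⟩, hw'⟩
        exact hin w (image_mono rho_sub hw) hw')
      ⟨_, mem_image_of_mem _ hxo, h3 ▸ self_mem_nhdsWithin⟩
    have h5 : ((a, 0) : P2) ∈ Rh a b \ Rho a b := by
      simp [Rh, Rho, abs_of_pos ha, ha.ne']
    refine not_src ha hb t0' ht.2 (quad_img h ▸ mem_image_of_mem _ h5) (hcl ?_)
    refine closure_mono h4 (image_closure_subset_closure_image (KK t).continuous ?_)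
    rw [c3]
    exact mem_image_of_mem _ (mem_image_of_mem _ h5.1)
  · obtain ⟨ε, hε, h4⟩ := h3 univ univ_mem
    set δ := min (ε / 2) (π / 2 - t) with hδ
    have d0 : 0 < δ := lt_min (half_pos hε) (sub_pos.2 tlt)
    obtain ⟨_, ⟨⟨w, hw, rfl⟩, -⟩, h5⟩ := h4 (KK δ) (KK δ).continuous.continuousOn fun z hz => by
      have h6 := hC.unit _ hS' z hz.1
      refine ⟨by rw [LinearIsometryEquiv.norm_map, h6], (KK_near δ h6).trans_lt ?_⟩
      rw [abs_of_pos d0]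
      exact (min_le_left _ _).trans_lt (half_lt_self hε)
    rw [KK_add] at h5
    have h6 : t + δ ≤ t := hmax (a := (t + δ, w)) ⟨⟨⟨by linarith, by
      linarith [min_le_right (ε / 2) (π / 2 - t)]⟩, image_mono rho_sub hw⟩, subset_closure h5⟩
    linarith

theorem sw_tet {x : E4} (hx : x ∈ Tet a b) : sw x ∈ Tet b a := by
  obtain ⟨c0, c1, c2, c3⟩ := sw_co x
  exact ⟨by rw [sw.norm_map, hx.1], by rw [c2, c3]; exact hx.2.2, by rw [c0, c1]; exact hx.2.1⟩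

theorem sw_quad {x : E4} (hx : x ∈ Quad a b) : sw x ∈ Quad b a := by
  obtain ⟨c0, c1, c2, c3⟩ := sw_co x
  exact ⟨by rw [sw.norm_map, hx.1], by rw [c2, c3]; exact hx.2.2, by rw [c0, c1]; exact hx.2.1⟩

theorem uq (hM : MeqS) (hC : ChartS) (hT : TouchS) (hI : InvS) (h : IsLeaf a b u)
    (S : Set E4) (hS : IsMin S) (h1 : S ⊆ Tet a b) (h2 : closure S ⊆ S ∪ Quad a b) :
    S ⊆ gX O0 u '' Rh a b := by
  intro p hp
  have h3 := below hM hC hT hI h hS h1 h2 hp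
  have h4 := below hM hC hT hI (dual hM h) (hI.min sw S hS)
    (by
      rintro _ ⟨x, hx, rfl⟩
      exact sw_tet (h1 hx))
    (by
      refine (sw.toHomeomorph.image_closure S).ge.trans ?_
      rintro _ ⟨x, hx, rfl⟩
      exact (h2 hx).imp (mem_image_of_mem _) sw_quad) (mem_image_of_mem _ hp)
  obtain ⟨c0, c1, c2, c3⟩ := sw_co p
  obtain ⟨h5, h6, -⟩ := tet_proj h.apos h.bpos (h1 hp)
  have h7 : pz (sw p) = -pz p := by
    rw [pz, pz, c0, c2, add_comm, ← neg_div, neg_sub]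
  have h8 : du u (py (sw p)) = -u (py p) := by
    simp only [du, py, c0, c1, c2, c3, add_comm]
  refine ⟨_, h6, ?_⟩
  rw [gX, show u (py p) = pz p by linarith, h5]

theorem uniq (hM : MeqS) (hC : ChartS) (hT : TouchS) (hI : InvS) (h : IsLeaf a b u)
    (h' : IsLeaf a b v) : EqOn u v (Rh a b) := by
  intro y hy
  by_cases hy' : y ∈ Rho a b
  · obtain ⟨-, -, c3, c4, -⟩ := cpt hC h'
    obtain ⟨x, -, hx⟩ := uq hM hC hT hI h _ c4 ((image_mono rho_sub).trans (leaf_tet h'))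
      (by
        rw [c3, ← quad_img h', ← image_union, union_sdiff_self]
        exact image_mono subset_union_right) (mem_image_of_mem _ hy')
    obtain ⟨rfl, h1⟩ := inj O0 _ _ _ _ hx
    exact h1
  · rw [← (bdry h ⟨hy, hy'⟩).1, (bdry h' ⟨hy, hy'⟩).1]

theorem sym (hM : MeqS) (hC : ChartS) (hT : TouchS) (hI : InvS) (h : IsLeaf a b u)
    (R : P2 ≃L[ℝ] P2) (h1 : ∀ y, |(R y).1| = |y.1|) (h2 : ∀ y, |(R y).2| = |y.2|)
    (h3 : ∀ x y, dot (R x) (R y) = dot x y) : EqOn (fun y => u (R y)) u (Rh a b) := by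
  have k1 : ∀ y ∈ Rh a b, R y ∈ Rh a b := fun y hy => by
    simpa only [Rh, mem_ofPred_eq, h1, h2] using hy
  refine uniq hM hC hT hI ⟨h.apos, h.bpos, h.cont.comp R.continuous.continuousOn k1,
    fun y hy => ?_, fun y hy => ?_, sol_mono ((orth hM R h3).1 u _ h.sol) fun y hy => ?_⟩ h
  · simpa only [lo, h1] using h.low _ (k1 y hy)
  · simpa only [up, h2] using h.upp _ (k1 y hy)
  · simpa only [Rho, mem_preimage, mem_ofPred_eq, h1, h2] using hy

/-- reflection of the first coordinate -/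
def n1 : P2 ≃L[ℝ] P2 := (ContinuousLinearEquiv.neg ℝ).prodCongr (ContinuousLinearEquiv.refl ℝ ℝ)

/-- reflection of the second coordinate -/
def n2 : P2 ≃L[ℝ] P2 := (ContinuousLinearEquiv.refl ℝ ℝ).prodCongr (ContinuousLinearEquiv.neg ℝ)

theorem n1_apply (y : P2) : n1 y = (-y.1, y.2) := rfl

theorem n2_apply (y : P2) : n2 y = (y.1, -y.2) := rfl

theorem ev (hM : MeqS) (hC : ChartS) (hT : TouchS) (hI : InvS) (h : IsLeaf a b u) :
    EqOn (fun y => u (n1 y)) u (Rh a b) ∧ EqOn (fun y => u (n2 y)) u (Rh a b) :=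
  ⟨sym hM hC hT hI h n1 (fun y => abs_neg _) (fun y => rfl) fun x y => by simp [dot, n1_apply],
    sym hM hC hT hI h n2 (fun y => rfl) (fun y => abs_neg _) fun x y => by simp [dot, n2_apply]⟩

theorem d_congr {f g : P2 → ℝ} {y : P2} (h : f =ᶠ[𝓝 y] g) : d1 f y = d1 g y ∧ d2 f y = d2 g y := by
  simp only [d1, d2, h.fderiv_eq, and_self]

theorem evg (hM : MeqS) (hC : ChartS) (hT : TouchS) (hI : InvS) (h : IsLeaf a b u) (y : P2)
    (hy : y ∈ Rho a b) :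
    gX O0 u (-y.1, y.2) = rf3 (gX O0 u y) ∧ gN O0 u (-y.1, y.2) = rf3 (gN O0 u y) ∧
    gX O0 u (y.1, -y.2) = rf1 (gX O0 u y) ∧ gN O0 u (y.1, -y.2) = rf1 (gN O0 u y) := by
  obtain ⟨e1, e2⟩ := ev hM hC hT hI h
  have hn : Rh a b ∈ 𝓝 y := mem_of_superset ((open_rho a b).mem_nhds hy) rho_sub
  have z1 : u (-y.1, y.2) = u y := e1 (rho_sub hy)
  have z2 : u (y.1, -y.2) = u y := e2 (rho_sub hy)
  obtain ⟨p1, q1⟩ := d_congr (e1.eventuallyEq_of_mem hn)
  obtain ⟨p2, q2⟩ := d_congr (e2.eventuallyEq_of_mem hn)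
  rw [(d_comp n1 u y).1] at p1
  rw [(d_comp n1 u y).2] at q1
  rw [(d_comp n2 u y).1] at p2
  rw [(d_comp n2 u y).2] at q2
  simp only [n1_apply, n2_apply, neg_zero, zero_mul, add_zero, zero_add, one_mul, neg_mul,
    neg_eq_iff_eq_neg] at p1 q1 p2 q2
  obtain ⟨a0, a1, a2, a3⟩ := coord y (u y)
  obtain ⟨w, hw, b0, b1, b2, b3⟩ := gN_co u y
  refine ⟨?_, ?_, ?_, ?_⟩
  · obtain ⟨c0, c1, c2, c3⟩ := coord (-y.1, y.2) (u y)
    obtain ⟨r0, r1, r2, r3⟩ := rf3_co (O0 (gn y (u y)))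
    have hρ : rho (-y.1, y.2) (u y) = rho y (u y) := by simp [rho]
    rw [gX, gX, z1]
    exact ext4 (by rw [c0, r0, a0, hρ]) (by rw [c1, r1, a1, hρ]) (by rw [c2, r2, a2, hρ])
      (by rw [c3, r3, a3, hρ, neg_div])
  · obtain ⟨w', hw', c0, c1, c2, c3⟩ := gN_co u (-y.1, y.2)
    obtain ⟨r0, r1, r2, r3⟩ := rf3_co (gN O0 u y)
    rw [z1, p1, q1] at hw' c0 c2
    rw [p1] at c3
    rw [q1] at c1
    obtain rfl : w = w' := by
      rw [hw, hw']
      congr 2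
      ring
    exact ext4 (by rw [c0, r0, b0]; ring) (by rw [c1, r1, b1]) (by rw [c2, r2, b2]; ring)
      (by rw [c3, r3, b3]; ring)
  · obtain ⟨c0, c1, c2, c3⟩ := coord (y.1, -y.2) (u y)
    obtain ⟨r0, r1, r2, r3⟩ := rf1_co (O0 (gn y (u y)))
    have hρ : rho (y.1, -y.2) (u y) = rho y (u y) := by simp [rho]
    rw [gX, gX, z2]
    exact ext4 (by rw [c0, r0, a0, hρ]) (by rw [c1, r1, a1, hρ, neg_div])
      (by rw [c2, r2, a2, hρ]) (by rw [c3, r3, a3, hρ])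
  · obtain ⟨w', hw', c0, c1, c2, c3⟩ := gN_co u (y.1, -y.2)
    obtain ⟨r0, r1, r2, r3⟩ := rf1_co (gN O0 u y)
    rw [z2, p2, q2] at hw' c0 c2
    rw [p2] at c3
    rw [q2] at c1
    obtain rfl : w = w' := by
      rw [hw, hw']
      congr 2
      ring
    exact ext4 (by rw [c0, r0, b0]; ring) (by rw [c1, r1, b1]; ring) (by rw [c2, r2, b2]; ring)
      (by rw [c3, r3, b3])

end ETet

open ETet in
theorem tetS (hM : MeqS) (hC : ChartS) (hT : TouchS) (hI : InvS) : TetS where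
  coord := coord
  inj := inj
  ang := ⟨hA_spec, hA_two, aL_spec⟩
  mem := mem
  arcs := arcs
  law := law
  quad := fun _ _ _ h => quad_img h
  inner := fun _ _ _ h => inner hM hT h
  cpt := fun _ _ _ h => cpt hC h
  uq := fun _ _ _ h => uq hM hC hT hI h
  uniq := fun _ _ _ _ h h' => uniq hM hC hT hI h h'
  ev := fun _ _ _ h _ hy => ⟨(ev hM hC hT hI h).1 hy, (ev hM hC hT hI h).2 hy⟩
  evg := fun _ _ _ h => evg hM hC hT hI h
  dual := ⟨fun _ _ _ h => dual hM h, dualg⟩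
  neg := neg
  negg := negg
  plane := plane
  orth := orth hM

end Pool.Agent.Lib.MP_16d934_gt
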