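import Pool.Agent.Lib.MP_16d934_gt.StC

/-! The leaf as a graph over a wedge at a vertex, and its extension around a right angle. -/

set_option autoImplicit false
set_option linter.unusedSectionVars false

open Set Metric Filter Topology
open scoped ContDiff InnerProductSpace NNReal Real

noncomputable section

namespace Pool.Agent.Lib.MP_16d934_gt

namespace EWedge

theorem rho_pos (y : P2) (z : ℝ) : 0 < rho y z := Real.sqrt_pos.2 (by positivity)

theorem rho_sq (y : P2) (z : ℝ) : rho y z ^ 2 = 1 + y.1 ^ 2 + y.2 ^ 2 + z ^ 2 :=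
  Real.sq_sqrt (by positivity)

theorem r2_pos : (0 : ℝ) < √2 := by positivity

theorem FQ (B : ℝ) (y : P2) (z : ℝ) :
    OQ 0 B (gn y z) 0 = (Real.cos B - z * Real.sin B) / rho y z ∧
    OQ 0 B (gn y z) 1 = (Real.sin B + z * Real.cos B) / rho y z ∧
    OQ 0 B (gn y z) 2 = y.1 / rho y z ∧ OQ 0 B (gn y z) 3 = y.2 / rho y z := by
  refine ⟨?_, ?_, ?_, ?_⟩ <;> simp [OQ, mkO_apply, gn, rho] <;> ring

theorem cont_gn : Continuous fun q : P2 × ℝ => gn q.1 q.2 := by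
  unfold gn
  have h : Continuous fun q : P2 × ℝ => √(1 + q.1.1 ^ 2 + q.1.2 ^ 2 + q.2 ^ 2) := by fun_prop
  refine (h.inv₀ fun q => (rho_pos q.1 q.2).ne').smul ?_
  fun_prop

theorem tend (O : Iso) {ι : Type} {F : Filter ι} {p : ι → P2} {q : ι → ℝ} {y : P2} {z : ℝ}
    (hp : Tendsto p F (𝓝 y)) (hq : Tendsto q F (𝓝 z)) :
    Tendsto (fun i => O (gn (p i) (q i))) F (𝓝 (O (gn y z))) := by
  have := ((O.continuous.comp cont_gn).tendsto (y, z)).comp (hp.prodMk_nhds hq)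
  simpa only [Function.comp_def] using this

/-- sum of the first and the third coordinate -/
def SS (B : ℝ) (y : P2) (z : ℝ) : ℝ := Real.cos B - z * Real.sin B + y.1

/-- base point in the central frame -/
def px (B : ℝ) (y : P2) (z : ℝ) : P2 :=
  (√2 * y.2 / SS B y z, √2 * (Real.sin B + z * Real.cos B) / SS B y z)

/-- height in the central frame -/
def pw (B : ℝ) (y : P2) (z : ℝ) : ℝ := (y.1 - Real.cos B + z * Real.sin B) / SS B y z

theorem chg (hT : TetS) {B : ℝ} {y : P2} {z : ℝ} (h : 0 < SS B y z) :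
    O0 (gn (px B y z) (pw B y z)) = OQ 0 B (gn y z) := by
  have hr : rho (px B y z) (pw B y z) = √2 * rho y z / SS B y z := by
    have h0 := rho_pos y z
    refine (pow_left_inj₀ (rho_pos _ _).le (by positivity) two_ne_zero).1 ?_
    simp only [rho_sq, div_pow, mul_pow, px, pw, Real.sq_sqrt (zero_le_two (α := ℝ))]
    field_simp
    simp only [SS]
    linear_combination (2 + 2 * z ^ 2) * Real.sin_sq_add_cos_sq B
  obtain ⟨a0, a1, a2, a3⟩ := hT.coord (px B y z) (pw B y z)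
  obtain ⟨b0, b1, b2, b3⟩ := FQ B y z
  have h0 := rho_pos y z
  have h2 := s2
  ext i
  fin_cases i
  · refine a0.trans (.trans ?_ b0.symm)
    rw [hr, pw]; field_simp; rw [Real.sq_sqrt zero_le_two, SS]; ring
  · refine a1.trans (.trans ?_ b1.symm)
    rw [hr, px]; field_simp
  · refine a2.trans (.trans ?_ b2.symm)
    rw [hr, pw]; field_simp; rw [Real.sq_sqrt zero_le_two, SS]; ring
  · refine a3.trans (.trans ?_ b3.symm)
    rw [hr, px]; field_simp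

theorem trig (hT : TetS) {b : ℝ} (hb : 0 < b) : 0 < Real.sin (hA b) ∧ 0 < Real.cos (hA b) ∧
    √2 * Real.sin (hA b) = b * Real.cos (hA b) := by
  obtain ⟨h1, h2, h3⟩ := hT.ang.1 b hb
  have hc : 0 < Real.cos (hA b) := Real.cos_pos_of_mem_Ioo ⟨by linarith, h2⟩
  refine ⟨Real.sin_pos_of_pos_of_lt_pi h1 (by linarith), hc, ?_⟩
  rw [Real.tan_eq_sin_div_cos] at h3
  rw [← mul_div_assoc, div_eq_iff hc.ne'] at h3
  exact h3

theorem lin_d (u : P2 → ℝ) (x v : P2) : fderiv ℝ u x v = d1 u x * v.1 + d2 u x * v.2 := by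
  have : v = v.1 • ((1, 0) : P2) + v.2 • ((0, 1) : P2) := by ext <;> simp
  conv_lhs => rw [this, map_add, map_smul, map_smul]
  simp [d1, d2, mul_comm]

theorem der_g {B : ℝ} {y : P2} {z : ℝ} (h : 0 < SS B y z) {u : P2 → ℝ}
    (hu : DifferentiableAt ℝ u (px B y z)) :
    HasDerivAt (fun t => pw B y t - u (px B y t))
      ((Real.sin B * (1 + pw B y z - d1 u (px B y z) * (px B y z).1 -
        d2 u (px B y z) * (px B y z).2) - √2 * Real.cos B * d2 u (px B y z)) / SS B y z) z := by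
  have hS : HasDerivAt (fun t => SS B y t) (-Real.sin B) z := by
    simpa [SS] using (((hasDerivAt_id z).mul_const (Real.sin B)).const_sub (Real.cos B)).add_const y.1
  have h1 : HasDerivAt (fun t => √2 * y.2 / SS B y t) _ z := (hasDerivAt_const z _).div hS h.ne'
  have h2 : HasDerivAt (fun t => √2 * (Real.sin B + t * Real.cos B) / SS B y t) _ z :=
    ((((hasDerivAt_id z).mul_const (Real.cos B)).const_add (Real.sin B)).const_mul √2).div hS h.ne'
  have h3 : HasDerivAt (fun t => pw B y t) _ z :=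
    (((hasDerivAt_id z).mul_const (Real.sin B)).const_add (y.1 - Real.cos B)).div hS h.ne'
  have h4 := hu.hasFDerivAt.comp_hasDerivAt z (h1.prodMk h2)
  refine (h3.sub h4).congr_deriv ?_
  rw [lin_d]
  simp only [pw, px, id]
  field_simp
  ring

theorem nQ (B : ℝ) (u : P2 → ℝ) (x : P2) : ⟪gN O0 u x, vQ (B + π / 2)⟫_ℝ =
    (Real.sin B * (1 + u x - d1 u x * x.1 - d2 u x * x.2) - √2 * Real.cos B * d2 u x) /
      (√2 * √(1 + d1 u x ^ 2 + d2 u x ^ 2 + (u x - x.1 * d1 u x - x.2 * d2 u x) ^ 2)) := by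
  have : 0 < √(1 + d1 u x ^ 2 + d2 u x ^ 2 + (u x - x.1 * d1 u x - x.2 * d2 u x) ^ 2) :=
    Real.sqrt_pos.2 (by positivity)
  simp [inner4, gN, O0, mkO_apply, nrm, vQ, Real.cos_add_pi_div_two, Real.sin_add_pi_div_two]
  field_simp
  ring

theorem nE (O : Iso) (v : P2 → ℝ) (y : P2) : ⟪gN O v y, O (ee 3)⟫_ℝ =
    (√(1 + d1 v y ^ 2 + d2 v y ^ 2 + (v y - y.1 * d1 v y - y.2 * d2 v y) ^ 2))⁻¹ := by
  rw [gN, LinearIsometryEquiv.inner_map_map]
  simp [inner4, nrm, ee]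

theorem OQ3 (B : ℝ) : OQ 0 B (ee 3) = vQ (B + π / 2) := by
  ext i
  fin_cases i <;>
    simp [OQ, mkO_apply, ee, vQ, Real.cos_add_pi_div_two, Real.sin_add_pi_div_two]

/-- a function with positive derivative at each zero has at most one zero -/
theorem uniq_zero {g : ℝ → ℝ} {α β : ℝ} (hc : ContinuousOn g (Icc α β)) (hlt : α < β)
    (hα : g α = 0) (hβ : g β = 0)
    (hd : ∀ t ∈ Icc α β, g t = 0 → ∃ D, 0 < D ∧ HasDerivAt g D t) : False := by
  have key : ∀ t ∈ Icc α β, g t = 0 → (∀ᶠ s in 𝓝[>] t, 0 < g s) ∧ ∀ᶠ s in 𝓝[<] t, g s < 0 := by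
    intro t ht h0
    obtain ⟨D, hD, hd⟩ := hd t ht h0
    have h1 := (hasDerivAt_iff_tendsto_slope_left_right.1 hd)
    constructor
    · filter_upwards [h1.2.eventually (lt_mem_nhds hD), self_mem_nhdsWithin] with s hs hs'
      rw [slope_def_field, h0, sub_zero] at hs
      exact (div_pos_iff_of_pos_right (sub_pos.2 hs')).1 hs
    · filter_upwards [h1.1.eventually (lt_mem_nhds hD), self_mem_nhdsWithin] with s hs hs'
      rw [slope_def_field, h0, sub_zero] at hs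
      by_contra h
      exact absurd (div_nonpos_of_nonneg_of_nonpos (not_lt.1 h) (sub_neg.2 hs').le) hs.not_ge
  obtain ⟨t₁, h1, h1'⟩ := ((key α ⟨le_rfl, hlt.le⟩ hα).1.and (Ioo_mem_nhdsGT hlt)).exists
  have hK : IsCompact (Icc t₁ β ∩ g ⁻¹' {0}) :=
    isCompact_Icc.of_isClosed_subset ((hc.mono (Icc_subset_Icc_left h1'.1.le)).preimage_isClosed_of_isClosed
      isClosed_Icc isClosed_singleton) inter_subset_left
  obtain ⟨t₂, ⟨h2, h2'⟩, hmin⟩ := hK.exists_isLeast ⟨β, ⟨h1'.2.le, le_rfl⟩, hβ⟩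
  have h12 : t₁ < t₂ := h2.1.lt_of_ne fun e => by
    rw [← e] at h2'; exact h1.ne' h2'
  obtain ⟨t₃, h3, h3'⟩ := ((key t₂ ⟨h1'.1.le.trans h2.1, h2.2⟩ h2').2.and (Ioo_mem_nhdsLT h12)).exists
  obtain ⟨t₄, h4, h4'⟩ := intermediate_value_Icc' h3'.1.le
    (hc.mono (Icc_subset_Icc h1'.1.le (h3'.2.le.trans h2.2))) ⟨h3.le, h1.le⟩
  have := hmin ⟨⟨h4.1, h4.2.trans (h3'.2.le.trans h2.2)⟩, h4'⟩
  linarith [h4.2, h3'.2]


theorem d1_congr {u v : P2 → ℝ} {y : P2} (h : u =ᶠ[𝓝 y] v) : d1 u =ᶠ[𝓝 y] d1 v :=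
  h.fderiv.mono fun _ hx => congrArg (fun f : P2 →L[ℝ] ℝ => f (1, 0)) hx

theorem d2_congr {u v : P2 → ℝ} {y : P2} (h : u =ᶠ[𝓝 y] v) : d2 u =ᶠ[𝓝 y] d2 v :=
  h.fderiv.mono fun _ hx => congrArg (fun f : P2 →L[ℝ] ℝ => f (0, 1)) hx

theorem sol_congr {u v : P2 → ℝ} {y : P2} (h : u =ᶠ[𝓝 y] v) (hv : Sol v {y}) : Sol u {y} := by
  refine ⟨fun x hx => ?_, fun x hx => ?_⟩ <;> obtain rfl : x = y := hx
  · exact (hv.1 x rfl).congr h.symm
  · rw [gAt, h.eq_of_nhds, (d1_congr h).eq_of_nhds, (d2_congr h).eq_of_nhds,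
      (d1_congr (d1_congr h)).eq_of_nhds, (d1_congr (d2_congr h)).eq_of_nhds,
      (d2_congr (d2_congr h)).eq_of_nhds]
    exact hv.2 x rfl

theorem gN_congr (O : Iso) {u v : P2 → ℝ} {y : P2} (h : u =ᶠ[𝓝 y] v) : gN O u y = gN O v y := by
  rw [gN, gN, h.eq_of_nhds, (d1_congr h).eq_of_nhds, (d2_congr h).eq_of_nhds]

theorem sol_mono {u : P2 → ℝ} {U V : Set P2} (h : Sol u U) (hV : V ⊆ U) : Sol u V :=
  ⟨h.1.mono hV, fun y hy => h.2 y (hV hy)⟩

theorem sol_of_pt {u : P2 → ℝ} {U : Set P2} (h : ∀ y ∈ U, Sol u {y}) : Sol u U :=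
  ⟨fun y hy => (h y hy).1 y rfl, fun y hy => (h y hy).2 y rfl⟩

theorem mem_Wd (hT : TetS) {a ρ : ℝ} (ha : 0 < a) {y : P2} :
    y ∈ Wd (hA a) ρ ↔ √2 * |y.2| < a * y.1 ∧ y.1 ^ 2 + y.2 ^ 2 < ρ ^ 2 := by
  obtain ⟨-, -, h⟩ := hT.ang.1 a ha
  refine and_congr_left fun _ => ?_
  conv_rhs => rw [← h, mul_assoc]
  exact (mul_lt_mul_iff_right₀ r2_pos).symm

theorem mem_Wc (hT : TetS) {a ρ : ℝ} (ha : 0 < a) {y : P2} :
    y ∈ Wc (hA a) ρ ↔ √2 * |y.2| ≤ a * y.1 ∧ y.1 ^ 2 + y.2 ^ 2 < ρ ^ 2 := by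
  obtain ⟨-, -, h⟩ := hT.ang.1 a ha
  refine and_congr_left fun _ => ?_
  conv_rhs => rw [← h, mul_assoc]
  exact (mul_le_mul_iff_right₀ r2_pos).symm

theorem open_Wd (A ρ : ℝ) : IsOpen (Wd A ρ) := by
  have h1 : IsOpen {y : P2 | |y.2| < Real.tan A * y.1} := isOpen_lt (by fun_prop) (by fun_prop)
  have h2 : IsOpen {y : P2 | y.1 ^ 2 + y.2 ^ 2 < ρ ^ 2} := isOpen_lt (by fun_prop) (by fun_prop)
  exact h1.inter h2

theorem convex_Wd (A ρ : ℝ) : Convex ℝ (Wd A ρ) := by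
  intro x hx y hy s t hs ht hst
  obtain ⟨hx1, hx2⟩ := hx
  obtain ⟨hy1, hy2⟩ := hy
  have key : ∀ p q p' q' : ℝ, p < q → p' < q' → s * p + t * p' < s * q + t * q' := by
    intro p q p' q' h h'
    rcases hs.eq_or_lt with rfl | hs'
    · have : t = 1 := by linarith
      subst this; linarith
    · nlinarith
  constructor
  · have := key _ _ _ _ hx1 hy1
    have h2 : |s * x.2 + t * y.2| ≤ s * |x.2| + t * |y.2| := by
      refine (abs_add_le _ _).trans ?_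
      rw [abs_mul, abs_mul, abs_of_nonneg hs, abs_of_nonneg ht]
    simp only [Prod.fst_add, Prod.snd_add, Prod.smul_fst, Prod.smul_snd, smul_eq_mul]
    nlinarith
  · have := key _ _ _ _ hx2 hy2
    simp only [Prod.fst_add, Prod.snd_add, Prod.smul_fst, Prod.smul_snd, smul_eq_mul]
    obtain rfl : t = 1 - s := by linarith
    nlinarith [mul_nonneg (mul_nonneg hs ht) (sq_nonneg (x.1 - y.1)),
      mul_nonneg (mul_nonneg hs ht) (sq_nonneg (x.2 - y.2))]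

theorem Wc_closure {A ρ : ℝ} (hA : 0 < Real.tan A) {y : P2} (hy : y ∈ Wc A ρ) :
    y ∈ closure (Wd A ρ) := by
  have h1 : Tendsto (fun t : ℝ => ((y.1 + t, y.2) : P2)) (𝓝[>] 0) (𝓝 y) := by
    refine Tendsto.mono_left ?_ nhdsWithin_le_nhds
    exact Continuous.tendsto' (by fun_prop) _ _ (by simp)
  refine mem_closure_of_tendsto h1 ?_
  have h2 : IsOpen {x : P2 | x.1 ^ 2 + x.2 ^ 2 < ρ ^ 2} := isOpen_lt (by fun_prop) (by fun_prop)
  filter_upwards [h1.eventually (h2.mem_nhds hy.2), self_mem_nhdsWithin] with t h3 h4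
  refine ⟨?_, h3⟩
  have := hy.1
  have := mul_pos hA h4
  simp only
  linarith

section leaf
variable (hT : TetS) {a b : ℝ} {u : P2 → ℝ} (hu : IsLeaf a b u)
include hT hu

theorem px_mem {y : P2} {z : ℝ} (h1 : √2 * |y.2| < a * y.1)
    (h2 : 0 ≤ Real.sin (hA b) + z * Real.cos (hA b)) (h3 : z ≤ 0) :
    0 < SS (hA b) y z ∧ px (hA b) y z ∈ Rho a b := by
  obtain ⟨hs, hc, e⟩ := trig hT hu.bpos
  have ha := hu.apos
  have hb := hu.bpos
  have hy : 0 < y.1 := by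
    have := mul_nonneg r2_pos.le (abs_nonneg y.2)
    exact (mul_pos_iff_of_pos_left ha).1 (by linarith)
  have hS : 0 < SS (hA b) y z := by
    have := mul_nonneg_of_nonpos_of_nonpos h3 (neg_nonpos.2 hs.le)
    unfold SS; linarith
  refine ⟨hS, ?_⟩
  simp only [Rho, px, mem_ofPred_eq, abs_div, abs_mul, abs_of_pos hS, abs_of_pos r2_pos,
    abs_of_nonneg h2]
  have k1 : √2 * |y.2| / SS (hA b) y z / a < y.1 / SS (hA b) y z := by
    rw [div_right_comm]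
    gcongr
    rw [div_lt_iff₀ ha]; linarith
  have k2 : √2 * (Real.sin (hA b) + z * Real.cos (hA b)) / SS (hA b) y z / b ≤
      (Real.cos (hA b) - z * Real.sin (hA b)) / SS (hA b) y z := by
    rw [div_right_comm]
    gcongr
    rw [div_le_iff₀ hb]
    nlinarith [mul_nonneg_of_nonpos_of_nonpos h3 (neg_nonpos.2 (mul_pos hs hb).le),
      mul_nonneg_of_nonpos_of_nonpos h3 (neg_nonpos.2 (mul_pos hc r2_pos).le)]
  have k3 : y.1 / SS (hA b) y z + (Real.cos (hA b) - z * Real.sin (hA b)) / SS (hA b) y z = 1 := by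
    field_simp; unfold SS; ring
  linarith

theorem facts {x y : P2} {z : ℝ} (hx : x ∈ Rho a b) (h2 : 0 < x.2)
    (e : gX O0 u x = OQ 0 (hA b) (gn y z)) :
    √2 * |y.2| < a * y.1 ∧ 0 < Real.sin (hA b) + z * Real.cos (hA b) ∧ z < 0 ∧
      x = px (hA b) y z ∧ u x = pw (hA b) y z := by
  obtain ⟨hs, hc, e'⟩ := trig hT hu.bpos
  obtain ⟨-, -, -, t1, t2⟩ := hT.inner a b u hu x hx
  obtain ⟨b0, b1, b2, b3⟩ := FQ (hA b) y z
  have h0 := rho_pos y z
  have k2 : 0 < Real.sin (hA b) + z * Real.cos (hA b) := by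
    have := (hT.coord x (u x)).2.1
    rw [← gX, e, b1] at this
    exact (div_pos_iff_of_pos_right h0).1 (this ▸ div_pos h2 (rho_pos _ _))
  rw [e, b2, b3, abs_div, abs_of_pos h0, ← mul_div_assoc, ← mul_div_assoc,
    div_lt_div_iff_of_pos_right h0] at t1
  rw [e, b0, b1, abs_div, abs_of_pos h0, ← mul_div_assoc, ← mul_div_assoc,
    div_lt_div_iff_of_pos_right h0, abs_of_pos k2] at t2
  have k3 : z < 0 := by
    by_contra h
    nlinarith [mul_nonneg (not_lt.1 h) (mul_pos hs hu.bpos).le,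
      mul_nonneg (not_lt.1 h) (mul_pos hc r2_pos).le]
  refine ⟨t1, k2, k3, ?_⟩
  rw [← chg hT (px_mem hT hu t1 k2.le k3.le).1] at e
  exact hT.inj _ _ _ _ _ e

end leaf

theorem aa_FQ (B : ℝ) (y : P2) (z : ℝ) :
    aa (OQ 0 B (gn y z)) = (1 + z ^ 2) / (1 + y.1 ^ 2 + y.2 ^ 2 + z ^ 2) := by
  obtain ⟨b0, b1, -, -⟩ := FQ B y z
  rw [aa, b0, b1, div_pow, div_pow, rho_sq, ← add_div]
  congr 1
  linear_combination (1 + z ^ 2) * Real.sin_sq_add_cos_sq B

theorem aa_gt (B : ℝ) {ρ : ℝ} {y : P2} (z : ℝ) (h : y.1 ^ 2 + y.2 ^ 2 < ρ ^ 2) :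
    1 / (1 + ρ ^ 2) < aa (OQ 0 B (gn y z)) := by
  rw [aa_FQ, div_lt_div_iff₀ (by positivity) (by positivity)]
  nlinarith [mul_nonneg (sq_nonneg z) (sq_nonneg ρ)]

theorem aa_anti (hT : TetS) {x : P2} (hx : x.2 = 0) {v w : ℝ} (h1 : -1 ≤ v) (h2 : v ≤ w)
    (h3 : w ≤ 1) : aa (O0 (gn x w)) ≤ aa (O0 (gn x v)) := by
  obtain ⟨a0, a1, -, -⟩ := hT.coord x w
  obtain ⟨b0, b1, -, -⟩ := hT.coord x v
  simp only [aa, a0, a1, b0, b1, hx, zero_div, div_pow, mul_pow, rho_sq,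
    Real.sq_sqrt (zero_le_two (α := ℝ))]
  gcongr ?_ + _
  rw [div_le_div_iff₀ (by positivity) (by positivity)]
  have k1 : 0 ≤ (w - v) * (x.1 ^ 2 * (2 - v - w)) :=
    mul_nonneg (by linarith) (mul_nonneg (sq_nonneg _) (by linarith))
  have k2 : 0 ≤ (w - v) * (1 - v * w) := mul_nonneg (by linarith) (by nlinarith)
  nlinarith

/-- the point over `y` at height `z` lies on the upper half of the leaf -/
def PP (a b : ℝ) (u : P2 → ℝ) (ρ : ℝ) (y : P2) (z : ℝ) : Prop :=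
  y.1 ^ 2 + y.2 ^ 2 < ρ ^ 2 ∧ ∃ x ∈ Rho a b, 0 < x.2 ∧ gX O0 u x = OQ 0 (hA b) (gn y z)

section leaf2
variable (hT : TetS) (hR : RadoS) (hP : PsiS) {a b ρ μ : ℝ} {u : P2 → ℝ} (hu : IsLeaf a b u)
  (hμ : μ < 1 / (1 + ρ ^ 2)) (h0 : aa (gX O0 u 0) ≤ μ)
include hT hR hu hμ h0

theorem exz {y : P2} (hy : y ∈ Wd (hA a) ρ) : ∃ z, PP a b u ρ y z := by
  obtain ⟨hs, hc, e⟩ := trig hT hu.bpos
  obtain ⟨h1, h2⟩ := (mem_Wd hT hu.apos).1 hy
  set α := -(Real.sin (hA b) / Real.cos (hA b)) with hα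
  have hα0 : α < 0 := neg_neg_of_pos (div_pos hs hc)
  have eα : Real.sin (hA b) + α * Real.cos (hA b) = 0 := by rw [hα]; field_simp; ring
  have hm : ∀ t ∈ Icc α 0, 0 < SS (hA b) y t ∧ px (hA b) y t ∈ Rho a b := fun t ht =>
    px_mem hT hu h1 (by nlinarith [ht.1]) ht.2
  have hcont : ContinuousOn (fun t => pw (hA b) y t - u (px (hA b) y t)) (Icc α 0) := fun t ht =>
    (der_g (hm t ht).1 (hu.sol.1 _ (hm t ht).2).differentiableAt).continuousAt.continuousWithinAt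
  have g0 : 0 < pw (hA b) y 0 - u (px (hA b) y 0) := by
    obtain ⟨k1, k2⟩ := hm 0 ⟨hα0.le, le_rfl⟩
    have := (hT.inner a b u hu _ k2).2.1
    have hb := hu.bpos
    have e2 : up b (px (hA b) y 0) = pw (hA b) y 0 := by
      simp only [up, px, pw, abs_div, abs_of_pos k1, zero_mul, add_zero, e,
        abs_of_pos (mul_pos hb hc)]
      field_simp
      unfold SS; ring
    linarith
  have g1 : pw (hA b) y α - u (px (hA b) y α) < 0 := by
    obtain ⟨k1, k2⟩ := hm α ⟨le_rfl, hα0.le⟩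
    have e2 : (px (hA b) y α).2 = 0 := by simp [px, eα]
    by_contra h
    have k3 := (hR.axis a b u hu _ k2).1 e2
    have k4 := (hT.inner a b u hu _ k2).1
    have k5 : -1 ≤ lo a (px (hA b) y α) := by
      have := hu.apos
      have : 0 ≤ 2 * |(px (hA b) y α).1| / a := by positivity
      unfold lo; linarith
    have k6 : pw (hA b) y α ≤ 1 := by
      rw [pw, div_le_one k1, SS]
      nlinarith [mul_pos_of_neg_of_neg hα0 (neg_neg_of_pos hs)]
    have k7 := aa_anti hT e2 (k5.trans k4.le) (by linarith) k6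
    rw [chg hT k1] at k7
    have k8 := aa_gt (hA b) α h2
    rw [← gX] at k7
    linarith
  obtain ⟨z, hz, ez⟩ := intermediate_value_Ioo hα0.le hcont ⟨g1, g0⟩
  obtain ⟨k1, k2⟩ := hm z ⟨hz.1.le, hz.2.le⟩
  refine ⟨z, h2, _, k2, ?_, ?_⟩
  · exact div_pos (mul_pos r2_pos (by nlinarith [hz.1])) k1
  · rw [gX, ← chg hT k1, sub_eq_zero.1 ez]

include hP

theorem low {x y : P2} {z : ℝ} (hy : y.1 ^ 2 + y.2 ^ 2 < ρ ^ 2) (hx : x ∈ Rho a b) (h2 : 0 ≤ x.2)
    (e : gX O0 u x = OQ 0 (hA b) (gn y z)) :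
    Real.sin (hA b) * (1 - √(μ * (1 + ρ ^ 2))) ≤ ⟪gN O0 u x, vQ (hA b + π / 2)⟫_ℝ := by
  refine le_trans ?_ ((hR.cone a b u hu x hx).1 h2)
  refine mul_le_mul_of_nonneg_left ?_ (trig hT hu.bpos).1.le
  have k1 := hP a b u hu x hx
  have k2 := aa_gt (hA b) z hy
  rw [← e] at k2
  set X := gX O0 u x
  set n := gN O0 u x
  have p1 : 0 < aa X := lt_trans (by positivity) k2
  have k3 : |u12 X n| ≤ √(aa X) * √(aa n) := by
    rw [← Real.sqrt_mul p1.le]
    refine Real.abs_le_sqrt ?_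
    unfold u12 aa
    nlinarith [sq_nonneg (X 0 * n 0 + X 1 * n 1)]
  have k4 : √(aa (gX O0 u 0)) ≤ √(aa X) * √(μ * (1 + ρ ^ 2)) := by
    rw [← Real.sqrt_mul p1.le]
    refine Real.sqrt_le_sqrt (h0.trans ?_)
    have p2 : 0 ≤ μ := le_trans (by unfold aa; positivity) h0
    rw [div_lt_iff₀ (by positivity)] at k2
    nlinarith
  have p3 := Real.sqrt_pos.2 p1
  refine le_of_mul_le_mul_left ?_ p3
  linarith

theorem kpos : 0 < Real.sin (hA b) * (1 - √(μ * (1 + ρ ^ 2))) := by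
  refine mul_pos (trig hT hu.bpos).1 (sub_pos.2 ?_)
  rw [Real.sqrt_lt' one_pos, one_pow]
  exact (lt_div_iff₀ (by positivity)).1 hμ

theorem uqz {y : P2} {z z' : ℝ} (h : PP a b u ρ y z) (h' : PP a b u ρ y z') : z = z' := by
  wlog hlt : z < z' generalizing z z'
  · rcases (not_lt.1 hlt).eq_or_lt with e | e
    · exact e.symm
    · exact (this h' h e).symm
  obtain ⟨hy, x, hx, hx2, e⟩ := h
  obtain ⟨-, x', hx', hx2', e'⟩ := h'
  obtain ⟨k1, k2, -, k4, k5⟩ := facts hT hu hx hx2 e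
  obtain ⟨-, -, k3', k4', k5'⟩ := facts hT hu hx' hx2' e'
  obtain ⟨hs, hc, -⟩ := trig hT hu.bpos
  have hm : ∀ t ∈ Icc z z', 0 ≤ Real.sin (hA b) + t * Real.cos (hA b) := fun t ht => by
    nlinarith [ht.1]
  have hm' : ∀ t ∈ Icc z z', 0 < SS (hA b) y t ∧ px (hA b) y t ∈ Rho a b := fun t ht =>
    px_mem hT hu k1 (hm t ht) (ht.2.trans k3'.le)
  have hd := fun t ht => der_g (hm' t ht).1 (hu.sol.1 _ (hm' t ht).2).differentiableAt
  refine (uniq_zero (fun t ht => (hd t ht).continuousAt.continuousWithinAt) hlt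
    (by simp only [← k4, k5, sub_self]) (by simp only [← k4', k5', sub_self])
    fun t ht h0' => ⟨_, div_pos ?_ (hm' t ht).1, hd t ht⟩).elim
  have e2 : pw (hA b) y t = u (px (hA b) y t) := sub_eq_zero.1 h0'
  have := (kpos hT hR hP hu hμ h0).trans_le (low hT hR hP hu hμ h0 hy (hm' t ht).2
    (div_nonneg (mul_nonneg r2_pos.le (hm t ht)) (hm' t ht).1.le)
    (by rw [gX, ← e2, chg hT (hm' t ht).1]))
  rw [nQ, ← e2] at this
  exact (div_pos_iff_of_pos_right (by positivity)).1 this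

end leaf2

/-- the wedge graph -/
def zt (a b : ℝ) (u : P2 → ℝ) (ρ : ℝ) (y : P2) : ℝ := sSup {z | PP a b u ρ y z}

theorem rf3_FQ (B : ℝ) (y : P2) (z : ℝ) :
    rf3 (OQ 0 B (gn y z)) = OQ 0 B (gn (y.1, -y.2) z) := by
  ext i
  fin_cases i <;> simp [OQ, rf3, mkO_apply, gn]

theorem norm_fderiv_le {u : P2 → ℝ} {y : P2} {c : ℝ} (h1 : |d1 u y| ≤ c) (h2 : |d2 u y| ≤ c) :
    ‖fderiv ℝ u y‖ ≤ 2 * c := by
  have h0 : 0 ≤ c := (abs_nonneg _).trans h1
  refine ContinuousLinearMap.opNorm_le_bound _ (by positivity) fun v => ?_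
  rw [lin_d, Real.norm_eq_abs]
  refine (abs_add_le _ _).trans ?_
  rw [abs_mul, abs_mul]
  have k1 : |v.1| ≤ ‖v‖ := norm_fst_le v
  have k2 : |v.2| ≤ ‖v‖ := norm_snd_le v
  nlinarith [mul_le_mul h1 k1 (abs_nonneg _) h0, mul_le_mul h2 k2 (abs_nonneg _) h0]

section leaf3
variable (hC : ChartS) (hT : TetS) (hR : RadoS) (hP : PsiS) {a b ρ μ : ℝ} {u : P2 → ℝ}
  (hu : IsLeaf a b u) (hμ : μ < 1 / (1 + ρ ^ 2)) (h0 : aa (gX O0 u 0) ≤ μ)
include hC hT hR hP hu hμ h0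

theorem zt_eq {y : P2} {z : ℝ} (h : PP a b u ρ y z) : zt a b u ρ y = z := by
  have : {z | PP a b u ρ y z} = {z} := by
    ext w
    exact ⟨fun hw => uqz hT hR hP hu hμ h0 hw h, fun hw => by rw [hw]; exact h⟩
  rw [zt, this, csSup_singleton]

theorem zt_PP {y : P2} (hy : y ∈ Wd (hA a) ρ) : PP a b u ρ y (zt a b u ρ y) := by
  obtain ⟨z, hz⟩ := exz hT hR hu hμ h0 hy
  rwa [zt_eq hC hT hR hP hu hμ h0 hz]

theorem PP_mem {y : P2} {z : ℝ} (h : PP a b u ρ y z) : y ∈ Wd (hA a) ρ := by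
  obtain ⟨hy, x, hx, hx2, e⟩ := h
  exact (mem_Wd hT hu.apos).2 ⟨(facts hT hu hx hx2 e).1, hy⟩

theorem zt_zero {y : P2} (hy : y ∉ Wd (hA a) ρ) : zt a b u ρ y = 0 := by
  have : {z | PP a b u ρ y z} = ∅ :=
    eq_empty_of_forall_notMem fun z hz => hy (PP_mem hC hT hR hP hu hμ h0 hz)
  rw [zt, this, Real.sSup_empty]

theorem PP_neg {y : P2} {z : ℝ} (h : PP a b u ρ y z) : PP a b u ρ (y.1, -y.2) z := by
  obtain ⟨hy, x, hx, hx2, e⟩ := h
  refine ⟨by simpa using hy, (-x.1, x.2), by simpa [Rho] using hx, hx2, ?_⟩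
  rw [(hT.evg a b u hu x hx).1, e, rf3_FQ]

theorem zt_ev (y : P2) : zt a b u ρ (y.1, -y.2) = zt a b u ρ y := by
  refine congrArg sSup (Set.ext fun z => ⟨fun h => ?_, PP_neg hC hT hR hP hu hμ h0⟩)
  simpa using PP_neg hC hT hR hP hu hμ h0 h

theorem zt_loc {y : P2} (hy : y ∈ Wd (hA a) ρ) : Sol (zt a b u ρ) {y} ∧
    (∀ x ∈ Rho a b, 0 < x.2 → gX O0 u x = gX (OQ 0 (hA b)) (zt a b u ρ) y →
      gN O0 u x = gN (OQ 0 (hA b)) (zt a b u ρ) y) ∧
    ‖fderiv ℝ (zt a b u ρ) y‖ ≤ 2 * (Real.sin (hA b) * (1 - √(μ * (1 + ρ ^ 2))))⁻¹ := by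
  obtain ⟨-, -, -, hS, -, hL⟩ := hT.cpt a b u hu
  have hk := kpos hT hR hP hu hμ h0
  obtain ⟨hy2, x, hx, hx2, e⟩ := zt_PP hC hT hR hP hu hμ h0 hy
  have hn := low hT hR hP hu hμ h0 hy2 hx hx2.le e
  obtain ⟨f1, f2, -⟩ := hC.facts _ _ _ _ hL x hx
  obtain ⟨δ, hδ, v, hv, ev⟩ := hC.lchart _ hS (OQ 0 (hA b)) y _ _ (e ▸ f1) (e ▸ f2)
    (by rw [OQ3]; exact (hk.trans_le hn).ne')
  have hyb : y ∈ ball y δ := mem_ball_self hδ
  have hE : zt a b u ρ =ᶠ[𝓝 y] v := by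
    have c1 : ContinuousAt (fun w => Real.sin (hA b) + v w * Real.cos (hA b)) y :=
      continuousAt_const.add ((hv.sol.1 y hyb).continuousAt.mul continuousAt_const)
    have c2 : 0 < Real.sin (hA b) + v y * Real.cos (hA b) := by
      rw [ev]; exact (facts hT hu hx hx2 e).2.1
    filter_upwards [c1.eventually (lt_mem_nhds c2), (open_Wd _ _).mem_nhds hy,
      ball_mem_nhds y hδ] with w w1 w2 w3
    obtain ⟨x', hx', e'⟩ := (hC.facts _ _ _ _ hv w w3).1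
    refine zt_eq hC hT hR hP hu hμ h0 ⟨w2.2, x', hx', ?_, e'⟩
    have := (hT.coord x' (u x')).2.1
    rw [← gX, e', gX, (FQ _ _ _).2.1] at this
    exact (div_pos_iff_of_pos_right (rho_pos _ _)).1 (this ▸ div_pos w1 (rho_pos _ _))
  have hN : gN O0 u x = gN (OQ 0 (hA b)) v y := by
    have g2 := (hC.facts _ _ _ _ hv y hyb).2.1
    rw [gX, ev, ← e] at g2
    have p1 : 0 < ⟪gN (OQ 0 (hA b)) v y, vQ (hA b + π / 2)⟫_ℝ := by
      rw [← OQ3, nE]; positivity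
    have p2 := hk.trans_le hn
    obtain ⟨-, hs⟩ := hC.nor_spec _ hS _ f1
    rcases (hs _).1 f2 with k1 | k1 <;> rcases (hs _).1 g2 with k2 | k2 <;> rw [k1, k2] <;>
      rw [k1] at p2 <;> rw [k2] at p1 <;> simp only [inner_neg_left] at p1 p2 <;> linarith
  refine ⟨sol_congr hE (sol_mono hv.sol (singleton_subset_iff.2 hyb)), fun x' _ _ e' => ?_, ?_⟩
  · rw [gN_congr _ hE, ← hN, (hT.inj _ _ _ _ _ (e'.trans e.symm)).1]
  · rw [hN, ← OQ3, nE, le_inv_comm₀ hk (by positivity)] at hn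
    rw [hE.fderiv_eq]
    refine norm_fderiv_le (le_trans (Real.abs_le_sqrt ?_) hn) (le_trans (Real.abs_le_sqrt ?_) hn) <;>
      nlinarith [sq_nonneg (d1 v y), sq_nonneg (d2 v y),
        sq_nonneg (v y - y.1 * d1 v y - y.2 * d2 v y)]

theorem zt_side {y : P2} (hy : y ∈ Wc (hA a) ρ) (hy' : y ∉ Wd (hA a) ρ) :
    Tendsto (zt a b u ρ) (𝓝[Wd (hA a) ρ] y) (𝓝 0) := by
  obtain ⟨hs, hc, e⟩ := trig hT hu.bpos
  have hm : ∀ w ∈ Wd (hA a) ρ, zt a b u ρ w ∈ Icc (-(Real.sin (hA b) / Real.cos (hA b))) 0 ∧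
      OQ 0 (hA b) (gn w (zt a b u ρ w)) ∈ gX O0 u '' Rh a b := fun w hw => by
    obtain ⟨-, x, hx, hx2, e⟩ := zt_PP hC hT hR hP hu hμ h0 hw
    obtain ⟨-, k2, k3, -⟩ := facts hT hu hx hx2 e
    refine ⟨⟨?_, k3.le⟩, x, le_of_lt (α := ℝ) hx, e⟩
    rw [neg_le, le_div_iff₀ hc]; linarith
  refine isCompact_Icc.tendsto_nhds_of_unique_mapClusterPt
    (eventually_mem_nhdsWithin.mono fun w hw => (hm w hw).1) fun z hz hcl => ?_
  obtain ⟨U, hU, hz'⟩ := mapClusterPt_iff_ultrafilter.1 hcl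
  have t1 := tend (OQ 0 (hA b)) (tendsto_id'.2 (hU.trans nhdsWithin_le_nhds)) hz'
  obtain ⟨x, hx, ex⟩ := (hT.cpt a b u hu).2.1.isClosed.mem_of_tendsto t1
    (hU (eventually_mem_nhdsWithin.mono fun w hw => (hm w hw).2))
  obtain ⟨b0, b1, b2, b3⟩ := FQ (hA b) y z
  have r0 := rho_pos y z
  have hx' : x ∉ Rho a b := fun hx' => by
    obtain ⟨-, -, -, t1, -⟩ := hT.inner a b u hu x hx'
    rw [ex, b2, b3, abs_div, abs_of_pos r0, ← mul_div_assoc, ← mul_div_assoc,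
      div_lt_div_iff_of_pos_right r0] at t1
    exact hy' ((mem_Wd hT hu.apos).2 ⟨t1, hy.2⟩)
  have hq : gX O0 u x ∈ Quad a b := by
    rw [← hT.quad a b u hu]; exact mem_image_of_mem _ ⟨hx, hx'⟩
  obtain ⟨-, -, t2⟩ := hq
  have k2 : 0 ≤ Real.sin (hA b) + z * Real.cos (hA b) := by
    have := hz.1
    rw [neg_le, le_div_iff₀ hc] at this; linarith
  rw [ex, b0, b1, abs_div, abs_of_pos r0, ← mul_div_assoc, ← mul_div_assoc,
    div_left_inj' r0.ne', abs_of_nonneg k2] at t2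
  have k3 : z * (√2 * Real.cos (hA b) + b * Real.sin (hA b)) = 0 := by linarith
  have := hu.bpos
  exact (mul_eq_zero.1 k3).resolve_right (by positivity)

theorem wext {L : ℝ≥0} (hL : 2 * (Real.sin (hA b) * (1 - √(μ * (1 + ρ ^ 2))))⁻¹ ≤ L) :
    WExt a b u (zt a b u ρ) ρ L := by
  have loc := fun y hy => zt_loc hC hT hR hP hu hμ h0 (y := y) hy
  have hlip : LipschitzOnWith L (zt a b u ρ) (Wd (hA a) ρ) :=
    (convex_Wd _ _).lipschitzOnWith_of_nnnorm_fderiv_le (𝕜 := ℝ)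
      (fun y hy => ((loc y hy).1.1 y rfl).differentiableAt)
      fun y hy => NNReal.coe_le_coe.1 ((loc y hy).2.2.trans hL)
  have hc : ∀ y ∈ Wc (hA a) ρ, Tendsto (zt a b u ρ) (𝓝[Wd (hA a) ρ] y) (𝓝 (zt a b u ρ y)) := by
    intro y hy
    by_cases hy' : y ∈ Wd (hA a) ρ
    · exact hlip.continuousOn y hy'
    · rw [zt_zero hC hT hR hP hu hμ h0 hy']
      exact zt_side hC hT hR hP hu hμ h0 hy hy'
  have htan : 0 < Real.tan (hA a) := by
    obtain ⟨h1, h2, -⟩ := hT.ang.1 a hu.apos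
    exact Real.tan_pos_of_pos_of_lt_pi_div_two h1 h2
  refine ⟨sol_of_pt fun y hy => (loc y hy).1, LipschitzOnWith.of_dist_le_mul fun y hy w hw => ?_,
    fun y hy => zt_zero hC hT hR hP hu hμ h0 hy.2, zt_ev hC hT hR hP hu hμ h0, fun y hy => ?_,
    fun x hx hx2 y z e hy => ?_⟩
  · have n1 := mem_closure_iff_nhdsWithin_neBot.1 (Wc_closure htan hy)
    have n2 := mem_closure_iff_nhdsWithin_neBot.1 (Wc_closure htan hw)
    refine le_of_tendsto_of_tendsto (b := 𝓝[Wd (hA a) ρ] y ×ˢ 𝓝[Wd (hA a) ρ] w)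
      (((hc y hy).comp tendsto_fst).dist ((hc w hw).comp tendsto_snd))
      (((tendsto_fst.mono_right nhdsWithin_le_nhds).dist
        (tendsto_snd.mono_right nhdsWithin_le_nhds)).const_mul _) ?_
    exact (eventually_mem_nhdsWithin.prod_mk eventually_mem_nhdsWithin).mono fun q hq =>
      hlip.dist_le_mul _ hq.1 _ hq.2
  · obtain ⟨-, x, hx, hx2, e⟩ := zt_PP hC hT hR hP hu hμ h0 hy
    exact ⟨(facts hT hu hx hx2 e).2.2.1, x, hx, hx2, e, (loc y hy).2.1 x hx hx2 e⟩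
  · have : PP a b u ρ y z := ⟨hy, x, hx, hx2, e⟩
    exact ⟨PP_mem hC hT hR hP hu hμ h0 this, (zt_eq hC hT hR hP hu hμ h0 this).symm⟩

end leaf3

end EWedge

open EWedge in
theorem wedgeS (hC : ChartS) (hT : TetS) (hR : RadoS) (hP : PsiS) : WedgeS := by
  intro ρ μ b₀ _ hμ hb₀
  refine ⟨(2 * (Real.sin (hA b₀) * (1 - √(μ * (1 + ρ ^ 2))))⁻¹).toNNReal,
    fun a b u hb hu h0 => ⟨_, wext hC hT hR hP hu hμ h0 (le_trans ?_ (Real.le_coe_toNNReal _))⟩⟩
  have h1 : 0 < 1 - √(μ * (1 + ρ ^ 2)) :=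
    (mul_pos_iff_of_pos_left (trig hT hu.bpos).1).1 (kpos hT hR hP hu hμ h0)
  have h2 := (trig hT hb₀).1
  have h3 : Real.sin (hA b₀) ≤ Real.sin (hA b) := by
    refine Real.sin_le_sin_of_le_of_le_pi_div_two ?_ (hT.ang.1 b hu.bpos).2.1.le
      (Real.arctan_strictMono.monotone (by gcongr))
    linarith [(hT.ang.1 b₀ hb₀).1, Real.pi_pos]
  gcongr

namespace EWedge

theorem weak_mono {u : P2 → ℝ} {U V : Set P2} (h : Weak u U) (hV : V ⊆ U) : Weak u V :=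
  fun η L h1 h2 h3 => h η L h1 h2 (h3.trans hV)

theorem weak_of_sol (hW : CWS) {u : P2 → ℝ} {U : Set P2} (hU : IsOpen U) (h : Sol u U) :
    Weak u U := (hW u U hU (h.1.contDiffOn hU.uniqueDiffOn)).2 h.2

theorem sol_of_weak (hG : RegS) (hW : CWS) {u : P2 → ℝ} {U : Set P2} {L : ℝ≥0} (hU : IsOpen U)
    (hL : LipschitzOnWith L u U) (h : Weak u U) : Sol u U := by
  have ha : AnalyticOnNhd ℝ u U := fun y hy => by
    obtain ⟨ε, hε, hb⟩ := Metric.isOpen_iff.1 hU y hy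
    obtain ⟨C, hC⟩ := hG L (max ‖y‖ |u y|) 0
    have hs : ball y (min ε 1) ⊆ U := (ball_subset_ball (min_le_left _ _)).trans hb
    exact (hC u y (min ε 1) (lt_min hε one_pos) (min_le_right _ _) (le_max_left _ _)
      (le_max_right _ _) (hL.mono hs) (weak_mono h hs)).1
  exact ⟨ha, (hW u U hU (ha.contDiffOn hU.uniqueDiffOn)).1 h⟩

theorem reduce {Q : P2 → Prop} (h1 : ∀ y : P2, Q (-y.1, y.2) → Q y)
    (h2 : ∀ y : P2, Q (y.1, -y.2) → Q y) (h3 : ∀ y : P2, Q (y.2, y.1) → Q y)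
    (h : ∀ y : P2, 0 ≤ y.2 → y.2 ≤ y.1 → Q y) (y : P2) : Q y := by
  have k : ∀ y : P2, 0 ≤ y.1 → 0 ≤ y.2 → Q y := fun y a b =>
    (le_total y.2 y.1).elim (h y b) fun c => h3 y (h _ a c)
  have k' : ∀ y : P2, 0 ≤ y.1 → Q y := fun y a =>
    (le_total 0 y.2).elim (k y a) fun c => h2 y (k _ a (neg_nonneg.2 c))
  exact (le_total 0 y.1).elim (k' y) fun c => h1 y (k' _ (neg_nonneg.2 c))

theorem mem_ball0 {y : P2} {ρ : ℝ} : y ∈ ball (0 : P2) ρ ↔ |y.1| < ρ ∧ |y.2| < ρ := by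
  rw [mem_ball_zero_iff, Prod.norm_def, max_lt_iff]; rfl

theorem sol_orth (hT : TetS) (R : P2 ≃L[ℝ] P2) (hR : ∀ x y, dot (R x) (R y) = dot x y)
    {u : P2 → ℝ} {y : P2} (h : Sol u {R y}) : Sol (fun x => u (R x)) {y} :=
  sol_mono ((hT.orth R hR).1 u _ h) (singleton_subset_iff.2 rfl)

theorem OP_eq (A : ℝ) : OP A = rf3.trans ((OQ 0 A).trans sw) := by
  ext x i
  fin_cases i <;> simp [OP, OQ, rf3, sw, mkO_apply]

theorem sw_sw (x : E4) : sw (sw x) = x := by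
  ext i
  fin_cases i <;> simp [sw, mkO_apply]

theorem rf3_gn (y : P2) (z : ℝ) : rf3 (gn y z) = gn y (-z) := by
  ext i
  fin_cases i <;> simp [rf3, mkO_apply, gn]

theorem aa_sw {x : E4} (hx : ‖x‖ = 1) : aa (sw x) = 1 - aa x := by
  have h := real_inner_self_eq_norm_sq x
  rw [inner4, hx] at h
  simp [aa, sw, mkO_apply]
  linarith

theorem norm_gn (y : P2) (z : ℝ) : ‖gn y z‖ = 1 := by
  have h := real_inner_self_eq_norm_sq (gn y z)
  have h0 := rho_pos y z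
  have h1 := rho_sq y z
  have : ‖gn y z‖ ^ 2 = 1 := by
    rw [← h, inner4]
    simp [gn]
    rw [← rho]
    field_simp
    linarith
  exact (pow_eq_one_iff_of_nonneg (norm_nonneg _) two_ne_zero).1 this

/-- folding of the plane onto the closed octant -/
def fold (y : P2) : P2 := (max |y.1| |y.2|, |y.2|)

theorem lip_fold : LipschitzWith 1 fold := by
  have h1 : LipschitzWith (1 * 1) fun y : P2 => |y.1| :=
    lipschitzWith_one_norm.comp (LipschitzWith.prod_fst (α := ℝ) (β := ℝ))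
  have h2 : LipschitzWith (1 * 1) fun y : P2 => |y.2| :=
    lipschitzWith_one_norm.comp (LipschitzWith.prod_snd (α := ℝ) (β := ℝ))
  exact ((h1.max h2).prodMk h2).weaken (by simp)

/-- the extension of the wedge graph around the corner -/
def ext (ζ : P2 → ℝ) (y : P2) : ℝ := ζ (fold (y.2, y.1)) - ζ (fold y)

section corner
variable (hG : RegS) (hW : CWS) (hRem : RemS) (hT : TetS) {a ρ ρ' : ℝ} {u ζ : P2 → ℝ} {L : ℝ≥0}
  (hρ : 2 * ρ ^ 2 ≤ ρ' ^ 2) (h : WExt √2 a (du u) ζ ρ' L)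
include hT hρ h

theorem in_disc {y : P2} (hy : y ∈ ball (0 : P2) ρ) : y.1 ^ 2 + y.2 ^ 2 < ρ' ^ 2 := by
  obtain ⟨h1, h2⟩ := mem_ball0.1 hy
  have k1 := sq_lt_sq' (abs_lt.1 h1).1 (abs_lt.1 h1).2
  have k2 := sq_lt_sq' (abs_lt.1 h2).1 (abs_lt.1 h2).2
  linarith

theorem in_Wd {y : P2} (hy : y ∈ ball (0 : P2) ρ) : y ∈ Wd (hA √2) ρ' ↔ |y.2| < y.1 := by
  simp [Wd, hT.ang.2.1, in_disc hT hρ h hy]

theorem in_Wc {y : P2} (hy : y ∈ ball (0 : P2) ρ) : y ∈ Wc (hA √2) ρ' ↔ |y.2| ≤ y.1 := by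
  simp [Wc, hT.ang.2.1, in_disc hT hρ h hy]

theorem fold_ball {y : P2} (hy : y ∈ ball (0 : P2) ρ) : fold y ∈ ball (0 : P2) ρ := by
  obtain ⟨h1, h2⟩ := mem_ball0.1 hy
  refine mem_ball0.2 ⟨?_, by simpa [fold] using h2⟩
  rw [fold, abs_of_nonneg (le_max_of_le_left (abs_nonneg _))]
  exact max_lt h1 h2

theorem ext_lip : LipschitzOnWith (L + L) (ext ζ) (ball 0 ρ) := by
  have k : LipschitzOnWith L (fun y => ζ (fold y)) (ball 0 ρ) := by
    have := h.lip.comp (lip_fold.lipschitzOnWith (s := ball 0 ρ)) fun y hy =>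
      (in_Wc hT hρ h (fold_ball hT hρ h hy)).2 (by simp [fold])
    simpa [Function.comp_def] using this
  have k' : LipschitzOnWith L (fun y : P2 => ζ (fold (y.2, y.1))) (ball 0 ρ) := by
    have k0 : LipschitzWith 1 fun y : P2 => ((y.2, y.1) : P2) :=
      (LipschitzWith.prod_snd.prodMk LipschitzWith.prod_fst).weaken (by simp)
    have := k.comp (k0.lipschitzOnWith (s := ball 0 ρ)) fun y hy =>
      mem_ball0.2 (mem_ball0.1 hy).symm
    simpa [Function.comp_def] using this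
  exact k'.sub k

theorem ext_eq {y : P2} (hy : y ∈ ball (0 : P2) ρ) (h1 : |y.2| < y.1) : ext ζ y = -ζ y := by
  have h0 : 0 < y.1 := (abs_nonneg _).trans_lt h1
  have e1 : fold (y.2, y.1) = (y.1, y.1) := by simp [fold, abs_of_pos h0, h1.le]
  have e2 : fold y = (y.1, |y.2|) := by simp [fold, abs_of_pos h0, h1.le]
  have hb : ((y.1, y.1) : P2) ∈ ball (0 : P2) ρ :=
    mem_ball0.2 ⟨(mem_ball0.1 hy).1, (mem_ball0.1 hy).1⟩
  have e3 : ζ (y.1, y.1) = 0 := h.side _ ⟨(in_Wc hT hρ h hb).2 (abs_of_pos h0).le,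
    fun k => absurd ((in_Wd hT hρ h hb).1 k) (by simp [abs_of_pos h0])⟩
  have e4 : ζ (y.1, |y.2|) = ζ y := by
    rcases abs_choice y.2 with e | e <;> rw [e]
    exact h.ev y
  rw [ext, e1, e2, e3, e4, zero_sub]

theorem ext_ev {y : P2} (hy : y ∈ ball (0 : P2) ρ) (h1 : |y.2| < y.1) :
    ext ζ =ᶠ[𝓝 y] fun x => -ζ x := by
  have : IsOpen {x : P2 | |x.2| < x.1} := isOpen_lt (by fun_prop) (by fun_prop)
  filter_upwards [isOpen_ball.mem_nhds hy, this.mem_nhds h1] with x k1 k2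
  exact ext_eq hT hρ h k1 k2

theorem ext_sol0 {y : P2} (hy : y ∈ ball (0 : P2) ρ) (h1 : |y.2| < y.1) : Sol (ext ζ) {y} :=
  sol_congr (ext_ev hT hρ h hy h1)
    (hT.neg _ _ (sol_mono h.sol (singleton_subset_iff.2 ((in_Wd hT hρ h hy).2 h1))))

include hG hW hRem

theorem ext_sol1 {s : ℝ} (hs : 0 < s) (hs' : s < ρ) : Sol (ext ζ) {(s, s)} := by
  set ε := min s (ρ - s)
  have hε : 0 < ε := lt_min hs (sub_pos.2 hs')
  have hm : ∀ y : P2, y ∈ ball ((s, s) : P2) ε ↔ |y.1 - s| < ε ∧ |y.2 - s| < ε := fun y => by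
    rw [mem_ball, Prod.dist_eq, max_lt_iff]; rfl
  have hb : ∀ y ∈ ball ((s, s) : P2) ε, y ∈ ball (0 : P2) ρ ∧ 0 < y.2 := fun y hy => by
    obtain ⟨k1, k2⟩ := (hm y).1 hy
    have k3 := min_le_left s (ρ - s)
    have k4 := min_le_right s (ρ - s)
    rw [abs_lt] at k1 k2
    exact ⟨mem_ball0.2 ⟨abs_lt.2 ⟨by linarith, by linarith⟩, abs_lt.2 ⟨by linarith, by linarith⟩⟩,
      by linarith⟩
  have hl := (ext_lip hT hρ h).mono fun y hy => (hb y hy).1
  have e : ∀ y : P2, rfl2 ((√2)⁻¹, -(√2)⁻¹) y = (y.2, y.1) := fun y => by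
    ext <;> simp only [rfl2, dot, Prod.fst_sub, Prod.snd_sub, Prod.smul_fst, Prod.smul_snd,
      smul_eq_mul]
    · linear_combination (-2 * y.1 + 2 * y.2) * h2
    · linear_combination (2 * y.1 - 2 * y.2) * h2
  refine sol_mono (sol_of_weak hG hW isOpen_ball hl (hRem.1 _ _ _ ((√2)⁻¹, -(√2)⁻¹) isOpen_ball
    (by simp only [dot]; linarith [h2]) (fun y hy => ?_) hl (weak_of_sol hW ?_ ?_)))
    (singleton_subset_iff.2 (mem_ball_self hε))
  · rw [e]
    exact ⟨(hm _).2 ((hm y).1 hy).symm, by simp [ext]⟩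
  · exact isOpen_ball.inter (isOpen_lt (by fun_prop) (by unfold dot; fun_prop))
  · refine sol_of_pt fun y hy => ext_sol0 hT hρ h (hb y hy.1).1 ?_
    have k : 0 < (y.1 - y.2) * (√2)⁻¹ := by
      have := hy.2
      simp only [dot, mem_ofPred_eq] at this
      linarith
    rw [abs_of_pos (hb y hy.1).2]
    exact sub_pos.1 ((mul_pos_iff_of_pos_right (by positivity)).1 k)

theorem ext_sol : Sol (ext ζ) (ball 0 ρ) := by
  have key : ∀ y : P2, y ∈ ball (0 : P2) ρ → y ≠ 0 → Sol (ext ζ) {y} := by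
    refine reduce (fun y H hy h0 => ?_) (fun y H hy h0 => ?_) (fun y H hy h0 => ?_)
      fun y k1 k2 hy h0 => ?_
    · have := sol_orth hT ((ContinuousLinearEquiv.neg ℝ).prodCongr (.refl ℝ ℝ))
        (fun x y => by simp [dot]) (y := y)
        (H (mem_ball0.2 (by simpa using mem_ball0.1 hy)) (by simpa [Prod.ext_iff] using h0))
      exact sol_congr (.of_forall fun x => by simp [ext, fold]) this
    · have := sol_orth hT ((ContinuousLinearEquiv.refl ℝ ℝ).prodCongr (.neg ℝ))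
        (fun x y => by simp [dot]) (y := y)
        (H (mem_ball0.2 (by simpa using mem_ball0.1 hy)) (by simpa [Prod.ext_iff] using h0))
      exact sol_congr (.of_forall fun x => by simp [ext, fold]) this
    · have := hT.neg _ _ (sol_orth hT (ContinuousLinearEquiv.prodComm ℝ ℝ ℝ)
        (fun x y => by simp [dot, add_comm]) (y := y)
        (H (mem_ball0.2 (mem_ball0.1 hy).symm) (by simpa [Prod.ext_iff, imp_not_comm] using h0)))
      exact sol_congr (.of_forall fun x => by simp [ext, Prod.swap]) this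
    · rcases k2.eq_or_lt with e | e
      · have e' : y = (y.1, y.1) := Prod.ext rfl e
        rw [e']
        refine ext_sol1 hG hW hRem hT hρ h ?_ (abs_lt.1 (mem_ball0.1 hy).1).2
        refine (k1.trans k2).lt_of_ne fun k => h0 ?_
        rw [e', ← k]; rfl
      · exact ext_sol0 hT hρ h hy (by rwa [abs_of_nonneg k1])
  have hl := ext_lip hT hρ h
  exact sol_of_weak hG hW isOpen_ball hl (hRem.2 _ _ _ 0 isOpen_ball hl
    (weak_of_sol hW (isOpen_ball.sdiff isClosed_singleton)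
      (sol_of_pt fun y hy => key y hy.1 hy.2)))

theorem pext : PExt a u (ext ζ) ρ (L + L) := by
  refine ⟨ext_sol hG hW hRem hT hρ h, ext_lip hT hρ h, fun y => by simp [ext, fold],
    fun y => by simp [ext, fold], fun y => by simp [ext], fun y hy h1 => ?_,
    fun x hx y hy z e h1 => ?_⟩
  · obtain ⟨k1, x, hx, k2, k3, k4⟩ := h.mem y ((in_Wd hT hρ h hy).2 h1)
    obtain ⟨d1, d2⟩ := hT.dual.2 u x
    obtain ⟨n1, n2⟩ := hT.negg ((OQ 0 (hA a)).trans sw) ζ y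
    refine ⟨by rw [ext_eq hT hρ h hy h1]; linarith, (x.2, x.1),
      by simpa [Rho, add_comm] using hx, k2, ?_, ?_⟩
    · rw [← sw_sw (gX O0 u _), ← d1, k3, gX, gX, ext_eq hT hρ h hy h1, OP_eq]
      exact n1.symm
    · rw [gN_congr _ (ext_ev hT hρ h hy h1), OP_eq, n2, ← sw_sw (gN O0 u _),
        ← neg_neg (sw (gN O0 u _)), ← d2, k4, map_neg]
      rfl
  · obtain ⟨k1, k2⟩ := h.conv (x.2, x.1) (by simpa [Rho, add_comm] using hx) h1 y (-z)
      (by rw [(hT.dual.2 u _).1, e, OP_eq, ← rf3_gn]; exact sw_sw _) (in_disc hT hρ h hy)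
    have k3 := (in_Wd hT hρ h hy).1 k1
    exact ⟨k3, by rw [ext_eq hT hρ h hy k3, ← k2, neg_neg]⟩

end corner

theorem uniq {a : ℝ} {u ζ ζ' : P2 → ℝ} {ρ ρ' : ℝ} {L L' : ℝ≥0} (h : PExt a u ζ ρ L)
    (h' : PExt a u ζ' ρ' L') : EqOn ζ ζ' (ball 0 (min ρ ρ')) := by
  refine reduce (Q := fun y => y ∈ ball (0 : P2) (min ρ ρ') → ζ y = ζ' y) (fun y H hy => ?_)
    (fun y H hy => ?_) (fun y H hy => ?_) fun y k1 k2 hy => ?_
  · rw [← h.ev1, ← h'.ev1]
    exact H (mem_ball0.2 (by simpa using mem_ball0.1 hy))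
  · rw [← h.ev2, ← h'.ev2]
    exact H (mem_ball0.2 (by simpa using mem_ball0.1 hy))
  · rw [← neg_inj, ← h.anti, ← h'.anti]
    exact H (mem_ball0.2 (mem_ball0.1 hy).symm)
  · rcases k2.eq_or_lt with e | e
    · have e' : ((y.2, y.1) : P2) = y := Prod.ext e e.symm
      have a1 := h.anti y
      have a2 := h'.anti y
      rw [e'] at a1 a2
      linarith
    · obtain ⟨-, x, hx, k3, k4, -⟩ := h.mem y (ball_subset_ball (min_le_left _ _) hy)
        (by rwa [abs_of_nonneg k1])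
      exact (h'.conv x hx y (ball_subset_ball (min_le_right _ _) hy) _ k4 k3).2

theorem T0_apply (z : ℂ) : T0 z = (z.re, z.im) := rfl

/-- the leading term is nonnegative in the directions of the wedge -/
theorem lead_nonneg {ζ : P2 → ℝ} {ρ : ℝ} (hρ : 0 < ρ)
    (hp : ∀ y ∈ ball (0 : P2) ρ, |y.2| < y.1 → 0 < ζ y) {m : ℕ} (hm : 2 ≤ m) {c : ℂ}
    (hl : Lead ζ 0 T0 m c) {t : ℝ} (ht : |t| < m * (π / 4)) :
    0 ≤ c.re * Real.cos t - c.im * Real.sin t := by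
  obtain ⟨-, C, δ, hδ, hl⟩ := hl
  have hm0 : (0 : ℝ) < m := by exact_mod_cast (by omega : 0 < m)
  set θ := t / m with hθ
  have hθ1 : |θ| < π / 4 := by
    rw [hθ, abs_div, abs_of_pos hm0, div_lt_iff₀ hm0]; linarith
  have hsc : |Real.sin θ| < Real.cos θ := by
    have k1 : |Real.sin θ| = Real.sin |θ| := by
      rcases abs_choice θ with e | e
      · rw [e, abs_of_nonneg (Real.sin_nonneg_of_nonneg_of_le_pi (abs_eq_self.1 e)
          (by linarith [Real.pi_pos, le_abs_self θ]))]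
      · rw [e, Real.sin_neg, abs_of_nonpos (Real.sin_nonpos_of_nonpos_of_neg_pi_le
          (abs_eq_neg_self.1 e) (by linarith [Real.pi_pos, neg_abs_le θ]))]
    rw [k1, ← Real.cos_abs θ, ← Real.cos_pi_div_two_sub]
    exact Real.cos_lt_cos_of_nonneg_of_le_pi (abs_nonneg _)
      (by linarith [Real.pi_pos, abs_nonneg θ]) (by linarith)
  have key : ∀ s ∈ Ioo (0 : ℝ) (min δ ρ),
      -(C * s) ≤ c.re * Real.cos t - c.im * Real.sin t := fun s hs => by
    have n1 : ‖(s : ℂ) * Complex.exp (θ * Complex.I)‖ = s := by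
      rw [norm_mul, Complex.norm_exp_ofReal_mul_I, mul_one, Complex.norm_of_nonneg hs.1.le]
    obtain ⟨-, k1, -⟩ := hl (s * Complex.exp (θ * Complex.I))
      (by rw [n1]; exact hs.2.trans_le (min_le_left _ _))
    have e1 : T0 (s * Complex.exp (θ * Complex.I)) = (s * Real.cos θ, s * Real.sin θ) := by
      simp [T0_apply, Complex.exp_ofReal_mul_I_re, Complex.exp_ofReal_mul_I_im]
    have e2 : (c * (s * Complex.exp (θ * Complex.I)) ^ m).re =
        s ^ m * (c.re * Real.cos t - c.im * Real.sin t) := by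
      have : (m : ℂ) * (θ * Complex.I) = t * Complex.I := by
        rw [← mul_assoc, ← Complex.ofReal_natCast, ← Complex.ofReal_mul, hθ,
          mul_div_cancel₀ _ hm0.ne']
      rw [mul_pow, ← Complex.exp_nat_mul, this, mul_left_comm, ← Complex.ofReal_pow,
        Complex.re_ofReal_mul, Complex.mul_re, Complex.exp_ofReal_mul_I_re,
        Complex.exp_ofReal_mul_I_im]
    have hs2 : s < ρ := hs.2.trans_le (min_le_right _ _)
    have k2 := hp (s * Real.cos θ, s * Real.sin θ) (mem_ball0.2 ⟨?_, ?_⟩) ?_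
    · rw [n1, e1, e2, zero_add] at k1
      have k3 := (abs_le.1 k1).2
      have k4 : 0 < s ^ m := pow_pos hs.1 m
      refine le_of_mul_le_mul_left ?_ k4
      rw [pow_succ] at k3
      linarith
    · simp only [abs_mul, abs_of_pos hs.1]
      nlinarith [Real.abs_cos_le_one θ, hs.1]
    · simp only [abs_mul, abs_of_pos hs.1]
      nlinarith [Real.abs_sin_le_one θ, hs.1]
    · simp only [abs_mul, abs_of_pos hs.1]
      exact mul_lt_mul_of_pos_left hsc hs.1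
  have t1 : Tendsto (fun s : ℝ => -(C * s)) (𝓝[>] 0) (𝓝 0) :=
    Tendsto.mono_left (Continuous.tendsto' (by fun_prop) _ _ (by simp)) nhdsWithin_le_nhds
  exact le_of_tendsto t1 (Filter.mem_of_superset (Ioo_mem_nhdsGT (lt_min hδ hρ)) key)

theorem along {f : P2 → ℝ} (hf : DifferentiableAt ℝ f 0) :
    HasDerivAt (fun s : ℝ => f (s, 0)) (d1 f 0) 0 := by
  have h1 : HasDerivAt (fun s : ℝ => ((s, 0) : P2)) (1, 0) 0 :=
    (hasDerivAt_id 0).prodMk (hasDerivAt_const _ _)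
  exact HasFDerivAt.comp_hasDerivAt_of_eq 0 hf.hasFDerivAt h1 rfl

theorem lead_two {ζ : P2 → ℝ} {c : ℂ} (hl : Lead ζ 0 T0 2 c)
    (hd : DifferentiableAt ℝ (d1 ζ) 0) : d1 (d1 ζ) 0 = 2 * c.re := by
  obtain ⟨-, C, δ, hδ, hl⟩ := hl
  have key : ∀ s : ℝ, |s| < δ → |d1 ζ (s, 0) - 2 * c.re * s| ≤ C * s ^ 2 := fun s hs => by
    have := (hl s (by simpa using hs)).2.2 1
    simpa [T0_apply, d1, mul_comm, mul_left_comm] using this
  have h0 : d1 ζ (0, 0) = 0 := by simpa using key 0 (by simpa using hδ)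
  refine (along hd).unique (hasDerivAt_iff_isLittleO_nhds_zero.2 ?_)
  refine Asymptotics.IsBigO.trans_isLittleO (g := fun s : ℝ => s ^ 2)
    (Asymptotics.IsBigO.of_bound C ?_) (Asymptotics.isLittleO_pow_id one_lt_two)
  filter_upwards [ball_mem_nhds (0 : ℝ) hδ] with s hs
  simpa [h0, mul_comm s] using key s (by simpa using hs)

theorem hess (hD : DerS) (hC : ChartS) (hO : TouchS) {a : ℝ} {u ζ : P2 → ℝ} {ρ : ℝ} {L : ℝ≥0}
    (hρ : 0 < ρ) (h : PExt a u ζ ρ L) : ζ 0 = 0 ∧ fderiv ℝ ζ 0 = 0 ∧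
    0 < d1 (d1 ζ) 0 ∧ d1 (d2 ζ) 0 = 0 ∧ d2 (d2 ζ) 0 = -d1 (d1 ζ) 0 := by
  have b0 : (0 : P2) ∈ ball (0 : P2) ρ := mem_ball_self hρ
  have z0 : ζ 0 = 0 := by
    have : ζ 0 = -ζ 0 := h.anti 0
    linarith
  obtain ⟨a1, a2, -⟩ := hD ζ 0 (h.sol.1 0 b0)
  have od : ∀ s : ℝ, ((s, 0) : P2) ∈ ball (0 : P2) ρ → d2 ζ (s, 0) = 0 := fun s hs => by
    have hf := (h.sol.1 _ hs).differentiableAt.hasFDerivAt
    have k1 : HasDerivAt (fun t : ℝ => ζ (s, t)) (d2 ζ (s, 0)) 0 :=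
      HasFDerivAt.comp_hasDerivAt_of_eq 0 hf ((hasDerivAt_const _ _).prodMk (hasDerivAt_id 0)) rfl
    have k2 : HasDerivAt (fun t : ℝ => ζ (s, -t)) (d2 ζ (s, 0) * -1) 0 :=
      HasDerivAt.comp_of_eq 0 k1 (hasDerivAt_neg (0 : ℝ)) neg_zero.symm
    have k3 : (fun t : ℝ => ζ (s, -t)) = fun t => ζ (s, t) := funext fun t => h.ev2 (s, t)
    rw [k3] at k2
    linarith [k1.unique k2]
  have z2 : d2 ζ 0 = 0 := od 0 b0
  have z1 : d1 ζ 0 = 0 := by
    have k1 := along (h.sol.1 0 b0).differentiableAt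
    have k2 : HasDerivAt (fun t : ℝ => ζ (-t, 0)) (d1 ζ 0 * -1) 0 :=
      HasDerivAt.comp_of_eq 0 k1 (hasDerivAt_neg (0 : ℝ)) neg_zero.symm
    have k3 : (fun t : ℝ => ζ (-t, 0)) = fun t => ζ (t, 0) := funext fun t => h.ev1 (t, 0)
    rw [k3] at k2
    linarith [k1.unique k2]
  have z3 : fderiv ℝ ζ 0 = 0 := ContinuousLinearMap.ext fun v => by simp [lin_d, z1, z2]
  have z4 : d1 (d2 ζ) 0 = 0 := by
    refine (along a2.differentiableAt).unique ((hasDerivAt_const (0 : ℝ) (0 : ℝ)).congr_of_eventuallyEq ?_)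
    filter_upwards [ball_mem_nhds (0 : ℝ) hρ] with s hs
    exact od s (mem_ball0.2 ⟨by simpa using hs, by simpa using hρ⟩)
  have z5 : d2 (d2 ζ) 0 = -d1 (d1 ζ) 0 := by
    have := h.sol.2 0 b0
    simp [gAt, gOp, z0, z1, z2] at this
    linarith
  refine ⟨z0, z3, ?_, z4, z5⟩
  have hp : ∀ y ∈ ball (0 : P2) ρ, |y.2| < y.1 → 0 < ζ y := fun y hy k => (h.mem y hy k).1
  rcases hO.lead _ O0 ρ ζ ⟨hρ, h.sol, z0, z3, (hC.graph O0 ζ _ isOpen_ball h.sol).2.rel⟩ with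
    k | ⟨m, c, hm, hl⟩
  · have t1 : Tendsto (fun s : ℝ => ((s, 0) : P2)) (𝓝[>] 0) (𝓝 0) :=
      Tendsto.mono_left (Continuous.tendsto' (by fun_prop) _ _ rfl) nhdsWithin_le_nhds
    obtain ⟨s, ⟨k1, k2⟩, k3⟩ := (((t1.eventually k).and
      (t1.eventually (isOpen_ball.mem_nhds b0))).and self_mem_nhdsWithin).exists
    exact absurd k1 (hp _ k2 (by simpa using k3)).ne'
  have nn := fun t ht => lead_nonneg hρ hp hm hl (t := t) ht
  have hm' : (2 : ℝ) ≤ m := by exact_mod_cast hm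
  have pp := Real.pi_pos
  have n0 : 0 ≤ c.re := by simpa using nn 0 (by simp; positivity)
  have n1 : 0 < c.re := n0.lt_of_ne fun e => by
    have k1 := nn (π / 4) (by rw [abs_of_pos (by positivity)]; nlinarith)
    have k2 := nn (-(π / 4)) (by rw [abs_neg, abs_of_pos (by positivity)]; nlinarith)
    have k3 : 0 < Real.sin (π / 4) := by rw [Real.sin_pi_div_four]; positivity
    rw [← e, zero_mul, zero_sub] at k1 k2
    rw [Real.sin_neg] at k2
    exact hl.1 (Complex.ext e.symm (by simp only [Complex.zero_im]; nlinarith))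
  rcases hm.eq_or_lt with rfl | hm3
  · rw [lead_two hl a1.differentiableAt]; linarith
  · have hm' : (3 : ℝ) ≤ m := by exact_mod_cast hm3
    have k1 := nn (π - π / 3) (by rw [abs_of_pos (by linarith)]; nlinarith)
    have k2 := nn (-(π - π / 3)) (by rw [abs_neg, abs_of_pos (by linarith)]; nlinarith)
    rw [Real.cos_neg, Real.sin_neg] at k2
    rw [Real.cos_pi_sub, Real.cos_pi_div_three] at k1 k2
    linarith

end EWedge

open EWedge in
theorem pextS (hG : RegS) (hW : CWS) (hRem : RemS) (hD : DerS) (hC : ChartS) (hO : TouchS)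
    (hT : TetS) (hE : WedgeS) : PextS where
  ex := fun μ a₀ hμ ha₀ => by
    have h1 : 0 < √(1 - μ) := Real.sqrt_pos.2 (sub_pos.2 hμ)
    have h2 : √(1 - μ) ^ 2 = 1 - μ := Real.sq_sqrt (sub_pos.2 hμ).le
    obtain ⟨L, hL⟩ := hE √(1 - μ) μ a₀ h1 (by
      rw [h2, lt_div_iff₀ (by linarith)]; nlinarith) ha₀
    refine ⟨√(1 - μ) / 2, by positivity, L + L, fun a u ha hu h0 => ?_⟩
    obtain ⟨ζ, hζ⟩ := hL √2 a (du u) ha (hT.dual.1 _ _ _ hu) (by
      rw [(hT.dual.2 u 0).1, aa_sw (by rw [gX, LinearIsometryEquiv.norm_map, norm_gn])]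
      exact h0)
    exact ⟨_, pext hG hW hRem hT (by nlinarith) hζ⟩
  hess := fun _ _ _ _ _ hρ _ h => hess hD hC hO hρ h
  uniq := fun _ _ _ _ _ _ _ _ h h' => uniq h h'
  val := fun l _ ζ ρ L hρ h => by
    have hex : ∃ ζ, ∃ ρ > 0, ∃ L, PExt (aL l) (lf l) ζ ρ L := ⟨ζ, ρ, hρ, L, h⟩
    obtain ⟨ρ', hρ', L', h'⟩ := hex.choose_spec
    have e : ζ =ᶠ[𝓝 0] hex.choose :=
      Filter.mem_of_superset (ball_mem_nhds _ (lt_min hρ hρ')) (uniq h h')
    rw [cL, pz, dif_pos hex, (d1_congr (d1_congr e)).eq_of_nhds]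
    ring
  mono := fun _ _ _ _ _ _ hρ h =>
    ⟨sol_mono h.sol (ball_subset_ball hρ), h.lip.mono (ball_subset_ball hρ), h.ev1, h.ev2, h.anti,
      fun y hy => h.mem y (ball_subset_ball hρ hy),
      fun x hx y hy => h.conv x hx y (ball_subset_ball hρ hy)⟩

end Pool.Agent.Lib.MP_16d934_gt
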