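import Pool.Agent.Lib.MP_16d934_gt.DQc
import Pool.Agent.Lib.MP_16d934_gt.DNorm

/-! The case in which the quotient by the product of the two reflections has genus zero. -/

set_option autoImplicit false

open Set Metric Filter Topology
open scoped InnerProductSpace Real

noncomputable section

namespace Pool.Agent.Lib.MP_16d934_gt

namespace Hyp

open DQc

theorem rt_0 (x : E4) : rf0 (rf1 x) 0 = -x 0 := by simp [rf0, rf1, mkO_apply]

theorem rt_1 (x : E4) : rf0 (rf1 x) 1 = -x 1 := by simp [rf0, rf1, mkO_apply]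

theorem rf0_1 (x : E4) : rf0 x 1 = x 1 := by simp [rf0, mkO_apply]

variable {S : Set E4} {F : E4 → DNorm.E3}

theorem inj (Fi : ∀ x ∈ S, ∀ y ∈ S, F x = F y ↔ y = x ∨ y = rf0 (rf1 x)) : InjOn F (Dq S) :=
  fun x hx y hy e => by
    rcases (Fi x hx.1 y hy.1).1 e with e | e
    · exact e.symm
    · have a := hy.2.1
      have b := hy.2.2
      rw [e, rt_0] at a
      rw [e, rt_1] at b
      rw [e, rf1_fix (by linarith [hx.2.2]), DNorm.rf0_fix.2 (by linarith [hx.2.1])]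

theorem plan {q : DNorm.E3} (hq : ‖q‖ = 1) : Planar {x : DNorm.E3 | ‖x‖ = 1 ∧ x ≠ q} := by
  obtain ⟨a, s, ac, -, -, -, sa⟩ := DNorm.stereo hq
  exact ⟨a, ac, fun x hx y hy e => by rw [← sa x hx.1 hx.2, e, sa y hy.1 hy.2]⟩

theorem two (hC : ChartS) (hL : LocS) (hP : PlanS) (hS : Sym S) (Fc : ContinuousOn F S)
    (F1 : ∀ x ∈ S, ‖F x‖ = 1) (Fi : ∀ x ∈ S, ∀ y ∈ S, F x = F y ↔ y = x ∨ y = rf0 (rf1 x))
    {p b : E4} (hp : p ∈ Bd S) (p1 : p 1 = 0) (p0 : 0 < p 0) (hb : b ∈ Bd S) :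
    JoinedIn (Bd S) p b := by
  by_contra hcon
  obtain ⟨-, hK, hA⟩ := hL.one S hS
  obtain ⟨-, O, δ, u, e0, e2, -, hc, -⟩ := hL.arc S hS p hp.1 p1 _
    (hC.nor_spec S hS.minimal p hp.1).1
  have hm := chart_map hC hc
  have hz := gX_zero hc
  rw [e0] at hm hz
  have h1 : ∀ᶠ w in 𝓝[S] p, w ∈ S ∧ 0 < w 0 := eventually_mem_nhdsWithin.and
    (mem_nhdsWithin_of_mem_nhds ((cont_co 0).continuousAt.eventually_const_lt p0))
  rw [← hm, eventually_map] at h1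
  obtain ⟨r, hr, hr'⟩ := Metric.eventually_nhds_iff_ball.1 (h1.and (ball_mem_nhds _ hc.pos))
  set d := r / 2 with hd
  have d0 : 0 < d := half_pos hr
  have dr : d < r := half_lt_self hr
  set κ : ℂ → E4 := fun ζ => gX O u (ζ.re, ζ.im) with hκ
  have hin : ∀ ζ ∈ closedBall (0 : ℂ) d, ((ζ.re, ζ.im) : P2) ∈ ball (0 : P2) r := by
    intro ζ hζ
    rw [mem_closedBall_zero_iff] at hζ
    rw [mem_ball_zero_iff, Prod.norm_def]
    exact (max_le ((Complex.abs_re_le_norm ζ).trans hζ) ((Complex.abs_im_le_norm ζ).trans hζ)).trans_lt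
      dr
  have kc : ContinuousOn κ (closedBall 0 d) :=
    (cont_gX O hc.sol.1.continuousOn).comp (by fun_prop) fun ζ hζ => (hr' _ (hin ζ hζ)).2
  have ki : InjOn κ (closedBall 0 d) := fun ζ _ ζ' _ h => by
    have := inj_gX O u h
    exact Complex.ext (congrArg Prod.fst this) (congrArg Prod.snd this)
  have kS : ∀ ζ ∈ closedBall (0 : ℂ) d, κ ζ ∈ S ∧ 0 < κ ζ 0 := fun ζ hζ => (hr' _ (hin ζ hζ)).1
  have k1 : ∀ ζ : ℂ, ∃ s > 0, κ ζ 1 = s * ζ.im := fun ζ => ⟨_, rr_pos _ _, co_gn2 e2 _ _⟩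
  have k0 : κ 0 = p := hz
  set c : ℝ → E4 := fun t => κ ((d * t : ℝ) : ℂ) with hcd
  have cin : ∀ t ∈ Icc (-1 : ℝ) 1, ((d * t : ℝ) : ℂ) ∈ closedBall (0 : ℂ) d := by
    intro t ht
    rw [mem_closedBall_zero_iff, Complex.norm_real, Real.norm_eq_abs, abs_mul, abs_of_pos d0]
    exact mul_le_of_le_one_right d0.le (abs_le.2 ht)
  have c0 : c 0 = p := by simp only [hcd, mul_zero, Complex.ofReal_zero, k0]
  have cc : ContinuousOn c (Icc (-1) 1) := kc.comp (by fun_prop) cin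
  have ci : InjOn c (Icc (-1) 1) := fun t ht t' ht' h =>
    mul_left_cancel₀ d0.ne' (Complex.ofReal_injective (ki (cin t ht) (cin t' ht') h))
  have c1 : ∀ t, c t 1 = 0 := fun t => by
    obtain ⟨s, -, h⟩ := k1 ((d * t : ℝ) : ℂ)
    rw [Complex.ofReal_im, mul_zero] at h
    exact h
  have cB : c '' Icc (-1) 1 ⊆ pathComponentIn (Bd S) p := by
    refine sub_comp (arc_pc cc (by norm_num) le_rfl le_rfl) ?_ ⟨0, zero_mem, c0⟩
      (mem_pathComponentIn_self hp)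
    rintro _ ⟨t, ht, rfl⟩
    exact ⟨(kS _ (cin t ht)).1, (kS _ (cin t ht)).2.le, (c1 t).ge, Or.inr (c1 t)⟩
  have cn : c '' Icc (-1) 1 ∈ 𝓝[pathComponentIn (Bd S) p] (c 0) := by
    obtain ⟨V, hV, hVe⟩ := hc.rel (ball 0 d)
      (fun y hy => (hr' y (ball_subset_ball dr.le hy)).2) isOpen_ball
    have hpV : p ∈ S ∩ V := hVe ▸ ⟨0, mem_ball_self d0, hz⟩
    rw [c0]
    refine eventually_nhdsWithin_iff.2 ?_
    filter_upwards [hV.mem_nhds hpV.2, (cont_co 0).continuousAt.eventually_const_lt p0]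
      with z hzV hz0 hzB
    have hzB' : z ∈ Bd S := pathComponentIn_subset hzB
    obtain ⟨y, hy, rfl⟩ : z ∈ gX O u '' ball 0 d := hVe ▸ ⟨hzB'.1, hzV⟩
    have h2 : y.2 = 0 := by
      have := hzB'.2.2.2.resolve_left hz0.ne'
      rw [gX, co_gn2 e2] at this
      exact (mul_eq_zero.1 this).resolve_left (rr_pos _ _).ne'
    have h3 : |y.1| ≤ d := (norm_fst_le y).trans (mem_ball_zero_iff.1 hy).le
    refine ⟨y.1 / d, abs_le.1 ?_, ?_⟩
    · rw [abs_div, abs_of_pos d0]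
      exact div_le_one_of_le₀ h3 d0.le
    · simp only [hcd, hκ, Complex.ofReal_re, Complex.ofReal_im, mul_div_cancel₀ _ d0.ne']
      rw [← h2]
  have hj := hP.one _ (hK.of_isClosed_subset (comp_closed hA hK.isClosed p)
    pathComponentIn_subset) (comp_arcs hA p) c cc ci (fun t ht => cB ⟨t, ht, rfl⟩) cn
  rw [c0] at hj
  have sp : ∀ s ∈ Icc (0 : ℝ) d, ∀ ω : ℂ, ‖ω‖ = 1 → (s : ℂ) * ω ∈ closedBall (0 : ℂ) d := by
    intro s hs ω hω
    rw [mem_closedBall_zero_iff, norm_mul, hω, mul_one, Complex.norm_real, Real.norm_eq_abs,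
      abs_of_nonneg hs.1]
    exact hs.2
  have dB : ∀ s ∈ Icc (0 : ℝ) d, ∀ ω : ℂ, ‖ω‖ = 1 → ω.im ≠ 0 →
      κ (s * ω) ∉ pathComponentIn (Bd S) p \ {p} := by
    intro s hs ω hω hω' h
    have h2 : κ (s * ω) ∈ Bd S := pathComponentIn_subset h.1
    have h3 := h2.2.2.2.resolve_left (kS _ (sp s hs ω hω)).2.ne'
    obtain ⟨a, ha, h4⟩ := k1 (s * ω)
    rw [h4, Complex.im_ofReal_mul] at h3
    have h5 : s = 0 := by simpa [ha.ne', hω'] using h3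
    exact h.2 (by rw [h5, Complex.ofReal_zero, zero_mul, k0]; rfl)
  have dd : d ∈ Icc (0 : ℝ) d := ⟨d0.le, le_rfl⟩
  have hpi := Real.pi_pos
  obtain ⟨A, hAd⟩ : ∃ A, A = insert b {z | z ∈ S ∧ z 0 ≠ 0 ∧ z 1 ≠ 0} := ⟨_, rfl⟩
  have AS : A ⊆ S := hAd ▸ insert_subset hb.1 fun z hz => hz.1
  have L1 : ∀ z ∈ A, ∀ w ∈ Bd S, F z = F w → w = b := by
    rw [hAd]
    rintro z (rfl | h) w hw e
    · exact (inj Fi (bd_sub hb) (bd_sub hw) e).symm
    · rcases (Fi z h.1 w hw.1).1 e with rfl | rfl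
      · exact (hw.2.2.2.elim h.2.1 h.2.2).elim
      · exact (hw.2.2.2.elim (fun k => h.2.1 (neg_eq_zero.1 ((rt_0 z).symm.trans k)))
          fun k => h.2.2 (neg_eq_zero.1 ((rt_1 z).symm.trans k))).elim
  have L2 : ∀ w ∈ Bd S, ∀ ζ ∈ closedBall (0 : ℂ) d, F w = F (κ ζ) → κ ζ = w := fun w hw ζ hζ e =>
    ((Fi w hw.1 _ (kS ζ hζ).1).1 e).resolve_right fun k => by
      have := (kS ζ hζ).2
      rw [k, rt_0] at this
      linarith [hw.2.1]
  obtain ⟨q, hq, qb⟩ : ∃ q ∈ pathComponentIn (Bd S) b, q ≠ b := by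
    obtain ⟨e, e0, ec, ei, em, -⟩ := hA b hb
    have o : (1 : ℝ) ∈ Icc (-1 : ℝ) 1 := ⟨by norm_num, le_rfl⟩
    exact ⟨e 1, sub_comp (arc_pc ec (by norm_num) le_rfl le_rfl) em.image_subset ⟨0, zero_mem, e0⟩
      (mem_pathComponentIn_self hb) ⟨1, o, rfl⟩, fun k => one_ne_zero (ei o zero_mem (k.trans e0.symm))⟩
  have qB : q ∈ Bd S := pathComponentIn_subset hq
  have qp : q ∉ pathComponentIn (Bd S) p := fun k => hcon (JoinedIn.trans k (JoinedIn.symm hq))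
  have dA : ∀ t ∈ Icc (-1 : ℝ) 1, F (c t) ∉ F '' A := by
    rintro t ht ⟨z, hz, e⟩
    exact hcon (L1 z hz _ (pathComponentIn_subset (cB ⟨t, ht, rfl⟩)) e ▸ cB ⟨t, ht, rfl⟩)
  have dB' : ∀ s ∈ Icc (0 : ℝ) d, ∀ ω : ℂ, ‖ω‖ = 1 → ω.im ≠ 0 →
      F (κ (s * ω)) ∉ F '' (pathComponentIn (Bd S) p \ {p}) := by
    rintro s hs ω h1 h2 ⟨w, hw, e⟩
    exact dB s hs ω h1 h2 (L2 w (pathComponentIn_subset hw.1) _ (sp s hs ω h1) e ▸ hw)
  refine hP.int _ _ (fun ζ => F (κ ζ)) d (π / 2) π (π + π / 2) (2 * π) (F '' A)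
    (F '' (pathComponentIn (Bd S) p \ {p})) (plan (F1 q qB.1)) d0
    (Fc.comp kc fun ζ hζ => (kS ζ hζ).1) (fun ζ hζ ζ' hζ' e => ki hζ hζ' ?_)
    (fun ζ hζ => ⟨F1 _ (kS ζ hζ).1, fun e => qp ?_⟩) (by linarith) (by linarith) (by linarith)
    (by linarith) ?_ ?_ ?_ ?_ ?_ ?_ ?_ ?_ ?_
  · refine (((Fi _ (kS ζ hζ).1 _ (kS ζ' hζ').1).1 e).resolve_right fun k => ?_).symm
    have := (kS ζ' hζ').2
    rw [k, rt_0] at this
    linarith [(kS ζ hζ).2]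
  · have e1 := L2 q qB ζ hζ e.symm
    have e2 : q 1 = 0 := qB.2.2.2.resolve_left (e1 ▸ (kS ζ hζ).2.ne')
    obtain ⟨a, ha, h4⟩ := k1 ζ
    rw [e1, e2] at h4
    have e3 : ζ.im = 0 := (mul_eq_zero.1 h4.symm).resolve_left ha.ne'
    have e4 : |ζ.re| ≤ d := (Complex.abs_re_le_norm ζ).trans (mem_closedBall_zero_iff.1 hζ)
    refine cB ⟨ζ.re / d, abs_le.1 ?_, ?_⟩
    · rw [abs_div, abs_of_pos d0]
      exact div_le_one_of_le₀ e4 d0.le
    · rw [← e1]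
      simp only [hcd, hκ, Complex.ofReal_re, Complex.ofReal_im, mul_div_cancel₀ _ d0.ne', e3]
  · rintro _ ⟨z, hz, rfl⟩
    exact ⟨F1 z (AS hz), fun e => qb (L1 z hz q qB e)⟩
  · rintro _ ⟨z, hz, rfl⟩
    have zB : z ∈ Bd S := pathComponentIn_subset hz.1
    exact ⟨F1 z zB.1, fun e => qp (inj Fi (bd_sub zB) (bd_sub qB) e ▸ hz.1)⟩
  · rw [cis1, cis3]
    have u1 : κ (d * Complex.I) ∈ Do S := by
      obtain ⟨a, ha, h4⟩ := k1 (d * Complex.I)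
      have := kS _ (sp d dd Complex.I Complex.norm_I)
      refine ⟨this.1, this.2, ?_⟩
      rw [h4]
      simpa using mul_pos ha d0
    have u3 := kS _ (sp d dd (-Complex.I) (by simp))
    have u2 : rf1 (κ (d * -Complex.I)) ∈ Do S := by
      obtain ⟨a, ha, h4⟩ := k1 (d * -Complex.I)
      refine ⟨hS.r1 _ u3.1, by rw [rf1_0]; exact u3.2, ?_⟩
      rw [rf1_1, h4]
      simpa using mul_pos ha d0
    have hsub : insert b (Do S) ⊆ A :=
      hAd ▸ insert_subset_insert fun z hz => ⟨hz.1, hz.2.1.ne', hz.2.2.ne'⟩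
    refine (((up_joined hL hS u1 (bd_sub hb)).mono hsub).map_continuousOn (Fc.mono AS)).trans ?_
    rcases hb.2.2.2 with b0 | b1
    · have h2 := (up_joined hL hS u2 (bd_sub hb)).symm.map rf0.continuous
      rw [DNorm.rf0_fix.2 b0] at h2
      rw [(Fi _ u3.1 _ (hS.r0 _ u2.1)).2 (.inr rfl)]
      refine (h2.mono ?_).map_continuousOn (Fc.mono AS)
      rw [hAd]
      rintro _ ⟨z, hz | hz, rfl⟩
      · rw [hz, DNorm.rf0_fix.2 b0]
        exact mem_insert _ _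
      · exact mem_insert_of_mem _ ⟨hS.r0 _ hz.1, by
          rw [DNorm.rf0_zero]; exact neg_ne_zero.2 hz.2.1.ne', by rw [rf0_1]; exact hz.2.2.ne'⟩
    · have h2 := (up_joined hL hS u2 (bd_sub hb)).symm.map rf1.continuous
      rw [rf1_rf1, rf1_fix b1] at h2
      refine (h2.mono ?_).map_continuousOn (Fc.mono AS)
      rw [hAd]
      rintro _ ⟨z, hz | hz, rfl⟩
      · rw [hz, rf1_fix b1]
        exact mem_insert _ _
      · exact mem_insert_of_mem _ ⟨hS.r1 _ hz.1, by rw [rf1_0]; exact hz.2.1.ne', by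
          rw [rf1_1]; exact neg_ne_zero.2 hz.2.2.ne'⟩
  · rw [cis2, cis4]
    simpa [hcd] using hj.symm.map_continuousOn
      (Fc.mono fun z hz => (pathComponentIn_subset hz.1 : z ∈ Bd S).1)
  · refine disjoint_left.2 ?_
    rintro _ ⟨z, hz, rfl⟩ ⟨w, hw, e⟩
    exact hcon (L1 z hz w (pathComponentIn_subset hw.1) e.symm ▸ hw.1)
  · refine disjoint_right.2 ?_
    rintro _ ⟨s, hs, rfl⟩
    simpa only [hcd, cis2, mul_neg, mul_div_cancel₀ _ d0.ne', Complex.ofReal_neg, mul_one] using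
      dA (-(s / d)) ⟨neg_le_neg (div_le_one_of_le₀ hs.2 d0.le), by
        linarith [div_nonneg hs.1 d0.le]⟩
  · refine disjoint_right.2 ?_
    rintro _ ⟨s, hs, rfl⟩
    simpa only [hcd, cis4, mul_div_cancel₀ _ d0.ne', mul_one] using
      dA (s / d) ⟨by linarith [div_nonneg hs.1 d0.le], div_le_one_of_le₀ hs.2 d0.le⟩
  · refine disjoint_right.2 ?_
    rintro _ ⟨s, hs, rfl⟩
    simp only [cis1]
    exact dB' s hs _ Complex.norm_I (by simp)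
  · refine disjoint_right.2 ?_
    rintro _ ⟨s, hs, rfl⟩
    simp only [cis3]
    exact dB' s hs _ (by simp) (by simp)

theorem ex_pt (hC : ChartS) (hL : LocS) (hS : Sym S) : ∃ p ∈ Bd S, p 1 = 0 ∧ 0 < p 0 := by
  obtain ⟨x, hx, x1⟩ : ∃ x ∈ S, x 1 = 0 := by
    obtain ⟨x, hx⟩ := hS.conn.1
    have := hS.r1 x hx
    rcases le_total (x 1) 0 with l | l
    · exact hS.conn.2.intermediate_value hx this (cont_co 1).continuousOn
        ⟨l, by simpa [rf1_1] using l⟩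
    · exact hS.conn.2.intermediate_value this hx (cont_co 1).continuousOn
        ⟨by simpa [rf1_1] using l, l⟩
  rcases lt_trichotomy (x 0) 0 with l | l | l
  · have a : 0 < rf0 x 0 := by rw [DNorm.rf0_zero]; exact neg_pos.2 l
    have b : rf0 x 1 = 0 := (rf0_1 x).trans x1
    exact ⟨_, ⟨hS.r0 x hx, a.le, b.ge, .inr b⟩, b, a⟩
  · obtain ⟨O, δ, u, e0, e1, e2, -, -, hc, -, -⟩ := hL.corner S hS x hx l x1 _
      (hC.nor_spec S hS.minimal x hx).1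
    have hm := chart_map hC hc
    have h2 : ∀ᶠ w in 𝓝[S] (O (ee 0)), w ∈ S := eventually_mem_nhdsWithin
    rw [← hm, eventually_map] at h2
    have h3 : Tendsto (fun t : ℝ => ((t, 0) : P2)) (𝓝[>] 0) (𝓝 0) :=
      ((show Continuous fun t : ℝ => ((t, 0) : P2) by fun_prop).tendsto' 0 0 rfl).mono_left
        nhdsWithin_le_nhds
    obtain ⟨t, ht, ht0⟩ := ((h3.eventually h2).and eventually_mem_nhdsWithin).exists
    have c0 : 0 < gX O u (t, 0) 0 := by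
      rw [gX, co_gn1 e1]
      exact mul_pos (rr_pos _ _) ht0
    have c1 : gX O u (t, 0) 1 = 0 := by
      rw [gX, co_gn2 e2, mul_zero]
    exact ⟨_, ⟨ht, c0.le, c1.ge, .inr c1⟩, c1, c0⟩
  · exact ⟨x, ⟨hx, l.le, x1.ge, .inr x1⟩, x1, l⟩

theorem sym2 (hC : ChartS) (hL : LocS) (hP : PlanS) (hS : Sym S) (Fc : ContinuousOn F S)
    (F1 : ∀ x ∈ S, ‖F x‖ = 1) (Fi : ∀ x ∈ S, ∀ y ∈ S, F x = F y ↔ y = x ∨ y = rf0 (rf1 x)) :
    Sym2 S := by
  obtain ⟨-, hK, hA⟩ := hL.one S hS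
  obtain ⟨p, hp, p1, p0⟩ := ex_pt hC hL hS
  have hconn : IsPathConnected (Bd S) := ⟨p, hp, fun b hb => two hC hL hP hS Fc F1 Fi hp p1 p0 hb⟩
  refine ⟨hS, ?_, fun p hp => punct hP hK hA hconn.isConnected.isPreconnected hp, hconn, ?_⟩
  · obtain ⟨W, -, -, ⟨z, hz, -⟩, -⟩ := hL.lc S hS p (bd_sub hp) univ univ_mem
    obtain ⟨e, ec, ei⟩ := plan (F1 _ (hS.r0 z hz.1.1))
    have m : MapsTo F (Dq S) {x | ‖x‖ = 1 ∧ x ≠ F (rf0 z)} := fun x hx => ⟨F1 x hx.1, fun k => by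
      rcases (Fi x hx.1 _ (hS.r0 z hz.1.1)).1 k with k | k
      · have := hx.2.1
        rw [← k, DNorm.rf0_zero] at this
        linarith [hz.1.2.1]
      · have := hz.1.2.2
        rw [← rf0_1, k, rt_1] at this
        linarith [hx.2.2]⟩
    exact ⟨fun x => e (F x), ec.comp (Fc.mono fun x hx => hx.1) m,
      fun x hx y hy k => inj Fi hx hy (ei (m hx) (m hy) k)⟩
  · obtain ⟨x, hx, x0⟩ := DNorm.mirror hS
    obtain ⟨y, hy, -, y0, -⟩ := hL.fold S hS x hx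
    rw [x0, abs_zero] at y0
    obtain ⟨z, hz, z0, z1⟩ := isPreconnected_closed_iff.1 hconn.isConnected.isPreconnected
      {z | z 0 = 0} {z | z 1 = 0} (isClosed_eq (cont_co 0) continuous_const)
      (isClosed_eq (cont_co 1) continuous_const) (fun z hz => hz.2.2.2)
      ⟨y, ⟨hy.1, hy.2.1, hy.2.2, .inl y0⟩, y0⟩ ⟨p, hp, p1⟩
    exact ⟨z, hz.1, z0, z1⟩

open DNorm in
/-- normal form when the two other involutions of the group are the separating ones -/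
theorem norm (hC : ChartS) (hT : TouchS) (hI : InvS) (h2 : TwoS) (hH : HomS) (hL : LocS)
    (hP : PlanS) {γ : ℕ} (hγ : 1 ≤ γ) (h : ClosedMin γ S) (σ ρ : Iso) (iσ : ∀ x, σ (σ x) = x)
    (iρ : ∀ x, ρ (ρ x) = x) (comm : ∀ x, σ (ρ x) = ρ (σ x)) (mσ : σ '' S = S) (mρ : ρ '' S = S)
    (eσ : ∃ x ∈ S, σ x ≠ x) (eρ : ∃ x ∈ S, ρ x ≠ x) (ne : ∃ x, σ x ≠ ρ x)
    (sσ : ¬ IsPreconnected (S \ {x | σ x = x})) (sρ : ¬ IsPreconnected (S \ {x | ρ x = x}))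
    (Fc : ContinuousOn F S) (F1 : ∀ x ∈ S, ‖F x‖ = 1)
    (Fi : ∀ x ∈ S, ∀ y ∈ S, F x = F y ↔ y = x ∨ y = σ (ρ x)) : ∃ g : Iso, Sym2 (g '' S) := by
  have ng := ngeo hC hT hH hγ h
  obtain ⟨hm, hc, hk, -⟩ := h
  obtain ⟨v, v1, hσ⟩ := is_refl h2 hm hc ng σ iσ mσ eσ sσ
  obtain ⟨w, w1, hρ⟩ := is_refl h2 hm hc ng ρ iρ mρ eρ sρ
  obtain ⟨y, hy⟩ := ne
  obtain ⟨g, g0, g1, gv, gw⟩ := frame v1 w1 (orth v1 w1 hσ hρ comm hy)
  have e0 : ∀ x, rf0 (g x) = g (σ x) := fun x => by rw [rf0_eq, hσ, map_sub, map_smul, g0, gv]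
  have e1 : ∀ x, rf1 (g x) = g (ρ x) := fun x => by rw [rf1_eq, hρ, map_sub, map_smul, g1, gw]
  have sym : Sym (g '' S) := by
    refine ⟨hI.min g S hm, hc.image g.continuous, hk.image _ g.continuous.continuousOn, ?_, ?_,
      fun u hu => ?_⟩
    · rintro _ ⟨x, hx, rfl⟩
      exact ⟨σ x, mσ ▸ mem_image_of_mem _ hx, (e0 x).symm⟩
    · rintro _ ⟨x, hx, rfl⟩
      exact ⟨ρ x, mρ ▸ mem_image_of_mem _ hx, (e1 x).symm⟩
    · obtain ⟨x, hx, n⟩ := ng (g.symm u) (by simpa using hu)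
      exact ⟨g x, ⟨x, hx, rfl⟩, by rwa [← g.inner_map_map, g.apply_symm_apply] at n⟩
  refine ⟨g, sym2 hC hL hP sym (F := fun x => F (g.symm x))
    (Fc.comp g.symm.continuous.continuousOn ?_) ?_ ?_⟩
  · rintro _ ⟨x, hx, rfl⟩
    simpa using hx
  · rintro _ ⟨x, hx, rfl⟩
    simpa using F1 x hx
  · rintro _ ⟨x, hx, rfl⟩ _ ⟨y, hy, rfl⟩
    simp only [g.symm_apply_apply, e1, e0, g.injective.eq_iff]
    exact Fi x hx y hy

/-- a surface in normal form is the Lawson surface -/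
theorem last (hT : TouchS) (hI : InvS) (hH : HomS) (hS : StarS) (hC : CoinS) (hTet : TetS)
    (hLf : LfS) (hLaw : LawS) (hOrb : OrbS) (h1 : Sp1S) (h2 : Sp2S) (h3 : Sp3S) {γ : ℕ}
    (hγ : 1 ≤ γ) {M : Set E4} (hM : LawsonDisc γ M) (hS' : ClosedMin γ S) (g₀ : Iso)
    (hs2 : Sym2 (g₀ '' S)) : ∃ g : Iso, g '' {x | Orbit γ M x} = S := by
  obtain rfl := (hLaw γ hγ M).1 hM
  obtain ⟨H, n, t, hst⟩ := hS _ hs2
  obtain ⟨l, hl, g, hg, V, hVo, ⟨y₀, hy₀⟩, hVs, hV⟩ := hC _ Lam cL hs2 h1.1 h2 h3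
  set S₁ := g₀ '' S with hS₁
  set S₂ := g.symm '' S₁ with hS₂
  have hm2 : IsMin S₂ := hI.min g.symm S₁ hs2.minimal
  have hc2 : IsCompact S₂ := hs2.cpt.image g.symm.continuous
  have hn2 : IsConnected S₂ := hs2.conn.image _ g.symm.continuous.continuousOn
  have hlf := hLf l hl
  obtain ⟨-, -, hcl, hmin, hpre, hch⟩ := hTet.cpt _ _ _ hlf
  have hsub : gX O0 (lf l) '' Rho (aL l) √2 ⊆ S₂ := by
    refine hT.cont _ _ hmin hm2 hpre (fun x hx => ?_) ⟨_, ⟨y₀, hVs hy₀, rfl⟩, ?_⟩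
    · rw [← hc2.isClosed.closure_eq]; exact hx.2
    · obtain ⟨W, hWo, hW⟩ := hch.rel V hVs hVo
      have hmem : gX O0 (lf l) y₀ ∈ W := (hW ▸ mem_image_of_mem _ hy₀ : _ ∈ _ ∩ W).2
      filter_upwards [self_mem_nhdsWithin, mem_nhdsWithin_of_mem_nhds (hWo.mem_nhds hmem)]
        with x hx hxW
      obtain ⟨y, hy, rfl⟩ : x ∈ gX O0 (lf l) '' V := hW ▸ ⟨hx, hxW⟩
      exact ⟨_, hV y hy, g.symm_apply_apply _⟩
  have hsub' : leafSet l ⊆ S₂ := by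
    rw [leafSet, ← hcl]
    exact hc2.isClosed.closure_subset_iff.2 hsub
  obtain ⟨γ', -, hl', horb, hcard⟩ := hOrb S₂ hm2 hc2 hn2 l hl hsub'
  have hcnt : (S₂ ∩ {x | aa x = 0}).ncard = 2 * n := by
    rw [← hst.cnt]
    have : S₂ ∩ {x | aa x = 0} = g.symm '' (S₁ ∩ {x | aa x = 0}) := by
      ext x
      constructor
      · rintro ⟨⟨z, hz, rfl⟩, hx⟩
        exact ⟨z, ⟨hz, by simpa [(hI.gam g hg).1 z] using hx⟩, rfl⟩
      · rintro ⟨z, ⟨hz, hz'⟩, rfl⟩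
        exact ⟨⟨z, hz, rfl⟩, by simpa [(hI.gam g hg).1 z] using hz'⟩
    rw [this, ncard_image_of_injective _ g.symm.injective]
  have hb : betti1 S₁ = 2 * γ := by rw [hS₁, hI.betti, hS'.2.2.2]
  have hγ' : γ' = γ := by
    rcases hH.star S₁ H n t hst (fun x hx => ⟨hs2.r0 x hx, hs2.r1 x hx⟩) with h | h <;> omega
  subst hγ'
  refine ⟨g.trans g₀.symm, ?_⟩
  rw [← hl', horb, hS₂, hS₁, image_image, image_image]
  simp

end Hyp

end Pool.Agent.Lib.MP_16d934_gt
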