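import Pool.Agent.Lib.MP_16d934_gt.ACW
import Pool.Agent.Lib.MP_16d934_gt.AFour
import Pool.Agent.Lib.MP_16d934_gt.ASec
import Pool.Agent.Lib.MP_16d934_gt.APoin
import Pool.Agent.Lib.MP_16d934_gt.AReg
import Pool.Agent.Lib.MP_16d934_gt.BLead
import Pool.Agent.Lib.MP_16d934_gt.AWien
import Pool.Agent.Lib.MP_16d934_gt.EQbara
import Pool.Agent.Lib.MP_16d934_gt.EPsia
import Pool.Agent.Lib.MP_16d934_gt.BPc
import Pool.Agent.Lib.MP_16d934_gt.EMin
import Pool.Agent.Lib.MP_16d934_gt.CCount
import Pool.Agent.Lib.MP_16d934_gt.DEnd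
import Pool.Agent.Lib.MP_16d934_gt.DCrit
import Pool.Agent.Lib.MP_16d934_gt.DGeo
import Pool.Agent.Lib.MP_16d934_gt.EPsib
import Pool.Agent.Lib.MP_16d934_gt.DLoc
import Pool.Agent.Lib.MP_16d934_gt.DMid
import Pool.Agent.Lib.MP_16d934_gt.DNorm
import Pool.Agent.Lib.MP_16d934_gt.DQc
import Pool.Agent.Lib.MP_16d934_gt.DStar
import Pool.Agent.Lib.MP_16d934_gt.EAtt
import Pool.Agent.Lib.MP_16d934_gt.EBar
import Pool.Agent.Lib.MP_16d934_gt.ELawa
import Pool.Agent.Lib.MP_16d934_gt.EIc
import Pool.Agent.Lib.MP_16d934_gt.ELaw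
import Pool.Agent.Lib.MP_16d934_gt.ELim
import Pool.Agent.Lib.MP_16d934_gt.DMida
import Pool.Agent.Lib.MP_16d934_gt.EQbar
import Pool.Agent.Lib.MP_16d934_gt.EQdec
import Pool.Agent.Lib.MP_16d934_gt.ERado
import Pool.Agent.Lib.MP_16d934_gt.ESp1
import Pool.Agent.Lib.MP_16d934_gt.AWienb
import Pool.Agent.Lib.MP_16d934_gt.ESrc
import Pool.Agent.Lib.MP_16d934_gt.ETet
import Pool.Agent.Lib.MP_16d934_gt.EWedge
import Pool.Agent.Lib.MP_16d934_gt.Hyp
import Pool.Agent.Lib.MP_16d934_gt.Spec

-- part Pool.Agent.Lib.MP_16d934_gt.All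
section

/-! Assembly. -/

set_option autoImplicit false

namespace Pool.Agent.Lib.MP_16d934_gt

theorem meqS_all : MeqS := meqS
theorem poinS_all : PoinS := poinS
theorem morreyS_all : MorreyS := morreyS
theorem holeS_all : HoleS := holeS poinS_all morreyS_all
theorem secS_all : SecS := secS
theorem fourS_all : FourS := fourS
theorem chgS_all : ChgS := chgS
theorem strS_all : StrS := strS
theorem wienS_all : WienS := wienS
theorem regS_all : RegS := regS holeS_all secS_all fourS_all chgS_all strS_all wienS_all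
theorem cwS_all : CWS := cwS
theorem chartS_all : ChartS := chartS regS_all cwS_all meqS_all
theorem leadS_all : LeadS := leadS meqS_all
theorem touchS_all : TouchS := touchS meqS_all chartS_all leadS_all
theorem invS_all : InvS := invS
theorem homS_all : HomS := homS
theorem twoS_all : TwoS := twoS meqS_all chartS_all
theorem normS_all : NormS := normS chartS_all touchS_all invS_all twoS_all homS_all
theorem locS_all : LocS := locS meqS_all chartS_all touchS_all invS_all
theorem planS_all : PlanS := planS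
theorem oneS_all : OneS := oneS chartS_all locS_all planS_all
theorem derS_all : DerS := derS
theorem qcS_all : QcS := qcS chartS_all touchS_all twoS_all locS_all
theorem geoS_all : GeoS := geoS meqS_all derS_all chartS_all locS_all qcS_all planS_all
theorem wlocS_all : WlocS := wlocS meqS_all derS_all chartS_all locS_all geoS_all
theorem graphS_all : GraphS := graphS locS_all qcS_all wlocS_all planS_all
theorem starS_all : StarS := starS locS_all geoS_all wlocS_all graphS_all
theorem critS_all : CritS := critS meqS_all chartS_all touchS_all locS_all planS_all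
theorem paramS_all : ParamS := paramS meqS_all chartS_all
theorem windS_all : WindS := windS
theorem pcS_all : PcS := pcS meqS_all chartS_all paramS_all leadS_all windS_all invS_all
theorem ordS_all : OrdS := ordS chartS_all invS_all pcS_all locS_all geoS_all
theorem pcpS_all : PcpS := pcpS meqS_all chartS_all paramS_all leadS_all windS_all invS_all
theorem endS_all : EndS := endS derS_all chartS_all invS_all pcpS_all locS_all geoS_all
theorem midS_all : MidS := midS derS_all chartS_all paramS_all leadS_all invS_all locS_all geoS_all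
theorem countS_all : CountS := countS planS_all
theorem coinS_all : CoinS := coinS chartS_all geoS_all starS_all critS_all ordS_all endS_all midS_all countS_all
theorem tetS_all : TetS := tetS meqS_all chartS_all touchS_all invS_all
theorem minS_all : MinS := minS
theorem cutS_all : CutS := cutS
theorem neuS_all : NeuS := neuS
theorem exS_all : ExS := exS regS_all cwS_all minS_all cutS_all neuS_all
theorem lfS_all : LfS := lfS exS_all
theorem lawS_all : LawS := lawS meqS_all chartS_all touchS_all tetS_all lfS_all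
theorem orbS_all : OrbS := orbS meqS_all chartS_all touchS_all leadS_all invS_all tetS_all lfS_all
theorem radoS_all : RadoS := radoS meqS_all derS_all touchS_all leadS_all planS_all neuS_all tetS_all
theorem intS_all : IntS := intS
theorem remS_all : RemS := remS
theorem edgeS_all : EdgeS := edgeS regS_all cwS_all remS_all meqS_all derS_all chartS_all leadS_all tetS_all radoS_all
theorem qbarS_all : QbarS := qbarS touchS_all tetS_all radoS_all
theorem qdecS_all : QdecS := qdecS regS_all cwS_all intS_all derS_all meqS_all tetS_all radoS_all edgeS_all qbarS_all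
theorem barS_all : BarS := barS meqS_all touchS_all tetS_all
theorem psiS_all : PsiS := psiS meqS_all derS_all tetS_all radoS_all edgeS_all qdecS_all
theorem wedgeS_all : WedgeS := wedgeS chartS_all tetS_all radoS_all psiS_all
theorem lim0S_all : Lim0S := lim0S regS_all cwS_all remS_all intS_all derS_all tetS_all radoS_all wedgeS_all
theorem limS_all : LimS := limS tetS_all lfS_all barS_all lim0S_all
theorem pieceS_all : PieceS := pieceS meqS_all derS_all invS_all tetS_all radoS_all
theorem pextS_all : PextS := pextS regS_all cwS_all remS_all derS_all chartS_all touchS_all tetS_all wedgeS_all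
theorem srcS_all : SrcS := srcS touchS_all invS_all
theorem u1S_all : U1S := u1S meqS_all leadS_all planS_all srcS_all
theorem alignS_all : AlignS := alignS meqS_all derS_all leadS_all tetS_all lfS_all pieceS_all pextS_all srcS_all u1S_all
theorem cptS_all : CptS := cptS regS_all cwS_all
theorem icS_all : IcS := icS cptS_all tetS_all radoS_all edgeS_all pextS_all lfS_all
theorem attS_all : AttS := attS meqS_all derS_all invS_all tetS_all radoS_all lfS_all icS_all
theorem uaS_all : UaS := uaS chartS_all paramS_all invS_all pcS_all tetS_all lfS_all pieceS_all u1S_all alignS_all attS_all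
theorem eaS_all : EaS := eaS tetS_all icS_all limS_all attS_all uaS_all
theorem sp1S_all : Sp1S := sp1S invS_all tetS_all radoS_all qdecS_all lfS_all limS_all alignS_all attS_all uaS_all eaS_all
theorem ccS_all : CcS := ccS regS_all cwS_all intS_all derS_all touchS_all tetS_all radoS_all lfS_all barS_all limS_all pextS_all
theorem sp2S_all : Sp2S := sp2S meqS_all derS_all invS_all tetS_all lfS_all pextS_all ccS_all icS_all alignS_all attS_all sp1S_all
theorem sp3S_all : Sp3S := sp3S derS_all invS_all tetS_all lfS_all pieceS_all icS_all alignS_all attS_all eaS_all sp1S_all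

theorem main (γ : ℕ) (hγ : 1 ≤ γ) :
    (∃! M, LawsonDisc γ M) ∧ ∀ M, LawsonDisc γ M → ∀ (S : Set E4) (τ ρ : E4 ≃ₗᵢ[ℝ] E4),
      ClosedMin γ S → Type0 S τ ρ → ∃ g : E4 ≃ₗᵢ[ℝ] E4, g '' {x | Orbit γ M x} = S :=
  final touchS_all invS_all homS_all normS_all oneS_all starS_all coinS_all tetS_all lfS_all lawS_all orbS_all sp1S_all sp2S_all sp3S_all γ hγ

end Pool.Agent.Lib.MP_16d934_gt
end

-- part Pool.Agent.Lib.MP_16d934_gt.Bridge
section

/-! From the working definitions to the definitions of the statement. -/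

set_option autoImplicit false

open Set Metric
open scoped InnerProductSpace

namespace Pool.Agent.Lib.MP_16d934_gt

theorem minEq_iff (X : P2 → E4) (y : P2) : Spec.MinEq X y ↔ MinEq X y := by
  refine forall_congr' fun n => imp_congr Iff.rfl (imp_congr Iff.rfl (imp_congr Iff.rfl ?_))
  change ⟪d2 X y, d2 X y⟫_ℝ * ⟪n, d1 (d1 X) y⟫_ℝ - 2 * ⟪d1 X y, d2 X y⟫_ℝ * ⟪n, d1 (d2 X) y⟫_ℝ
      + ⟪d1 X y, d1 X y⟫_ℝ * ⟪n, d2 (d2 X) y⟫_ℝ = 0 ↔ _
  rw [inner_add_right, inner_sub_right, real_inner_smul_right, real_inner_smul_right,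
    real_inner_smul_right, real_inner_self_eq_norm_sq, real_inner_self_eq_norm_sq]

theorem isMin_iff (S : Set E4) : Spec.IsMin S ↔ IsMin S := by
  refine forall₂_congr fun p _ => exists₂_congr fun U X => and_congr_left' ⟨fun h => ?_, fun h => ?_⟩
  · exact ⟨h.1, h.2, h.3, h.4, h.5, h.6, fun y hy => (minEq_iff X y).1 (h.7 y hy)⟩
  · exact ⟨h.1, h.2, h.3, h.4, h.5, h.6, fun y hy => (minEq_iff X y).2 (h.7 y hy)⟩

theorem closedMin_iff (γ : ℕ) (S : Set E4) : Spec.ClosedMin γ S ↔ ClosedMin γ S :=
  and_congr_left' (isMin_iff S)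

theorem lawsonDisc_iff (γ : ℕ) (M : Set E4) : Spec.LawsonDisc γ M ↔ LawsonDisc γ M :=
  and_congr Iff.rfl (exists_congr fun _ => and_congr Iff.rfl (and_congr Iff.rfl (and_congr Iff.rfl
    (and_congr Iff.rfl (isMin_iff _)))))

theorem orbit_iff (γ : ℕ) (M : Set E4) (x : E4) : Spec.Orbit γ M x ↔ Orbit γ M x := by
  constructor
  · intro h
    induction h with
    | base x hx => exact Orbit.base x hx
    | step s t x hs ht _ ih => exact Orbit.step s t x hs ht ih
  · intro h
    induction h with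
    | base x hx => exact Spec.Orbit.base x hx
    | step s t x hs ht _ ih => exact Spec.Orbit.step s t x hs ht ih

theorem isO4_iso (g : Iso) : Spec.IsO4 g := fun x y => g.inner_map_map x y

theorem isO4_exists (f : E4 → E4) (h : Spec.IsO4 f) : ∃ g : Iso, ∀ x, g x = f x := by
  have h' : ∀ x y, ⟪f x, f y⟫_ℝ = ⟪x, y⟫_ℝ := h
  have hadd : ∀ x y, f (x + y) = f x + f y := by
    intro x y
    have : ⟪f (x + y) - (f x + f y), f (x + y) - (f x + f y)⟫_ℝ = 0 := by
      simp only [inner_sub_left, inner_sub_right, inner_add_left, inner_add_right, h']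
      ring
    exact sub_eq_zero.1 (inner_self_eq_zero.1 this)
  have hsmul : ∀ (c : ℝ) x, f (c • x) = c • f x := by
    intro c x
    have : ⟪f (c • x) - c • f x, f (c • x) - c • f x⟫_ℝ = 0 := by
      simp only [inner_sub_left, inner_sub_right, real_inner_smul_left, real_inner_smul_right, h']
      ring
    exact sub_eq_zero.1 (inner_self_eq_zero.1 this)
  let L : E4 →ₗ[ℝ] E4 := { toFun := f, map_add' := hadd, map_smul' := hsmul }
  let L' : E4 →ₗᵢ[ℝ] E4 := L.isometryOfInner h'
  exact ⟨L'.toLinearIsometryEquiv rfl, fun x => by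
    rw [LinearIsometry.toLinearIsometryEquiv_apply]; rfl⟩

theorem main3 {γ : ℕ} (hγ : 1 ≤ γ) {M : Set E4} (hM : LawsonDisc γ M) {S : Set E4} (τ ρ : Iso)
    (hS : ClosedMin γ S) (h : Spec.Type0 S τ ρ) : ∃ g : Iso, g '' {x | Orbit γ M x} = S := by
  have i1 : ∀ x, (ρ.trans τ) ((ρ.trans τ) x) = x := fun x => by
    change τ (ρ (τ (ρ x))) = x
    rw [← h.comm, h.invτ, h.invρ]
  have m1 : (ρ.trans τ) '' S = S := by
    change (τ ∘ ρ) '' S = S
    rw [image_comp, h.mapρ, h.mapτ]
  have e1 : ∃ x ∈ S, (ρ.trans τ) x ≠ x := by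
    obtain ⟨x, hx, n⟩ := h.effτρ
    refine ⟨x, hx, fun k => n ?_⟩
    have k' : τ (ρ x) = x := k
    rw [← h.invτ (ρ x), k']
  rcases h.sep with ⟨a, b⟩ | ⟨a, b⟩ | ⟨a, b⟩
  · exact (main γ hγ).2 M hM S τ ρ hS ⟨h.invτ, h.invρ, h.comm, h.mapτ, h.mapρ, h.effτ, h.effρ,
      h.effτρ, a, b, h.genus0, fun x hx e => h.ovals x ⟨hx, e⟩⟩
  · refine (main γ hγ).2 M hM S τ (ρ.trans τ) hS ⟨h.invτ, i1, fun x => ?_, h.mapτ, m1, h.effτ, e1,
      ?_, a, b, h.genus0, fun x hx e => ?_⟩
    · change τ (τ (ρ x)) = τ (ρ (τ x))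
      rw [h.comm]
    · obtain ⟨x, hx, n⟩ := h.effρ
      exact ⟨x, hx, fun k => n (τ.injective k).symm⟩
    · change (τ ∘ ρ) '' connectedComponentIn (S ∩ Spec.Fix τ) x =
        connectedComponentIn (S ∩ Spec.Fix τ) x
      rw [image_comp, h.ovals x ⟨hx, e⟩]
      exact (image_congr fun z hz => (connectedComponentIn_subset _ _ hz).2).trans (image_id _)
  · obtain ⟨F, Fc, F1, Fi⟩ := h.genus0
    have t1 : ∀ x, (ρ.trans τ) (ρ x) = τ x := fun x => congrArg τ (h.invρ x)
    have c1 : ∀ x, (ρ.trans τ) (ρ x) = ρ ((ρ.trans τ) x) := fun x => h.comm (ρ x)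
    have n1 : ∃ x, (ρ.trans τ) x ≠ ρ x := by
      obtain ⟨x, -, n⟩ := h.effτ
      exact ⟨ρ x, by rwa [t1, h.invρ]⟩
    obtain ⟨g, hg⟩ := Hyp.norm chartS_all touchS_all invS_all twoS_all homS_all locS_all planS_all
      hγ hS (ρ.trans τ) ρ i1 h.invρ c1 m1 h.mapρ e1 h.effρ n1 b a Fc F1
      fun x hx y hy => t1 x ▸ Fi x hx y hy
    exact Hyp.last touchS_all invS_all homS_all starS_all coinS_all tetS_all lfS_all lawS_all
      orbS_all sp1S_all sp2S_all sp3S_all hγ hM hS g hg

theorem main' (γ : ℕ) (hγ : 1 ≤ γ) :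
    (∃! M, Spec.LawsonDisc γ M) ∧ ∀ M, Spec.LawsonDisc γ M → ∀ (S : Set E4) (τ ρ : E4 → E4),
      Spec.ClosedMin γ S → Spec.Type0 S τ ρ → Spec.Congruent {x | Spec.Orbit γ M x} S := by
  refine ⟨by simpa only [lawsonDisc_iff] using (main γ hγ).1, fun M hM S τ ρ hS hT => ?_⟩
  obtain ⟨τ', hτ⟩ := isO4_exists _ hT.isoτ
  obtain ⟨ρ', hρ⟩ := isO4_exists _ hT.isoρ
  obtain rfl : ⇑τ' = τ := funext hτ
  obtain rfl : ⇑ρ' = ρ := funext hρ
  obtain ⟨g, hg⟩ := main3 hγ ((lawsonDisc_iff γ M).1 hM) τ' ρ' ((closedMin_iff γ S).1 hS) hT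
  exact ⟨g, isO4_iso g, by simpa only [orbit_iff] using hg⟩

end Pool.Agent.Lib.MP_16d934_gt
end
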