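import Pool.Agent.Lib.MP_16d934_gt.StC
import Pool.Agent.Shared.Planar.Drawing

-- part Pool.Agent.Lib.MP_16d934_gt.CPlan
section

/-! No crossing lemmas in the plane; a point does not separate a closed curve. -/

set_option autoImplicit false

open Set Metric Filter Topology
open scoped Real

noncomputable section

namespace Pool.Agent.Lib.MP_16d934_gt.CPlan

open Pool.Agent.Shared.Planar

section HT

open Complex unitInterval

theorem ht_of_paths {V : Type} (G : SimpleGraph V) (P : V → ℂ) (hp : Function.Injective P)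
    (γ : V → V → C(unitInterval, ℂ))
    (h1 : ∀ u v, G.Adj u v → γ u v 0 = P u ∧ γ u v 1 = P v ∧
      ∀ (w : V) (t : unitInterval), u ≠ w → v ≠ w → γ u v t ≠ P w)
    (h2 : ∀ u v x y, G.Adj u v → G.Adj x y → u ≠ x → u ≠ y → v ≠ x → v ≠ y →
      ∀ (a b : unitInterval), γ u v a ≠ γ x y b) :
    HT G := by
  classical
  have hP : ∀ a b, a ≠ b → P a - P b ≠ 0 := fun a b h k => h (hp (sub_eq_zero.1 k))
  have pi2 : (2 * Real.pi * Complex.I : ℂ) ≠ 0 := by simp [Real.pi_ne_zero]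
  have hm : ∀ a b, ∃ m : ℤ, a ≠ b → log (P a - P b) =
      log (P b - P a) + Real.pi * Complex.I + m * (2 * Real.pi * Complex.I) := by
    intro a b
    by_cases h : a = b
    · exact ⟨0, fun k => absurd h k⟩
    · obtain ⟨m, hm⟩ := exists_m _ (hP a b h)
      exact ⟨m, fun _ => by rwa [neg_sub] at hm⟩
  choose m hm using hm
  have hn : ∀ a b v, ∃ n : ℤ, G.Adj a b → a ≠ v → b ≠ v → ∀ (M : I → ℂ) (k : ℂ),
      Continuous M → (∀ s, exp (M s) = k * (γ a b s - P v)) →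
      M 1 - M 0 = log (P b - P v) - log (P a - P v) + n * (2 * Real.pi * Complex.I) := by
    intro a b v
    by_cases h : G.Adj a b ∧ a ≠ v ∧ b ≠ v
    · obtain ⟨g0, g1, g2⟩ := h1 a b h.1
      obtain ⟨n, hn⟩ := exists_n ⟨fun s => γ a b s - P v, by fun_prop⟩
        (fun s k => g2 v s h.2.1 h.2.2 (sub_eq_zero.1 k))
      refine ⟨n, fun _ _ _ M k hM hk => ?_⟩
      have := hn M k hM hk
      simpa only [ContinuousMap.coe_mk, g0, g1] using this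
    · exact ⟨0, fun a1 a2 a3 => absurd ⟨a1, a2, a3⟩ h⟩
  choose n hn using hn
  have key : ∀ a b c d, G.Adj a b → G.Adj c d → a ≠ c → a ≠ d → b ≠ c → b ≠ d →
      (n a b c : ZMod 2) + n a b d + n c d a + n c d b =
        (m a c : ZMod 2) + m a d + m b c + m b d := by
    intro a b c d hab hcd ac ad bc bd
    obtain ⟨g0, g1, _⟩ := h1 a b hab
    obtain ⟨k0, k1, _⟩ := h1 c d hcd
    obtain ⟨L, hL⟩ := lift_two ⟨fun s => γ a b s.1 - γ c d s.2, by fun_prop⟩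
      (fun s k => h2 a b c d hab hcd ac ad bc bd _ _ (sub_eq_zero.1 k))
    simp only [ContinuousMap.coe_mk] at hL
    have e1 := hn a b c hab ac bc (fun s => L (s, 0)) 1 (by fun_prop)
      (fun s => by rw [hL, k0, one_mul])
    have e2 := hn a b d hab ad bd (fun s => L (s, 1)) 1 (by fun_prop)
      (fun s => by rw [hL, k1, one_mul])
    have e3 := hn c d a hcd ac.symm ad.symm (fun s => L (0, s)) (-1) (by fun_prop)
      (fun s => by rw [hL, g0]; ring)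
    have e4 := hn c d b hcd bc.symm bd.symm (fun s => L (1, s)) (-1) (by fun_prop)
      (fun s => by rw [hL, g1]; ring)
    have z : ((m b c - m a c - m b d + m a d + n a b c + n c d b - n c d a - n a b d : ℤ) : ℂ)
        * (2 * Real.pi * Complex.I) = 0 := by
      push_cast
      linear_combination -e1 - e4 + e2 + e3 - hm b c bc + hm a c ac + hm b d bd - hm a d ad
    have z1 : m b c - m a c - m b d + m a d + n a b c + n c d b - n c d a - n a b d = 0 := by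
      exact_mod_cast (mul_eq_zero.1 z).resolve_right pi2
    have z2 := congrArg (Int.cast : ℤ → ZMod 2) z1
    push_cast at z2
    linear_combination (norm := (ring_nf; reduce_mod_char)) z2
  let _ : LinearOrder V := linearOrderOfSTO WellOrderingRel
  refine ⟨⟨fun a b => m a b, fun a b v => n (min a b) (max a b) v, fun a b h => ?_,
    fun a b v => by rw [min_comm, max_comm], fun a b c d hab hcd ac ad bc bd => ?_⟩⟩
  · have z : ((m a b + m b a + 1 : ℤ) : ℂ) * (2 * Real.pi * Complex.I) = 0 := by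
      push_cast
      linear_combination -hm a b h - hm b a h.symm
    have z1 : m a b + m b a + 1 = 0 := by exact_mod_cast (mul_eq_zero.1 z).resolve_right pi2
    have z2 := congrArg (Int.cast : ℤ → ZMod 2) z1
    push_cast at z2
    linear_combination (norm := (ring_nf; reduce_mod_char)) z2
  · rcases le_total a b with h | h <;> rcases le_total c d with k | k <;>
      simp only [min_eq_left h, max_eq_right h, min_eq_left k, max_eq_right k,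
        min_eq_right h, max_eq_left h, min_eq_right k, max_eq_left k]
    · linear_combination key a b c d hab hcd ac ad bc bd
    · linear_combination key a b d c hab hcd.symm ad ac bd bc
    · linear_combination key b a c d hab.symm hcd bc bd ac ad
    · linear_combination key b a d c hab.symm hcd.symm bd bc ad ac

end HT

theorem fresh : ∀ i j k : Fin 5, ∃ l : Fin 5, i ≠ l ∧ j ≠ l ∧ k ≠ l := by decide

theorem noK5c (P : Fin 5 → ℂ) (S : Fin 5 → Fin 5 → Set ℂ)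
    (hj : ∀ i j, i ≠ j → JoinedIn (S i j) (P i) (P j))
    (hd : ∀ i j k l, i ≠ j → k ≠ l → i ≠ k → i ≠ l → j ≠ k → j ≠ l → Disjoint (S i j) (S k l)) :
    False := by
  have hv : ∀ i j k : Fin 5, i ≠ j → i ≠ k → j ≠ k → P k ∉ S i j := fun i j k a b c h => by
    obtain ⟨l, l1, l2, l3⟩ := fresh k i j
    exact disjoint_left.1 (hd i j k l a l1 b l2 c l3) h (hj k l l1).source_mem
  have hp : Function.Injective P := fun i k e => by
    by_contra n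
    obtain ⟨j, j1, j2, -⟩ := fresh i k k
    exact hv i j k j1 n j2.symm (e ▸ (hj i j j1).source_mem)
  have hγ : ∀ i j, ∃ γ : C(unitInterval, ℂ), i ≠ j → γ 0 = P i ∧ γ 1 = P j ∧ ∀ t, γ t ∈ S i j := by
    intro i j
    by_cases h : i = j
    · exact ⟨ContinuousMap.const _ 0, fun k => absurd h k⟩
    · obtain ⟨γ, hγ⟩ := hj i j h
      exact ⟨γ.toContinuousMap, fun _ => ⟨γ.source, γ.target, hγ⟩⟩
  choose γ hγ using hγ
  have ht : HT (⊤ : SimpleGraph (Fin 5)) := ht_of_paths ⊤ P hp γ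
    (fun u v h => ⟨(hγ u v h).1, (hγ u v h).2.1, fun w t a b e =>
      hv u v w h a b (e ▸ (hγ u v h).2.2 t)⟩)
    fun u v x y h k a b c d s t e =>
      disjoint_left.1 (hd u v x y h k a b c d) ((hγ u v h).2.2 s) (e ▸ (hγ x y k).2.2 t)
  exact ht.no_K5 (fun i => {i}) (fun i a ha b hb => by rw [ha, hb]; exact R.refl)
    (fun i j h v a b => h (a.symm.trans b)) fun i j h => ⟨i, rfl, j, rfl, h.ne⟩

variable {α : Type} [TopologicalSpace α]

theorem noK5a {Y : Set α} (hY : Planar Y) (p : Fin 5 → α) (S : Fin 5 → Fin 5 → Set α)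
    (hj : ∀ i j, i < j → S i j ⊆ Y ∧ JoinedIn (S i j) (p i) (p j))
    (hd : ∀ i j k l, i < j → k < l → i < k → j ≠ k → j ≠ l → Disjoint (S i j) (S k l)) :
    False := by
  obtain ⟨e, ec, ei⟩ := hY
  have hj' : ∀ i j, i < j → JoinedIn (e '' S i j) (e (p i)) (e (p j)) := fun i j h =>
    (hj i j h).2.map_continuousOn (ec.mono (hj i j h).1)
  have hd' : ∀ i j k l, i < j → k < l → i ≠ k → i ≠ l → j ≠ k → j ≠ l →
      Disjoint (e '' S i j) (e '' S k l) := fun i j k l a b c d f g => by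
    have h : Disjoint (S i j) (S k l) := by
      rcases lt_or_gt_of_ne c with h | h
      · exact hd i j k l a b h f g
      · exact (hd k l i j b a h d.symm g.symm).symm
    exact disjoint_image_image fun x hx y hy u =>
      disjoint_left.1 h hx (ei ((hj i j a).1 hx) ((hj k l b).1 hy) u ▸ hy)
  refine noK5c (fun i => e (p i)) (fun i j => e '' S (min i j) (max i j)) (fun i j h => ?_)
    fun i j k l a b c d f g => ?_
  · rcases lt_or_gt_of_ne h with k | k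
    · simpa only [min_eq_left k.le, max_eq_right k.le] using hj' i j k
    · simpa only [min_eq_right k.le, max_eq_left k.le] using (hj' j i k).symm
  · rcases lt_or_gt_of_ne a with h | h <;> rcases lt_or_gt_of_ne b with k | k <;>
      simp only [min_eq_left h.le, max_eq_right h.le, min_eq_left k.le, max_eq_right k.le,
        min_eq_right h.le, max_eq_left h.le, min_eq_right k.le, max_eq_left k.le]
    · exact hd' _ _ _ _ h k c d f g
    · exact hd' _ _ _ _ h k d c g f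
    · exact hd' _ _ _ _ h k f g c d
    · exact hd' _ _ _ _ h k g f d c

theorem pairs2 : ∀ i j : Fin 5, i < j → (i, j) ∈ ([(0, 1), (0, 2), (0, 3), (0, 4), (1, 2), (1, 3),
    (1, 4), (2, 3), (2, 4), (3, 4)] : List (Fin 5 × Fin 5)) := by decide

theorem pairs4 : ∀ i j k l : Fin 5, i < j → k < l → i < k → j ≠ k → j ≠ l →
    (i, j, k, l) ∈ ([(0, 1, 2, 3), (0, 1, 2, 4), (0, 1, 3, 4), (0, 2, 1, 3), (0, 2, 1, 4),
      (0, 2, 3, 4), (0, 3, 1, 2), (0, 3, 1, 4), (0, 3, 2, 4), (0, 4, 1, 2), (0, 4, 1, 3),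
      (0, 4, 2, 3), (1, 2, 3, 4), (1, 3, 2, 4), (1, 4, 2, 3)] :
        List (Fin 5 × Fin 5 × Fin 5 × Fin 5)) := by decide

/-- a set inside `Y` that joins two points -/
def Jn (Y s : Set α) (x y : α) : Prop := s ⊆ Y ∧ JoinedIn s x y

theorem noK5 {Y : Set α} (hY : Planar Y) {p0 p1 p2 p3 p4 : α}
    {s01 s02 s03 s04 s12 s13 s14 s23 s24 s34 : Set α}
    (j01 : Jn Y s01 p0 p1) (j02 : Jn Y s02 p0 p2) (j03 : Jn Y s03 p0 p3) (j04 : Jn Y s04 p0 p4)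
    (j12 : Jn Y s12 p1 p2) (j13 : Jn Y s13 p1 p3) (j14 : Jn Y s14 p1 p4) (j23 : Jn Y s23 p2 p3)
    (j24 : Jn Y s24 p2 p4) (j34 : Jn Y s34 p3 p4)
    (d1 : Disjoint s01 s23) (d2 : Disjoint s01 s24) (d3 : Disjoint s01 s34)
    (d4 : Disjoint s02 s13) (d5 : Disjoint s02 s14) (d6 : Disjoint s02 s34)
    (d7 : Disjoint s03 s12) (d8 : Disjoint s03 s14) (d9 : Disjoint s03 s24)
    (d10 : Disjoint s04 s12) (d11 : Disjoint s04 s13) (d12 : Disjoint s04 s23)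
    (d13 : Disjoint s12 s34) (d14 : Disjoint s13 s24) (d15 : Disjoint s14 s23) : False := by
  refine noK5a hY ![p0, p1, p2, p3, p4] ![![∅, s01, s02, s03, s04], ![∅, ∅, s12, s13, s14],
    ![∅, ∅, ∅, s23, s24], ![∅, ∅, ∅, ∅, s34], ![∅, ∅, ∅, ∅, ∅]] (fun i j h => ?_)
    fun i j k l a b c d e => ?_
  · have := pairs2 i j h
    simp only [List.mem_cons, Prod.mk.injEq, List.not_mem_nil, or_false] at this
    rcases this with ⟨rfl, rfl⟩ | ⟨rfl, rfl⟩ | ⟨rfl, rfl⟩ | ⟨rfl, rfl⟩ | ⟨rfl, rfl⟩ | ⟨rfl, rfl⟩ |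
      ⟨rfl, rfl⟩ | ⟨rfl, rfl⟩ | ⟨rfl, rfl⟩ | ⟨rfl, rfl⟩
    exacts [j01, j02, j03, j04, j12, j13, j14, j23, j24, j34]
  · have := pairs4 i j k l a b c d e
    simp only [List.mem_cons, Prod.mk.injEq, List.not_mem_nil, or_false] at this
    rcases this with ⟨rfl, rfl, rfl, rfl⟩ | ⟨rfl, rfl, rfl, rfl⟩ | ⟨rfl, rfl, rfl, rfl⟩ |
      ⟨rfl, rfl, rfl, rfl⟩ | ⟨rfl, rfl, rfl, rfl⟩ | ⟨rfl, rfl, rfl, rfl⟩ | ⟨rfl, rfl, rfl, rfl⟩ |
      ⟨rfl, rfl, rfl, rfl⟩ | ⟨rfl, rfl, rfl, rfl⟩ | ⟨rfl, rfl, rfl, rfl⟩ | ⟨rfl, rfl, rfl, rfl⟩ |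
      ⟨rfl, rfl, rfl, rfl⟩ | ⟨rfl, rfl, rfl, rfl⟩ | ⟨rfl, rfl, rfl, rfl⟩ | ⟨rfl, rfl, rfl, rfl⟩
    exacts [d1, d2, d3, d4, d5, d6, d7, d8, d9, d10, d11, d12, d13, d14, d15]

theorem joined_Icc {f : ℝ → α} {a b : ℝ} (h : a ≤ b) (hf : ContinuousOn f (Icc a b)) :
    JoinedIn (f '' Icc a b) (f a) (f b) :=
  (((convex_Icc a b).isPathConnected (nonempty_Icc.2 h)).image' hf).joinedIn _
    (mem_image_of_mem _ (left_mem_Icc.2 h)) _ (mem_image_of_mem _ (right_mem_Icc.2 h))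

/-! ### Spokes and arcs -/

theorem norm_cis (β : ℝ) : ‖cis β‖ = 1 := Complex.norm_exp_ofReal_mul_I β

theorem cont_cis : Continuous cis := by
  unfold cis
  fun_prop

theorem cis_per (β : ℝ) : cis (β + 2 * π) = cis β := by
  unfold cis
  push_cast
  rw [add_mul, Complex.exp_add, Complex.exp_two_pi_mul_I, mul_one]

theorem cis_ne {a b : ℝ} (h : a < b) (h' : b < a + 2 * π) : cis a ≠ cis b := fun e => by
  obtain ⟨n, hn⟩ := Complex.exp_eq_exp_iff_exists_int.1 e.symm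
  have h1 : b = a + n * (2 * π) := by
    have := congrArg Complex.im hn
    simpa using this
  have hp := Real.pi_pos
  have h2 : (0 : ℝ) < n := by
    by_contra k
    nlinarith [not_lt.1 k]
  have h3 : (n : ℝ) < 1 := by
    by_contra k
    nlinarith [not_lt.1 k]
  have h4 : 0 < n := by exact_mod_cast h2
  have h5 : n < 1 := by exact_mod_cast h3
  omega

theorem norm_ray {s : ℝ} (hs : 0 ≤ s) (β : ℝ) : ‖(s : ℂ) * cis β‖ = s := by
  rw [norm_mul, norm_cis, mul_one, Complex.norm_real, Real.norm_of_nonneg hs]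

theorem ray_mem {s δ : ℝ} (hs : s ∈ Icc 0 δ) (β : ℝ) : (s : ℂ) * cis β ∈ closedBall (0 : ℂ) δ := by
  rw [mem_closedBall_zero_iff, norm_ray hs.1]
  exact hs.2

/-- image of a circular arc -/
def arc (κ : ℂ → α) (δ a b : ℝ) : Set α := (fun β : ℝ => κ (δ * cis β)) '' Icc a b

variable {κ : ℂ → α} {δ : ℝ} {Y : Set α}

theorem jn_spoke (hδ : 0 < δ) (hc : ContinuousOn κ (closedBall 0 δ)) {β : ℝ}
    (hY : ∀ s ∈ Icc 0 δ, κ (s * cis β) ∈ Y) : Jn Y (spoke κ δ β) (κ 0) (κ (δ * cis β)) := by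
  refine ⟨by rintro _ ⟨s, hs, rfl⟩; exact hY s hs, ?_⟩
  have := joined_Icc (f := fun s : ℝ => κ (s * cis β)) hδ.le
    (hc.comp (by fun_prop) fun s hs => ray_mem hs β)
  simpa [spoke] using this

theorem jn_arc (hδ : 0 < δ) (hc : ContinuousOn κ (closedBall 0 δ)) {a b : ℝ} (h : a ≤ b)
    (hY : ∀ β ∈ Icc a b, κ (δ * cis β) ∈ Y) :
    Jn Y (arc κ δ a b) (κ (δ * cis a)) (κ (δ * cis b)) :=
  ⟨by rintro _ ⟨s, hs, rfl⟩; exact hY s hs, joined_Icc (f := fun β : ℝ => κ (δ * cis β)) h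
    (hc.comp (continuous_const.mul cont_cis).continuousOn fun β _ =>
      ray_mem (right_mem_Icc.2 hδ.le) β)⟩

omit [TopologicalSpace α] in
theorem cis_eq (hδ : 0 < δ) (hi : InjOn κ (closedBall 0 δ)) {s a b : ℝ} (hs : s ∈ Icc 0 δ)
    (e : κ (s * cis a) = κ (δ * cis b)) : cis a = cis b := by
  have h := hi (ray_mem hs a) (ray_mem (right_mem_Icc.2 hδ.le) b) e
  have h1 : s = δ := by rw [← norm_ray hs.1 a, h, norm_ray hδ.le]
  rw [h1] at h
  exact mul_left_cancel₀ (by exact_mod_cast hδ.ne') h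

omit [TopologicalSpace α] in
theorem sp_arc (hδ : 0 < δ) (hi : InjOn κ (closedBall 0 δ)) {β a b : ℝ} (h1 : β < a)
    (h2 : b < β + 2 * π) : Disjoint (spoke κ δ β) (arc κ δ a b) :=
  disjoint_image_image fun _ hs _ ht e =>
    cis_ne (h1.trans_le ht.1) (ht.2.trans_lt h2) (cis_eq hδ hi hs e)

omit [TopologicalSpace α] in
theorem sp_arc' (hδ : 0 < δ) (hi : InjOn κ (closedBall 0 δ)) {β a b : ℝ} (h1 : b < β)
    (h2 : β < a + 2 * π) : Disjoint (spoke κ δ β) (arc κ δ a b) :=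
  disjoint_image_image fun _ hs _ ht e =>
    cis_ne (ht.2.trans_lt h1) (by linarith [ht.1]) (cis_eq hδ hi hs e).symm

omit [TopologicalSpace α] in
theorem arc_arc (hδ : 0 < δ) (hi : InjOn κ (closedBall 0 δ)) {a b c d : ℝ} (h1 : b < c)
    (h2 : d < a + 2 * π) : Disjoint (arc κ δ a b) (arc κ δ c d) :=
  disjoint_image_image fun _ hs _ ht e =>
    cis_ne (hs.2.trans_lt (h1.trans_le ht.1)) (by linarith [hs.1, ht.2])
      (cis_eq hδ hi (right_mem_Icc.2 hδ.le) e)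

theorem Jn.symm {s : Set α} {x y : α} (h : Jn Y s x y) : Jn Y s y x := ⟨h.1, h.2.symm⟩

theorem Jn.trans {s t : Set α} {x y z : α} (h : Jn Y s x y) (k : Jn Y t y z) :
    Jn Y (s ∪ t) x z :=
  ⟨union_subset h.1 k.1, (h.2.mono subset_union_left).trans (k.2.mono subset_union_right)⟩

theorem int_holds {β₁ β₂ β₃ β₄ : ℝ} {A B : Set α} (hY : Planar Y) (hδ : 0 < δ)
    (hc : ContinuousOn κ (closedBall 0 δ)) (hi : InjOn κ (closedBall 0 δ))
    (hm : MapsTo κ (closedBall 0 δ) Y) (h1 : β₁ < β₂) (h2 : β₂ < β₃) (h3 : β₃ < β₄)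
    (h4 : β₄ < β₁ + 2 * π) (aY : A ⊆ Y) (bY : B ⊆ Y)
    (jA : JoinedIn A (κ (δ * cis β₁)) (κ (δ * cis β₃)))
    (jB : JoinedIn B (κ (δ * cis β₂)) (κ (δ * cis β₄))) (dAB : Disjoint A B)
    (a2 : Disjoint A (spoke κ δ β₂)) (a4 : Disjoint A (spoke κ δ β₄))
    (b1 : Disjoint B (spoke κ δ β₁)) (b3 : Disjoint B (spoke κ δ β₃)) : False := by
  have sp : ∀ β, Jn Y (spoke κ δ β) (κ 0) (κ (δ * cis β)) := fun β =>
    jn_spoke hδ hc fun s hs => hm (ray_mem hs β)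
  have ar : ∀ a b, a ≤ b → Jn Y (arc κ δ a b) (κ (δ * cis a)) (κ (δ * cis b)) := fun a b h =>
    jn_arc hδ hc h fun β _ => hm (ray_mem (right_mem_Icc.2 hδ.le) β)
  have j14 := (ar _ _ h4.le).symm
  rw [cis_per] at j14
  exact noK5 hY (sp β₁) (sp β₂) (sp β₃) (sp β₄) (ar _ _ h1.le) ⟨aY, jA⟩ j14 (ar _ _ h2.le)
    ⟨bY, jB⟩ (ar _ _ h3.le) (sp_arc hδ hi h1 (by linarith)) b1.symm
    (sp_arc hδ hi (by linarith) h4) a2.symm (sp_arc hδ hi (by linarith) (by linarith))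
    (sp_arc hδ hi h2 (by linarith)) (sp_arc' hδ hi h2 (by linarith))
    (sp_arc hδ hi h3 (by linarith)) b3.symm (sp_arc' hδ hi (by linarith) h4) a4.symm
    (sp_arc' hδ hi h3 (by linarith)) (arc_arc hδ hi h2 h4) dAB
    (arc_arc hδ hi h3 (by linarith)).symm

theorem bdry_holds {β₀ β₁ β₂ β₃ β₅ : ℝ} {A B C : Set α} {b : α} (hY : Planar Y) (hδ : 0 < δ)
    (hc : ContinuousOn κ (closedBall 0 δ)) (hi : InjOn κ (closedBall 0 δ))
    (hm : ∀ s ∈ Icc 0 δ, ∀ β ∈ Icc β₀ β₅, κ (s * cis β) ∈ Y) (h0 : β₀ < β₁) (h1 : β₁ < β₂)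
    (h2 : β₂ < β₃) (h3 : β₃ < β₅) (h5 : β₅ < β₀ + 2 * π) (aY : A ⊆ Y) (bY : B ⊆ Y) (cY : C ⊆ Y)
    (jA : JoinedIn A (κ (δ * cis β₁)) (κ (δ * cis β₃))) (jB : JoinedIn B (κ (δ * cis β₂)) b)
    (jC : JoinedIn C b (κ (δ * cis β₀))) (jC' : JoinedIn C b (κ (δ * cis β₅)))
    (dAB : Disjoint A B) (dAC : Disjoint A C) (a0 : Disjoint A (spoke κ δ β₀))
    (a2 : Disjoint A (spoke κ δ β₂)) (b1 : Disjoint B (spoke κ δ β₁))
    (b3 : Disjoint B (spoke κ δ β₃))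
    (hC : ∀ s ∈ Icc 0 δ, ∀ β ∈ Icc β₁ β₃, κ (s * cis β) ∉ C) : False := by
  have sp : ∀ β, β₀ ≤ β → β ≤ β₅ → Jn Y (spoke κ δ β) (κ 0) (κ (δ * cis β)) := fun β u v =>
    jn_spoke hδ hc fun s hs => hm s hs β ⟨u, v⟩
  have ar : ∀ a b, β₀ ≤ a → a ≤ b → b ≤ β₅ →
      Jn Y (arc κ δ a b) (κ (δ * cis a)) (κ (δ * cis b)) := fun a b u h v =>
    jn_arc hδ hc h fun β k => hm δ (right_mem_Icc.2 hδ.le) β ⟨u.trans k.1, k.2.trans v⟩
  have sC : ∀ β, β₁ ≤ β → β ≤ β₃ → Disjoint (spoke κ δ β) C := fun β u v =>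
    disjoint_left.2 (by rintro _ ⟨s, hs, rfl⟩; exact hC s hs β ⟨u, v⟩)
  have aC : Disjoint C (arc κ δ β₁ β₂) :=
    disjoint_right.2 (by
      rintro _ ⟨β, hβ, rfl⟩
      exact hC δ (right_mem_Icc.2 hδ.le) β ⟨hβ.1, hβ.2.trans h2.le⟩)
  have j13 : Jn Y (B ∪ C) (κ (δ * cis β₀)) (κ (δ * cis β₂)) :=
    (Jn.trans ⟨bY, jB⟩ ⟨cY, jC⟩).symm
  have j14 : Jn Y (arc κ δ β₃ β₅ ∪ C) (κ (δ * cis β₀)) (κ (δ * cis β₃)) :=
    ((ar _ _ (by linarith) h3.le le_rfl).trans ⟨cY, jC'.symm.trans jC⟩).symm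
  exact noK5 hY (sp β₀ le_rfl (by linarith)) (sp β₁ h0.le (by linarith))
    (sp β₂ (by linarith) (by linarith)) (sp β₃ (by linarith) h3.le)
    (ar _ _ le_rfl h0.le (by linarith)) j13 j14 (ar _ _ h0.le h1.le (by linarith)) ⟨aY, jA⟩
    (ar _ _ (by linarith) h2.le h3.le) (sp_arc hδ hi h0 (by linarith)) a0.symm
    (sp_arc hδ hi (by linarith) (by linarith))
    (disjoint_union_right.2 ⟨b1.symm, sC _ le_rfl (by linarith)⟩)
    (disjoint_union_right.2 ⟨sp_arc hδ hi (by linarith) (by linarith), sC _ le_rfl (by linarith)⟩)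
    (sp_arc hδ hi h1 (by linarith)) (sp_arc' hδ hi h1 (by linarith))
    (disjoint_union_right.2 ⟨sp_arc hδ hi h2 (by linarith), sC _ h1.le h2.le⟩) a2.symm
    (sp_arc' hδ hi (by linarith) (by linarith))
    (disjoint_union_right.2 ⟨b3.symm, sC _ (by linarith) le_rfl⟩)
    (sp_arc' hδ hi h2 (by linarith)) (arc_arc hδ hi h1 (by linarith))
    (disjoint_union_left.2 ⟨dAB.symm, dAC.symm⟩)
    (disjoint_union_left.2 ⟨(arc_arc hδ hi h2 (by linarith)).symm, aC⟩)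

/-! ### The disc -/

/-- the exterior of the disc together with one boundary point -/
def out (x : ℝ) : Set ℂ := {z | 1 < ‖z‖} ∪ {cis x}

theorem jn_out (x : ℝ) : Jn univ (out x) 2 (cis x) := by
  refine ⟨subset_univ _, ?_⟩
  have h1 : JoinedIn (out x) (cis x) (2 * cis x) := by
    have := joined_Icc (f := fun s : ℝ => (s : ℂ) * cis x) (a := 1) (b := 2) (by norm_num)
      (by fun_prop)
    simp only [Complex.ofReal_one, one_mul, Complex.ofReal_ofNat] at this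
    refine this.mono ?_
    rintro _ ⟨s, hs, rfl⟩
    rcases hs.1.eq_or_lt with e | e
    · exact Or.inr (by simp [← e])
    · exact Or.inl (by
        show 1 < ‖(s : ℂ) * cis x‖
        rwa [norm_ray (by linarith)])
  have h2 : JoinedIn (out x) (2 * cis x) 2 := by
    have := joined_Icc (f := fun s : ℝ => 2 * cis ((1 - s) * x)) (a := 0) (b := 1) (by norm_num)
      (continuous_const.mul (cont_cis.comp (by fun_prop))).continuousOn
    have e : cis 0 = 1 := by simp [cis]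
    simp only [sub_zero, one_mul, sub_self, zero_mul, e, mul_one] at this
    refine this.mono ?_
    rintro _ ⟨s, -, rfl⟩
    exact Or.inl (by
      show 1 < ‖2 * cis ((1 - s) * x)‖
      rw [norm_mul, norm_cis]
      norm_num)
  exact (h1.trans h2).symm

theorem out_dis {x : ℝ} {A : Set ℂ} (hA : A ⊆ closedBall 0 1) (hx : cis x ∉ A) :
    Disjoint (out x) A := disjoint_left.2 fun z hz h => by
  rcases hz with k | k
  · exact absurd (mem_closedBall_zero_iff.1 (hA h)) (not_le.2 k)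
  · exact hx (k ▸ h)

theorem disc_holds {a b c d : ℝ} {A B : Set ℂ} (h1 : a < b) (h2 : b < c) (h3 : c < d)
    (h4 : d < a + 2 * π) (aY : A ⊆ closedBall 0 1) (bY : B ⊆ closedBall 0 1)
    (jA : JoinedIn A (cis a) (cis c)) (jB : JoinedIn B (cis b) (cis d)) (dAB : Disjoint A B) :
    False := by
  have ar : ∀ u v, u ≤ v → Jn univ (cis '' Icc u v) (cis u) (cis v) := fun u v h =>
    ⟨subset_univ _, joined_Icc h cont_cis.continuousOn⟩
  have cb : ∀ u v, cis '' Icc u v ⊆ closedBall 0 1 := by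
    rintro u v _ ⟨s, -, rfl⟩
    rw [mem_closedBall_zero_iff, norm_cis]
  have o1 : ∀ x u v, x < u → v < x + 2 * π → Disjoint (out x) (cis '' Icc u v) :=
    fun x u v p q => out_dis (cb u v) (by
      rintro ⟨s, hs, e⟩
      exact cis_ne (p.trans_le hs.1) (hs.2.trans_lt q) e.symm)
  have o2 : ∀ x u v, v < x → x < u + 2 * π → Disjoint (out x) (cis '' Icc u v) :=
    fun x u v p q => out_dis (cb u v) (by
      rintro ⟨s, hs, e⟩
      exact cis_ne (hs.2.trans_lt p) (by linarith [hs.1]) e)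
  have aa : ∀ u v u' v', v < u' → v' < u + 2 * π → Disjoint (cis '' Icc u v) (cis '' Icc u' v') :=
    fun u v u' v' p q => disjoint_image_image fun s hs t ht =>
      cis_ne (hs.2.trans_lt (p.trans_le ht.1)) (by linarith [hs.1, ht.2])
  have j14 := (ar _ _ h4.le).symm
  rw [cis_per] at j14
  exact noK5 (Y := univ) ⟨id, continuousOn_id, injOn_id _⟩ (jn_out a) (jn_out b) (jn_out c)
    (jn_out d) (ar _ _ h1.le) ⟨subset_univ _, jA⟩ j14 (ar _ _ h2.le) ⟨subset_univ _, jB⟩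
    (ar _ _ h3.le) (o1 _ _ _ h1 (by linarith))
    (out_dis bY (disjoint_left.1 dAB jA.source_mem)) (o1 _ _ _ (by linarith) h4)
    (out_dis aY (disjoint_right.1 dAB jB.source_mem)) (o1 _ _ _ (by linarith) (by linarith))
    (o1 _ _ _ h2 (by linarith)) (o2 _ _ _ h2 (by linarith)) (o1 _ _ _ h3 (by linarith))
    (out_dis bY (disjoint_left.1 dAB jA.target_mem)) (o2 _ _ _ (by linarith) h4)
    (out_dis aY (disjoint_right.1 dAB jB.target_mem)) (o2 _ _ _ h3 (by linarith))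
    (aa _ _ _ _ h2 h4) dAB (aa _ _ _ _ h3 (by linarith)).symm

/-! ### Closed curves -/

section One

variable {X : Type} [TopologicalSpace X] [T2Space X]

/-- a chart of a curve -/
structure Ch (d : ℝ → X) : Prop where
  cont : Continuous d
  inj : InjOn d (Icc (-2) 2)
  opn : ∀ a b : ℝ, -2 ≤ a → b ≤ 2 → IsOpen (d '' Ioo a b)

theorem shrink {d : ℝ → X} (hc : Continuous d) (hi : InjOn d (Icc (-1) 1))
    (hn : d '' Icc (-1) 1 ∈ 𝓝 (d 0)) {N : Set X} (hN : N ∈ 𝓝 (d 0)) :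
    ∃ ε : ℝ, 0 < ε ∧ ε ≤ 1 / 2 ∧ Ch (fun t => d (ε * t)) ∧ ∀ t ∈ Icc (-2 : ℝ) 2, d (ε * t) ∈ N := by
  obtain ⟨V, hV, Vo, V0⟩ := _root_.mem_nhds_iff.1 (inter_mem hn hN)
  obtain ⟨r, r0, hr⟩ := Metric.mem_nhds_iff.1 (hc.continuousAt.preimage_mem_nhds (Vo.mem_nhds V0))
  obtain ⟨ε, e0, e1, e2⟩ : ∃ ε : ℝ, 0 < ε ∧ ε ≤ 1 / 2 ∧ 3 * ε ≤ r :=
    ⟨min (1 / 2) (r / 3), by positivity, min_le_left _ _, by linarith [min_le_right (1 / 2) (r / 3)]⟩
  have m1 : ∀ t ∈ Icc (-2 : ℝ) 2, ε * t ∈ Icc (-1 : ℝ) 1 := fun t ht =>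
    ⟨by nlinarith [ht.1], by nlinarith [ht.2]⟩
  have m2 : ∀ t ∈ Icc (-2 : ℝ) 2, d (ε * t) ∈ V := fun t ht => hr (by
    rw [mem_ball_zero_iff, Real.norm_eq_abs, abs_lt]
    exact ⟨by nlinarith [ht.1], by nlinarith [ht.2]⟩)
  refine ⟨ε, e0, e1, ⟨by fun_prop, fun s hs t ht e => mul_left_cancel₀ e0.ne'
    (hi (m1 s hs) (m1 t ht) e), fun a b ha hb => ?_⟩, fun t ht => (hV (m2 t ht)).2⟩
  have k : IsClosed (d '' (Icc (-1) 1 \ Ioo (ε * a) (ε * b))) :=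
    ((isCompact_Icc.diff isOpen_Ioo).image hc).isClosed
  convert Vo.inter k.isOpen_compl using 1
  ext x
  constructor
  · rintro ⟨t, ht, rfl⟩
    have t2 : t ∈ Icc (-2 : ℝ) 2 := ⟨ha.trans ht.1.le, ht.2.le.trans hb⟩
    refine ⟨m2 t t2, ?_⟩
    rintro ⟨s, hs, e⟩
    rw [hi hs.1 (m1 t t2) e] at hs
    exact hs.2 ⟨mul_lt_mul_of_pos_left ht.1 e0, mul_lt_mul_of_pos_left ht.2 e0⟩
  · rintro ⟨x1, x2⟩
    obtain ⟨s, hs, rfl⟩ := (hV x1).1
    have h : s ∈ Ioo (ε * a) (ε * b) := by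
      by_contra h
      exact x2 ⟨s, ⟨hs, h⟩, rfl⟩
    refine ⟨s / ε, ⟨?_, ?_⟩, ?_⟩
    · rw [lt_div_iff₀ e0]
      linarith [h.1]
    · rw [div_lt_iff₀ e0]
      linarith [h.2]
    · show d (ε * (s / ε)) = d s
      rw [mul_div_cancel₀ _ e0.ne']

omit [TopologicalSpace X] [T2Space X] in
theorem img_neg (d : ℝ → X) (a b : ℝ) : (fun t => d (-t)) '' Ioo a b = d '' Ioo (-b) (-a) := by
  ext x
  constructor
  · rintro ⟨t, ht, rfl⟩
    exact ⟨-t, ⟨neg_lt_neg ht.2, neg_lt_neg ht.1⟩, rfl⟩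
  · rintro ⟨t, ht, rfl⟩
    exact ⟨-t, ⟨by linarith [ht.2], by linarith [ht.1]⟩, by simp⟩

omit [T2Space X] in
theorem Ch.neg {d : ℝ → X} (h : Ch d) : Ch fun t => d (-t) :=
  ⟨h.cont.comp continuous_neg, fun s hs t ht e => neg_injective
    (h.inj ⟨by linarith [hs.2], by linarith [hs.1]⟩ ⟨by linarith [ht.2], by linarith [ht.1]⟩ e),
    fun a b ha hb => by
      rw [img_neg]
      exact h.opn _ _ (by linarith) (by linarith)⟩

omit [T2Space X] in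
theorem left_cl {d : ℝ → X} (h : Continuous d) {a b : ℝ} (ab : a < b) :
    d a ∈ closure (d '' Ioo a b) :=
  image_closure_subset_closure_image h ⟨a, by rw [closure_Ioo ab.ne]; exact ⟨le_rfl, ab.le⟩, rfl⟩

omit [T2Space X] in
theorem right_cl {d : ℝ → X} (h : Continuous d) {a b : ℝ} (ab : a < b) :
    d b ∈ closure (d '' Ioo a b) :=
  image_closure_subset_closure_image h ⟨b, by rw [closure_Ioo ab.ne]; exact ⟨ab.le, le_rfl⟩, rfl⟩

theorem cl_sub {d : ℝ → X} (h : Continuous d) (a b : ℝ) : closure (d '' Ioo a b) ⊆ d '' Icc a b :=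
  closure_minimal (image_mono Ioo_subset_Icc_self) (isCompact_Icc.image h).isClosed

/-- an open arc from `p` to `q` -/
structure Sta (p x : X) (O : Set X) (q : X) : Prop where
  opn : IsOpen O
  np : p ∉ O
  nq : q ∉ O
  cl : closure O ⊆ O ∪ {p, q}
  c1 : q ∈ closure O
  c2 : q ∈ closure (insert q O)ᶜ
  jn : JoinedIn {p}ᶜ x q

omit [T2Space X] in
theorem dich {p x q : X} {O : Set X} (h : Sta p x O q) {d : ℝ → X} (hd : Continuous d) {a b : ℝ}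
    (hp : ∀ t ∈ Ioo a b, d t ≠ p) (hq : ∀ t ∈ Ioo a b, d t ≠ q) :
    d '' Ioo a b ⊆ O ∨ Disjoint (d '' Ioo a b) O := by
  by_cases e : Disjoint (d '' Ioo a b) O
  · exact Or.inr e
  refine Or.inl ((isPreconnected_Ioo.image d hd.continuousOn).subset_of_closure_inter_subset h.opn
    (not_disjoint_iff_nonempty_inter.1 e) ?_)
  rintro _ ⟨c, t, ht, rfl⟩
  rcases h.cl c with k | k | k
  · exact k
  · exact (hp t ht k).elim
  · exact (hq t ht k).elim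

theorem step1 {p x : X} {O : Set X} {d : ℝ → X} (hd : Ch d) (hp : ∀ t ∈ Icc (-2 : ℝ) 2, d t ≠ p)
    {s : ℝ} (hs : s ∈ Ioo (-1 : ℝ) 1) (h : Sta p x O (d s)) (l : d '' Ioo (-2) s ⊆ O)
    (r : Disjoint (d '' Ioo s 2) O) : Sta p x (O ∪ d '' Ioo (-1) 1) (d 1) := by
  have n1 : ∀ t ∈ Icc (1 : ℝ) 2, d t ∉ d '' Ioo (-1) 1 := by
    rintro t ht ⟨u, hu, e⟩
    have := hd.inj ⟨by linarith [hu.1], by linarith [hu.2]⟩ ⟨by linarith [ht.1], ht.2⟩ e
    linarith [hu.2, ht.1]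
  refine ⟨h.opn.union (hd.opn _ _ (by norm_num) (by norm_num)), ?_, ?_, ?_, ?_, ?_, ?_⟩
  · rintro (k | ⟨t, ht, e⟩)
    · exact h.np k
    · exact hp t ⟨by linarith [ht.1], by linarith [ht.2]⟩ e
  · rintro (k | k)
    · exact disjoint_left.1 r ⟨1, ⟨hs.2, by norm_num⟩, rfl⟩ k
    · exact n1 1 ⟨le_rfl, by norm_num⟩ k
  · rw [closure_union]
    rintro y (k | k)
    · rcases h.cl k with k | k | k
      · exact Or.inl (Or.inl k)
      · exact Or.inr (Or.inl k)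
      · exact Or.inl (Or.inr ⟨s, hs, k.symm⟩)
    · obtain ⟨t, ht, rfl⟩ := cl_sub hd.cont _ _ k
      rcases ht.1.eq_or_lt with e | e
      · exact Or.inl (Or.inl (l ⟨t, ⟨by linarith, by linarith [hs.1]⟩, rfl⟩))
      rcases ht.2.eq_or_lt with f | f
      · exact Or.inr (Or.inr (by rw [f]; rfl))
      · exact Or.inl (Or.inr ⟨t, ⟨e, f⟩, rfl⟩)
  · exact closure_mono subset_union_right (right_cl hd.cont (by norm_num))
  · refine closure_mono ?_ (left_cl hd.cont (a := 1) (b := 2) (by norm_num))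
    rintro _ ⟨t, ht, rfl⟩ (k | k | k)
    · exact ht.1.ne' (hd.inj ⟨by linarith [ht.1], ht.2.le⟩ ⟨by norm_num, by norm_num⟩ k)
    · exact disjoint_left.1 r ⟨t, ⟨hs.2.trans ht.1, ht.2⟩, rfl⟩ k
    · exact n1 t ⟨ht.1.le, ht.2.le⟩ k
  · refine h.jn.trans ((joined_Icc hs.2.le hd.cont.continuousOn).mono ?_)
    rintro _ ⟨t, ht, rfl⟩
    exact hp t ⟨by linarith [ht.1, hs.1], by linarith [ht.2]⟩

theorem step {p x : X} {O : Set X} {d : ℝ → X} (hd : Ch d) (hp : ∀ t ∈ Icc (-2 : ℝ) 2, d t ≠ p)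
    {s : ℝ} (hs : s ∈ Ioo (-1 : ℝ) 1) (h : Sta p x O (d s)) :
    ∃ q, Sta p x (O ∪ d '' Ioo (-1) 1) q := by
  have s2 : s ∈ Ioo (-2 : ℝ) 2 := ⟨by linarith [hs.1], by linarith [hs.2]⟩
  have nb : d '' Ioo (-2) 2 ∈ 𝓝 (d s) := (hd.opn _ _ le_rfl le_rfl).mem_nhds ⟨s, s2, rfl⟩
  have L := dich h hd.cont (a := -2) (b := s)
    (fun t ht => hp t ⟨ht.1.le, (ht.2.trans s2.2).le⟩) fun t ht e =>
      ht.2.ne (hd.inj ⟨ht.1.le, (ht.2.trans s2.2).le⟩ (Ioo_subset_Icc_self s2) e)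
  have R := dich h hd.cont (a := s) (b := 2)
    (fun t ht => hp t ⟨(s2.1.trans ht.1).le, ht.2.le⟩) fun t ht e =>
      ht.1.ne' (hd.inj ⟨(s2.1.trans ht.1).le, ht.2.le⟩ (Ioo_subset_Icc_self s2) e)
  rcases L with L | L <;> rcases R with R | R
  · obtain ⟨_, ⟨t, ht, rfl⟩, k⟩ := _root_.mem_closure_iff_nhds.1 h.c2 _ nb
    refine (k ?_).elim
    rcases lt_trichotomy t s with e | e | e
    · exact Or.inr (L ⟨t, ⟨ht.1, e⟩, rfl⟩)
    · exact Or.inl (by rw [e])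
    · exact Or.inr (R ⟨t, ⟨e, ht.2⟩, rfl⟩)
  · exact ⟨_, step1 hd hp hs h L R⟩
  · have := step1 hd.neg (fun t ht => hp _ ⟨by linarith [ht.2], by linarith [ht.1]⟩) (s := -s)
      ⟨by linarith [hs.2], by linarith [hs.1]⟩ (x := x) (O := O) (by simpa using h)
      (by rw [img_neg]; simpa using R) (by rw [img_neg]; simpa using L)
    rw [img_neg] at this
    exact ⟨_, by simpa using this⟩
  · obtain ⟨_, ⟨t, ht, rfl⟩, k⟩ := _root_.mem_closure_iff_nhds.1 h.c1 _ nb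
    rcases lt_trichotomy t s with e | e | e
    · exact (disjoint_left.1 L ⟨t, ⟨ht.1, e⟩, rfl⟩ k).elim
    · exact (h.nq (e ▸ k)).elim
    · exact (disjoint_left.1 R ⟨t, ⟨e, ht.2⟩, rfl⟩ k).elim

theorem one_abs [CompactSpace X]
    (h : ∀ x : X, ∃ d : ℝ → X, d 0 = x ∧ Continuous d ∧ InjOn d (Icc (-1) 1) ∧
      d '' Icc (-1) 1 ∈ 𝓝 x)
    {c : ℝ → X} (hc : Continuous c) (hi : InjOn c (Icc (-1) 1)) (hn : c '' Icc (-1) 1 ∈ 𝓝 (c 0)) :
    JoinedIn {c 0}ᶜ (c 1) (c (-1)) := by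
  classical
  obtain ⟨ε, e0, e1, h0, -⟩ := shrink hc hi hn univ_mem
  have ne : ∀ t ∈ Icc (-1 : ℝ) 1, t ≠ 0 → c t ≠ c 0 := fun t ht n e =>
    n (hi ht ⟨by norm_num, by norm_num⟩ e)
  have ch : ∀ x : X, ∃ d : ℝ → X, x ≠ c 0 → Ch d ∧ d 0 = x ∧ ∀ t ∈ Icc (-2 : ℝ) 2, d t ≠ c 0 := by
    intro x
    by_cases k : x = c 0
    · exact ⟨c, fun n => absurd k n⟩
    obtain ⟨d, rfl, d1, d2, d3⟩ := h x
    obtain ⟨η, -, -, a, b⟩ := shrink d1 d2 d3 (isOpen_compl_singleton.mem_nhds k)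
    exact ⟨_, fun _ => ⟨a, by simp, b⟩⟩
  choose d hd using ch
  have o0 := h0.opn (-1) 1 (by norm_num) (by norm_num)
  have n0 : ∀ x, x ∉ (fun t => c (ε * t)) '' Ioo (-1) 1 → x ≠ c 0 := fun x hx e =>
    hx ⟨0, ⟨by norm_num, by norm_num⟩, by simp [e]⟩
  obtain ⟨T, T1, T2⟩ := o0.isClosed_compl.isCompact.elim_nhds_subcover
    (fun x => d x '' Ioo (-1) 1) fun x hx => ((hd x (n0 x hx)).1.opn _ _ (by norm_num)
      (by norm_num)).mem_nhds ⟨0, ⟨by norm_num, by norm_num⟩, (hd x (n0 x hx)).2.1⟩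
  by_contra hj
  have st : ∀ k : ℕ, ∃ O q, Sta (c 0) (c 1) O q ∧ (fun t => c (ε * t)) '' Ioo 0 1 ⊆ O ∧
      k ≤ (T.filter fun x => d x '' Ioo (-1) 1 ⊆ O).card := by
    intro k
    induction k with
    | zero =>
      refine ⟨_, (fun t => c (ε * t)) 1, ⟨h0.opn 0 1 (by norm_num) (by norm_num), ?_, ?_, ?_,
        right_cl h0.cont one_pos, ?_, ?_⟩, Subset.rfl, Nat.zero_le _⟩
      · rintro ⟨t, ht, e⟩
        exact ne _ ⟨by nlinarith [ht.1], by nlinarith [ht.2]⟩ (mul_pos e0 ht.1).ne' e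
      · rintro ⟨t, ht, e⟩
        exact ht.2.ne (h0.inj ⟨by linarith [ht.1], by linarith [ht.2]⟩
          ⟨by norm_num, by norm_num⟩ e)
      · intro y hy
        obtain ⟨t, ht, rfl⟩ := cl_sub h0.cont _ _ hy
        rcases ht.1.eq_or_lt with e | e
        · exact Or.inr (Or.inl (by simp [← e]))
        rcases ht.2.eq_or_lt with f | f
        · exact Or.inr (Or.inr (by rw [f]; rfl))
        · exact Or.inl ⟨t, ⟨e, f⟩, rfl⟩
      · refine closure_mono ?_ (left_cl h0.cont (a := 1) (b := 2) (by norm_num))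
        rintro _ ⟨t, ht, rfl⟩ (k | ⟨u, hu, k⟩)
        · exact ht.1.ne' (h0.inj ⟨by linarith [ht.1], ht.2.le⟩ ⟨by norm_num, by norm_num⟩ k)
        · have := h0.inj ⟨by linarith [hu.1], by linarith [hu.2]⟩ ⟨by linarith [ht.1], ht.2.le⟩ k
          linarith [hu.2, ht.1]
      · refine ((joined_Icc (f := c) (a := ε * 1) (b := 1) (by linarith)
          hc.continuousOn).mono ?_).symm
        rintro _ ⟨t, ht, rfl⟩
        exact ne t ⟨by linarith [ht.1], ht.2⟩ (by linarith [ht.1] : 0 < t).ne'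
    | succ k ih =>
      obtain ⟨O, q, s, s0, hk⟩ := ih
      have hq : q ∉ (fun t => c (ε * t)) '' Ioo (-1) 1 := by
        rintro ⟨t, ht, rfl⟩
        have t0 : t < 0 := by
          rcases lt_trichotomy t 0 with e | e | e
          · exact e
          · exact (s.jn.target_mem (by simp [e])).elim
          · exact (s.nq (s0 ⟨t, ⟨e, ht.2⟩, rfl⟩)).elim
        have t1 : ε * t < 0 := mul_neg_of_pos_of_neg e0 t0
        refine hj (s.jn.trans ((joined_Icc (f := c) (a := -1) (b := ε * t)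
          (by nlinarith [ht.1]) hc.continuousOn).mono ?_).symm)
        rintro _ ⟨u, hu, rfl⟩
        exact ne u ⟨hu.1, by linarith [hu.2]⟩ (by linarith [hu.2] : u < 0).ne
      obtain ⟨x, hx, t, ht, rfl⟩ := mem_iUnion₂.1 (T2 hq)
      obtain ⟨a, -, b⟩ := hd x (n0 x (T1 x hx))
      obtain ⟨q', s'⟩ := step a b ht s
      refine ⟨_, q', s', s0.trans subset_union_left, Nat.succ_le_of_lt (hk.trans_lt
        (Finset.card_lt_card ⟨fun y hy => ?_, fun e => ?_⟩))⟩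
      · exact Finset.mem_filter.2 ⟨(Finset.mem_filter.1 hy).1,
          (Finset.mem_filter.1 hy).2.trans subset_union_left⟩
      · exact s.nq ((Finset.mem_filter.1 (e (Finset.mem_filter.2 ⟨hx, subset_union_right⟩))).2
          ⟨t, ht, rfl⟩)
  obtain ⟨O, -, -, -, k⟩ := st (T.card + 1)
  have := Finset.card_filter_le T fun x => d x '' Ioo (-1) 1 ⊆ O
  omega

end One

theorem lift_arc {Z : Set α} {c : ℝ → α} (hc : ContinuousOn c (Icc (-1) 1))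
    (hi : InjOn c (Icc (-1) 1)) (hm : MapsTo c (Icc (-1) 1) Z) (hn : c '' Icc (-1) 1 ∈ 𝓝[Z] (c 0)) :
    ∃ d : ℝ → Z, (∀ t ∈ Icc (-1 : ℝ) 1, (d t : α) = c t) ∧ Continuous d ∧ InjOn d (Icc (-1) 1) ∧
      d '' Icc (-1) 1 ∈ 𝓝 (d 0) := by
  have h : (-1 : ℝ) ≤ 1 := by norm_num
  obtain ⟨d, e, dc⟩ : ∃ d : ℝ → Z, (∀ t ∈ Icc (-1 : ℝ) 1, (d t : α) = c t) ∧ Continuous d :=
    ⟨fun t => ⟨c (projIcc (-1) 1 h t), hm (projIcc (-1) 1 h t).2⟩,
      fun t ht => by simp [projIcc_of_mem h ht],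
      (hc.domRestrict.comp continuous_projIcc).subtype_mk _⟩
  refine ⟨d, e, dc, fun s hs t ht k => hi hs ht (by rw [← e s hs, k, e t ht]), ?_⟩
  rw [← e 0 ⟨by norm_num, by norm_num⟩] at hn
  refine mem_of_superset (preimage_coe_mem_nhds_subtype.2 hn) ?_
  rintro x ⟨t, ht, k⟩
  exact ⟨t, ht, Subtype.ext ((e t ht).trans k)⟩

theorem one_holds [T2Space α] {Z : Set α} (hZ : IsCompact Z)
    (h : ∀ p ∈ Z, ∃ c : ℝ → α, c 0 = p ∧ ContinuousOn c (Icc (-1) 1) ∧ InjOn c (Icc (-1) 1) ∧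
      MapsTo c (Icc (-1) 1) Z ∧ c '' Icc (-1) 1 ∈ 𝓝[Z] p)
    {c : ℝ → α} (hc : ContinuousOn c (Icc (-1) 1)) (hi : InjOn c (Icc (-1) 1))
    (hm : MapsTo c (Icc (-1) 1) Z) (hn : c '' Icc (-1) 1 ∈ 𝓝[Z] (c 0)) :
    JoinedIn (Z \ {c 0}) (c 1) (c (-1)) := by
  have : CompactSpace Z := isCompact_iff_compactSpace.1 hZ
  obtain ⟨d, e, d1, d2, d3⟩ := lift_arc hc hi hm hn
  have j := (one_abs (fun x : Z => by
    obtain ⟨g, g0, g1, g2, g3, g4⟩ := h x x.2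
    obtain ⟨f, f0, f1, f2, f3⟩ := lift_arc g1 g2 g3 (g0 ▸ g4)
    have k : f 0 = x := Subtype.ext ((f0 0 ⟨by norm_num, by norm_num⟩).trans g0)
    exact ⟨f, k, f1, f2, k ▸ f3⟩) d1 d2 d3).map continuous_subtype_val
  rw [e 1 ⟨by norm_num, le_rfl⟩, e (-1) ⟨le_rfl, by norm_num⟩] at j
  refine j.mono ?_
  rintro _ ⟨x, hx, rfl⟩
  exact ⟨x.2, fun k => hx (Subtype.ext (k.trans (e 0 ⟨by norm_num, by norm_num⟩).symm))⟩

end Pool.Agent.Lib.MP_16d934_gt.CPlan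

namespace Pool.Agent.Lib.MP_16d934_gt

open CPlan

theorem planS : PlanS where
  int _ _ _ _ _ _ _ _ _ _ _ a b c d e f g h i j k l m n o p q r :=
    int_holds a b c d e f g h i j k l m n o p q r
  bdry _ _ _ _ _ _ _ _ _ _ _ _ _ _ a b c d e f g h i j k l m n o p q r s t u v w x :=
    bdry_holds a b c d e f g h i j k l m n o p q r s t u v w x
  disc _ _ _ _ _ _ a b c d e f g h i := disc_holds a b c d e f g h i
  one _ a b _ c d e f := one_holds a b c d e f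

end Pool.Agent.Lib.MP_16d934_gt
end
end

-- part Pool.Agent.Lib.MP_16d934_gt.DEnd
section

/-! The angle function at the corners and at the pole. -/

set_option autoImplicit false

open Set Metric Filter Topology Asymptotics
open scoped InnerProductSpace Real

noncomputable section

namespace Pool.Agent.Lib.MP_16d934_gt

namespace DEnd

/-! ### Segments in the space of jets -/

theorem js_le {j : J4} (h : j ∈ JS) : j.2.1 ^ 2 / (j.1 * (1 - j.1)) ≤ 1 ∧ j.2.2.1 ^ 2 / j.1 ≤ 1 ∧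
    j.2.2.2 ^ 2 / (1 - j.1) ≤ 1 := by
  obtain ⟨h0, h1, -, -, -, e⟩ := h
  have h2 := sub_pos.2 h1
  have a : 0 ≤ j.2.1 ^ 2 / (j.1 * (1 - j.1)) := by positivity
  have b : 0 ≤ j.2.2.1 ^ 2 / j.1 := by positivity
  have c : 0 ≤ j.2.2.2 ^ 2 / (1 - j.1) := by positivity
  exact ⟨by linarith, by linarith, by linarith⟩

/-- the growing coordinate of a segment -/
def gr (d x t : ℝ) : ℝ := √(d - t ^ 2 * (d - x ^ 2))

theorem gr_spec {d x t : ℝ} (hd : 0 < d) (hx : 0 ≤ x) (h : x ^ 2 / d ≤ 1) (ht : t ∈ Icc (0 : ℝ) 1) :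
    gr d x 1 = x ∧ gr d x t ^ 2 / d = 1 - t ^ 2 * (1 - x ^ 2 / d) ∧ x ^ 2 / d ≤ gr d x t ^ 2 / d := by
  have t1 : t ^ 2 ≤ 1 := pow_le_one₀ ht.1 ht.2
  have h1 := (div_le_one hd).1 h
  have e : gr d x t ^ 2 / d = 1 - t ^ 2 * (1 - x ^ 2 / d) := by
    rw [gr, Real.sq_sqrt (by nlinarith [sq_nonneg x])]
    field_simp
  refine ⟨by simp [gr, hx], e, ?_⟩
  rw [e]
  nlinarith

theorem ivt {Λ : J4 → ℝ} (hΛ : ContinuousOn Λ JS) {γ : ℝ → J4} (hγ : Continuous γ)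
    {l : ℝ} (h : ∀ t ∈ Icc (0 : ℝ) 1, γ t ∈ JS ∧ Λ (γ t) ≠ l) :
    (l < Λ (γ 0) → l < Λ (γ 1)) ∧ (Λ (γ 0) < l → Λ (γ 1) < l) := by
  have c : ContinuousOn (fun t => Λ (γ t)) (Icc 0 1) :=
    hΛ.comp hγ.continuousOn fun t ht => (h t ht).1
  refine ⟨fun a => lt_of_not_ge fun b => ?_, fun a => lt_of_not_ge fun b => ?_⟩
  · obtain ⟨t, ht, e⟩ := intermediate_value_Icc' zero_le_one c ⟨b, a.le⟩
    exact (h t ht).2 e
  · obtain ⟨t, ht, e⟩ := intermediate_value_Icc zero_le_one c ⟨a.le, b⟩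
    exact (h t ht).2 e

variable {Λ : J4 → ℝ} {l : ℝ} {j : J4}

theorem seg_ga (hΛ : Spec1 Λ) (hl : l < π) (hj : j ∈ JS) (h : ∀ i ∈ JS, i.1 = j.1 →
    j.2.2.2 ^ 2 / (1 - j.1) ≤ i.2.2.2 ^ 2 / (1 - j.1) → Λ i ≠ l) : l < Λ j := by
  have g := fun t => gr_spec (t := t) (sub_pos.2 hj.2.1) hj.2.2.2.2.1 (js_le hj).2.2
  have m : ∀ t ∈ Icc (0 : ℝ) 1, (j.1, t * j.2.1, t * j.2.2.1, gr (1 - j.1) j.2.2.2 t) ∈ JS :=
    fun t ht => ⟨hj.1, hj.2.1, mul_nonneg ht.1 hj.2.2.1, mul_nonneg ht.1 hj.2.2.2.1,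
      Real.sqrt_nonneg _, by
        simp only [(g t ht).2.1]
        linear_combination t ^ 2 * hj.2.2.2.2.2⟩
  have := (ivt hΛ.cont (γ := fun t => (j.1, t * j.2.1, t * j.2.2.1, gr (1 - j.1) j.2.2.2 t))
    (by unfold gr; fun_prop) fun t ht => ⟨m t ht, h _ (m t ht) rfl (g t ht).2.2⟩).1
    (by rwa [(hΛ.top _ (m 0 (by simp))).2 (by simp)])
  simpa [(g 0 (by simp)).1] using this

theorem seg_be (hΛ : Spec1 Λ) (hl : 0 < l) (hj : j ∈ JS) (h : ∀ i ∈ JS, i.1 = j.1 →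
    j.2.2.1 ^ 2 / j.1 ≤ i.2.2.1 ^ 2 / j.1 → Λ i ≠ l) : Λ j < l := by
  have g := fun t => gr_spec (t := t) hj.1 hj.2.2.2.1 (js_le hj).2.1
  have m : ∀ t ∈ Icc (0 : ℝ) 1, (j.1, t * j.2.1, gr j.1 j.2.2.1 t, t * j.2.2.2) ∈ JS :=
    fun t ht => ⟨hj.1, hj.2.1, mul_nonneg ht.1 hj.2.2.1, Real.sqrt_nonneg _,
      mul_nonneg ht.1 hj.2.2.2.2.1, by
        simp only [(g t ht).2.1]
        linear_combination t ^ 2 * hj.2.2.2.2.2⟩
  have := (ivt hΛ.cont (γ := fun t => (j.1, t * j.2.1, gr j.1 j.2.2.1 t, t * j.2.2.2))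
    (by unfold gr; fun_prop) fun t ht => ⟨m t ht, h _ (m t ht) rfl (g t ht).2.2⟩).2
    (by rwa [(hΛ.zero _ (m 0 (by simp))).2 (by simp)])
  simpa [(g 0 (by simp)).1] using this

theorem seg_al (hΛ : Spec1 Λ) (hj : j ∈ JS) (h : ∀ i ∈ JS, i.1 = j.1 →
    i.2.2.1 ^ 2 / j.1 ≤ j.2.2.1 ^ 2 / j.1 → i.2.2.2 ^ 2 / (1 - j.1) ≤ j.2.2.2 ^ 2 / (1 - j.1) →
    Λ i ≠ l) : ∃ i ∈ JS, i.1 = j.1 ∧ i.2.2.1 = 0 ∧ i.2.2.2 = 0 ∧ (l < Λ i → l < Λ j) ∧
      (Λ i < l → Λ j < l) := by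
  have h0 := hj.1
  have h1 := sub_pos.2 hj.2.1
  have g := fun t => gr_spec (t := t) (mul_pos h0 h1) hj.2.2.1 (js_le hj).1
  have m : ∀ t ∈ Icc (0 : ℝ) 1,
      (j.1, gr (j.1 * (1 - j.1)) j.2.1 t, t * j.2.2.1, t * j.2.2.2) ∈ JS :=
    fun t ht => ⟨hj.1, hj.2.1, Real.sqrt_nonneg _, mul_nonneg ht.1 hj.2.2.2.1,
      mul_nonneg ht.1 hj.2.2.2.2.1, by
        simp only [(g t ht).2.1]
        linear_combination t ^ 2 * hj.2.2.2.2.2⟩
  have k : ∀ t ∈ Icc (0 : ℝ) 1, ∀ x d : ℝ, 0 < d → (t * x) ^ 2 / d ≤ x ^ 2 / d := fun t ht x d hd => by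
    rw [mul_pow]
    gcongr
    exact mul_le_of_le_one_left (sq_nonneg x) (pow_le_one₀ ht.1 ht.2)
  have := ivt hΛ.cont (γ := fun t => (j.1, gr (j.1 * (1 - j.1)) j.2.1 t, t * j.2.2.1, t * j.2.2.2))
    (by unfold gr; fun_prop) fun t ht => ⟨m t ht, h _ (m t ht) rfl (k t ht _ _ h0) (k t ht _ _ h1)⟩
  exact ⟨_, m 0 (by simp), rfl, by simp, by simp, by simpa [(g 0 (by simp)).1] using this⟩

theorem near_lo {c : ℝ → ℝ} (h1 : Spec1 Λ) (h2 : Spec2 Λ c) (hl : l ∈ Ioo 0 π) {μ : ℝ}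
    (hμ : μ < 4 * c l ^ 2) : ∃ ρ > 0, ∀ j ∈ JS, j.1 < ρ →
      (1 - j.2.2.2 ^ 2 / (1 - j.1)) / j.1 ≤ μ → l < Λ j := by
  obtain ⟨ρ, h0, h⟩ := h2.slope l hl ((4 * c l ^ 2 - μ) / 2) (by linarith)
  refine ⟨ρ, h0, fun j hj a b => seg_ga h1 hl.2 hj fun i hi e k hi' => ?_⟩
  have := (abs_le.1 (h i hi hi' (e ▸ a))).1
  rw [e] at this
  have := div_le_div_of_nonneg_right (sub_le_sub_left k 1) hj.1.le
  linarith

theorem near_hi {c : ℝ → ℝ} (h1 : Spec1 Λ) (h2 : Spec2 Λ c) (hl : l ∈ Ioo 0 π) {μ : ℝ}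
    (hμ : 4 * c l ^ 2 < μ) : ∃ ρ > 0, ∀ j ∈ JS, j.1 < ρ →
      μ ≤ (1 - j.2.2.2 ^ 2 / (1 - j.1)) / j.1 → Λ j < l := by
  obtain ⟨ρ, h0, h⟩ := h2.slope l hl ((μ - 4 * c l ^ 2) / 2) (by linarith)
  obtain ⟨ρ', h0', h'⟩ := h1.nearP l hl
  refine ⟨min ρ ρ', lt_min h0 h0', fun j hj a b => ?_⟩
  obtain ⟨i, hi, e, -, k, -, f⟩ := seg_al (l := l) h1 hj fun i hi e _ k hi' => by
    have := (abs_le.1 (h i hi hi' (e ▸ (lt_min_iff.1 a).1))).2
    rw [e] at this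
    have := div_le_div_of_nonneg_right (sub_le_sub_left k 1) hj.1.le
    linarith
  exact f (h' i hi (e ▸ (lt_min_iff.1 a).2) k)

theorem small (C : ℝ) {c κ κ' : ℝ} (hc : 0 < c) (h : κ < κ') :
    ∃ ρ > 0, ∀ s, 0 < s → s < ρ → C * s ^ κ' < c * s ^ κ := by
  have h1 : ContinuousAt (fun s : ℝ => C * s ^ (κ' - κ)) 0 :=
    (continuous_const.mul (Real.continuous_rpow_const (sub_pos.2 h).le)).continuousAt
  obtain ⟨ρ, h0, h2⟩ := Metric.eventually_nhds_iff.1 (h1.eventually (gt_mem_nhds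
    (show C * (0 : ℝ) ^ (κ' - κ) < c by simpa [(sub_pos.2 h).ne'])))
  refine ⟨ρ, h0, fun s a b => ?_⟩
  rw [show κ' = κ' - κ + κ by ring, Real.rpow_add a, ← mul_assoc]
  exact mul_lt_mul_of_pos_right (h2 (by simpa [abs_of_pos a])) (Real.rpow_pos_of_pos a κ)

theorem pole_lo (h1 : Spec1 Λ) (hl : l ∈ Ioo 0 π) {κ c : ℝ} (hκ : κ < π / l - 1) (hc : 0 < c) :
    ∃ ρ > 0, ∀ j ∈ JS, 1 - j.1 < ρ → c * (1 - j.1) ^ κ ≤ 1 - j.2.2.1 ^ 2 / j.1 → l < Λ j := by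
  obtain ⟨κ', k1, k2⟩ := exists_between hκ
  obtain ⟨C, ρ, h0, h⟩ := h1.upQ l hl κ' k2
  obtain ⟨ρ', h0', h'⟩ := h1.nearQ l hl
  obtain ⟨ρ'', h0'', h''⟩ := small C hc k1
  refine ⟨min ρ (min ρ' ρ''), by positivity, fun j hj a b => ?_⟩
  simp only [lt_min_iff] at a
  obtain ⟨i, hi, e, k, -, f, -⟩ := seg_al (l := l) h1 hj fun i hi e k _ hi' => by
    have := h i hi hi' (e ▸ a.1)
    rw [e] at this
    linarith [h'' _ (sub_pos.2 hj.2.1) a.2.2]
  exact f (h' i hi (e ▸ a.2.1) k)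

theorem pole_hi (h1 : Spec1 Λ) (hl : l ∈ Ioo 0 π) {κ : ℝ} (hκ : π / l - 1 < κ) (c : ℝ) :
    ∃ ρ > 0, ∀ j ∈ JS, 1 - j.1 < ρ → 1 - j.2.2.1 ^ 2 / j.1 ≤ c * (1 - j.1) ^ κ → Λ j < l := by
  obtain ⟨κ', k1, k2⟩ := exists_between hκ
  obtain ⟨C, hC, ρ, h0, h⟩ := h1.loQ l hl κ' k1
  obtain ⟨ρ', h0', h'⟩ := small c hC k2
  refine ⟨min ρ ρ', lt_min h0 h0', fun j hj a b => seg_be h1 hl.1 hj fun i hi e k hi' => ?_⟩
  have := h i hi hi' (e ▸ (lt_min_iff.1 a).1)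
  rw [e] at this
  linarith [h' _ (sub_pos.2 hj.2.1) (lt_min_iff.1 a).2]

/-! ### The jet in a frame adapted to the two planes -/

/-- squared distance from the circle -/
def fa (y : P2) (z : ℝ) : ℝ := (y.1 ^ 2 + y.2 ^ 2) / (1 + y.1 ^ 2 + y.2 ^ 2 + z ^ 2)

/-- squared tilt of the normal -/
def fE (y : P2) (z p q : ℝ) : ℝ := ((1 + z ^ 2) * (p ^ 2 + q ^ 2) + (y.1 * p + y.2 * q) ^ 2) /
  ((1 + z ^ 2) * (1 + p ^ 2 + q ^ 2 + (z - y.1 * p - y.2 * q) ^ 2))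

theorem u34_sq {O : Iso} (hO : CFr O) (x n : E4) :
    u34 (O x) (O n) ^ 2 = (x 0 * n 3 - x 3 * n 0) ^ 2 := by
  have h : ∀ x n : E4, O x 2 * O n 2 + O x 3 * O n 3 = x 0 * n 0 + x 3 * n 3 := fun x n => by
    have a := O.inner_map_map x n
    have b := hO (x + n)
    have c := hO x
    have d := hO n
    simp only [inner4, aa, map_add, PiLp.add_apply] at a b c d
    linear_combination a - (b - c - d) / 2
  unfold u34
  linear_combination (O n 2 * O n 2 + O n 3 * O n 3) * h x x + (x 0 * x 0 + x 3 * x 3) * h n n -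
    (O x 2 * O n 2 + O x 3 * O n 3 + (x 0 * n 0 + x 3 * n 3)) * h x n

theorem form {O : Iso} (hO : CFr O) (y : P2) (z p q : ℝ) : aa (O (gn y z)) = fa y z ∧
    1 - u34 (O (gn y z)) (O (nrm y z p q)) ^ 2 / (1 - fa y z) = fE y z p q := by
  have a : 0 < 1 + y.1 ^ 2 + y.2 ^ 2 + z ^ 2 := by positivity
  have b : 0 < 1 + p ^ 2 + q ^ 2 + (z - y.1 * p - y.2 * q) ^ 2 := by positivity
  have e : 1 - fa y z = (1 + z ^ 2) / (1 + y.1 ^ 2 + y.2 ^ 2 + z ^ 2) := by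
    unfold fa
    field_simp
    ring
  have f : (gn y z 0 * nrm y z p q 3 - gn y z 3 * nrm y z p q 0) ^ 2 =
      (√(1 + y.1 ^ 2 + y.2 ^ 2 + z ^ 2))⁻¹ ^ 2 *
        (√(1 + p ^ 2 + q ^ 2 + (z - y.1 * p - y.2 * q) ^ 2))⁻¹ ^ 2 *
          (1 - z * (y.1 * p + y.2 * q - z)) ^ 2 := by
    simp [gn, nrm, -inv_pow]
    ring
  constructor
  · rw [hO]
    simp [gn, fa, mul_pow, Real.sq_sqrt a.le]
    field_simp
  · rw [u34_sq hO, f, e, inv_pow, inv_pow, Real.sq_sqrt a.le, Real.sq_sqrt b.le, fE]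
    field_simp
    ring

theorem fE_bd (y : P2) (z p q : ℝ) :
    (p ^ 2 + q ^ 2) / (1 + p ^ 2 + q ^ 2 + (z - y.1 * p - y.2 * q) ^ 2) ≤ fE y z p q ∧
    fE y z p q ≤ (p ^ 2 + q ^ 2) / (1 + p ^ 2 + q ^ 2 + (z - y.1 * p - y.2 * q) ^ 2) *
      (1 + (y.1 ^ 2 + y.2 ^ 2)) := by
  have a : 0 < 1 + z ^ 2 := by positivity
  have b : 0 < 1 + p ^ 2 + q ^ 2 + (z - y.1 * p - y.2 * q) ^ 2 := by positivity
  rw [fE, ← div_div, div_mul_eq_mul_div]
  constructor <;> gcongr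
  · rw [le_div_iff₀ a]
    nlinarith [sq_nonneg (y.1 * p + y.2 * q)]
  · rw [div_le_iff₀ a]
    have : 0 ≤ (p ^ 2 + q ^ 2) * (y.1 ^ 2 + y.2 ^ 2) * z ^ 2 := by positivity
    nlinarith [sq_nonneg (y.1 * q - y.2 * p)]

theorem asym {u p q : P2 → ℝ} (hu : Tendsto u (𝓝 0) (𝓝 0)) (hp : Tendsto p (𝓝 0) (𝓝 0))
    (hq : Tendsto q (𝓝 0) (𝓝 0)) {e : ℕ} {K : ℝ}
    (h : Tendsto (fun y => (p y ^ 2 + q y ^ 2) / (y.1 ^ 2 + y.2 ^ 2) ^ e) (𝓝[≠] 0) (𝓝 K)) :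
    Tendsto (fun y => fa y (u y)) (𝓝 0) (𝓝 0) ∧
      Tendsto (fun y => fE y (u y) (p y) (q y) / fa y (u y) ^ e) (𝓝[≠] 0) (𝓝 K) := by
  have y1 : Tendsto (fun y : P2 => y.1) (𝓝 0) (𝓝 0) := continuous_fst.tendsto 0
  have y2 : Tendsto (fun y : P2 => y.2) (𝓝 0) (𝓝 0) := continuous_snd.tendsto 0
  have r := (((y1.pow 2).const_add 1).add (y2.pow 2)).add (hu.pow 2)
  have w := (((hp.pow 2).const_add 1).add (hq.pow 2)).add
    (((hu.sub (y1.mul hp)).sub (y2.mul hq)).pow 2)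
  have l0 := ((y1.pow 2).add (y2.pow 2)).div r (by simp)
  have l1 := h.mul (((r.pow e).div w (by simp)).mono_left nhdsWithin_le_nhds)
  have l2 := l1.mul ((((y1.pow 2).add (y2.pow 2)).const_add 1).mono_left nhdsWithin_le_nhds)
  simp only [ne_eq, OfNat.ofNat_ne_zero, not_false_eq_true, zero_pow, add_zero, mul_zero, sub_self,
    one_pow, div_one, mul_one] at l0 l1 l2
  refine ⟨l0, tendsto_of_tendsto_of_tendsto_of_le_of_le l1 l2 (fun y => ?_) fun y => ?_⟩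
  · have := mul_le_mul_of_nonneg_right (fE_bd y (u y) (p y) (q y)).1
      (show 0 ≤ (fa y (u y) ^ e)⁻¹ by unfold fa; positivity)
    refine le_of_eq_of_le ?_ this
    simp only [fa, div_pow, inv_div, Pi.div_apply]
    ring
  · have := mul_le_mul_of_nonneg_right (fE_bd y (u y) (p y) (q y)).2
      (show 0 ≤ (fa y (u y) ^ e)⁻¹ by unfold fa; positivity)
    refine le_of_le_of_eq this ?_
    simp only [fa, div_pow, inv_div, Pi.div_apply]
    ring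

/-- the limit of the squared gradient from a complex leading term -/
theorem grad_lim {p q : P2 → ℝ} {c : ℂ} {e : ℕ}
    (h : (fun y : P2 => (⟨p y, -q y⟩ : ℂ) - c * (⟨y.1, y.2⟩ : ℂ) ^ e) =o[𝓝 0]
      fun y => ‖(⟨y.1, y.2⟩ : ℂ)‖ ^ e) :
    Tendsto (fun y => (p y ^ 2 + q y ^ 2) / (y.1 ^ 2 + y.2 ^ 2) ^ e) (𝓝[≠] 0) (𝓝 (‖c‖ ^ 2)) := by
  have h1 : (fun y : P2 => ‖(⟨p y, -q y⟩ : ℂ)‖ - ‖c‖ * ‖(⟨y.1, y.2⟩ : ℂ)‖ ^ e) =o[𝓝 0]
      fun y => ‖(⟨y.1, y.2⟩ : ℂ)‖ ^ e := (IsBigO.of_bound' (Eventually.of_forall fun y => by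
        rw [← norm_pow, ← norm_mul]
        exact abs_norm_sub_norm_le _ _)).trans_isLittleO h
  have h2 := ((h1.mono (nhdsWithin_le_nhds (s := {0}ᶜ))).tendsto_div_nhds_zero.add_const ‖c‖).pow 2
  rw [zero_add] at h2
  refine h2.congr' (eventually_mem_nhdsWithin.mono fun y hy => ?_)
  have n : ‖(⟨y.1, y.2⟩ : ℂ)‖ ≠ 0 := norm_ne_zero_iff.2 fun a =>
    hy (Prod.ext (congrArg Complex.re a) (congrArg Complex.im a))
  simp only
  rw [sub_div, mul_div_cancel_right₀ _ (pow_ne_zero e n), sub_add_cancel, div_pow, ← pow_mul,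
    mul_comm e 2, pow_mul, Complex.sq_norm, Complex.sq_norm]
  simp [Complex.normSq_apply, sq]

theorem corner_lim (hD : DerS) {u : P2 → ℝ} (hu : AnalyticAt ℝ u 0) (h0 : fderiv ℝ u 0 = 0)
    (h1 : d1 (d2 u) 0 = 0) (h2 : d2 (d2 u) 0 = -d1 (d1 u) 0) :
    Tendsto (fun y => (d1 u y ^ 2 + d2 u y ^ 2) / (y.1 ^ 2 + y.2 ^ 2) ^ 1) (𝓝[≠] 0)
      (𝓝 (d1 (d1 u) 0 ^ 2)) := by
  obtain ⟨a1, a2, e, -⟩ := hD u 0 hu
  have b1 := a1.differentiableAt.hasFDerivAt.isLittleO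
  have b2 := a2.differentiableAt.hasFDerivAt.isLittleO
  have c1 : d1 u 0 = 0 := by simp [d1, h0]
  have c2 : d2 u 0 = 0 := by simp [d2, h0]
  simp only [(hD _ 0 a1).2.2.2.2.2.2.2.2.1, (hD _ 0 a2).2.2.2.2.2.2.2.2.1, e, h1, h2, c1, c2,
    sub_zero, zero_mul, add_zero, zero_add] at b1 b2
  have := grad_lim (p := d1 u) (q := d2 u) (c := (d1 (d1 u) 0 : ℝ)) (e := 1) (by
    refine ((IsBigO.of_bound' (Eventually.of_forall fun y => ?_)).trans_isLittleO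
      (b1.norm_left.add b2.norm_left)).trans_isBigO (IsBigO.of_bound' (Eventually.of_forall
        fun y => ?_))
    · refine (Complex.norm_le_abs_re_add_abs_im _).trans (le_of_eq_of_le ?_ (le_abs_self _))
      simp [← abs_neg (d2 u y + _)]
      congr 1
      ring
    · rw [pow_one, norm_norm]
      exact norm_prod_le_iff.2 ⟨Complex.abs_re_le_norm ⟨y.1, y.2⟩, Complex.abs_im_le_norm ⟨y.1, y.2⟩⟩)
  rwa [Complex.norm_real, Real.norm_eq_abs, sq_abs] at this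

theorem pole_lim {u : P2 → ℝ} {m : ℕ} {c : ℂ} (hm : 2 ≤ m) (h : Lead u 0 T0 m c) :
    Tendsto (fun y => (d1 u y ^ 2 + d2 u y ^ 2) / (y.1 ^ 2 + y.2 ^ 2) ^ (m - 1)) (𝓝[≠] 0)
      (𝓝 (‖c * m‖ ^ 2)) := by
  obtain ⟨-, C, δ, hδ, h⟩ := h
  have z0 : Tendsto (fun y : P2 => ‖(⟨y.1, y.2⟩ : ℂ)‖) (𝓝 0) (𝓝 0) := by
    have := Complex.equivRealProdCLM.symm.continuous.norm.tendsto 0
    rwa [map_zero, norm_zero] at this
  refine grad_lim ((IsBigO.of_bound (2 * C) ?_).trans_isLittleO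
    ((isLittleO_pow_pow (show m - 1 < m by omega)).comp_tendsto z0))
  filter_upwards [z0.eventually (gt_mem_nhds hδ)] with y hy
  have a := (h _ hy).2.2 1
  have b := (h _ hy).2.2 Complex.I
  have t : ∀ z : ℂ, T0 z = (z.re, z.im) := fun _ => rfl
  refine (Complex.norm_le_abs_re_add_abs_im _).trans ?_
  rw [t, t, zero_add, ← abs_neg] at b
  rw [t, t, zero_add, mul_one] at a
  simp only [Complex.one_re, Complex.one_im, Complex.I_re, Complex.I_im, Complex.mul_I_re,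
    norm_one, Complex.norm_I, mul_one, sub_neg_eq_add, neg_add] at a b
  simp only [Complex.sub_re, Complex.sub_im, Function.comp, norm_pow, norm_norm, d1, d2]
  rw [sub_eq_add_neg (-_)]
  linarith

/-! ### Charts -/

theorem tend {F : Filter E4} {R : E4 → ℝ} {a b : ℝ} (ha : a < l) (hb : l < b)
    (lo : ∀ t ∈ Ioo a l, ∀ᶠ x in F, t < R x) (hi : ∀ t ∈ Ioo l b, ∀ᶠ x in F, R x < t) :
    Tendsto R F (𝓝 l) := by
  refine tendsto_order.2 ⟨fun t ht => ?_, fun t ht => ?_⟩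
  · obtain ⟨s, h1, h2⟩ := exists_between (max_lt ha ht)
    exact (lo s ⟨(max_lt_iff.1 h1).1, h2⟩).mono fun x h => (max_lt_iff.1 h1).2.trans h
  · obtain ⟨s, h1, h2⟩ := exists_between (lt_min hb ht)
    exact (hi s ⟨h1, (lt_min_iff.1 h2).1⟩).mono fun x h => h.trans (lt_min_iff.1 h2).2

variable {S : Set E4} {O : Iso} {δ : ℝ} {u : P2 → ℝ}

theorem jet_nor (hC : ChartS) (hI : InvS) (hS : IsMin S) {x n : E4} (hx : x ∈ S)
    (hn : IsNor S x n) : jet x (nor S x) = jet x n := by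
  rcases ((hC.nor_spec S hS x hx).2 n).1 hn with rfl | rfl
  · rfl
  · exact (hI.neg _ _).symm

theorem jet_mem (hC : ChartS) (hI : InvS) (hS : IsMin S) {x : E4} (hx : x ∈ Gd S) :
    jet x (nor S x) ∈ JS :=
  hI.mem _ _ (hC.unit S hS x hx.1.1) (hC.nor_spec S hS x hx.1.1).1.1
    (hC.nor_spec S hS x hx.1.1).1.2.1 hx.2.1 hx.2.2

theorem gX_zero (h : Chart S O δ u) : gX O u 0 = O (ee 0) := by
  rw [gX, h.zero]
  congr 1
  ext i
  fin_cases i <;> simp [gn, ee]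

theorem facts (hC : ChartS) (h : Chart S O δ u) : map (gX O u) (𝓝 0) = 𝓝[S] (O (ee 0)) ∧
    ∀ y ∈ ball (0 : P2) δ, gX O u y ∈ S ∧ IsNor S (gX O u y) (gN O u y) := by
  have k := hC.facts S O _ u ⟨isOpen_ball, h.sol, h.rel⟩
  exact ⟨gX_zero h ▸ (k 0 (mem_ball_self h.pos)).2.2, fun y hy => ⟨(k y hy).1, (k y hy).2.1⟩⟩

theorem ev_chart (hC : ChartS) (hI : InvS) (hS : IsMin S) (h : Chart S O δ u)
    (h0 : O (ee 0) ∉ Gd S) {P : J4 → Prop} (hP : ∀ᶠ y in 𝓝[≠] (0 : P2),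
      jet (gX O u y) (gN O u y) ∈ JS → P (jet (gX O u y) (gN O u y))) :
    ∀ᶠ x in 𝓝[Gd S] (O (ee 0)), P (jet x (nor S x)) := by
  obtain ⟨f1, f2⟩ := facts hC h
  have k : ∀ᶠ x in 𝓝[S] (O (ee 0)), x ∈ Gd S → P (jet x (nor S x)) := by
    rw [← f1, eventually_map]
    filter_upwards [eventually_nhdsWithin_iff.1 hP, ball_mem_nhds 0 h.pos] with y a b c
    have e := jet_nor hC hI hS (f2 y b).1 (f2 y b).2
    rw [e]
    exact a (fun k => h0 (by rwa [mem_singleton_iff.1 k, gX_zero h] at c)) (e ▸ jet_mem hC hI hS c)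
  filter_upwards [nhdsWithin_mono _ (fun x hx => hx.1.1 : Gd S ⊆ S) k, self_mem_nhdsWithin]
    with x a b using a b

theorem asym' (hD : DerS) (h : Chart S O δ u) {e : ℕ} {K : ℝ}
    (hK : Tendsto (fun y => (d1 u y ^ 2 + d2 u y ^ 2) / (y.1 ^ 2 + y.2 ^ 2) ^ e) (𝓝[≠] 0) (𝓝 K)) :
    Tendsto (fun y => fa y (u y)) (𝓝[≠] 0) (𝓝 0) ∧
      Tendsto (fun y => fE y (u y) (d1 u y) (d2 u y) / fa y (u y) ^ e) (𝓝[≠] 0) (𝓝 K) := by
  have hu := h.sol.1 0 (mem_ball_self h.pos)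
  obtain ⟨a1, a2, -⟩ := hD u 0 hu
  have := asym (hu.continuousAt.tendsto.trans (by rw [h.zero]))
    (a1.continuousAt.tendsto.trans (by simp [d1, h.dzero]))
    (a2.continuousAt.tendsto.trans (by simp [d2, h.dzero])) hK
  exact ⟨this.1.mono_left nhdsWithin_le_nhds, this.2⟩

theorem corner (hD : DerS) (hC : ChartS) (hI : InvS) (hP : PcpS) (hL : LocS) (hG : GeoS)
    {c : ℝ → ℝ} (hS : Sym2 S) (h1 : Spec1 Λ) (h2 : Spec2 Λ c) (hn : ¬ Coin S) {p : E4}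
    (hp : p ∈ S) (p0 : p 0 = 0) (p1 : p 1 = 0) :
    ∃ l, Tendsto (RR Λ S) (𝓝[Gd S] p) (𝓝 l) ∧ NonExt (RR Λ S) (Gd S) p l := by
  obtain ⟨O, δ, u, rfl, -, -, hO, h, -, -, k0, k1, k2⟩ := hG.corner S hS p hp p0 p1
  obtain ⟨l, hl, e⟩ := h2.csurj (d1 (d1 u) 0 / 2) (by positivity)
  have hm := hS.minimal
  have h0 : O (ee 0) ∉ Gd S := fun a => by simpa [aa, p0, p1] using a.2.1
  obtain ⟨t1, t2⟩ := asym' hD h (corner_lim hD (h.sol.1 0 (mem_ball_self h.pos)) h.dzero k1 k2)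
  have j1 : ∀ y, (jet (gX O u y) (gN O u y)).1 = fa y (u y) := fun y => (form hO y _ 0 0).1
  have j2 : ∀ y, (1 - (jet (gX O u y) (gN O u y)).2.2.2 ^ 2 / (1 - fa y (u y))) / fa y (u y) =
      fE y (u y) (d1 u y) (d2 u y) / fa y (u y) ^ 1 := fun y => by
    rw [pow_one, ← (form hO y _ _ _).2, jet, sq_abs]
    rfl
  refine ⟨l, tend hl.1 hl.2 (fun t ht => ?_) fun t ht => ?_, fun V hV => ?_⟩
  · have m : t ∈ Ioo 0 π := ⟨ht.1, ht.2.trans hl.2⟩
    have := h2.canti m hl ht.2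
    obtain ⟨μ, a, b⟩ := exists_between (show d1 (d1 u) 0 ^ 2 < 4 * c t ^ 2 by nlinarith)
    obtain ⟨ρ, r0, r⟩ := near_lo h1 h2 m b
    refine ev_chart hC hI hm h h0 (P := fun j => t < Λ j) ?_
    filter_upwards [t1.eventually (gt_mem_nhds r0), t2.eventually (gt_mem_nhds a)] with y f g k
    exact r _ k (j1 y ▸ f) (by rw [j1, j2]; exact g.le)
  · have m : t ∈ Ioo 0 π := ⟨hl.1.trans ht.1, ht.2⟩
    have := h2.canti hl m ht.1
    have := h2.cpos t m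
    obtain ⟨μ, b, a⟩ := exists_between (show 4 * c t ^ 2 < d1 (d1 u) 0 ^ 2 by nlinarith)
    obtain ⟨ρ, r0, r⟩ := near_hi h1 h2 m b
    refine ev_chart hC hI hm h h0 (P := fun j => Λ j < t) ?_
    filter_upwards [t1.eventually (gt_mem_nhds r0), t2.eventually (lt_mem_nhds a)] with y f g k
    exact r _ k (j1 y ▸ f) (by rw [j1, j2]; exact g.le)
  obtain ⟨δ', U, hU, hf⟩ := h2.fam l hl
  obtain ⟨f1, f2⟩ := hf O hO
  obtain ⟨g1, g2⟩ := facts hC h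
  obtain ⟨ε, e0, hε⟩ := Metric.mem_nhds_iff.1 hV
  obtain ⟨η, n0, hη⟩ := Metric.mem_nhds_iff.1 (show gX O u ⁻¹' ball (O (ee 0)) ε ∈ 𝓝 0 from
    mem_map.1 (g1 ▸ mem_nhdsWithin_of_mem_nhds (ball_mem_nhds _ e0)))
  have key : ∀ᶠ t in 𝓝 l, t ≠ l → ∃ x ∈ Gd S ∩ V, RR Λ S x = t := by
    filter_upwards [(hP S O δ δ' l u c U hm hO h hU (by linarith) k1 (by linarith)).resolve_left
      (fun a => hn (f2 S a)) η n0, ball_mem_nhds l hU.pos, isOpen_Ioo.mem_nhds hl] with t a b d n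
    obtain ⟨y, y1, y2, y', y3, -, y4⟩ := a fun k => n (h2.canti.injOn d hl k)
    obtain ⟨m1, m2⟩ := f1 t b y (ball_subset_ball (min_le_right _ _) y1) y2
    obtain ⟨m3, m4⟩ := g2 y' (ball_subset_ball (min_le_right _ _) y3)
    obtain ⟨x, x1, x2, -, -, -, -, x3⟩ := hL.fold S hS.toSym _ m3
    rw [jet_nor hC hI hm m3 m4, y4] at x2
    rw [← x2] at m1 m2
    exact ⟨x, ⟨⟨x1, m1.1, m1.2.1⟩, hε (mem_ball_iff_norm.2 ((x3 _ ⟨hp, p0.ge, p1.ge⟩).trans_lt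
      (mem_ball_iff_norm.1 (hη (ball_subset_ball (min_le_left _ _) y3)))))⟩, m2⟩
  constructor
  · obtain ⟨t, a, b⟩ := ((key.filter_mono nhdsWithin_le_nhds).and
      (self_mem_nhdsWithin (s := Ioi l))).exists
    obtain ⟨x, x1, x2⟩ := a (ne_of_gt b)
    exact ⟨x, x1, x2 ▸ b⟩
  · obtain ⟨t, a, b⟩ := ((key.filter_mono nhdsWithin_le_nhds).and
      (self_mem_nhdsWithin (s := Iio l))).exists
    obtain ⟨x, x1, x2⟩ := a (ne_of_lt b)
    exact ⟨x, x1, x2 ▸ b⟩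

theorem sw_apply (x : E4) : sw x 0 = x 2 ∧ sw x 1 = x 3 ∧ sw x 2 = x 0 ∧ sw x 3 = x 1 := by
  simp [sw, mkO_apply]

theorem unit4 {x : E4} (h : ‖x‖ = 1) : x 0 * x 0 + x 1 * x 1 + x 2 * x 2 + x 3 * x 3 = 1 := by
  rw [← inner4, real_inner_self_eq_norm_sq, h, one_pow]

theorem pole (hD : DerS) (hC : ChartS) (hI : InvS) (hL : LocS) (hS : Sym2 S) (h1 : Spec1 Λ)
    {q : E4} (hq : q ∈ S) (ha : aa q = 1) : ∃ l, Tendsto (RR Λ S) (𝓝[Gd S] q) (𝓝 l) := by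
  have hm := hS.minimal
  have h0 : q ∉ Gd S := fun a => a.2.2.ne ha
  have q1 := unit4 (hC.unit S hm q hq)
  have q2 : q 2 = 0 := by unfold aa at ha; nlinarith
  have q3 : q 3 = 0 := by unfold aa at ha; nlinarith
  obtain ⟨N, N1, N2⟩ := hC.cont S hm q hq
  have hn := N2.self_of_nhdsWithin hq
  have n1 := unit4 hn.1
  have n2 := hn.2.1
  rw [inner4] at n2
  have n3 : u12 q (N q) ^ 2 = 1 - (N q 2 ^ 2 + N q 3 ^ 2) := by
    unfold u12
    rw [q2, q3] at q1 n2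
    linear_combination (N q 0 * N q 0 + N q 1 * N q 1) * q1 + n1 -
      (N q 0 * q 0 + N q 1 * q 1) * n2
  have G := nhdsWithin_mono q (fun x hx => hx.1.1 : Gd S ⊆ S)
  rcases (show 0 ≤ N q 2 ^ 2 + N q 3 ^ 2 by positivity).eq_or_lt with e | e
  · have e2 : N q 2 = 0 := by nlinarith
    have e3 : N q 3 = 0 := by nlinarith
    obtain ⟨O, rfl, o3, o⟩ : ∃ O : Iso, O (ee 0) = q ∧ O (ee 3) = N q ∧
        ∀ x, O x 2 = x 1 ∧ O x 3 = x 2 := by
      refine ⟨mkO ![q, ee 2, ee 3, N q] (ortho4 _ fun i j => ?_), ?_, ?_, fun x => ?_⟩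
      · rw [q2, q3] at q1 n2
        rw [e2, e3] at n1
        fin_cases i <;> fin_cases j <;> simp [ee, q2, q3, e2, e3] <;> linarith
      all_goals simp [mkO_apply, ee, q2, q3, e2, e3]
    obtain ⟨δ, u, h⟩ := hC.chart S hm O hq (o3 ▸ hn)
    obtain ⟨m, c, hm2, hc⟩ := hL.lead S hS.toSym O δ u h
    obtain ⟨t1, t2⟩ := asym' hD h (pole_lim hm2 hc)
    have hO : CFr (O.trans sw) := fun x => by
      simp only [aa, LinearIsometryEquiv.trans_apply, sw_apply, o]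
    have j : ∀ᶠ y in 𝓝[≠] (0 : P2), 1 - (jet (gX O u y) (gN O u y)).1 = fa y (u y) ∧
        1 - (jet (gX O u y) (gN O u y)).2.2.1 ^ 2 / (jet (gX O u y) (gN O u y)).1 =
          fE y (u y) (d1 u y) (d2 u y) := by
      filter_upwards [mem_nhdsWithin_of_mem_nhds (ball_mem_nhds 0 h.pos)] with y hy
      obtain ⟨a, b⟩ := form hO y (u y) (d1 u y) (d2 u y)
      have k := unit4 (hC.unit S hm _ ((facts hC h).2 y hy).1)
      simp only [aa, u34, LinearIsometryEquiv.trans_apply, sw_apply] at a b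
      have k' : 1 - (jet (gX O u y) (gN O u y)).1 = fa y (u y) := by
        simp only [jet, aa, gX] at k ⊢
        linarith
      refine ⟨k', ?_⟩
      rw [← b, ← k', sub_sub_cancel, jet, sq_abs]
      rfl
    have m0 : (2 : ℝ) ≤ m := by exact_mod_cast hm2
    have m1 : ((m - 1 : ℕ) : ℝ) = m - 1 := by rw [Nat.cast_sub (by omega), Nat.cast_one]
    have K0 : 0 < ‖c * m‖ ^ 2 :=
      pow_pos (norm_pos_iff.2 (mul_ne_zero hc.1 (by exact_mod_cast (by omega : m ≠ 0)))) 2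
    have hl : π / m < π := div_lt_self Real.pi_pos (by linarith)
    have hl0 : 0 < π / m := div_pos Real.pi_pos (by linarith)
    refine ⟨π / m, tend hl0 hl (fun t ht => ?_) fun t ht => ?_⟩
    · obtain ⟨ρ, r0, r⟩ := pole_lo h1 ⟨ht.1, ht.2.trans hl⟩ (κ := (m - 1 : ℕ)) (by
        rw [m1, sub_lt_sub_iff_right]
        exact (lt_div_comm₀ ht.1 (by linarith)).1 ht.2) (half_pos K0)
      refine ev_chart hC hI hm h h0 (P := fun j => t < Λ j) ?_
      filter_upwards [t1.eventually (gt_mem_nhds r0), t2.eventually (lt_mem_nhds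
        (half_lt_self K0)), j] with y f g e k
      refine r _ k (e.1 ▸ f) ?_
      rw [e.2, Real.rpow_natCast, ← le_div_iff₀ (pow_pos (sub_pos.2 k.2.1) _), e.1]
      exact g.le
    · obtain ⟨ρ, r0, r⟩ := pole_hi h1 ⟨hl0.trans ht.1, ht.2⟩ (κ := (m - 1 : ℕ)) (by
        rw [m1, sub_lt_sub_iff_right]
        exact (div_lt_comm₀ (by linarith) (hl0.trans ht.1)).1 ht.1) (‖c * m‖ ^ 2 + 1)
      refine ev_chart hC hI hm h h0 (P := fun j => Λ j < t) ?_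
      filter_upwards [t1.eventually (gt_mem_nhds r0), t2.eventually (gt_mem_nhds
        (lt_add_one _)), j] with y f g e k
      refine r _ k (e.1 ▸ f) ?_
      rw [e.2, Real.rpow_natCast, ← div_le_iff₀ (pow_pos (sub_pos.2 k.2.1) _), e.1]
      exact g.le
  · have c1 : ContinuousWithinAt (fun x => 1 - aa x) S q := by
      unfold aa
      fun_prop
    have c2 : ContinuousWithinAt (fun x => 1 - u12 x (N x) ^ 2 / aa x) S q := by
      refine continuousWithinAt_const.sub (ContinuousWithinAt.div ?_ ?_ (by simp [ha]))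
      · unfold u12
        fun_prop
      · unfold aa
        fun_prop
    refine ⟨π, tend Real.pi_pos (lt_add_one π) (fun t ht => ?_) fun t ht => ?_⟩
    · obtain ⟨ρ, r0, r⟩ := pole_lo h1 ht (κ := 0)
        (sub_pos.2 ((one_lt_div ht.1).2 ht.2)) (half_pos e)
      filter_upwards [G (c1.eventually (gt_mem_nhds (show 1 - aa q < ρ by rwa [ha, sub_self]))),
        G (c2.eventually (lt_mem_nhds (show (N q 2 ^ 2 + N q 3 ^ 2) / 2 < 1 - u12 q (N q) ^ 2 / aa q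
          by rw [ha, n3]; linarith))), G N2, self_mem_nhdsWithin] with x a b d k
      refine r _ (jet_mem hC hI hm k) a ?_
      rw [jet_nor hC hI hm k.1.1 d, Real.rpow_zero, mul_one, jet, sq_abs]
      exact le_of_lt b
    · filter_upwards [self_mem_nhdsWithin] with x k using
        (h1.rng _ (jet_mem hC hI hm k)).2.trans_lt ht.1

end DEnd

theorem endS (hD : DerS) (hC : ChartS) (hI : InvS) (hP : PcpS) (hL : LocS) (hG : GeoS) : EndS :=
  ⟨fun _ _ _ hS h1 h2 hn _ hp p0 p1 => DEnd.corner hD hC hI hP hL hG hS h1 h2 hn hp p0 p1,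
    fun _ _ hS h1 _ hq ha => DEnd.pole hD hC hI hL hS h1 hq.1 ha⟩

end Pool.Agent.Lib.MP_16d934_gt
end
end
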