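import Mathlib

/-! Minimal surfaces in the round three-sphere, type-0 symmetry, Lawson surfaces. -/

set_option autoImplicit false

open Set Metric
open scoped ContDiff InnerProductSpace

noncomputable section

namespace Pool.Agent.Lib.MP_16d934_gt

/-- Euclidean four-space; the three-sphere is its unit sphere -/
abbrev E4 : Type := EuclideanSpace ℝ (Fin 4)

/-- the parameter plane -/
abbrev P2 : Type := ℝ × ℝ

/-- first partial derivative -/
def d1 {F : Type} [NormedAddCommGroup F] [NormedSpace ℝ F] (f : P2 → F) (y : P2) : F :=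
  fderiv ℝ f y (1, 0)

/-- second partial derivative -/
def d2 {F : Type} [NormedAddCommGroup F] [NormedSpace ℝ F] (f : P2 → F) (y : P2) : F :=
  fderiv ℝ f y (0, 1)

/-- the mean curvature in the three-sphere of the parametrised surface `X` vanishes at `y` -/
def MinEq (X : P2 → E4) (y : P2) : Prop :=
  ∀ n : E4, ⟪n, X y⟫_ℝ = 0 → ⟪n, d1 X y⟫_ℝ = 0 → ⟪n, d2 X y⟫_ℝ = 0 →
    ⟪n, ‖d2 X y‖ ^ 2 • d1 (d1 X) y - (2 * ⟪d1 X y, d2 X y⟫_ℝ) • d1 (d2 X) y
      + ‖d1 X y‖ ^ 2 • d2 (d2 X) y⟫_ℝ = 0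

/-- `X` is a smooth minimal embedding of the open set `U` onto an open part of `S` -/
structure Patch (S : Set E4) (U : Set P2) (X : P2 → E4) : Prop where
  isOpen : IsOpen U
  smooth : ContDiffOn ℝ ∞ X U
  unit : ∀ y ∈ U, ‖X y‖ = 1
  imm : ∀ y ∈ U, Function.Injective (fderiv ℝ X y)
  inj : InjOn X U
  rel : ∀ U' ⊆ U, IsOpen U' → ∃ V, IsOpen V ∧ X '' U' = S ∩ V
  minimal : ∀ y ∈ U, MinEq X y

/-- `S` is a smooth embedded minimal surface (without boundary) in the three-sphere -/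
def IsMin (S : Set E4) : Prop := ∀ p ∈ S, ∃ U X, Patch S U X ∧ p ∈ X '' U

/-- first Betti number: rank of the first integral singular homology group -/
def betti1 (S : Set E4) : ℕ :=
  Module.finrank ℤ (((AlgebraicTopology.singularHomologyFunctor (ModuleCat.{0} ℤ) 1).obj
    (ModuleCat.of ℤ ℤ)).obj (TopCat.of ↥S))

/-- `S` is a closed embedded minimal surface of genus `γ` -/
def ClosedMin (γ : ℕ) (S : Set E4) : Prop :=
  IsMin S ∧ IsCompact S ∧ IsConnected S ∧ betti1 S = 2 * γ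

/-- the isometric involutions `τ, ρ` restrict to a type-0 action on `S` -/
structure Type0 (S : Set E4) (τ ρ : E4 ≃ₗᵢ[ℝ] E4) : Prop where
  invτ : ∀ x, τ (τ x) = x
  invρ : ∀ x, ρ (ρ x) = x
  comm : ∀ x, τ (ρ x) = ρ (τ x)
  mapτ : τ '' S = S
  mapρ : ρ '' S = S
  effτ : ∃ x ∈ S, τ x ≠ x
  effρ : ∃ x ∈ S, ρ x ≠ x
  effτρ : ∃ x ∈ S, τ x ≠ ρ x
  sepτ : ¬ IsPreconnected (S \ {x | τ x = x})
  sepρ : ¬ IsPreconnected (S \ {x | ρ x = x})
  genus0 : ∃ F : E4 → EuclideanSpace ℝ (Fin 3), ContinuousOn F S ∧ (∀ x ∈ S, ‖F x‖ = 1) ∧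
    ∀ x ∈ S, ∀ y ∈ S, (F x = F y ↔ y = x ∨ y = τ x)
  ovals : ∀ x ∈ S, τ x = x →
    ρ '' connectedComponentIn (S ∩ {y | τ y = y}) x = connectedComponentIn (S ∩ {y | τ y = y}) x

/-- the point at angle `s` on the great circle `x₀ = x₁ = 0` -/
def vP (s : ℝ) : E4 := !₂[0, 0, Real.cos s, Real.sin s]

/-- the point at angle `s` on the great circle `x₂ = x₃ = 0` -/
def vQ (s : ℝ) : E4 := !₂[Real.cos s, Real.sin s, 0, 0]

/-- the quarter great circle from `P` to `Q` -/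
def arc (P Q : E4) : Set E4 := (fun t => Real.cos t • P + Real.sin t • Q) '' Icc 0 (Real.pi / 2)

/-- the geodesic reflection in the great circle through the orthogonal unit vectors `P, Q` -/
def geoRefl (P Q : E4) (x : E4) : E4 := (2 * ⟪P, x⟫_ℝ) • P + (2 * ⟪Q, x⟫_ℝ) • Q - x

/-- half the distance of the two vertices on the circle `x₀ = x₁ = 0` -/
def hf (γ : ℕ) : ℝ := Real.pi / (2 * (γ + 1))

/-- Lawson's geodesic quadrilateral with angles `π / (γ + 1)` and `π / 2` -/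
def quad (γ : ℕ) : Set E4 :=
  arc (vP (hf γ)) (vQ (Real.pi / 4)) ∪ arc (vP (-hf γ)) (vQ (Real.pi / 4)) ∪
    arc (vP (-hf γ)) (vQ (-(Real.pi / 4))) ∪ arc (vP (hf γ)) (vQ (-(Real.pi / 4)))

/-- the spherical convex hull of the four vertices -/
def tetra (γ : ℕ) : Set E4 :=
  {x | ‖x‖ = 1 ∧ ∃ a b c d : ℝ, 0 ≤ a ∧ 0 ≤ b ∧ 0 ≤ c ∧ 0 ≤ d ∧
    x = a • vP (hf γ) + b • vP (-hf γ) + c • vQ (Real.pi / 4) + d • vQ (-(Real.pi / 4))}

/-- `M` is an embedded minimal disc in the convex hull that spans the quadrilateral -/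
def LawsonDisc (γ : ℕ) (M : Set E4) : Prop :=
  M ⊆ tetra γ ∧ ∃ f : ℂ → E4, ContinuousOn f (closedBall 0 1) ∧ InjOn f (closedBall 0 1) ∧
    f '' closedBall 0 1 = M ∧ f '' sphere 0 1 = quad γ ∧ IsMin (f '' ball 0 1)

/-- the union of the images of `M` under the group generated by the geodesic reflections in the
four edges of the quadrilateral -/
inductive Orbit (γ : ℕ) (M : Set E4) : E4 → Prop
  | base (x : E4) : x ∈ M → Orbit γ M x
  | step (s t : ℝ) (x : E4) : (s = hf γ ∨ s = -hf γ) → (t = Real.pi / 4 ∨ t = -(Real.pi / 4)) →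
      Orbit γ M x → Orbit γ M (geoRefl (vP s) (vQ t) x)

end Pool.Agent.Lib.MP_16d934_gt
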