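import Pool.Agent.Lib.MP_16d934_gt.EPsib
import Pool.Agent.Lib.MP_16d934_gt.ELawa

-- part Pool.Agent.Lib.MP_16d934_gt.EPsi
section

/-! Lower bound for the normal component of the first rotation field on a leaf. -/

set_option autoImplicit false

open Set Metric Filter Topology MeasureTheory Asymptotics
open scoped ContDiff InnerProductSpace NNReal Real

noncomputable section

namespace Pool.Agent.Lib.MP_16d934_gt

namespace EPsi

variable {a b : ℝ} {u χ ζ : P2 → ℝ} {L : ℝ≥0}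

theorem zeta_axis (hE : EdgeExt a b u ζ L) (s : ℝ) : ζ (s, 0) = 0 := by
  have := hE.odd (s, 0)
  simp only [neg_zero] at this
  linarith

theorem sf_edge (hM : MeqS) (hE : EdgeExt a b u ζ L) {η : P2} (hη : η ∈ HE a b) :
    Sf (gX (OG (hA a) (hA b)) ζ) (gN (OG (hA a) (hA b)) ζ) η :=
  sf_graph hM _ (he_open a b) hE.sol hη

theorem Y_axis (hE : EdgeExt a b u ζ L) (s : ℝ) :
    gX (OG (hA a) (hA b)) ζ (s, 0) = OG (hA a) (hA b) (gn (s, 0) 0) := by
  rw [gX, zeta_axis hE]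

theorem M_axis (hu : IsLeaf a b u) (hE : EdgeExt a b u ζ L) {s : ℝ} (hs : 0 < s) :
    gN (OG (hA a) (hA b)) ζ (s, 0) = OG (hA a) (hA b) (nrm (s, 0) 0 0 (d2 ζ (s, 0))) := by
  have h1 := line1 (hE.sol.1 _ (he_axis hu.apos hu.bpos hs)).differentiableAt.hasFDerivAt
  simp only [zeta_axis hE] at h1
  have h2 : d1 ζ (s, 0) = 0 := h1.unique (hasDerivAt_const s 0)
  rw [gN, zeta_axis hE, h2]

theorem lower_mem (hT : TetS) (hE : EdgeExt a b u ζ L) {η : P2} (hη : η ∈ HE a b)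
    (h2 : η.2 < 0) : py (gX (OG (hA a) (hA b)) ζ η) ∈ Rho a b ∧
      gX O0 u (py (gX (OG (hA a) (hA b)) ζ η)) = gX (OG (hA a) (hA b)) ζ η ∧
      gN O0 u (py (gX (OG (hA a) (hA b)) ζ η)) = gN (OG (hA a) (hA b)) ζ η ∧
      gX (OG (hA a) (hA b)) ζ η 0 + gX (OG (hA a) (hA b)) ζ η 2 ≠ 0 := by
  obtain ⟨x, hx, -, -, e1, e2⟩ := hE.mem η hη h2
  have e3 : py (gX (OG (hA a) (hA b)) ζ η) = x := by
    rw [← e1]
    exact py_X hT x (u x)
  rw [e3]
  refine ⟨hx, e1, e2, ?_⟩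
  rw [← e1]
  have := sum02 hT x (u x)
  have h3 := rho_pos x (u x)
  rw [gX, this]
  positivity

/-- the conjugate function in the edge chart -/
structure EConj (a b : ℝ) (u χ ζ ψ : P2 → ℝ) : Prop where
  der : ∀ η ∈ HE a b,
    HasFDerivAt ψ (om (gX (OG (hA a) (hA b)) ζ) (gN (OG (hA a) (hA b)) ζ) η) η
  low : ∀ η ∈ HE a b, η.2 < 0 → χ (py (gX (OG (hA a) (hA b)) ζ η)) = ψ η
  edge : ∀ s > 0, χ (ep a b s) = ψ (s, 0)
  pt : ∀ s > 0, gX O0 u (ep a b s) = OG (hA a) (hA b) (gn (s, 0) 0)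

theorem exists_econj (hM : MeqS) (hT : TetS) (hu : IsLeaf a b u) (h : Conj a b u χ)
    (hE : EdgeExt a b u ζ L) : ∃ ψ, EConj a b u χ ζ ψ := by
  obtain ⟨ψ, hψ⟩ := prim (he_open a b) (he_convex a b) fun η hη => sf_edge hM hE hη
  have hop : IsOpen (HE a b ∩ {η : P2 | η.2 < 0}) :=
    (he_open a b).inter (isOpen_lt continuous_snd continuous_const)
  have hcv : Convex ℝ (HE a b ∩ {η : P2 | η.2 < 0}) :=
    (he_convex a b).inter (convex_halfSpace_lt (LinearMap.snd ℝ ℝ ℝ).isLinear 0)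
  obtain ⟨c, hc⟩ := const_of hop hcv
    (g := fun η => χ (py (gX (OG (hA a) (hA b)) ζ η)) - ψ η) fun η hη => by
      obtain ⟨m1, -, m3, m4⟩ := lower_mem hT hE hη.1 hη.2
      have h1 := h.pull hM hu (Φ := fun x => py (gX (OG (hA a) (hA b)) ζ x))
        (Y := gX (OG (hA a) (hA b)) ζ) (M := gN (OG (hA a) (hA b)) ζ)
        ((diff_py m4).comp η (sf_edge hM hE hη.1).dX) m1
        (by filter_upwards [hop.mem_nhds hη] with x hx using (lower_mem hT hE hx.1 hx.2).2.1) m3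
      exact (h1.sub (hψ η hη.1)).congr_fderiv (sub_self _)
  have app : ∀ s > 0, Tendsto (fun t : ℝ => ((s, t) : P2)) (𝓝[<] 0) (𝓝 (s, 0)) ∧
      (∀ᶠ t in 𝓝[<] (0 : ℝ), ((s, t) : P2) ∈ HE a b ∧ t < 0) ∧
      Tendsto (fun t : ℝ => py (gX (OG (hA a) (hA b)) ζ (s, t))) (𝓝[<] 0) (𝓝 (ep a b s)) := by
    intro s hs
    have hm := he_axis hu.apos hu.bpos hs
    have t1 : Tendsto (fun t : ℝ => ((s, t) : P2)) (𝓝[<] 0) (𝓝 (s, 0)) :=
      ((continuous_const.prodMk continuous_id).tendsto 0).mono_left nhdsWithin_le_nhds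
    refine ⟨t1, (t1.eventually ((he_open a b).mem_nhds hm)).and self_mem_nhdsWithin, ?_⟩
    rw [← py_edge hT hu.apos hu.bpos hs, ← Y_axis hE]
    refine (diff_py ?_).continuousAt.tendsto.comp
      ((sf_edge hM hE hm).dX.continuousAt.tendsto.comp t1)
    obtain ⟨e0, -, e2, -⟩ := edge_X (hA a) (hA b) s
    have := cos_hA a
    have := cos_hA b
    have := ff_pos s
    rw [Y_axis hE, e0, e2]
    positivity
  refine ⟨fun η => ψ η + c, fun η hη => (hψ η hη).add_const c, fun η hη h2 => ?_,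
    fun s hs => ?_, fun s hs => ?_⟩
  · have := hc η ⟨hη, h2⟩
    linarith
  · obtain ⟨t1, t2, t3⟩ := app s hs
    refine tendsto_nhds_unique ((h.cont.tendsto _).comp t3) ?_
    have t4 := (((hψ _ (he_axis hu.apos hu.bpos hs)).continuousAt.tendsto.comp t1).add_const c)
    refine t4.congr' ?_
    filter_upwards [t2] with t ht
    have := hc (s, t) ⟨ht.1, ht.2⟩
    simp only [Function.comp]
    linarith
  · obtain ⟨t1, t2, t3⟩ := app s hs
    have c1 := (hT.cpt a b u hu).1 _ (ep_mem hu.apos hu.bpos hs)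
    have t5 : Tendsto (fun t : ℝ => py (gX (OG (hA a) (hA b)) ζ (s, t))) (𝓝[<] 0)
        (𝓝[Rh a b] (ep a b s)) := tendsto_nhdsWithin_iff.2 ⟨t3, t2.mono fun t ht =>
          rho_sub a b (lower_mem hT hE ht.1 ht.2).1⟩
    refine tendsto_nhds_unique (c1.tendsto.comp t5) ?_
    rw [← Y_axis hE]
    refine ((sf_edge hM hE (he_axis hu.apos hu.bpos hs)).dX.continuousAt.tendsto.comp t1).congr' ?_
    filter_upwards [t2] with t ht
    exact (lower_mem hT hE ht.1 ht.2).2.1.symm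

variable {ψ : P2 → ℝ}

theorem u12_edge (hu : IsLeaf a b u) (hE : EdgeExt a b u ζ L) {s : ℝ} (hs : 0 < s) :
    u12 (gX (OG (hA a) (hA b)) ζ (s, 0)) (gN (OG (hA a) (hA b)) ζ (s, 0)) =
      ff s * bb (d2 ζ (s, 0)) := by
  obtain ⟨e0, e1, -, -⟩ := edge_X (hA a) (hA b) s
  obtain ⟨n0, n1⟩ := edge_N (hA a) (hA b) s (d2 ζ (s, 0))
  rw [Y_axis hE, M_axis hu hE hs, u12, e0, e1, n0, n1]
  linear_combination (ff s * bb (d2 ζ (s, 0))) * Real.sin_sq_add_cos_sq (hA b)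

theorem psi_der (hM : MeqS) (hu : IsLeaf a b u) (hE : EdgeExt a b u ζ L)
    (h : EConj a b u χ ζ ψ) {s d : ℝ} (hs : 0 < s) (hd : HasDerivAt ff d s) :
    HasDerivAt (fun t => ψ (t, 0)) (d * bb (d2 ζ (s, 0))) s := by
  have hm := he_axis hu.apos hu.bpos hs
  have h1 := line1 (h.der _ hm)
  have h2 := line1 (sf_edge hM hE hm).dX.hasFDerivAt
  have h3 := (EuclideanSpace.proj 0 : E4 →L[ℝ] ℝ).hasFDerivAt.comp_hasDerivAt s h2
  have h4 := (EuclideanSpace.proj 1 : E4 →L[ℝ] ℝ).hasFDerivAt.comp_hasDerivAt s h2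
  have f0 : ((EuclideanSpace.proj 0 : E4 →L[ℝ] ℝ) ∘ fun t => gX (OG (hA a) (hA b)) ζ (t, 0)) =
      fun t => Real.cos (hA b) * ff t := by
    ext t
    rw [Function.comp, Y_axis hE]
    exact (edge_X _ _ t).1
  have f1 : ((EuclideanSpace.proj 1 : E4 →L[ℝ] ℝ) ∘ fun t => gX (OG (hA a) (hA b)) ζ (t, 0)) =
      fun t => Real.sin (hA b) * ff t := by
    ext t
    rw [Function.comp, Y_axis hE]
    exact (edge_X _ _ t).2.1
  rw [f0] at h3
  rw [f1] at h4
  have g0 : fderiv ℝ (gX (OG (hA a) (hA b)) ζ) (s, 0) (1, 0) 0 = Real.cos (hA b) * d :=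
    h3.unique (hd.const_mul _)
  have g1 : fderiv ℝ (gX (OG (hA a) (hA b)) ζ) (s, 0) (1, 0) 1 = Real.sin (hA b) * d :=
    h4.unique (hd.const_mul _)
  obtain ⟨n0, n1⟩ := edge_N (hA a) (hA b) s (d2 ζ (s, 0))
  refine h1.congr_deriv ?_
  rw [om_apply, M_axis hu hE hs, u12, g0, g1, n0, n1]
  linear_combination (d * bb (d2 ζ (s, 0))) * Real.sin_sq_add_cos_sq (hA b)

/-- the second conjugate function is nonnegative on the edge -/
theorem edge_star (hM : MeqS) (hD : DerS) (hT : TetS) (hu : IsLeaf a b u) (hc : Conj a b u χ)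
    (hE : EdgeExt a b u ζ L) (hq : ∀ s > 0, |d2 ζ (s, 0)| < 1 ∧ 0 ≤ d1 (d2 ζ) (s, 0))
    (h : EConj a b u χ ζ ψ) {s : ℝ} (hs : 0 < s) : ψ (s, 0) ≤ ff s * bb (d2 ζ (s, 0)) := by
  have hder : ∀ t > 0, ∃ d ≤ 0,
      HasDerivAt (fun t => ff t * bb (d2 ζ (t, 0)) - ψ (t, 0)) d t := by
    intro t ht
    obtain ⟨d, -, hd⟩ := ff_der ht
    obtain ⟨e, he, hb⟩ := bb_der (abs_lt.1 (hq t ht).1).1.le
    have h1 := line1
      (hD ζ _ (hE.sol.1 _ (he_axis hu.apos hu.bpos ht))).2.1.differentiableAt.hasFDerivAt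
    have h2 := hb.comp t h1
    refine ⟨_, ?_, (hd.mul h2).sub (psi_der hM hu hE h ht hd)⟩
    have h3 : 0 ≤ fderiv ℝ (d2 ζ) (t, 0) (1, 0) := (hq t ht).2
    have h4 := mul_nonneg (ff_pos t).le (mul_nonneg (neg_nonneg.2 he) h3)
    simp only [Function.comp]
    linarith
  have hanti : AntitoneOn (fun t => ff t * bb (d2 ζ (t, 0)) - ψ (t, 0)) (Ioi 0) :=
    anti_of (convex_Ioi 0)
      (fun t ht => (hder t ht).choose_spec.2.continuousAt.continuousWithinAt)
      fun t ht => hder t (by rwa [interior_Ioi] at ht)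
  have t1 := ((hc.cont.tendsto _).comp (ep_top a b)).neg
  rw [hc.vertP hM hT hu, neg_zero] at t1
  have : 0 ≤ ff s * bb (d2 ζ (s, 0)) - ψ (s, 0) := by
    refine le_of_tendsto t1 ?_
    filter_upwards [Ioo_mem_nhdsGT (inv_pos.2 hs)] with t ht
    have ht1 : 0 < t⁻¹ := inv_pos.2 ht.1
    have ht2 : s ≤ t⁻¹ := (le_inv_comm₀ hs ht.1).2 ht.2.le
    have h1 := hanti hs ht1 ht2
    have h2 := mul_nonneg (ff_pos t⁻¹).le (bb_nonneg (abs_lt.1 (hq _ ht1).1).2.le)
    simp only [Function.comp, h.edge _ ht1] at h1 ⊢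
    linarith
  linarith

theorem vertQ_le (hc : Conj a b u χ) (h : EConj a b u χ ζ ψ)
    (hs : ∀ s > 0, ψ (s, 0) ≤ ff s * bb (d2 ζ (s, 0))) : χ (0, b) ≤ 1 := by
  refine le_of_tendsto ((hc.cont.tendsto _).comp (ep_zero a b)) ?_
  filter_upwards [self_mem_nhdsWithin] with s hs0
  have h1 := hs s hs0
  have h2 := mul_le_mul_of_nonneg_left (bb_le (d2 ζ (s, 0))) (ff_pos s).le
  have h3 := ff_le s
  simp only [Function.comp, h.edge s hs0]
  linarith

theorem edge_g (hM : MeqS) (hu : IsLeaf a b u) (hc : Conj a b u χ) (hE : EdgeExt a b u ζ L)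
    (h : EConj a b u χ ζ ψ) {s : ℝ} (hs : 0 < s) : ff s - χ (ep a b s) ≤ 1 - χ (0, b) := by
  have hder : ∀ t > 0, ∃ d ≤ 0, HasDerivAt (fun t => ff t - ψ (t, 0)) d t := by
    intro t ht
    obtain ⟨d, hd0, hd⟩ := ff_der ht
    refine ⟨_, ?_, hd.sub (psi_der hM hu hE h ht hd)⟩
    nlinarith [bb_le (d2 ζ (t, 0))]
  have hanti : AntitoneOn (fun t => ff t - ψ (t, 0)) (Ioi 0) :=
    anti_of (convex_Ioi 0)
      (fun t ht => (hder t ht).choose_spec.2.continuousAt.continuousWithinAt)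
      fun t ht => hder t (by rwa [interior_Ioi] at ht)
  have t1 := ((ff_cont.tendsto 0).mono_left (nhdsWithin_le_nhds (s := Ioi 0))).sub
    ((hc.cont.tendsto _).comp (ep_zero a b))
  rw [ff_zero] at t1
  refine ge_of_tendsto t1 ?_
  filter_upwards [Ioo_mem_nhdsGT hs] with t ht
  have h1 := hanti ht.1 hs ht.2.le
  simp only [Function.comp, h.edge _ ht.1, h.edge _ hs] at h1 ⊢
  exact h1

theorem aa_cont : Continuous aa := by
  unfold aa
  fun_prop

theorem memQ (hb : 0 < b) (a : ℝ) : ((0, b) : P2) ∈ Rh a b := by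
  change |(0 : ℝ)| / a + |b| / b ≤ 1
  rw [abs_zero, zero_div, zero_add, abs_of_pos hb, div_self hb.ne']

theorem memP (ha : 0 < a) (b : ℝ) : ((a, 0) : P2) ∈ Rh a b := by
  change |a| / a + |(0 : ℝ)| / b ≤ 1
  rw [abs_zero, zero_div, add_zero, abs_of_pos ha, div_self ha.ne']

theorem aaQ (hT : TetS) (hu : IsLeaf a b u) : aa (gX O0 u (0, b)) = 1 := by
  have h1 := hu.low _ (memQ hu.bpos a)
  have h2 := hu.upp _ (memQ hu.bpos a)
  simp only [lo, up, abs_zero, mul_zero, zero_div, abs_of_pos hu.bpos,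
    mul_div_assoc, div_self hu.bpos.ne'] at h1 h2
  have h3 : u (0, b) = -1 := by linarith
  obtain ⟨-, -, e2, e3⟩ := hT.coord (0, b) (-1)
  have h4 := inner_sq (O0 (gn (0, b) (-1))) (by rw [LinearIsometryEquiv.norm_map, norm_gn])
  rw [e2, e3] at h4
  rw [gX, h3, aa]
  simpa using h4

theorem aaP (hT : TetS) (hu : IsLeaf a b u) : aa (gX O0 u (a, 0)) = 0 := by
  have h1 := hu.low _ (memP hu.apos b)
  have h2 := hu.upp _ (memP hu.apos b)
  simp only [lo, up, abs_zero, mul_zero, zero_div, abs_of_pos hu.apos,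
    mul_div_assoc, div_self hu.apos.ne'] at h1 h2
  have h3 : u (a, 0) = 1 := by linarith
  obtain ⟨e0, e1, -, -⟩ := hT.coord (a, 0) 1
  rw [gX, h3, aa, e0, e1]
  simp

/-- the open quarter with its inner sides -/
def Qt (a b : ℝ) : Set P2 := {y | y ∈ Rho a b ∧ 0 ≤ y.1 ∧ 0 ≤ y.2}

theorem u12_nonneg (hR : RadoS) (hu : IsLeaf a b u) {y : P2} (hy : y ∈ Rho a b) (h2 : 0 ≤ y.2) :
    0 ≤ u12 (gX O0 u y) (gN O0 u y) :=
  not_lt.1 fun h => absurd ((hR.sign a b u hu y hy).2.2.2.2.2.2.1 h) (not_lt.2 h2)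

theorem tend_X (hT : TetS) (hu : IsLeaf a b u) {y : P2} (hy : y ∈ Rh a b) :
    Tendsto (gX O0 u) (𝓝[Qt a b] y) (𝓝 (gX O0 u y)) :=
  (((hT.cpt a b u hu).1 y hy).mono fun _ hx => rho_sub a b hx.1).tendsto

theorem near_P (hM : MeqS) (hT : TetS) (hR : RadoS) (hu : IsLeaf a b u) (hc : Conj a b u χ)
    {δ : ℝ} (hδ : 0 < δ) :
    ∀ᶠ y in 𝓝[Qt a b] ((a, 0) : P2), -δ < u12 (gX O0 u y) (gN O0 u y) - χ y := by
  have t1 := (hc.cont.tendsto (a, 0)).mono_left (nhdsWithin_le_nhds (s := Qt a b))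
  rw [hc.vertP hM hT hu] at t1
  filter_upwards [t1.eventually (gt_mem_nhds hδ), self_mem_nhdsWithin] with y h1 hy
  have := u12_nonneg hR hu hy.1 hy.2.2
  linarith

theorem near_Q (hT : TetS) (hR : RadoS) (hQ : QdecS) (hu : IsLeaf a b u) (hc : Conj a b u χ)
    (h1 : χ (0, b) ≤ 1) {δ : ℝ} (hδ : 0 < δ) :
    ∀ᶠ y in 𝓝[Qt a b] ((0, b) : P2), -δ < u12 (gX O0 u y) (gN O0 u y) - χ y := by
  obtain ⟨a1, a2, -⟩ := hT.ang.1 a hu.apos
  have hk : 0 < π / (2 * hA a) - 1 := by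
    rw [sub_pos, lt_div_iff₀ (by positivity)]
    linarith
  obtain ⟨C, ρ, hρ, hC⟩ := hQ.up a b u hu ((π / (2 * hA a) - 1) / 2) (by linarith)
  set κ := (π / (2 * hA a) - 1) / 2 with hκ
  have hκ0 : 0 < κ := by positivity
  have t0 := (aa_cont.tendsto _).comp (tend_X hT hu (memQ hu.bpos a))
  rw [aaQ hT hu] at t0
  have t1 : Tendsto (fun y => 1 - aa (gX O0 u y)) (𝓝[Qt a b] ((0, b) : P2)) (𝓝 0) := by
    simpa using t0.const_sub 1
  have t2 : Tendsto (fun y => (1 - aa (gX O0 u y)) ^ κ) (𝓝[Qt a b] ((0, b) : P2)) (𝓝 0) := by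
    have := t1.rpow_const (p := κ) (Or.inr hκ0.le)
    rwa [Real.zero_rpow hκ0.ne'] at this
  have t3 : Tendsto (fun y => √(aa (gX O0 u y) * (1 - C * (1 - aa (gX O0 u y)) ^ κ)) - χ y)
      (𝓝[Qt a b] ((0, b) : P2)) (𝓝 (1 - χ (0, b))) := by
    have := (t0.mul ((t2.const_mul C).const_sub 1)).sqrt.sub
      ((hc.cont.tendsto (0, b)).mono_left (nhdsWithin_le_nhds (s := Qt a b)))
    simpa using this
  filter_upwards [t3.eventually (lt_mem_nhds (show -δ < 1 - χ (0, b) by linarith)),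
    t1.eventually (gt_mem_nhds hρ), self_mem_nhdsWithin] with y h2 h3 hy
  have h4 := hC y hy.1 h3
  have h5 := (hR.sign a b u hu y hy.1).1
  have h6 : √(aa (gX O0 u y) * (1 - C * (1 - aa (gX O0 u y)) ^ κ)) ≤
      u12 (gX O0 u y) (gN O0 u y) := by
    refine Real.sqrt_le_iff.2 ⟨u12_nonneg hR hu hy.1 hy.2.2, ?_⟩
    rw [mul_comm, ← le_div_iff₀ h5]
    linarith
  linarith

theorem near_E (hM : MeqS) (hT : TetS) (hu : IsLeaf a b u) (hE : EdgeExt a b u ζ L)
    (h : EConj a b u χ ζ ψ) {s : ℝ} (hs : 0 < s) (h1 : ψ (s, 0) ≤ ff s * bb (d2 ζ (s, 0)))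
    {δ : ℝ} (hδ : 0 < δ) :
    ∀ᶠ y in 𝓝[Qt a b] (ep a b s), -δ < u12 (gX O0 u y) (gN O0 u y) - χ y := by
  set O := OG (hA a) (hA b) with hO
  have hm := he_axis hu.apos hu.bpos hs
  have t0 := (O.symm.continuous.tendsto _).comp (tend_X hT hu (ep_mem hu.apos hu.bpos hs))
  rw [h.pt s hs, ← hO, O.symm_apply_apply] at t0
  have tc : ∀ i : Fin 4, Tendsto (fun y => O.symm (gX O0 u y) i) (𝓝[Qt a b] (ep a b s))
      (𝓝 (gn (s, 0) 0 i)) := fun i =>
    ((EuclideanSpace.proj i : E4 →L[ℝ] ℝ).continuous.tendsto _).comp t0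
  have hf := ff_pos s
  have g0 : gn (s, 0) 0 0 = ff s := by simp [gn, ff]
  have g1 : gn (s, 0) 0 1 = ff s * s := by simp [gn, ff]
  have g2 : gn (s, 0) 0 2 = 0 := by simp [gn]
  have t1 := ((tc 1).div (tc 0) (by rw [g0]; exact hf.ne')).prodMk_nhds
    ((tc 2).div (tc 0) (by rw [g0]; exact hf.ne'))
  rw [g0, g1, g2, zero_div, mul_div_cancel_left₀ _ hf.ne'] at t1
  have t2 := ((sf_edge hM hE hm).has_u12.sub (h.der _ hm)).continuousAt.tendsto.comp t1
  have t3 := t2.eventually (lt_mem_nhds (show -δ < _ by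
    rw [Pi.sub_apply, u12_edge hu hE hs]
    linarith))
  have t4 := (tc 0).eventually (lt_mem_nhds (show 0 < _ by rw [g0]; exact hf))
  filter_upwards [t3, t4, t1.eventually ((he_open a b).mem_nhds hm), self_mem_nhdsWithin]
    with y h2 h3 h4 hy
  simp only [Function.comp, Pi.sub_apply, Pi.div_apply] at h2 h4
  set w := O.symm (gX O0 u y) with hw
  have hw1 : ‖w‖ = 1 := by
    rw [hw, LinearIsometryEquiv.norm_map, gX, LinearIsometryEquiv.norm_map, norm_gn]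
  have e1 : gX O0 u y = O (gn (w 1 / w 0, w 2 / w 0) (w 3 / w 0)) := by
    rw [gn_coord w hw1 h3, hw, O.apply_symm_apply]
  obtain ⟨c1, c2⟩ := hE.conv y hy.1 _ h4 _ e1 hy.2.1 hy.2.2
  have e2 : gX O ζ (w 1 / w 0, w 2 / w 0) = gX O0 u y := by
    rw [e1, c2]
    rfl
  obtain ⟨-, -, m3, -⟩ := lower_mem hT hE h4 c1
  have m4 := h.low _ h4 c1
  have e3 : py (gX O0 u y) = y := py_X hT y (u y)
  rw [← hO, e2, e3] at m3 m4
  rw [e2, ← m3, ← m4] at h2
  exact h2

theorem near_half (hM : MeqS) (hT : TetS) (hu : IsLeaf a b u) (hc : Conj a b u χ) {y : P2}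
    (hy : y ∈ Rho a b) (h2 : 0 < y.2) : ∀ᶠ x in 𝓝 y, ∃ x' ∈ Qt a b, χ x' = χ x ∧
      aa (gX O0 u x') = aa (gX O0 u x) ∧
      u12 (gX O0 u x') (gN O0 u x') = u12 (gX O0 u x) (gN O0 u x) := by
  filter_upwards [(rho_open a b).mem_nhds hy,
    (isOpen_lt continuous_const continuous_snd).mem_nhds h2] with x h3 h4
  obtain ⟨b1, b2, b3, b4⟩ := hc.abs1 hM hT hu h3
  exact ⟨_, ⟨b1, abs_nonneg _, le_of_lt h4⟩, b2, b3, b4⟩

theorem nondeg (hD : DerS) (hR : RadoS) (hu : IsLeaf a b u) {y : P2} (hy : y ∈ Rho a b) (w : P2)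
    (h : ∀ v, ⟪gN O0 u y, fderiv ℝ (fun x => fderiv ℝ (gX O0 u) x w) y v⟫_ℝ = 0) : w = 0 := by
  obtain ⟨c, hc, h1⟩ := second O0 (hu.sol.1 y hy)
  have h2 := (hD u y (hu.sol.1 y hy)).2.2.2.2.2.2.2.2.2
  have h3 := hR.hess a b u hu y hy
  have e1 := h (1, 0)
  have e2 := h (0, 1)
  rw [h1, h2] at e1 e2
  have f1 := (mul_eq_zero.1 e1).resolve_left hc
  have f2 := (mul_eq_zero.1 e2).resolve_left hc
  simp only at f1 f2
  have hne : d1 (d1 u) y * d2 (d2 u) y - d1 (d2 u) y ^ 2 ≠ 0 := by linarith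
  have g1 : (d1 (d1 u) y * d2 (d2 u) y - d1 (d2 u) y ^ 2) * w.1 = 0 := by
    linear_combination d2 (d2 u) y * f1 - d1 (d2 u) y * f2
  have g2 : (d1 (d1 u) y * d2 (d2 u) y - d1 (d2 u) y ^ 2) * w.2 = 0 := by
    linear_combination d1 (d1 u) y * f2 - d1 (d2 u) y * f1
  exact Prod.ext ((mul_eq_zero.1 g1).resolve_left hne) ((mul_eq_zero.1 g2).resolve_left hne)

/-- the closed quarter -/
def Qc (a b : ℝ) : Set P2 := {y | y ∈ Rh a b ∧ 0 ≤ y.1 ∧ 0 ≤ y.2}

theorem qc_compact (ha : 0 < a) (hb : 0 < b) : IsCompact (Qc a b) :=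
  (rh_compact ha hb).inter_right ((isClosed_le continuous_const continuous_fst).inter
    (isClosed_le continuous_const continuous_snd))

theorem star_nonneg (hM : MeqS) (hD : DerS) (hT : TetS) (hR : RadoS) (hu : IsLeaf a b u)
    (hc : Conj a b u χ) (hb : ∀ y ∈ Qc a b, y ∉ Rho a b → ∀ δ > 0,
      ∀ᶠ x in 𝓝[Qt a b] y, -δ < u12 (gX O0 u x) (gN O0 u x) - χ x) {y : P2} (hy : y ∈ Qt a b) :
    χ y ≤ u12 (gX O0 u y) (gN O0 u y) := by
  by_contra hlt
  set F : P2 → ℝ := fun x => u12 (gX O0 u x) (gN O0 u x) - χ x with hF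
  have hFd : ∀ x ∈ Rho a b, HasFDerivAt F ((Bf (gX O0 u x)).comp (fderiv ℝ (gN O0 u) x)) x :=
    fun x hx => ((sf_leaf hM hu hx).has_u12.sub (hc.der x hx)).congr_fderiv (by abel)
  have hFy : F y < 0 := by
    simp only [hF]
    linarith
  set S : Set P2 := {x | x ∈ Qt a b ∧ F x ≤ F y} with hS
  have hsub : S ⊆ Qc a b := fun x hx => ⟨rho_sub a b hx.1.1, hx.1.2⟩
  have hK := qc_compact hu.apos hu.bpos
  have hcl : IsClosed S := by
    refine isClosed_of_closure_subset fun x hx => ?_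
    have h1 : x ∈ Qc a b := hK.isClosed.closure_subset_iff.2 hsub hx
    have h2 : (𝓝[S] x).NeBot := mem_closure_iff_nhdsWithin_neBot.1 hx
    by_cases h3 : x ∈ Rho a b
    · refine ⟨⟨h3, h1.2⟩, ?_⟩
      refine le_of_tendsto ((hFd x h3).continuousAt.tendsto.mono_left
        (nhdsWithin_le_nhds (s := S))) ?_
      filter_upwards [self_mem_nhdsWithin] with t ht using ht.2
    · exfalso
      have h4 := (hb x h1 h3 (-F y) (by linarith)).filter_mono
        (nhdsWithin_mono x (show S ⊆ Qt a b from fun t ht => ht.1))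
      obtain ⟨t, ht1, ht2⟩ := (h4.and self_mem_nhdsWithin).exists
      have := ht2.2
      simp only [hF] at this ht1
      linarith
  obtain ⟨x, hx, hmin⟩ := (hK.of_isClosed_subset hcl hsub).exists_isMinOn ⟨y, hy, le_rfl⟩
    (f := F) fun t ht => (hFd t ht.1.1).continuousAt.continuousWithinAt
  obtain ⟨s1, -, s3, -, -, s6, s7⟩ := hR.sign a b u hu x hx.1.1
  have hx2 : 0 < x.2 := by
    refine lt_of_le_of_ne hx.1.2.2 fun h0 => ?_
    have h1 := hc.axis hM hT hu hx.1.1 h0.symm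
    have h2 := u12_nonneg hR hu hx.1.1 hx.1.2.2
    have h3 := hx.2
    simp only [hF] at h3 hFy
    linarith
  have hloc : IsLocalMin F x := by
    filter_upwards [near_half hM hT hu hc hx.1.1 hx2] with t ⟨t', ht', b1, _, b3⟩
    have e : F t' = F t := by simp only [hF, b1, b3]
    rw [← e]
    rcases le_total (F t') (F y) with h | h
    · exact hmin ⟨ht', h⟩
    · exact hx.2.trans h
  exact (sf_leaf hM hu hx.1.1).nocrit1 s1 s3.ne (nondeg hD hR hu hx.1.1)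
    (hloc.hasFDerivAt_eq_zero (hFd x hx.1.1))

theorem g_der (hM : MeqS) (hR : RadoS) (hu : IsLeaf a b u) (hc : Conj a b u χ) {y : P2}
    (hy : y ∈ Rho a b) : ∃ D : P2 →L[ℝ] ℝ, HasFDerivAt (fun x => √(aa (gX O0 u x)) - χ x) D y ∧
      ∀ v, D v = (gX O0 u y 0 * fderiv ℝ (gX O0 u) y v 0 +
        gX O0 u y 1 * fderiv ℝ (gX O0 u) y v 1) / √(aa (gX O0 u y)) -
          om (gX O0 u) (gN O0 u) y v := by
  obtain ⟨D, h1, h2⟩ := (sf_leaf hM hu hy).has_f (hR.sign a b u hu y hy).1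
  exact ⟨_, h1.sub (hc.der y hy), fun v => by rw [sub_apply, h2]⟩

theorem O0_two (x : E4) : O0 x 2 = (√2)⁻¹ * (x 0 + x 3) := by
  simp [O0, mkO_apply]
  ring

theorem axis_neg (hM : MeqS) (hT : TetS) (hR : RadoS) (hu : IsLeaf a b u) {y : P2}
    (hy : y ∈ Rho a b) (h1 : y.1 = 0) (h2 : 0 < y.2) :
    (gX O0 u y 0 * fderiv ℝ (gX O0 u) y (0, 1) 0 + gX O0 u y 1 * fderiv ℝ (gX O0 u) y (0, 1) 1) /
      √(aa (gX O0 u y)) < om (gX O0 u) (gN O0 u) y (0, 1) := by
  obtain ⟨s1, -, s3, s4, s5, s6, -⟩ := hR.sign a b u hu y hy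
  obtain ⟨i1, i2, -⟩ := hT.inner a b u hu y hy
  obtain ⟨-, -, e2, e3⟩ := hT.coord y (u y)
  have hb := hu.bpos
  have l1 : -1 < u y := by simpa [lo, h1] using i1
  have l2 : u y < 1 := by
    have : 0 ≤ 2 * |y.2| / b := by positivity
    unfold up at i2
    linarith
  have hρ := rho_pos y (u y)
  have x2 : 0 < gX O0 u y 2 := by
    rw [gX, e2]
    have : 0 < 1 + u y := by linarith
    positivity
  have x3 : gX O0 u y 3 = 0 := by rw [gX, e3, h1, zero_div]
  have z34 : u34 (gX O0 u y) (gN O0 u y) = 0 := by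
    rw [h1] at s4 s5
    exact le_antisymm (not_lt.1 fun h => lt_irrefl _ (s5.1 h)) (not_lt.1 fun h => lt_irrefl _ (s4.1 h))
  have n3 : gN O0 u y 3 = 0 := by
    rw [u34, x3, zero_mul, sub_zero] at z34
    exact (mul_eq_zero.1 z34).resolve_left x2.ne'
  refine (sf_leaf hM hu hy).axis s1 s3.ne (s6.2 h2) (0, 1) x2 x3 n3 ?_
  have e := congrFun (BMeq.fd_iso O0 (fun x => gn x (u x)) (0, 1)) y
  have hq : fderiv ℝ u y (0, 1) < 0 := (hR.mono a b u hu y hy).2.2.1.2 h2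
  change fderiv ℝ (fun x => O0 (gn x (u x))) y (0, 1) 2 < 0
  rw [e, O0_two, BMeq.fd_gn (hu.sol.1 y hy).differentiableAt]
  refine mul_neg_of_pos_of_neg (by positivity) ?_
  have hs := BMeq.ss_pos u y
  have hss := BMeq.ss_sq u y
  set q := fderiv ℝ u y (0, 1)
  set σ := BMeq.ss u y
  simp [BMeq.YY, ee]
  unfold BMeq.rr at hss
  rw [h1] at hss
  have k1 : σ * q = σ ^ 3 * (q * (1 + y.2 ^ 2 + u y ^ 2)) := by linear_combination (-σ * q) * hss
  have k2 : q * (1 + y.2 ^ 2 - u y) < 0 := mul_neg_of_neg_of_pos hq (by nlinarith [sq_nonneg y.2])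
  have k3 : 0 < (1 + u y) * y.2 := mul_pos (by linarith) h2
  have k4 : 0 < σ ^ 3 := by positivity
  rw [k1]
  nlinarith [mul_pos k4 k3, mul_neg_of_pos_of_neg k4 k2]

theorem g_cont (hT : TetS) (hu : IsLeaf a b u) (hc : Conj a b u χ) :
    ContinuousOn (fun x => √(aa (gX O0 u x)) - χ x) (Rh a b) :=
  (aa_cont.comp_continuousOn (hT.cpt a b u hu).1).sqrt.sub hc.cont.continuousOn

theorem g_Q (hM : MeqS) (hT : TetS) (hR : RadoS) (hu : IsLeaf a b u) (hc : Conj a b u χ) :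
    1 - χ (0, b) ≤ √(aa (gX O0 u 0)) := by
  have hb := hu.bpos
  have hanti : AntitoneOn (fun t : ℝ => √(aa (gX O0 u (0, t))) - χ (0, t)) (Icc 0 b) := by
    refine anti_of (convex_Icc 0 b) ((g_cont hT hu hc).comp
      (continuous_const.prodMk continuous_id).continuousOn fun t ht => ?_) fun t ht => ?_
    · change |(0 : ℝ)| / a + |t| / b ≤ 1
      rw [abs_zero, zero_div, zero_add, abs_of_nonneg ht.1, div_le_one hb]
      exact ht.2
    · rw [interior_Icc] at ht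
      have hm : ((0, t) : P2) ∈ Rho a b := by
        change |(0 : ℝ)| / a + |t| / b < 1
        rw [abs_zero, zero_div, zero_add, abs_of_pos ht.1, div_lt_one hb]
        exact ht.2
      obtain ⟨D, h1, h2⟩ := g_der hM hR hu hc hm
      refine ⟨_, ?_, line2 h1⟩
      rw [h2]
      linarith [axis_neg hM hT hR hu hm rfl ht.1]
  have h1 := hanti (left_mem_Icc.2 hb.le) (right_mem_Icc.2 hb.le) hb.le
  have h2 : χ (0, 0) = 0 := hc.zero
  simp only [aaQ hT hu, Real.sqrt_one, h2, sub_zero] at h1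
  exact h1

theorem g_le (hM : MeqS) (hT : TetS) (hR : RadoS) (hu : IsLeaf a b u) (hc : Conj a b u χ)
    (hE : EdgeExt a b u ζ L) (h : EConj a b u χ ζ ψ) {y : P2} (hy : y ∈ Qc a b) :
    √(aa (gX O0 u y)) - χ y ≤ √(aa (gX O0 u 0)) := by
  obtain ⟨x, hx, hmax⟩ := (qc_compact hu.apos hu.bpos).exists_isMaxOn ⟨y, hy⟩
    ((g_cont hT hu hc).mono fun t ht => ht.1)
  refine le_trans (hmax hy) ?_
  have hQ := g_Q hM hT hR hu hc
  by_cases h1 : x ∈ Rho a b
  · rcases hx.2.2.eq_or_lt with h2 | h2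
    · simp only [hc.axis hM hT hu h1 h2.symm, sub_zero]
      exact Real.sqrt_le_sqrt ((hR.axis a b u hu x h1).1 h2.symm)
    · exfalso
      have hloc : IsLocalMax (fun x => √(aa (gX O0 u x)) - χ x) x := by
        filter_upwards [near_half hM hT hu hc h1 h2] with t ⟨t', ht', b1, b2, _⟩
        have := hmax (show t' ∈ Qc a b from ⟨rho_sub a b ht'.1, ht'.2⟩)
        simp only [mem_ofPred_eq, b1, b2] at this
        exact this
      obtain ⟨D, d1, d2⟩ := g_der hM hR hu hc h1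
      have h0 := hloc.hasFDerivAt_eq_zero d1
      obtain ⟨s1, -, s3, s4, -⟩ := hR.sign a b u hu x h1
      rcases hx.2.1.eq_or_lt with h3 | h3
      · have := axis_neg hM hT hR hu h1 h3.symm h2
        have e := d2 (0, 1)
        rw [h0, zero_apply] at e
        linarith
      · obtain ⟨v, hv⟩ := (sf_leaf hM hu h1).nocrit2 s1 s3.ne (s4.2 h3).ne
        have e := d2 v
        rw [h0, zero_apply] at e
        exact hv (by linarith)
  · rcases bdry hu.apos hu.bpos hx.1 h1 hx.2.1 hx.2.2 with rfl | rfl | ⟨s, hs, rfl⟩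
    · simp only [aaP hT hu, hc.vertP hM hT hu, Real.sqrt_zero, sub_zero]
      exact Real.sqrt_nonneg _
    · simp only [aaQ hT hu, Real.sqrt_one]
      exact hQ
    · obtain ⟨e0, e1, -, -⟩ := edge_X (hA a) (hA b) s
      have e : aa (gX O0 u (ep a b s)) = ff s ^ 2 := by
        rw [h.pt s hs, aa, e0, e1]
        linear_combination (ff s ^ 2) * Real.sin_sq_add_cos_sq (hA b)
      simp only [e, Real.sqrt_sq (ff_pos s).le]
      exact (edge_g hM hu hc hE h hs).trans hQ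

end EPsi

open EPsi in
theorem psiS (hM : MeqS) (hD : DerS) (hT : TetS) (hR : RadoS) (hE : EdgeS) (hQ : QdecS) :
    PsiS := by
  intro a b u hu
  obtain ⟨χ, hc⟩ := exists_conj hM hR hu
  obtain ⟨L, hL⟩ := hE (min a b) (lt_min hu.apos hu.bpos)
  obtain ⟨ζ, hζ, hq⟩ := hL a b u (min_le_left _ _) (min_le_right _ _) hu
  obtain ⟨ψ, hψ⟩ := exists_econj hM hT hu hc hζ
  have hs : ∀ s > 0, ψ (s, 0) ≤ ff s * bb (d2 ζ (s, 0)) := fun s hs =>
    edge_star hM hD hT hu hc hζ hq hψ hs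
  have quarter : ∀ y ∈ Qt a b, √(aa (gX O0 u y)) - √(aa (gX O0 u 0)) ≤
      u12 (gX O0 u y) (gN O0 u y) := by
    intro y hy
    have h1 := star_nonneg hM hD hT hR hu hc (fun x hx hx' δ hδ => by
      rcases bdry hu.apos hu.bpos hx.1 hx' hx.2.1 hx.2.2 with rfl | rfl | ⟨s, hs0, rfl⟩
      · exact near_P hM hT hR hu hc hδ
      · exact near_Q hT hR hQ hu hc (vertQ_le hc hψ hs) hδ
      · exact near_E hM hT hu hζ hψ hs0 (hs s hs0) hδ) hy
    have h2 := g_le hM hT hR hu hc hζ hψ (y := y) ⟨rho_sub a b hy.1, hy.2⟩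
    linarith
  have half : ∀ y ∈ Rho a b, 0 ≤ y.2 → √(aa (gX O0 u y)) - √(aa (gX O0 u 0)) ≤
      u12 (gX O0 u y) (gN O0 u y) := by
    intro y hy h2
    obtain ⟨b1, -, b3, b4⟩ := hc.abs1 hM hT hu hy
    have := quarter _ ⟨b1, abs_nonneg _, h2⟩
    rwa [b3, b4] at this
  intro y hy
  rcases le_total 0 y.2 with h2 | h2
  · exact (half y hy h2).trans (le_abs_self _)
  · have := half _ (neg2_mem hy) (neg_nonneg.2 h2)
    obtain ⟨-, -, e1, e2⟩ := hT.evg a b u hu y hy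
    rw [e1, e2, aa_rf1, u12_rf1, neg_one_mul] at this
    exact this.trans (neg_le_abs _)

end Pool.Agent.Lib.MP_16d934_gt
end
end

-- part Pool.Agent.Lib.MP_16d934_gt.ELaw
section

/-! Lawson discs are leaves, a closed surface that contains a leaf is its orbit. -/

set_option autoImplicit false

open Set Metric Filter Topology Asymptotics
open scoped ContDiff InnerProductSpace NNReal Real

noncomputable section

namespace Pool.Agent.Lib.MP_16d934_gt

namespace ELaw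

/-- the open leaf -/
def opn (l : ℝ) : Set E4 := gX O0 (lf l) '' Rho (aL l) √2

theorem rho_sub (a b : ℝ) : Rho a b ⊆ Rh a b := fun y h =>
  le_of_lt (show |y.1| / a + |y.2| / b < 1 from h)

theorem leaf_eq (hT : TetS) (hF : LfS) {l : ℝ} (hl : l ∈ Ioo 0 π) :
    leafSet l = opn l ∪ Quad (aL l) √2 := by
  rw [← hT.quad _ _ _ (hF l hl), opn, ← image_union, union_sdiff_cancel (rho_sub _ _), leafSet]

theorem opn_tet (hT : TetS) (hF : LfS) {l : ℝ} (hl : l ∈ Ioo 0 π) {x : E4} (hx : x ∈ opn l) :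
    x ∈ TetO (aL l) √2 := by
  obtain ⟨y, hy, rfl⟩ := hx
  exact (hT.inner _ _ _ (hF l hl) y hy).2.2

theorem opn_quad (hT : TetS) (hF : LfS) {l : ℝ} (hl : l ∈ Ioo 0 π) {x : E4} (hx : x ∈ opn l) :
    x ∉ Quad (aL l) √2 := fun h => (opn_tet hT hF hl hx).2.1.ne h.2.1

theorem opn_aa (hT : TetS) (hF : LfS) {l : ℝ} (hl : l ∈ Ioo 0 π) {x : E4} (hx : x ∈ opn l) :
    aa x ≠ 0 ∧ aa x ≠ 1 := by
  obtain ⟨h1, h2, h3⟩ := opn_tet hT hF hl hx
  have s2 : (0 : ℝ) < √2 := by positivity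
  have h4 : 0 < x 2 := (mul_pos_iff_of_pos_left (hT.ang.2.2 l hl).1).1
    (lt_of_le_of_lt (by positivity) h2)
  have h5 : 0 < x 0 := (mul_pos_iff_of_pos_left s2).1 (lt_of_le_of_lt (by positivity) h3)
  have h6 := real_inner_self_eq_norm_sq x
  rw [inner4, h1] at h6
  unfold aa
  constructor <;> intro h <;> nlinarith [sq_nonneg (x 1), sq_nonneg (x 3)]

theorem clo_opn (hT : TetS) (hF : LfS) {l : ℝ} (hl : l ∈ Ioo 0 π) : closure (opn l) = leafSet l :=
  (hT.cpt _ _ _ (hF l hl)).2.2.1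

theorem min_opn (hT : TetS) (hF : LfS) {l : ℝ} (hl : l ∈ Ioo 0 π) : IsMin (opn l) :=
  (hT.cpt _ _ _ (hF l hl)).2.2.2.1

theorem trig {l : ℝ} (hl : l ∈ Ioo 0 π) : 0 < Real.sin (l / 2) ∧ 0 < Real.cos (l / 2) :=
  ⟨Real.sin_pos_of_pos_of_lt_pi (by linarith [hl.1]) (by linarith [hl.1, hl.2]),
    Real.cos_pos_of_mem_Ioo ⟨by linarith [hl.1, hl.2], by linarith [hl.2]⟩⟩

theorem arc_quad {l s t : ℝ} (hl : l ∈ Ioo 0 π) (hs : s = l / 2 ∨ s = -(l / 2))
    (ht : t = π / 4 ∨ t = -(π / 4)) : ArcIn (Quad (aL l) √2) s t := by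
  intro α β hα hβ h
  obtain ⟨t1, t2⟩ := trig hl
  refine ⟨norm_cone h s t, ?_, ?_⟩
  · rcases hs with rfl | rfl <;>
      simp [vP, vQ, aL, Real.tan_eq_sin_div_cos, abs_mul, abs_of_nonneg hα, abs_of_pos t1] <;>
      field_simp
  · rcases ht with rfl | rfl <;> simp [vP, vQ, abs_mul, abs_of_nonneg hβ, abs_div]

theorem quad_cases (hT : TetS) {l : ℝ} (hl : l ∈ Ioo 0 π) {x : E4} (hx : x ∈ Quad (aL l) √2) :
    ∃ s t α β : ℝ, (s = l / 2 ∨ s = -(l / 2)) ∧ (t = π / 4 ∨ t = -(π / 4)) ∧ 0 ≤ α ∧ 0 ≤ β ∧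
      α ^ 2 + β ^ 2 = 1 ∧ x = α • vP s + β • vQ t := by
  rw [hT.arcs _ _ (hT.ang.2.2 l hl).1 (by positivity), (hT.ang.2.2 l hl).2, hT.ang.2.1] at hx
  have key : ∀ s t, x ∈ arc (vP s) (vQ t) → ∃ α β : ℝ, 0 ≤ α ∧ 0 ≤ β ∧ α ^ 2 + β ^ 2 = 1 ∧
      x = α • vP s + β • vQ t := by
    rintro s t ⟨τ, hτ, e⟩
    exact ⟨_, _, Real.cos_nonneg_of_mem_Icc ⟨by linarith [hτ.1, Real.pi_pos], hτ.2⟩,
      Real.sin_nonneg_of_mem_Icc ⟨hτ.1, by linarith [hτ.2, Real.pi_pos]⟩,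
      Real.cos_sq_add_sin_sq τ, e.symm⟩
  rcases hx with ((h | h) | h) | h <;> obtain ⟨α, β, h⟩ := key _ _ h
  exacts [⟨_, _, α, β, Or.inl rfl, Or.inl rfl, h⟩, ⟨_, _, α, β, Or.inr rfl, Or.inl rfl, h⟩,
    ⟨_, _, α, β, Or.inr rfl, Or.inr rfl, h⟩, ⟨_, _, α, β, Or.inl rfl, Or.inr rfl, h⟩]

theorem same {A s s' α α' : ℝ} (hs : s = A ∨ s = -A) (hs' : s' = A ∨ s' = -A) (hα : 0 ≤ α)
    (hα' : 0 ≤ α') (h : 0 < α' * Real.sin s' * (α * Real.sin s)) : s' = s := by
  have := mul_nonneg (mul_nonneg hα hα') (mul_self_nonneg (Real.sin A))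
  rcases hs with rfl | rfl <;> rcases hs' with rfl | rfl
  · rfl
  · rw [Real.sin_neg] at h
    linarith
  · rw [Real.sin_neg] at h
    linarith
  · rfl

theorem gR_vQ (s t : ℝ) : gR s t (vQ t) = vQ t := by
  rw [← gR_eq, geoRefl, inner4, inner4]
  ext i
  fin_cases i <;> simp [vP, vQ]
  · linear_combination 2 * Real.cos t * Real.sin_sq_add_cos_sq t
  · linear_combination 2 * Real.sin t * Real.sin_sq_add_cos_sq t

theorem quad_fix (hT : TetS) {l s t α β : ℝ} (hl : l ∈ Ioo 0 π) (hs : s = l / 2 ∨ s = -(l / 2))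
    (ht : t = π / 4 ∨ t = -(π / 4)) (hα : 0 < α) (hβ : 0 < β) :
    ∀ᶠ x in 𝓝 (α • vP s + β • vQ t), x ∈ Quad (aL l) √2 → gR s t x = x := by
  have h1 : α * Real.sin s ≠ 0 := by
    rcases hs with rfl | rfl <;> simp [hα.ne', (trig hl).1.ne']
  have h2 : β * Real.sin t ≠ 0 := by rcases ht with rfl | rfl <;> simp [hβ.ne']
  have c1 : ∀ᶠ x : E4 in 𝓝 (α • vP s + β • vQ t), 0 < x 3 * (α * Real.sin s) :=
    continuousAt_const.eventually_lt (by fun_prop) (by simpa [vP, vQ] using h1)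
  have c2 : ∀ᶠ x : E4 in 𝓝 (α • vP s + β • vQ t), 0 < x 1 * (β * Real.sin t) :=
    continuousAt_const.eventually_lt (by fun_prop) (by simpa [vP, vQ] using h2)
  filter_upwards [c1, c2] with x a b hx
  obtain ⟨s', t', α', β', i1, i2, i3, i4, -, rfl⟩ := quad_cases hT hl hx
  obtain rfl := same hs i1 hα.le i3 (by simpa [vP, vQ] using a)
  obtain rfl := same ht i2 hβ.le i4 (by simpa [vP, vQ] using b)
  rw [map_add, map_smul, map_smul, gR_vP, gR_vQ, show 2 * s' - s' = s' by ring]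

theorem ex_opn (hC : ChartS) (hT : TetS) (hF : LfS) {l : ℝ} (hl : l ∈ Ioo 0 π) {S : Set E4}
    (hM : leafSet l ⊆ S) {O : Iso} {δ r : ℝ} {u : P2 → ℝ} (hu : Chart S O δ u) (hr : 0 < r)
    (hp : O (ee 0) ∈ leafSet l) : ∃ y ∈ ball (0 : P2) r, gX O u y ∈ opn l := by
  have f0 := (hC.facts S O _ u (lch hu) 0 (mem_ball_self hu.pos)).2.2
  have fr : ∃ᶠ y in 𝓝 (0 : P2), gX O u y ∈ opn l := by
    rw [← frequently_map (P := fun x => x ∈ opn l), f0, frequently_nhdsWithin_iff, gX0 hu]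
    rw [← clo_opn hT hF hl] at hp hM
    exact (mem_closure_iff_frequently.1 hp).mono fun x hx => ⟨hx, hM (subset_closure hx)⟩
  obtain ⟨y, y1, y2⟩ := (fr.and_eventually (ball_mem_nhds 0 hr)).exists
  exact ⟨y, y2, y1⟩

theorem opn_open (hM : MeqS) (hC : ChartS) (hT : TetS) (hF : LfS) {l : ℝ} (hl : l ∈ Ioo 0 π)
    {S : Set E4} (hS : IsMin S) (hM' : leafSet l ⊆ S) {x : E4} (hx : x ∈ closure (opn l))
    (hx' : x ∉ Quad (aL l) √2) : ∀ᶠ y in 𝓝[S] x, y ∈ opn l := by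
  rw [clo_opn hT hF hl] at hx
  rw [leaf_eq hT hF hl] at hx hM'
  rw [← germ_eq hM hC (min_opn hT hF hl) hS (hx.resolve_right hx')
    (eventually_mem_nhdsWithin.mono fun y hy => hM' (Or.inl hy))]
  exact eventually_mem_nhdsWithin

theorem edge_open (hM : MeqS) (hC : ChartS) (hT : TetS) (hF : LfS) {l s t α β : ℝ}
    (hl : l ∈ Ioo 0 π) (hs : s = l / 2 ∨ s = -(l / 2)) (ht : t = π / 4 ∨ t = -(π / 4))
    (hα : 0 < α) (hβ : 0 < β) (h1 : α ^ 2 + β ^ 2 = 1) {S A : Set E4} (hS : IsMin S)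
    (hM' : leafSet l ⊆ S) (hg : ∀ x ∈ S, gR s t x ∈ S) (hA : leafSet l ⊆ A)
    (hA' : ∀ x ∈ A, gR s t x ∈ A) : ∀ᶠ y in 𝓝[S] (α • vP s + β • vQ t), y ∈ A := by
  have hQ : Quad (aL l) √2 ⊆ leafSet l := by rw [leaf_eq hT hF hl]; exact subset_union_right
  have hO : opn l ⊆ leafSet l := by rw [leaf_eq hT hF hl]; exact subset_union_left
  have hq := arc_quad hl hs ht
  obtain ⟨O, δ, u, hu, o0, e1, e2⟩ := edge_chart hM hC hS (s := s) (t := t)
    (fun a b i j k => hM' (hQ (hq a b i j k))) hα hβ h1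
  have h0 := mem_ball_self (x := (0 : P2)) hu.pos
  have f0 := (hC.facts S O _ u (lch hu) 0 h0).2.2
  rw [gX0 hu, o0] at f0
  have c0 : Tendsto (gX O u) (𝓝 0) (𝓝 _) := (le_of_eq f0).trans nhdsWithin_le_nhds
  have t1 : Tendsto (fun y : P2 => (rf y, -u y)) (𝓝 0) (𝓝 (0, 0)) := by
    have := (rf.continuous.continuousAt (x := 0)).prodMk (hu.sol.1 0 h0).continuousAt.neg
    rw [ContinuousAt] at this
    simpa [hu.zero] using this
  obtain ⟨r, hr, hb⟩ := Metric.eventually_nhds_iff_ball.1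
    ((c0.eventually (quad_fix hT hl hs ht hα hβ)).and ((t1.eventually (near hu)).and
      (((continuousAt_snd (p := (0 : P2))).eventually e2).and (ball_mem_nhds 0 hu.pos))))
  have k1 : ∀ y ∈ ball (0 : P2) r, y.1 = 0 → gX O u y ∈ Quad (aL l) √2 := fun y hy e => by
    obtain ⟨a, b⟩ := (hb y hy).2.2.1
    have e' : y = (0, y.2) := Prod.ext e rfl
    rw [e', gX, a]
    exact b _ hq
  have k2 : ∀ y ∈ ball (0 : P2) r, gX O u y ∈ Quad (aL l) √2 → y.1 = 0 := fun y hy e => by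
    have := (hb y hy).1 e
    rw [gX, e1] at this
    have := congrArg Prod.fst (hT.inj O _ _ _ _ this).1
    simp only [rf_apply] at this
    linarith
  have k3 : ∀ y ∈ ball (0 : P2) r, gR s t (gX O u y) = gX O u (rf y) := fun y hy => by
    have := hg _ (hC.facts S O _ u (lch hu) y (hb y hy).2.2.2).1
    rw [gX, e1] at this ⊢
    rw [gX, (hb y hy).2.1 this]
  obtain ⟨y, y1, y2⟩ := ex_opn hC hT hF hl hM' hu hr (o0 ▸ hQ (hq _ _ hα.le hβ.le h1))
  have y3 : y.1 ≠ 0 := fun e => opn_quad hT hF hl y2 (k1 y y1 e)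
  have key := fill hM hC (L := opn l) (lch hu)
    (half r (y.1 • ContinuousLinearMap.fst ℝ ℝ ℝ)).isPreconnected (fun z hz => (hb z hz.1).2.2.2)
    (fun z hz a => opn_open hM hC hT hF hl hS hM' a fun b => by
      have := hz.2
      simp [k2 z hz.1 b] at this) ⟨y, ⟨y1, by simpa using y3⟩, y2⟩
  rw [← f0, eventually_map]
  filter_upwards [ball_mem_nhds 0 hr] with z hz
  rcases lt_trichotomy 0 (y.1 * z.1) with c | c | c
  · exact hA (hO (key z ⟨hz, c⟩))
  · exact hA (hQ (k1 z hz ((mul_eq_zero.1 c.symm).resolve_left y3)))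
  · rw [← gR_inv s t (gX O u z), k3 z hz]
    refine hA' _ (hA (hO (key _ ⟨?_, ?_⟩)))
    · simpa [rf_apply, Prod.norm_def] using hz
    · simpa [rf_apply] using c

theorem frame3 (O : Iso) {n : E4} (hn : ‖n‖ = 1) (h0 : ⟪n, O (ee 0)⟫_ℝ = 0)
    (h1 : ⟪n, O (ee 1)⟫_ℝ = 0) (h2 : ⟪n, O (ee 2)⟫_ℝ = 0) : O (ee 3) = n ∨ O (ee 3) = -n := by
  obtain ⟨w, rfl⟩ := O.surjective n
  rw [O.inner_map_map, inner4] at h0 h1 h2
  have h3 := real_inner_self_eq_norm_sq w
  rw [O.norm_map] at hn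
  simp [ee] at h0 h1 h2
  rw [inner4, hn, h0, h1, h2] at h3
  rcases mul_self_eq_one_iff.1 (show w 3 * w 3 = 1 by linarith) with e | e
  · left
    congr 1
    ext i
    fin_cases i <;> simp [ee, h0, h1, h2, e]
  · right
    rw [← map_neg]
    congr 1
    ext i
    fin_cases i <;> simp [ee, h0, h1, h2, e]

theorem ang_eq (hM : MeqS) (hC : ChartS) (hTo : TouchS) (hT : TetS) (hF : LfS) {l : ℝ}
    (hl : l ∈ Ioo 0 π) {S : Set E4} (hS : IsMin S) (hM' : leafSet l ⊆ S) :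
    ∃ m : ℕ, 2 ≤ m ∧ l = π / m := by
  have hQ : Quad (aL l) √2 ⊆ leafSet l := by rw [leaf_eq hT hF hl]; exact subset_union_right
  obtain ⟨t1, t2⟩ := trig hl
  have hq : ∀ s, s = l / 2 ∨ s = -(l / 2) → ArcIn (leafSet l) s (π / 4) :=
    fun s hs a b i j k => hQ (arc_quad hl hs (Or.inl rfl) a b i j k)
  have hp : vQ (π / 4) ∈ leafSet l := by
    simpa using hq _ (Or.inl rfl) 0 1 le_rfl zero_le_one (by norm_num)
  have hn := (hC.nor_spec S hS _ (hM' hp))
  have ht : ∀ s, s = l / 2 ∨ s = -(l / 2) → ⟪nor S (vQ (π / 4)), vP s⟫_ℝ = 0 := fun s hs => by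
    refine tangent hn.1 ?_
    filter_upwards [Ioo_mem_nhdsGT (show (0 : ℝ) < π / 2 by positivity)] with r hr
    rw [add_comm]
    exact hM' (hq s hs _ _ (Real.sin_nonneg_of_mem_Icc ⟨hr.1.le, by linarith [hr.2, hr.1]⟩)
      (Real.cos_nonneg_of_mem_Icc ⟨by linarith [hr.2, hr.1], hr.2.le⟩) (Real.sin_sq_add_cos_sq r))
  have o0 : OQ 0 (π / 4) (ee 0) = vQ (π / 4) := by
    ext i
    fin_cases i <;> simp [OQ, mkO_apply, ee, vQ]
  have a1 := ht _ (Or.inl rfl)
  have a2 := ht _ (Or.inr rfl)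
  rw [inner4] at a1 a2
  simp [vP] at a1 a2
  have o3 := frame3 (OQ 0 (π / 4)) hn.1.1 (o0 ▸ hn.1.2.1)
    (by
      rw [inner4]
      simp [OQ, mkO_apply, ee]
      exact (mul_eq_zero.1 (show _ * Real.cos (l / 2) = 0 by linarith)).resolve_right t2.ne')
    (by
      rw [inner4]
      simp [OQ, mkO_apply, ee]
      exact (mul_eq_zero.1 (show _ * Real.sin (l / 2) = 0 by linarith)).resolve_right t1.ne')
  obtain ⟨δ, u, hu⟩ := hC.chart S hS (OQ 0 (π / 4)) (o0 ▸ hM' hp) (o0 ▸ (hn.2 _).2 o3)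
  have co : ∀ y z, OQ 0 (π / 4) (gn y z) 0 = (rho y z)⁻¹ * (√2 / 2 * (1 - z)) ∧
      OQ 0 (π / 4) (gn y z) 1 = (rho y z)⁻¹ * (√2 / 2 * (1 + z)) ∧
      OQ 0 (π / 4) (gn y z) 2 = (rho y z)⁻¹ * y.1 ∧
      OQ 0 (π / 4) (gn y z) 3 = (rho y z)⁻¹ * y.2 := fun y z => by
    refine ⟨?_, ?_, ?_, ?_⟩ <;> simp [OQ, mkO_apply, gn, rho] <;> ring
  have hρ : ∀ y z, 0 < (rho y z)⁻¹ := fun y z => inv_pos.2 (BTouch.rho_pos y z)
  have hw : ∀ y z, √2 * |OQ 0 (π / 4) (gn y z) 3| < aL l * OQ 0 (π / 4) (gn y z) 2 ↔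
      √2 * |y.2| < aL l * y.1 := fun y z => by
    rw [(co y z).2.2.1, (co y z).2.2.2, abs_mul, abs_of_pos (hρ y z), mul_left_comm,
      mul_left_comm (aL l), mul_lt_mul_iff_right₀ (hρ y z)]
  have hcv : Convex ℝ (ball (0 : P2) δ ∩ {y | √2 * |y.2| < aL l * y.1}) := by
    have := (half δ (aL l • ContinuousLinearMap.fst ℝ ℝ ℝ
      - √2 • ContinuousLinearMap.snd ℝ ℝ ℝ)).inter (half δ (aL l • ContinuousLinearMap.fst ℝ ℝ ℝ
        + √2 • ContinuousLinearMap.snd ℝ ℝ ℝ))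
    convert this using 1
    ext y
    rw [mem_inter_iff, mem_ofPred_eq, ← abs_of_nonneg (Real.sqrt_nonneg 2), ← abs_mul, abs_lt,
      abs_of_nonneg (Real.sqrt_nonneg 2)]
    simp only [mem_inter_iff, mem_ofPred_eq, sub_apply, add_apply, smul_apply,
      ContinuousLinearMap.coe_fst', ContinuousLinearMap.coe_snd', smul_eq_mul]
    exact ⟨fun ⟨a, b, c⟩ => ⟨⟨a, by linarith⟩, a, by linarith⟩,
      fun ⟨⟨a, b⟩, _, c⟩ => ⟨a, by linarith, by linarith⟩⟩
  obtain ⟨y, y1, y2⟩ := ex_opn hC hT hF hl hM' hu hu.pos (o0 ▸ hp)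
  have key := fill hM hC (L := opn l) (lch hu) hcv.isPreconnected inter_subset_left
    (fun z hz a => opn_open hM hC hT hF hl hS hM' a fun b => ((hw z _).2 hz.2).ne b.2.1)
    ⟨y, ⟨y1, (hw y _).1 (opn_tet hT hF hl y2).2.1⟩, y2⟩
  have eT : ∀ r β : ℝ, T0 (r * cis β) = (r * Real.cos β, r * Real.sin β) := fun r β => by
    simp [T0, cis, Complex.exp_ofReal_mul_I_re, Complex.exp_ofReal_mul_I_im]
  have tT : ∀ β : ℝ, Tendsto (fun r : ℝ => T0 (r * cis β)) (𝓝[>] 0) (𝓝 0) := fun β =>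
    ((show Continuous fun r : ℝ => T0 (r * cis β) by fun_prop).tendsto' 0 0
      (by simp)).mono_left nhdsWithin_le_nhds
  have neg : ∀ β, |β| < l / 2 → ∀ᶠ r : ℝ in 𝓝[>] 0, u (T0 (r * cis β)) < 0 := fun β hβ => by
    filter_upwards [(tT β).eventually (ball_mem_nhds 0 hu.pos), self_mem_nhdsWithin] with r a hr
    have hr' : 0 < r := hr
    obtain ⟨b1, b2⟩ := abs_lt.1 hβ
    have s1 := Real.sin_pos_of_pos_of_lt_pi (x := l / 2 - β) (by linarith) (by linarith [hl.2])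
    have s2 := Real.sin_pos_of_pos_of_lt_pi (x := l / 2 + β) (by linarith) (by linarith [hl.2])
    rw [Real.sin_sub] at s1
    rw [Real.sin_add] at s2
    have s3 : |Real.sin β| < Real.tan (l / 2) * Real.cos β := by
      rw [Real.tan_eq_sin_div_cos, div_mul_eq_mul_div, lt_div_iff₀ t2, ← abs_of_pos t2, ← abs_mul,
        abs_lt]
      constructor <;> linarith
    have h3 := (opn_tet hT hF hl (key _ ⟨a, by
      rw [mem_ofPred_eq, eT, aL, abs_mul, abs_of_pos hr', mul_assoc]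
      refine mul_lt_mul_of_pos_left ?_ (by positivity)
      nlinarith⟩)).2.2
    rw [gX, (co _ _).1, (co _ _).2.1] at h3
    have h4 := (le_abs_self _).trans_lt (lt_of_mul_lt_mul_left h3 (Real.sqrt_nonneg 2))
    have h5 := lt_of_mul_lt_mul_left (lt_of_mul_lt_mul_left h4 (hρ _ _).le) (by positivity)
    linarith
  have zer : ∀ s, s = l / 2 ∨ s = -(l / 2) → ∀ᶠ r : ℝ in 𝓝[>] 0, u (T0 (r * cis s)) = 0 := by
    intro s hs
    filter_upwards [((tT s).prodMk_nhds tendsto_const_nhds).eventually (near hu),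
      self_mem_nhdsWithin] with r a hr
    have hr' : 0 < r := hr
    refine a ?_
    have h1 := hρ (T0 (r * cis s)) 0
    obtain ⟨c0, c1, c2, c3⟩ := co (T0 (r * cis s)) 0
    have h2 : rho (T0 (r * cis s)) 0 ^ 2 = 1 + r ^ 2 := by
      rw [rho, Real.sq_sqrt (by positivity), eT]
      linear_combination r ^ 2 * Real.sin_sq_add_cos_sq s
    convert hM' (hq s hs ((rho (T0 (r * cis s)) 0)⁻¹ * r) (rho (T0 (r * cis s)) 0)⁻¹
      (by positivity) h1.le (by
        have := (inv_pos.1 h1).ne'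
        field_simp
        linarith)) using 1
    ext i
    fin_cases i
    · exact c0.trans (by simp [vP, vQ])
    · exact c1.trans (by simp [vP, vQ])
    · exact c2.trans (by simp [vP, vQ, eT, mul_assoc])
    · exact c3.trans (by simp [vP, vQ, eT, mul_assoc])
  rcases hTo.lead S _ δ u hu with he | ⟨m, c, hm, he⟩
  · obtain ⟨r, a, b⟩ := ((neg 0 (by simpa using hl.1)).and ((tT 0).eventually he)).exists
    exact absurd b a.ne
  · refine ⟨m, hm, ?_⟩
    rw [← angle he.1 (by omega) (half_pos hl.1) (lead_eq he _ (zer _ (Or.inl rfl)))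
      (lead_eq he _ (zer _ (Or.inr rfl))) fun β hβ => by
        simpa using lead_le he (cis β) (ε := 1) (by simp)
          ((neg β hβ).mono fun r hr => by simpa using hr.le)]
    ring

/-! ### The orbit -/

theorem orb_step {γ : ℕ} {M : Set E4} {l s t : ℝ} (hl : hf γ = l / 2)
    (hs : s = l / 2 ∨ s = -(l / 2)) (ht : t = π / 4 ∨ t = -(π / 4)) {x : E4} (hx : Orbit γ M x) :
    Orbit γ M (gR s t x) := gR_eq s t x ▸ Orbit.step s t x (hl ▸ hs) ht hx

theorem orb_ind {γ : ℕ} {M : Set E4} {l : ℝ} (hl : hf γ = l / 2) {P : E4 → Prop}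
    (h0 : ∀ x ∈ M, P x) (h1 : ∀ s t x, s = l / 2 ∨ s = -(l / 2) → t = π / 4 ∨ t = -(π / 4) →
      Orbit γ M x → P x → P (gR s t x)) {x : E4} (hx : Orbit γ M x) : P x := by
  induction hx with
  | base x hx => exact h0 x hx
  | step s t x hs ht hx ih => exact gR_eq s t x ▸ h1 s t x (hl ▸ hs) ht hx ih

theorem orb_rot {γ : ℕ} {M : Set E4} {l : ℝ} (hl : hf γ = l / 2) (j k : ℤ) {x : E4}
    (hx : Orbit γ M x) : Orbit γ M (rot (j * π) (2 * k * l) x) := by
  have two : ∀ s t s' t' θ φ, s = l / 2 ∨ s = -(l / 2) → t = π / 4 ∨ t = -(π / 4) →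
      s' = l / 2 ∨ s' = -(l / 2) → t' = π / 4 ∨ t' = -(π / 4) → Orbit γ M (rot θ φ x) →
      ∀ θ' φ', θ' = 2 * t - 2 * t' + θ → φ' = 2 * s - 2 * s' + φ → Orbit γ M (rot θ' φ' x) := by
    rintro s t s' t' θ φ a b c d e _ _ rfl rfl
    rw [← rot_rot, ← gR_gR]
    exact orb_step hl a b (orb_step hl c d e)
  induction j using Int.induction_on with
  | zero =>
    induction k using Int.induction_on with
    | zero => simpa [rot_zero] using hx
    | succ k ih =>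
      exact two _ _ _ _ _ _ (Or.inl rfl) (Or.inl rfl) (Or.inr rfl) (Or.inl rfl) ih _ _ (by ring)
        (by push_cast; ring)
    | pred k ih =>
      exact two _ _ _ _ _ _ (Or.inr rfl) (Or.inl rfl) (Or.inl rfl) (Or.inl rfl) ih _ _ (by ring)
        (by push_cast; ring)
  | succ j ih =>
    exact two _ _ _ _ _ _ (Or.inl rfl) (Or.inl rfl) (Or.inl rfl) (Or.inr rfl) ih _ _
      (by push_cast; ring) (by ring)
  | pred j ih =>
    exact two _ _ _ _ _ _ (Or.inl rfl) (Or.inr rfl) (Or.inl rfl) (Or.inl rfl) ih _ _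
      (by push_cast; ring) (by ring)

theorem orb_fin (hI : InvS) {γ : ℕ} {M : Set E4} {l : ℝ} (hl : hf γ = l / 2) {m : ℕ} (hm : 0 < m)
    (e : l * m = π) : ∃ G : Set Iso, G.Finite ∧ (∀ g ∈ G, Gam g) ∧
      {x | Orbit γ M x} = ⋃ g ∈ G, g '' M := by
  refine ⟨(fun q : ℤ × ℤ => rot (q.1 * π) (2 * q.2 * l)) '' (Ico 0 2 ×ˢ Ico 0 (m : ℤ)) ∪
    (fun q : ℤ × ℤ => cj.trans (rot (q.1 * π + π / 2) (2 * q.2 * l + l))) ''
      (Ico 0 2 ×ˢ Ico 0 (m : ℤ)),
    (((finite_Ico _ _).prod (finite_Ico _ _)).image _).union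
      (((finite_Ico _ _).prod (finite_Ico _ _)).image _), ?_, Subset.antisymm (fun x hx => ?_) ?_⟩
  · rintro g (⟨q, -, rfl⟩ | ⟨q, -, rfl⟩)
    exacts [hI.gams.1 _ _, gam_cj hI _ _]
  · have : ∃ j k : ℤ, ∃ y ∈ M, x = rot (j * π) (2 * k * l) y ∨
        x = rot (j * π + π / 2) (2 * k * l + l) (cj y) := by
      refine orb_ind hl (P := fun x => ∃ j k : ℤ, ∃ y ∈ M, x = rot (j * π) (2 * k * l) y ∨
        x = rot (j * π + π / 2) (2 * k * l + l) (cj y))
        (fun x hx => ⟨0, 0, x, hx, Or.inl (by simp [rot_zero])⟩) ?_ hx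
      rintro s t x hs ht - ⟨j, k, y, hy, h⟩
      obtain ⟨a, ha⟩ : ∃ a : ℤ, 2 * s = l - 2 * a * l := by
        rcases hs with rfl | rfl
        exacts [⟨0, by push_cast; ring⟩, ⟨1, by push_cast; ring⟩]
      obtain ⟨b, hb⟩ : ∃ b : ℤ, 2 * t = π / 2 - b * π := by
        rcases ht with rfl | rfl
        exacts [⟨0, by push_cast; ring⟩, ⟨1, by push_cast; ring⟩]
      refine ⟨-j - b, -k - a, y, hy, ?_⟩
      rcases h with rfl | rfl <;> rw [gR_rot, ha, hb]
      · right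
        congr 2 <;> push_cast <;> ring
      · left
        rw [cj_cj]
        congr 2 <;> push_cast <;> ring
    obtain ⟨j, k, y, hy, h⟩ := this
    have hm' : (0 : ℤ) < m := by exact_mod_cast hm
    have hq : (j % 2, k % m) ∈ Ico (0 : ℤ) 2 ×ˢ Ico 0 (m : ℤ) :=
      ⟨⟨Int.emod_nonneg _ (by norm_num), Int.emod_lt_of_pos _ (by norm_num)⟩,
        Int.emod_nonneg _ hm'.ne', Int.emod_lt_of_pos _ hm'⟩
    have e1 : (j : ℝ) = (j % 2 : ℤ) + 2 * (j / 2 : ℤ) := by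
      exact_mod_cast (Int.emod_add_mul_ediv j 2).symm
    have e2 : (k : ℝ) = (k % m : ℤ) + m * (k / m : ℤ) := by
      exact_mod_cast (Int.emod_add_mul_ediv k m).symm
    rcases h with rfl | rfl
    · refine mem_biUnion (Or.inl ⟨_, hq, rfl⟩) ⟨y, hy, ?_⟩
      rw [← rot_per _ _ (j / 2) (k / m)]
      congr 2
      · linear_combination -π * e1
      · linear_combination -2 * l * e2 - 2 * ((k / m : ℤ) : ℝ) * e
    · refine mem_biUnion (Or.inr ⟨_, hq, rfl⟩) ⟨y, hy, ?_⟩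
      rw [LinearIsometryEquiv.trans_apply, ← rot_per _ _ (j / 2) (k / m)]
      congr 2
      · linear_combination -π * e1
      · linear_combination -2 * l * e2 - 2 * ((k / m : ℤ) : ℝ) * e
  · refine iUnion₂_subset ?_
    rintro g (⟨q, -, rfl⟩ | ⟨q, -, rfl⟩) _ ⟨y, hy, rfl⟩
    · exact orb_rot hl _ _ (Orbit.base y hy)
    · have := orb_rot hl q.1 q.2 (orb_step hl (Or.inl rfl) (Or.inl rfl) (Orbit.base y hy))
      rw [gR_def, rot_rot] at this
      rw [mem_ofPred_eq, LinearIsometryEquiv.trans_apply]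
      convert this using 3 <;> ring

theorem count {l : ℝ} {m : ℕ} (hm : 0 < m) (e : l * m = π) :
    {x | ∃ n : ℤ, x = vP (l / 2 + n * l)}.ncard = 2 * m := by
  have hm' : (0 : ℤ) < 2 * m := by omega
  have hl : 0 < l := by
    refine (mul_pos_iff_of_pos_right (show (0 : ℝ) < m by exact_mod_cast hm)).1 ?_
    rw [e]
    exact Real.pi_pos
  have h1 : {x | ∃ n : ℤ, x = vP (l / 2 + n * l)}
      = (fun n : ℤ => vP (l / 2 + n * l)) '' Ico 0 (2 * m : ℤ) := by
    refine Subset.antisymm ?_ ?_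
    · rintro _ ⟨n, rfl⟩
      refine ⟨n % (2 * m), ⟨Int.emod_nonneg _ hm'.ne', Int.emod_lt_of_pos _ hm'⟩, ?_⟩
      have e2 : (n : ℝ) = (n % (2 * m) : ℤ) + 2 * m * (n / (2 * m) : ℤ) := by
        exact_mod_cast (Int.emod_add_mul_ediv n (2 * m)).symm
      have e3 : l / 2 + n * l = l / 2 + (n % (2 * m) : ℤ) * l + (n / (2 * m) : ℤ) * (2 * π) := by
        linear_combination l * e2 + 2 * ((n / (2 * m) : ℤ) : ℝ) * e
      simp only [e3, vP, Real.cos_add_int_mul_two_pi, Real.sin_add_int_mul_two_pi]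
    · rintro _ ⟨n, -, rfl⟩
      exact ⟨n, rfl⟩
  rw [h1, InjOn.ncard_image, ← Finset.coe_Ico, ncard_coe_finset, Int.card_Ico]
  · omega
  · intro n hn n' hn' h
    have a : Real.cos (l / 2 + n * l) = Real.cos (l / 2 + n' * l) := by
      simpa [vP] using congrArg (fun x : E4 => x 2) h
    have b : Real.sin (l / 2 + n * l) = Real.sin (l / 2 + n' * l) := by
      simpa [vP] using congrArg (fun x : E4 => x 3) h
    have c : Real.cos (l / 2 + n * l - (l / 2 + n' * l)) = 1 := by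
      rw [Real.cos_sub, a, b]
      linear_combination Real.sin_sq_add_cos_sq (l / 2 + n' * l)
    have i1 : (0 : ℝ) ≤ n := by exact_mod_cast hn.1
    have i2 : (n : ℝ) < 2 * m := by exact_mod_cast hn.2
    have i3 : (0 : ℝ) ≤ n' := by exact_mod_cast hn'.1
    have i4 : (n' : ℝ) < 2 * m := by exact_mod_cast hn'.2
    have := (Real.cos_eq_one_iff_of_lt_of_lt (by nlinarith) (by nlinarith)).1 c
    exact_mod_cast mul_right_cancel₀ hl.ne' (show (n : ℝ) * l = n' * l by linarith)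

theorem disc {a b : ℝ} (ha : 0 < a) (hb : 0 < b) : ∃ κ : ℂ → P2, Continuous κ ∧
    Function.Injective κ ∧ κ '' ball 0 1 = Rho a b ∧ κ '' closedBall 0 1 = Rh a b ∧
      κ '' sphere 0 1 = Rh a b \ Rho a b := by
  let e := Complex.equivRealProdCLM
  have hN : Continuous fun y : P2 => |y.1| / a + |y.2| / b := by fun_prop
  have ho : IsOpen (Rho a b) := isOpen_lt hN continuous_const
  have hcl : closure (Rho a b) = Rh a b := by
    refine Subset.antisymm (closure_lt_subset_le hN continuous_const) fun y hy => ?_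
    refine mem_closure_of_tendsto (f := fun t : ℝ => t • y) (b := 𝓝[<] 1)
      (((show Continuous fun t : ℝ => t • y by fun_prop).tendsto' 1 y
        (one_smul _ _)).mono_left nhdsWithin_le_nhds) ?_
    filter_upwards [Ioo_mem_nhdsLT (show (0 : ℝ) < 1 by norm_num)] with t ht
    have h : |y.1| / a + |y.2| / b ≤ 1 := hy
    simp only [Rho, mem_ofPred_eq, Prod.smul_fst, Prod.smul_snd, smul_eq_mul, abs_mul,
      abs_of_pos ht.1, mul_div_assoc, ← mul_add]
    nlinarith [ht.1, ht.2]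
  have hcv : Convex ℝ (Rho a b) := by
    have c : ∀ f : P2 →ₗ[ℝ] ℝ, ConvexOn ℝ univ fun y => |f y| := fun f => by
      simpa [Function.comp_def] using (convexOn_univ_norm (E := ℝ)).comp_linearMap f
    have := (((c (LinearMap.fst ℝ ℝ ℝ)).smul (inv_pos.2 ha).le).add
      ((c (LinearMap.snd ℝ ℝ ℝ)).smul (inv_pos.2 hb).le)).convex_lt 1
    simpa [Rho, div_eq_inv_mul] using this
  have hbd : Bornology.IsBounded (Rho a b) := by
    refine (isBounded_ball (x := (0 : P2)) (r := a + b)).subset fun y hy => ?_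
    have h : |y.1| / a + |y.2| / b < 1 := hy
    have h1 : |y.1| < a := (div_lt_one ha).1 (by linarith [div_nonneg (abs_nonneg y.2) hb.le])
    have h2 : |y.2| < b := (div_lt_one hb).1 (by linarith [div_nonneg (abs_nonneg y.1) ha.le])
    simp only [mem_ball_zero_iff, Prod.norm_def, Real.norm_eq_abs, max_lt_iff]
    constructor <;> linarith
  have ho' : IsOpen (e ⁻¹' Rho a b) := ho.preimage e.continuous
  obtain ⟨h, h1, h2, h3⟩ := exists_homeomorph_image_interior_closure_frontier_eq_unitBall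
    (s := e ⁻¹' Rho a b) (hcv.linear_preimage e.toLinearEquiv.toLinearMap)
    (by rw [ho'.interior_eq]; exact ⟨0, by simp [Rho]⟩) (e.antilipschitz.isBounded_preimage hbd)
  have hc' : closure (e ⁻¹' Rho a b) = e ⁻¹' Rh a b := by
    rw [← hcl]
    exact (e.toHomeomorph.preimage_closure _).symm
  have key : ∀ A, (fun z => e (h.symm z)) '' (h '' (e ⁻¹' A)) = A := fun A => by
    rw [image_image]
    simp only [Homeomorph.symm_apply_apply]
    exact image_preimage_eq _ e.surjective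
  refine ⟨fun z => e (h.symm z), by fun_prop, e.injective.comp h.symm.injective, ?_, ?_, ?_⟩
  · rw [← h1, ho'.interior_eq, key]
  · rw [← h2, hc', key]
  · rw [← h3, ho'.frontier_eq, hc', ← preimage_sdiff, key]

end ELaw

open ELaw in
theorem lawS (hM : MeqS) (hC : ChartS) (hTo : TouchS) (hT : TetS) (hF : LfS) : LawS := by
  intro γ hγ M
  have hγ' : (1 : ℝ) ≤ γ := by exact_mod_cast hγ
  have hl : π / (γ + 1) ∈ Ioo 0 π := ⟨by positivity, div_lt_self Real.pi_pos (by linarith)⟩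
  obtain ⟨e1, e2⟩ := hT.law γ hγ
  have hu := hF _ hl
  constructor
  · rintro ⟨h1, f, f1, f2, rfl, f4, f5⟩
    rw [e1] at h1
    rw [e2] at f4
    have u1 : f '' closedBall 0 1 = f '' ball 0 1 ∪ Quad (aL (π / (γ + 1))) √2 := by
      rw [← f4, ← image_union, ball_union_sphere]
    have u2 : closure (f '' ball 0 1) ⊆ f '' ball 0 1 ∪ Quad (aL (π / (γ + 1))) √2 := by
      rw [← u1]
      exact closure_minimal (image_mono ball_subset_closedBall)
        ((isCompact_closedBall 0 1).image_of_continuousOn f1).isClosed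
    have u3 : f '' ball 0 1 ⊆ opn (π / (γ + 1)) := fun x hx => by
      have : x ∈ leafSet (π / (γ + 1)) :=
        hT.uq _ _ _ hu _ f5 ((image_mono ball_subset_closedBall).trans h1) u2 hx
      rw [leaf_eq hT hF hl, ← f4] at this
      refine this.resolve_right ?_
      rintro ⟨z, hz, e⟩
      obtain ⟨z', hz', rfl⟩ := hx
      obtain rfl := f2 (sphere_subset_closedBall hz) (ball_subset_closedBall hz') e
      exact (mem_ball.1 hz').ne (mem_sphere.1 hz)
    have h0 : f 0 ∈ f '' ball 0 1 := mem_image_of_mem f (mem_ball_self one_pos)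
    have u4 := hTo.cont _ _ (min_opn hT hF hl) f5 (hT.cpt _ _ _ hu).2.2.2.2.1
      (fun x hx => (u2 hx.2).resolve_right (opn_quad hT hF hl hx.1)) ⟨f 0, u3 h0, by
        rw [← germ_eq hM hC f5 (min_opn hT hF hl) h0 (eventually_mem_nhdsWithin.mono u3)]
        exact eventually_mem_nhdsWithin⟩
    rw [u1, leaf_eq hT hF hl, Subset.antisymm u3 u4]
  · rintro rfl
    obtain ⟨κ, k1, k2, k3, k4, k5⟩ := disc hu.apos hu.bpos
    refine ⟨?_, fun z => gX O0 (lf (π / (γ + 1))) (κ z), ?_, fun z _ z' _ e => ?_, ?_, ?_, ?_⟩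
    · rw [e1]
      rintro _ ⟨y, hy, rfl⟩
      exact (hT.mem _ _ hu.apos hu.bpos _).2 ⟨y, hy, _, hu.low y hy, hu.upp y hy, rfl⟩
    · exact (hT.cpt _ _ _ hu).1.comp k1.continuousOn fun z hz => k4 ▸ mem_image_of_mem κ hz
    · exact k2 (BTouch.gX_inj e).1
    · rw [← image_image, k4, leafSet]
    · rw [← image_image, k5, e2, hT.quad _ _ _ hu]
    · rw [← image_image, k3]
      exact min_opn hT hF hl

open ELaw in
theorem orbS (hM : MeqS) (hC : ChartS) (hTo : TouchS) (hL : LeadS) (hI : InvS) (hT : TetS)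
    (hF : LfS) : OrbS := by
  intro S hS hc hcon l hl hM'
  obtain ⟨m, hm, e⟩ := ang_eq hM hC hTo hT hF hl hS hM'
  obtain ⟨γ, rfl⟩ := Nat.exists_eq_add_of_le' (show 1 ≤ m by omega)
  have e' : l * (γ + 1 : ℕ) = π := by rw [e]; field_simp
  push_cast at e
  have hh : hf γ = l / 2 := by rw [hf, e]; field_simp
  have hQ : Quad (aL l) √2 ⊆ leafSet l := by rw [leaf_eq hT hF hl]; exact subset_union_right
  have hO : opn l ⊆ leafSet l := by rw [leaf_eq hT hF hl]; exact subset_union_left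
  have inv : ∀ s t, s = l / 2 ∨ s = -(l / 2) → t = π / 4 ∨ t = -(π / 4) →
      ∀ x ∈ S, gR s t x ∈ S := fun s t hs ht => refl hM hC hTo hL hI hT hS hc hcon.isPreconnected
    fun a b i j k => hM' (hQ (arc_quad hl hs ht a b i j k))
  have haa : ∀ s t x, aa (gR s t x) = aa x := fun s t => gam_cj hI _ _
  set A : Set E4 := {x | Orbit γ (leafSet l) x} with hA
  have h1 : A ⊆ S := fun x hx => orb_ind hh hM' (fun s t x hs ht _ => inv s t hs ht x) hx
  obtain ⟨G, g1, g2, g3⟩ := orb_fin hI (M := leafSet l) hh (Nat.succ_pos γ) e'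
  rw [← hA] at g3
  have h2 : IsClosed A := g3 ▸ g1.isClosed_biUnion fun g _ =>
    ((hT.cpt _ _ _ (hF l hl)).2.1.image g.continuous).isClosed
  have vert : ∀ x ∈ leafSet l, (aa x = 0 → x = vP (l / 2) ∨ x = vP (-(l / 2))) ∧
      (aa x = 1 → x = vQ (π / 4) ∨ x = vQ (-(π / 4))) := fun x hx => by
    rw [leaf_eq hT hF hl] at hx
    rcases hx with hx | hx
    · exact ⟨fun h => absurd h (opn_aa hT hF hl hx).1, fun h => absurd h (opn_aa hT hF hl hx).2⟩
    obtain ⟨s, t, α, β, hs, ht, i1, i2, i3, rfl⟩ := quad_cases hT hl hx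
    rw [aa_cone]
    refine ⟨fun h => ?_, fun h => ?_⟩
    · obtain rfl : β = 0 := by simpa using h
      obtain rfl : α = 1 := by nlinarith
      rcases hs with rfl | rfl <;> simp
    · obtain rfl : α = 0 := by nlinarith
      obtain rfl : β = 1 := by nlinarith
      rcases ht with rfl | rfl <;> simp
  have h3 : (A ∩ {x | aa x = 0 ∨ aa x = 1}).Finite := by
    refine (g1.biUnion (t := fun g : Iso => g '' {vP (l / 2), vP (-(l / 2)), vQ (π / 4),
      vQ (-(π / 4))}) fun g _ => (toFinite _).image _).subset ?_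
    rw [g3]
    rintro x ⟨hx, hx'⟩
    obtain ⟨g, hg, y, hy, rfl⟩ := mem_iUnion₂.1 hx
    refine mem_biUnion hg ⟨y, ?_, rfl⟩
    rw [mem_ofPred_eq, g2 g hg] at hx'
    have := hx'.imp (vert y hy).1 (vert y hy).2
    simpa only [mem_insert_iff, mem_singleton_iff, or_assoc] using this
  have tr : ∀ s t x, s = l / 2 ∨ s = -(l / 2) → t = π / 4 ∨ t = -(π / 4) →
      Tendsto (gR s t) (𝓝[S] (gR s t x)) (𝓝[S] x) := fun s t x hs ht => by
    refine tendsto_nhdsWithin_iff.2 ⟨?_, eventually_mem_nhdsWithin.mono (inv s t hs ht)⟩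
    exact ((gR s t).continuous.tendsto' _ _ (gR_inv s t x)).mono_left nhdsWithin_le_nhds
  have h4 : ∀ x ∈ A, ¬ (aa x = 0 ∨ aa x = 1) → ∀ᶠ y in 𝓝[S] x, y ∈ A := fun x hx => by
    refine orb_ind hh (P := fun x => ¬ (aa x = 0 ∨ aa x = 1) → ∀ᶠ y in 𝓝[S] x, y ∈ A)
      (fun x hx hn => ?_) (fun s t x hs ht _ ih hn => ?_) hx
    · by_cases hq : x ∈ Quad (aL l) √2
      · obtain ⟨s, t, α, β, hs, ht, i1, i2, i3, rfl⟩ := quad_cases hT hl hq
        rw [aa_cone, not_or] at hn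
        exact edge_open hM hC hT hF hl hs ht (i1.lt_of_ne fun h => hn.2 (by rw [← i3, ← h]; ring))
          (i2.lt_of_ne fun h => hn.1 (by rw [← h]; ring)) i3 hS hM' (inv s t hs ht)
          (fun y hy => Orbit.base y hy) fun y hy => orb_step hh hs ht hy
      · exact (opn_open hM hC hT hF hl hS hM' (clo_opn hT hF hl ▸ hx) hq).mono
          fun y hy => Orbit.base y (hO hy)
    · rw [haa] at hn
      filter_upwards [(tr s t x hs ht).eventually (ih hn)] with y hy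
      exact gR_inv s t y ▸ orb_step hh hs ht hy
  have h5 : ∀ x ∈ A, x ∈ closure (A \ (A ∩ {x | aa x = 0 ∨ aa x = 1})) := fun x hx => by
    refine orb_ind hh (P := fun x => x ∈ closure (A \ (A ∩ {x | aa x = 0 ∨ aa x = 1})))
      (fun x hx => ?_) (fun s t x hs ht _ ih => ?_) hx
    · rw [← clo_opn hT hF hl] at hx
      refine closure_mono (fun y hy => ?_) hx
      exact ⟨Orbit.base y (hO hy), fun h => not_or.2 (opn_aa hT hF hl hy) h.2⟩
    · refine map_mem_closure (gR s t).continuous ih fun y hy =>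
        ⟨orb_step hh hs ht hy.1, fun h => hy.2 ⟨hy.1, ?_⟩⟩
      have := h.2
      rwa [mem_ofPred_eq, haa] at this
  have hP : ∀ s, s = l / 2 ∨ s = -(l / 2) → vP s ∈ A := fun s hs => Orbit.base _ (hQ (by
    simpa using arc_quad hl hs (Or.inl rfl) 1 0 zero_le_one le_rfl (by norm_num)))
  have h6 : A = S := h1.antisymm (clopen hcon.isPreconnected h2
    ⟨_, h1 (hP _ (Or.inl rfl)), hP _ (Or.inl rfl)⟩ fun x _ hx =>
      vertex hM hC hS h2 h1 h3 (fun y hy hn => h4 y hy fun h => hn ⟨hy, h⟩) (h5 x hx))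
  refine ⟨γ, by omega, e, h6, ?_⟩
  rw [← count (Nat.succ_pos γ) e', ← h6]
  congr 1
  refine Subset.antisymm (fun x hx => ?_) ?_
  · refine orb_ind hh (P := fun x => aa x = 0 → ∃ n : ℤ, x = vP (l / 2 + n * l))
      (fun x hx h => ?_) (fun s t x hs ht _ ih h => ?_) hx.1 hx.2
    · rcases (vert x hx).1 h with rfl | rfl
      · exact ⟨0, by simp⟩
      · exact ⟨-1, by congr 1; push_cast; ring⟩
    · obtain ⟨n, rfl⟩ := ih (haa s t x ▸ h)
      rw [gR_vP]
      rcases hs with rfl | rfl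
      · exact ⟨-n, by congr 1; push_cast; ring⟩
      · exact ⟨-n - 2, by congr 1; push_cast; ring⟩
  · rintro _ ⟨n, rfl⟩
    refine ⟨?_, by simp [aa, vP]⟩
    obtain ⟨k, rfl | rfl⟩ := Int.even_or_odd' n
    · have := orb_rot hh 0 k (hP _ (Or.inl rfl))
      rw [rot_vP] at this
      change Orbit γ (leafSet l) _
      convert this using 2
      push_cast
      ring
    · have := orb_rot hh 0 (k + 1) (hP _ (Or.inr rfl))
      rw [rot_vP] at this
      change Orbit γ (leafSet l) _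
      convert this using 2
      push_cast
      ring

end Pool.Agent.Lib.MP_16d934_gt
end
end
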