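import Pool.Agent.Lib.MP_16d934_gt.Bridge

/-! Closed embedded minimal surfaces of genus `γ` in the three-sphere with type-0 symmetry are
congruent to the Lawson surface.  Former hand-in, now implied by the hand-in Classification. -/

set_option autoImplicit false

namespace Pool.Agent.Retired.MP_16d934_gt.Unique

open Pool.Agent.Lib.MP_16d934_gt.Spec

theorem result (γ : ℕ) (hγ : 1 ≤ γ) :
    (∃! M, LawsonDisc γ M) ∧ ∀ M, LawsonDisc γ M → ∀ (S : Set E4) (τ ρ : E4 → E4),
      ClosedMin γ S → Type0 S τ ρ → Congruent {x | Orbit γ M x} S :=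
  Pool.Agent.Lib.MP_16d934_gt.main' γ hγ

end Pool.Agent.Retired.MP_16d934_gt.Unique
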